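import Mathlib
import Pool.Agent.Lib.MP_d90615_co.Graph

section

/-!
Forests with virtual links.  `rel ends F L` is connectivity by the edges of `F` and the links of
the list `L`; `good ends F L` says that `F` together with the links of `L` is a forest.
-/

namespace Pool.Agent.CL

open Finset Pool.Agent.Lib.MP_d90615_co

variable {V E : Type*}

/-- The relation `R` with a link between `u` and `v` added. -/
def Ins (R : V → V → Prop) (u v : V) : V → V → Prop :=
  fun i j => R i j ∨ (R i u ∧ R v j) ∨ (R i v ∧ R u j)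

lemma Ins_equiv {R : V → V → Prop} (h : Equivalence R) (u v : V) : Equivalence (Ins R u v) := by
  refine ⟨fun i => Or.inl (h.refl i), ?_, ?_⟩
  · rintro i j (h1 | ⟨h1, h2⟩ | ⟨h1, h2⟩)
    · exact Or.inl (h.symm h1)
    · exact Or.inr (Or.inr ⟨h.symm h2, h.symm h1⟩)
    · exact Or.inr (Or.inl ⟨h.symm h2, h.symm h1⟩)
  · rintro i j k (h1 | ⟨h1, h2⟩ | ⟨h1, h2⟩) (h3 | ⟨h3, h4⟩ | ⟨h3, h4⟩)
    · exact Or.inl (h.trans h1 h3)
    · exact Or.inr (Or.inl ⟨h.trans h1 h3, h4⟩)
    · exact Or.inr (Or.inr ⟨h.trans h1 h3, h4⟩)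
    · exact Or.inr (Or.inl ⟨h1, h.trans h2 h3⟩)
    · exact Or.inr (Or.inl ⟨h1, h4⟩)
    · exact Or.inl (h.trans h1 h4)
    · exact Or.inr (Or.inr ⟨h1, h.trans h2 h3⟩)
    · exact Or.inl (h.trans h1 h4)
    · exact Or.inr (Or.inr ⟨h1, h4⟩)

lemma Ins_iff {R : V → V → Prop} (h : Equivalence R) (u v i j : V) :
    Ins R u v i j ↔
      ∀ S : V → V → Prop, Equivalence S → (∀ x y, R x y → S x y) → S u v → S i j := by
  constructor
  · rintro h1 S hS hR huv
    rcases h1 with h1 | ⟨h1, h2⟩ | ⟨h1, h2⟩
    · exact hR _ _ h1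
    · exact hS.trans (hS.trans (hR _ _ h1) huv) (hR _ _ h2)
    · exact hS.trans (hS.trans (hR _ _ h1) (hS.symm huv)) (hR _ _ h2)
  · intro h1
    exact h1 _ (Ins_equiv h u v) (fun x y hxy => Or.inl hxy)
      (Or.inr (Or.inl ⟨h.refl u, h.refl v⟩))

lemma Ins_le {R : V → V → Prop} (u v : V) {i j : V} (h : R i j) : Ins R u v i j := Or.inl h

lemma Ins_comm {R : V → V → Prop} (h : Equivalence R) (u v p q : V) :
    Ins (Ins R u v) p q = Ins (Ins R p q) u v := by
  funext i j
  apply propext
  rw [Ins_iff (Ins_equiv h u v), Ins_iff (Ins_equiv h p q)]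
  constructor
  · intro h1 S hS hR huv
    refine h1 S hS ?_ ?_
    · intro x y hxy
      rw [Ins_iff h] at hxy
      exact hxy S hS (fun x y h2 => hR _ _ (Or.inl h2)) huv
    · exact hR _ _ (Or.inr (Or.inl ⟨h.refl p, h.refl q⟩))
  · intro h1 S hS hR hpq
    refine h1 S hS ?_ ?_
    · intro x y hxy
      rw [Ins_iff h] at hxy
      exact hxy S hS (fun x y h2 => hR _ _ (Or.inl h2)) hpq
    · exact hR _ _ (Or.inr (Or.inl ⟨h.refl u, h.refl v⟩))

lemma good_comm_aux {R : V → V → Prop} (h : Equivalence R) (u v p q : V) :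
    (¬ R p q ∧ ¬ Ins R p q u v) ↔ (¬ R u v ∧ ¬ Ins R u v p q) := by
  have key : ∀ u v p q : V, (¬ R p q ∧ ¬ Ins R p q u v) → (¬ R u v ∧ ¬ Ins R u v p q) := by
    rintro u v p q ⟨h1, h2⟩
    refine ⟨fun h3 => h2 (Or.inl h3), ?_⟩
    rintro (h3 | ⟨h3, h4⟩ | ⟨h3, h4⟩)
    · exact h1 h3
    · exact h2 (Or.inr (Or.inl ⟨h.symm h3, h.symm h4⟩))
    · exact h2 (Or.inr (Or.inr ⟨h4, h3⟩))
  exact ⟨key _ _ _ _, key _ _ _ _⟩

/-- Connectivity by the edges of `F` and the links in `L`. -/
def rel (ends : E → Sym2 V) (F : Finset E) : List (V × V) → V → V → Prop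
  | [] => Conn ends F
  | q :: L => Ins (rel ends F L) q.1 q.2

lemma Conn_equiv (ends : E → Sym2 V) (F : Finset E) : Equivalence (Conn ends F) :=
  ⟨Conn.refl ends F, fun h => h.symm, fun h h' => h.trans h'⟩

lemma rel_equiv (ends : E → Sym2 V) (F : Finset E) (L : List (V × V)) :
    Equivalence (rel ends F L) := by
  induction L with
  | nil => exact Conn_equiv ends F
  | cons q L ih => exact Ins_equiv ih _ _

variable [DecidableEq E]

/-- The edges of `F` and the links in `L` form a forest. -/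
def good (ends : E → Sym2 V) (F : Finset E) : List (V × V) → Prop
  | [] => Forest ends F
  | q :: L => good ends F L ∧ ¬ rel ends F L q.1 q.2

lemma rel_insert {ends : E → Sym2 V} {F : Finset E} {e : E} {p q : V}
    (he : ends e = s(p, q)) (L : List (V × V)) :
    rel ends (insert e F) L = Ins (rel ends F L) p q := by
  induction L with
  | nil =>
    funext i j
    exact propext (conn_insert he i j)
  | cons r L ih =>
    show Ins (rel ends (insert e F) L) r.1 r.2 = Ins (Ins (rel ends F L) r.1 r.2) p q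
    rw [ih, Ins_comm (rel_equiv ends F L)]

lemma good_insert {ends : E → Sym2 V} {F : Finset E} {e : E} {p q : V}
    (he : ends e = s(p, q)) (heF : e ∉ F) (L : List (V × V)) :
    good ends (insert e F) L ↔ good ends F L ∧ ¬ rel ends F L p q := by
  induction L with
  | nil => exact forest_insert he heF
  | cons r L ih =>
    show good ends (insert e F) L ∧ ¬ rel ends (insert e F) L r.1 r.2 ↔
      (good ends F L ∧ ¬ rel ends F L r.1 r.2) ∧ ¬ Ins (rel ends F L) r.1 r.2 p q
    rw [ih, rel_insert he, and_assoc, and_assoc,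
      good_comm_aux (rel_equiv ends F L)]

lemma good_forest {ends : E → Sym2 V} {F : Finset E} {L : List (V × V)}
    (h : good ends F L) : Forest ends F := by
  induction L with
  | nil => exact h
  | cons q L ih => exact ih h.1

/-- Two pairs (edges, links) with the same connectivity on the vertices `out` behave in the same
way when the edges `B` on `out` are added. -/
lemma eqv {ends : E → Sym2 V} {A A' : Finset E} {L L' : List (V × V)} (out : V → Prop)
    (h1 : ∀ u v, out u → out v → (rel ends A L u v ↔ rel ends A' L' u v))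
    (h2 : good ends A L ↔ good ends A' L') (B : Finset E)
    (hB : ∀ e ∈ B, ∀ v ∈ ends e, out v) (hA : Disjoint A B) (hA' : Disjoint A' B) :
    (∀ u v, out u → out v → (rel ends (A ∪ B) L u v ↔ rel ends (A' ∪ B) L' u v)) ∧
      (good ends (A ∪ B) L ↔ good ends (A' ∪ B) L') := by
  induction B using Finset.induction_on with
  | empty => simpa using ⟨h1, h2⟩
  | insert e B heB ih =>
    obtain ⟨hA1, hA2⟩ := Finset.disjoint_insert_right.mp hA
    obtain ⟨hA3, hA4⟩ := Finset.disjoint_insert_right.mp hA'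
    obtain ⟨ih1, ih2⟩ := ih (fun e he => hB e (Finset.mem_insert_of_mem he)) hA2 hA4
    have hee : ∀ v ∈ ends e, out v := hB e (Finset.mem_insert_self _ _)
    obtain ⟨p, q, hpq⟩ : ∃ p q, ends e = s(p, q) := by
      induction h : ends e using Sym2.ind with
      | _ p q => exact ⟨p, q, rfl⟩
    have hp : out p := hee p (by rw [hpq]; exact Sym2.mem_mk_left _ _)
    have hq : out q := hee q (by rw [hpq]; exact Sym2.mem_mk_right _ _)
    have e1 : A ∪ insert e B = insert e (A ∪ B) := Finset.union_insert _ _ _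
    have e2 : A' ∪ insert e B = insert e (A' ∪ B) := Finset.union_insert _ _ _
    have n1 : e ∉ A ∪ B := by simp [hA1, heB]
    have n2 : e ∉ A' ∪ B := by simp [hA3, heB]
    refine ⟨fun u v hu hv => ?_, ?_⟩
    · rw [e1, e2, rel_insert hpq, rel_insert hpq]
      unfold Ins
      rw [ih1 u v hu hv, ih1 u p hu hp, ih1 q v hq hv, ih1 u q hu hq, ih1 p v hp hv]
    · rw [e1, e2, good_insert hpq n1, good_insert hpq n2, ih2, ih1 p q hp hq]

/-- Prefixing links between vertices of `out`. -/
lemma eqv_append {ends : E → Sym2 V} {A A' : Finset E} {L M : List (V × V)} (out : V → Prop)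
    (h1 : ∀ u v, out u → out v → (rel ends A [] u v ↔ rel ends A' M u v))
    (h2 : good ends A [] ↔ good ends A' M) (hL : ∀ q ∈ L, out q.1 ∧ out q.2) :
    (∀ u v, out u → out v → (rel ends A L u v ↔ rel ends A' (L ++ M) u v)) ∧
      (good ends A L ↔ good ends A' (L ++ M)) := by
  induction L with
  | nil => exact ⟨h1, h2⟩
  | cons q L ih =>
    obtain ⟨i1, i2⟩ := ih fun r hr => hL r (List.mem_cons_of_mem _ hr)
    obtain ⟨hq1, hq2⟩ := hL q List.mem_cons_self
    refine ⟨fun u v hu hv => ?_, ?_⟩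
    · show Ins (rel ends A L) q.1 q.2 u v ↔ Ins (rel ends A' (L ++ M)) q.1 q.2 u v
      unfold Ins
      rw [i1 u v hu hv, i1 u _ hu hq1, i1 _ v hq2 hv, i1 u _ hu hq2, i1 _ v hq1 hv]
    · show (good ends A L ∧ ¬ rel ends A L q.1 q.2) ↔
        (good ends A' (L ++ M) ∧ ¬ rel ends A' (L ++ M) q.1 q.2)
      rw [i2, i1 _ _ hq1 hq2]

end Pool.Agent.CL
end

section

/-!
Real algebra: the forest state of a piece with three terminals is that of a star and a triangle.
-/

set_option autoImplicit false

namespace Pool.Agent.CL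

/-- The scaling of a star. -/
lemma star_scale {A T t : ℝ} (h0 : 0 ≤ t)
    (h1 : t * (1 + A) ^ 2 ≤ T) : ∃ θ : ℝ, 0 ≤ θ ∧ θ ≤ 1 ∧ θ ^ 3 * T = t * (1 + θ * A) ^ 2 := by
  have hc : ContinuousOn (fun θ : ℝ => θ ^ 3 * T - t * (1 + θ * A) ^ 2) (Set.Icc 0 1) :=
    Continuous.continuousOn (by fun_prop)
  have h := intermediate_value_Icc (zero_le_one' ℝ) hc
  have hm : (0 : ℝ) ∈ Set.Icc ((fun θ : ℝ => θ ^ 3 * T - t * (1 + θ * A) ^ 2) 0)
      ((fun θ : ℝ => θ ^ 3 * T - t * (1 + θ * A) ^ 2) 1) := by
    constructor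
    · simp only
      nlinarith
    · simp only
      nlinarith
  obtain ⟨θ, hθ, h2⟩ := h hm
  refine ⟨θ, hθ.1, hθ.2, ?_⟩
  simp only at h2
  linarith

/-- **Star and triangle.** -/
theorem star_triangle {s al be ga de : ℝ} (hs : 0 < s) (h1 : 0 ≤ al) (h2 : 0 ≤ be)
    (h3 : 0 ≤ ga) (hE : al * be + be * ga + ga * al ≤ s * de)
    (hP : (s * de - (al * be + be * ga + ga * al)) * de ≤ al * be * ga) :
    ∃ c a b x p q r : ℝ, 0 < c ∧ 0 ≤ a ∧ 0 ≤ b ∧ 0 ≤ x ∧ 0 ≤ p ∧ 0 ≤ q ∧ 0 ≤ r ∧
      s = c * (1 + a + b + x) ∧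
      al = c * (a * b + p * (1 + a + b + x)) ∧
      be = c * (b * x + q * (1 + a + b + x)) ∧
      ga = c * (a * x + r * (1 + a + b + x)) ∧
      de = c * (a * b * x + p * (b * x + a * x) + q * (a * b + a * x) + r * (a * b + b * x)
        + (p * q + q * r + r * p) * (1 + a + b + x)) := by
  -- normalised quantities
  obtain ⟨P, hPd⟩ : ∃ P, P = al / s := ⟨_, rfl⟩
  obtain ⟨Q, hQd⟩ : ∃ Q, Q = be / s := ⟨_, rfl⟩
  obtain ⟨R, hRd⟩ : ∃ R, R = ga / s := ⟨_, rfl⟩
  obtain ⟨U, hUd⟩ : ∃ U, U = de / s := ⟨_, rfl⟩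
  have eP : al = s * P := by rw [hPd]; field_simp
  have eQ : be = s * Q := by rw [hQd]; field_simp
  have eR : ga = s * R := by rw [hRd]; field_simp
  have eU : de = s * U := by rw [hUd]; field_simp
  have hP0 : 0 ≤ P := by rw [hPd]; positivity
  have hQ0 : 0 ≤ Q := by rw [hQd]; positivity
  have hR0 : 0 ≤ R := by rw [hRd]; positivity
  have hτ0 : P * Q + Q * R + R * P ≤ U := by
    rw [eP, eQ, eR, eU] at hE
    have : s ^ 2 * (P * Q + Q * R + R * P) ≤ s ^ 2 * U := by nlinarith
    exact le_of_mul_le_mul_left this (by positivity)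
  have hτ1 : (U - (P * Q + Q * R + R * P)) * U ≤ P * Q * R := by
    rw [eP, eQ, eR, eU] at hP
    have : s ^ 3 * ((U - (P * Q + Q * R + R * P)) * U) ≤ s ^ 3 * (P * Q * R) := by nlinarith
    exact le_of_mul_le_mul_left this (by positivity)
  have hU0 : 0 ≤ U := le_trans (by positivity) hτ0
  clear hPd hQd hRd hUd
  rcases (mul_nonneg (mul_nonneg hP0 hQ0) hR0).eq_or_lt with hz | hz
  · -- no star
    have hU : U = P * Q + Q * R + R * P := by
      rw [← hz] at hτ1
      rcases hU0.eq_or_lt with hu | hu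
      · have : 0 ≤ P * Q + Q * R + R * P := by positivity
        linarith
      · have : U - (P * Q + Q * R + R * P) ≤ 0 := by
          by_contra hcon
          push Not at hcon
          have := mul_pos hcon hu
          linarith
        linarith
    refine ⟨s, 0, 0, 0, P, Q, R, hs, le_refl _, le_refl _, le_refl _, hP0, hQ0, hR0, ?_, ?_, ?_,
      ?_, ?_⟩
    · ring
    · rw [eP]; ring
    · rw [eQ]; ring
    · rw [eR]; ring
    · rw [eU, hU]; ring
  · have pP : 0 < P := by
      rcases hP0.eq_or_lt with h | h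
      · rw [← h] at hz; simp at hz
      · exact h
    have pQ : 0 < Q := by
      rcases hQ0.eq_or_lt with h | h
      · rw [← h] at hz; simp at hz
      · exact h
    have pR : 0 < R := by
      rcases hR0.eq_or_lt with h | h
      · rw [← h] at hz; simp at hz
      · exact h
    -- the full star
    obtain ⟨u, hu⟩ : ∃ u, u = ((P * Q + Q * R + R * P)
        + Real.sqrt ((P * Q + Q * R + R * P) ^ 2 + 4 * (P * Q * R))) / 2 := ⟨_, rfl⟩
    have hsq := Real.sq_sqrt (show 0 ≤ (P * Q + Q * R + R * P) ^ 2 + 4 * (P * Q * R) by positivity)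
    have hu2 : u ^ 2 = (P * Q + Q * R + R * P) * u + P * Q * R := by
      rw [hu]
      nlinarith
    have hu0 : 0 < u := by
      rw [hu]
      have : 0 < Real.sqrt ((P * Q + Q * R + R * P) ^ 2 + 4 * (P * Q * R)) :=
        Real.sqrt_pos.mpr (by positivity)
      positivity
    clear hu hsq
    have hUu : U ≤ u := by
      by_contra hcon
      push Not at hcon
      have e2 : 0 ≤ P * Q + Q * R + R * P := by positivity
      have h4 : P * Q + Q * R + R * P < u := by
        by_contra h5
        push Not at h5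
        have : u ^ 2 ≤ (P * Q + Q * R + R * P) * u := by
          rw [sq]
          exact mul_le_mul_of_nonneg_right h5 hu0.le
        linarith
      have : (u - (P * Q + Q * R + R * P)) * u < (U - (P * Q + Q * R + R * P)) * U := by
        nlinarith
      nlinarith
    -- 1 + sum of the star
    have hD : 1 + (u / Q + u / R + u / P) = u ^ 2 / (P * Q * R) := by
      rw [hu2]
      field_simp
      ring
    have hT : u / Q * (u / R) * (u / P) = u ^ 3 / (P * Q * R) := by
      field_simp
    obtain ⟨θ, t0, t1, ht⟩ := star_scale (A := u / Q + u / R + u / P)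
      (T := u / Q * (u / R) * (u / P)) (t := U - (P * Q + Q * R + R * P)) (by linarith) (by
        rw [hD, hT, div_pow, mul_div_assoc']
        rw [div_le_div_iff₀ (by positivity) (by positivity)]
        have h5 : (U - (P * Q + Q * R + R * P)) * u ≤ P * Q * R := by
          have : (U - (P * Q + Q * R + R * P)) * u ≤ (u - (P * Q + Q * R + R * P)) * u :=
            mul_le_mul_of_nonneg_right (by linarith) hu0.le
          nlinarith
        calc (U - (P * Q + Q * R + R * P)) * (u ^ 2) ^ 2 * (P * Q * R)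
            = ((U - (P * Q + Q * R + R * P)) * u) * (u ^ 3 * (P * Q * R)) := by ring
          _ ≤ (P * Q * R) * (u ^ 3 * (P * Q * R)) :=
              mul_le_mul_of_nonneg_right h5 (by positivity)
          _ = u ^ 3 * (P * Q * R) ^ 2 := by ring)
    set a := θ * (u / Q) with ha
    set b := θ * (u / R) with hb
    set x := θ * (u / P) with hx
    have a0 : 0 ≤ a := by positivity
    have b0 : 0 ≤ b := by positivity
    have x0 : 0 ≤ x := by positivity
    have hDt : 1 + θ * (u / Q + u / R + u / P) = 1 + a + b + x := by rw [ha, hb, hx]; ring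
    have hTt : θ ^ 3 * (u / Q * (u / R) * (u / P)) = a * b * x := by rw [ha, hb, hx]; ring
    rw [hDt, hTt] at ht
    have D0 : 0 < 1 + a + b + x := by positivity
    -- the triangle is nonnegative
    have key : θ ^ 2 * (1 + (u / Q + u / R + u / P)) ≤ 1 + a + b + x := by
      rw [← hDt]
      have h7 : θ ^ 2 ≤ θ := by
        rw [sq]
        exact mul_le_of_le_one_left t0 t1
      have h6 : θ ^ 2 ≤ 1 := h7.trans t1
      have h8 : 0 ≤ u / Q + u / R + u / P := by positivity
      have h9 : θ ^ 2 * (u / Q + u / R + u / P) ≤ θ * (u / Q + u / R + u / P) :=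
        mul_le_mul_of_nonneg_right h7 h8
      rw [mul_add, mul_one]
      exact add_le_add h6 h9
    rw [hD] at key
    have k2 : θ ^ 2 * u ^ 2 ≤ (1 + a + b + x) * (P * Q * R) := by
      rw [mul_div_assoc', div_le_iff₀ (by positivity)] at key
      exact key
    have ab : a * b = θ ^ 2 * u ^ 2 / (Q * R) := by rw [ha, hb]; field_simp
    have bx : b * x = θ ^ 2 * u ^ 2 / (R * P) := by rw [hb, hx]; field_simp
    have ax : a * x = θ ^ 2 * u ^ 2 / (Q * P) := by rw [ha, hx]; field_simp
    have qab : a * b ≤ (1 + a + b + x) * P := by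
      rw [ab, div_le_iff₀ (by positivity)]
      linarith
    have qbx : b * x ≤ (1 + a + b + x) * Q := by
      rw [bx, div_le_iff₀ (by positivity)]
      linarith
    have qax : a * x ≤ (1 + a + b + x) * R := by
      rw [ax, div_le_iff₀ (by positivity)]
      linarith
    clear ab bx ax k2 key hTt hDt
    clear_value a b x
    set D := 1 + a + b + x with hDdef
    refine ⟨s / D, a, b, x, P - a * b / D, Q - b * x / D, R - a * x / D, by positivity, a0, b0,
      x0, ?_, ?_, ?_, ?_, ?_, ?_, ?_, ?_⟩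
    · rw [sub_nonneg, div_le_iff₀ D0]; linarith
    · rw [sub_nonneg, div_le_iff₀ D0]; linarith
    · rw [sub_nonneg, div_le_iff₀ D0]; linarith
    · rw [← hDdef, div_mul_cancel₀ _ D0.ne']
    · rw [eP]; field_simp; ring
    · rw [eQ]; field_simp; ring
    · rw [eR]; field_simp; ring
    · have hU : U = (P * Q + Q * R + R * P) + a * b * x / D ^ 2 := by
        rw [ht]
        field_simp
        ring
      rw [eU, hU]
      have hx' : x = D - 1 - a - b := by rw [hDdef]; ring
      clear_value D
      subst hx'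
      field_simp
      ring

end Pool.Agent.CL
end
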