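import Mathlib
import Pool.Agent.Lib.MP_d90615_co.Graph

section

/-!
Linear algebra behind the stability of the forest polynomial
`H(A) = ∑_F det (1 + J_F A)`.
-/

namespace Pool.Agent.Lib.MP_d90615_co

open Matrix Finset Complex

variable {V : Type*} [Fintype V] [DecidableEq V]

/-- Determinant of a rank-two update of an invertible matrix. -/
lemma det_rank_two (M : Matrix V V ℂ) (hM : IsUnit M.det) (x y p q : V → ℂ) :
    (M + vecMulVec x p + vecMulVec y q).det =
      M.det * ((1 + p ⬝ᵥ (M⁻¹ *ᵥ x)) * (1 + q ⬝ᵥ (M⁻¹ *ᵥ y))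
        - (p ⬝ᵥ (M⁻¹ *ᵥ y)) * (q ⬝ᵥ (M⁻¹ *ᵥ x))) := by
  have h1 : M + vecMulVec x p + vecMulVec y q =
      M + (Matrix.of fun i (k : Fin 2) => (![x i, y i] : Fin 2 → ℂ) k) *
        (Matrix.of fun (k : Fin 2) j => (![p j, q j] : Fin 2 → ℂ) k) := by
    ext i j
    simp [Matrix.mul_apply, Fin.sum_univ_two, vecMulVec_apply, add_assoc]
  rw [h1, Matrix.det_add_mul _ _ hM, Matrix.det_fin_two]
  congr 1
  have e : ∀ (k l : Fin 2), ((Matrix.of fun (k : Fin 2) j => (![p j, q j] : Fin 2 → ℂ) k) * M⁻¹ *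
      (Matrix.of fun i (k : Fin 2) => (![x i, y i] : Fin 2 → ℂ) k)) k l =
      (fun j => (![p j, q j] : Fin 2 → ℂ) k) ⬝ᵥ (M⁻¹ *ᵥ fun i => (![x i, y i] : Fin 2 → ℂ) l) := by
    intro k l
    rw [Matrix.mul_assoc]
    rfl
  simp only [Matrix.add_apply, e]
  simp

/-- Key two-variable lemma: if `α + β z + γ w + κ z w` has no zero with
`Im z, Im w > -δ`, then `α ≠ κ`. -/
lemma bil_ne (α β γ κ : ℂ) (δ : ℝ) (hδ : 0 < δ)
    (h : ∀ z w : ℂ, -δ < z.im → -δ < w.im → α + β * z + γ * w + κ * z * w ≠ 0) :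
    α - κ ≠ 0 := by
  by_cases hk : κ = 0
  · have := h 0 0 (by simpa using hδ) (by simpa using hδ)
    simpa [hk] using this
  intro hα
  have hακ : α = κ := sub_eq_zero.mp hα
  -- normalise
  set g := γ / κ with hg
  set b := β / κ with hb
  have h' : ∀ z w : ℂ, -δ < z.im → -δ < w.im → 1 + b * z + g * w + z * w ≠ 0 := by
    intro z w hz hw h0
    apply h z w hz hw
    have : α + β * z + γ * w + κ * z * w = κ * (1 + b * z + g * w + z * w) := by
      rw [hακ, hg, hb]
      field_simp
    rw [this, h0, mul_zero]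
  -- step 1 : Im g > 0
  have hgim : 0 < g.im := by
    by_contra hcon
    have hcon : g.im ≤ 0 := not_lt.mp hcon
    -- zeros: z = -g + ε, w large
    -- 1 + b z + (g + z) w = 0 with z = -g+ε : 1 - b g + b ε + ε w = 0
    set c : ℂ := 1 - b * g with hc
    have hc0 : c ≠ 0 := by
      have := h' (-g) 0 (by simp; linarith) (by simpa using hδ)
      intro h0
      apply this
      rw [← h0, hc]; ring
    -- choose w = i N
    obtain ⟨N, hN⟩ := exists_gt (max 0 ((‖c‖ / δ + ‖b‖) : ℝ))
    have hN0 : 0 < N := lt_of_le_of_lt (le_max_left _ _) hN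
    have hN1 : ‖c‖ / δ + ‖b‖ < N := lt_of_le_of_lt (le_max_right _ _) hN
    have hw : (b + (N : ℂ) * I) ≠ 0 := by
      intro h0
      have : (N : ℂ) * I = -b := by linear_combination h0
      have h2 : ‖(N : ℂ) * I‖ = ‖b‖ := by rw [this, norm_neg]
      rw [norm_mul, Complex.norm_I, mul_one, Complex.norm_real, Real.norm_of_nonneg hN0.le] at h2
      have : 0 ≤ ‖c‖ / δ := by positivity
      linarith
    set ε : ℂ := -c / (b + (N : ℂ) * I) with hε
    have hnb : N - ‖b‖ ≤ ‖b + (N : ℂ) * I‖ := by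
      have h3 : ‖(N : ℂ) * I‖ - ‖b‖ ≤ ‖(N : ℂ) * I + b‖ := by
        have := norm_sub_norm_le ((N : ℂ) * I) (-b)
        simpa using this
      rw [norm_mul, Complex.norm_I, mul_one, Complex.norm_real, Real.norm_of_nonneg hN0.le] at h3
      rwa [add_comm b]
    have hεn : ‖ε‖ < δ := by
      rw [hε, norm_div, norm_neg, div_lt_iff₀ (norm_pos_iff.mpr hw)]
      have : ‖c‖ < δ * (N - ‖b‖) := by
        have h4 : ‖c‖ / δ < N - ‖b‖ := by linarith
        rw [div_lt_iff₀ hδ] at h4
        linarith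
      calc ‖c‖ < δ * (N - ‖b‖) := this
        _ ≤ δ * ‖b + (N : ℂ) * I‖ := by gcongr
    have hεim : -δ < ε.im := by
      have := Complex.abs_im_le_norm ε
      have := (abs_le.mp this).1
      linarith
    refine h' (-g + ε) ((N : ℂ) * I) ?_ ?_ ?_
    · simp only [add_im, neg_im]; linarith
    · simp; linarith
    · have : (b + (N : ℂ) * I) * ε = -c := by rw [hε]; field_simp
      rw [hc] at this
      linear_combination this
  have hg0 : g ≠ 0 := by
    intro h0; rw [h0] at hgim; simp at hgim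
  -- step 2 : 1 + g w ≠ 0
  have h2 := h' 0 (-1 / g) (by simpa using hδ)
  have h3 : ¬ (-δ < (-1 / g).im) := by
    intro h4
    apply h2 h4
    field_simp
    ring
  have h5 : (-1 / g).im = g.im / Complex.normSq g := by
    rw [neg_div, one_div, neg_im, Complex.inv_im]
    ring
  have h6 : 0 < (-1 / g).im := by
    rw [h5]
    exact div_pos hgim (Complex.normSq_pos.mpr hg0)
  apply h3
  linarith

/-- The class of matrices with positive definite imaginary part. -/
def Up (A : Matrix V V ℂ) : Prop :=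
  ∃ c : ℝ, 0 < c ∧ ∀ x : V → ℂ, c * ∑ i, ‖x i‖ ^ 2 ≤ (star x ⬝ᵥ (A *ᵥ x)).im

omit [DecidableEq V] in
/-- Perturbation of a matrix in the class. -/
lemma Up.add {A : Matrix V V ℂ} {c d : ℝ} (hcd : d < c)
    (hA : ∀ x : V → ℂ, c * ∑ i, ‖x i‖ ^ 2 ≤ (star x ⬝ᵥ (A *ᵥ x)).im)
    {B : Matrix V V ℂ} (hB : ∀ x : V → ℂ, -(d * ∑ i, ‖x i‖ ^ 2) ≤ (star x ⬝ᵥ (B *ᵥ x)).im) :
    Up (A + B) := by
  refine ⟨c - d, by linarith, fun x => ?_⟩
  have h1 := hA x
  have h2 := hB x
  rw [Matrix.add_mulVec, dotProduct_add, add_im]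
  linarith

/-- If `J` is Hermitian and `A` has positive definite imaginary part then `1 + J A` is
invertible. -/
lemma Up.isUnit_det {A : Matrix V V ℂ} (hA : Up A) (J : Matrix V V ℂ) (hJ : J.IsHermitian) :
    IsUnit (1 + J * A).det := by
  rw [isUnit_iff_ne_zero]
  intro h0
  obtain ⟨x, hx0, hx⟩ := Matrix.exists_mulVec_eq_zero_iff.mpr h0
  obtain ⟨c, hc, hcA⟩ := hA
  have h1 : x = -(J *ᵥ (A *ᵥ x)) := by
    rw [Matrix.add_mulVec, Matrix.one_mulVec, ← Matrix.mulVec_mulVec] at hx
    exact eq_neg_of_add_eq_zero_left hx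
  set y := A *ᵥ x with hy
  have h2 : (star x ⬝ᵥ y).im = 0 := by
    have h3 : star x ⬝ᵥ y = -(star y ⬝ᵥ (J *ᵥ y)) := by
      conv_lhs => rw [h1]
      rw [star_neg, neg_dotProduct, Matrix.star_mulVec, ← Matrix.dotProduct_mulVec, hJ.eq]
    have h4 : star (star y ⬝ᵥ (J *ᵥ y)) = star y ⬝ᵥ (J *ᵥ y) := by
      rw [← Matrix.star_dotProduct (J *ᵥ y) y, Matrix.star_mulVec, ← Matrix.dotProduct_mulVec, hJ.eq]
    have h5 : (star y ⬝ᵥ (J *ᵥ y)).im = 0 := by
      have := congrArg Complex.im h4
      simp only [Complex.star_def, Complex.conj_im] at this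
      linarith
    rw [h3, neg_im, h5, neg_zero]
  have h6 := hcA x
  rw [← hy, h2] at h6
  have h7 : 0 < ∑ i, ‖x i‖ ^ 2 := by
    obtain ⟨i, hi⟩ : ∃ i, x i ≠ 0 := by
      by_contra hcon
      push Not at hcon
      exact hx0 (funext hcon)
    exact Finset.sum_pos' (fun j _ => by positivity) ⟨i, Finset.mem_univ _, by positivity⟩
  nlinarith

end Pool.Agent.Lib.MP_d90615_co
end

section

/-!
`H(A) = ∑_F det (1 + J_F A)` (sum over forests) has no zero among the matrices with positive
definite imaginary part.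
-/

namespace Pool.Agent.Lib.MP_d90615_co

open Matrix Finset Complex
open scoped Classical

variable {V E : Type*} [Fintype V]

/-- The 0-1 matrix of the connectivity relation of `F`. -/
noncomputable def J (ends : E → Sym2 V) (F : Finset E) : Matrix V V ℂ :=
  Matrix.of fun i j => if Conn ends F i j then 1 else 0

omit [Fintype V] in
lemma J_apply (ends : E → Sym2 V) (F : Finset E) (i j : V) :
    J ends F i j = if Conn ends F i j then 1 else 0 := rfl

omit [Fintype V] in
lemma J_symm (ends : E → Sym2 V) (F : Finset E) (i j : V) : J ends F i j = J ends F j i := by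
  rw [J_apply, J_apply]
  have : Conn ends F i j ↔ Conn ends F j i := ⟨Conn.symm, Conn.symm⟩
  simp [this]

omit [Fintype V] in
lemma J_herm (ends : E → Sym2 V) (F : Finset E) : (J ends F).IsHermitian := by
  ext i j
  rw [Matrix.conjTranspose_apply, J_symm ends F j i, J_apply]
  split_ifs <;> simp

/-- Connectivity matrix after adding an edge between different components. -/
lemma J_insert {ends : E → Sym2 V} {F : Finset E} {e : E} {u v : V}
    (he : ends e = s(u, v)) (h : ¬ Conn ends F u v) :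
    J ends (insert e F) = J ends F + vecMulVec (J ends F *ᵥ Pi.single u 1) (J ends F v)
      + vecMulVec (J ends F *ᵥ Pi.single v 1) (J ends F u) := by
  ext i j
  simp only [Matrix.add_apply, vecMulVec_apply, mulVec_single_one, J_apply, conn_insert he,
    Matrix.col_apply]
  by_cases h1 : Conn ends F i j
  · have h2 : ¬ (Conn ends F i u ∧ Conn ends F v j) := fun ⟨a, b⟩ =>
      h (a.symm.trans (h1.trans b.symm))
    have h3 : ¬ (Conn ends F i v ∧ Conn ends F u j) := fun ⟨a, b⟩ =>
      h (b.trans (h1.symm.trans a))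
    by_cases h4 : Conn ends F i u <;> by_cases h5 : Conn ends F v j <;>
      by_cases h6 : Conn ends F i v <;> by_cases h7 : Conn ends F u j <;>
      simp_all
  · by_cases h4 : Conn ends F i u
    · have h6 : ¬ Conn ends F i v := fun h6 => h (h4.symm.trans h6)
      have h7 : ¬ Conn ends F u j := fun h7 => h1 (h4.trans h7)
      by_cases h5 : Conn ends F v j <;> simp_all
    · by_cases h5 : Conn ends F v j <;>
        by_cases h6 : Conn ends F i v <;> by_cases h7 : Conn ends F u j <;>
        simp_all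

/-- The matrix `A + (e_u - e_v)(e_u - e_v)ᵀ + z e_u e_uᵀ + w e_v e_vᵀ`. -/
noncomputable def upd (A : Matrix V V ℂ) (u v : V) (z w : ℂ) : Matrix V V ℂ :=
  A + vecMulVec (Pi.single u 1) (Pi.single u (1 + z) - Pi.single v 1)
    + vecMulVec (Pi.single v 1) (Pi.single v (1 + w) - Pi.single u 1)

lemma term_formula {ends : E → Sym2 V} {F : Finset E} {e : E} {u v : V}
    (he : ends e = s(u, v)) (A : Matrix V V ℂ) (hA : Up A) :
    ∃ α β γ κ : ℂ, (∀ z w : ℂ, (1 + J ends F * upd A u v z w).det =
        α + β * z + γ * w + κ * z * w) ∧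
      α - κ = (1 + J ends F * A).det +
        (if Conn ends F u v then 0 else (1 + J ends (insert e F) * A).det) := by
  set M := 1 + J ends F * A with hM
  have hMu : IsUnit M.det := hA.isUnit_det _ (J_herm ends F)
  set x : V → ℂ := J ends F *ᵥ Pi.single u 1 with hx
  set y : V → ℂ := J ends F *ᵥ Pi.single v 1 with hy
  set a := (M⁻¹ *ᵥ x) u with ha
  set d := (M⁻¹ *ᵥ x) v with hd
  set c := (M⁻¹ *ᵥ y) u with hc
  set b := (M⁻¹ *ᵥ y) v with hb
  refine ⟨M.det * (1 + a + b - c - d), M.det * (a + a * b - c * d),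
    M.det * (b + a * b - c * d), M.det * (a * b - c * d), ?_, ?_⟩
  · intro z w
    have h1 : 1 + J ends F * upd A u v z w =
        M + vecMulVec x (Pi.single u (1 + z) - Pi.single v 1)
          + vecMulVec y (Pi.single v (1 + w) - Pi.single u 1) := by
      rw [upd, Matrix.mul_add, Matrix.mul_add, mul_vecMulVec, mul_vecMulVec, hM, ← hx, ← hy]
      simp only [add_assoc]
    rw [h1, det_rank_two M hMu]
    simp only [sub_dotProduct, single_dotProduct, ← ha, ← hb, ← hc, ← hd]
    ring
  · have hJx : ∀ t : V → ℂ, J ends F *ᵥ (A *ᵥ (M⁻¹ *ᵥ t)) = t - M⁻¹ *ᵥ t := by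
      intro t
      have h1 : M *ᵥ (M⁻¹ *ᵥ t) = t := by
        rw [Matrix.mulVec_mulVec, Matrix.mul_nonsing_inv _ hMu, Matrix.one_mulVec]
      have h2 : M *ᵥ (M⁻¹ *ᵥ t) = M⁻¹ *ᵥ t + J ends F *ᵥ (A *ᵥ (M⁻¹ *ᵥ t)) := by
        conv_lhs => rw [hM]
        rw [Matrix.add_mulVec, Matrix.one_mulVec, ← Matrix.mulVec_mulVec]
      rw [h2] at h1
      exact eq_sub_of_add_eq' h1
    split_ifs with h
    · have hxy : x = y := by
        rw [hx, hy, mulVec_single_one, mulVec_single_one]
        ext i
        simp only [Matrix.col_apply, J_apply]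
        have : Conn ends F i u ↔ Conn ends F i v :=
          ⟨fun h1 => h1.trans h, fun h1 => h1.trans h.symm⟩
        simp [this]
      have hac : c = a := by rw [hc, ha, hxy]
      have hbd : d = b := by rw [hd, hb, hxy]
      rw [hac, hbd]
      ring
    · have hxu : x u = 1 := by
        rw [hx, mulVec_single_one]
        simp [Matrix.col_apply, J_apply, Conn.refl]
      have hxv : x v = 0 := by
        rw [hx, mulVec_single_one]
        have : ¬ Conn ends F v u := fun h1 => h h1.symm
        simp [Matrix.col_apply, J_apply, this]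
      have hyv : y v = 1 := by
        rw [hy, mulVec_single_one]
        simp [Matrix.col_apply, J_apply, Conn.refl]
      have hyu : y u = 0 := by
        rw [hy, mulVec_single_one]
        simp [Matrix.col_apply, J_apply, h]
      have h1 : 1 + J ends (insert e F) * A =
          M + vecMulVec x (J ends F v ᵥ* A) + vecMulVec y (J ends F u ᵥ* A) := by
        rw [J_insert he h, Matrix.add_mul, Matrix.add_mul, vecMulVec_mul, vecMulVec_mul, hM,
          ← hx, ← hy]
        simp only [add_assoc]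
      have hrow : ∀ (i : V) (t : V → ℂ),
          (J ends F i ᵥ* A) ⬝ᵥ (M⁻¹ *ᵥ t) = t i - (M⁻¹ *ᵥ t) i := by
        intro i t
        rw [← dotProduct_mulVec]
        exact congrFun (hJx t) i
      rw [h1, det_rank_two M hMu, hrow, hrow, hrow, hrow, hxu, hxv, hyu, hyv, ← ha, ← hb, ← hc,
        ← hd]
      ring

/-- The updated matrix stays in the class for `Im z, Im w > -c/2`. -/
lemma upd_up {A : Matrix V V ℂ} {c : ℝ} (hc : 0 < c)
    (hA : ∀ x : V → ℂ, c * ∑ i, ‖x i‖ ^ 2 ≤ (star x ⬝ᵥ (A *ᵥ x)).im) {u v : V} (huv : u ≠ v)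
    {z w : ℂ} (hz : -(c / 2) < z.im) (hw : -(c / 2) < w.im) : Up (upd A u v z w) := by
  rw [upd, add_assoc]
  refine Up.add (d := c / 2) (by linarith) hA ?_
  intro x
  have h1 : star x ⬝ᵥ ((vecMulVec (Pi.single u 1) (Pi.single u (1 + z) - Pi.single v 1)
      + vecMulVec (Pi.single v 1) (Pi.single v (1 + w) - Pi.single u 1) : Matrix V V ℂ) *ᵥ x) =
      (starRingEnd ℂ (x u)) * ((1 + z) * x u - x v)
        + (starRingEnd ℂ (x v)) * ((1 + w) * x v - x u) := by
    rw [Matrix.add_mulVec, dotProduct_add, vecMulVec_mulVec, vecMulVec_mulVec]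
    simp only [sub_dotProduct, single_dotProduct, one_mul]
    simp only [dotProduct_smul, dotProduct_single, MulOpposite.smul_eq_mul_unop,
      MulOpposite.unop_op, Pi.star_apply, Complex.star_def, mul_one]
  rw [h1]
  have h2 : ((starRingEnd ℂ (x u)) * ((1 + z) * x u - x v)
        + (starRingEnd ℂ (x v)) * ((1 + w) * x v - x u)).im =
      z.im * ‖x u‖ ^ 2 + w.im * ‖x v‖ ^ 2 := by
    rw [← Complex.normSq_eq_norm_sq, ← Complex.normSq_eq_norm_sq, Complex.normSq_apply,
      Complex.normSq_apply]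
    simp
    ring
  rw [h2]
  have h3 : ‖x u‖ ^ 2 + ‖x v‖ ^ 2 ≤ ∑ i, ‖x i‖ ^ 2 := by
    rw [← Finset.sum_pair huv (f := fun i => ‖x i‖ ^ 2)]
    exact Finset.sum_le_sum_of_subset_of_nonneg (Finset.subset_univ _)
      (fun i _ _ => by positivity)
  have h4 : -(c / 2) * ‖x u‖ ^ 2 ≤ z.im * ‖x u‖ ^ 2 := by gcongr
  have h5 : -(c / 2) * ‖x v‖ ^ 2 ≤ w.im * ‖x v‖ ^ 2 := by gcongr
  nlinarith

/-- The forest sum `H(A) = ∑_F det (1 + J_F A)`, `F` running over the forests inside `S`. -/
noncomputable def H (ends : E → Sym2 V) (S : Finset E) (A : Matrix V V ℂ) : ℂ :=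
  ∑ F ∈ S.powerset with Forest ends F, (1 + J ends F * A).det

lemma H_insert {ends : E → Sym2 V} {S : Finset E} {e : E} {u v : V}
    (he : ends e = s(u, v)) (heS : e ∉ S) (A : Matrix V V ℂ) :
    H ends (insert e S) A = ∑ F ∈ S.powerset with Forest ends F,
      ((1 + J ends F * A).det +
        (if Conn ends F u v then 0 else (1 + J ends (insert e F) * A).det)) := by
  rw [H, Finset.sum_filter, Finset.sum_powerset_insert heS, Finset.sum_filter,
    ← Finset.sum_add_distrib]
  refine Finset.sum_congr rfl fun F hF => ?_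
  have heF : e ∉ F := fun h => heS (Finset.mem_powerset.mp hF h)
  have hf := forest_insert he heF
  by_cases h1 : Forest ends F
  · by_cases h2 : Conn ends F u v
    · have h3 : ¬ Forest ends (insert e F) := fun h => (hf.mp h).2 h2
      simp [h1, h2, h3]
    · have h3 : Forest ends (insert e F) := hf.mpr ⟨h1, h2⟩
      simp [h1, h2, h3]
  · have h3 : ¬ Forest ends (insert e F) := fun h => h1 (hf.mp h).1
    simp [h1, h3]

/-- **Main nonvanishing theorem.** -/
theorem H_ne_zero (ends : E → Sym2 V) (hloop : ∀ e, ¬ (ends e).IsDiag) (S : Finset E) :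
    ∀ A : Matrix V V ℂ, Up A → H ends S A ≠ 0 := by
  induction S using Finset.induction_on with
  | empty =>
    intro A hA
    have h1 : Forest ends (∅ : Finset E) := by
      intro e he
      simp at he
    have h2 : H ends ∅ A = (1 + J ends ∅ * A).det := by
      simp [H, Finset.filter_singleton, h1]
    rw [h2]
    exact (hA.isUnit_det _ (J_herm ends ∅)).ne_zero
  | insert e S heS ih =>
    intro A hA
    obtain ⟨u, v, he⟩ : ∃ u v, ends e = s(u, v) := by
      induction h : ends e using Sym2.ind with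
      | _ u v => exact ⟨u, v, rfl⟩
    have huv : u ≠ v := by
      intro h
      apply hloop e
      rw [he, h]
      simp
    choose! α β γ κ h1 h2 using fun F : Finset E => term_formula (F := F) he A hA
    rw [H_insert he heS]
    have h3 : ∑ F ∈ S.powerset with Forest ends F,
      ((1 + J ends F * A).det +
        (if Conn ends F u v then 0 else (1 + J ends (insert e F) * A).det)) =
        (∑ F ∈ S.powerset with Forest ends F, α F) - ∑ F ∈ S.powerset with Forest ends F, κ F := by
      rw [← Finset.sum_sub_distrib]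
      exact Finset.sum_congr rfl fun F _ => (h2 F).symm
    rw [h3]
    obtain ⟨c, hc, hcA⟩ := hA
    refine bil_ne _ (∑ F ∈ S.powerset with Forest ends F, β F)
      (∑ F ∈ S.powerset with Forest ends F, γ F) _ (c / 2) (by linarith) ?_
    intro z w hz hw
    have h4 := ih (upd A u v z w) (upd_up hc hcA huv hz hw)
    have h5 : H ends S (upd A u v z w) = (∑ F ∈ S.powerset with Forest ends F, α F)
        + (∑ F ∈ S.powerset with Forest ends F, β F) * z
        + (∑ F ∈ S.powerset with Forest ends F, γ F) * w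
        + (∑ F ∈ S.powerset with Forest ends F, κ F) * z * w := by
      rw [H, Finset.sum_mul, Finset.sum_mul, Finset.sum_mul, Finset.sum_mul,
        ← Finset.sum_add_distrib, ← Finset.sum_add_distrib, ← Finset.sum_add_distrib]
      exact Finset.sum_congr rfl fun F _ => h1 F z w
    rwa [h5] at h4

end Pool.Agent.Lib.MP_d90615_co
end

section

/-!
The Rayleigh inequality for the real forest sum `R(A) = ∑_F det (1 + J_F A)`.
-/

namespace Pool.Agent.Lib.MP_d90615_co

open Matrix Finset Complex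
open scoped Classical Topology

variable {V E : Type*} [Fintype V]

/-- The real 0-1 matrix of the connectivity relation of `F`. -/
noncomputable def JR (ends : E → Sym2 V) (F : Finset E) : Matrix V V ℝ :=
  Matrix.of fun i j => if Conn ends F i j then 1 else 0

omit [Fintype V] in
lemma JR_apply (ends : E → Sym2 V) (F : Finset E) (i j : V) :
    JR ends F i j = if Conn ends F i j then 1 else 0 := rfl

omit [Fintype V] in
lemma JR_map (ends : E → Sym2 V) (F : Finset E) : (JR ends F).map Complex.ofReal = J ends F := by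
  ext i j
  rw [Matrix.map_apply, JR_apply, J_apply]
  split_ifs <;> simp

/-- The real forest sum. -/
noncomputable def R (ends : E → Sym2 V) (S : Finset E) (A : Matrix V V ℝ) : ℝ :=
  ∑ F ∈ S.powerset with Forest ends F, (1 + JR ends F * A).det

lemma H_ofReal (ends : E → Sym2 V) (S : Finset E) (A : Matrix V V ℝ) :
    H ends S (A.map Complex.ofReal) = (R ends S A : ℂ) := by
  rw [H, R, Complex.ofReal_sum]
  refine Finset.sum_congr rfl fun F _ => ?_
  have h1 : (1 + J ends F * A.map Complex.ofReal) =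
      Complex.ofRealHom.mapMatrix (1 + JR ends F * A) := by
    rw [map_add, map_mul, map_one]
    congr 2
    exact (JR_map ends F).symm
  rw [h1, ← RingHom.map_det]
  rfl

/-- The perturbed matrix. -/
noncomputable def pert (A : Matrix V V ℝ) (v w : V → ℝ) (ε : ℝ) (t s : ℂ) : Matrix V V ℂ :=
  A.map Complex.ofReal + ((ε : ℂ) * I) • (1 : Matrix V V ℂ)
    + t • (vecMulVec v v).map Complex.ofReal + s • (vecMulVec w w).map Complex.ofReal

lemma im_quad_real (A : Matrix V V ℝ) (hA : A.IsSymm) (x : V → ℂ) :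
    (star x ⬝ᵥ (A.map Complex.ofReal *ᵥ x)).im = 0 := by
  have hH : (A.map Complex.ofReal).IsHermitian := by
    ext i j
    rw [Matrix.conjTranspose_apply, Matrix.map_apply, Matrix.map_apply, hA.apply]
    simp
  have h4 : star (star x ⬝ᵥ (A.map Complex.ofReal *ᵥ x)) =
      star x ⬝ᵥ (A.map Complex.ofReal *ᵥ x) := by
    rw [← Matrix.star_dotProduct (A.map Complex.ofReal *ᵥ x) x, Matrix.star_mulVec,
      ← Matrix.dotProduct_mulVec, hH.eq]
  have := congrArg Complex.im h4
  simp only [Complex.star_def, Complex.conj_im] at this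
  linarith

lemma quad_vecMulVec (v : V → ℝ) (t : ℂ) (x : V → ℂ) :
    (star x ⬝ᵥ ((t • (vecMulVec v v).map Complex.ofReal) *ᵥ x)).im =
      t.im * ‖∑ i, (v i : ℂ) * x i‖ ^ 2 := by
  have h0 : (vecMulVec v v).map Complex.ofReal =
      vecMulVec (fun i => (v i : ℂ)) (fun i => (v i : ℂ)) := by
    ext i j
    simp [vecMulVec_apply]
  have h1 : star x ⬝ᵥ ((t • (vecMulVec v v).map Complex.ofReal) *ᵥ x) =
      t * (star (∑ i, (v i : ℂ) * x i) * (∑ i, (v i : ℂ) * x i)) := by
    rw [h0, Matrix.smul_mulVec, dotProduct_smul, vecMulVec_mulVec, dotProduct_smul]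
    rw [smul_eq_mul, MulOpposite.smul_eq_mul_unop, MulOpposite.unop_op]
    congr 1
    simp only [dotProduct, star_sum, star_mul', Complex.star_def, Complex.conj_ofReal,
      Pi.star_apply]
    congr 1
    exact Finset.sum_congr rfl fun i _ => by ring
  rw [h1, Complex.star_def, ← Complex.normSq_eq_conj_mul_self, Complex.normSq_eq_norm_sq]
  rw [Complex.im_mul_ofReal]

lemma pert_up (A : Matrix V V ℝ) (hA : A.IsSymm) (v w : V → ℝ) {ε : ℝ} (hε : 0 < ε) {t s : ℂ}
    (ht : 0 ≤ t.im) (hs : 0 ≤ s.im) : Up (pert A v w ε t s) := by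
  refine ⟨ε, hε, fun x => ?_⟩
  rw [pert, Matrix.add_mulVec, Matrix.add_mulVec, Matrix.add_mulVec, dotProduct_add,
    dotProduct_add, dotProduct_add, add_im, add_im, add_im, im_quad_real A hA, quad_vecMulVec,
    quad_vecMulVec]
  have h1 : (star x ⬝ᵥ (((ε : ℂ) * I) • (1 : Matrix V V ℂ)) *ᵥ x).im = ε * ∑ i, ‖x i‖ ^ 2 := by
    rw [Matrix.smul_mulVec, Matrix.one_mulVec, dotProduct_smul, smul_eq_mul]
    have h2 : star x ⬝ᵥ x = ((∑ i, ‖x i‖ ^ 2 : ℝ) : ℂ) := by
      rw [dotProduct, Complex.ofReal_sum]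
      refine Finset.sum_congr rfl fun i _ => ?_
      rw [Pi.star_apply, Complex.star_def, ← Complex.normSq_eq_conj_mul_self,
        Complex.normSq_eq_norm_sq]
    rw [h2, Complex.im_mul_ofReal]
    simp
  rw [h1]
  have h2 : 0 ≤ t.im * ‖∑ i, (v i : ℂ) * x i‖ ^ 2 := by positivity
  have h3 : 0 ≤ s.im * ‖∑ i, (w i : ℂ) * x i‖ ^ 2 := by positivity
  linarith

/-- Bi-affinity of `H` in the two rank-one parameters. -/
lemma H_pert_affine (ends : E → Sym2 V) (S : Finset E) (A : Matrix V V ℝ) (hA : A.IsSymm)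
    (v w : V → ℝ) {ε : ℝ} (hε : 0 < ε) :
    ∃ a b c d : ℂ, ∀ t s : ℂ, H ends S (pert A v w ε t s) = a + b * t + c * s + d * t * s := by
  have hterm : ∀ F : Finset E, ∃ a b c d : ℂ, ∀ t s : ℂ,
      (1 + J ends F * pert A v w ε t s).det = a + b * t + c * s + d * t * s := by
    intro F
    have hup : Up (pert A v w ε 0 0) := pert_up A hA v w hε (by simp) (by simp)
    set M := 1 + J ends F * pert A v w ε 0 0 with hM
    have hMu : IsUnit M.det := hup.isUnit_det _ (J_herm ends F)
    set v' : V → ℂ := fun i => (v i : ℂ) with hv'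
    set w' : V → ℂ := fun i => (w i : ℂ) with hw'
    set x := J ends F *ᵥ v' with hx
    set y := J ends F *ᵥ w' with hy
    refine ⟨M.det, M.det * (v' ⬝ᵥ (M⁻¹ *ᵥ x)), M.det * (w' ⬝ᵥ (M⁻¹ *ᵥ y)),
      M.det * ((v' ⬝ᵥ (M⁻¹ *ᵥ x)) * (w' ⬝ᵥ (M⁻¹ *ᵥ y))
        - (v' ⬝ᵥ (M⁻¹ *ᵥ y)) * (w' ⬝ᵥ (M⁻¹ *ᵥ x))), ?_⟩
    intro t s
    have hvv : (vecMulVec v v).map Complex.ofReal = vecMulVec v' v' := by
      ext i j
      simp [vecMulVec_apply, hv']
    have hww : (vecMulVec w w).map Complex.ofReal = vecMulVec w' w' := by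
      ext i j
      simp [vecMulVec_apply, hw']
    have h1 : pert A v w ε t s = pert A v w ε 0 0 + vecMulVec v' (t • v')
        + vecMulVec w' (s • w') := by
      rw [pert, pert, hvv, hww, vecMulVec_smul, vecMulVec_smul]
      simp
    have h2 : 1 + J ends F * pert A v w ε t s = M + vecMulVec x (t • v')
        + vecMulVec y (s • w') := by
      rw [h1, Matrix.mul_add, Matrix.mul_add, mul_vecMulVec, mul_vecMulVec, hM, ← hx, ← hy]
      simp only [add_assoc]
    rw [h2, det_rank_two M hMu]
    simp only [smul_dotProduct, smul_eq_mul]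
    ring
  choose a b c d h using hterm
  refine ⟨∑ F ∈ S.powerset with Forest ends F, a F, ∑ F ∈ S.powerset with Forest ends F, b F,
    ∑ F ∈ S.powerset with Forest ends F, c F, ∑ F ∈ S.powerset with Forest ends F, d F, ?_⟩
  intro t s
  rw [H, Finset.sum_mul, Finset.sum_mul, Finset.sum_mul, Finset.sum_mul,
    ← Finset.sum_add_distrib, ← Finset.sum_add_distrib, ← Finset.sum_add_distrib]
  exact Finset.sum_congr rfl fun F _ => h F t s

lemma im_bilinear (p q : ℂ) (h : ∀ s : ℂ, 0 ≤ s.im → p + q * s ≠ 0) :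
    0 ≤ (p * (starRingEnd ℂ) q).im := by
  by_cases hq : q = 0
  · simp [hq]
  by_contra hcon
  have hcon : (p * (starRingEnd ℂ) q).im < 0 := not_le.mp hcon
  refine h (-p / q) ?_ (by field_simp; ring)
  have h1 : -p / q = -(p * (starRingEnd ℂ) q) / (Complex.normSq q : ℂ) := by
    rw [Complex.normSq_eq_conj_mul_self]
    have : (starRingEnd ℂ) q ≠ 0 := by simpa using hq
    field_simp
  rw [h1, Complex.div_ofReal_im, neg_im]
  have h2 := Complex.normSq_pos.mpr hq
  apply le_of_lt
  apply div_pos (by linarith) h2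

lemma continuous_H_pert (ends : E → Sym2 V) (S : Finset E) (A : Matrix V V ℝ)
    (v w : V → ℝ) (t s : ℂ) : Continuous fun ε : ℝ => H ends S (pert A v w ε t s) := by
  unfold H
  refine continuous_finsetSum _ fun F _ => ?_
  apply Continuous.matrix_det
  refine continuous_const.add (continuous_const.matrix_mul ?_)
  unfold pert
  have : Continuous fun ε : ℝ => ((ε : ℂ) * I) • (1 : Matrix V V ℂ) :=
    (Complex.continuous_ofReal.mul continuous_const).smul continuous_const
  exact ((continuous_const.add this).add continuous_const).add continuous_const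

lemma H_pert_real (ends : E → Sym2 V) (S : Finset E) (A : Matrix V V ℝ)
    (v w : V → ℝ) (t s : ℝ) : H ends S (pert A v w 0 t s) =
      (R ends S (A + t • vecMulVec v v + s • vecMulVec w w) : ℂ) := by
  rw [← H_ofReal]
  have : pert A v w 0 t s = (A + t • vecMulVec v v + s • vecMulVec w w).map Complex.ofReal := by
    ext i j
    simp [pert]
  rw [this]

/-- **Rayleigh inequality** for the forest sum. -/
theorem rayleigh (ends : E → Sym2 V) (hloop : ∀ e, ¬ (ends e).IsDiag) (S : Finset E)
    (A : Matrix V V ℝ) (hA : A.IsSymm) (v w : V → ℝ) :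
    R ends S A * R ends S (A + vecMulVec v v + vecMulVec w w) ≤
      R ends S (A + vecMulVec v v) * R ends S (A + vecMulVec w w) := by
  set h : ℝ → ℂ → ℂ → ℂ := fun ε t s => H ends S (pert A v w ε t s) with hh
  set φ : ℝ → ℝ := fun ε =>
    ((h ε 0 0 + I * (h ε 1 0 - h ε 0 0)) *
      (starRingEnd ℂ) ((h ε 0 1 - h ε 0 0) + I * (h ε 1 1 - h ε 1 0 - h ε 0 1 + h ε 0 0))).im
    with hφ
  have hcont : ∀ t s : ℂ, Continuous fun ε : ℝ => h ε t s := continuous_H_pert ends S A v w
  have hφc : Continuous φ := by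
    apply Complex.continuous_im.comp
    refine Continuous.mul ?_ (Complex.continuous_conj.comp ?_)
    · exact (hcont 0 0).add (continuous_const.mul ((hcont 1 0).sub (hcont 0 0)))
    · exact ((hcont 0 1).sub (hcont 0 0)).add
        (continuous_const.mul ((((hcont 1 1).sub (hcont 1 0)).sub (hcont 0 1)).add (hcont 0 0)))
  have hφpos : ∀ ε : ℝ, 0 < ε → 0 ≤ φ ε := by
    intro ε hε
    obtain ⟨a, b, c, d, habcd⟩ := H_pert_affine ends S A hA v w hε
    have e00 : h ε 0 0 = a := by rw [hh]; simp [habcd]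
    have e10 : h ε 1 0 = a + b := by rw [hh]; simp [habcd]
    have e01 : h ε 0 1 = a + c := by rw [hh]; simp [habcd]
    have e11 : h ε 1 1 = a + b + c + d := by rw [hh]; simp [habcd]
    have h1 := im_bilinear (a + b * I) (c + d * I) (by
      intro s hs
      have h2 := H_ne_zero ends hloop S _ (pert_up A hA v w hε (t := I) (s := s) (by simp) hs)
      rw [habcd] at h2
      intro h3
      apply h2
      rw [← h3]
      ring)
    rw [hφ]
    simp only [e00, e10, e01, e11]
    convert h1 using 2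
    congr 1
    · ring
    · congr 1
      ring
  have hφ0 : 0 ≤ φ 0 := by
    have h1 : Filter.Tendsto φ (𝓝[>] 0) (𝓝 (φ 0)) :=
      (hφc.tendsto 0).mono_left nhdsWithin_le_nhds
    refine ge_of_tendsto h1 ?_
    filter_upwards [self_mem_nhdsWithin] with ε hε
    exact hφpos ε hε
  have r00 : h 0 0 0 = (R ends S A : ℂ) := by
    have := H_pert_real ends S A v w 0 0
    simpa using this
  have r10 : h 0 1 0 = (R ends S (A + vecMulVec v v) : ℂ) := by
    have := H_pert_real ends S A v w 1 0
    simpa using this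
  have r01 : h 0 0 1 = (R ends S (A + vecMulVec w w) : ℂ) := by
    have := H_pert_real ends S A v w 0 1
    simpa using this
  have r11 : h 0 1 1 = (R ends S (A + vecMulVec v v + vecMulVec w w) : ℂ) := by
    have := H_pert_real ends S A v w 1 1
    simpa using this
  rw [hφ] at hφ0
  simp only [r00, r10, r01, r11] at hφ0
  set p := R ends S A
  set q := R ends S (A + vecMulVec v v)
  set r := R ends S (A + vecMulVec w w)
  set o := R ends S (A + vecMulVec v v + vecMulVec w w)
  simp at hφ0
  nlinarith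

end Pool.Agent.Lib.MP_d90615_co
end
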