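import Mathlib
import Pool.Agent.Lib.MP_d90615_co.Mg.G037

section

/-!
The weighted forest sum `HW(A) = ∑_F w^F det (1 + J_F A)` has no zero among the matrices with
positive definite imaginary part.
-/

namespace Pool.Agent.Lib.MP_d90615_co

open Matrix Finset Complex
open scoped Classical

variable {V E : Type*} [Fintype V]

/-- The matrix `A + t (e_u - e_v)(e_u - e_v)ᵀ + z e_u e_uᵀ + w e_v e_vᵀ`. -/
noncomputable def updw (A : Matrix V V ℂ) (u v : V) (t z w : ℂ) : Matrix V V ℂ :=
  A + vecMulVec (Pi.single u 1) (Pi.single u (t + z) - Pi.single v t)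
    + vecMulVec (Pi.single v 1) (Pi.single v (t + w) - Pi.single u t)

lemma term_formula_w {ends : E → Sym2 V} {F : Finset E} {e : E} {u v : V}
    (he : ends e = s(u, v)) (A : Matrix V V ℂ) (hA : Up A) (t : ℂ) :
    ∃ α β γ κ : ℂ, (∀ z w : ℂ, (1 + J ends F * updw A u v t z w).det =
        α + β * z + γ * w + κ * z * w) ∧
      α - t * κ = (1 + J ends F * A).det +
        t * (if Conn ends F u v then 0 else (1 + J ends (insert e F) * A).det) := by
  set M := 1 + J ends F * A with hM
  have hMu : IsUnit M.det := hA.isUnit_det _ (J_herm ends F)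
  set x : V → ℂ := J ends F *ᵥ Pi.single u 1 with hx
  set y : V → ℂ := J ends F *ᵥ Pi.single v 1 with hy
  set a := (M⁻¹ *ᵥ x) u with ha
  set d := (M⁻¹ *ᵥ x) v with hd
  set c := (M⁻¹ *ᵥ y) u with hc
  set b := (M⁻¹ *ᵥ y) v with hb
  refine ⟨M.det * (1 + t * (a + b - c - d)), M.det * (a + t * (a * b - c * d)),
    M.det * (b + t * (a * b - c * d)), M.det * (a * b - c * d), ?_, ?_⟩
  · intro z w
    have h1 : 1 + J ends F * updw A u v t z w =
        M + vecMulVec x (Pi.single u (t + z) - Pi.single v t)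
          + vecMulVec y (Pi.single v (t + w) - Pi.single u t) := by
      rw [updw, Matrix.mul_add, Matrix.mul_add, mul_vecMulVec, mul_vecMulVec, hM, ← hx, ← hy]
      simp only [add_assoc]
    rw [h1, det_rank_two M hMu]
    simp only [sub_dotProduct, single_dotProduct, ← ha, ← hb, ← hc, ← hd]
    ring
  · have hJx : ∀ t : V → ℂ, J ends F *ᵥ (A *ᵥ (M⁻¹ *ᵥ t)) = t - M⁻¹ *ᵥ t := by
      intro t
      have h1 : M *ᵥ (M⁻¹ *ᵥ t) = t := by
        rw [Matrix.mulVec_mulVec, Matrix.mul_nonsing_inv _ hMu, Matrix.one_mulVec]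
      have h2 : M *ᵥ (M⁻¹ *ᵥ t) = M⁻¹ *ᵥ t + J ends F *ᵥ (A *ᵥ (M⁻¹ *ᵥ t)) := by
        conv_lhs => rw [hM]
        rw [Matrix.add_mulVec, Matrix.one_mulVec, ← Matrix.mulVec_mulVec]
      rw [h2] at h1
      exact eq_sub_of_add_eq' h1
    split_ifs with h
    · have hxy : x = y := by
        rw [hx, hy, mulVec_single_one, mulVec_single_one]
        ext i
        simp only [Matrix.col_apply, J_apply]
        have : Conn ends F i u ↔ Conn ends F i v :=
          ⟨fun h1 => h1.trans h, fun h1 => h1.trans h.symm⟩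
        simp [this]
      have hac : c = a := by rw [hc, ha, hxy]
      have hbd : d = b := by rw [hd, hb, hxy]
      rw [hac, hbd]
      ring
    · have hxu : x u = 1 := by
        rw [hx, mulVec_single_one]
        simp [Matrix.col_apply, J_apply, Conn.refl]
      have hxv : x v = 0 := by
        rw [hx, mulVec_single_one]
        have : ¬ Conn ends F v u := fun h1 => h h1.symm
        simp [Matrix.col_apply, J_apply, this]
      have hyv : y v = 1 := by
        rw [hy, mulVec_single_one]
        simp [Matrix.col_apply, J_apply, Conn.refl]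
      have hyu : y u = 0 := by
        rw [hy, mulVec_single_one]
        simp [Matrix.col_apply, J_apply, h]
      have h1 : 1 + J ends (insert e F) * A =
          M + vecMulVec x (J ends F v ᵥ* A) + vecMulVec y (J ends F u ᵥ* A) := by
        rw [J_insert he h, Matrix.add_mul, Matrix.add_mul, vecMulVec_mul, vecMulVec_mul, hM,
          ← hx, ← hy]
        simp only [add_assoc]
      have hrow : ∀ (i : V) (t : V → ℂ),
          (J ends F i ᵥ* A) ⬝ᵥ (M⁻¹ *ᵥ t) = t i - (M⁻¹ *ᵥ t) i := by
        intro i t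
        rw [← dotProduct_mulVec]
        exact congrFun (hJx t) i
      rw [h1, det_rank_two M hMu, hrow, hrow, hrow, hrow, hxu, hxv, hyu, hyv, ← ha, ← hb, ← hc,
        ← hd]
      ring

/-- The updated matrix stays in the class for `Im z, Im w > -c/2`. -/
lemma updw_up {A : Matrix V V ℂ} {c : ℝ} (hc : 0 < c)
    (hA : ∀ x : V → ℂ, c * ∑ i, ‖x i‖ ^ 2 ≤ (star x ⬝ᵥ (A *ᵥ x)).im) {u v : V} (huv : u ≠ v)
    (t : ℝ) {z w : ℂ} (hz : -(c / 2) < z.im) (hw : -(c / 2) < w.im) :
    Up (updw A u v t z w) := by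
  rw [updw, add_assoc]
  refine Up.add (d := c / 2) (by linarith) hA ?_
  intro x
  have h1 : star x ⬝ᵥ ((vecMulVec (Pi.single u 1) (Pi.single u ((t : ℂ) + z) - Pi.single v (t : ℂ))
      + vecMulVec (Pi.single v 1) (Pi.single v ((t : ℂ) + w) - Pi.single u (t : ℂ)) :
        Matrix V V ℂ) *ᵥ x) =
      (starRingEnd ℂ (x u)) * ((t + z) * x u - t * x v)
        + (starRingEnd ℂ (x v)) * ((t + w) * x v - t * x u) := by
    rw [Matrix.add_mulVec, dotProduct_add, vecMulVec_mulVec, vecMulVec_mulVec]
    simp only [sub_dotProduct, single_dotProduct]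
    simp only [dotProduct_smul, dotProduct_single, MulOpposite.smul_eq_mul_unop,
      MulOpposite.unop_op, Pi.star_apply, Complex.star_def, mul_one]
  rw [h1]
  have h2 : ((starRingEnd ℂ (x u)) * ((t + z) * x u - t * x v)
        + (starRingEnd ℂ (x v)) * ((t + w) * x v - t * x u)).im =
      z.im * ‖x u‖ ^ 2 + w.im * ‖x v‖ ^ 2 := by
    rw [← Complex.normSq_eq_norm_sq, ← Complex.normSq_eq_norm_sq, Complex.normSq_apply,
      Complex.normSq_apply]
    simp
    ring
  rw [h2]
  have h3 : ‖x u‖ ^ 2 + ‖x v‖ ^ 2 ≤ ∑ i, ‖x i‖ ^ 2 := by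
    rw [← Finset.sum_pair huv (f := fun i => ‖x i‖ ^ 2)]
    exact Finset.sum_le_sum_of_subset_of_nonneg (Finset.subset_univ _)
      (fun i _ _ => by positivity)
  have h4 : -(c / 2) * ‖x u‖ ^ 2 ≤ z.im * ‖x u‖ ^ 2 := by gcongr
  have h5 : -(c / 2) * ‖x v‖ ^ 2 ≤ w.im * ‖x v‖ ^ 2 := by gcongr
  nlinarith

/-- The two variable lemma with a weight. -/
lemma bil_ne_w (α β γ κ : ℂ) (δ t : ℝ) (hδ : 0 < δ) (ht : 0 ≤ t)
    (h : ∀ z w : ℂ, -δ < z.im → -δ < w.im → α + β * z + γ * w + κ * z * w ≠ 0) :
    α - t * κ ≠ 0 := by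
  rcases ht.eq_or_lt with rfl | ht
  · have := h 0 0 (by simpa using hδ) (by simpa using hδ)
    simpa using this
  set r := Real.sqrt t with hr
  have hr0 : 0 < r := Real.sqrt_pos.mpr ht
  have hrr : (r : ℂ) * r = t := by
    rw [← Complex.ofReal_mul, hr, Real.mul_self_sqrt ht.le]
  have h1 := bil_ne α (r * β) (r * γ) (t * κ) (δ / r) (by positivity) (by
    intro z w hz hw
    have key : ∀ z : ℂ, -(δ / r) < z.im → -δ < ((r : ℂ) * z).im := by
      intro z hz
      rw [Complex.im_ofReal_mul]
      have h2 := mul_lt_mul_of_pos_left hz hr0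
      have h3 : r * -(δ / r) = -δ := by field_simp
      linarith
    have h2 := h (r * z) (r * w) (key z hz) (key w hw)
    intro h3
    apply h2
    rw [← h3, ← hrr]
    ring)
  exact h1

/-- The weighted forest sum `∑_F w^F det (1 + J_F A)`, `F` running over the forests inside `S`. -/
noncomputable def HW (ends : E → Sym2 V) (w : E → ℝ) (S : Finset E) (A : Matrix V V ℂ) : ℂ :=
  ∑ F ∈ S.powerset with Forest ends F, (∏ g ∈ F, (w g : ℂ)) * (1 + J ends F * A).det

lemma HW_insert {ends : E → Sym2 V} {w : E → ℝ} {S : Finset E} {e : E} {u v : V}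
    (he : ends e = s(u, v)) (heS : e ∉ S) (A : Matrix V V ℂ) :
    HW ends w (insert e S) A = ∑ F ∈ S.powerset with Forest ends F,
      (∏ g ∈ F, (w g : ℂ)) * ((1 + J ends F * A).det +
        w e * (if Conn ends F u v then 0 else (1 + J ends (insert e F) * A).det)) := by
  rw [HW, Finset.sum_filter, Finset.sum_powerset_insert heS, Finset.sum_filter,
    ← Finset.sum_add_distrib]
  refine Finset.sum_congr rfl fun F hF => ?_
  have heF : e ∉ F := fun h => heS (Finset.mem_powerset.mp hF h)
  have hf := forest_insert he heF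
  by_cases h1 : Forest ends F
  · by_cases h2 : Conn ends F u v
    · have h3 : ¬ Forest ends (insert e F) := fun h => (hf.mp h).2 h2
      simp [h1, h2, h3]
    · have h3 : Forest ends (insert e F) := hf.mpr ⟨h1, h2⟩
      simp only [h1, h2, h3, if_true, if_false, Finset.prod_insert heF]
      ring
  · have h3 : ¬ Forest ends (insert e F) := fun h => h1 (hf.mp h).1
    simp [h1, h3]

/-- **Main nonvanishing theorem, with weights.** -/
theorem HW_ne_zero (ends : E → Sym2 V) (hloop : ∀ e, ¬ (ends e).IsDiag) (w : E → ℝ)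
    (hw : ∀ e, 0 ≤ w e) (S : Finset E) :
    ∀ A : Matrix V V ℂ, Up A → HW ends w S A ≠ 0 := by
  induction S using Finset.induction_on with
  | empty =>
    intro A hA
    have h1 : Forest ends (∅ : Finset E) := by
      intro e he
      simp at he
    have h2 : HW ends w ∅ A = (1 + J ends ∅ * A).det := by
      simp [HW, Finset.filter_singleton, h1]
    rw [h2]
    exact (hA.isUnit_det _ (J_herm ends ∅)).ne_zero
  | insert e S heS ih =>
    intro A hA
    obtain ⟨u, v, he⟩ : ∃ u v, ends e = s(u, v) := by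
      induction h : ends e using Sym2.ind with
      | _ u v => exact ⟨u, v, rfl⟩
    have huv : u ≠ v := by
      intro h
      apply hloop e
      rw [he, h]
      simp
    choose! α β γ κ h1 h2 using fun F : Finset E => term_formula_w (F := F) he A hA (w e : ℂ)
    rw [HW_insert he heS]
    have h3 : ∑ F ∈ S.powerset with Forest ends F, (∏ g ∈ F, (w g : ℂ)) *
      ((1 + J ends F * A).det +
        w e * (if Conn ends F u v then 0 else (1 + J ends (insert e F) * A).det)) =
        (∑ F ∈ S.powerset with Forest ends F, (∏ g ∈ F, (w g : ℂ)) * α F)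
          - w e * ∑ F ∈ S.powerset with Forest ends F, (∏ g ∈ F, (w g : ℂ)) * κ F := by
      rw [Finset.mul_sum, ← Finset.sum_sub_distrib]
      refine Finset.sum_congr rfl fun F _ => ?_
      rw [← h2 F]
      ring
    rw [h3]
    obtain ⟨c, hc, hcA⟩ := hA
    refine bil_ne_w _ (∑ F ∈ S.powerset with Forest ends F, (∏ g ∈ F, (w g : ℂ)) * β F)
      (∑ F ∈ S.powerset with Forest ends F, (∏ g ∈ F, (w g : ℂ)) * γ F) _ (c / 2) (w e)
      (by linarith) (hw e) ?_
    intro z z' hz hz'
    have h4 := ih (updw A u v (w e) z z') (updw_up hc hcA huv (w e) hz hz')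
    have h5 : HW ends w S (updw A u v (w e) z z') =
        (∑ F ∈ S.powerset with Forest ends F, (∏ g ∈ F, (w g : ℂ)) * α F)
        + (∑ F ∈ S.powerset with Forest ends F, (∏ g ∈ F, (w g : ℂ)) * β F) * z
        + (∑ F ∈ S.powerset with Forest ends F, (∏ g ∈ F, (w g : ℂ)) * γ F) * z'
        + (∑ F ∈ S.powerset with Forest ends F, (∏ g ∈ F, (w g : ℂ)) * κ F) * z * z' := by
      rw [HW, Finset.sum_mul, Finset.sum_mul, Finset.sum_mul, Finset.sum_mul,
        ← Finset.sum_add_distrib, ← Finset.sum_add_distrib, ← Finset.sum_add_distrib]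
      refine Finset.sum_congr rfl fun F _ => ?_
      rw [h1 F z z']
      ring
    rwa [h5] at h4

end Pool.Agent.Lib.MP_d90615_co
end

section

/-!
The Rayleigh inequality for the weighted forest sum `∑_F w^F det (1 + J_F A)`.
-/

set_option autoImplicit false
set_option linter.unusedSectionVars false

namespace Pool.Agent.Lib.MP_d90615_co

open Matrix Finset Complex
open scoped Classical Topology

variable {V E : Type*} [Fintype V]

/-- The real weighted forest sum. -/
noncomputable def RW (ends : E → Sym2 V) (w : E → ℝ) (S : Finset E) (A : Matrix V V ℝ) : ℝ :=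
  ∑ F ∈ S.powerset with Forest ends F, (∏ g ∈ F, w g) * (1 + JR ends F * A).det

lemma det_ofReal (ends : E → Sym2 V) (F : Finset E) (A : Matrix V V ℝ) :
    (1 + J ends F * A.map Complex.ofReal).det = ((1 + JR ends F * A).det : ℂ) := by
  have h1 : (1 + J ends F * A.map Complex.ofReal) =
      Complex.ofRealHom.mapMatrix (1 + JR ends F * A) := by
    rw [map_add, map_mul, map_one]
    congr 2
    exact (JR_map ends F).symm
  rw [h1, ← RingHom.map_det]
  rfl

lemma HW_ofReal (ends : E → Sym2 V) (w : E → ℝ) (S : Finset E) (A : Matrix V V ℝ) :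
    HW ends w S (A.map Complex.ofReal) = (RW ends w S A : ℂ) := by
  rw [HW, RW, Complex.ofReal_sum]
  refine Finset.sum_congr rfl fun F _ => ?_
  rw [det_ofReal]
  push_cast
  rfl

/-- Bi-affinity of `HW` in the two rank-one parameters. -/
lemma HW_pert_affine (ends : E → Sym2 V) (w : E → ℝ) (S : Finset E) (A : Matrix V V ℝ)
    (hA : A.IsSymm) (v v' : V → ℝ) {ε : ℝ} (hε : 0 < ε) :
    ∃ a b c d : ℂ, ∀ t s : ℂ,
      HW ends w S (pert A v v' ε t s) = a + b * t + c * s + d * t * s := by
  have hterm : ∀ F : Finset E, ∃ a b c d : ℂ, ∀ t s : ℂ,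
      (1 + J ends F * pert A v v' ε t s).det = a + b * t + c * s + d * t * s := by
    intro F
    have hup : Up (pert A v v' ε 0 0) := pert_up A hA v v' hε (by simp) (by simp)
    set M := 1 + J ends F * pert A v v' ε 0 0 with hM
    have hMu : IsUnit M.det := hup.isUnit_det _ (J_herm ends F)
    set v1 : V → ℂ := fun i => (v i : ℂ) with hv'
    set w' : V → ℂ := fun i => (v' i : ℂ) with hw'
    set x := J ends F *ᵥ v1 with hx
    set y := J ends F *ᵥ w' with hy
    refine ⟨M.det, M.det * (v1 ⬝ᵥ (M⁻¹ *ᵥ x)), M.det * (w' ⬝ᵥ (M⁻¹ *ᵥ y)),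
      M.det * ((v1 ⬝ᵥ (M⁻¹ *ᵥ x)) * (w' ⬝ᵥ (M⁻¹ *ᵥ y))
        - (v1 ⬝ᵥ (M⁻¹ *ᵥ y)) * (w' ⬝ᵥ (M⁻¹ *ᵥ x))), ?_⟩
    intro t s
    have hvv : (vecMulVec v v).map Complex.ofReal = vecMulVec v1 v1 := by
      ext i j
      simp [vecMulVec_apply, hv']
    have hww : (vecMulVec v' v').map Complex.ofReal = vecMulVec w' w' := by
      ext i j
      simp [vecMulVec_apply, hw']
    have h1 : pert A v v' ε t s = pert A v v' ε 0 0 + vecMulVec v1 (t • v1)
        + vecMulVec w' (s • w') := by
      rw [pert, pert, hvv, hww, vecMulVec_smul, vecMulVec_smul]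
      simp
    have h2 : 1 + J ends F * pert A v v' ε t s = M + vecMulVec x (t • v1)
        + vecMulVec y (s • w') := by
      rw [h1, Matrix.mul_add, Matrix.mul_add, mul_vecMulVec, mul_vecMulVec, hM, ← hx, ← hy]
      simp only [add_assoc]
    rw [h2, det_rank_two M hMu]
    simp only [smul_dotProduct, smul_eq_mul]
    ring
  choose a b c d h using hterm
  refine ⟨∑ F ∈ S.powerset with Forest ends F, (∏ g ∈ F, (w g : ℂ)) * a F,
    ∑ F ∈ S.powerset with Forest ends F, (∏ g ∈ F, (w g : ℂ)) * b F,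
    ∑ F ∈ S.powerset with Forest ends F, (∏ g ∈ F, (w g : ℂ)) * c F,
    ∑ F ∈ S.powerset with Forest ends F, (∏ g ∈ F, (w g : ℂ)) * d F, ?_⟩
  intro t s
  rw [HW, Finset.sum_mul, Finset.sum_mul, Finset.sum_mul, Finset.sum_mul,
    ← Finset.sum_add_distrib, ← Finset.sum_add_distrib, ← Finset.sum_add_distrib]
  refine Finset.sum_congr rfl fun F _ => ?_
  rw [h F t s]
  ring

lemma continuous_HW_pert (ends : E → Sym2 V) (w : E → ℝ) (S : Finset E) (A : Matrix V V ℝ)
    (v v' : V → ℝ) (t s : ℂ) : Continuous fun ε : ℝ => HW ends w S (pert A v v' ε t s) := by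
  unfold HW
  refine continuous_finsetSum _ fun F _ => continuous_const.mul ?_
  apply Continuous.matrix_det
  refine continuous_const.add (continuous_const.matrix_mul ?_)
  unfold pert
  have : Continuous fun ε : ℝ => ((ε : ℂ) * I) • (1 : Matrix V V ℂ) :=
    (Complex.continuous_ofReal.mul continuous_const).smul continuous_const
  exact ((continuous_const.add this).add continuous_const).add continuous_const

lemma HW_pert_real (ends : E → Sym2 V) (w : E → ℝ) (S : Finset E) (A : Matrix V V ℝ)
    (v v' : V → ℝ) (t s : ℝ) : HW ends w S (pert A v v' 0 t s) =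
      (RW ends w S (A + t • vecMulVec v v + s • vecMulVec v' v') : ℂ) := by
  rw [← HW_ofReal]
  have : pert A v v' 0 t s = (A + t • vecMulVec v v + s • vecMulVec v' v').map Complex.ofReal := by
    ext i j
    simp [pert]
  rw [this]

/-- **Rayleigh inequality** for the weighted forest sum. -/
theorem rayleigh_w (ends : E → Sym2 V) (hloop : ∀ e, ¬ (ends e).IsDiag) (w : E → ℝ)
    (hw : ∀ e, 0 ≤ w e) (S : Finset E)
    (A : Matrix V V ℝ) (hA : A.IsSymm) (v v' : V → ℝ) :
    RW ends w S A * RW ends w S (A + vecMulVec v v + vecMulVec v' v') ≤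
      RW ends w S (A + vecMulVec v v) * RW ends w S (A + vecMulVec v' v') := by
  set h : ℝ → ℂ → ℂ → ℂ := fun ε t s => HW ends w S (pert A v v' ε t s) with hh
  set φ : ℝ → ℝ := fun ε =>
    ((h ε 0 0 + I * (h ε 1 0 - h ε 0 0)) *
      (starRingEnd ℂ) ((h ε 0 1 - h ε 0 0) + I * (h ε 1 1 - h ε 1 0 - h ε 0 1 + h ε 0 0))).im
    with hφ
  have hcont : ∀ t s : ℂ, Continuous fun ε : ℝ => h ε t s := continuous_HW_pert ends w S A v v'
  have hφc : Continuous φ := by
    apply Complex.continuous_im.comp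
    refine Continuous.mul ?_ (Complex.continuous_conj.comp ?_)
    · exact (hcont 0 0).add (continuous_const.mul ((hcont 1 0).sub (hcont 0 0)))
    · exact ((hcont 0 1).sub (hcont 0 0)).add
        (continuous_const.mul ((((hcont 1 1).sub (hcont 1 0)).sub (hcont 0 1)).add (hcont 0 0)))
  have hφpos : ∀ ε : ℝ, 0 < ε → 0 ≤ φ ε := by
    intro ε hε
    obtain ⟨a, b, c, d, habcd⟩ := HW_pert_affine ends w S A hA v v' hε
    have e00 : h ε 0 0 = a := by rw [hh]; simp [habcd]
    have e10 : h ε 1 0 = a + b := by rw [hh]; simp [habcd]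
    have e01 : h ε 0 1 = a + c := by rw [hh]; simp [habcd]
    have e11 : h ε 1 1 = a + b + c + d := by rw [hh]; simp [habcd]
    have h1 := im_bilinear (a + b * I) (c + d * I) (by
      intro s hs
      have h2 := HW_ne_zero ends hloop w hw S _
        (pert_up A hA v v' hε (t := I) (s := s) (by simp) hs)
      rw [habcd] at h2
      intro h3
      apply h2
      rw [← h3]
      ring)
    rw [hφ]
    simp only [e00, e10, e01, e11]
    convert h1 using 2
    congr 1
    · ring
    · congr 1
      ring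
  have hφ0 : 0 ≤ φ 0 := by
    have h1 : Filter.Tendsto φ (𝓝[>] 0) (𝓝 (φ 0)) :=
      (hφc.tendsto 0).mono_left nhdsWithin_le_nhds
    refine ge_of_tendsto h1 ?_
    filter_upwards [self_mem_nhdsWithin] with ε hε
    exact hφpos ε hε
  have r00 : h 0 0 0 = (RW ends w S A : ℂ) := by
    have := HW_pert_real ends w S A v v' 0 0
    simpa using this
  have r10 : h 0 1 0 = (RW ends w S (A + vecMulVec v v) : ℂ) := by
    have := HW_pert_real ends w S A v v' 1 0
    simpa using this
  have r01 : h 0 0 1 = (RW ends w S (A + vecMulVec v' v') : ℂ) := by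
    have := HW_pert_real ends w S A v v' 0 1
    simpa using this
  have r11 : h 0 1 1 = (RW ends w S (A + vecMulVec v v + vecMulVec v' v') : ℂ) := by
    have := HW_pert_real ends w S A v v' 1 1
    simpa using this
  rw [hφ] at hφ0
  simp only [r00, r10, r01, r11] at hφ0
  set p := RW ends w S A
  set q := RW ends w S (A + vecMulVec v v)
  set r := RW ends w S (A + vecMulVec v' v')
  set o := RW ends w S (A + vecMulVec v v + vecMulVec v' v')
  simp at hφ0
  nlinarith

end Pool.Agent.Lib.MP_d90615_co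
end
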