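import Mathlib
import Pool.Agent.Lib.MP_d90615_co.Mg.G026
import Pool.Agent.Lib.MP_d90615_co.Mg.G038

section

/-!
Gluing a piece at three vertices: the forest sum of a union is a combination of the forest sums
of the rest with virtual links.
-/

namespace Pool.Agent.CL

open Finset Pool.Agent.Lib.MP_d90615_co
open scoped Classical

variable {V E : Type*}

/-- Weight of the subsets `F` of `D` such that `F` and the links in `L` form a forest. -/
noncomputable def P (ends : E → Sym2 V) (w : E → ℝ) (D : Finset E) (L : List (V × V)) : ℝ :=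
  ∑ F ∈ D.powerset with good ends F L, ∏ e ∈ F, w e

/-- The five connection patterns of three vertices `a, b, x`. -/
def pat (R : V → V → Prop) (a b x : V) (i : Fin 5) : Prop :=
  match i with
  | 0 => ¬ R a b ∧ ¬ R b x ∧ ¬ R a x
  | 1 => R a b ∧ ¬ R b x
  | 2 => R b x ∧ ¬ R a b
  | 3 => R a x ∧ ¬ R a b
  | 4 => R a b ∧ R b x

/-- Weight of the forests in `D` with pattern `i` on `a, b, x`. -/
noncomputable def X (ends : E → Sym2 V) (w : E → ℝ) (D : Finset E) (a b x : V) (i : Fin 5) : ℝ :=
  ∑ A ∈ D.powerset with Forest ends A ∧ pat (Conn ends A) a b x i, ∏ e ∈ A, w e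

/-- The links that represent the pattern `i`. -/
def tau (a b x : V) (i : Fin 5) : List (V × V) :=
  match i with
  | 0 => []
  | 1 => [(a, b)]
  | 2 => [(b, x)]
  | 3 => [(a, x)]
  | 4 => [(a, b), (b, x)]

lemma pat_exists (R : V → V → Prop) (a b x : V) : ∃ i, pat R a b x i := by
  by_cases h1 : R a b
  · by_cases h2 : R b x
    · exact ⟨4, h1, h2⟩
    · exact ⟨1, h1, h2⟩
  · by_cases h2 : R b x
    · exact ⟨2, h2, h1⟩
    · by_cases h3 : R a x
      · exact ⟨3, h3, h1⟩
      · exact ⟨0, h1, h2, h3⟩

lemma pat_unique {R : V → V → Prop} (h : Equivalence R) {a b x : V} {i j : Fin 5}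
    (hi : pat R a b x i) (hj : pat R a b x j) : i = j := by
  have t1 : R a b → R b x → R a x := fun h1 h2 => h.trans h1 h2
  have t2 : R a b → R a x → R b x := fun h1 h2 => h.trans (h.symm h1) h2
  have t3 : R b x → R a x → R a b := fun h1 h2 => h.trans h2 (h.symm h1)
  fin_cases i <;> fin_cases j <;> simp only [pat] at hi hj <;> first | rfl | (exfalso; tauto)

lemma conn_touch {ends : E → Sym2 V} {A : Finset E} {u v : V} (h : Conn ends A u v) :
    u = v ∨ ((∃ e ∈ A, u ∈ ends e) ∧ ∃ e ∈ A, v ∈ ends e) := by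
  induction h with
  | refl => exact Or.inl rfl
  | @tail b c _ hbc ih =>
    obtain ⟨e, he, hs⟩ := hbc
    have hb : b ∈ ends e := by rw [hs]; exact Sym2.mem_mk_left _ _
    have hc : c ∈ ends e := by rw [hs]; exact Sym2.mem_mk_right _ _
    rcases ih with rfl | ⟨h1, _⟩
    · exact Or.inr ⟨⟨e, he, hb⟩, ⟨e, he, hc⟩⟩
    · exact Or.inr ⟨h1, ⟨e, he, hc⟩⟩

lemma conn_empty {ends : E → Sym2 V} {u v : V} : Conn ends (∅ : Finset E) u v ↔ u = v := by
  constructor
  · intro h
    rcases conn_touch h with h | ⟨⟨e, he, _⟩, _⟩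
    · exact h
    · simp at he
  · rintro rfl
    exact Conn.refl _ _ _

lemma forest_empty {ends : E → Sym2 V} : Forest ends (∅ : Finset E) := by
  intro e he
  simp at he

lemma rel_le {ends : E → Sym2 V} {F : Finset E} {L : List (V × V)} {S : V → V → Prop}
    (hS : Equivalence S) (hF : ∀ u v, Conn ends F u v → S u v) (hL : ∀ q ∈ L, S q.1 q.2) :
    ∀ u v, rel ends F L u v → S u v := by
  induction L with
  | nil => exact hF
  | cons q L ih =>
    have ih' := ih fun r hr => hL r (List.mem_cons_of_mem _ hr)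
    have hq := hL q List.mem_cons_self
    intro u v h
    rcases h with h | ⟨h1, h2⟩ | ⟨h1, h2⟩
    · exact ih' _ _ h
    · exact hS.trans (hS.trans (ih' _ _ h1) hq) (ih' _ _ h2)
    · exact hS.trans (hS.trans (ih' _ _ h1) (hS.symm hq)) (ih' _ _ h2)

/-- A forest `A` with pattern `i` that meets `out` only in `a, b, x` acts like `tau i`. -/
lemma pat_tau {ends : E → Sym2 V} {A : Finset E} (out : V → Prop) {a b x : V} {i : Fin 5}
    (hA : Forest ends A) (ho : ∀ e ∈ A, ∀ v ∈ ends e, out v → v = a ∨ v = b ∨ v = x)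
    (hab : a ≠ b) (hbx : b ≠ x) (hax : a ≠ x) (hi : pat (Conn ends A) a b x i) :
    (∀ u v, out u → out v → (rel ends A [] u v ↔ rel ends ∅ (tau a b x i) u v)) ∧
      (good ends A [] ↔ good ends ∅ (tau a b x i)) := by
  have hR := Conn_equiv ends A
  set R := Conn ends A with hRdef
  have key : ∀ u v, out u → out v → R u v → u = v ∨
      ((u = a ∨ u = b ∨ u = x) ∧ (v = a ∨ v = b ∨ v = x)) := by
    intro u v hu hv h
    rcases conn_touch h with h | ⟨⟨e, he, hue⟩, ⟨e', he', hve⟩⟩
    · exact Or.inl h
    · exact Or.inr ⟨ho e he u hue hu, ho e' he' v hve hv⟩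
  have sab : R a b ↔ R b a := ⟨fun h => hR.symm h, fun h => hR.symm h⟩
  have sbx : R b x ↔ R x b := ⟨fun h => hR.symm h, fun h => hR.symm h⟩
  have sax : R a x ↔ R x a := ⟨fun h => hR.symm h, fun h => hR.symm h⟩
  have raa : R a a := hR.refl a
  have rbb : R b b := hR.refl b
  have rxx : R x x := hR.refl x
  have t1 : R a b → R b x → R a x := fun h1 h2 => hR.trans h1 h2
  have t2 : R a b → R a x → R b x := fun h1 h2 => hR.trans (hR.symm h1) h2
  have t3 : R b x → R a x → R a b := fun h1 h2 => hR.trans h2 (hR.symm h1)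
  constructor
  · intro u v hu hv
    show R u v ↔ _
    constructor
    · intro h
      rcases key u v hu hv h with h' | ⟨h1, h2⟩
      · subst h'
        exact (rel_equiv ends ∅ _).refl u
      · fin_cases i <;> simp only [pat] at hi <;>
          simp only [tau, rel, Ins, conn_empty] <;>
          rcases h1 with rfl | rfl | rfl <;> rcases h2 with rfl | rfl | rfl <;>
          simp_all
    · intro h
      refine rel_le hR (fun p q hpq => ?_) ?_ u v h
      · rw [conn_empty] at hpq
        subst hpq
        exact hR.refl _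
      · intro q hq
        fin_cases i <;> simp only [pat] at hi <;> simp only [tau, List.mem_cons, List.not_mem_nil,
          or_false] at hq
        · subst hq; exact hi.1
        · subst hq; exact hi.1
        · subst hq; exact hi.1
        · rcases hq with rfl | rfl
          · exact hi.1
          · exact hi.2
  · refine ⟨fun _ => ?_, fun _ => hA⟩
    fin_cases i <;> simp only [tau, good, rel, Ins, conn_empty]
    · exact forest_empty
    · exact ⟨forest_empty, hab⟩
    · exact ⟨forest_empty, hbx⟩
    · exact ⟨forest_empty, hax⟩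
    · refine ⟨⟨forest_empty, hbx⟩, ?_⟩
      rintro (h | ⟨h, _⟩ | ⟨h, _⟩)
      · exact hab h
      · exact hab h
      · exact hax h

lemma sum_powerset_union {D1 D2 : Finset E} (h : Disjoint D1 D2) (f : Finset E → ℝ) :
    ∑ F ∈ (D1 ∪ D2).powerset, f F = ∑ A ∈ D1.powerset, ∑ B ∈ D2.powerset, f (A ∪ B) := by
  rw [← Finset.sum_product']
  symm
  refine Finset.sum_nbij' (fun p => p.1 ∪ p.2) (fun F => (F ∩ D1, F ∩ D2)) ?_ ?_ ?_ ?_ ?_
  · rintro ⟨A, B⟩ hp
    rw [mem_product, mem_powerset, mem_powerset] at hp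
    rw [mem_powerset]
    exact union_subset_union hp.1 hp.2
  · intro F _
    rw [mem_product, mem_powerset, mem_powerset]
    exact ⟨inter_subset_right, inter_subset_right⟩
  · rintro ⟨A, B⟩ hp
    rw [mem_product, mem_powerset, mem_powerset] at hp
    obtain ⟨hA, hB⟩ := hp
    have hAB : ∀ e ∈ A, e ∉ D2 := fun e he he' => (Finset.disjoint_left.mp h) (hA he) he'
    have hBA : ∀ e ∈ B, e ∉ D1 := fun e he he' => (Finset.disjoint_left.mp h) he' (hB he)
    refine Prod.ext ?_ ?_
    · ext e
      simp only [mem_inter, mem_union]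
      constructor
      · rintro ⟨h1 | h1, h2⟩
        · exact h1
        · exact absurd h2 (hBA e h1)
      · intro h1
        exact ⟨Or.inl h1, hA h1⟩
    · ext e
      simp only [mem_inter, mem_union]
      constructor
      · rintro ⟨h1 | h1, h2⟩
        · exact absurd h2 (hAB e h1)
        · exact h1
      · intro h1
        exact ⟨Or.inr h1, hB h1⟩
  · intro F hF
    rw [mem_powerset] at hF
    show F ∩ D1 ∪ F ∩ D2 = F
    rw [← Finset.inter_union_distrib_left, Finset.inter_eq_left.mpr hF]
  · rintro ⟨A, B⟩ _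
    rfl

/-- Gluing: the piece `D1` meets the rest only in `a, b, x`. -/
theorem glue {ends : E → Sym2 V} (w : E → ℝ) {D1 D' : Finset E} (hd : Disjoint D1 D')
    (out : V → Prop) {a b x : V} (hab : a ≠ b) (hbx : b ≠ x) (hax : a ≠ x)
    (h1 : ∀ e ∈ D1, ∀ v ∈ ends e, out v → v = a ∨ v = b ∨ v = x)
    (h2 : ∀ e ∈ D', ∀ v ∈ ends e, out v) (L : List (V × V)) (hL : ∀ q ∈ L, out q.1 ∧ out q.2) :
    P ends w (D1 ∪ D') L =
      ∑ i : Fin 5, X ends w D1 a b x i * P ends w D' (L ++ tau a b x i) := by
  have hX : ∀ i, X ends w D1 a b x i =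
      ∑ A ∈ D1.powerset, if Forest ends A ∧ pat (Conn ends A) a b x i then ∏ e ∈ A, w e else 0 :=
    fun i => by rw [X, sum_filter]
  have hP : ∀ D L, P ends w D L =
      ∑ F ∈ D.powerset, if good ends F L then ∏ e ∈ F, w e else 0 :=
    fun D L => by rw [P, sum_filter]
  have hR : ∑ i : Fin 5, X ends w D1 a b x i * P ends w D' (L ++ tau a b x i) =
      ∑ A ∈ D1.powerset, ∑ i : Fin 5, ∑ B ∈ D'.powerset,
        (if Forest ends A ∧ pat (Conn ends A) a b x i then ∏ e ∈ A, w e else 0) *
          (if good ends B (L ++ tau a b x i) then ∏ e ∈ B, w e else 0) := by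
    simp_rw [hX, hP, Finset.sum_mul_sum]
    exact Finset.sum_comm
  rw [hP, sum_powerset_union hd, hR]
  refine Finset.sum_congr rfl fun A hA => ?_
  rw [mem_powerset] at hA
  by_cases hF : Forest ends A
  · obtain ⟨i, hi⟩ := pat_exists (Conn ends A) a b x
    rw [Finset.sum_eq_single i]
    · rw [if_pos ⟨hF, hi⟩]
      refine Finset.sum_congr rfl fun B hB => ?_
      rw [mem_powerset] at hB
      obtain ⟨q1, q2⟩ := pat_tau out hF (fun e he => h1 e (hA he)) hab hbx hax hi
      obtain ⟨r1, r2⟩ := eqv_append out q1 q2 hL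
      have hAB : Disjoint A B := Finset.disjoint_of_subset_left hA
        (Finset.disjoint_of_subset_right hB hd)
      obtain ⟨-, s2⟩ := eqv out r1 r2 B (fun e he => h2 e (hB he)) hAB
        (Finset.disjoint_empty_left B)
      rw [Finset.empty_union] at s2
      by_cases hg : good ends (A ∪ B) L
      · rw [if_pos hg, if_pos (s2.mp hg), Finset.prod_union hAB]
      · rw [if_neg hg, if_neg fun h => hg (s2.mpr h), mul_zero]
    · intro j _ hj
      rw [if_neg fun h => hj (pat_unique (Conn_equiv ends A) h.2 hi)]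
      simp
    · intro h
      exact absurd (mem_univ _) h
  · trans (0 : ℝ)
    · exact Finset.sum_eq_zero fun B _ =>
        if_neg fun h => hF ((good_forest h).subset subset_union_left)
    · symm
      refine Finset.sum_eq_zero fun i _ => Finset.sum_eq_zero fun B _ => ?_
      rw [if_neg fun h => hF h.1, zero_mul]

end Pool.Agent.CL
end

section

/-!
The Rayleigh inequality for the weighted forest sum, loops allowed.
-/

set_option autoImplicit false
set_option linter.unusedSectionVars false

namespace Pool.Agent.Lib.MP_d90615_co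

open Matrix Finset Complex
open scoped Classical Topology

variable {V E : Type*} [Fintype V]

/-- **Main nonvanishing theorem, with weights.** -/
theorem HW_ne_zero' (ends : E → Sym2 V) (w : E → ℝ)
    (hw : ∀ e, 0 ≤ w e) (S : Finset E) :
    ∀ A : Matrix V V ℂ, Up A → HW ends w S A ≠ 0 := by
  induction S using Finset.induction_on with
  | empty =>
    intro A hA
    have h1 : Forest ends (∅ : Finset E) := by
      intro e he
      simp at he
    have h2 : HW ends w ∅ A = (1 + J ends ∅ * A).det := by
      simp [HW, Finset.filter_singleton, h1]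
    rw [h2]
    exact (hA.isUnit_det _ (J_herm ends ∅)).ne_zero
  | insert e S heS ih =>
    intro A hA
    obtain ⟨u, v, he⟩ : ∃ u v, ends e = s(u, v) := by
      induction h : ends e using Sym2.ind with
      | _ u v => exact ⟨u, v, rfl⟩
    by_cases huv : u = v
    · subst huv
      rw [HW_insert he heS]
      have h0 : ∑ F ∈ S.powerset with Forest ends F, (∏ g ∈ F, (w g : ℂ)) *
          ((1 + J ends F * A).det +
            w e * (if Conn ends F u u then 0 else (1 + J ends (insert e F) * A).det)) =
          HW ends w S A := by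
        rw [HW]
        refine Finset.sum_congr rfl fun F _ => ?_
        rw [if_pos (Conn.refl ends F u), mul_zero, add_zero]
      rw [h0]
      exact ih A hA
    choose! α β γ κ h1 h2 using fun F : Finset E => term_formula_w (F := F) he A hA (w e : ℂ)
    rw [HW_insert he heS]
    have h3 : ∑ F ∈ S.powerset with Forest ends F, (∏ g ∈ F, (w g : ℂ)) *
      ((1 + J ends F * A).det +
        w e * (if Conn ends F u v then 0 else (1 + J ends (insert e F) * A).det)) =
        (∑ F ∈ S.powerset with Forest ends F, (∏ g ∈ F, (w g : ℂ)) * α F)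
          - w e * ∑ F ∈ S.powerset with Forest ends F, (∏ g ∈ F, (w g : ℂ)) * κ F := by
      rw [Finset.mul_sum, ← Finset.sum_sub_distrib]
      refine Finset.sum_congr rfl fun F _ => ?_
      rw [← h2 F]
      ring
    rw [h3]
    obtain ⟨c, hc, hcA⟩ := hA
    refine bil_ne_w _ (∑ F ∈ S.powerset with Forest ends F, (∏ g ∈ F, (w g : ℂ)) * β F)
      (∑ F ∈ S.powerset with Forest ends F, (∏ g ∈ F, (w g : ℂ)) * γ F) _ (c / 2) (w e)
      (by linarith) (hw e) ?_
    intro z z' hz hz'
    have h4 := ih (updw A u v (w e) z z') (updw_up hc hcA huv (w e) hz hz')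
    have h5 : HW ends w S (updw A u v (w e) z z') =
        (∑ F ∈ S.powerset with Forest ends F, (∏ g ∈ F, (w g : ℂ)) * α F)
        + (∑ F ∈ S.powerset with Forest ends F, (∏ g ∈ F, (w g : ℂ)) * β F) * z
        + (∑ F ∈ S.powerset with Forest ends F, (∏ g ∈ F, (w g : ℂ)) * γ F) * z'
        + (∑ F ∈ S.powerset with Forest ends F, (∏ g ∈ F, (w g : ℂ)) * κ F) * z * z' := by
      rw [HW, Finset.sum_mul, Finset.sum_mul, Finset.sum_mul, Finset.sum_mul,
        ← Finset.sum_add_distrib, ← Finset.sum_add_distrib, ← Finset.sum_add_distrib]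
      refine Finset.sum_congr rfl fun F _ => ?_
      rw [h1 F z z']
      ring
    rwa [h5] at h4

/-- **Rayleigh inequality** for the weighted forest sum. -/
theorem rayleigh_w' (ends : E → Sym2 V) (w : E → ℝ)
    (hw : ∀ e, 0 ≤ w e) (S : Finset E)
    (A : Matrix V V ℝ) (hA : A.IsSymm) (v v' : V → ℝ) :
    RW ends w S A * RW ends w S (A + vecMulVec v v + vecMulVec v' v') ≤
      RW ends w S (A + vecMulVec v v) * RW ends w S (A + vecMulVec v' v') := by
  set h : ℝ → ℂ → ℂ → ℂ := fun ε t s => HW ends w S (pert A v v' ε t s) with hh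
  set φ : ℝ → ℝ := fun ε =>
    ((h ε 0 0 + I * (h ε 1 0 - h ε 0 0)) *
      (starRingEnd ℂ) ((h ε 0 1 - h ε 0 0) + I * (h ε 1 1 - h ε 1 0 - h ε 0 1 + h ε 0 0))).im
    with hφ
  have hcont : ∀ t s : ℂ, Continuous fun ε : ℝ => h ε t s := continuous_HW_pert ends w S A v v'
  have hφc : Continuous φ := by
    apply Complex.continuous_im.comp
    refine Continuous.mul ?_ (Complex.continuous_conj.comp ?_)
    · exact (hcont 0 0).add (continuous_const.mul ((hcont 1 0).sub (hcont 0 0)))
    · exact ((hcont 0 1).sub (hcont 0 0)).add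
        (continuous_const.mul ((((hcont 1 1).sub (hcont 1 0)).sub (hcont 0 1)).add (hcont 0 0)))
  have hφpos : ∀ ε : ℝ, 0 < ε → 0 ≤ φ ε := by
    intro ε hε
    obtain ⟨a, b, c, d, habcd⟩ := HW_pert_affine ends w S A hA v v' hε
    have e00 : h ε 0 0 = a := by rw [hh]; simp [habcd]
    have e10 : h ε 1 0 = a + b := by rw [hh]; simp [habcd]
    have e01 : h ε 0 1 = a + c := by rw [hh]; simp [habcd]
    have e11 : h ε 1 1 = a + b + c + d := by rw [hh]; simp [habcd]
    have h1 := im_bilinear (a + b * I) (c + d * I) (by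
      intro s hs
      have h2 := HW_ne_zero' ends w hw S _
        (pert_up A hA v v' hε (t := I) (s := s) (by simp) hs)
      rw [habcd] at h2
      intro h3
      apply h2
      rw [← h3]
      ring)
    rw [hφ]
    simp only [e00, e10, e01, e11]
    convert h1 using 2
    congr 1
    · ring
    · congr 1
      ring
  have hφ0 : 0 ≤ φ 0 := by
    have h1 : Filter.Tendsto φ (𝓝[>] 0) (𝓝 (φ 0)) :=
      (hφc.tendsto 0).mono_left nhdsWithin_le_nhds
    refine ge_of_tendsto h1 ?_
    filter_upwards [self_mem_nhdsWithin] with ε hε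
    exact hφpos ε hε
  have r00 : h 0 0 0 = (RW ends w S A : ℂ) := by
    have := HW_pert_real ends w S A v v' 0 0
    simpa using this
  have r10 : h 0 1 0 = (RW ends w S (A + vecMulVec v v) : ℂ) := by
    have := HW_pert_real ends w S A v v' 1 0
    simpa using this
  have r01 : h 0 0 1 = (RW ends w S (A + vecMulVec v' v') : ℂ) := by
    have := HW_pert_real ends w S A v v' 0 1
    simpa using this
  have r11 : h 0 1 1 = (RW ends w S (A + vecMulVec v v + vecMulVec v' v') : ℂ) := by
    have := HW_pert_real ends w S A v v' 1 1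
    simpa using this
  rw [hφ] at hφ0
  simp only [r00, r10, r01, r11] at hφ0
  set p := RW ends w S A
  set q := RW ends w S (A + vecMulVec v v)
  set r := RW ends w S (A + vecMulVec v' v')
  set o := RW ends w S (A + vecMulVec v v + vecMulVec v' v')
  simp at hφ0
  nlinarith

end Pool.Agent.Lib.MP_d90615_co
end
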