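import Pool.Agent.Lib.MP_d90615_co.Mg.G033

section

/-!
The three terminal inequality: `s T ≥ x_a x_b + x_b x_c + x_c x_a` for the numbers of forests in
which three given vertices are all connected, all separated, or in which exactly one pair is
connected.  In terms of the counts of connected pairs and triples it reads
`U Q + Q P + P U + S² ≤ S (N + U + Q + P)`.
-/

namespace Pool.Agent.Lib.MP_d90615_co

open Matrix Finset
open scoped Classical

variable {V E : Type*}

/-- Number of forests. -/
noncomputable def cN (ends : E → Sym2 V) (S : Finset E) : ℝ :=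
  ∑ F ∈ S.powerset with Forest ends F, (1 : ℝ)

/-- Number of forests connecting `a` and `b`. -/
noncomputable def c2 (ends : E → Sym2 V) (S : Finset E) (a b : V) : ℝ :=
  ∑ F ∈ S.powerset with Forest ends F, ind (Conn ends F a b)

/-- Number of forests connecting `a`, `b` and `c`. -/
noncomputable def c3 (ends : E → Sym2 V) (S : Finset E) (a b c : V) : ℝ :=
  ∑ F ∈ S.powerset with Forest ends F, ind (Conn ends F a b) * ind (Conn ends F b c)

/-- Number of forests separating `a`, `b` and `c`. -/
noncomputable def cT (ends : E → Sym2 V) (S : Finset E) (a b c : V) : ℝ :=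
  cN ends S - c2 ends S a b - c2 ends S b c - c2 ends S c a + 2 * c3 ends S a b c

lemma c2_comm (ends : E → Sym2 V) (S : Finset E) (a b : V) : c2 ends S a b = c2 ends S b a := by
  unfold c2
  exact Finset.sum_congr rfl fun F _ => ind_comm ends F a b

lemma ind_sq (p : Prop) : ind p * ind p = ind p := by
  unfold ind
  split_ifs <;> norm_num

/-- Products of indicators in a triple. -/
lemma ind_tri (ends : E → Sym2 V) (F : Finset E) (a b c : V) :
    ind (Conn ends F a b) * ind (Conn ends F b c) =
      ind (Conn ends F b c) * ind (Conn ends F c a) := by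
  have n1 : Conn ends F a b → Conn ends F b c → Conn ends F c a := fun h h' => (h.trans h').symm
  have n2 : Conn ends F b c → Conn ends F c a → Conn ends F a b := fun h h' => (h.trans h').symm
  unfold ind
  by_cases h1 : Conn ends F a b <;> by_cases h2 : Conn ends F b c <;>
    by_cases h3 : Conn ends F c a <;> simp_all

lemma c3_rot (ends : E → Sym2 V) (S : Finset E) (a b c : V) :
    c3 ends S a b c = c3 ends S b c a := by
  unfold c3
  exact Finset.sum_congr rfl fun F _ => ind_tri ends F a b c

lemma c3_flip (ends : E → Sym2 V) (S : Finset E) (a b c : V) :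
    c3 ends S a b c = c3 ends S c b a := by
  unfold c3
  refine Finset.sum_congr rfl fun F _ => ?_
  rw [ind_comm ends F a b, ind_comm ends F b c, mul_comm]

lemma cT_pos (ends : E → Sym2 V) (S : Finset E) {a b c : V} (hab : a ≠ b) (hbc : b ≠ c)
    (hca : c ≠ a) : 0 < cT ends S a b c := by
  have h1 : cT ends S a b c = ∑ F ∈ S.powerset with Forest ends F,
      (1 - ind (Conn ends F a b) - ind (Conn ends F b c) - ind (Conn ends F c a)
        + 2 * (ind (Conn ends F a b) * ind (Conn ends F b c))) := by
    rw [cT, cN, c2, c2, c2, c3, Finset.sum_add_distrib, Finset.sum_sub_distrib,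
      Finset.sum_sub_distrib, Finset.sum_sub_distrib, ← Finset.mul_sum]
  have h2 : ∀ F : Finset E, 0 ≤ (1 - ind (Conn ends F a b) - ind (Conn ends F b c)
      - ind (Conn ends F c a) + 2 * (ind (Conn ends F a b) * ind (Conn ends F b c))) := by
    intro F
    have n1 : Conn ends F a b → Conn ends F b c → Conn ends F c a := fun h h' =>
      (h.trans h').symm
    have n2 : Conn ends F b c → Conn ends F c a → Conn ends F a b := fun h h' =>
      (h.trans h').symm
    have n3 : Conn ends F a b → Conn ends F c a → Conn ends F b c := fun h h' =>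
      (h'.trans h).symm
    unfold ind
    by_cases h1 : Conn ends F a b <;> by_cases h2 : Conn ends F b c <;>
      by_cases h3 : Conn ends F c a <;> simp [h1, h2, h3] at n1 n2 n3 ⊢ <;> norm_num
  rw [h1]
  refine Finset.sum_pos' (fun F _ => h2 F) ⟨∅, ?_, ?_⟩
  · rw [Finset.mem_filter]
    refine ⟨Finset.empty_mem_powerset _, ?_⟩
    intro e he
    simp at he
  · have hne : ∀ x y : V, x ≠ y → ¬ Conn ends ∅ x y := by
      intro x y hxy h
      apply hxy
      unfold Conn at h
      induction h with
      | refl => rfl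
      | tail _ hs ih =>
        obtain ⟨e, he, _⟩ := hs
        simp at he
    rw [ind_neg (hne a b hab), ind_neg (hne b c hbc), ind_neg (hne c a hca)]
    norm_num

/-- Splitting off an edge `e = cv` of `S ∪ {e}`, for functions of the connections. -/
lemma sum_split (ends : E → Sym2 V) {S : Finset E} {e : E} (heS : e ∉ S) {c v : V}
    (he : ends e = s(c, v)) (f : Finset E → ℝ) :
    ∑ F ∈ (insert e S).powerset with Forest ends F, f F =
      (∑ F ∈ S.powerset with Forest ends F, f F) +
        ∑ F ∈ S.powerset with Forest ends F,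
          (1 - ind (Conn ends F c v)) * f (insert e F) := by
  rw [Finset.sum_filter, Finset.sum_powerset_insert heS, Finset.sum_filter, Finset.sum_filter]
  congr 1
  refine Finset.sum_congr rfl fun F hF => ?_
  have heF : e ∉ F := fun h => heS (Finset.mem_powerset.mp hF h)
  have hf := forest_insert he heF
  by_cases h1 : Forest ends F <;> by_cases h2 : Conn ends F c v <;>
    simp [hf, h1, h2, ind]

/-- Forests of the glued graph. -/
lemma sum_glue (ends : E → Sym2 V) (S : Finset E) {c v : V} (hcv : c ≠ v)
    (f : Finset E → ℝ) :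
    ∑ F ∈ S.powerset with Forest (gends ends c v) F, f F =
      ∑ F ∈ S.powerset with Forest ends F, (1 - ind (Conn ends F c v)) * f F := by
  rw [Finset.sum_filter, Finset.sum_filter]
  refine Finset.sum_congr rfl fun F _ => ?_
  have hf := forest_glue ends F hcv
  by_cases h1 : Forest ends F <;> by_cases h2 : Conn ends F c v <;>
    simp [hf, h1, h2, ind]

/-- Connections in `F ∪ {cv}` are connections of `F` in the glued graph. -/
lemma conn_insert_glue {ends : E → Sym2 V} {F : Finset E} {e : E} {c v i j : V}
    (he : ends e = s(c, v)) (hi : i ≠ v) (hj : j ≠ v) :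
    Conn ends (insert e F) i j ↔ Conn (gends ends c v) F i j := by
  have h1 := conn_glue ends F c v i j
  rw [glue_of_ne hi, glue_of_ne hj] at h1
  rw [h1, conn_insert he]
  rfl

end Pool.Agent.Lib.MP_d90615_co
end

section

/-!
The Rayleigh inequality behind the three terminal inequality.
-/

namespace Pool.Agent.Lib.MP_d90615_co

open Matrix Finset
open scoped Classical

variable {V E : Type*}

lemma glue_ind (ends : E → Sym2 V) (F : Finset E) {c v i j : V} (hi : i ≠ v) (hj : j ≠ v) :
    (1 - ind (Conn ends F c v)) * ind (Conn (gends ends c v) F i j) =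
      (1 - ind (Conn ends F c v)) * (ind (Conn ends F i j)
        + ind (Conn ends F i c) * ind (Conn ends F v j)
        + ind (Conn ends F i v) * ind (Conn ends F c j)) := by
  have h1 := conn_glue ends F c v i j
  rw [glue_of_ne hi, glue_of_ne hj] at h1
  by_cases h : Conn ends F c v
  · rw [ind_pos h]
    ring
  · have n1 : ¬ (Conn ends F i j ∧ Conn ends F i c ∧ Conn ends F v j) := fun ⟨a, b, c'⟩ =>
      h ((b.symm.trans a).trans c'.symm)
    have n2 : ¬ (Conn ends F i j ∧ Conn ends F i v ∧ Conn ends F c j) := fun ⟨a, b, c'⟩ =>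
      h ((c'.trans a.symm).trans b)
    have n3 : ¬ (Conn ends F i c ∧ Conn ends F i v) := fun ⟨a, b⟩ => h (a.symm.trans b)
    congr 1
    by_cases a1 : Conn ends F i j
    · rw [ind_pos (h1.mpr (Or.inl a1)), ind_pos a1]
      by_cases a2 : Conn ends F i c
      · have a3 : ¬ Conn ends F v j := fun a3 => n1 ⟨a1, a2, a3⟩
        have a4 : ¬ Conn ends F i v := fun a4 => n3 ⟨a2, a4⟩
        rw [ind_neg a3, ind_neg a4]
        ring
      · rw [ind_neg a2]
        by_cases a4 : Conn ends F i v
        · have a5 : ¬ Conn ends F c j := fun a5 => n2 ⟨a1, a4, a5⟩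
          rw [ind_neg a5]
          ring
        · rw [ind_neg a4]
          ring
    · rw [ind_neg a1]
      by_cases a2 : Conn ends F i c ∧ Conn ends F v j
      · have a4 : ¬ Conn ends F i v := fun a4 => n3 ⟨a2.1, a4⟩
        rw [ind_pos (h1.mpr (Or.inr (Or.inl a2))), ind_pos a2.1, ind_pos a2.2, ind_neg a4]
        ring
      · have b2 : ind (Conn ends F i c) * ind (Conn ends F v j) = 0 := by
          by_cases b : Conn ends F i c
          · rw [ind_neg (fun b' => a2 ⟨b, b'⟩), mul_zero]
          · rw [ind_neg b, zero_mul]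
        rw [b2]
        by_cases a3 : Conn ends F i v ∧ Conn ends F c j
        · rw [ind_pos (h1.mpr (Or.inr (Or.inr a3))), ind_pos a3.1, ind_pos a3.2]
          ring
        · have b3 : ind (Conn ends F i v) * ind (Conn ends F c j) = 0 := by
            by_cases b : Conn ends F i v
            · rw [ind_neg (fun b' => a3 ⟨b, b'⟩), mul_zero]
            · rw [ind_neg b, zero_mul]
          have b4 : ¬ Conn (gends ends c v) F i j := by
            rw [h1]
            rintro (h | h | h)
            · exact a1 h
            · exact a2 h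
            · exact a3 h
          rw [b3, ind_neg b4]
          ring

lemma lin_sum {ι : Type*} (s : Finset ι) (A B C G0 G1 G2 G3 : ι → ℝ) (t0 x y w : ℝ) :
    ∑ i ∈ s, (A i + B i * t0 + C i * x
      + (G0 i + y * G1 i + w * G2 i + y * w * G3 i) * (t0 * x)) =
    (∑ i ∈ s, A i) + (∑ i ∈ s, B i) * t0 + (∑ i ∈ s, C i) * x
      + ((∑ i ∈ s, G0 i) + y * (∑ i ∈ s, G1 i) + w * (∑ i ∈ s, G2 i)
        + y * w * (∑ i ∈ s, G3 i)) * (t0 * x) := by
  induction s using Finset.induction_on with
  | empty => simp
  | insert a s ha ih =>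
    rw [Finset.sum_insert ha, Finset.sum_insert ha, Finset.sum_insert ha, Finset.sum_insert ha,
      Finset.sum_insert ha, Finset.sum_insert ha, Finset.sum_insert ha, Finset.sum_insert ha, ih]
    ring

/-- The base matrix. -/
def aK (t0 x r y w : ℝ) : Matrix (Fin 4) (Fin 4) ℝ :=
  !![t0,0,0,0; 0,x,x*r,0; 0,x*r,x*r*r+y,0; 0,0,0,w]

lemma aK_symm (t0 x r y w : ℝ) : (aK t0 x r y w).IsSymm := by
  ext i j
  fin_cases i <;> fin_cases j <;> simp [aK]

lemma aK_add1 (t0 x r w : ℝ) :
    aK t0 x r 0 w + vecMulVec ![0, 0, 1, 0] ![0, 0, 1, 0] = aK t0 x r 1 w := by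
  ext i j
  fin_cases i <;> fin_cases j <;> simp [aK, vecMulVec_apply]

lemma aK_add2 (t0 x r y : ℝ) :
    aK t0 x r y 0 + vecMulVec ![0, 0, 0, 1] ![0, 0, 0, 1] = aK t0 x r y 1 := by
  ext i j
  fin_cases i <;> fin_cases j <;> simp [aK, vecMulVec_apply]

/-- The quadratic form of the pinned forest sum. -/
noncomputable def pr (ends : E → Sym2 V) (S : Finset E) (a b c : V) (r : ℝ) : ℝ :=
  (cN ends S - c2 ends S c a) + r ^ 2 * (cN ends S - c2 ends S b c)
    + 2 * r * (c2 ends S a b - c3 ends S a b c)

lemma pr_eq (ends : E → Sym2 V) (S : Finset E) (a b c : V) (r : ℝ) :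
    pr ends S a b c r = ∑ F ∈ S.powerset with Forest ends F,
      ((1 - ind (Conn ends F c a)) + r ^ 2 * (1 - ind (Conn ends F b c))
        + 2 * r * (ind (Conn ends F a b) - ind (Conn ends F a b) * ind (Conn ends F b c))) := by
  rw [pr, cN, c2, c2, c2, c3, Finset.sum_add_distrib, Finset.sum_add_distrib,
    Finset.sum_sub_distrib, ← Finset.mul_sum, Finset.sum_sub_distrib, ← Finset.mul_sum,
    Finset.sum_sub_distrib]

lemma cT_eq (ends : E → Sym2 V) (S : Finset E) (a b c : V) :
    cT ends S a b c = ∑ F ∈ S.powerset with Forest ends F,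
      (1 - ind (Conn ends F a b) - ind (Conn ends F b c) - ind (Conn ends F c a)
        + 2 * (ind (Conn ends F a b) * ind (Conn ends F b c))) := by
  rw [cT, cN, c2, c2, c2, c3, Finset.sum_add_distrib, Finset.sum_sub_distrib,
    Finset.sum_sub_distrib, Finset.sum_sub_distrib, ← Finset.mul_sum]

lemma pr_glue (ends : E → Sym2 V) (S : Finset E) {a b c v : V} (hcv : c ≠ v) (ha : a ≠ v)
    (hb : b ≠ v) (r : ℝ) :
    pr (gends ends c v) S a b c r = ∑ F ∈ S.powerset with Forest ends F,
      ((1 + 2 * ind (Conn ends F c a) * ind (Conn ends F c v) * ind (Conn ends F a v)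
          - ind (Conn ends F c a) ^ 2 - ind (Conn ends F c v) ^ 2 - ind (Conn ends F a v) ^ 2)
        + r ^ 2 * (1 + 2 * ind (Conn ends F c b) * ind (Conn ends F c v) * ind (Conn ends F b v)
          - ind (Conn ends F c b) ^ 2 - ind (Conn ends F c v) ^ 2 - ind (Conn ends F b v) ^ 2)
        + 2 * r * (ind (Conn ends F a b) * (1 - ind (Conn ends F c v) ^ 2)
          - ind (Conn ends F c a) * ind (Conn ends F c b)
          - ind (Conn ends F a v) * ind (Conn ends F b v)
          + ind (Conn ends F c v) * (ind (Conn ends F c a) * ind (Conn ends F b v)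
            + ind (Conn ends F c b) * ind (Conn ends F a v)))) := by
  rw [pr_eq, sum_glue ends S hcv]
  refine Finset.sum_congr rfl fun F _ => ?_
  have e1 := glue_ind ends F (c := c) hcv ha
  have e2 := glue_ind ends F (c := c) hb hcv
  have e3 := glue_ind ends F (c := c) ha hb
  have h0 : (1 - ind (Conn ends F c v)) * ((1 - ind (Conn (gends ends c v) F c a))
        + r ^ 2 * (1 - ind (Conn (gends ends c v) F b c))
        + 2 * r * (ind (Conn (gends ends c v) F a b)
          - ind (Conn (gends ends c v) F a b) * ind (Conn (gends ends c v) F b c))) =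
      (1 - ind (Conn ends F c v)) - (1 - ind (Conn ends F c v)) * ind (Conn (gends ends c v) F c a)
      + r ^ 2 * ((1 - ind (Conn ends F c v))
        - (1 - ind (Conn ends F c v)) * ind (Conn (gends ends c v) F b c))
      + 2 * r * ((1 - ind (Conn ends F c v)) * ind (Conn (gends ends c v) F a b)
        - (1 - ind (Conn ends F c v)) * ind (Conn (gends ends c v) F a b)
          * ind (Conn (gends ends c v) F b c)) := by ring
  have e4 : (1 - ind (Conn ends F c v)) * ind (Conn (gends ends c v) F a b)
      * ind (Conn (gends ends c v) F b c) =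
      (1 - ind (Conn ends F c v)) * (ind (Conn ends F a b)
        + ind (Conn ends F a c) * ind (Conn ends F v b)
        + ind (Conn ends F a v) * ind (Conn ends F c b)) * (ind (Conn ends F b c)
        + ind (Conn ends F b c) * ind (Conn ends F v c)
        + ind (Conn ends F b v) * ind (Conn ends F c c)) := by
    rw [e3]
    have : (1 - ind (Conn ends F c v)) * (ind (Conn ends F a b)
        + ind (Conn ends F a c) * ind (Conn ends F v b)
        + ind (Conn ends F a v) * ind (Conn ends F c b)) * ind (Conn (gends ends c v) F b c) =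
      (ind (Conn ends F a b)
        + ind (Conn ends F a c) * ind (Conn ends F v b)
        + ind (Conn ends F a v) * ind (Conn ends F c b)) *
        ((1 - ind (Conn ends F c v)) * ind (Conn (gends ends c v) F b c)) := by ring
    rw [this, e2]
    ring
  rw [h0, e4, e1, e2, e3, ind_pos (Conn.refl ends F c), ind_comm ends F a c,
    ind_comm ends F v b, ind_comm ends F b c, ind_comm ends F v c, ind_comm ends F v a]
  rcases ind4d ends F c a b v with h | h | h | h | h | h | h | h | h | h | h | h | h | h | h <;>
    obtain ⟨h1, h2, h3, h4, h5, h6⟩ := h <;> simp only [h1, h2, h3, h4, h5, h6] <;> ring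

end Pool.Agent.Lib.MP_d90615_co
end

section

/-!
The three terminal inequality.
-/

namespace Pool.Agent.Lib.MP_d90615_co

open Matrix Finset
open scoped Classical

variable {V E : Type*}

lemma cT_glue (ends : E → Sym2 V) (S : Finset E) {a b c v : V} (hcv : c ≠ v) (ha : a ≠ v)
    (hb : b ≠ v) :
    cT (gends ends c v) S a b c = ∑ F ∈ S.powerset with Forest ends F,
      (1 - ind (Conn ends F c a) ^ 2 - ind (Conn ends F c b) ^ 2 - ind (Conn ends F c v) ^ 2
        - ind (Conn ends F a b) ^ 2 - ind (Conn ends F a v) ^ 2 - ind (Conn ends F b v) ^ 2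
        + 2 * ind (Conn ends F c a) * ind (Conn ends F c b) * ind (Conn ends F a b)
        + 2 * ind (Conn ends F c a) * ind (Conn ends F c v) * ind (Conn ends F a v)
        + 2 * ind (Conn ends F c b) * ind (Conn ends F c v) * ind (Conn ends F b v)
        + 2 * ind (Conn ends F a b) * ind (Conn ends F a v) * ind (Conn ends F b v)
        + ind (Conn ends F c a) ^ 2 * ind (Conn ends F b v) ^ 2
        + ind (Conn ends F c b) ^ 2 * ind (Conn ends F a v) ^ 2
        + ind (Conn ends F c v) ^ 2 * ind (Conn ends F a b) ^ 2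
        - 2 * ind (Conn ends F c a) * ind (Conn ends F a b) * ind (Conn ends F b v)
          * ind (Conn ends F c v)
        - 2 * ind (Conn ends F c a) * ind (Conn ends F a v) * ind (Conn ends F b v)
          * ind (Conn ends F c b)
        - 2 * ind (Conn ends F c b) * ind (Conn ends F a b) * ind (Conn ends F a v)
          * ind (Conn ends F c v)) := by
  rw [cT_eq, sum_glue ends S hcv]
  refine Finset.sum_congr rfl fun F _ => ?_
  have e1 := glue_ind ends F (c := c) hcv ha
  have e2 := glue_ind ends F (c := c) hb hcv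
  have e3 := glue_ind ends F (c := c) ha hb
  have h0 : (1 - ind (Conn ends F c v)) * (1 - ind (Conn (gends ends c v) F a b)
        - ind (Conn (gends ends c v) F b c) - ind (Conn (gends ends c v) F c a)
        + 2 * (ind (Conn (gends ends c v) F a b) * ind (Conn (gends ends c v) F b c))) =
      (1 - ind (Conn ends F c v)) - (1 - ind (Conn ends F c v)) * ind (Conn (gends ends c v) F a b)
      - (1 - ind (Conn ends F c v)) * ind (Conn (gends ends c v) F b c)
      - (1 - ind (Conn ends F c v)) * ind (Conn (gends ends c v) F c a)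
      + 2 * ((1 - ind (Conn ends F c v)) * ind (Conn (gends ends c v) F a b)
          * ind (Conn (gends ends c v) F b c)) := by ring
  have e4 : (1 - ind (Conn ends F c v)) * ind (Conn (gends ends c v) F a b)
      * ind (Conn (gends ends c v) F b c) =
      (1 - ind (Conn ends F c v)) * (ind (Conn ends F a b)
        + ind (Conn ends F a c) * ind (Conn ends F v b)
        + ind (Conn ends F a v) * ind (Conn ends F c b)) * (ind (Conn ends F b c)
        + ind (Conn ends F b c) * ind (Conn ends F v c)
        + ind (Conn ends F b v) * ind (Conn ends F c c)) := by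
    rw [e3]
    have : (1 - ind (Conn ends F c v)) * (ind (Conn ends F a b)
        + ind (Conn ends F a c) * ind (Conn ends F v b)
        + ind (Conn ends F a v) * ind (Conn ends F c b)) * ind (Conn (gends ends c v) F b c) =
      (ind (Conn ends F a b)
        + ind (Conn ends F a c) * ind (Conn ends F v b)
        + ind (Conn ends F a v) * ind (Conn ends F c b)) *
        ((1 - ind (Conn ends F c v)) * ind (Conn (gends ends c v) F b c)) := by ring
    rw [this, e2]
    ring
  rw [h0, e4, e1, e2, e3, ind_pos (Conn.refl ends F c), ind_comm ends F a c,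
    ind_comm ends F v b, ind_comm ends F b c, ind_comm ends F v c, ind_comm ends F v a]
  rcases ind4d ends F c a b v with h | h | h | h | h | h | h | h | h | h | h | h | h | h | h <;>
    obtain ⟨h1, h2, h3, h4, h5, h6⟩ := h <;> simp only [h1, h2, h3, h4, h5, h6] <;> ring

lemma pr_eq' (ends : E → Sym2 V) (S : Finset E) (a b c : V) (r : ℝ) :
    pr ends S a b c r = ∑ F ∈ S.powerset with Forest ends F,
      (1 + r ^ 2 + 2 * r * ind (Conn ends F a b)
        - (ind (Conn ends F c a) + r * ind (Conn ends F c b)) ^ 2) := by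
  rw [pr_eq]
  refine Finset.sum_congr rfl fun F _ => ?_
  rw [ind_comm ends F b c]
  rcases ind4d ends F c a b a with h | h | h | h | h | h | h | h | h | h | h | h | h | h | h <;>
    obtain ⟨h1, h2, h3, h4, h5, h6⟩ := h <;> simp only [h1, h2, h4] <;> ring

lemma cT_eq' (ends : E → Sym2 V) (S : Finset E) (a b c : V) :
    cT ends S a b c = ∑ F ∈ S.powerset with Forest ends F,
      (1 + 2 * ind (Conn ends F c a) * ind (Conn ends F c b) * ind (Conn ends F a b)
        - ind (Conn ends F c a) ^ 2 - ind (Conn ends F c b) ^ 2 - ind (Conn ends F a b) ^ 2) := by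
  rw [cT_eq]
  refine Finset.sum_congr rfl fun F _ => ?_
  rw [ind_comm ends F b c]
  rcases ind4d ends F c a b a with h | h | h | h | h | h | h | h | h | h | h | h | h | h | h <;>
    obtain ⟨h1, h2, h3, h4, h5, h6⟩ := h <;> simp only [h1, h2, h4] <;> ring

variable [Fintype V]

/-- The pinned Rayleigh inequality. -/
lemma pr_ray (ends : E → Sym2 V) (S : Finset E) {a b c v : V} (hcv : c ≠ v) (ha : a ≠ v)
    (hb : b ≠ v) (r : ℝ) :
    cT (gends ends c v) S a b c * pr ends S a b c r ≤
      cT ends S a b c * pr (gends ends c v) S a b c r := by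
  set s : Finset (Finset E) := S.powerset.filter fun F => Forest ends F with hs
  set A : ℝ → ℝ → ℝ := fun y w => ∑ F ∈ s,
    (1 + y + w + y * w * (1 - ind (Conn ends F b v) ^ 2)) with hA
  set B : ℝ → ℝ → ℝ := fun y w => ∑ F ∈ s,
    (1 + y * (1 - ind (Conn ends F c b) ^ 2) + w * (1 - ind (Conn ends F c v) ^ 2)
        + y * w * (1 + 2 * ind (Conn ends F c b) * ind (Conn ends F c v) * ind (Conn ends F b v)
          - ind (Conn ends F c b) ^ 2 - ind (Conn ends F c v) ^ 2
          - ind (Conn ends F b v) ^ 2)) with hB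
  set C : ℝ → ℝ → ℝ := fun y w => ∑ F ∈ s,
    ((1 + r ^ 2 + 2 * r * ind (Conn ends F a b)) + y * (1 - ind (Conn ends F a b) ^ 2)
        + w * ((1 + r ^ 2 + 2 * r * ind (Conn ends F a b))
          - (ind (Conn ends F a v) + r * ind (Conn ends F b v)) ^ 2)
        + y * w * (1 + 2 * ind (Conn ends F a b) * ind (Conn ends F a v) * ind (Conn ends F b v)
          - ind (Conn ends F a b) ^ 2 - ind (Conn ends F a v) ^ 2
          - ind (Conn ends F b v) ^ 2)) with hC
  have hR : ∀ t0 x y w : ℝ, RT ends S ![c, a, b, v] (aK t0 x r y w) =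
      A y w + B y w * t0 + C y w * x
        + (pr ends S a b c r + y * cT ends S a b c + w * pr (gends ends c v) S a b c r
          + y * w * cT (gends ends c v) S a b c) * (t0 * x) := by
    intro t0 x y w
    rw [pr_glue ends S hcv ha hb r, cT_glue ends S hcv ha hb, pr_eq' ends S a b c r,
      cT_eq' ends S a b c, hA, hB, hC, ← lin_sum, RT]
    refine Finset.sum_congr rfl fun F _ => ?_
    rw [CM4, aK, det_four]
  have ray : ∀ t0 x : ℝ, RT ends S ![c, a, b, v] (aK t0 x r 0 0) *
      RT ends S ![c, a, b, v] (aK t0 x r 1 1) ≤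
      RT ends S ![c, a, b, v] (aK t0 x r 1 0) * RT ends S ![c, a, b, v] (aK t0 x r 0 1) := by
    intro t0 x
    have h := rayleighT ends S ![c, a, b, v] (aK t0 x r 0 0) (aK_symm _ _ _ _ _)
      ![0, 0, 1, 0] ![0, 0, 0, 1]
    rw [aK_add1, aK_add2, aK_add2] at h
    exact h
  set P0 := pr ends S a b c r
  set P1 := pr (gends ends c v) S a b c r
  set T0 := cT ends S a b c
  set T1 := cT (gends ends c v) S a b c
  have step1 : ∀ x : ℝ, 0 < x → (P0 * (P0 + T0 + P1 + T1) - (P0 + T0) * (P0 + P1)) * x ^ 2
      + (B 0 0 * (P0 + T0 + P1 + T1) + P0 * B 1 1 - B 1 0 * (P0 + P1) - (P0 + T0) * B 0 1) * x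
      + (B 0 0 * B 1 1 - B 1 0 * B 0 1) ≤ 0 := by
    intro x _
    have hx := leading_nonpos
      ((B 0 0 + P0 * x) * (B 1 1 + (P0 + T0 + P1 + T1) * x)
        - (B 1 0 + (P0 + T0) * x) * (B 0 1 + (P0 + P1) * x))
      ((A 0 0 + C 0 0 * x) * (B 1 1 + (P0 + T0 + P1 + T1) * x)
        + (B 0 0 + P0 * x) * (A 1 1 + C 1 1 * x)
        - (A 1 0 + C 1 0 * x) * (B 0 1 + (P0 + P1) * x)
        - (B 1 0 + (P0 + T0) * x) * (A 0 1 + C 0 1 * x))
      ((A 0 0 + C 0 0 * x) * (A 1 1 + C 1 1 * x) - (A 1 0 + C 1 0 * x) * (A 0 1 + C 0 1 * x))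
      (by
        intro t0 _
        have h := ray t0 x
        rw [hR, hR, hR, hR] at h
        nlinarith [h])
    nlinarith [hx]
  have step2 := leading_nonpos _ _ _ step1
  nlinarith [step2]

end Pool.Agent.Lib.MP_d90615_co
end
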