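import Mathlib
import Pool.Agent.Lib.MP_d90615_co.Three
import Pool.Agent.Lib.MP_d90615_co.ThreeAlg
import Pool.Agent.Lib.MP_d90615_co.Mg.G027
import Pool.Agent.Lib.MP_d90615_co.Mg.G035

section

/-!
The three point inequality `P(a ~ b ~ c)^2 <= P(a ~ b) P(b ~ c) P(a ~ c)` for the forest counts.
-/

namespace Pool.Agent.Lib.MP_d90615_co

open Matrix Finset
open scoped Classical

variable {V E : Type*}

lemma CM3 (ends : E → Sym2 V) (F : Finset E) (x y z : V) :
    CM ends ![x, y, z] F =
      !![1, ind (Conn ends F x y), ind (Conn ends F x z);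
        ind (Conn ends F x y), 1, ind (Conn ends F y z);
        ind (Conn ends F x z), ind (Conn ends F y z), 1] := by
  ext i j
  fin_cases i <;> fin_cases j <;> simp [CM_apply, Conn.refl] <;>
    first
    | rfl
    | (rw [ind_comm]; rfl)

/-- A symmetric three by three matrix. -/
def a3 (a1 a2 s x y z : ℝ) : Matrix (Fin 3) (Fin 3) ℝ := !![a1, z, x; z, a2, y; x, y, s]

lemma a3_symm (a1 a2 s x y z : ℝ) : (a3 a1 a2 s x y z).IsSymm := by
  ext i j
  fin_cases i <;> fin_cases j <;> simp [a3]

lemma a3_add1 (a2 s x y z : ℝ) :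
    a3 0 a2 s x y z + vecMulVec ![1, 0, 0] ![1, 0, 0] = a3 1 a2 s x y z := by
  ext i j
  fin_cases i <;> fin_cases j <;> simp [a3]

lemma a3_add2 (a1 s x y z : ℝ) :
    a3 a1 0 s x y z + vecMulVec ![0, 1, 0] ![0, 1, 0] = a3 a1 1 s x y z := by
  ext i j
  fin_cases i <;> fin_cases j <;> simp [a3]

lemma det_a3 (ends : E → Sym2 V) (F : Finset E) (a b c : V) (a1 a2 s x y z : ℝ) :
    (1 + CM ends ![a, b, c] F * a3 a1 a2 s x y z).det =
      (1 + a1 + a2 + s + (a2 * s - y ^ 2) + (a1 * s - x ^ 2) + (a1 * a2 - z ^ 2)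
        + (a1 * (a2 * s - y ^ 2) - z * (z * s - x * y) + x * (z * y - a2 * x)))
      + (2 * z - (a1 * a2 - z ^ 2) - 2 * (x * y - z * s)
        - (a1 * (a2 * s - y ^ 2) - z * (z * s - x * y) + x * (z * y - a2 * x)))
        * ind (Conn ends F a b)
      + (2 * x - (a1 * s - x ^ 2) - 2 * (z * y - a2 * x)
        - (a1 * (a2 * s - y ^ 2) - z * (z * s - x * y) + x * (z * y - a2 * x)))
        * ind (Conn ends F c a)
      + (2 * y - (a2 * s - y ^ 2) - 2 * (x * z - a1 * y)
        - (a1 * (a2 * s - y ^ 2) - z * (z * s - x * y) + x * (z * y - a2 * x)))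
        * ind (Conn ends F b c)
      + (2 * (x * y - z * s) + 2 * (z * y - a2 * x) + 2 * (x * z - a1 * y)
        + 2 * (a1 * (a2 * s - y ^ 2) - z * (z * s - x * y) + x * (z * y - a2 * x)))
        * (ind (Conn ends F a b) * ind (Conn ends F b c)) := by
  rw [CM3, ind_comm ends F a c]
  have n1 : Conn ends F a b → Conn ends F b c → Conn ends F c a := fun h h' =>
    (h.trans h').symm
  have n2 : Conn ends F b c → Conn ends F c a → Conn ends F a b := fun h h' =>
    (h.trans h').symm
  have n3 : Conn ends F a b → Conn ends F c a → Conn ends F b c := fun h h' =>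
    (h'.trans h).symm
  unfold ind a3
  by_cases h1 : Conn ends F a b <;> by_cases h2 : Conn ends F b c <;>
    by_cases h3 : Conn ends F c a <;> simp [h1, h2, h3] at n1 n2 n3 <;>
    simp [h1, h2, h3, Matrix.det_fin_three] <;> ring

variable [Fintype V]

lemma RT_a3 (ends : E → Sym2 V) (S : Finset E) (a b c : V) (a1 a2 s x y z : ℝ) :
    RT ends S ![a, b, c] (a3 a1 a2 s x y z) =
      (1 + a1 + a2 + s + (a2 * s - y ^ 2) + (a1 * s - x ^ 2) + (a1 * a2 - z ^ 2)
        + (a1 * (a2 * s - y ^ 2) - z * (z * s - x * y) + x * (z * y - a2 * x))) * cN ends S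
      + (2 * z - (a1 * a2 - z ^ 2) - 2 * (x * y - z * s)
        - (a1 * (a2 * s - y ^ 2) - z * (z * s - x * y) + x * (z * y - a2 * x)))
        * c2 ends S a b
      + (2 * x - (a1 * s - x ^ 2) - 2 * (z * y - a2 * x)
        - (a1 * (a2 * s - y ^ 2) - z * (z * s - x * y) + x * (z * y - a2 * x)))
        * c2 ends S c a
      + (2 * y - (a2 * s - y ^ 2) - 2 * (x * z - a1 * y)
        - (a1 * (a2 * s - y ^ 2) - z * (z * s - x * y) + x * (z * y - a2 * x)))
        * c2 ends S b c
      + (2 * (x * y - z * s) + 2 * (z * y - a2 * x) + 2 * (x * z - a1 * y)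
        + 2 * (a1 * (a2 * s - y ^ 2) - z * (z * s - x * y) + x * (z * y - a2 * x)))
        * c3 ends S a b c := by
  rw [RT, Finset.sum_congr rfl fun F _ => det_a3 ends F a b c a1 a2 s x y z, cN, c2, c2, c2, c3]
  simp only [Finset.sum_add_distrib, ← Finset.mul_sum, Finset.sum_const, nsmul_eq_mul, mul_one]
  ring

/-- **The three point inequality** for the forest counts. -/
theorem three_point (ends : E → Sym2 V) (S : Finset E) {a b c : V} (hab : a ≠ b)
    (hbc : b ≠ c) (hca : c ≠ a) :
    cN ends S * c3 ends S a b c ^ 2 ≤ c2 ends S b c * c2 ends S c a * c2 ends S a b := by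
  refine three_alg (cN ends S) (c2 ends S b c) (c2 ends S c a) (c2 ends S a b)
    (c3 ends S a b c) ?_ ?_ ?_
  · have := cT_pos ends S hab hbc hca
    rw [cT] at this
    linarith
  · have := three_terminals ends S hab hbc hca
    linarith
  · intro x y z s
    have h := rayleighT ends S ![a, b, c] (a3 0 0 s x y z) (a3_symm 0 0 s x y z)
      ![1, 0, 0] ![0, 1, 0]
    rw [a3_add1, a3_add2, a3_add2, RT_a3, RT_a3, RT_a3, RT_a3] at h
    nlinarith [h]

end Pool.Agent.Lib.MP_d90615_co
end

section

/-!
Weighted sums over forests.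
-/

set_option autoImplicit false
set_option linter.unusedSectionVars false

namespace Pool.Agent.Lib.MP_d90615_co

open Matrix Finset
open scoped Classical

variable {V E : Type*}

/-- Weighted sum over the forests in `S`. -/
noncomputable def sw (ends : E → Sym2 V) (w : E → ℝ) (S : Finset E) (f : Finset E → ℝ) : ℝ :=
  ∑ F ∈ S.powerset with Forest ends F, (∏ g ∈ F, w g) * f F

lemma sw_congr {ends : E → Sym2 V} {w : E → ℝ} {S : Finset E} {f g : Finset E → ℝ}
    (h : ∀ F, f F = g F) : sw ends w S f = sw ends w S g := by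
  unfold sw
  exact Finset.sum_congr rfl fun F _ => by rw [h F]

/-- Splitting off an edge `e = cv` of `S ∪ {e}`. -/
lemma sw_split (ends : E → Sym2 V) (w : E → ℝ) {S : Finset E} {e : E} (heS : e ∉ S) {c v : V}
    (he : ends e = s(c, v)) (f : Finset E → ℝ) :
    sw ends w (insert e S) f = sw ends w S f +
      w e * sw ends w S (fun F => (1 - ind (Conn ends F c v)) * f (insert e F)) := by
  unfold sw
  rw [Finset.sum_filter, Finset.sum_powerset_insert heS, Finset.sum_filter, Finset.sum_filter,
    Finset.mul_sum]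
  congr 1
  refine Finset.sum_congr rfl fun F hF => ?_
  have heF : e ∉ F := fun h => heS (Finset.mem_powerset.mp hF h)
  have hf := forest_insert he heF
  by_cases h1 : Forest ends F
  · by_cases h2 : Conn ends F c v
    · have h3 : ¬ Forest ends (insert e F) := fun h => (hf.mp h).2 h2
      simp [h1, h2, h3, ind]
    · have h3 : Forest ends (insert e F) := hf.mpr ⟨h1, h2⟩
      simp only [h1, h2, h3, ind, if_true, if_false, Finset.prod_insert heF]
      ring
  · have h3 : ¬ Forest ends (insert e F) := fun h => h1 (hf.mp h).1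
    simp [h1, h3]

/-- Forests of the glued graph. -/
lemma sw_glue (ends : E → Sym2 V) (w : E → ℝ) (S : Finset E) {c v : V} (hcv : c ≠ v)
    (f : Finset E → ℝ) :
    sw (gends ends c v) w S f = sw ends w S (fun F => (1 - ind (Conn ends F c v)) * f F) := by
  unfold sw
  rw [Finset.sum_filter, Finset.sum_filter]
  refine Finset.sum_congr rfl fun F _ => ?_
  have hf := forest_glue ends F hcv
  by_cases h1 : Forest ends F <;> by_cases h2 : Conn ends F c v <;>
    simp [hf, h1, h2, ind]

/-- The weighted terminal sum. -/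
noncomputable def RTW {k : ℕ} (ends : E → Sym2 V) (w : E → ℝ) (S : Finset E) (t : Fin k → V)
    (a : Matrix (Fin k) (Fin k) ℝ) : ℝ :=
  sw ends w S (fun F => (1 + CM ends t F * a).det)

lemma RW_PM [Fintype V] {k : ℕ} (ends : E → Sym2 V) (w : E → ℝ) (S : Finset E) (t : Fin k → V)
    (a : Matrix (Fin k) (Fin k) ℝ) :
    RW ends w S (PM t * a * (PM t)ᵀ) = RTW ends w S t a := by
  rw [RW, RTW, sw]
  refine Finset.sum_congr rfl fun F _ => ?_
  rw [← Matrix.mul_assoc, Matrix.det_one_add_mul_comm, ← PM_JR ends t F]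
  simp only [Matrix.mul_assoc]

/-- **Rayleigh inequality** in terms of the terminals, with weights. -/
theorem rayleighTW [Fintype V] {k : ℕ} (ends : E → Sym2 V) (w : E → ℝ) (hw : ∀ e, 0 ≤ w e)
    (S : Finset E) (t : Fin k → V)
    (a : Matrix (Fin k) (Fin k) ℝ) (ha : a.IsSymm) (g h : Fin k → ℝ) :
    RTW ends w S t a * RTW ends w S t (a + vecMulVec g g + vecMulVec h h) ≤
      RTW ends w S t (a + vecMulVec g g) * RTW ends w S t (a + vecMulVec h h) := by
  have hs : (PM t * a * (PM t)ᵀ).IsSymm := by
    rw [Matrix.IsSymm, Matrix.transpose_mul, Matrix.transpose_mul, Matrix.transpose_transpose,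
      ha.eq, Matrix.mul_assoc]
  have h1 := rayleigh_w' ends w hw S (PM t * a * (PM t)ᵀ) hs (PM t *ᵥ g) (PM t *ᵥ h)
  rw [← PM_rank_one, ← PM_rank_one, ← Matrix.add_mul, ← Matrix.mul_add, ← Matrix.add_mul,
    ← Matrix.mul_add, ← Matrix.add_mul, ← Matrix.mul_add, RW_PM, RW_PM, RW_PM, RW_PM] at h1
  exact h1

/-- Weight of all forests. -/
noncomputable def wN (ends : E → Sym2 V) (w : E → ℝ) (S : Finset E) : ℝ :=
  sw ends w S (fun _ => 1)

/-- Weight of the forests connecting `a` and `b`. -/
noncomputable def w2 (ends : E → Sym2 V) (w : E → ℝ) (S : Finset E) (a b : V) : ℝ :=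
  sw ends w S (fun F => ind (Conn ends F a b))

/-- Weight of the forests connecting `a`, `b` and `c`. -/
noncomputable def w3 (ends : E → Sym2 V) (w : E → ℝ) (S : Finset E) (a b c : V) : ℝ :=
  sw ends w S (fun F => ind (Conn ends F a b) * ind (Conn ends F b c))

/-- Weight of the forests separating `a`, `b` and `c`. -/
noncomputable def wT (ends : E → Sym2 V) (w : E → ℝ) (S : Finset E) (a b c : V) : ℝ :=
  wN ends w S - w2 ends w S a b - w2 ends w S b c - w2 ends w S c a + 2 * w3 ends w S a b c

lemma w2_comm (ends : E → Sym2 V) (w : E → ℝ) (S : Finset E) (a b : V) :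
    w2 ends w S a b = w2 ends w S b a :=
  sw_congr fun F => ind_comm ends F a b

lemma w3_rot (ends : E → Sym2 V) (w : E → ℝ) (S : Finset E) (a b c : V) :
    w3 ends w S a b c = w3 ends w S b c a :=
  sw_congr fun F => ind_tri ends F a b c

lemma w3_flip (ends : E → Sym2 V) (w : E → ℝ) (S : Finset E) (a b c : V) :
    w3 ends w S a b c = w3 ends w S c b a := by
  refine sw_congr fun F => ?_
  rw [ind_comm ends F a b, ind_comm ends F b c, mul_comm]

lemma wT_eq (ends : E → Sym2 V) (w : E → ℝ) (S : Finset E) (a b c : V) :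
    wT ends w S a b c = sw ends w S (fun F =>
      (1 - ind (Conn ends F a b) - ind (Conn ends F b c) - ind (Conn ends F c a)
        + 2 * (ind (Conn ends F a b) * ind (Conn ends F b c)))) := by
  simp only [wT, wN, w2, w3, sw, Finset.mul_sum, ← Finset.sum_sub_distrib,
    ← Finset.sum_add_distrib]
  exact Finset.sum_congr rfl fun F _ => by ring

lemma wT_pos (ends : E → Sym2 V) (w : E → ℝ) (hw : ∀ e, 0 ≤ w e) (S : Finset E) {a b c : V}
    (hab : a ≠ b) (hbc : b ≠ c) (hca : c ≠ a) : 0 < wT ends w S a b c := by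
  have h2 : ∀ F : Finset E, 0 ≤ (1 - ind (Conn ends F a b) - ind (Conn ends F b c)
      - ind (Conn ends F c a) + 2 * (ind (Conn ends F a b) * ind (Conn ends F b c))) := by
    intro F
    have n1 : Conn ends F a b → Conn ends F b c → Conn ends F c a := fun h h' =>
      (h.trans h').symm
    have n2 : Conn ends F b c → Conn ends F c a → Conn ends F a b := fun h h' =>
      (h.trans h').symm
    have n3 : Conn ends F a b → Conn ends F c a → Conn ends F b c := fun h h' =>
      (h'.trans h).symm
    unfold ind
    by_cases h1 : Conn ends F a b <;> by_cases h2 : Conn ends F b c <;>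
      by_cases h3 : Conn ends F c a <;> simp [h1, h2, h3] at n1 n2 n3 ⊢ <;> norm_num
  rw [wT_eq, sw]
  refine Finset.sum_pos' (fun F _ => mul_nonneg (Finset.prod_nonneg fun g _ => hw g) (h2 F))
    ⟨∅, ?_, ?_⟩
  · rw [Finset.mem_filter]
    refine ⟨Finset.empty_mem_powerset _, ?_⟩
    intro e he
    simp at he
  · have hne : ∀ x y : V, x ≠ y → ¬ Conn ends ∅ x y := by
      intro x y hxy h
      apply hxy
      unfold Conn at h
      induction h with
      | refl => rfl
      | tail _ hs ih =>
        obtain ⟨e, he, _⟩ := hs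
        simp at he
    rw [ind_neg (hne a b hab), ind_neg (hne b c hbc), ind_neg (hne c a hca)]
    norm_num

/-- The quadratic expression of the weighted three terminal inequality. -/
noncomputable def dw (ends : E → Sym2 V) (w : E → ℝ) (S : Finset E) (a b c : V) : ℝ :=
  dl (wN ends w S) (w2 ends w S a b) (w2 ends w S b c) (w2 ends w S c a) (w3 ends w S a b c)

lemma dw_swap (ends : E → Sym2 V) (w : E → ℝ) (S : Finset E) (a b c : V) :
    dw ends w S a b c = dw ends w S b a c := by
  rw [dw, dw, w2_comm ends w S b a, w2_comm ends w S a c, w2_comm ends w S c b,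
    w3_flip ends w S b a c, w3_rot ends w S c a b, dl, dl]
  ring

/-- An edge `ca` between two terminals does not change `dw`. -/
lemma dw_terminal (ends : E → Sym2 V) (w : E → ℝ) {S : Finset E} {e : E} (heS : e ∉ S)
    {a b c : V} (he : ends e = s(c, a)) : dw ends w (insert e S) a b c = dw ends w S a b c := by
  have key : ∀ F : Finset E,
      (1 - ind (Conn ends F c a)) * ind (Conn ends (insert e F) a b) =
        ind (Conn ends F a b) + ind (Conn ends F b c)
          - 2 * (ind (Conn ends F a b) * ind (Conn ends F b c)) ∧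
      (1 - ind (Conn ends F c a)) * ind (Conn ends (insert e F) b c) =
        ind (Conn ends F a b) + ind (Conn ends F b c)
          - 2 * (ind (Conn ends F a b) * ind (Conn ends F b c)) ∧
      (1 - ind (Conn ends F c a)) * ind (Conn ends (insert e F) c a) =
        1 - ind (Conn ends F c a) ∧
      (1 - ind (Conn ends F c a)) *
        (ind (Conn ends (insert e F) a b) * ind (Conn ends (insert e F) b c)) =
        ind (Conn ends F a b) + ind (Conn ends F b c)
          - 2 * (ind (Conn ends F a b) * ind (Conn ends F b c)) := by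
    intro F
    have i1 := conn_insert (F := F) he a b
    have i2 := conn_insert (F := F) he b c
    have i3 := conn_insert (F := F) he c a
    have n1 : Conn ends F a b → Conn ends F b c → Conn ends F c a := fun h h' =>
      (h.trans h').symm
    have n2 : Conn ends F b c → Conn ends F c a → Conn ends F a b := fun h h' =>
      (h.trans h').symm
    have n3 : Conn ends F a b → Conn ends F c a → Conn ends F b c := fun h h' =>
      (h'.trans h).symm
    have r1 := Conn.refl ends F a
    have r2 := Conn.refl ends F c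
    have s1 : Conn ends F a c ↔ Conn ends F c a := ⟨Conn.symm, Conn.symm⟩
    have s2 : Conn ends F c b ↔ Conn ends F b c := ⟨Conn.symm, Conn.symm⟩
    have s3 : Conn ends F b a ↔ Conn ends F a b := ⟨Conn.symm, Conn.symm⟩
    unfold ind
    rw [s1, s2] at i1
    rw [s3] at i2
    by_cases h1 : Conn ends F a b <;> by_cases h2 : Conn ends F b c <;>
      by_cases h3 : Conn ends F c a <;>
      simp [h1, h2, h3] at n1 n2 n3 <;>
      simp [h1, h2, h3, r1, r2, i1, i2, i3] <;> norm_num
  have e0 : wN ends w (insert e S) = wN ends w S + w e * (wN ends w S - w2 ends w S c a) := by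
    simp only [wN, w2]
    rw [sw_split ends w heS he]
    simp only [sw, Finset.mul_sum, ← Finset.sum_sub_distrib, ← Finset.sum_add_distrib]
    exact Finset.sum_congr rfl fun F _ => by ring
  have e1 : w2 ends w (insert e S) a b =
      w2 ends w S a b + w e * (w2 ends w S a b + w2 ends w S b c - 2 * w3 ends w S a b c) := by
    simp only [w2, w3]
    rw [sw_split ends w heS he, sw_congr fun F => (key F).1]
    simp only [sw, Finset.mul_sum, ← Finset.sum_sub_distrib, ← Finset.sum_add_distrib]
    exact Finset.sum_congr rfl fun F _ => by ring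
  have e2 : w2 ends w (insert e S) b c =
      w2 ends w S b c + w e * (w2 ends w S a b + w2 ends w S b c - 2 * w3 ends w S a b c) := by
    simp only [w2, w3]
    rw [sw_split ends w heS he, sw_congr fun F => (key F).2.1]
    simp only [sw, Finset.mul_sum, ← Finset.sum_sub_distrib, ← Finset.sum_add_distrib]
    exact Finset.sum_congr rfl fun F _ => by ring
  have e3 : w2 ends w (insert e S) c a =
      w2 ends w S c a + w e * (wN ends w S - w2 ends w S c a) := by
    simp only [wN, w2]
    rw [sw_split ends w heS he, sw_congr fun F => (key F).2.2.1]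
    simp only [sw, Finset.mul_sum, ← Finset.sum_sub_distrib, ← Finset.sum_add_distrib]
    exact Finset.sum_congr rfl fun F _ => by ring
  have e4 : w3 ends w (insert e S) a b c =
      w3 ends w S a b c + w e * (w2 ends w S a b + w2 ends w S b c - 2 * w3 ends w S a b c) := by
    simp only [w2, w3]
    rw [sw_split ends w heS he, sw_congr fun F => (key F).2.2.2]
    simp only [sw, Finset.mul_sum, ← Finset.sum_sub_distrib, ← Finset.sum_add_distrib]
    exact Finset.sum_congr rfl fun F _ => by ring
  rw [dw, e0, e1, e2, e3, e4, dw, dl, dl]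
  ring

/-- Splitting off an edge `cv` with `v` not a terminal. -/
lemma w2_internal (ends : E → Sym2 V) (w : E → ℝ) {S : Finset E} {e : E} (heS : e ∉ S)
    {c v i j : V} (he : ends e = s(c, v)) (hcv : c ≠ v) (hi : i ≠ v) (hj : j ≠ v) :
    w2 ends w (insert e S) i j = w2 ends w S i j + w e * w2 (gends ends c v) w S i j := by
  rw [w2, sw_split ends w heS he, w2, w2, sw_glue ends w S hcv]
  congr 2
  refine sw_congr fun F => ?_
  rw [conn_insert_glue (F := F) he hi hj]

lemma w3_internal (ends : E → Sym2 V) (w : E → ℝ) {S : Finset E} {e : E} (heS : e ∉ S)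
    {a b c v : V} (he : ends e = s(c, v)) (hcv : c ≠ v) (ha : a ≠ v) (hb : b ≠ v) :
    w3 ends w (insert e S) a b c =
      w3 ends w S a b c + w e * w3 (gends ends c v) w S a b c := by
  rw [w3, sw_split ends w heS he, w3, w3, sw_glue ends w S hcv]
  congr 2
  refine sw_congr fun F => ?_
  rw [conn_insert_glue (F := F) he ha hb, conn_insert_glue (F := F) he hb hcv]

lemma wN_internal (ends : E → Sym2 V) (w : E → ℝ) {S : Finset E} {e : E} (heS : e ∉ S) {c v : V}
    (he : ends e = s(c, v)) (hcv : c ≠ v) :
    wN ends w (insert e S) = wN ends w S + w e * wN (gends ends c v) w S := by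
  rw [wN, sw_split ends w heS he, wN, wN, sw_glue ends w S hcv]

/-- An isolated terminal. -/
lemma dw_isolated (ends : E → Sym2 V) (w : E → ℝ) (S : Finset E) {a b c : V} (hbc : b ≠ c)
    (hca : c ≠ a) (h : ∀ e ∈ S, ∀ v, ends e = s(c, v) → v = c) : dw ends w S a b c = 0 := by
  have hiso : ∀ F ∈ S.powerset.filter (fun F => Forest ends F), ∀ x, Conn ends F c x → x = c := by
    intro F hF x hx
    have hFS := Finset.mem_powerset.mp (Finset.mem_filter.mp hF).1
    unfold Conn at hx
    induction hx with
    | refl => rfl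
    | tail _ hs ih =>
      obtain ⟨e, he, hs⟩ := hs
      rw [ih] at hs
      exact h e (hFS he) _ hs
  have e1 : w2 ends w S c a = 0 := by
    rw [w2, sw]
    refine Finset.sum_eq_zero fun F hF => ?_
    rw [ind_neg fun hc => hca (hiso F hF a hc).symm, mul_zero]
  have e2 : w2 ends w S b c = 0 := by
    rw [w2, sw]
    refine Finset.sum_eq_zero fun F hF => ?_
    rw [ind_neg fun hc : Conn ends F b c => hbc (hiso F hF b hc.symm), mul_zero]
  have e3 : w3 ends w S a b c = 0 := by
    rw [w3, sw]
    refine Finset.sum_eq_zero fun F hF => ?_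
    rw [ind_neg (fun hc : Conn ends F b c => hbc (hiso F hF b hc.symm)), mul_zero, mul_zero]
  rw [dw, e1, e2, e3, dl]
  ring

end Pool.Agent.Lib.MP_d90615_co
end
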