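import Mathlib
import Pool.Agent.Lib.MP_d90615_co.CL.Eps
import Pool.Agent.Lib.MP_d90615_co.Mg.G026

section

/-!
The pattern sums of a star and a triangle.
-/

set_option autoImplicit false
set_option linter.unusedSectionVars false

namespace Pool.Agent.CL

open Finset Pool.Agent.Lib.MP_d90615_co
open scoped Classical

variable {V E : Type*}

lemma X_split (ends : E → Sym2 V) (w : E → ℝ) {S : Finset E} {e : E} (heS : e ∉ S) {c v : V}
    (he : ends e = s(c, v)) (a b x : V) (i : Fin 5) :
    X ends w (insert e S) a b x i = X ends w S a b x i +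
      w e * sw ends w S (fun F => (1 - ind (Conn ends F c v)) *
        ind (pat (Conn ends (insert e F)) a b x i)) := by
  rw [X_sw, X_sw, sw_split ends w heS he]

/-- An edge from a terminal to a vertex that is not a terminal. -/
lemma X_internal (ends : E → Sym2 V) (w : E → ℝ) {S : Finset E} {e : E} (heS : e ∉ S)
    {c v a b x : V} (he : ends e = s(c, v)) (hcv : c ≠ v) (ha : a ≠ v) (hb : b ≠ v) (hx : x ≠ v)
    (i : Fin 5) :
    X ends w (insert e S) a b x i =
      X ends w S a b x i + w e * X (gends ends c v) w S a b x i := by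
  rw [X_split ends w heS he, X_sw (gends ends c v), sw_glue ends w S hcv]
  congr 2
  refine sw_congr fun F => ?_
  have h1 := conn_insert_glue (F := F) he ha hb
  have h2 := conn_insert_glue (F := F) he hb hx
  have h3 := conn_insert_glue (F := F) he ha hx
  congr 2
  fin_cases i <;> simp only [pat, h1, h2, h3]

lemma X_empty (ends : E → Sym2 V) (w : E → ℝ) {a b x : V} (hab : a ≠ b) (hbx : b ≠ x)
    (hax : a ≠ x) (i : Fin 5) : X ends w ∅ a b x i = if i = 0 then 1 else 0 := by
  rw [X_sw, sw]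
  have h0 : (∅ : Finset E).powerset.filter (fun F => Forest ends F) = {∅} := by
    rw [Finset.powerset_empty, Finset.filter_singleton, if_pos forest_empty]
  rw [h0, Finset.sum_singleton, Finset.prod_empty, one_mul]
  have h1 : ¬ Conn ends ∅ a b := fun h => hab (conn_empty.mp h)
  have h2 : ¬ Conn ends ∅ b x := fun h => hbx (conn_empty.mp h)
  have h3 : ¬ Conn ends ∅ a x := fun h => hax (conn_empty.mp h)
  unfold ind
  fin_cases i <;> simp [pat, h1, h2, h3]

/-- Patterns after an edge between two terminals is added. -/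
lemma pat_ins (ends : E → Sym2 V) (F : Finset E) {e : E} {a b : V} (he : ends e = s(a, b))
    (x : V) :
    (1 - ind (Conn ends F a b)) * ind (pat (Conn ends (insert e F)) a b x 0) = 0 ∧
    (1 - ind (Conn ends F a b)) * ind (pat (Conn ends (insert e F)) a b x 1) =
      ind (pat (Conn ends F) a b x 0) ∧
    (1 - ind (Conn ends F a b)) * ind (pat (Conn ends (insert e F)) a b x 2) = 0 ∧
    (1 - ind (Conn ends F a b)) * ind (pat (Conn ends (insert e F)) a b x 3) = 0 ∧
    (1 - ind (Conn ends F a b)) * ind (pat (Conn ends (insert e F)) a b x 4) =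
      ind (pat (Conn ends F) a b x 2) + ind (pat (Conn ends F) a b x 3) := by
  have i1 := conn_insert (F := F) he a b
  have i2 := conn_insert (F := F) he b x
  have i3 := conn_insert (F := F) he a x
  have raa := Conn.refl ends F a
  have rbb := Conn.refl ends F b
  have sab : Conn ends F b a ↔ Conn ends F a b := ⟨Conn.symm, Conn.symm⟩
  have t1 : Conn ends F a b → Conn ends F b x → Conn ends F a x := fun h h' => h.trans h'
  have t2 : Conn ends F a b → Conn ends F a x → Conn ends F b x := fun h h' => h.symm.trans h'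
  have t3 : Conn ends F b x → Conn ends F a x → Conn ends F a b := fun h h' => h'.trans h.symm
  rw [sab] at i2
  unfold ind pat
  by_cases h1 : Conn ends F a b <;> by_cases h2 : Conn ends F b x <;>
    by_cases h3 : Conn ends F a x <;> simp_all

/-- An edge `ab`. -/
lemma X_term (ends : E → Sym2 V) (w : E → ℝ) {S : Finset E} {e : E} (heS : e ∉ S) {a b : V}
    (he : ends e = s(a, b)) (x : V) :
    X ends w (insert e S) a b x 0 = X ends w S a b x 0 ∧
    X ends w (insert e S) a b x 1 = X ends w S a b x 1 + w e * X ends w S a b x 0 ∧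
    X ends w (insert e S) a b x 2 = X ends w S a b x 2 ∧
    X ends w (insert e S) a b x 3 = X ends w S a b x 3 ∧
    X ends w (insert e S) a b x 4 =
      X ends w S a b x 4 + w e * (X ends w S a b x 2 + X ends w S a b x 3) := by
  have key := fun F => pat_ins ends F he x
  have z : sw ends w S (fun _ => (0 : ℝ)) = 0 := by
    rw [sw]
    exact Finset.sum_eq_zero fun F _ => mul_zero _
  refine ⟨?_, ?_, ?_, ?_, ?_⟩
  · rw [X_split ends w heS he, sw_congr fun F => (key F).1, z, mul_zero, add_zero]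
  · rw [X_split ends w heS he, sw_congr fun F => (key F).2.1, X_sw ends w S a b x 0]
  · rw [X_split ends w heS he, sw_congr fun F => (key F).2.2.1, z, mul_zero, add_zero]
  · rw [X_split ends w heS he, sw_congr fun F => (key F).2.2.2.1, z, mul_zero, add_zero]
  · rw [X_split ends w heS he, sw_congr fun F => (key F).2.2.2.2, X_sw ends w S a b x 2,
      X_sw ends w S a b x 3]
    simp only [sw, ← Finset.sum_add_distrib]
    congr 2
    exact Finset.sum_congr rfl fun F _ => by ring

/-- Rotation of the terminals. -/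
lemma X_rot (ends : E → Sym2 V) (w : E → ℝ) (S : Finset E) (a b x : V) :
    X ends w S a b x 0 = X ends w S b x a 0 ∧ X ends w S a b x 1 = X ends w S b x a 3 ∧
    X ends w S a b x 2 = X ends w S b x a 1 ∧ X ends w S a b x 3 = X ends w S b x a 2 ∧
    X ends w S a b x 4 = X ends w S b x a 4 := by
  have key : ∀ F : Finset E,
      (pat (Conn ends F) a b x 0 ↔ pat (Conn ends F) b x a 0) ∧
      (pat (Conn ends F) a b x 1 ↔ pat (Conn ends F) b x a 3) ∧
      (pat (Conn ends F) a b x 2 ↔ pat (Conn ends F) b x a 1) ∧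
      (pat (Conn ends F) a b x 3 ↔ pat (Conn ends F) b x a 2) ∧
      (pat (Conn ends F) a b x 4 ↔ pat (Conn ends F) b x a 4) := by
    intro F
    have sab : Conn ends F b a ↔ Conn ends F a b := ⟨Conn.symm, Conn.symm⟩
    have sax : Conn ends F x a ↔ Conn ends F a x := ⟨Conn.symm, Conn.symm⟩
    have t1 : Conn ends F a b → Conn ends F b x → Conn ends F a x := fun h h' => h.trans h'
    have t2 : Conn ends F a b → Conn ends F a x → Conn ends F b x := fun h h' =>
      h.symm.trans h'
    have t3 : Conn ends F b x → Conn ends F a x → Conn ends F a b := fun h h' =>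
      h'.trans h.symm
    simp only [pat, sab, sax]
    tauto
  simp only [X_sw]
  exact ⟨sw_congr fun F => by rw [(key F).1], sw_congr fun F => by rw [(key F).2.1],
    sw_congr fun F => by rw [(key F).2.2.1], sw_congr fun F => by rw [(key F).2.2.2.1],
    sw_congr fun F => by rw [(key F).2.2.2.2]⟩

end Pool.Agent.CL
end

section

/-!
The pattern sums of a star and a triangle, computed.
-/

set_option autoImplicit false
set_option linter.unusedSectionVars false

namespace Pool.Agent.CL

open Finset Pool.Agent.Lib.MP_d90615_co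
open scoped Classical

variable {V E : Type*}

/-- An edge `bx`. -/
lemma X_term2 (ends : E → Sym2 V) (w : E → ℝ) {S : Finset E} {e : E} (heS : e ∉ S) {b x : V}
    (he : ends e = s(b, x)) (a : V) :
    X ends w (insert e S) a b x 0 = X ends w S a b x 0 ∧
    X ends w (insert e S) a b x 1 = X ends w S a b x 1 ∧
    X ends w (insert e S) a b x 2 = X ends w S a b x 2 + w e * X ends w S a b x 0 ∧
    X ends w (insert e S) a b x 3 = X ends w S a b x 3 ∧
    X ends w (insert e S) a b x 4 =
      X ends w S a b x 4 + w e * (X ends w S a b x 1 + X ends w S a b x 3) := by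
  obtain ⟨t0, t1, t2, t3, t4⟩ := X_term ends w heS he a
  obtain ⟨r0, r1, r2, r3, r4⟩ := X_rot ends w S a b x
  obtain ⟨q0, q1, q2, q3, q4⟩ := X_rot ends w (insert e S) a b x
  refine ⟨?_, ?_, ?_, ?_, ?_⟩
  · rw [q0, r0, t0]
  · rw [q1, r1, t3]
  · rw [q2, r2, t1, r0]
  · rw [q3, r3, t2]
  · rw [q4, r4, t4, r1, r3]
    ring

/-- An edge `ax`. -/
lemma X_term3 (ends : E → Sym2 V) (w : E → ℝ) {S : Finset E} {e : E} (heS : e ∉ S) {a x : V}
    (he : ends e = s(a, x)) (b : V) :
    X ends w (insert e S) a b x 0 = X ends w S a b x 0 ∧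
    X ends w (insert e S) a b x 1 = X ends w S a b x 1 ∧
    X ends w (insert e S) a b x 2 = X ends w S a b x 2 ∧
    X ends w (insert e S) a b x 3 = X ends w S a b x 3 + w e * X ends w S a b x 0 ∧
    X ends w (insert e S) a b x 4 =
      X ends w S a b x 4 + w e * (X ends w S a b x 1 + X ends w S a b x 2) := by
  have he' : ends e = s(x, a) := by rw [he, Sym2.eq_swap]
  obtain ⟨t0, t1, t2, t3, t4⟩ := X_term2 ends w heS he' b
  obtain ⟨r0, r1, r2, r3, r4⟩ := X_rot ends w S a b x
  obtain ⟨q0, q1, q2, q3, q4⟩ := X_rot ends w (insert e S) a b x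
  refine ⟨?_, ?_, ?_, ?_, ?_⟩
  · rw [q0, r0, t0]
  · rw [q1, r1, t3]
  · rw [q2, r2, t1]
  · rw [q3, r3, t2, r0]
  · rw [q4, r4, t4, r1, r2]
    ring

/-- The pattern sums of a star with centre `o`. -/
lemma X_star (ends : E → Sym2 V) (w : E → ℝ) {a b x o : V} (hab : a ≠ b) (hbx : b ≠ x)
    (hax : a ≠ x) (hao : a ≠ o) (hbo : b ≠ o) (hxo : x ≠ o) {ya yb yx : E} (h1 : ya ≠ yb)
    (h2 : yb ≠ yx) (h3 : ya ≠ yx) (ea : ends ya = s(a, o)) (eb : ends yb = s(b, o))
    (ex : ends yx = s(x, o)) :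
    X ends w {ya, yb, yx} a b x 0 = 1 + w ya + w yb + w yx ∧
    X ends w {ya, yb, yx} a b x 1 = w ya * w yb ∧
    X ends w {ya, yb, yx} a b x 2 = w yb * w yx ∧
    X ends w {ya, yb, yx} a b x 3 = w ya * w yx ∧
    X ends w {ya, yb, yx} a b x 4 = w ya * w yb * w yx := by
  have n1 : ya ∉ ({yb, yx} : Finset E) := by simp [h1, h3]
  have n2 : yb ∉ ({yx} : Finset E) := by simp [h2]
  have n3 : yx ∉ (∅ : Finset E) := by simp
  -- the glued graphs
  have ga : gends ends a o yb = s(a, b) := by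
    rw [gends, eb, Sym2.map_mk, Pool.Agent.Lib.MP_d90615_co.glue_of_ne hbo,
      Pool.Agent.Lib.MP_d90615_co.glue_self, Sym2.eq_swap]
  have ga' : gends ends a o yx = s(a, x) := by
    rw [gends, ex, Sym2.map_mk, Pool.Agent.Lib.MP_d90615_co.glue_of_ne hxo,
      Pool.Agent.Lib.MP_d90615_co.glue_self, Sym2.eq_swap]
  have gb : gends ends b o yx = s(b, x) := by
    rw [gends, ex, Sym2.map_mk, Pool.Agent.Lib.MP_d90615_co.glue_of_ne hxo,
      Pool.Agent.Lib.MP_d90615_co.glue_self, Sym2.eq_swap]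
  have i1 := fun i => X_internal ends w n1 ea hao hao hbo hxo i
  have i2 := fun i => X_internal ends w n2 eb hbo hao hbo hxo i
  have i3 := fun i => X_internal ends w n3 ex hxo hao hbo hxo i
  have z := fun i => X_empty ends w hab hbx hax i
  have za := fun i => X_empty (gends ends a o) w hab hbx hax i
  have zb := fun i => X_empty (gends ends b o) w hab hbx hax i
  have zx := fun i => X_empty (gends ends x o) w hab hbx hax i
  obtain ⟨p0, p1, p2, p3, p4⟩ := X_term (gends ends a o) w n2 ga x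
  obtain ⟨q0, q1, q2, q3, q4⟩ := X_term3 (gends ends a o) w n3 ga' b
  obtain ⟨r0, r1, r2, r3, r4⟩ := X_term2 (gends ends b o) w n3 gb a
  have hs : insert yx (∅ : Finset E) = {yx} := rfl
  rw [hs] at q0 q1 q2 q3 q4 r0 r1 r2 r3 r4
  simp only [hs] at i3
  refine ⟨?_, ?_, ?_, ?_, ?_⟩
  · rw [i1, i2, i3, p0, q0, r0, z, za, zb, zx]
    simp only [if_true]
    ring
  · rw [i1, i2, i3, p1, q0, q1, r1, z, za, za, zb, zx]
    simp
  · rw [i1, i2, i3, p2, q2, r2, z, za, zb, zb, zx]
    simp
  · rw [i1, i2, i3, p3, q3, r3, z, za, za, zb, zx]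
    simp
  · rw [i1, i2, i3, p4, q4, q2, q3, r4]
    simp only [z, za, zb, zx]
    simp
    ring

/-- The pattern sums of a star and a triangle. -/
lemma X_star_tri (ends : E → Sym2 V) (w : E → ℝ) {a b x o : V} (hab : a ≠ b) (hbx : b ≠ x)
    (hax : a ≠ x) (hao : a ≠ o) (hbo : b ≠ o) (hxo : x ≠ o) {ya yb yx tp tq tr : E}
    (hN : [tr, tq, tp, ya, yb, yx].Nodup) (ea : ends ya = s(a, o)) (eb : ends yb = s(b, o))
    (ex : ends yx = s(x, o)) (ep : ends tp = s(a, b)) (eq : ends tq = s(b, x))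
    (er : ends tr = s(a, x)) :
    X ends w {tr, tq, tp, ya, yb, yx} a b x 0 = 1 + w ya + w yb + w yx ∧
    X ends w {tr, tq, tp, ya, yb, yx} a b x 1 =
      w ya * w yb + w tp * (1 + w ya + w yb + w yx) ∧
    X ends w {tr, tq, tp, ya, yb, yx} a b x 2 =
      w yb * w yx + w tq * (1 + w ya + w yb + w yx) ∧
    X ends w {tr, tq, tp, ya, yb, yx} a b x 3 =
      w ya * w yx + w tr * (1 + w ya + w yb + w yx) ∧
    X ends w {tr, tq, tp, ya, yb, yx} a b x 4 =
      w ya * w yb * w yx + w tp * (w yb * w yx + w ya * w yx)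
        + w tq * (w ya * w yb + w ya * w yx) + w tr * (w ya * w yb + w yb * w yx)
        + (w tp * w tq + w tq * w tr + w tr * w tp) * (1 + w ya + w yb + w yx) := by
  simp only [List.nodup_cons, List.mem_cons, List.not_mem_nil, or_false, not_or] at hN
  obtain ⟨⟨m1, m2, m3, m4, m5⟩, ⟨m6, m7, m8, m9⟩, ⟨m10, m11, m12⟩, ⟨m13, m14⟩, m15, -⟩ := hN
  obtain ⟨s0, s1, s2, s3, s4⟩ := X_star ends w hab hbx hax hao hbo hxo m13 m15 m14 ea eb ex
  have n1 : tp ∉ ({ya, yb, yx} : Finset E) := by simp [m10, m11, m12]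
  have n2 : tq ∉ ({tp, ya, yb, yx} : Finset E) := by simp [m6, m7, m8, m9]
  have n3 : tr ∉ ({tq, tp, ya, yb, yx} : Finset E) := by simp [m1, m2, m3, m4, m5]
  obtain ⟨p0, p1, p2, p3, p4⟩ := X_term ends w n1 ep x
  obtain ⟨q0, q1, q2, q3, q4⟩ := X_term2 ends w n2 eq a
  obtain ⟨r0, r1, r2, r3, r4⟩ := X_term3 ends w n3 er b
  refine ⟨?_, ?_, ?_, ?_, ?_⟩
  · rw [r0, q0, p0, s0]
  · rw [r1, q1, p1, s0, s1]
  · rw [r2, q2, p2, p0, s2, s0]
  · rw [r3, q3, q0, p3, p0, s3, s0]
  · rw [r4, q4, q1, q2, p4, p1, p2, p3, p0, s0, s1, s2, s3, s4]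
    ring

end Pool.Agent.CL
end

section

/-!
Replacing a piece with three terminals by a star and a triangle.
-/

set_option autoImplicit false
set_option linter.unusedSectionVars false

namespace Pool.Agent.CL

open Finset Pool.Agent.Lib.MP_d90615_co
open scoped Classical

variable {V E : Type*}

/-- Gluing for a fixed set `B` outside. -/
theorem glue1 {ends : E → Sym2 V} (w : E → ℝ) {D1 B : Finset E} (hd : Disjoint D1 B)
    (out : V → Prop) {a b x : V} (hab : a ≠ b) (hbx : b ≠ x) (hax : a ≠ x)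
    (h1 : ∀ e ∈ D1, ∀ v ∈ ends e, out v → v = a ∨ v = b ∨ v = x)
    (h2 : ∀ e ∈ B, ∀ v ∈ ends e, out v) :
    (∑ A ∈ D1.powerset, if Forest ends (A ∪ B) then ∏ e ∈ A, w e else 0) =
      ∑ i : Fin 5, X ends w D1 a b x i * (if good ends B (tau a b x i) then 1 else 0) := by
  have hX : ∀ i, X ends w D1 a b x i =
      ∑ A ∈ D1.powerset, if Forest ends A ∧ pat (Conn ends A) a b x i then ∏ e ∈ A, w e else 0 :=
    fun i => by rw [X, sum_filter]
  simp_rw [hX, Finset.sum_mul]
  rw [Finset.sum_comm]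
  refine Finset.sum_congr rfl fun A hA => ?_
  rw [mem_powerset] at hA
  by_cases hF : Forest ends A
  · obtain ⟨i, hi⟩ := pat_exists (Conn ends A) a b x
    rw [Finset.sum_eq_single i]
    · have hp : Forest ends A ∧ pat (Conn ends A) a b x i := ⟨hF, hi⟩
      obtain ⟨q1, q2⟩ := pat_tau out hF (fun e he => h1 e (hA he)) hab hbx hax hi
      have hAB : Disjoint A B := Finset.disjoint_of_subset_left hA hd
      obtain ⟨-, s2⟩ := eqv out q1 q2 B h2 hAB (Finset.disjoint_empty_left B)
      rw [Finset.empty_union] at s2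
      have s3 : Forest ends (A ∪ B) ↔ good ends B (tau a b x i) := s2
      by_cases hg : Forest ends (A ∪ B)
      · rw [if_pos hg, if_pos hp, if_pos (s3.mp hg), mul_one]
      · rw [if_neg hg, if_neg fun h => hg (s3.mpr h), mul_zero]
    · intro j _ hj
      rw [if_neg fun h => hj (pat_unique (Conn_equiv ends A) h.2 hi), zero_mul]
    · intro h
      exact absurd (mem_univ _) h
  · rw [if_neg fun h => hF (h.subset subset_union_left)]
    symm
    refine Finset.sum_eq_zero fun i _ => ?_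
    rw [if_neg fun h => hF h.1, zero_mul]

/-- Swapping a piece. -/
theorem swap {ends : E → Sym2 V} (w : E → ℝ) {D1 D2 B : Finset E} (hd1 : Disjoint D1 B)
    (hd2 : Disjoint D2 B) (out1 out2 : V → Prop) {a b x : V} (hab : a ≠ b) (hbx : b ≠ x)
    (hax : a ≠ x)
    (h1 : ∀ e ∈ D1, ∀ v ∈ ends e, out1 v → v = a ∨ v = b ∨ v = x)
    (h1' : ∀ e ∈ B, ∀ v ∈ ends e, out1 v)
    (h2 : ∀ e ∈ D2, ∀ v ∈ ends e, out2 v → v = a ∨ v = b ∨ v = x)
    (h2' : ∀ e ∈ B, ∀ v ∈ ends e, out2 v) {c : ℝ}
    (hX : ∀ i, X ends w D1 a b x i = c * X ends w D2 a b x i) :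
    (∑ A ∈ D1.powerset, if Forest ends (A ∪ B) then ∏ e ∈ A, w e else 0) =
      c * ∑ A ∈ D2.powerset, if Forest ends (A ∪ B) then ∏ e ∈ A, w e else 0 := by
  rw [glue1 w hd1 out1 hab hbx hax h1 h1', glue1 w hd2 out2 hab hbx hax h2 h2', Finset.mul_sum]
  refine Finset.sum_congr rfl fun i _ => ?_
  rw [hX i]
  ring

/-- `X` only depends on the weights of the piece. -/
lemma X_congr {ends : E → Sym2 V} {w w' : E → ℝ} {D : Finset E} (h : ∀ e ∈ D, w e = w' e)
    (a b x : V) (i : Fin 5) : X ends w D a b x i = X ends w' D a b x i := by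
  unfold X
  refine Finset.sum_congr rfl fun A hA => Finset.prod_congr rfl fun e he => h e ?_
  rw [mem_filter, mem_powerset] at hA
  exact hA.1 he

/-- A piece with three terminals has the pattern sums of a star and a triangle. -/
theorem exists_star_tri [Fintype V] (ends : E → Sym2 V) (w : E → ℝ) (hw : ∀ e, 0 ≤ w e)
    (D : Finset E) {a b x : V} (hab : a ≠ b) (hbx : b ≠ x) (hax : a ≠ x) :
    ∃ (c : ℝ) (u : Fin 6 → ℝ), 0 < c ∧ (∀ j, 0 ≤ u j) ∧
      ∀ {V' E' : Type*} (ends' : E' → Sym2 V') (w' : E' → ℝ) {a' b' x' o : V'}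
        (_ : a' ≠ b') (_ : b' ≠ x') (_ : a' ≠ x') (_ : a' ≠ o) (_ : b' ≠ o) (_ : x' ≠ o)
        (y : Fin 6 → E') (_ : Function.Injective y) (_ : ∀ j, w' (y j) = u j)
        (_ : ends' (y 0) = s(a', o)) (_ : ends' (y 1) = s(b', o)) (_ : ends' (y 2) = s(x', o))
        (_ : ends' (y 3) = s(a', b')) (_ : ends' (y 4) = s(b', x')) (_ : ends' (y 5) = s(a', x'))
        (i : Fin 5),
        X ends w D a b x i = c * X ends' w' (univ.image y) a' b' x' i := by
  obtain ⟨c, ta, tb, tx, p, q, r, hc, h1, h2, h3, h4, h5, h6, e0, e1, e2, e3, e4⟩ :=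
    star_triangle (X0_pos ends w hw D hab hbx hax) (X_nonneg ends w hw D a b x 1)
      (X_nonneg ends w hw D a b x 2) (X_nonneg ends w hw D a b x 3)
      (eps_nonneg ends w hw D hab hbx hax) (eps_three ends w hw D hab hbx hax)
  refine ⟨c, ![ta, tb, tx, p, q, r], hc, ?_, ?_⟩
  · intro j
    fin_cases j <;> simp [h1, h2, h3, h4, h5, h6]
  · intro V' E' ends' w' a' b' x' o n1 n2 n3 n4 n5 n6 y hy hw' g0 g1 g2 g3 g4 g5 i
    have hN : [y 5, y 4, y 3, y 0, y 1, y 2].Nodup := by
      have : ([5, 4, 3, 0, 1, 2] : List (Fin 6)).Nodup := by decide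
      exact this.map hy
    have hs : (univ.image y : Finset E') = {y 5, y 4, y 3, y 0, y 1, y 2} := by
      have : (univ : Finset (Fin 6)) = {5, 4, 3, 0, 1, 2} := by decide
      rw [this]
      simp only [Finset.image_insert, Finset.image_singleton]
    obtain ⟨s0, s1, s2, s3, s4⟩ :=
      X_star_tri ends' w' n1 n2 n3 n4 n5 n6 hN g0 g1 g2 g3 g4 g5
    rw [← hs] at s0 s1 s2 s3 s4
    have w0 : w' (y 0) = ta := hw' 0
    have w1 : w' (y 1) = tb := hw' 1
    have w2 : w' (y 2) = tx := hw' 2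
    have w3 : w' (y 3) = p := hw' 3
    have w4 : w' (y 4) = q := hw' 4
    have w5 : w' (y 5) = r := hw' 5
    rw [w0, w1, w2] at s0
    rw [w0, w1, w2, w3] at s1
    rw [w0, w1, w2, w4] at s2
    rw [w0, w1, w2, w5] at s3
    rw [w0, w1, w2, w3, w4, w5] at s4
    fin_cases i
    · show X ends w D a b x 0 = c * X ends' w' _ a' b' x' 0
      rw [s0, e0]
    · show X ends w D a b x 1 = c * X ends' w' _ a' b' x' 1
      rw [s1, e1]
    · show X ends w D a b x 2 = c * X ends' w' _ a' b' x' 2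
      rw [s2, e2]
    · show X ends w D a b x 3 = c * X ends' w' _ a' b' x' 3
      rw [s3, e3]
    · show X ends w D a b x 4 = c * X ends' w' _ a' b' x' 4
      rw [s4, e4]

end Pool.Agent.CL
end
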