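import Mathlib

section

/-!
Product weights: the algebra of the partition function.
-/

set_option autoImplicit false
set_option linter.unusedSectionVars false

namespace Pool.Agent.PW

open Finset

/-- The Hermite numbers. -/
noncomputable def H : ℕ → ℝ → ℝ
  | 0, _ => 1
  | 1, X => X
  | n + 2, X => X * H (n + 1) X - (n + 1) * H n X

theorem H_zero (X : ℝ) : H 0 X = 1 := by rw [H]

theorem H_one (X : ℝ) : H 1 X = X := by rw [H]

theorem H_add_two (n : ℕ) (X : ℝ) : H (n + 2) X = X * H (n + 1) X - (n + 1) * H n X := by rw [H]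

variable {V : Type*} [DecidableEq V]

/-- The sums `M_k`. -/
noncomputable def M (x : V → ℝ) (X : ℝ) (k : ℕ) (A : Finset V) : ℝ :=
  ∑ S ∈ A.powerset, (∏ i ∈ S, x i) * H (S.card + k) X

theorem M_empty (x : V → ℝ) (X : ℝ) (k : ℕ) : M x X k ∅ = H k X := by
  simp [M]

theorem M_insert (x : V → ℝ) (X : ℝ) (k : ℕ) {A : Finset V} {a : V} (ha : a ∉ A) :
    M x X k (insert a A) = M x X k A + x a * M x X (k + 1) A := by
  unfold M
  rw [Finset.sum_powerset_insert ha, Finset.mul_sum]
  congr 1
  refine Finset.sum_congr rfl fun S hS => ?_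
  have haS : a ∉ S := fun h => ha (Finset.mem_powerset.1 hS h)
  rw [Finset.prod_insert haS, Finset.card_insert_of_notMem haS]
  rw [show S.card + 1 + k = S.card + (k + 1) by ring]
  ring

theorem M_erase (x : V → ℝ) (X : ℝ) (k : ℕ) {A : Finset V} {a : V} (ha : a ∈ A) :
    M x X k A = M x X k (A.erase a) + x a * M x X (k + 1) (A.erase a) := by
  conv_lhs => rw [← Finset.insert_erase ha]
  exact M_insert x X k (Finset.notMem_erase a A)

theorem M_congr {x y : V → ℝ} (X : ℝ) (k : ℕ) {A : Finset V} (h : ∀ i ∈ A, x i = y i) :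
    M x X k A = M y X k A := by
  unfold M
  refine Finset.sum_congr rfl fun S hS => ?_
  rw [Finset.prod_congr rfl fun i hi => h i (Finset.mem_powerset.1 hS hi)]

/-- Sum over all contractions into the hub. -/
noncomputable def D (x : V → ℝ) (f : Finset V → ℝ) (A : Finset V) : ℝ :=
  ∑ i ∈ A, x i * f (A.erase i)

theorem D_insert (x : V → ℝ) (f : Finset V → ℝ) {A : Finset V} {a : V} (ha : a ∉ A) :
    D x f (insert a A) = x a * f A + ∑ i ∈ A, x i * f (insert a (A.erase i)) := by
  unfold D
  rw [Finset.sum_insert ha, Finset.erase_insert ha]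
  congr 1
  refine Finset.sum_congr rfl fun i hi => ?_
  rw [Finset.erase_insert_of_ne]
  rintro rfl
  exact ha hi

theorem DM_insert (x : V → ℝ) (X : ℝ) (k : ℕ) {A : Finset V} {a : V} (ha : a ∉ A) :
    D x (M x X k) (insert a A) =
      x a * M x X k A + D x (M x X k) A + x a * D x (M x X (k + 1)) A := by
  rw [D_insert x _ ha]
  have : ∀ i ∈ A, x i * M x X k (insert a (A.erase i)) =
      x i * M x X k (A.erase i) + x a * (x i * M x X (k + 1) (A.erase i)) := by
    intro i _
    rw [M_insert x X k (fun h => ha (Finset.mem_of_mem_erase h))]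
    ring
  rw [Finset.sum_congr rfl this, Finset.sum_add_distrib, ← Finset.mul_sum]
  unfold D
  ring

theorem M_rec_aux (x : V → ℝ) (X : ℝ) (A : Finset V) :
    M x X 1 A = X * M x X 0 A - D x (M x X 0) A ∧
    ∀ k, M x X (k + 2) A = X * M x X (k + 1) A - (k + 1) * M x X k A - D x (M x X (k + 1)) A := by
  induction A using Finset.induction_on with
  | empty =>
    simp only [M_empty, D, Finset.sum_empty, sub_zero]
    exact ⟨by rw [H_zero, H_one, mul_one], fun k => H_add_two k X⟩
  | insert a A ha ih =>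
    obtain ⟨h1, h2⟩ := ih
    refine ⟨?_, fun k => ?_⟩
    · rw [M_insert x X 1 ha, M_insert x X 0 ha, DM_insert x X 0 ha, h1]
      have := h2 0
      simp only [Nat.cast_zero, zero_add] at this
      rw [show (1 + 1 : ℕ) = 2 from rfl, this]
      simp only [zero_add, h1]
      ring
    · rw [M_insert x X (k + 2) ha, M_insert x X (k + 1) ha, M_insert x X k ha,
        DM_insert x X (k + 1) ha, h2 k]
      have := h2 (k + 1)
      rw [show k + 2 + 1 = k + 1 + 2 by ring, this, h2 k]
      push_cast
      ring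

theorem M_one (x : V → ℝ) (X : ℝ) (A : Finset V) :
    M x X 1 A = X * M x X 0 A - ∑ i ∈ A, x i * M x X 0 (A.erase i) :=
  (M_rec_aux x X A).1

theorem M_two (x : V → ℝ) (X : ℝ) (A : Finset V) :
    M x X 2 A = X * M x X 1 A - M x X 0 A - ∑ i ∈ A, x i * M x X 1 (A.erase i) := by
  have := (M_rec_aux x X A).2 0
  simp only [Nat.cast_zero, zero_add, one_mul] at this
  exact this

/-- The sums `P_k`. -/
noncomputable def PP (x : V → ℝ) (X : ℝ) (k : ℕ) (A : Finset V) : ℝ :=
  M x X k A - ∑ i ∈ A, x i ^ 2 * M x X k (A.erase i)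

theorem PP_insert (x : V → ℝ) (X : ℝ) (k : ℕ) {A : Finset V} {a : V} (ha : a ∉ A) :
    PP x X k (insert a A) = PP x X k A + x a * PP x X (k + 1) A - x a ^ 2 * M x X k A := by
  unfold PP
  rw [Finset.sum_insert ha, Finset.erase_insert ha, M_insert x X k ha]
  have : ∀ i ∈ A, x i ^ 2 * M x X k ((insert a A).erase i) =
      x i ^ 2 * M x X k (A.erase i) + x a * (x i ^ 2 * M x X (k + 1) (A.erase i)) := by
    intro i hi
    have hne : a ≠ i := by rintro rfl; exact ha hi
    rw [Finset.erase_insert_of_ne hne, M_insert x X k (fun h => ha (Finset.mem_of_mem_erase h))]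
    ring
  rw [Finset.sum_congr rfl this, Finset.sum_add_distrib, ← Finset.mul_sum]
  ring

theorem PP_succ_aux (x : V → ℝ) (X : ℝ) (A : Finset V) :
    PP x X 1 A = (X - ∑ i ∈ A, x i) * M x X 0 A ∧
    ∀ k, PP x X (k + 2) A = (X - ∑ i ∈ A, x i) * M x X (k + 1) A - (k + 1) * M x X k A := by
  induction A using Finset.induction_on with
  | empty =>
    simp only [PP, M_empty, Finset.sum_empty, sub_zero]
    exact ⟨by rw [H_zero, H_one, mul_one], fun k => H_add_two k X⟩
  | insert a A ha ih =>
    obtain ⟨h1, h2⟩ := ih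
    refine ⟨?_, fun k => ?_⟩
    · rw [PP_insert x X 1 ha, h1, Finset.sum_insert ha, M_insert x X 0 ha]
      have := h2 0
      simp only [Nat.cast_zero, zero_add] at this
      rw [show (1 + 1 : ℕ) = 2 from rfl, this]
      simp only [zero_add]
      ring
    · rw [PP_insert x X (k + 2) ha, h2 k, Finset.sum_insert ha, M_insert x X (k + 1) ha,
        M_insert x X k ha]
      have := h2 (k + 1)
      rw [show k + 2 + 1 = k + 1 + 2 by ring, this]
      push_cast
      ring

/-- The partition function with a hub of mass `X - ∑ i ∈ A, x i`. -/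
noncomputable def P (x : V → ℝ) (X : ℝ) (A : Finset V) : ℝ := PP x X 0 A

theorem P_def (x : V → ℝ) (X : ℝ) (A : Finset V) :
    P x X A = M x X 0 A - ∑ i ∈ A, x i ^ 2 * M x X 0 (A.erase i) := rfl

theorem P_empty (x : V → ℝ) (X : ℝ) : P x X ∅ = 1 := by
  simp [P_def, M_empty, H_zero]

theorem P_insert (x : V → ℝ) (X : ℝ) {A : Finset V} {a : V} (ha : a ∉ A) :
    P x X (insert a A) = P x X A + (X - ∑ i ∈ A, x i - x a) * x a * M x X 0 A := by
  rw [P, PP_insert x X 0 ha, zero_add, (PP_succ_aux x X A).1, P]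
  ring

theorem P_erase (x : V → ℝ) (X : ℝ) {A : Finset V} {a : V} (ha : a ∈ A) :
    P x X A = P x X (A.erase a) + (X - ∑ i ∈ A, x i) * x a * M x X 0 (A.erase a) := by
  conv_lhs => rw [← Finset.insert_erase ha]
  rw [P_insert x X (Finset.notMem_erase a A)]
  have := Finset.add_sum_erase A x ha
  rw [← this]
  ring

theorem P_congr {x y : V → ℝ} (X : ℝ) {A : Finset V} (h : ∀ i ∈ A, x i = y i) :
    P x X A = P y X A := by
  rw [P_def, P_def, M_congr X 0 h]
  congr 1
  refine Finset.sum_congr rfl fun i hi => ?_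
  rw [h i hi, M_congr X 0 (fun j hj => h j (Finset.mem_of_mem_erase hj))]

theorem sum_P_erase (x : V → ℝ) (X : ℝ) (A : Finset V) :
    ∑ i ∈ A, x i * P x X (A.erase i) = X * P x X A - (X - ∑ i ∈ A, x i) * M x X 0 A := by
  have h1 : ∀ i ∈ A, x i * P x X (A.erase i) =
      x i * P x X A - (X - ∑ i ∈ A, x i) * (x i ^ 2 * M x X 0 (A.erase i)) := by
    intro i hi
    rw [P_erase x X hi]
    ring
  rw [Finset.sum_congr rfl h1, Finset.sum_sub_distrib, ← Finset.sum_mul, ← Finset.mul_sum]
  have h2 : ∑ i ∈ A, x i ^ 2 * M x X 0 (A.erase i) = M x X 0 A - P x X A := by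
    rw [P_def]; ring
  rw [h2]
  ring

theorem hasDerivAt_H_aux (X : ℝ) (n : ℕ) :
    HasDerivAt (H n) (X * H n X - H (n + 1) X) X ∧
    HasDerivAt (H (n + 1)) (X * H (n + 1) X - H (n + 2) X) X := by
  induction n with
  | zero =>
    constructor
    · have : (H 0) = fun _ => (1 : ℝ) := by funext Y; exact H_zero Y
      rw [this]
      refine (hasDerivAt_const X (1 : ℝ)).congr_deriv ?_
      rw [H_one]; ring
    · have : (H (0 + 1)) = fun Y => Y := by funext Y; exact H_one Y
      rw [this]
      refine (hasDerivAt_id' X).congr_deriv ?_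
      have h2 := H_add_two 0 X
      simp only [Nat.cast_zero, zero_add] at h2 ⊢
      rw [h2, H_one, H_zero]; ring
  | succ n ih =>
    refine ⟨ih.2, ?_⟩
    have : (H (n + 1 + 1)) = fun Y => Y * H (n + 1) Y - (n + 1) * H n Y := by
      funext Y; exact H_add_two n Y
    have h1 := ((hasDerivAt_id' X).fun_mul ih.2).fun_sub (ih.1.const_mul ((n : ℝ) + 1))
    have h3 := H_add_two (n + 1) X
    have h4 := H_add_two n X
    rw [this]
    refine h1.congr_deriv ?_
    simp only [show n + 1 + 1 = n + 2 by ring] at h3 ⊢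
    rw [h3, h4]
    push_cast
    ring

theorem hasDerivAt_H (n : ℕ) (X : ℝ) : HasDerivAt (H n) (X * H n X - H (n + 1) X) X :=
  (hasDerivAt_H_aux X n).1

theorem hasDerivAt_M (x : V → ℝ) (X : ℝ) (k : ℕ) (A : Finset V) :
    HasDerivAt (fun Y => M x Y k A) (X * M x X k A - M x X (k + 1) A) X := by
  unfold M
  have h1 := HasDerivAt.fun_sum (u := A.powerset)
    (A := fun (S : Finset V) (Y : ℝ) => (∏ i ∈ S, x i) * H (S.card + k) Y)
    (A' := fun S => (∏ i ∈ S, x i) * (X * H (S.card + k) X - H (S.card + k + 1) X)) (x := X)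
    (fun S _ => (hasDerivAt_H (S.card + k) X).const_mul _)
  refine h1.congr_deriv ?_
  rw [Finset.mul_sum, ← Finset.sum_sub_distrib]
  refine Finset.sum_congr rfl fun S _ => ?_
  rw [show S.card + (k + 1) = S.card + k + 1 by ring]
  ring

theorem hasDerivAt_P (x : V → ℝ) (X : ℝ) (A : Finset V) :
    HasDerivAt (fun Y => P x Y A) (∑ i ∈ A, x i * P x X (A.erase i)) X := by
  have h0 := hasDerivAt_M x X 0 A
  have h1 := HasDerivAt.fun_sum (u := A)
    (A := fun (i : V) (Y : ℝ) => x i ^ 2 * M x Y 0 (A.erase i))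
    (A' := fun i => x i ^ 2 * (X * M x X 0 (A.erase i) - M x X 1 (A.erase i))) (x := X)
    (fun i _ => (hasDerivAt_M x X 0 (A.erase i)).const_mul _)
  have h2 := h0.fun_sub h1
  have h3 : (fun Y => P x Y A) =
      fun Y => M x Y 0 A - ∑ i ∈ A, x i ^ 2 * M x Y 0 (A.erase i) := by
    funext Y; rfl
  rw [h3]
  refine h2.congr_deriv ?_
  rw [sum_P_erase]
  have h4 := (PP_succ_aux x X A).1
  have h5 : ∑ i ∈ A, x i ^ 2 * (X * M x X 0 (A.erase i) - M x X 1 (A.erase i)) =
      X * (∑ i ∈ A, x i ^ 2 * M x X 0 (A.erase i)) - ∑ i ∈ A, x i ^ 2 * M x X 1 (A.erase i) := by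
    rw [Finset.mul_sum, ← Finset.sum_sub_distrib]
    exact Finset.sum_congr rfl fun i _ => by ring
  rw [h5, P_def, ← h4, PP, zero_add]
  ring

end Pool.Agent.PW
end

section

/-!
Forests as sets of edges: contraction of an edge.
-/

set_option autoImplicit false
set_option linter.unusedSectionVars false

namespace Pool.Agent.PW

open Finset

section Fiber

variable {E E' : Type*} [Fintype E] [DecidableEq E] [Fintype E'] [DecidableEq E']
variable {K : Type*} [CommRing K]

open Classical in
theorem fiber_prod (φ : E → E') (w : E → K) (F' : Finset E') :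
    ∑ F ∈ (univ : Finset (Finset E)).filter (fun F : Finset E => Set.InjOn φ (F : Set E) ∧ F.image φ = F'),
      ∏ e ∈ F, w e = ∏ e' ∈ F', ∑ e ∈ univ.filter (fun e => φ e = e'), w e := by
  induction F' using Finset.induction_on with
  | empty =>
    have : (univ : Finset (Finset E)).filter
        (fun F : Finset E => Set.InjOn φ (F : Set E) ∧ F.image φ = ∅) = {∅} := by
      ext F
      simp only [mem_filter, mem_univ, true_and, mem_singleton, Finset.image_eq_empty]
      constructor
      · exact fun h => h.2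
      · rintro rfl
        simp
    rw [this]
    simp
  | insert e' F' he' ih =>
    rw [Finset.prod_insert he', ← ih, Finset.sum_mul_sum, ← Finset.sum_product']
    symm
    refine Finset.sum_bij (fun p _ => insert p.1 p.2) ?_ ?_ ?_ ?_
    · rintro ⟨e, F⟩ h
      simp only [mem_product, mem_filter, mem_univ, true_and] at h ⊢
      obtain ⟨h1, h2, h3⟩ := h
      have h4 : e ∉ F := fun h => he' (by rw [← h3, ← h1]; exact mem_image_of_mem φ h)
      refine ⟨?_, by rw [Finset.image_insert, h1, h3]⟩
      rw [Finset.coe_insert, Set.injOn_insert (by simpa using h4)]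
      refine ⟨h2, ?_⟩
      rintro ⟨f, hf, hfe⟩
      exact he' (by rw [← h3, ← h1, ← hfe]; exact mem_image_of_mem φ hf)
    · rintro ⟨e, F⟩ h ⟨e2, F2⟩ h2 heq
      simp only [mem_product, mem_filter, mem_univ, true_and] at h h2 heq
      have key : ∀ (e : E) (F : Finset E), φ e = e' → F.image φ = F' →
          (insert e F).filter (fun f => φ f = e') = {e} ∧
          (insert e F).filter (fun f => φ f ≠ e') = F := by
        intro e F h1 h3
        have h5 : ∀ f ∈ F, φ f ≠ e' := by
          intro f hf hfe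
          exact he' (by rw [← h3, ← hfe]; exact mem_image_of_mem φ hf)
        constructor
        · ext f
          simp only [mem_filter, mem_insert, mem_singleton]
          constructor
          · rintro ⟨rfl | hf, hfe⟩
            · rfl
            · exact absurd hfe (h5 f hf)
          · rintro rfl
            exact ⟨Or.inl rfl, h1⟩
        · ext f
          simp only [mem_filter, mem_insert]
          constructor
          · rintro ⟨rfl | hf, hfe⟩
            · exact absurd h1 hfe
            · exact hf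
          · intro hf
            exact ⟨Or.inr hf, h5 f hf⟩
      have k1 := key e F h.1 h.2.2
      have k2 := key e2 F2 h2.1 h2.2.2
      rw [heq] at k1
      have e1 : ({e} : Finset E) = {e2} := k1.1.symm.trans k2.1
      have e3 : F = F2 := k1.2.symm.trans k2.2
      rw [Finset.singleton_inj] at e1
      rw [e1, e3]
    · intro F h
      simp only [mem_filter, mem_univ, true_and] at h
      obtain ⟨h1, h2⟩ := h
      have h3 : e' ∈ F.image φ := by rw [h2]; exact mem_insert_self _ _
      obtain ⟨e, heF, hee⟩ := Finset.mem_image.mp h3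
      refine ⟨(e, F.erase e), ?_, Finset.insert_erase heF⟩
      simp only [mem_product, mem_filter, mem_univ, true_and]
      refine ⟨hee, h1.mono (by simp), ?_⟩
      ext f'
      simp only [mem_image, mem_erase]
      constructor
      · rintro ⟨f, ⟨hfe, hfF⟩, rfl⟩
        have h5 : φ f ∈ F.image φ := mem_image_of_mem φ hfF
        rw [h2, mem_insert] at h5
        rcases h5 with h5 | h5
        · exact absurd (h1 hfF heF (h5.trans hee.symm)) hfe
        · exact h5
      · intro hf'
        have h5 : f' ∈ F.image φ := by rw [h2]; exact mem_insert_of_mem hf'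
        obtain ⟨f, hfF, rfl⟩ := Finset.mem_image.mp h5
        refine ⟨f, ⟨?_, hfF⟩, rfl⟩
        rintro rfl
        exact he' (by rw [← hee]; exact hf')
    · rintro ⟨e, F⟩ h
      simp only [mem_product, mem_filter, mem_univ, true_and] at h
      obtain ⟨h1, h2, h3⟩ := h
      have h4 : e ∉ F := fun h => he' (by rw [← h3, ← h1]; exact mem_image_of_mem φ h)
      rw [Finset.prod_insert h4]

open Classical in
theorem fiber_sum (φ : E → E') (w : E → K) (p : Finset E' → Prop) :
    ∑ F ∈ (univ : Finset (Finset E)).filter (fun F : Finset E => Set.InjOn φ (F : Set E) ∧ p (F.image φ)),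
      ∏ e ∈ F, w e =
    ∑ F' ∈ (univ : Finset (Finset E')).filter p,
      ∏ e' ∈ F', ∑ e ∈ univ.filter (fun e => φ e = e'), w e := by
  rw [← Finset.sum_fiberwise_of_maps_to
    (s := (univ : Finset (Finset E)).filter (fun F : Finset E => Set.InjOn φ (F : Set E) ∧ p (F.image φ)))
    (t := (univ : Finset (Finset E')).filter p) (g := fun F : Finset E => F.image φ)]
  · refine Finset.sum_congr rfl fun F' hF' => ?_
    rw [← fiber_prod φ w F']
    refine Finset.sum_congr ?_ fun _ _ => rfl
    ext F
    simp only [mem_filter, mem_univ, true_and] at hF' ⊢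
    constructor
    · rintro ⟨⟨h1, _⟩, h3⟩
      exact ⟨h1, h3⟩
    · rintro ⟨h1, rfl⟩
      exact ⟨⟨h1, hF'⟩, rfl⟩
  · intro F hF
    simp only [mem_filter, mem_univ, true_and] at hF ⊢
    exact hF.2

end Fiber

variable {V : Type*} [DecidableEq V]

/-- A set of edges without loops and cycles. -/
def Acyc (F : Finset (Sym2 V)) : Prop :=
  (∀ e ∈ F, ¬ e.IsDiag) ∧ (SimpleGraph.fromEdgeSet (F : Set (Sym2 V))).IsAcyclic

/-- Are two vertices connected by the edges in `F`? -/
def Conn (F : Finset (Sym2 V)) (u v : V) : Prop :=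
  (SimpleGraph.fromEdgeSet (F : Set (Sym2 V))).Reachable u v

theorem conn_of_mem {F : Finset (Sym2 V)} {u v : V} (h : s(u, v) ∈ F) : Conn F u v := by
  by_cases huv : u = v
  · subst huv; exact SimpleGraph.Reachable.refl u
  · exact SimpleGraph.Adj.reachable (by rw [SimpleGraph.fromEdgeSet_adj]; exact ⟨h, huv⟩)

theorem acyc_empty : Acyc (∅ : Finset (Sym2 V)) := by
  refine ⟨by simp, ?_⟩
  rw [Finset.coe_empty, SimpleGraph.fromEdgeSet_empty]
  exact SimpleGraph.isAcyclic_bot

theorem acyc_insert {F : Finset (Sym2 V)} {u v : V} (h : s(u, v) ∉ F) :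
    Acyc (insert s(u, v) F) ↔ Acyc F ∧ ¬ Conn F u v := by
  have h1 : SimpleGraph.fromEdgeSet ((insert s(u, v) F : Finset (Sym2 V)) : Set (Sym2 V)) =
      SimpleGraph.fromEdgeSet (F : Set (Sym2 V)) ⊔ SimpleGraph.edge u v := by
    ext x y
    simp only [SimpleGraph.fromEdgeSet_adj, SimpleGraph.sup_adj, SimpleGraph.edge_adj,
      Finset.coe_insert, Set.mem_insert_iff, Finset.mem_coe, Sym2.eq_iff]
    tauto
  unfold Acyc Conn
  rw [h1, SimpleGraph.isAcyclic_sup_fromEdgeSet_iff]
  simp only [Finset.mem_insert, forall_eq_or_imp, Sym2.mk_isDiag_iff, SimpleGraph.fromEdgeSet_adj,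
    Finset.mem_coe, h, false_and, or_false]
  constructor
  · rintro ⟨⟨h2, h3⟩, h4, h5⟩
    exact ⟨⟨h3, h4⟩, fun h6 => h2 (h5 h6)⟩
  · rintro ⟨⟨h3, h4⟩, h5⟩
    refine ⟨⟨?_, h3⟩, h4, fun h6 => absurd h6 h5⟩
    rintro rfl
    exact h5 (SimpleGraph.Reachable.refl u)

/-- Contraction of `b` into `a`. -/
def ct (a b : V) (v : V) : V := if v = b then a else v

theorem ct_eq {a b : V} {u v : V} (h : ct a b u = ct a b v) :
    u = v ∨ s(u, v) = s(a, b) := by
  unfold ct at h
  rw [Sym2.eq_iff]
  split_ifs at h with h1 h2 h2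
  · exact Or.inl (h1.trans h2.symm)
  · exact Or.inr (Or.inr ⟨h1, h.symm⟩)
  · exact Or.inr (Or.inl ⟨h, h2⟩)
  · exact Or.inl h

theorem conn_contract {a b : V} (F : Finset (Sym2 V)) (u v : V) :
    Conn (insert s(a, b) F) u v ↔ Conn (F.image (Sym2.map (ct a b))) (ct a b u) (ct a b v) := by
  have hab : ct a b a = ct a b b := by unfold ct; split_ifs <;> simp_all
  constructor
  · intro h
    unfold Conn at h
    rw [SimpleGraph.reachable_iff_reflTransGen] at h
    induction h with
    | refl => exact SimpleGraph.Reachable.refl _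
    | @tail x y _ hxy ih =>
      refine SimpleGraph.Reachable.trans ih ?_
      rw [SimpleGraph.fromEdgeSet_adj, Finset.mem_coe, Finset.mem_insert] at hxy
      rcases hxy.1 with h1 | h1
      · have : ct a b x = ct a b y := by
          rw [Sym2.eq_iff] at h1
          rcases h1 with ⟨rfl, rfl⟩ | ⟨rfl, rfl⟩
          · exact hab
          · exact hab.symm
        rw [this]
      · exact conn_of_mem (Finset.mem_image.mpr ⟨s(x, y), h1, by simp⟩)
  · intro h
    unfold Conn at h
    rw [SimpleGraph.reachable_iff_reflTransGen] at h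
    have same : ∀ p q : V, ct a b p = ct a b q → Conn (insert s(a, b) F) p q := by
      intro p q hpq
      rcases ct_eq hpq with h1 | h1
      · subst h1; exact SimpleGraph.Reachable.refl _
      · exact conn_of_mem (by rw [h1]; exact Finset.mem_insert_self _ _)
    have key : ∀ z' : V, Relation.ReflTransGen (SimpleGraph.fromEdgeSet
        ((F.image (Sym2.map (ct a b)) : Finset (Sym2 V)) : Set (Sym2 V))).Adj (ct a b u) z' →
        ∀ z : V, ct a b z = z' → Conn (insert s(a, b) F) u z := by
      intro z' hz'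
      induction hz' with
      | refl => exact fun z hz => same u z hz.symm
      | @tail y' z' _ hyz ih =>
        intro z hz
        rw [SimpleGraph.fromEdgeSet_adj, Finset.mem_coe, Finset.mem_image] at hyz
        obtain ⟨⟨e, heF, he⟩, _⟩ := hyz
        induction e using Sym2.ind with
        | _ p q =>
          rw [Sym2.map_mk, Sym2.eq_iff] at he
          rcases he with ⟨h1, h2⟩ | ⟨h1, h2⟩
          · have h3 := ih p h1
            have h4 : Conn (insert s(a, b) F) p q := conn_of_mem (Finset.mem_insert_of_mem heF)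
            exact (SimpleGraph.Reachable.trans h3 h4).trans (same q z (h2.trans hz.symm))
          · have h3 := ih q h2
            have h4 : Conn (insert s(a, b) F) p q := conn_of_mem (Finset.mem_insert_of_mem heF)
            exact (SimpleGraph.Reachable.trans h3 (SimpleGraph.Reachable.symm h4)).trans
              (same p z (h1.trans hz.symm))
    exact key _ h v rfl

theorem acyc_contract {a b : V} (hab : a ≠ b) (F : Finset (Sym2 V)) :
    (s(a, b) ∉ F ∧ Acyc (insert s(a, b) F)) ↔
      (Set.InjOn (Sym2.map (ct a b)) (F : Set (Sym2 V)) ∧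
        Acyc (F.image (Sym2.map (ct a b)))) := by
  induction F using Finset.induction_on with
  | empty =>
    have h1 : Acyc (insert s(a, b) (∅ : Finset (Sym2 V))) := by
      rw [acyc_insert (Finset.notMem_empty _)]
      refine ⟨acyc_empty, fun h => hab ?_⟩
      unfold Conn at h
      rw [Finset.coe_empty, SimpleGraph.fromEdgeSet_empty] at h
      exact SimpleGraph.reachable_bot.mp h
    refine ⟨fun _ => ⟨by simp, ?_⟩, fun _ => ⟨Finset.notMem_empty _, h1⟩⟩
    rw [Finset.image_empty]
    exact acyc_empty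
  | insert g F hg ih =>
    induction g using Sym2.ind with
    | _ u v =>
      have L : (s(a, b) ∉ insert s(u, v) F ∧ Acyc (insert s(a, b) (insert s(u, v) F))) ↔
          (s(a, b) ∉ F ∧ Acyc (insert s(a, b) F)) ∧ ¬ Conn (insert s(a, b) F) u v := by
        rw [Finset.insert_comm]
        constructor
        · rintro ⟨h1, h2⟩
          have h3 : s(a, b) ≠ s(u, v) := fun h => h1 (by rw [h]; exact mem_insert_self _ _)
          have h4 : s(u, v) ∉ insert s(a, b) F := by
            rw [Finset.mem_insert]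
            rintro (h | h)
            · exact h3 h.symm
            · exact hg h
          rw [acyc_insert h4] at h2
          exact ⟨⟨fun h => h1 (mem_insert_of_mem h), h2.1⟩, h2.2⟩
        · rintro ⟨⟨h1, h2⟩, h3⟩
          have h4 : s(a, b) ≠ s(u, v) := by
            intro h
            exact h3 (conn_of_mem (by rw [h]; exact mem_insert_self _ _))
          have h5 : s(u, v) ∉ insert s(a, b) F := by
            rw [Finset.mem_insert]
            rintro (h | h)
            · exact h4 h.symm
            · exact hg h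
          rw [acyc_insert h5]
          refine ⟨?_, h2, h3⟩
          rw [Finset.mem_insert]
          rintro (h | h)
          · exact h4 h
          · exact h1 h
      have R : (Set.InjOn (Sym2.map (ct a b)) ((insert s(u, v) F : Finset (Sym2 V)) : Set (Sym2 V)) ∧
          Acyc ((insert s(u, v) F).image (Sym2.map (ct a b)))) ↔
          (Set.InjOn (Sym2.map (ct a b)) (F : Set (Sym2 V)) ∧ Acyc (F.image (Sym2.map (ct a b)))) ∧
            ¬ Conn (F.image (Sym2.map (ct a b))) (ct a b u) (ct a b v) := by
        rw [Finset.coe_insert, Set.injOn_insert (by simpa using hg), Finset.image_insert,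
          Sym2.map_mk]
        constructor
        · rintro ⟨⟨h1, h2⟩, h3⟩
          have h4 : s(ct a b u, ct a b v) ∉ F.image (Sym2.map (ct a b)) := by
            intro h
            apply h2
            rw [← Finset.coe_image]
            exact h
          rw [acyc_insert h4] at h3
          exact ⟨⟨h1, h3.1⟩, h3.2⟩
        · rintro ⟨⟨h1, h2⟩, h3⟩
          have h4 : s(ct a b u, ct a b v) ∉ F.image (Sym2.map (ct a b)) :=
            fun h => h3 (conn_of_mem h)
          rw [acyc_insert h4]
          refine ⟨⟨h1, ?_⟩, h2, h3⟩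
          intro h
          apply h4
          rw [← Finset.mem_coe, Finset.coe_image]
          exact h
      rw [L, R, ih, conn_contract]

end Pool.Agent.PW
end

section

/-!
The final algebra.
-/

set_option autoImplicit false

namespace Pool.Agent.TW

lemma lead_nonneg {A B C : ℝ} (h : ∀ t : ℝ, 0 ≤ C + t * B + t ^ 2 * A) : 0 ≤ A := by
  by_contra hA
  have hA : A < 0 := not_le.mp hA
  -- take `t = 1 + (|B| + |C| + 1) / (-A)`
  set K := |B| + |C| + 1 with hK
  have hB := abs_nonneg B
  have hC := abs_nonneg C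
  have hB' := le_abs_self B
  have hC' := le_abs_self C
  set t := 1 + K / (-A) with ht
  have hK0 : 0 < K := by positivity
  have hnA : 0 < -A := by linarith
  have ht1 : 1 ≤ t := by
    have : 0 ≤ K / (-A) := by positivity
    linarith
  have htA : t * A ≤ A - K := by
    rw [ht]
    have : K / (-A) * A = -K := by
      rw [div_neg, neg_mul, div_mul_cancel₀ _ hA.ne]
    nlinarith
  have h1 := h t
  have h2 : t * (t * A) ≤ t * (A - K) := by nlinarith
  have h3 : t * B ≤ t * |B| := by nlinarith
  have h4 : |C| ≤ t * |C| := by nlinarith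
  nlinarith

/-- The inequality for one pair of marks. -/
lemma marks {g β δ B D ya yc : ℝ} (hg : 0 ≤ g) (hya : 0 ≤ ya) (hyc : 0 ≤ yc) (hy : ya + yc = 1)
    (hβ : 0 ≤ β) (hδ : 0 ≤ δ) (hB : 0 ≤ B) (hD : 0 ≤ D) (hBβ : B ≤ β) (hDδ : D ≤ δ)
    (hMb : B ^ 2 ≤ g * β * (β - B)) (hMd : D ^ 2 ≤ g * δ * (δ - D)) :
    g * (yc * β * D + ya * δ * B) + B * D ≤ g * β * δ := by
  rcases hβ.eq_or_lt with h0 | hβ0
  · have : B = 0 := by
      have : B ^ 2 ≤ 0 := by rw [← h0] at hMb; simpa using hMb
      nlinarith
    rw [this, ← h0]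
    simp
  rcases hδ.eq_or_lt with h0 | hδ0
  · have : D = 0 := by
      have : D ^ 2 ≤ 0 := by rw [← h0] at hMd; simpa using hMd
      nlinarith
    rw [this, ← h0]
    simp
  -- symmetric form
  have key : ∀ {β δ B D ya yc : ℝ}, 0 ≤ ya → 0 ≤ yc → ya + yc = 1 → 0 < β → 0 < δ → 0 ≤ B →
      0 ≤ D → B ≤ β → D ≤ δ → D ^ 2 ≤ g * δ * (δ - D) → B * δ ≤ D * β →
      g * (yc * β * D + ya * δ * B) + B * D ≤ g * β * δ := by
    intro β δ B D ya yc hya hyc hy hβ hδ hB hD hBβ hDδ hMd hle
    -- multiply by δ
    have h1 : g * (yc * β * D + ya * δ * B) ≤ g * (β * D) := by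
      apply mul_le_mul_of_nonneg_left _ hg
      have h0 : ya * (δ * B) ≤ ya * (β * D) := mul_le_mul_of_nonneg_left (by linarith) hya
      have h1 : yc * β * D = β * D - ya * (β * D) := by
        rw [show yc = 1 - ya by linarith]; ring
      have h2 : ya * δ * B = ya * (δ * B) := by ring
      linarith
    have h2 : B * D * δ ≤ β * D ^ 2 := by nlinarith
    have h3 : β * D ^ 2 ≤ β * (g * δ * (δ - D)) := mul_le_mul_of_nonneg_left hMd hβ.le
    have h4 : B * D * δ ≤ (g * β * (δ - D)) * δ := by nlinarith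
    have h5 : B * D ≤ g * β * (δ - D) := le_of_mul_le_mul_right h4 hδ
    nlinarith
  rcases le_total (B * δ) (D * β) with h | h
  · exact key hya hyc hy hβ0 hδ0 hB hD hBβ hDδ hMd h
  · have h1 := key (β := δ) (δ := β) (B := D) (D := B) (ya := yc) (yc := ya) hyc hya
      (by linarith) hδ0 hβ0 hD hB hDδ hBβ hMb (by linarith)
    nlinarith

/-- The core inequality, normalised by `h₀ = 1`. -/
lemma core {g μb μd κ ω φb φd ya yc u : ℝ} (hg : 0 ≤ g) (hya : 0 ≤ ya) (hyc : 0 ≤ yc)
    (hy : ya + yc = 1) (hu : 0 ≤ u)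
    (hT : ∀ t : ℝ, (1 + t * g) * (ω + t * κ) ≤ (φb + t * μb) * (φd + t * μd))
    (hβ : 0 ≤ 1 - φb) (hδ : 0 ≤ 1 - φd)
    (hB : 0 ≤ g * φb - μb) (hD : 0 ≤ g * φd - μd)
    (hBβ : g * φb - μb ≤ 1 - φb) (hDδ : g * φd - μd ≤ 1 - φd)
    (hMb : (g * φb - μb) ^ 2 ≤ g * (1 - φb) * ((1 - φb) - (g * φb - μb)))
    (hMd : (g * φd - μd) ^ 2 ≤ g * (1 - φd) * ((1 - φd) - (g * φd - μd))) :
    (1 + u + ya * yc * g) * (ya * φb + yc * φd + ya * yc * κ + u * ω) ≤
      (yc + ya * φb + ya * yc * μb + u * φb) * (ya + yc * φd + ya * yc * μd + u * φd) := by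
  set C := φb * φd - ω with hC
  set A := μb * μd - g * κ with hA
  set B := μb * φd + μd * φb - g * ω - κ with hBdef
  have hquad : ∀ t : ℝ, 0 ≤ C + t * B + t ^ 2 * A := by
    intro t
    have := hT t
    rw [hC, hA, hBdef]
    nlinarith
  have hC0 : 0 ≤ C := by simpa using hquad 0
  have hA0 : 0 ≤ A := lead_nonneg hquad
  set s := ya * yc with hs
  have hs0 : 0 ≤ s := mul_nonneg hya hyc
  have hQ : 0 ≤ u ^ 2 * C + u * s * B + s ^ 2 * A := by
    rcases hu.eq_or_lt with h0 | hu0
    · rw [← h0]
      have : 0 ≤ s ^ 2 * A := by positivity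
      linarith
    · have h1 := hquad (s / u)
      have h2 : u ^ 2 * C + u * s * B + s ^ 2 * A = u ^ 2 * (C + s / u * B + (s / u) ^ 2 * A) := by
        field_simp
      rw [h2]
      positivity
  -- N1
  set β := 1 - φb with hβdef
  set δ := 1 - φd with hδdef
  set Gb := g - μb with hGb
  set Gd := g - μd with hGd
  set N1 := β * δ - (Gb + Gd - g + κ) + ya * β * Gd + yc * δ * Gb with hN1
  have hmarks := marks hg hya hyc hy hβ hδ hB hD hBβ hDδ hMb hMd
  have hN : 0 ≤ N1 := by
    rcases hg.eq_or_lt with h0 | hg0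
    · -- g = 0
      have hb1 : μb = 0 := by
        have h1 : (g * φb - μb) ^ 2 ≤ 0 := by rw [← h0] at hMb ⊢; simpa using hMb
        rw [← h0] at h1
        have : (0 * φb - μb) ^ 2 = μb ^ 2 := by ring
        rw [this] at h1
        nlinarith
      have hd1 : μd = 0 := by
        have h1 : (g * φd - μd) ^ 2 ≤ 0 := by rw [← h0] at hMd ⊢; simpa using hMd
        rw [← h0] at h1
        have : (0 * φd - μd) ^ 2 = μd ^ 2 := by ring
        rw [this] at h1
        nlinarith
      have hk : κ = 0 := by
        by_contra hk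
        have h1 := hT ((φb * φd - ω + 1) / κ)
        rw [← h0, hb1, hd1] at h1
        have h2 : (φb * φd - ω + 1) / κ * κ = φb * φd - ω + 1 := by field_simp
        nlinarith
      rw [hN1, hGb, hGd, ← h0, hb1, hd1, hk]
      have : 0 ≤ β * δ := mul_nonneg hβ hδ
      simpa using this
    · have h1 : g * N1 = g * (β * δ) - Gb * Gd + A + g * (ya * β * Gd + yc * δ * Gb) := by
        rw [hN1, hA, hGb, hGd]
        ring
      have h2 : 0 ≤ g * N1 := by
        rw [h1]
        have e1 : Gb = g * β + (g * φb - μb) := by rw [hGb, hβdef]; ring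
        have e2 : Gd = g * δ + (g * φd - μd) := by rw [hGd, hδdef]; ring
        set Bb := g * φb - μb with hBb
        set Dd := g * φd - μd with hDd
        rw [e1, e2]
        have h3 : g * (β * δ) - (g * β + Bb) * (g * δ + Dd) +
            g * (ya * β * (g * δ + Dd) + yc * δ * (g * β + Bb)) =
            g * β * δ - (g * (yc * β * Dd + ya * δ * Bb) + Bb * Dd) +
              (ya + yc - 1) * (g ^ 2 * β * δ) + (ya + yc - 1) * (g * β * Dd + g * δ * Bb) := by
          ring
        have h4 : (ya + yc - 1 : ℝ) = 0 := by linarith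
        rw [h4] at h3
        linarith
      exact nonneg_of_mul_nonneg_right (by linarith) hg0
  have hfin : (yc + ya * φb + s * μb + u * φb) * (ya + yc * φd + s * μd + u * φd) -
      (1 + u + s * g) * (ya * φb + yc * φd + s * κ + u * ω) =
      s * N1 + u * C + (u ^ 2 * C + u * s * B + s ^ 2 * A) +
      (ya + yc - 1) * ((yc + ya * φb + s * μb + u * φb) * (ya + yc * φd + s * μd + u * φd)) * 0 +
      0 := by
    have hyc' : yc = 1 - ya := by linarith
    rw [hN1, hC, hA, hBdef, hGb, hGd, hβdef, hδdef, hs, hyc']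
    ring
  have h1 : 0 ≤ s * N1 := mul_nonneg hs0 hN
  have h2 : 0 ≤ u * C := mul_nonneg hu hC0
  nlinarith

end Pool.Agent.TW
end
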