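import Mathlib
import Pool.Agent.Lib.MP_d90615_co.Mg.G001

section

/-!
The partition function of forests for product weights.
-/

set_option autoImplicit false
set_option linter.unusedSectionVars false

namespace Pool.Agent.PW

open Finset

variable {V : Type*} [Fintype V] [DecidableEq V]

open Classical in
/-- The weighted number of forests. -/
noncomputable def Z (w : Sym2 V → ℝ) : ℝ :=
  ∑ F ∈ (univ : Finset (Finset (Sym2 V))).filter (fun F : Finset (Sym2 V) => Acyc F), ∏ e ∈ F, w e

open Classical in
/-- The weighted number of forests that contain `e`, without the weight of `e`. -/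
noncomputable def N (w : Sym2 V → ℝ) (e : Sym2 V) : ℝ :=
  ∑ F ∈ (univ : Finset (Finset (Sym2 V))).filter (fun F : Finset (Sym2 V) => Acyc F ∧ e ∈ F),
    ∏ f ∈ F.erase e, w f

theorem Z_congr {w w' : Sym2 V → ℝ} (h : ∀ e, ¬ e.IsDiag → w e = w' e) : Z w = Z w' := by
  unfold Z
  refine Finset.sum_congr rfl fun F hF => Finset.prod_congr rfl fun e he => ?_
  simp only [mem_filter, mem_univ, true_and] at hF
  exact h e (hF.1 e he)

theorem N_congr {w w' : Sym2 V → ℝ} {e : Sym2 V} (h : ∀ f, ¬ f.IsDiag → f ≠ e → w f = w' f) :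
    N w e = N w' e := by
  unfold N
  refine Finset.sum_congr rfl fun F hF => Finset.prod_congr rfl fun f hf => ?_
  simp only [mem_filter, mem_univ, true_and] at hF
  rw [Finset.mem_erase] at hf
  exact h f (hF.1.1 f hf.2) hf.1

/-- The weights after the contraction of `b` into `a`. -/
noncomputable def cw (a b : V) (w : Sym2 V → ℝ) : Sym2 V → ℝ :=
  fun e' => ∑ e ∈ (univ : Finset (Sym2 V)).filter (fun e => Sym2.map (ct a b) e = e'), w e

open Classical in
theorem N_aux (w : Sym2 V → ℝ) (g : Sym2 V) :
    N w g = ∑ F ∈ (univ : Finset (Finset (Sym2 V))).filter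
      (fun F : Finset (Sym2 V) => g ∉ F ∧ Acyc (insert g F)), ∏ e ∈ F, w e := by
  unfold N
  refine Finset.sum_bij' (fun F _ => F.erase g) (fun F _ => insert g F) ?_ ?_ ?_ ?_ ?_
  · intro F hF
    simp only [mem_filter, mem_univ, true_and] at hF ⊢
    exact ⟨Finset.notMem_erase g F, by rw [Finset.insert_erase hF.2]; exact hF.1⟩
  · intro F hF
    simp only [mem_filter, mem_univ, true_and] at hF ⊢
    exact ⟨hF.2, Finset.mem_insert_self g F⟩
  · intro F hF
    simp only [mem_filter, mem_univ, true_and] at hF
    exact Finset.insert_erase hF.2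
  · intro F hF
    simp only [mem_filter, mem_univ, true_and] at hF
    exact Finset.erase_insert hF.1
  · intro F hF
    rfl

theorem N_eq {a b : V} (hab : a ≠ b) (w : Sym2 V → ℝ) : N w s(a, b) = Z (cw a b w) := by
  classical
  rw [N_aux]
  have h1 : (univ : Finset (Finset (Sym2 V))).filter
      (fun F : Finset (Sym2 V) => s(a, b) ∉ F ∧ Acyc (insert s(a, b) F)) =
      (univ : Finset (Finset (Sym2 V))).filter
      (fun F : Finset (Sym2 V) => Set.InjOn (Sym2.map (ct a b)) (F : Set (Sym2 V)) ∧
        Acyc (F.image (Sym2.map (ct a b)))) := by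
    ext F
    simp only [mem_filter, mem_univ, true_and]
    exact acyc_contract hab F
  rw [h1, fiber_sum (Sym2.map (ct a b)) w Acyc]
  rfl

/-- Product weights. -/
def pw (x : V → ℝ) : Sym2 V → ℝ :=
  Sym2.lift ⟨fun u v => x u * x v, fun u v => mul_comm (x u) (x v)⟩

@[simp] theorem pw_mk (x : V → ℝ) (u v : V) : pw x s(u, v) = x u * x v := rfl

/-- The mass of `b` is moved to `a`. -/
def mv (x : V → ℝ) (a b : V) : V → ℝ :=
  fun v => if v = b then 0 else if v = a then x a + x b else x v

theorem sum_fib {a b : V} (hab : a ≠ b) (x : V → ℝ) (u : V) :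
    ∑ p ∈ (univ : Finset V).filter (fun p => ct a b p = u), x p = mv x a b u := by
  unfold mv
  by_cases hb : u = b
  · subst hb
    rw [if_pos rfl, Finset.sum_eq_zero]
    intro p hp
    simp only [mem_filter, mem_univ, true_and] at hp
    unfold ct at hp
    split_ifs at hp with h1
    · exact absurd hp hab
    · exact absurd hp h1
  · rw [if_neg hb]
    by_cases ha : u = a
    · subst ha
      rw [if_pos rfl]
      have : (univ : Finset V).filter (fun p => ct u b p = u) = {u, b} := by
        ext p
        simp only [mem_filter, mem_univ, true_and, mem_insert, mem_singleton]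
        unfold ct
        split_ifs with h1
        · simp [h1]
        · simp [h1]
      rw [this, Finset.sum_pair hab]
    · rw [if_neg ha]
      have : (univ : Finset V).filter (fun p => ct a b p = u) = {u} := by
        ext p
        simp only [mem_filter, mem_univ, true_and, mem_singleton]
        unfold ct
        split_ifs with h1
        · constructor
          · intro h; exact absurd h.symm ha
          · intro h; exact absurd (h.symm.trans h1) hb
        · rfl
      rw [this, Finset.sum_singleton]

theorem cw_pw {a b : V} (hab : a ≠ b) (x : V → ℝ) {e : Sym2 V} (he : ¬ e.IsDiag) :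
    cw a b (pw x) e = pw (mv x a b) e := by
  induction e using Sym2.ind with
  | _ u v =>
    rw [Sym2.mk_isDiag_iff] at he
    rw [pw_mk, ← sum_fib hab x u, ← sum_fib hab x v, Finset.sum_mul_sum, ← Finset.sum_product']
    unfold cw
    symm
    refine Finset.sum_bij (fun p _ => s(p.1, p.2)) ?_ ?_ ?_ ?_
    · rintro ⟨p, q⟩ h
      simp only [mem_product, mem_filter, mem_univ, true_and] at h ⊢
      rw [Sym2.map_mk, h.1, h.2]
    · rintro ⟨p, q⟩ h ⟨p', q'⟩ h' heq
      simp only [mem_product, mem_filter, mem_univ, true_and] at h h' heq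
      rw [Sym2.eq_iff] at heq
      rcases heq with ⟨h1, h2⟩ | ⟨h1, h2⟩
      · rw [h1, h2]
      · exact absurd (h.1.symm.trans (by rw [h1]; exact h'.2)) he
    · intro e he'
      induction e using Sym2.ind with
      | _ p q =>
        simp only [mem_filter, mem_univ, true_and] at he'
        rw [Sym2.map_mk, Sym2.eq_iff] at he'
        rcases he' with h1 | h1
        · exact ⟨(p, q), by simp [h1.1, h1.2], rfl⟩
        · exact ⟨(q, p), by simp [h1.1, h1.2], Sym2.eq_swap⟩
    · rintro ⟨p, q⟩ _
      rfl

theorem N_pw {a b : V} (hab : a ≠ b) (x : V → ℝ) : N (pw x) s(a, b) = Z (pw (mv x a b)) := by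
  rw [N_eq hab]
  exact Z_congr fun e he => cw_pw hab x he

theorem not_conn_of_isolated {F : Finset (Sym2 V)} {h i : V} (hi : h ≠ i)
    (hF : ∀ e ∈ F, h ∉ e) : ¬ Conn F h i := by
  intro hc
  unfold Conn at hc
  rw [SimpleGraph.reachable_iff_reflTransGen] at hc
  rcases Relation.ReflTransGen.cases_head hc with h1 | ⟨c, h1, _⟩
  · exact hi h1
  · rw [SimpleGraph.fromEdgeSet_adj, Finset.mem_coe] at h1
    exact hF _ h1.1 (Sym2.mem_mk_left _ _)

theorem Z_pw_zero {y : V → ℝ} {h i : V} (hi : h ≠ i) (hy : y h = 0) :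
    Z (pw y) = Z (pw (mv y h i)) := by
  classical
  rw [← N_pw hi, N_aux]
  unfold Z
  have hz : ∀ F : Finset (Sym2 V), (∃ e ∈ F, h ∈ e) → ∏ e ∈ F, pw y e = 0 := by
    rintro F ⟨e, he, hh⟩
    refine Finset.prod_eq_zero he ?_
    obtain ⟨v, rfl⟩ := hh
    rw [pw_mk, hy, zero_mul]
  have key : ∀ (p : Finset (Sym2 V) → Prop),
      ∑ F ∈ (univ : Finset (Finset (Sym2 V))).filter (fun F => p F), ∏ e ∈ F, pw y e =
      ∑ F ∈ (univ : Finset (Finset (Sym2 V))).filter (fun F => p F ∧ ∀ e ∈ F, h ∉ e),
        ∏ e ∈ F, pw y e := by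
    intro p
    symm
    refine Finset.sum_subset ?_ ?_
    · intro F hF
      simp only [mem_filter, mem_univ, true_and] at hF ⊢
      exact hF.1
    · intro F hF hF'
      simp only [mem_filter, mem_univ, true_and] at hF hF'
      apply hz
      by_contra hcon
      push Not at hcon
      exact hF' ⟨hF, hcon⟩
  refine (key Acyc).trans (Eq.trans ?_
    ((key (fun F => s(h, i) ∉ F ∧ Acyc (insert s(h, i) F))).symm.trans ?_))
  swap
  · refine Finset.sum_congr ?_ fun _ _ => rfl
    ext F
    simp only [mem_filter, mem_univ, true_and]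
  refine Finset.sum_congr ?_ fun _ _ => rfl
  ext F
  simp only [mem_filter, mem_univ, true_and]
  constructor
  · rintro ⟨h1, h2⟩
    have h3 : s(h, i) ∉ F := fun h4 => h2 _ h4 (Sym2.mem_mk_left _ _)
    exact ⟨⟨h3, (acyc_insert h3).mpr ⟨h1, not_conn_of_isolated hi h2⟩⟩, h2⟩
  · rintro ⟨⟨h3, h1⟩, h2⟩
    exact ⟨((acyc_insert h3).mp h1).1, h2⟩

theorem Z_zero {y : V → ℝ} (hy : ∀ v, y v = 0) : Z (pw y) = 1 := by
  classical
  unfold Z
  rw [Finset.sum_eq_single ∅]
  · simp
  · intro F _ hF
    obtain ⟨e, he⟩ := Finset.nonempty_iff_ne_empty.mpr hF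
    refine Finset.prod_eq_zero he ?_
    induction e using Sym2.ind with
    | _ u v => rw [pw_mk, hy, zero_mul]
  · intro h
    exact absurd (by simp only [mem_filter, mem_univ, true_and]; exact acyc_empty) h

theorem P_zero {x : V → ℝ} (X : ℝ) {A : Finset V} (hx : ∀ i ∈ A, x i = 0) : P x X A = 1 := by
  induction A using Finset.induction_on with
  | empty => exact P_empty x X
  | insert a A ha ih =>
    rw [P_insert x X ha, ih fun i hi => hx i (Finset.mem_insert_of_mem hi),
      hx a (Finset.mem_insert_self a A)]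
    ring

theorem P_mv {x : V → ℝ} {t X : ℝ} {h i : V} {A : Finset V} (hA : h ∉ A) (hi : i ∈ A) :
    P (mv (Function.update x h t) h i) X A = P x X (A.erase i) := by
  rw [P_erase _ X hi]
  have h1 : mv (Function.update x h t) h i i = 0 := by unfold mv; rw [if_pos rfl]
  rw [h1, mul_zero, zero_mul, add_zero]
  refine P_congr X fun j hj => ?_
  rw [Finset.mem_erase] at hj
  have hjh : j ≠ h := by rintro rfl; exact hA hj.2
  unfold mv
  rw [if_neg hj.1, if_neg hjh, Function.update_of_ne hjh]

theorem sum_mv (x : V → ℝ) {a b : V} (hab : a ≠ b) : ∑ v, mv x a b v = ∑ v, x v := by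
  have h1 : ∀ v, mv x a b v = x v + (if v = a then x b else 0) - (if v = b then x b else 0) := by
    intro v
    unfold mv
    by_cases hb : v = b
    · subst hb
      rw [if_pos rfl, if_neg hab.symm, if_pos rfl]; ring
    · by_cases ha : v = a
      · subst ha
        rw [if_neg hb, if_pos rfl, if_pos rfl, if_neg hb]; ring
      · rw [if_neg hb, if_neg ha, if_neg ha, if_neg hb]; ring
  simp only [h1, Finset.sum_sub_distrib, Finset.sum_add_distrib]
  simp

theorem hasDerivAt_Z (x : V → ℝ) (h : V) (t : ℝ) :
    HasDerivAt (fun t => Z (pw (Function.update x h t)))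
      (∑ i ∈ univ.erase h, x i * Z (pw (mv (Function.update x h t) h i))) t := by
  classical
  -- derivative of one weight
  have hd : ∀ e : Sym2 V, ¬ e.IsDiag → HasDerivAt (fun t => pw (Function.update x h t) e)
      (∑ i ∈ univ.erase h, if e = s(h, i) then x i else 0) t := by
    intro e he
    induction e using Sym2.ind with
    | _ u v =>
      rw [Sym2.mk_isDiag_iff] at he
      simp only [pw_mk]
      by_cases hu : u = h
      · subst hu
        have hv : v ≠ u := fun h => he h.symm
        have e1 : (fun t => Function.update x u t u * Function.update x u t v) =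
            fun t => t * x v := by
          funext t
          rw [Function.update_self, Function.update_of_ne hv]
        rw [e1]
        refine ((hasDerivAt_id' t).mul_const (x v)).congr_deriv ?_
        rw [one_mul, Finset.sum_eq_single_of_mem v (Finset.mem_erase.mpr ⟨hv, mem_univ v⟩)]
        · rw [if_pos rfl]
        · intro i hi hiv
          rw [if_neg]
          intro h1
          rw [Sym2.eq_iff] at h1
          rcases h1 with h1 | h1
          · exact hiv h1.2.symm
          · exact hv h1.2
      · by_cases hv : v = h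
        · subst hv
          have e1 : (fun t => Function.update x v t u * Function.update x v t v) =
              fun t => t * x u := by
            funext t
            rw [Function.update_self, Function.update_of_ne hu]; ring
          rw [e1]
          refine ((hasDerivAt_id' t).mul_const (x u)).congr_deriv ?_
          rw [one_mul, Finset.sum_eq_single_of_mem u (Finset.mem_erase.mpr ⟨hu, mem_univ u⟩)]
          · rw [if_pos Sym2.eq_swap]
          · intro i hi hiv
            rw [if_neg]
            intro h1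
            rw [Sym2.eq_iff] at h1
            rcases h1 with h1 | h1
            · exact hu h1.1
            · exact hiv h1.1.symm
        · have e1 : (fun t => Function.update x h t u * Function.update x h t v) =
              fun _ => x u * x v := by
            funext t
            rw [Function.update_of_ne hu, Function.update_of_ne hv]
          rw [e1]
          refine (hasDerivAt_const t (x u * x v)).congr_deriv ?_
          symm
          refine Finset.sum_eq_zero fun i _ => ?_
          rw [if_neg]
          intro h1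
          rw [Sym2.eq_iff] at h1
          rcases h1 with h1 | h1
          · exact hu h1.1
          · exact hv h1.2
  unfold Z
  have h1 := HasDerivAt.fun_sum
    (u := (univ : Finset (Finset (Sym2 V))).filter (fun F : Finset (Sym2 V) => Acyc F))
    (A := fun F t => ∏ e ∈ F, pw (Function.update x h t) e)
    (A' := fun F => ∑ e ∈ F, (∏ f ∈ F.erase e, pw (Function.update x h t) f) •
      (∑ i ∈ univ.erase h, if e = s(h, i) then x i else 0)) (x := t)
    (fun F hF => by
      simp only [mem_filter, mem_univ, true_and] at hF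
      exact HasDerivAt.fun_finsetProd (fun e he => hd e (hF.1 e he)))
  refine h1.congr_deriv ?_
  have h2 : ∀ i ∈ univ.erase h, x i * ∑ F ∈ (univ : Finset (Finset (Sym2 V))).filter
      (fun F : Finset (Sym2 V) => Acyc F), ∏ e ∈ F, pw (mv (Function.update x h t) h i) e =
      ∑ F ∈ (univ : Finset (Finset (Sym2 V))).filter (fun F : Finset (Sym2 V) => Acyc F),
        ∑ e ∈ F, if e = s(h, i) then x i * ∏ f ∈ F.erase e, pw (Function.update x h t) f
          else 0 := by
    intro i hi
    have hne : h ≠ i := (Finset.mem_erase.mp hi).1.symm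
    have h3 := N_pw hne (Function.update x h t)
    unfold Z at h3
    rw [← h3]
    unfold N
    rw [Finset.mul_sum]
    have h4 : (univ : Finset (Finset (Sym2 V))).filter
        (fun F : Finset (Sym2 V) => Acyc F ∧ s(h, i) ∈ F) =
        ((univ : Finset (Finset (Sym2 V))).filter (fun F : Finset (Sym2 V) => Acyc F)).filter
          (fun F => s(h, i) ∈ F) := by
      rw [Finset.filter_filter]
    rw [h4, Finset.sum_filter]
    refine Finset.sum_congr rfl fun F _ => ?_
    by_cases hF : s(h, i) ∈ F
    · rw [if_pos hF, Finset.sum_eq_single_of_mem _ hF]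
      · rw [if_pos rfl]
      · intro e _ he
        rw [if_neg he]
    · rw [if_neg hF]
      symm
      refine Finset.sum_eq_zero fun e he => ?_
      rw [if_neg]
      rintro rfl
      exact hF he
  rw [Finset.sum_congr rfl h2, Finset.sum_comm]
  refine Finset.sum_congr rfl fun F _ => ?_
  rw [Finset.sum_comm]
  refine Finset.sum_congr rfl fun e _ => ?_
  rw [smul_eq_mul, Finset.mul_sum]
  refine Finset.sum_congr rfl fun i _ => ?_
  split_ifs
  · ring
  · ring

theorem Z_pw_aux (n : ℕ) : ∀ (x : V → ℝ) (h : V),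
    ((univ.erase h).filter (fun i => x i ≠ 0)).card = n →
    Z (pw x) = P x (∑ v, x v) (univ.erase h) := by
  induction n using Nat.strong_induction_on with
  | _ n ih =>
    intro x h hn
    set A : Finset V := univ.erase h with hA
    have hhA : h ∉ A := Finset.notMem_erase h univ
    set s : ℝ := ∑ i ∈ A, x i with hs
    -- the induction hypothesis for a contraction
    have hc : ∀ (t : ℝ) (i : V), i ∈ A → x i ≠ 0 →
        Z (pw (mv (Function.update x h t) h i)) = P x (t + s) (A.erase i) := by
      intro t i hi hxi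
      have hne : h ≠ i := (Finset.mem_erase.mp hi).1.symm
      have h1 : ∑ v, mv (Function.update x h t) h i v = t + s := by
        rw [sum_mv _ hne, ← Finset.add_sum_erase univ _ (mem_univ h), Function.update_self]
        congr 1
        refine Finset.sum_congr rfl fun j hj => ?_
        rw [Function.update_of_ne (Finset.mem_erase.mp hj).1]
      have h2 : ((univ.erase h).filter
          (fun j => mv (Function.update x h t) h i j ≠ 0)).card < n := by
        rw [← hn]
        refine Finset.card_lt_card ?_
        rw [Finset.ssubset_iff_of_subset]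
        · refine ⟨i, ?_, ?_⟩
          · rw [Finset.mem_filter]; exact ⟨hi, hxi⟩
          · rw [Finset.mem_filter]
            rintro ⟨_, h3⟩
            exact h3 (by unfold mv; rw [if_pos rfl])
        · intro j hj
          rw [Finset.mem_filter] at hj ⊢
          refine ⟨hj.1, fun h0 => hj.2 ?_⟩
          have hjh : j ≠ h := (Finset.mem_erase.mp hj.1).1
          unfold mv
          by_cases hji : j = i
          · rw [if_pos hji]
          · rw [if_neg hji, if_neg hjh, Function.update_of_ne hjh, h0]
      rw [ih _ h2 _ h rfl, h1, ← hA, P_mv hhA hi]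
    have hf : ∀ t, HasDerivAt (fun t => Z (pw (Function.update x h t)))
        (∑ i ∈ A, x i * P x (t + s) (A.erase i)) t := by
      intro t
      refine (hasDerivAt_Z x h t).congr_deriv ?_
      refine Finset.sum_congr rfl fun i hi => ?_
      by_cases hxi : x i = 0
      · rw [hxi, zero_mul, zero_mul]
      · rw [hc t i hi hxi]
    have hg : ∀ t, HasDerivAt (fun t => P x (t + s) A)
        (∑ i ∈ A, x i * P x (t + s) (A.erase i)) t := by
      intro t
      exact (hasDerivAt_P x (t + s) A).comp_add_const t s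
    have hconst : ∀ t, HasDerivAt (fun t => Z (pw (Function.update x h t)) - P x (t + s) A) 0 t := by
      intro t
      exact ((hf t).fun_sub (hg t)).congr_deriv (sub_self _)
    have h0 : Z (pw (Function.update x h 0)) - P x (0 + s) A = 0 := by
      by_cases hex : ∃ i ∈ A, x i ≠ 0
      · obtain ⟨i, hi, hxi⟩ := hex
        have hne : h ≠ i := (Finset.mem_erase.mp hi).1.symm
        rw [Z_pw_zero hne (Function.update_self h 0 x), hc 0 i hi hxi, P_erase x (0 + s) hi,
          ← hs]
        ring
      · push Not at hex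
        rw [P_zero _ hex, Z_zero, sub_self]
        intro v
        by_cases hv : v = h
        · subst hv; exact Function.update_self _ _ _
        · rw [Function.update_of_ne hv]
          exact hex v (Finset.mem_erase.mpr ⟨hv, mem_univ v⟩)
    have hall := is_const_of_deriv_eq_zero (fun t => (hconst t).differentiableAt)
      (fun t => (hconst t).deriv) (x h) 0
    rw [h0, Function.update_eq_self] at hall
    have hsum : x h + s = ∑ v, x v := Finset.add_sum_erase univ x (mem_univ h)
    rw [hsum] at hall
    linarith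

/-- The partition function of forests with product weights. -/
theorem Z_pw (x : V → ℝ) (h : V) : Z (pw x) = P x (∑ v, x v) (univ.erase h) :=
  Z_pw_aux _ x h rfl

end Pool.Agent.PW
end

section

/-!
The inequalities for the sums `M_k` and `P`.
-/

set_option autoImplicit false
set_option linter.unusedSectionVars false

namespace Pool.Agent.PW

open Finset

variable {V : Type*} [DecidableEq V]

theorem ineqA (x : V → ℝ) (X : ℝ) (A : Finset V) (hx : ∀ i ∈ A, 0 ≤ x i)
    (hX : ∑ i ∈ A, x i ≤ X) :
    1 ≤ M x X 0 A ∧ (X - ∑ i ∈ A, x i) * M x X 0 A ≤ M x X 1 A := by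
  induction A using Finset.strongInduction with
  | H A ih =>
    have hs : ∀ i ∈ A, ∑ j ∈ A.erase i, x j ≤ X := by
      intro i hi
      have := Finset.add_sum_erase A x hi
      have := hx i hi
      linarith
    have hI : ∀ i ∈ A, 1 ≤ M x X 0 (A.erase i) ∧
        (X - ∑ j ∈ A.erase i, x j) * M x X 0 (A.erase i) ≤ M x X 1 (A.erase i) :=
      fun i hi => ih _ (Finset.erase_ssubset hi) (fun j hj => hx j (Finset.mem_of_mem_erase hj))
        (hs i hi)
    have hle : ∀ i ∈ A, M x X 0 (A.erase i) ≤ M x X 0 A := by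
      intro i hi
      rw [M_erase x X 0 hi]
      have h1 := hI i hi
      have h2 : 0 ≤ (X - ∑ j ∈ A.erase i, x j) * M x X 0 (A.erase i) :=
        mul_nonneg (by have := hs i hi; linarith) (by linarith [h1.1])
      have h3 : 0 ≤ x i * M x X (0 + 1) (A.erase i) :=
        mul_nonneg (hx i hi) (h2.trans h1.2)
      linarith
    constructor
    · rcases A.eq_empty_or_nonempty with rfl | ⟨i, hi⟩
      · rw [M_empty, H_zero]
      · exact (hI i hi).1.trans (hle i hi)
    · rw [M_one]
      have h1 : ∑ i ∈ A, x i * M x X 0 (A.erase i) ≤ ∑ i ∈ A, x i * M x X 0 A :=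
        Finset.sum_le_sum fun i hi => mul_le_mul_of_nonneg_left (hle i hi) (hx i hi)
      rw [← Finset.sum_mul] at h1
      linarith

theorem W_erase (x : V → ℝ) (X : ℝ) {A : Finset V} {i : V} (hi : i ∈ A) :
    M x X 0 A * M x X 1 (A.erase i) - M x X 1 A * M x X 0 (A.erase i) =
      x i * (M x X 1 (A.erase i) ^ 2 - M x X 0 (A.erase i) * M x X 2 (A.erase i)) := by
  rw [M_erase x X 0 hi, M_erase x X 1 hi]
  ring

theorem W_eq (x : V → ℝ) (X : ℝ) (A : Finset V) :
    M x X 1 A ^ 2 - M x X 0 A * M x X 2 A = M x X 0 A ^ 2 +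
      ∑ i ∈ A, x i ^ 2 * (M x X 1 (A.erase i) ^ 2 - M x X 0 (A.erase i) * M x X 2 (A.erase i)) := by
  have h1 : ∀ i ∈ A, x i ^ 2 *
      (M x X 1 (A.erase i) ^ 2 - M x X 0 (A.erase i) * M x X 2 (A.erase i)) =
      M x X 0 A * (x i * M x X 1 (A.erase i)) - M x X 1 A * (x i * M x X 0 (A.erase i)) := by
    intro i hi
    have := W_erase x X hi
    linear_combination (-x i) * this
  rw [Finset.sum_congr rfl h1, Finset.sum_sub_distrib, ← Finset.mul_sum, ← Finset.mul_sum]
  have h2 := M_one x X A
  have h3 := M_two x X A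
  have h4 : ∑ i ∈ A, x i * M x X 0 (A.erase i) = X * M x X 0 A - M x X 1 A := by linarith
  have h5 : ∑ i ∈ A, x i * M x X 1 (A.erase i) = X * M x X 1 A - M x X 0 A - M x X 2 A := by
    linarith
  rw [h4, h5]
  ring

theorem ineqB (x : V → ℝ) (X : ℝ) (A : Finset V) :
    M x X 0 A ^ 2 ≤ M x X 1 A ^ 2 - M x X 0 A * M x X 2 A := by
  induction A using Finset.strongInduction with
  | H A ih =>
    rw [W_eq]
    have h1 : 0 ≤ ∑ i ∈ A, x i ^ 2 *
        (M x X 1 (A.erase i) ^ 2 - M x X 0 (A.erase i) * M x X 2 (A.erase i)) := by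
      refine Finset.sum_nonneg fun i hi => mul_nonneg (sq_nonneg _) ?_
      exact (sq_nonneg _).trans (ih _ (Finset.erase_ssubset hi))
    linarith

theorem one_le_P (x : V → ℝ) (X : ℝ) (A : Finset V) (hx : ∀ i ∈ A, 0 ≤ x i)
    (hX : ∑ i ∈ A, x i ≤ X) : 1 ≤ P x X A := by
  induction A using Finset.induction_on with
  | empty => rw [P_empty]
  | insert a A ha ih =>
    rw [Finset.sum_insert ha] at hX
    have h1 := hx a (Finset.mem_insert_self a A)
    have h2 : ∀ i ∈ A, 0 ≤ x i := fun i hi => hx i (Finset.mem_insert_of_mem hi)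
    have h3 := ih h2 (by linarith)
    have h4 := (ineqA x X A h2 (by linarith)).1
    rw [P_insert x X ha]
    have h5 : 0 ≤ (X - ∑ i ∈ A, x i - x a) * x a * M x X 0 A :=
      mul_nonneg (mul_nonneg (by linarith) h1) (by linarith)
    linarith

theorem Q_eq (x : V → ℝ) (X : ℝ) (A : Finset V) :
    M x X 1 A * P x X A - (X - ∑ i ∈ A, x i) * M x X 0 A ^ 2 =
      ∑ i ∈ A, x i ^ 2 * (M x X 1 (A.erase i) * P x X (A.erase i) -
        (X - ∑ j ∈ A.erase i, x j) * M x X 0 (A.erase i) ^ 2 + x i * M x X 0 (A.erase i) ^ 2) := by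
  have h1 : ∀ i ∈ A, x i ^ 2 * (M x X 1 (A.erase i) * P x X (A.erase i) -
        (X - ∑ j ∈ A.erase i, x j) * M x X 0 (A.erase i) ^ 2 + x i * M x X 0 (A.erase i) ^ 2) =
      M x X 0 A * (x i * P x X (A.erase i)) - P x X A * (x i * M x X 0 (A.erase i)) := by
    intro i hi
    have e1 := Finset.add_sum_erase A x hi
    rw [P_erase x X hi, M_erase x X 0 hi, ← e1, zero_add]
    ring
  rw [Finset.sum_congr rfl h1, Finset.sum_sub_distrib, ← Finset.mul_sum, ← Finset.mul_sum,
    sum_P_erase]
  have h2 := M_one x X A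
  have h4 : ∑ i ∈ A, x i * M x X 0 (A.erase i) = X * M x X 0 A - M x X 1 A := by linarith
  rw [h4]
  ring

theorem ineqC (x : V → ℝ) (X : ℝ) (A : Finset V) (hx : ∀ i ∈ A, 0 ≤ x i)
    (hX : ∑ i ∈ A, x i < X) :
    (M x X 1 A * P x X A - (X - ∑ i ∈ A, x i) * M x X 0 A ^ 2) * M x X 1 A ≤
      M x X 0 A ^ 2 * (M x X 0 A - P x X A) := by
  induction A using Finset.strongInduction with
  | H A ih =>
    have hs : ∀ i ∈ A, ∑ j ∈ A.erase i, x j < X := by
      intro i hi
      have := Finset.add_sum_erase A x hi
      have := hx i hi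
      linarith
    have hx' : ∀ i ∈ A, ∀ j ∈ A.erase i, 0 ≤ x j :=
      fun i _ j hj => hx j (Finset.mem_of_mem_erase hj)
    have hA := ineqA x X A hx hX.le
    have hL : 0 < M x X 1 A := by
      have : 0 < (X - ∑ i ∈ A, x i) * M x X 0 A := mul_pos (by linarith) (by linarith [hA.1])
      linarith [hA.2]
    rw [Q_eq, Finset.sum_mul]
    have hterm : ∀ i ∈ A, x i ^ 2 * (M x X 1 (A.erase i) * P x X (A.erase i) -
        (X - ∑ j ∈ A.erase i, x j) * M x X 0 (A.erase i) ^ 2 + x i * M x X 0 (A.erase i) ^ 2) *
        M x X 1 A ≤ M x X 0 A ^ 2 * (x i ^ 2 * M x X 0 (A.erase i)) := by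
      intro i hi
      have hIA := ineqA x X (A.erase i) (hx' i hi) (hs i hi).le
      have hIC := ih _ (Finset.erase_ssubset hi) (hx' i hi) (hs i hi)
      have hIP := one_le_P x X (A.erase i) (hx' i hi) (hs i hi).le
      have hW := W_erase x X hi
      have hB := ineqB x X (A.erase i)
      have hM := M_erase x X 0 hi
      rw [zero_add] at hM
      have hxi := hx i hi
      set Ti := M x X 0 (A.erase i)
      set Li := M x X 1 (A.erase i)
      set T := M x X 0 A
      set L := M x X 1 A
      set Q := Li * P x X (A.erase i) - (X - ∑ j ∈ A.erase i, x j) * Ti ^ 2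
      have hTi : 1 ≤ Ti := hIA.1
      have hLi : 0 < Li := by
        have : 0 < (X - ∑ j ∈ A.erase i, x j) * Ti :=
          mul_pos (by have := hs i hi; linarith) (by linarith)
        linarith [hIA.2]
      have hT : 0 < T := by linarith [hA.1]
      -- `Ti L ≤ Li T`
      have h1 : Ti * L ≤ Li * T := by
        have : 0 ≤ x i * (Li ^ 2 - Ti * M x X 2 (A.erase i)) :=
          mul_nonneg hxi ((sq_nonneg _).trans hB)
        linarith
      have h2 : Q * Li ≤ Ti ^ 2 * Ti := by
        have : Ti ^ 2 * (Ti - P x X (A.erase i)) ≤ Ti ^ 2 * Ti :=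
          mul_le_mul_of_nonneg_left (by linarith) (sq_nonneg _)
        exact hIC.trans this
      have h3 : (Q + x i * Ti ^ 2) * Li ≤ Ti ^ 2 * T := by
        rw [hM]; nlinarith
      have h4 : ((Q + x i * Ti ^ 2) * L) * Li ≤ (T ^ 2 * Ti) * Li := by
        calc ((Q + x i * Ti ^ 2) * L) * Li = ((Q + x i * Ti ^ 2) * Li) * L := by ring
          _ ≤ (Ti ^ 2 * T) * L := mul_le_mul_of_nonneg_right h3 hL.le
          _ = (Ti * T) * (Ti * L) := by ring
          _ ≤ (Ti * T) * (Li * T) := mul_le_mul_of_nonneg_left h1 (by positivity)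
          _ = (T ^ 2 * Ti) * Li := by ring
      have h5 : (Q + x i * Ti ^ 2) * L ≤ T ^ 2 * Ti := le_of_mul_le_mul_right h4 hLi
      calc x i ^ 2 * (Q + x i * Ti ^ 2) * L = x i ^ 2 * ((Q + x i * Ti ^ 2) * L) := by ring
        _ ≤ x i ^ 2 * (T ^ 2 * Ti) := mul_le_mul_of_nonneg_left h5 (sq_nonneg _)
        _ = T ^ 2 * (x i ^ 2 * Ti) := by ring
    refine (Finset.sum_le_sum hterm).trans ?_
    rw [← Finset.mul_sum, P_def]
    apply le_of_eq
    ring

/-- Two disjoint edges. -/
theorem ineq_disjoint {T L S Q c a b : ℝ} (hT : 0 < T) (hL : 0 ≤ L) (ha : 0 ≤ a) (hb : 0 ≤ b)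
    (hc : c = a + b) (hQ : 0 ≤ Q) (hB : T ^ 2 ≤ L ^ 2 - T * S)
    (hC : (L * Q - c * T ^ 2) * L ≤ T ^ 2 * (T - Q)) :
    S * (Q + a * b * T) ≤ (T + a * L) * (T + b * L) := by
  have h1 : a * b * (T * S) ≤ a * b * L ^ 2 :=
    mul_le_mul_of_nonneg_left (by nlinarith [sq_nonneg T]) (mul_nonneg ha hb)
  have h2 : S * Q ≤ T * (T + c * L) := by
    rcases le_total S 0 with hS | hS
    · have h3 : S * Q ≤ 0 := mul_nonpos_of_nonpos_of_nonneg hS hQ
      have h4 : 0 ≤ T * (T + c * L) := by rw [hc]; positivity
      linarith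
    · have h3 : T * (S * Q) ≤ T * (T * (T + c * L)) := by
        have h4 : (T * S) * Q ≤ (L ^ 2 - T ^ 2) * Q := mul_le_mul_of_nonneg_right (by linarith) hQ
        nlinarith [mul_nonneg (sq_nonneg T) hQ]
      exact le_of_mul_le_mul_left h3 hT
  subst hc
  nlinarith

/-- Two edges with a common vertex. -/
theorem ineq_adjacent {T L Q c a b d : ℝ} (hT : 0 < T) (hL : 0 < L) (ha : 0 ≤ a) (hb : 0 ≤ b)
    (hd : 0 ≤ d) (hc : c = a + b + d) (hQ : 0 ≤ Q)
    (hC : (L * Q - c * T ^ 2) * L ≤ T ^ 2 * (T - Q)) :
    Q * (a * L - T) ≤ (a + b) * (a + d) * T ^ 2 := by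
  rcases le_total (a * L) T with h | h
  · have h1 : Q * (a * L - T) ≤ 0 := mul_nonpos_of_nonneg_of_nonpos hQ (by linarith)
    have h2 : 0 ≤ (a + b) * (a + d) * T ^ 2 := by positivity
    linarith
  · have h1 : Q * L ^ 2 ≤ T ^ 2 * (T + c * L) := by nlinarith [mul_nonneg (sq_nonneg T) hQ]
    have h2 : (Q * (a * L - T)) * L ^ 2 ≤ ((a + b) * (a + d) * T ^ 2) * L ^ 2 := by
      have h3 : (Q * L ^ 2) * (a * L - T) ≤ (T ^ 2 * (T + c * L)) * (a * L - T) :=
        mul_le_mul_of_nonneg_right h1 (by linarith)
      have h4 : (T + c * L) * (a * L - T) ≤ (a + b) * (a + d) * L ^ 2 := by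
        subst hc
        have : 0 ≤ b * d * L ^ 2 := by positivity
        have : 0 ≤ (b + d) * (T * L) := by positivity
        nlinarith [sq_nonneg T]
      have h5 := mul_le_mul_of_nonneg_left h4 (sq_nonneg T)
      nlinarith
    exact le_of_mul_le_mul_right h2 (by positivity)

end Pool.Agent.PW
end

section

/-!
Two edges.
-/

set_option autoImplicit false
set_option linter.unusedSectionVars false

namespace Pool.Agent.PW

open Finset

variable {V : Type*} [Fintype V] [DecidableEq V]

open Classical in
/-- The weighted number of forests that contain `e` and `f`, without the weights of `e` and `f`. -/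
noncomputable def N2 (w : Sym2 V → ℝ) (e f : Sym2 V) : ℝ :=
  ∑ F ∈ (univ : Finset (Finset (Sym2 V))).filter
    (fun F : Finset (Sym2 V) => (Acyc F ∧ e ∈ F) ∧ f ∈ F), ∏ g ∈ (F.erase e).erase f, w g

theorem N2_congr {w w' : Sym2 V → ℝ} {e f : Sym2 V}
    (h : ∀ g, ¬ g.IsDiag → g ≠ e → g ≠ f → w g = w' g) : N2 w e f = N2 w' e f := by
  unfold N2
  refine Finset.sum_congr rfl fun F hF => Finset.prod_congr rfl fun g hg => ?_
  simp only [mem_filter, mem_univ, true_and] at hF
  rw [Finset.mem_erase, Finset.mem_erase] at hg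
  exact h g (hF.1.1.1 g hg.2.2) hg.2.1 hg.1

theorem N2_comm (w : Sym2 V → ℝ) (e f : Sym2 V) : N2 w e f = N2 w f e := by
  unfold N2
  refine Finset.sum_congr ?_ fun F _ => ?_
  · ext F
    simp only [mem_filter, mem_univ, true_and]
    tauto
  · rw [Finset.erase_right_comm]

theorem Z_split (w : Sym2 V → ℝ) (g : Sym2 V) (t : ℝ) :
    Z w = Z (Function.update w g t) + (w g - t) * N w g := by
  classical
  have key : ∀ u : Sym2 V → ℝ, Z u =
      (∑ F ∈ (univ : Finset (Finset (Sym2 V))).filter
        (fun F : Finset (Sym2 V) => Acyc F ∧ g ∉ F), ∏ e ∈ F, u e) + u g * N u g := by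
    intro u
    have h1 : Z u = ∑ F ∈ ((univ : Finset (Finset (Sym2 V))).filter
        (fun F : Finset (Sym2 V) => Acyc F)), ∏ e ∈ F, u e := rfl
    rw [h1, ← Finset.sum_filter_not_add_sum_filter _ (fun F => g ∈ F), Finset.filter_filter,
      Finset.filter_filter]
    congr 1
    unfold N
    rw [Finset.mul_sum]
    refine Finset.sum_congr rfl fun F hF => ?_
    simp only [mem_filter, mem_univ, true_and] at hF
    rw [Finset.mul_prod_erase F u hF.2]
  rw [key w, key (Function.update w g t), Function.update_self]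
  have h2 : N (Function.update w g t) g = N w g :=
    N_congr fun f _ hf => by rw [Function.update_of_ne hf]
  have h3 : ∑ F ∈ (univ : Finset (Finset (Sym2 V))).filter
        (fun F : Finset (Sym2 V) => Acyc F ∧ g ∉ F), ∏ e ∈ F, Function.update w g t e =
      ∑ F ∈ (univ : Finset (Finset (Sym2 V))).filter
        (fun F : Finset (Sym2 V) => Acyc F ∧ g ∉ F), ∏ e ∈ F, w e := by
    refine Finset.sum_congr rfl fun F hF => Finset.prod_congr rfl fun e he => ?_
    simp only [mem_filter, mem_univ, true_and] at hF
    rw [Function.update_of_ne]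
    rintro rfl
    exact hF.2 he
  rw [h2, h3]
  ring

theorem N_split (w : Sym2 V → ℝ) {e f : Sym2 V} (hef : f ≠ e) (t : ℝ) :
    N w e = N (Function.update w f t) e + (w f - t) * N2 w e f := by
  classical
  have key : ∀ u : Sym2 V → ℝ, N u e =
      (∑ F ∈ (univ : Finset (Finset (Sym2 V))).filter
        (fun F : Finset (Sym2 V) => (Acyc F ∧ e ∈ F) ∧ f ∉ F), ∏ g ∈ F.erase e, u g) +
        u f * N2 u e f := by
    intro u
    have h1 : N u e = ∑ F ∈ ((univ : Finset (Finset (Sym2 V))).filter
        (fun F : Finset (Sym2 V) => Acyc F ∧ e ∈ F)), ∏ g ∈ F.erase e, u g := rfl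
    rw [h1, ← Finset.sum_filter_not_add_sum_filter _ (fun F => f ∈ F), Finset.filter_filter,
      Finset.filter_filter]
    congr 1
    unfold N2
    rw [Finset.mul_sum]
    refine Finset.sum_congr rfl fun F hF => ?_
    simp only [mem_filter, mem_univ, true_and] at hF
    rw [Finset.mul_prod_erase _ u (Finset.mem_erase.mpr ⟨hef, hF.2⟩)]
  rw [key w, key (Function.update w f t), Function.update_self]
  have h2 : N2 (Function.update w f t) e f = N2 w e f :=
    N2_congr fun g _ _ hg => by rw [Function.update_of_ne hg]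
  have h3 : ∑ F ∈ (univ : Finset (Finset (Sym2 V))).filter
        (fun F : Finset (Sym2 V) => (Acyc F ∧ e ∈ F) ∧ f ∉ F),
          ∏ g ∈ F.erase e, Function.update w f t g =
      ∑ F ∈ (univ : Finset (Finset (Sym2 V))).filter
        (fun F : Finset (Sym2 V) => (Acyc F ∧ e ∈ F) ∧ f ∉ F), ∏ g ∈ F.erase e, w g := by
    refine Finset.sum_congr rfl fun F hF => Finset.prod_congr rfl fun g hg => ?_
    simp only [mem_filter, mem_univ, true_and] at hF
    rw [Function.update_of_ne]
    rintro rfl
    exact hF.2 (Finset.mem_of_mem_erase hg)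
  rw [h2, h3]
  ring

theorem cw_update {a b : V} (w : Sym2 V → ℝ) (f : Sym2 V) (t : ℝ) :
    cw a b (Function.update w f t) =
      Function.update (cw a b w) (Sym2.map (ct a b) f) (cw a b w (Sym2.map (ct a b) f) + (t - w f)) := by
  classical
  funext e'
  unfold cw
  have h0 : ∀ e, Function.update w f t e = w e + if e = f then t - w f else 0 := by
    intro e
    by_cases h : e = f
    · subst h; rw [Function.update_self, if_pos rfl]; ring
    · rw [Function.update_of_ne h, if_neg h]; ring
  rw [Finset.sum_congr rfl fun e _ => h0 e, Finset.sum_add_distrib]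
  by_cases h : e' = Sym2.map (ct a b) f
  · subst h
    rw [Function.update_self]
    congr 1
    rw [Finset.sum_ite_eq' _ f (fun _ => t - w f), if_pos]
    simp
  · rw [Function.update_of_ne h]
    rw [Finset.sum_ite_eq' _ f (fun _ => t - w f), if_neg, add_zero]
    simp only [mem_filter, mem_univ, true_and]
    exact fun h1 => h h1.symm

theorem N2_eq {a b : V} (hab : a ≠ b) (w : Sym2 V → ℝ) {f : Sym2 V} (hf : f ≠ s(a, b)) :
    N2 w s(a, b) f = N (cw a b w) (Sym2.map (ct a b) f) := by
  have h1 : N2 w s(a, b) f = N2 (Function.update w f (w f + 1)) s(a, b) f :=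
    N2_congr fun g _ _ hg => by rw [Function.update_of_ne hg]
  have h2 := N_split (Function.update w f (w f + 1)) hf (w f)
  rw [Function.update_self, Function.update_idem, Function.update_eq_self, N_eq hab, N_eq hab,
    ← h1, cw_update] at h2
  have h3 := Z_split (Function.update (cw a b w) (Sym2.map (ct a b) f)
    (cw a b w (Sym2.map (ct a b) f) + (w f + 1 - w f))) (Sym2.map (ct a b) f)
    (cw a b w (Sym2.map (ct a b) f))
  rw [Function.update_self, Function.update_idem, Function.update_eq_self] at h3
  have h4 : N (Function.update (cw a b w) (Sym2.map (ct a b) f)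
    (cw a b w (Sym2.map (ct a b) f) + (w f + 1 - w f))) (Sym2.map (ct a b) f) =
      N (cw a b w) (Sym2.map (ct a b) f) :=
    N_congr fun g _ hg => by rw [Function.update_of_ne hg]
  rw [h4] at h3
  linarith

theorem N2_pw {a b c d : V} (hab : a ≠ b) (hcd : ct a b c ≠ ct a b d) (x : V → ℝ)
    (hne : s(c, d) ≠ s(a, b)) :
    N2 (pw x) s(a, b) s(c, d) = Z (pw (mv (mv x a b) (ct a b c) (ct a b d))) := by
  rw [N2_eq hab _ hne, Sym2.map_mk]
  have h1 : N (cw a b (pw x)) s(ct a b c, ct a b d) = N (pw (mv x a b)) s(ct a b c, ct a b d) :=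
    N_congr fun g hg _ => cw_pw hab x hg
  rw [h1, N_pw hcd]

/-- The Rayleigh difference. -/
noncomputable def Ray (w : Sym2 V → ℝ) (e f : Sym2 V) : ℝ := N w e * N w f - Z w * N2 w e f

theorem Ray_comm (w : Sym2 V → ℝ) (e f : Sym2 V) : Ray w e f = Ray w f e := by
  unfold Ray
  rw [N2_comm w e f]
  ring

theorem Ray_update (w : Sym2 V → ℝ) {e f : Sym2 V} (hef : e ≠ f) (t : ℝ) :
    Ray (Function.update w f t) e f = Ray w e f := by
  unfold Ray
  have h1 := Z_split w f t
  have h2 := N_split w hef.symm t
  have h3 : N (Function.update w f t) f = N w f :=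
    N_congr fun g _ hg => by rw [Function.update_of_ne hg]
  have h4 : N2 (Function.update w f t) e f = N2 w e f :=
    N2_congr fun g _ _ hg => by rw [Function.update_of_ne hg]
  rw [h3, h4, h1, h2]
  ring

/-- The Rayleigh difference does not depend on the weights of the two edges. -/
theorem Ray_congr {w w' : Sym2 V → ℝ} {e f : Sym2 V} (hef : e ≠ f)
    (h : ∀ g, ¬ g.IsDiag → g ≠ e → g ≠ f → w g = w' g) : Ray w e f = Ray w' e f := by
  have h1 : Ray w e f = Ray (Function.update (Function.update w f (w' f)) e (w' e)) e f := by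
    rw [Ray_comm (Function.update (Function.update w f (w' f)) e (w' e)) e f,
      Ray_update _ hef.symm, Ray_comm _ f e, Ray_update _ hef]
  rw [h1]
  have h2 : ∀ g, ¬ g.IsDiag → Function.update (Function.update w f (w' f)) e (w' e) g = w' g := by
    intro g hg
    by_cases h3 : g = e
    · subst h3; rw [Function.update_self]
    · rw [Function.update_of_ne h3]
      by_cases h4 : g = f
      · subst h4; rw [Function.update_self]
      · rw [Function.update_of_ne h4]; exact h g hg h3 h4
  unfold Ray
  rw [Z_congr h2, N_congr (e := e) (fun g hg _ => h2 g hg),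
    N_congr (e := f) (fun g hg _ => h2 g hg), N2_congr (fun g hg _ _ => h2 g hg)]

end Pool.Agent.PW
end
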