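import Mathlib

section

/-!
Products and sums over the components.
-/

set_option autoImplicit false
set_option linter.unusedSectionVars false

namespace Pool.Agent.TW

open Finset

variable {κ : Type*} [DecidableEq κ]

/-- `∑_{T ∈ s} c_T ∏_{T' ∈ s, T' ≠ T} f_T'`. -/
def Sg (s : Finset κ) (c f : κ → ℝ) : ℝ := ∑ T ∈ s, c T * ∏ T' ∈ s.erase T, f T'

lemma prod_mark {s : Finset κ} {b : κ} (hb : b ∈ s) (f : κ → ℝ) (r : ℝ) :
    ∏ T ∈ s, (f T + if T = b then r else 0) = ∏ T ∈ s, f T + r * ∏ T ∈ s.erase b, f T := by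
  rw [← Finset.mul_prod_erase s _ hb, ← Finset.mul_prod_erase s f hb, if_pos rfl]
  have h1 : ∏ T ∈ s.erase b, (f T + if T = b then r else 0) = ∏ T ∈ s.erase b, f T := by
    refine Finset.prod_congr rfl fun T hT => ?_
    rw [if_neg (Finset.ne_of_mem_erase hT), add_zero]
  rw [h1]
  ring

lemma prod_nomark {s : Finset κ} {b : κ} (hb : b ∉ s) (f : κ → ℝ) (r : ℝ) :
    ∏ T ∈ s, (f T + if T = b then r else 0) = ∏ T ∈ s, f T := by
  refine Finset.prod_congr rfl fun T hT => ?_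
  rw [if_neg (fun h => hb (by rw [← h]; exact hT)), add_zero]

lemma Sg_mark {s : Finset κ} {b : κ} (hb : b ∈ s) (c f : κ → ℝ) (r : ℝ) :
    Sg s c (fun T => f T + if T = b then r else 0) = Sg s c f + r * Sg (s.erase b) c f := by
  unfold Sg
  rw [← Finset.add_sum_erase s _ hb, ← Finset.add_sum_erase s (fun T => c T * ∏ T' ∈ s.erase T, f T') hb]
  have h1 : ∏ T' ∈ s.erase b, (f T' + if T' = b then r else 0) = ∏ T' ∈ s.erase b, f T' :=
    prod_nomark (Finset.notMem_erase b s) f r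
  have h2 : ∀ T ∈ s.erase b, c T * ∏ T' ∈ s.erase T, (f T' + if T' = b then r else 0) =
      c T * ∏ T' ∈ s.erase T, f T' + r * (c T * ∏ T' ∈ (s.erase b).erase T, f T') := by
    intro T hT
    have h3 : b ∈ s.erase T := Finset.mem_erase.mpr ⟨(Finset.ne_of_mem_erase hT).symm, hb⟩
    rw [prod_mark h3, Finset.erase_right_comm]
    ring
  rw [h1, Finset.sum_congr rfl h2, Finset.sum_add_distrib, ← Finset.mul_sum]
  ring

lemma Sg_nomark {s : Finset κ} {b : κ} (hb : b ∉ s) (c f : κ → ℝ) (r : ℝ) :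
    Sg s c (fun T => f T + if T = b then r else 0) = Sg s c f := by
  unfold Sg
  refine Finset.sum_congr rfl fun T _ => ?_
  rw [prod_nomark (fun h => hb (Finset.mem_of_mem_erase h))]

/-- Peel one component off `Sg`. -/
lemma Sg_erase {s : Finset κ} {b : κ} (hb : b ∈ s) (c f : κ → ℝ) :
    Sg s c f = c b * ∏ T ∈ s.erase b, f T + f b * Sg (s.erase b) c f := by
  unfold Sg
  rw [← Finset.add_sum_erase s _ hb, Finset.mul_sum]
  congr 1
  refine Finset.sum_congr rfl fun T hT => ?_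
  have h3 : b ∈ s.erase T := Finset.mem_erase.mpr ⟨(Finset.ne_of_mem_erase hT).symm, hb⟩
  rw [← Finset.mul_prod_erase _ f h3, Finset.erase_right_comm]
  ring

/-- `∑ X_T² ∏ (1 + X) = (∑ X_T) ∏ (1 + X) - ∑ X_T ∏ (1 + X)`. -/
lemma Sg_sq (s : Finset κ) (X : κ → ℝ) :
    Sg s (fun T => X T ^ 2) (fun T => 1 + X T) =
      (∑ T ∈ s, X T) * ∏ T ∈ s, (1 + X T) - Sg s X (fun T => 1 + X T) := by
  unfold Sg
  rw [Finset.sum_mul, ← Finset.sum_sub_distrib]
  refine Finset.sum_congr rfl fun T hT => ?_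
  rw [← Finset.mul_prod_erase s _ hT]
  ring

variable [Fintype κ]

section pieces

variable (X : κ → ℝ) (b d : κ)

/-- `∏ (1 + X)`. -/
def A0 : ℝ := ∏ T, (1 + X T)
/-- `∑ X² ∏ (1 + X)`. -/
def Ax : ℝ := Sg univ (fun T => X T ^ 2) (fun T => 1 + X T)
/-- `∏_{T ≠ b} (1 + X)`. -/
def Ab : ℝ := ∏ T ∈ univ.erase b, (1 + X T)
/-- The same with `X²`. -/
def Abx : ℝ := Sg (univ.erase b) (fun T => X T ^ 2) (fun T => 1 + X T)
/-- Two marks. -/
def Abd : ℝ := if b = d then 0 else ∏ T ∈ (univ.erase d).erase b, (1 + X T)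
/-- Two marks with `X²`. -/
def Abdx : ℝ :=
  if b = d then 0 else Sg ((univ.erase d).erase b) (fun T => X T ^ 2) (fun T => 1 + X T)

lemma A0_Ab : A0 X = (1 + X b) * Ab X b := by
  unfold A0 Ab
  rw [← Finset.mul_prod_erase univ _ (mem_univ b)]

lemma Ab_Abd (h : b ≠ d) : Ab X b = (1 + X d) * Abd X b d := by
  unfold Ab Abd
  rw [if_neg h, Finset.erase_right_comm,
    ← Finset.mul_prod_erase _ _ (Finset.mem_erase.mpr ⟨h.symm, mem_univ d⟩)]

lemma Ad_Abd (h : b ≠ d) : Ab X d = (1 + X b) * Abd X b d := by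
  unfold Ab Abd
  rw [if_neg h, ← Finset.mul_prod_erase _ _ (Finset.mem_erase.mpr ⟨h, mem_univ b⟩)]

lemma prod_two (ρ σ : ℝ) :
    ∏ T, (1 + (X T + (if T = b then ρ else 0) + (if T = d then σ else 0))) =
      A0 X + ρ * Ab X b + σ * Ab X d + ρ * σ * Abd X b d := by
  have h1 : ∀ T, 1 + (X T + (if T = b then ρ else 0) + (if T = d then σ else 0)) =
      (1 + X T + (if T = b then ρ else 0)) + (if T = d then σ else 0) := fun T => by ring
  rw [Finset.prod_congr rfl fun T _ => h1 T, prod_mark (mem_univ d), prod_mark (mem_univ b)]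
  unfold A0 Ab Abd
  by_cases h : b = d
  · subst h
    rw [if_pos rfl, prod_nomark (Finset.notMem_erase b univ)]
    ring
  · rw [if_neg h, prod_mark (Finset.mem_erase.mpr ⟨h, mem_univ b⟩)]
    ring

lemma Sg_two (ρ σ : ℝ) :
    Sg univ (fun T => X T ^ 2)
      (fun T => 1 + (X T + (if T = b then ρ else 0) + (if T = d then σ else 0))) =
      Ax X + ρ * Abx X b + σ * Abx X d + ρ * σ * Abdx X b d := by
  have h1 : (fun T => 1 + (X T + (if T = b then ρ else 0) + (if T = d then σ else 0))) =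
      fun T => (1 + X T + (if T = b then ρ else 0)) + (if T = d then σ else 0) := by
    funext T
    ring
  rw [h1, Sg_mark (mem_univ d), Sg_mark (mem_univ b)]
  unfold Ax Abx Abdx
  by_cases h : b = d
  · subst h
    rw [if_pos rfl, Sg_nomark (Finset.notMem_erase b univ)]
    ring
  · rw [if_neg h, Sg_mark (Finset.mem_erase.mpr ⟨h, mem_univ b⟩)]
    ring

/-- The second term of the formula for two stars. -/
lemma second_two {ya yc : ℝ} (hy : ya + yc = 1) (ρ σ : ℝ) :
    ∑ T, (ya * X T + if T = b then ρ else 0) * (yc * X T + if T = d then σ else 0) *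
      ∏ T' ∈ univ.erase T,
        (1 + (X T' + (if T' = b then ρ else 0) + (if T' = d then σ else 0))) =
      ya * yc * (Ax X + ρ * Abx X b + σ * Abx X d + ρ * σ * Abdx X b d)
        + ya * σ * (A0 X - Ab X d) + yc * ρ * (A0 X - Ab X b)
        + ρ * σ * (ya * (Ab X b - Abd X b d) + yc * (Ab X d - Abd X b d)) := by
  set y : κ → ℝ := fun T => 1 + (X T + (if T = b then ρ else 0) + (if T = d then σ else 0)) with hy'
  have h1 : ∀ T, (ya * X T + if T = b then ρ else 0) * (yc * X T + if T = d then σ else 0) *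
      ∏ T' ∈ univ.erase T, y T' =
      ya * yc * (X T ^ 2 * ∏ T' ∈ univ.erase T, y T')
      + (if T = d then ya * σ * X T * ∏ T' ∈ univ.erase T, y T' else 0)
      + (if T = b then yc * ρ * X T * ∏ T' ∈ univ.erase T, y T' else 0)
      + (if T = b then (if T = d then ρ * σ * ∏ T' ∈ univ.erase T, y T' else 0) else 0) := by
    intro T
    split_ifs <;> ring
  rw [Finset.sum_congr rfl fun T _ => h1 T, Finset.sum_add_distrib, Finset.sum_add_distrib,
    Finset.sum_add_distrib, ← Finset.mul_sum, Finset.sum_ite_eq' univ d, Finset.sum_ite_eq' univ b,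
    Finset.sum_ite_eq' univ b, if_pos (mem_univ _), if_pos (mem_univ _), if_pos (mem_univ _)]
  have h2 : ∑ T, X T ^ 2 * ∏ T' ∈ univ.erase T, y T' =
      Ax X + ρ * Abx X b + σ * Abx X d + ρ * σ * Abdx X b d := by
    rw [← Sg_two]
    rfl
  have h3 : ∏ T' ∈ univ.erase d, y T' =
      ∏ T' ∈ univ.erase d, (1 + X T' + if T' = b then ρ else 0) := by
    refine Finset.prod_congr rfl fun T hT => ?_
    rw [hy']
    simp only
    rw [if_neg (Finset.ne_of_mem_erase hT)]
    ring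
  have h4 : ∏ T' ∈ univ.erase b, y T' =
      ∏ T' ∈ univ.erase b, (1 + X T' + if T' = d then σ else 0) := by
    refine Finset.prod_congr rfl fun T hT => ?_
    rw [hy']
    simp only
    rw [if_neg (Finset.ne_of_mem_erase hT)]
    ring
  rw [h2]
  by_cases h : b = d
  · subst h
    rw [if_pos rfl, h3, prod_nomark (Finset.notMem_erase b univ)]
    have e1 : ∏ T ∈ univ.erase b, (1 + X T) = Ab X b := rfl
    have e2 : Abd X b b = 0 := by unfold Abd; rw [if_pos rfl]
    have e3 := A0_Ab X b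
    rw [e1, e2, e3]
    have : ya = 1 - yc := by linarith
    rw [this]
    ring
  · rw [if_neg h, h3, h4, prod_mark (Finset.mem_erase.mpr ⟨h, mem_univ b⟩),
      prod_mark (Finset.mem_erase.mpr ⟨Ne.symm h, mem_univ d⟩)]
    have e1 : ∏ T ∈ univ.erase b, (1 + X T) = Ab X b := rfl
    have e1' : ∏ T ∈ univ.erase d, (1 + X T) = Ab X d := rfl
    have e2 : ∏ T ∈ (univ.erase d).erase b, (1 + X T) = Abd X b d := by
      unfold Abd; rw [if_neg h]
    have e2' : ∏ T ∈ (univ.erase b).erase d, (1 + X T) = Abd X b d := by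
      rw [Finset.erase_right_comm]
      exact e2
    have e3 := A0_Ab X b
    have e4 := A0_Ab X d
    have e5 := Ab_Abd X b d h
    have e6 := Ad_Abd X b d h
    rw [e1, e1', e2, e2']
    have k1 : X d * Ab X d = A0 X - Ab X d := by rw [e4]; ring
    have k2 : X b * Ab X b = A0 X - Ab X b := by rw [e3]; ring
    have k3 : X d * Abd X b d = Ab X b - Abd X b d := by rw [e5]; ring
    have k4 : X b * Abd X b d = Ab X d - Abd X b d := by rw [e6]; ring
    linear_combination ya * σ * k1 + yc * ρ * k2 + ya * σ * ρ * k3 + yc * ρ * σ * k4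

lemma Ax_eq : Ax X = (∑ T, X T) * A0 X - Sg univ X (fun T => 1 + X T) := Sg_sq univ X

lemma Abx_eq : Abx X b =
    (1 + ∑ T, X T) * Ab X b - A0 X - Sg (univ.erase b) X (fun T => 1 + X T) := by
  unfold Abx
  rw [Sg_sq]
  have h1 : ∑ T, X T = X b + ∑ T ∈ univ.erase b, X T :=
    (Finset.add_sum_erase univ X (mem_univ b)).symm
  have h2 := A0_Ab X b
  rw [h1, h2]
  unfold Ab
  ring

lemma Sg_X : Sg univ X (fun T => 1 + X T) =
    (A0 X - Ab X b) + Sg (univ.erase b) X (fun T => 1 + X T)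
      + X b * Sg (univ.erase b) X (fun T => 1 + X T) := by
  rw [Sg_erase (mem_univ b)]
  have h2 := A0_Ab X b
  rw [h2]
  unfold Ab
  ring

end pieces

end Pool.Agent.TW
end

section

open Polynomial Finset

namespace Pool.Agent.TW

/-- `f = f(0) ∏ (1 + ρ_i X)`, `w = ∑ f(0) κ_i ρ_i ∏_{j ≠ i} (1 + ρ_j X)`, all `ρ_i, κ_i ≥ 0`. -/
def Conc (f w : ℝ[X]) : Prop :=
  ∃ (n : ℕ) (ρ κ : Fin n → ℝ), (∀ i, 0 ≤ ρ i) ∧ (∀ i, 0 ≤ κ i) ∧
    f = C (f.eval 0) * ∏ i, (1 + C (ρ i) * X) ∧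
    w = ∑ i, C (f.eval 0 * κ i * ρ i) * ∏ j ∈ univ.erase i, (1 + C (ρ j) * X)

theorem prod_erase_ite {n : ℕ} (g : Fin n → ℝ[X]) (i : Fin n) :
    ∏ j ∈ univ.erase i, g j = ∏ j, (if j = i then 1 else g j) := by
  rw [← Finset.prod_erase univ (a := i) (f := fun j => if j = i then (1 : ℝ[X]) else g j) (by simp)]
  apply Finset.prod_congr rfl
  intro j hj
  rw [Finset.mem_erase] at hj
  simp [hj.1]

theorem conc_cons {f w : ℝ[X]} {ρ₀ κ₀ : ℝ} (hρ : 0 ≤ ρ₀) (hκ : 0 ≤ κ₀) (h : Conc f w) :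
    Conc ((1 + C ρ₀ * X) * f) ((1 + C ρ₀ * X) * w + C (κ₀ * ρ₀) * f) := by
  obtain ⟨n, ρ, κ, h1, h2, h3, h4⟩ := h
  have he : ((1 + C ρ₀ * X) * f).eval 0 = f.eval 0 := by simp
  refine ⟨n + 1, Fin.cons ρ₀ ρ, Fin.cons κ₀ κ, ?_, ?_, ?_, ?_⟩
  · intro i
    refine Fin.cases ?_ (fun j => ?_) i
    · simpa using hρ
    · simpa using h1 j
  · intro i
    refine Fin.cases ?_ (fun j => ?_) i
    · simpa using hκ
    · simpa using h2 j
  · rw [he, Fin.prod_univ_succ]
    simp only [Fin.cons_zero, Fin.cons_succ]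
    conv_lhs => rw [h3]
    ring
  · rw [he, Fin.sum_univ_succ]
    simp only [Fin.cons_zero, Fin.cons_succ, prod_erase_ite, Fin.prod_univ_succ, if_true,
      Fin.succ_ne_zero, if_false, Fin.succ_inj, one_mul]
    have h0 : ∀ i : Fin n, ((0 : Fin (n + 1)) = i.succ) = False := by
      intro i
      simp [eq_comm, Fin.succ_ne_zero]
    simp only [h0, if_false]
    have h4' : (1 + C ρ₀ * X) * w = ∑ i, C (f.eval 0 * κ i * ρ i) *
        ((1 + C ρ₀ * X) * ∏ j, (if j = i then 1 else (1 + C (ρ j) * X))) := by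
      conv_lhs => rw [h4]
      rw [Finset.mul_sum]
      apply Finset.sum_congr rfl
      intro i _
      rw [prod_erase_ite]
      ring
    rw [h4']
    have h5 : C (κ₀ * ρ₀) * f = C (f.eval 0 * κ₀ * ρ₀) * ∏ i, (1 + C (ρ i) * X) := by
      conv_lhs => rw [h3]
      simp only [C_mul]
      ring
    rw [h5]
    ring

theorem root_neg {f : ℝ[X]} (hpos : ∀ x : ℝ, 0 ≤ x → 0 < f.eval x) {r : ℝ}
    (hr : f.eval r = 0) : r < 0 := by
  by_contra h
  push Not at h
  have := hpos r h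
  linarith

theorem div_root {f : ℝ[X]} {r : ℝ} (hr0 : r < 0) (hr : f.eval r = 0) (hf : f ≠ 0) :
    ∃ f₁ : ℝ[X], f = (1 + C (-r⁻¹) * X) * f₁ ∧ f₁.natDegree + 1 = f.natDegree := by
  obtain ⟨g, hg⟩ := dvd_iff_isRoot.2 hr
  have hg0 : g ≠ 0 := by
    rintro rfl
    exact hf (by rw [hg]; simp)
  refine ⟨C (-r) * g, ?_, ?_⟩
  · have : (1 + C (-r⁻¹) * X) * (C (-r) * g) = (C (-r) + C (-r⁻¹ * -r) * X) * g := by
      simp only [C_mul]
      ring
    rw [this, hg]
    have h2 : -r⁻¹ * -r = 1 := by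
      rw [neg_mul_neg, inv_mul_cancel₀ hr0.ne]
    rw [h2]
    simp only [C_neg, C_1]
    ring
  · have hr1 : -r ≠ 0 := neg_ne_zero.2 hr0.ne
    rw [natDegree_C_mul hr1]
    rw [hg, natDegree_mul (X_sub_C_ne_zero r) hg0, natDegree_X_sub_C]
    ring

theorem lin_dvd {g : ℝ[X]} {r : ℝ} (hr0 : r < 0) (hr : g.eval r = 0) :
    ∃ g₁ : ℝ[X], g = (1 + C (-r⁻¹) * X) * g₁ := by
  by_cases hg : g = 0
  · exact ⟨0, by rw [hg]; simp⟩
  · obtain ⟨g₁, h, _⟩ := div_root hr0 hr hg
    exact ⟨g₁, h⟩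

theorem lin_ne_zero (ρ : ℝ) : (1 + C ρ * X : ℝ[X]) ≠ 0 := by
  intro h
  have := congrArg (fun p => p.eval 0) h
  simp at this

theorem deg_aux {A f w : ℝ[X]} (h : (A * w).degree < (A * f).degree) : w.degree < f.degree := by
  by_contra hc
  push Not at hc
  rw [degree_mul, degree_mul] at h
  have := add_le_add_right hc A.degree
  exact absurd h (not_lt.2 (by simpa [add_comm] using this))

open ComplexConjugate in
theorem pick {F W z : ℂ} (hF : F ≠ 0)
    (h : ∀ e : ℂ, 0 < e.im → (1 + e) * F - e * z * W ≠ 0) : 0 ≤ (z * W * conj F).im := by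
  by_contra hc
  push Not at hc
  set q : ℂ := z * W / F with hq
  have hN : 0 < Complex.normSq F := Complex.normSq_pos.2 hF
  have hqim : q.im < 0 := by
    have h1 : q * (Complex.normSq F : ℂ) = z * W * conj F := by
      rw [hq, Complex.normSq_eq_conj_mul_self]
      field_simp
    have h2 : (q * (Complex.normSq F : ℂ)).im = q.im * Complex.normSq F := by
      simp
    rw [← h1, h2] at hc
    by_contra h3
    push Not at h3
    have := mul_nonneg h3 hN.le
    linarith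
  have hq1 : q - 1 ≠ 0 := by
    intro h0
    have := congrArg Complex.im h0
    simp at this
    linarith
  have hN1 : 0 < Complex.normSq (q - 1) := Complex.normSq_pos.2 hq1
  have him : 0 < ((q - 1)⁻¹).im := by
    rw [Complex.inv_im]
    apply div_pos _ hN1
    simp
    linarith
  apply h _ him
  have hzw : z * W = q * F := by
    rw [hq]
    field_simp
  have : (1 + (q - 1)⁻¹) * F - (q - 1)⁻¹ * z * W = F * (1 - (q - 1)⁻¹ * (q - 1)) := by
    rw [mul_assoc (q - 1)⁻¹ z W, hzw]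
    ring
  rw [this, inv_mul_cancel₀ hq1]
  ring

open ComplexConjugate in
theorem local_sign {g w : ℝ[X]} {r : ℝ} {m : ℕ}
    (h : ∀ z : ℂ, 0 < z.im → 0 ≤ (z * aeval z w * conj (aeval z ((X - C r) ^ m * g))).im)
    (u : ℂ) (hu : 0 < u.im) :
    0 ≤ (r * w.eval r * g.eval r) * ((conj u) ^ m).im := by
  have key : ∀ η : ℝ, 0 < η → 0 ≤ (((r : ℂ) + η * u) * aeval ((r : ℂ) + η * u) w *
      (conj (aeval ((r : ℂ) + η * u) g) * (conj u) ^ m)).im := by
    intro η hη
    have h1 := h ((r : ℂ) + η * u) (by simp; positivity)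
    have h2 : aeval ((r : ℂ) + η * u) ((X - C r) ^ m * g) =
        ((η : ℂ) * u) ^ m * aeval ((r : ℂ) + η * u) g := by
      simp
    rw [h2] at h1
    have h3 : ((r : ℂ) + η * u) * aeval ((r : ℂ) + η * u) w *
        conj (((η : ℂ) * u) ^ m * aeval ((r : ℂ) + η * u) g) =
        ((η ^ m : ℝ) : ℂ) * (((r : ℂ) + η * u) * aeval ((r : ℂ) + η * u) w *
          (conj (aeval ((r : ℂ) + η * u) g) * (conj u) ^ m)) := by
      simp only [map_mul, map_pow, Complex.conj_ofReal, mul_pow, Complex.ofReal_pow]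
      ring
    rw [h3, Complex.im_ofReal_mul] at h1
    exact nonneg_of_mul_nonneg_right h1 (pow_pos hη m)
  have hcont : Continuous (fun η : ℝ => (((r : ℂ) + η * u) * aeval ((r : ℂ) + η * u) w *
      (conj (aeval ((r : ℂ) + η * u) g) * (conj u) ^ m)).im) := by
    have hz : Continuous (fun η : ℝ => (r : ℂ) + η * u) := by fun_prop
    have hw : Continuous (fun η : ℝ => aeval ((r : ℂ) + η * u) w) :=
      (Polynomial.continuous_aeval w).comp hz
    have hg : Continuous (fun η : ℝ => aeval ((r : ℂ) + η * u) g) :=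
      (Polynomial.continuous_aeval g).comp hz
    exact Complex.continuous_im.comp
      ((hz.mul hw).mul ((Complex.continuous_conj.comp hg).mul continuous_const))
  have hlim := (hcont.tendsto 0).mono_left (nhdsWithin_le_nhds (s := Set.Ioi (0 : ℝ)))
  have h0 := ge_of_tendsto hlim (eventually_nhdsWithin_of_forall (fun η hη => key η hη))
  have ew : aeval (r : ℂ) w = ((w.eval r : ℝ) : ℂ) := by
    have := Polynomial.aeval_algebraMap_apply ℂ r w
    simpa using this
  have eg : aeval (r : ℂ) g = ((g.eval r : ℝ) : ℂ) := by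
    have := Polynomial.aeval_algebraMap_apply ℂ r g
    simpa using this
  have h1 : (((r : ℂ) + ((0 : ℝ) : ℂ) * u) * aeval ((r : ℂ) + ((0 : ℝ) : ℂ) * u) w *
      (conj (aeval ((r : ℂ) + ((0 : ℝ) : ℂ) * u) g) * (conj u) ^ m)) =
      ((r * w.eval r * g.eval r : ℝ) : ℂ) * (conj u) ^ m := by
    rw [Complex.ofReal_zero, zero_mul, add_zero, ew, eg, Complex.conj_ofReal]
    push_cast
    ring
  rw [h1, Complex.im_ofReal_mul] at h0
  exact h0

open ComplexConjugate in
theorem conj_pow_im (θ : ℝ) (m : ℕ) :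
    ((conj (Complex.exp (θ * Complex.I))) ^ m).im = -Real.sin (m * θ) := by
  rw [← Complex.exp_conj, ← Complex.exp_nat_mul]
  have : (m : ℂ) * conj ((θ : ℂ) * Complex.I) = ((-(m * θ) : ℝ) : ℂ) * Complex.I := by
    rw [map_mul, Complex.conj_ofReal, Complex.conj_I]
    push_cast
    ring
  rw [this, Complex.exp_ofReal_mul_I_im, Real.sin_neg]

open ComplexConjugate in
theorem simple_root {f w : ℝ[X]} (hf : f ≠ 0) {r : ℝ} (hr : f.eval r = 0) (hr0 : r < 0)
    (hw : w.eval r ≠ 0)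
    (h : ∀ z : ℂ, 0 < z.im → 0 ≤ (z * aeval z w * conj (aeval z f)).im) :
    f.derivative.eval r ≠ 0 ∧ 0 ≤ w.eval r * f.derivative.eval r := by
  obtain ⟨g, hg, hgd⟩ := exists_eq_pow_rootMultiplicity_mul_and_not_dvd f hf r
  set m := rootMultiplicity r f with hm
  have hgr : g.eval r ≠ 0 := by
    intro h0
    exact hgd (dvd_iff_isRoot.2 h0)
  have hm1 : 0 < m := (rootMultiplicity_pos hf).2 hr
  have hloc := fun u hu => local_sign (g := g) (w := w) (r := r) (m := m)
    (by rw [← hg]; exact h) u hu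
  have hm2 : m = 1 := by
    by_contra hne
    have hm2 : 2 ≤ m := by omega
    have hmR : (2 : ℝ) ≤ m := by exact_mod_cast hm2
    have hmpos : (0 : ℝ) < m := by linarith
    have hpi := Real.pi_pos
    have h1 := hloc (Complex.exp (((Real.pi / (2 * m) : ℝ) : ℂ) * Complex.I)) (by
      rw [Complex.exp_ofReal_mul_I_im]
      apply Real.sin_pos_of_pos_of_lt_pi (by positivity)
      rw [div_lt_iff₀ (by positivity)]
      nlinarith)
    have h2 := hloc (Complex.exp (((3 * Real.pi / (2 * m) : ℝ) : ℂ) * Complex.I)) (by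
      rw [Complex.exp_ofReal_mul_I_im]
      apply Real.sin_pos_of_pos_of_lt_pi (by positivity)
      rw [div_lt_iff₀ (by positivity)]
      nlinarith)
    rw [conj_pow_im] at h1 h2
    have e1 : (m : ℝ) * (Real.pi / (2 * m)) = Real.pi / 2 := by
      field_simp
    have e2 : (m : ℝ) * (3 * Real.pi / (2 * m)) = Real.pi / 2 + Real.pi := by
      field_simp
      ring
    rw [e1, Real.sin_pi_div_two] at h1
    rw [e2, Real.sin_add_pi, Real.sin_pi_div_two] at h2
    have h3 : r * w.eval r * g.eval r = 0 := by linarith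
    have h4 : r * w.eval r * g.eval r ≠ 0 := mul_ne_zero (mul_ne_zero hr0.ne hw) hgr
    exact h4 h3
  rw [hm2, pow_one] at hg
  have hd : f.derivative.eval r = g.eval r := by
    rw [hg, derivative_mul]
    simp
  rw [hd]
  refine ⟨hgr, ?_⟩
  have h1 := hloc Complex.I (by simp)
  rw [hm2, pow_one, Complex.conj_I] at h1
  simp at h1
  have h2 : 0 ≤ (-r) * (w.eval r * g.eval r) := by nlinarith
  exact nonneg_of_mul_nonneg_right h2 (by linarith)

open ComplexConjugate in
theorem real_root {f : ℝ[X]} (hd : 0 < f.natDegree)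
    (h : ∀ z : ℂ, 0 < z.im → aeval z f ≠ 0) : ∃ r : ℝ, f.eval r = 0 := by
  obtain ⟨z, hz⟩ := IsAlgClosed.exists_aeval_eq_zero (k := ℂ) f (by
    intro h0
    have := natDegree_eq_zero_iff_degree_le_zero.2 h0.le
    omega)
  have h1 : ¬ 0 < z.im := fun hi => h z hi hz
  have h2 : ¬ 0 < (conj z).im := by
    intro hi
    apply h (conj z) hi
    rw [Polynomial.aeval_conj, hz, map_zero]
  rw [Complex.conj_im] at h2
  have h3 : z.im = 0 := by linarith
  refine ⟨z.re, ?_⟩
  have hzr : z = ((z.re : ℝ) : ℂ) := by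
    apply Complex.ext
    · simp
    · simpa using h3
  rw [hzr] at hz
  have h4 := Polynomial.aeval_algebraMap_apply ℂ z.re f
  have h5 : ((f.eval z.re : ℝ) : ℂ) = 0 := by
    rw [← hz]
    simpa using h4.symm
  exact_mod_cast h5

/-- The case of simple roots without common roots, by division. -/
theorem conc_simple : ∀ (n : ℕ) (f w : ℝ[X]), f.natDegree = n →
    (∀ x : ℝ, 0 ≤ x → 0 < f.eval x) → w.degree < f.degree →
    (∀ z : ℂ, 0 < z.im → aeval z f ≠ 0) →
    (∀ r : ℝ, f.eval r = 0 → f.derivative.eval r ≠ 0 ∧ 0 ≤ w.eval r * f.derivative.eval r) →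
    Conc f w := by
  intro n
  induction n with
  | zero =>
    intro f w hn hpos hdeg _ _
    obtain ⟨a, ha⟩ := natDegree_eq_zero.1 hn
    have ha0 : a ≠ 0 := by
      rintro rfl
      have := hpos 0 le_rfl
      rw [← ha] at this
      simp at this
    have hw : w = 0 := by
      rw [← ha, degree_C ha0] at hdeg
      exact degree_eq_bot.1 (Nat.WithBot.lt_zero_iff.1 hdeg)
    refine ⟨0, Fin.elim0, Fin.elim0, fun i => i.elim0, fun i => i.elim0, ?_, ?_⟩
    · simp [← ha]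
    · simp [hw]
  | succ n ih =>
    intro f w hn hpos hdeg hup hloc
    obtain ⟨r, hr⟩ := real_root (by omega) hup
    have hr0 := root_neg hpos hr
    have hf0 : f ≠ 0 := by
      rintro rfl
      simp at hn
    obtain ⟨f₁, hf₁, hd₁⟩ := div_root hr0 hr hf0
    set ρ : ℝ := -r⁻¹ with hρ
    have hρ0 : 0 < ρ := by
      rw [hρ]
      have := inv_lt_zero.2 hr0
      linarith
    have hρr : 1 + ρ * r = 0 := by
      rw [hρ]
      have := inv_mul_cancel₀ hr0.ne
      linarith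
    have hf10 : f₁ ≠ 0 := by
      rintro rfl
      exact hf0 (by rw [hf₁]; simp)
    have hev : ∀ x : ℝ, f.eval x = (1 + ρ * x) * f₁.eval x := by
      intro x
      rw [hf₁]
      simp
    have hdev : f.derivative = C ρ * f₁ + (1 + C ρ * X) * f₁.derivative := by
      rw [hf₁, derivative_mul]
      simp
    obtain ⟨hl1, hl2⟩ := hloc r hr
    have hdr : f.derivative.eval r = ρ * f₁.eval r := by
      rw [hdev]
      simp [hρr]
    rw [hdr] at hl1 hl2
    have hfr : f₁.eval r ≠ 0 := right_ne_zero_of_mul hl1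
    set κ : ℝ := w.eval r / (ρ * f₁.eval r) with hκ
    have hκ0 : 0 ≤ κ := by
      have : κ = (w.eval r * (ρ * f₁.eval r)) / (ρ * f₁.eval r) ^ 2 := by
        rw [hκ]
        field_simp
      rw [this]
      positivity
    have hwr : (w - C (κ * ρ) * f₁).eval r = 0 := by
      simp only [eval_sub, eval_mul, eval_C]
      rw [hκ]
      field_simp
      ring
    obtain ⟨w₁, hw₁⟩ := lin_dvd hr0 hwr
    rw [← hρ] at hw₁
    have hw : w = (1 + C ρ * X) * w₁ + C (κ * ρ) * f₁ := by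
      rw [← hw₁]
      ring
    have hdeg₁ : w₁.degree < f₁.degree := by
      have hA : (w - C (κ * ρ) * f₁).degree ≤ f₁.degree := by
        apply (degree_sub_le _ _).trans
        apply max_le
        · by_cases hw0 : w = 0
          · rw [hw0, degree_zero]
            exact bot_le
          · rw [degree_eq_natDegree hw0, degree_eq_natDegree hf10]
            have := natDegree_lt_natDegree hw0 hdeg
            exact_mod_cast (by omega : w.natDegree ≤ f₁.natDegree)
        · rw [← smul_eq_C_mul]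
          exact degree_smul_le _ _
      have hB : f₁.degree < f.degree := by
        rw [degree_eq_natDegree hf0, degree_eq_natDegree hf10]
        exact_mod_cast (by omega : f₁.natDegree < f.natDegree)
      apply deg_aux (A := 1 + C ρ * X)
      rw [← hf₁, ← hw₁]
      exact lt_of_le_of_lt hA hB
    have hIH := ih f₁ w₁ (by omega) (by
        intro x hx
        have h1 := hpos x hx
        rw [hev] at h1
        have h2 : 0 < 1 + ρ * x := by positivity
        exact (pos_iff_pos_of_mul_pos h1).1 h2) hdeg₁ (by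
        intro z hz h0
        apply hup z hz
        rw [hf₁, map_mul, h0, mul_zero]) (by
        intro r' hr'
        have h1 : f.eval r' = 0 := by rw [hev, hr', mul_zero]
        obtain ⟨h2, h3⟩ := hloc r' h1
        have h4 : f.derivative.eval r' = (1 + ρ * r') * f₁.derivative.eval r' := by
          rw [hdev]
          simp [hr']
        have h5 : w.eval r' = (1 + ρ * r') * w₁.eval r' := by
          rw [hw]
          simp [hr']
        rw [h4] at h2
        rw [h4, h5] at h3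
        have h6 : (1 + ρ * r') ≠ 0 := left_ne_zero_of_mul h2
        refine ⟨right_ne_zero_of_mul h2, ?_⟩
        have h7 : 0 ≤ (1 + ρ * r') ^ 2 * (w₁.eval r' * f₁.derivative.eval r') := by
          calc (0 : ℝ) ≤ _ := h3
            _ = _ := by ring
        exact nonneg_of_mul_nonneg_right h7 (by positivity))
    have := conc_cons hρ0.le hκ0 hIH
    rw [← hf₁, ← hw] at this
    exact this

/-- General case: common real roots are divided out first. -/
theorem conc_main : ∀ (n : ℕ) (f w : ℝ[X]), f.natDegree = n →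
    (∀ x : ℝ, 0 ≤ x → 0 < f.eval x) → w.degree < f.degree →
    (∀ z : ℂ, 0 < z.im → aeval z f ≠ 0) →
    (∀ z : ℂ, 0 < z.im → ∀ e : ℂ, 0 < e.im →
      (1 + e) * aeval z f - e * z * aeval z w ≠ 0) → Conc f w := by
  intro n
  induction n with
  | zero =>
    intro f w hn hpos hdeg hup _
    apply conc_simple 0 f w hn hpos hdeg hup
    intro r hr
    exfalso
    obtain ⟨a, ha⟩ := natDegree_eq_zero.1 hn
    have h1 := hpos 0 le_rfl
    rw [← ha] at hr h1
    simp at hr h1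
    linarith
  | succ n ih =>
    intro f w hn hpos hdeg hup hst
    have hf0 : f ≠ 0 := by
      rintro rfl
      simp at hn
    by_cases hc : ∃ r : ℝ, f.eval r = 0 ∧ w.eval r = 0
    · obtain ⟨r, hr, hwr⟩ := hc
      have hr0 := root_neg hpos hr
      obtain ⟨f₁, hf₁, hd₁⟩ := div_root hr0 hr hf0
      obtain ⟨w₁, hw₁⟩ := lin_dvd hr0 hwr
      set ρ : ℝ := -r⁻¹ with hρ
      have hρ0 : 0 < ρ := by
        rw [hρ]
        have := inv_lt_zero.2 hr0
        linarith
      have hIH := ih f₁ w₁ (by omega) (by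
        intro x hx
        have h1 := hpos x hx
        rw [hf₁] at h1
        simp only [eval_mul, eval_add, eval_one, eval_C, eval_X] at h1
        have h2 : 0 < 1 + ρ * x := by positivity
        exact (pos_iff_pos_of_mul_pos h1).1 h2) (by
        apply deg_aux (A := 1 + C ρ * X)
        rw [← hf₁, ← hw₁]
        exact hdeg) (by
        intro z hz h0
        apply hup z hz
        rw [hf₁, map_mul, h0, mul_zero]) (by
        intro z hz e he h0
        apply hst z hz e he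
        rw [hf₁, hw₁, map_mul, map_mul]
        calc _ = aeval z (1 + C ρ * X) * ((1 + e) * aeval z f₁ - e * z * aeval z w₁) := by ring
          _ = 0 := by rw [h0, mul_zero])
      have := conc_cons hρ0.le le_rfl hIH
      rw [zero_mul, C_0, zero_mul, add_zero, ← hf₁, ← hw₁] at this
      exact this
    · push Not at hc
      apply conc_simple (n + 1) f w hn hpos hdeg hup
      intro r hr
      exact simple_root hf0 hr (root_neg hpos hr) (hc r hr)
        (fun z hz => pick (hup z hz) (hst z hz))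

/-- ROW B. -/
theorem roots_kap {f w : ℝ[X]} (hf0 : 0 < f.eval 0) (hcoef : ∀ k, 0 ≤ f.coeff k)
    (hdeg : w.degree < f.degree) (hup : ∀ z : ℂ, 0 < z.im → aeval z f ≠ 0)
    (hst : ∀ z : ℂ, 0 < z.im → ∀ e : ℂ, 0 < e.im →
      (1 + e) * aeval z f - e * z * aeval z w ≠ 0) :
    ∃ (n : ℕ) (ρ κ : Fin n → ℝ), (∀ i, 0 ≤ ρ i) ∧ (∀ i, 0 ≤ κ i) ∧
      f = C (f.eval 0) * ∏ i, (1 + C (ρ i) * X) ∧
      w = ∑ i, C (f.eval 0 * κ i * ρ i) * ∏ j ∈ univ.erase i, (1 + C (ρ j) * X) := by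
  apply conc_main f.natDegree f w rfl _ hdeg hup hst
  intro x hx
  rw [eval_eq_sum_range]
  have h0 : f.eval 0 = f.coeff 0 := by
    rw [← coeff_zero_eq_eval_zero]
  rw [h0] at hf0
  rw [Finset.sum_range_succ']
  have : 0 ≤ ∑ k ∈ Finset.range f.natDegree, f.coeff (k + 1) * x ^ (k + 1) :=
    Finset.sum_nonneg (fun k _ => mul_nonneg (hcoef _) (pow_nonneg hx _))
  simpa using add_pos_of_nonneg_of_pos this hf0

end Pool.Agent.TW
end

section

open Polynomial Finset

namespace Pool.Agent.Lib.MP_d90615_co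

theorem pf_erase {n : ℕ} {ρ : Fin n → ℝ} (hρ : ∀ i, 0 ≤ ρ i) (i : Fin n) :
    ∏ j ∈ univ.erase i, (1 + ρ j) = (∏ j, (1 + ρ j)) / (1 + ρ i) := by
  have h1 : (1 + ρ i) ≠ 0 := by have := hρ i; positivity
  rw [eq_div_iff h1]
  exact Finset.prod_erase_mul univ _ (mem_univ i)

theorem pf_erase2 {n : ℕ} {ρ : Fin n → ℝ} (hρ : ∀ i, 0 ≤ ρ i) {i j : Fin n}
    (hj : j ∈ univ.erase i) :
    ∏ k ∈ (univ.erase i).erase j, (1 + ρ k) =
      (∏ k, (1 + ρ k)) / (1 + ρ i) / (1 + ρ j) := by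
  have h1 : (1 + ρ j) ≠ 0 := by have := hρ j; positivity
  rw [eq_div_iff h1, ← pf_erase hρ i]
  exact Finset.prod_erase_mul _ _ hj

theorem pf_core {n : ℕ} (ρ κ : Fin n → ℝ) (hρ : ∀ i, 0 ≤ ρ i) (hκ : ∀ i, 0 ≤ κ i)
    (t : Fin n → ℝ) (ht : ∀ i, t i = ρ i / (1 + ρ i)) {g β B : ℝ}
    (hg : g = ∑ i, ρ i * t i) (hβ : β = ∑ i, κ i * t i) (hB : B = ∑ i, κ i * t i ^ 2) :
    0 ≤ g ∧ 0 ≤ β ∧ 0 ≤ B ∧ B ≤ β ∧ B ^ 2 ≤ g * β * (β - B) := by
  have h1 : ∀ i, 0 < 1 + ρ i := fun i => by have := hρ i; positivity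
  have ht0 : ∀ i, 0 ≤ t i := fun i => by
    rw [ht]
    exact div_nonneg (hρ i) (h1 i).le
  have ht1 : ∀ i, t i ≤ 1 := fun i => by
    rw [ht, div_le_one (h1 i)]
    linarith
  have htt : ∀ i, t i ^ 2 = ρ i * t i * (1 - t i) := fun i => by
    rw [ht]
    have := (h1 i).ne'
    field_simp
    ring
  have hgi : ∀ i, ρ i * t i ≤ g := fun i => by
    rw [hg]
    exact Finset.single_le_sum (f := fun i => ρ i * t i)
      (fun j _ => mul_nonneg (hρ j) (ht0 j)) (mem_univ i)
  have hg0 : 0 ≤ g := by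
    rw [hg]
    exact Finset.sum_nonneg (fun i _ => mul_nonneg (hρ i) (ht0 i))
  have hβ0 : 0 ≤ β := by
    rw [hβ]
    exact Finset.sum_nonneg (fun i _ => mul_nonneg (hκ i) (ht0 i))
  have hB0 : 0 ≤ B := by
    rw [hB]
    exact Finset.sum_nonneg (fun i _ => mul_nonneg (hκ i) (sq_nonneg _))
  have hBβ : B ≤ β := by
    rw [hB, hβ]
    apply Finset.sum_le_sum
    intro i _
    apply mul_le_mul_of_nonneg_left _ (hκ i)
    have := ht0 i
    have := ht1 i
    nlinarith
  refine ⟨hg0, hβ0, hB0, hBβ, ?_⟩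
  have hCS : B ^ 2 ≤ (∑ i, κ i * t i) * (∑ i, κ i * t i ^ 3) := by
    rw [hB]
    apply Finset.sum_sq_le_sum_mul_sum_of_sq_le_mul
    · intro i _
      exact mul_nonneg (hκ i) (ht0 i)
    · intro i _
      exact mul_nonneg (hκ i) (pow_nonneg (ht0 i) 3)
    · intro i _
      apply le_of_eq
      ring
  have h3 : ∑ i, κ i * t i ^ 3 ≤ g * (β - B) := by
    have : g * (β - B) = ∑ i, g * (κ i * t i * (1 - t i)) := by
      rw [hβ, hB, ← Finset.sum_sub_distrib, Finset.mul_sum]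
      apply Finset.sum_congr rfl
      intro i _
      ring
    rw [this]
    apply Finset.sum_le_sum
    intro i _
    have h4 : κ i * t i ^ 3 = (ρ i * t i) * (κ i * t i * (1 - t i)) := by
      have : κ i * t i ^ 3 = κ i * t i * t i ^ 2 := by ring
      rw [this, htt i]
      ring
    rw [h4]
    apply mul_le_mul_of_nonneg_right (hgi i)
    have := ht1 i
    exact mul_nonneg (mul_nonneg (hκ i) (ht0 i)) (by linarith)
  calc B ^ 2 ≤ (∑ i, κ i * t i) * (∑ i, κ i * t i ^ 3) := hCS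
    _ ≤ β * (g * (β - B)) := by
        rw [← hβ]
        exact mul_le_mul_of_nonneg_left h3 hβ0
    _ = g * β * (β - B) := by ring

/-- ROW P. -/
theorem pf_row {f w : ℝ[X]} (hf0 : 0 < f.eval 0) (hcoef : ∀ k, 0 ≤ f.coeff k)
    (hdeg : w.degree < f.degree) (hup : ∀ z : ℂ, 0 < z.im → aeval z f ≠ 0)
    (hst : ∀ z : ℂ, 0 < z.im → ∀ e : ℂ, 0 < e.im →
      (1 + e) * aeval z f - e * z * aeval z w ≠ 0)
    {F1 g β B : ℝ} (hF1 : F1 = f.derivative.eval 1 / f.eval 1)
    (hg : g = f.derivative.eval 0 / f.eval 0 - F1)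
    (hβ : β = w.eval 1 / f.eval 1)
    (hB : B = F1 * β - w.derivative.eval 1 / f.eval 1) :
    0 ≤ g ∧ 0 ≤ β ∧ 0 ≤ B ∧ B ≤ β ∧ B ^ 2 ≤ g * β * (β - B) := by
  obtain ⟨n, ρ, κ, hρ, hκ, hf, hw⟩ :=
    Pool.Agent.TW.roots_kap hf0 hcoef hdeg hup hst
  set a : ℝ := f.eval 0 with ha
  set Q : ℝ := ∏ j, (1 + ρ j) with hQ
  have h1 : ∀ i, 0 < 1 + ρ i := fun i => by have := hρ i; positivity
  have hQ0 : 0 < Q := Finset.prod_pos (fun i _ => h1 i)
  have hf1 : f.eval 1 = a * Q := by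
    rw [hf, eval_mul, eval_C, eval_prod, hQ]
    congr 1
    apply Finset.prod_congr rfl
    intro i _
    simp
  have hdf : f.derivative = C a * ∑ i, (∏ j ∈ univ.erase i, (1 + C (ρ j) * X)) * C (ρ i) := by
    conv_lhs => rw [hf]
    rw [derivative_C_mul, derivative_prod_finset]
    congr 1
    apply Finset.sum_congr rfl
    intro i _
    congr 1
    simp
  have hf1' : f.derivative.eval 1 = a * Q * ∑ i, ρ i / (1 + ρ i) := by
    rw [hdf, eval_mul, eval_C, eval_finsetSum, mul_assoc]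
    congr 1
    rw [Finset.mul_sum]
    apply Finset.sum_congr rfl
    intro i _
    rw [eval_mul, eval_prod, eval_C]
    have : ∏ j ∈ univ.erase i, eval 1 (1 + C (ρ j) * X) = ∏ j ∈ univ.erase i, (1 + ρ j) := by
      apply Finset.prod_congr rfl
      intro j _
      simp
    rw [this, pf_erase hρ i]
    ring
  have hf0' : f.derivative.eval 0 = a * ∑ i, ρ i := by
    rw [hdf, eval_mul, eval_C, eval_finsetSum]
    congr 1
    apply Finset.sum_congr rfl
    intro i _
    rw [eval_mul, eval_prod, eval_C]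
    have : ∏ j ∈ univ.erase i, eval 0 (1 + C (ρ j) * X) = 1 := by
      apply Finset.prod_eq_one
      intro j _
      simp
    rw [this, one_mul]
  have hw1 : w.eval 1 = a * Q * ∑ i, κ i * (ρ i / (1 + ρ i)) := by
    rw [hw, eval_finsetSum, Finset.mul_sum]
    apply Finset.sum_congr rfl
    intro i _
    rw [eval_mul, eval_prod, eval_C]
    have : ∏ j ∈ univ.erase i, eval 1 (1 + C (ρ j) * X) = ∏ j ∈ univ.erase i, (1 + ρ j) := by
      apply Finset.prod_congr rfl
      intro j _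
      simp
    rw [this, pf_erase hρ i]
    ring
  have hw1' : w.derivative.eval 1 = a * Q * ∑ i, κ i * (ρ i / (1 + ρ i)) *
      (∑ j ∈ univ.erase i, ρ j / (1 + ρ j)) := by
    rw [hw, derivative_sum, eval_finsetSum, Finset.mul_sum]
    apply Finset.sum_congr rfl
    intro i _
    rw [derivative_C_mul, derivative_prod_finset, eval_mul, eval_C, eval_finsetSum]
    have : ∀ j ∈ univ.erase i, eval 1 ((∏ k ∈ (univ.erase i).erase j, (1 + C (ρ k) * X)) *
        derivative (1 + C (ρ j) * X)) = Q / (1 + ρ i) * (ρ j / (1 + ρ j)) := by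
      intro j hj
      rw [eval_mul, eval_prod]
      have h2 : ∏ k ∈ (univ.erase i).erase j, eval 1 (1 + C (ρ k) * X) =
          ∏ k ∈ (univ.erase i).erase j, (1 + ρ k) := by
        apply Finset.prod_congr rfl
        intro k _
        simp
      rw [h2, pf_erase2 hρ hj]
      simp
      ring
    rw [Finset.sum_congr rfl this, ← Finset.mul_sum]
    ring
  have haQ : a * Q ≠ 0 := (mul_pos hf0 hQ0).ne'
  have hF1' : F1 = ∑ i, ρ i / (1 + ρ i) := by
    rw [hF1, hf1', hf1, mul_div_cancel_left₀ _ haQ]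
  have hβ' : β = ∑ i, κ i * (ρ i / (1 + ρ i)) := by
    rw [hβ, hw1, hf1, mul_div_cancel_left₀ _ haQ]
  apply pf_core ρ κ hρ hκ (fun i => ρ i / (1 + ρ i)) (fun i => rfl) _ hβ'
  · rw [hB, hw1', hf1, mul_div_cancel_left₀ _ haQ, hF1', hβ', Finset.mul_sum,
      ← Finset.sum_sub_distrib]
    apply Finset.sum_congr rfl
    intro i _
    rw [Finset.sum_erase_eq_sub (mem_univ i)]
    ring
  · rw [hg, hf0', mul_div_cancel_left₀ _ hf0.ne', hF1', ← Finset.sum_sub_distrib]
    apply Finset.sum_congr rfl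
    intro i _
    have := (h1 i).ne'
    field_simp
    ring

end Pool.Agent.Lib.MP_d90615_co
end

section

/-!
# The termwise comparison (row A)
-/

namespace Pool.Agent.Lib.MP_d90615_co.MJ

/-- one step of log-submodularity: `n₀ n₁₃ ≤ n₁ n₃`, `n₁ n₁₂₃ ≤ n₁₂ n₁₃` give
`n₀ n₁₂₃ ≤ n₃ n₁₂`. -/
theorem sub_chain {a b c d e f : ℝ} (_ha : 0 < a) (hb : 0 < b) (hc : 0 < c) (he : 0 < e)
    (hf : 0 < f) (h1 : a * e ≤ b * c) (h2 : b * f ≤ d * e) : a * f ≤ c * d := by
  have h := mul_le_mul h1 h2 (mul_pos hb hf).le (mul_pos hb hc).le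
  have h' : (a * f) * (b * e) ≤ (c * d) * (b * e) := by nlinarith
  exact le_of_mul_le_mul_right h' (mul_pos hb he)

theorem alg_core {U n0 n1 n2 n3 n4 n12 n13 n14 n23 n24 n34 n123 n124 n134 n234 n1234
    r0 r1 r2 r3 r4 r123 r124 r134 r234 r1234 : ℝ}
    (_h0 : 0 < n0) (h1 : 0 < n1) (h2 : 0 < n2) (h3 : 0 < n3) (h4 : 0 < n4)
    (h12 : 0 < n12) (h13 : 0 < n13) (h14 : 0 < n14) (h23 : 0 < n23) (h24 : 0 < n24)
    (h34 : 0 < n34) (h123 : 0 < n123) (h124 : 0 < n124) (h134 : 0 < n134)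
    (h234 : 0 < n234) (h1234 : 0 < n1234) (hr0 : 0 < r0)
    (hU : U ≤ n0 * r0 ^ 2)
    (g1 : r0 ≤ r1) (g2 : r0 ≤ r2) (g3 : r0 ≤ r3) (g4 : r0 ≤ r4)
    (g123 : r0 ≤ r123) (g124 : r0 ≤ r124) (g134 : r0 ≤ r134) (g234 : r0 ≤ r234)
    (g1234 : r0 ≤ r1234)
    (k13 : n0 * n13 ≤ n1 * n3) (k14 : n0 * n14 ≤ n1 * n4)
    (k23 : n0 * n23 ≤ n2 * n3) (k24 : n0 * n24 ≤ n2 * n4)
    (k123 : n0 * n123 ≤ n3 * n12) (k124 : n0 * n124 ≤ n4 * n12)
    (k134 : n0 * n134 ≤ n1 * n34) (k234 : n0 * n234 ≤ n2 * n34)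
    (k1234 : n0 * n1234 ≤ n12 * n34) :
    U * (U + (n1 * r1 + n2 * r2 + n3 * r3 + n4 * r4 + (n12 + n13 + n14 + n23 + n24 + n34)
      + (n123 / r123 + n124 / r124 + n134 / r134 + n234 / r234) + n1234 / r1234 ^ 2))
      ≤ (U + n3 * r3 + n4 * r4 + n34) * (U + n1 * r1 + n2 * r2 + n12) := by
  have two : ∀ {na nb nab ra rb : ℝ}, 0 < na → 0 < nb → 0 < nab → r0 ≤ ra → r0 ≤ rb →
      n0 * nab ≤ na * nb → U * nab ≤ (na * ra) * (nb * rb) := by
    intro na nb nab ra rb ha hb hab gra grb hk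
    calc U * nab ≤ n0 * r0 ^ 2 * nab := mul_le_mul_of_nonneg_right hU hab.le
      _ = (n0 * nab) * r0 ^ 2 := by ring
      _ ≤ (na * nb) * r0 ^ 2 := mul_le_mul_of_nonneg_right hk (sq_nonneg _)
      _ = (na * nb) * (r0 * r0) := by ring
      _ ≤ (na * nb) * (ra * rb) :=
        mul_le_mul_of_nonneg_left (mul_le_mul gra grb hr0.le (hr0.le.trans gra))
          (mul_pos ha hb).le
      _ = _ := by ring
  have three : ∀ {na nb nab ra rab : ℝ}, 0 < na → 0 < nb → 0 < nab → r0 ≤ ra → r0 ≤ rab →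
      n0 * nab ≤ na * nb → U * (nab / rab) ≤ (na * ra) * nb := by
    intro na nb nab ra rab ha hb hab gra grab hk
    have hrab : 0 < rab := lt_of_lt_of_le hr0 grab
    have hra : 0 < ra := lt_of_lt_of_le hr0 gra
    rw [← mul_div_assoc, div_le_iff₀ hrab]
    calc U * nab ≤ n0 * r0 ^ 2 * nab := mul_le_mul_of_nonneg_right hU hab.le
      _ = (n0 * nab) * r0 ^ 2 := by ring
      _ ≤ (na * nb) * r0 ^ 2 := mul_le_mul_of_nonneg_right hk (sq_nonneg _)
      _ = (na * nb) * (r0 * r0) := by ring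
      _ ≤ (na * nb) * (ra * rab) :=
        mul_le_mul_of_nonneg_left (mul_le_mul gra grab hr0.le (hr0.le.trans gra))
          (mul_pos ha hb).le
      _ = _ := by ring
  have four : U * (n1234 / r1234 ^ 2) ≤ n12 * n34 := by
    have hr : 0 < r1234 := lt_of_lt_of_le hr0 g1234
    rw [← mul_div_assoc, div_le_iff₀ (by positivity)]
    calc U * n1234 ≤ n0 * r0 ^ 2 * n1234 := mul_le_mul_of_nonneg_right hU h1234.le
      _ = (n0 * n1234) * r0 ^ 2 := by ring
      _ ≤ (n12 * n34) * r0 ^ 2 := mul_le_mul_of_nonneg_right k1234 (sq_nonneg _)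
      _ ≤ (n12 * n34) * r1234 ^ 2 :=
        mul_le_mul_of_nonneg_left (pow_le_pow_left₀ hr0.le g1234 2) (mul_pos h12 h34).le
  have a13 := two h1 h3 h13 g1 g3 k13
  have a14 := two h1 h4 h14 g1 g4 k14
  have a23 := two h2 h3 h23 g2 g3 k23
  have a24 := two h2 h4 h24 g2 g4 k24
  have a123 := three h3 h12 h123 g3 g123 k123
  have a124 := three h4 h12 h124 g4 g124 k124
  have a134 := three h1 h34 h134 g1 g134 k134
  have a234 := three h2 h34 h234 g2 g234 k234
  nlinarith [a13, a14, a23, a24, a123, a124, a134, a234, four]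

/-- **Row A.** -/
theorem alg (n ρ : Finset (Fin 4) → ℝ) (U : ℝ) (hn : ∀ T, 0 < n T) (hρ : ∀ T, 0 < ρ T)
    (hU : U ≤ n ∅ * ρ ∅ ^ 2) (h3 : ∀ T i, i ∉ T → ρ T ≤ ρ (insert i T))
    (h4 : ∀ T i j, i ∉ T → j ∉ T → i ≠ j →
      n T * n (insert i (insert j T)) ≤ n (insert i T) * n (insert j T)) :
    U * (U + ((n {0} * ρ {0} + n {1} * ρ {1} + n {2} * ρ {2} + n {3} * ρ {3})
      + (n {0, 1} + n {0, 2} + n {0, 3} + n {1, 2} + n {1, 3} + n {2, 3})
      + (n {0, 1, 2} / ρ {0, 1, 2} + n {0, 1, 3} / ρ {0, 1, 3} + n {0, 2, 3} / ρ {0, 2, 3}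
        + n {1, 2, 3} / ρ {1, 2, 3})
      + n {0, 1, 2, 3} / ρ {0, 1, 2, 3} ^ 2))
      ≤ (U + n {2} * ρ {2} + n {3} * ρ {3} + n {2, 3})
        * (U + n {0} * ρ {0} + n {1} * ρ {1} + n {0, 1}) := by
  -- one-element sets
  have e1 : ∀ i : Fin 4, ρ ∅ ≤ ρ {i} := fun i => h3 ∅ i (by simp)
  -- two-element sets
  have e2 : ∀ i j : Fin 4, i ≠ j → ρ ∅ ≤ ρ {i, j} := fun i j h =>
    (e1 j).trans (h3 {j} i (by simpa using h))
  have e3 : ∀ i j k : Fin 4, i ≠ j → i ≠ k → j ≠ k → ρ ∅ ≤ ρ {i, j, k} :=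
    fun i j k h h' h'' => (e2 j k h'').trans (h3 {j, k} i (by simp [h, h']))
  have e4 : ρ ∅ ≤ ρ {0, 1, 2, 3} :=
    (e3 1 2 3 (by decide) (by decide) (by decide)).trans (h3 {1, 2, 3} 0 (by decide))
  have p2 : ∀ i j : Fin 4, i ≠ j → n ∅ * n {i, j} ≤ n {i} * n {j} := fun i j h =>
    h4 ∅ i j (by simp) (by simp) h
  -- `n₀ n_{ijk} ≤ n_k n_{ij}`
  have p3 : ∀ i j k : Fin 4, i ≠ j → i ≠ k → j ≠ k →
      n ∅ * n {i, j, k} ≤ n {k} * n {i, j} := by
    intro i j k hij hik hjk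
    have a1 : n ∅ * n {j, k} ≤ n {j} * n {k} := p2 j k hjk
    have a2 : n {j} * n {i, k, j} ≤ n {i, j} * n {k, j} :=
      h4 {j} i k (by simpa using hij) (by simpa using hjk.symm) hik
    have s1 : ({i, k, j} : Finset (Fin 4)) = {i, j, k} := by
      ext x; simp only [Finset.mem_insert, Finset.mem_singleton]; tauto
    have s2 : ({k, j} : Finset (Fin 4)) = {j, k} := by
      ext x; simp only [Finset.mem_insert, Finset.mem_singleton]; tauto
    rw [s1, s2] at a2
    exact sub_chain (hn _) (hn _) (hn _) (hn _) (hn _) a1 a2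
  -- `n₁ n₁₂₃₄ ≤ n₁₂ n₁₃₄`, and the four-set
  have p4 : n ∅ * n {0, 1, 2, 3} ≤ n {0, 1} * n {2, 3} := by
    -- n {0} n {0,1,2} ≤ n {0,1} n {0,2}; n {0,2} n {0,1,2,3} ≤ n {0,1,2} n {0,2,3}
    have a1 : n {0} * n {1, 2, 0} ≤ n {1, 0} * n {2, 0} :=
      h4 {0} 1 2 (by decide) (by decide) (by decide)
    have a2 : n {2, 0} * n {1, 3, 2, 0} ≤ n {1, 2, 0} * n {3, 2, 0} :=
      h4 {2, 0} 1 3 (by decide) (by decide) (by decide)
    have s1 : ({1, 3, 2, 0} : Finset (Fin 4)) = {0, 1, 2, 3} := by decide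
    have s2 : ({3, 2, 0} : Finset (Fin 4)) = {0, 2, 3} := by decide
    have s3 : ({1, 0} : Finset (Fin 4)) = {0, 1} := by decide
    rw [s1, s2] at a2
    rw [s3] at a1
    have a3 : n {0} * n {0, 1, 2, 3} ≤ n {0, 1} * n {0, 2, 3} := by
      have := sub_chain (a := n {0}) (b := n {2, 0}) (c := n {0, 1}) (d := n {0, 2, 3})
        (e := n {1, 2, 0}) (f := n {0, 1, 2, 3}) (hn _) (hn _) (hn _) (hn _) (hn _)
        (by rw [mul_comm (n {2, 0})]; exact a1) (by rw [mul_comm (n {0, 2, 3})]; exact a2)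
      exact this
    have a4 : n ∅ * n {2, 3, 0} ≤ n {0} * n {2, 3} :=
      p3 2 3 0 (by decide) (by decide) (by decide)
    have s4 : ({2, 3, 0} : Finset (Fin 4)) = {0, 2, 3} := by decide
    rw [s4] at a4
    have := sub_chain (a := n ∅) (b := n {0}) (c := n {2, 3}) (d := n {0, 1})
        (e := n {0, 2, 3}) (f := n {0, 1, 2, 3}) (hn _) (hn _) (hn _) (hn _) (hn _)
        a4 a3
    rw [mul_comm (n {0, 1})]
    exact this
  have k123 : n ∅ * n {0, 1, 2} ≤ n {2} * n {0, 1} := p3 0 1 2 (by decide) (by decide) (by decide)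
  have k124 : n ∅ * n {0, 1, 3} ≤ n {3} * n {0, 1} := p3 0 1 3 (by decide) (by decide) (by decide)
  have k134 : n ∅ * n {0, 2, 3} ≤ n {0} * n {2, 3} := by
    have := p3 2 3 0 (by decide) (by decide) (by decide)
    have s4 : ({2, 3, 0} : Finset (Fin 4)) = {0, 2, 3} := by decide
    rwa [s4] at this
  have k234 : n ∅ * n {1, 2, 3} ≤ n {1} * n {2, 3} := by
    have := p3 2 3 1 (by decide) (by decide) (by decide)
    have s4 : ({2, 3, 1} : Finset (Fin 4)) = {1, 2, 3} := by decide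
    rwa [s4] at this
  have := alg_core (U := U) (hn ∅) (hn {0}) (hn {1}) (hn {2}) (hn {3}) (hn {0, 1}) (hn {0, 2})
    (hn {0, 3}) (hn {1, 2}) (hn {1, 3}) (hn {2, 3}) (hn {0, 1, 2}) (hn {0, 1, 3})
    (hn {0, 2, 3}) (hn {1, 2, 3}) (hn {0, 1, 2, 3}) (hρ ∅) hU (e1 0) (e1 1) (e1 2) (e1 3)
    (e3 0 1 2 (by decide) (by decide) (by decide)) (e3 0 1 3 (by decide) (by decide) (by decide))
    (e3 0 2 3 (by decide) (by decide) (by decide)) (e3 1 2 3 (by decide) (by decide) (by decide))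
    e4 (p2 0 2 (by decide)) (p2 0 3 (by decide)) (p2 1 2 (by decide)) (p2 1 3 (by decide))
    k123 k124 k134 k234 p4
  exact this

end Pool.Agent.Lib.MP_d90615_co.MJ
end
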