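import Mathlib
import Pool.Agent.Lib.MP_d90615_co.Mg.G038
import Pool.Agent.Lib.MP_d90615_co.Mg.G001
import Pool.Agent.Lib.MP_d90615_co.Mg.G006
import Pool.Agent.Lib.MP_d90615_co.Mg.G037

section

/-!
The generating function of the edges of a random forest at a given vertex.
-/

set_option autoImplicit false
set_option linter.unusedSectionVars false

namespace Pool.Agent.Lib.MP_d90615_co

open Matrix Finset
open scoped Classical

variable {V E : Type*} [Fintype V] [Fintype E]

/-- The equivalence relation: joined in `F`. -/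
def cset (ends : E → Sym2 V) (F : Finset E) : Setoid V :=
  ⟨Conn ends F, ⟨fun i => Conn.refl ends F i, fun h => h.symm, fun h h' => h.trans h'⟩⟩

/-- The component of a vertex. -/
def cmp (ends : E → Sym2 V) (F : Finset E) (i : V) : Quotient (cset ends F) :=
  Quotient.mk (cset ends F) i

lemma cmp_eq {ends : E → Sym2 V} {F : Finset E} {i j : V} :
    cmp ends F i = cmp ends F j ↔ Conn ends F i j :=
  Quotient.eq (r := cset ends F)

lemma det_comp (ends : E → Sym2 V) (F : Finset E) (m : V → ℂ) :
    (1 + J ends F * diagonal m).det =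
      ∏ q : Quotient (cset ends F), (1 + ∑ i ∈ univ.filter (fun i => cmp ends F i = q), m i) := by
  set U : Matrix V (Quotient (cset ends F)) ℂ :=
    Matrix.of fun i q => if cmp ends F i = q then 1 else 0 with hU
  have h1 : J ends F = U * Uᵀ := by
    ext i j
    rw [Matrix.mul_apply, J_apply]
    simp only [hU, Matrix.of_apply, Matrix.transpose_apply]
    simp only [mul_ite, mul_one, mul_zero, Finset.sum_ite_eq, mem_univ, if_true]
    simp only [cmp_eq]
  have h2 : Uᵀ * diagonal m * U =
      diagonal (fun q => ∑ i ∈ univ.filter (fun i => cmp ends F i = q), m i) := by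
    ext q q'
    rw [Matrix.mul_apply, Matrix.diagonal_apply]
    simp only [Matrix.mul_diagonal, hU, Matrix.of_apply, Matrix.transpose_apply]
    split_ifs with h
    · subst h
      rw [Finset.sum_filter]
      refine Finset.sum_congr rfl fun i _ => ?_
      split_ifs <;> simp
    · refine Finset.sum_eq_zero fun i _ => ?_
      by_cases h3 : cmp ends F i = q
      · rw [if_neg (c := cmp ends F i = q') (by rw [h3]; exact h), mul_zero]
      · rw [if_neg h3, zero_mul, zero_mul]
  rw [h1, Matrix.mul_assoc, Matrix.det_one_add_mul_comm, h2]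
  have h3 : (1 : Matrix (Quotient (cset ends F)) (Quotient (cset ends F)) ℂ) = diagonal 1 := by
    rw [← Matrix.diagonal_one]
    rfl
  rw [h3, Matrix.diagonal_add, Matrix.det_diagonal]
  rfl

/-- The other end of an edge at `h`. -/
noncomputable def far (ends : E → Sym2 V) (h : V) (e : E) : V :=
  if hh : h ∈ ends e then Sym2.Mem.other hh else h

lemma ends_far {ends : E → Sym2 V} {h : V} {e : E} (hh : h ∈ ends e) :
    ends e = s(h, far ends h e) := by
  rw [far, dif_pos hh]
  exact (Sym2.other_spec hh).symm

lemma far_ne {ends : E → Sym2 V} (hloop : ∀ e, ¬ (ends e).IsDiag) {h : V} {e : E}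
    (hh : h ∈ ends e) : far ends h e ≠ h := by
  intro h1
  apply hloop e
  rw [ends_far hh, h1]
  simp

/-- `i` is joined in `F` to the other end of an edge of `B`. -/
def Hit (ends : E → Sym2 V) (h : V) (F B : Finset E) (i : V) : Prop :=
  ∃ e ∈ B, Conn ends F (far ends h e) i

lemma hit_insert {ends : E → Sym2 V} {h : V} {F B : Finset E} {e : E} {i : V} :
    Hit ends h F (insert e B) i ↔ Conn ends F (far ends h e) i ∨ Hit ends h F B i := by
  unfold Hit
  rw [Finset.exists_mem_insert]

lemma conn_union {ends : E → Sym2 V} (hloop : ∀ e, ¬ (ends e).IsDiag) {h : V} {F : Finset E}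
    (hF : ∀ e ∈ F, h ∉ ends e) (B : Finset E) (hB : ∀ e ∈ B, h ∈ ends e) :
    (∀ i, i ≠ h → (Conn ends (F ∪ B) h i ↔ Hit ends h F B i)) ∧
      (∀ k i, k ≠ h → i ≠ h → (Conn ends (F ∪ B) k i ↔
        Conn ends F k i ∨ (Hit ends h F B k ∧ Hit ends h F B i))) := by
  induction B using Finset.induction_on with
  | empty =>
    have h1 : ∀ i, ¬ Hit ends h F ∅ i := by
      rintro i ⟨e, he, _⟩
      simp at he
    refine ⟨fun i hi => ?_, fun k i hk hi => ?_⟩
    · rw [Finset.union_empty]
      refine ⟨fun h2 => ?_, fun h2 => absurd h2 (h1 i)⟩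
      exfalso
      rcases Relation.ReflTransGen.cases_head h2 with h3 | ⟨c, ⟨e, he, hec⟩, _⟩
      · exact hi h3.symm
      · exact hF e he (by rw [hec]; exact Sym2.mem_mk_left h c)
    · rw [Finset.union_empty]
      exact ⟨Or.inl, fun h2 => h2.resolve_right fun h3 => h1 k h3.1⟩
  | insert e B he ih =>
    obtain ⟨ih1, ih2⟩ := ih fun e' he' => hB e' (Finset.mem_insert_of_mem he')
    have hhe : h ∈ ends e := hB e (Finset.mem_insert_self _ _)
    have hf := far_ne hloop hhe
    have h0 : Conn ends (F ∪ B) h h := Conn.refl _ _ _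
    rw [Finset.union_insert]
    refine ⟨fun i hi => ?_, fun k i hk hi => ?_⟩
    · rw [conn_insert (ends_far hhe), hit_insert, ih1 i hi, ih2 _ i hf hi, ih1 _ hf]
      tauto
    · have hsym : Conn ends (F ∪ B) k h ↔ Hit ends h F B k := by
        rw [← ih1 k hk]
        exact ⟨Conn.symm, Conn.symm⟩
      have h3 : Conn ends F (far ends h e) k → Conn ends F (far ends h e) i →
          Conn ends F k i := fun a b => a.symm.trans b
      have h4 : Conn ends F k (far ends h e) ↔ Conn ends F (far ends h e) k :=
        ⟨Conn.symm, Conn.symm⟩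
      rw [conn_insert (ends_far hhe), hit_insert, hit_insert, ih2 k i hk hi, hsym,
        ih2 _ i hf hi, ih2 k _ hk hf, ih1 i hi, h4]
      tauto

lemma forest_union {ends : E → Sym2 V} (hloop : ∀ e, ¬ (ends e).IsDiag) {h : V} {F : Finset E}
    (hF : ∀ e ∈ F, h ∉ ends e) (B : Finset E) (hB : ∀ e ∈ B, h ∈ ends e) :
    Forest ends (F ∪ B) ↔ Forest ends F ∧
      Set.InjOn (fun e => cmp ends F (far ends h e)) (B : Set E) := by
  induction B using Finset.induction_on with
  | empty =>
    rw [Finset.union_empty]
    simp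
  | insert e B he ih =>
    have hB' : ∀ e' ∈ B, h ∈ ends e' := fun e' he' => hB e' (Finset.mem_insert_of_mem he')
    have hhe : h ∈ ends e := hB e (Finset.mem_insert_self _ _)
    have hf := far_ne hloop hhe
    have heF : e ∉ F ∪ B := by
      rw [Finset.mem_union]
      rintro (h1 | h1)
      · exact hF e h1 hhe
      · exact he h1
    rw [Finset.union_insert, forest_insert (ends_far hhe) heF, ih hB',
      (conn_union hloop hF B hB').1 _ hf, Finset.coe_insert,
      Set.injOn_insert (by simpa using he), and_assoc]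
    refine and_congr_right fun _ => and_congr_right fun _ => not_congr ?_
    rw [Set.mem_image]
    constructor
    · rintro ⟨e', he', h1⟩
      exact ⟨e', he', cmp_eq.mpr h1⟩
    · rintro ⟨e', he', h1⟩
      exact ⟨e', he', cmp_eq.mp h1⟩

/-- The edges at `h`. -/
noncomputable def St (ends : E → Sym2 V) (h : V) : Finset E :=
  univ.filter fun e => h ∈ ends e

lemma mem_St {ends : E → Sym2 V} {h : V} {e : E} : e ∈ St ends h ↔ h ∈ ends e := by
  simp [St]

/-- The total variable at the vertex `i`. -/
noncomputable def mm (ends : E → Sym2 V) (h : V) (z : E → ℂ) (i : V) : ℂ :=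
  ∑ e ∈ (St ends h).filter (fun e => far ends h e = i), z e

lemma det_star (ends : E → Sym2 V) (h : V) (F : Finset E) (z : E → ℂ) :
    (1 + J ends F * diagonal (mm ends h z)).det =
      ∑ B ∈ (St ends h).powerset.filter (fun B : Finset E =>
        Set.InjOn (fun e => cmp ends F (far ends h e)) (B : Set E)), ∏ e ∈ B, z e := by
  rw [det_comp, Finset.prod_one_add]
  have h1 := Pool.Agent.PW.fiber_sum (fun e => cmp ends F (far ends h e))
    (fun e => if e ∈ St ends h then z e else 0)
    (fun _ : Finset (Quotient (cset ends F)) => True)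
  have h2 : ∑ B ∈ (St ends h).powerset.filter (fun B : Finset E =>
        Set.InjOn (fun e => cmp ends F (far ends h e)) (B : Set E)), ∏ e ∈ B, z e =
      ∑ B ∈ (univ : Finset (Finset E)).filter (fun B : Finset E =>
        Set.InjOn (fun e => cmp ends F (far ends h e)) (B : Set E) ∧ True),
        ∏ e ∈ B, (if e ∈ St ends h then z e else 0) := by
    refine Finset.sum_subset_zero_on_sdiff ?_ ?_ ?_
    · intro B hB
      rw [mem_filter] at hB ⊢
      exact ⟨mem_univ _, hB.2, trivial⟩
    · intro B hB
      rw [mem_sdiff, mem_filter, mem_filter] at hB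
      have h3 : ¬ B ⊆ St ends h := fun h3 => hB.2 ⟨mem_powerset.mpr h3, hB.1.2.1⟩
      rw [Finset.not_subset] at h3
      obtain ⟨e, heB, heS⟩ := h3
      exact Finset.prod_eq_zero heB (if_neg heS)
    · intro B hB
      rw [mem_filter, mem_powerset] at hB
      exact Finset.prod_congr rfl fun e he => (if_pos (hB.1 he)).symm
  rw [h2]
  refine Eq.trans ?_ (Eq.trans h1.symm ?_)
  · rw [Finset.filter_true, Finset.powerset_univ]
    refine Finset.sum_congr rfl fun C _ => Finset.prod_congr rfl fun q _ => ?_
    rw [← Finset.sum_filter, Finset.filter_filter]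
    unfold mm
    rw [Finset.sum_comm' (t' := (St ends h).filter (fun e => cmp ends F (far ends h e) = q))
      (s' := fun e => {far ends h e})]
    · rw [Finset.sum_congr rfl fun e _ => Finset.sum_singleton _ _]
      refine Finset.sum_congr ?_ fun _ _ => rfl
      ext e
      simp only [mem_filter, mem_univ, true_and]
      tauto
    · intro i e
      simp only [mem_filter, mem_univ, true_and, mem_singleton]
      constructor
      · rintro ⟨h3, h4, rfl⟩
        exact ⟨rfl, h4, h3⟩
      · rintro ⟨rfl, h4, h3⟩
        exact ⟨h3, h4, rfl⟩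
  · refine Finset.sum_congr ?_ fun _ _ => rfl
    ext B
    simp only [mem_filter, mem_univ, true_and]

/-- The generating function of the edges at `h`. -/
noncomputable def gs (ends : E → Sym2 V) (w : E → ℝ) (h : V) (z : E → ℂ) : ℂ :=
  ∑ F ∈ (univ : Finset (Finset E)) with Forest ends F,
    ∏ e ∈ F, (if h ∈ ends e then z e else (w e : ℂ))

lemma gs_eq (ends : E → Sym2 V) (hloop : ∀ e, ¬ (ends e).IsDiag) (w : E → ℝ) (h : V)
    (z : E → ℂ) :
    gs ends w h z = HW ends w (univ \ St ends h) (diagonal (mm ends h z)) := by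
  unfold gs HW
  rw [Finset.sum_filter, Finset.sum_filter]
  have h1 : ∀ f : Finset E → ℂ, ∑ F ∈ (univ : Finset (Finset E)), f F =
      ∑ F ∈ (univ \ St ends h).powerset, ∑ B ∈ (St ends h).powerset, f (F ∪ B) := by
    intro f
    rw [← Finset.sum_product']
    refine Finset.sum_bij' (fun F _ => (F.filter (fun e => h ∉ ends e), F.filter (fun e => h ∈ ends e)))
      (fun p _ => p.1 ∪ p.2) ?_ ?_ ?_ ?_ ?_
    · intro F _
      rw [mem_product, mem_powerset, mem_powerset]
      constructor
      · intro e he
        rw [mem_filter] at he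
        rw [mem_sdiff, mem_St]
        exact ⟨mem_univ _, he.2⟩
      · intro e he
        rw [mem_filter] at he
        rw [mem_St]
        exact he.2
    · intro p _
      exact mem_univ _
    · intro F _
      ext e
      simp only [mem_union, mem_filter]
      tauto
    · rintro ⟨F, B⟩ hp
      rw [mem_product, mem_powerset, mem_powerset] at hp
      have hF : ∀ e ∈ F, h ∉ ends e := fun e he => by
        have := hp.1 he
        rw [mem_sdiff, mem_St] at this
        exact this.2
      have hB : ∀ e ∈ B, h ∈ ends e := fun e he => mem_St.mp (hp.2 he)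
      rw [Prod.mk.injEq]
      constructor
      · ext e
        simp only [mem_union, mem_filter]
        constructor
        · rintro ⟨h1 | h1, h2⟩
          · exact h1
          · exact absurd (hB e h1) h2
        · exact fun h1 => ⟨Or.inl h1, hF e h1⟩
      · ext e
        simp only [mem_union, mem_filter]
        constructor
        · rintro ⟨h1 | h1, h2⟩
          · exact absurd h2 (hF e h1)
          · exact h1
        · exact fun h1 => ⟨Or.inr h1, hB e h1⟩
    · intro F _
      congr 1
      ext e
      simp only [mem_union, mem_filter]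
      tauto
  rw [h1]
  refine Finset.sum_congr rfl fun F hF => ?_
  have hF' : ∀ e ∈ F, h ∉ ends e := fun e he => by
    have := mem_powerset.mp hF he
    rw [mem_sdiff, mem_St] at this
    exact this.2
  have h2 : ∏ g ∈ F, (if h ∈ ends g then z g else (w g : ℂ)) = ∏ g ∈ F, (w g : ℂ) :=
    Finset.prod_congr rfl fun g hg => if_neg (hF' g hg)
  split_ifs with h3
  · rw [det_star, Finset.mul_sum, Finset.sum_filter]
    refine Finset.sum_congr rfl fun B hB => ?_
    have hB' : ∀ e ∈ B, h ∈ ends e := fun e he => mem_St.mp (mem_powerset.mp hB he)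
    have hdisj : Disjoint F B := by
      rw [Finset.disjoint_left]
      exact fun e he he' => hF' e he (hB' e he')
    have h4 : ∏ g ∈ B, (if h ∈ ends g then z g else (w g : ℂ)) = ∏ g ∈ B, z g :=
      Finset.prod_congr rfl fun g hg => if_pos (hB' g hg)
    have h5 := forest_union hloop hF' B hB'
    by_cases h6 : Set.InjOn (fun e => cmp ends F (far ends h e)) (B : Set E)
    · rw [if_pos h6, if_pos (h5.mpr ⟨h3, h6⟩), Finset.prod_union hdisj, h2, h4]
    · rw [if_neg h6, if_neg fun h7 => h6 (h5.mp h7).2]
  · symm
    refine (Finset.sum_eq_zero fun B hB => ?_).symm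
    rw [if_neg]
    intro h4
    exact h3 (h4.subset Finset.subset_union_left)

end Pool.Agent.Lib.MP_d90615_co
end

section

/-!
Stability of the generating function of the edges of a random forest at a given vertex.
-/

set_option autoImplicit false
set_option linter.unusedSectionVars false

namespace Pool.Agent.Lib.MP_d90615_co

open Matrix Finset
open scoped Classical Topology

lemma norm_prod_le_of_roots (s : Multiset ℂ) (t : ℂ) (h : ∀ r ∈ s, ‖t‖ ≤ ‖r‖) :
    ‖(s.map (fun r => t - r)).prod‖ ≤ 2 ^ s.card * ‖(s.map (fun r => 0 - r)).prod‖ := by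
  induction s using Multiset.induction_on with
  | empty => simp
  | cons r s ih =>
    have h1 := ih fun r' hr' => h r' (Multiset.mem_cons_of_mem hr')
    have h2 := h r (Multiset.mem_cons_self r s)
    rw [Multiset.map_cons, Multiset.map_cons, Multiset.prod_cons, Multiset.prod_cons, norm_mul,
      norm_mul, Multiset.card_cons, pow_succ]
    have h3 : ‖t - r‖ ≤ 2 * ‖0 - r‖ := by
      rw [zero_sub, norm_neg]
      have := norm_sub_le t r
      linarith
    calc ‖t - r‖ * ‖(s.map (fun r => t - r)).prod‖
        ≤ (2 * ‖0 - r‖) * (2 ^ s.card * ‖(s.map (fun r => 0 - r)).prod‖) := by gcongr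
      _ = _ := by ring

lemma poly_bound (p : Polynomial ℂ) {D : ℕ} (hD : p.natDegree ≤ D) {δ : ℝ}
    (h : ∀ t : ℂ, ‖t‖ < δ → p.eval t ≠ 0) (t : ℂ) (ht : ‖t‖ < δ) :
    ‖p.eval t‖ ≤ 2 ^ D * ‖p.eval 0‖ := by
  have hp : p.Splits := IsAlgClosed.splits p
  rw [hp.eval_eq_prod_roots t, hp.eval_eq_prod_roots 0, norm_mul, norm_mul]
  have h1 := norm_prod_le_of_roots p.roots t (by
    intro r hr
    by_contra hcon
    have h2 : p ≠ 0 := by
      rintro rfl
      simp at hr
    exact h r (lt_trans (not_le.mp hcon) ht) ((Polynomial.mem_roots h2).mp hr))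
  have h2 : (2 : ℝ) ^ p.roots.card ≤ 2 ^ D :=
    pow_le_pow_right₀ (by norm_num) ((Polynomial.card_roots' p).trans hD)
  calc ‖p.leadingCoeff‖ * ‖(p.roots.map (fun r => t - r)).prod‖
      ≤ ‖p.leadingCoeff‖ * (2 ^ p.roots.card * ‖(p.roots.map (fun r => 0 - r)).prod‖) := by gcongr
    _ ≤ ‖p.leadingCoeff‖ * (2 ^ D * ‖(p.roots.map (fun r => 0 - r)).prod‖) := by gcongr
    _ = _ := by ring

variable {V E : Type*} [Fintype V] [Fintype E]

/-- The polynomial in the direction `b`. -/
noncomputable def dirP (ends : E → Sym2 V) (w : E → ℝ) (S : Finset E) (a b : V → ℂ) :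
    Polynomial ℂ :=
  ∑ F ∈ S.powerset with Forest ends F, Polynomial.C (∏ g ∈ F, (w g : ℂ)) *
    ((Polynomial.X : Polynomial ℂ) • (J ends F * diagonal b).map Polynomial.C +
      (1 + J ends F * diagonal a).map Polynomial.C).det

lemma dirP_natDegree (ends : E → Sym2 V) (w : E → ℝ) (S : Finset E) (a b : V → ℂ) :
    (dirP ends w S a b).natDegree ≤ Fintype.card V := by
  unfold dirP
  refine Polynomial.natDegree_sum_le_of_forall_le _ _ fun F _ => ?_
  exact (Polynomial.natDegree_C_mul_le _ _).trans (Polynomial.natDegree_det_X_add_C_le _ _)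

lemma dirP_eval (ends : E → Sym2 V) (w : E → ℝ) (S : Finset E) (a b : V → ℂ) (t : ℂ) :
    (dirP ends w S a b).eval t = HW ends w S (diagonal fun i => a i + t * b i) := by
  unfold dirP HW
  rw [Polynomial.eval_finsetSum]
  refine Finset.sum_congr rfl fun F _ => ?_
  rw [Polynomial.eval_mul, Polynomial.eval_C]
  congr 1
  rw [← Polynomial.coe_evalRingHom, RingHom.map_det]
  congr 1
  ext i j
  simp only [RingHom.mapMatrix_apply, Matrix.map_apply, Matrix.add_apply, Matrix.smul_apply,
    smul_eq_mul, Polynomial.coe_evalRingHom, Polynomial.eval_add, Polynomial.eval_mul,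
    Polynomial.eval_X, Polynomial.eval_C, Matrix.mul_diagonal]
  ring

lemma up_diagonal {d : V → ℂ} {ε : ℝ} (hε : 0 < ε) (hd : ∀ i, ε ≤ (d i).im) :
    Up (diagonal d) := by
  refine ⟨ε, hε, fun x => ?_⟩
  have h1 : star x ⬝ᵥ (diagonal d *ᵥ x) = ∑ i, d i * ((‖x i‖ ^ 2 : ℝ) : ℂ) := by
    rw [dotProduct]
    refine Finset.sum_congr rfl fun i _ => ?_
    rw [Matrix.mulVec_diagonal, Pi.star_apply, Complex.star_def, ← Complex.normSq_eq_norm_sq,
      Complex.normSq_eq_conj_mul_self]
    ring
  rw [h1, Complex.im_sum, Finset.mul_sum]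
  refine Finset.sum_le_sum fun i _ => ?_
  rw [Complex.im_mul_ofReal]
  have := hd i
  gcongr

/-- **The generating function of the edges at `h` is stable.** -/
theorem gs_ne_zero (ends : E → Sym2 V) (hloop : ∀ e, ¬ (ends e).IsDiag) (w : E → ℝ)
    (hw : ∀ e, 0 ≤ w e) (h : V) (z : E → ℂ)
    (hz : ∀ e, h ∈ ends e → 0 < (z e).im ∨ z e = 0) : gs ends w h z ≠ 0 := by
  intro h0
  set z1 : E → ℂ := fun e => if z e = 0 then 0 else 1 with hz1
  set S := univ \ St ends h with hS
  set a := mm ends h z with ha
  set b : V → ℂ := mm ends h (fun e => z1 e - z e) with hb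
  -- the value at `z1`
  have hone : gs ends w h z1 ≠ 0 := by
    have h1 : gs ends w h z1 = ((∑ F ∈ (univ : Finset (Finset E)) with Forest ends F,
        ∏ e ∈ F, (if h ∈ ends e then (if z e = 0 then 0 else 1) else w e) : ℝ) : ℂ) := by
      unfold gs
      push_cast
      refine Finset.sum_congr rfl fun F _ => Finset.prod_congr rfl fun e _ => ?_
      by_cases h1 : h ∈ ends e
      · by_cases h2 : z e = 0
        · simp [hz1, h1, h2]
        · simp [hz1, h1, h2]
      · simp [h1]
    rw [h1]
    have h2 : (∅ : Finset E) ∈ (univ : Finset (Finset E)).filter (fun F => Forest ends F) := by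
      rw [mem_filter]
      refine ⟨mem_univ _, ?_⟩
      intro e he
      simp at he
    have h3 := Finset.single_le_sum (f := fun F : Finset E =>
      ∏ e ∈ F, (if h ∈ ends e then (if z e = 0 then (0 : ℝ) else 1) else w e))
      (fun F _ => Finset.prod_nonneg fun e _ => by
        have := hw e
        split_ifs <;> norm_num
        exact this) h2
    rw [Finset.prod_empty] at h3
    intro h4
    rw [Complex.ofReal_eq_zero] at h4
    rw [h4] at h3
    norm_num at h3
  -- the values on the line
  have hline : ∀ t : ℂ, (fun i => a i + t * b i) = mm ends h (fun e => z e + t * (z1 e - z e)) := by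
    intro t
    funext i
    rw [ha, hb]
    unfold mm
    rw [Finset.mul_sum, ← Finset.sum_add_distrib]
  have hval : ∀ t : ℂ, (dirP ends w S a b).eval t =
      gs ends w h (fun e => z e + t * (z1 e - z e)) := by
    intro t
    rw [dirP_eval, hline, gs_eq ends hloop]
  -- a radius
  obtain ⟨δ, hδ, hδz⟩ : ∃ δ : ℝ, 0 < δ ∧ ∀ e, h ∈ ends e →
      z e = 0 ∨ δ * ‖1 - z e‖ < (z e).im := by
    have h1 : ∀ e : E, ∀ᶠ δ : ℝ in 𝓝[>] 0, h ∈ ends e → z e = 0 ∨ δ * ‖1 - z e‖ < (z e).im := by
      intro e
      by_cases h2 : z e = 0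
      · exact Filter.Eventually.of_forall fun _ _ => Or.inl h2
      by_cases h3 : h ∈ ends e
      · have h4 : 0 < (z e).im := (hz e h3).resolve_right h2
        have h5 : Filter.Tendsto (fun δ : ℝ => δ * ‖1 - z e‖) (𝓝[>] 0) (𝓝 0) := by
          have : Filter.Tendsto (fun δ : ℝ => δ * ‖1 - z e‖) (𝓝 0) (𝓝 (0 * ‖1 - z e‖)) :=
            (continuous_id.mul continuous_const).tendsto 0
          rw [zero_mul] at this
          exact this.mono_left nhdsWithin_le_nhds
        filter_upwards [h5.eventually_lt_const h4] with δ hδ _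
        exact Or.inr hδ
      · exact Filter.Eventually.of_forall fun _ h4 => absurd h4 h3
    have h2 := (Filter.eventually_all.mpr h1).and self_mem_nhdsWithin
    obtain ⟨δ, h3, h4⟩ := h2.exists
    exact ⟨δ, h4, h3⟩
  have him : ∀ t : ℂ, ‖t‖ < δ → ∀ i, 0 ≤ (a i + t * b i).im := by
    intro t ht i
    have h1 : a i + t * b i = mm ends h (fun e => z e + t * (z1 e - z e)) i := congrFun (hline t) i
    rw [h1]
    unfold mm
    rw [Complex.im_sum]
    refine Finset.sum_nonneg fun e he => ?_
    rw [mem_filter, mem_St] at he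
    rcases hδz e he.1 with h2 | h2
    · simp [hz1, h2]
    · have h3 : z e ≠ 0 := by
        intro h3
        rw [h3] at h2
        have : 0 ≤ δ * ‖(1 : ℂ) - 0‖ := by positivity
        rw [Complex.zero_im] at h2
        linarith
      have h4 : z1 e = 1 := by simp [hz1, h3]
      rw [h4, Complex.add_im]
      have h5 : |(t * (1 - z e)).im| ≤ ‖t‖ * ‖1 - z e‖ := by
        rw [← norm_mul]
        exact Complex.abs_im_le_norm _
      have h6 : ‖t‖ * ‖1 - z e‖ ≤ δ * ‖1 - z e‖ := by gcongr
      have := (abs_le.mp h5).1
      linarith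
  -- the bound for positive ε
  have hbound : ∀ t : ℂ, ‖t‖ < δ → ∀ ε : ℝ, 0 < ε →
      ‖HW ends w S (diagonal fun i => (a i + ε * Complex.I) + t * b i)‖ ≤
        2 ^ (Fintype.card V) * ‖HW ends w S (diagonal fun i => (a i + ε * Complex.I) + 0 * b i)‖ := by
    intro t ht ε hε
    rw [← dirP_eval, ← dirP_eval]
    refine poly_bound _ (dirP_natDegree ends w S _ b) (δ := δ) ?_ t ht
    intro t' ht'
    rw [dirP_eval]
    refine HW_ne_zero ends hloop w hw S _ (up_diagonal hε fun i => ?_)
    have h1 := him t' ht' i
    have h2 : (a i + ε * Complex.I + t' * b i).im = (a i + t' * b i).im + ε := by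
      simp
      ring
    rw [h2]
    linarith
  have hcont : ∀ t : ℂ, Continuous fun ε : ℝ =>
      HW ends w S (diagonal fun i => (a i + ε * Complex.I) + t * b i) := by
    intro t
    unfold HW
    refine continuous_finsetSum _ fun F _ => continuous_const.mul ?_
    apply Continuous.matrix_det
    refine continuous_const.add (continuous_const.matrix_mul ?_)
    refine Continuous.matrix_diagonal ?_
    refine continuous_pi fun i => ?_
    exact (continuous_const.add (Complex.continuous_ofReal.mul continuous_const)).add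
      continuous_const
  have hzero : ∀ t : ℂ, ‖t‖ < δ → (dirP ends w S a b).eval t = 0 := by
    intro t ht
    have h1 : ‖(dirP ends w S a b).eval t‖ ≤
        2 ^ (Fintype.card V) * ‖(dirP ends w S a b).eval 0‖ := by
      rw [dirP_eval, dirP_eval]
      have h2 := ((hcont t).norm.tendsto 0).mono_left (nhdsWithin_le_nhds (s := Set.Ioi 0))
      have h3 := (((hcont 0).norm.tendsto 0).const_mul
        ((2 : ℝ) ^ (Fintype.card V))).mono_left (nhdsWithin_le_nhds (s := Set.Ioi 0))
      have h4 := le_of_tendsto_of_tendsto h2 h3 (by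
        filter_upwards [self_mem_nhdsWithin] with ε hε
        exact hbound t ht ε hε)
      simpa using h4
    have h2 : (dirP ends w S a b).eval 0 = 0 := by
      rw [hval]
      simpa using h0
    rw [h2, norm_zero, mul_zero] at h1
    exact norm_le_zero_iff.mp h1
  have hP : dirP ends w S a b = 0 := by
    refine Polynomial.eq_zero_of_infinite_isRoot _ ?_
    have h1 : Metric.ball (0 : ℂ) δ ⊆ {x | Polynomial.IsRoot (dirP ends w S a b) x} := by
      intro t ht
      rw [Metric.mem_ball, dist_zero_right] at ht
      exact hzero t ht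
    refine Set.Infinite.mono h1 ?_
    exact infinite_of_mem_nhds (0 : ℂ) (Metric.ball_mem_nhds 0 hδ)
  have h1 := hval 1
  rw [hP, Polynomial.eval_zero] at h1
  apply hone
  rw [h1]
  congr 1
  funext e
  ring

end Pool.Agent.Lib.MP_d90615_co
end

section

/-!
The forest sum does not vanish for diagonal matrices with entries in the upper half plane or zero.
-/

set_option autoImplicit false
set_option linter.unusedSectionVars false

namespace Pool.Agent.Lib.MP_d90615_co

open Matrix Finset
open scoped Classical Topology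

variable {V E : Type*} [Fintype V] [Fintype E]

theorem HW_diag_ne_zero (ends : E → Sym2 V) (hloop : ∀ e, ¬ (ends e).IsDiag) (w : E → ℝ)
    (hw : ∀ e, 0 ≤ w e) (S : Finset E) (m : V → ℂ)
    (hm : ∀ i, 0 < (m i).im ∨ m i = 0) : HW ends w S (diagonal m) ≠ 0 := by
  intro h0
  set m1 : V → ℝ := fun i => if m i = 0 then 0 else 1 with hm1
  set b : V → ℂ := fun i => (m1 i : ℂ) - m i with hb
  -- the value at `m1`
  have hone : HW ends w S (diagonal fun i => (m1 i : ℂ)) ≠ 0 := by
    have h1 : HW ends w S (diagonal fun i => (m1 i : ℂ)) =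
        ((∑ F ∈ S.powerset with Forest ends F, (∏ g ∈ F, w g) *
          ∏ q : Quotient (cset ends F), (1 + ∑ i ∈ univ.filter (fun i => cmp ends F i = q), m1 i)
          : ℝ) : ℂ) := by
      unfold HW
      push_cast
      refine Finset.sum_congr rfl fun F _ => ?_
      rw [det_comp]
    have hnn : ∀ F : Finset E, 1 ≤ ∏ q : Quotient (cset ends F),
        (1 + ∑ i ∈ univ.filter (fun i => cmp ends F i = q), m1 i) := by
      intro F
      have h6 := Finset.prod_le_prod (s := univ) (f := fun _ : Quotient (cset ends F) => (1 : ℝ))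
        (g := fun q => 1 + ∑ i ∈ univ.filter (fun i => cmp ends F i = q), m1 i)
        (fun _ _ => zero_le_one) (fun q _ => by
          have : 0 ≤ ∑ i ∈ univ.filter (fun i => cmp ends F i = q), m1 i :=
            Finset.sum_nonneg fun i _ => by
              rw [hm1]
              simp only
              split_ifs <;> norm_num
          linarith)
      rwa [Finset.prod_const_one] at h6
    rw [h1]
    have h2 : (∅ : Finset E) ∈ S.powerset.filter (fun F => Forest ends F) := by
      rw [mem_filter]
      refine ⟨mem_powerset.mpr (Finset.empty_subset _), ?_⟩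
      intro e he
      simp at he
    have h3 := Finset.single_le_sum (f := fun F : Finset E => (∏ e ∈ F, w e) *
      ∏ q : Quotient (cset ends F), (1 + ∑ i ∈ univ.filter (fun i => cmp ends F i = q), m1 i))
      (fun F _ => mul_nonneg (Finset.prod_nonneg fun e _ => hw e) (zero_le_one.trans (hnn F))) h2
    have h5 := hnn ∅
    rw [Finset.prod_empty, one_mul] at h3
    intro h4
    rw [Complex.ofReal_eq_zero] at h4
    rw [h4] at h3
    linarith
  -- a radius
  obtain ⟨δ, hδ, hδz⟩ : ∃ δ : ℝ, 0 < δ ∧ ∀ i, m i = 0 ∨ δ * ‖1 - m i‖ < (m i).im := by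
    have h1 : ∀ i : V, ∀ᶠ δ : ℝ in 𝓝[>] 0, m i = 0 ∨ δ * ‖1 - m i‖ < (m i).im := by
      intro i
      by_cases h2 : m i = 0
      · exact Filter.Eventually.of_forall fun _ => Or.inl h2
      · have h4 : 0 < (m i).im := (hm i).resolve_right h2
        have h5 : Filter.Tendsto (fun δ : ℝ => δ * ‖1 - m i‖) (𝓝[>] 0) (𝓝 0) := by
          have : Filter.Tendsto (fun δ : ℝ => δ * ‖1 - m i‖) (𝓝 0) (𝓝 (0 * ‖1 - m i‖)) :=
            (continuous_id.mul continuous_const).tendsto 0
          rw [zero_mul] at this
          exact this.mono_left nhdsWithin_le_nhds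
        filter_upwards [h5.eventually_lt_const h4] with δ hδ
        exact Or.inr hδ
    have h2 := (Filter.eventually_all.mpr h1).and self_mem_nhdsWithin
    obtain ⟨δ, h3, h4⟩ := h2.exists
    exact ⟨δ, h4, h3⟩
  have him : ∀ t : ℂ, ‖t‖ < δ → ∀ i, 0 ≤ (m i + t * b i).im := by
    intro t ht i
    rcases hδz i with h2 | h2
    · simp [hb, hm1, h2]
    · have h3 : m i ≠ 0 := by
        intro h3
        rw [h3] at h2
        have : 0 ≤ δ * ‖(1 : ℂ) - 0‖ := by positivity
        rw [Complex.zero_im] at h2
        linarith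
      have h4 : b i = 1 - m i := by simp [hb, hm1, h3]
      rw [h4, Complex.add_im]
      have h5 : |(t * (1 - m i)).im| ≤ ‖t‖ * ‖1 - m i‖ := by
        rw [← norm_mul]
        exact Complex.abs_im_le_norm _
      have h6 : ‖t‖ * ‖1 - m i‖ ≤ δ * ‖1 - m i‖ := by gcongr
      have := (abs_le.mp h5).1
      linarith
  -- the bound for positive ε
  have hbound : ∀ t : ℂ, ‖t‖ < δ → ∀ ε : ℝ, 0 < ε →
      ‖HW ends w S (diagonal fun i => (m i + ε * Complex.I) + t * b i)‖ ≤
        2 ^ (Fintype.card V) *
          ‖HW ends w S (diagonal fun i => (m i + ε * Complex.I) + 0 * b i)‖ := by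
    intro t ht ε hε
    rw [← dirP_eval, ← dirP_eval]
    refine poly_bound _ (dirP_natDegree ends w S _ b) (δ := δ) ?_ t ht
    intro t' ht'
    rw [dirP_eval]
    refine HW_ne_zero ends hloop w hw S _ (up_diagonal hε fun i => ?_)
    have h1 := him t' ht' i
    have h2 : (m i + ε * Complex.I + t' * b i).im = (m i + t' * b i).im + ε := by
      simp
      ring
    rw [h2]
    linarith
  have hcont : ∀ t : ℂ, Continuous fun ε : ℝ =>
      HW ends w S (diagonal fun i => (m i + ε * Complex.I) + t * b i) := by
    intro t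
    unfold HW
    refine continuous_finsetSum _ fun F _ => continuous_const.mul ?_
    apply Continuous.matrix_det
    refine continuous_const.add (continuous_const.matrix_mul ?_)
    refine Continuous.matrix_diagonal ?_
    refine continuous_pi fun i => ?_
    exact (continuous_const.add (Complex.continuous_ofReal.mul continuous_const)).add
      continuous_const
  have hzero : ∀ t : ℂ, ‖t‖ < δ → (dirP ends w S m b).eval t = 0 := by
    intro t ht
    have h1 : ‖(dirP ends w S m b).eval t‖ ≤
        2 ^ (Fintype.card V) * ‖(dirP ends w S m b).eval 0‖ := by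
      rw [dirP_eval, dirP_eval]
      have h2 := ((hcont t).norm.tendsto 0).mono_left (nhdsWithin_le_nhds (s := Set.Ioi 0))
      have h3 := (((hcont 0).norm.tendsto 0).const_mul
        ((2 : ℝ) ^ (Fintype.card V))).mono_left (nhdsWithin_le_nhds (s := Set.Ioi 0))
      have h4 := le_of_tendsto_of_tendsto h2 h3 (by
        filter_upwards [self_mem_nhdsWithin] with ε hε
        exact hbound t ht ε hε)
      simpa using h4
    have h2 : (dirP ends w S m b).eval 0 = 0 := by
      rw [dirP_eval]
      simpa using h0
    rw [h2, norm_zero, mul_zero] at h1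
    exact norm_le_zero_iff.mp h1
  have hP : dirP ends w S m b = 0 := by
    refine Polynomial.eq_zero_of_infinite_isRoot _ ?_
    have h1 : Metric.ball (0 : ℂ) δ ⊆ {x | Polynomial.IsRoot (dirP ends w S m b) x} := by
      intro t ht
      rw [Metric.mem_ball, dist_zero_right] at ht
      exact hzero t ht
    refine Set.Infinite.mono h1 ?_
    exact infinite_of_mem_nhds (0 : ℂ) (Metric.ball_mem_nhds 0 hδ)
  have h1 : (dirP ends w S m b).eval 1 = HW ends w S (diagonal fun i => (m1 i : ℂ)) := by
    rw [dirP_eval]
    congr 2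
    funext i
    rw [hb]
    ring
  rw [hP, Polynomial.eval_zero] at h1
  exact hone h1.symm

end Pool.Agent.Lib.MP_d90615_co
end

section

/-!
The sum over forests in terms of the forests which avoid two vertices `a` and `c`.
-/

set_option autoImplicit false
set_option linter.unusedSectionVars false

namespace Pool.Agent.Lib.MP_d90615_co

open Matrix Finset
open scoped Classical

variable {V E : Type*} [Fintype V] [Fintype E]

/-- The total weight of the edges between `h` and `i`. -/
noncomputable def mr (ends : E → Sym2 V) (h : V) (w : E → ℝ) (i : V) : ℝ :=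
  ∑ e ∈ (St ends h).filter (fun e => far ends h e = i), w e

/-- The mass of a component. -/
noncomputable def cm (ends : E → Sym2 V) (F : Finset E) (m : V → ℝ)
    (q : Quotient (cset ends F)) : ℝ :=
  ∑ i ∈ univ.filter (fun i => cmp ends F i = q), m i

lemma sum_powerset_split (S X : Finset E) (f : Finset E → ℝ) :
    ∑ F ∈ S.powerset, f F = ∑ F ∈ (S \ X).powerset, ∑ B ∈ (S ∩ X).powerset, f (F ∪ B) := by
  rw [← Finset.sum_product']
  refine Finset.sum_bij' (fun F _ => (F \ X, F ∩ X)) (fun p _ => p.1 ∪ p.2) ?_ ?_ ?_ ?_ ?_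
  · intro F hF
    rw [mem_powerset] at hF
    rw [mem_product, mem_powerset, mem_powerset]
    exact ⟨Finset.sdiff_subset_sdiff hF (Finset.Subset.refl _),
      Finset.inter_subset_inter hF (Finset.Subset.refl _)⟩
  · rintro ⟨F, B⟩ hp
    rw [mem_product, mem_powerset, mem_powerset] at hp
    rw [mem_powerset]
    exact Finset.union_subset (hp.1.trans Finset.sdiff_subset)
      (hp.2.trans Finset.inter_subset_left)
  · intro F _
    exact Finset.sdiff_union_inter F X
  · rintro ⟨F, B⟩ hp
    rw [mem_product, mem_powerset, mem_powerset] at hp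
    have hF : ∀ e ∈ F, e ∉ X := fun e he => (mem_sdiff.mp (hp.1 he)).2
    have hB : ∀ e ∈ B, e ∈ X := fun e he => (mem_inter.mp (hp.2 he)).2
    rw [Prod.mk.injEq]
    constructor
    · ext e
      simp only [mem_union, mem_sdiff]
      constructor
      · rintro ⟨h1 | h1, h2⟩
        · exact h1
        · exact absurd (hB e h1) h2
      · exact fun h1 => ⟨Or.inl h1, hF e h1⟩
    · ext e
      simp only [mem_union, mem_inter]
      constructor
      · rintro ⟨h1 | h1, h2⟩
        · exact absurd h2 (hF e h1)
        · exact h1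
      · exact fun h1 => ⟨Or.inr h1, hB e h1⟩
  · intro F _
    rw [Finset.sdiff_union_inter]

section inj

variable {Q : Type*} [Fintype Q] [DecidableEq Q]

lemma inj_sum (φ : E → Q) (X : Finset E) (w : E → ℝ) (g : Finset Q → ℝ) :
    ∑ B ∈ X.powerset.filter (fun B : Finset E => Set.InjOn φ (B : Set E)),
        (∏ e ∈ B, w e) * g (B.image φ) =
      ∑ T ∈ (univ : Finset Q).powerset, (∏ q ∈ T, ∑ e ∈ X.filter (fun e => φ e = q), w e) * g T := by
  have h1 : ∑ B ∈ X.powerset.filter (fun B : Finset E => Set.InjOn φ (B : Set E)),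
        (∏ e ∈ B, w e) * g (B.image φ) =
      ∑ B ∈ (univ : Finset (Finset E)).filter (fun B : Finset E => Set.InjOn φ (B : Set E)),
        (∏ e ∈ B, if e ∈ X then w e else 0) * g (B.image φ) := by
    refine Finset.sum_subset_zero_on_sdiff ?_ ?_ ?_
    · intro B hB
      rw [mem_filter] at hB ⊢
      exact ⟨mem_univ _, hB.2⟩
    · intro B hB
      rw [mem_sdiff, mem_filter, mem_filter] at hB
      have h3 : ¬ B ⊆ X := fun h3 => hB.2 ⟨mem_powerset.mpr h3, hB.1.2⟩
      rw [Finset.not_subset] at h3
      obtain ⟨e, heB, heS⟩ := h3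
      rw [Finset.prod_eq_zero heB (if_neg heS), zero_mul]
    · intro B hB
      rw [mem_filter, mem_powerset] at hB
      congr 1
      exact Finset.prod_congr rfl fun e he => (if_pos (hB.1 he)).symm
  rw [h1, ← Finset.sum_fiberwise_of_maps_to (t := (univ : Finset Q).powerset)
    (g := fun B : Finset E => B.image φ) (fun B _ => mem_powerset.mpr (Finset.subset_univ _))]
  refine Finset.sum_congr rfl fun T _ => ?_
  have h2 := Pool.Agent.PW.fiber_prod φ (fun e => if e ∈ X then w e else 0) T
  have h3 : ∀ q, ∑ e ∈ univ.filter (fun e => φ e = q), (if e ∈ X then w e else 0) =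
      ∑ e ∈ X.filter (fun e => φ e = q), w e := by
    intro q
    rw [← Finset.sum_filter, Finset.filter_filter]
    refine Finset.sum_congr ?_ fun _ _ => rfl
    ext e
    simp only [mem_filter, mem_univ, true_and]
    tauto
  rw [Finset.prod_congr rfl fun q _ => h3 q] at h2
  rw [← h2, Finset.sum_mul]
  refine Finset.sum_congr ?_ ?_
  · ext B
    simp only [mem_filter, mem_univ, true_and]
  · intro B hB
    simp only [mem_filter, mem_univ, true_and] at hB
    rw [hB.2]

lemma inj_prod (φ : E → Q) (X : Finset E) (w : E → ℝ) :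
    ∑ B ∈ X.powerset.filter (fun B : Finset E => Set.InjOn φ (B : Set E)), ∏ e ∈ B, w e =
      ∏ q, (1 + ∑ e ∈ X.filter (fun e => φ e = q), w e) := by
  have h := inj_sum φ X w (fun _ => 1)
  simp only [mul_one] at h
  rw [h, Finset.prod_one_add]

lemma prod_alg (p s : Q → ℝ) (u : ℝ) :
    ∑ T ∈ (univ : Finset Q).powerset, (∏ q ∈ T, p q) *
        ((1 + u + ∑ q ∈ T, s q) * ∏ q ∈ univ \ T, (1 + s q)) =
      (1 + u) * ∏ q, (1 + p q + s q) +
        ∑ q, p q * s q * ∏ q' ∈ univ.erase q, (1 + p q' + s q') := by
  have h1 : ∏ q, (1 + p q + s q) =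
      ∑ T ∈ (univ : Finset Q).powerset, (∏ q ∈ T, p q) * ∏ q ∈ univ \ T, (1 + s q) := by
    rw [← Finset.prod_add]
    exact Finset.prod_congr rfl fun q _ => by ring
  have h2 : ∀ q, p q * ∏ q' ∈ univ.erase q, (1 + p q' + s q') =
      ∑ T ∈ (univ : Finset Q).powerset, if q ∈ T then
        (∏ q ∈ T, p q) * ∏ q ∈ univ \ T, (1 + s q) else 0 := by
    intro q
    have h3 := Finset.prod_add p (fun q' => if q' = q then 0 else 1 + s q') (univ : Finset Q)
    rw [← Finset.mul_prod_erase _ _ (mem_univ q), if_pos rfl, add_zero] at h3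
    rw [Finset.prod_congr rfl (fun q' hq' => by
      show 1 + p q' + s q' = p q' + (if q' = q then 0 else 1 + s q')
      rw [if_neg (Finset.ne_of_mem_erase hq')]
      ring), h3]
    refine Finset.sum_congr rfl fun T _ => ?_
    split_ifs with h4
    · congr 1
      refine Finset.prod_congr rfl fun q' hq' => if_neg ?_
      rintro rfl
      exact (mem_sdiff.mp hq').2 h4
    · rw [Finset.prod_eq_zero (f := fun q' => if q' = q then 0 else 1 + s q') (i := q)
        (mem_sdiff.mpr ⟨mem_univ _, h4⟩) (if_pos rfl), mul_zero]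
  have h5 : ∀ q, p q * s q * ∏ q' ∈ univ.erase q, (1 + p q' + s q') =
      ∑ T ∈ (univ : Finset Q).powerset, if q ∈ T then
        s q * ((∏ q ∈ T, p q) * ∏ q ∈ univ \ T, (1 + s q)) else 0 := by
    intro q
    rw [show p q * s q * ∏ q' ∈ univ.erase q, (1 + p q' + s q') =
      s q * (p q * ∏ q' ∈ univ.erase q, (1 + p q' + s q')) by ring, h2, Finset.mul_sum]
    refine Finset.sum_congr rfl fun T _ => ?_
    split_ifs <;> simp
  rw [h1, Finset.sum_congr rfl fun q _ => h5 q, Finset.sum_comm, Finset.mul_sum,
    ← Finset.sum_add_distrib]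
  refine Finset.sum_congr rfl fun T _ => ?_
  rw [← Finset.sum_filter, ← Finset.sum_mul]
  have h6 : (univ : Finset Q).filter (fun q => q ∈ T) = T := by
    ext q
    simp
  rw [h6]
  ring

end inj

lemma conn_isolated {ends : E → Sym2 V} (hloop : ∀ e, ¬ (ends e).IsDiag) {h : V} {F : Finset E}
    (hF : ∀ e ∈ F, h ∉ ends e) {i : V} (hi : Conn ends F h i) : i = h := by
  by_contra hne
  have h1 := ((conn_union hloop hF ∅ (fun e he => by simp at he)).1 i hne).mp
    (by rw [Finset.union_empty]; exact hi)
  obtain ⟨e, he, _⟩ := h1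
  simp at he

lemma cm_congr (ends : E → Sym2 V) (F : Finset E) {m m' : V → ℝ} (q : Quotient (cset ends F))
    (h : ∀ i, cmp ends F i = q → m i = m' i) : cm ends F m q = cm ends F m' q := by
  refine Finset.sum_congr rfl fun i hi => ?_
  rw [mem_filter] at hi
  exact h i hi.2

/-- The sum over the edges at `c`, for fixed edges `F ∪ A`, `A` at `a`. -/
lemma inner_sum (ends : E → Sym2 V) (hloop : ∀ e, ¬ (ends e).IsDiag) (w : E → ℝ) {a c : V}
    (hac : a ≠ c) (Q : V → ℝ) (hQ : ∀ i, Q i = if i = a then 0 else mr ends c w i)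
    {F A : Finset E} (hFa : ∀ e ∈ F, a ∉ ends e) (hA : ∀ e ∈ A, a ∈ ends e) :
    ∑ B ∈ (St ends c).powerset.filter (fun B : Finset E =>
        Set.InjOn (fun e => cmp ends (F ∪ A) (far ends c e)) (B : Set E)), ∏ e ∈ B, w e =
      (1 + mr ends c w a + ∑ q ∈ A.image (fun e => cmp ends F (far ends a e)), cm ends F Q q) *
        ∏ q ∈ univ \ A.image (fun e => cmp ends F (far ends a e)), (1 + cm ends F Q q) := by
  set T := A.image (fun e => cmp ends F (far ends a e)) with hT
  have hhit : ∀ i, Hit ends a F A i ↔ cmp ends F i ∈ T := by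
    intro i
    rw [hT, Finset.mem_image]
    constructor
    · rintro ⟨e, he, h1⟩
      exact ⟨e, he, cmp_eq.mpr h1⟩
    · rintro ⟨e, he, h1⟩
      exact ⟨e, he, cmp_eq.mp h1⟩
  have haT : cmp ends F a ∉ T := by
    rw [hT, Finset.mem_image]
    rintro ⟨e, he, h1⟩
    have h2 := conn_isolated hloop hFa (Conn.symm (cmp_eq.mp h1))
    exact far_ne hloop (hA e he) h2
  have hcu := conn_union hloop hFa A hA
  -- the class of `a`
  have hcl : ∀ i, Conn ends (F ∪ A) a i ↔ (i = a ∨ cmp ends F i ∈ T) := by
    intro i
    by_cases hi : i = a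
    · rw [hi]
      simp only [true_or, iff_true]
      exact Conn.refl _ _ _
    · rw [hcu.1 i hi, hhit]
      simp [hi]
  set φ : V → Quotient (cset ends F) := fun i =>
    if i = a ∨ cmp ends F i ∈ T then cmp ends F a else cmp ends F i with hφ
  have hφeq : ∀ i j, cmp ends (F ∪ A) i = cmp ends (F ∪ A) j ↔ φ i = φ j := by
    intro i j
    rw [cmp_eq]
    by_cases h1 : i = a ∨ cmp ends F i ∈ T
    · have h1' := (hcl i).mpr h1
      by_cases h2 : j = a ∨ cmp ends F j ∈ T
      · have h2' := (hcl j).mpr h2
        simp only [hφ, if_pos h1, if_pos h2, iff_true]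
        exact h1'.symm.trans h2'
      · simp only [hφ, if_pos h1, if_neg h2]
        constructor
        · intro h3
          exact absurd ((hcl j).mp (h1'.trans h3)) h2
        · intro h3
          exact absurd (Or.inl (conn_isolated hloop hFa (cmp_eq.mp h3))) h2
    · by_cases h2 : j = a ∨ cmp ends F j ∈ T
      · have h2' := (hcl j).mpr h2
        simp only [hφ, if_neg h1, if_pos h2]
        constructor
        · intro h3
          exact absurd ((hcl i).mp (h2'.trans h3.symm)) h1
        · intro h3
          exact absurd (Or.inl (conn_isolated hloop hFa (cmp_eq.mp h3).symm)) h1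
      · simp only [hφ, if_neg h1, if_neg h2]
        push Not at h1 h2
        rw [hcu.2 i j h1.1 h2.1, hhit, hhit, cmp_eq]
        constructor
        · rintro (h3 | h3)
          · exact h3
          · exact absurd h3.1 h1.2
        · exact Or.inl
  have hinj : ∀ B : Finset E, Set.InjOn (fun e => cmp ends (F ∪ A) (far ends c e)) (B : Set E) ↔
      Set.InjOn (fun e => φ (far ends c e)) (B : Set E) := by
    intro B
    constructor
    · intro h1 e he e' he' h2
      exact h1 he he' ((hφeq _ _).mpr h2)
    · intro h1 e he e' he' h2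
      exact h1 he he' ((hφeq _ _).mp h2)
  rw [Finset.sum_congr (Finset.filter_congr fun B _ => hinj B) fun _ _ => rfl, inj_prod]
  -- the mass of a class
  have hG : ∀ q, ∑ e ∈ (St ends c).filter (fun e => φ (far ends c e) = q), w e =
      ∑ i ∈ univ.filter (fun i => φ i = q), mr ends c w i := by
    intro q
    unfold mr
    rw [Finset.sum_comm' (t' := (St ends c).filter (fun e => φ (far ends c e) = q))
      (s' := fun e => {far ends c e})]
    · exact Finset.sum_congr rfl fun e _ => (Finset.sum_singleton _ _).symm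
    · intro i e
      simp only [mem_filter, mem_univ, true_and, mem_singleton]
      constructor
      · rintro ⟨h3, h4, rfl⟩
        exact ⟨rfl, h4, h3⟩
      · rintro ⟨rfl, h4, h3⟩
        exact ⟨h3, h4, rfl⟩
  have hQm : ∀ i, i ≠ a → mr ends c w i = Q i := fun i hi => by rw [hQ, if_neg hi]
  have hQa : Q a = 0 := by rw [hQ, if_pos rfl]
  have hcma : cm ends F Q (cmp ends F a) = 0 := by
    unfold cm
    refine Finset.sum_eq_zero fun i hi => ?_
    rw [mem_filter] at hi
    rw [conn_isolated hloop hFa (cmp_eq.mp hi.2.symm), hQa]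
  have hG1 : ∑ i ∈ univ.filter (fun i => φ i = cmp ends F a), mr ends c w i =
      mr ends c w a + ∑ q ∈ T, cm ends F Q q := by
    have h1 : univ.filter (fun i => φ i = cmp ends F a) =
        insert a (univ.filter (fun i => cmp ends F i ∈ T)) := by
      ext i
      simp only [mem_filter, mem_univ, true_and, mem_insert]
      simp only [hφ]
      split_ifs with h2
      · simpa using h2
      · constructor
        · intro h3
          exact Or.inl (conn_isolated hloop hFa (cmp_eq.mp h3.symm))
        · intro h3
          exact absurd h3 h2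
    rw [h1, Finset.sum_insert (by simpa using haT)]
    congr 1
    unfold cm
    rw [← Finset.sum_fiberwise_of_maps_to (s := univ.filter (fun i => cmp ends F i ∈ T))
      (t := T) (g := fun i => cmp ends F i) (fun i hi => (mem_filter.mp hi).2)]
    refine Finset.sum_congr rfl fun q hq => ?_
    refine Finset.sum_congr ?_ ?_
    · ext i
      simp only [mem_filter, mem_univ, true_and]
      constructor
      · exact fun h => h.2
      · rintro rfl
        exact ⟨hq, rfl⟩
    · intro i hi
      simp only [mem_filter, mem_univ, true_and] at hi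
      refine hQm i ?_
      rintro rfl
      rw [hi] at haT
      exact haT hq
  have hG2 : ∀ q, q ≠ cmp ends F a → ∑ i ∈ univ.filter (fun i => φ i = q), mr ends c w i =
      if q ∈ T then 0 else cm ends F Q q := by
    intro q hq
    split_ifs with h1
    · refine Finset.sum_eq_zero fun i hi => ?_
      exfalso
      simp only [mem_filter, mem_univ, true_and] at hi
      simp only [hφ] at hi
      split_ifs at hi with h2
      · exact hq hi.symm
      · apply h2
        right
        rw [hi]
        exact h1
    · unfold cm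
      refine Finset.sum_congr ?_ ?_
      · ext i
        simp only [mem_filter, mem_univ, true_and]
        simp only [hφ]
        split_ifs with h2
        · constructor
          · intro h3
            exact absurd h3.symm hq
          · intro h3
            rcases h2 with h2 | h2
            · rw [h2] at h3
              exact absurd h3.symm hq
            · rw [h3] at h2
              exact absurd h2 h1
        · rfl
      · intro i hi
        rw [mem_filter] at hi
        refine hQm i ?_
        rintro rfl
        exact hq hi.2.symm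
  rw [← Finset.mul_prod_erase _ _ (mem_univ (cmp ends F a)), hG, hG1]
  rw [Finset.prod_congr rfl fun q hq => by
    rw [hG, hG2 q (Finset.ne_of_mem_erase hq)]]
  have h7 : ∏ q ∈ univ \ T, (1 + cm ends F Q q) =
      ∏ q ∈ univ.erase (cmp ends F a), (1 + if q ∈ T then 0 else cm ends F Q q) := by
    have h8 : ∏ q ∈ univ \ T, (1 + cm ends F Q q) =
        ∏ q, (1 + if q ∈ T then 0 else cm ends F Q q) := by
      rw [← Finset.prod_sdiff (Finset.subset_univ T)]
      rw [Finset.prod_eq_one (s := T) fun q hq => by rw [if_pos hq, add_zero], mul_one]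
      exact Finset.prod_congr rfl fun q hq => by rw [if_neg (mem_sdiff.mp hq).2]
    rw [h8, ← Finset.mul_prod_erase _ _ (mem_univ (cmp ends F a)), if_neg haT, hcma, add_zero,
      one_mul]
  rw [h7]
  ring

/-- **The sum over forests, in terms of the forests which avoid two vertices.** -/
theorem two_star (ends : E → Sym2 V) (hloop : ∀ e, ¬ (ends e).IsDiag) (w : E → ℝ) {a c : V}
    (hac : a ≠ c) (P Q : V → ℝ) (hP : ∀ i, P i = if i = c then 0 else mr ends a w i)
    (hQ : ∀ i, Q i = if i = a then 0 else mr ends c w i) :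
    ∑ F ∈ (univ : Finset (Finset E)) with Forest ends F, ∏ g ∈ F, w g =
      ∑ F ∈ (univ \ (St ends a ∪ St ends c)).powerset with Forest ends F, (∏ g ∈ F, w g) *
        ((1 + mr ends c w a) * (∏ q, (1 + cm ends F P q + cm ends F Q q)) +
          ∑ q, cm ends F P q * cm ends F Q q *
            ∏ q' ∈ univ.erase q, (1 + cm ends F P q' + cm ends F Q q')) := by
  rw [Finset.sum_filter, ← Finset.powerset_univ, sum_powerset_split univ (St ends c),
    sum_powerset_split (univ \ St ends c) (St ends a), Finset.sum_filter]
  have hS : (univ \ St ends c) \ St ends a = univ \ (St ends a ∪ St ends c) := by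
    ext e
    simp only [mem_sdiff, mem_univ, true_and, mem_union]
    tauto
  rw [hS]
  refine Finset.sum_congr rfl fun F hF => ?_
  rw [mem_powerset] at hF
  have hFa : ∀ e ∈ F, a ∉ ends e := fun e he h1 => by
    have := hF he
    rw [mem_sdiff, mem_union, mem_St, mem_St] at this
    exact this.2 (Or.inl h1)
  have hFc : ∀ e ∈ F, c ∉ ends e := fun e he h1 => by
    have := hF he
    rw [mem_sdiff, mem_union, mem_St, mem_St] at this
    exact this.2 (Or.inr h1)
  have hA : ∀ A ∈ ((univ \ St ends c) ∩ St ends a).powerset, (∀ e ∈ A, a ∈ ends e) ∧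
      (∀ e ∈ A, c ∉ ends e) := by
    intro A hA
    rw [mem_powerset] at hA
    constructor
    · intro e he
      have := hA he
      rw [mem_inter, mem_St] at this
      exact this.2
    · intro e he
      have := hA he
      rw [mem_inter, mem_sdiff, mem_St] at this
      exact this.1.2
  have hSc : (univ : Finset E) ∩ St ends c = St ends c := Finset.univ_inter _
  rw [hSc]
  -- the sum over the edges at `c`
  have h1 : ∀ A ∈ ((univ \ St ends c) ∩ St ends a).powerset,
      ∑ B ∈ (St ends c).powerset, (if Forest ends (F ∪ A ∪ B) then ∏ g ∈ F ∪ A ∪ B, w g else 0) =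
      if Forest ends (F ∪ A) then ((∏ g ∈ F, w g) * ∏ g ∈ A, w g) *
        ((1 + mr ends c w a + ∑ q ∈ A.image (fun e => cmp ends F (far ends a e)),
          cm ends F Q q) *
        ∏ q ∈ univ \ A.image (fun e => cmp ends F (far ends a e)), (1 + cm ends F Q q)) else 0 := by
    intro A hA'
    obtain ⟨hAa, hAc⟩ := hA A hA'
    have hFA : ∀ e ∈ F ∪ A, c ∉ ends e := by
      intro e he
      rw [mem_union] at he
      rcases he with he | he
      · exact hFc e he
      · exact hAc e he
    have hdisj : Disjoint F A := by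
      rw [Finset.disjoint_left]
      exact fun e he he' => hFa e he (hAa e he')
    split_ifs with h2
    · rw [← inner_sum ends hloop w hac Q hQ hFa hAa, Finset.mul_sum, Finset.sum_filter]
      refine Finset.sum_congr rfl fun B hB => ?_
      have hBc : ∀ e ∈ B, c ∈ ends e := fun e he => mem_St.mp (mem_powerset.mp hB he)
      have hdisj2 : Disjoint (F ∪ A) B := by
        rw [Finset.disjoint_left]
        exact fun e he he' => hFA e he (hBc e he')
      have h3 := forest_union hloop hFA B hBc
      by_cases h4 : Set.InjOn (fun e => cmp ends (F ∪ A) (far ends c e)) (B : Set E)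
      · rw [if_pos h4, if_pos (h3.mpr ⟨h2, h4⟩), Finset.prod_union hdisj2,
          Finset.prod_union hdisj]
      · rw [if_neg h4, if_neg fun h5 => h4 (h3.mp h5).2]
    · refine Finset.sum_eq_zero fun B hB => ?_
      rw [if_neg]
      intro h3
      exact h2 (h3.subset Finset.subset_union_left)
  rw [Finset.sum_congr rfl h1]
  split_ifs with h2
  · -- the sum over the edges at `a`
    have h3 : ∀ A ∈ ((univ \ St ends c) ∩ St ends a).powerset,
        (if Forest ends (F ∪ A) then ((∏ g ∈ F, w g) * ∏ g ∈ A, w g) *
        ((1 + mr ends c w a + ∑ q ∈ A.image (fun e => cmp ends F (far ends a e)),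
          cm ends F Q q) *
        ∏ q ∈ univ \ A.image (fun e => cmp ends F (far ends a e)), (1 + cm ends F Q q)) else 0) =
        (∏ g ∈ F, w g) * (if Set.InjOn (fun e => cmp ends F (far ends a e)) (A : Set E) then
          (∏ g ∈ A, w g) * ((1 + mr ends c w a +
          ∑ q ∈ A.image (fun e => cmp ends F (far ends a e)), cm ends F Q q) *
        ∏ q ∈ univ \ A.image (fun e => cmp ends F (far ends a e)),
          (1 + cm ends F Q q)) else 0) := by
      intro A hA'
      obtain ⟨hAa, hAc⟩ := hA A hA'
      have h4 := forest_union hloop hFa A hAa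
      by_cases h5 : Set.InjOn (fun e => cmp ends F (far ends a e)) (A : Set E)
      · rw [if_pos h5, if_pos (h4.mpr ⟨h2, h5⟩)]
        ring
      · rw [if_neg h5, if_neg fun h6 => h5 (h4.mp h6).2, mul_zero]
    rw [Finset.sum_congr rfl h3, ← Finset.mul_sum, ← Finset.sum_filter,
      inj_sum (fun e => cmp ends F (far ends a e)) _ w (fun T =>
        (1 + mr ends c w a + ∑ q ∈ T, cm ends F Q q) * ∏ q ∈ univ \ T, (1 + cm ends F Q q))]
    have h6 : ∀ q, ∑ e ∈ ((univ \ St ends c) ∩ St ends a).filter
        (fun e => cmp ends F (far ends a e) = q), w e = cm ends F P q := by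
      intro q
      unfold cm
      have h7 : ∀ i, P i = ∑ e ∈ ((univ \ St ends c) ∩ St ends a).filter
          (fun e => far ends a e = i), w e := by
        intro i
        rw [hP]
        split_ifs with h8
        · symm
          refine Finset.sum_eq_zero fun e he => ?_
          exfalso
          rw [mem_filter, mem_inter, mem_sdiff, mem_St, mem_St] at he
          apply he.1.1.2
          rw [ends_far he.1.2, he.2, h8]
          exact Sym2.mem_mk_right a c
        · unfold mr
          refine Finset.sum_congr ?_ fun _ _ => rfl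
          ext e
          simp only [mem_filter, mem_inter, mem_sdiff, mem_univ, true_and, mem_St]
          constructor
          · rintro ⟨h9, h10⟩
            refine ⟨⟨?_, h9⟩, h10⟩
            rw [ends_far h9, h10, Sym2.mem_iff]
            rintro (h11 | h11)
            · exact hac h11.symm
            · exact h8 h11.symm
          · rintro ⟨⟨_, h9⟩, h10⟩
            exact ⟨h9, h10⟩
      simp only [h7]
      rw [Finset.sum_comm' (t' := ((univ \ St ends c) ∩ St ends a).filter
        (fun e => cmp ends F (far ends a e) = q)) (s' := fun e => {far ends a e})]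
      · exact Finset.sum_congr rfl fun e _ => (Finset.sum_singleton _ _).symm
      · intro i e
        simp only [mem_filter, mem_univ, true_and, mem_singleton]
        constructor
        · rintro ⟨h3, h4, rfl⟩
          exact ⟨rfl, h4, h3⟩
        · rintro ⟨rfl, h4, h3⟩
          exact ⟨h3, h4, rfl⟩
    simp only [h6]
    rw [prod_alg]
  · refine Finset.sum_eq_zero fun A hA' => ?_
    rw [if_neg]
    intro h3
    exact h2 (h3.subset Finset.subset_union_left)

end Pool.Agent.Lib.MP_d90615_co
end

section

/-!
Determinants over the components of a forest.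
-/

set_option autoImplicit false
set_option linter.unusedSectionVars false

namespace Pool.Agent.Lib.MP_d90615_co

open Matrix Finset
open scoped Classical

open Pool.Agent.TW

variable {V E : Type*} [Fintype V] [Fintype E]

lemma cm_add (ends : E → Sym2 V) (F : Finset E) (m m' : V → ℝ) (q : Quotient (cset ends F)) :
    cm ends F (fun i => m i + m' i) q = cm ends F m q + cm ends F m' q :=
  Finset.sum_add_distrib

lemma cm_mul (ends : E → Sym2 V) (F : Finset E) (t : ℝ) (m : V → ℝ)
    (q : Quotient (cset ends F)) :
    cm ends F (fun i => t * m i) q = t * cm ends F m q :=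
  (Finset.mul_sum _ _ _).symm

lemma cm_single (ends : E → Sym2 V) (F : Finset E) (b : V) (r : ℝ)
    (q : Quotient (cset ends F)) :
    cm ends F (fun i => if i = b then r else 0) q = if q = cmp ends F b then r else 0 := by
  unfold cm
  rw [Finset.sum_ite_eq' (univ.filter (fun i => cmp ends F i = q)) b (fun _ => r)]
  refine if_congr ?_ rfl rfl
  simp only [mem_filter, mem_univ, true_and]
  exact eq_comm

lemma cm_nonneg (ends : E → Sym2 V) (F : Finset E) {m : V → ℝ} (hm : ∀ i, 0 ≤ m i)
    (q : Quotient (cset ends F)) : 0 ≤ cm ends F m q :=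
  Finset.sum_nonneg fun i _ => hm i

lemma cm_total (ends : E → Sym2 V) (F : Finset E) (m : V → ℝ) :
    ∑ q, cm ends F m q = ∑ i, m i := by
  unfold cm
  exact Finset.sum_fiberwise univ (cmp ends F) m

/-- The matrix of the components. -/
noncomputable def UR (ends : E → Sym2 V) (F : Finset E) :
    Matrix V (Quotient (cset ends F)) ℝ :=
  Matrix.of fun i q => if cmp ends F i = q then 1 else 0

lemma JR_eq (ends : E → Sym2 V) (F : Finset E) :
    JR ends F = UR ends F * (UR ends F)ᵀ := by
  ext i j
  rw [Matrix.mul_apply, JR_apply]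
  simp only [UR, Matrix.of_apply, Matrix.transpose_apply]
  simp only [mul_ite, mul_one, mul_zero, Finset.sum_ite_eq, mem_univ, if_true]
  simp only [cmp_eq]

lemma UR_diag (ends : E → Sym2 V) (F : Finset E) (m : V → ℝ) :
    (UR ends F)ᵀ * diagonal m * UR ends F = diagonal (cm ends F m) := by
  ext q q'
  rw [Matrix.mul_apply, Matrix.diagonal_apply]
  simp only [Matrix.mul_diagonal, UR, Matrix.of_apply, Matrix.transpose_apply]
  split_ifs with h
  · subst h
    unfold cm
    rw [Finset.sum_filter]
    refine Finset.sum_congr rfl fun i _ => ?_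
    split_ifs <;> simp
  · refine Finset.sum_eq_zero fun i _ => ?_
    by_cases h3 : cmp ends F i = q
    · rw [if_neg (c := cmp ends F i = q') (by rw [h3]; exact h), mul_zero]
    · rw [if_neg h3, zero_mul, zero_mul]

lemma UR_vec (ends : E → Sym2 V) (F : Finset E) (x : V → ℝ) :
    x ᵥ* UR ends F = cm ends F x := by
  funext q
  rw [Matrix.vecMul, dotProduct]
  unfold cm
  rw [Finset.sum_filter]
  refine Finset.sum_congr rfl fun i _ => ?_
  simp only [UR, Matrix.of_apply]
  split_ifs <;> simp

lemma det_diag_rank {κ : Type*} [Fintype κ] [DecidableEq κ] (d y : κ → ℝ) (t : ℝ)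
    (hd : ∀ q, d q ≠ 0) :
    (diagonal d + t • vecMulVec y y).det = ∏ q, d q + t * Sg univ (fun q => y q ^ 2) d := by
  have hprod : ∏ q, d q ≠ 0 := Finset.prod_ne_zero_iff.mpr fun q _ => hd q
  have hdet : (diagonal d).det = ∏ q, d q := Matrix.det_diagonal
  have hu : IsUnit (diagonal d).det := by
    rw [hdet]
    exact hprod.isUnit
  have h1 : t • vecMulVec y y = replicateCol Unit (t • y) * replicateRow Unit y := by
    ext i j
    rw [Matrix.mul_apply]
    simp [vecMulVec_apply]
    ring
  rw [h1, det_add_replicateCol_mul_replicateRow hu, hdet, Matrix.det_unique, Matrix.add_apply,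
    Matrix.one_apply_eq]
  have h2 : (replicateRow Unit y * (diagonal d)⁻¹ * replicateCol Unit (t • y)) default default =
      ∑ q, y q * (d q)⁻¹ * (t * y q) := by
    rw [Matrix.mul_apply]
    refine Finset.sum_congr rfl fun q _ => ?_
    have h3 : (diagonal d)⁻¹ = diagonal (fun q => (d q)⁻¹) := by
      rw [Matrix.inv_diagonal]
      congr 1
      have h4 : IsUnit d := by
        rw [Pi.isUnit_iff]
        exact fun q => (hd q).isUnit
      funext q
      have h5 : Ring.inverse d * d = 1 := Ring.inverse_mul_cancel d h4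
      have h6 := congrFun h5 q
      rw [Pi.mul_apply, Pi.one_apply] at h6
      exact eq_inv_of_mul_eq_one_left h6
    rw [h3, Matrix.mul_diagonal]
    simp
  rw [h2, mul_add, mul_one, Finset.mul_sum]
  unfold Sg
  rw [Finset.mul_sum]
  congr 1
  refine Finset.sum_congr rfl fun q _ => ?_
  rw [← Finset.mul_prod_erase univ d (mem_univ q)]
  have := hd q
  field_simp

/-- `det (1 + J_F (diag m + t x xᵀ))` in terms of the components. -/
lemma detR_comp (ends : E → Sym2 V) (F : Finset E) (m x : V → ℝ) (t : ℝ)
    (hm : ∀ i, 0 ≤ m i) :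
    (1 + JR ends F * (diagonal m + t • vecMulVec x x)).det =
      ∏ q, (1 + cm ends F m q) +
        t * Sg univ (fun q => cm ends F x q ^ 2) (fun q => 1 + cm ends F m q) := by
  rw [JR_eq, Matrix.mul_assoc, Matrix.det_one_add_mul_comm]
  have h1 : (UR ends F)ᵀ * (diagonal m + t • vecMulVec x x) * UR ends F =
      diagonal (cm ends F m) + t • vecMulVec (cm ends F x) (cm ends F x) := by
    rw [Matrix.mul_add, Matrix.add_mul, UR_diag, Matrix.mul_smul, Matrix.smul_mul, mul_vecMulVec,
      vecMulVec_mul, UR_vec, Matrix.mulVec_transpose, UR_vec]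
  rw [h1]
  have h3 : (1 : Matrix (Quotient (cset ends F)) (Quotient (cset ends F)) ℝ) +
      (diagonal (cm ends F m) + t • vecMulVec (cm ends F x) (cm ends F x)) =
      diagonal (fun q => 1 + cm ends F m q) + t • vecMulVec (cm ends F x) (cm ends F x) := by
    rw [← add_assoc]
    congr 1
    rw [← Matrix.diagonal_one, Matrix.diagonal_add]
  rw [h3, det_diag_rank _ _ _ fun q => ?_]
  have := cm_nonneg ends F hm q
  positivity

end Pool.Agent.Lib.MP_d90615_co
end

section

/-!
The polynomials `∑_F w^F ∏_T (1 + X_T η)` and `∑_F w^F X_b ∏_{T ≠ T_b} (1 + X_T η)`.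
-/

set_option autoImplicit false
set_option linter.unusedSectionVars false

namespace Pool.Agent.Lib.MP_d90615_co

open Matrix Finset
open scoped Classical

open Pool.Agent.TW

variable {V E : Type*} [Fintype V] [Fintype E]

section

variable (ends : E → Sym2 V) (w : E → ℝ) (S : Finset E) (x : V → ℝ) (b : V)

/-- `∑_F w^F ∏_T (1 + X_T η)`. -/
noncomputable def fP : Polynomial ℝ :=
  ∑ F ∈ S.powerset with Forest ends F, Polynomial.C (∏ g ∈ F, w g) *
    ∏ q, (1 + Polynomial.C (cm ends F x q) * Polynomial.X)

/-- `∑_F w^F X_b ∏_{T ≠ T_b} (1 + X_T η)`. -/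
noncomputable def wP : Polynomial ℝ :=
  ∑ F ∈ S.powerset with Forest ends F,
    Polynomial.C ((∏ g ∈ F, w g) * cm ends F x (cmp ends F b)) *
    ∏ q ∈ univ.erase (cmp ends F b), (1 + Polynomial.C (cm ends F x q) * Polynomial.X)

lemma prod_lin_eval {κ : Type*} (s : Finset κ) (X : κ → ℝ) (t : ℝ) :
    (∏ q ∈ s, (1 + Polynomial.C (X q) * Polynomial.X)).eval t = ∏ q ∈ s, (1 + X q * t) := by
  rw [Polynomial.eval_prod]
  refine Finset.prod_congr rfl fun q _ => ?_
  simp

lemma prod_lin_deriv {κ : Type*} [DecidableEq κ] (s : Finset κ) (X : κ → ℝ) (t : ℝ) :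
    (∏ q ∈ s, (1 + Polynomial.C (X q) * Polynomial.X)).derivative.eval t =
      Sg s X (fun q => 1 + X q * t) := by
  rw [Polynomial.derivative_prod_finset, Polynomial.eval_finsetSum]
  unfold Sg
  refine Finset.sum_congr rfl fun q _ => ?_
  rw [Polynomial.eval_mul, prod_lin_eval]
  simp
  ring

lemma fP_eval_one : (fP ends w S x).eval 1 =
    ∑ F ∈ S.powerset with Forest ends F, (∏ g ∈ F, w g) * A0 (cm ends F x) := by
  unfold fP
  rw [Polynomial.eval_finsetSum]
  refine Finset.sum_congr rfl fun F _ => ?_
  rw [Polynomial.eval_mul, Polynomial.eval_C, prod_lin_eval]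
  simp only [mul_one]
  rfl

lemma fP_eval_zero : (fP ends w S x).eval 0 =
    ∑ F ∈ S.powerset with Forest ends F, ∏ g ∈ F, w g := by
  unfold fP
  rw [Polynomial.eval_finsetSum]
  refine Finset.sum_congr rfl fun F _ => ?_
  rw [Polynomial.eval_mul, Polynomial.eval_C, prod_lin_eval]
  simp

lemma fP_deriv_one : (fP ends w S x).derivative.eval 1 =
    ∑ F ∈ S.powerset with Forest ends F, (∏ g ∈ F, w g) *
      Sg univ (cm ends F x) (fun q => 1 + cm ends F x q) := by
  unfold fP
  rw [Polynomial.derivative_sum, Polynomial.eval_finsetSum]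
  refine Finset.sum_congr rfl fun F _ => ?_
  rw [Polynomial.derivative_C_mul, Polynomial.eval_mul, Polynomial.eval_C, prod_lin_deriv]
  simp only [mul_one]

lemma fP_deriv_zero : (fP ends w S x).derivative.eval 0 =
    (∑ i, x i) * ∑ F ∈ S.powerset with Forest ends F, ∏ g ∈ F, w g := by
  unfold fP
  rw [Polynomial.derivative_sum, Polynomial.eval_finsetSum, Finset.mul_sum]
  refine Finset.sum_congr rfl fun F _ => ?_
  rw [Polynomial.derivative_C_mul, Polynomial.eval_mul, Polynomial.eval_C, prod_lin_deriv]
  unfold Sg
  simp only [mul_zero, add_zero, Finset.prod_const_one, mul_one]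
  rw [cm_total, mul_comm]

lemma wP_eval_one : (wP ends w S x b).eval 1 =
    (∑ F ∈ S.powerset with Forest ends F, (∏ g ∈ F, w g) * A0 (cm ends F x)) -
    ∑ F ∈ S.powerset with Forest ends F, (∏ g ∈ F, w g) * Ab (cm ends F x) (cmp ends F b) := by
  unfold wP
  rw [Polynomial.eval_finsetSum, ← Finset.sum_sub_distrib]
  refine Finset.sum_congr rfl fun F _ => ?_
  rw [Polynomial.eval_mul, Polynomial.eval_C, prod_lin_eval, A0_Ab (cm ends F x) (cmp ends F b)]
  simp only [mul_one]
  unfold Pool.Agent.TW.Ab
  ring

lemma wP_deriv_one : (wP ends w S x b).derivative.eval 1 =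
    ∑ F ∈ S.powerset with Forest ends F, (∏ g ∈ F, w g) *
      (cm ends F x (cmp ends F b) * Sg (univ.erase (cmp ends F b)) (cm ends F x)
        (fun q => 1 + cm ends F x q)) := by
  unfold wP
  rw [Polynomial.derivative_sum, Polynomial.eval_finsetSum]
  refine Finset.sum_congr rfl fun F _ => ?_
  rw [Polynomial.derivative_C_mul, Polynomial.eval_mul, Polynomial.eval_C, prod_lin_deriv]
  simp only [mul_one]
  ring

lemma coeff_prod_lin_nonneg {κ : Type*} (s : Finset κ) (X : κ → ℝ) (hX : ∀ q, 0 ≤ X q) :
    ∀ k, 0 ≤ (∏ q ∈ s, (1 + Polynomial.C (X q) * Polynomial.X)).coeff k := by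
  induction s using Finset.induction_on with
  | empty =>
    intro k
    rw [Finset.prod_empty, Polynomial.coeff_one]
    split_ifs <;> norm_num
  | insert q s hq ih =>
    intro k
    rw [Finset.prod_insert hq, add_mul, one_mul, Polynomial.coeff_add, mul_assoc,
      Polynomial.coeff_C_mul]
    have h1 := ih k
    have h2 : 0 ≤ (Polynomial.X * ∏ q ∈ s, (1 + Polynomial.C (X q) * Polynomial.X)).coeff k := by
      cases k with
      | zero => simp
      | succ k =>
        rw [Polynomial.coeff_X_mul]
        exact ih k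
    have := hX q
    positivity

variable {w x}

lemma fP_term_coeff (hw : ∀ e, 0 ≤ w e) (hx : ∀ i, 0 ≤ x i) (F : Finset E) (k : ℕ) :
    0 ≤ (Polynomial.C (∏ g ∈ F, w g) *
      ∏ q, (1 + Polynomial.C (cm ends F x q) * Polynomial.X)).coeff k := by
  rw [Polynomial.coeff_C_mul]
  exact mul_nonneg (Finset.prod_nonneg fun g _ => hw g)
    (coeff_prod_lin_nonneg _ _ (fun q => cm_nonneg ends F hx q) k)

lemma fP_coeff (hw : ∀ e, 0 ≤ w e) (hx : ∀ i, 0 ≤ x i) (k : ℕ) :
    0 ≤ (fP ends w S x).coeff k := by
  unfold fP
  rw [Polynomial.finsetSum_coeff]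
  exact Finset.sum_nonneg fun F _ => fP_term_coeff ends hw hx F k

lemma fP_zero_pos (hw : ∀ e, 0 ≤ w e) : 0 < (fP ends w S x).eval 0 := by
  rw [fP_eval_zero]
  have h2 : (∅ : Finset E) ∈ S.powerset.filter (fun F => Forest ends F) := by
    rw [mem_filter]
    refine ⟨mem_powerset.mpr (Finset.empty_subset _), ?_⟩
    intro e he
    simp at he
  have h3 := Finset.single_le_sum (f := fun F : Finset E => ∏ e ∈ F, w e)
    (fun F _ => Finset.prod_nonneg fun e _ => hw e) h2
  rw [Finset.prod_empty] at h3
  linarith

lemma wP_degree (hw : ∀ e, 0 ≤ w e) (hx : ∀ i, 0 ≤ x i) :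
    (wP ends w S x b).degree < (fP ends w S x).degree := by
  have hf : fP ends w S x ≠ 0 := by
    intro h
    have := fP_zero_pos (x := x) ends S hw
    rw [h, Polynomial.eval_zero] at this
    exact lt_irrefl _ this
  have hfd : ⊥ < (fP ends w S x).degree := bot_lt_iff_ne_bot.mpr (Polynomial.degree_ne_bot.mpr hf)
  refine lt_of_le_of_lt (Polynomial.degree_sum_le _ _) ?_
  rw [Finset.sup_lt_iff hfd]
  intro F hF
  set α := ∏ g ∈ F, w g with hα
  set c := cm ends F x (cmp ends F b) with hc
  set p := ∏ q ∈ univ.erase (cmp ends F b),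
    (1 + Polynomial.C (cm ends F x q) * Polynomial.X : Polynomial ℝ) with hp
  by_cases h0 : α * c = 0
  · rw [h0, Polynomial.C_0, zero_mul, Polynomial.degree_zero]
    exact hfd
  have hα0 : α ≠ 0 := fun h => h0 (by rw [h, zero_mul])
  have hc0 : c ≠ 0 := fun h => h0 (by rw [h, mul_zero])
  have hp1 : p.eval 0 = 1 := by
    rw [hp, prod_lin_eval]
    simp
  have hp0 : p ≠ 0 := by
    intro h
    rw [h, Polynomial.eval_zero] at hp1
    norm_num at hp1
  have h1 : (Polynomial.C (α * c) * p).degree = p.degree := by
    rw [Polynomial.degree_mul, Polynomial.degree_C h0, zero_add]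
  rw [h1]
  set T := Polynomial.C α * ∏ q, (1 + Polynomial.C (cm ends F x q) * Polynomial.X : Polynomial ℝ)
    with hT
  have h2 : T = Polynomial.C α * ((1 + Polynomial.C c * Polynomial.X) * p) := by
    rw [hT, hp, hc, Finset.mul_prod_erase univ
      (fun q => (1 + Polynomial.C (cm ends F x q) * Polynomial.X : Polynomial ℝ))
      (mem_univ (cmp ends F b))]
  have h3 : (1 + Polynomial.C c * Polynomial.X : Polynomial ℝ).degree = 1 := by
    rw [add_comm, ← Polynomial.C_1]
    exact Polynomial.degree_linear hc0
  have h4 : T.degree = 1 + p.degree := by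
    rw [h2, Polynomial.degree_mul, Polynomial.degree_mul, Polynomial.degree_C hα0, h3, zero_add]
  have hT0 : T ≠ 0 := by
    intro h
    rw [h, Polynomial.degree_zero, Polynomial.degree_eq_natDegree hp0] at h4
    exact absurd h4.symm (by
      rw [← Nat.cast_one, ← Nat.cast_add]
      exact WithBot.natCast_ne_bot _)
  have h5 : T.degree ≤ (fP ends w S x).degree := by
    rw [Polynomial.degree_eq_natDegree hT0]
    refine Polynomial.le_degree_of_ne_zero ?_
    unfold fP
    rw [Polynomial.finsetSum_coeff]
    have h6 : 0 ≤ T.coeff T.natDegree := fP_term_coeff ends hw hx F _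
    have h7 : 0 < T.coeff T.natDegree := lt_of_le_of_ne h6 (by
      rw [Polynomial.coeff_natDegree]
      exact (Polynomial.leadingCoeff_ne_zero.mpr hT0).symm)
    have h8 := Finset.single_le_sum (f := fun F : Finset E => (Polynomial.C (∏ g ∈ F, w g) *
      ∏ q, (1 + Polynomial.C (cm ends F x q) * Polynomial.X)).coeff T.natDegree)
      (fun F _ => fP_term_coeff ends hw hx F _) hF
    exact (lt_of_lt_of_le h7 h8).ne'
  refine lt_of_lt_of_le ?_ h5
  rw [h4, Polynomial.degree_eq_natDegree hp0]
  rw [← Nat.cast_one, ← Nat.cast_add, Nat.cast_lt]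
  omega

end

section

variable (ends : E → Sym2 V) (w : E → ℝ) (S : Finset E) (x : V → ℝ) (b : V)

lemma aeval_prod_lin {κ : Type*} (s : Finset κ) (X : κ → ℝ) (z : ℂ) :
    Polynomial.aeval z (∏ q ∈ s, (1 + Polynomial.C (X q) * Polynomial.X)) =
      ∏ q ∈ s, (1 + (X q : ℂ) * z) := by
  rw [map_prod]
  refine Finset.prod_congr rfl fun q _ => ?_
  simp

lemma cm_cast (F : Finset E) (q : Quotient (cset ends F)) :
    ((cm ends F x q : ℝ) : ℂ) = ∑ i ∈ univ.filter (fun i => cmp ends F i = q), (x i : ℂ) := by
  unfold cm
  push_cast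
  rfl

lemma aeval_fP (z : ℂ) : Polynomial.aeval z (fP ends w S x) =
    HW ends w S (diagonal fun i => z * (x i : ℂ)) := by
  unfold fP HW
  rw [map_sum]
  refine Finset.sum_congr rfl fun F _ => ?_
  rw [map_mul, aeval_prod_lin, det_comp, Polynomial.aeval_C, Complex.coe_algebraMap]
  congr 1
  · push_cast
    rfl
  · refine Finset.prod_congr rfl fun q _ => ?_
    rw [cm_cast, ← Finset.mul_sum, mul_comm]

lemma aeval_two (z e : ℂ) : (1 + e) * Polynomial.aeval z (fP ends w S x)
      - e * z * Polynomial.aeval z (wP ends w S x b) =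
    HW ends w S (diagonal fun i => z * (x i : ℂ) + if i = b then e else 0) := by
  unfold fP wP HW
  rw [map_sum, map_sum, Finset.mul_sum, Finset.mul_sum, ← Finset.sum_sub_distrib]
  refine Finset.sum_congr rfl fun F _ => ?_
  rw [map_mul, map_mul, aeval_prod_lin, aeval_prod_lin, det_comp, Polynomial.aeval_C,
    Polynomial.aeval_C, Complex.coe_algebraMap]
  have h1 : ∀ q : Quotient (cset ends F),
      1 + ∑ i ∈ univ.filter (fun i => cmp ends F i = q), (z * (x i : ℂ) + if i = b then e else 0) =
      (1 + (cm ends F x q : ℂ) * z) + if q = cmp ends F b then e else 0 := by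
    intro q
    rw [Finset.sum_add_distrib, ← Finset.mul_sum, cm_cast,
      Finset.sum_ite_eq' (univ.filter (fun i => cmp ends F i = q)) b (fun _ => e)]
    have h2 : (if b ∈ univ.filter (fun i => cmp ends F i = q) then e else 0) =
        if q = cmp ends F b then e else 0 := by
      refine if_congr ?_ rfl rfl
      simp only [mem_filter, mem_univ, true_and]
      exact eq_comm
    rw [h2]
    ring
  rw [Finset.prod_congr rfl fun q _ => h1 q,
    ← Finset.mul_prod_erase univ (fun q => (1 + (cm ends F x q : ℂ) * z) +
      if q = cmp ends F b then e else 0) (mem_univ (cmp ends F b)), if_pos rfl,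
    ← Finset.mul_prod_erase univ (fun q => (1 + (cm ends F x q : ℂ) * z))
      (mem_univ (cmp ends F b))]
  have h3 : ∏ q ∈ univ.erase (cmp ends F b), ((1 + (cm ends F x q : ℂ) * z) +
      if q = cmp ends F b then e else 0) =
      ∏ q ∈ univ.erase (cmp ends F b), (1 + (cm ends F x q : ℂ) * z) := by
    refine Finset.prod_congr rfl fun q hq => ?_
    rw [if_neg (Finset.ne_of_mem_erase hq), add_zero]
  rw [h3]
  push_cast
  ring

end

end Pool.Agent.Lib.MP_d90615_co
end

section

/-!
The inequality `z₀ z₁₂ ≤ z₁ z₂`.
-/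

set_option autoImplicit false
set_option linter.unusedSectionVars false

namespace Pool.Agent.Lib.MP_d90615_co

open Matrix Finset
open scoped Classical

open Pool.Agent.TW

variable {V E : Type*} [Fintype V] [Fintype E]

section

variable (ends : E → Sym2 V) (w : E → ℝ) (S : Finset E) (x : V → ℝ) (b d : V)

/-- The weighted sum over the forests inside `S`. -/
noncomputable def hs (φ : ∀ F : Finset E, (Quotient (cset ends F) → ℝ) → ℝ) : ℝ :=
  ∑ F ∈ S.powerset with Forest ends F, (∏ g ∈ F, w g) * φ F (cm ends F x)

lemma hs_add (φ ψ : ∀ F : Finset E, (Quotient (cset ends F) → ℝ) → ℝ) :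
    hs ends w S x (fun F X => φ F X + ψ F X) = hs ends w S x φ + hs ends w S x ψ := by
  unfold hs
  rw [← Finset.sum_add_distrib]
  exact Finset.sum_congr rfl fun F _ => by ring

lemma hs_mul (t : ℝ) (φ : ∀ F : Finset E, (Quotient (cset ends F) → ℝ) → ℝ) :
    hs ends w S x (fun F X => t * φ F X) = t * hs ends w S x φ := by
  unfold hs
  rw [Finset.mul_sum]
  exact Finset.sum_congr rfl fun F _ => by ring

/-- `h₀`. -/
noncomputable def h0 : ℝ := hs ends w S x fun _ X => A0 X
/-- `h_x`. -/
noncomputable def hx : ℝ := hs ends w S x fun _ X => Ax X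
/-- `h_b`. -/
noncomputable def hb : ℝ := hs ends w S x fun F X => Pool.Agent.TW.Ab X (cmp ends F b)
/-- `h_bx`. -/
noncomputable def hbx : ℝ := hs ends w S x fun F X => Abx X (cmp ends F b)
/-- `h_bd`. -/
noncomputable def hbd : ℝ := hs ends w S x fun F X => Abd X (cmp ends F b) (cmp ends F d)
/-- `h_bdx`. -/
noncomputable def hbdx : ℝ := hs ends w S x fun F X => Abdx X (cmp ends F b) (cmp ends F d)

variable {w x}

lemma RW_marks (hx0 : ∀ i, 0 ≤ x i) (t : ℝ) {r r' : ℝ} (hr : 0 ≤ r) (hr' : 0 ≤ r') :
    RW ends w S (diagonal (fun i => x i + (if i = b then r else 0) + (if i = d then r' else 0))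
      + t • vecMulVec x x) =
      (h0 ends w S x + r * hb ends w S x b + r' * hb ends w S x d + r * r' * hbd ends w S x b d)
      + t * (hx ends w S x + r * hbx ends w S x b + r' * hbx ends w S x d
        + r * r' * hbdx ends w S x b d) := by
  have h1 : RW ends w S (diagonal (fun i => x i + (if i = b then r else 0) +
      (if i = d then r' else 0)) + t • vecMulVec x x) =
      hs ends w S x (fun F X => (A0 X + r * Pool.Agent.TW.Ab X (cmp ends F b)
        + r' * Pool.Agent.TW.Ab X (cmp ends F d)
        + r * r' * Abd X (cmp ends F b) (cmp ends F d))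
        + t * (Ax X + r * Abx X (cmp ends F b) + r' * Abx X (cmp ends F d)
          + r * r' * Abdx X (cmp ends F b) (cmp ends F d))) := by
    unfold RW hs
    refine Finset.sum_congr rfl fun F _ => ?_
    congr 1
    rw [detR_comp ends F _ x t (fun i => by
      have := hx0 i
      split_ifs <;> positivity)]
    have h2 : ∀ q, cm ends F (fun i => x i + (if i = b then r else 0) +
        (if i = d then r' else 0)) q = cm ends F x q + (if q = cmp ends F b then r else 0)
          + (if q = cmp ends F d then r' else 0) := by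
      intro q
      rw [cm_add, cm_add, cm_single, cm_single]
    beta_reduce
    rw [← prod_two, ← Sg_two]
    simp only [h2]
  rw [h1]
  unfold h0 hx hb hbx hbd hbdx
  simp only [hs_add, hs_mul]

lemma T1 (hloop : ∀ e, ¬ (ends e).IsDiag) (hw : ∀ e, 0 ≤ w e) (hx0 : ∀ i, 0 ≤ x i) (t : ℝ) :
    (h0 ends w S x + t * hx ends w S x) * (hbd ends w S x b d + t * hbdx ends w S x b d) ≤
      (hb ends w S x b + t * hbx ends w S x b) * (hb ends w S x d + t * hbx ends w S x d) := by
  have hsym : (diagonal x + t • vecMulVec x x).IsSymm := by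
    rw [Matrix.IsSymm]
    rw [Matrix.transpose_add, Matrix.diagonal_transpose, Matrix.transpose_smul,
      Matrix.transpose_vecMulVec]
  have h1 := rayleigh_w ends hloop w hw S (diagonal x + t • vecMulVec x x) hsym
    (Pi.single b 1) (Pi.single d 1)
  have e0 : ∀ c : V, vecMulVec (Pi.single c (1 : ℝ)) (Pi.single c (1 : ℝ)) =
      diagonal (fun i => if i = c then 1 else 0) := by
    intro c
    ext i j
    rw [vecMulVec_apply, diagonal_apply, Pi.single_apply, Pi.single_apply]
    by_cases h1 : i = c
    · by_cases h2 : j = c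
      · simp [h1, h2]
      · simp [h1, h2]
        intro h4
        exact absurd h4.symm h2
    · simp [h1]
  have k00 := RW_marks (w := w) ends S b d hx0 t (le_refl 0) (le_refl 0)
  have k10 := RW_marks (w := w) ends S b d hx0 t zero_le_one (le_refl 0)
  have k01 := RW_marks (w := w) ends S b d hx0 t (le_refl 0) zero_le_one
  have k11 := RW_marks (w := w) ends S b d hx0 t zero_le_one zero_le_one
  have d00 : (diagonal (fun i => x i + (if i = b then (0 : ℝ) else 0) + (if i = d then (0 : ℝ) else 0))
      + t • vecMulVec x x) = diagonal x + t • vecMulVec x x := by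
    congr 2
    funext i
    simp
  have d10 : (diagonal (fun i => x i + (if i = b then (1 : ℝ) else 0) + (if i = d then (0 : ℝ) else 0))
      + t • vecMulVec x x) = diagonal x + t • vecMulVec x x +
        vecMulVec (Pi.single b (1 : ℝ)) (Pi.single b (1 : ℝ)) := by
    rw [e0, add_right_comm, Matrix.diagonal_add]
    congr 2
    funext i
    simp
  have d01 : (diagonal (fun i => x i + (if i = b then (0 : ℝ) else 0) + (if i = d then (1 : ℝ) else 0))
      + t • vecMulVec x x) = diagonal x + t • vecMulVec x x +
        vecMulVec (Pi.single d (1 : ℝ)) (Pi.single d (1 : ℝ)) := by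
    rw [e0, add_right_comm, Matrix.diagonal_add]
    congr 2
    funext i
    simp
  have d11 : (diagonal (fun i => x i + (if i = b then (1 : ℝ) else 0) + (if i = d then (1 : ℝ) else 0))
      + t • vecMulVec x x) = diagonal x + t • vecMulVec x x +
        vecMulVec (Pi.single b (1 : ℝ)) (Pi.single b (1 : ℝ)) +
        vecMulVec (Pi.single d (1 : ℝ)) (Pi.single d (1 : ℝ)) := by
    rw [e0, e0]
    have h5 : diagonal x + t • vecMulVec x x + diagonal (fun i => if i = b then (1 : ℝ) else 0) +
        diagonal (fun i => if i = d then (1 : ℝ) else 0) =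
        diagonal x + diagonal (fun i => if i = b then (1 : ℝ) else 0) +
        diagonal (fun i => if i = d then (1 : ℝ) else 0) + t • vecMulVec x x := by abel
    rw [h5, Matrix.diagonal_add, Matrix.diagonal_add]
  rw [d00] at k00
  rw [d10] at k10
  rw [d01] at k01
  rw [d11] at k11
  rw [k00, k10, k01, k11] at h1
  nlinarith

lemma h0_pos (hw : ∀ e, 0 ≤ w e) (hx0 : ∀ i, 0 ≤ x i) : 0 < h0 ends w S x := by
  unfold h0 hs
  have h2 : (∅ : Finset E) ∈ S.powerset.filter (fun F => Forest ends F) := by
    rw [mem_filter]
    refine ⟨mem_powerset.mpr (Finset.empty_subset _), ?_⟩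
    intro e he
    simp at he
  have hA : ∀ F : Finset E, 1 ≤ A0 (cm ends F x) := by
    intro F
    unfold A0
    have h6 := Finset.prod_le_prod (s := univ) (f := fun _ : Quotient (cset ends F) => (1 : ℝ))
      (g := fun q => 1 + cm ends F x q) (fun _ _ => zero_le_one) (fun q _ => by
        have := cm_nonneg ends F hx0 q
        linarith)
    rwa [Finset.prod_const_one] at h6
  have h3 := Finset.single_le_sum (f := fun F : Finset E => (∏ e ∈ F, w e) * A0 (cm ends F x))
    (fun F _ => mul_nonneg (Finset.prod_nonneg fun e _ => hw e)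
      (zero_le_one.trans (hA F))) h2
  have h4 := hA ∅
  rw [Finset.prod_empty, one_mul] at h3
  linarith

/-- The facts on one mark. -/
lemma mark_facts (hloop : ∀ e, ¬ (ends e).IsDiag) (hw : ∀ e, 0 ≤ w e) (hx0 : ∀ i, 0 ≤ x i) :
    0 ≤ hx ends w S x / h0 ends w S x ∧ 0 ≤ 1 - hb ends w S x b / h0 ends w S x ∧
    0 ≤ hx ends w S x / h0 ends w S x * (hb ends w S x b / h0 ends w S x)
      - hbx ends w S x b / h0 ends w S x ∧
    hx ends w S x / h0 ends w S x * (hb ends w S x b / h0 ends w S x)
      - hbx ends w S x b / h0 ends w S x ≤ 1 - hb ends w S x b / h0 ends w S x ∧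
    (hx ends w S x / h0 ends w S x * (hb ends w S x b / h0 ends w S x)
      - hbx ends w S x b / h0 ends w S x) ^ 2 ≤
      hx ends w S x / h0 ends w S x * (1 - hb ends w S x b / h0 ends w S x) *
        ((1 - hb ends w S x b / h0 ends w S x) -
          (hx ends w S x / h0 ends w S x * (hb ends w S x b / h0 ends w S x)
      - hbx ends w S x b / h0 ends w S x)) := by
  have hpos := h0_pos ends S hw hx0
  set H := h0 ends w S x with hH
  have hf1 : (fP ends w S x).eval 1 = H := fP_eval_one ends w S x
  have hf0 := fP_zero_pos (x := x) ends S hw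
  have hw1 : (wP ends w S x b).eval 1 = H - hb ends w S x b := wP_eval_one ends w S x b
  -- derivatives
  set D1 := (fP ends w S x).derivative.eval 1 with hD1
  set W1 := (wP ends w S x b).derivative.eval 1 with hW1
  set Ξ := ∑ i, x i with hΞ
  have hD0 : (fP ends w S x).derivative.eval 0 = Ξ * (fP ends w S x).eval 0 := by
    rw [fP_deriv_zero, fP_eval_zero]
  have ex : hx ends w S x = Ξ * H - D1 := by
    rw [hH, hD1, fP_deriv_one]
    unfold hx h0 hs
    rw [Finset.mul_sum, ← Finset.sum_sub_distrib]
    refine Finset.sum_congr rfl fun F _ => ?_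
    beta_reduce
    rw [Ax_eq, cm_total]
    ring
  have ebx : hbx ends w S x b = (1 + Ξ) * hb ends w S x b - H - (D1 - (H - hb ends w S x b) - W1) := by
    rw [hH, hD1, fP_deriv_one, hW1, wP_deriv_one]
    unfold hbx hb h0 hs
    rw [Finset.mul_sum, ← Finset.sum_sub_distrib, ← Finset.sum_sub_distrib,
      ← Finset.sum_sub_distrib, ← Finset.sum_sub_distrib, ← Finset.sum_sub_distrib]
    refine Finset.sum_congr rfl fun F _ => ?_
    beta_reduce
    rw [Abx_eq, cm_total, Sg_X (cm ends F x) (cmp ends F b)]
    ring
  have key := pf_row hf0 (fP_coeff ends S hw hx0) (wP_degree ends S b hw hx0)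
    (fun z hz => by
      rw [aeval_fP]
      refine HW_diag_ne_zero ends hloop w hw S _ fun i => ?_
      rcases (hx0 i).eq_or_lt with h | h
      · right
        rw [← h]
        simp
      · left
        rw [Complex.im_mul_ofReal]
        positivity)
    (fun z hz e he => by
      rw [aeval_two]
      refine HW_diag_ne_zero ends hloop w hw S _ fun i => ?_
      rcases (hx0 i).eq_or_lt with h | h
      · by_cases h1 : i = b
        · left
          rw [if_pos h1, ← h]
          simpa using he
        · right
          rw [if_neg h1, ← h]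
          simp
      · left
        rw [Complex.add_im, Complex.im_mul_ofReal]
        have : 0 ≤ (if i = b then e else 0).im := by
          split_ifs
          · exact he.le
          · simp
        positivity)
    (F1 := D1 / H) (g := hx ends w S x / H) (β := 1 - hb ends w S x b / H)
    (B := hx ends w S x / H * (hb ends w S x b / H) - hbx ends w S x b / H)
    (by rw [hf1])
    (by
      rw [hD0, ex]
      field_simp)
    (by
      rw [hw1, hf1]
      field_simp)
    (by
      rw [hf1, ex, ebx]
      field_simp
      ring)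
  exact key

/-- **The main inequality for the coefficients.** -/
theorem coef_ineq (hloop : ∀ e, ¬ (ends e).IsDiag) (hw : ∀ e, 0 ≤ w e) (hx0 : ∀ i, 0 ≤ x i)
    {ya yc u : ℝ} (hya : 0 ≤ ya) (hyc : 0 ≤ yc) (hy : ya + yc = 1) (hu : 0 ≤ u) :
    ((1 + u) * h0 ends w S x + ya * yc * hx ends w S x) *
      (ya * hb ends w S x b + yc * hb ends w S x d + ya * yc * hbdx ends w S x b d
        + u * hbd ends w S x b d) ≤
    (yc * h0 ends w S x + ya * hb ends w S x b + ya * yc * hbx ends w S x b
        + u * hb ends w S x b) *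
      (ya * h0 ends w S x + yc * hb ends w S x d + ya * yc * hbx ends w S x d
        + u * hb ends w S x d) := by
  have hpos := h0_pos ends S hw hx0
  obtain ⟨a1, a2, a3, a4, a5⟩ := mark_facts ends S b hloop hw hx0
  obtain ⟨-, c2, c3, c4, c5⟩ := mark_facts ends S d hloop hw hx0
  have hT := T1 ends S b d hloop hw hx0
  set H := h0 ends w S x with hH
  set G := hx ends w S x
  set B := hb ends w S x b
  set D := hb ends w S x d
  set Bx := hbx ends w S x b
  set Dx := hbx ends w S x d
  set O := hbd ends w S x b d
  set K := hbdx ends w S x b d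
  have h1 := core (g := G / H) (μb := Bx / H) (μd := Dx / H) (κ := K / H) (ω := O / H)
    (φb := B / H) (φd := D / H) a1 hya hyc hy hu (fun t => by
      have h2 := hT t
      have e1 : (1 + t * (G / H)) * (O / H + t * (K / H)) =
          ((H + t * G) * (O + t * K)) / (H * H) := by
        field_simp
      have e2 : (B / H + t * (Bx / H)) * (D / H + t * (Dx / H)) =
          ((B + t * Bx) * (D + t * Dx)) / (H * H) := by
        field_simp
      rw [e1, e2]
      exact div_le_div_of_nonneg_right h2 (by positivity)) a2 c2 a3 c3 a4 c4 a5 c5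
  have e1 : ((1 + u) * H + ya * yc * G) * (ya * B + yc * D + ya * yc * K + u * O) =
      H * H * ((1 + u + ya * yc * (G / H)) *
        (ya * (B / H) + yc * (D / H) + ya * yc * (K / H) + u * (O / H))) := by
    field_simp
  have e2 : (yc * H + ya * B + ya * yc * Bx + u * B) * (ya * H + yc * D + ya * yc * Dx + u * D) =
      H * H * ((yc + ya * (B / H) + ya * yc * (Bx / H) + u * (B / H)) *
        (ya + yc * (D / H) + ya * yc * (Dx / H) + u * (D / H))) := by
    field_simp
  rw [e1, e2]
  exact mul_le_mul_of_nonneg_left h1 (by positivity)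

end

end Pool.Agent.Lib.MP_d90615_co
end

section

/-!
Rayleigh inequalities and the law of the degree.
-/

set_option autoImplicit false
set_option linter.unusedSectionVars false

namespace Pool.Agent.Lib.MP_d90615_co

open Matrix Finset
open scoped Classical Topology

variable {V E : Type*} [Fintype V] [Fintype E]

/-- Sum over the forests with the pattern `P` of the product of the weights without `e`, `f`. -/
noncomputable def BB (ends : E → Sym2 V) (w : E → ℝ) (h : V) (e f : E) (P : Finset E → Prop)
    (z : E → ℂ) : ℂ :=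
  ∑ F ∈ (univ : Finset (Finset E)) with Forest ends F ∧ P F,
    ∏ g ∈ (F.erase e).erase f, (if h ∈ ends g then z g else (w g : ℂ))

/-- The real form of `BB`. -/
noncomputable def BR (ends : E → Sym2 V) (w : E → ℝ) (h : V) (e f : E) (P : Finset E → Prop)
    (z : E → ℝ) : ℝ :=
  ∑ F ∈ (univ : Finset (Finset E)) with Forest ends F ∧ P F,
    ∏ g ∈ (F.erase e).erase f, (if h ∈ ends g then z g else w g)

lemma BB_ofReal (ends : E → Sym2 V) (w : E → ℝ) (h : V) (e f : E) (P : Finset E → Prop)
    (z : E → ℝ) : BB ends w h e f P (fun g => (z g : ℂ)) = (BR ends w h e f P z : ℂ) := by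
  unfold BB BR
  push_cast
  refine Finset.sum_congr rfl fun F _ => Finset.prod_congr rfl fun g _ => ?_
  split_ifs <;> rfl

lemma gs_four (ends : E → Sym2 V) (w : E → ℝ) (h : V) {e f : E} (hef : e ≠ f)
    (he : h ∈ ends e) (hf : h ∈ ends f) (z : E → ℂ) :
    gs ends w h z = BB ends w h e f (fun F => e ∉ F ∧ f ∉ F) z
      + z e * BB ends w h e f (fun F => e ∈ F ∧ f ∉ F) z
      + z f * BB ends w h e f (fun F => e ∉ F ∧ f ∈ F) z
      + z e * z f * BB ends w h e f (fun F => e ∈ F ∧ f ∈ F) z := by
  unfold gs BB
  rw [Finset.mul_sum, Finset.mul_sum, Finset.mul_sum, Finset.sum_filter, Finset.sum_filter,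
    Finset.sum_filter, Finset.sum_filter, Finset.sum_filter, ← Finset.sum_add_distrib,
    ← Finset.sum_add_distrib, ← Finset.sum_add_distrib]
  refine Finset.sum_congr rfl fun F _ => ?_
  by_cases h1 : Forest ends F
  · by_cases h2 : e ∈ F
    · by_cases h3 : f ∈ F
      · simp only [h1, h2, h3, not_true, and_false, false_and, if_false, and_self, if_true,
          zero_add]
        have h4 : f ∈ F.erase e := Finset.mem_erase.mpr ⟨hef.symm, h3⟩
        rw [← Finset.mul_prod_erase F _ h2, ← Finset.mul_prod_erase (F.erase e) _ h4, if_pos he,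
          if_pos hf]
        ring
      · simp only [h1, h2, h3, not_true, not_false_iff, and_false, and_true, if_false,
          and_self, if_true, zero_add, add_zero]
        have h4 : f ∉ F.erase e := fun h5 => h3 (Finset.mem_of_mem_erase h5)
        rw [← Finset.mul_prod_erase F _ h2, if_pos he, Finset.erase_eq_of_notMem h4]
    · by_cases h3 : f ∈ F
      · simp only [h1, h2, h3, not_true, not_false_iff, and_false, and_true, if_false,
          and_self, if_true, zero_add, add_zero]
        rw [Finset.erase_eq_of_notMem h2, ← Finset.mul_prod_erase F _ h3, if_pos hf]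
      · simp only [h1, h2, h3, not_false_iff, and_false, and_true, if_false,
          and_self, if_true, add_zero]
        rw [Finset.erase_eq_of_notMem h2, Finset.erase_eq_of_notMem h3]
  · simp [h1]

lemma BB_congr (ends : E → Sym2 V) (w : E → ℝ) (h : V) {e f : E} (P : Finset E → Prop)
    {z z' : E → ℂ} (hz : ∀ g, g ≠ e → g ≠ f → z g = z' g) :
    BB ends w h e f P z = BB ends w h e f P z' := by
  unfold BB
  refine Finset.sum_congr rfl fun F _ => Finset.prod_congr rfl fun g hg => ?_
  rw [Finset.mem_erase, Finset.mem_erase] at hg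
  rw [hz g hg.2.1 hg.1]

lemma BB_continuous (ends : E → Sym2 V) (w : E → ℝ) (h : V) (e f : E) (P : Finset E → Prop) :
    Continuous fun z : E → ℂ => BB ends w h e f P z := by
  unfold BB
  refine continuous_finsetSum _ fun F _ => continuous_finsetProd _ fun g _ => ?_
  split_ifs
  · exact continuous_apply g
  · exact continuous_const

/-- The Rayleigh inequality in the variables of the edges at `h`, all real values. -/
theorem star_rayleigh (ends : E → Sym2 V) (hloop : ∀ e, ¬ (ends e).IsDiag) (w : E → ℝ)
    (hw : ∀ e, 0 ≤ w e) (h : V) {e f : E} (hef : e ≠ f) (he : h ∈ ends e) (hf : h ∈ ends f)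
    (x : E → ℝ) :
    BR ends w h e f (fun F => e ∉ F ∧ f ∉ F) x * BR ends w h e f (fun F => e ∈ F ∧ f ∈ F) x ≤
      BR ends w h e f (fun F => e ∈ F ∧ f ∉ F) x * BR ends w h e f (fun F => e ∉ F ∧ f ∈ F) x := by
  set B00 := BB ends w h e f (fun F => e ∉ F ∧ f ∉ F) with hB00
  set B10 := BB ends w h e f (fun F => e ∈ F ∧ f ∉ F) with hB10
  set B01 := BB ends w h e f (fun F => e ∉ F ∧ f ∈ F) with hB01
  set B11 := BB ends w h e f (fun F => e ∈ F ∧ f ∈ F) with hB11
  set y : ℝ → E → ℂ := fun η g => (x g : ℂ) + η * Complex.I with hy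
  set φ : ℝ → ℝ := fun η =>
    ((B00 (y η) + Complex.I * B10 (y η)) *
      (starRingEnd ℂ) (B01 (y η) + Complex.I * B11 (y η))).im with hφ
  have hycont : Continuous y := by
    refine continuous_pi fun g => ?_
    exact continuous_const.add (Complex.continuous_ofReal.mul continuous_const)
  have hφc : Continuous φ := by
    apply Complex.continuous_im.comp
    refine Continuous.mul ?_ (Complex.continuous_conj.comp ?_)
    · exact ((BB_continuous ends w h e f _).comp hycont).add
        (continuous_const.mul ((BB_continuous ends w h e f _).comp hycont))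
    · exact ((BB_continuous ends w h e f _).comp hycont).add
        (continuous_const.mul ((BB_continuous ends w h e f _).comp hycont))
  have hφpos : ∀ η : ℝ, 0 < η → 0 ≤ φ η := by
    intro η hη
    -- evaluate at `z e = i`, `z f = s + iθ`, then let θ → 0
    have key : ∀ θ : ℝ, 0 < θ → 0 ≤
        ((B00 (y η) + Complex.I * B10 (y η) + (θ * Complex.I) *
            (B01 (y η) + Complex.I * B11 (y η))) *
          (starRingEnd ℂ) (B01 (y η) + Complex.I * B11 (y η))).im := by
      intro θ hθ
      apply im_bilinear
      intro s hs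
      set z : E → ℂ := Function.update (Function.update (y η) e Complex.I) f (θ * Complex.I + s)
        with hz
      have h1 : gs ends w h z ≠ 0 := by
        refine gs_ne_zero ends hloop w hw h z fun g _ => Or.inl ?_
        rw [hz]
        by_cases hgf : g = f
        · subst hgf
          rw [Function.update_self]
          simp
          linarith
        · rw [Function.update_of_ne hgf]
          by_cases hge : g = e
          · subst hge
            rw [Function.update_self]
            simp
          · rw [Function.update_of_ne hge]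
            simp [hy, hη]
      rw [gs_four ends w h hef he hf] at h1
      have hcongr : ∀ P, BB ends w h e f P z = BB ends w h e f P (y η) := by
        intro P
        refine BB_congr ends w h P fun g hge hgf => ?_
        rw [hz, Function.update_of_ne hgf, Function.update_of_ne hge]
      have hze : z e = Complex.I := by
        rw [hz, Function.update_of_ne hef, Function.update_self]
      have hzf : z f = θ * Complex.I + s := by
        rw [hz, Function.update_self]
      rw [hcongr, hcongr, hcongr, hcongr, hze, hzf] at h1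
      intro h2
      apply h1
      rw [← h2]
      ring
    have hcont : Continuous fun θ : ℝ =>
        ((B00 (y η) + Complex.I * B10 (y η) + (θ * Complex.I) *
            (B01 (y η) + Complex.I * B11 (y η))) *
          (starRingEnd ℂ) (B01 (y η) + Complex.I * B11 (y η))).im := by
      fun_prop
    have h1 := (hcont.tendsto 0).mono_left (nhdsWithin_le_nhds (s := Set.Ioi 0))
    have h2 := ge_of_tendsto h1 (by
      filter_upwards [self_mem_nhdsWithin] with θ hθ
      exact key θ hθ)
    rw [hφ]
    simpa using h2
  have hφ0 : 0 ≤ φ 0 := by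
    have h1 : Filter.Tendsto φ (𝓝[>] 0) (𝓝 (φ 0)) :=
      (hφc.tendsto 0).mono_left nhdsWithin_le_nhds
    refine ge_of_tendsto h1 ?_
    filter_upwards [self_mem_nhdsWithin] with ε hε
    exact hφpos ε hε
  have hy0 : y 0 = fun g => (x g : ℂ) := by
    funext g
    simp [hy]
  rw [hφ] at hφ0
  simp only [hy0, hB00, hB10, hB01, hB11, BB_ofReal] at hφ0
  simp at hφ0
  linarith

end Pool.Agent.Lib.MP_d90615_co
end
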