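import Mathlib
import Pool.Agent.Lib.MP_d90615_co.PW.Multi
import Pool.Agent.Lib.MP_d90615_co.Mg.G002
import Pool.Agent.Lib.MP_d90615_co.Mg.G005
import Pool.Agent.Lib.MP_d90615_co.Mg.G006

section

/-!
Product joins: definitions.
-/

set_option autoImplicit false
set_option linter.unusedSectionVars false

namespace Pool.Agent.MJ

open Finset Polynomial
open scoped Classical

section Poly

variable {K : Type*} [Field K]

/-- Image of `X ^ n` under `exp (s D² / 2)`. -/
noncomputable def hp (s : K) : ℕ → K[X]
  | 0 => 1
  | n + 1 => X * hp s n + C s * derivative (hp s n)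

/-- `exp (s D² / 2)`. -/
noncomputable def T (s : K) : K[X] →ₗ[K] K[X] :=
  Polynomial.lsum fun n => LinearMap.toSpanSingleton K K[X] (hp s n)

/-- The multilinear functional. -/
noncomputable def NN {ι : Type*} [Fintype ι] (q : ι → K[X]) : K[X] := T (-1) (∏ k, T 1 (q k))

/-- `D p = X p - p'`. -/
noncomputable def DD (p : K[X]) : K[X] := X * p - derivative p

/-- Shift. -/
noncomputable def sh (a : K) (p : K[X]) : K[X] := p.comp (X - C a)

/-- `Λ_a p = T_- (p - (a p - p') / X) (a)`. -/
noncomputable def Lam (a : K) (p : K[X]) : K :=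
  (T (-1) (p - (C a * p - derivative p).divX)).eval a

/-- `∏ (1 + θ X)`. -/
noncomputable def Pf {J : Type*} (s : Finset J) (θ : J → K) : K[X] := ∏ j ∈ s, (1 + C (θ j) * X)

/-- `∑ θ² ∏ (1 + θ X)`. -/
noncomputable def Qf {J : Type*} (s : Finset J) (θ : J → K) : K[X] :=
  ∑ j ∈ s, C (θ j ^ 2) * ∏ i ∈ s.erase j, (1 + C (θ i) * X)

end Poly

section Graph

variable {V : Type*} [Fintype V]

/-- The graph `W` with a hub `none` that is joined to `v` with weight `z v`. -/
noncomputable def St (W : Sym2 V → ℝ) (z : V → ℝ) : Sym2 (Option V) → ℝ :=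
  Sym2.lift ⟨fun p q => match p, q with
    | none, none => 0
    | none, some v => z v
    | some u, none => z u
    | some u, some v => W s(u, v),
    by
      intro p q
      cases p <;> cases q <;> simp [Sym2.eq_swap]⟩

/-- Forests of the graph with a hub. -/
noncomputable def Zs (W : Sym2 V → ℝ) (z : V → ℝ) : ℝ := Pool.Agent.PW.Z (St W z)

/-- Forests of the graph with a hub in which `a` is contracted into the hub. -/
noncomputable def Gs (W : Sym2 V → ℝ) (z : V → ℝ) (a : V) : ℝ :=
  Pool.Agent.PW.N (St W z) s(none, some a)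

end Graph

end Pool.Agent.MJ
end

section

/-!
Graphs with a hub: deletion and contraction.
-/

set_option autoImplicit false
set_option linter.unusedSectionVars false

namespace Pool.Agent.MJ

open Finset Polynomial
open scoped Classical
open Pool.Agent.PW (Z N N2 Ray cw pw mv ct)

variable {V : Type*} [Fintype V]

@[simp] lemma St_some (W : Sym2 V → ℝ) (z : V → ℝ) (u v : V) :
    St W z s(some u, some v) = W s(u, v) := rfl

@[simp] lemma St_none (W : Sym2 V → ℝ) (z : V → ℝ) (v : V) :
    St W z s(none, some v) = z v := rfl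

lemma St_ext {W : Sym2 V → ℝ} {z : V → ℝ} {U : Sym2 (Option V) → ℝ}
    (h1 : ∀ u v, u ≠ v → U s(some u, some v) = W s(u, v))
    (h2 : ∀ v, U s(none, some v) = z v) (g : Sym2 (Option V)) (hg : ¬ g.IsDiag) :
    U g = St W z g := by
  induction g using Sym2.ind with
  | _ p q =>
    rw [Sym2.mk_isDiag_iff] at hg
    cases p with
    | none =>
      cases q with
      | none => exact absurd rfl hg
      | some v => rw [h2, St_none]
    | some u =>
      cases q with
      | none => rw [Sym2.eq_swap, h2, St_none]
      | some v =>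
        rw [h1, St_some]
        rintro rfl
        exact hg rfl

lemma St_congr {W W' : Sym2 V → ℝ} {z z' : V → ℝ} (h : ∀ g, ¬ g.IsDiag → W g = W' g)
    (hz : ∀ v, z v = z' v) (g : Sym2 (Option V)) (hg : ¬ g.IsDiag) : St W z g = St W' z' g := by
  refine St_ext (fun u v huv => ?_) (fun v => ?_) g hg
  · rw [St_some, h]
    rw [Sym2.mk_isDiag_iff]
    exact huv
  · rw [St_none, hz]

lemma Zs_congr2 {W W' : Sym2 V → ℝ} {z z' : V → ℝ} (h : ∀ g, ¬ g.IsDiag → W g = W' g)
    (hz : ∀ v, z v = z' v) : Zs W z = Zs W' z' :=
  Pool.Agent.PW.Z_congr (St_congr h hz)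

lemma cw_St {a b : V} (hab : a ≠ b) (W : Sym2 V → ℝ) (z : V → ℝ) (g : Sym2 (Option V))
    (hg : ¬ g.IsDiag) :
    cw (some a) (some b) (St W z) g = St (cw a b W) (mv z a b) g := by
  have hn : ct (some a) (some b) (none : Option V) = none := by
    unfold ct
    rw [if_neg (by simp)]
  have hs : ∀ u : V, ct (some a) (some b) (some u) = some (ct a b u) := by
    intro u
    unfold ct
    by_cases h : u = b
    · rw [if_pos h, if_pos (by rw [h])]
    · rw [if_neg h, if_neg (by simpa using h)]
  refine St_ext (fun u v huv => ?_) (fun v => ?_) g hg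
  · unfold cw
    symm
    refine Finset.sum_bij (fun e _ => Sym2.map some e) ?_ ?_ ?_ ?_
    · intro e he
      induction e using Sym2.ind with
      | _ p q =>
        simp only [mem_filter, mem_univ, true_and] at he ⊢
        rw [Sym2.map_mk] at he
        rw [Sym2.map_mk, Sym2.map_mk, hs, hs]
        rw [Sym2.eq_iff] at he ⊢
        rcases he with h | h
        · left; rw [h.1, h.2]; exact ⟨rfl, rfl⟩
        · right; rw [h.1, h.2]; exact ⟨rfl, rfl⟩
    · intro e _ e' _ h
      exact Sym2.map.injective (Option.some_injective V) h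
    · intro e he
      induction e using Sym2.ind with
      | _ p q =>
        simp only [mem_filter, mem_univ, true_and] at he
        rw [Sym2.map_mk] at he
        cases p with
        | none =>
          rw [hn, Sym2.eq_iff] at he
          rcases he with h | h
          · exact absurd h.1 (by simp)
          · exact absurd h.1 (by simp)
        | some p =>
          cases q with
          | none =>
            rw [hn, Sym2.eq_iff] at he
            rcases he with h | h
            · exact absurd h.2 (by simp)
            · exact absurd h.2 (by simp)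
          | some q =>
            rw [hs, hs, Sym2.eq_iff] at he
            refine ⟨s(p, q), ?_, rfl⟩
            simp only [mem_filter, mem_univ, true_and]
            rw [Sym2.map_mk, Sym2.eq_iff]
            simpa using he
    · intro e _
      induction e using Sym2.ind with
      | _ p q => rfl
  · rw [← Pool.Agent.PW.sum_fib hab z v]
    unfold cw
    symm
    refine Finset.sum_bij (fun u _ => s(none, some u)) ?_ ?_ ?_ ?_
    · intro u hu
      simp only [mem_filter, mem_univ, true_and] at hu ⊢
      rw [Sym2.map_mk, hn, hs, hu]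
    · intro u _ u' _ h
      rw [Sym2.eq_iff] at h
      rcases h with h | h
      · exact Option.some_injective V h.2
      · exact absurd h.1 (by simp)
    · intro e he
      induction e using Sym2.ind with
      | _ p q =>
        simp only [mem_filter, mem_univ, true_and] at he
        rw [Sym2.map_mk] at he
        cases p with
        | none =>
          cases q with
          | none =>
            rw [hn, Sym2.eq_iff] at he
            rcases he with h | h
            · exact absurd h.2 (by simp)
            · exact absurd h.1 (by simp)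
          | some q =>
            rw [hn, hs, Sym2.eq_iff] at he
            refine ⟨q, ?_, rfl⟩
            simp only [mem_filter, mem_univ, true_and]
            rcases he with h | h
            · exact Option.some_injective V h.2
            · exact absurd h.1 (by simp)
        | some p =>
          cases q with
          | none =>
            rw [hn, hs, Sym2.eq_iff] at he
            refine ⟨p, ?_, Sym2.eq_swap⟩
            simp only [mem_filter, mem_univ, true_and]
            rcases he with h | h
            · exact absurd h.1 (by simp)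
            · exact Option.some_injective V h.1
          | some q =>
            rw [hs, hs, Sym2.eq_iff] at he
            rcases he with h | h
            · exact absurd h.1 (by simp)
            · exact absurd h.2 (by simp)
    · intro u _
      rfl

/-- Deletion and contraction of one pair. -/
lemma Zs_del (W : Sym2 V → ℝ) {a b : V} (hab : a ≠ b) (t : ℝ) (z : V → ℝ) :
    Zs W z = Zs (Function.update W s(a, b) t) z +
      (W s(a, b) - t) * Zs (cw a b W) (mv z a b) := by
  unfold Zs
  have h1 : some a ≠ some b := fun h => hab (Option.some_injective V h)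
  rw [Pool.Agent.PW.Z_split (St W z) s(some a, some b) t, St_some]
  congr 1
  · refine Pool.Agent.PW.Z_congr fun g hg => ?_
    refine St_ext (fun u v huv => ?_) (fun v => ?_) g hg
    · by_cases h : s(u, v) = s(a, b)
      · rw [h, Function.update_self]
        have h2 : s(some u, some v) = s(some a, some b) := by
          have := congrArg (Sym2.map some) h
          rwa [Sym2.map_mk, Sym2.map_mk] at this
        rw [h2, Function.update_self]
      · rw [Function.update_of_ne h, Function.update_of_ne, St_some]
        intro h2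
        exact h (Sym2.map.injective (Option.some_injective V) h2)
    · rw [Function.update_of_ne, St_none]
      intro h2
      rw [Sym2.eq_iff] at h2
      rcases h2 with h2 | h2
      · exact absurd h2.1 (by simp)
      · exact absurd h2.1 (by simp)
  · rw [Pool.Agent.PW.N_eq h1]
    congr 1
    exact Pool.Agent.PW.Z_congr fun g hg => cw_St hab W z g hg

/-- Deletion and contraction for the partition function without hub. -/
lemma Z_del (W : Sym2 V → ℝ) {a b : V} (hab : a ≠ b) (t : ℝ) :
    Z W = Z (Function.update W s(a, b) t) + (W s(a, b) - t) * Z (cw a b W) := by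
  rw [Pool.Agent.PW.Z_split W s(a, b) t, Pool.Agent.PW.N_eq hab]

/-- The number of pairs with a weight. -/
noncomputable def supp (W : Sym2 V → ℝ) : ℕ :=
  ((univ : Finset (Sym2 V)).filter fun g => ¬ g.IsDiag ∧ W g ≠ 0).card

lemma supp_update {W : Sym2 V → ℝ} {g : Sym2 V} (hg : ¬ g.IsDiag) (hW : W g ≠ 0) :
    supp (Function.update W g 0) < supp W := by
  unfold supp
  refine Finset.card_lt_card ?_
  rw [Finset.ssubset_iff_of_subset]
  · refine ⟨g, ?_, ?_⟩
    · simp only [mem_filter, mem_univ, true_and]
      exact ⟨hg, hW⟩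
    · simp
  · intro e he
    simp only [mem_filter, mem_univ, true_and] at he ⊢
    refine ⟨he.1, ?_⟩
    by_cases h : e = g
    · subst h
      exact hW
    · rw [Function.update_of_ne h] at he
      exact he.2

lemma supp_cw {W : Sym2 V → ℝ} {a b : V} (hab : a ≠ b) (hW : W s(a, b) ≠ 0) :
    supp (cw a b W) < supp W := by
  have hd : ¬ (s(a, b)).IsDiag := by
    rw [Sym2.mk_isDiag_iff]
    exact hab
  refine lt_of_le_of_lt ?_ (supp_update hd hW)
  unfold supp
  refine le_trans (Finset.card_le_card ?_) (Finset.card_image_le (f := Sym2.map (ct a b)))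
  intro e' he'
  simp only [mem_filter, mem_univ, true_and] at he'
  obtain ⟨h1, h2⟩ := he'
  unfold cw at h2
  obtain ⟨e, he, he2⟩ := Finset.exists_ne_zero_of_sum_ne_zero h2
  simp only [mem_filter, mem_univ, true_and] at he
  rw [mem_image]
  refine ⟨e, ?_, he⟩
  simp only [mem_filter, mem_univ, true_and]
  have hed : ¬ e.IsDiag := by
    intro h
    apply h1
    rw [← he]
    induction e using Sym2.ind with
    | _ p q =>
      rw [Sym2.mk_isDiag_iff] at h
      rw [Sym2.map_mk, Sym2.mk_isDiag_iff, h]
  refine ⟨hed, ?_⟩
  rw [Function.update_of_ne]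
  · exact he2
  · rintro rfl
    apply h1
    rw [← he, Sym2.map_mk, Sym2.mk_isDiag_iff]
    unfold ct
    rw [if_neg hab, if_pos rfl]

lemma cw_add (W W' : Sym2 V → ℝ) (a b : V) (g : Sym2 V) :
    cw a b (fun g => W g + W' g) g = cw a b W g + cw a b W' g := by
  unfold cw
  rw [Finset.sum_add_distrib]

end Pool.Agent.MJ
end

section

/-!
Graphs with a hub: star weights, disjoint unions and bridges.
-/

set_option autoImplicit false
set_option linter.unusedSectionVars false

namespace Pool.Agent.MJ

open Finset Polynomial
open scoped Classical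
open Pool.Agent.PW (Z N N2 Ray cw pw mv ct)

variable {V : Type*} [Fintype V]

theorem Zs_congr {W W' : Sym2 V → ℝ} (h : ∀ g, ¬ g.IsDiag → W g = W' g) (z : V → ℝ) :
    Zs W z = Zs W' z := Zs_congr2 h fun _ => rfl

lemma cw_update_diag {a b : V} (hab : a ≠ b) (W : Sym2 V → ℝ) (t : ℝ) (g : Sym2 V)
    (hg : ¬ g.IsDiag) : cw a b (Function.update W s(a, b) t) g = cw a b W g := by
  rw [Pool.Agent.PW.cw_update, Function.update_of_ne]
  rintro rfl
  apply hg
  rw [Sym2.map_mk, Sym2.mk_isDiag_iff]
  unfold ct
  rw [if_neg hab, if_pos rfl]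

theorem Zs_split (W : Sym2 V → ℝ) {a b : V} (hab : a ≠ b) (t : ℝ) (z : V → ℝ) :
    Zs (Function.update W s(a, b) (W s(a, b) + t)) z = Zs W z + t * Zs (cw a b W) (mv z a b) := by
  rw [Zs_del _ hab (W s(a, b)) z, Function.update_idem, Function.update_eq_self,
    Function.update_self, Zs_congr2 (cw_update_diag hab W _) fun _ => rfl]
  ring

theorem Zs_star (W : Sym2 V → ℝ) (z : V → ℝ) (a : V) (t : ℝ) :
    Zs W (Function.update z a (z a + t)) = Zs W z + t * Gs W z a := by
  unfold Zs Gs
  rw [Pool.Agent.PW.Z_split (St W (Function.update z a (z a + t))) s(none, some a) (z a)]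
  have h0 : St W (Function.update z a (z a + t)) s(none, some a) = z a + t := by
    rw [St_none, Function.update_self]
  have h1 : Z (Function.update (St W (Function.update z a (z a + t))) s(none, some a) (z a)) =
      Z (St W z) := by
    refine Pool.Agent.PW.Z_congr fun g hg => St_ext (fun u v huv => ?_) (fun v => ?_) g hg
    · rw [Function.update_of_ne, St_some]
      intro h
      rw [Sym2.eq_iff] at h
      rcases h with h | h
      · exact absurd h.1 (by simp)
      · exact absurd h.2 (by simp)
    · by_cases h : v = a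
      · subst h
        rw [Function.update_self]
      · rw [Function.update_of_ne, St_none, Function.update_of_ne h]
        intro h2
        rw [Sym2.eq_iff] at h2
        rcases h2 with h2 | h2
        · exact h (Option.some_injective V h2.2)
        · exact absurd h2.1 (by simp)
  have h2 : N (St W (Function.update z a (z a + t))) s(none, some a) =
      N (St W z) s(none, some a) := by
    refine Pool.Agent.PW.N_congr fun f hf hne => ?_
    induction f using Sym2.ind with
    | _ p q =>
      cases p with
      | none =>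
        cases q with
        | none => rfl
        | some v =>
          rw [St_none, St_none, Function.update_of_ne]
          rintro rfl
          exact hne rfl
      | some u =>
        cases q with
        | none =>
          rw [Sym2.eq_swap, St_none, St_none, Function.update_of_ne]
          rintro rfl
          exact hne Sym2.eq_swap
        | some v => rw [St_some, St_some]
  rw [h0, h1, h2]
  ring

lemma Gs_of_star (W : Sym2 V → ℝ) (z : V → ℝ) (a : V) :
    Gs W z a = Zs W (Function.update z a (z a + 1)) - Zs W z := by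
  rw [Zs_star]
  ring

lemma Gs_zero_aux (z : V → ℝ) (a : V) (ha : z a = 0) :
    Gs (fun _ => 0) z a = Zs (fun _ => 0) z := by
  unfold Gs Zs
  have hn : ct (none : Option V) (some a) none = none := by
    unfold ct
    rw [if_neg (by simp)]
  have hs : ∀ u : V, ct (none : Option V) (some a) (some u) = if u = a then none else some u := by
    intro u
    unfold ct
    by_cases h : u = a
    · rw [if_pos (by rw [h]), if_pos h]
    · rw [if_neg (by simpa using h), if_neg h]
  rw [Pool.Agent.PW.N_eq (by simp)]
  refine Pool.Agent.PW.Z_congr fun g hg => St_ext (fun u v huv => ?_) (fun v => ?_) g hg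
  · unfold cw
    refine Finset.sum_eq_zero fun e he => ?_
    induction e using Sym2.ind with
    | _ p q =>
      simp only [mem_filter, mem_univ, true_and, Sym2.map_mk] at he
      cases p with
      | none =>
        rw [hn, Sym2.eq_iff] at he
        rcases he with h | h
        · exact absurd h.1 (by simp)
        · exact absurd h.1 (by simp)
      | some p =>
        cases q with
        | none =>
          rw [hn, Sym2.eq_iff] at he
          rcases he with h | h
          · exact absurd h.2 (by simp)
          · exact absurd h.2 (by simp)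
        | some q => rfl
  · unfold cw
    by_cases hv : v = a
    · subst hv
      rw [ha]
      refine Finset.sum_eq_zero fun e he => ?_
      exfalso
      induction e using Sym2.ind with
      | _ p q =>
        simp only [mem_filter, mem_univ, true_and, Sym2.map_mk] at he
        have hne : ∀ p : Option V, ct (none : Option V) (some v) p ≠ some v := by
          intro p
          unfold ct
          by_cases h : p = some v
          · rw [if_pos h]; simp
          · rw [if_neg h]; exact h
        rw [Sym2.eq_iff] at he
        rcases he with h | h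
        · exact hne _ h.2
        · exact hne _ h.1
    · rw [Finset.sum_eq_single s(none, some v)]
      · rfl
      · intro e he hne
        induction e using Sym2.ind with
        | _ p q =>
          simp only [mem_filter, mem_univ, true_and, Sym2.map_mk] at he
          cases p with
          | none =>
            cases q with
            | none =>
              rw [hn, Sym2.eq_iff] at he
              rcases he with h | h
              · exact absurd h.2 (by simp)
              · exact absurd h.1 (by simp)
            | some q =>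
              exfalso
              rw [hn, hs, Sym2.eq_iff] at he
              rcases he with h | h
              · by_cases hq : q = a
                · rw [if_pos hq] at h
                  exact absurd h.2 (by simp)
                · rw [if_neg hq] at h
                  exact hne (by rw [h.2])
              · exact absurd h.1 (by simp)
          | some p =>
            cases q with
            | none =>
              exfalso
              rw [hn, hs, Sym2.eq_iff] at he
              rcases he with h | h
              · exact absurd h.2 (by simp)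
              · by_cases hp : p = a
                · rw [if_pos hp] at h
                  exact absurd h.1 (by simp)
                · rw [if_neg hp] at h
                  exact hne (by rw [h.1]; exact Sym2.eq_swap)
            | some q => rfl
      · intro h
        exfalso
        apply h
        simp only [mem_filter, mem_univ, true_and, Sym2.map_mk]
        rw [hn, hs, if_neg hv]

theorem Zs_zero (z : V → ℝ) : Zs (fun _ => 0) z = ∏ v, (1 + z v) := by
  have key : ∀ A : Finset V, ∀ z : V → ℝ, (∀ v ∉ A, z v = 0) →
      Zs (fun _ => 0) z = ∏ v ∈ A, (1 + z v) := by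
    intro A
    induction A using Finset.induction_on with
    | empty =>
      intro z hz
      rw [Finset.prod_empty]
      unfold Zs
      rw [← Pool.Agent.PW.Z_zero (y := fun _ : Option V => (0 : ℝ)) fun _ => rfl]
      refine Pool.Agent.PW.Z_congr fun g hg => ?_
      symm
      refine St_ext (fun u v huv => ?_) (fun v => ?_) g hg
      · rw [Pool.Agent.PW.pw_mk]; ring
      · rw [Pool.Agent.PW.pw_mk, hz v (Finset.notMem_empty v)]; ring
    | insert a A ha ih =>
      intro z hz
      have h1 : z = Function.update (Function.update z a 0) a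
          ((Function.update z a 0) a + z a) := by
        rw [Function.update_self, zero_add, Function.update_idem, Function.update_eq_self]
      conv_lhs => rw [h1]
      rw [Zs_star, Gs_zero_aux _ _ (Function.update_self _ _ _), ih, Finset.prod_insert ha]
      · have h2 : ∏ v ∈ A, (1 + Function.update z a 0 v) = ∏ v ∈ A, (1 + z v) := by
          refine Finset.prod_congr rfl fun v hv => ?_
          rw [Function.update_of_ne]
          rintro rfl
          exact ha hv
        rw [h2]
        ring
      · intro v hv
        by_cases h : v = a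
        · rw [h, Function.update_self]
        · rw [Function.update_of_ne h]
          apply hz
          rw [Finset.mem_insert]
          push Not
          exact ⟨h, hv⟩
  exact key univ z (by simp)

/-- restriction of weights to the vertices in `p` -/
noncomputable def rW (p : V → Prop) (W : Sym2 V → ℝ) : Sym2 V → ℝ :=
  fun g => if ∀ v ∈ g, p v then W g else 0

noncomputable def rz (p : V → Prop) (z : V → ℝ) : V → ℝ := fun v => if p v then z v else 0

lemma ct_iff {p : V → Prop} {a b : V} (h : p a ↔ p b) (v : V) : p (ct a b v) ↔ p v := by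
  unfold ct
  by_cases hv : v = b
  · rw [if_pos hv, hv]
    exact h
  · rw [if_neg hv]

lemma map_ct_iff {p : V → Prop} {a b : V} (h : p a ↔ p b) (e : Sym2 V) :
    (∀ v ∈ Sym2.map (ct a b) e, p v) ↔ ∀ v ∈ e, p v := by
  constructor
  · intro H v hv
    exact (ct_iff h v).mp (H _ (Sym2.mem_map.mpr ⟨v, hv, rfl⟩))
  · intro H v hv
    obtain ⟨u, hu, rfl⟩ := Sym2.mem_map.mp hv
    exact (ct_iff h u).mpr (H u hu)

lemma rW_cw {p : V → Prop} {a b : V} (h : p a ↔ p b) (W : Sym2 V → ℝ) :
    rW p (cw a b W) = cw a b (rW p W) := by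
  funext g
  unfold cw rW
  by_cases hg : ∀ v ∈ g, p v
  · rw [if_pos hg]
    refine Finset.sum_congr rfl fun e he => ?_
    simp only [mem_filter, mem_univ, true_and] at he
    rw [← he, map_ct_iff h] at hg
    rw [if_pos hg]
  · rw [if_neg hg]
    symm
    refine Finset.sum_eq_zero fun e he => ?_
    simp only [mem_filter, mem_univ, true_and] at he
    rw [← he, map_ct_iff h] at hg
    rw [if_neg hg]

lemma map_ct_self {a b : V} {e : Sym2 V} (h : b ∉ e) : Sym2.map (ct a b) e = e := by
  have h1 : Sym2.map (ct a b) e = Sym2.map id e := by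
    refine Sym2.map_congr fun v hv => ?_
    unfold ct
    rw [if_neg, id]
    rintro rfl
    exact h hv
  rw [h1, Sym2.map_id, id]

lemma cw_self {a b : V} {U : Sym2 V → ℝ} (h : ∀ g, (a ∈ g ∨ b ∈ g) → U g = 0) :
    cw a b U = U := by
  funext g
  unfold cw
  by_cases hg : b ∈ g
  · rw [h g (Or.inr hg)]
    refine Finset.sum_eq_zero fun e he => ?_
    simp only [mem_filter, mem_univ, true_and] at he
    by_cases hb : b ∈ e
    · exact h e (Or.inr hb)
    · rw [map_ct_self hb] at he
      exact absurd (he ▸ hg) hb
  · rw [Finset.sum_eq_single g]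
    · intro e he hne
      simp only [mem_filter, mem_univ, true_and] at he
      by_cases hb : b ∈ e
      · exact h e (Or.inr hb)
      · rw [map_ct_self hb] at he
        exact absurd he hne
    · intro h2
      exfalso
      apply h2
      simp only [mem_filter, mem_univ, true_and]
      exact map_ct_self hg

lemma rW_other {q : V → Prop} {a b : V} (ha : ¬ q a) (hb : ¬ q b) (W : Sym2 V → ℝ) :
    rW q (cw a b W) = rW q W := by
  rw [rW_cw (by simp only [ha, hb])]
  refine cw_self fun g hg => ?_
  unfold rW
  rw [if_neg]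
  intro H
  rcases hg with hg | hg
  · exact ha (H _ hg)
  · exact hb (H _ hg)

lemma rz_mv {p : V → Prop} {a b : V} (ha : p a) (hb : p b) (z : V → ℝ) :
    rz p (mv z a b) = mv (rz p z) a b := by
  funext v
  unfold rz mv
  by_cases h1 : v = b
  · simp [h1]
  · by_cases h2 : v = a
    · subst h2
      simp [h1, ha, hb]
    · simp [h1, h2]

lemma rz_other {q : V → Prop} {a b : V} (ha : ¬ q a) (hb : ¬ q b) (z : V → ℝ) :
    rz q (mv z a b) = rz q z := by
  funext v
  unfold rz mv
  by_cases h1 : v = b
  · subst h1
    simp [hb]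
  · by_cases h2 : v = a
    · subst h2
      simp [ha]
    · simp [h1, h2]

lemma rW_update {p : V → Prop} {a b : V} (ha : p a) (hb : p b) (W : Sym2 V → ℝ) (t : ℝ) :
    rW p (Function.update W s(a, b) t) = Function.update (rW p W) s(a, b) t := by
  funext g
  unfold rW
  by_cases h : g = s(a, b)
  · subst h
    rw [Function.update_self, Function.update_self, if_pos]
    intro v hv
    rcases Sym2.mem_iff.mp hv with rfl | rfl
    · exact ha
    · exact hb
  · rw [Function.update_of_ne h, Function.update_of_ne h]

lemma rW_update_other {q : V → Prop} {a b : V} (ha : ¬ q a) (W : Sym2 V → ℝ) (t : ℝ) :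
    rW q (Function.update W s(a, b) t) = rW q W := by
  funext g
  unfold rW
  by_cases h : g = s(a, b)
  · subst h
    rw [if_neg, if_neg]
    · exact fun H => ha (H a (Sym2.mem_mk_left a b))
    · exact fun H => ha (H a (Sym2.mem_mk_left a b))
  · rw [Function.update_of_ne h]

lemma rW_mem {p : V → Prop} {a b : V} (ha : p a) (hb : p b) (W : Sym2 V → ℝ) :
    rW p W s(a, b) = W s(a, b) := by
  unfold rW
  rw [if_pos]
  intro v hv
  rcases Sym2.mem_iff.mp hv with rfl | rfl
  · exact ha
  · exact hb

lemma sep_cw {p : V → Prop} {a b : V} (h : p a ↔ p b) {W : Sym2 V → ℝ}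
    (hW : ∀ u v, p u → ¬ p v → W s(u, v) = 0) (u v : V) (hu : p u) (hv : ¬ p v) :
    cw a b W s(u, v) = 0 := by
  unfold cw
  refine Finset.sum_eq_zero fun e he => ?_
  induction e using Sym2.ind with
  | _ x y =>
    simp only [mem_filter, mem_univ, true_and, Sym2.map_mk] at he
    rw [Sym2.eq_iff] at he
    rcases he with ⟨h1, h2⟩ | ⟨h1, h2⟩
    · refine hW x y ?_ ?_
      · rw [← ct_iff h, h1]; exact hu
      · rw [← ct_iff h, h2]; exact hv
    · rw [Sym2.eq_swap]
      refine hW y x ?_ ?_
      · rw [← ct_iff h, h2]; exact hu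
      · rw [← ct_iff h, h1]; exact hv

lemma sep_update {p : V → Prop} {W : Sym2 V → ℝ}
    (hW : ∀ u v, p u → ¬ p v → W s(u, v) = 0) (g : Sym2 V) (u v : V) (hu : p u) (hv : ¬ p v) :
    Function.update W g 0 s(u, v) = 0 := by
  by_cases h : s(u, v) = g
  · rw [h, Function.update_self]
  · rw [Function.update_of_ne h]
    exact hW u v hu hv

lemma sep_swap {p q : V → Prop} (hpq : ∀ v, q v ↔ ¬ p v) {W : Sym2 V → ℝ}
    (hW : ∀ u v, p u → ¬ p v → W s(u, v) = 0) (u v : V) (hu : q u) (hv : ¬ q v) :
    W s(u, v) = 0 := by
  rw [Sym2.eq_swap]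
  refine hW v u ?_ ?_
  · by_contra h
    exact hv ((hpq v).mpr h)
  · exact (hpq u).mp hu

lemma exists_pair {W : Sym2 V → ℝ} (h : ¬ ∀ g : Sym2 V, ¬ g.IsDiag → W g = 0) :
    ∃ a b : V, a ≠ b ∧ W s(a, b) ≠ 0 := by
  push Not at h
  obtain ⟨g, hg, hg2⟩ := h
  induction g using Sym2.ind with
  | _ a b =>
    rw [Sym2.mk_isDiag_iff] at hg
    exact ⟨a, b, hg, hg2⟩

lemma Zs_union_aux (n : ℕ) : ∀ (p q : V → Prop) (_ : ∀ v, q v ↔ ¬ p v) (W : Sym2 V → ℝ)
    (z : V → ℝ), supp W ≤ n → (∀ u v, p u → ¬ p v → W s(u, v) = 0) →
    Zs W z = Zs (rW p W) (rz p z) * Zs (rW q W) (rz q z) := by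
  induction n using Nat.strong_induction_on with
  | _ n ih =>
    intro p q hpq W z hn hW
    by_cases h0 : ∀ g : Sym2 V, ¬ g.IsDiag → W g = 0
    · have h1 : ∀ r : V → Prop, ∀ g : Sym2 V, ¬ g.IsDiag → rW r W g = 0 := by
        intro r g hg
        unfold rW
        rw [h0 g hg, ite_self]
      rw [Zs_congr (W' := fun _ => 0) h0, Zs_congr (W := rW p W) (W' := fun _ => 0) (h1 p),
        Zs_congr (W := rW q W) (W' := fun _ => 0) (h1 q), Zs_zero, Zs_zero, Zs_zero,
        ← Finset.prod_mul_distrib]
      refine Finset.prod_congr rfl fun v _ => ?_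
      unfold rz
      by_cases hp : p v
      · have hq : ¬ q v := fun hq => (hpq v).mp hq hp
        rw [if_pos hp, if_neg hq]
        ring
      · have hq : q v := (hpq v).mpr hp
        rw [if_neg hp, if_pos hq]
        ring
    · have step : ∀ (p q : V → Prop) (_ : ∀ v, q v ↔ ¬ p v)
          (_ : ∀ u v, p u → ¬ p v → W s(u, v) = 0) (a b : V), a ≠ b → W s(a, b) ≠ 0 →
          p a → p b → Zs W z = Zs (rW p W) (rz p z) * Zs (rW q W) (rz q z) := by
        intro p q hpq hW a b hab hne ha hb
        have hqa : ¬ q a := fun h => (hpq a).mp h ha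
        have hqb : ¬ q b := fun h => (hpq b).mp h hb
        have hd : ¬ (s(a, b)).IsDiag := by
          rw [Sym2.mk_isDiag_iff]
          exact hab
        have e1 := ih (supp (Function.update W s(a, b) 0))
          (lt_of_lt_of_le (supp_update hd hne) hn) p q hpq (Function.update W s(a, b) 0) z le_rfl
          (sep_update hW _)
        have e2 := ih (supp (cw a b W)) (lt_of_lt_of_le (supp_cw hab hne) hn) p q hpq
          (cw a b W) (mv z a b) le_rfl (sep_cw (by simp only [ha, hb]) hW)
        rw [rW_update ha hb, rW_update_other hqa] at e1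
        rw [rW_cw (by simp only [ha, hb]), rW_other hqa hqb, rz_mv ha hb, rz_other hqa hqb] at e2
        rw [Zs_del W hab 0 z, e1, e2, Zs_del (rW p W) hab 0 (rz p z), rW_mem ha hb]
        ring
      obtain ⟨a, b, hab, hne⟩ := exists_pair h0
      by_cases ha : p a
      · by_cases hb : p b
        · exact step p q hpq hW a b hab hne ha hb
        · exact absurd (hW a b ha hb) hne
      · by_cases hb : p b
        · exact absurd (Sym2.eq_swap ▸ hW b a hb ha) hne
        · rw [step q p (fun v => by rw [hpq v, not_not]) (sep_swap hpq hW) a b hab hne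
            ((hpq a).mpr ha) ((hpq b).mpr hb), mul_comm]

theorem Zs_union (p : V → Prop) (W : Sym2 V → ℝ) (z : V → ℝ)
    (hW : ∀ u v, p u → ¬ p v → W s(u, v) = 0) :
    Zs W z = Zs (rW p W) (rz p z) * Zs (rW (fun v => ¬ p v) W) (rz (fun v => ¬ p v) z) :=
  Zs_union_aux (supp W) p (fun v => ¬ p v) (fun _ => Iff.rfl) W z le_rfl hW

lemma mv_update_ct {c d : V} (hcd : c ≠ d) (z : V → ℝ) (a : V) :
    mv (Function.update z a (z a + 1)) c d =
      Function.update (mv z c d) (ct c d a) (mv z c d (ct c d a) + 1) := by
  funext v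
  unfold ct
  by_cases had : a = d
  · subst had
    rw [if_pos rfl]
    by_cases hv : v = c
    · subst hv
      rw [Function.update_self]
      unfold mv
      rw [if_neg hcd, if_pos rfl, Function.update_of_ne hcd, Function.update_self, if_neg hcd,
        if_pos rfl]
      ring
    · rw [Function.update_of_ne hv]
      unfold mv
      by_cases hv2 : v = a
      · rw [if_pos hv2, if_pos hv2]
      · rw [if_neg hv2, if_neg hv2, if_neg hv, if_neg hv, Function.update_of_ne hv2]
  · rw [if_neg had]
    by_cases hv : v = a
    · subst hv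
      rw [Function.update_self]
      unfold mv
      rw [if_neg had, if_neg had]
      by_cases hc : v = c
      · subst hc
        rw [if_pos rfl, if_pos rfl, Function.update_self, Function.update_of_ne (Ne.symm had)]
        ring
      · rw [if_neg hc, if_neg hc, Function.update_self]
    · rw [Function.update_of_ne hv]
      unfold mv
      by_cases hvd : v = d
      · rw [if_pos hvd, if_pos hvd]
      · rw [if_neg hvd, if_neg hvd]
        by_cases hc : v = c
        · subst hc
          rw [if_pos rfl, if_pos rfl, Function.update_of_ne (fun h => hv h),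
            Function.update_of_ne (Ne.symm had)]
        · rw [if_neg hc, if_neg hc, Function.update_of_ne hv]

/-- Deletion and contraction with a mark. -/
lemma Gs_del (W : Sym2 V → ℝ) {c d : V} (hcd : c ≠ d) (t : ℝ) (z : V → ℝ) (a : V) :
    Gs W z a = Gs (Function.update W s(c, d) t) z a +
      (W s(c, d) - t) * Gs (cw c d W) (mv z c d) (ct c d a) := by
  rw [Gs_of_star, Gs_of_star, Gs_of_star, Zs_del W hcd t z,
    Zs_del W hcd t (Function.update z a (z a + 1)), mv_update_ct hcd]
  ring

lemma Zs_bridge_aux (n : ℕ) : ∀ (p q : V → Prop) (_ : ∀ v, q v ↔ ¬ p v) (W : Sym2 V → ℝ)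
    (z : V → ℝ) (a b : V) (t : ℝ), supp W ≤ n → (∀ u v, p u → ¬ p v → W s(u, v) = 0) →
    p a → q b →
    Zs (Function.update W s(a, b) t) z = Zs (rW p W) (rz p z) * Zs (rW q W) (rz q z) + t *
      (Zs (rW p W) (rz p z) * Gs (rW q W) (rz q z) b +
        Gs (rW p W) (rz p z) a * Zs (rW q W) (rz q z) -
        Gs (rW p W) (rz p z) a * Gs (rW q W) (rz q z) b) := by
  induction n using Nat.strong_induction_on with
  | _ n ih =>
    intro p q hpq W z a b t hn hW ha hb
    have hab : a ≠ b := by
      rintro rfl
      exact (hpq a).mp hb ha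
    by_cases h0 : ∀ g : Sym2 V, ¬ g.IsDiag → W g = 0
    · have h1 : ∀ r : V → Prop, ∀ g : Sym2 V, ¬ g.IsDiag → rW r W g = 0 := by
        intro r g hg
        unfold rW
        rw [h0 g hg, ite_self]
      have h2 : Zs (Function.update W s(a, b) t) z =
          Zs (fun _ => 0) z + t * Zs (fun _ => 0) (mv z a b) := by
        have h3 := Zs_split (fun _ : Sym2 V => (0 : ℝ)) hab t z
        have h4 : Zs (cw a b (fun _ : Sym2 V => (0 : ℝ))) (mv z a b) =
            Zs (fun _ => 0) (mv z a b) := by
          refine Zs_congr (fun g _ => ?_) _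
          unfold cw
          exact Finset.sum_const_zero
        rw [h4] at h3
        rw [← h3]
        refine Zs_congr (fun g hg => ?_) z
        by_cases h : g = s(a, b)
        · rw [h, Function.update_self, Function.update_self, zero_add]
        · rw [Function.update_of_ne h, Function.update_of_ne h]
          exact h0 g hg
      have hpb : ¬ p b := (hpq b).mp hb
      have hqa : ¬ q a := fun h => (hpq a).mp h ha
      have h3 : ∀ f : V → ℝ, ∏ v, f v = f a * (f b * ∏ v ∈ (univ.erase a).erase b, f v) := by
        intro f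
        rw [Finset.mul_prod_erase (univ.erase a) f (Finset.mem_erase.mpr ⟨hab.symm, mem_univ b⟩),
          Finset.mul_prod_erase univ f (mem_univ a)]
      have h4 : ∀ (f g : V → ℝ), (∀ v, v ≠ a → v ≠ b → f v = g v) →
          ∏ v ∈ (univ.erase a).erase b, f v = ∏ v ∈ (univ.erase a).erase b, g v := by
        intro f g h
        refine Finset.prod_congr rfl fun v hv => ?_
        rw [Finset.mem_erase, Finset.mem_erase] at hv
        exact h v hv.2.1 hv.1
      set P := ∏ v ∈ (univ.erase a).erase b, (1 + rz p z v) with hP
      set Q := ∏ v ∈ (univ.erase a).erase b, (1 + rz q z v) with hQ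
      have hPQ : ∏ v ∈ (univ.erase a).erase b, (1 + z v) = P * Q := by
        rw [hP, hQ, ← Finset.prod_mul_distrib]
        refine Finset.prod_congr rfl fun v _ => ?_
        unfold rz
        by_cases hp : p v
        · have hq : ¬ q v := fun hq => (hpq v).mp hq hp
          rw [if_pos hp, if_neg hq]
          ring
        · have hq : q v := (hpq v).mpr hp
          rw [if_neg hp, if_pos hq]
          ring
      have ea : rz p z a = z a := if_pos ha
      have eb : rz p z b = 0 := if_neg hpb
      have fa : rz q z a = 0 := if_neg hqa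
      have fb : rz q z b = z b := if_pos hb
      have A1 : Zs (rW p W) (rz p z) = (1 + z a) * P := by
        rw [Zs_congr (W' := fun _ => 0) (h1 p), Zs_zero, h3, ea, eb]
        ring
      have A2 : Zs (rW q W) (rz q z) = (1 + z b) * Q := by
        rw [Zs_congr (W' := fun _ => 0) (h1 q), Zs_zero, h3, fa, fb]
        ring
      have A3 : Gs (rW p W) (rz p z) a = P := by
        rw [Gs_of_star, A1, Zs_congr (W' := fun _ => 0) (h1 p), Zs_zero, h3,
          h4 _ (fun v => 1 + rz p z v), Function.update_self, Function.update_of_ne hab.symm,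
          ea, eb]
        · ring
        · intro v hva _
          rw [Function.update_of_ne hva]
      have A4 : Gs (rW q W) (rz q z) b = Q := by
        rw [Gs_of_star, A2, Zs_congr (W' := fun _ => 0) (h1 q), Zs_zero, h3,
          h4 _ (fun v => 1 + rz q z v), Function.update_self, Function.update_of_ne hab,
          fa, fb]
        · ring
        · intro v _ hvb
          rw [Function.update_of_ne hvb]
      rw [h2, A1, A2, A3, A4, Zs_zero, Zs_zero, h3, h3 (fun v => 1 + mv z a b v), hPQ,
        h4 (fun v => 1 + mv z a b v) (fun v => 1 + z v), hPQ]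
      · have m1 : mv z a b a = z a + z b := by
          unfold mv
          rw [if_neg hab, if_pos rfl]
        have m2 : mv z a b b = 0 := by
          unfold mv
          rw [if_pos rfl]
        rw [m1, m2]
        ring
      · intro v hva hvb
        unfold mv
        rw [if_neg hvb, if_neg hva]
    · have step : ∀ (p q : V → Prop) (_ : ∀ v, q v ↔ ¬ p v)
          (_ : ∀ u v, p u → ¬ p v → W s(u, v) = 0) (a b : V) (_ : p a) (_ : q b) (c d : V),
          c ≠ d → W s(c, d) ≠ 0 → p c → p d →
          Zs (Function.update W s(a, b) t) z = Zs (rW p W) (rz p z) * Zs (rW q W) (rz q z) + t *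
            (Zs (rW p W) (rz p z) * Gs (rW q W) (rz q z) b +
              Gs (rW p W) (rz p z) a * Zs (rW q W) (rz q z) -
              Gs (rW p W) (rz p z) a * Gs (rW q W) (rz q z) b) := by
        intro p q hpq hW a b ha hb c d hcd hne hc hd
        have hqc : ¬ q c := fun h => (hpq c).mp h hc
        have hqd : ¬ q d := fun h => (hpq d).mp h hd
        have hpb : ¬ p b := (hpq b).mp hb
        have hdd : ¬ (s(c, d)).IsDiag := by
          rw [Sym2.mk_isDiag_iff]
          exact hcd
        have hbcd : b ∉ s(c, d) := by
          intro h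
          rcases Sym2.mem_iff.mp h with rfl | rfl
          · exact hpb hc
          · exact hpb hd
        have hge : s(c, d) ≠ s(a, b) := fun h => hbcd (h ▸ Sym2.mem_mk_right a b)
        have hbd : ct c d b = b := by
          unfold ct
          rw [if_neg]
          rintro rfl
          exact hpb hd
        have hcd' : p c ↔ p d := by simp only [hc, hd]
        have hpa' : p (ct c d a) := (ct_iff hcd' a).mpr ha
        have e1 := ih (supp (Function.update W s(c, d) 0))
          (lt_of_lt_of_le (supp_update hdd hne) hn) p q hpq (Function.update W s(c, d) 0) z a b t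
          le_rfl (sep_update hW _) ha hb
        have e2 := ih (supp (cw c d W)) (lt_of_lt_of_le (supp_cw hcd hne) hn) p q hpq
          (cw c d W) (mv z c d) (ct c d a) b t le_rfl (sep_cw hcd' hW) hpa' hb
        rw [rW_update hc hd, rW_update_other hqc] at e1
        rw [rW_cw hcd', rW_other hqc hqd, rz_mv hc hd, rz_other hqc hqd] at e2
        have e3 : cw c d (Function.update W s(a, b) t) =
            Function.update (cw c d W) s(ct c d a, b) t := by
          rw [Pool.Agent.PW.cw_update, Sym2.map_mk, hbd, sep_cw hcd' hW _ _ hpa' hpb,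
            hW a b ha hpb]
          congr 1
          ring
        rw [Zs_del (Function.update W s(a, b) t) hcd 0 z, Function.update_comm hge.symm, e1, e3, e2,
          Function.update_of_ne hge, Zs_del (rW p W) hcd 0 (rz p z),
          Gs_del (rW p W) hcd 0 (rz p z) a, rW_mem hc hd]
        ring
      obtain ⟨c, d, hcd, hne⟩ := exists_pair h0
      by_cases hc : p c
      · by_cases hd : p d
        · exact step p q hpq hW a b ha hb c d hcd hne hc hd
        · exact absurd (hW c d hc hd) hne
      · by_cases hd : p d
        · exact absurd (Sym2.eq_swap ▸ hW d c hd hc) hne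
        · rw [Sym2.eq_swap (a := a), step q p (fun v => by rw [hpq v, not_not])
            (sep_swap hpq hW) b a hb ha c d hcd hne ((hpq c).mpr hc) ((hpq d).mpr hd)]
          ring

theorem Zs_bridge (p : V → Prop) (W : Sym2 V → ℝ) (z : V → ℝ)
    (hW : ∀ u v, p u → ¬ p v → W s(u, v) = 0) {a b : V} (ha : p a) (hb : ¬ p b) :
    Zs (cw a b W) (mv z a b) =
      Zs (rW p W) (rz p z) * Gs (rW (fun v => ¬ p v) W) (rz (fun v => ¬ p v) z) b +
      Gs (rW p W) (rz p z) a * Zs (rW (fun v => ¬ p v) W) (rz (fun v => ¬ p v) z) -
      Gs (rW p W) (rz p z) a * Gs (rW (fun v => ¬ p v) W) (rz (fun v => ¬ p v) z) b := by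
  have hab : a ≠ b := by
    rintro rfl
    exact hb ha
  have h1 := Zs_bridge_aux (supp W) p (fun v => ¬ p v) (fun _ => Iff.rfl) W z a b 1 le_rfl hW ha hb
  have h2 := Zs_split W hab 1 z
  have h3 := Zs_union p W z hW
  rw [hW a b ha hb, zero_add, h1, ← h3] at h2
  linarith

end Pool.Agent.MJ
end

section

/-!
# Row B: the heat operators
-/

set_option autoImplicit false
set_option linter.unusedSectionVars false

namespace Pool.Agent.MJ

open Finset Polynomial
open scoped Classical

section B
variable {K : Type*} [Field K] {ι : Type*} [Fintype ι]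

theorem T_monomial (s : K) (n : ℕ) (c : K) : T s (monomial n c) = c • hp s n := by
  simp [T, Polynomial.lsum_apply, Polynomial.sum_monomial_index]

theorem T_one (s : K) : T s 1 = 1 := by
  have := T_monomial s 0 1
  simpa [hp] using this

theorem T_C_mul (s c : K) (p : K[X]) : T s (C c * p) = C c * T s p := by
  rw [← smul_eq_C_mul, map_smul, smul_eq_C_mul]

theorem T_C (s c : K) : T s (C c) = C c := by
  have := T_C_mul s c 1
  rwa [mul_one, T_one, mul_one] at this

theorem T_X_mul (s : K) (p : K[X]) : T s (X * p) = X * T s p + C s * derivative (T s p) := by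
  induction p using Polynomial.induction_on' with
  | add p q hp hq =>
    rw [mul_add, map_add, hp, hq, map_add, derivative_add]
    ring
  | monomial n c =>
    rw [X_mul_monomial, T_monomial, T_monomial]
    simp only [hp]
    rw [derivative_smul]
    simp only [smul_eq_C_mul]
    ring

theorem X_ind {P : K[X] → Prop} (hC : ∀ a, P (C a)) (hadd : ∀ p q, P p → P q → P (p + q))
    (hX : ∀ p, P p → P (X * p)) (p : K[X]) : P p := by
  induction p using Polynomial.induction_on with
  | C a => exact hC a
  | add p q hp hq => exact hadd p q hp hq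
  | monomial n a h =>
    have := hX _ h
    have e : (X : K[X]) * (C a * X ^ n) = C a * X ^ (n + 1) := by ring
    rwa [e] at this

theorem derivative_T (s : K) (p : K[X]) : derivative (T s p) = T s (derivative p) := by
  induction p using X_ind with
  | hC a => simp [T_C]
  | hadd p q hp hq => simp [hp, hq]
  | hX p hp =>
    rw [T_X_mul, derivative_add, derivative_mul, derivative_X, derivative_C_mul,
      derivative_mul, derivative_X, map_add, one_mul, T_X_mul, hp, one_mul]
    ring

theorem T_neg_T (s : K) (p : K[X]) : T (-s) (T s p) = p := by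
  induction p using X_ind with
  | hC a => simp [T_C]
  | hadd p q hp hq => simp [hp, hq]
  | hX p hp =>
    rw [T_X_mul, map_add, T_X_mul, hp, T_C_mul, ← derivative_T, hp, C_neg]
    ring

theorem T_neg_one_X (p : K[X]) : T (-1) (X * p) = DD (T (-1) p) := by
  rw [T_X_mul, DD, C_neg, C_1]; ring

theorem T_X_sub_C_mul (s η : K) (p : K[X]) :
    T s ((X - C η) * p) = (X - C η) * T s p + C s * derivative (T s p) := by
  rw [sub_mul, map_sub, T_X_mul, T_C_mul]; ring

theorem T_map {L : Type*} [Field L] (φ : K →+* L) (s : K) (p : K[X]) :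
    (T s p).map φ = T (φ s) (p.map φ) := by
  induction p using X_ind with
  | hC a => simp [T_C]
  | hadd p q hp hq => simp [hp, hq]
  | hX p hp =>
    rw [T_X_mul, Polynomial.map_mul, map_X, T_X_mul, ← hp, Polynomial.map_add,
      Polynomial.map_mul, map_X, Polynomial.map_mul, map_C, derivative_map]

theorem prod_update (q : ι → K[X]) (k : ι) (p : K[X]) :
    ∏ l, T 1 (Function.update q k p l) = T 1 p * ∏ l ∈ univ.erase k, T 1 (q l) := by
  rw [← Finset.mul_prod_erase univ _ (mem_univ k), Function.update_self]
  congr 1
  exact Finset.prod_congr rfl fun l hl => by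
    rw [Function.update_of_ne (Finset.ne_of_mem_erase hl)]

theorem NN_update (q : ι → K[X]) (k : ι) (p : K[X]) :
    NN (Function.update q k p) = T (-1) (T 1 p * ∏ l ∈ univ.erase k, T 1 (q l)) := by
  unfold NN
  rw [prod_update]

theorem NN_self (q : ι → K[X]) (k : ι) :
    NN q = T (-1) (T 1 (q k) * ∏ l ∈ univ.erase k, T 1 (q l)) := by
  rw [← NN_update, Function.update_eq_self]

theorem NN_add (q : ι → K[X]) (k : ι) (p p' : K[X]) :
    NN (Function.update q k (p + p')) =
      NN (Function.update q k p) + NN (Function.update q k p') := by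
  rw [NN_update, NN_update, NN_update, map_add, add_mul, map_add]

theorem NN_sub (q : ι → K[X]) (k : ι) (p p' : K[X]) :
    NN (Function.update q k (p - p')) =
      NN (Function.update q k p) - NN (Function.update q k p') := by
  rw [NN_update, NN_update, NN_update, map_sub, sub_mul, map_sub]

theorem NN_C_mul (q : ι → K[X]) (k : ι) (c : K) (p : K[X]) :
    NN (Function.update q k (C c * p)) = C c * NN (Function.update q k p) := by
  rw [NN_update, NN_update, T_C_mul, mul_assoc, T_C_mul]

theorem derivative_prod_T (q : ι → K[X]) (s : Finset ι) :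
    derivative (∏ k ∈ s, T 1 (q k))
      = ∑ l ∈ s, ∏ k ∈ s, T 1 (Function.update q l (derivative (q l)) k) := by
  rw [Polynomial.derivative_prod_finset]
  refine Finset.sum_congr rfl fun l hl => ?_
  rw [← Finset.mul_prod_erase s _ hl, derivative_T, mul_comm]
  congr 1
  · simp
  · refine Finset.prod_congr rfl fun k hk => ?_
    rw [Function.update_of_ne (Finset.ne_of_mem_erase hk)]

theorem derivative_NN (q : ι → K[X]) :
    derivative (NN q) = ∑ l, NN (Function.update q l (derivative (q l))) := by
  unfold NN
  rw [derivative_T, derivative_prod_T, map_sum]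

/-- the matching recursion -/
theorem NN_lin (q : ι → K[X]) (k : ι) (η : K) :
    NN (Function.update q k ((X - C η) * q k)) =
      (X - C η) * NN q - ∑ l ∈ univ.erase k, NN (Function.update q l (derivative (q l))) := by
  have hd := derivative_NN q
  rw [← Finset.add_sum_erase univ _ (mem_univ k)] at hd
  have e : ∏ l, T 1 (q l) = T 1 (q k) * ∏ l ∈ univ.erase k, T 1 (q l) :=
    (Finset.mul_prod_erase univ _ (mem_univ k)).symm
  have e1 : NN (Function.update q k ((X - C η) * q k))
      = T (-1) ((X - C η) * ∏ l, T 1 (q l))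
        + NN (Function.update q k (derivative (q k))) := by
    rw [NN_update, NN_update, ← map_add, e, T_X_sub_C_mul, derivative_T, C_1]
    congr 1
    ring
  rw [e1, T_X_sub_C_mul]
  have e2 : T (-1) (∏ l, T 1 (q l)) = NN q := rfl
  rw [e2, hd, C_neg, C_1]
  ring

theorem NN_map {L : Type*} [Field L] (φ : K →+* L) (q : ι → K[X]) :
    (NN q).map φ = NN fun k => (q k).map φ := by
  unfold NN
  rw [T_map, Polynomial.map_prod, map_neg, map_one]
  simp only [T_map, map_one]

/-- `a~ = g~ + (y + X_k) A - A'` gives `r = h + y m` -/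
theorem NN_dec (q : ι → K[X]) (k : ι) (g m : K[X]) :
    NN (Function.update q k (g + (X * m - derivative m))) =
      NN (Function.update q k g) + DD (NN (Function.update q k m)) := by
  rw [NN_add]
  congr 1
  rw [NN_update, NN_update, ← T_neg_one_X, map_sub, T_X_mul, C_1, ← derivative_T]
  congr 1
  ring

theorem divX_add' (p q : K[X]) : (p + q).divX = p.divX + q.divX := divX_add

theorem Lam_add (a : K) (p q : K[X]) : Lam a (p + q) = Lam a p + Lam a q := by
  unfold Lam
  rw [← eval_add, ← map_add]
  congr 2
  have : C a * (p + q) - derivative (p + q)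
      = (C a * p - derivative p) + (C a * q - derivative q) := by
    rw [derivative_add]; ring
  rw [this, divX_add]
  ring

theorem Lam_C_mul (a c : K) (p : K[X]) : Lam a (C c * p) = c * Lam a p := by
  unfold Lam
  have : C a * (C c * p) - derivative (C c * p) = C c * (C a * p - derivative p) := by
    rw [derivative_C_mul]; ring
  rw [this, divX_C_mul]
  have e : C c * p - C c * (C a * p - derivative p).divX
      = C c * (p - (C a * p - derivative p).divX) := by ring
  rw [e, T_C_mul, eval_mul, eval_C]

theorem Lam_sub (a : K) (p q : K[X]) : Lam a (p - q) = Lam a p - Lam a q := by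
  have h := Lam_add a (p - q) q
  rw [sub_add_cancel] at h
  rw [h]; ring

/-- value of `Lam` when the division by `X` is explicit -/
theorem Lam_of_eq (a : K) (p h : K[X]) (c : K) (hh : C a * p - derivative p = X * h + C c) :
    Lam a p = (T (-1) (p - h)).eval a := by
  unfold Lam
  rw [hh]
  have : (X * h + C c).divX = h := by
    ext n
    rw [coeff_divX, coeff_add, coeff_X_mul, coeff_C_succ, add_zero]
  rw [this]

theorem eval_DD (a : K) (p : K[X]) : (DD p).eval a = a * p.eval a - (derivative p).eval a := by
  simp [DD]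

theorem Lam_X_sq (a : K) (p : K[X]) : Lam a (X ^ 2 * p) = (T (-1) p).eval a := by
  have h : C a * (X ^ 2 * p) - derivative (X ^ 2 * p)
      = X * (C a * (X * p) - (C 2 * p + X * derivative p)) + C 0 := by
    rw [derivative_mul, derivative_X_pow]
    simp only [Nat.cast_ofNat, map_zero, add_zero]
    have : (C 2 : K[X]) = 2 := rfl
    rw [this]
    simp only [Nat.add_one_sub_one, pow_one]
    ring
  rw [Lam_of_eq a _ _ _ h]
  have e : X ^ 2 * p - (C a * (X * p) - (C 2 * p + X * derivative p))
      = (X * (X * p) - C a * (X * p)) + (derivative (X * p) + p) := by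
    rw [derivative_mul, derivative_X]
    have : (C 2 : K[X]) = 2 := rfl
    rw [this]
    ring
  rw [e, map_add, map_sub, T_X_mul, T_C_mul, map_add, ← derivative_T]
  simp only [eval_add, eval_sub, eval_mul, eval_X, eval_C]
  ring

/-- hub equation -/
theorem hub_ode (a : ℝ) (r f : ℝ[X]) (hr : (derivative r).eval 0 = a * r.eval 0)
    (hf : ∀ l, f.eval l = Lam (a + l) ((1 + C l * X) * r)) :
    derivative f = (C a + X) * f - X * (T (-1) r).comp (X + C a) := by
  set U : ℝ[X] := (C a * r - derivative r).divX with hU
  have hUX : C a * r - derivative r = X * U := by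
    have h := divX_mul_X_add (C a * r - derivative r)
    rw [← hU] at h
    have h0 : (C a * r - derivative r).coeff 0 = 0 := by
      rw [coeff_zero_eq_eval_zero]
      simp [hr]
    rw [h0, C_0, add_zero, mul_comm] at h
    exact h.symm
  set R := T (-1) r with hR
  set V := T (-1) U with hV
  have hVR : X * V - derivative V = C a * R - derivative R := by
    have h := congrArg (T (-1 : ℝ)) hUX
    rw [map_sub, T_C_mul, ← derivative_T, T_X_mul, C_neg, C_1] at h
    rw [hV, hR, h]
    ring
  have hfe : ∀ l, f.eval l = R.eval (a + l) - V.eval (a + l) := by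
    intro l
    have h1 : C (a + l) * ((1 + C l * X) * r) - derivative ((1 + C l * X) * r)
        = X * (U + C ((a + l) * l) * r - C l * derivative r) + C 0 := by
      rw [derivative_mul, derivative_add, derivative_C_mul, derivative_X, derivative_one]
      simp only [C_add, C_mul, map_zero]
      linear_combination hUX
    rw [hf, Lam_of_eq _ _ _ _ h1]
    have h2 : (1 + C l * X) * r - (U + C ((a + l) * l) * r - C l * derivative r)
        = r + C l * (X * r) - U - C ((a + l) * l) * r + C l * derivative r := by ring
    rw [h2, map_add, map_sub, map_sub, map_add, T_C_mul, T_C_mul, T_C_mul, T_X_mul,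
      ← derivative_T, ← hR, ← hV]
    simp only [eval_add, eval_sub, eval_mul, eval_X, eval_C]
    ring
  have hf' : f = (R - V).comp (X + C a) := by
    apply Polynomial.funext
    intro l
    rw [hfe, eval_comp, eval_sub]
    simp [add_comm]
  have hd : derivative f = (derivative R - derivative V).comp (X + C a) := by
    rw [hf', derivative_comp]
    simp
  rw [hd]
  apply Polynomial.funext
  intro l
  have e1 : (derivative V).eval (a + l)
      = (a + l) * V.eval (a + l) - (a * R.eval (a + l) - (derivative R).eval (a + l)) := by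
    have := congrArg (Polynomial.eval (a + l)) hVR
    simp only [eval_sub, eval_mul, eval_X, eval_C] at this
    linarith
  have e2 := hfe l
  simp only [eval_comp, eval_sub, eval_mul, eval_add, eval_X, eval_C]
  rw [e2, add_comm l a, e1]
  ring

theorem hub_mark (a : ℝ) (r g m f fg : ℝ[X]) (hm : r - g = X * m)
    (hf : ∀ l, f.eval l = Lam (a + l) ((1 + C l * X) * r))
    (hfg : ∀ l, fg.eval l = Lam (a + l) (r + C l * X * g)) :
    f - fg = X * (T (-1) m).comp (X + C a) := by
  apply Polynomial.funext
  intro l
  rw [eval_sub, hf, hfg, ← Lam_sub]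
  have e : (1 + C l * X) * r - (r + C l * X * g) = C l * (X ^ 2 * m) := by
    linear_combination (C l * X) * hm
  rw [e, Lam_C_mul, Lam_X_sq, eval_mul, eval_X, eval_comp]
  simp [add_comm]

theorem eval_T_X_pow (a : ℝ) (n : ℕ) : (T (-1) (X ^ n : ℝ[X])).eval a = Pool.Agent.PW.H n a := by
  induction n using Nat.strong_induction_on with
  | _ n ih =>
    match n with
    | 0 => rw [pow_zero, T_one, Pool.Agent.PW.H_zero, eval_one]
    | 1 =>
      have : (X ^ 1 : ℝ[X]) = X * 1 := by simp
      rw [this, T_X_mul, T_one, Pool.Agent.PW.H_one]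
      simp
    | n + 2 =>
      have e : (X ^ (n + 2) : ℝ[X]) = X * X ^ (n + 1) := by ring
      rw [e, T_X_mul, derivative_T, derivative_X_pow, Pool.Agent.PW.H_add_two]
      have e2 : (C ((n + 1 : ℕ) : ℝ) * X ^ (n + 1 - 1) : ℝ[X]) = C ((n + 1 : ℕ) : ℝ) * X ^ n := by
        simp
      rw [e2, T_C_mul]
      simp only [eval_add, eval_mul, eval_X, eval_C]
      rw [ih (n + 1) (by omega), ih n (by omega)]
      push_cast
      ring

theorem eval_T_prod {V : Type*} (x : V → ℝ) (a : ℝ) (A : Finset V) :
    ∀ k : ℕ, (T (-1) (X ^ k * ∏ v ∈ A, (1 + C (x v) * X) : ℝ[X])).eval a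
      = Pool.Agent.PW.M x a k A := by
  induction A using Finset.induction_on with
  | empty => intro k; rw [Finset.prod_empty, mul_one, eval_T_X_pow, Pool.Agent.PW.M_empty]
  | insert b A hb ih =>
    intro k
    rw [Finset.prod_insert hb, Pool.Agent.PW.M_insert x a k hb, ← ih k, ← ih (k + 1)]
    have e : (X ^ k * ((1 + C (x b) * X) * ∏ v ∈ A, (1 + C (x v) * X)) : ℝ[X])
        = X ^ k * ∏ v ∈ A, (1 + C (x v) * X)
          + C (x b) * (X ^ (k + 1) * ∏ v ∈ A, (1 + C (x v) * X)) := by ring
    rw [e, map_add, T_C_mul, eval_add, eval_mul, eval_C]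

/-- base case of Lemma A: link with `P` of the library -/
theorem Lam_prod {V : Type*} [Fintype V] (x : V → ℝ) (h : V) :
    Lam (∑ v, x v) (∏ v, (1 + C (x v) * X)) =
      Pool.Agent.PW.P x (∑ v, x v) (univ.erase h) := by
  have hP : Pool.Agent.PW.P x (∑ v, x v) (univ.erase h)
      = Pool.Agent.PW.P x (∑ v, x v) univ := by
    rw [Pool.Agent.PW.P_erase x (∑ v, x v) (mem_univ h)]
    ring
  rw [hP, Pool.Agent.PW.P_def]
  have e : C (∑ v, x v) * ∏ v, (1 + C (x v) * X) - derivative (∏ v, (1 + C (x v) * X))
      = X * (∑ v, C (x v ^ 2) * ∏ i ∈ univ.erase v, (1 + C (x i) * X)) + C (0 : ℝ) := by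
    rw [Polynomial.derivative_prod_finset, map_sum, Finset.sum_mul, ← Finset.sum_sub_distrib,
      map_zero, add_zero, Finset.mul_sum]
    refine Finset.sum_congr rfl fun v _ => ?_
    rw [← Finset.mul_prod_erase univ _ (mem_univ v)]
    have hd : derivative (1 + C (x v) * X : ℝ[X]) = C (x v) := by simp
    rw [hd, C_pow]
    ring
  rw [Lam_of_eq _ _ _ _ e, map_sub, map_sum, eval_sub, eval_finsetSum]
  congr 1
  · have := eval_T_prod x (∑ v, x v) univ 0
    rwa [pow_zero, one_mul] at this
  · refine Finset.sum_congr rfl fun v _ => ?_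
    rw [T_C_mul, eval_mul, eval_C]
    have := eval_T_prod x (∑ v, x v) (univ.erase v) 0
    rw [pow_zero, one_mul] at this
    rw [this]

end B

end Pool.Agent.MJ
end

section

/-!
Two vertices with proportional stars.
-/

set_option autoImplicit false
set_option linter.unusedSectionVars false

namespace Pool.Agent.Lib.MP_d90615_co

open Matrix Finset
open scoped Classical

open Pool.Agent.TW
open Pool.Agent.PW (Z N N2 Ray)

variable {V E : Type*} [Fintype V] [Fintype E]

/-- The partition function in terms of the coefficients. -/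
theorem Z_coef (ends : E → Sym2 V) (hloop : ∀ e, ¬ (ends e).IsDiag) (w : E → ℝ) {a c : V}
    (hac : a ≠ c) (b d : V) (x : V → ℝ) {ya yc : ℝ} (hy : ya + yc = 1) (ρ σ : ℝ)
    (hP : ∀ i, (if i = c then 0 else mr ends a w i) = ya * x i + if i = b then ρ else 0)
    (hQ : ∀ i, (if i = a then 0 else mr ends c w i) = yc * x i + if i = d then σ else 0)
    (S : Finset E) (hS : ∀ g, g ∈ S ↔ g ∉ St ends a ∧ g ∉ St ends c) (u : ℝ)
    (hu : u = mr ends c w a) :
    ∑ F ∈ (univ : Finset (Finset E)) with Forest ends F, ∏ g ∈ F, w g =
      ((1 + u) * h0 ends w S x + ya * yc * hx ends w S x)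
      + ρ * (yc * h0 ends w S x + ya * hb ends w S x b + ya * yc * hbx ends w S x b
        + u * hb ends w S x b)
      + σ * (ya * h0 ends w S x + yc * hb ends w S x d + ya * yc * hbx ends w S x d
        + u * hb ends w S x d)
      + ρ * σ * (ya * hb ends w S x b + yc * hb ends w S x d + ya * yc * hbdx ends w S x b d
        + u * hbd ends w S x b d) := by
  have hS' : univ \ (St ends a ∪ St ends c) = S := by
    ext g
    rw [hS, mem_sdiff, mem_union, not_or]
    exact ⟨fun h => h.2, fun h => ⟨mem_univ _, h⟩⟩
  rw [two_star ends hloop w hac _ _ (fun i => rfl) (fun i => rfl), hS']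
  have hPe : (fun i => if i = c then 0 else mr ends a w i) =
      fun i => ya * x i + if i = b then ρ else 0 := funext hP
  have hQe : (fun i => if i = a then 0 else mr ends c w i) =
      fun i => yc * x i + if i = d then σ else 0 := funext hQ
  have hterm : ∀ F : Finset E,
      ((1 + mr ends c w a) * (∏ q, (1 + cm ends F (fun i => if i = c then 0 else mr ends a w i) q
        + cm ends F (fun i => if i = a then 0 else mr ends c w i) q)) +
        ∑ q, cm ends F (fun i => if i = c then 0 else mr ends a w i) q *
          cm ends F (fun i => if i = a then 0 else mr ends c w i) q *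
          ∏ q' ∈ univ.erase q, (1 + cm ends F (fun i => if i = c then 0 else mr ends a w i) q' +
            cm ends F (fun i => if i = a then 0 else mr ends c w i) q')) =
      (1 + u) * (A0 (cm ends F x) + ρ * Pool.Agent.TW.Ab (cm ends F x) (cmp ends F b)
        + σ * Pool.Agent.TW.Ab (cm ends F x) (cmp ends F d)
        + ρ * σ * Abd (cm ends F x) (cmp ends F b) (cmp ends F d))
      + (ya * yc * (Ax (cm ends F x) + ρ * Abx (cm ends F x) (cmp ends F b)
          + σ * Abx (cm ends F x) (cmp ends F d)
          + ρ * σ * Abdx (cm ends F x) (cmp ends F b) (cmp ends F d))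
        + ya * σ * (A0 (cm ends F x) - Pool.Agent.TW.Ab (cm ends F x) (cmp ends F d))
        + yc * ρ * (A0 (cm ends F x) - Pool.Agent.TW.Ab (cm ends F x) (cmp ends F b))
        + ρ * σ * (ya * (Pool.Agent.TW.Ab (cm ends F x) (cmp ends F b)
            - Abd (cm ends F x) (cmp ends F b) (cmp ends F d))
          + yc * (Pool.Agent.TW.Ab (cm ends F x) (cmp ends F d)
            - Abd (cm ends F x) (cmp ends F b) (cmp ends F d)))) := by
    intro F
    rw [← prod_two, ← second_two _ _ _ hy, hPe, hQe, ← hu]
    have h1 : ∀ q, cm ends F (fun i => ya * x i + if i = b then ρ else 0) q =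
        ya * cm ends F x q + if q = cmp ends F b then ρ else 0 := by
      intro q
      rw [cm_add, cm_mul, cm_single]
    have h2 : ∀ q, cm ends F (fun i => yc * x i + if i = d then σ else 0) q =
        yc * cm ends F x q + if q = cmp ends F d then σ else 0 := by
      intro q
      rw [cm_add, cm_mul, cm_single]
    have h3 : ∀ q, 1 + (ya * cm ends F x q + if q = cmp ends F b then ρ else 0) +
        (yc * cm ends F x q + if q = cmp ends F d then σ else 0) =
        1 + (cm ends F x q + (if q = cmp ends F b then ρ else 0)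
          + (if q = cmp ends F d then σ else 0)) := by
      intro q
      have : ya = 1 - yc := by linarith
      rw [this]
      ring
    simp only [h1, h2, h3]
  rw [Finset.sum_congr rfl fun F _ => by rw [hterm F]]
  unfold h0 hx hb hbx hbd hbdx hs
  simp only [Finset.mul_sum, ← Finset.sum_add_distrib]
  refine Finset.sum_congr rfl fun F _ => ?_
  have hya' : ya = 1 - yc := by linarith
  rw [hya']
  ring

lemma hs_congr (ends : E → Sym2 V) {w w' : E → ℝ} (S : Finset E) (x : V → ℝ)
    (h : ∀ g ∈ S, w g = w' g) (φ : ∀ F : Finset E, (Quotient (cset ends F) → ℝ) → ℝ) :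
    hs ends w S x φ = hs ends w' S x φ := by
  unfold hs
  refine Finset.sum_congr rfl fun F hF => ?_
  rw [mem_filter, mem_powerset] at hF
  congr 1
  exact Finset.prod_congr rfl fun g hg => h g (hF.1 hg)

/-! ### The graph on all pairs -/

/-- The pairs of different vertices. -/
def PE (V : Type*) := {g : Sym2 V // ¬ g.IsDiag}

noncomputable instance : Fintype (PE V) := by
  unfold PE
  infer_instance

/-- The ends of a pair. -/
def pe (V : Type*) : PE V → Sym2 V := Subtype.val

lemma pe_loop : ∀ g : PE V, ¬ (pe V g).IsDiag := fun g => g.2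

lemma Z_pe (W : Sym2 V → ℝ) : ∑ F ∈ (univ : Finset (Finset (PE V))) with Forest (pe V) F,
    ∏ g ∈ F, W g.1 = Z W := by
  have h1 := Pool.Agent.PW.FS_eq (pe V) (fun g : PE V => W g.1)
  unfold Pool.Agent.PW.FS at h1
  rw [h1]
  refine Pool.Agent.PW.Z_congr fun g hg => ?_
  unfold Pool.Agent.PW.tot
  have h2 : (univ : Finset (PE V)).filter (fun e => pe V e = g) = {⟨g, hg⟩} := by
    ext e
    simp only [mem_filter, mem_univ, true_and, mem_singleton]
    exact ⟨fun h => Subtype.ext h, fun h => by rw [h]; rfl⟩
  rw [h2, Finset.sum_singleton]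

lemma mr_pe (W : Sym2 V → ℝ) (h i : V) :
    mr (pe V) h (fun g : PE V => W g.1) i = if i = h then 0 else W s(h, i) := by
  unfold mr
  by_cases hi : i = h
  · rw [if_pos hi]
    refine Finset.sum_eq_zero fun e he => ?_
    rw [mem_filter, mem_St] at he
    exact absurd (he.2.trans hi) (far_ne pe_loop he.1)
  · rw [if_neg hi]
    have hnd : ¬ (s(h, i)).IsDiag := by
      rw [Sym2.mk_isDiag_iff]
      exact fun h1 => hi h1.symm
    have h2 : (St (pe V) h).filter (fun e => far (pe V) h e = i) = {⟨s(h, i), hnd⟩} := by
      ext e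
      simp only [mem_filter, mem_St, mem_singleton]
      constructor
      · rintro ⟨h1, h3⟩
        have h4 := ends_far h1
        rw [h3] at h4
        exact Subtype.ext h4
      · rintro rfl
        have h1 : h ∈ pe V ⟨s(h, i), hnd⟩ := Sym2.mem_mk_left h i
        refine ⟨h1, ?_⟩
        have h4 := ends_far h1
        have h5 : s(h, i) = s(h, far (pe V) h ⟨s(h, i), hnd⟩) := h4
        rw [Sym2.eq_iff] at h5
        rcases h5 with h5 | h5
        · exact h5.2.symm
        · exact absurd h5.2 hi
    rw [h2, Finset.sum_singleton]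

/-- `Ray` from the values of the partition function. -/
lemma ray_of_four (W : Sym2 V → ℝ) {e f : Sym2 V} (hef : e ≠ f) (ρ₀ σ₀ z0 z1 z2 z12 : ℝ)
    (h : ∀ ρ σ, Z (Function.update (Function.update W e ρ) f σ) =
      z0 + (ρ - ρ₀) * z1 + (σ - σ₀) * z2 + (ρ - ρ₀) * (σ - σ₀) * z12) :
    Ray W e f = z1 * z2 - z0 * z12 := by
  set W0 := Function.update (Function.update W e ρ₀) f σ₀ with hW0
  have h1 : Ray W e f = Ray W0 e f := by
    rw [hW0]
    refine Pool.Agent.PW.Ray_congr hef fun g _ h1 h2 => ?_
    rw [Function.update_of_ne h2, Function.update_of_ne h1]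
  have e00 : Z W0 = z0 := by
    rw [hW0, h]
    ring
  have hue : Function.update W0 e (ρ₀ + 1) =
      Function.update (Function.update W e (ρ₀ + 1)) f σ₀ := by
    rw [hW0, Function.update_comm hef.symm, Function.update_idem]
  have huf : Function.update W0 f (σ₀ + 1) =
      Function.update (Function.update W e ρ₀) f (σ₀ + 1) := by
    rw [hW0, Function.update_idem]
  have huef : Function.update (Function.update W0 e (ρ₀ + 1)) f (σ₀ + 1) =
      Function.update (Function.update W e (ρ₀ + 1)) f (σ₀ + 1) := by
    rw [hue, Function.update_idem]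
  have v0e : W0 e = ρ₀ := by
    rw [hW0, Function.update_of_ne hef, Function.update_self]
  have v0f : W0 f = σ₀ := by
    rw [hW0, Function.update_self]
  have n1 : N W0 e = z1 := by
    have h2 := Pool.Agent.PW.Z_split W0 e (ρ₀ + 1)
    rw [e00, hue, h, v0e] at h2
    linarith
  have n2 : N W0 f = z2 := by
    have h2 := Pool.Agent.PW.Z_split W0 f (σ₀ + 1)
    rw [e00, huf, h, v0f] at h2
    linarith
  have n3 : N2 W0 e f = z12 := by
    -- N W0 e = N (update W0 f (σ₀+1)) e - N2
    have h2 := Pool.Agent.PW.N_split W0 hef.symm (σ₀ + 1)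
    have h3 := Pool.Agent.PW.Z_split (Function.update W0 f (σ₀ + 1)) e (ρ₀ + 1)
    have h4 : Function.update (Function.update W0 f (σ₀ + 1)) e (ρ₀ + 1) =
        Function.update (Function.update W e (ρ₀ + 1)) f (σ₀ + 1) := by
      rw [huf, Function.update_comm hef.symm, Function.update_idem]
    rw [h4, huf, h, h, ← huf, Function.update_of_ne hef, v0e] at h3
    rw [n1, v0f] at h2
    linarith
  rw [h1]
  unfold Ray
  rw [n1, n2, n3, e00]

/-- **Twin ends**, normalised form. -/
theorem ray_twin_norm (W : Sym2 V → ℝ) (hW : ∀ g, 0 ≤ W g) {a b c d : V}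
    (hab : a ≠ b) (hac : a ≠ c) (had : a ≠ d) (hbc : b ≠ c) (hbd : b ≠ d) (hcd : c ≠ d)
    {ya yc : ℝ} (hya : 0 < ya) (hyc : 0 < yc) (hy : ya + yc = 1) (x : V → ℝ) (hx : ∀ v, 0 ≤ x v)
    (ha : ∀ v, v ≠ a → v ≠ b → v ≠ c → v ≠ d → W s(a, v) = ya * x v)
    (hc : ∀ v, v ≠ a → v ≠ b → v ≠ c → v ≠ d → W s(c, v) = yc * x v) :
    0 ≤ Ray W s(a, b) s(c, d) := by
  have hef : s(a, b) ≠ s(c, d) := by
    intro h
    rw [Sym2.eq_iff] at h
    rcases h with ⟨h1, _⟩ | ⟨h1, _⟩
    · exact hac h1
    · exact had h1
  -- the direction of the common star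
  set x' : V → ℝ := fun i => if i = a then 0 else if i = c then 0 else
    if i = b then W s(c, b) / yc else if i = d then W s(a, d) / ya else x i with hx'
  have hx'0 : ∀ i, 0 ≤ x' i := by
    intro i
    rw [hx']
    simp only
    have := hx i
    have h1 := hW s(c, b)
    have h2 := hW s(a, d)
    split_ifs <;> positivity
  set S : Finset (PE V) := univ.filter (fun g => g ∉ St (pe V) a ∧ g ∉ St (pe V) c) with hS
  set w : PE V → ℝ := fun g => W g.1 with hw
  have hw0 : ∀ g, 0 ≤ w g := fun g => hW g.1
  set u := W s(c, a) with hu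
  have hloop : ∀ g : PE V, ¬ (pe V g).IsDiag := pe_loop
  have hineq := coef_ineq (pe V) S b d hloop hw0 hx'0 hya.le hyc.le hy (hW s(c, a))
  rw [ray_of_four W hef (ya * x' b) (yc * x' d) _ _ _ _ ?_]
  · exact sub_nonneg.mpr hineq
  · intro ρ σ
    set W' := Function.update (Function.update W s(a, b) ρ) s(c, d) σ with hW'
    set w' : PE V → ℝ := fun g => W' g.1 with hw'
    -- values of W'
    have v1 : ∀ g, g ≠ s(a, b) → g ≠ s(c, d) → W' g = W g := by
      intro g h1 h2
      rw [hW', Function.update_of_ne h2, Function.update_of_ne h1]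
    have v2 : W' s(a, b) = ρ := by
      rw [hW', Function.update_of_ne hef, Function.update_self]
    have v3 : W' s(c, d) = σ := by
      rw [hW', Function.update_self]
    have xa : x' a = 0 := by simp [hx']
    have xc : x' c = 0 := by simp [hx']
    have xb : x' b = W s(c, b) / yc := by simp [hx', hab.symm, hbc]
    have xd : x' d = W s(a, d) / ya := by simp [hx', had.symm, hcd.symm, hbd.symm]
    have hne : ∀ {p q r t : V}, (p ≠ r ∨ q ≠ t) → (p ≠ t ∨ q ≠ r) → s(p, q) ≠ s(r, t) := by
      intro p q r t h1 h2 h3
      rw [Sym2.eq_iff] at h3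
      tauto
    have hZ := Z_coef (pe V) hloop w' hac b d x' hy (ρ - ya * x' b) (σ - yc * x' d) (by
      intro i
      rw [mr_pe]
      by_cases hic : i = c
      · subst hic
        rw [if_pos rfl, xc, if_neg hbc.symm]
        ring
      rw [if_neg hic]
      by_cases hia : i = a
      · subst hia
        rw [if_pos rfl, xa, if_neg hab]
        ring
      rw [if_neg hia]
      by_cases hib : i = b
      · subst hib
        rw [if_pos rfl, v2]
        ring
      rw [if_neg hib, v1 _ (hne (Or.inr hib) (Or.inl hab)) (hne (Or.inl hac) (Or.inl had))]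
      by_cases hid : i = d
      · subst hid
        rw [xd]
        field_simp
        ring
      rw [ha i hia hib hic hid]
      simp [hx', hia, hic, hib, hid]) (by
      intro i
      rw [mr_pe]
      by_cases hia : i = a
      · subst hia
        rw [if_pos rfl, xa, if_neg had]
        ring
      rw [if_neg hia]
      by_cases hic : i = c
      · subst hic
        rw [if_pos rfl, xc, if_neg hcd]
        ring
      rw [if_neg hic]
      by_cases hid : i = d
      · subst hid
        rw [if_pos rfl, v3]
        ring
      rw [if_neg hid, v1 _ (hne (Or.inl hac.symm) (Or.inl hbc.symm))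
        (hne (Or.inr hid) (Or.inl hcd))]
      by_cases hib : i = b
      · subst hib
        rw [xb]
        field_simp
        ring
      rw [hc i hia hib hic hid]
      simp [hx', hia, hic, hib, hid]) S (fun g => by simp [hS]) u (by
      rw [mr_pe, if_neg hac, hu, v1 _ (hne (Or.inl hac.symm) (Or.inl hbc.symm))
        (hne (Or.inr had) (Or.inl hcd))])
    have hZ' := (Z_pe W').symm.trans hZ
    rw [hZ']
    have hcongr : ∀ g ∈ S, w' g = w g := by
      intro g hg
      rw [hS, mem_filter, mem_St, mem_St] at hg
      refine v1 _ ?_ ?_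
      · intro h
        apply hg.2.1
        show a ∈ g.1
        rw [h]
        exact Sym2.mem_mk_left a b
      · intro h
        apply hg.2.2
        show c ∈ g.1
        rw [h]
        exact Sym2.mem_mk_left c d
    have c0 : h0 (pe V) w' S x' = h0 (pe V) w S x' := hs_congr _ S x' hcongr _
    have cx : Pool.Agent.Lib.MP_d90615_co.hx (pe V) w' S x' =
      Pool.Agent.Lib.MP_d90615_co.hx (pe V) w S x' := hs_congr _ S x' hcongr _
    have cb : ∀ b, hb (pe V) w' S x' b = hb (pe V) w S x' b := fun b =>
      hs_congr _ S x' hcongr _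
    have cbx : ∀ b, hbx (pe V) w' S x' b = hbx (pe V) w S x' b := fun b =>
      hs_congr _ S x' hcongr _
    have cbd : Pool.Agent.Lib.MP_d90615_co.hbd (pe V) w' S x' b d =
      Pool.Agent.Lib.MP_d90615_co.hbd (pe V) w S x' b d := hs_congr _ S x' hcongr _
    have cbdx : hbdx (pe V) w' S x' b d = hbdx (pe V) w S x' b d := hs_congr _ S x' hcongr _
    rw [c0, cx, cb, cb, cbx, cbx, cbd, cbdx]

end Pool.Agent.Lib.MP_d90615_co
end

section

/-!
Roots and marks of one class.
-/

set_option autoImplicit false
set_option linter.unusedSectionVars false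

namespace Pool.Agent.Lib.MP_d90615_co

open Finset
open scoped Classical

variable {U : Type*} [Fintype U]

/-- Expansion at the vertex `h`. -/
lemma mj_expand (W : Sym2 U → ℝ) (h : U) (y : U → ℝ)
    (hy : ∀ i, y i = if i = h then 0 else W s(h, i)) :
    Pool.Agent.PW.Z W = ∑ F ∈ (univ \ St (pe U) h).powerset with Forest (pe U) F,
      (∏ g ∈ F, W g.1) * ∏ q, (1 + cm (pe U) F y q) := by
  have h1 := gs_eq (pe U) pe_loop (fun g : PE U => W g.1) h (fun g : PE U => ((W g.1 : ℝ) : ℂ))
  have h2 : gs (pe U) (fun g : PE U => W g.1) h (fun g : PE U => ((W g.1 : ℝ) : ℂ)) =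
      ((Pool.Agent.PW.Z W : ℝ) : ℂ) := by
    rw [← Z_pe]
    unfold gs
    push_cast
    refine Finset.sum_congr rfl fun F _ => Finset.prod_congr rfl fun g _ => ?_
    split_ifs <;> rfl
  have h3 : ∀ i, mm (pe U) h (fun g : PE U => ((W g.1 : ℝ) : ℂ)) i = ((y i : ℝ) : ℂ) := by
    intro i
    rw [hy, ← mr_pe W h i]
    unfold mm mr
    push_cast
    rfl
  rw [h2, funext h3] at h1
  have h5 : HW (pe U) (fun g : PE U => W g.1) (univ \ St (pe U) h)
      (Matrix.diagonal fun i => ((y i : ℝ) : ℂ)) =
      ((∑ F ∈ (univ \ St (pe U) h).powerset with Forest (pe U) F, (∏ g ∈ F, W g.1) *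
      ∏ q, (1 + cm (pe U) F y q) : ℝ) : ℂ) := by
    unfold HW
    push_cast
    refine Finset.sum_congr rfl fun F hF => ?_
    rw [det_comp]
    congr 1
    refine Finset.prod_congr rfl fun q _ => ?_
    rw [cm_cast]
  rw [h5] at h1
  exact_mod_cast h1

lemma mj_line {E : Type*} [Fintype E] (ends : E → Sym2 U) (w : E → ℝ) (S : Finset E) (x y : U → ℝ)
    (l : ℝ) (hy : ∀ i, y i = l * x i) :
    ∑ F ∈ S.powerset with Forest ends F, (∏ g ∈ F, w g) * ∏ q, (1 + cm ends F y q) =
      (fP ends w S x).eval l := by
  have hy' : y = fun i => l * x i := funext hy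
  rw [fP, Polynomial.eval_finsetSum, hy']
  refine Finset.sum_congr rfl fun F _ => ?_
  rw [Polynomial.eval_mul, Polynomial.eval_C, prod_lin_eval]
  congr 1
  refine Finset.prod_congr rfl fun q _ => ?_
  rw [cm_mul]
  ring

lemma mj_line_mark {E : Type*} [Fintype E] (ends : E → Sym2 U) (w : E → ℝ) (S : Finset E)
    (x y : U → ℝ) (l : ℝ) (b : U) (hy : ∀ i, y i = l * x i + if i = b then 1 else 0) :
    ∑ F ∈ S.powerset with Forest ends F, (∏ g ∈ F, w g) * ∏ q, (1 + cm ends F y q) =
      2 * (fP ends w S x).eval l - l * (wP ends w S x b).eval l := by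
  have hy' : y = fun i => l * x i + if i = b then 1 else 0 := funext hy
  rw [fP, wP, Polynomial.eval_finsetSum, Polynomial.eval_finsetSum, hy', Finset.mul_sum,
    Finset.mul_sum, ← Finset.sum_sub_distrib]
  refine Finset.sum_congr rfl fun F _ => ?_
  rw [Polynomial.eval_mul, Polynomial.eval_C, prod_lin_eval, Polynomial.eval_mul,
    Polynomial.eval_C, prod_lin_eval]
  have h1 : ∀ q, 1 + cm ends F (fun i => l * x i + if i = b then 1 else 0) q
      = (1 + cm ends F x q * l) + if q = cmp ends F b then 1 else 0 := by
    intro q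
    rw [cm_add, cm_single, cm_mul]
    ring
  rw [Finset.prod_congr rfl fun q _ => h1 q,
    ← Finset.mul_prod_erase univ (fun q => (1 + cm ends F x q * l) +
      if q = cmp ends F b then 1 else 0) (mem_univ (cmp ends F b)), if_pos rfl,
    ← Finset.mul_prod_erase univ (fun q => (1 + cm ends F x q * l))
      (mem_univ (cmp ends F b))]
  have h3 : ∏ q ∈ univ.erase (cmp ends F b), ((1 + cm ends F x q * l) +
      if q = cmp ends F b then 1 else 0) =
      ∏ q ∈ univ.erase (cmp ends F b), (1 + cm ends F x q * l) := by
    refine Finset.prod_congr rfl fun q hq => ?_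
    rw [if_neg (Finset.ne_of_mem_erase hq), add_zero]
  rw [h3]
  ring

/-- Roots and marks, general form. -/
lemma mj_roots {E : Type*} [Fintype E] (ends : E → Sym2 U) (hloop : ∀ e, ¬ (ends e).IsDiag)
    (w : E → ℝ) (hw : ∀ e, 0 ≤ w e) (S : Finset E) (x : U → ℝ) (hx : ∀ i, 0 ≤ x i) (b : U) :
    ∃ (n : ℕ) (ρ κ : Fin n → ℝ) (c : ℝ), 0 < c ∧ (∀ i, 0 ≤ ρ i) ∧ (∀ i, 0 ≤ κ i) ∧
      ∑ i, ρ i = ∑ v, x v ∧
      (∀ l, (fP ends w S x).eval l = c * ∏ i, (1 + ρ i * l)) ∧
      (∀ l, (wP ends w S x b).eval l =
        c * ∑ i, κ i * (ρ i * ∏ i' ∈ univ.erase i, (1 + ρ i' * l))) := by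
  set f := fP ends w S x with hf
  set g := wP ends w S x b with hg
  have hf0 : 0 < f.eval 0 := fP_zero_pos _ _ hw
  obtain ⟨n, ρ, κ, hρ, hκ, hfe, hwe⟩ := Pool.Agent.TW.roots_kap hf0
    (fP_coeff _ _ hw hx) (wP_degree _ _ b hw hx)
    (fun z hz => by
      rw [aeval_fP]
      refine HW_diag_ne_zero _ hloop _ hw _ _ fun i => ?_
      rcases (hx i).eq_or_lt with h | h
      · right
        rw [← h]
        simp
      · left
        rw [Complex.im_mul_ofReal]
        positivity)
    (fun z hz e he => by
      rw [aeval_two]
      refine HW_diag_ne_zero _ hloop _ hw _ _ fun i => ?_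
      rcases (hx i).eq_or_lt with h | h
      · by_cases h1 : i = b
        · left
          rw [if_pos h1, ← h]
          simpa using he
        · right
          rw [if_neg h1, ← h]
          simp
      · left
        rw [Complex.add_im, Complex.im_mul_ofReal]
        have : 0 ≤ (if i = b then e else 0).im := by
          split_ifs
          · exact he.le
          · simp
        positivity)
  refine ⟨n, ρ, κ, f.eval 0, hf0, hρ, hκ, ?_, ?_, ?_⟩
  · have h1 := fP_deriv_zero ends w S x
    rw [← fP_eval_zero ends w S x, ← hf] at h1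
    have h2 : f.derivative.eval 0 = f.eval 0 * ∑ i, ρ i := by
      conv_lhs => rw [hfe]
      rw [Polynomial.derivative_C_mul, Polynomial.eval_mul, Polynomial.eval_C, prod_lin_deriv]
      unfold Pool.Agent.TW.Sg
      simp
    rw [h2, mul_comm] at h1
    exact mul_right_cancel₀ hf0.ne' h1
  · intro l
    conv_lhs => rw [hfe]
    rw [Polynomial.eval_mul, Polynomial.eval_C, prod_lin_eval]
  · intro l
    rw [hg, hwe, Polynomial.eval_finsetSum, Finset.mul_sum]
    refine Finset.sum_congr rfl fun i _ => ?_
    rw [Polynomial.eval_mul, Polynomial.eval_C, prod_lin_eval]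
    ring

end Pool.Agent.Lib.MP_d90615_co

namespace Pool.Agent.MJ

open Finset Polynomial
open scoped Classical
open Pool.Agent.PW (Z N N2 Ray cw pw mv)
open Pool.Agent.Lib.MP_d90615_co (Forest cset cmp cm PE pe pe_loop fP wP mj_expand mj_line
  mj_line_mark mj_roots mem_St)

variable {V : Type*} [Fintype V]

/-- The pairs which avoid the hub. -/
noncomputable def Sh (V : Type*) [Fintype V] : Finset (PE (Option V)) :=
  univ \ Pool.Agent.Lib.MP_d90615_co.St (pe (Option V)) none

/-- The weight of a vertex, extended by zero to the hub. -/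
def ext0 (z : V → ℝ) : Option V → ℝ := fun o => o.elim 0 z

/-- The weights of the pairs. -/
noncomputable def wh (W : Sym2 V → ℝ) : PE (Option V) → ℝ := fun g => St W 0 g.1

lemma mem_Sh {g : PE (Option V)} : g ∈ Sh V ↔ none ∉ g.1 := by
  unfold Sh
  rw [mem_sdiff, mem_St]
  exact ⟨fun h => h.2, fun h => ⟨mem_univ _, h⟩⟩

lemma St_avoid (W : Sym2 V → ℝ) (z z' : V → ℝ) {g : Sym2 (Option V)} (hg : none ∉ g) :
    St W z g = St W z' g := by
  induction g using Sym2.ind with
  | _ p q =>
    cases p with
    | none => exact absurd (Sym2.mem_mk_left _ _) hg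
    | some u =>
      cases q with
      | none => exact absurd (Sym2.mem_mk_right _ _) hg
      | some v => rfl

/-- Expansion at the hub. -/
theorem Zs_expand (W : Sym2 V → ℝ) (z : V → ℝ) :
    Zs W z = ∑ F ∈ (Sh V).powerset with Forest (pe (Option V)) F, (∏ g ∈ F, wh W g) *
      ∏ q, (1 + cm (pe (Option V)) F (ext0 z) q) := by
  unfold Zs
  rw [mj_expand (St W z) none (ext0 z) (fun i => by cases i <;> simp [ext0])]
  refine Finset.sum_congr rfl fun F hF => ?_
  rw [mem_filter, mem_powerset] at hF
  congr 1
  refine Finset.prod_congr rfl fun g hg => ?_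
  unfold wh
  exact St_avoid W z 0 (mem_Sh.mp (hF.1 hg))

theorem Zs_line (W : Sym2 V → ℝ) (x : V → ℝ) (l : ℝ) :
    Zs W (fun v => l * x v) = (fP (pe (Option V)) (wh W) (Sh V) (ext0 x)).eval l := by
  rw [Zs_expand]
  exact mj_line _ _ _ _ _ l fun i => by cases i <;> simp [ext0]

lemma Gs_diff (W : Sym2 V → ℝ) (z : V → ℝ) (a : V) :
    Gs W z a = Zs W (fun v => z v + if v = a then 1 else 0) - Zs W z := by
  have h1 := Pool.Agent.PW.Z_split (St W z) s(none, some a) (z a + 1)
  have h2 : ∀ U : Sym2 (Option V) → ℝ, (∀ g, g ≠ s(none, some a) → U g = St W z g) →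
      U s(none, some a) = z a + 1 → Z U = Zs W (fun v => z v + if v = a then 1 else 0) := by
    intro U hU hU'
    unfold Zs
    refine Pool.Agent.PW.Z_congr fun g hg => ?_
    refine St_ext ?_ ?_ g hg
    · intro u v _
      rw [hU]
      · rfl
      · intro h
        have h3 : none ∈ s(some u, some v) := by
          rw [h]
          exact Sym2.mem_mk_left _ _
        simp at h3
    · intro v
      by_cases hv : v = a
      · subst hv
        rw [hU', if_pos rfl]
      · rw [hU, if_neg hv, add_zero]
        · rfl
        · intro h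
          rw [Sym2.eq_iff] at h
          rcases h with h | h
          · exact hv (Option.some_injective _ h.2)
          · simp at h
  rw [h2 _ (fun g hg => Function.update_of_ne hg _ _) (Function.update_self _ _ _),
    St_none] at h1
  unfold Gs
  have h3 : Zs W z = Z (St W z) := rfl
  rw [h3]
  linarith

theorem Gs_line (W : Sym2 V → ℝ) (x : V → ℝ) (a : V) (l : ℝ) :
    Gs W (fun v => l * x v) a = (fP (pe (Option V)) (wh W) (Sh V) (ext0 x)).eval l -
      l * (wP (pe (Option V)) (wh W) (Sh V) (ext0 x) (some a)).eval l := by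
  rw [Gs_diff, Zs_line, Zs_expand, mj_line_mark (pe (Option V)) (wh W) (Sh V) (ext0 x) _ l (some a)
    (fun i => by cases i <;> simp [ext0])]
  ring

theorem rowH (W : Sym2 V → ℝ) (hW : ∀ g, 0 ≤ W g) (x : V → ℝ) (hx : ∀ v, 0 ≤ x v) (a : V)
    (_ha : 0 < x a) :
    ∃ (n : ℕ) (ρ κ : Fin n → ℝ) (c : ℝ), 0 < c ∧ (∀ i, 0 ≤ ρ i) ∧ (∀ i, 0 ≤ κ i) ∧
      ∑ i, ρ i = ∑ v, x v ∧
      (∀ l, Zs W (fun v => l * x v) = c * ∏ i, (1 + ρ i * l)) ∧
      (∀ l, Gs W (fun v => l * x v) a = c * ∏ i, (1 + ρ i * l) -
        l * (c * ∑ i, κ i * (ρ i * ∏ i' ∈ univ.erase i, (1 + ρ i' * l)))) := by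
  have hw0 : ∀ e, 0 ≤ wh W e := by
    rintro ⟨g, hg⟩
    show 0 ≤ St W 0 g
    clear hg
    induction g using Sym2.ind with
    | _ p q =>
      cases p with
      | none =>
        cases q with
        | none => exact le_refl (0 : ℝ)
        | some v => exact le_refl (0 : ℝ)
      | some u =>
        cases q with
        | none => exact le_refl (0 : ℝ)
        | some v => exact hW _
  have hx0 : ∀ i, 0 ≤ ext0 x i := by
    intro i
    cases i with
    | none => exact le_refl (0 : ℝ)
    | some v => exact hx v
  obtain ⟨n, ρ, κ, c, hc, hρ, hκ, hs, h1, h2⟩ := mj_roots (pe (Option V)) pe_loop (wh W) hw0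
    (Sh V) (ext0 x) hx0 (some a)
  refine ⟨n, ρ, κ, c, hc, hρ, hκ, ?_, ?_, ?_⟩
  · rw [hs, Fintype.sum_option]
    simp [ext0]
  · intro l
    rw [Zs_line, h1]
  · intro l
    rw [Gs_line, h1, h2]

end Pool.Agent.MJ
end

section

/-!
Two vertices with proportional stars, general form, and two edges with a common end.
-/

set_option autoImplicit false
set_option linter.unusedSectionVars false

namespace Pool.Agent.Lib.MP_d90615_co

open Matrix Finset
open scoped Classical Topology

open Pool.Agent.TW
open Pool.Agent.PW (Z N N2 Ray)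

variable {V E : Type*} [Fintype V] [Fintype E]

lemma continuous_Ray (e f : Sym2 V) : Continuous fun W : Sym2 V → ℝ => Ray W e f := by
  unfold Ray N Z N2
  refine Continuous.sub (Continuous.mul ?_ ?_) (Continuous.mul ?_ ?_)
  all_goals
    refine continuous_finsetSum _ fun F _ => continuous_finsetProd _ fun g _ => ?_
    exact continuous_apply g

/-- **Twin ends.** -/
theorem ray_twin (W : Sym2 V → ℝ) (hW : ∀ g, 0 ≤ W g) {a b c d : V}
    (hab : a ≠ b) (hac : a ≠ c) (had : a ≠ d) (hbc : b ≠ c) (hbd : b ≠ d) (hcd : c ≠ d)
    {ya yc : ℝ} (hya : 0 ≤ ya) (hyc : 0 ≤ yc) (x : V → ℝ) (hx : ∀ v, 0 ≤ x v)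
    (ha : ∀ v, v ≠ a → v ≠ b → v ≠ c → v ≠ d → W s(a, v) = ya * x v)
    (hc : ∀ v, v ≠ a → v ≠ b → v ≠ c → v ≠ d → W s(c, v) = yc * x v) :
    0 ≤ Ray W s(a, b) s(c, d) := by
  set R : Finset V := univ.filter fun v => v ≠ a ∧ v ≠ b ∧ v ≠ c ∧ v ≠ d with hR
  set D : Sym2 V → ℝ := fun g => ∑ v ∈ R, (if g = s(a, v) then x v else 0) +
    ∑ v ∈ R, (if g = s(c, v) then x v else 0) with hD
  have hD0 : ∀ g, 0 ≤ D g := fun g => add_nonneg
    (Finset.sum_nonneg fun v _ => by split_ifs <;> [exact hx v; exact le_refl 0])
    (Finset.sum_nonneg fun v _ => by split_ifs <;> [exact hx v; exact le_refl 0])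
  have hRm : ∀ v, v ∈ R ↔ v ≠ a ∧ v ≠ b ∧ v ≠ c ∧ v ≠ d := fun v => by simp [hR]
  have hDa : ∀ v, v ≠ a → v ≠ b → v ≠ c → v ≠ d → D s(a, v) = x v := by
    intro v h1 h2 h3 h4
    have k1 : ∑ v' ∈ R, (if s(a, v) = s(a, v') then x v' else 0) = x v := by
      rw [Finset.sum_eq_single v]
      · rw [if_pos rfl]
      · intro v' hv' hne
        rw [if_neg]
        intro h
        rw [Sym2.eq_iff] at h
        rcases h with h | h
        · exact hne h.2.symm
        · exact ((hRm v').mp hv').1 h.1.symm
      · intro h
        exact absurd ((hRm v).mpr ⟨h1, h2, h3, h4⟩) h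
    have k2 : ∑ v' ∈ R, (if s(a, v) = s(c, v') then x v' else 0) = 0 := by
      refine Finset.sum_eq_zero fun v' hv' => ?_
      rw [if_neg]
      intro h
      rw [Sym2.eq_iff] at h
      rcases h with h | h
      · exact hac h.1
      · exact ((hRm v').mp hv').1 h.1.symm
    rw [hD]
    simp only
    rw [k1, k2, add_zero]
  have hDc : ∀ v, v ≠ a → v ≠ b → v ≠ c → v ≠ d → D s(c, v) = x v := by
    intro v h1 h2 h3 h4
    have k1 : ∑ v' ∈ R, (if s(c, v) = s(c, v') then x v' else 0) = x v := by
      rw [Finset.sum_eq_single v]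
      · rw [if_pos rfl]
      · intro v' hv' hne
        rw [if_neg]
        intro h
        rw [Sym2.eq_iff] at h
        rcases h with h | h
        · exact hne h.2.symm
        · exact ((hRm v').mp hv').2.2.1 h.1.symm
      · intro h
        exact absurd ((hRm v).mpr ⟨h1, h2, h3, h4⟩) h
    have k2 : ∑ v' ∈ R, (if s(c, v) = s(a, v') then x v' else 0) = 0 := by
      refine Finset.sum_eq_zero fun v' hv' => ?_
      rw [if_neg]
      intro h
      rw [Sym2.eq_iff] at h
      rcases h with h | h
      · exact hac h.1.symm
      · exact ((hRm v').mp hv').2.2.1 h.1.symm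
    rw [hD]
    simp only
    rw [k1, k2, zero_add]
  have key : ∀ ε : ℝ, 0 < ε → 0 ≤ Ray (fun g => W g + ε * D g) s(a, b) s(c, d) := by
    intro ε hε
    set Y := ya + ε + (yc + ε) with hY
    have hY0 : 0 < Y := by positivity
    refine ray_twin_norm (fun g => W g + ε * D g) (fun g => ?_) hab hac had hbc hbd hcd
      (ya := (ya + ε) / Y) (yc := (yc + ε) / Y) (by positivity) (by positivity) ?_
      (fun v => Y * x v) (fun v => mul_nonneg hY0.le (hx v)) ?_ ?_
    · have h1 := hW g
      have h2 := hD0 g
      positivity
    · rw [← add_div, ← hY, div_self hY0.ne']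
    · intro v h1 h2 h3 h4
      rw [ha v h1 h2 h3 h4, hDa v h1 h2 h3 h4]
      field_simp
    · intro v h1 h2 h3 h4
      rw [hc v h1 h2 h3 h4, hDc v h1 h2 h3 h4]
      field_simp
  have hcont : Continuous fun ε : ℝ => Ray (fun g => W g + ε * D g) s(a, b) s(c, d) := by
    refine (continuous_Ray s(a, b) s(c, d)).comp ?_
    refine continuous_pi fun g => ?_
    exact continuous_const.add (continuous_id.mul continuous_const)
  have h1 := (hcont.tendsto 0).mono_left (nhdsWithin_le_nhds (s := Set.Ioi 0))
  have h2 := ge_of_tendsto h1 (by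
    filter_upwards [self_mem_nhdsWithin] with ε hε
    exact key ε hε)
  simpa using h2

/-- The partition function in the weights of two edges at `h`. -/
lemma four_real (ends : E → Sym2 V) (w : E → ℝ) (h : V) {e f : E} (hef : e ≠ f)
    (he : h ∈ ends e) (hf : h ∈ ends f) :
    ∑ F ∈ (univ : Finset (Finset E)) with Forest ends F, ∏ g ∈ F, w g =
      BR ends w h e f (fun F => e ∉ F ∧ f ∉ F) w
      + w e * BR ends w h e f (fun F => e ∈ F ∧ f ∉ F) w
      + w f * BR ends w h e f (fun F => e ∉ F ∧ f ∈ F) w
      + w e * w f * BR ends w h e f (fun F => e ∈ F ∧ f ∈ F) w := by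
  have h1 := gs_four ends w h hef he hf (fun g => (w g : ℂ))
  rw [BB_ofReal, BB_ofReal, BB_ofReal, BB_ofReal] at h1
  have h2 : gs ends w h (fun g => (w g : ℂ)) =
      ((∑ F ∈ (univ : Finset (Finset E)) with Forest ends F, ∏ g ∈ F, w g : ℝ) : ℂ) := by
    unfold gs
    push_cast
    refine Finset.sum_congr rfl fun F _ => Finset.prod_congr rfl fun g _ => ?_
    split_ifs <;> rfl
  rw [h2] at h1
  exact_mod_cast h1

/-- Two edges with a common end. -/
theorem ray_adj (W : Sym2 V → ℝ) (hW : ∀ g, 0 ≤ W g) {a b d : V}
    (hab : a ≠ b) (had : a ≠ d) (hbd : b ≠ d) : 0 ≤ Ray W s(a, b) s(a, d) := by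
  have hef : s(a, b) ≠ s(a, d) := by
    intro h
    rw [Sym2.eq_iff] at h
    rcases h with h | h
    · exact hbd h.2
    · exact had h.1
  have he0 : ¬ (s(a, b)).IsDiag := by rwa [Sym2.mk_isDiag_iff]
  have hf0 : ¬ (s(a, d)).IsDiag := by rwa [Sym2.mk_isDiag_iff]
  set e : PE V := ⟨s(a, b), he0⟩ with he
  set f : PE V := ⟨s(a, d), hf0⟩ with hf
  have hef' : e ≠ f := fun h => hef (congrArg Subtype.val h)
  have hae : a ∈ pe V e := Sym2.mem_mk_left a b
  have haf : a ∈ pe V f := Sym2.mem_mk_left a d
  set w : PE V → ℝ := fun g => W g.1 with hw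
  have hray := star_rayleigh (pe V) pe_loop w (fun g => hW g.1) a hef' hae haf w
  rw [ray_of_four W hef 0 0 (BR (pe V) w a e f (fun F => e ∉ F ∧ f ∉ F) w)
    (BR (pe V) w a e f (fun F => e ∈ F ∧ f ∉ F) w)
    (BR (pe V) w a e f (fun F => e ∉ F ∧ f ∈ F) w)
    (BR (pe V) w a e f (fun F => e ∈ F ∧ f ∈ F) w) ?_]
  · exact sub_nonneg.mpr hray
  · intro ρ σ
    set W' := Function.update (Function.update W s(a, b) ρ) s(a, d) σ with hW'
    set w' : PE V → ℝ := fun g => W' g.1 with hw'
    have h1 := (Z_pe W').symm.trans (four_real (pe V) w' a hef' hae haf)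
    have v2 : w' e = ρ := by
      show W' s(a, b) = ρ
      rw [hW', Function.update_of_ne hef, Function.update_self]
    have v3 : w' f = σ := by
      show W' s(a, d) = σ
      rw [hW', Function.update_self]
    have hcongr : ∀ P : Finset (PE V) → Prop, BR (pe V) w' a e f P w' = BR (pe V) w a e f P w := by
      intro P
      unfold BR
      refine Finset.sum_congr rfl fun F _ => Finset.prod_congr rfl fun g hg => ?_
      rw [Finset.mem_erase, Finset.mem_erase] at hg
      have h3 : w' g = w g := by
        show W' g.1 = W g.1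
        rw [hW', Function.update_of_ne, Function.update_of_ne]
        · exact fun h => hg.2.1 (Subtype.ext h)
        · exact fun h => hg.1 (Subtype.ext h)
      rw [h3]
    rw [v2, v3, hcongr, hcongr, hcongr, hcongr] at h1
    rw [h1]
    ring

end Pool.Agent.Lib.MP_d90615_co
end
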