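import Mathlib
import Pool.Agent.Lib.MP_d90615_co.Mg.G006

section

/-!
# Row A
-/

set_option autoImplicit false
set_option linter.unusedSectionVars false

namespace Pool.Agent.MJ

open Finset Polynomial
open scoped Classical

theorem sum_fin4 (F : Finset (Fin 4) → ℝ) : ∑ T ∈ univ.erase ∅, F T =
    (F {0} + F {1} + F {2} + F {3})
      + (F {0, 1} + F {0, 2} + F {0, 3} + F {1, 2} + F {1, 3} + F {2, 3})
      + (F {0, 1, 2} + F {0, 1, 3} + F {0, 2, 3} + F {1, 2, 3}) + F {0, 1, 2, 3} := by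
  have h : (univ.erase ∅ : Finset (Finset (Fin 4))) =
      {{0}, {1}, {2}, {3}, {0, 1}, {0, 2}, {0, 3}, {1, 2}, {1, 3}, {2, 3}, {0, 1, 2},
        {0, 1, 3}, {0, 2, 3}, {1, 2, 3}, {0, 1, 2, 3}} := by decide
  rw [h]
  repeat rw [Finset.sum_insert (by decide)]
  rw [Finset.sum_singleton]
  ring

theorem rowA (n ρ : Finset (Fin 4) → ℝ) (U Q12 Q34 Z : ℝ)
    (hn : ∀ T, 0 < n T) (hρ : ∀ T, 0 < ρ T)
    (hmono : ∀ T i, i ∉ T → ρ T ≤ ρ (insert i T))
    (hsub : ∀ T i j, i ∉ T → j ∉ T → i ≠ j →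
      n T * n (insert i (insert j T)) ≤ n (insert i T) * n (insert j T))
    (hU : U ≤ n ∅ * ρ ∅ ^ 2)
    (h12 : Q12 = U + n {2} * ρ {2} + n {3} * ρ {3} + n {2, 3})
    (h34 : Q34 = U + n {0} * ρ {0} + n {1} * ρ {1} + n {0, 1})
    (hQ12 : 0 ≤ Q12) (hQ34 : 0 ≤ Q34) (hZ0 : 0 ≤ Z)
    (hZ : Z ≤ U + ∑ T ∈ univ.erase ∅, n T * ρ T ^ (2 - (T.card : ℤ))) :
    U * Z ≤ Q12 * Q34 := by
  rcases le_or_gt 0 U with h0 | h0
  · refine (mul_le_mul_of_nonneg_left hZ h0).trans ?_
    rw [sum_fin4]
    have hc1 : ∀ i : Fin 4, n {i} * ρ {i} ^ (2 - ((({i} : Finset (Fin 4))).card : ℤ))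
        = n {i} * ρ {i} := by
      intro i; simp
    have hc2 : ∀ i j : Fin 4, i ≠ j →
        n {i, j} * ρ {i, j} ^ (2 - ((({i, j} : Finset (Fin 4))).card : ℤ)) = n {i, j} := by
      intro i j h; rw [Finset.card_pair h]; simp
    have hc3 : ∀ i j k : Fin 4, i ≠ j → i ≠ k → j ≠ k →
        n {i, j, k} * ρ {i, j, k} ^ (2 - ((({i, j, k} : Finset (Fin 4))).card : ℤ))
          = n {i, j, k} / ρ {i, j, k} := by
      intro i j k h h' h''
      rw [Finset.card_eq_three.2 ⟨i, j, k, h, h', h'', rfl⟩]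
      norm_num [zpow_neg_one, div_eq_mul_inv]
    have hc4 : n {0, 1, 2, 3} * ρ {0, 1, 2, 3} ^
        (2 - ((({0, 1, 2, 3} : Finset (Fin 4))).card : ℤ))
          = n {0, 1, 2, 3} / ρ {0, 1, 2, 3} ^ 2 := by
      have : (({0, 1, 2, 3} : Finset (Fin 4))).card = 4 := by decide
      rw [this, div_eq_mul_inv]
      congr 1
    rw [hc1, hc1, hc1, hc1, hc2 0 1 (by decide), hc2 0 2 (by decide), hc2 0 3 (by decide),
      hc2 1 2 (by decide), hc2 1 3 (by decide), hc2 2 3 (by decide),
      hc3 0 1 2 (by decide) (by decide) (by decide), hc3 0 1 3 (by decide) (by decide) (by decide),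
      hc3 0 2 3 (by decide) (by decide) (by decide), hc3 1 2 3 (by decide) (by decide) (by decide),
      hc4, h12, h34]
    have := Pool.Agent.Lib.MP_d90615_co.MJ.alg n ρ U hn hρ hU hmono hsub
    linarith
  · exact (mul_nonpos_of_nonpos_of_nonneg h0.le hZ0).trans (mul_nonneg hQ12 hQ34)

end Pool.Agent.MJ
end

section

/-!
# The PAR inequality for matching-type systems (helper94's identities (R), (SC))

A *system* is a function `m : Finset ι → Finset κ → ℝ` with the two one-vertex recursions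
`m V₁ V₂ = r i * m (V₁ - i) V₂ - ∑ j, m (V₁ - i) (V₂ - j)` and its mirror image.
-/

set_option linter.unusedSectionVars false

namespace MP_d90615_co.CM

open Finset

variable {ι κ : Type*} [DecidableEq ι] [DecidableEq κ]

/-- weighted removal on the first side -/
def D1 (u : ι → ℝ) (f : Finset ι → Finset κ → ℝ) (A : Finset ι) (B : Finset κ) : ℝ :=
  ∑ i ∈ A, u i * f (A.erase i) B

/-- weighted removal on the second side -/
def D2 (v : κ → ℝ) (f : Finset ι → Finset κ → ℝ) (A : Finset ι) (B : Finset κ) : ℝ :=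
  ∑ j ∈ B, v j * f A (B.erase j)

theorem D1_D2 (u : ι → ℝ) (v : κ → ℝ) (f : Finset ι → Finset κ → ℝ) (A : Finset ι)
    (B : Finset κ) : D1 u (D2 v f) A B = D2 v (D1 u f) A B := by
  unfold D1 D2
  simp only [Finset.mul_sum]
  rw [Finset.sum_comm]
  refine Finset.sum_congr rfl fun j _ => Finset.sum_congr rfl fun i _ => ?_
  ring

theorem D1_D1 (u u' : ι → ℝ) (f : Finset ι → Finset κ → ℝ) (A : Finset ι)
    (B : Finset κ) : D1 u (D1 u' f) A B = D1 u' (D1 u f) A B := by
  unfold D1
  simp only [Finset.mul_sum]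
  rw [Finset.sum_comm' (s := A) (t := fun i => A.erase i) (t' := A) (s' := fun i => A.erase i)]
  · refine Finset.sum_congr rfl fun i _ => Finset.sum_congr rfl fun i' _ => ?_
    rw [Finset.erase_right_comm]
    ring
  · intro a b
    simp only [Finset.mem_erase]
    constructor
    · rintro ⟨h1, h2, h3⟩
      exact ⟨⟨fun h => h2 h.symm, h1⟩, h3⟩
    · rintro ⟨⟨h1, h2⟩, h3⟩
      exact ⟨h2, fun h => h1 h.symm, h3⟩

theorem D2_D2 (v v' : κ → ℝ) (f : Finset ι → Finset κ → ℝ) (A : Finset ι)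
    (B : Finset κ) : D2 v (D2 v' f) A B = D2 v' (D2 v f) A B := by
  unfold D2
  simp only [Finset.mul_sum]
  rw [Finset.sum_comm' (s := B) (t := fun i => B.erase i) (t' := B) (s' := fun i => B.erase i)]
  · refine Finset.sum_congr rfl fun i _ => Finset.sum_congr rfl fun i' _ => ?_
    rw [Finset.erase_right_comm]
    ring
  · intro a b
    simp only [Finset.mem_erase]
    constructor
    · rintro ⟨h1, h2, h3⟩
      exact ⟨⟨fun h => h2 h.symm, h1⟩, h3⟩
    · rintro ⟨⟨h1, h2⟩, h3⟩
      exact ⟨h2, fun h => h1 h.symm, h3⟩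

/-- A system: the two one-vertex recursions of the (signed) matching polynomial of a complete
bipartite graph. -/
structure Sys (r : ι → ℝ) (s : κ → ℝ) (m : Finset ι → Finset κ → ℝ) : Prop where
  rec1 : ∀ A B, ∀ i ∈ A, m A B = r i * m (A.erase i) B - ∑ j ∈ B, m (A.erase i) (B.erase j)
  rec2 : ∀ A B, ∀ j ∈ B, m A B = s j * m A (B.erase j) - ∑ i ∈ A, m (A.erase i) (B.erase j)

/-! ### general expansion rules -/

/-- expansion of a `D1` at a vertex of the first side -/
theorem D1_exp1 (u : ι → ℝ) (r : ι → ℝ) (f : Finset ι → Finset κ → ℝ)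
    (g : ι → Finset ι → Finset κ → ℝ)
    (h : ∀ A B, ∀ i ∈ A, f A B = r i * f (A.erase i) B - g i (A.erase i) B)
    (A : Finset ι) (B : Finset κ) (i : ι) (hi : i ∈ A) :
    D1 u f A B = r i * D1 u f (A.erase i) B - D1 u (g i) (A.erase i) B
      + u i * f (A.erase i) B := by
  unfold D1
  rw [← Finset.add_sum_erase A _ hi, Finset.mul_sum, ← Finset.sum_sub_distrib]
  have : ∀ k ∈ A.erase i, u k * f (A.erase k) B
      = r i * (u k * f ((A.erase i).erase k) B) - u k * g i ((A.erase i).erase k) B := by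
    intro k hk
    have hk' := Finset.mem_erase.1 hk
    rw [h (A.erase k) B i (Finset.mem_erase.2 ⟨fun h => hk'.1 h.symm, hi⟩),
      Finset.erase_right_comm]
    ring
  rw [Finset.sum_congr rfl this]
  ring

/-- expansion of a `D2` at a vertex of the first side -/
theorem D2_exp1 (v : κ → ℝ) (r : ι → ℝ) (f : Finset ι → Finset κ → ℝ)
    (g : ι → Finset ι → Finset κ → ℝ)
    (h : ∀ A B, ∀ i ∈ A, f A B = r i * f (A.erase i) B - g i (A.erase i) B)
    (A : Finset ι) (B : Finset κ) (i : ι) (hi : i ∈ A) :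
    D2 v f A B = r i * D2 v f (A.erase i) B - D2 v (g i) (A.erase i) B := by
  unfold D2
  rw [Finset.mul_sum, ← Finset.sum_sub_distrib]
  refine Finset.sum_congr rfl fun j _ => ?_
  rw [h A (B.erase j) i hi]
  ring

/-- expansion of a `D2` at a vertex of the second side -/
theorem D2_exp2 (v : κ → ℝ) (s : κ → ℝ) (f : Finset ι → Finset κ → ℝ)
    (g : κ → Finset ι → Finset κ → ℝ)
    (h : ∀ A B, ∀ j ∈ B, f A B = s j * f A (B.erase j) - g j A (B.erase j))
    (A : Finset ι) (B : Finset κ) (j : κ) (hj : j ∈ B) :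
    D2 v f A B = s j * D2 v f A (B.erase j) - D2 v (g j) A (B.erase j)
      + v j * f A (B.erase j) := by
  unfold D2
  rw [← Finset.add_sum_erase B _ hj, Finset.mul_sum, ← Finset.sum_sub_distrib]
  have : ∀ k ∈ B.erase j, v k * f A (B.erase k)
      = s j * (v k * f A ((B.erase j).erase k)) - v k * g j A ((B.erase j).erase k) := by
    intro k hk
    have hk' := Finset.mem_erase.1 hk
    rw [h A (B.erase k) j (Finset.mem_erase.2 ⟨fun h => hk'.1 h.symm, hj⟩),
      Finset.erase_right_comm]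
    ring
  rw [Finset.sum_congr rfl this]
  ring

/-- expansion of a `D1` at a vertex of the second side -/
theorem D1_exp2 (u : ι → ℝ) (s : κ → ℝ) (f : Finset ι → Finset κ → ℝ)
    (g : κ → Finset ι → Finset κ → ℝ)
    (h : ∀ A B, ∀ j ∈ B, f A B = s j * f A (B.erase j) - g j A (B.erase j))
    (A : Finset ι) (B : Finset κ) (j : κ) (hj : j ∈ B) :
    D1 u f A B = s j * D1 u f A (B.erase j) - D1 u (g j) A (B.erase j) := by
  unfold D1
  rw [Finset.mul_sum, ← Finset.sum_sub_distrib]
  refine Finset.sum_congr rfl fun i _ => ?_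
  rw [h (A.erase i) B j hj]
  ring

/-- the all-one weights -/
abbrev o1 : ι → ℝ := fun _ => 1

section defs
variable (x : ι → ℝ) (y : κ → ℝ) (m : Finset ι → Finset κ → ℝ)

/-- `α = ∑ x_i m_i` -/
def al : Finset ι → Finset κ → ℝ := D1 x m
/-- `β = ∑ y_j m_j` -/
def be : Finset ι → Finset κ → ℝ := D2 y m
/-- `L = ∑ x_i y_j m_ij` -/
def Lf : Finset ι → Finset κ → ℝ := D1 x (D2 y m)
/-- `φ = m - L` -/
def ph : Finset ι → Finset κ → ℝ := fun A B => m A B - Lf x y m A B

/-- `D = α β - m L` -/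
def Dq (A : Finset ι) (B : Finset κ) : ℝ :=
  al x m A B * be y m A B - m A B * Lf x y m A B
/-- `U = α d₂φ - φ d₂α` -/
def Uq (A : Finset ι) (B : Finset κ) : ℝ :=
  al x m A B * D2 o1 (ph x y m) A B - ph x y m A B * D2 o1 (al x m) A B
/-- `V = β d₁φ - φ d₁β` -/
def Vq (A : Finset ι) (B : Finset κ) : ℝ :=
  be y m A B * D1 o1 (ph x y m) A B - ph x y m A B * D1 o1 (be y m) A B
/-- `W = d₁φ d₂φ - φ d₁d₂φ` -/
def Wq (A : Finset ι) (B : Finset κ) : ℝ :=
  D1 o1 (ph x y m) A B * D2 o1 (ph x y m) A B - ph x y m A B * D1 o1 (D2 o1 (ph x y m)) A B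
/-- `S` -/
def Sq (p q : ℝ) (A : Finset ι) (B : Finset κ) : ℝ :=
  p * q * Dq x y m A B + q * Uq x y m A B + p * Vq x y m A B + Wq x y m A B

end defs

theorem D1_sub (u : ι → ℝ) (f g : Finset ι → Finset κ → ℝ) (A : Finset ι) (B : Finset κ) :
    D1 u (fun A B => f A B - g A B) A B = D1 u f A B - D1 u g A B := by
  unfold D1; rw [← Finset.sum_sub_distrib]; exact Finset.sum_congr rfl fun i _ => by ring

theorem D2_sub (v : κ → ℝ) (f g : Finset ι → Finset κ → ℝ) (A : Finset ι) (B : Finset κ) :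
    D2 v (fun A B => f A B - g A B) A B = D2 v f A B - D2 v g A B := by
  unfold D2; rw [← Finset.sum_sub_distrib]; exact Finset.sum_congr rfl fun i _ => by ring

theorem D1_add (u : ι → ℝ) (f g : Finset ι → Finset κ → ℝ) (A : Finset ι) (B : Finset κ) :
    D1 u (fun A B => f A B + g A B) A B = D1 u f A B + D1 u g A B := by
  unfold D1; rw [← Finset.sum_add_distrib]; exact Finset.sum_congr rfl fun i _ => by ring

theorem D2_add (v : κ → ℝ) (f g : Finset ι → Finset κ → ℝ) (A : Finset ι) (B : Finset κ) :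
    D2 v (fun A B => f A B + g A B) A B = D2 v f A B + D2 v g A B := by
  unfold D2; rw [← Finset.sum_add_distrib]; exact Finset.sum_congr rfl fun i _ => by ring

theorem D1_smul (u : ι → ℝ) (c : ℝ) (f : Finset ι → Finset κ → ℝ) (A : Finset ι)
    (B : Finset κ) : D1 u (fun A B => c * f A B) A B = c * D1 u f A B := by
  unfold D1; rw [Finset.mul_sum]; exact Finset.sum_congr rfl fun i _ => by ring

theorem D2_smul (v : κ → ℝ) (c : ℝ) (f : Finset ι → Finset κ → ℝ) (A : Finset ι)
    (B : Finset κ) : D2 v (fun A B => c * f A B) A B = c * D2 v f A B := by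
  unfold D2; rw [Finset.mul_sum]; exact Finset.sum_congr rfl fun i _ => by ring

theorem D1_congr (u : ι → ℝ) {f g : Finset ι → Finset κ → ℝ} (h : ∀ A B, f A B = g A B)
    (A : Finset ι) (B : Finset κ) : D1 u f A B = D1 u g A B := by
  unfold D1; exact Finset.sum_congr rfl fun i _ => by rw [h]

theorem D2_congr (v : κ → ℝ) {f g : Finset ι → Finset κ → ℝ} (h : ∀ A B, f A B = g A B)
    (A : Finset ι) (B : Finset κ) : D2 v f A B = D2 v g A B := by
  unfold D2; exact Finset.sum_congr rfl fun i _ => by rw [h]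

section rec
variable {r : ι → ℝ} {s : κ → ℝ} {m : Finset ι → Finset κ → ℝ} (hm : Sys r s m)
  (x : ι → ℝ) (y : κ → ℝ)
include hm

theorem m1 (A : Finset ι) (B : Finset κ) (i : ι) (hi : i ∈ A) :
    m A B = r i * m (A.erase i) B - D2 o1 m (A.erase i) B := by
  rw [hm.rec1 A B i hi]; simp [D2]

theorem m2 (A : Finset ι) (B : Finset κ) (j : κ) (hj : j ∈ B) :
    m A B = s j * m A (B.erase j) - D1 o1 m A (B.erase j) := by
  rw [hm.rec2 A B j hj]; simp [D1]

theorem al1 (A : Finset ι) (B : Finset κ) (i : ι) (hi : i ∈ A) :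
    al x m A B = r i * al x m (A.erase i) B - D2 o1 (al x m) (A.erase i) B
      + x i * m (A.erase i) B := by
  unfold al
  rw [D1_exp1 x r m (fun _ => D2 o1 m) (fun A B i hi => m1 hm A B i hi) A B i hi, D1_D2]

theorem al2 (A : Finset ι) (B : Finset κ) (j : κ) (hj : j ∈ B) :
    al x m A B = s j * al x m A (B.erase j) - D1 o1 (al x m) A (B.erase j) := by
  unfold al
  rw [D1_exp2 x s m (fun _ => D1 o1 m) (fun A B i hi => m2 hm A B i hi) A B j hj, D1_D1]

theorem be1 (A : Finset ι) (B : Finset κ) (i : ι) (hi : i ∈ A) :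
    be y m A B = r i * be y m (A.erase i) B - D2 o1 (be y m) (A.erase i) B := by
  unfold be
  rw [D2_exp1 y r m (fun _ => D2 o1 m) (fun A B i hi => m1 hm A B i hi) A B i hi, D2_D2]

theorem be2 (A : Finset ι) (B : Finset κ) (j : κ) (hj : j ∈ B) :
    be y m A B = s j * be y m A (B.erase j) - D1 o1 (be y m) A (B.erase j)
      + y j * m A (B.erase j) := by
  unfold be
  rw [D2_exp2 y s m (fun _ => D1 o1 m) (fun A B i hi => m2 hm A B i hi) A B j hj, D1_D2]

theorem L1 (A : Finset ι) (B : Finset κ) (i : ι) (hi : i ∈ A) :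
    Lf x y m A B = r i * Lf x y m (A.erase i) B - D2 o1 (Lf x y m) (A.erase i) B
      + x i * be y m (A.erase i) B := by
  unfold Lf
  rw [D1_exp1 x r (D2 y m) (fun _ => D2 o1 (D2 y m))
    (fun A B i hi => be1 hm y A B i hi) A B i hi, D1_D2 x o1]
  rfl

theorem L2 (A : Finset ι) (B : Finset κ) (j : κ) (hj : j ∈ B) :
    Lf x y m A B = s j * Lf x y m A (B.erase j) - D1 o1 (Lf x y m) A (B.erase j)
      + y j * al x m A (B.erase j) := by
  have h1 : ∀ A B, Lf x y m A B = D2 y (al x m) A B := fun A B => D1_D2 x y m A B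
  rw [h1, h1, D1_congr o1 h1, D2_exp2 y s (al x m) (fun _ => D1 o1 (al x m))
    (fun A B i hi => al2 hm x A B i hi) A B j hj, D1_D2]

theorem ph1 (A : Finset ι) (B : Finset κ) (i : ι) (hi : i ∈ A) :
    ph x y m A B = r i * ph x y m (A.erase i) B - D2 o1 (ph x y m) (A.erase i) B
      - x i * be y m (A.erase i) B := by
  unfold ph
  rw [D2_sub, m1 hm A B i hi, L1 hm x y A B i hi]
  ring

theorem ph2 (A : Finset ι) (B : Finset κ) (j : κ) (hj : j ∈ B) :
    ph x y m A B = s j * ph x y m A (B.erase j) - D1 o1 (ph x y m) A (B.erase j)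
      - y j * al x m A (B.erase j) := by
  unfold ph
  rw [D1_sub, m2 hm A B j hj, L2 hm x y A B j hj]
  ring

/-! ### the recursion (R) -/

/-- local lemma: `β φ_j - φ β_j = V(j) + y_j (m_j² + D(j))` -/
theorem locV (A : Finset ι) (B : Finset κ) (j : κ) (hj : j ∈ B) :
    be y m A B * ph x y m A (B.erase j) - ph x y m A B * be y m A (B.erase j)
      = Vq x y m A (B.erase j)
        + y j * (m A (B.erase j) ^ 2 + Dq x y m A (B.erase j)) := by
  rw [be2 hm y A B j hj, ph2 hm x y A B j hj]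
  unfold Vq Dq
  simp only [ph]
  ring

theorem locU (A : Finset ι) (B : Finset κ) (i : ι) (hi : i ∈ A) :
    al x m A B * ph x y m (A.erase i) B - ph x y m A B * al x m (A.erase i) B
      = Uq x y m (A.erase i) B
        + x i * (m (A.erase i) B ^ 2 + Dq x y m (A.erase i) B) := by
  rw [al1 hm x A B i hi, ph1 hm x y A B i hi]
  unfold Uq Dq
  simp only [ph]
  ring

theorem sumV (A : Finset ι) (B : Finset κ) :
    be y m A B * D2 o1 (ph x y m) A B - ph x y m A B * D2 o1 (be y m) A B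
      = D2 o1 (Vq x y m) A B + D2 y (fun A B => m A B ^ 2 + Dq x y m A B) A B := by
  unfold D2
  rw [Finset.mul_sum, Finset.mul_sum, ← Finset.sum_sub_distrib, ← Finset.sum_add_distrib]
  refine Finset.sum_congr rfl fun j hj => ?_
  have := locV hm x y A B j hj
  linear_combination this

theorem sumU (A : Finset ι) (B : Finset κ) :
    al x m A B * D1 o1 (ph x y m) A B - ph x y m A B * D1 o1 (al x m) A B
      = D1 o1 (Uq x y m) A B + D1 x (fun A B => m A B ^ 2 + Dq x y m A B) A B := by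
  unfold D1
  rw [Finset.mul_sum, Finset.mul_sum, ← Finset.sum_sub_distrib, ← Finset.sum_add_distrib]
  refine Finset.sum_congr rfl fun j hj => ?_
  have := locU hm x y A B j hj
  linear_combination this

/-- `(R_p)` -/
theorem R_V (A : Finset ι) (B : Finset κ) :
    Vq x y m A B = D1 x (fun A B => be y m A B ^ 2) A B
      + D1 o1 (D2 o1 (Vq x y m)) A B
      + D1 o1 (D2 y (fun A B => m A B ^ 2 + Dq x y m A B)) A B := by
  have key : ∀ i ∈ A, be y m A B * ph x y m (A.erase i) B
      - ph x y m A B * be y m (A.erase i) B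
      = x i * be y m (A.erase i) B ^ 2 + (D2 o1 (Vq x y m) (A.erase i) B
        + D2 y (fun A B => m A B ^ 2 + Dq x y m A B) (A.erase i) B) := by
    intro i hi
    rw [← sumV hm x y (A.erase i) B, be1 hm y A B i hi, ph1 hm x y A B i hi]
    ring
  calc Vq x y m A B = ∑ i ∈ A, (be y m A B * ph x y m (A.erase i) B
      - ph x y m A B * be y m (A.erase i) B) := by
        unfold Vq
        rw [Finset.sum_sub_distrib, ← Finset.mul_sum, ← Finset.mul_sum]
        simp only [D1, one_mul]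
    _ = _ := by
        rw [Finset.sum_congr rfl key, Finset.sum_add_distrib, Finset.sum_add_distrib]
        simp only [D1, one_mul]
        ring

/-- `(R_q)` -/
theorem R_U (A : Finset ι) (B : Finset κ) :
    Uq x y m A B = D2 y (fun A B => al x m A B ^ 2) A B
      + D1 o1 (D2 o1 (Uq x y m)) A B
      + D1 x (D2 o1 (fun A B => m A B ^ 2 + Dq x y m A B)) A B := by
  have key : ∀ j ∈ B, al x m A B * ph x y m A (B.erase j)
      - ph x y m A B * al x m A (B.erase j)
      = y j * al x m A (B.erase j) ^ 2 + (D1 o1 (Uq x y m) A (B.erase j)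
        + D1 x (fun A B => m A B ^ 2 + Dq x y m A B) A (B.erase j)) := by
    intro i hi
    rw [← sumU hm x y A (B.erase i), al2 hm x A B i hi, ph2 hm x y A B i hi]
    ring
  rw [D1_D2, D1_D2]
  calc Uq x y m A B = ∑ j ∈ B, (al x m A B * ph x y m A (B.erase j)
      - ph x y m A B * al x m A (B.erase j)) := by
        unfold Uq
        rw [Finset.sum_sub_distrib, ← Finset.mul_sum, ← Finset.mul_sum]
        simp only [D2, one_mul]
    _ = _ := by
        rw [Finset.sum_congr rfl key, Finset.sum_add_distrib, Finset.sum_add_distrib]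
        simp only [D2, one_mul]
        ring

/-- `(R_1)` -/
theorem R_W (A : Finset ι) (B : Finset κ) :
    Wq x y m A B = D1 o1 (D2 o1 (fun A B => ph x y m A B ^ 2)) A B
      + D1 o1 (D2 o1 (Wq x y m)) A B
      + D1 o1 (D2 y (Uq x y m)) A B
      + D1 x (D2 o1 (Vq x y m)) A B
      + D1 x (D2 y (fun A B => m A B ^ 2 + Dq x y m A B)) A B := by
  -- second layer
  have key2 : ∀ (A : Finset ι) (B : Finset κ),
      D2 o1 (ph x y m) A B ^ 2 - ph x y m A B * D2 o1 (D2 o1 (ph x y m)) A B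
        = D2 o1 (fun A B => ph x y m A B ^ 2) A B + D2 o1 (Wq x y m) A B
          + D2 y (Uq x y m) A B := by
    intro A B
    have h : ∀ j ∈ B, ph x y m A (B.erase j) * D2 o1 (ph x y m) A B
        - ph x y m A B * D2 o1 (ph x y m) A (B.erase j)
        = ph x y m A (B.erase j) ^ 2 + Wq x y m A (B.erase j)
          + y j * Uq x y m A (B.erase j) := by
      intro j hj
      have e := D2_exp2 o1 s (ph x y m)
        (fun j A B => D1 o1 (ph x y m) A B + y j * al x m A B)
        (fun A B j hj => by rw [ph2 hm x y A B j hj]; ring) A B j hj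
      rw [D2_add, D2_smul] at e
      rw [ph2 hm x y A B j hj, e]
      unfold Wq Uq
      rw [D1_D2]
      ring
    have e1 : D2 o1 (D2 o1 (ph x y m)) A B
        = ∑ j ∈ B, D2 o1 (ph x y m) A (B.erase j) := by
      rw [D2]
      exact Finset.sum_congr rfl fun j _ => one_mul _
    have e2 : D2 o1 (ph x y m) A B = ∑ j ∈ B, ph x y m A (B.erase j) := by simp [D2]
    calc D2 o1 (ph x y m) A B ^ 2 - ph x y m A B * D2 o1 (D2 o1 (ph x y m)) A B
        = ∑ j ∈ B, (ph x y m A (B.erase j) * D2 o1 (ph x y m) A B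
          - ph x y m A B * D2 o1 (ph x y m) A (B.erase j)) := by
          rw [Finset.sum_sub_distrib, ← Finset.mul_sum, ← Finset.sum_mul, e1, ← e2]; ring
      _ = _ := by
          rw [Finset.sum_congr rfl h, Finset.sum_add_distrib, Finset.sum_add_distrib]
          simp only [D2, one_mul]
  have key1 : ∀ i ∈ A, ph x y m (A.erase i) B * D2 o1 (ph x y m) A B
      - ph x y m A B * D2 o1 (ph x y m) (A.erase i) B
      = (D2 o1 (fun A B => ph x y m A B ^ 2) (A.erase i) B
          + D2 o1 (Wq x y m) (A.erase i) B + D2 y (Uq x y m) (A.erase i) B)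
        + x i * (D2 o1 (Vq x y m) (A.erase i) B
          + D2 y (fun A B => m A B ^ 2 + Dq x y m A B) (A.erase i) B) := by
    intro i hi
    have e := D2_exp1 o1 r (ph x y m)
        (fun i A B => D2 o1 (ph x y m) A B + x i * be y m A B)
        (fun A B i hi => by rw [ph1 hm x y A B i hi]; ring) A B i hi
    rw [D2_add, D2_smul] at e
    rw [← key2, ← sumV hm x y (A.erase i) B, ph1 hm x y A B i hi, e]
    ring
  have e3 : D1 o1 (D2 o1 (ph x y m)) A B
        = ∑ i ∈ A, D2 o1 (ph x y m) (A.erase i) B := by simp [D1]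
  have e4 : D1 o1 (ph x y m) A B = ∑ i ∈ A, ph x y m (A.erase i) B := by simp [D1]
  calc Wq x y m A B = ∑ i ∈ A, (ph x y m (A.erase i) B * D2 o1 (ph x y m) A B
      - ph x y m A B * D2 o1 (ph x y m) (A.erase i) B) := by
        unfold Wq
        rw [Finset.sum_sub_distrib, ← Finset.mul_sum, ← Finset.sum_mul, e3, ← e4]
    _ = _ := by
        rw [Finset.sum_congr rfl key1, Finset.sum_add_distrib, Finset.sum_add_distrib,
          Finset.sum_add_distrib]
        simp only [mul_add]
        rw [Finset.sum_add_distrib]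
        simp only [D1, one_mul]
        ring

/-- `(R_pq)` -/
theorem R_D (A : Finset ι) (B : Finset κ) :
    Dq x y m A B = D1 x (D2 y (fun A B => m A B ^ 2)) A B
      + D1 o1 (D2 o1 (Dq x y m)) A B := by
  set D1y : Finset ι → Finset κ → ℝ := fun A B =>
    be y m A B * D1 o1 m A B - m A B * D1 o1 (be y m) A B with hD1y
  set G : Finset ι → Finset κ → ℝ := fun A B =>
    D2 y (fun A B => m A B ^ 2) A B + D2 o1 D1y A B with hG
  have hloc : ∀ (A : Finset ι) (B : Finset κ), ∀ j ∈ B,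
      be y m A B * m A (B.erase j) - m A B * be y m A (B.erase j)
        = y j * m A (B.erase j) ^ 2 + D1y A (B.erase j) := by
    intro A B j hj
    rw [be2 hm y A B j hj, m2 hm A B j hj, hD1y]
    ring
  have hsum : ∀ (A : Finset ι) (B : Finset κ),
      be y m A B * D2 o1 m A B - m A B * D2 o1 (be y m) A B = G A B := by
    intro A B
    rw [hG]
    simp only [D2, one_mul]
    rw [Finset.mul_sum, Finset.mul_sum, ← Finset.sum_sub_distrib, ← Finset.sum_add_distrib]
    exact Finset.sum_congr rfl fun j hj => hloc A B j hj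
  have hE : ∀ (A : Finset ι) (B : Finset κ), ∀ i ∈ A,
      m (A.erase i) B * be y m A B - m A B * be y m (A.erase i) B = G (A.erase i) B := by
    intro A B i hi
    rw [← hsum (A.erase i) B, be1 hm y A B i hi, m1 hm A B i hi]
    ring
  have hDx : ∀ (A : Finset ι) (B : Finset κ), Dq x y m A B = D1 x G A B := by
    intro A B
    unfold Dq al Lf
    simp only [D1]
    rw [Finset.sum_mul, Finset.mul_sum, ← Finset.sum_sub_distrib]
    refine Finset.sum_congr rfl fun i hi => ?_
    rw [← hE A B i hi]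
    unfold be
    ring
  have hDo : ∀ (A : Finset ι) (B : Finset κ), D1y A B = D1 o1 G A B := by
    intro A B
    rw [hD1y]
    simp only [D1, one_mul]
    rw [Finset.mul_sum, Finset.mul_sum, ← Finset.sum_sub_distrib]
    refine Finset.sum_congr rfl fun i hi => ?_
    rw [← hE A B i hi]
    ring
  rw [hDx A B]
  have h1 : D1 x G A B = D1 x (D2 y (fun A B => m A B ^ 2)) A B
      + D1 x (D2 o1 D1y) A B := by
    rw [hG]
    exact D1_add x (D2 y (fun A B => m A B ^ 2)) (D2 o1 D1y) A B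
  rw [h1]
  congr 1
  calc D1 x (D2 o1 D1y) A B = D1 x (D2 o1 (D1 o1 G)) A B :=
        D1_congr x (fun A B => D2_congr o1 hDo A B) A B
    _ = D1 x (D1 o1 (D2 o1 G)) A B := D1_congr x (fun A B => (D1_D2 o1 o1 G A B).symm) A B
    _ = D1 o1 (D1 x (D2 o1 G)) A B := D1_D1 _ _ _ _ _
    _ = D1 o1 (D2 o1 (D1 x G)) A B := D1_congr o1 (fun A B => D1_D2 x o1 G A B) A B
    _ = D1 o1 (D2 o1 (Dq x y m)) A B :=
        D1_congr o1 (fun A B => D2_congr o1 (fun A B => (hDx A B).symm) A B) A B

end rec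

/-! ### Ward identities and (SC) at the base point -/

section base
variable {r : ι → ℝ} {s : κ → ℝ} {m : Finset ι → Finset κ → ℝ} (hm : Sys r s m)
  {x : ι → ℝ} {y : κ → ℝ} {P Q : ℝ} (hr : ∀ i, x i * r i = 1 + x i * Q)
  (hs : ∀ j, y j * s j = 1 + y j * P)
include hm

include hr in
theorem ward2 (A : Finset ι) (B : Finset κ) :
    (∑ i ∈ A, x i) * m A B
      = D1 o1 m A B + Q * al x m A B - D2 o1 (al x m) A B := by
  have e : D2 o1 (al x m) A B = D1 x (D2 o1 m) A B := (D1_D2 x o1 m A B).symm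
  rw [e]
  unfold al
  simp only [D1, one_mul]
  rw [Finset.sum_mul, Finset.mul_sum, ← Finset.sum_add_distrib, ← Finset.sum_sub_distrib]
  refine Finset.sum_congr rfl fun i hi => ?_
  rw [m1 hm A B i hi]
  linear_combination m (A.erase i) B * hr i

include hs in
theorem ward1 (A : Finset ι) (B : Finset κ) :
    (∑ j ∈ B, y j) * m A B
      = D2 o1 m A B + P * be y m A B - D1 o1 (be y m) A B := by
  have e : D1 o1 (be y m) A B = D2 y (D1 o1 m) A B := D1_D2 o1 y m A B
  rw [e]
  unfold be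
  simp only [D2, one_mul]
  rw [Finset.sum_mul, Finset.mul_sum, ← Finset.sum_add_distrib, ← Finset.sum_sub_distrib]
  refine Finset.sum_congr rfl fun j hj => ?_
  rw [m2 hm A B j hj]
  linear_combination m A (B.erase j) * hs j

include hr in
theorem ward2b (A : Finset ι) (B : Finset κ) :
    (∑ i ∈ A, x i) * be y m A B
      = D1 o1 (be y m) A B + Q * Lf x y m A B - D2 o1 (Lf x y m) A B := by
  have e1 : D1 o1 (be y m) A B = D2 y (D1 o1 m) A B := D1_D2 o1 y m A B
  have e2 : Lf x y m A B = D2 y (al x m) A B := D1_D2 x y m A B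
  have e3 : D2 o1 (Lf x y m) A B = D2 y (D2 o1 (al x m)) A B := by
    rw [D2_D2]; exact D2_congr o1 (fun A B => D1_D2 x y m A B) A B
  rw [e1, e2, e3]
  unfold be
  simp only [D2]
  rw [Finset.mul_sum, Finset.mul_sum, ← Finset.sum_add_distrib, ← Finset.sum_sub_distrib]
  refine Finset.sum_congr rfl fun j hj => ?_
  have := ward2 hm hr A (B.erase j)
  simp only [D2] at this
  linear_combination y j * this

include hs in
theorem ward1a (A : Finset ι) (B : Finset κ) :
    (∑ j ∈ B, y j) * al x m A B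
      = D2 o1 (al x m) A B + P * Lf x y m A B - D1 o1 (Lf x y m) A B := by
  have e1 : D2 o1 (al x m) A B = D1 x (D2 o1 m) A B := (D1_D2 x o1 m A B).symm
  have e2 : Lf x y m A B = D1 x (be y m) A B := rfl
  have e3 : D1 o1 (Lf x y m) A B = D1 x (D1 o1 (be y m)) A B := by
    rw [D1_D1]; rfl
  rw [e1, e2, e3]
  unfold al
  simp only [D1]
  rw [Finset.mul_sum, Finset.mul_sum, ← Finset.sum_add_distrib, ← Finset.sum_sub_distrib]
  refine Finset.sum_congr rfl fun j hj => ?_
  have := ward1 hm hs (A.erase j) B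
  simp only [D1] at this
  linear_combination x j * this

include hr hs in
theorem ward4 (A : Finset ι) (B : Finset κ) :
    D2 o1 (ph x y m) A B = Q * ph x y m A B - (Q - ∑ j ∈ B, y j) * m A B
      - (P - ∑ i ∈ A, x i) * be y m A B := by
  unfold ph
  rw [D2_sub]
  have h1 := ward1 hm hs A B
  have h2 := ward2b (y := y) hm hr A B
  linear_combination - h2 - h1

include hr hs in
theorem ward4' (A : Finset ι) (B : Finset κ) :
    D1 o1 (ph x y m) A B = P * ph x y m A B - (P - ∑ i ∈ A, x i) * m A B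
      - (Q - ∑ j ∈ B, y j) * al x m A B := by
  unfold ph
  rw [D1_sub]
  have h1 := ward2 hm hr A B
  have h2 := ward1a (x := x) hm hs A B
  linear_combination - h2 - h1

include hr hs in
/-- `(SC1)` -/
theorem SC1 (A : Finset ι) (B : Finset κ) (i : ι) (hi : i ∈ A) :
    x i * ph x y m A B = ph x y m (A.erase i) B
      + (Q - ∑ j ∈ B, y j) * x i * m (A.erase i) B
      + (P - ∑ i ∈ A, x i) * x i * be y m (A.erase i) B := by
  rw [ph1 hm x y A B i hi, ward4 hm hr hs (A.erase i) B]
  have h : ∑ i ∈ A, x i = x i + ∑ i ∈ A.erase i, x i := (Finset.add_sum_erase A x hi).symm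
  rw [h]
  linear_combination ph x y m (A.erase i) B * hr i

include hr hs in
/-- `(SC2)` -/
theorem SC2 (A : Finset ι) (B : Finset κ) (j : κ) (hj : j ∈ B) :
    y j * ph x y m A B = ph x y m A (B.erase j)
      + (P - ∑ i ∈ A, x i) * y j * m A (B.erase j)
      + (Q - ∑ j ∈ B, y j) * y j * al x m A (B.erase j) := by
  rw [ph2 hm x y A B j hj, ward4' hm hr hs A (B.erase j)]
  have h : ∑ j ∈ B, y j = y j + ∑ j ∈ B.erase j, y j := (Finset.add_sum_erase B y hj).symm
  rw [h]
  linear_combination ph x y m A (B.erase j) * hs j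

include hr hs in
/-- `(SC)` -/
theorem SC (A : Finset ι) (B : Finset κ) (i : ι) (hi : i ∈ A) (j : κ) (hj : j ∈ B) (p q : ℝ)
    (hp : p = P - ∑ i ∈ A, x i) (hq : q = Q - ∑ j ∈ B, y j) :
    x i * y j * ph x y m A B = ph x y m (A.erase i) (B.erase j)
      + (p * q * x i * y j + q * x i + p * y j + x i * y j) * m (A.erase i) (B.erase j)
      + p * x i * y j * be y m (A.erase i) B + q * x i * y j * al x m A (B.erase j) := by
  have h1 := SC1 hm hr hs A B i hi
  have h2 := SC2 hm hr hs (A.erase i) B j hj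
  have h : ∑ i ∈ A, x i = x i + ∑ i ∈ A.erase i, x i := (Finset.add_sum_erase A x hi).symm
  have h' : ∑ j ∈ B, y j = y j + ∑ j ∈ B.erase j, y j := (Finset.add_sum_erase B y hj).symm
  have h3 := al1 hm x A (B.erase j) i hi
  have h4 := m2 hm (A.erase i) B j hj
  have h5 := ward2 hm hr (A.erase i) (B.erase j)
  have hri := hr i
  have hsj := hs j
  set X' := ∑ i ∈ A.erase i, x i
  set Y' := ∑ j ∈ B, y j
  rw [h] at h1 hp
  subst hp hq
  linear_combination y j * h1 + h2 - (Q - Y') * x i * y j * h3 + (Q - Y') * x i * y j * h4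
    - (Q - Y') * y j * al x m (A.erase i) (B.erase j) * hri
    + (Q - Y') * x i * m (A.erase i) (B.erase j) * hsj
    + (Q - Y') * x i * y j * h5

end base

/-! ### the induction -/

/-- (R), assembled -/
theorem R_S {r : ι → ℝ} {s : κ → ℝ} {m : Finset ι → Finset κ → ℝ} (hm : Sys r s m)
    (x : ι → ℝ) (y : κ → ℝ) (p q : ℝ) (A : Finset ι) (B : Finset κ) :
    Sq x y m p q A B = ∑ i ∈ A, ∑ j ∈ B,
      (Sq x y m (p + x i) (q + y j) (A.erase i) (B.erase j)
        + ph x y m (A.erase i) (B.erase j) ^ 2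
        + (p * q * x i * y j + q * x i + p * y j + x i * y j)
          * m (A.erase i) (B.erase j) ^ 2)
      + p * ∑ i ∈ A, x i * be y m (A.erase i) B ^ 2
      + q * ∑ j ∈ B, y j * al x m A (B.erase j) ^ 2 := by
  unfold Sq
  rw [R_D hm x y A B, R_U hm x y A B, R_V hm x y A B, R_W hm x y A B]
  have e : ∀ i ∈ A, ∀ j ∈ B,
      ((p + x i) * (q + y j) * Dq x y m (A.erase i) (B.erase j)
        + (q + y j) * Uq x y m (A.erase i) (B.erase j)
        + (p + x i) * Vq x y m (A.erase i) (B.erase j)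
        + Wq x y m (A.erase i) (B.erase j)
        + ph x y m (A.erase i) (B.erase j) ^ 2
        + (p * q * x i * y j + q * x i + p * y j + x i * y j)
          * m (A.erase i) (B.erase j) ^ 2)
      = p * q * (x i * (y j * m (A.erase i) (B.erase j) ^ 2))
        + p * q * Dq x y m (A.erase i) (B.erase j)
        + q * Uq x y m (A.erase i) (B.erase j)
        + q * (x i * (m (A.erase i) (B.erase j) ^ 2 + Dq x y m (A.erase i) (B.erase j)))
        + p * Vq x y m (A.erase i) (B.erase j)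
        + p * (y j * (m (A.erase i) (B.erase j) ^ 2 + Dq x y m (A.erase i) (B.erase j)))
        + ph x y m (A.erase i) (B.erase j) ^ 2
        + Wq x y m (A.erase i) (B.erase j)
        + y j * Uq x y m (A.erase i) (B.erase j)
        + x i * Vq x y m (A.erase i) (B.erase j)
        + x i * (y j * (m (A.erase i) (B.erase j) ^ 2
          + Dq x y m (A.erase i) (B.erase j))) := by
    intro i _ j _
    ring
  rw [Finset.sum_congr rfl fun i hi => Finset.sum_congr rfl fun j hj => e i hi j hj]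
  simp only [Finset.sum_add_distrib, ← Finset.mul_sum]
  simp only [D1, D2, one_mul]
  simp only [Finset.sum_add_distrib, mul_add]
  ring

/-- the main inequality, in the form: nonnegative for every `t` -/
theorem par_t {r r0 : ι → ℝ} {s s0 : κ → ℝ} {m m0 : Finset ι → Finset κ → ℝ}
    (hm : Sys r s m) (hm0 : Sys r0 s0 m0) {x : ι → ℝ} {y : κ → ℝ}
    (hx : ∀ i, 0 ≤ x i) (hy : ∀ j, 0 ≤ y j) {P Q : ℝ}
    (hr : ∀ i, x i * r0 i = 1 + x i * Q) (hs : ∀ j, y j * s0 j = 1 + y j * P) (t : ℝ)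
    (n : ℕ) : ∀ (A : Finset ι) (B : Finset κ), A.card ≤ n → ∑ i ∈ A, x i ≤ P →
      ∑ j ∈ B, y j ≤ Q →
      0 ≤ Sq x y m (P - ∑ i ∈ A, x i) (Q - ∑ j ∈ B, y j) A B
        + 2 * t * (ph x y m0 A B * Lf x y m A B)
        + t ^ 2 * (ph x y m0 A B * Lf x y m0 A B) := by
  induction n with
  | zero =>
    intro A B hA hP hQ
    have : A = ∅ := by simpa using hA
    subst this
    rw [R_S hm]
    have h0 : ∀ (m : Finset ι → Finset κ → ℝ), Lf x y m ∅ B = 0 := by
      intro m; simp [Lf, D1]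
    have h1 : ∀ j, al x m ∅ (B.erase j) = 0 := by
      intro j; simp [al, D1]
    simp [h0, h1]
  | succ n ih =>
    intro A B hA hP hQ
    set p := P - ∑ i ∈ A, x i with hp
    set q := Q - ∑ j ∈ B, y j with hq
    have hp0 : 0 ≤ p := by rw [hp]; linarith
    have hq0 : 0 ≤ q := by rw [hq]; linarith
    have hcross : ∀ (m : Finset ι → Finset κ → ℝ), ph x y m0 A B * Lf x y m A B
        = ∑ i ∈ A, ∑ j ∈ B, (ph x y m0 (A.erase i) (B.erase j)
            * Lf x y m (A.erase i) (B.erase j)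
          + ph x y m0 (A.erase i) (B.erase j) * ph x y m (A.erase i) (B.erase j)
          + (p * q * x i * y j + q * x i + p * y j + x i * y j)
            * (m0 (A.erase i) (B.erase j) * m (A.erase i) (B.erase j)))
          + p * ∑ i ∈ A, x i * (be y m0 (A.erase i) B * be y m (A.erase i) B)
          + q * ∑ j ∈ B, y j * (al x m0 A (B.erase j) * al x m A (B.erase j)) := by
      intro m
      have e1 : Lf x y m A B = ∑ i ∈ A, ∑ j ∈ B, x i * y j * m (A.erase i) (B.erase j) := by
        simp only [Lf, D1, D2, Finset.mul_sum]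
        refine Finset.sum_congr rfl fun i _ => Finset.sum_congr rfl fun j _ => by ring
      have e2 : ∀ i, be y m (A.erase i) B = ∑ j ∈ B, y j * m (A.erase i) (B.erase j) :=
        fun i => rfl
      have e3 : ∀ j, al x m A (B.erase j) = ∑ i ∈ A, x i * m (A.erase i) (B.erase j) :=
        fun i => rfl
      have e4 : q * ∑ j ∈ B, y j * (al x m0 A (B.erase j) * al x m A (B.erase j))
          = ∑ i ∈ A, ∑ j ∈ B, q * (y j * (al x m0 A (B.erase j)
            * (x i * m (A.erase i) (B.erase j)))) := by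
        rw [Finset.mul_sum, Finset.sum_comm]
        refine Finset.sum_congr rfl fun j _ => ?_
        rw [e3 j, Finset.mul_sum, Finset.mul_sum, Finset.mul_sum]
      have e5 : p * ∑ i ∈ A, x i * (be y m0 (A.erase i) B * be y m (A.erase i) B)
          = ∑ i ∈ A, ∑ j ∈ B, p * (x i * (be y m0 (A.erase i) B
            * (y j * m (A.erase i) (B.erase j)))) := by
        rw [Finset.mul_sum]
        refine Finset.sum_congr rfl fun i _ => ?_
        rw [e2 i, Finset.mul_sum, Finset.mul_sum, Finset.mul_sum]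
      rw [e4, e5, e1, Finset.mul_sum, ← Finset.sum_add_distrib, ← Finset.sum_add_distrib]
      refine Finset.sum_congr rfl fun i hi => ?_
      rw [Finset.mul_sum, ← Finset.sum_add_distrib, ← Finset.sum_add_distrib]
      refine Finset.sum_congr rfl fun j hj => ?_
      have hsc := SC hm0 hr hs A B i hi j hj p q hp hq
      have hphi : ph x y m (A.erase i) (B.erase j)
          = m (A.erase i) (B.erase j) - Lf x y m (A.erase i) (B.erase j) := rfl
      linear_combination m (A.erase i) (B.erase j) * hsc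
        - ph x y m0 (A.erase i) (B.erase j) * hphi
    rw [hcross m, hcross m0, R_S hm]
    have hrw : ∀ i ∈ A, ∀ j ∈ B, 0 ≤ Sq x y m (p + x i) (q + y j) (A.erase i) (B.erase j)
        + 2 * t * (ph x y m0 (A.erase i) (B.erase j) * Lf x y m (A.erase i) (B.erase j))
        + t ^ 2 * (ph x y m0 (A.erase i) (B.erase j)
          * Lf x y m0 (A.erase i) (B.erase j)) := by
      intro i hi j hj
      have h : ∑ i ∈ A, x i = x i + ∑ i ∈ A.erase i, x i := (Finset.add_sum_erase A x hi).symm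
      have h' : ∑ j ∈ B, y j = y j + ∑ j ∈ B.erase j, y j :=
        (Finset.add_sum_erase B y hj).symm
      have := ih (A.erase i) (B.erase j) (by rw [Finset.card_erase_of_mem hi]; omega)
        (by have := hx i; linarith) (by have := hy j; linarith)
      have e1 : P - ∑ i ∈ A.erase i, x i = p + x i := by rw [hp, h]; ring
      have e2 : Q - ∑ j ∈ B.erase j, y j = q + y j := by rw [hq, h']; ring
      rwa [e1, e2] at this
    have main : ∀ i ∈ A, ∀ j ∈ B, 0 ≤
        (Sq x y m (p + x i) (q + y j) (A.erase i) (B.erase j)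
          + ph x y m (A.erase i) (B.erase j) ^ 2
          + (p * q * x i * y j + q * x i + p * y j + x i * y j)
            * m (A.erase i) (B.erase j) ^ 2)
        + 2 * t * (ph x y m0 (A.erase i) (B.erase j)
            * Lf x y m (A.erase i) (B.erase j)
          + ph x y m0 (A.erase i) (B.erase j) * ph x y m (A.erase i) (B.erase j)
          + (p * q * x i * y j + q * x i + p * y j + x i * y j)
            * (m0 (A.erase i) (B.erase j) * m (A.erase i) (B.erase j)))
        + t ^ 2 * (ph x y m0 (A.erase i) (B.erase j)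
            * Lf x y m0 (A.erase i) (B.erase j)
          + ph x y m0 (A.erase i) (B.erase j) * ph x y m0 (A.erase i) (B.erase j)
          + (p * q * x i * y j + q * x i + p * y j + x i * y j)
            * (m0 (A.erase i) (B.erase j) * m0 (A.erase i) (B.erase j))) := by
      intro i hi j hj
      have h1 := hrw i hi j hj
      have h2 : 0 ≤ (ph x y m (A.erase i) (B.erase j)
        + t * ph x y m0 (A.erase i) (B.erase j)) ^ 2 := sq_nonneg _
      have h3 : 0 ≤ (p * q * x i * y j + q * x i + p * y j + x i * y j)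
        * (m (A.erase i) (B.erase j) + t * m0 (A.erase i) (B.erase j)) ^ 2 := by
        have := hx i
        have := hy j
        positivity
      nlinarith [h1, h2, h3]
    have hA1 : 0 ≤ ∑ i ∈ A, x i * (be y m (A.erase i) B + t * be y m0 (A.erase i) B) ^ 2 :=
      Finset.sum_nonneg fun i _ => mul_nonneg (hx i) (sq_nonneg _)
    have hB1 : 0 ≤ ∑ j ∈ B, y j * (al x m A (B.erase j) + t * al x m0 A (B.erase j)) ^ 2 :=
      Finset.sum_nonneg fun j _ => mul_nonneg (hy j) (sq_nonneg _)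
    have hS := Finset.sum_nonneg fun i hi => Finset.sum_nonneg fun j hj => main i hi j hj
    have eA : ∑ i ∈ A, x i * (be y m (A.erase i) B + t * be y m0 (A.erase i) B) ^ 2
        = ∑ i ∈ A, x i * be y m (A.erase i) B ^ 2
          + 2 * t * ∑ i ∈ A, x i * (be y m0 (A.erase i) B * be y m (A.erase i) B)
          + t ^ 2 * ∑ i ∈ A, x i * (be y m0 (A.erase i) B * be y m0 (A.erase i) B) := by
      rw [Finset.mul_sum, Finset.mul_sum, ← Finset.sum_add_distrib, ← Finset.sum_add_distrib]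
      exact Finset.sum_congr rfl fun i _ => by ring
    have eB : ∑ j ∈ B, y j * (al x m A (B.erase j) + t * al x m0 A (B.erase j)) ^ 2
        = ∑ j ∈ B, y j * al x m A (B.erase j) ^ 2
          + 2 * t * ∑ j ∈ B, y j * (al x m0 A (B.erase j) * al x m A (B.erase j))
          + t ^ 2 * ∑ j ∈ B, y j * (al x m0 A (B.erase j) * al x m0 A (B.erase j)) := by
      rw [Finset.mul_sum, Finset.mul_sum, ← Finset.sum_add_distrib, ← Finset.sum_add_distrib]
      exact Finset.sum_congr rfl fun i _ => by ring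
    rw [eA] at hA1
    rw [eB] at hB1
    simp only [Finset.sum_add_distrib, ← Finset.mul_sum] at hS ⊢
    have hA2 := mul_nonneg hp0 hA1
    have hB2 := mul_nonneg hq0 hB1
    linarith

/-- **PAR**: `φ₀ L² ≤ L₀ S`. -/
theorem par {r r0 : ι → ℝ} {s s0 : κ → ℝ} {m m0 : Finset ι → Finset κ → ℝ}
    (hm : Sys r s m) (hm0 : Sys r0 s0 m0) {x : ι → ℝ} {y : κ → ℝ}
    (hx : ∀ i, 0 ≤ x i) (hy : ∀ j, 0 ≤ y j) {P Q : ℝ}
    (hr : ∀ i, x i * r0 i = 1 + x i * Q) (hs : ∀ j, y j * s0 j = 1 + y j * P)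
    (A : Finset ι) (B : Finset κ) (hP : ∑ i ∈ A, x i ≤ P) (hQ : ∑ j ∈ B, y j ≤ Q)
    (hL : 0 < Lf x y m0 A B) :
    ph x y m0 A B * Lf x y m A B ^ 2 ≤ Lf x y m0 A B
      * Sq x y m (P - ∑ i ∈ A, x i) (Q - ∑ j ∈ B, y j) A B := by
  have h := par_t hm hm0 hx hy hr hs (-(Lf x y m A B / Lf x y m0 A B)) A.card A B le_rfl hP hQ
  have e : Sq x y m (P - ∑ i ∈ A, x i) (Q - ∑ j ∈ B, y j) A B
        + 2 * (-(Lf x y m A B / Lf x y m0 A B)) * (ph x y m0 A B * Lf x y m A B)
        + (-(Lf x y m A B / Lf x y m0 A B)) ^ 2 * (ph x y m0 A B * Lf x y m0 A B)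
      = Sq x y m (P - ∑ i ∈ A, x i) (Q - ∑ j ∈ B, y j) A B
        - ph x y m0 A B * Lf x y m A B ^ 2 / Lf x y m0 A B := by
    field_simp
    ring
  rw [e] at h
  have h2 : ph x y m0 A B * Lf x y m A B ^ 2 / Lf x y m0 A B
      ≤ Sq x y m (P - ∑ i ∈ A, x i) (Q - ∑ j ∈ B, y j) A B := by linarith
  rw [div_le_iff₀ hL] at h2
  linarith

end MP_d90615_co.CM
end

section

/-!
The line inequality for a system: `F(0) u₃² ≤ E(0) ((F - l R_a)(F - l R_b) - F φ)`.
-/

set_option autoImplicit false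
set_option linter.unusedSectionVars false

namespace MP_d90615_co.CM

open Finset

variable {ι κ : Type*} [DecidableEq ι] [DecidableEq κ]

/-- the star inequality -/
theorem star {r r0 : ι → ℝ} {s s0 : κ → ℝ} {m m0 : Finset ι → Finset κ → ℝ}
    (hm : Sys r s m) (hm0 : Sys r0 s0 m0) {x : ι → ℝ} {y : κ → ℝ}
    (hx : ∀ i, 0 ≤ x i) (hy : ∀ j, 0 ≤ y j) {P Q : ℝ}
    (hr : ∀ i, x i * r0 i = 1 + x i * Q) (hs : ∀ j, y j * s0 j = 1 + y j * P)
    (A : Finset ι) (B : Finset κ) (hP : ∑ i ∈ A, x i ≤ P) (hQ : ∑ j ∈ B, y j ≤ Q)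
    (h0 : 0 < m0 A B) :
    ph x y m0 A B * m A B ^ 2 ≤ m0 A B
      * (Sq x y m (P - ∑ i ∈ A, x i) (Q - ∑ j ∈ B, y j) A B + ph x y m A B ^ 2) := by
  have h := par_t hm hm0 hx hy hr hs (-(m A B / m0 A B)) A.card A B le_rfl hP hQ
  set S := Sq x y m (P - ∑ i ∈ A, x i) (Q - ∑ j ∈ B, y j) A B with hS
  have hne : m0 A B ≠ 0 := h0.ne'
  have hL0 : Lf x y m0 A B = m0 A B - ph x y m0 A B := by unfold ph; ring
  have hL : Lf x y m A B = m A B - ph x y m A B := by unfold ph; ring
  rw [hL0, hL] at h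
  set M := m A B
  set M0 := m0 A B
  set φ := ph x y m A B
  set φ0 := ph x y m0 A B
  have h1 := mul_nonneg (sq_nonneg M0) h
  have e : M0 ^ 2 * (S + 2 * -(M / M0) * (φ0 * (M - φ)) + (-(M / M0)) ^ 2 * (φ0 * (M0 - φ0)))
      = M0 ^ 2 * S - 2 * M * M0 * (φ0 * (M - φ)) + M ^ 2 * (φ0 * (M0 - φ0)) := by
    field_simp
    ring
  rw [e] at h1
  have h2 : 0 ≤ M0 * (M0 * (S + φ ^ 2) - φ0 * M ^ 2) := by
    nlinarith [h1, sq_nonneg (M * φ0 - M0 * φ)]
  have h3 : 0 ≤ M0 * (S + φ ^ 2) - φ0 * M ^ 2 := by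
    by_contra hc
    push Not at hc
    nlinarith [mul_neg_of_pos_of_neg h0 hc]
  linarith

section line

variable {r : ι → ℝ} {s : κ → ℝ} {m : Finset ι → Finset κ → ℝ} (hm : Sys r s m)
  {x : ι → ℝ} {y : κ → ℝ} {P Q : ℝ} (hr : ∀ i, x i * r i = 1 + x i * Q)
  (hs : ∀ j, y j * s j = 1 + y j * P)
include hm hr hs

/-- `d₁ d₂ φ` -/
theorem ward12 (A : Finset ι) (B : Finset κ) :
    D1 o1 (D2 o1 (ph x y m)) A B = Q * D1 o1 (ph x y m) A B
      - (Q - ∑ j ∈ B, y j) * D1 o1 m A B
      - (P - ∑ i ∈ A, x i) * D1 o1 (be y m) A B - Lf x y m A B := by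
  have e : ∀ i ∈ A, (1 : ℝ) * D2 o1 (ph x y m) (A.erase i) B = Q * (1 * ph x y m (A.erase i) B)
      - (Q - ∑ j ∈ B, y j) * (1 * m (A.erase i) B)
      - (P - ∑ i ∈ A, x i) * (1 * be y m (A.erase i) B) - x i * be y m (A.erase i) B := by
    intro i hi
    rw [ward4 hm hr hs (A.erase i) B]
    have h : ∑ i ∈ A, x i = x i + ∑ i ∈ A.erase i, x i := (Finset.add_sum_erase A x hi).symm
    rw [h]
    ring
  have e2 : Lf x y m A B = ∑ i ∈ A, x i * be y m (A.erase i) B := rfl
  have e3 : D1 o1 (D2 o1 (ph x y m)) A B = ∑ i ∈ A, (1 : ℝ) * D2 o1 (ph x y m) (A.erase i) B := rfl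
  rw [e3, Finset.sum_congr rfl e, e2]
  simp only [D1, Finset.sum_sub_distrib, ← Finset.mul_sum]

/-- the line identity: here `p + l = P - ∑ x`, `q + l = Q - ∑ y` -/
theorem line_id (A : Finset ι) (B : Finset κ) (p q l : ℝ)
    (hp : p + l = P - ∑ i ∈ A, x i) (hq : q + l = Q - ∑ j ∈ B, y j) :
    Sq x y m p q A B + ph x y m A B ^ 2
      = l ^ 2 * ((m A B + al x m A B) * (m A B + be y m A B))
        + l * m A B * (p * (m A B + be y m A B) + q * (m A B + al x m A B))
        + ph x y m A B * (m A B - l * ((P + Q - l) * m A B - D1 o1 m A B - D2 o1 m A B)) := by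
  have h1 := ward1 hm hs A B
  have h2 := ward2 hm hr A B
  have h4 := ward4 hm hr hs A B
  have h4' := ward4' hm hr hs A B
  have h12 := ward12 hm hr hs A B
  unfold Sq Dq Uq Vq Wq
  rw [h12, h4, h4']
  have hL : Lf x y m A B = m A B - ph x y m A B := by unfold ph; ring
  have hP : P = p + l + ∑ i ∈ A, x i := by linarith
  have hQ : Q = q + l + ∑ j ∈ B, y j := by linarith
  rw [← hp, ← hq, hL]
  have h1' : D1 o1 (be y m) A B = D2 o1 m A B + P * be y m A B - (∑ j ∈ B, y j) * m A B := by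
    linarith
  have h2' : D2 o1 (al x m) A B = D1 o1 m A B + Q * al x m A B - (∑ i ∈ A, x i) * m A B := by
    linarith
  rw [h1', h2', hP, hQ]
  ring

end line

/-- `G = (P + Q + l) m - d₁ m - d₂ m` (with the base values `P`, `Q`) -/
def Gf (m : Finset ι → Finset κ → ℝ) (P Q l : ℝ) (A : Finset ι) (B : Finset κ) : ℝ :=
  (P + Q + l) * m A B - D1 o1 m A B - D2 o1 m A B

/-- `F` on the line -/
def Fl (x : ι → ℝ) (y : κ → ℝ) (m : Finset ι → Finset κ → ℝ) (P Q p q l : ℝ)
    (A : Finset ι) (B : Finset κ) : ℝ :=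
  l * (p * q * Gf m P Q l A B) + l * p * (m A B + be y m A B) + l * q * (m A B + al x m A B)
    + p * q * m A B + ph x y m A B

/-- `R_a` on the line -/
def Rla (y : κ → ℝ) (m : Finset ι → Finset κ → ℝ) (P Q p q l : ℝ)
    (A : Finset ι) (B : Finset κ) : ℝ :=
  p * (m A B + be y m A B) + p * q * Gf m P Q l A B

/-- `R_b` on the line -/
def Rlb (x : ι → ℝ) (m : Finset ι → Finset κ → ℝ) (P Q p q l : ℝ)
    (A : Finset ι) (B : Finset κ) : ℝ :=
  q * (m A B + al x m A B) + p * q * Gf m P Q l A B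

/-- `E` on the line -/
def El (m : Finset ι → Finset κ → ℝ) (P Q p q l : ℝ)
    (A : Finset ι) (B : Finset κ) : ℝ :=
  p * q * (m A B + l * Gf m P Q l A B)

/-- helper11's identity -/
theorem line_alg (x : ι → ℝ) (y : κ → ℝ) (m : Finset ι → Finset κ → ℝ) (P Q p q l : ℝ)
    (A : Finset ι) (B : Finset κ) :
    (Fl x y m P Q p q l A B - l * Rla y m P Q p q l A B)
        * (Fl x y m P Q p q l A B - l * Rlb x m P Q p q l A B)
        - Fl x y m P Q p q l A B * ph x y m A B
      = l ^ 2 * (Rla y m P Q p q l A B * Rlb x m P Q p q l A B)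
        + Fl x y m P Q p q l A B * (2 * (p * q * m A B) - El m P Q p q l A B) := by
  unfold Fl Rla Rlb El
  ring

/-- **the line inequality** -/
theorem ss_line {r r0 : ι → ℝ} {s s0 : κ → ℝ} {m m0 : Finset ι → Finset κ → ℝ}
    (hm : Sys r s m) (hm0 : Sys r0 s0 m0) {x : ι → ℝ} {y : κ → ℝ}
    (hx : ∀ i, 0 ≤ x i) (hy : ∀ j, 0 ≤ y j) {P Q l : ℝ}
    (hr0 : ∀ i, x i * r0 i = 1 + x i * Q) (hs0 : ∀ j, y j * s0 j = 1 + y j * P)
    (hr : ∀ i, x i * r i = 1 + x i * (Q + l)) (hs : ∀ j, y j * s j = 1 + y j * (P + l))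
    (A : Finset ι) (B : Finset κ) {p q : ℝ} (hp : p = P - ∑ i ∈ A, x i)
    (hq : q = Q - ∑ j ∈ B, y j) (hp0 : 0 ≤ p) (hq0 : 0 ≤ q) (h0 : 0 < m0 A B) :
    (p * q * m0 A B + ph x y m0 A B) * (p * q * m A B) ^ 2
      ≤ (p * q * m0 A B) * ((Fl x y m P Q p q l A B - l * Rla y m P Q p q l A B)
        * (Fl x y m P Q p q l A B - l * Rlb x m P Q p q l A B)
        - Fl x y m P Q p q l A B * ph x y m A B) := by
  have h1 := star hm hm0 hx hy hr0 hs0 A B (by linarith) (by linarith) h0
  rw [← hp, ← hq] at h1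
  have h2 := line_id hm hr hs A B p q l (by linarith) (by linarith)
  have h3 : (Fl x y m P Q p q l A B - l * Rla y m P Q p q l A B)
        * (Fl x y m P Q p q l A B - l * Rlb x m P Q p q l A B)
        - Fl x y m P Q p q l A B * ph x y m A B
      = (p * q * m A B) ^ 2 + p * q * (Sq x y m p q A B + ph x y m A B ^ 2) := by
    rw [h2]
    unfold Fl Rla Rlb Gf
    ring
  rw [h3]
  have h4 := mul_le_mul_of_nonneg_left h1 (sq_nonneg (p * q))
  nlinarith [h4]

end MP_d90615_co.CM
end
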