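import Mathlib
import Pool.Agent.Lib.MP_d90615_co.Mg.G003

section

set_option autoImplicit false
set_option linter.unusedSectionVars false

namespace Pool.Agent.MJ

open Finset Polynomial Filter Topology

/-- the weight `exp (-a l - l^2/2)` -/
noncomputable def gw (a l : ℝ) : ℝ := Real.exp (-(a * l) - l ^ 2 / 2)

/-- `exp (-a l - l^2/2) p (a + l)` -/
noncomputable def Wp (a : ℝ) (p : ℝ[X]) (l : ℝ) : ℝ := gw a l * p.eval (a + l)

theorem gw_zero (a : ℝ) : gw a 0 = 1 := by simp [gw]

theorem gw_pos (a l : ℝ) : 0 < gw a l := Real.exp_pos _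

theorem hasDerivAt_gw (a l : ℝ) : HasDerivAt (gw a) (-(a + l) * gw a l) l := by
  have h : HasDerivAt (fun l : ℝ => -(a * l) - l ^ 2 / 2) (-(a + l)) l := by
    have h1 : HasDerivAt (fun l : ℝ => -(a * l)) (-(a * 1)) l := ((hasDerivAt_id l).const_mul a).neg
    have h2 : HasDerivAt (fun l : ℝ => l ^ 2 / 2) ((2 : ℕ) * l ^ (2 - 1) * 1 / 2) l :=
      ((hasDerivAt_id l).pow 2).div_const 2
    exact (h1.sub h2).congr_deriv (by norm_num; ring)
  exact h.exp.congr_deriv (by unfold gw; ring)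

theorem hasDerivAt_Wp (a : ℝ) (p : ℝ[X]) (l : ℝ) :
    HasDerivAt (Wp a p) (-Wp a (DD p) l) l := by
  have h1 : HasDerivAt (fun l : ℝ => p.eval (a + l)) ((derivative p).eval (a + l)) l := by
    exact ((p.hasDerivAt (a + l)).comp l ((hasDerivAt_id l).const_add a)).congr_deriv (mul_one _)
  exact ((hasDerivAt_gw a l).mul h1).congr_deriv
    (by simp only [Wp, DD, eval_sub, eval_mul, eval_X]; ring)

theorem Wp_zero (a : ℝ) (p : ℝ[X]) : Wp a p 0 = p.eval a := by simp [Wp, gw_zero]

theorem tendsto_poly_mul_exp (q : ℝ[X]) {r : ℝ} (hr : 0 < r) :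
    Tendsto (fun l => q.eval l * Real.exp (-(r * l))) atTop (𝓝 0) := by
  have h1 := Polynomial.tendsto_div_exp_atTop (q.comp (C r⁻¹ * X))
  have h2 : Tendsto (fun l : ℝ => r * l) atTop atTop := tendsto_id.const_mul_atTop hr
  refine (h1.comp h2).congr fun l => ?_
  simp only [Function.comp, eval_comp, eval_mul, eval_C, eval_X]
  rw [inv_mul_cancel_left₀ hr.ne', Real.exp_neg, div_eq_mul_inv]

theorem tendsto_poly_mul_gw (q : ℝ[X]) {a : ℝ} (ha : 0 < a) :
    Tendsto (fun l => q.eval l * gw a l) atTop (𝓝 0) := by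
  have h := tendsto_poly_mul_exp q ha
  rw [tendsto_zero_iff_norm_tendsto_zero] at h ⊢
  refine squeeze_zero (fun _ => norm_nonneg _) (fun l => ?_) h
  rw [norm_mul, norm_mul]
  refine mul_le_mul_of_nonneg_left ?_ (norm_nonneg _)
  rw [Real.norm_eq_abs, Real.norm_eq_abs, abs_of_pos (gw_pos _ _), abs_of_pos (Real.exp_pos _)]
  refine Real.exp_le_exp.2 ?_
  nlinarith [sq_nonneg l]

theorem tendsto_mul_Wp (q p : ℝ[X]) {a : ℝ} (ha : 0 < a) :
    Tendsto (fun l => q.eval l * Wp a p l) atTop (𝓝 0) := by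
  refine (tendsto_poly_mul_gw (q * p.comp (C a + X)) ha).congr fun l => ?_
  simp only [Wp, eval_mul, eval_comp, eval_add, eval_C, eval_X]
  ring

/-- `t` is dominated by `-B'` with `B → 0` and `B 0 = v`. -/
def Dom (t : ℝ → ℝ) (v : ℝ) : Prop :=
  ∃ B B' : ℝ → ℝ, (∀ l, 0 ≤ l → HasDerivAt B (B' l) l) ∧ (∀ l, 0 ≤ l → B' l ≤ -t l) ∧
    Tendsto B atTop (𝓝 0) ∧ B 0 = v

theorem Dom.sum {ι : Type*} (s : Finset ι) {t : ι → ℝ → ℝ} {v : ι → ℝ}
    (h : ∀ i ∈ s, Dom (t i) (v i)) : Dom (fun l => ∑ i ∈ s, t i l) (∑ i ∈ s, v i) := by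
  classical
  induction s using Finset.induction_on with
  | empty =>
      refine ⟨fun _ => 0, fun _ => 0, fun l _ => hasDerivAt_const l 0, fun l _ => by simp,
        tendsto_const_nhds, by simp⟩
  | insert i s hi ih =>
      obtain ⟨B, B', h1, h2, h3, h4⟩ := ih fun j hj => h j (mem_insert_of_mem hj)
      obtain ⟨A, A', g1, g2, g3, g4⟩ := h i (mem_insert_self i s)
      refine ⟨fun l => A l + B l, fun l => A' l + B' l, fun l hl => (g1 l hl).add (h1 l hl),
        fun l hl => ?_, by simpa using g3.add h3, ?_⟩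
      · have e1 := h2 l hl
        have e2 := g2 l hl
        beta_reduce at e1 ⊢
        rw [sum_insert hi]
        linarith
      · rw [sum_insert hi, ← g4, ← h4]

/-- the comparison -/
theorem Dom.le {t : ℝ → ℝ} {v : ℝ} (h : Dom t v) {F F' : ℝ → ℝ}
    (hF : ∀ l, 0 ≤ l → HasDerivAt F (F' l) l) (hF' : ∀ l, 0 ≤ l → F' l = -t l)
    (hlim : Tendsto F atTop (𝓝 0)) : F 0 ≤ v := by
  obtain ⟨B, B', h1, h2, h3, h4⟩ := h
  have hanti : AntitoneOn (fun l => B l - F l) (Set.Ici 0) := by
    refine antitoneOn_of_deriv_nonpos (convex_Ici 0) ?_ ?_ ?_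
    · exact fun l hl => ((h1 l hl).sub (hF l hl)).continuousAt.continuousWithinAt
    · intro l hl
      rw [interior_Ici] at hl
      exact ((h1 l hl.le).sub (hF l hl.le)).differentiableAt.differentiableWithinAt
    · intro l hl
      rw [interior_Ici] at hl
      have := ((h1 l (le_of_lt hl)).sub (hF l (le_of_lt hl))).deriv
      rw [show (fun l => B l - F l) = B - F from rfl, this, hF' l (le_of_lt hl)]
      have := h2 l (le_of_lt hl)
      linarith
  have hlim2 : Tendsto (fun l => B l - F l) atTop (𝓝 0) := by simpa using h3.sub hlim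
  have : (0 : ℝ) ≤ B 0 - F 0 := by
    refine le_of_tendsto hlim2 ?_
    filter_upwards [eventually_ge_atTop (0 : ℝ)] with l hl
    exact hanti (Set.mem_Ici.2 le_rfl) (Set.mem_Ici.2 hl) hl
  linarith [h4]

/-- classes with at most two elements of `S` -/
theorem dom_two {a : ℝ} (ha : 0 < a) (p : ℝ[X]) :
    Dom (fun l => l * Wp a (DD (DD p)) l) (p.eval a) := by
  refine ⟨fun l => l * Wp a (DD p) l + Wp a p l,
    fun l => (1 * Wp a (DD p) l + l * -Wp a (DD (DD p)) l) + -Wp a (DD p) l,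
    fun l _ => ((hasDerivAt_id l).mul (hasDerivAt_Wp a (DD p) l)).add (hasDerivAt_Wp a p l),
    fun l _ => le_of_eq (by ring), ?_, by simp [Wp_zero]⟩
  have h1 := tendsto_mul_Wp X (DD p) ha
  have h2 := tendsto_mul_Wp 1 p ha
  simpa using h1.add h2

theorem hasDerivAt_exp_lin (r l : ℝ) :
    HasDerivAt (fun l => Real.exp (-(r * l))) (-r * Real.exp (-(r * l))) l := by
  have h : HasDerivAt (fun l : ℝ => -(r * l)) (-(r * 1)) l := ((hasDerivAt_id l).const_mul r).neg
  convert h.exp using 1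
  ring

/-- `|S| = 3` -/
theorem dom_three {a : ℝ} (ha : 0 < a) (p : ℝ[X]) {n r : ℝ} (hr : 0 < r)
    (hb : ∀ l, 0 ≤ l → Wp a p l ≤ n * Real.exp (-(r * l))) :
    Dom (fun l => l * Wp a (DD p) l) (n * r⁻¹) := by
  refine ⟨fun l => l * Wp a p l + (n * r⁻¹) * Real.exp (-(r * l)),
    fun l => (1 * Wp a p l + l * -Wp a (DD p) l) + (n * r⁻¹) * (-r * Real.exp (-(r * l))),
    fun l _ => ((hasDerivAt_id l).mul (hasDerivAt_Wp a p l)).add
      ((hasDerivAt_exp_lin r l).const_mul _),
    fun l hl => ?_, ?_, by simp⟩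
  · have := hb l hl
    have h2 : (n * r⁻¹) * (-r * Real.exp (-(r * l))) = -(n * Real.exp (-(r * l))) := by
      field_simp
    beta_reduce
    rw [h2]
    linarith
  · have h1 := tendsto_mul_Wp X p ha
    have h2 := tendsto_poly_mul_exp (C (n * r⁻¹)) hr
    simpa using h1.add h2

/-- `|S| = 4` -/
theorem dom_four {a : ℝ} (p : ℝ[X]) {n r : ℝ} (hr : 0 < r)
    (hb : ∀ l, 0 ≤ l → Wp a p l ≤ n * Real.exp (-(r * l))) :
    Dom (fun l => l * Wp a p l) (n * (r ^ 2)⁻¹) := by
  refine ⟨fun l => ((n * r⁻¹) * l + n * (r ^ 2)⁻¹) * Real.exp (-(r * l)),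
    fun l => (n * r⁻¹ * 1) * Real.exp (-(r * l)) +
      ((n * r⁻¹) * l + n * (r ^ 2)⁻¹) * (-r * Real.exp (-(r * l))),
    fun l _ => ?_, fun l hl => ?_, ?_, by simp⟩
  · have h1 : HasDerivAt (fun l : ℝ => (n * r⁻¹) * l + n * (r ^ 2)⁻¹) (n * r⁻¹ * 1) l :=
      ((hasDerivAt_id l).const_mul _).add_const _
    exact h1.mul (hasDerivAt_exp_lin r l)
  · have h1 := mul_le_mul_of_nonneg_left (hb l hl) hl
    have h2 : (n * r⁻¹ * 1) * Real.exp (-(r * l)) +
        ((n * r⁻¹) * l + n * (r ^ 2)⁻¹) * (-r * Real.exp (-(r * l))) =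
        -(l * (n * Real.exp (-(r * l)))) := by
      field_simp
      ring
    beta_reduce
    rw [h2]
    linarith
  · have h2 := tendsto_poly_mul_exp (C (n * r⁻¹) * X + C (n * (r ^ 2)⁻¹)) hr
    simpa using h2

theorem Wp_le {a : ℝ} {p : ℝ[X]} {n s : ℝ} (hb : ∀ l, 0 ≤ l → p.eval (a + l) ≤ n * Real.exp (l * s))
    (hn : 0 ≤ n) : ∀ l, 0 ≤ l → Wp a p l ≤ n * Real.exp (-((a - s) * l)) := by
  intro l hl
  unfold Wp gw
  calc Real.exp (-(a * l) - l ^ 2 / 2) * p.eval (a + l)
      ≤ Real.exp (-(a * l) - l ^ 2 / 2) * (n * Real.exp (l * s)) :=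
        mul_le_mul_of_nonneg_left (hb l hl) (Real.exp_pos _).le
    _ = n * Real.exp (-(a * l) - l ^ 2 / 2 + l * s) := by rw [Real.exp_add]; ring
    _ ≤ n * Real.exp (-((a - s) * l)) := by
        refine mul_le_mul_of_nonneg_left (Real.exp_le_exp.2 ?_) hn
        nlinarith [sq_nonneg l]

theorem rowE (N : Finset (Fin 4) → ℝ[X]) (f : ℝ[X]) (a : ℝ) (ha : 0 < a)
    (hpos : ∀ S, 0 < (N S).eval a)
    (hbd : ∀ S, ∀ l, 0 ≤ l → (N S).eval (a + l) ≤
      (N S).eval a * Real.exp (l * ((derivative (N S)).eval a / (N S).eval a)))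
    (hρ : ∀ S, 0 < a - (derivative (N S)).eval a / (N S).eval a)
    (hf : derivative f = (C a + X) * f -
      X * (∑ S : Finset (Fin 4), (DD^[4 - S.card] (N S))).comp (X + C a)) :
    f.eval 0 ≤ (DD (DD (N ∅))).eval a + ∑ S ∈ univ.erase ∅,
      (N S).eval a * (a - (derivative (N S)).eval a / (N S).eval a) ^ (2 - (S.card : ℤ)) := by
  classical
  set ρ : Finset (Fin 4) → ℝ := fun S => a - (derivative (N S)).eval a / (N S).eval a with hρd
  -- values
  set v : Finset (Fin 4) → ℝ := fun S =>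
    if S = ∅ then (DD (DD (N ∅))).eval a else (N S).eval a * ρ S ^ (2 - (S.card : ℤ)) with hv
  have hW : ∀ S, ∀ l, 0 ≤ l → Wp a (N S) l ≤ (N S).eval a * Real.exp (-(ρ S * l)) :=
    fun S => Wp_le (hbd S) (hpos S).le
  have hdom : ∀ S ∈ (univ : Finset (Finset (Fin 4))),
      Dom (fun l => l * Wp a (DD^[4 - S.card] (N S)) l) (v S) := by
    intro S _
    have hc : S.card ≤ 4 := by simpa using card_le_univ S
    have hcases : S.card = 0 ∨ S.card = 1 ∨ S.card = 2 ∨ S.card = 3 ∨ S.card = 4 := by omega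
    rcases hcases with h | h | h | h | h
    · have hS : S = ∅ := card_eq_zero.1 h
      subst hS
      have := dom_two ha (DD (DD (N ∅)))
      simpa [hv, Function.iterate_succ, Function.comp] using this
    · have hS : S ≠ ∅ := by rintro rfl; simp at h
      have h1 := dom_two ha (DD (N S))
      have h2 : (DD (N S)).eval a = v S := by
        simp only [hv, if_neg hS, h, DD, eval_sub, eval_mul, eval_X, hρd]
        have := (hpos S).ne'
        norm_num
        field_simp
      rw [h2] at h1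
      simpa [h, Function.iterate_succ, Function.comp] using h1
    · have hS : S ≠ ∅ := by rintro rfl; simp at h
      have h1 := dom_two ha (N S)
      have h2 : (N S).eval a = v S := by
        simp [hv, if_neg hS, h]
      rw [h2] at h1
      simpa [h, Function.iterate_succ, Function.comp] using h1
    · have hS : S ≠ ∅ := by rintro rfl; simp at h
      have h1 := dom_three ha (N S) (hρ S) (hW S)
      have h2 : (N S).eval a * (ρ S)⁻¹ = v S := by
        simp only [hv, if_neg hS, h]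
        norm_num
      rw [show (a - (derivative (N S)).eval a / (N S).eval a) = ρ S from rfl, h2] at h1
      simpa [h, Function.iterate_succ, Function.comp] using h1
    · have hS : S ≠ ∅ := by rintro rfl; simp at h
      have h1 := dom_four (N S) (hρ S) (hW S)
      have h2 : (N S).eval a * (ρ S ^ 2)⁻¹ = v S := by
        simp only [hv, if_neg hS, h]
        norm_num
      rw [show (a - (derivative (N S)).eval a / (N S).eval a) = ρ S from rfl, h2] at h1
      simpa [h] using h1
  have hsum := Dom.sum univ hdom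
  have hle := hsum.le (F := fun l => gw a l * f.eval l)
    (F' := fun l => -(a + l) * gw a l * f.eval l + gw a l * (derivative f).eval l)
    (fun l _ => (hasDerivAt_gw a l).mul (f.hasDerivAt l))
    (fun l _ => by
      rw [hf]
      simp only [eval_sub, eval_mul, eval_add, eval_C, eval_X, eval_comp, eval_finsetSum, Wp]
      rw [← mul_sum, ← mul_sum]
      have : ∀ S, (DD^[4 - S.card] (N S)).eval (l + a) = (DD^[4 - S.card] (N S)).eval (a + l) :=
        fun S => by rw [add_comm]
      simp only [this]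
      ring)
    ((tendsto_poly_mul_gw f ha).congr fun l => mul_comm _ _)
  have h0 : gw a 0 * f.eval 0 = f.eval 0 := by rw [gw_zero, one_mul]
  rw [h0] at hle
  refine hle.trans (le_of_eq ?_)
  rw [← add_sum_erase univ v (mem_univ ∅)]
  congr 1

end Pool.Agent.MJ
end

section

/-!
From the inequality for the pair of marks to the inequality for the cone.
-/

set_option autoImplicit false
set_option linter.unusedSectionVars false

namespace Pool.Agent.MJ

open Finset Polynomial
open scoped Classical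

theorem ss_alg (F E Ra Rb R T2 Fab U3 : ℝ[X]) (hR : C 2 * R = Ra + Rb)
    (hT : C (F.eval 0) * E - C (E.eval 0) * F = X ^ 2 * T2) (hE0 : 0 < E.eval 0)
    (hF0 : 0 < F.eval 0)
    (hid : (F - X * Ra) * (F - X * Rb) - F * Fab = X ^ 2 * (Ra * Rb) + F * (C 2 * U3 - E))
    (hSS : ∀ l, F.eval 0 * U3.eval l ^ 2 ≤
      E.eval 0 * ((F.eval l - l * Ra.eval l) * (F.eval l - l * Rb.eval l) -
        F.eval l * Fab.eval l)) (l : ℝ) :
    F.eval l * T2.eval l ≤ F.eval 0 * R.eval l ^ 2 := by
  have key : ∀ l : ℝ, l ≠ 0 → F.eval l * T2.eval l ≤ F.eval 0 * R.eval l ^ 2 := by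
    intro l hl
    have h1 := congrArg (Polynomial.eval l) hid
    have h2 := congrArg (Polynomial.eval l) hT
    have h3 := congrArg (Polynomial.eval l) hR
    simp only [eval_sub, eval_add, eval_mul, eval_C, eval_X, eval_pow] at h1 h2 h3
    have h4 := hSS l
    rw [h1] at h4
    set f := F.eval l
    set a := F.eval 0
    set b := E.eval 0
    set g := E.eval l
    set u := U3.eval l
    set ra := Ra.eval l
    set rb := Rb.eval l
    set r := R.eval l
    set t := T2.eval l
    have hl2 : 0 < l ^ 2 := by positivity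
    have h5 : b * (f * (l ^ 2 * t)) ≤ b * (a * (l ^ 2 * (ra * rb))) := by
      have h6 : b * (f * (l ^ 2 * t)) = a * (b * (l ^ 2 * (ra * rb))) -
          a * (b * (l ^ 2 * (ra * rb) + f * (2 * u - g)) - a * u ^ 2) - (a * u - b * f) ^ 2 := by
        rw [← h2]
        ring
      have h7 : 0 ≤ a * (b * (l ^ 2 * (ra * rb) + f * (2 * u - g)) - a * u ^ 2) :=
        mul_nonneg hF0.le (by linarith)
      have h8 := sq_nonneg (a * u - b * f)
      rw [h6]
      linarith
    have h6 : f * (l ^ 2 * t) ≤ a * (l ^ 2 * (ra * rb)) := le_of_mul_le_mul_left h5 hE0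
    have h7 : ra * rb ≤ r ^ 2 := by
      have h8 : r = (ra + rb) / 2 := by linarith
      rw [h8]
      nlinarith [sq_nonneg (ra - rb)]
    have h8 : l ^ 2 * (f * t) ≤ l ^ 2 * (a * r ^ 2) := by
      have h9 : a * (l ^ 2 * (ra * rb)) ≤ a * (l ^ 2 * r ^ 2) :=
        mul_le_mul_of_nonneg_left (mul_le_mul_of_nonneg_left h7 hl2.le) hF0.le
      calc l ^ 2 * (f * t) = f * (l ^ 2 * t) := by ring
        _ ≤ a * (l ^ 2 * (ra * rb)) := h6
        _ ≤ a * (l ^ 2 * r ^ 2) := h9
        _ = l ^ 2 * (a * r ^ 2) := by ring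
    exact le_of_mul_le_mul_left h8 hl2
  by_cases hl : l = 0
  · subst hl
    have hc : Continuous fun l : ℝ => F.eval 0 * R.eval l ^ 2 - F.eval l * T2.eval l :=
      (continuous_const.mul (R.continuous.pow 2)).sub (F.continuous.mul T2.continuous)
    have hd : Dense {l : ℝ | l ≠ 0} := by
      have := dense_compl_singleton (0 : ℝ)
      exact this
    have h1 : (0 : ℝ) ∈ closure {l : ℝ | l ≠ 0} := hd 0
    have h2 : closure {l : ℝ | l ≠ 0} ⊆
        {l | 0 ≤ F.eval 0 * R.eval l ^ 2 - F.eval l * T2.eval l} := by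
      refine closure_minimal ?_ (isClosed_le continuous_const hc)
      intro l hl
      have := key l hl
      change 0 ≤ F.eval 0 * R.eval l ^ 2 - F.eval l * T2.eval l
      linarith
    have h3 : 0 ≤ F.eval 0 * R.eval 0 ^ 2 - F.eval 0 * T2.eval 0 := h2 h1
    linarith
  · exact key l hl

end Pool.Agent.MJ
end
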