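import Mathlib

section

/-!
Real-rooted polynomials: bounds from the location of the zeros.
-/

set_option autoImplicit false
set_option linter.unusedSectionVars false

namespace Pool.Agent.MJ

open Finset Polynomial
open scoped Classical

/-- A real polynomial without zeros in the upper half plane splits over `ℝ`. -/
theorem splits_of_up {p : ℝ[X]} (hup : ∀ z : ℂ, 0 < z.im → aeval z p ≠ 0) : p.Splits := by
  refine Splits.of_splits_map (algebraMap ℝ ℂ) (IsAlgClosed.splits _) ?_
  intro z hz
  have hz0 : aeval z p = 0 := by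
    have := (mem_roots'.1 hz).2
    rwa [IsRoot.def, eval_map_algebraMap] at this
  have h1 : ¬ 0 < z.im := fun h => hup z h hz0
  have h2 : ¬ 0 < (starRingEnd ℂ z).im := by
    intro h
    refine hup _ h ?_
    have : aeval ((starRingEnd ℂ) z) p = (starRingEnd ℂ) (aeval z p) := by
      rw [← Complex.conjAe_coe, ← Polynomial.aeval_algHom_apply]
    rw [this, hz0, map_zero]
  have h3 : z.im = 0 := by
    simp only [Complex.conj_im] at h2
    linarith
  exact ⟨z.re, by apply Complex.ext <;> simp [h3]⟩

theorem rr_aux (R : Multiset ℝ) (a : ℝ) (hR : ∀ r ∈ R, r < a) :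
    0 < ((R.map fun r => (X - C r : ℝ[X])).prod).eval a ∧
    (∀ l, 0 ≤ l → ((R.map fun r => (X - C r : ℝ[X])).prod).eval (a + l) ≤
      ((R.map fun r => (X - C r : ℝ[X])).prod).eval a *
        Real.exp (l * ((derivative ((R.map fun r => (X - C r : ℝ[X])).prod)).eval a /
          ((R.map fun r => (X - C r : ℝ[X])).prod).eval a))) ∧
    (∀ l, 0 ≤ l → 0 ≤ ((R.map fun r => (X - C r : ℝ[X])).prod).eval (a + l)) ∧
    ((R.map fun r => (X - C r : ℝ[X])).prod).eval a *
      (derivative (derivative ((R.map fun r => (X - C r : ℝ[X])).prod))).eval a ≤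
      (derivative ((R.map fun r => (X - C r : ℝ[X])).prod)).eval a ^ 2 := by
  induction R using Multiset.induction_on with
  | empty => simp
  | cons r R ih =>
    obtain ⟨h1, h2, h3, h4⟩ := ih fun r hr => hR r (Multiset.mem_cons_of_mem hr)
    have hr : 0 < a - r := sub_pos.2 (hR r (Multiset.mem_cons_self r R))
    set q : ℝ[X] := (R.map fun r => (X - C r : ℝ[X])).prod with hq
    rw [Multiset.map_cons, Multiset.prod_cons, ← hq]
    have e1 : ((X - C r) * q).eval a = (a - r) * q.eval a := by simp
    have e2 : (derivative ((X - C r) * q)).eval a = q.eval a + (a - r) * (derivative q).eval a := by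
      simp [derivative_mul]
    have e3 : (derivative (derivative ((X - C r) * q))).eval a =
        2 * (derivative q).eval a + (a - r) * (derivative (derivative q)).eval a := by
      simp [derivative_mul]
      ring
    have e4 : ∀ l, ((X - C r) * q).eval (a + l) = (a + l - r) * q.eval (a + l) := by
      intro l; simp
    refine ⟨by rw [e1]; exact mul_pos hr h1, ?_, ?_, ?_⟩
    · intro l hl
      rw [e4, e1, e2]
      have hfac : (q.eval a + (a - r) * (derivative q).eval a) / ((a - r) * q.eval a) =
          1 / (a - r) + (derivative q).eval a / q.eval a := by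
        field_simp
      rw [hfac, mul_add, Real.exp_add]
      have hx : a + l - r ≤ (a - r) * Real.exp (l * (1 / (a - r))) := by
        have := Real.add_one_le_exp (l * (1 / (a - r)))
        calc a + l - r = (a - r) * (l * (1 / (a - r)) + 1) := by field_simp; ring
          _ ≤ _ := mul_le_mul_of_nonneg_left this hr.le
      calc (a + l - r) * q.eval (a + l) ≤
          ((a - r) * Real.exp (l * (1 / (a - r)))) *
            (q.eval a * Real.exp (l * ((derivative q).eval a / q.eval a))) :=
            mul_le_mul hx (h2 l hl) (h3 l hl) (by positivity)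
        _ = _ := by ring
    · intro l hl
      rw [e4]
      exact mul_nonneg (by linarith) (h3 l hl)
    · rw [e1, e2, e3]
      nlinarith [mul_nonneg (sq_nonneg (a - r)) (sub_nonneg.2 h4), sq_nonneg (q.eval a)]

theorem rr_bound {p : ℝ[X]} {a : ℝ} (hpos : ∀ u, a ≤ u → 0 < p.eval u)
    (hup : ∀ z : ℂ, 0 < z.im → aeval z p ≠ 0) :
    (∀ l, 0 ≤ l → p.eval (a + l) ≤
      p.eval a * Real.exp (l * ((derivative p).eval a / p.eval a))) ∧
    p.eval a * (derivative (derivative p)).eval a ≤ (derivative p).eval a ^ 2 := by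
  have hs := splits_of_up hup
  have hpa := hpos a le_rfl
  have hp0 : p ≠ 0 := by
    rintro rfl; simp at hpa
  have hr : ∀ r ∈ p.roots, r < a := by
    intro r hr
    by_contra h
    have := hpos r (not_lt.1 h)
    rw [(mem_roots'.1 hr).2] at this
    exact lt_irrefl _ this
  obtain ⟨h1, h2, -, h4⟩ := rr_aux p.roots a hr
  set q : ℝ[X] := (p.roots.map fun r => (X - C r : ℝ[X])).prod with hq
  have hp : p = C p.leadingCoeff * q := hs.eq_prod_roots
  set c := p.leadingCoeff with hc
  have hcpos : 0 < c := by
    rw [hp, eval_mul, eval_C] at hpa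
    exact (pos_iff_pos_of_mul_pos hpa).2 h1
  rw [hp]
  simp only [derivative_C_mul, eval_mul, eval_C]
  constructor
  · intro l hl
    rw [mul_div_mul_left _ _ hcpos.ne', mul_assoc]
    exact mul_le_mul_of_nonneg_left (h2 l hl) hcpos.le
  · nlinarith [mul_le_mul_of_nonneg_left h4 (sq_nonneg c)]

theorem aeval_line_hasDerivAt (p : ℝ[X]) (x : ℝ) :
    HasDerivAt (fun e : ℝ => aeval ((x : ℂ) + e * Complex.I) p)
      (Complex.I * (((derivative p).eval x : ℝ) : ℂ)) 0 := by
  have h1 : HasDerivAt (fun e : ℝ => (x : ℂ) + e * Complex.I) (Complex.I) 0 := by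
    have h := (Complex.ofRealCLM.hasDerivAt (x := (0 : ℝ)))
    have h' := (h.mul_const Complex.I).const_add (x : ℂ)
    simpa using h'
  have h2 : HasDerivAt (fun z : ℂ => aeval z p) (aeval ((x : ℂ) + (0 : ℝ) * Complex.I)
      (derivative p)) ((x : ℂ) + (0 : ℝ) * Complex.I) :=
    Polynomial.hasDerivAt_aeval p _
  have h3 := HasDerivAt.comp (𝕜 := ℝ) (𝕜' := ℂ) (0 : ℝ) (h₂ := fun z : ℂ => aeval z p) h2 h1
  have e : (aeval ((x : ℂ) + (0 : ℝ) * Complex.I) (derivative p)) =
      (((derivative p).eval x : ℝ) : ℂ) := by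
    simp [← Complex.coe_algebraMap, aeval_algebraMap_apply]
  rw [e, mul_comm] at h3
  exact h3

theorem aeval_line_zero (p : ℝ[X]) (x : ℝ) :
    aeval ((x : ℂ) + (0 : ℝ) * Complex.I) p = ((p.eval x : ℝ) : ℂ) := by
  simp [← Complex.coe_algebraMap, aeval_algebraMap_apply]

theorem interl {p q : ℝ[X]}
    (h : ∀ z : ℂ, 0 < z.im → ∀ t : ℂ, 0 < t.im → aeval z p - t * aeval z q ≠ 0) (x : ℝ) :
    (derivative p).eval x * q.eval x ≤ p.eval x * (derivative q).eval x := by
  -- the imaginary part of `p / q` is nonpositive in the upper half plane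
  have him : ∀ z : ℂ, 0 < z.im →
      (aeval z p).im * (aeval z q).re - (aeval z p).re * (aeval z q).im ≤ 0 := by
    intro z hz
    by_contra hc
    push Not at hc
    have hq : aeval z q ≠ 0 := by
      intro h0
      rw [h0] at hc
      simp at hc
    refine h z hz (aeval z p / aeval z q) ?_ ?_
    · rw [Complex.div_im]
      have hn : 0 < Complex.normSq (aeval z q) := Complex.normSq_pos.2 hq
      rw [← sub_div]
      exact div_pos hc hn
    · field_simp
      ring
  have hP := aeval_line_hasDerivAt p x
  have hQ := aeval_line_hasDerivAt q x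
  have hPr := Complex.reCLM.hasFDerivAt.comp_hasDerivAt (0 : ℝ) hP
  have hPi := Complex.imCLM.hasFDerivAt.comp_hasDerivAt (0 : ℝ) hP
  have hQr := Complex.reCLM.hasFDerivAt.comp_hasDerivAt (0 : ℝ) hQ
  have hQi := Complex.imCLM.hasFDerivAt.comp_hasDerivAt (0 : ℝ) hQ
  have hg := (hPi.mul hQr).sub (hPr.mul hQi)
  simp only [Complex.reCLM_apply, Complex.imCLM_apply, Function.comp_apply, aeval_line_zero,
    Complex.mul_im, Complex.mul_re, Complex.I_re, Complex.I_im, Complex.ofReal_re,
    Complex.ofReal_im, zero_mul, mul_zero, one_mul, sub_zero, add_zero, zero_add] at hg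
  have hg' := hg.tendsto_slope_zero_right
  by_contra hc
  push Not at hc
  have hle : (derivative p).eval x * q.eval x - p.eval x * (derivative q).eval x ≤ 0 := by
    refine le_of_tendsto hg' ?_
    filter_upwards [self_mem_nhdsWithin] with e he
    have he' : 0 < e := he
    have := him ((x : ℂ) + e * Complex.I) (by simpa using he')
    simp only [Pi.sub_apply, Pi.mul_apply, Function.comp_apply, Complex.reCLM_apply,
      Complex.imCLM_apply, zero_add, aeval_line_zero, Complex.ofReal_re, Complex.ofReal_im,
      zero_mul, mul_zero, sub_zero, smul_eq_mul]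
    exact mul_nonpos_of_nonneg_of_nonpos (inv_nonneg.2 he'.le) this
  linarith

theorem ray_two {p00 p10 p01 p11 : ℝ[X]}
    (h : ∀ z : ℂ, 0 < z.im → ∀ t t' : ℂ, 0 < t.im → 0 < t'.im →
      aeval z p00 - t * aeval z p10 - t' * aeval z p01 + t * t' * aeval z p11 ≠ 0) (x : ℝ) :
    p00.eval x * p11.eval x ≤ p10.eval x * p01.eval x := by
  by_contra hc
  push Not at hc
  -- numerator and denominator of `t` when `t' = I`
  set N : ℂ → ℂ := fun z => Complex.I * aeval z p01 - aeval z p00 with hN
  set D : ℂ → ℂ := fun z => Complex.I * aeval z p11 - aeval z p10 with hD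
  have hcont : Continuous fun e : ℝ =>
      (N ((x : ℂ) + e * Complex.I)).im * (D ((x : ℂ) + e * Complex.I)).re -
      (N ((x : ℂ) + e * Complex.I)).re * (D ((x : ℂ) + e * Complex.I)).im := by
    have hl : Continuous fun e : ℝ => (x : ℂ) + e * Complex.I := by fun_prop
    have hp : ∀ p : ℝ[X], Continuous fun e : ℝ => aeval ((x : ℂ) + e * Complex.I) p :=
      fun p => (Polynomial.continuous_aeval p).comp hl
    have hNc : Continuous fun e : ℝ => N ((x : ℂ) + e * Complex.I) := by
      simp only [hN]
      exact (continuous_const.mul (hp _)).sub (hp _)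
    have hDc : Continuous fun e : ℝ => D ((x : ℂ) + e * Complex.I) := by
      simp only [hD]
      exact (continuous_const.mul (hp _)).sub (hp _)
    exact ((Complex.continuous_im.comp hNc).mul (Complex.continuous_re.comp hDc)).sub
      ((Complex.continuous_re.comp hNc).mul (Complex.continuous_im.comp hDc))
  have h0 : 0 < (N ((x : ℂ) + (0 : ℝ) * Complex.I)).im * (D ((x : ℂ) + (0 : ℝ) * Complex.I)).re -
      (N ((x : ℂ) + (0 : ℝ) * Complex.I)).re * (D ((x : ℂ) + (0 : ℝ) * Complex.I)).im := by
    simp only [hN, hD, aeval_line_zero, Complex.sub_im, Complex.sub_re, Complex.mul_im,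
      Complex.mul_re, Complex.I_re, Complex.I_im, Complex.ofReal_re, Complex.ofReal_im]
    linarith
  have hev : ∀ᶠ e : ℝ in nhds (0 : ℝ), 0 < (N ((x : ℂ) + e * Complex.I)).im *
      (D ((x : ℂ) + e * Complex.I)).re -
      (N ((x : ℂ) + e * Complex.I)).re * (D ((x : ℂ) + e * Complex.I)).im :=
    hcont.continuousAt.eventually (lt_mem_nhds h0)
  obtain ⟨e, he, he0⟩ := ((hev.filter_mono nhdsWithin_le_nhds).and
    (self_mem_nhdsWithin : ∀ᶠ e : ℝ in nhdsWithin (0 : ℝ) (Set.Ioi 0), e ∈ Set.Ioi (0 : ℝ))).exists
  have he0' : 0 < e := he0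
  set z : ℂ := (x : ℂ) + e * Complex.I with hz
  have hDz : D z ≠ 0 := by
    intro h0
    rw [h0] at he
    simp at he
  have hn : 0 < Complex.normSq (D z) := Complex.normSq_pos.2 hDz
  refine h z (by simpa [hz] using he0') (N z / D z) Complex.I ?_ (by simp) ?_
  · rw [Complex.div_im, ← sub_div]
    exact div_pos he hn
  · have : N z / D z * D z = N z := div_mul_cancel₀ _ hDz
    simp only [hN, hD] at this ⊢
    linear_combination this

end Pool.Agent.MJ
end

section

/-!
The cone of the products `X² ∏_{k ≠ i, j} (1 + θ k X)`.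
-/

set_option autoImplicit false

namespace Pool.Agent.MJ

open Finset Polynomial
open scoped Classical

/-- The polynomial `F` has only negative roots `-1 / θ i`, and `U` is in the cone of the
products `X² ∏_{k ≠ i, j} (1 + θ k X)`. -/
def Cone2 (F U : ℝ[X]) : Prop :=
  ∃ (n : ℕ) (θ : Fin n → ℝ) (κ : Fin n → Fin n → ℝ), (∀ i, 0 < θ i) ∧ (∀ i j, 0 ≤ κ i j) ∧
    F = C (F.eval 0) * ∏ i, (1 + C (θ i) * X) ∧
    U = ∑ i, ∑ j ∈ univ.erase i, C (κ i j) *
      (X ^ 2 * ∏ k ∈ (univ.erase i).erase j, (1 + C (θ k) * X))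

end Pool.Agent.MJ
end

section

/-!
Symmetric matrices in which every set of indices contains proportional twins: closure properties,
approximation by positive ones, and the partition into three parts.
-/

set_option autoImplicit false
set_option linter.unusedSectionVars false

namespace Pool.Agent.MJ

open Finset
open scoped Classical

variable {K : Type*}

/-- Every subset of `S` with at least two elements contains proportional twins `u, v`:
`om v y = c * om u y` for all other `y` of the subset. -/
def TR (om : K → K → ℝ) (S : Finset K) : Prop :=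
  ∀ T ⊆ S, 1 < T.card → ∃ u ∈ T, ∃ v ∈ T, u ≠ v ∧ ∃ c : ℝ, 0 ≤ c ∧
    ∀ y ∈ T, y ≠ u → y ≠ v → om v y = c * om u y

lemma TR.mono {om : K → K → ℝ} {S T : Finset K} (h : TR om S) (hT : T ⊆ S) : TR om T :=
  fun U hU hc => h U (hU.trans hT) hc

lemma TR.congr {om om' : K → K → ℝ} {S : Finset K} (h : TR om S)
    (he : ∀ i ∈ S, ∀ j ∈ S, i ≠ j → om' i j = om i j) : TR om' S := by
  intro T hT hc
  obtain ⟨u, hu, v, hv, huv, c, hc0, h1⟩ := h T hT hc
  refine ⟨u, hu, v, hv, huv, c, hc0, fun y hy hyu hyv => ?_⟩
  rw [he v (hT hv) y (hT hy) (Ne.symm hyv), he u (hT hu) y (hT hy) (Ne.symm hyu)]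
  exact h1 y hy hyu hyv

/-- Adding a proportional twin. -/
lemma TR.insert {om : K → K → ℝ} (hs : ∀ i j, om i j = om j i) {S : Finset K} (h : TR om S)
    {u v : K} (hu : u ∈ S) (hv : v ∉ S) {c : ℝ} (hc : 0 ≤ c)
    (ht : ∀ y ∈ S, y ≠ u → om v y = c * om u y) : TR om (insert v S) := by
  intro T hT hcard
  have hTS : ∀ y ∈ T, y ≠ v → y ∈ S := fun y hy hyv =>
    (mem_insert.mp (hT hy)).resolve_left hyv
  by_cases hvT : v ∈ T
  · by_cases huT : u ∈ T
    · have huv : u ≠ v := fun e => hv (e ▸ hu)
      exact ⟨u, huT, v, hvT, huv, c, hc, fun y hy hyu hyv => ht y (hTS y hy hyv) hyu⟩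
    · have huv : u ≠ v := fun e => hv (e ▸ hu)
      have hsub : Insert.insert u (T.erase v) ⊆ S := by
        intro y hy
        rcases mem_insert.mp hy with rfl | hy
        · exact hu
        · exact hTS y (mem_of_mem_erase hy) (ne_of_mem_erase hy)
      have hun : u ∉ T.erase v := fun h' => huT (mem_of_mem_erase h')
      have hcard' : 1 < (Insert.insert u (T.erase v)).card := by
        rw [card_insert_of_notMem hun, card_erase_of_mem hvT]
        omega
      obtain ⟨p, hp, q, hq, hpq, c', hc', h1⟩ := h _ hsub hcard'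
      have hin : ∀ y ∈ T, y ≠ v → y ∈ Insert.insert u (T.erase v) := fun y hy hyv =>
        mem_insert_of_mem (mem_erase.mpr ⟨hyv, hy⟩)
      by_cases hpu : p = u
      · subst hpu
        have hq' : q ∈ T.erase v := (mem_insert.mp hq).resolve_left (Ne.symm hpq)
        rcases hc.eq_or_lt with hc0 | hc0
        · refine ⟨q, mem_of_mem_erase hq', v, hvT, ne_of_mem_erase hq', 0, le_refl _,
            fun y hy hyq hyv => ?_⟩
          rw [ht y (hTS y hy hyv) (fun e => huT (e ▸ hy)), ← hc0]
          ring
        · refine ⟨v, hvT, q, mem_of_mem_erase hq', (ne_of_mem_erase hq').symm, c' / c,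
            div_nonneg hc' hc0.le, fun y hy hyv hyq => ?_⟩
          have hyu : y ≠ p := fun e => huT (e ▸ hy)
          rw [h1 y (hin y hy hyv) hyu hyq, ht y (hTS y hy hyv) hyu]
          field_simp
      · have hp' : p ∈ T.erase v := (mem_insert.mp hp).resolve_left hpu
        by_cases hqu : q = u
        · subst hqu
          refine ⟨p, mem_of_mem_erase hp', v, hvT, ne_of_mem_erase hp', c * c',
            mul_nonneg hc hc', fun y hy hyp hyv => ?_⟩
          have hyu : y ≠ q := fun e => huT (e ▸ hy)
          rw [ht y (hTS y hy hyv) hyu, h1 y (hin y hy hyv) hyp hyu]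
          ring
        · have hq' : q ∈ T.erase v := (mem_insert.mp hq).resolve_left hqu
          refine ⟨p, mem_of_mem_erase hp', q, mem_of_mem_erase hq', hpq, c', hc',
            fun y hy hyp hyq => ?_⟩
          by_cases hyv : y = v
          · subst hyv
            have h2 := h1 u (mem_insert_self _ _) (Ne.symm hpu) (Ne.symm hqu)
            have hqS := hTS q (mem_of_mem_erase hq') (ne_of_mem_erase hq')
            have hpS := hTS p (mem_of_mem_erase hp') (ne_of_mem_erase hp')
            rw [hs q y, ht q hqS hqu, hs p y, ht p hpS hpu, hs u q, h2, hs u p]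
            ring
          · exact h1 y (hin y hy hyv) hyp hyq
  · exact h T (fun y hy => hTS y hy (fun e => hvT (e ▸ hy))) hcard

/-- Positive approximation. -/
theorem TR.approx {om : K → K → ℝ} (hs : ∀ i j, om i j = om j i) (ho : ∀ i j, 0 ≤ om i j) :
    ∀ (n : ℕ) (S : Finset K), S.card ≤ n → TR om S →
    ∃ Om : ℕ → K → K → ℝ, (∀ n i j, Om n i j = Om n j i) ∧ (∀ n i j, 0 < Om n i j) ∧
      (∀ n, TR (Om n) S) ∧
      ∀ i ∈ S, ∀ j ∈ S, i ≠ j → Filter.Tendsto (fun n => Om n i j) Filter.atTop (nhds (om i j)) := by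
  intro n
  induction n with
  | zero =>
    intro S hS _
    have hS' : S = ∅ := card_eq_zero.mp (Nat.le_zero.mp hS)
    subst hS'
    refine ⟨fun _ _ _ => 1, fun _ _ _ => rfl, fun _ _ _ => one_pos, ?_, ?_⟩
    · intro _ T hT hc
      rw [subset_empty.mp hT] at hc
      simp at hc
    · intro i hi
      exact absurd hi (notMem_empty i)
  | succ n ih =>
    intro S hS h
    by_cases hc1 : 1 < S.card
    · obtain ⟨u, hu, v, hv, huv, c, hc, ht⟩ := h S (Subset.refl S) hc1
      have hu' : u ∈ S.erase v := mem_erase.mpr ⟨huv, hu⟩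
      obtain ⟨Om, hOs, hOp, hOT, hOl⟩ := ih (S.erase v)
        (by rw [card_erase_of_mem hv]; omega) (h.mono (erase_subset v S))
      set Om' : ℕ → K → K → ℝ := fun n i j =>
        if i = v then (if j = u then om v u + 1 / ((n : ℝ) + 1)
          else (c + 1 / ((n : ℝ) + 1)) * Om n u j)
        else if j = v then (if i = u then om v u + 1 / ((n : ℝ) + 1)
          else (c + 1 / ((n : ℝ) + 1)) * Om n u i)
        else Om n i j with hOm'
      have hpos : ∀ n : ℕ, 0 < 1 / ((n : ℝ) + 1) := fun n => Nat.one_div_pos_of_nat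
      have hlim : Filter.Tendsto (fun n : ℕ => 1 / ((n : ℝ) + 1)) Filter.atTop (nhds 0) :=
        tendsto_one_div_add_atTop_nhds_zero_nat
      have hsym : ∀ n i j, Om' n i j = Om' n j i := by
        intro n i j
        simp only [hOm']
        by_cases hi : i = v
        · by_cases hj : j = v
          · rw [hi, hj]
          · rw [if_pos hi, if_neg hj, if_pos hi]
        · by_cases hj : j = v
          · rw [if_neg hi, if_pos hj, if_pos hj]
          · rw [if_neg hi, if_neg hj, if_neg hj, if_neg hi, hOs]
      have hvu : ∀ n, Om' n v u = om v u + 1 / ((n : ℝ) + 1) := by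
        intro n
        show (if v = v then _ else _) = _
        rw [if_pos rfl, if_pos rfl]
      have hvy : ∀ n y, y ≠ u → Om' n v y = (c + 1 / ((n : ℝ) + 1)) * Om n u y := by
        intro n y hy
        show (if v = v then _ else _) = _
        rw [if_pos rfl, if_neg hy]
      have hij : ∀ n i j, i ≠ v → j ≠ v → Om' n i j = Om n i j := by
        intro n i j hi hj
        simp only [hOm']
        rw [if_neg hi, if_neg hj]
      refine ⟨Om', hsym, ?_, ?_, ?_⟩
      · intro n i j
        have h1 : 0 < om v u + 1 / ((n : ℝ) + 1) := by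
          have := ho v u
          have := hpos n
          linarith
        have h2 : 0 < c + 1 / ((n : ℝ) + 1) := by
          have := hpos n
          linarith
        simp only [hOm']
        split_ifs
        · exact h1
        · exact mul_pos h2 (hOp _ _ _)
        · exact h1
        · exact mul_pos h2 (hOp _ _ _)
        · exact hOp _ _ _
      · intro n
        have h1 : TR (Om' n) (S.erase v) := (hOT n).congr fun i hi j hj _ =>
          hij n i j (ne_of_mem_erase hi) (ne_of_mem_erase hj)
        have h2 := h1.insert (hsym n) hu' (notMem_erase v S)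
          (c := c + 1 / ((n : ℝ) + 1)) (by have := hpos n; linarith)
          (fun y hy hyu => by
            rw [hvy n y hyu, hij n u y huv (ne_of_mem_erase hy)])
        rwa [insert_erase hv] at h2
      · have key : ∀ y ∈ S, y ≠ v →
            Filter.Tendsto (fun n => Om' n v y) Filter.atTop (nhds (om v y)) := by
          intro y hy hyv
          by_cases hyu : y = u
          · subst hyu
            simp only [hvu]
            simpa using (tendsto_const_nhds (x := om v y)).add hlim
          · have h1 : (fun n => Om' n v y) = fun n : ℕ => (c + 1 / ((n : ℝ) + 1)) * Om n u y :=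
              funext fun n => hvy n y hyu
            rw [h1, ht y hy hyu hyv]
            refine Filter.Tendsto.mul ?_ (hOl u hu' y (mem_erase.mpr ⟨hyv, hy⟩) (Ne.symm hyu))
            simpa using (tendsto_const_nhds (x := c)).add hlim
        intro i hi j hj hne
        by_cases hiv : i = v
        · subst hiv
          exact key j hj (Ne.symm hne)
        · by_cases hjv : j = v
          · subst hjv
            simp only [hsym _ i j]
            rw [hs i j]
            exact key i hi hiv
          · simp only [hij _ i j hiv hjv]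
            exact hOl i (mem_erase.mpr ⟨hiv, hi⟩) j (mem_erase.mpr ⟨hjv, hj⟩) hne
    · refine ⟨fun _ _ _ => 1, fun _ _ _ => rfl, fun _ _ _ => one_pos, ?_, ?_⟩
      · intro _ T hT hc
        exact absurd (lt_of_lt_of_le hc (card_le_card hT)) hc1
      · intro i hi j hj hne
        exact absurd (Finset.one_lt_card.mpr ⟨i, hi, j, hj, hne⟩) hc1

/-- The partition into three parts around two of at least three marked indices. -/
theorem TR.tri {om : K → K → ℝ} (hs : ∀ i j, om i j = om j i) (hpos : ∀ i j, 0 < om i j) :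
    ∀ (n : ℕ) (S : Finset K), S.card ≤ n → TR om S → ∀ Q ⊆ S, 3 ≤ Q.card →
    ∃ p ∈ Q, ∃ q ∈ Q, p ≠ q ∧ ∃ (k : K → Fin 3) (m : K → ℝ), (∀ i, 0 < m i) ∧ k p = 0 ∧
      k q = 1 ∧ (∀ r ∈ Q, r ≠ p → r ≠ q → k r = 2) ∧
      ∀ i ∈ S, ∀ j ∈ S, k i ≠ k j → om i j = m i * m j := by
  intro n
  induction n with
  | zero =>
    intro S hS _ Q hQ hc
    have := card_le_card hQ
    omega
  | succ n ih =>
    intro S hS h Q hQ hQ3
    have hS3 : 3 ≤ S.card := hQ3.trans (card_le_card hQ)
    obtain ⟨u, hu, v, hv, huv, c, hc0, ht⟩ := h S (Subset.refl S) (by omega)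
    have hcard : (S.erase v).card ≤ n := by
      rw [card_erase_of_mem hv]
      omega
    have hu' : u ∈ S.erase v := mem_erase.mpr ⟨huv, hu⟩
    -- the factor is positive
    have hc : 0 < c := by
      have h1 : 0 < ((S.erase v).erase u).card := by
        rw [card_erase_of_mem hu', card_erase_of_mem hv]
        omega
      obtain ⟨y, hy⟩ := card_pos.mp h1
      have hyu := ne_of_mem_erase hy
      have hyv := ne_of_mem_erase (mem_of_mem_erase hy)
      have hyS := mem_of_mem_erase (mem_of_mem_erase hy)
      have h2 := ht y hyS hyu hyv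
      rcases hc0.eq_or_lt with h3 | h3
      · rw [← h3, zero_mul] at h2
        exact absurd h2 (hpos v y).ne'
      · exact h3
    -- extension of a partition to `v`
    have ext : ∀ (k : K → Fin 3) (m : K → ℝ), (∀ i, 0 < m i) →
        (∀ i ∈ S.erase v, ∀ j ∈ S.erase v, k i ≠ k j → om i j = m i * m j) →
        (∀ i, 0 < Function.update m v (c * m u) i) ∧
        ∀ i ∈ S, ∀ j ∈ S, Function.update k v (k u) i ≠ Function.update k v (k u) j →
          om i j = Function.update m v (c * m u) i * Function.update m v (c * m u) j := by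
      intro k m hm hk
      have key : ∀ j ∈ S, k u ≠ Function.update k v (k u) j →
          om v j = Function.update m v (c * m u) v * Function.update m v (c * m u) j := by
        intro j hj hne
        by_cases hjv : j = v
        · subst hjv
          rw [Function.update_self] at hne
          exact absurd rfl hne
        rw [Function.update_of_ne hjv] at hne
        rw [Function.update_self, Function.update_of_ne hjv]
        have hju : j ≠ u := by
          rintro rfl
          exact hne rfl
        rw [ht j hj hju hjv, hk u hu' j (mem_erase.mpr ⟨hjv, hj⟩) hne]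
        ring
      refine ⟨fun i => ?_, fun i hi j hj hne => ?_⟩
      · by_cases hi : i = v
        · rw [hi, Function.update_self]
          exact mul_pos hc (hm u)
        · rw [Function.update_of_ne hi]
          exact hm i
      · by_cases hiv : i = v
        · subst hiv
          rw [Function.update_self] at hne
          exact key j hj hne
        · by_cases hjv : j = v
          · subst hjv
            rw [Function.update_self] at hne
            rw [hs i j, key i hi (Ne.symm hne), mul_comm]
          · rw [Function.update_of_ne hiv, Function.update_of_ne hjv] at hne ⊢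
            exact hk i (mem_erase.mpr ⟨hiv, hi⟩) j (mem_erase.mpr ⟨hjv, hj⟩) hne
    by_cases hvQ : v ∈ Q
    · by_cases huQ : u ∈ Q
      · -- both twins are marked
        set t : ℝ := om u v with ht0
        have htp : 0 < t := hpos u v
        refine ⟨v, hvQ, u, huQ, Ne.symm huv, fun i => if i = v then 0 else if i = u then 1 else 2,
          fun i => if i = v then Real.sqrt (t * c) else if i = u then Real.sqrt (t / c)
            else Real.sqrt (c / t) * om u i, ?_, ?_, ?_, ?_, ?_⟩
        · intro i
          dsimp only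
          split_ifs
          · exact Real.sqrt_pos.mpr (mul_pos htp hc)
          · exact Real.sqrt_pos.mpr (div_pos htp hc)
          · exact mul_pos (Real.sqrt_pos.mpr (div_pos hc htp)) (hpos _ _)
        · simp
        · simp [huv]
        · intro r _ h1 h2
          simp [h1, h2]
        · have e1 : Real.sqrt (t * c) * Real.sqrt (t / c) = t := by
            rw [← Real.sqrt_mul (mul_pos htp hc).le]
            rw [show t * c * (t / c) = t * t by field_simp]
            exact Real.sqrt_mul_self htp.le
          have e2 : Real.sqrt (t * c) * Real.sqrt (c / t) = c := by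
            rw [← Real.sqrt_mul (mul_pos htp hc).le]
            rw [show t * c * (c / t) = c * c by field_simp]
            exact Real.sqrt_mul_self hc.le
          have e3 : Real.sqrt (t / c) * Real.sqrt (c / t) = 1 := by
            rw [← Real.sqrt_mul (div_pos htp hc).le]
            rw [show t / c * (c / t) = 1 by field_simp]
            exact Real.sqrt_one
          have kvu : om v u = Real.sqrt (t * c) * Real.sqrt (t / c) := by
            rw [e1, hs v u]
          have kvy : ∀ y ∈ S, y ≠ v → y ≠ u → om v y =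
              Real.sqrt (t * c) * (Real.sqrt (c / t) * om u y) := by
            intro y hy hyv hyu
            rw [← mul_assoc, e2]
            exact ht y hy hyu hyv
          have kuy : ∀ y, om u y = Real.sqrt (t / c) * (Real.sqrt (c / t) * om u y) := by
            intro y
            rw [← mul_assoc, e3, one_mul]
          intro i hi j hj hne
          dsimp only at hne ⊢
          by_cases hiv : i = v
          · by_cases hjv : j = v
            · rw [hiv, hjv] at hne
              exact absurd rfl hne
            · by_cases hju : j = u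
              · simp only [hiv, hju, if_true, if_neg huv]
                exact kvu
              · simp only [hiv, if_true, if_neg hjv, if_neg hju]
                exact kvy j hj hjv hju
          · by_cases hjv : j = v
            · by_cases hiu : i = u
              · simp only [hjv, hiu, if_true, if_neg huv]
                rw [hs u v, kvu, mul_comm]
              · simp only [hjv, if_true, if_neg hiv, if_neg hiu]
                rw [hs i v, kvy i hi hiv hiu, mul_comm]
            · by_cases hiu : i = u
              · by_cases hju : j = u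
                · rw [hiu, hju] at hne
                  exact absurd rfl hne
                · simp only [hiu, if_neg huv, if_true, if_neg hjv, if_neg hju]
                  exact kuy j
              · by_cases hju : j = u
                · simp only [hju, if_neg huv, if_true, if_neg hiv, if_neg hiu]
                  rw [hs i u]
                  conv_lhs => rw [kuy i]
                  rw [mul_comm]
                · simp only [if_neg hiv, if_neg hjv, if_neg hiu, if_neg hju] at hne
                  exact absurd rfl hne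
      · -- only `v` is marked: take `u` instead
        have huE : u ∉ Q.erase v := fun h' => huQ (mem_of_mem_erase h')
        obtain ⟨p, hp, q, hq, hpq, k, m, hm, hkp, hkq, hkr, hkm⟩ := ih (S.erase v) hcard
          (h.mono (erase_subset v S)) (Insert.insert u (Q.erase v))
          (by
            intro y hy
            rcases mem_insert.mp hy with rfl | hy
            · exact hu'
            · exact mem_erase.mpr ⟨ne_of_mem_erase hy, hQ (mem_of_mem_erase hy)⟩)
          (by
            rw [card_insert_of_notMem huE, card_erase_of_mem hvQ]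
            omega)
        obtain ⟨hm', hkm'⟩ := ext k m hm hkm
        have hmem : ∀ y ∈ Insert.insert u (Q.erase v), y ≠ u → y ∈ Q ∧ y ≠ v := by
          intro y hy hyu
          have := (mem_insert.mp hy).resolve_left hyu
          exact ⟨mem_of_mem_erase this, ne_of_mem_erase this⟩
        have hkv : ∀ y, y ≠ v → Function.update k v (k u) y = k y := fun y hy =>
          Function.update_of_ne hy _ _
        have hkvv : Function.update k v (k u) v = k u := Function.update_self _ _ _
        by_cases hpu : p = u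
        · subst hpu
          obtain ⟨hqQ, hqv⟩ := hmem q hq (Ne.symm hpq)
          refine ⟨v, hvQ, q, hqQ, Ne.symm hqv, _, _, hm', ?_, ?_, ?_, hkm'⟩
          · rw [hkvv, hkp]
          · rw [hkv q hqv, hkq]
          · intro r hr hrv hrq
            rw [hkv r hrv]
            exact hkr r (mem_insert_of_mem (mem_erase.mpr ⟨hrv, hr⟩))
              (fun e => huQ (e ▸ hr)) hrq
        · obtain ⟨hpQ, hpv⟩ := hmem p hp hpu
          by_cases hqu : q = u
          · subst hqu
            refine ⟨p, hpQ, v, hvQ, hpv, _, _, hm', ?_, ?_, ?_, hkm'⟩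
            · rw [hkv p hpv, hkp]
            · rw [hkvv, hkq]
            · intro r hr hrp hrv
              rw [hkv r hrv]
              exact hkr r (mem_insert_of_mem (mem_erase.mpr ⟨hrv, hr⟩)) hrp
                (fun e => huQ (e ▸ hr))
          · obtain ⟨hqQ, hqv⟩ := hmem q hq hqu
            refine ⟨p, hpQ, q, hqQ, hpq, _, _, hm', ?_, ?_, ?_, hkm'⟩
            · rw [hkv p hpv, hkp]
            · rw [hkv q hqv, hkq]
            · intro r hr hrp hrq
              by_cases hrv : r = v
              · subst hrv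
                rw [hkvv]
                exact hkr u (mem_insert_self _ _) (Ne.symm hpu) (Ne.symm hqu)
              · rw [hkv r hrv]
                exact hkr r (mem_insert_of_mem (mem_erase.mpr ⟨hrv, hr⟩)) hrp hrq
    · -- `v` is not marked
      obtain ⟨p, hp, q, hq, hpq, k, m, hm, hkp, hkq, hkr, hkm⟩ := ih (S.erase v) hcard
        (h.mono (erase_subset v S)) Q
        (fun y hy => mem_erase.mpr ⟨fun e => hvQ (e ▸ hy), hQ hy⟩) hQ3
      obtain ⟨hm', hkm'⟩ := ext k m hm hkm
      have hkv : ∀ y ∈ Q, Function.update k v (k u) y = k y := fun y hy =>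
        Function.update_of_ne (fun e : y = v => hvQ (e ▸ hy)) _ _
      refine ⟨p, hp, q, hq, hpq, _, _, hm', ?_, ?_, ?_, hkm'⟩
      · rw [hkv p hp, hkp]
      · rw [hkv q hq, hkq]
      · intro r hr hrp hrq
        rw [hkv r hr]
        exact hkr r hr hrp hrq

end Pool.Agent.MJ
end

section

/-!
Reducible weights (every set of vertices contains proportional twins), in terms of `Sym2`.
-/

set_option autoImplicit false
set_option linter.unusedSectionVars false

namespace Pool.Agent.MJ

open Finset
open scoped Classical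

variable {K : Type*}

/-- Every set of at least two vertices contains proportional twins. -/
def Red (T : Sym2 K → ℝ) : Prop :=
  ∀ S : Finset K, 1 < S.card → ∃ u ∈ S, ∃ v ∈ S, u ≠ v ∧ ∃ c : ℝ, 0 ≤ c ∧
    ∀ y ∈ S, y ≠ u → y ≠ v → T s(v, y) = c * T s(u, y)

lemma Red.tr {T : Sym2 K → ℝ} (h : Red T) (S : Finset K) : TR (fun i j => T s(i, j)) S :=
  fun T _ hT => h T hT

theorem Red.approx [Fintype K] {T : Sym2 K → ℝ} (h : Red T) (hT : ∀ g, 0 ≤ T g) :
    ∃ U : ℕ → Sym2 K → ℝ, (∀ n, Red (U n)) ∧ (∀ n g, 0 < U n g) ∧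
      ∀ g, Filter.Tendsto (fun n => U n g) Filter.atTop (nhds (T g)) := by
  obtain ⟨Om, hOs, hOp, hOT, hOl⟩ := TR.approx (om := fun i j => T s(i, j))
    (fun i j => by rw [Sym2.eq_swap]) (fun i j => hT _) _ (univ : Finset K) (le_refl _) (h.tr univ)
  have hpos : ∀ n : ℕ, 0 < 1 / ((n : ℝ) + 1) := fun n => Nat.one_div_pos_of_nat
  refine ⟨fun n g => if g.IsDiag then T g + 1 / ((n : ℝ) + 1)
    else Sym2.lift ⟨Om n, hOs n⟩ g, ?_, ?_, ?_⟩
  · intro n S hS
    obtain ⟨u, hu, v, hv, huv, c, hc, h1⟩ := hOT n S (subset_univ S) hS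
    refine ⟨u, hu, v, hv, huv, c, hc, fun y hy hyu hyv => ?_⟩
    dsimp only
    rw [if_neg (by simpa using Ne.symm hyv), if_neg (by simpa using Ne.symm hyu), Sym2.lift_mk,
      Sym2.lift_mk]
    exact h1 y hy hyu hyv
  · intro n g
    dsimp only
    split_ifs with hg
    · have := hT g
      have := hpos n
      linarith
    · induction g using Sym2.ind with
      | _ u v =>
        rw [Sym2.lift_mk]
        exact hOp n u v
  · intro g
    by_cases hg : g.IsDiag
    · simp only [if_pos hg]
      simpa using (tendsto_const_nhds (x := T g)).add tendsto_one_div_add_atTop_nhds_zero_nat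
    · simp only [if_neg hg]
      induction g using Sym2.ind with
      | _ u v =>
        simp only [Sym2.lift_mk]
        exact hOl u (mem_univ u) v (mem_univ v) (by simpa using hg)

/-- Two of at least three marked vertices in two parts, the other marked vertices in the third
part. -/
theorem Red.pair [Fintype K] {T : Sym2 K → ℝ} (h : Red T) (hT : ∀ g, 0 < T g) (Q : Finset K)
    (hQ : 3 ≤ Q.card) :
    ∃ p ∈ Q, ∃ q ∈ Q, p ≠ q ∧ ∃ (k : K → Fin 3) (m : K → ℝ), (∀ v, 0 < m v) ∧
      (∀ u v, k u ≠ k v → T s(u, v) = m u * m v) ∧ k p = 0 ∧ k q = 1 ∧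
      ∀ r ∈ Q, r ≠ p → r ≠ q → k r = 2 := by
  obtain ⟨p, hp, q, hq, hpq, k, m, hm, hkp, hkq, hkr, hkm⟩ :=
    TR.tri (om := fun i j => T s(i, j)) (fun i j => by rw [Sym2.eq_swap]) (fun i j => hT _)
      _ (univ : Finset K) (le_refl _) (h.tr univ) Q (subset_univ Q) hQ
  exact ⟨p, hp, q, hq, hpq, k, m, hm, fun u v huv => hkm u (mem_univ u) v (mem_univ v) huv,
    hkp, hkq, hkr⟩

lemma relabel {T : Sym2 K → ℝ} {k : K → Fin 3} {m : K → ℝ}
    (hk : ∀ u v, k u ≠ k v → T s(u, v) = m u * m v) {a b : K} (hab : k a ≠ k b) :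
    ∃ k' : K → Fin 3, (∀ u v, k' u ≠ k' v → T s(u, v) = m u * m v) ∧ k' a = 0 ∧ k' b = 1 ∧
      ∀ c, k c ≠ k a → k c ≠ k b → k' c = 2 := by
  refine ⟨fun i => if k i = k a then 0 else if k i = k b then 1 else 2, ?_, ?_, ?_, ?_⟩
  · intro u v huv
    refine hk u v fun e => huv ?_
    dsimp only
    rw [e]
  · simp
  · simp [Ne.symm hab]
  · intro c h1 h2
    simp [h1, h2]

theorem Red.tri [Fintype K] {T : Sym2 K → ℝ} (h : Red T) (hT : ∀ g, 0 < T g) {p q r : K}
    (hpq : p ≠ q) (hpr : p ≠ r) (hqr : q ≠ r) :
    ∃ (k : K → Fin 3) (m : K → ℝ), (∀ v, 0 < m v) ∧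
      (∀ u v, k u ≠ k v → T s(u, v) = m u * m v) ∧ k p = 0 ∧ k q = 1 ∧ k r = 2 := by
  have hQ : 3 ≤ ({p, q, r} : Finset K).card := by
    rw [card_eq_three.mpr ⟨p, q, r, hpq, hpr, hqr, rfl⟩]
  obtain ⟨a, ha, b, hb, hab, k, m, hm, hk, hka, hkb, hkc⟩ := h.pair hT {p, q, r} hQ
  have hdis : k p ≠ k q ∧ k p ≠ k r ∧ k q ≠ k r := by
    have h3 : ∀ c ∈ ({p, q, r} : Finset K), c = a ∨ c = b ∨ k c = 2 := by
      intro c hc
      by_cases h1 : c = a
      · exact Or.inl h1
      · by_cases h2 : c = b
        · exact Or.inr (Or.inl h2)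
        · exact Or.inr (Or.inr (hkc c hc h1 h2))
    simp only [mem_insert, mem_singleton] at ha hb
    rcases ha with rfl | rfl | rfl <;> rcases hb with rfl | rfl | rfl
    · exact absurd rfl hab
    · have := hkc r (by simp) (Ne.symm hpr) (Ne.symm hqr)
      rw [hka, hkb, this]
      decide
    · have := hkc q (by simp) (Ne.symm hpq) hqr
      rw [hka, hkb, this]
      decide
    · have := hkc r (by simp) (Ne.symm hqr) (Ne.symm hpr)
      rw [hka, hkb, this]
      decide
    · exact absurd rfl hab
    · have := hkc p (by simp) hpq hpr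
      rw [hka, hkb, this]
      decide
    · have := hkc q (by simp) hqr (Ne.symm hpq)
      rw [hka, hkb, this]
      decide
    · have := hkc p (by simp) hpr hpq
      rw [hka, hkb, this]
      decide
    · exact absurd rfl hab
  obtain ⟨k', h1, h2, h3, h4⟩ := relabel hk hdis.1
  exact ⟨k', m, hm, h1, h2, h3, h4 r (Ne.symm hdis.2.1) (Ne.symm hdis.2.2)⟩

theorem Red.quad [Fintype K] {T : Sym2 K → ℝ} (h : Red T) (hT : ∀ g, 0 < T g) {p q r s : K}
    (hpq : p ≠ q) (hpr : p ≠ r) (hps : p ≠ s) (hqr : q ≠ r) (hqs : q ≠ s) (hrs : r ≠ s) :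
    ∃ (k : K → Fin 3) (m : K → ℝ), (∀ v, 0 < m v) ∧
      (∀ u v, k u ≠ k v → T s(u, v) = m u * m v) ∧
      ((k p = 0 ∧ k q = 1 ∧ k r = 2 ∧ k s = 2) ∨ (k r = 0 ∧ k s = 1 ∧ k p = 2 ∧ k q = 2) ∨
        (k p = 0 ∧ k r = 1 ∧ k q = 2 ∧ k s = 2) ∨ (k q = 0 ∧ k s = 1 ∧ k p = 2 ∧ k r = 2) ∨
        (k p = 0 ∧ k s = 1 ∧ k q = 2 ∧ k r = 2) ∨ (k q = 0 ∧ k r = 1 ∧ k p = 2 ∧ k s = 2)) := by
  have hQ : 3 ≤ ({p, q, r, s} : Finset K).card := by
    have h1 : ({p, q, r} : Finset K).card = 3 :=
      card_eq_three.mpr ⟨p, q, r, hpq, hpr, hqr, rfl⟩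
    rw [← h1]
    refine card_le_card ?_
    intro y hy
    simp only [mem_insert, mem_singleton] at hy ⊢
    tauto
  obtain ⟨a, ha, b, hb, hab, k, m, hm, hk, hka, hkb, hkc⟩ := h.pair hT {p, q, r, s} hQ
  have hne : ∀ c, c ∈ ({p, q, r, s} : Finset K) → c ≠ a → c ≠ b → k c ≠ k a ∧ k c ≠ k b := by
    intro c hc h1 h2
    rw [hkc c hc h1 h2, hka, hkb]
    decide
  have hkab : k a ≠ k b := by
    rw [hka, hkb]
    decide
  obtain ⟨k1, h11, h12, h13, h14⟩ := relabel hk hkab
  obtain ⟨k2, h21, h22, h23, h24⟩ := relabel hk (Ne.symm hkab)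
  have key1 : ∀ c, c ∈ ({p, q, r, s} : Finset K) → c ≠ a → c ≠ b → k1 c = 2 := by
    intro c hc h1 h2
    exact h14 c (hne c hc h1 h2).1 (hne c hc h1 h2).2
  have key2 : ∀ c, c ∈ ({p, q, r, s} : Finset K) → c ≠ a → c ≠ b → k2 c = 2 := by
    intro c hc h1 h2
    exact h24 c (hne c hc h1 h2).2 (hne c hc h1 h2).1
  have ha' := ha
  have hb' := hb
  simp only [mem_insert, mem_singleton] at ha' hb'
  rcases ha' with rfl | rfl | rfl | rfl <;> rcases hb' with rfl | rfl | rfl | rfl
  · exact absurd rfl hab
  · exact ⟨k1, m, hm, h11, Or.inl ⟨h12, h13, key1 r (by simp) (Ne.symm hpr) (Ne.symm hqr),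
      key1 s (by simp) (Ne.symm hps) (Ne.symm hqs)⟩⟩
  · exact ⟨k1, m, hm, h11, Or.inr (Or.inr (Or.inl ⟨h12, h13,
      key1 q (by simp) (Ne.symm hpq) hqr, key1 s (by simp) (Ne.symm hps) (Ne.symm hrs)⟩))⟩
  · exact ⟨k1, m, hm, h11, Or.inr (Or.inr (Or.inr (Or.inr (Or.inl ⟨h12, h13,
      key1 q (by simp) (Ne.symm hpq) hqs, key1 r (by simp) (Ne.symm hpr) hrs⟩))))⟩
  · exact ⟨k2, m, hm, h21, Or.inl ⟨h22, h23, key2 r (by simp) (Ne.symm hqr) (Ne.symm hpr),
      key2 s (by simp) (Ne.symm hqs) (Ne.symm hps)⟩⟩
  · exact absurd rfl hab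
  · exact ⟨k1, m, hm, h11, Or.inr (Or.inr (Or.inr (Or.inr (Or.inr ⟨h12, h13,
      key1 p (by simp) hpq hpr, key1 s (by simp) (Ne.symm hqs) (Ne.symm hrs)⟩))))⟩
  · exact ⟨k1, m, hm, h11, Or.inr (Or.inr (Or.inr (Or.inl ⟨h12, h13,
      key1 p (by simp) hpq hps, key1 r (by simp) (Ne.symm hqr) hrs⟩)))⟩
  · exact ⟨k2, m, hm, h21, Or.inr (Or.inr (Or.inl ⟨h22, h23,
      key2 q (by simp) hqr (Ne.symm hpq), key2 s (by simp) (Ne.symm hrs) (Ne.symm hps)⟩))⟩
  · exact ⟨k2, m, hm, h21, Or.inr (Or.inr (Or.inr (Or.inr (Or.inr ⟨h22, h23,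
      key2 p (by simp) hpr hpq, key2 s (by simp) (Ne.symm hrs) (Ne.symm hqs)⟩))))⟩
  · exact absurd rfl hab
  · exact ⟨k1, m, hm, h11, Or.inr (Or.inl ⟨h12, h13, key1 p (by simp) hpr hps,
      key1 q (by simp) hqr hqs⟩)⟩
  · exact ⟨k2, m, hm, h21, Or.inr (Or.inr (Or.inr (Or.inr (Or.inl ⟨h22, h23,
      key2 q (by simp) hqs (Ne.symm hpq), key2 r (by simp) hrs (Ne.symm hpr)⟩))))⟩
  · exact ⟨k2, m, hm, h21, Or.inr (Or.inr (Or.inr (Or.inl ⟨h22, h23,
      key2 p (by simp) hps hpq, key2 r (by simp) hrs (Ne.symm hqr)⟩)))⟩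
  · exact ⟨k2, m, hm, h21, Or.inr (Or.inl ⟨h22, h23, key2 p (by simp) hps hpr,
      key2 q (by simp) hqs hqr⟩)⟩
  · exact absurd rfl hab

end Pool.Agent.MJ
end
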