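import Mathlib
import Pool.Agent.Lib.MP_d90615_co.Mg.G003
import Pool.Agent.Lib.MP_d90615_co.Mg.G008

section

/-!
Adding product weights to a graph with signed weights.
-/

set_option autoImplicit false
set_option linter.unusedSectionVars false

namespace Pool.Agent.MJ

open Finset Polynomial
open scoped Classical
open Pool.Agent.PW (Z N N2 Ray cw pw mv ct)

variable {V : Type*} [Fintype V]

/-- `t` at `a`. -/
noncomputable def dl (a : V) (t : ℝ) (v : V) : ℝ := if v = a then t else 0

lemma star' (W : Sym2 V → ℝ) (z : V → ℝ) (a : V) (t : ℝ) :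
    Zs W (fun v => z v + dl a t v) = Zs W z + t * Gs W z a := by
  rw [← Zs_star]
  congr 1
  funext v
  unfold dl
  by_cases h : v = a
  · subst h
    rw [if_pos rfl, Function.update_self]
  · rw [if_neg h, Function.update_of_ne h, add_zero]

lemma mv_line {b c : V} (hbc : b ≠ c) (x : V → ℝ) (a : V) (μ t : ℝ) (v : V) :
    mv (fun v => μ * x v + dl a t v) b c v =
      μ * mv x b c v + dl (if a = c then b else a) t v := by
  unfold mv dl
  beta_reduce
  by_cases hv : v = c
  · subst hv
    rw [if_pos rfl, if_pos rfl]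
    by_cases ha : a = v
    · rw [if_pos ha, if_neg (Ne.symm hbc)]
      ring
    · rw [if_neg ha, if_neg (Ne.symm ha)]
      ring
  · rw [if_neg hv, if_neg hv]
    by_cases hb : v = b
    · subst hb
      rw [if_pos rfl, if_pos rfl]
      by_cases ha : a = c
      · subst ha
        rw [if_neg hbc, if_pos rfl, if_pos rfl, if_pos rfl]
        ring
      · rw [if_neg (Ne.symm ha), if_neg ha]
        ring
    · rw [if_neg hb, if_neg hb]
      by_cases ha : a = c
      · subst ha
        rw [if_neg hv, if_pos rfl, if_neg hb]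
      · rw [if_neg ha]

lemma Z_pw_Lam (x : V → ℝ) (h : V) : Z (pw x) = Lam (∑ v, x v) (∏ v, (1 + C (x v) * X)) := by
  rw [Lam_prod x h]
  exact Pool.Agent.PW.Z_pw x h

lemma prod_deriv_zero (x : V → ℝ) :
    (derivative (∏ v, (1 + C (x v) * X))).eval 0 = ∑ v, x v := by
  rw [derivative_prod_finset, eval_finsetSum]
  refine Finset.sum_congr rfl fun v _ => ?_
  rw [eval_mul, eval_prod]
  simp

/-- mass `l` at the hub -/
def xo (x : V → ℝ) (l : ℝ) : Option V → ℝ
  | none => l
  | some v => x v

lemma St_pw (x : V → ℝ) (l : ℝ) (g : Sym2 (Option V)) (hg : ¬ g.IsDiag) :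
    pw (xo x l) g = St (pw x) (fun v => l * x v) g := by
  refine St_ext (fun u v _ => rfl) (fun v => rfl) g hg

lemma sum_xo (x : V → ℝ) (l : ℝ) : ∑ v, xo x l v = ∑ v, x v + l := by
  rw [Fintype.sum_option, add_comm]
  rfl

lemma Zs_pw (x : V → ℝ) (l : ℝ) :
    Zs (pw x) (fun v => l * x v) =
      Lam (∑ v, x v + l) ((1 + C l * X) * ∏ v, (1 + C (x v) * X)) := by
  unfold Zs
  rw [← Pool.Agent.PW.Z_congr fun g hg => St_pw x l g hg, Z_pw_Lam _ none, sum_xo,
    Fintype.prod_option]
  rfl

lemma Gs_pw (x : V → ℝ) (l : ℝ) (a : V) :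
    Gs (pw x) (fun v => l * x v) a =
      Lam (∑ v, x v + l) ((1 + C (x a + l) * X) * ∏ v ∈ univ.erase a, (1 + C (x v) * X)) := by
  unfold Gs
  have h1 : (none : Option V) ≠ some a := by simp
  rw [← Pool.Agent.PW.N_congr fun g hg _ => St_pw x l g hg, Pool.Agent.PW.N_pw h1,
    Z_pw_Lam _ none, Pool.Agent.PW.sum_mv _ h1, sum_xo, Fintype.prod_option]
  congr 1
  have h2 : mv (xo x l) none (some a) none = x a + l := by
    unfold mv
    rw [if_neg h1, if_pos rfl]
    exact add_comm _ _
  rw [h2]
  congr 1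
  rw [← Finset.mul_prod_erase univ _ (mem_univ a)]
  have h3 : mv (xo x l) none (some a) (some a) = 0 := by
    unfold mv
    rw [if_pos rfl]
  rw [h3, C_0, zero_mul, add_zero, one_mul]
  refine Finset.prod_congr rfl fun v hv => ?_
  rw [Finset.mem_erase] at hv
  have h4 : mv (xo x l) none (some a) (some v) = x v := by
    unfold mv
    rw [if_neg (by simpa using hv.1), if_neg (by simp)]
    rfl
  rw [h4]

lemma main_aux (n : ℕ) : ∀ (W : Sym2 V → ℝ) (x : V → ℝ) (a : V), supp W = n →
    ∃ p g : ℝ[X],
      (∀ μ t, Zs W (fun v => μ * x v + dl a t v) = p.eval μ + t * g.eval μ) ∧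
      (derivative p).eval 0 = (∑ v, x v) * p.eval 0 ∧
      Z (fun g => W g + pw x g) = Lam (∑ v, x v) p ∧
      ∀ l t, Zs (fun g => W g + pw x g) (fun v => l * x v + dl a t v) =
        Lam (∑ v, x v + l) ((1 + C l * X) * p) + t * Lam (∑ v, x v + l) (p + C l * X * g) := by
  induction n using Nat.strong_induction_on with
  | _ n ih =>
    intro W x a hn
    by_cases hW : ∀ g, ¬ g.IsDiag → W g = 0
    · -- no weights
      refine ⟨∏ v, (1 + C (x v) * X), ∏ v ∈ univ.erase a, (1 + C (x v) * X), ?_, ?_, ?_, ?_⟩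
      · intro μ t
        rw [Zs_congr2 (W' := fun _ => 0) hW (fun _ => rfl), Zs_zero, eval_prod, eval_prod,
          ← Finset.mul_prod_erase univ _ (mem_univ a),
          ← Finset.mul_prod_erase univ (fun v => (1 + C (x v) * X : ℝ[X]).eval μ) (mem_univ a)]
        have h1 : ∏ v ∈ univ.erase a, (1 + (μ * x v + dl a t v)) =
            ∏ v ∈ univ.erase a, (1 + C (x v) * X : ℝ[X]).eval μ := by
          refine Finset.prod_congr rfl fun v hv => ?_
          rw [Finset.mem_erase] at hv
          unfold dl
          rw [if_neg hv.1]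
          simp
          ring
        rw [h1]
        unfold dl
        rw [if_pos rfl]
        simp
        ring
      · rw [prod_deriv_zero, eval_prod]
        simp
      · rw [← Z_pw_Lam x a]
        refine Pool.Agent.PW.Z_congr fun g hg => ?_
        rw [hW g hg, zero_add]
      · intro l t
        have h1 : ∀ z : V → ℝ, Zs (fun g => W g + pw x g) z = Zs (pw x) z := fun z =>
          Zs_congr2 (fun g hg => by rw [hW g hg, zero_add]) fun _ => rfl
        rw [h1, star', Zs_pw, Gs_pw]
        congr 3
        rw [← Finset.mul_prod_erase univ _ (mem_univ a), C_add]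
        ring
    · push Not at hW
      obtain ⟨g0, hg0, hWg⟩ := hW
      induction g0 using Sym2.ind with
      | _ b c =>
        have hbc : b ≠ c := by
          rw [Sym2.mk_isDiag_iff] at hg0
          exact hg0
        have hW0 : Function.update W s(b, c) 0 s(b, c) = 0 := Function.update_self _ _ _
        obtain ⟨p0, g0, h01, h02, h03, h04⟩ := ih _ (by rw [← hn]; exact supp_update hg0 hWg)
          (Function.update W s(b, c) 0) x a rfl
        obtain ⟨p1, g1, h11, h12, h13, h14⟩ := ih _ (by rw [← hn]; exact supp_cw hbc hWg)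
          (cw b c W) (mv x b c) (if a = c then b else a) rfl
        rw [Pool.Agent.PW.sum_mv x hbc] at h12 h13
        -- the weights with `pw x`
        have hup : ∀ g, Function.update (fun g => W g + pw x g) s(b, c) (pw x s(b, c)) g =
            (fun g => Function.update W s(b, c) 0 g + pw x g) g := by
          intro g
          by_cases h : g = s(b, c)
          · subst h
            rw [Function.update_self]
            beta_reduce
            rw [Function.update_self, zero_add]
          · rw [Function.update_of_ne h]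
            beta_reduce
            rw [Function.update_of_ne h]
        have hcw : ∀ g : Sym2 V, ¬ g.IsDiag → cw b c (fun g => W g + pw x g) g =
            cw b c W g + pw (mv x b c) g := by
          intro g hg
          rw [cw_add, Pool.Agent.PW.cw_pw hbc x hg]
        refine ⟨p0 + C (W s(b, c)) * p1, g0 + C (W s(b, c)) * g1, ?_, ?_, ?_, ?_⟩
        · intro μ t
          rw [Zs_del W hbc 0, h01, Zs_congr2 (fun _ _ => rfl) (mv_line hbc x a μ t), h11]
          simp only [eval_add, eval_mul, eval_C]
          ring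
        · rw [derivative_add, derivative_C_mul, eval_add, eval_mul, eval_C, h02, h12]
          simp only [eval_add, eval_mul, eval_C]
          ring
        · rw [Z_del _ hbc (pw x s(b, c)), Pool.Agent.PW.Z_congr fun g _ => hup g, h03,
            Pool.Agent.PW.Z_congr hcw, h13, Lam_add, Lam_C_mul]
          ring
        · intro l t
          rw [Zs_del _ hbc (pw x s(b, c)), Zs_congr2 (fun g _ => hup g) fun _ => rfl, h04,
            Zs_congr2 hcw (mv_line hbc x a l t), h14, Pool.Agent.PW.sum_mv x hbc]
          have e1 : (1 + C l * X) * (p0 + C (W s(b, c)) * p1) =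
              (1 + C l * X) * p0 + C (W s(b, c)) * ((1 + C l * X) * p1) := by ring
          have e2 : p0 + C (W s(b, c)) * p1 + C l * X * (g0 + C (W s(b, c)) * g1) =
              (p0 + C l * X * g0) + C (W s(b, c)) * (p1 + C l * X * g1) := by ring
          rw [e1, e2, Lam_add _ ((1 + C l * X) * p0) _, Lam_add _ (p0 + C l * X * g0) _,
            Lam_C_mul, Lam_C_mul]
          ring

/-- The hub function on a line is a polynomial. -/
theorem exists_hub (W : Sym2 V → ℝ) (x : V → ℝ) (a : V) :
    ∃ p g : ℝ[X], (∀ μ, Zs W (fun v => μ * x v) = p.eval μ) ∧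
      (∀ μ, Gs W (fun v => μ * x v) a = g.eval μ) ∧
      (derivative p).eval 0 = (∑ v, x v) * p.eval 0 := by
  obtain ⟨p, g, h1, h2, _, _⟩ := main_aux _ W x a rfl
  have h0 : ∀ μ, Zs W (fun v => μ * x v) = p.eval μ := by
    intro μ
    have := h1 μ 0
    rw [star'] at this
    linarith
  refine ⟨p, g, h0, fun μ => ?_, h2⟩
  have := h1 μ 1
  rw [star', h0] at this
  linarith

theorem lemmaA [Nonempty V] (W : Sym2 V → ℝ) (x : V → ℝ) (p : ℝ[X])
    (hp : ∀ μ, Zs W (fun v => μ * x v) = p.eval μ) :
    Z (fun g => W g + pw x g) = Lam (∑ v, x v) p := by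
  obtain ⟨a⟩ := (inferInstance : Nonempty V)
  obtain ⟨q, g, h1, _, h3, _⟩ := main_aux _ W x a rfl
  have : p = q := by
    refine Polynomial.funext fun μ => ?_
    have := h1 μ 0
    rw [star', hp] at this
    linarith
  rw [this]
  exact h3

theorem lemmaA_mark (W : Sym2 V → ℝ) (x : V → ℝ) (a : V) (p g : ℝ[X])
    (hp : ∀ μ, Zs W (fun v => μ * x v) = p.eval μ)
    (hg : ∀ μ, Gs W (fun v => μ * x v) a = g.eval μ) (l : ℝ) :
    Zs (fun g => W g + pw x g) (fun v => l * x v) =
      Lam (∑ v, x v + l) ((1 + C l * X) * p) ∧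
    Gs (fun g => W g + pw x g) (fun v => l * x v) a =
      Lam (∑ v, x v + l) (p + C l * X * g) := by
  obtain ⟨q, r, h1, _, _, h4⟩ := main_aux _ W x a rfl
  have e1 : p = q := by
    refine Polynomial.funext fun μ => ?_
    have := h1 μ 0
    rw [star', hp] at this
    linarith
  have e2 : g = r := by
    refine Polynomial.funext fun μ => ?_
    have := h1 μ 1
    rw [star', hp, hg, e1] at this
    linarith
  have h5 := h4 l 0
  have h6 := h4 l 1
  rw [star'] at h5 h6
  rw [e1, e2]
  constructor <;> linarith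

theorem lemmaA_hub [Nonempty V] (W : Sym2 V → ℝ) (x : V → ℝ) (p : ℝ[X])
    (hp : ∀ μ, Zs W (fun v => μ * x v) = p.eval μ) (l : ℝ) :
    Zs (fun g => W g + pw x g) (fun v => l * x v) =
      Lam (∑ v, x v + l) ((1 + C l * X) * p) := by
  obtain ⟨a⟩ := (inferInstance : Nonempty V)
  obtain ⟨_, g, _, hg, _⟩ := exists_hub W x a
  exact (lemmaA_mark W x a p g hp hg l).1

end Pool.Agent.MJ
end

section

/-!
The Heilmann-Lieb induction for a multilinear functional which satisfies the matching recursion of
a complete multipartite graph.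
-/

set_option autoImplicit false

open Polynomial Finset
open scoped Classical

set_option autoImplicit false
set_option linter.unusedSectionVars false

namespace Pool.Agent.MJ

variable {ι : Type*} [Fintype ι]

section General

variable {K : Type*} [Field K]

/-- The value at `u` of a multilinear functional with the matching recursion. -/
structure Rec (u : K) (N : MultilinearMap K (fun _ : ι => K[X]) K) : Prop where
  one : N (fun _ => 1) = 1
  step : ∀ (q : ι → K[X]) (k : ι), N (Function.update q k (X * q k)) =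
    u * N q - ∑ l ∈ univ.erase k, N (Function.update q l (derivative (q l)))

lemma Rec.lin {u : K} {N : MultilinearMap K (fun _ : ι => K[X]) K} (h : Rec u N)
    (q : ι → K[X]) (k : ι) (a b : K) : N (Function.update q k ((C a + C b * X) * q k)) =
      (a + b * u) * N q - b * ∑ l ∈ univ.erase k, N (Function.update q l (derivative (q l))) := by
  have h1 : (C a + C b * X) * q k = a • q k + b • (X * q k) := by
    rw [smul_eq_C_mul, smul_eq_C_mul]
    ring
  rw [h1, N.map_update_add, N.map_update_smul, N.map_update_smul, h.step,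
    Function.update_eq_self]
  simp only [smul_eq_mul]
  ring

/-- The product of the linear factors `a k θ + b k θ X`, `θ ∈ R k`. -/
noncomputable def pr (a b : ι → K → K) (R : ι → Multiset K) (k : ι) : K[X] :=
  ((R k).map fun θ => C (a k θ) + C (b k θ) * X).prod

lemma derivative_pr (a b : ι → K → K) (R : ι → Multiset K) (k : ι) :
    derivative (pr a b R k) = ((R k).map fun θ =>
      b k θ • pr a b (Function.update R k ((R k).erase θ)) k).sum := by
  unfold pr
  rw [derivative_prod]
  congr 1
  refine Multiset.map_congr rfl fun θ _ => ?_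
  rw [Function.update_self]
  simp only [derivative_add, derivative_C, derivative_mul, derivative_X, zero_add, zero_mul,
    mul_one, smul_eq_C_mul]
  ring

lemma pr_update (a b : ι → K → K) (R : ι → Multiset K) (k : ι) (S : Multiset K) :
    pr a b (Function.update R k S) =
      Function.update (pr a b R) k (pr a b (Function.update R k S) k) := by
  funext j
  by_cases hj : j = k
  · subst hj
    simp
  · rw [Function.update_of_ne hj]
    unfold pr
    rw [Function.update_of_ne hj]

lemma Rec.cons {u : K} {N : MultilinearMap K (fun _ : ι => K[X]) K} (h : Rec u N)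
    (a b : ι → K → K) (R : ι → Multiset K) (k : ι) (θ : K) :
    N (pr a b (Function.update R k (θ ::ₘ R k))) = (a k θ + b k θ * u) * N (pr a b R) -
      b k θ * ∑ l ∈ univ.erase k, ((R l).map fun ζ =>
        b l ζ * N (pr a b (Function.update R l ((R l).erase ζ)))).sum := by
  have h1 : pr a b (Function.update R k (θ ::ₘ R k)) =
      Function.update (pr a b R) k ((C (a k θ) + C (b k θ) * X) * pr a b R k) := by
    rw [pr_update]
    congr 1
    unfold pr
    rw [Function.update_self, Multiset.map_cons, Multiset.prod_cons]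
  rw [h1, h.lin]
  congr 2
  refine Finset.sum_congr rfl fun l _ => ?_
  have h2 : ∀ p : K[X], N (Function.update (pr a b R) l p) = N.toLinearMap (pr a b R) l p :=
    fun p => rfl
  rw [h2, derivative_pr, map_multiset_sum, Multiset.map_map]
  congr 1
  refine Multiset.map_congr rfl fun ζ _ => ?_
  rw [Function.comp_apply, map_smul, ← h2, ← pr_update, smul_eq_mul]

lemma cons_erase' (R : ι → Multiset K) (k : ι) {θ : K} (hθ : θ ∈ R k) :
    Function.update (Function.update R k ((R k).erase θ)) k
      (θ ::ₘ (Function.update R k ((R k).erase θ)) k) = R := by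
  rw [Function.update_self, Multiset.cons_erase hθ, Function.update_idem,
    Function.update_eq_self]

lemma card_erase' (R : ι → Multiset K) (k : ι) {θ : K} (hθ : θ ∈ R k) :
    (∑ l, Multiset.card (Function.update R k ((R k).erase θ) l)) + 1 =
      ∑ l, Multiset.card (R l) := by
  rw [← Finset.add_sum_erase univ _ (mem_univ k), ← Finset.add_sum_erase univ
    (fun l => Multiset.card (R l)) (mem_univ k), Function.update_self]
  have h1 : ∑ l ∈ univ.erase k, Multiset.card (Function.update R k ((R k).erase θ) l) =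
      ∑ l ∈ univ.erase k, Multiset.card (R l) := by
    refine Finset.sum_congr rfl fun l hl => ?_
    rw [Function.update_of_ne (Finset.ne_of_mem_erase hl)]
  have h2 := Multiset.card_erase_add_one hθ
  rw [h1]
  omega

end General

/-! ### The complex induction -/

section Cx

variable {u : ℂ} {N : MultilinearMap ℂ (fun _ : ι => ℂ[X]) ℂ}

/-- monic factors `X - η` -/
noncomputable abbrev pm (R : ι → Multiset ℂ) : ι → ℂ[X] :=
  pr (fun _ η => -η) (fun _ _ => 1) R

theorem hl_aux (h : Rec u N) (n : ℕ) : ∀ R : ι → Multiset ℂ, (∑ l, Multiset.card (R l)) = n →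
    (∀ k, ∀ η ∈ R k, 0 < (u - η).im) → N (pm R) ≠ 0 ∧
      ∀ k, ∀ η ∈ R k, 0 < (N (pm R) / N (pm (Function.update R k ((R k).erase η)))).im := by
  induction n with
  | zero =>
    intro R hR _
    have h0 : ∀ l, R l = 0 := by
      intro l
      have := (Finset.sum_eq_zero_iff.mp hR) l (mem_univ l)
      exact Multiset.card_eq_zero.mp this
    constructor
    · have h1 : pm R = fun _ => 1 := by
        funext l
        simp [pm, pr, h0 l]
      rw [h1, h.one]
      exact one_ne_zero
    · intro k η hη
      rw [h0 k] at hη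
      simp at hη
  | succ n ih =>
    intro R hR hg
    have key : ∀ k, ∀ η ∈ R k, N (pm (Function.update R k ((R k).erase η))) ≠ 0 ∧
        0 < (N (pm R) / N (pm (Function.update R k ((R k).erase η)))).im := by
      intro k η hη
      set R' := Function.update R k ((R k).erase η) with hR'
      have hc : (∑ l, Multiset.card (R' l)) = n := by
        have := card_erase' R k hη
        rw [← hR'] at this
        omega
      have hg' : ∀ k, ∀ η ∈ R' k, 0 < (u - η).im := by
        intro j ζ hζ
        by_cases hj : j = k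
        · subst hj
          rw [hR', Function.update_self] at hζ
          exact hg j ζ (Multiset.mem_of_mem_erase hζ)
        · rw [hR', Function.update_of_ne hj] at hζ
          exact hg j ζ hζ
      obtain ⟨h1, h2⟩ := ih R' hc hg'
      refine ⟨h1, ?_⟩
      have h3 := h.cons (fun _ η => -η) (fun _ _ => 1) R' k η
      rw [cons_erase' R k hη] at h3
      rw [h3]
      have h4 : ∀ l, (Multiset.map (fun ζ => (1 : ℂ) *
          N (pr (fun _ η => -η) (fun _ _ => 1) (Function.update R' l ((R' l).erase ζ))))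
            (R' l)).sum = ((R' l).map fun ζ =>
          N (pm (Function.update R' l ((R' l).erase ζ)))).sum := by
        intro l
        simp only [one_mul]
      simp only [h4]
      have h5 : ((-η + 1 * u) * N (pm R') - 1 * ∑ l ∈ univ.erase k,
          ((R' l).map fun ζ => N (pm (Function.update R' l ((R' l).erase ζ)))).sum) / N (pm R') =
          (u - η) - ∑ l ∈ univ.erase k, ((R' l).map fun ζ =>
            N (pm (Function.update R' l ((R' l).erase ζ))) / N (pm R')).sum := by
        rw [sub_div, mul_div_assoc, div_self h1, one_mul, one_mul, Finset.sum_div]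
        congr 1
        · ring
        · refine Finset.sum_congr rfl fun l _ => ?_
          rw [Multiset.sum_map_div]
      have h6 : (((-η + 1 * u) * N (pm R') - 1 * ∑ l ∈ univ.erase k,
          ((R' l).map fun ζ => N (pm (Function.update R' l ((R' l).erase ζ)))).sum) /
            N (pm R')).im = (u - η).im - ∑ l ∈ univ.erase k, ((R' l).map fun ζ =>
            (N (pm (Function.update R' l ((R' l).erase ζ))) / N (pm R')).im).sum := by
        rw [h5, Complex.sub_im, Complex.im_sum]
        congr 1
        refine Finset.sum_congr rfl fun l _ => ?_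
        have := map_multiset_sum Complex.imAddGroupHom ((R' l).map fun ζ =>
            N (pm (Function.update R' l ((R' l).erase ζ))) / N (pm R'))
        rw [Multiset.map_map] at this
        exact this
      change 0 < (((-η + 1 * u) * N (pm R') - 1 * ∑ l ∈ univ.erase k,
          ((R' l).map fun ζ => N (pm (Function.update R' l ((R' l).erase ζ)))).sum) /
            N (pm R')).im
      rw [h6]
      have h7 : ∑ l ∈ univ.erase k, ((R' l).map fun ζ =>
            (N (pm (Function.update R' l ((R' l).erase ζ))) / N (pm R')).im).sum ≤ 0 := by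
        refine Finset.sum_nonpos fun l _ => ?_
        have h9 : ∀ S : Multiset ℂ, (∀ ζ ∈ S, ζ ∈ R' l) → (S.map fun ζ =>
            (N (pm (Function.update R' l ((R' l).erase ζ))) / N (pm R')).im).sum ≤ 0 := by
          intro S
          induction S using Multiset.induction_on with
          | empty => simp
          | cons ζ S ihS =>
            intro hS
            rw [Multiset.map_cons, Multiset.sum_cons]
            have h8 := h2 l ζ (hS ζ (Multiset.mem_cons_self _ _))
            have h10 := ihS fun ζ hζ => hS ζ (Multiset.mem_cons_of_mem hζ)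
            have h11 : (N (pm (Function.update R' l ((R' l).erase ζ))) / N (pm R')).im ≤ 0 := by
              rw [← inv_div, Complex.inv_im]
              apply div_nonpos_of_nonpos_of_nonneg
              · linarith
              · exact Complex.normSq_nonneg _
            linarith
        exact h9 _ fun ζ hζ => hζ
      have := hg k η hη
      linarith
    refine ⟨?_, fun k η hη => (key k η hη).2⟩
    -- some root exists
    obtain ⟨k, hk⟩ : ∃ k, R k ≠ 0 := by
      by_contra hcon
      push Not at hcon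
      simp [hcon] at hR
    obtain ⟨η, hη⟩ := Multiset.exists_mem_of_ne_zero hk
    intro h0
    have := (key k η hη).2
    rw [h0] at this
    simp at this

/-- **Heilmann-Lieb**: no zero if all roots lie below `u`. -/
theorem hl_roots (h : Rec u N) (R : ι → Multiset ℂ) (hR : ∀ k, ∀ η ∈ R k, 0 < (u - η).im) :
    N (pm R) ≠ 0 :=
  (hl_aux h _ R rfl hR).1

/-- **Heilmann-Lieb**: `N q ≠ 0` if no `q k` vanishes in the upper half plane. -/
theorem hl_ne_zero (h : Rec u N) (hu : 0 < u.im) (q : ι → ℂ[X])
    (hq : ∀ k, ∀ z : ℂ, 0 < z.im → (q k).eval z ≠ 0) : N q ≠ 0 := by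
  have hq0 : ∀ k, q k ≠ 0 := by
    intro k h0
    apply hq k Complex.I (by simp)
    rw [h0]
    simp
  have h1 : q = fun k => (q k).leadingCoeff • pm (fun k => (q k).roots) k := by
    funext k
    have := (IsAlgClosed.splits (q k)).eq_prod_roots
    conv_lhs => rw [this]
    rw [smul_eq_C_mul]
    congr 1
    simp only [pm, pr]
    congr 1
    refine Multiset.map_congr rfl fun η _ => ?_
    rw [C_neg, C_1]
    ring
  rw [h1, N.map_smul_univ, smul_eq_mul]
  apply mul_ne_zero
  · exact Finset.prod_ne_zero_iff.mpr fun k _ => leadingCoeff_ne_zero.mpr (hq0 k)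
  · apply hl_roots h
    intro k η hη
    have h2 : (q k).eval η = 0 := (mem_roots (hq0 k)).mp hη
    rw [Complex.sub_im]
    have h3 : η.im ≤ 0 := by
      by_contra hc
      exact hq k η (not_le.mp hc) h2
    linarith

end Cx

/-! ### The real induction -/

section Re

variable {u : ℝ} {N : MultilinearMap ℝ (fun _ : ι => ℝ[X]) ℝ}

/-- factors `1 + θ (X - c k)` -/
noncomputable abbrev pc (c : ι → ℝ) (R : ι → Multiset ℝ) : ι → ℝ[X] :=
  pr (fun k θ => 1 - θ * c k) (fun _ θ => θ) R

theorem hl_pos_aux (h : Rec u N) (c : ι → ℝ) (n : ℕ) : ∀ R : ι → Multiset ℝ,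
    (∑ l, Multiset.card (R l)) = n → (∀ k, ∀ θ ∈ R k, 0 ≤ θ) →
    (∀ k, c k + ∑ l ∈ univ.erase k, (R l).sum ≤ u) → 0 < N (pc c R) ∧
      ∀ k, ∀ θ ∈ R k, N (pc c (Function.update R k ((R k).erase θ))) ≤ N (pc c R) := by
  induction n with
  | zero =>
    intro R hR _ _
    have h0 : ∀ l, R l = 0 := by
      intro l
      have := (Finset.sum_eq_zero_iff.mp hR) l (mem_univ l)
      exact Multiset.card_eq_zero.mp this
    constructor
    · have h1 : pc c R = fun _ => 1 := by
        funext l
        simp [pc, pr, h0 l]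
      rw [h1, h.one]
      exact one_pos
    · intro k η hη
      rw [h0 k] at hη
      simp at hη
  | succ n ih =>
    intro R hR hθ0 hc
    have key : ∀ k, ∀ θ ∈ R k, 0 < N (pc c (Function.update R k ((R k).erase θ))) ∧
        N (pc c (Function.update R k ((R k).erase θ))) ≤ N (pc c R) := by
      intro k θ hθ
      set R' := Function.update R k ((R k).erase θ) with hR'
      have hcard : (∑ l, Multiset.card (R' l)) = n := by
        have := card_erase' R k hθ
        rw [← hR'] at this
        omega
      have hθ0' : ∀ k, ∀ θ ∈ R' k, 0 ≤ θ := by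
        intro j ζ hζ
        by_cases hj : j = k
        · subst hj
          rw [hR', Function.update_self] at hζ
          exact hθ0 j ζ (Multiset.mem_of_mem_erase hζ)
        · rw [hR', Function.update_of_ne hj] at hζ
          exact hθ0 j ζ hζ
      have hle : ∀ l, (R' l).sum ≤ (R l).sum := by
        intro l
        by_cases hl : l = k
        · subst hl
          rw [hR', Function.update_self]
          have h1 := Multiset.cons_erase hθ
          have h2 : (R l).sum = θ + ((R l).erase θ).sum := by
            conv_lhs => rw [← h1]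
            rw [Multiset.sum_cons]
          have := hθ0 l θ hθ
          linarith
        · rw [hR', Function.update_of_ne hl]
      have hc' : ∀ k, c k + ∑ l ∈ univ.erase k, (R' l).sum ≤ u := by
        intro j
        have := Finset.sum_le_sum (s := univ.erase j) fun l _ => hle l
        have := hc j
        linarith
      obtain ⟨h1, h2⟩ := ih R' hcard hθ0' hc'
      refine ⟨h1, ?_⟩
      have h3 := h.cons (fun k θ => 1 - θ * c k) (fun _ θ => θ) R' k θ
      rw [cons_erase' R k hθ] at h3
      change N (pc c R) = (1 - θ * c k + θ * u) * N (pc c R') - θ * ∑ l ∈ univ.erase k,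
        ((R' l).map fun ζ => ζ * N (pc c (Function.update R' l ((R' l).erase ζ)))).sum at h3
      rw [h3]
      have h4 : ∑ l ∈ univ.erase k, ((R' l).map fun ζ =>
          ζ * N (pc c (Function.update R' l ((R' l).erase ζ)))).sum ≤
          ∑ l ∈ univ.erase k, (R' l).sum * N (pc c R') := by
        refine Finset.sum_le_sum fun l _ => ?_
        have h12 : (R' l).sum * N (pc c R') = ((R' l).map fun ζ => ζ * N (pc c R')).sum := by
          rw [Multiset.sum_map_mul_right, Multiset.map_id']
        rw [h12]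
        refine Multiset.sum_map_le_sum_map _ _ fun ζ hζ => ?_
        exact mul_le_mul_of_nonneg_left (h2 l ζ hζ) (hθ0' l ζ hζ)
      rw [← Finset.sum_mul] at h4
      have h5 := hθ0 k θ hθ
      have h6 := hc' k
      have h7 : θ * ∑ l ∈ univ.erase k, ((R' l).map fun ζ =>
          ζ * N (pc c (Function.update R' l ((R' l).erase ζ)))).sum ≤
          θ * ((u - c k) * N (pc c R')) := by
        refine mul_le_mul_of_nonneg_left (h4.trans ?_) h5
        exact mul_le_mul_of_nonneg_right (by linarith) h1.le
      nlinarith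
    have hn : ∃ k, R k ≠ 0 := by
      by_contra hcon
      push Not at hcon
      simp [hcon] at hR
    obtain ⟨k, hk⟩ := hn
    obtain ⟨θ, hθ⟩ := Multiset.exists_mem_of_ne_zero hk
    exact ⟨(key k θ hθ).1.trans_le (key k θ hθ).2, fun k θ hθ => (key k θ hθ).2⟩

/-- The real positivity. -/
theorem hl_pos (h : Rec u N) (c : ι → ℝ) (R : ι → Multiset ℝ) (hθ : ∀ k, ∀ θ ∈ R k, 0 ≤ θ)
    (hc : ∀ k, c k + ∑ l ∈ univ.erase k, (R l).sum ≤ u) : 0 < N (pc c R) ∧
      ∀ k, ∀ θ ∈ R k, N (pc c (Function.update R k ((R k).erase θ))) ≤ N (pc c R) :=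
  hl_pos_aux h c _ R rfl hθ hc

end Re

/-! ### The functional `NN` -/

section NNsec

variable {K : Type*} [Field K]

/-- The value of `NN` at `u`. -/
noncomputable def NNm (u : K) : MultilinearMap K (fun _ : ι => K[X]) K where
  toFun q := (NN q).eval u
  map_update_add' := by
    intro inst m i x y
    have e : inst = fun a b => Classical.propDecidable (a = b) := Subsingleton.elim _ _
    subst e
    rw [NN_add, eval_add]
  map_update_smul' := by
    intro inst m i c x
    have e : inst = fun a b => Classical.propDecidable (a = b) := Subsingleton.elim _ _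
    subst e
    rw [smul_eq_C_mul, NN_C_mul, eval_mul, eval_C, smul_eq_mul]

lemma NNm_apply (u : K) (q : ι → K[X]) : NNm u q = (NN q).eval u := rfl

lemma NN_ones : NN (fun _ : ι => (1 : K[X])) = 1 := by
  simp [NN, T_one]

lemma NNm_rec (u : K) : Rec u (NNm (ι := ι) u) := by
  constructor
  · rw [NNm_apply, NN_ones, eval_one]
  · intro q k
    have h := NN_lin q k 0
    rw [C_0, sub_zero] at h
    simp only [NNm_apply]
    rw [h, eval_sub, eval_mul, eval_X, eval_finsetSum]

/-- **Heilmann-Lieb** for `NN`. -/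
theorem NN_ne_zero (q : ι → ℂ[X]) (hq : ∀ k, q k ≠ 0) (hr : ∀ k, ∀ η ∈ (q k).roots, η.im ≤ 0)
    {u : ℂ} (hu : 0 < u.im) : (NN q).eval u ≠ 0 := by
  rw [← NNm_apply]
  apply hl_ne_zero (NNm_rec u) hu
  intro k z hz h0
  have h1 := hr k z ((mem_roots (hq k)).mpr h0)
  linarith

theorem NN_pos (s : ι → Multiset ℝ) (hs : ∀ k, ∀ θ ∈ s k, 0 ≤ θ) (a : ι → ℝ) (u : ℝ)
    (hu : ∀ k, ∑ l ∈ univ.erase k, (s l).sum ≤ u - a k) :
    0 < (NN fun k => ((s k).map fun θ => 1 + C θ * (X - C (a k))).prod).eval u ∧
    (derivative (NN fun k => ((s k).map fun θ => 1 + C θ * (X - C (a k))).prod)).eval u ≤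
      (∑ k, (s k).sum) *
        (NN fun k => ((s k).map fun θ => 1 + C θ * (X - C (a k))).prod).eval u := by
  have h0 : (fun k => ((s k).map fun θ => 1 + C θ * (X - C (a k))).prod) = pc a s := by
    funext k
    unfold pc pr
    congr 1
    refine Multiset.map_congr rfl fun θ _ => ?_
    rw [C_sub, C_mul, C_1]
    ring
  obtain ⟨h1, h2⟩ := hl_pos (NNm_rec u) a s hs (fun k => by linarith [hu k])
  rw [h0]
  refine ⟨h1, ?_⟩
  rw [derivative_NN, eval_finsetSum, Finset.sum_mul]
  refine Finset.sum_le_sum fun l _ => ?_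
  have h3 : (NN (Function.update (pc a s) l (derivative (pc a s l)))).eval u =
      ((s l).map fun θ => θ * NNm u (pc a (Function.update s l ((s l).erase θ)))).sum := by
    rw [← NNm_apply]
    have h4 : NNm u (Function.update (pc a s) l (derivative (pc a s l))) =
      (NNm u).toLinearMap (pc a s) l (derivative (pc a s l)) := rfl
    rw [h4, derivative_pr, map_multiset_sum, Multiset.map_map]
    congr 1
    refine Multiset.map_congr rfl fun ζ _ => ?_
    rw [Function.comp_apply, map_smul, smul_eq_mul]
    congr 1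
    have h6 : pc a (Function.update s l ((s l).erase ζ)) = Function.update (pc a s) l
        (pc a (Function.update s l ((s l).erase ζ)) l) :=
      pr_update (fun k θ => 1 - θ * a k) (fun _ θ => θ) s l ((s l).erase ζ)
    conv_rhs => rw [h6]
    rfl
  rw [h3]
  have h5 : (s l).sum * (NN (pc a s)).eval u = ((s l).map fun ζ => ζ * (NN (pc a s)).eval u).sum := by
    rw [Multiset.sum_map_mul_right, Multiset.map_id']
  rw [h5]
  refine Multiset.sum_map_le_sum_map _ _ fun ζ hζ => ?_
  exact mul_le_mul_of_nonneg_left (h2 l ζ hζ) (hs l ζ hζ)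

end NNsec

end Pool.Agent.MJ
end

section

/-!
Class polynomials: positivity, zeros, monotonicity and submodularity.
-/

set_option autoImplicit false
set_option linter.unusedSectionVars false

namespace Pool.Agent.MJ

open Finset Polynomial
open scoped Classical

/-! ### Shifts -/

section Shift
variable {K : Type*} [Field K]

theorem sh_add (a : K) (p q : K[X]) : sh a (p + q) = sh a p + sh a q := by
  simp [sh]

theorem sh_C_mul (a c : K) (p : K[X]) : sh a (C c * p) = C c * sh a p := by
  simp [sh]

theorem sh_derivative (a : K) (p : K[X]) : sh a (derivative p) = derivative (sh a p) := by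
  simp [sh, derivative_comp]

theorem sh_map {L : Type*} [Field L] (φ : K →+* L) (a : K) (p : K[X]) :
    (sh a p).map φ = sh (φ a) (p.map φ) := by
  simp [sh, Polynomial.map_comp]

theorem sh_prod {J : Type*} (a : K) (s : Finset J) (θ : J → K) :
    sh a (∏ j ∈ s, (1 + C (θ j) * X)) = ∏ j ∈ s, (1 + C (θ j) * (X - C a)) := by
  simp [sh, Polynomial.prod_comp]

theorem eval_sh (a : K) (p : K[X]) (u : K) : (sh a p).eval u = p.eval (u - a) := by
  simp [sh]

end Shift

/-! ### Positive combinations of products -/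

/-- Products of factors `1 + θ (X - a)` with `∑ θ ≤ m`. -/
def Bs (a m : ℝ) : Set ℝ[X] :=
  {p | ∃ s : Multiset ℝ, (∀ θ ∈ s, 0 ≤ θ) ∧ s.sum ≤ m ∧
    p = (s.map fun θ => 1 + C θ * (X - C a)).prod}

/-- Positive combinations. -/
inductive Cn (a m : ℝ) : ℝ[X] → Prop
  | base {p : ℝ[X]} : p ∈ Bs a m → Cn a m p
  | add {p q : ℝ[X]} {c : ℝ} : Cn a m p → Cn a m q → 0 ≤ c → Cn a m (p + C c * q)
  | smul {p : ℝ[X]} {c : ℝ} : 0 < c → Cn a m p → Cn a m (C c * p)

section Upd
variable {K : Type*} [Field K] {ι : Type*} [Fintype ι]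

theorem NN_add' [d : DecidableEq ι] (q : ι → K[X]) (k : ι) (p p' : K[X]) :
    NN (Function.update q k (p + p')) = NN (Function.update q k p) + NN (Function.update q k p') := by
  have e : d = fun a b => Classical.propDecidable (a = b) := Subsingleton.elim _ _
  subst e
  exact NN_add q k p p'

theorem NN_C_mul' [d : DecidableEq ι] (q : ι → K[X]) (k : ι) (c : K) (p : K[X]) :
    NN (Function.update q k (C c * p)) = C c * NN (Function.update q k p) := by
  have e : d = fun a b => Classical.propDecidable (a = b) := Subsingleton.elim _ _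
  subst e
  exact NN_C_mul q k c p

theorem NN_add_C_mul [DecidableEq ι] (q : ι → K[X]) (k : ι) (c : K) (p p' : K[X]) (z : K) :
    (NN (Function.update q k (p + C c * p'))).eval z =
      (NN (Function.update q k p)).eval z + c * (NN (Function.update q k p')).eval z := by
  rw [NN_add', NN_C_mul', eval_add, eval_mul, eval_C]

end Upd

section Pos
variable {ι : Type*} [Fintype ι]

theorem Cn_aux (a m : ι → ℝ) (u : ℝ) (hu : ∀ k, a k + ∑ l, m l ≤ u + m k)
    (A : Finset ι) : ∀ q : ι → ℝ[X], (∀ k ∈ A, Cn (a k) (m k) (q k)) →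
      (∀ k, k ∉ A → q k ∈ Bs (a k) (m k)) →
      0 < (NN q).eval u ∧ (derivative (NN q)).eval u ≤ (∑ k, m k) * (NN q).eval u := by
  induction A using Finset.induction_on with
  | empty =>
    intro q _ hq
    have hq' : ∀ k, ∃ s : Multiset ℝ, (∀ θ ∈ s, 0 ≤ θ) ∧ s.sum ≤ m k ∧
        q k = (s.map fun θ => 1 + C θ * (X - C (a k))).prod := fun k => hq k (by simp)
    choose s hs1 hs2 hs3 using hq'
    have e : q = fun k => ((s k).map fun θ => 1 + C θ * (X - C (a k))).prod := funext hs3
    obtain ⟨h1, h2⟩ := NN_pos s hs1 a u fun k => by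
      have h3 : ∑ l ∈ univ.erase k, (s l).sum ≤ ∑ l ∈ univ.erase k, m l :=
        sum_le_sum fun l _ => hs2 l
      have h4 := add_sum_erase univ m (mem_univ k)
      have h5 := hu k
      linarith
    rw [← e] at h1 h2
    exact ⟨h1, h2.trans (mul_le_mul_of_nonneg_right (sum_le_sum fun k _ => hs2 k) h1.le)⟩
  | insert i A hi ih =>
    intro q h1 h2
    have key : ∀ p, Cn (a i) (m i) p →
        0 < (NN (Function.update q i p)).eval u ∧
        (derivative (NN (Function.update q i p))).eval u ≤
          (∑ k, m k) * (NN (Function.update q i p)).eval u := by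
      intro p hp
      induction hp with
      | base hp =>
        refine ih _ (fun k hk => ?_) (fun k hk => ?_)
        · have : k ≠ i := fun e => hi (e ▸ hk)
          rw [Function.update_of_ne this]
          exact h1 k (mem_insert_of_mem hk)
        · by_cases hki : k = i
          · subst hki
            rw [Function.update_self]
            exact hp
          · rw [Function.update_of_ne hki]
            exact h2 k (by simp [hki, hk])
      | @add p p' c _ _ hc ih1 ih2 =>
        rw [NN_add, NN_C_mul, eval_add, derivative_add, derivative_C_mul, eval_add, eval_mul,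
          eval_mul, eval_C]
        obtain ⟨a1, a2⟩ := ih1
        obtain ⟨b1, b2⟩ := ih2
        refine ⟨by positivity, ?_⟩
        nlinarith [mul_le_mul_of_nonneg_left b2 hc]
      | @smul p c hc _ ih1 =>
        rw [NN_C_mul, derivative_C_mul, eval_mul, eval_mul, eval_C]
        obtain ⟨a1, a2⟩ := ih1
        refine ⟨by positivity, ?_⟩
        nlinarith [mul_le_mul_of_nonneg_left a2 hc.le]
    have := key (q i) (h1 i (mem_insert_self i A))
    rwa [Function.update_eq_self] at this

theorem Cn_pos (a m : ι → ℝ) (u : ℝ) (hu : ∀ k, a k + ∑ l, m l ≤ u + m k)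
    (q : ι → ℝ[X]) (hq : ∀ k, Cn (a k) (m k) (q k)) :
    0 < (NN q).eval u ∧ (derivative (NN q)).eval u ≤ (∑ k, m k) * (NN q).eval u :=
  Cn_aux a m u hu univ q (fun k _ => hq k) (fun k hk => absurd (mem_univ k) hk)

end Pos

section Cls
variable {J : Type*}

theorem Bs_Pf (a m : ℝ) (s : Finset J) (θ : J → ℝ) (hθ : ∀ i, 0 ≤ θ i)
    (hm : ∑ i ∈ s, θ i ≤ m) : sh a (Pf s θ) ∈ Bs a m := by
  refine ⟨s.val.map θ, ?_, hm, ?_⟩
  · intro t ht
    obtain ⟨i, -, rfl⟩ := Multiset.mem_map.1 ht
    exact hθ i
  · rw [Pf, sh_prod, Multiset.map_map]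
    rfl

theorem Cn_PQ (a m : ℝ) (s : Finset J) (θ : J → ℝ) (hθ : ∀ i, 0 ≤ θ i)
    (hm : ∑ i ∈ s, θ i ≤ m) : Cn a m (sh a (Pf s θ + Qf s θ)) := by
  have key : ∀ s' ⊆ s, Cn a m (sh a (Pf s θ +
      ∑ j ∈ s', C (θ j ^ 2) * ∏ i ∈ s.erase j, (1 + C (θ i) * X))) := by
    intro s'
    induction s' using Finset.induction_on with
    | empty =>
      intro _
      rw [sum_empty, add_zero]
      exact Cn.base (Bs_Pf a m s θ hθ hm)
    | insert i s' hi ih =>
      intro hs
      have h1 := ih fun x hx => hs (mem_insert_of_mem hx)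
      rw [sum_insert hi, add_comm (C (θ i ^ 2) * _), ← add_assoc, sh_add _ (_ + _), sh_C_mul]
      refine Cn.add h1 (Cn.base (Bs_Pf a m (s.erase i) θ hθ ?_)) (sq_nonneg _)
      exact (sum_le_sum_of_subset_of_nonneg (erase_subset i s) fun i _ _ => hθ i).trans hm
  exact key s (Subset.refl s)

/-- the value of `Pf + Qf` in the upper half plane -/
theorem aeval_PQ (s : Finset J) (θ : J → ℝ) (hθ : ∀ i, 0 ≤ θ i) {w : ℂ} (hw : 0 < w.im) :
    aeval w (Pf s θ) ≠ 0 ∧ ∃ σ : ℂ, σ.im ≤ 0 ∧ 1 + σ ≠ 0 ∧
      aeval w (Pf s θ + Qf s θ) = aeval w (Pf s θ) * (1 + σ) := by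
  have hne : ∀ i, (1 : ℂ) + (θ i : ℂ) * w ≠ 0 := by
    intro i h
    have h1 := congrArg Complex.im h
    have h2 := congrArg Complex.re h
    simp only [Complex.add_im, Complex.one_im, Complex.mul_im, Complex.ofReal_re,
      Complex.ofReal_im, zero_mul, add_zero, zero_add, Complex.zero_im] at h1
    have h3 : θ i = 0 := by
      rcases mul_eq_zero.1 h1 with h | h
      · exact h
      · exact absurd h hw.ne'
    rw [h3] at h2
    simp at h2
  have hP : aeval w (Pf s θ) = ∏ i ∈ s, (1 + (θ i : ℂ) * w) := by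
    simp [Pf, map_prod]
  have hQ : aeval w (Qf s θ) = ∑ j ∈ s, (θ j : ℂ) ^ 2 * ∏ i ∈ s.erase j, (1 + (θ i : ℂ) * w) := by
    simp [Qf, map_prod]
  have hP0 : (∏ i ∈ s, (1 + (θ i : ℂ) * w)) ≠ 0 := prod_ne_zero_iff.2 fun i _ => hne i
  have him : ∀ i, ((θ i : ℂ) ^ 2 / (1 + (θ i : ℂ) * w)).im =
      - (θ i ^ 3 * w.im / Complex.normSq (1 + (θ i : ℂ) * w)) := by
    intro i
    rw [← Complex.ofReal_pow, Complex.div_im]
    simp only [Complex.add_im, Complex.one_im, Complex.mul_im, Complex.ofReal_re,
      Complex.ofReal_im, zero_mul, add_zero, zero_add, zero_div]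
    ring
  refine ⟨by rw [hP]; exact hP0, ∑ i ∈ s, (θ i : ℂ) ^ 2 / (1 + (θ i : ℂ) * w), ?_, ?_, ?_⟩
  · rw [Complex.im_sum]
    refine sum_nonpos fun i _ => ?_
    rw [him, neg_nonpos]
    have := hθ i
    have := Complex.normSq_nonneg (1 + (θ i : ℂ) * w)
    positivity
  · intro h
    have h1 := congrArg Complex.im h
    rw [Complex.add_im, Complex.one_im, zero_add, Complex.zero_im, Complex.im_sum] at h1
    have h2 := (sum_eq_zero_iff_of_nonpos fun i _ => ?_).1 h1
    · have h3 : ∀ i ∈ s, θ i = 0 := by
        intro i hi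
        have h4 := h2 i hi
        rw [him, neg_eq_zero, div_eq_zero_iff] at h4
        rcases h4 with h4 | h4
        · rcases mul_eq_zero.1 h4 with h5 | h5
          · exact pow_eq_zero_iff (by norm_num) |>.1 h5
          · exact absurd h5 hw.ne'
        · exact absurd (Complex.normSq_eq_zero.1 h4) (hne i)
      have h5 : ∑ i ∈ s, (θ i : ℂ) ^ 2 / (1 + (θ i : ℂ) * w) = 0 :=
        sum_eq_zero fun i hi => by rw [h3 i hi]; simp
      rw [h5] at h
      simp at h
    · rw [him, neg_nonpos]
      have := hθ i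
      have := Complex.normSq_nonneg (1 + (θ i : ℂ) * w)
      positivity
  · rw [map_add, hP, hQ, mul_add, mul_one, mul_sum]
    congr 1
    refine sum_congr rfl fun j hj => ?_
    rw [← mul_prod_erase s _ hj]
    have := hne j
    rw [mul_comm (1 + (θ j : ℂ) * w), mul_assoc, mul_div_cancel₀ _ this]
    ring

end Cls

/-! ### The four classes -/

section D
variable {J : Fin 4 → Type*} [∀ k, Fintype (J k)]

noncomputable def at' (θ : ∀ k, J k → ℝ) (k : Fin 4) : ℝ[X] := Pf univ (θ k) + Qf univ (θ k)
noncomputable def gt' (θ : ∀ k, J k → ℝ) (j : ∀ k, J k) (k : Fin 4) : ℝ[X] :=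
  Pf (univ.erase (j k)) (θ k) + Qf (univ.erase (j k)) (θ k)
noncomputable def A' (θ : ∀ k, J k → ℝ) (j : ∀ k, J k) (k : Fin 4) : ℝ[X] :=
  C (θ k (j k)) * Pf (univ.erase (j k)) (θ k)
/-- masses -/
noncomputable def Xk (θ : ∀ k, J k → ℝ) (k : Fin 4) : ℝ := ∑ i, θ k i
noncomputable def NT (θ : ∀ k, J k → ℝ) (j : ∀ k, J k) (S : Finset (Fin 4)) : ℝ[X] :=
  NN fun k => sh (Xk θ k) (if k ∈ S then gt' θ j k else A' θ j k)

variable (θ : ∀ k, J k → ℝ) (j : ∀ k, J k) (hθ : ∀ k i, 0 ≤ θ k i) (hj : ∀ k, 0 < θ k (j k))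

theorem at_eq (k : Fin 4) : at' θ k =
    gt' θ j k + ((X + C (Xk θ k)) * A' θ j k - derivative (A' θ j k)) := by
  unfold at' gt' A' Xk
  set t := θ k (j k) with ht
  set s : Finset (J k) := univ.erase (j k) with hs
  have hjs : j k ∉ s := by simp [hs]
  have hu : (univ : Finset (J k)) = insert (j k) s := by
    rw [hs, insert_erase (mem_univ _)]
  have h1 : Pf (univ : Finset (J k)) (θ k) = (1 + C t * X) * Pf s (θ k) := by
    rw [Pf, ← mul_prod_erase univ _ (mem_univ (j k))]
    rfl
  have h2 : Qf (univ : Finset (J k)) (θ k) =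
      C (t ^ 2) * Pf s (θ k) + (1 + C t * X) * Qf s (θ k) := by
    unfold Qf
    rw [hu, sum_insert hjs, erase_insert hjs, mul_sum]
    congr 1
    refine sum_congr rfl fun i hi => ?_
    have hne : j k ≠ i := fun e => hjs (e ▸ hi)
    rw [erase_insert_of_ne hne, prod_insert (by simp [hjs])]
    ring
  have h3 : (∑ i, θ k i) = t + ∑ i ∈ s, θ k i := by
    rw [hu, sum_insert hjs]
  have h4 : X * Qf s (θ k) = C (∑ i ∈ s, θ k i) * Pf s (θ k) - derivative (Pf s (θ k)) := by
    unfold Qf Pf
    rw [derivative_prod_finset, mul_sum, map_sum, sum_mul, ← sum_sub_distrib]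
    refine sum_congr rfl fun i hi => ?_
    rw [← mul_prod_erase s _ hi]
    simp only [derivative_add, derivative_one, zero_add, derivative_C_mul, derivative_X, mul_one,
      C_pow]
    ring
  rw [h1, h2, h3, derivative_C_mul, C_add, C_pow]
  linear_combination (C t) * h4

include hθ in
theorem Cn_at (k : Fin 4) : Cn (Xk θ k) (Xk θ k) (sh (Xk θ k) (at' θ k)) :=
  Cn_PQ _ _ _ _ (hθ k) le_rfl

theorem sum_erase_le (k : Fin 4) : ∑ i ∈ univ.erase (j k), θ k i ≤ Xk θ k - θ k (j k) := by
  rw [Xk, ← add_sum_erase univ (θ k) (mem_univ (j k))]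
  linarith

include hθ in
theorem Cn_gt (k : Fin 4) : Cn (Xk θ k) (Xk θ k - θ k (j k)) (sh (Xk θ k) (gt' θ j k)) :=
  Cn_PQ _ _ _ _ (hθ k) (sum_erase_le θ j k)

include hθ hj in
theorem Cn_A (k : Fin 4) : Cn (Xk θ k) (Xk θ k - θ k (j k)) (sh (Xk θ k) (A' θ j k)) := by
  unfold A'
  rw [sh_C_mul]
  exact Cn.smul (hj k) (Cn.base (Bs_Pf _ _ _ _ (hθ k) (sum_erase_le θ j k)))

theorem Cn_mono {a m m' : ℝ} (h : m ≤ m') {p : ℝ[X]} (hp : Cn a m p) : Cn a m' p := by
  induction hp with
  | base hp =>
    obtain ⟨s, h1, h2, h3⟩ := hp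
    exact Cn.base ⟨s, h1, h2.trans h, h3⟩
  | add _ _ hc ih1 ih2 => exact Cn.add ih1 ih2 hc
  | smul hc _ ih => exact Cn.smul hc ih

include hθ hj in
/-- general positivity -/
theorem cls_pos (c : Fin 4 → ℝ[X])
    (hc : ∀ k, c k = at' θ k ∨ c k = gt' θ j k ∨ c k = A' θ j k) (u : ℝ)
    (hu : ∑ k, Xk θ k ≤ u) : 0 < (NN fun k => sh (Xk θ k) (c k)).eval u := by
  refine (Cn_pos (fun k => Xk θ k) (fun k => Xk θ k) u ?_ _ ?_).1
  · intro k
    linarith
  · intro k
    have hle : Xk θ k - θ k (j k) ≤ Xk θ k := by linarith [hj k]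
    rcases hc k with h | h | h
    · rw [h]; exact Cn_at θ hθ k
    · rw [h]; exact Cn_mono hle (Cn_gt θ j hθ k)
    · rw [h]; exact Cn_mono hle (Cn_A θ j hθ hj k)

include hθ hj in
theorem NT_pos_rate (S : Finset (Fin 4)) (u : ℝ) (hu : ∑ k, Xk θ k ≤ u) :
    0 < (NT θ j S).eval u ∧ (derivative (NT θ j S)).eval u ≤
      (∑ k, (Xk θ k - θ k (j k))) * (NT θ j S).eval u := by
  unfold NT
  refine Cn_pos (fun k => Xk θ k) (fun k => Xk θ k - θ k (j k)) u ?_ _ ?_
  · intro k
    have h1 : ∑ l, (Xk θ l - θ l (j l)) = ∑ l, Xk θ l - ∑ l, θ l (j l) := sum_sub_distrib _ _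
    have h2 : θ k (j k) ≤ ∑ l, θ l (j l) :=
      single_le_sum (f := fun l => θ l (j l)) (fun l _ => (hj l).le) (mem_univ k)
    show Xk θ k + ∑ l, (Xk θ l - θ l (j l)) ≤ u + (Xk θ k - θ k (j k))
    linarith
  · intro k
    by_cases h : k ∈ S
    · simp only [h, if_true]
      exact Cn_gt θ j hθ k
    · simp only [h, if_false]
      exact Cn_A θ j hθ hj k

include hθ hj in
theorem NT_pos (S : Finset (Fin 4)) (u : ℝ) (hu : ∑ k, Xk θ k ≤ u) : 0 < (NT θ j S).eval u :=
  (NT_pos_rate θ j hθ hj S u hu).1

include hθ hj in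
theorem NT_rate (S : Finset (Fin 4)) :
    0 < ∑ k, Xk θ k - (derivative (NT θ j S)).eval (∑ k, Xk θ k) / (NT θ j S).eval (∑ k, Xk θ k) := by
  obtain ⟨h1, h2⟩ := NT_pos_rate θ j hθ hj S (∑ k, Xk θ k) le_rfl
  rw [sub_pos, div_lt_iff₀ h1]
  refine lt_of_le_of_lt h2 (mul_lt_mul_of_pos_right ?_ h1)
  exact sum_lt_sum_of_nonempty univ_nonempty fun k _ => by linarith [hj k]

/-- no zeros in the upper half plane -/
theorem NN_up {ι : Type*} [Fintype ι] (q : ι → ℂ[X])
    (hq : ∀ k, ∀ z : ℂ, 0 < z.im → (q k).eval z ≠ 0) {u : ℂ} (hu : 0 < u.im) :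
    (NN q).eval u ≠ 0 := by
  have h0 : ∀ k, q k ≠ 0 := by
    intro k h
    exact hq k Complex.I (by simp) (by rw [h]; simp)
  refine NN_ne_zero q h0 (fun k η hη => ?_) hu
  by_contra h
  exact hq k η (not_le.1 h) (mem_roots'.1 hη).2

noncomputable def gc (θ : ∀ k, J k → ℝ) (j : ∀ k, J k) (k : Fin 4) : ℂ[X] :=
  (sh (Xk θ k) (gt' θ j k)).map (algebraMap ℝ ℂ)
noncomputable def Ac (θ : ∀ k, J k → ℝ) (j : ∀ k, J k) (k : Fin 4) : ℂ[X] :=
  (sh (Xk θ k) (A' θ j k)).map (algebraMap ℝ ℂ)

theorem eval_map_sh (a : ℝ) (p : ℝ[X]) (z : ℂ) :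
    ((sh a p).map (algebraMap ℝ ℂ)).eval z = aeval (z - (a : ℂ)) p := by
  rw [sh_map, eval_sh, eval_map_algebraMap]
  rfl

include hθ hj in
theorem gc_up (k : Fin 4) (z : ℂ) (hz : 0 < z.im) : (gc θ j k).eval z ≠ 0 := by
  have hw : 0 < (z - (Xk θ k : ℂ)).im := by simpa using hz
  obtain ⟨h1, σ, -, h3, h4⟩ := aeval_PQ (univ.erase (j k)) (θ k) (hθ k) hw
  rw [gc, eval_map_sh, gt', h4]
  exact mul_ne_zero h1 h3

include hθ hj in
theorem Ac_up (k : Fin 4) (z : ℂ) (hz : 0 < z.im) : (Ac θ j k).eval z ≠ 0 := by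
  have hw : 0 < (z - (Xk θ k : ℂ)).im := by simpa using hz
  obtain ⟨h1, -⟩ := aeval_PQ (univ.erase (j k)) (θ k) (hθ k) hw
  rw [Ac, eval_map_sh, A', map_mul, aeval_C]
  refine mul_ne_zero ?_ h1
  simpa using (hj k).ne'

include hθ hj in
theorem gAc_up (k : Fin 4) (t : ℂ) (ht : 0 < t.im) (z : ℂ) (hz : 0 < z.im) :
    (gc θ j k + C (-t) * Ac θ j k).eval z ≠ 0 := by
  have hw : 0 < (z - (Xk θ k : ℂ)).im := by simpa using hz
  obtain ⟨h1, σ, h2, h3, h4⟩ := aeval_PQ (univ.erase (j k)) (θ k) (hθ k) hw
  rw [eval_add, eval_mul, eval_C, gc, Ac, eval_map_sh, eval_map_sh, gt', h4, A', map_mul, aeval_C]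
  have e : aeval (z - (Xk θ k : ℂ)) (Pf (univ.erase (j k)) (θ k)) * (1 + σ) +
      -t * ((algebraMap ℝ ℂ) (θ k (j k)) * aeval (z - (Xk θ k : ℂ)) (Pf (univ.erase (j k)) (θ k))) =
      aeval (z - (Xk θ k : ℂ)) (Pf (univ.erase (j k)) (θ k)) *
        (1 + σ - t * (θ k (j k) : ℂ)) := by
    simp only [Complex.coe_algebraMap]
    ring
  rw [e]
  refine mul_ne_zero h1 fun h => ?_
  have h5 := congrArg Complex.im h
  simp only [Complex.sub_im, Complex.add_im, Complex.one_im, Complex.mul_im, Complex.ofReal_re,
    Complex.ofReal_im, mul_zero, zero_add, Complex.zero_im] at h5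
  have := mul_pos ht (hj k)
  linarith

noncomputable def Qc (θ : ∀ k, J k → ℝ) (j : ∀ k, J k) (S : Finset (Fin 4)) (k : Fin 4) : ℂ[X] :=
  if k ∈ S then gc θ j k else Ac θ j k

theorem aeval_NT (S : Finset (Fin 4)) (z : ℂ) :
    aeval z (NT θ j S) = (NN (Qc θ j S)).eval z := by
  rw [← eval_map_algebraMap, NT, NN_map]
  congr 2
  funext k
  unfold Qc gc Ac
  by_cases h : k ∈ S
  · simp only [h, if_true]
  · simp only [h, if_false]

include hθ hj in
theorem Qc_up (S : Finset (Fin 4)) (k : Fin 4) (z : ℂ) (hz : 0 < z.im) :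
    (Qc θ j S k).eval z ≠ 0 := by
  unfold Qc
  by_cases h : k ∈ S
  · simp only [h, if_true]
    exact gc_up θ j hθ hj k z hz
  · simp only [h, if_false]
    exact Ac_up θ j hθ hj k z hz

theorem Qc_insert (S : Finset (Fin 4)) (i : Fin 4) :
    Qc θ j (insert i S) = Function.update (Qc θ j S) i (gc θ j i) := by
  funext k
  by_cases h : k = i
  · subst h
    rw [Function.update_self, Qc, if_pos (mem_insert_self k S)]
  · rw [Function.update_of_ne h, Qc, Qc]
    simp [h]

theorem Qc_self (S : Finset (Fin 4)) (i : Fin 4) (hi : i ∉ S) :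
    Qc θ j S = Function.update (Qc θ j S) i (Ac θ j i) := by
  funext k
  by_cases h : k = i
  · subst h
    rw [Function.update_self, Qc, if_neg hi]
  · rw [Function.update_of_ne h]

include hθ hj in
theorem NT_up (S : Finset (Fin 4)) : ∀ z : ℂ, 0 < z.im → aeval z (NT θ j S) ≠ 0 := by
  intro z hz
  rw [aeval_NT]
  exact NN_up _ (fun k w hw => Qc_up θ j hθ hj S k w hw) hz

include hθ hj in
theorem NT_mono (S : Finset (Fin 4)) (i : Fin 4) (hi : i ∉ S) (x : ℝ) :
    (derivative (NT θ j (insert i S))).eval x * (NT θ j S).eval x ≤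
      (NT θ j (insert i S)).eval x * (derivative (NT θ j S)).eval x := by
  refine interl (fun z hz t ht => ?_) x
  have h1 : aeval z (NT θ j (insert i S)) - t * aeval z (NT θ j S) =
      (NN (Function.update (Qc θ j S) i (gc θ j i + C (-t) * Ac θ j i))).eval z := by
    rw [NN_add_C_mul, ← Qc_self θ j S i hi, ← Qc_insert, aeval_NT, aeval_NT]
    ring
  rw [h1]
  refine NN_up _ (fun k w hw => ?_) hz
  by_cases h : k = i
  · subst h
    rw [Function.update_self]
    exact gAc_up θ j hθ hj k t ht w hw
  · rw [Function.update_of_ne h]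
    exact Qc_up θ j hθ hj S k w hw

include hθ hj in
theorem NT_sub (S : Finset (Fin 4)) (i i' : Fin 4) (hi : i ∉ S) (hi' : i' ∉ S) (h : i ≠ i')
    (x : ℝ) : (NT θ j S).eval x * (NT θ j (insert i (insert i' S))).eval x ≤
      (NT θ j (insert i S)).eval x * (NT θ j (insert i' S)).eval x := by
  have key := ray_two (p00 := NT θ j (insert i (insert i' S))) (p10 := NT θ j (insert i' S))
    (p01 := NT θ j (insert i S)) (p11 := NT θ j S) (fun z hz t t' ht ht' => ?_) x
  · linarith
  have h1 : aeval z (NT θ j (insert i (insert i' S))) - t * aeval z (NT θ j (insert i' S)) -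
      t' * aeval z (NT θ j (insert i S)) + t * t' * aeval z (NT θ j S) =
      (NN (Function.update (Function.update (Qc θ j S) i' (gc θ j i' + C (-t') * Ac θ j i'))
        i (gc θ j i + C (-t) * Ac θ j i))).eval z := by
    have ei : Function.update (Qc θ j S) i' (Ac θ j i') = Qc θ j S := (Qc_self θ j S i' hi').symm
    have e1 : Function.update (Function.update (Qc θ j S) i' (gc θ j i')) i (gc θ j i) =
        Qc θ j (insert i (insert i' S)) := by rw [Qc_insert, Qc_insert]
    have e2 : Function.update (Function.update (Qc θ j S) i' (gc θ j i')) i (Ac θ j i) =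
        Qc θ j (insert i' S) := by
      rw [← Qc_insert, ← Qc_self]
      simp [hi, h]
    have e3 : Function.update (Function.update (Qc θ j S) i' (Ac θ j i')) i (gc θ j i) =
        Qc θ j (insert i S) := by rw [ei, Qc_insert]
    have e4 : Function.update (Function.update (Qc θ j S) i' (Ac θ j i')) i (Ac θ j i) =
        Qc θ j S := by rw [ei, ← Qc_self θ j S i hi]
    rw [NN_add_C_mul, Function.update_comm h.symm, Function.update_comm h.symm, NN_add_C_mul,
      NN_add_C_mul, Function.update_comm h, Function.update_comm h, Function.update_comm h,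
      Function.update_comm h, e1, e2, e3, e4, aeval_NT, aeval_NT, aeval_NT, aeval_NT]
    ring
  rw [h1]
  refine NN_up _ (fun k w hw => ?_) hz
  by_cases hk : k = i
  · subst hk
    rw [Function.update_self]
    exact gAc_up θ j hθ hj k t ht w hw
  · rw [Function.update_of_ne hk]
    by_cases hk' : k = i'
    · subst hk'
      rw [Function.update_self]
      exact gAc_up θ j hθ hj k t' ht' w hw
    · rw [Function.update_of_ne hk']
      exact Qc_up θ j hθ hj S k w hw

end D

end Pool.Agent.MJ
end
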