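import Mathlib
import Pool.Agent.Lib.MP_d90615_co.Mg.G007
import Pool.Agent.Lib.MP_d90615_co.Mg.G003
import Pool.Agent.Lib.MP_d90615_co.Mg.G009
import Pool.Agent.Lib.MP_d90615_co.Mg.G008
import Pool.Agent.Lib.MP_d90615_co.Mg.G004

section

/-!
# Theorem P
-/

set_option autoImplicit false
set_option linter.unusedSectionVars false

namespace Pool.Agent.MJ

open Finset Polynomial
open scoped Classical

section gen
variable {K : Type*} [Field K] {ι : Type*} [Fintype ι]

theorem T_X_pow_mul (n : ℕ) (p : K[X]) : T (-1) (X ^ n * p) = DD^[n] (T (-1) p) := by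
  induction n with
  | zero => simp
  | succ n ih =>
    rw [Function.iterate_succ_apply', ← ih, ← T_neg_one_X]
    congr 1
    ring

theorem T_one_dec (g m : K[X]) :
    T 1 (g + (X * m - derivative m)) = T 1 g + X * T 1 m := by
  rw [map_add, map_sub, T_X_mul, C_1, ← derivative_T]
  ring

/-- full expansion -/
theorem NN_expand (g m : ι → K[X]) :
    NN (fun k => g k + (X * m k - derivative (m k)))
      = ∑ S : Finset ι, DD^[Fintype.card ι - S.card] (NN fun k => if k ∈ S then g k else m k) := by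
  unfold NN
  simp only [T_one_dec]
  rw [Finset.prod_add, map_sum, Finset.powerset_univ]
  refine Finset.sum_congr rfl fun S _ => ?_
  rw [Finset.prod_mul_distrib, Finset.prod_const, Finset.card_univ_sdiff, ← T_X_pow_mul]
  congr 1
  have e : ∏ k, T 1 (if k ∈ S then g k else m k)
      = (∏ k ∈ S, T 1 (g k)) * ∏ k ∈ univ \ S, T 1 (m k) := by
    rw [← Finset.prod_sdiff (Finset.subset_univ S), mul_comm]
    congr 1
    · exact Finset.prod_congr rfl fun k hk => by rw [if_pos hk]
    · exact Finset.prod_congr rfl fun k hk => by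
        rw [if_neg (Finset.mem_sdiff.1 hk).2]
  rw [e]
  ring

theorem sh_dec (a : K) (g m : K[X]) :
    sh a (g + ((X + C a) * m - derivative m)) = sh a g + (X * sh a m - derivative (sh a m)) := by
  unfold sh
  rw [add_comp, sub_comp, mul_comp, add_comp, X_comp, C_comp, sub_add_cancel, derivative_comp]
  simp

theorem sh_zero (a : K) : sh a (0 : K[X]) = 0 := by simp [sh]

theorem NN_zero (q : ι → K[X]) (k : ι) (h : q k = 0) : NN q = 0 := by
  rw [NN_self q k, h, map_zero, zero_mul, map_zero]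

theorem DD_zero : DD (0 : K[X]) = 0 := by simp [DD]

/-- `NN_dec` for an arbitrary decidability instance -/
theorem NN_dec' (dec : DecidableEq ι) (q : ι → K[X]) (k : ι) (g m : K[X]) :
    NN (@Function.update ι (fun _ => K[X]) dec q k (g + (X * m - derivative m))) =
      NN (@Function.update ι (fun _ => K[X]) dec q k g)
        + DD (NN (@Function.update ι (fun _ => K[X]) dec q k m)) := by
  have e : dec = fun a b => Classical.propDecidable (a = b) := Subsingleton.elim _ _
  subst e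
  exact NN_dec q k g m

end gen

section P
variable {J : Fin 4 → Type*} [∀ k, Fintype (J k)] (θ : ∀ k, J k → ℝ) (j : ∀ k, J k)

theorem sh_at (k : Fin 4) : sh (Xk θ k) (at' θ k)
    = sh (Xk θ k) (gt' θ j k)
      + (X * sh (Xk θ k) (A' θ j k) - derivative (sh (Xk θ k) (A' θ j k))) := by
  rw [at_eq θ j k, sh_dec]

theorem NN_at : NN (fun k => sh (Xk θ k) (at' θ k))
    = ∑ S : Finset (Fin 4), DD^[4 - S.card] (NT θ j S) := by
  have h : (fun k => sh (Xk θ k) (at' θ k)) = fun k => sh (Xk θ k) (gt' θ j k)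
      + (X * sh (Xk θ k) (A' θ j k) - derivative (sh (Xk θ k) (A' θ j k))) :=
    funext fun k => sh_at θ j k
  rw [h, NN_expand]
  refine Finset.sum_congr rfl fun S _ => ?_
  rw [Fintype.card_fin]
  congr 2
  funext k
  split_ifs <;> rfl

/-- `NN` of two decomposed and two undecomposed classes -/
theorem NN_two (u v : Fin 4) (huv : u ≠ v) (c : Fin 4 → ℝ[X])
    (hu : c u = sh (Xk θ u) (at' θ u)) (hv : c v = sh (Xk θ v) (at' θ v))
    (ho : ∀ k, k ≠ u → k ≠ v → c k = sh (Xk θ k) (A' θ j k)) :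
    NN c = DD (DD (NT θ j ∅)) + DD (NT θ j {u}) + DD (NT θ j {v}) + NT θ j {u, v} := by
  set q0 : Fin 4 → ℝ[X] := fun k => sh (Xk θ k) (A' θ j k) with hq0
  have hc : c = Function.update (Function.update q0 u (sh (Xk θ u) (at' θ u))) v
      (sh (Xk θ v) (at' θ v)) := by
    funext k
    by_cases h1 : k = v
    · subst h1; rw [Function.update_self, hv]
    · rw [Function.update_of_ne h1]
      by_cases h2 : k = u
      · subst h2; rw [Function.update_self, hu]
      · rw [Function.update_of_ne h2, ho k h2 h1]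
  have hself : ∀ k, Function.update q0 k (sh (Xk θ k) (A' θ j k)) = q0 := fun k =>
    Function.update_eq_self k q0
  rw [hc, sh_at θ j v, NN_dec' _, Function.update_comm huv, Function.update_comm huv,
    sh_at θ j u, NN_dec' _, NN_dec' _]
  have e1 : Function.update (Function.update q0 v (sh (Xk θ v) (A' θ j v))) u
      (sh (Xk θ u) (A' θ j u)) = q0 := by rw [hself v, hself u]
  have e0 : NN q0 = NT θ j ∅ := by
    unfold NT
    refine congrArg NN (funext fun k => ?_)
    simp [hq0]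
  have e2 : NN (Function.update (Function.update q0 v (sh (Xk θ v) (A' θ j v))) u
      (sh (Xk θ u) (gt' θ j u))) = NT θ j {u} := by
    rw [hself v]
    unfold NT
    congr 1
    funext k
    by_cases h : k = u
    · subst h; simp
    · rw [Function.update_of_ne h]; simp [h, hq0]
  have e3 : NN (Function.update (Function.update q0 v (sh (Xk θ v) (gt' θ j v))) u
      (sh (Xk θ u) (A' θ j u))) = NT θ j {v} := by
    rw [Function.update_comm (Ne.symm huv), hself u]
    unfold NT
    congr 1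
    funext k
    by_cases h : k = v
    · subst h; simp
    · rw [Function.update_of_ne h]; simp [h, hq0]
  have e4 : NN (Function.update (Function.update q0 v (sh (Xk θ v) (gt' θ j v))) u
      (sh (Xk θ u) (gt' θ j u))) = NT θ j {u, v} := by
    unfold NT
    congr 1
    funext k
    by_cases h : k = u
    · subst h; simp
    · rw [Function.update_of_ne h]
      by_cases h' : k = v
      · subst h'; simp
      · rw [Function.update_of_ne h']; simp [h, h', hq0]
  rw [e1, e0, e2, e3, e4]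
  have hDD : ∀ p q : ℝ[X], DD (p + q) = DD p + DD q := by
    intro p q; unfold DD; rw [derivative_add]; ring
  rw [hDD]
  ring

end P

theorem thmP {J : Fin 4 → Type*} [∀ k, Fintype (J k)] (θ : ∀ k, J k → ℝ)
    (hθ : ∀ k i, 0 ≤ θ k i) (j : ∀ k, J k) (f : ℝ[X]) (hf0 : 0 ≤ f.eval 0)
    (hf : derivative f = (C (∑ k, Xk θ k) + X) * f -
      X * (NN fun k => sh (Xk θ k) (at' θ k)).comp (X + C (∑ k, Xk θ k))) :
    (DD (DD (NN fun k => sh (Xk θ k) (A' θ j k)))).eval (∑ k, Xk θ k) * f.eval 0 ≤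
      (NN fun k => sh (Xk θ k) (if k = 0 ∨ k = 1 then A' θ j k else at' θ k)).eval (∑ k, Xk θ k) *
      (NN fun k => sh (Xk θ k) (if k = 0 ∨ k = 1 then at' θ k else A' θ j k)).eval
        (∑ k, Xk θ k) := by
  by_cases hj : ∀ k, 0 < θ k (j k)
  · set a := ∑ k, Xk θ k with ha
    have hX : ∀ k, 0 < Xk θ k := fun k =>
      Finset.sum_pos' (fun i _ => hθ k i) ⟨j k, mem_univ _, hj k⟩
    have ha0 : 0 < a := Finset.sum_pos (fun k _ => hX k) ⟨0, mem_univ _⟩
    have hn : ∀ S, 0 < (NT θ j S).eval a := fun S => NT_pos θ j hθ hj S a le_rfl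
    have hrr := fun S => rr_bound (p := NT θ j S) (a := a)
      (fun u hu => NT_pos θ j hθ hj S u hu) (NT_up θ j hθ hj S)
    have hρ : ∀ S, 0 < a - (derivative (NT θ j S)).eval a / (NT θ j S).eval a := fun S =>
      NT_rate θ j hθ hj S
    have hE := rowE (NT θ j) f a ha0 hn (fun S => (hrr S).1) hρ (by
      rw [hf, NN_at θ j])
    have hNT0 : NN (fun k => sh (Xk θ k) (A' θ j k)) = NT θ j ∅ := by
      unfold NT
      refine congrArg NN (funext fun k => ?_)
      simp
    rw [hNT0]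
    set n : Finset (Fin 4) → ℝ := fun S => (NT θ j S).eval a with hndef
    set ρ : Finset (Fin 4) → ℝ := fun S => a - (derivative (NT θ j S)).eval a / (NT θ j S).eval a
      with hρdef
    have hDDρ : ∀ S, (DD (NT θ j S)).eval a = n S * ρ S := by
      intro S
      have := (hn S).ne'
      rw [eval_DD]
      simp only [hndef, hρdef]
      field_simp
    have h12 : (NN fun k => sh (Xk θ k) (if k = 0 ∨ k = 1 then A' θ j k else at' θ k)).eval a
        = (DD (DD (NT θ j ∅))).eval a + n {2} * ρ {2} + n {3} * ρ {3} + n {2, 3} := by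
      rw [NN_two θ j 2 3 (by decide) _ (by simp) (by simp) (by
        intro k h2 h3
        have : k = 0 ∨ k = 1 := by
          revert h2 h3; revert k; decide
        rw [if_pos this])]
      rw [eval_add, eval_add, eval_add, hDDρ, hDDρ]
    have h34 : (NN fun k => sh (Xk θ k) (if k = 0 ∨ k = 1 then at' θ k else A' θ j k)).eval a
        = (DD (DD (NT θ j ∅))).eval a + n {0} * ρ {0} + n {1} * ρ {1} + n {0, 1} := by
      rw [NN_two θ j 0 1 (by decide) _ (by simp) (by simp) (by
        intro k h2 h3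
        have : ¬ (k = 0 ∨ k = 1) := by
          rintro (h | h)
          · exact h2 h
          · exact h3 h
        rw [if_neg this])]
      rw [eval_add, eval_add, eval_add, hDDρ, hDDρ]
    refine rowA n ρ _ _ _ _ hn hρ ?_ ?_ ?_ h12 h34 ?_ ?_ hf0 hE
    · intro S i hi
      have h := NT_mono θ j hθ hj S i hi a
      have h1 := hn S
      have h2 := hn (insert i S)
      have : (derivative (NT θ j (insert i S))).eval a / (NT θ j (insert i S)).eval a
          ≤ (derivative (NT θ j S)).eval a / (NT θ j S).eval a := by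
        rw [div_le_div_iff₀ h2 h1]
        linarith
      simp only [hρdef]
      linarith
    · intro S i i' hi hi' hne
      exact NT_sub θ j hθ hj S i i' hi hi' hne a
    · have h := (hrr ∅).2
      have h1 := hn ∅
      have e : (DD (DD (NT θ j ∅))).eval a
          = a ^ 2 * (NT θ j ∅).eval a - 2 * a * (derivative (NT θ j ∅)).eval a
            + (derivative (derivative (NT θ j ∅))).eval a - (NT θ j ∅).eval a := by
        rw [eval_DD, eval_DD]
        unfold DD
        rw [derivative_sub, derivative_mul, derivative_X]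
        simp only [eval_sub, eval_add, eval_mul, eval_X, one_mul]
        ring
      rw [e]
      have e2 : n ∅ * ρ ∅ ^ 2 = a ^ 2 * (NT θ j ∅).eval a
          - 2 * a * (derivative (NT θ j ∅)).eval a
          + (derivative (NT θ j ∅)).eval a ^ 2 / (NT θ j ∅).eval a := by
        simp only [hndef, hρdef]
        field_simp
        ring
      rw [e2]
      have h3 : (derivative (derivative (NT θ j ∅))).eval a
          ≤ (derivative (NT θ j ∅)).eval a ^ 2 / (NT θ j ∅).eval a := by
        rw [le_div_iff₀ h1]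
        linarith
      linarith
    · exact (cls_pos θ j hθ hj (fun k => if k = 0 ∨ k = 1 then A' θ j k else at' θ k) (by
        intro k
        split_ifs
        · exact Or.inr (Or.inr rfl)
        · exact Or.inl rfl) a le_rfl).le
    · exact (cls_pos θ j hθ hj (fun k => if k = 0 ∨ k = 1 then at' θ k else A' θ j k) (by
        intro k
        split_ifs
        · exact Or.inl rfl
        · exact Or.inr (Or.inr rfl)) a le_rfl).le
  · push Not at hj
    obtain ⟨k, hk⟩ := hj
    have hk0 : θ k (j k) = 0 := le_antisymm hk (hθ k _)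
    have hA : sh (Xk θ k) (A' θ j k) = 0 := by
      unfold A'
      rw [hk0, C_0, zero_mul, sh_zero]
    rw [NN_zero (fun k => sh (Xk θ k) (A' θ j k)) k hA, DD_zero, DD_zero, eval_zero, zero_mul]
    by_cases h01 : k = 0 ∨ k = 1
    · rw [NN_zero (fun k => sh (Xk θ k) (if k = 0 ∨ k = 1 then A' θ j k else at' θ k)) k
        (by rw [if_pos h01, hA]), eval_zero, zero_mul]
    · rw [NN_zero (fun k => sh (Xk θ k) (if k = 0 ∨ k = 1 then at' θ k else A' θ j k)) k
        (by rw [if_neg h01, hA]), eval_zero, mul_zero]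

end Pool.Agent.MJ
end

section

/-!
# Row b3: positivity with two marks in one class
-/

set_option autoImplicit false
set_option linter.unusedSectionVars false

namespace Pool.Agent.MJ

open Finset Polynomial
open scoped Classical

section PosClass
variable {ι : Type*} [Fintype ι]

/-- positivity and the derivative bound class by class, for products -/
theorem NN_pos_class (s : ι → Multiset ℝ) (hs : ∀ k, ∀ θ ∈ s k, 0 ≤ θ) (a : ι → ℝ) (u : ℝ)
    (hu : ∀ k, ∑ l ∈ univ.erase k, (s l).sum ≤ u - a k) (l : ι) :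
    (NN (Function.update (fun k => ((s k).map fun θ => 1 + C θ * (X - C (a k))).prod) l
      (derivative (((s l).map fun θ => 1 + C θ * (X - C (a l))).prod)))).eval u ≤
      (s l).sum *
        (NN fun k => ((s k).map fun θ => 1 + C θ * (X - C (a k))).prod).eval u := by
  have h0 : (fun k => ((s k).map fun θ => 1 + C θ * (X - C (a k))).prod) = pc a s := by
    funext k
    unfold pc pr
    congr 1
    refine Multiset.map_congr rfl fun θ _ => ?_
    rw [C_sub, C_mul, C_1]
    ring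
  have h0l : ((s l).map fun θ => 1 + C θ * (X - C (a l))).prod = pc a s l := congrFun h0 l
  obtain ⟨h1, h2⟩ := hl_pos (NNm_rec u) a s hs (fun k => by linarith [hu k])
  rw [h0, h0l]
  have h3 : (NN (Function.update (pc a s) l (derivative (pc a s l)))).eval u =
      ((s l).map fun θ => θ * NNm u (pc a (Function.update s l ((s l).erase θ)))).sum := by
    rw [← NNm_apply]
    have h4 : NNm u (Function.update (pc a s) l (derivative (pc a s l))) =
      (NNm u).toLinearMap (pc a s) l (derivative (pc a s l)) := rfl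
    rw [h4, derivative_pr, map_multiset_sum, Multiset.map_map]
    congr 1
    refine Multiset.map_congr rfl fun ζ _ => ?_
    rw [Function.comp_apply, map_smul, smul_eq_mul]
    congr 1
    have h6 : pc a (Function.update s l ((s l).erase ζ)) = Function.update (pc a s) l
        (pc a (Function.update s l ((s l).erase ζ)) l) :=
      pr_update (fun k θ => 1 - θ * a k) (fun _ θ => θ) s l ((s l).erase ζ)
    conv_rhs => rw [h6]
    rfl
  rw [h3]
  have h5 : (s l).sum * (NN (pc a s)).eval u = ((s l).map fun ζ => ζ * (NN (pc a s)).eval u).sum := by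
    rw [Multiset.sum_map_mul_right, Multiset.map_id']
  rw [h5]
  refine Multiset.sum_map_le_sum_map _ _ fun ζ hζ => ?_
  exact mul_le_mul_of_nonneg_left (h2 l ζ hζ) (hs l ζ hζ)

/-- extension of a multilinear inequality from products to positive combinations -/
theorem Cn_ext_aux (Φ : (ι → ℝ[X]) → ℝ)
    (hadd : ∀ (q : ι → ℝ[X]) (i : ι) (p p' : ℝ[X]), Φ (Function.update q i (p + p')) =
      Φ (Function.update q i p) + Φ (Function.update q i p'))
    (hmul : ∀ (q : ι → ℝ[X]) (i : ι) (c : ℝ) (p : ℝ[X]), Φ (Function.update q i (C c * p)) =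
      c * Φ (Function.update q i p))
    (a m : ι → ℝ) (h0 : ∀ q : ι → ℝ[X], (∀ k, q k ∈ Bs (a k) (m k)) → 0 ≤ Φ q)
    (A : Finset ι) : ∀ q : ι → ℝ[X], (∀ k ∈ A, Cn (a k) (m k) (q k)) →
      (∀ k, k ∉ A → q k ∈ Bs (a k) (m k)) → 0 ≤ Φ q := by
  induction A using Finset.induction_on with
  | empty => exact fun q _ hq => h0 q fun k => hq k (by simp)
  | insert i A hi ih =>
    intro q h1 h2
    have key : ∀ p, Cn (a i) (m i) p → 0 ≤ Φ (Function.update q i p) := by
      intro p hp
      induction hp with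
      | base hp =>
        refine ih _ (fun k hk => ?_) (fun k hk => ?_)
        · have : k ≠ i := fun e => hi (e ▸ hk)
          rw [Function.update_of_ne this]
          exact h1 k (mem_insert_of_mem hk)
        · by_cases hki : k = i
          · subst hki
            rw [Function.update_self]
            exact hp
          · rw [Function.update_of_ne hki]
            exact h2 k (by simp [hki, hk])
      | @add p p' c _ _ hc ih1 ih2 =>
        rw [hadd, hmul]
        positivity
      | @smul p c hc _ ih1 =>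
        rw [hmul]
        positivity
    have := key (q i) (h1 i (mem_insert_self i A))
    rwa [Function.update_eq_self] at this

theorem Cn_ext (Φ : (ι → ℝ[X]) → ℝ)
    (hadd : ∀ (q : ι → ℝ[X]) (i : ι) (p p' : ℝ[X]), Φ (Function.update q i (p + p')) =
      Φ (Function.update q i p) + Φ (Function.update q i p'))
    (hmul : ∀ (q : ι → ℝ[X]) (i : ι) (c : ℝ) (p : ℝ[X]), Φ (Function.update q i (C c * p)) =
      c * Φ (Function.update q i p))
    (a m : ι → ℝ) (h0 : ∀ q : ι → ℝ[X], (∀ k, q k ∈ Bs (a k) (m k)) → 0 ≤ Φ q)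
    (q : ι → ℝ[X]) (hq : ∀ k, Cn (a k) (m k) (q k)) : 0 ≤ Φ q :=
  Cn_ext_aux Φ hadd hmul a m h0 univ q (fun k _ => hq k) (fun k hk => absurd (mem_univ k) hk)

/-- the derivative bound class by class -/
theorem Cn_deriv (a m : ι → ℝ) (u : ℝ) (hu : ∀ k, a k + ∑ l, m l ≤ u + m k)
    (q : ι → ℝ[X]) (hq : ∀ k, Cn (a k) (m k) (q k)) (l : ι) :
    (NN (Function.update q l (derivative (q l)))).eval u ≤ m l * (NN q).eval u := by
  have h := Cn_ext (fun q => m l * (NN q).eval u
    - (NN (Function.update q l (derivative (q l)))).eval u) ?_ ?_ a m ?_ q hq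
  · linarith
  · intro q i p p'
    by_cases hi : i = l
    · subst hi
      simp only [Function.update_self, Function.update_idem]
      rw [NN_add, derivative_add, NN_add, eval_add, eval_add]
      ring
    · have hne : l ≠ i := fun h => hi h.symm
      simp only [Function.update_of_ne hne]
      rw [Function.update_comm hi, Function.update_comm hi, Function.update_comm hi, NN_add,
        NN_add, eval_add, eval_add]
      ring
  · intro q i c p
    by_cases hi : i = l
    · subst hi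
      simp only [Function.update_self, Function.update_idem]
      rw [NN_C_mul, derivative_C_mul, NN_C_mul, eval_mul, eval_mul, eval_C]
      ring
    · have hne : l ≠ i := fun h => hi h.symm
      simp only [Function.update_of_ne hne]
      rw [Function.update_comm hi, Function.update_comm hi, NN_C_mul, NN_C_mul, eval_mul,
        eval_mul, eval_C]
      ring
  · intro q hq'
    choose s hs1 hs2 hs3 using hq'
    have e : q = fun k => ((s k).map fun θ => 1 + C θ * (X - C (a k))).prod := funext hs3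
    have hu' : ∀ k, ∑ l ∈ univ.erase k, (s l).sum ≤ u - a k := fun k => by
      have h3 : ∑ l ∈ univ.erase k, (s l).sum ≤ ∑ l ∈ univ.erase k, m l :=
        sum_le_sum fun l _ => hs2 l
      have h4 := add_sum_erase univ m (mem_univ k)
      have h5 := hu k
      linarith
    have h1 := (NN_pos s hs1 a u hu').1
    have h2 := NN_pos_class s hs1 a u hu' l
    have e2 : q l = ((s l).map fun θ => 1 + C θ * (X - C (a l))).prod := hs3 l
    rw [← e2] at h2
    rw [← e] at h1 h2
    have h3 := mul_le_mul_of_nonneg_right (hs2 l) h1.le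
    show 0 ≤ m l * (NN q).eval u - (NN (Function.update q l (derivative (q l)))).eval u
    linarith

/-- one additional factor `X - a` -/
theorem Cn_lin (a m : ι → ℝ) (u : ℝ) (hu : ∀ k, a k + ∑ l, m l ≤ u + m k)
    (q : ι → ℝ[X]) (hq : ∀ k, Cn (a k) (m k) (q k)) (k : ι) :
    0 ≤ (NN (Function.update q k ((X - C (a k)) * q k))).eval u := by
  rw [NN_lin, eval_sub, eval_mul, eval_sub, eval_X, eval_C, eval_finsetSum]
  have h1 := (Cn_pos a m u hu q hq).1
  have h2 : ∑ l ∈ univ.erase k, (NN (Function.update q l (derivative (q l)))).eval u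
      ≤ ∑ l ∈ univ.erase k, m l * (NN q).eval u :=
    sum_le_sum fun l _ => Cn_deriv a m u hu q hq l
  rw [← sum_mul] at h2
  have h4 := add_sum_erase univ m (mem_univ k)
  have h5 := hu k
  have h6 : 0 ≤ (u - a k - ∑ l ∈ univ.erase k, m l) * (NN q).eval u :=
    mul_nonneg (by linarith) h1.le
  nlinarith

/-- positive combinations with a possible factor `X - a` -/
def Cp (a m : ℝ) (p : ℝ[X]) : Prop :=
  ∃ p1 p2, Cn a m p1 ∧ (p2 = 0 ∨ Cn a m p2) ∧ p = p1 + (X - C a) * p2

/-- positivity for one class in `Cp` -/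
theorem Cp_pos (a m : ι → ℝ) (u : ℝ) (hu : ∀ k, a k + ∑ l, m l ≤ u + m k)
    (q : ι → ℝ[X]) (k : ι) (hk : Cp (a k) (m k) (q k))
    (hq : ∀ l, l ≠ k → Cn (a l) (m l) (q l)) : 0 < (NN q).eval u := by
  obtain ⟨p1, p2, h1, h2, h3⟩ := hk
  have e : q = Function.update q k (p1 + (X - C (a k)) * p2) := by
    rw [← h3, Function.update_eq_self]
  rw [e, NN_add, eval_add]
  have hcn : ∀ p, Cn (a k) (m k) p → ∀ l, Cn (a l) (m l) (Function.update q k p l) := by
    intro p hp l
    by_cases hl : l = k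
    · subst hl; rwa [Function.update_self]
    · rw [Function.update_of_ne hl]; exact hq l hl
  have hp1 := (Cn_pos a m u hu _ (hcn p1 h1)).1
  rcases h2 with h2 | h2
  · rw [h2, mul_zero]
    have h0 : NN (Function.update q k 0) = 0 := by
      have := NN_C_mul q k 0 0
      rw [mul_zero, C_0, zero_mul] at this
      exact this
    rw [h0, eval_zero, add_zero]
    exact hp1
  · have hp2 := Cn_lin a m u hu _ (hcn p2 h2) k
    rw [Function.update_self, Function.update_idem] at hp2
    linarith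

end PosClass

section Cone

theorem Cn_sum {α : Type*} (a m : ℝ) (T : Finset α) (w : α → ℝ) (p : α → ℝ[X])
    (hw : ∀ F ∈ T, 0 ≤ w F) (hp : ∀ F ∈ T, Cn a m (p F)) {F0 : α} (h0 : F0 ∈ T)
    (hw0 : 0 < w F0) : Cn a m (∑ F ∈ T, C (w F) * p F) := by
  have key : ∀ T' ⊆ T.erase F0, Cn a m (C (w F0) * p F0 + ∑ F ∈ T', C (w F) * p F) := by
    intro T'
    induction T' using Finset.induction_on with
    | empty =>
      intro _
      rw [sum_empty, add_zero]
      exact Cn.smul hw0 (hp F0 h0)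
    | insert F T' hF ih =>
      intro hs
      have h1 := ih fun x hx => hs (mem_insert_of_mem hx)
      have hFT : F ∈ T := mem_of_mem_erase (hs (mem_insert_self F T'))
      rw [sum_insert hF, add_comm (C (w F) * _), ← add_assoc]
      exact Cn.add h1 (hp F hFT) (hw F hFT)
  rw [← add_sum_erase T _ h0]
  exact key _ (Subset.refl _)

theorem Cn_sum' {α : Type*} (a m : ℝ) (T : Finset α) (w : α → ℝ) (p : α → ℝ[X])
    (hw : ∀ F ∈ T, 0 ≤ w F) (hp : ∀ F ∈ T, Cn a m (p F)) :
    (∑ F ∈ T, C (w F) * p F) = 0 ∨ Cn a m (∑ F ∈ T, C (w F) * p F) := by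
  by_cases h : ∃ F ∈ T, 0 < w F
  · obtain ⟨F0, h0, hw0⟩ := h
    exact Or.inr (Cn_sum a m T w p hw hp h0 hw0)
  · push Not at h
    refine Or.inl (sum_eq_zero fun F hF => ?_)
    rw [le_antisymm (h F hF) (hw F hF), C_0, zero_mul]

theorem Cp_sum {α : Type*} (a m : ℝ) (T : Finset α) (w : α → ℝ) (p : α → ℝ[X])
    (hw : ∀ F ∈ T, 0 ≤ w F) (hp : ∀ F ∈ T, Cp a m (p F)) {F0 : α} (h0 : F0 ∈ T)
    (hw0 : 0 < w F0) : Cp a m (∑ F ∈ T, C (w F) * p F) := by
  choose! p1 p2 h1 h2 h3 using hp
  refine ⟨∑ F ∈ T, C (w F) * p1 F, ∑ F ∈ T, C (w F) * p2 F,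
    Cn_sum a m T w p1 hw h1 h0 hw0, ?_, ?_⟩
  · -- split off the zero ones
    set T2 := T.filter fun F => p2 F ≠ 0 with hT2
    have e : ∑ F ∈ T, C (w F) * p2 F = ∑ F ∈ T2, C (w F) * p2 F := by
      rw [hT2, sum_filter]
      refine sum_congr rfl fun F _ => ?_
      split_ifs with h
      · rfl
      · push Not at h
        rw [h, mul_zero]
    rw [e]
    refine Cn_sum' a m T2 w p2 (fun F hF => hw F (mem_filter.1 hF).1) fun F hF => ?_
    have hF' := mem_filter.1 hF
    rcases h2 F hF'.1 with h | h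
    · exact absurd h hF'.2
    · exact h
  · rw [mul_sum, ← sum_add_distrib]
    refine sum_congr rfl fun F hF => ?_
    conv_lhs => rw [h3 F hF]
    ring

theorem Cp_of_Cn {a m : ℝ} {p : ℝ[X]} (h : Cn a m p) : Cp a m p :=
  ⟨p, 0, h, Or.inl rfl, by simp⟩

variable {J : Type*}

theorem Pf_erase (s : Finset J) (θ : J → ℝ) {α : J} (hα : α ∈ s) :
    Pf s θ = (1 + C (θ α) * X) * Pf (s.erase α) θ := by
  unfold Pf
  rw [← mul_prod_erase s _ hα]

theorem Qf_erase (s : Finset J) (θ : J → ℝ) {α : J} (hα : α ∈ s) :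
    Qf s θ = C (θ α ^ 2) * Pf (s.erase α) θ + (1 + C (θ α) * X) * Qf (s.erase α) θ := by
  unfold Qf
  rw [← add_sum_erase s _ hα, mul_sum]
  congr 1
  refine sum_congr rfl fun i hi => ?_
  have hi' := mem_erase.1 hi
  have hαi : α ∈ s.erase i := mem_erase.2 ⟨fun h => hi'.1 h.symm, hα⟩
  rw [← mul_prod_erase (s.erase i) _ hαi, erase_right_comm]
  ring

/-- the difference of two consecutive class polynomials -/
theorem PQ_sub (s : Finset J) (θ : J → ℝ) {α : J} (hα : α ∈ s) :
    (Pf s θ + Qf s θ) - (Pf (s.erase α) θ + Qf (s.erase α) θ)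
      = C (θ α ^ 2) * Pf (s.erase α) θ
        + X * (C (θ α) * (Pf (s.erase α) θ + Qf (s.erase α) θ)) := by
  rw [Pf_erase s θ hα, Qf_erase s θ hα]
  ring

/-- the difference is in the cone with a linear factor -/
theorem Cp_PQ_sub (a m : ℝ) (s : Finset J) (θ : J → ℝ) (hθ : ∀ i, 0 ≤ θ i)
    (hm : ∑ i ∈ s, θ i ≤ m) {α : J} (hα : α ∈ s) (hα0 : 0 < θ α) :
    Cp a m (sh a ((Pf s θ + Qf s θ) - (Pf (s.erase α) θ + Qf (s.erase α) θ))) := by
  have hm' : ∑ i ∈ s.erase α, θ i ≤ m :=
    (sum_le_sum_of_subset_of_nonneg (erase_subset α s) fun i _ _ => hθ i).trans hm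
  refine ⟨sh a (C (θ α ^ 2) * Pf (s.erase α) θ),
    sh a (C (θ α) * (Pf (s.erase α) θ + Qf (s.erase α) θ)), ?_, Or.inr ?_, ?_⟩
  · rw [sh_C_mul]
    exact Cn.smul (by positivity) (Cn.base (Bs_Pf a m _ θ hθ hm'))
  · rw [sh_C_mul]
    exact Cn.smul hα0 (Cn_PQ a m _ θ hθ hm')
  · rw [PQ_sub s θ hα, sh_add]
    congr 1
    simp [sh]

end Cone

end Pool.Agent.MJ
end

section

/-!
Bridge between the class with two marks and the hypotheses of `b5`.
-/

set_option autoImplicit false
set_option linter.unusedSectionVars false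

namespace Pool.Agent.MJ

open Finset Polynomial
open scoped Classical

/-! ### Zero-free pencils -/

/-- no zeros in the upper half plane -/
def ZF (p : ℝ[X]) : Prop := ∀ z : ℂ, 0 < z.im → aeval z p ≠ 0

/-- `p - t q` has no zeros in the upper half plane -/
def IL (p q : ℝ[X]) : Prop := ∀ z : ℂ, 0 < z.im → ∀ t : ℂ, 0 < t.im → aeval z p - t * aeval z q ≠ 0

/-- the same with two parameters -/
def IL2 (p00 p10 p01 p11 : ℝ[X]) : Prop :=
  ∀ z : ℂ, 0 < z.im → ∀ t t' : ℂ, 0 < t.im → 0 < t'.im →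
      aeval z p00 - t * aeval z p10 - t' * aeval z p01 + t * t' * aeval z p11 ≠ 0

theorem neg_inv_im {t : ℂ} (ht : 0 < t.im) : 0 < (-t⁻¹).im := by
  rw [Complex.neg_im, Complex.inv_im, neg_div, neg_neg]
  exact div_pos ht (Complex.normSq_pos.2 fun h => by rw [h] at ht; simp at ht)

theorem ne_of_im {t : ℂ} (ht : 0 < t.im) : t ≠ 0 := fun h => by rw [h] at ht; simp at ht

/-- open mapping: a quotient which avoids the upper half plane has no zero. -/
theorem om_aux (E D : ℂ[X]) (hD : D ≠ 0) {z0 : ℂ} (hz0 : 0 < z0.im) (hE : E.eval z0 ≠ 0)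
    (h : ∀ z : ℂ, 0 < z.im → ∀ w : ℂ, 0 < w.im → D.eval z ≠ w * E.eval z) : D.eval z0 ≠ 0 := by
  intro hD0
  set R : ℂ → ℂ := fun z => D.eval z / E.eval z with hR
  have han : AnalyticAt ℂ R z0 := by
    have h1 : AnalyticAt ℂ (fun z => D.eval z) z0 := by
      have := AnalyticAt.aeval_polynomial (𝕜 := ℂ) (z := z0) (f := fun z : ℂ => z) analyticAt_id D
      simpa using this
    have h2 : AnalyticAt ℂ (fun z => E.eval z) z0 := by
      have := AnalyticAt.aeval_polynomial (𝕜 := ℂ) (z := z0) (f := fun z : ℂ => z) analyticAt_id E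
      simpa using this
    exact h1.div h2 hE
  have hEev : ∀ᶠ z in nhds z0, E.eval z ≠ 0 :=
    (E.continuous.continuousAt).eventually_ne hE
  have hHev : ∀ᶠ z : ℂ in nhds z0, 0 < z.im :=
    (Complex.continuous_im.continuousAt).eventually (lt_mem_nhds hz0)
  rcases han.eventually_constant_or_nhds_le_map_nhds with hc | hc
  · -- `D` vanishes identically
    have h1 : ∀ᶠ z in nhds z0, D.eval z = 0 := by
      filter_upwards [hc, hEev] with z hz1 hz2
      have h2 : R z0 = 0 := by simp [hR, hD0]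
      rw [h2] at hz1
      exact (div_eq_zero_iff.1 hz1).resolve_right hz2
    apply hD
    refine Polynomial.eq_zero_of_infinite_isRoot D ?_
    exact infinite_of_mem_nhds z0 h1
  · have h1 : R z0 = 0 := by simp [hR, hD0]
    rw [h1] at hc
    have h2 : {w : ℂ | ¬ 0 < w.im} ∈ nhds (0 : ℂ) := by
      refine hc ?_
      rw [Filter.mem_map]
      filter_upwards [hEev, hHev] with z hz1 hz2 hz3
      exact h z hz2 (R z) hz3 (by simp only [hR]; rw [div_mul_cancel₀ _ hz1])
    obtain ⟨e, he, hball⟩ := Metric.mem_nhds_iff.1 h2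
    have h3 : ((e / 2 : ℝ) : ℂ) * Complex.I ∈ Metric.ball (0 : ℂ) e := by
      rw [mem_ball_zero_iff]
      simp only [norm_mul, Complex.norm_real, Complex.norm_I, mul_one, Real.norm_eq_abs]
      rw [abs_of_pos (by positivity)]
      linarith
    have h4 := hball h3
    apply h4
    simp
    positivity

/-- the coefficient of the parameter has no zeros -/
theorem om_D (E D : ℂ[X]) (hD : D ≠ 0)
    (h : ∀ z : ℂ, 0 < z.im → ∀ v : ℂ, 0 < v.im → E.eval z + v * D.eval z ≠ 0) :
    ∀ z : ℂ, 0 < z.im → D.eval z ≠ 0 := by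
  intro z0 hz0 h0
  have hE : E.eval z0 ≠ 0 := by
    intro h1
    exact h z0 hz0 Complex.I (by simp) (by rw [h0, h1]; simp)
  refine om_aux E D hD hz0 hE (fun z hz w hw h1 => ?_) h0
  refine h z hz (-w⁻¹) (neg_inv_im hw) ?_
  rw [h1]
  have := ne_of_im hw
  field_simp
  ring

/-- the constant coefficient has no zeros -/
theorem om_E (E D : ℂ[X]) (hE : E ≠ 0)
    (h : ∀ z : ℂ, 0 < z.im → ∀ v : ℂ, 0 < v.im → E.eval z + v * D.eval z ≠ 0) :
    ∀ z : ℂ, 0 < z.im → E.eval z ≠ 0 := by
  intro z0 hz0 h0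
  have hD : D.eval z0 ≠ 0 := by
    intro h1
    exact h z0 hz0 Complex.I (by simp) (by rw [h0, h1]; simp)
  have hD' : (-D).eval z0 ≠ 0 := by
    rw [eval_neg]; exact neg_ne_zero.2 hD
  refine om_aux (-D) E hE hz0 hD' (fun z hz w hw h1 => ?_) h0
  refine h z hz w hw ?_
  rw [h1, eval_neg]
  ring

/-- Laguerre's inequality -/
theorem lag_aux (R : Multiset ℝ) (a : ℝ) :
    ((R.map fun r => (X - C r : ℝ[X])).prod).eval a *
      (derivative (derivative ((R.map fun r => (X - C r : ℝ[X])).prod))).eval a ≤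
      (derivative ((R.map fun r => (X - C r : ℝ[X])).prod)).eval a ^ 2 := by
  induction R using Multiset.induction_on with
  | empty => simp
  | cons r R ih =>
    set q : ℝ[X] := (R.map fun r => (X - C r : ℝ[X])).prod with hq
    rw [Multiset.map_cons, Multiset.prod_cons, ← hq]
    have e1 : ((X - C r) * q).eval a = (a - r) * q.eval a := by simp
    have e2 : (derivative ((X - C r) * q)).eval a = q.eval a + (a - r) * (derivative q).eval a := by
      simp [derivative_mul]
    have e3 : (derivative (derivative ((X - C r) * q))).eval a =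
        2 * (derivative q).eval a + (a - r) * (derivative (derivative q)).eval a := by
      simp [derivative_mul]
      ring
    rw [e1, e2, e3]
    nlinarith [mul_nonneg (sq_nonneg (a - r)) (sub_nonneg.2 ih), sq_nonneg (q.eval a)]

theorem laguerre {p : ℝ[X]} (hup : ZF p) (a : ℝ) :
    p.eval a * (derivative (derivative p)).eval a ≤ (derivative p).eval a ^ 2 := by
  have hs := splits_of_up hup
  have h4 := lag_aux p.roots a
  set q : ℝ[X] := (p.roots.map fun r => (X - C r : ℝ[X])).prod with hq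
  have hp : p = C p.leadingCoeff * q := hs.eq_prod_roots
  set c := p.leadingCoeff with hc
  rw [hp]
  simp only [derivative_C_mul, eval_mul, eval_C]
  nlinarith [mul_le_mul_of_nonneg_left h4 (sq_nonneg c)]

/-! ### Class functionals -/

section NS
variable {ι : Type*} [Fintype ι]

/-- the functional with the shifts -/
noncomputable def NS (a : ι → ℝ) (c : ι → ℝ[X]) : ℝ[X] := NN fun k => sh (a k) (c k)

/-- complex class polynomials -/
noncomputable def cx (a : ι → ℝ) (c : ι → ℝ[X]) (k : ι) : ℂ[X] :=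
  (sh (a k) (c k)).map (algebraMap ℝ ℂ)

theorem aeval_NS (a : ι → ℝ) (c : ι → ℝ[X]) (z : ℂ) :
    aeval z (NS a c) = (NN (cx a c)).eval z := by
  rw [← eval_map_algebraMap, NS, NN_map]
  rfl

theorem cx_update (a : ι → ℝ) (c : ι → ℝ[X]) (k : ι) (p : ℝ[X]) :
    cx a (Function.update c k p) =
      Function.update (cx a c) k ((sh (a k) p).map (algebraMap ℝ ℂ)) := by
  funext l
  by_cases h : l = k
  · subst h
    rw [Function.update_self, cx, Function.update_self]
  · rw [Function.update_of_ne h, cx, Function.update_of_ne h, cx]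

theorem cx_up (a : ι → ℝ) (c : ι → ℝ[X]) (k : ι) (h : ZF (c k)) (z : ℂ) (hz : 0 < z.im) :
    (cx a c k).eval z ≠ 0 := by
  rw [cx, eval_map_sh]
  exact h _ (by simpa using hz)

theorem NS_ZF (a : ι → ℝ) (c : ι → ℝ[X]) (h : ∀ k, ZF (c k)) : ZF (NS a c) := by
  intro z hz
  rw [aeval_NS]
  exact NN_up _ (fun k w hw => cx_up a c k (h k) w hw) hz

theorem NS_zero (a : ι → ℝ) (c : ι → ℝ[X]) (k : ι) (h : c k = 0) : NS a c = 0 := by
  refine NN_zero _ k ?_
  rw [h, sh_zero]

theorem NS_mono (a : ι → ℝ) (c : ι → ℝ[X]) (k : ι) {p q : ℝ[X]} (hpq : IL p q)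
    (hc : ∀ l, l ≠ k → c l = 0 ∨ ZF (c l)) (x : ℝ) :
    (derivative (NS a (Function.update c k p))).eval x * (NS a (Function.update c k q)).eval x ≤
      (NS a (Function.update c k p)).eval x *
        (derivative (NS a (Function.update c k q))).eval x := by
  by_cases hz : ∃ l, l ≠ k ∧ c l = 0
  · obtain ⟨l, hl, h0⟩ := hz
    rw [NS_zero a (Function.update c k p) l (by rw [Function.update_of_ne hl, h0]),
      NS_zero a (Function.update c k q) l (by rw [Function.update_of_ne hl, h0])]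
    simp
  push Not at hz
  refine interl (fun z hz' t ht => ?_) x
  have h1 : aeval z (NS a (Function.update c k p)) - t * aeval z (NS a (Function.update c k q)) =
      (NN (Function.update (cx a c) k ((sh (a k) p).map (algebraMap ℝ ℂ) +
        C (-t) * (sh (a k) q).map (algebraMap ℝ ℂ)))).eval z := by
    rw [NN_add_C_mul, ← cx_update, ← cx_update, aeval_NS, aeval_NS]
    ring
  rw [h1]
  refine NN_up _ (fun l w hw => ?_) hz'
  by_cases h : l = k
  · subst h
    rw [Function.update_self, eval_add, eval_mul, eval_C, eval_map_sh, eval_map_sh]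
    have := hpq (w - (a l : ℂ)) (by simpa using hw) t ht
    intro h2
    apply this
    rw [← h2]
    ring
  · rw [Function.update_of_ne h]
    exact cx_up a c l ((hc l h).resolve_left (hz l h)) w hw

theorem NN_bilin (Q : ι → ℂ[X]) {k l : ι} (hkl : k ≠ l) (p q p' q' : ℂ[X]) (t t' z : ℂ) :
    (NN (Function.update (Function.update Q l (p' + C t' * q')) k (p + C t * q))).eval z =
      (NN (Function.update (Function.update Q l p') k p)).eval z +
      t * (NN (Function.update (Function.update Q l p') k q)).eval z +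
      t' * (NN (Function.update (Function.update Q l q') k p)).eval z +
      t * t' * (NN (Function.update (Function.update Q l q') k q)).eval z := by
  have key : ∀ r, (NN (Function.update (Function.update Q l (p' + C t' * q')) k r)).eval z =
      (NN (Function.update (Function.update Q l p') k r)).eval z +
      t' * (NN (Function.update (Function.update Q l q') k r)).eval z := by
    intro r
    conv_lhs => rw [Function.update_comm hkl.symm, NN_add_C_mul, Function.update_comm hkl,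
      Function.update_comm hkl]
  rw [NN_add_C_mul, key, key]
  ring

theorem NS_ray (a : ι → ℝ) (c : ι → ℝ[X]) {k l : ι} (hkl : k ≠ l) {p q p' q' : ℝ[X]}
    (hpq : IL p q) (hpq' : IL p' q') (hc : ∀ m, m ≠ k → m ≠ l → c m = 0 ∨ ZF (c m)) (x : ℝ) :
    (NS a (Function.update (Function.update c l q') k q)).eval x *
      (NS a (Function.update (Function.update c l p') k p)).eval x ≤
    (NS a (Function.update (Function.update c l q') k p)).eval x *
      (NS a (Function.update (Function.update c l p') k q)).eval x := by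
  by_cases hz : ∃ m, m ≠ k ∧ m ≠ l ∧ c m = 0
  · obtain ⟨m, hm, hm', h0⟩ := hz
    have e : ∀ r r' : ℝ[X], NS a (Function.update (Function.update c l r') k r) = 0 := by
      intro r r'
      exact NS_zero a _ m (by rw [Function.update_of_ne hm, Function.update_of_ne hm', h0])
    rw [e, e, e]
    simp
  push Not at hz
  have key := ray_two (p00 := NS a (Function.update (Function.update c l p') k p))
    (p10 := NS a (Function.update (Function.update c l p') k q))
    (p01 := NS a (Function.update (Function.update c l q') k p))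
    (p11 := NS a (Function.update (Function.update c l q') k q)) (fun z hz' t t' ht ht' => ?_) x
  · linarith
  have h1 : aeval z (NS a (Function.update (Function.update c l p') k p)) -
      t * aeval z (NS a (Function.update (Function.update c l p') k q)) -
      t' * aeval z (NS a (Function.update (Function.update c l q') k p)) +
      t * t' * aeval z (NS a (Function.update (Function.update c l q') k q)) =
      (NN (Function.update (Function.update (cx a c) l ((sh (a l) p').map (algebraMap ℝ ℂ) +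
        C (-t') * (sh (a l) q').map (algebraMap ℝ ℂ))) k ((sh (a k) p).map (algebraMap ℝ ℂ) +
        C (-t) * (sh (a k) q).map (algebraMap ℝ ℂ)))).eval z := by
    rw [NN_bilin _ hkl]
    simp only [← cx_update, ← aeval_NS]
    ring
  rw [h1]
  refine NN_up _ (fun m w hw => ?_) hz'
  by_cases h : m = k
  · subst h
    rw [Function.update_self, eval_add, eval_mul, eval_C, eval_map_sh, eval_map_sh]
    have := hpq (w - (a m : ℂ)) (by simpa using hw) t ht
    intro h2
    apply this
    rw [← h2]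
    ring
  · rw [Function.update_of_ne h]
    by_cases h' : m = l
    · subst h'
      rw [Function.update_self, eval_add, eval_mul, eval_C, eval_map_sh, eval_map_sh]
      have := hpq' (w - (a m : ℂ)) (by simpa using hw) t' ht'
      intro h2
      apply this
      rw [← h2]
      ring
    · rw [Function.update_of_ne h']
      exact cx_up a c m ((hc m h h').resolve_left (hz m h h')) w hw

theorem NS_ray_one (a : ι → ℝ) (c : ι → ℝ[X]) (k : ι) {p00 p10 p01 p11 : ℝ[X]}
    (h4 : IL2 p00 p10 p01 p11) (hc : ∀ m, m ≠ k → c m = 0 ∨ ZF (c m)) (x : ℝ) :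
    (NS a (Function.update c k p11)).eval x * (NS a (Function.update c k p00)).eval x ≤
    (NS a (Function.update c k p10)).eval x * (NS a (Function.update c k p01)).eval x := by
  by_cases hz : ∃ m, m ≠ k ∧ c m = 0
  · obtain ⟨m, hm, h0⟩ := hz
    have e : ∀ r : ℝ[X], NS a (Function.update c k r) = 0 := by
      intro r
      exact NS_zero a _ m (by rw [Function.update_of_ne hm, h0])
    rw [e, e, e]
    simp
  push Not at hz
  have key := ray_two (p00 := NS a (Function.update c k p00))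
    (p10 := NS a (Function.update c k p10)) (p01 := NS a (Function.update c k p01))
    (p11 := NS a (Function.update c k p11)) (fun z hz' t t' ht ht' => ?_) x
  · linarith
  have h1 : aeval z (NS a (Function.update c k p00)) -
      t * aeval z (NS a (Function.update c k p10)) -
      t' * aeval z (NS a (Function.update c k p01)) +
      t * t' * aeval z (NS a (Function.update c k p11)) =
      (NN (Function.update (cx a c) k ((sh (a k) p00).map (algebraMap ℝ ℂ) +
        C (-t) * (sh (a k) p10).map (algebraMap ℝ ℂ) +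
        C (-t') * (sh (a k) p01).map (algebraMap ℝ ℂ) +
        C (t * t') * (sh (a k) p11).map (algebraMap ℝ ℂ)))).eval z := by
    rw [NN_add_C_mul, NN_add_C_mul, NN_add_C_mul]
    simp only [← cx_update, ← aeval_NS]
    ring
  rw [h1]
  refine NN_up _ (fun m w hw => ?_) hz'
  by_cases h : m = k
  · subst h
    rw [Function.update_self]
    simp only [eval_add, eval_mul, eval_C, eval_map_sh]
    have := h4 (w - (a m : ℂ)) (by simpa using hw) t t' ht ht'
    intro h2
    apply this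
    rw [← h2]
    ring
  · rw [Function.update_of_ne h]
    exact cx_up a c m ((hc m h).resolve_left (hz m h)) w hw

end NS

/-! ### The three classes -/

section N3

variable {J J' : Type*} [Fintype J] [Fintype J']

/-- class polynomial with the mark contracted -/
noncomputable def gt1 (θ : J → ℝ) (j : J) : ℝ[X] := Pf (univ.erase j) θ + Qf (univ.erase j) θ

/-- class polynomial with the mark as a pendant -/
noncomputable def A1 (θ : J → ℝ) (j : J) : ℝ[X] := C (θ j) * Pf (univ.erase j) θ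

theorem IL_gA (θ : J → ℝ) (hθ : ∀ i, 0 ≤ θ i) (j : J) (hj : 0 < θ j) : IL (gt1 θ j) (A1 θ j) := by
  intro w hw t ht
  obtain ⟨h1, σ, h2, h3, h4⟩ := aeval_PQ (univ.erase j) θ hθ hw
  rw [gt1, h4, A1, map_mul, aeval_C]
  have e : aeval w (Pf (univ.erase j) θ) * (1 + σ) -
      t * ((algebraMap ℝ ℂ) (θ j) * aeval w (Pf (univ.erase j) θ)) =
      aeval w (Pf (univ.erase j) θ) * (1 + σ - t * (θ j : ℂ)) := by
    simp only [Complex.coe_algebraMap]
    ring
  rw [e]
  refine mul_ne_zero h1 fun h => ?_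
  have h5 := congrArg Complex.im h
  simp only [Complex.sub_im, Complex.add_im, Complex.one_im, Complex.mul_im, Complex.ofReal_re,
    Complex.ofReal_im, mul_zero, zero_add, Complex.zero_im] at h5
  have := mul_pos ht hj
  linarith

theorem ZF_g (θ : J → ℝ) (hθ : ∀ i, 0 ≤ θ i) (j : J) : ZF (gt1 θ j) := by
  intro w hw
  obtain ⟨h1, σ, -, h3, h4⟩ := aeval_PQ (univ.erase j) θ hθ hw
  rw [gt1, h4]
  exact mul_ne_zero h1 h3

theorem ZF_A (θ : J → ℝ) (hθ : ∀ i, 0 ≤ θ i) (j : J) (hj : 0 < θ j) : ZF (A1 θ j) := by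
  intro w hw
  obtain ⟨h1, -⟩ := aeval_PQ (univ.erase j) θ hθ hw
  rw [A1, map_mul, aeval_C]
  refine mul_ne_zero ?_ h1
  simpa using hj.ne'

theorem Cn_g1 (θ : J → ℝ) (hθ : ∀ i, 0 ≤ θ i) (j : J) :
    Cn (∑ i, θ i) (∑ i, θ i) (sh (∑ i, θ i) (gt1 θ j)) :=
  Cn_PQ _ _ _ _ hθ (sum_le_sum_of_subset_of_nonneg (erase_subset j univ) fun i _ _ => hθ i)

theorem Cn_A1 (θ : J → ℝ) (hθ : ∀ i, 0 ≤ θ i) (j : J) (hj : 0 < θ j) :
    Cn (∑ i, θ i) (∑ i, θ i) (sh (∑ i, θ i) (A1 θ j)) := by
  unfold A1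
  rw [sh_C_mul]
  exact Cn.smul hj (Cn.base (Bs_Pf _ _ _ _ hθ
    (sum_le_sum_of_subset_of_nonneg (erase_subset j univ) fun i _ _ => hθ i)))

/-- positivity of the cones -/
theorem Cn_eval_pos {a m : ℝ} {p : ℝ[X]} (hp : Cn a m p) (u : ℝ) (hu : a ≤ u) : 0 < p.eval u := by
  induction hp with
  | base hp =>
    obtain ⟨s, h1, -, h3⟩ := hp
    rw [h3, eval_multiset_prod, Multiset.map_map]
    have h4 : ∀ s : Multiset ℝ, (∀ θ ∈ s, 0 ≤ θ) →
        0 < (Multiset.map (eval u ∘ fun θ => (1 + C θ * (X - C a) : ℝ[X])) s).prod := by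
      intro s
      induction s using Multiset.induction_on with
      | empty => simp
      | cons θ s ih =>
        intro h
        rw [Multiset.map_cons, Multiset.prod_cons]
        refine mul_pos ?_ (ih fun r hr => h r (Multiset.mem_cons_of_mem hr))
        have h0 := h θ (Multiset.mem_cons_self θ s)
        simp only [Function.comp_apply, eval_add, eval_one, eval_mul, eval_C, eval_sub, eval_X]
        have : 0 ≤ θ * (u - a) := mul_nonneg h0 (by linarith)
        linarith
    exact h4 s h1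
  | @add p p' c _ _ hc ih1 ih2 =>
    rw [eval_add, eval_mul, eval_C]
    positivity
  | @smul p c hc _ ih =>
    rw [eval_mul, eval_C]
    positivity

theorem Cp_eval_pos {a m : ℝ} {p : ℝ[X]} (hp : Cp a m p) (u : ℝ) (hu : a ≤ u) : 0 < p.eval u := by
  obtain ⟨p1, p2, h1, h2, h3⟩ := hp
  rw [h3, eval_add, eval_mul, eval_sub, eval_X, eval_C]
  have h4 := Cn_eval_pos h1 u hu
  rcases h2 with h2 | h2
  · rw [h2, eval_zero, mul_zero, add_zero]
    exact h4
  · have h5 := Cn_eval_pos h2 u hu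
    have : 0 ≤ (u - a) * p2.eval u := mul_nonneg (by linarith) h5.le
    linarith

theorem ne_zero_of_Cp {a m : ℝ} {p : ℝ[X]} (hp : Cp a m (sh a p)) : p ≠ 0 := by
  intro h
  have := Cp_eval_pos hp a le_rfl
  rw [h, sh_zero, eval_zero] at this
  exact lt_irrefl _ this

theorem Cp_mk {a m : ℝ} {p q : ℝ[X]} (hp : Cn a m (sh a p)) (hq : Cn a m (sh a q)) :
    Cp a m (sh a (p + X * q)) := by
  refine ⟨sh a p, sh a q, hp, Or.inr hq, ?_⟩
  rw [sh_add]
  congr 1
  simp [sh]

/-- What is used of the class with two marks. -/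
structure TM (L Ba Bc P2 : ℝ[X]) (X0 : ℝ) : Prop where
  ba : Cp X0 X0 (sh X0 Ba)
  bc : Cp X0 X0 (sh X0 Bc)
  p2 : Cn X0 X0 (sh X0 P2)
  st : ∀ z u v : ℂ, 0 < z.im → 0 < u.im → 0 < v.im →
    aeval z L + u * aeval z Bc + v * aeval z Ba + u * v * aeval z P2 ≠ 0

theorem pencil_ne (p : ℝ[X]) {q : ℝ[X]} (hq : q ≠ 0) {v : ℂ} (hv : 0 < v.im) :
    p.map (algebraMap ℝ ℂ) + C v * q.map (algebraMap ℝ ℂ) ≠ 0 := by
  intro h
  apply hq
  ext n
  have h1 := congrArg (fun r : ℂ[X] => (r.coeff n).im) h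
  simp only [coeff_add, coeff_map, coeff_C_mul, coeff_zero, Complex.zero_im, Complex.add_im,
    Complex.mul_im, Complex.coe_algebraMap, Complex.ofReal_im, Complex.ofReal_re, mul_zero,
    zero_add] at h1
  rw [coeff_zero]
  exact (mul_eq_zero.1 h1).resolve_left hv.ne'

theorem eval_pencil (p q : ℝ[X]) (v z : ℂ) :
    (p.map (algebraMap ℝ ℂ) + C v * q.map (algebraMap ℝ ℂ)).eval z =
      aeval z p + v * aeval z q := by
  rw [eval_add, eval_mul, eval_C, eval_map_algebraMap, eval_map_algebraMap]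

namespace TM
variable {L Ba Bc P2 : ℝ[X]} {X0 : ℝ} (h : TM L Ba Bc P2 X0)
include h

theorem symm : TM L Bc Ba P2 X0 :=
  ⟨h.bc, h.ba, h.p2, fun z u v hz hu hv => by
    have := h.st z v u hz hv hu
    intro h2
    apply this
    rw [← h2]
    ring⟩

theorem p2_ne : P2 ≠ 0 := ne_zero_of_Cp (Cp_of_Cn h.p2)

theorem factA (v : ℂ) (hv : 0 < v.im) (z : ℂ) (hz : 0 < z.im) :
    aeval z Bc + v * aeval z P2 ≠ 0 := by
  rw [← eval_pencil]
  refine om_D (L.map (algebraMap ℝ ℂ) + C v * Ba.map (algebraMap ℝ ℂ)) _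
    (pencil_ne Bc h.p2_ne hv) (fun z hz u hu => ?_) z hz
  rw [eval_pencil, eval_pencil]
  have := h.st z u v hz hu hv
  intro h2
  apply this
  rw [← h2]
  ring

theorem factB (v : ℂ) (hv : 0 < v.im) (z : ℂ) (hz : 0 < z.im) :
    aeval z L + v * aeval z Ba ≠ 0 := by
  rw [← eval_pencil]
  refine om_E _ (Bc.map (algebraMap ℝ ℂ) + C v * P2.map (algebraMap ℝ ℂ))
    (pencil_ne L (ne_zero_of_Cp h.ba) hv) (fun z hz u hu => ?_) z hz
  rw [eval_pencil, eval_pencil]
  have := h.st z u v hz hu hv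
  intro h2
  apply this
  rw [← h2]
  ring

theorem ZFa : ZF Ba := by
  intro z hz
  rw [← eval_map_algebraMap]
  refine om_D (L.map (algebraMap ℝ ℂ)) (Ba.map (algebraMap ℝ ℂ)) ?_ (fun z hz v hv => ?_) z hz
  · rw [Ne, Polynomial.map_eq_zero]
    exact ne_zero_of_Cp h.ba
  · rw [eval_map_algebraMap, eval_map_algebraMap]
    exact h.factB v hv z hz

theorem ZFc : ZF Bc := h.symm.ZFa

theorem ZFL : L = 0 ∨ ZF L := by
  by_cases hL : L = 0
  · exact Or.inl hL
  refine Or.inr fun z hz => ?_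
  rw [← eval_map_algebraMap]
  refine om_E (L.map (algebraMap ℝ ℂ)) (Ba.map (algebraMap ℝ ℂ)) ?_ (fun z hz v hv => ?_) z hz
  · rw [Ne, Polynomial.map_eq_zero]
    exact hL
  · rw [eval_map_algebraMap, eval_map_algebraMap]
    exact h.factB v hv z hz

theorem ZFp : ZF P2 := by
  intro z hz
  rw [← eval_map_algebraMap]
  refine om_D (Bc.map (algebraMap ℝ ℂ)) (P2.map (algebraMap ℝ ℂ)) ?_ (fun z hz v hv => ?_) z hz
  · rw [Ne, Polynomial.map_eq_zero]
    exact h.p2_ne
  · rw [eval_map_algebraMap, eval_map_algebraMap]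
    exact h.factA v hv z hz

theorem IL_pc : IL P2 Bc := by
  intro z hz t ht h2
  refine h.factA (-t⁻¹) (neg_inv_im ht) z hz ?_
  have ht0 := ne_of_im ht
  have e : aeval z Bc + -t⁻¹ * aeval z P2 = -t⁻¹ * (aeval z P2 - t * aeval z Bc) := by
    field_simp
    ring
  rw [e, h2, mul_zero]

theorem IL_pa : IL P2 Ba := h.symm.IL_pc

theorem IL_aL : IL Ba L := by
  intro z hz t ht h2
  refine h.factB (-t⁻¹) (neg_inv_im ht) z hz ?_
  have ht0 := ne_of_im ht
  have e : aeval z L + -t⁻¹ * aeval z Ba = -t⁻¹ * (aeval z Ba - t * aeval z L) := by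
    field_simp
    ring
  rw [e, h2, mul_zero]

theorem IL_cL : IL Bc L := h.symm.IL_aL

theorem IL_4 : IL2 P2 Ba Bc L := by
  intro z hz t t' ht ht' h2
  refine h.st z (-t⁻¹) (-t'⁻¹) hz (neg_inv_im ht) (neg_inv_im ht') ?_
  have ht0 := ne_of_im ht
  have ht0' := ne_of_im ht'
  have e : aeval z L + -t⁻¹ * aeval z Bc + -t'⁻¹ * aeval z Ba + -t⁻¹ * -t'⁻¹ * aeval z P2 =
      t⁻¹ * t'⁻¹ * (aeval z P2 - t * aeval z Ba - t' * aeval z Bc + t * t' * aeval z L) := by
    field_simp
    ring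
  rw [e, h2, mul_zero]

end TM

/-! ### Vector notation -/

theorem n01 : (0 : Fin 3) ≠ 1 := by decide
theorem n02 : (0 : Fin 3) ≠ 2 := by decide
theorem n12 : (1 : Fin 3) ≠ 2 := by decide

theorem upd0 (d : DecidableEq (Fin 3)) (x y z p : ℝ[X]) :
    @Function.update (Fin 3) (fun _ => ℝ[X]) d ![x, y, z] 0 p = ![p, y, z] := by
  funext k
  fin_cases k
  · exact Function.update_self _ _ _
  · exact Function.update_of_ne n01.symm _ _
  · exact Function.update_of_ne n02.symm _ _

theorem upd1 (d : DecidableEq (Fin 3)) (x y z p : ℝ[X]) :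
    @Function.update (Fin 3) (fun _ => ℝ[X]) d ![x, y, z] 1 p = ![x, p, z] := by
  funext k
  fin_cases k
  · exact Function.update_of_ne n01 _ _
  · exact Function.update_self _ _ _
  · exact Function.update_of_ne n12.symm _ _

theorem upd2 (d : DecidableEq (Fin 3)) (x y z p : ℝ[X]) :
    @Function.update (Fin 3) (fun _ => ℝ[X]) d ![x, y, z] 2 p = ![x, y, p] := by
  funext k
  fin_cases k
  · exact Function.update_of_ne n02 _ _
  · exact Function.update_of_ne n12 _ _
  · exact Function.update_self _ _ _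

/-- the three-class functional -/
noncomputable def M3 (a : Fin 3 → ℝ) (x y z : ℝ[X]) : ℝ[X] := NS a ![x, y, z]

section M3
variable (a : Fin 3 → ℝ) {p q b c : ℝ[X]}

theorem M3_mono0 (h : IL p q) (hb : b = 0 ∨ ZF b) (hc : c = 0 ∨ ZF c) (x : ℝ) :
    (derivative (M3 a p b c)).eval x * (M3 a q b c).eval x ≤
      (M3 a p b c).eval x * (derivative (M3 a q b c)).eval x := by
  have := NS_mono a ![0, b, c] 0 h (fun l hl => ?_) x
  · simpa only [upd0, M3] using this
  · fin_cases l
    · exact absurd rfl hl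
    · exact hb
    · exact hc

theorem M3_mono1 (h : IL p q) (hb : b = 0 ∨ ZF b) (hc : c = 0 ∨ ZF c) (x : ℝ) :
    (derivative (M3 a b p c)).eval x * (M3 a b q c).eval x ≤
      (M3 a b p c).eval x * (derivative (M3 a b q c)).eval x := by
  have := NS_mono a ![b, 0, c] 1 h (fun l hl => ?_) x
  · simpa only [upd1, M3] using this
  · fin_cases l
    · exact hb
    · exact absurd rfl hl
    · exact hc

theorem M3_mono2 (h : IL p q) (hb : b = 0 ∨ ZF b) (hc : c = 0 ∨ ZF c) (x : ℝ) :
    (derivative (M3 a b c p)).eval x * (M3 a b c q).eval x ≤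
      (M3 a b c p).eval x * (derivative (M3 a b c q)).eval x := by
  have := NS_mono a ![b, c, 0] 2 h (fun l hl => ?_) x
  · simpa only [upd2, M3] using this
  · fin_cases l
    · exact hb
    · exact hc
    · exact absurd rfl hl

variable {p' q' : ℝ[X]}

theorem M3_ray01 (h : IL p q) (h' : IL p' q') (hc : c = 0 ∨ ZF c) (x : ℝ) :
    (M3 a q q' c).eval x * (M3 a p p' c).eval x ≤ (M3 a p q' c).eval x * (M3 a q p' c).eval x := by
  have := NS_ray a ![0, 0, c] (k := 0) (l := 1) (by decide) h h' (fun l hl hl' => ?_) x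
  · simpa only [upd0, upd1, M3] using this
  · fin_cases l
    · exact absurd rfl hl
    · exact absurd rfl hl'
    · exact hc

theorem M3_ray02 (h : IL p q) (h' : IL p' q') (hc : c = 0 ∨ ZF c) (x : ℝ) :
    (M3 a q c q').eval x * (M3 a p c p').eval x ≤ (M3 a p c q').eval x * (M3 a q c p').eval x := by
  have := NS_ray a ![0, c, 0] (k := 0) (l := 2) (by decide) h h' (fun l hl hl' => ?_) x
  · simpa only [upd0, upd2, M3] using this
  · fin_cases l
    · exact absurd rfl hl
    · exact hc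
    · exact absurd rfl hl'

theorem M3_ray12 (h : IL p q) (h' : IL p' q') (hc : c = 0 ∨ ZF c) (x : ℝ) :
    (M3 a c q q').eval x * (M3 a c p p').eval x ≤ (M3 a c p q').eval x * (M3 a c q p').eval x := by
  have := NS_ray a ![c, 0, 0] (k := 1) (l := 2) (by decide) h h' (fun l hl hl' => ?_) x
  · simpa only [upd1, upd2, M3] using this
  · fin_cases l
    · exact hc
    · exact absurd rfl hl
    · exact absurd rfl hl'

theorem M3_ray00 {p00 p10 p01 p11 : ℝ[X]} (h : IL2 p00 p10 p01 p11) (hb : b = 0 ∨ ZF b)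
    (hc : c = 0 ∨ ZF c) (x : ℝ) :
    (M3 a p11 b c).eval x * (M3 a p00 b c).eval x ≤
      (M3 a p10 b c).eval x * (M3 a p01 b c).eval x := by
  have := NS_ray_one a ![0, b, c] 0 h (fun l hl => ?_) x
  · simpa only [upd0, M3] using this
  · fin_cases l
    · exact absurd rfl hl
    · exact hb
    · exact hc

end M3

/-- one class with two marks and two classes with one mark -/
noncomputable def N3 (L Ba Bc P2 : ℝ[X]) (X0 : ℝ) (θ1 : J → ℝ) (j1 : J) (θ2 : J' → ℝ) (j2 : J')
    (S : Finset (Fin 4)) : ℝ[X] :=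
  NN (ι := Fin 3) ![sh X0 (if 0 ∈ S then (if 2 ∈ S then P2 else Bc) else (if 2 ∈ S then Ba else L)),
    sh (∑ i, θ1 i) (if 1 ∈ S then gt1 θ1 j1 else A1 θ1 j1),
    sh (∑ i, θ2 i) (if 3 ∈ S then gt1 θ2 j2 else A1 θ2 j2)]

/-- the polynomials of the first class -/
noncomputable def c0 (L Ba Bc P2 : ℝ[X]) (S : Finset (Fin 4)) : ℝ[X] :=
  if 0 ∈ S then (if 2 ∈ S then P2 else Bc) else (if 2 ∈ S then Ba else L)

noncomputable def c1 (θ1 : J → ℝ) (j1 : J) (S : Finset (Fin 4)) : ℝ[X] :=
  if 1 ∈ S then gt1 θ1 j1 else A1 θ1 j1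

noncomputable def c3 (θ2 : J → ℝ) (j2 : J) (S : Finset (Fin 4)) : ℝ[X] :=
  if 3 ∈ S then gt1 θ2 j2 else A1 θ2 j2

variable {L Ba Bc P2 : ℝ[X]} {X0 : ℝ} (h : TM L Ba Bc P2 X0)
  (θ1 : J → ℝ) (j1 : J) (θ2 : J' → ℝ) (j2 : J')
  (h1 : ∀ i, 0 ≤ θ1 i) (h1' : 0 < θ1 j1) (h2 : ∀ i, 0 ≤ θ2 i) (h2' : 0 < θ2 j2)

theorem N3_eq (S : Finset (Fin 4)) : N3 L Ba Bc P2 X0 θ1 j1 θ2 j2 S =
    M3 ![X0, ∑ i, θ1 i, ∑ i, θ2 i] (c0 L Ba Bc P2 S) (c1 θ1 j1 S) (c3 θ2 j2 S) := by
  unfold N3 M3 NS c0 c1 c3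
  congr 1
  funext k
  fin_cases k <;> rfl

include h in
theorem c0_ZF (S : Finset (Fin 4)) : c0 L Ba Bc P2 S = 0 ∨ ZF (c0 L Ba Bc P2 S) := by
  unfold c0
  split_ifs
  · exact Or.inr h.ZFp
  · exact Or.inr h.ZFc
  · exact Or.inr h.ZFa
  · exact h.ZFL

include h1 h1' in
theorem c1_ZF (S : Finset (Fin 4)) : c1 θ1 j1 S = 0 ∨ ZF (c1 θ1 j1 S) := by
  unfold c1
  split_ifs
  · exact Or.inr (ZF_g θ1 h1 j1)
  · exact Or.inr (ZF_A θ1 h1 j1 h1')

include h2 h2' in
theorem c3_ZF (S : Finset (Fin 4)) : c3 θ2 j2 S = 0 ∨ ZF (c3 θ2 j2 S) := by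
  unfold c3
  split_ifs
  · exact Or.inr (ZF_g θ2 h2 j2)
  · exact Or.inr (ZF_A θ2 h2 j2 h2')

include h in
theorem c0_IL0 (S : Finset (Fin 4)) (h0 : (0 : Fin 4) ∉ S) :
    IL (c0 L Ba Bc P2 (insert 0 S)) (c0 L Ba Bc P2 S) := by
  unfold c0
  rw [if_pos (mem_insert_self 0 S), if_neg h0]
  by_cases h2 : (2 : Fin 4) ∈ S
  · rw [if_pos (mem_insert_of_mem h2), if_pos h2]
    exact h.IL_pa
  · rw [if_neg (by simp [h2]), if_neg h2]
    exact h.IL_cL

include h in
theorem c0_IL2 (S : Finset (Fin 4)) (h0 : (2 : Fin 4) ∉ S) :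
    IL (c0 L Ba Bc P2 (insert 2 S)) (c0 L Ba Bc P2 S) := by
  unfold c0
  rw [if_pos (mem_insert_self 2 S), if_neg h0, if_pos (mem_insert_self 2 S), if_neg h0]
  by_cases h2 : (0 : Fin 4) ∈ S
  · rw [if_pos (mem_insert_of_mem h2), if_pos h2]
    exact h.IL_pc
  · rw [if_neg (by simp [h2]), if_neg h2]
    exact h.IL_aL

include h1 h1' in
theorem c1_IL (S : Finset (Fin 4)) (h0 : (1 : Fin 4) ∉ S) :
    IL (c1 θ1 j1 (insert 1 S)) (c1 θ1 j1 S) := by
  unfold c1
  rw [if_pos (mem_insert_self 1 S), if_neg h0]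
  exact IL_gA θ1 h1 j1 h1'

include h2 h2' in
theorem c3_IL (S : Finset (Fin 4)) (h0 : (3 : Fin 4) ∉ S) :
    IL (c3 θ2 j2 (insert 3 S)) (c3 θ2 j2 S) := by
  unfold c3
  rw [if_pos (mem_insert_self 3 S), if_neg h0]
  exact IL_gA θ2 h2 j2 h2'

theorem c0_ins {i : Fin 4} (h0 : i ≠ 0) (h2 : i ≠ 2) (S : Finset (Fin 4)) :
    c0 L Ba Bc P2 (insert i S) = c0 L Ba Bc P2 S := by
  unfold c0
  simp only [mem_insert, h0.symm, h2.symm, false_or]

theorem c1_ins {i : Fin 4} (h0 : i ≠ 1) (S : Finset (Fin 4)) :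
    c1 θ1 j1 (insert i S) = c1 θ1 j1 S := by
  unfold c1
  simp only [mem_insert, h0.symm, false_or]

theorem c3_ins {i : Fin 4} (h0 : i ≠ 3) (S : Finset (Fin 4)) :
    c3 θ2 j2 (insert i S) = c3 θ2 j2 S := by
  unfold c3
  simp only [mem_insert, h0.symm, false_or]

include h h1 h1' h2 h2' in
theorem N3_pos (S : Finset (Fin 4)) (hS : (0 : Fin 4) ∈ S ∨ (2 : Fin 4) ∈ S) (u : ℝ)
    (hu : X0 + ∑ i, θ1 i + ∑ i, θ2 i ≤ u) : 0 < (N3 L Ba Bc P2 X0 θ1 j1 θ2 j2 S).eval u := by
  rw [N3_eq, M3, NS]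
  refine Cp_pos ![X0, ∑ i, θ1 i, ∑ i, θ2 i] ![X0, ∑ i, θ1 i, ∑ i, θ2 i] u (fun k => ?_) _ 0 ?_ ?_
  · have : ∑ l, (![X0, ∑ i, θ1 i, ∑ i, θ2 i] : Fin 3 → ℝ) l = X0 + ∑ i, θ1 i + ∑ i, θ2 i := by
      rw [Fin.sum_univ_three]
      rfl
    rw [this]
    linarith
  · show Cp X0 X0 (sh X0 (c0 L Ba Bc P2 S))
    unfold c0
    split_ifs with ha hb hb
    · exact Cp_of_Cn h.p2
    · exact h.bc
    · exact h.ba
    · exact absurd hS (by simp [ha, hb])
  · intro l hl
    fin_cases l
    · exact absurd rfl hl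
    · show Cn (∑ i, θ1 i) (∑ i, θ1 i) (sh (∑ i, θ1 i) (c1 θ1 j1 S))
      unfold c1
      split_ifs
      · exact Cn_g1 θ1 h1 j1
      · exact Cn_A1 θ1 h1 j1 h1'
    · show Cn (∑ i, θ2 i) (∑ i, θ2 i) (sh (∑ i, θ2 i) (c3 θ2 j2 S))
      unfold c3
      split_ifs
      · exact Cn_g1 θ2 h2 j2
      · exact Cn_A1 θ2 h2 j2 h2'

include h h1 h1' h2 h2' in
theorem N3_mono (S : Finset (Fin 4)) (i : Fin 4) (hi : i ∉ S) (x : ℝ) :
    (derivative (N3 L Ba Bc P2 X0 θ1 j1 θ2 j2 (insert i S))).eval x *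
      (N3 L Ba Bc P2 X0 θ1 j1 θ2 j2 S).eval x ≤
    (N3 L Ba Bc P2 X0 θ1 j1 θ2 j2 (insert i S)).eval x *
      (derivative (N3 L Ba Bc P2 X0 θ1 j1 θ2 j2 S)).eval x := by
  simp only [N3_eq]
  fin_cases i
  · simp only [Fin.zero_eta, Fin.isValue] at hi ⊢
    rw [c1_ins θ1 j1 (by decide : (0 : Fin 4) ≠ 1), c3_ins θ2 j2 (by decide : (0 : Fin 4) ≠ 3)]
    exact M3_mono0 _ (c0_IL0 h S hi) (c1_ZF θ1 j1 h1 h1' S) (c3_ZF θ2 j2 h2 h2' S) x
  · simp only [Fin.mk_one, Fin.isValue] at hi ⊢
    rw [c0_ins (by decide : (1 : Fin 4) ≠ 0) (by decide), c3_ins θ2 j2 (by decide : (1 : Fin 4) ≠ 3)]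
    exact M3_mono1 _ (c1_IL θ1 j1 h1 h1' S hi) (c0_ZF h S) (c3_ZF θ2 j2 h2 h2' S) x
  · simp only [Fin.reduceFinMk, Fin.isValue] at hi ⊢
    rw [c1_ins θ1 j1 (by decide : (2 : Fin 4) ≠ 1), c3_ins θ2 j2 (by decide : (2 : Fin 4) ≠ 3)]
    exact M3_mono0 _ (c0_IL2 h S hi) (c1_ZF θ1 j1 h1 h1' S) (c3_ZF θ2 j2 h2 h2' S) x
  · simp only [Fin.reduceFinMk, Fin.isValue] at hi ⊢
    rw [c0_ins (by decide : (3 : Fin 4) ≠ 0) (by decide), c1_ins θ1 j1 (by decide : (3 : Fin 4) ≠ 1)]
    exact M3_mono2 _ (c3_IL θ2 j2 h2 h2' S hi) (c0_ZF h S) (c1_ZF θ1 j1 h1 h1' S) x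

include h h1 h1' h2 h2' in
theorem N3_sub (S : Finset (Fin 4)) (i j : Fin 4) (hi : i ∉ S) (hj : j ∉ S) (hij : i ≠ j)
    (x : ℝ) : (N3 L Ba Bc P2 X0 θ1 j1 θ2 j2 S).eval x *
      (N3 L Ba Bc P2 X0 θ1 j1 θ2 j2 (insert i (insert j S))).eval x ≤
    (N3 L Ba Bc P2 X0 θ1 j1 θ2 j2 (insert i S)).eval x *
      (N3 L Ba Bc P2 X0 θ1 j1 θ2 j2 (insert j S)).eval x := by
  have key : ∀ i j : Fin 4, i < j → i ∉ S → j ∉ S → (N3 L Ba Bc P2 X0 θ1 j1 θ2 j2 S).eval x *
      (N3 L Ba Bc P2 X0 θ1 j1 θ2 j2 (insert i (insert j S))).eval x ≤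
    (N3 L Ba Bc P2 X0 θ1 j1 θ2 j2 (insert i S)).eval x *
      (N3 L Ba Bc P2 X0 θ1 j1 θ2 j2 (insert j S)).eval x := by
    clear hi hj hij i j
    simp only [N3_eq]
    have z1 := c1_ZF θ1 j1 h1 h1' S
    have z3 := c3_ZF θ2 j2 h2 h2' S
    have z0 := c0_ZF h S
    intro i j hij hi hj
    have hcases : (i = 0 ∧ j = 1) ∨ (i = 0 ∧ j = 2) ∨ (i = 0 ∧ j = 3) ∨ (i = 1 ∧ j = 2) ∨
        (i = 1 ∧ j = 3) ∨ (i = 2 ∧ j = 3) := by
      revert hij
      clear hi hj
      revert i j
      decide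
    rcases hcases with ⟨rfl, rfl⟩ | ⟨rfl, rfl⟩ | ⟨rfl, rfl⟩ | ⟨rfl, rfl⟩ | ⟨rfl, rfl⟩ | ⟨rfl, rfl⟩
    · -- 0, 1
      have e0 : c0 L Ba Bc P2 (insert 0 (insert 1 S)) = c0 L Ba Bc P2 (insert 0 S) := by
        rw [insert_comm, c0_ins (by decide) (by decide)]
      rw [e0, c1_ins θ1 j1 (by decide : (0 : Fin 4) ≠ 1), c1_ins θ1 j1 (by decide : (0 : Fin 4) ≠ 1),
        c3_ins θ2 j2 (by decide : (0 : Fin 4) ≠ 3), c3_ins θ2 j2 (by decide : (1 : Fin 4) ≠ 3),
        c3_ins θ2 j2 (by decide : (0 : Fin 4) ≠ 3), c0_ins (by decide : (1 : Fin 4) ≠ 0) (by decide)]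
      exact M3_ray01 _ (c0_IL0 h S hi) (c1_IL θ1 j1 h1 h1' S hj) z3 x
    · -- 0, 2
      have h4 : IL2 (c0 L Ba Bc P2 (insert 0 (insert 2 S))) (c0 L Ba Bc P2 (insert 2 S))
          (c0 L Ba Bc P2 (insert 0 S)) (c0 L Ba Bc P2 S) := by
        have := h.IL_4
        simpa [c0, hi, hj] using this
      rw [c1_ins θ1 j1 (by decide : (0 : Fin 4) ≠ 1), c1_ins θ1 j1 (by decide : (2 : Fin 4) ≠ 1),
        c1_ins θ1 j1 (by decide : (0 : Fin 4) ≠ 1), c3_ins θ2 j2 (by decide : (0 : Fin 4) ≠ 3),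
        c3_ins θ2 j2 (by decide : (2 : Fin 4) ≠ 3), c3_ins θ2 j2 (by decide : (0 : Fin 4) ≠ 3)]
      have := M3_ray00 ![X0, ∑ i, θ1 i, ∑ i, θ2 i] h4 z1 z3 x
      linarith
    · -- 0, 3
      have e0 : c0 L Ba Bc P2 (insert 0 (insert 3 S)) = c0 L Ba Bc P2 (insert 0 S) := by
        rw [insert_comm, c0_ins (by decide) (by decide)]
      rw [e0, c1_ins θ1 j1 (by decide : (0 : Fin 4) ≠ 1), c1_ins θ1 j1 (by decide : (3 : Fin 4) ≠ 1),
        c1_ins θ1 j1 (by decide : (0 : Fin 4) ≠ 1), c3_ins θ2 j2 (by decide : (0 : Fin 4) ≠ 3),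
        c3_ins θ2 j2 (by decide : (0 : Fin 4) ≠ 3), c0_ins (by decide : (3 : Fin 4) ≠ 0) (by decide)]
      exact M3_ray02 _ (c0_IL0 h S hi) (c3_IL θ2 j2 h2 h2' S hj) z1 x
    · -- 1, 2
      have e1 : c1 θ1 j1 (insert 1 (insert 2 S)) = c1 θ1 j1 (insert 1 S) := by
        rw [insert_comm, c1_ins θ1 j1 (by decide)]
      rw [e1, c0_ins (by decide : (1 : Fin 4) ≠ 0) (by decide),
        c0_ins (by decide : (1 : Fin 4) ≠ 0) (by decide),
        c1_ins θ1 j1 (by decide : (2 : Fin 4) ≠ 1),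
        c3_ins θ2 j2 (by decide : (1 : Fin 4) ≠ 3), c3_ins θ2 j2 (by decide : (2 : Fin 4) ≠ 3),
        c3_ins θ2 j2 (by decide : (1 : Fin 4) ≠ 3)]
      have := M3_ray01 ![X0, ∑ i, θ1 i, ∑ i, θ2 i] (c0_IL2 h S hj) (c1_IL θ1 j1 h1 h1' S hi) z3 x
      linarith
    · -- 1, 3
      have e1 : c1 θ1 j1 (insert 1 (insert 3 S)) = c1 θ1 j1 (insert 1 S) := by
        rw [insert_comm, c1_ins θ1 j1 (by decide)]
      rw [e1, c0_ins (by decide : (1 : Fin 4) ≠ 0) (by decide),
        c0_ins (by decide : (3 : Fin 4) ≠ 0) (by decide),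
        c0_ins (by decide : (1 : Fin 4) ≠ 0) (by decide),
        c1_ins θ1 j1 (by decide : (3 : Fin 4) ≠ 1),
        c3_ins θ2 j2 (by decide : (1 : Fin 4) ≠ 3),
        c3_ins θ2 j2 (by decide : (1 : Fin 4) ≠ 3)]
      exact M3_ray12 _ (c1_IL θ1 j1 h1 h1' S hi) (c3_IL θ2 j2 h2 h2' S hj) z0 x
    · -- 2, 3
      have e0 : c0 L Ba Bc P2 (insert 2 (insert 3 S)) = c0 L Ba Bc P2 (insert 2 S) := by
        rw [insert_comm, c0_ins (by decide) (by decide)]
      rw [e0, c1_ins θ1 j1 (by decide : (2 : Fin 4) ≠ 1), c1_ins θ1 j1 (by decide : (3 : Fin 4) ≠ 1),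
        c1_ins θ1 j1 (by decide : (2 : Fin 4) ≠ 1), c3_ins θ2 j2 (by decide : (2 : Fin 4) ≠ 3),
        c3_ins θ2 j2 (by decide : (2 : Fin 4) ≠ 3), c0_ins (by decide : (3 : Fin 4) ≠ 0) (by decide)]
      exact M3_ray02 _ (c0_IL2 h S hi) (c3_IL θ2 j2 h2 h2' S hj) z1 x
  rcases lt_or_gt_of_ne hij with hlt | hlt
  · exact key i j hlt hi hj
  · have := key j i hlt hj hi
    rw [insert_comm] at this
    linarith

include h h1 h1' h2 h2' in
theorem N3_lc (x : ℝ) : (N3 L Ba Bc P2 X0 θ1 j1 θ2 j2 ∅).eval x *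
      (derivative (derivative (N3 L Ba Bc P2 X0 θ1 j1 θ2 j2 ∅))).eval x ≤
      (derivative (N3 L Ba Bc P2 X0 θ1 j1 θ2 j2 ∅)).eval x ^ 2 := by
  rw [N3_eq, M3]
  rcases c0_ZF h ∅ with h0 | h0
  · rw [NS_zero _ _ 0 (by exact h0)]
    simp
  · refine laguerre (NS_ZF _ _ fun k => ?_) x
    fin_cases k
    · exact h0
    · show ZF (c1 θ1 j1 ∅)
      simp only [c1, notMem_empty, if_false]
      exact ZF_A θ1 h1 j1 h1'
    · show ZF (c3 θ2 j2 ∅)
      simp only [c3, notMem_empty, if_false]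
      exact ZF_A θ2 h2 j2 h2'

end N3

end Pool.Agent.MJ
end
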