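import Mathlib
import Pool.Agent.Lib.MP_d90615_co.Mg.G003
import Pool.Agent.Lib.MP_d90615_co.Mg.G005
import Pool.Agent.Lib.MP_d90615_co.Mg.G004
import Pool.Agent.Lib.MP_d90615_co.TW.Pair

section

/-!
Graphs with a hub and an additional star.
-/

set_option autoImplicit false
set_option linter.unusedSectionVars false

namespace Pool.Agent.Lib.MP_d90615_co

open Finset
open scoped Classical

variable {U U' E : Type*}

lemma mj_conn_map {ι : U → U'} (hι : Function.Injective ι) (ends : E → Sym2 U) (F : Finset E)
    (u : U) (w' : U') : Conn (fun e => Sym2.map ι (ends e)) F (ι u) w' ↔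
      ∃ w, w' = ι w ∧ Conn ends F u w := by
  constructor
  · intro h
    induction h with
    | refl => exact ⟨u, rfl, Conn.refl _ _ _⟩
    | @tail b c _ hbc ih =>
      obtain ⟨w, hw, hc⟩ := ih
      obtain ⟨e, he, hs⟩ := hbc
      beta_reduce at hs
      induction h : ends e using Sym2.ind with
      | _ p q =>
        rw [h, Sym2.map_mk, Sym2.eq_iff, hw] at hs
        rcases hs with ⟨h1, h2⟩ | ⟨h1, h2⟩
        · refine ⟨q, h2.symm, hc.trans (Conn.single he ?_)⟩
          rw [h, hι h1]
        · refine ⟨p, h1.symm, hc.trans (Conn.single he ?_)⟩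
          rw [h, hι h2, Sym2.eq_swap]
  · rintro ⟨w, rfl, hc⟩
    induction hc with
    | refl => exact Conn.refl _ _ _
    | tail _ hbc ih =>
      obtain ⟨e, he, hs⟩ := hbc
      refine ih.trans (Conn.single he ?_)
      rw [hs, Sym2.map_mk]

lemma mj_forest_map {ι : U → U'} (hι : Function.Injective ι) (ends : E → Sym2 U) (F : Finset E) :
    Forest (fun e => Sym2.map ι (ends e)) F ↔ Forest ends F := by
  constructor
  · intro h e he u v huv hc
    refine h e he (ι u) (ι v) (by show Sym2.map ι (ends e) = _; rw [huv, Sym2.map_mk]) ?_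
    rw [mj_conn_map hι]
    exact ⟨v, rfl, hc⟩
  · intro h e he u' v' huv hc
    induction h1 : ends e using Sym2.ind with
    | _ p q =>
      beta_reduce at huv
      rw [h1, Sym2.map_mk, Sym2.eq_iff] at huv
      rcases huv with ⟨h2, h3⟩ | ⟨h2, h3⟩
      · subst h2 h3
        rw [mj_conn_map hι] at hc
        obtain ⟨w, hw, hc⟩ := hc
        exact h e he p q h1 (hι hw ▸ hc)
      · subst h2 h3
        rw [mj_conn_map hι] at hc
        obtain ⟨w, hw, hc⟩ := hc
        exact h e he q p (by rw [h1, Sym2.eq_swap]) (hι hw ▸ hc)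

/-- Vertices without edges may be omitted. -/
theorem mj_Z_map [Fintype U] [Fintype U'] [d : DecidableEq U] [d' : DecidableEq U']
    {ι : U → U'} (hι : Function.Injective ι)
    (W : Sym2 U → ℝ) (W' : Sym2 U' → ℝ) (h1 : ∀ g, ¬ g.IsDiag → W' (Sym2.map ι g) = W g)
    (h2 : ∀ g', ¬ g'.IsDiag → (∀ g, Sym2.map ι g ≠ g') → W' g' = 0) :
    Pool.Agent.PW.Z W' = Pool.Agent.PW.Z W := by
  have ed : d = fun a b => Classical.propDecidable (a = b) := Subsingleton.elim _ _
  have ed' : d' = fun a b => Classical.propDecidable (a = b) := Subsingleton.elim _ _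
  subst ed ed'
  rw [← Z_pe W]
  have e1 : ∑ F ∈ (univ : Finset (Finset (PE U))) with Forest (pe U) F, ∏ g ∈ F, W g.1 =
      Pool.Agent.PW.FS (fun e : PE U => Sym2.map ι (pe U e)) (fun g => W g.1) := by
    unfold Pool.Agent.PW.FS
    refine Finset.sum_congr ?_ fun _ _ => rfl
    ext F
    simp only [mem_filter, mem_univ, true_and]
    exact (mj_forest_map hι (pe U) F).symm
  rw [e1, Pool.Agent.PW.FS_eq]
  refine Pool.Agent.PW.Z_congr fun g' hg' => ?_
  unfold Pool.Agent.PW.tot
  by_cases h : ∃ g, Sym2.map ι g = g'
  · obtain ⟨g, rfl⟩ := h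
    have hg : ¬ g.IsDiag := by
      intro h3
      apply hg'
      induction g using Sym2.ind with
      | _ u v =>
        rw [Sym2.mk_isDiag_iff] at h3
        rw [Sym2.map_mk, Sym2.mk_isDiag_iff, h3]
    rw [h1 g hg, Finset.sum_eq_single ⟨g, hg⟩]
    · intro e he hne
      exfalso
      apply hne
      rw [mem_filter] at he
      exact Subtype.ext (Sym2.map.injective hι he.2)
    · intro h3
      exfalso
      apply h3
      rw [mem_filter]
      exact ⟨mem_univ _, rfl⟩
  · push Not at h
    rw [h2 g' hg' h]
    symm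
    refine Finset.sum_eq_zero fun e he => ?_
    rw [mem_filter] at he
    exact absurd he.2 (h _)

variable [Fintype U] [Fintype E]

/-- The stars of two vertices. -/
lemma mj_two (W : Sym2 U → ℝ) {a c : U} (hac : a ≠ c) (P Q : U → ℝ)
    (hP : ∀ i, P i = if i = c then 0 else if i = a then 0 else W s(a, i))
    (hQ : ∀ i, Q i = if i = a then 0 else if i = c then 0 else W s(c, i)) :
    Pool.Agent.PW.Z W = ∑ F ∈ (univ \ (St (pe U) a ∪ St (pe U) c)).powerset with
      Forest (pe U) F, (∏ g ∈ F, W g.1) *
        ((1 + W s(a, c)) * (∏ q, (1 + cm (pe U) F P q + cm (pe U) F Q q)) +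
          ∑ q, cm (pe U) F P q * cm (pe U) F Q q *
            ∏ q' ∈ univ.erase q, (1 + cm (pe U) F P q' + cm (pe U) F Q q')) := by
  rw [← Z_pe, two_star (pe U) pe_loop (fun g => W g.1) hac P Q
    (fun i => by rw [hP, mr_pe]) (fun i => by rw [hQ, mr_pe]), mr_pe, if_neg hac, Sym2.eq_swap]

lemma mj_two_N (W : Sym2 U → ℝ) {a c : U} (hac : a ≠ c) (P Q : U → ℝ)
    (hP : ∀ i, P i = if i = c then 0 else if i = a then 0 else W s(a, i))
    (hQ : ∀ i, Q i = if i = a then 0 else if i = c then 0 else W s(c, i)) :
    Pool.Agent.PW.N W s(a, c) = ∑ F ∈ (univ \ (St (pe U) a ∪ St (pe U) c)).powerset with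
      Forest (pe U) F, (∏ g ∈ F, W g.1) *
        ∏ q, (1 + cm (pe U) F P q + cm (pe U) F Q q) := by
  have h1 := Pool.Agent.PW.Z_split W s(a, c) (W s(a, c) + 1)
  have hne : ∀ i, i ≠ c → i ≠ a → s(a, i) ≠ s(a, c) ∧ s(c, i) ≠ s(a, c) := by
    intro i hi1 hi2
    constructor
    · intro h
      rw [Sym2.eq_iff] at h
      rcases h with h | h
      · exact hi1 h.2
      · exact hac h.1
    · intro h
      rw [Sym2.eq_iff] at h
      rcases h with h | h
      · exact hi1 h.2
      · exact hi2 h.2
  rw [mj_two W hac P Q hP hQ,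
    mj_two (Function.update W s(a, c) (W s(a, c) + 1)) hac P Q
      (fun i => by
        rw [hP]
        by_cases h : i = c
        · rw [if_pos h, if_pos h]
        · by_cases h' : i = a
          · rw [if_neg h, if_neg h, if_pos h', if_pos h']
          · rw [if_neg h, if_neg h, if_neg h', if_neg h', Function.update_of_ne (hne i h h').1])
      (fun i => by
        rw [hQ]
        by_cases h : i = c
        · by_cases h' : i = a
          · rw [if_pos h', if_pos h']
          · rw [if_neg h', if_neg h', if_pos h, if_pos h]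
        · by_cases h' : i = a
          · rw [if_pos h', if_pos h']
          · rw [if_neg h, if_neg h, if_neg h', if_neg h', Function.update_of_ne (hne i h h').2]),
    Function.update_self] at h1
  have h2 : ∀ F ∈ (univ \ (St (pe U) a ∪ St (pe U) c)).powerset,
      ∏ g ∈ F, Function.update W s(a, c) (W s(a, c) + 1) g.1 = ∏ g ∈ F, W g.1 := by
    intro F hF
    rw [mem_powerset] at hF
    refine Finset.prod_congr rfl fun g hg => ?_
    rw [Function.update_of_ne]
    intro h3
    have h4 := hF hg
    rw [mem_sdiff, mem_union, mem_St, mem_St] at h4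
    apply h4.2
    left
    show a ∈ g.1
    rw [h3]
    exact Sym2.mem_mk_left a c
  have h3 : ∀ f : Finset (PE U) → ℝ,
      ∑ F ∈ (univ \ (St (pe U) a ∪ St (pe U) c)).powerset with Forest (pe U) F,
        (∏ g ∈ F, Function.update W s(a, c) (W s(a, c) + 1) g.1) * f F =
      ∑ F ∈ (univ \ (St (pe U) a ∪ St (pe U) c)).powerset with Forest (pe U) F,
        (∏ g ∈ F, W g.1) * f F := by
    intro f
    refine Finset.sum_congr rfl fun F hF => ?_
    rw [mem_filter] at hF
    rw [h2 F hF.1]
  rw [h3] at h1
  have h4 : W s(a, c) - (W s(a, c) + 1) = -1 := by ring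
  rw [h4, ← sub_eq_iff_eq_add', ← Finset.sum_sub_distrib] at h1
  have h5 : Pool.Agent.PW.N W s(a, c) = -(-1 * Pool.Agent.PW.N W s(a, c)) := by ring
  rw [h5, ← h1, ← Finset.sum_neg_distrib]
  refine Finset.sum_congr rfl fun F _ => ?_
  ring

theorem mj_two' [d : DecidableEq U] (W : Sym2 U → ℝ) {a c : U} (hac : a ≠ c) (P Q : U → ℝ)
    (hP : ∀ i, P i = if i = c then 0 else if i = a then 0 else W s(a, i))
    (hQ : ∀ i, Q i = if i = a then 0 else if i = c then 0 else W s(c, i)) :
    Pool.Agent.PW.Z W = ∑ F ∈ (univ \ (St (pe U) a ∪ St (pe U) c)).powerset with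
      Forest (pe U) F, (∏ g ∈ F, W g.1) *
        ((1 + W s(a, c)) * (∏ q, (1 + cm (pe U) F P q + cm (pe U) F Q q)) +
          ∑ q, cm (pe U) F P q * cm (pe U) F Q q *
            ∏ q' ∈ univ.erase q, (1 + cm (pe U) F P q' + cm (pe U) F Q q')) := by
  have ed : d = fun a b => Classical.propDecidable (a = b) := Subsingleton.elim _ _
  subst ed
  exact mj_two W hac P Q hP hQ

theorem mj_two_N' [d : DecidableEq U] (W : Sym2 U → ℝ) {a c : U} (hac : a ≠ c) (P Q : U → ℝ)
    (hP : ∀ i, P i = if i = c then 0 else if i = a then 0 else W s(a, i))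
    (hQ : ∀ i, Q i = if i = a then 0 else if i = c then 0 else W s(c, i)) :
    Pool.Agent.PW.N W s(a, c) = ∑ F ∈ (univ \ (St (pe U) a ∪ St (pe U) c)).powerset with
      Forest (pe U) F, (∏ g ∈ F, W g.1) *
        ∏ q, (1 + cm (pe U) F P q + cm (pe U) F Q q) := by
  have ed : d = fun a b => Classical.propDecidable (a = b) := Subsingleton.elim _ _
  subst ed
  exact mj_two_N W hac P Q hP hQ

lemma mj_cm_two (ends : E → Sym2 U) (F : Finset E) (y : U → ℝ) (a c : U) (s t : ℝ)
    (hy : ∀ i, y i = (if i = a then s else 0) + if i = c then t else 0)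
    (q : Quotient (cset ends F)) :
    cm ends F y q = (if q = cmp ends F a then s else 0) + if q = cmp ends F c then t else 0 := by
  rw [funext hy, cm_add, cm_single, cm_single]

lemma mj_csingle (ends : E → Sym2 U) (F : Finset E) (b : U) (r : ℂ)
    (q : Quotient (cset ends F)) :
    ∑ i ∈ univ.filter (fun i => cmp ends F i = q), (if i = b then r else 0) =
      if q = cmp ends F b then r else 0 := by
  rw [Finset.sum_ite_eq' (univ.filter (fun i => cmp ends F i = q)) b (fun _ => r)]
  refine if_congr ?_ rfl rfl
  simp only [mem_filter, mem_univ, true_and]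
  exact eq_comm

lemma mj_mass (ends : E → Sym2 U) (F : Finset E) (x : U → ℝ) (z r s p t : ℂ) (a c h1 h2 : U)
    (q : Quotient (cset ends F)) :
    ∑ i ∈ univ.filter (fun i => cmp ends F i = q), (z * (x i : ℂ) + (if i = a then r else 0) +
      (if i = c then s else 0) + (if i = h1 then p else 0) + (if i = h2 then t else 0)) =
    z * (cm ends F x q : ℂ) + (if q = cmp ends F a then r else 0) +
      (if q = cmp ends F c then s else 0) + (if q = cmp ends F h1 then p else 0) +
      (if q = cmp ends F h2 then t else 0) := by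
  rw [Finset.sum_add_distrib, Finset.sum_add_distrib, Finset.sum_add_distrib,
    Finset.sum_add_distrib, mj_csingle, mj_csingle, mj_csingle, mj_csingle, ← Finset.mul_sum,
    cm_cast]

/-- The mass of the component of an isolated vertex. -/
lemma mj_isolated {ends : E → Sym2 U} (hloop : ∀ e, ¬ (ends e).IsDiag) {h : U} {F : Finset E}
    (hF : ∀ e ∈ F, h ∉ ends e) (i : U) : cmp ends F i = cmp ends F h ↔ i = h := by
  rw [cmp_eq]
  constructor
  · intro hc
    exact conn_isolated hloop hF hc.symm
  · rintro rfl
    exact Conn.refl _ _ _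

/-- The determinant with a rank one term. -/
lemma mj_det (ends : E → Sym2 U) (F : Finset E) (m : U → ℂ) (x : U → ℝ)
    (hm : ∀ q : Quotient (cset ends F),
      1 + ∑ i ∈ univ.filter (fun i => cmp ends F i = q), m i ≠ 0) :
    (1 + J ends F * (Matrix.diagonal m +
      Matrix.vecMulVec (fun i => (x i : ℂ)) (fun i => (x i : ℂ)))).det =
      ∏ q : Quotient (cset ends F), (1 + ∑ i ∈ univ.filter (fun i => cmp ends F i = q), m i) +
      ∑ q, (cm ends F x q : ℂ) ^ 2 * ∏ q' ∈ univ.erase q,
        (1 + ∑ i ∈ univ.filter (fun i => cmp ends F i = q'), m i) := by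
  set M : Quotient (cset ends F) → ℂ :=
    fun q => ∑ i ∈ univ.filter (fun i => cmp ends F i = q), m i with hM
  set y : Quotient (cset ends F) → ℂ := fun q => (cm ends F x q : ℂ) with hy
  set Um : Matrix U (Quotient (cset ends F)) ℂ :=
    Matrix.of fun i q => if cmp ends F i = q then 1 else 0 with hU
  have h1 : J ends F = Um * Um.transpose := by
    ext i j
    rw [Matrix.mul_apply, J_apply]
    simp only [hU, Matrix.of_apply, Matrix.transpose_apply]
    simp only [mul_ite, mul_one, mul_zero, Finset.sum_ite_eq, mem_univ, if_true]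
    simp only [cmp_eq]
  have h2 : Um.transpose * Matrix.diagonal m * Um = Matrix.diagonal M := by
    ext q q'
    rw [Matrix.mul_apply, Matrix.diagonal_apply]
    simp only [Matrix.mul_diagonal, hU, Matrix.of_apply, Matrix.transpose_apply]
    split_ifs with h
    · subst h
      rw [hM]
      beta_reduce
      rw [Finset.sum_filter]
      refine Finset.sum_congr rfl fun i _ => ?_
      split_ifs <;> simp
    · refine Finset.sum_eq_zero fun i _ => ?_
      by_cases h3 : cmp ends F i = q
      · rw [if_neg (c := cmp ends F i = q') (by rw [h3]; exact h), mul_zero]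
      · rw [if_neg h3, zero_mul, zero_mul]
  have h3 : Matrix.vecMul (fun i => (x i : ℂ)) Um = y := by
    funext q
    rw [Matrix.vecMul, dotProduct, hy]
    beta_reduce
    rw [cm_cast, Finset.sum_filter]
    refine Finset.sum_congr rfl fun i _ => ?_
    simp only [hU, Matrix.of_apply]
    split_ifs <;> simp
  have h4 : Um.transpose * (Matrix.diagonal m +
      Matrix.vecMulVec (fun i => (x i : ℂ)) (fun i => (x i : ℂ))) * Um =
      Matrix.diagonal M + Matrix.vecMulVec y y := by
    rw [Matrix.mul_add, Matrix.add_mul, h2, Matrix.mul_vecMulVec, Matrix.vecMulVec_mul, h3,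
      Matrix.mulVec_transpose, h3]
  rw [h1, Matrix.mul_assoc, Matrix.det_one_add_mul_comm, h4]
  have h5 : (1 : Matrix (Quotient (cset ends F)) (Quotient (cset ends F)) ℂ) +
      (Matrix.diagonal M + Matrix.vecMulVec y y) =
      Matrix.diagonal (fun q => 1 + M q) + Matrix.vecMulVec y y := by
    rw [← add_assoc]
    congr 1
    rw [← Matrix.diagonal_one, Matrix.diagonal_add]
  rw [h5]
  -- rank one
  set d : Quotient (cset ends F) → ℂ := fun q => 1 + M q with hd
  have hd0 : ∀ q, d q ≠ 0 := hm
  have hprod : ∏ q, d q ≠ 0 := Finset.prod_ne_zero_iff.mpr fun q _ => hd0 q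
  have hdet : (Matrix.diagonal d).det = ∏ q, d q := Matrix.det_diagonal
  have hu : IsUnit (Matrix.diagonal d).det := by
    rw [hdet]
    exact hprod.isUnit
  have k1 : Matrix.vecMulVec y y = Matrix.replicateCol Unit y * Matrix.replicateRow Unit y := by
    ext i j
    rw [Matrix.mul_apply]
    simp [Matrix.vecMulVec_apply]
  rw [k1, Matrix.det_add_replicateCol_mul_replicateRow hu, hdet, Matrix.det_unique,
    Matrix.add_apply, Matrix.one_apply_eq]
  have k2 : (Matrix.replicateRow Unit y * (Matrix.diagonal d)⁻¹ *
      Matrix.replicateCol Unit y) default default = ∑ q, y q * (d q)⁻¹ * y q := by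
    rw [Matrix.mul_apply]
    refine Finset.sum_congr rfl fun q _ => ?_
    have h3 : (Matrix.diagonal d)⁻¹ = Matrix.diagonal (fun q => (d q)⁻¹) := by
      rw [Matrix.inv_diagonal]
      congr 1
      have h4 : IsUnit d := by
        rw [Pi.isUnit_iff]
        exact fun q => (hd0 q).isUnit
      funext q
      have h5 : Ring.inverse d * d = 1 := Ring.inverse_mul_cancel d h4
      have h6 := congrFun h5 q
      rw [Pi.mul_apply, Pi.one_apply] at h6
      exact eq_inv_of_mul_eq_one_left h6
    rw [h3, Matrix.mul_diagonal]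
    simp
  rw [k2, mul_add, mul_one, Finset.mul_sum]
  congr 1
  refine Finset.sum_congr rfl fun q _ => ?_
  rw [← Finset.mul_prod_erase univ d (mem_univ q)]
  have := hd0 q
  field_simp
  rfl

open scoped Matrix in
lemma mj_up (d : U → ℂ) (x : U → ℝ) (hd : ∀ i, 0 < (d i).im) :
    Up (Matrix.diagonal d + Matrix.vecMulVec (fun i => (x i : ℂ)) (fun i => (x i : ℂ))) := by
  have h1 : ∃ ε : ℝ, 0 < ε ∧ ∀ i, ε ≤ (d i).im := by
    by_cases hU : Nonempty U
    · obtain ⟨i, hi⟩ := Finite.exists_min fun i => (d i).im
      exact ⟨(d i).im, hd i, hi⟩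
    · exact ⟨1, one_pos, fun i => absurd ⟨i⟩ hU⟩
  obtain ⟨ε, hε, hdε⟩ := h1
  refine ⟨ε, hε, fun v => ?_⟩
  have h2 : star v ⬝ᵥ (Matrix.diagonal d *ᵥ v) = ∑ i, d i * ((‖v i‖ ^ 2 : ℝ) : ℂ) := by
    rw [dotProduct]
    refine Finset.sum_congr rfl fun i _ => ?_
    rw [Matrix.mulVec_diagonal, Pi.star_apply, Complex.star_def, ← Complex.normSq_eq_norm_sq,
      Complex.normSq_eq_conj_mul_self]
    ring
  have h3 : star v ⬝ᵥ (Matrix.vecMulVec (fun i => (x i : ℂ)) (fun i => (x i : ℂ)) *ᵥ v) =
      ((Complex.normSq ((fun i => (x i : ℂ)) ⬝ᵥ v) : ℝ) : ℂ) := by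
    rw [Matrix.vecMulVec_mulVec, Complex.normSq_eq_conj_mul_self]
    have h4 : star v ⬝ᵥ (fun i => (x i : ℂ)) =
        (starRingEnd ℂ) ((fun i => (x i : ℂ)) ⬝ᵥ v) := by
      rw [dotProduct, dotProduct, map_sum]
      refine Finset.sum_congr rfl fun i _ => ?_
      rw [map_mul, Complex.conj_ofReal, Pi.star_apply, Complex.star_def, mul_comm]
    rw [← h4]
    simp only [dotProduct_smul, MulOpposite.smul_eq_mul_unop, MulOpposite.unop_op]
  rw [Matrix.add_mulVec, dotProduct_add, h2, h3, Complex.add_im, Complex.ofReal_im, add_zero,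
    Complex.im_sum, Finset.mul_sum]
  refine Finset.sum_le_sum fun i _ => ?_
  rw [Complex.im_mul_ofReal]
  have := hdε i
  gcongr

end Pool.Agent.Lib.MP_d90615_co

namespace Pool.Agent.MJ

open Finset Polynomial
open scoped Classical
open Pool.Agent.PW (Z N N2 Ray cw pw mv ct)
open Pool.Agent.Lib.MP_d90615_co (mj_Z_map)

variable {V : Type*} [Fintype V]

lemma N_inst {U : Type*} [Fintype U] (d d' : DecidableEq U) (W : Sym2 U → ℝ) (e : Sym2 U) :
    @Pool.Agent.PW.N U _ d W e = @Pool.Agent.PW.N U _ d' W e := by
  rw [Subsingleton.elim d d']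

lemma erase_inst {α : Type*} (d d' : DecidableEq α) (s : Finset α) (a : α) :
    @Finset.erase α d s a = @Finset.erase α d' s a := by
  rw [Subsingleton.elim d d']

/-- Two hubs, contracted. -/
theorem Gs_hub (W : Sym2 V → ℝ) (η z : V → ℝ) :
    Gs (St W η) (ext0 z) none = Zs W (fun v => z v + η v) := by
  have hne : (none : Option (Option V)) ≠ some none := by simp
  have hN := Pool.Agent.PW.N_eq hne (St (St W η) (ext0 z))
  have hG : Gs (St W η) (ext0 z) none =
      Z (cw none (some none) (St (St W η) (ext0 z))) := by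
    rw [← hN]
    unfold Gs
    exact N_inst _ _ _ _
  rw [hG]
  unfold Zs
  have hι : Function.Injective (Option.map (some : V → Option V)) :=
    Option.map_injective (Option.some_injective V)
  have hcn : ct (none : Option (Option V)) (some none) none = none := by
    unfold ct
    rw [if_neg hne]
  have hcn' : ct (none : Option (Option V)) (some none) (some none) = none := by
    unfold ct
    rw [if_pos rfl]
  have hcv : ∀ v : V, ct (none : Option (Option V)) (some none) (some (some v)) = some (some v) := by
    intro v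
    unfold ct
    rw [if_neg (by simp)]
  have hcs : ∀ (p : Option (Option V)) (v : V), ct none (some none) p = some (some v) →
      p = some (some v) := by
    intro p v h
    unfold ct at h
    split_ifs at h
    exact h
  have hch : ∀ p : Option (Option V), ct none (some none) p ≠ some none := by
    intro p h
    unfold ct at h
    split_ifs at h with h1
    exact h1 h
  have hc0 : ∀ p : Option (Option V), ct none (some none) p = none → p = none ∨ p = some none := by
    intro p h
    unfold ct at h
    split_ifs at h with h1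
    · exact Or.inr h1
    · exact Or.inl h
  refine mj_Z_map hι _ _ ?_ ?_
  · intro g hg
    refine St_ext (W := W) (z := fun v => z v + η v)
      (U := fun g => cw none (some none) (St (St W η) (ext0 z)) (Sym2.map (Option.map some) g))
      (fun u v huv => ?_) (fun v => ?_) g hg
    · rw [Sym2.map_mk]
      show cw none (some none) (St (St W η) (ext0 z)) s(some (some u), some (some v)) = W s(u, v)
      unfold cw
      rw [Finset.sum_eq_single s(some (some u), some (some v))]
      · rfl
      · intro e he hne'
        exfalso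
        apply hne'
        rw [mem_filter] at he
        have he := he.2
        induction e using Sym2.ind with
        | _ p q =>
          rw [Sym2.map_mk, Sym2.eq_iff] at he
          rcases he with ⟨h1, h2⟩ | ⟨h1, h2⟩
          · rw [hcs p u h1, hcs q v h2]
          · rw [hcs p v h1, hcs q u h2, Sym2.eq_swap]
      · intro h
        exfalso
        apply h
        rw [mem_filter]
        refine ⟨mem_univ _, ?_⟩
        rw [Sym2.map_mk, hcv, hcv]
    · rw [Sym2.map_mk]
      show cw none (some none) (St (St W η) (ext0 z)) s(none, some (some v)) = z v + η v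
      unfold cw
      have hpair : (univ : Finset (Sym2 (Option (Option V)))).filter
          (fun e => Sym2.map (ct none (some none)) e = s(none, some (some v))) =
          {s(none, some (some v)), s(some none, some (some v))} := by
        ext e
        simp only [mem_filter, mem_univ, true_and, mem_insert, mem_singleton]
        constructor
        · intro he
          induction e using Sym2.ind with
          | _ p q =>
            rw [Sym2.map_mk, Sym2.eq_iff] at he
            rcases he with ⟨h1, h2⟩ | ⟨h1, h2⟩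
            · rw [hcs q v h2]
              rcases hc0 p h1 with h3 | h3
              · left; rw [h3]
              · right; rw [h3]
            · rw [hcs p v h1]
              rcases hc0 q h2 with h3 | h3
              · left; rw [h3, Sym2.eq_swap]
              · right; rw [h3, Sym2.eq_swap]
        · rintro (rfl | rfl)
          · rw [Sym2.map_mk, hcn, hcv]
          · rw [Sym2.map_mk, hcn', hcv]
      rw [hpair, Finset.sum_pair]
      · rfl
      · intro h
        rw [Sym2.eq_iff] at h
        rcases h with h | h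
        · exact absurd h.1 (by simp)
        · exact absurd h.1 (by simp)
  · intro g' hg' h
    unfold cw
    refine Finset.sum_eq_zero fun e he => ?_
    exfalso
    rw [mem_filter] at he
    have he := he.2
    have key : ∀ p : Option (Option V), ∃ q : Option V,
        ct none (some none) p = Option.map some q := by
      intro p
      match p with
      | none => exact ⟨none, hcn⟩
      | some none => exact ⟨none, hcn'⟩
      | some (some v) => exact ⟨some v, hcv v⟩
    induction e using Sym2.ind with
    | _ p q =>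
      obtain ⟨p', hp'⟩ := key p
      obtain ⟨q', hq'⟩ := key q
      apply h s(p', q')
      rw [Sym2.map_mk, ← hp', ← hq', ← he, Sym2.map_mk]

end Pool.Agent.MJ
end

section

/-!
Weights with a rank one cut.
-/

set_option autoImplicit false
set_option linter.unusedSectionVars false

namespace Pool.Agent.MJ

open Finset Polynomial
open scoped Classical
open Pool.Agent.PW (Z N N2 Ray cw pw mv ct)

variable {V : Type*} [Fintype V]

/-- The weights `A` inside `p`, the weights `B` outside `p`, product weights `z u * z v` across. -/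
noncomputable def glue (p : V → Prop) (A B : Sym2 V → ℝ) (z : V → ℝ) : Sym2 V → ℝ := fun g =>
  if ∀ v ∈ g, p v then A g else if ∀ v ∈ g, ¬ p v then B g else pw z g

/-- `y` inside `p` and `ρ` outside `p`. -/
noncomputable def jz (p : V → Prop) (y ρ : V → ℝ) : V → ℝ := fun v => if p v then y v else ρ v

lemma all_mk (q : V → Prop) {u v : V} : (∀ w ∈ s(u, v), q w) ↔ q u ∧ q v := by
  constructor
  · intro h
    exact ⟨h u (Sym2.mem_mk_left u v), h v (Sym2.mem_mk_right u v)⟩
  · rintro ⟨h1, h2⟩ w hw
    rcases Sym2.mem_iff.mp hw with rfl | rfl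
    · exact h1
    · exact h2

section

variable {p : V → Prop} (A B : Sym2 V → ℝ) (z : V → ℝ)

lemma glue_in {u v : V} (hu : p u) (hv : p v) : glue p A B z s(u, v) = A s(u, v) := by
  unfold glue
  rw [if_pos ((all_mk p).mpr ⟨hu, hv⟩)]

lemma glue_out {u v : V} (hu : ¬ p u) (hv : ¬ p v) : glue p A B z s(u, v) = B s(u, v) := by
  unfold glue
  rw [if_neg (fun h => hu ((all_mk p).mp h).1), if_pos ((all_mk fun w => ¬ p w).mpr ⟨hu, hv⟩)]

lemma glue_cross {u v : V} (hu : p u) (hv : ¬ p v) : glue p A B z s(u, v) = z u * z v := by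
  unfold glue
  rw [if_neg (fun h => hv ((all_mk p).mp h).2),
    if_neg (fun h => ((all_mk fun w => ¬ p w).mp h).1 hu)]
  rfl

lemma glue_cross' {u v : V} (hu : ¬ p u) (hv : p v) : glue p A B z s(u, v) = z u * z v := by
  rw [Sym2.eq_swap, glue_cross A B z hv hu, mul_comm]

lemma jz_in {y ρ : V → ℝ} {v : V} (h : p v) : jz p y ρ v = y v := if_pos h

lemma jz_out {y ρ : V → ℝ} {v : V} (h : ¬ p v) : jz p y ρ v = ρ v := if_neg h

lemma glue_nonneg {A B : Sym2 V → ℝ} {z : V → ℝ} (hA : ∀ g, 0 ≤ A g) (hB : ∀ g, 0 ≤ B g)
    (hz : ∀ v, 0 ≤ z v) (g : Sym2 V) : 0 ≤ glue p A B z g := by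
  unfold glue
  split_ifs
  · exact hA g
  · exact hB g
  · induction g using Sym2.ind with
    | _ u v => exact mul_nonneg (hz u) (hz v)

/-- Update of a weight outside `p`. -/
lemma glue_update_out {e : Sym2 V} (he : ∀ v ∈ e, ¬ p v) (t : ℝ) :
    Function.update (glue p A B z) e t = glue p A (Function.update B e t) z := by
  funext g
  by_cases h : g = e
  · subst h
    rw [Function.update_self]
    induction g using Sym2.ind with
    | _ u v =>
      obtain ⟨hu, hv⟩ := (all_mk fun w => ¬ p w).mp he
      rw [glue_out _ _ _ hu hv, Function.update_self]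
  · rw [Function.update_of_ne h]
    unfold glue
    rw [Function.update_of_ne h]

/-- Update of a weight inside `p`. -/
lemma glue_update_in {e : Sym2 V} (he : ∀ v ∈ e, p v) (t : ℝ) :
    Function.update (glue p A B z) e t = glue p (Function.update A e t) B z := by
  funext g
  by_cases h : g = e
  · subst h
    rw [Function.update_self]
    induction g using Sym2.ind with
    | _ u v =>
      obtain ⟨hu, hv⟩ := (all_mk p).mp he
      rw [glue_in _ _ _ hu hv, Function.update_self]
  · rw [Function.update_of_ne h]
    unfold glue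
    rw [Function.update_of_ne h]

end

/-- Weights with a rank one cut. -/
lemma eq_glue (p : V → Prop) (W : Sym2 V → ℝ) (x ρ : V → ℝ)
    (hW : ∀ u v, p u → ¬ p v → W s(u, v) = x u * ρ v) : W = glue p W W (jz p x ρ) := by
  funext g
  induction g using Sym2.ind with
  | _ u v =>
    by_cases hu : p u
    · by_cases hv : p v
      · rw [glue_in _ _ _ hu hv]
      · rw [glue_cross _ _ _ hu hv, jz_in hu, jz_out hv, hW u v hu hv]
    · by_cases hv : p v
      · rw [glue_cross' _ _ _ hu hv, jz_in hv, jz_out hu, Sym2.eq_swap, hW v u hv hu, mul_comm]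
      · rw [glue_out _ _ _ hu hv]

end Pool.Agent.MJ
end
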