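import Mathlib
import Pool.Agent.Lib.MP_d90615_co.Mg.G004
import Pool.Agent.Lib.MP_d90615_co.Mg.G003
import Pool.Agent.Lib.MP_d90615_co.Mg.G010
import Pool.Agent.Lib.MP_d90615_co.Mg.G013

section

/-!
Four classes: two disjoint edges between the classes.
-/

set_option autoImplicit false
set_option linter.unusedSectionVars false

namespace Pool.Agent.MJ

open Finset Polynomial
open scoped Classical Topology
open Pool.Agent.PW (Z N N2 Ray cw pw mv)

section Block

variable {V : Type*} [Fintype V]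

lemma rW_rW (p q r : V → Prop) (W : Sym2 V → ℝ) (h : ∀ v, r v ↔ p v ∧ q v) :
    rW p (rW q W) = rW r W := by
  funext g
  unfold rW
  by_cases hr : ∀ v ∈ g, r v
  · rw [if_pos hr, if_pos fun v hv => ((h v).mp (hr v hv)).1,
      if_pos fun v hv => ((h v).mp (hr v hv)).2]
  · rw [if_neg hr]
    split_ifs with h1 h2
    · exact absurd (fun v hv => (h v).mpr ⟨h1 v hv, h2 v hv⟩) hr
    · rfl
    · rfl

lemma rz_rz (p q r : V → Prop) (z : V → ℝ) (h : ∀ v, r v ↔ p v ∧ q v) :
    rz p (rz q z) = rz r z := by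
  funext v
  unfold rz
  by_cases hr : r v
  · rw [if_pos hr, if_pos ((h v).mp hr).1, if_pos ((h v).mp hr).2]
  · rw [if_neg hr]
    split_ifs with h1 h2
    · exact absurd ((h v).mpr ⟨h1, h2⟩) hr
    · rfl
    · rfl

lemma rW_iff (p q : V → Prop) (W : Sym2 V → ℝ) (h : ∀ v, p v ↔ q v) : rW p W = rW q W := by
  have : p = q := funext fun v => propext (h v)
  rw [this]

lemma rz_iff (p q : V → Prop) (z : V → ℝ) (h : ∀ v, p v ↔ q v) : rz p z = rz q z := by
  have : p = q := funext fun v => propext (h v)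
  rw [this]

lemma rz_mul (p : V → Prop) (z : V → ℝ) (μ : ℝ) :
    rz p (fun v => μ * z v) = fun v => μ * rz p z v := by
  funext v
  unfold rz
  split_ifs
  · rfl
  · rw [mul_zero]

lemma rW_mk (p : V → Prop) (W : Sym2 V → ℝ) (u v : V) :
    rW p W s(u, v) = if p u ∧ p v then W s(u, v) else 0 := by
  unfold rW
  have : (∀ w ∈ s(u, v), p w) ↔ p u ∧ p v := by
    constructor
    · intro h
      exact ⟨h u (Sym2.mem_mk_left u v), h v (Sym2.mem_mk_right u v)⟩
    · rintro ⟨h1, h2⟩ w hw
      rw [Sym2.mem_iff] at hw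
      rcases hw with rfl | rfl
      · exact h1
      · exact h2
  by_cases h : p u ∧ p v
  · rw [if_pos h, if_pos (this.mpr h)]
  · rw [if_neg h, if_neg fun h' => h (this.mp h')]

lemma rW_update_mem (p : V → Prop) (W : Sym2 V → ℝ) {a b : V} (ha : p a) (hb : p b) (t : ℝ) :
    rW p (Function.update W s(a, b) t) = Function.update (rW p W) s(a, b) t := by
  funext g
  by_cases h : g = s(a, b)
  · subst h
    rw [Function.update_self, rW_mk, if_pos ⟨ha, hb⟩, Function.update_self]
  · rw [Function.update_of_ne h]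
    unfold rW
    rw [Function.update_of_ne h]

lemma rW_update_notMem (p : V → Prop) (W : Sym2 V → ℝ) {a b : V} (ha : ¬ p a) (t : ℝ) :
    rW p (Function.update W s(a, b) t) = rW p W := by
  funext g
  by_cases h : g = s(a, b)
  · subst h
    rw [rW_mk, rW_mk, if_neg fun h => ha h.1, if_neg fun h => ha h.1]
  · unfold rW
    rw [Function.update_of_ne h]

/-- Two blocks that are joined by one pair. -/
lemma Zs_pair (p q : V → Prop) (hpq : ∀ v, p v → ¬ q v) (W : Sym2 V → ℝ) (z : V → ℝ)
    (hW : ∀ u v, p u → q v → W s(u, v) = 0) {a b : V} (ha : p a) (hb : q b) (t : ℝ) :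
    Zs (Function.update (rW (fun v => p v ∨ q v) W) s(a, b) t) (rz (fun v => p v ∨ q v) z) =
      (1 + t) * (Zs (rW p W) (rz p z) * Zs (rW q W) (rz q z)) -
      t * ((Zs (rW p W) (rz p z) - Gs (rW p W) (rz p z) a) *
        (Zs (rW q W) (rz q z) - Gs (rW q W) (rz q z) b)) := by
  have hab : a ≠ b := by
    rintro rfl
    exact hpq a ha hb
  have hM0 : rW (fun v => p v ∨ q v) W s(a, b) = 0 := by
    rw [rW_mk, hW a b ha hb, ite_self]
  have hM : ∀ u v, p u → ¬ p v → rW (fun v => p v ∨ q v) W s(u, v) = 0 := by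
    intro u v hu hv
    rw [rW_mk]
    by_cases h : (p u ∨ q u) ∧ (p v ∨ q v)
    · rw [if_pos h]
      exact hW u v hu (h.2.resolve_left hv)
    · rw [if_neg h]
  have e1 : rW p (rW (fun v => p v ∨ q v) W) = rW p W := rW_rW _ _ _ _ fun v => by tauto
  have e2 : rW (fun v => ¬ p v) (rW (fun v => p v ∨ q v) W) = rW q W :=
    rW_rW _ _ _ _ fun v => by have := hpq v; tauto
  have e3 : rz p (rz (fun v => p v ∨ q v) z) = rz p z := rz_rz _ _ _ _ fun v => by tauto
  have e4 : rz (fun v => ¬ p v) (rz (fun v => p v ∨ q v) z) = rz q z :=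
    rz_rz _ _ _ _ fun v => by have := hpq v; tauto
  have h1 := Zs_split (rW (fun v => p v ∨ q v) W) hab t (rz (fun v => p v ∨ q v) z)
  rw [hM0, zero_add] at h1
  rw [h1, Zs_union p _ _ hM, Zs_bridge p _ _ hM ha fun h => hpq b h hb, e1, e2, e3, e4]
  ring

/-- Four blocks; the blocks `0, 1` and `2, 3` are joined by one pair each. -/
lemma Zs_four (k : V → Fin 4) (W : Sym2 V → ℝ) (z : V → ℝ)
    (hW : ∀ u v, k u ≠ k v → W s(u, v) = 0) (a : Fin 4 → V) (ha : ∀ i, k (a i) = i) (t s : ℝ) :
    Zs (Function.update (Function.update W s(a 0, a 1) t) s(a 2, a 3) s) z =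
      ((1 + t) * (Zs (rW (fun v => k v = 0) W) (rz (fun v => k v = 0) z) *
          Zs (rW (fun v => k v = 1) W) (rz (fun v => k v = 1) z)) -
        t * ((Zs (rW (fun v => k v = 0) W) (rz (fun v => k v = 0) z) -
            Gs (rW (fun v => k v = 0) W) (rz (fun v => k v = 0) z) (a 0)) *
          (Zs (rW (fun v => k v = 1) W) (rz (fun v => k v = 1) z) -
            Gs (rW (fun v => k v = 1) W) (rz (fun v => k v = 1) z) (a 1)))) *
      ((1 + s) * (Zs (rW (fun v => k v = 2) W) (rz (fun v => k v = 2) z) *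
          Zs (rW (fun v => k v = 3) W) (rz (fun v => k v = 3) z)) -
        s * ((Zs (rW (fun v => k v = 2) W) (rz (fun v => k v = 2) z) -
            Gs (rW (fun v => k v = 2) W) (rz (fun v => k v = 2) z) (a 2)) *
          (Zs (rW (fun v => k v = 3) W) (rz (fun v => k v = 3) z) -
            Gs (rW (fun v => k v = 3) W) (rz (fun v => k v = 3) z) (a 3)))) := by
  have h01 : ∀ v, (k v = 0 → ¬ k v = 1) := by
    intro v h h'
    rw [h] at h'
    exact absurd h' (by decide)
  have h23 : ∀ v, (k v = 2 → ¬ k v = 3) := by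
    intro v h h'
    rw [h] at h'
    exact absurd h' (by decide)
  have hn : ∀ v, (k v = 2 ∨ k v = 3) ↔ ¬ (k v = 0 ∨ k v = 1) := by
    intro v
    generalize k v = i
    revert i
    decide
  rw [← Zs_pair (fun v => k v = 0) (fun v => k v = 1) h01 W z
      (fun u v hu hv => hW u v (by rw [hu, hv]; decide)) (ha 0) (ha 1),
    ← Zs_pair (fun v => k v = 2) (fun v => k v = 3) h23 W z
      (fun u v hu hv => hW u v (by rw [hu, hv]; decide)) (ha 2) (ha 3),
    Zs_union (fun v => k v = 0 ∨ k v = 1)]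
  · rw [rW_update_notMem (fun v => k v = 0 ∨ k v = 1) _ (a := a 2) (b := a 3)
        (by rw [ha]; decide),
      rW_update_mem (fun v => k v = 0 ∨ k v = 1) _ (a := a 0) (b := a 1)
        (by rw [ha]; decide) (by rw [ha]; decide),
      rW_update_mem (fun v => ¬ (k v = 0 ∨ k v = 1)) _ (a := a 2) (b := a 3)
        (by rw [ha]; decide) (by rw [ha]; decide),
      rW_update_notMem (fun v => ¬ (k v = 0 ∨ k v = 1)) _ (a := a 0) (b := a 1)
        (by rw [ha]; decide),
      rW_iff _ _ W hn, rz_iff _ _ z hn]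
  · intro u v hu hv
    have hne : k u ≠ k v := by
      intro h
      rw [h] at hu
      exact hv hu
    rw [Function.update_of_ne, Function.update_of_ne]
    · exact hW u v hne
    · intro h
      rw [Sym2.eq_iff] at h
      rcases h with h | h
      · rw [h.2, ha] at hv
        exact hv (Or.inr rfl)
      · rw [h.2, ha] at hv
        exact hv (Or.inl rfl)
    · intro h
      rw [Sym2.eq_iff] at h
      rcases h with h | h
      · rw [h.1, ha] at hu
        exact absurd hu (by decide)
      · rw [h.1, ha] at hu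
        exact absurd hu (by decide)

end Block

section Cls

variable {V : Type*} [Fintype V]

/-- Without hub weights the mark does not matter. -/
lemma Gs_zero (W : Sym2 V → ℝ) (x : V → ℝ) (a : V) :
    Gs W (fun v => 0 * x v) a = Zs W (fun v => 0 * x v) := by
  obtain ⟨p, g, hp, hg, _⟩ := exists_hub W (fun _ => (0 : ℝ)) a
  obtain ⟨h1, h2⟩ := lemmaA_mark W (fun _ => (0 : ℝ)) a p g hp hg 0
  have e1 : (fun g => W g + pw (fun _ : V => (0 : ℝ)) g) = W := by
    funext g
    induction g using Sym2.ind with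
    | _ u v => rw [Pool.Agent.PW.pw_mk, mul_zero, add_zero]
  have e2 : (fun v => 0 * x v) = fun _ : V => (0 : ℝ) * 0 := by
    funext v
    rw [zero_mul, mul_zero]
  rw [e1] at h1 h2
  rw [e2, h1, h2]
  congr 1
  rw [C_0, zero_mul, zero_mul, add_zero, add_zero, one_mul]

/-- `θ_i ∏_{j ≠ i} (1 + θ_j X)`. -/
noncomputable def Af {J : Type*} [Fintype J] (θ : J → ℝ) (i : J) : ℝ[X] :=
  C (θ i) * Pf (univ.erase i) θ

lemma derivative_prod_lin {J : Type*} [Fintype J] (θ : J → ℝ) :
    (C (∑ i, θ i) + X) * Pf univ θ - derivative (Pf univ θ) = X * (Pf univ θ + Qf univ θ) := by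
  have h1 : derivative (Pf univ θ) = ∑ i, (∏ j ∈ univ.erase i, (1 + C (θ j) * X)) * C (θ i) := by
    unfold Pf
    rw [Polynomial.derivative_prod_finset]
    refine Finset.sum_congr rfl fun i _ => ?_
    congr 1
    simp
  have h2 : ∀ i, Pf univ θ = (1 + C (θ i) * X) * ∏ j ∈ univ.erase i, (1 + C (θ j) * X) := by
    intro i
    unfold Pf
    rw [Finset.mul_prod_erase univ (fun j => 1 + C (θ j) * X) (mem_univ i)]
  rw [h1, add_mul, mul_add, add_sub_right_comm, add_comm]
  congr 1
  unfold Qf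
  rw [map_sum, Finset.sum_mul, ← Finset.sum_sub_distrib, Finset.mul_sum]
  refine Finset.sum_congr rfl fun i _ => ?_
  rw [h2 i, C_pow]
  ring

/-- The two polynomials of one class. -/
lemma class_poly (W : Sym2 V → ℝ) (hW : ∀ g, 0 ≤ W g) (x : V → ℝ) (hx : ∀ v, 0 ≤ x v) (a : V)
    (ha : 0 < x a) :
    ∃ (n : ℕ) (θ κ : Fin n → ℝ) (c : ℝ), 0 < c ∧ (∀ i, 0 ≤ θ i) ∧ (∀ i, 0 ≤ κ i) ∧
      ∑ i, θ i = ∑ v, x v ∧
      (∀ μ, Zs (fun g => W g - pw x g) (fun v => μ * x v) =
        (C c * T 1 (sh (∑ i, θ i) (Pf univ θ + Qf univ θ))).eval μ) ∧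
      (∀ μ, Zs (fun g => W g - pw x g) (fun v => μ * x v) -
        Gs (fun g => W g - pw x g) (fun v => μ * x v) a =
        μ * (C c * ∑ i, C (κ i) *
          T 1 (sh (∑ i, θ i) (Af θ i))).eval μ) := by
  obtain ⟨n, θ, κ, c, hc, hθ, hκ, hsum, hZ, hG⟩ := rowH W hW x hx a ha
  refine ⟨n, θ, κ, c, hc, hθ, hκ, hsum, ?_⟩
  set Y : Sym2 V → ℝ := fun g => W g - pw x g with hY
  have hYW : (fun g => Y g + pw x g) = W := by
    funext g
    rw [hY]
    ring
  obtain ⟨r, g, hr, hg, hr'⟩ := exists_hub Y x a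
  have hdvd : X ∣ r - g := by
    rw [Polynomial.X_dvd_iff, Polynomial.coeff_zero_eq_eval_zero, eval_sub, ← hr, ← hg, Gs_zero,
      sub_self]
  obtain ⟨m, hm⟩ := hdvd
  set S := ∑ i, θ i with hS
  have hf : ∀ l, (C c * Pf univ θ).eval l = Lam (S + l) ((1 + C l * X) * r) := by
    intro l
    have h1 := (lemmaA_mark Y x a r g hr hg l).1
    rw [hYW, hZ l, ← hsum] at h1
    rw [← h1]
    unfold Pf
    rw [eval_mul, eval_C, eval_prod]
    congr 1
    refine Finset.prod_congr rfl fun i _ => ?_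
    simp
  set M : ℝ[X] := ∑ i, C (κ i) * Af θ i with hMdef
  have hfg : ∀ l, (C c * Pf univ θ - X * (C c * M)).eval l = Lam (S + l) (r + C l * X * g) := by
    intro l
    have h1 := (lemmaA_mark Y x a r g hr hg l).2
    rw [hYW, hG l, ← hsum] at h1
    rw [← h1, hMdef]
    unfold Pf
    rw [eval_sub, eval_mul, eval_C, eval_prod, eval_mul, eval_mul, eval_C, eval_X, eval_finsetSum]
    congr 1
    · congr 1
      refine Finset.prod_congr rfl fun i _ => ?_
      simp
    · congr 2
      refine Finset.sum_congr rfl fun i _ => ?_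
      unfold Af Pf
      rw [eval_mul, eval_mul, eval_C, eval_C, eval_prod]
      congr 2
      refine Finset.prod_congr (by congr; exact Subsingleton.elim _ _) fun i _ => ?_
      simp
  have hr'' : (derivative r).eval 0 = S * r.eval 0 := by rw [hr', hsum]
  have hX : (X : ℝ[X]) ≠ 0 := X_ne_zero
  -- the shift
  have hcomp : ∀ p : ℝ[X], sh S (p.comp (X + C S)) = p := by
    intro p
    unfold sh
    rw [comp_assoc]
    simp
  -- r
  have k1 := hub_ode S r (C c * Pf univ θ) hr'' hf
  have k2 : (T (-1) r).comp (X + C S) = C c * (Pf univ θ + Qf univ θ) := by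
    have h1 := derivative_prod_lin θ
    rw [← hS] at h1
    have h2 : derivative (C c * Pf univ θ) = C c * derivative (Pf univ θ) := by
      rw [derivative_C_mul]
    refine mul_left_cancel₀ hX ?_
    calc X * (T (-1) r).comp (X + C S)
        = C c * ((C S + X) * Pf univ θ - derivative (Pf univ θ)) := by
          rw [h2] at k1
          linear_combination k1
      _ = X * (C c * (Pf univ θ + Qf univ θ)) := by
          rw [h1]
          ring
  have k3 : r = C c * T 1 (sh S (Pf univ θ + Qf univ θ)) := by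
    have h1 := hcomp (T (-1) r)
    rw [k2] at h1
    have h2 := T_neg_T (-1) r
    rw [neg_neg, ← h1] at h2
    rw [← h2]
    unfold sh
    rw [mul_comp, C_comp, T_C_mul]
  -- m
  have k4 := hub_mark S r g m (C c * Pf univ θ) (C c * Pf univ θ - X * (C c * M)) hm hf hfg
  rw [sub_sub_cancel] at k4
  have k5 : (T (-1) m).comp (X + C S) = C c * M := (mul_left_cancel₀ hX k4).symm
  have k6 : m = C c * ∑ i, C (κ i) * T 1 (sh S (Af θ i)) := by
    have h1 := hcomp (T (-1) m)
    rw [k5] at h1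
    have h2 := T_neg_T (-1) m
    rw [neg_neg, ← h1] at h2
    rw [← h2]
    unfold sh
    rw [mul_comp, C_comp, T_C_mul, hMdef, Polynomial.sum_comp, map_sum]
    congr 1
    refine Finset.sum_congr rfl fun i _ => ?_
    rw [mul_comp, C_comp, T_C_mul]
  refine ⟨fun μ => by rw [hr, k3], fun μ => ?_⟩
  rw [hr, hg, ← eval_sub, hm, eval_mul, eval_X, k6]

end Cls

section Cone

lemma cone_step (L : ℝ[X] →ₗ[ℝ] ℝ) {J : Type*} [Fintype J] {κ : J → ℝ} (hκ : ∀ j, 0 ≤ κ j)
    {M : J → ℝ[X]} {c : ℝ} (hc : 0 ≤ c) (h : ∀ j, 0 ≤ L (M j)) :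
    0 ≤ L (C c * ∑ j, C (κ j) * M j) := by
  have h1 : L (C c * ∑ j, C (κ j) * M j) = c * ∑ j, κ j * L (M j) := by
    simp only [Polynomial.C_mul', map_smul, map_sum, smul_eq_mul]
  rw [h1]
  exact mul_nonneg hc (Finset.sum_nonneg fun j _ => mul_nonneg (hκ j) (h j))

/-- The inequality extends to nonnegative combinations of the marks. -/
lemma cone_four (E : ℝ[X] →ₗ[ℝ] ℝ) (R : Fin 4 → ℝ[X]) {J : Fin 4 → Type*}
    [∀ k, Fintype (J k)] {κ : ∀ k, J k → ℝ} (hκ : ∀ k j, 0 ≤ κ k j) {M : ∀ k, J k → ℝ[X]}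
    {c : Fin 4 → ℝ} (hc : ∀ k, 0 ≤ c k) (z : ℝ)
    (h : ∀ j : ∀ k, J k, E (X * (X * (M 0 (j 0) * M 1 (j 1) * M 2 (j 2) * M 3 (j 3)))) * z ≤
      E (M 0 (j 0) * M 1 (j 1) * R 2 * R 3) * E (R 0 * R 1 * M 2 (j 2) * M 3 (j 3)))
    {m : Fin 4 → ℝ[X]} (hm : ∀ k, m k = C (c k) * ∑ j, C (κ k j) * M k j) :
    E (X * (X * (m 0 * m 1 * m 2 * m 3))) * z ≤
      E (m 0 * m 1 * R 2 * R 3) * E (R 0 * R 1 * m 2 * m 3) := by
  -- the difference as a linear form in the last argument
  have s3 : ∀ (j0 : J 0) (j1 : J 1) (j2 : J 2),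
      E (X * (X * (M 0 j0 * M 1 j1 * M 2 j2 * m 3))) * z ≤
        E (M 0 j0 * M 1 j1 * R 2 * R 3) * E (R 0 * R 1 * M 2 j2 * m 3) := by
    intro j0 j1 j2
    have h1 := cone_step (E (M 0 j0 * M 1 j1 * R 2 * R 3) •
      (E.comp (LinearMap.mulLeft ℝ (R 0 * R 1 * M 2 j2))) -
      z • (E.comp (LinearMap.mulLeft ℝ (X * (X * (M 0 j0 * M 1 j1 * M 2 j2))))))
      (hκ 3) (M := M 3) (hc 3) (fun j3 => by
        have h2 := h (fun k => match k with
          | 0 => j0
          | 1 => j1
          | 2 => j2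
          | 3 => j3)
        simp only [LinearMap.sub_apply, LinearMap.smul_apply, LinearMap.comp_apply,
          LinearMap.mulLeft_apply, smul_eq_mul]
        rw [show X * (X * (M 0 j0 * M 1 j1 * M 2 j2)) * M 3 j3 =
          X * (X * (M 0 j0 * M 1 j1 * M 2 j2 * M 3 j3)) by ring]
        linarith)
    rw [← hm 3] at h1
    simp only [LinearMap.sub_apply, LinearMap.smul_apply, LinearMap.comp_apply,
      LinearMap.mulLeft_apply, smul_eq_mul] at h1
    rw [show X * (X * (M 0 j0 * M 1 j1 * M 2 j2)) * m 3 =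
      X * (X * (M 0 j0 * M 1 j1 * M 2 j2 * m 3)) by ring] at h1
    linarith
  have s2 : ∀ (j0 : J 0) (j1 : J 1),
      E (X * (X * (M 0 j0 * M 1 j1 * m 2 * m 3))) * z ≤
        E (M 0 j0 * M 1 j1 * R 2 * R 3) * E (R 0 * R 1 * m 2 * m 3) := by
    intro j0 j1
    have h1 := cone_step (E (M 0 j0 * M 1 j1 * R 2 * R 3) •
      (E.comp (LinearMap.mulLeft ℝ (R 0 * R 1 * m 3))) -
      z • (E.comp (LinearMap.mulLeft ℝ (X * (X * (M 0 j0 * M 1 j1 * m 3))))))
      (hκ 2) (M := M 2) (hc 2) (fun j2 => by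
        have h2 := s3 j0 j1 j2
        simp only [LinearMap.sub_apply, LinearMap.smul_apply, LinearMap.comp_apply,
          LinearMap.mulLeft_apply, smul_eq_mul]
        rw [show X * (X * (M 0 j0 * M 1 j1 * m 3)) * M 2 j2 =
          X * (X * (M 0 j0 * M 1 j1 * M 2 j2 * m 3)) by ring,
          show R 0 * R 1 * m 3 * M 2 j2 = R 0 * R 1 * M 2 j2 * m 3 by ring]
        linarith)
    rw [← hm 2] at h1
    simp only [LinearMap.sub_apply, LinearMap.smul_apply, LinearMap.comp_apply,
      LinearMap.mulLeft_apply, smul_eq_mul] at h1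
    rw [show X * (X * (M 0 j0 * M 1 j1 * m 3)) * m 2 =
      X * (X * (M 0 j0 * M 1 j1 * m 2 * m 3)) by ring,
      show R 0 * R 1 * m 3 * m 2 = R 0 * R 1 * m 2 * m 3 by ring] at h1
    linarith
  have s1 : ∀ (j0 : J 0),
      E (X * (X * (M 0 j0 * m 1 * m 2 * m 3))) * z ≤
        E (M 0 j0 * m 1 * R 2 * R 3) * E (R 0 * R 1 * m 2 * m 3) := by
    intro j0
    have h1 := cone_step (E (R 0 * R 1 * m 2 * m 3) •
      (E.comp (LinearMap.mulLeft ℝ (M 0 j0 * R 2 * R 3))) -
      z • (E.comp (LinearMap.mulLeft ℝ (X * (X * (M 0 j0 * m 2 * m 3))))))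
      (hκ 1) (M := M 1) (hc 1) (fun j1 => by
        have h2 := s2 j0 j1
        simp only [LinearMap.sub_apply, LinearMap.smul_apply, LinearMap.comp_apply,
          LinearMap.mulLeft_apply, smul_eq_mul]
        rw [show X * (X * (M 0 j0 * m 2 * m 3)) * M 1 j1 =
          X * (X * (M 0 j0 * M 1 j1 * m 2 * m 3)) by ring,
          show M 0 j0 * R 2 * R 3 * M 1 j1 = M 0 j0 * M 1 j1 * R 2 * R 3 by ring]
        linarith)
    rw [← hm 1] at h1
    simp only [LinearMap.sub_apply, LinearMap.smul_apply, LinearMap.comp_apply,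
      LinearMap.mulLeft_apply, smul_eq_mul] at h1
    rw [show X * (X * (M 0 j0 * m 2 * m 3)) * m 1 =
      X * (X * (M 0 j0 * m 1 * m 2 * m 3)) by ring,
      show M 0 j0 * R 2 * R 3 * m 1 = M 0 j0 * m 1 * R 2 * R 3 by ring] at h1
    linarith
  have h1 := cone_step (E (R 0 * R 1 * m 2 * m 3) •
    (E.comp (LinearMap.mulLeft ℝ (m 1 * R 2 * R 3))) -
    z • (E.comp (LinearMap.mulLeft ℝ (X * (X * (m 1 * m 2 * m 3))))))
    (hκ 0) (M := M 0) (hc 0) (fun j0 => by
      have h2 := s1 j0
      simp only [LinearMap.sub_apply, LinearMap.smul_apply, LinearMap.comp_apply,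
        LinearMap.mulLeft_apply, smul_eq_mul]
      rw [show X * (X * (m 1 * m 2 * m 3)) * M 0 j0 =
        X * (X * (M 0 j0 * m 1 * m 2 * m 3)) by ring,
        show m 1 * R 2 * R 3 * M 0 j0 = M 0 j0 * m 1 * R 2 * R 3 by ring]
      linarith)
  rw [← hm 0] at h1
  simp only [LinearMap.sub_apply, LinearMap.smul_apply, LinearMap.comp_apply,
    LinearMap.mulLeft_apply, smul_eq_mul] at h1
  rw [show X * (X * (m 1 * m 2 * m 3)) * m 0 =
    X * (X * (m 0 * m 1 * m 2 * m 3)) by ring,
    show m 1 * R 2 * R 3 * m 0 = m 0 * m 1 * R 2 * R 3 by ring] at h1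
  linarith

end Cone

section Join

variable {V : Type*} [Fintype V]

lemma rW_sub_pw (p : V → Prop) (W : Sym2 V → ℝ) (x : V → ℝ) :
    rW p (fun g => W g - pw x g) = fun g => rW p W g - pw (rz p x) g := by
  funext g
  induction g using Sym2.ind with
  | _ u v =>
    rw [rW_mk, rW_mk, Pool.Agent.PW.pw_mk, Pool.Agent.PW.pw_mk]
    unfold rz
    by_cases hu : p u
    · by_cases hv : p v
      · rw [if_pos ⟨hu, hv⟩, if_pos ⟨hu, hv⟩, if_pos hu, if_pos hv]
      · rw [if_neg fun h => hv h.2, if_neg fun h => hv h.2, if_neg hv, mul_zero, sub_zero]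
    · rw [if_neg fun h => hu h.1, if_neg fun h => hu h.1, if_neg hu, zero_mul, sub_zero]

lemma Z_nonneg (W : Sym2 V → ℝ) (hW : ∀ g, 0 ≤ W g) : 0 ≤ Z W := by
  unfold Z
  exact Finset.sum_nonneg fun F _ => Finset.prod_nonneg fun g _ => hW g

/-- The four classes, positive masses. -/
theorem ray_join_pos (W : Sym2 V → ℝ) (hW : ∀ g, 0 ≤ W g) (x : V → ℝ) (hx : ∀ v, 0 ≤ x v)
    (k : V → Fin 4) (hk : ∀ u v, k u ≠ k v → W s(u, v) = x u * x v)
    (a : Fin 4 → V) (ha : ∀ i, k (a i) = i) (hpos : ∀ i, 0 < x (a i)) :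
    0 ≤ Ray W s(a 0, a 1) s(a 2, a 3) := by
  have : Nonempty V := ⟨a 0⟩
  set Y : Sym2 V → ℝ := fun g => W g - pw x g with hY
  have hY0 : ∀ u v, k u ≠ k v → Y s(u, v) = 0 := by
    intro u v h
    show W s(u, v) - pw x s(u, v) = 0
    rw [hk u v h, Pool.Agent.PW.pw_mk, sub_self]
  have hYW : (fun g => Y g + pw x g) = W := by
    funext g
    show W g - pw x g + pw x g = W g
    ring
  have hane : ∀ i j : Fin 4, i ≠ j → a i ≠ a j := by
    intro i j hij h
    apply hij
    rw [← ha i, ← ha j, h]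
  have hne : ∀ i j : Fin 4, i ≠ j → k (a i) ≠ k (a j) := by
    intro i j hij
    rw [ha, ha]
    exact hij
  have hef : s(a 0, a 1) ≠ s(a 2, a 3) := by
    intro h
    rw [Sym2.eq_iff] at h
    rcases h with h | h
    · exact hane 0 2 (by decide) h.1
    · exact hane 0 3 (by decide) h.1
  -- the classes
  have hcls : ∀ i : Fin 4, ∃ (n : ℕ) (θ κ : Fin n → ℝ) (c : ℝ),
      0 < c ∧ (∀ i, 0 ≤ θ i) ∧ (∀ i, 0 ≤ κ i) ∧
      ∑ j, θ j = ∑ v, rz (fun v => k v = i) x v ∧
      (∀ μ, Zs (rW (fun v => k v = i) Y) (rz (fun v => k v = i) (fun v => μ * x v)) =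
        (C c * T 1 (sh (∑ j, θ j) (Pf univ θ + Qf univ θ))).eval μ) ∧
      (∀ μ, Zs (rW (fun v => k v = i) Y) (rz (fun v => k v = i) (fun v => μ * x v)) -
        Gs (rW (fun v => k v = i) Y) (rz (fun v => k v = i) (fun v => μ * x v)) (a i) =
        μ * (C c * ∑ j, C (κ j) * T 1 (sh (∑ j, θ j) (Af θ j))).eval μ) := by
    intro i
    have h1 := class_poly (rW (fun v => k v = i) W) (fun g => by
      unfold rW
      split_ifs
      · exact hW g
      · exact le_refl 0) (rz (fun v => k v = i) x) (fun v => by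
      unfold rz
      split_ifs
      · exact hx v
      · exact le_refl 0) (a i) (by
      unfold rz
      rw [if_pos (ha i)]
      exact hpos i)
    obtain ⟨n, θ, κ, c, hc, hθ, hκ, hsum, h2, h3⟩ := h1
    refine ⟨n, θ, κ, c, hc, hθ, hκ, hsum, fun μ => ?_, fun μ => ?_⟩
    · rw [rz_mul, rW_sub_pw]
      exact h2 μ
    · rw [rz_mul, rW_sub_pw]
      exact h3 μ
  choose n θ κ c hc hθ hκ hsum hr hm using hcls
  -- notation
  set S : ℝ := ∑ v, x v with hS
  have hXk : ∑ i, Xk θ i = S := by
    have h1 : ∀ i, Xk θ i = ∑ v, rz (fun v => k v = i) x v := fun i => hsum i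
    rw [Finset.sum_congr rfl fun i _ => h1 i, Finset.sum_comm]
    refine Finset.sum_congr rfl fun v _ => ?_
    unfold rz
    beta_reduce
    rw [Finset.sum_eq_single (k v), if_pos rfl]
    · intro i _ hi
      rw [if_neg fun h => hi h.symm]
    · intro h
      exact absurd (mem_univ _) h
  set R : Fin 4 → ℝ[X] := fun i => T 1 (sh (Xk θ i) (at' θ i)) with hR
  set M : ∀ i, Fin (n i) → ℝ[X] := fun i j => T 1 (sh (Xk θ i) (Af (θ i) j)) with hM
  set m : Fin 4 → ℝ[X] := fun i => C (c i) * ∑ j, C (κ i j) * M i j with hmdef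
  set r : Fin 4 → ℝ[X] := fun i => C (c i) * R i with hrdef
  have hr' : ∀ i μ, Zs (rW (fun v => k v = i) Y) (rz (fun v => k v = i) (fun v => μ * x v)) =
      (r i).eval μ := hr
  have hm' : ∀ i μ, Zs (rW (fun v => k v = i) Y) (rz (fun v => k v = i) (fun v => μ * x v)) -
        Gs (rW (fun v => k v = i) Y) (rz (fun v => k v = i) (fun v => μ * x v)) (a i) =
      μ * (m i).eval μ := hm
  set E : ℝ[X] →ₗ[ℝ] ℝ := (Polynomial.leval S).comp (T (-1)) with hE
  have hEa : ∀ p, E p = (T (-1) p).eval S := fun p => rfl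
  set cc : ℝ := c 0 * c 1 * c 2 * c 3 with hcc
  have hcc0 : 0 < cc := mul_pos (mul_pos (mul_pos (hc 0) (hc 1)) (hc 2)) (hc 3)
  set r4 : ℝ[X] := r 0 * r 1 * r 2 * r 3 with hr4
  -- the partition function with a hub, with weights on the two pairs
  have hp : ∀ t s μ, Zs (Function.update (Function.update Y s(a 0, a 1) t) s(a 2, a 3) s)
      (fun v => μ * x v) =
      ((C (1 + t) * (r 0 * r 1) - C t * (X * m 0 * (X * m 1))) *
        (C (1 + s) * (r 2 * r 3) - C s * (X * m 2 * (X * m 3)))).eval μ := by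
    intro t s μ
    rw [Zs_four k Y _ hY0 a ha, hm', hm', hm', hm', hr', hr', hr', hr']
    simp only [eval_mul, eval_sub, eval_C, eval_X]
  have hp0 : ∀ μ, Zs Y (fun v => μ * x v) = r4.eval μ := by
    intro μ
    have h1 := hp 0 0 μ
    have h2 : Function.update (Function.update Y s(a 0, a 1) 0) s(a 2, a 3) 0 = Y := by
      rw [Function.update_eq_iff]
      refine ⟨(hY0 _ _ (hne 2 3 (by decide))).symm, fun g hg => ?_⟩
      by_cases h : g = s(a 0, a 1)
      · subst h
        rw [Function.update_self, hY0 _ _ (hne 0 1 (by decide))]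
      · rw [Function.update_of_ne h]
    rw [h2] at h1
    rw [h1, hr4]
    simp only [eval_mul, eval_sub, eval_C]
    ring
  set L0 := Lam S r4 with hL0
  set Q12 := E (m 0 * m 1 * r 2 * r 3) with hQ12
  set Q34 := E (r 0 * r 1 * m 2 * m 3) with hQ34
  set U := E (X * (X * (m 0 * m 1 * m 2 * m 3))) with hU
  have hray : Ray W s(a 0, a 1) s(a 2, a 3) = Q12 * Q34 - U * L0 := by
    rw [Pool.Agent.Lib.MP_d90615_co.ray_of_four W hef (x (a 0) * x (a 1)) (x (a 2) * x (a 3))
      L0 (L0 - Q12) (L0 - Q34) (L0 - Q12 - Q34 + U)]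
    · ring
    · intro ρ σ
      set t := ρ - x (a 0) * x (a 1) with ht
      set s := σ - x (a 2) * x (a 3) with hs
      have h1 : Function.update (Function.update W s(a 0, a 1) ρ) s(a 2, a 3) σ =
          fun g => Function.update (Function.update Y s(a 0, a 1) t) s(a 2, a 3) s g
            + pw x g := by
        funext g
        by_cases h2 : g = s(a 2, a 3)
        · subst h2
          rw [Function.update_self, Function.update_self, Pool.Agent.PW.pw_mk, hs]
          ring
        · rw [Function.update_of_ne h2, Function.update_of_ne h2]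
          by_cases h3 : g = s(a 0, a 1)
          · subst h3
            rw [Function.update_self, Function.update_self, Pool.Agent.PW.pw_mk, ht]
            ring
          · rw [Function.update_of_ne h3, Function.update_of_ne h3]
            show W g = W g - pw x g + pw x g
            ring
      rw [h1, lemmaA _ x _ (hp t s), ← hS]
      have h2 : (C (1 + t) * (r 0 * r 1) - C t * (X * m 0 * (X * m 1))) *
          (C (1 + s) * (r 2 * r 3) - C s * (X * m 2 * (X * m 3))) =
          C ((1 + t) * (1 + s)) * r4 + (C (-(t * (1 + s))) * (X ^ 2 * (m 0 * m 1 * r 2 * r 3)) +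
          (C (-((1 + t) * s)) * (X ^ 2 * (r 0 * r 1 * m 2 * m 3)) +
          C (t * s) * (X ^ 2 * (X * (X * (m 0 * m 1 * m 2 * m 3)))))) := by
        rw [hr4]
        simp only [C_mul, C_add, C_neg, C_1]
        ring
      rw [h2, Lam_add, Lam_add, Lam_add, Lam_C_mul, Lam_C_mul, Lam_C_mul, Lam_C_mul, Lam_X_sq,
        Lam_X_sq, Lam_X_sq, ← hEa, ← hEa, ← hEa, ← hL0, ← hQ12, ← hQ34, ← hU]
      ring
  have hL0Z : Z W = L0 := by
    have h1 := lemmaA Y x r4 hp0
    rw [hYW, ← hS] at h1
    exact h1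
  have hL00 : 0 ≤ L0 := hL0Z ▸ Z_nonneg W hW
  -- the hub polynomial
  obtain ⟨F, _, hF, _, _⟩ := exists_hub W x (a 0)
  obtain ⟨r4', _, h4, _, h4'⟩ := exists_hub Y x (a 0)
  have h44 : r4' = r4 := Polynomial.funext fun μ => by rw [← h4, hp0]
  rw [h44, ← hS] at h4'
  have hFL : ∀ l, F.eval l = Lam (S + l) ((1 + C l * X) * r4) := by
    intro l
    have h1 := lemmaA_hub Y x r4 hp0 l
    rw [hYW, hF, ← hS] at h1
    exact h1
  have hode := hub_ode S r4 F h4' hFL
  have hF0 : F.eval 0 = L0 := by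
    rw [hFL 0, add_zero, C_0, zero_mul, add_zero, one_mul]
  have hTr4 : T (-1) r4 = C cc * NN fun i => sh (Xk θ i) (at' θ i) := by
    unfold NN
    rw [Fin.prod_univ_four, ← T_C_mul, hr4, hcc]
    congr 1
    simp only [C_mul, hrdef, hR]
    ring
  -- theorem P
  set f : ℝ[X] := C cc⁻¹ * F with hfdef
  have hf0 : f.eval 0 = cc⁻¹ * L0 := by
    rw [hfdef, eval_mul, eval_C, hF0]
  have hfode : derivative f = (C (∑ i, Xk θ i) + X) * f -
      X * (NN fun i => sh (Xk θ i) (at' θ i)).comp (X + C (∑ i, Xk θ i)) := by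
    have h1 : (C cc⁻¹ : ℝ[X]) * C cc = 1 := by
      rw [← C_mul, inv_mul_cancel₀ hcc0.ne', C_1]
    rw [hfdef, derivative_C_mul, hode, hXk, hTr4, mul_comp, C_comp]
    linear_combination (-X * (NN fun i => sh (Xk θ i) (at' θ i)).comp (X + C S)) * h1
  have hP : ∀ j : ∀ i, Fin (n i),
      E (X * (X * (M 0 (j 0) * M 1 (j 1) * M 2 (j 2) * M 3 (j 3)))) * (cc⁻¹ * L0) ≤
        E (M 0 (j 0) * M 1 (j 1) * R 2 * R 3) * E (R 0 * R 1 * M 2 (j 2) * M 3 (j 3)) := by
    intro j
    have h1 := thmP θ hθ j f (by rw [hf0]; positivity) hfode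
    rw [hf0, hXk] at h1
    unfold NN at h1
    rw [Fin.prod_univ_four, Fin.prod_univ_four, Fin.prod_univ_four, ← T_neg_one_X,
      ← T_neg_one_X] at h1
    beta_reduce at h1
    have e01 : (0 : Fin 4) = 0 ∨ (0 : Fin 4) = 1 := by decide
    have e11 : (1 : Fin 4) = 0 ∨ (1 : Fin 4) = 1 := by decide
    have e21 : ¬ ((2 : Fin 4) = 0 ∨ (2 : Fin 4) = 1) := by decide
    have e31 : ¬ ((3 : Fin 4) = 0 ∨ (3 : Fin 4) = 1) := by decide
    rw [if_pos e01, if_pos e01, if_pos e11, if_pos e11, if_neg e21, if_neg e21, if_neg e31,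
      if_neg e31] at h1
    exact h1
  have hfin := cone_four E R hκ (fun i => (hc i).le) (cc⁻¹ * L0) hP (m := m) (fun i => rfl)
  have e12 : Q12 = c 2 * c 3 * E (m 0 * m 1 * R 2 * R 3) := by
    rw [hQ12, show m 0 * m 1 * r 2 * r 3 = (c 2 * c 3) • (m 0 * m 1 * R 2 * R 3) by
      rw [← Polynomial.C_mul']
      simp only [C_mul, hrdef]
      ring, map_smul, smul_eq_mul]
  have e34 : Q34 = c 0 * c 1 * E (R 0 * R 1 * m 2 * m 3) := by
    rw [hQ34, show r 0 * r 1 * m 2 * m 3 = (c 0 * c 1) • (R 0 * R 1 * m 2 * m 3) by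
      rw [← Polynomial.C_mul']
      simp only [C_mul, hrdef]
      ring, map_smul, smul_eq_mul]
  rw [hray, e12, e34]
  have h5 := mul_le_mul_of_nonneg_left hfin hcc0.le
  have h6 : cc * (U * (cc⁻¹ * L0)) = U * L0 := by
    field_simp
  rw [← hU, h6] at h5
  have h7 : cc * (E (m 0 * m 1 * R 2 * R 3) * E (R 0 * R 1 * m 2 * m 3)) =
      c 2 * c 3 * E (m 0 * m 1 * R 2 * R 3) * (c 0 * c 1 * E (R 0 * R 1 * m 2 * m 3)) := by
    rw [hcc]
    ring
  linarith

/-- **The four classes.** -/
theorem ray_join (W : Sym2 V → ℝ) (hW : ∀ g, 0 ≤ W g) (x : V → ℝ) (hx : ∀ v, 0 ≤ x v)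
    (k : V → Fin 4) (hk : ∀ u v, k u ≠ k v → W s(u, v) = x u * x v)
    (a : Fin 4 → V) (ha : ∀ i, k (a i) = i) :
    0 ≤ Ray W s(a 0, a 1) s(a 2, a 3) := by
  set G : ℝ → Sym2 V → ℝ := fun ε g => W g +
    if (Sym2.map k g).IsDiag then 0 else pw (fun v => x v + ε) g - pw x g with hG
  have hG0 : G 0 = W := by
    funext g
    show W g + (if (Sym2.map k g).IsDiag then 0 else pw (fun v => x v + 0) g - pw x g) = W g
    simp only [add_zero, sub_self, ite_self]
  have hk' : ∀ g : Sym2 V, ¬ (Sym2.map k g).IsDiag → W g = pw x g := by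
    intro g hg
    induction g using Sym2.ind with
    | _ u v =>
      rw [Sym2.map_mk, Sym2.mk_isDiag_iff] at hg
      rw [Pool.Agent.PW.pw_mk]
      exact hk u v hg
  have key : ∀ ε : ℝ, 0 < ε → 0 ≤ Ray (G ε) s(a 0, a 1) s(a 2, a 3) := by
    intro ε hε
    refine ray_join_pos (G ε) (fun g => ?_) (fun v => x v + ε)
      (fun v => add_nonneg (hx v) hε.le) k (fun u v h => ?_) a ha
      (fun i => add_pos_of_nonneg_of_pos (hx _) hε)
    · show 0 ≤ W g + (if (Sym2.map k g).IsDiag then 0 else pw (fun v => x v + ε) g - pw x g)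
      by_cases h : (Sym2.map k g).IsDiag
      · rw [if_pos h, add_zero]
        exact hW g
      · rw [if_neg h, hk' g h, add_sub_cancel]
        induction g using Sym2.ind with
        | _ u v =>
          rw [Pool.Agent.PW.pw_mk]
          exact mul_nonneg (add_nonneg (hx u) hε.le) (add_nonneg (hx v) hε.le)
    · show W s(u, v) + (if (Sym2.map k s(u, v)).IsDiag then 0
        else pw (fun v => x v + ε) s(u, v) - pw x s(u, v)) = _
      have h1 : ¬ (Sym2.map k s(u, v)).IsDiag := by
        rw [Sym2.map_mk, Sym2.mk_isDiag_iff]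
        exact h
      rw [if_neg h1, hk' _ h1, Pool.Agent.PW.pw_mk, Pool.Agent.PW.pw_mk]
      ring
  have hcont : Continuous fun ε : ℝ => Ray (G ε) s(a 0, a 1) s(a 2, a 3) := by
    refine (Pool.Agent.Lib.MP_d90615_co.continuous_Ray s(a 0, a 1) s(a 2, a 3)).comp ?_
    refine continuous_pi fun g => ?_
    show Continuous fun ε : ℝ => W g +
      (if (Sym2.map k g).IsDiag then 0 else pw (fun v => x v + ε) g - pw x g)
    by_cases h : (Sym2.map k g).IsDiag
    · simp only [if_pos h]
      exact continuous_const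
    · simp only [if_neg h]
      induction g using Sym2.ind with
      | _ u v =>
        simp only [Pool.Agent.PW.pw_mk]
        fun_prop
  have h1 := (hcont.tendsto 0).mono_left (nhdsWithin_le_nhds (s := Set.Ioi 0))
  have h2 := ge_of_tendsto h1 (by
    filter_upwards [self_mem_nhdsWithin] with ε hε
    exact key ε hε)
  rw [hG0] at h2
  exact h2

end Join

end Pool.Agent.MJ
end

section

/-!
Three classes; two ends in the first class.
-/

set_option autoImplicit false
set_option linter.unusedSectionVars false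

namespace Pool.Agent.MJ

open Finset Polynomial
open scoped Classical Topology
open Pool.Agent.PW (Z N N2 Ray cw pw mv)

section Three

variable {V : Type*} [Fintype V]

/-- The hub function with extra weights `σ` at `a` and `τ` at `c`. -/
noncomputable def F2 (W : Sym2 V → ℝ) (z : V → ℝ) (a c : V) (σ τ : ℝ) : ℝ :=
  Zs W (fun v => z v + dl a σ v + dl c τ v)

lemma F2_zero (W : Sym2 V → ℝ) (z : V → ℝ) (a c : V) : F2 W z a c 0 0 = Zs W z := by
  unfold F2
  congr 1
  funext v
  unfold dl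
  simp

lemma F2_affine_left (W : Sym2 V → ℝ) (z : V → ℝ) (a c : V) (σ τ : ℝ) :
    F2 W z a c σ τ = F2 W z a c 0 τ + σ * (F2 W z a c 1 τ - F2 W z a c 0 τ) := by
  have key : ∀ σ, F2 W z a c σ τ =
      Zs W (fun v => z v + dl c τ v) + σ * Gs W (fun v => z v + dl c τ v) a := by
    intro σ
    rw [← star']
    unfold F2
    congr 1
    funext v
    ring
  rw [key σ, key 0, key 1]
  ring

lemma F2_affine_right (W : Sym2 V → ℝ) (z : V → ℝ) (a c : V) (σ τ : ℝ) :
    F2 W z a c σ τ = F2 W z a c σ 0 + τ * (F2 W z a c σ 1 - F2 W z a c σ 0) := by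
  have key : ∀ τ, F2 W z a c σ τ =
      Zs W (fun v => z v + dl a σ v) + τ * Gs W (fun v => z v + dl a σ v) c := by
    intro τ
    rw [← star']
    rfl
  rw [key τ, key 0, key 1]
  ring

lemma F2_Gs_left (W : Sym2 V → ℝ) (z : V → ℝ) (a c : V) :
    Gs W z a = Zs W z - F2 W z a c (-1) 0 := by
  have h1 := star' W z a (-1)
  have h2 : F2 W z a c (-1) 0 = Zs W (fun v => z v + dl a (-1) v) := by
    unfold F2
    congr 1
    funext v
    unfold dl
    simp
  rw [h2, h1]
  ring

lemma F2_Gs_right (W : Sym2 V → ℝ) (z : V → ℝ) (a c : V) :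
    Gs W z c = Zs W z - F2 W z a c 0 (-1) := by
  have h1 := star' W z c (-1)
  have h2 : F2 W z a c 0 (-1) = Zs W (fun v => z v + dl c (-1) v) := by
    unfold F2
    congr 1
    funext v
    unfold dl
    simp
  rw [h2, h1]
  ring

/-- **Three blocks** with two bridges at the first block. -/
lemma Zs_three (k : V → Fin 3) (W : Sym2 V → ℝ) (z : V → ℝ)
    (hW : ∀ u v, k u ≠ k v → W s(u, v) = 0) {a b c d : V} (ha : k a = 0) (hb : k b = 1)
    (hc : k c = 0) (hd : k d = 2) (t s : ℝ) :
    Zs (Function.update (Function.update W s(a, b) t) s(c, d) s) z =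
      (1 + t) * (1 + s) * (F2 (rW (fun v => k v = 0) W) (rz (fun v => k v = 0) z) a c 0 0 *
          Zs (rW (fun v => k v = 1) W) (rz (fun v => k v = 1) z) *
          Zs (rW (fun v => k v = 2) W) (rz (fun v => k v = 2) z)) -
      t * (1 + s) * (F2 (rW (fun v => k v = 0) W) (rz (fun v => k v = 0) z) a c (-1) 0 *
          (Zs (rW (fun v => k v = 1) W) (rz (fun v => k v = 1) z) -
            Gs (rW (fun v => k v = 1) W) (rz (fun v => k v = 1) z) b) *
          Zs (rW (fun v => k v = 2) W) (rz (fun v => k v = 2) z)) -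
      (1 + t) * s * (F2 (rW (fun v => k v = 0) W) (rz (fun v => k v = 0) z) a c 0 (-1) *
          Zs (rW (fun v => k v = 1) W) (rz (fun v => k v = 1) z) *
          (Zs (rW (fun v => k v = 2) W) (rz (fun v => k v = 2) z) -
            Gs (rW (fun v => k v = 2) W) (rz (fun v => k v = 2) z) d)) +
      t * s * (F2 (rW (fun v => k v = 0) W) (rz (fun v => k v = 0) z) a c (-1) (-1) *
          (Zs (rW (fun v => k v = 1) W) (rz (fun v => k v = 1) z) -
            Gs (rW (fun v => k v = 1) W) (rz (fun v => k v = 1) z) b) *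
          (Zs (rW (fun v => k v = 2) W) (rz (fun v => k v = 2) z) -
            Gs (rW (fun v => k v = 2) W) (rz (fun v => k v = 2) z) d)) := by
  have hcd : c ≠ d := by
    rintro rfl
    rw [hc] at hd
    exact absurd hd (by decide)
  have hdis : ∀ v, (k v = 0 → ¬ k v = 1) := by
    intro v h h'
    rw [h] at h'
    exact absurd h' (by decide)
  have hn : ∀ v, (k v = 2) ↔ ¬ (k v = 0 ∨ k v = 1) := by
    intro v
    generalize k v = i
    revert i
    decide
  have hPc : k c = 0 ∨ k c = 1 := Or.inl hc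
  have hPd : ¬ (k d = 0 ∨ k d = 1) := (hn d).mp hd
  set W' := Function.update W s(a, b) t with hW'
  have hW'c : ∀ u v, (k u = 0 ∨ k u = 1) → ¬ (k v = 0 ∨ k v = 1) → W' s(u, v) = 0 := by
    intro u v hu hv
    have hne : k u ≠ k v := by
      intro h
      rw [h] at hu
      exact hv hu
    rw [hW', Function.update_of_ne]
    · exact hW u v hne
    · intro h
      rw [Sym2.eq_iff] at h
      rcases h with h | h
      · exact hv (by rw [h.2, hb]; exact Or.inr rfl)
      · exact hv (by rw [h.2, ha]; exact Or.inl rfl)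
  have h0 : W' s(c, d) = 0 := hW'c c d hPc hPd
  have h1 := Zs_split W' hcd s z
  rw [h0, zero_add] at h1
  have hup : rW (fun v => k v = 0 ∨ k v = 1) W' =
      Function.update (rW (fun v => k v = 0 ∨ k v = 1) W) s(a, b) t :=
    rW_update_mem (fun v => k v = 0 ∨ k v = 1) W (Or.inl ha) (Or.inr hb) t
  have hun : rW (fun v => ¬ (k v = 0 ∨ k v = 1)) W' = rW (fun v => k v = 2) W := by
    rw [hW', rW_update_notMem (fun v => ¬ (k v = 0 ∨ k v = 1)) W (a := a) (b := b)
      (fun h => h (Or.inl ha)) t]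
    exact rW_iff _ _ W fun v => (hn v).symm
  have hzn : rz (fun v => ¬ (k v = 0 ∨ k v = 1)) z = rz (fun v => k v = 2) z :=
    rz_iff _ _ z fun v => (hn v).symm
  have hWd : ∀ u v, k u = 0 → k v = 1 → W s(u, v) = 0 := by
    intro u v hu hv
    refine hW u v ?_
    rw [hu, hv]
    decide
  -- the star at `c`
  set zc : V → ℝ := fun v => z v + dl c 1 v with hzc
  have hzcP : rz (fun v => k v = 0 ∨ k v = 1) zc =
      fun v => rz (fun v => k v = 0 ∨ k v = 1) z v + dl c 1 v := by
    funext v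
    unfold rz
    by_cases h : k v = 0 ∨ k v = 1
    · rw [if_pos h, if_pos h]
    · have hvc : v ≠ c := by
        rintro rfl
        exact h hPc
      rw [if_neg h, if_neg h]
      unfold dl
      rw [if_neg hvc, add_zero]
  have hzc0 : rz (fun v => k v = 0) zc = fun v => rz (fun v => k v = 0) z v + dl c 1 v := by
    funext v
    unfold rz
    by_cases h : k v = 0
    · rw [if_pos h, if_pos h]
    · have hvc : v ≠ c := by
        rintro rfl
        exact h hc
      rw [if_neg h, if_neg h]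
      unfold dl
      rw [if_neg hvc, add_zero]
  have hzc1 : rz (fun v => k v = 1) zc = rz (fun v => k v = 1) z := by
    funext v
    unfold rz
    by_cases h : k v = 1
    · have hvc : v ≠ c := by
        rintro rfl
        exact hdis v hc h
      rw [if_pos h, if_pos h, hzc]
      simp only
      unfold dl
      rw [if_neg hvc, add_zero]
    · rw [if_neg h, if_neg h]
  have hA := Zs_pair (fun v => k v = 0) (fun v => k v = 1) hdis W z hWd ha hb t
  have hB := Zs_pair (fun v => k v = 0) (fun v => k v = 1) hdis W zc hWd ha hb t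
  have hC := star' (Function.update (rW (fun v => k v = 0 ∨ k v = 1) W) s(a, b) t)
    (rz (fun v => k v = 0 ∨ k v = 1) z) c 1
  rw [← hzcP, hB, hA, hzc0, hzc1] at hC
  rw [h1, Zs_union (fun v => k v = 0 ∨ k v = 1) W' z hW'c,
    Zs_bridge (fun v => k v = 0 ∨ k v = 1) W' z hW'c hPc hPd, hup, hun, hzn, hA]
  -- the first block
  set W0 := rW (fun v => k v = 0) W
  set z0 := rz (fun v => k v = 0) z
  have e1 : Zs W0 (fun v => z0 v + dl c 1 v) = F2 W0 z0 a c 0 1 := by
    unfold F2
    congr 1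
    funext v
    unfold dl
    simp
  have e2 : Gs W0 (fun v => z0 v + dl c 1 v) a = F2 W0 z0 a c 0 1 - F2 W0 z0 a c (-1) 1 := by
    have h3 := star' W0 (fun v => z0 v + dl c 1 v) a (-1)
    have h4 : F2 W0 z0 a c (-1) 1 = Zs W0 (fun v => z0 v + dl c 1 v + dl a (-1) v) := by
      unfold F2
      congr 1
      funext v
      ring
    rw [h4, h3, e1]
    ring
  rw [e1, e2] at hC
  have e3 := F2_Gs_left W0 z0 a c
  have e4 := F2_zero W0 z0 a c
  rw [e3, ← e4] at hC ⊢
  have e5 := F2_affine_right W0 z0 a c 0 (-1)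
  have e6 := F2_affine_right W0 z0 a c (-1) (-1)
  rw [e5, e6]
  linear_combination (s * (Zs (rW (fun v => k v = 2) W) (rz (fun v => k v = 2) z) -
    Gs (rW (fun v => k v = 2) W) (rz (fun v => k v = 2) z) d)) * (-hC)

end Three

end Pool.Agent.MJ
end

section

/-!
The partition function of a graph with a rank one cut is a linear functional of the hub
polynomial of one side.
-/

set_option autoImplicit false
set_option linter.unusedSectionVars false

namespace Pool.Agent.MJ

open Finset Polynomial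
open scoped Classical
open Pool.Agent.PW (Z N N2 Ray cw pw mv ct)

variable {V : Type*} [Fintype V]

lemma rW_glue (p : V → Prop) (A B : Sym2 V → ℝ) (z : V → ℝ) :
    rW p (glue p A B z) = rW p A := by
  funext g
  unfold rW glue
  by_cases h : ∀ v ∈ g, p v
  · rw [if_pos h, if_pos h, if_pos h]
  · rw [if_neg h, if_neg h]

lemma rW_glue' (p : V → Prop) (A B : Sym2 V → ℝ) (z : V → ℝ) :
    rW (fun v => ¬ p v) (glue p A B z) = rW (fun v => ¬ p v) B := by
  funext g
  unfold rW
  by_cases h : ∀ v ∈ g, ¬ p v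
  · rw [if_pos h, if_pos h]
    induction g using Sym2.ind with
    | _ u v =>
      obtain ⟨hu, hv⟩ := (all_mk fun w => ¬ p w).mp h
      exact glue_out A B z hu hv
  · rw [if_neg h, if_neg h]

lemma rz_jz (p : V → Prop) (y ρ : V → ℝ) : rz p (jz p y ρ) = rz p y := by
  funext v
  unfold rz jz
  by_cases h : p v
  · rw [if_pos h, if_pos h, if_pos h]
  · rw [if_neg h, if_neg h]

lemma rz_jz' (p : V → Prop) (y ρ : V → ℝ) :
    rz (fun v => ¬ p v) (jz p y ρ) = rz (fun v => ¬ p v) ρ := by
  funext v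
  unfold rz jz
  by_cases h : p v
  · rw [if_neg (not_not.mpr h), if_neg (not_not.mpr h)]
  · rw [if_pos h, if_pos h, if_neg h]

lemma sum_rz_add (p : V → Prop) (z : V → ℝ) :
    ∑ v, z v = ∑ v, rz p z v + ∑ v, rz (fun v => ¬ p v) z v := by
  rw [← Finset.sum_add_distrib]
  refine Finset.sum_congr rfl fun v _ => ?_
  unfold rz
  by_cases h : p v
  · rw [if_pos h, if_neg (not_not.mpr h), add_zero]
  · rw [if_neg h, if_pos h, zero_add]

/-- Without vertices there is nothing but the hub. -/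
lemma Zs_of_isEmpty [IsEmpty V] (W : Sym2 V → ℝ) (z : V → ℝ) : Zs W z = Z W := by
  unfold Zs
  refine Pool.Agent.Lib.MP_d90615_co.mj_Z_map (Option.some_injective V) W (St W z) ?_ ?_
  · intro g _
    induction g using Sym2.ind with
    | _ u v => exact isEmptyElim u
  · intro g' hg' _
    exfalso
    apply hg'
    induction g' using Sym2.ind with
    | _ u v =>
      rw [Sym2.mk_isDiag_iff]
      match u, v with
      | none, none => rfl
      | none, some v => exact isEmptyElim v
      | some u, _ => exact isEmptyElim u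

/-- The hub polynomial of `W - x x` from the one of `W`. -/
theorem hub_inv (W : Sym2 V → ℝ) (x : V → ℝ) (a : V) (f : ℝ[X])
    (hf : ∀ l, Zs W (fun v => l * x v) = f.eval l) (μ : ℝ) :
    Zs (fun g => W g - pw x g) (fun v => μ * x v) =
      (T 1 (sh (∑ v, x v) (f + (C (∑ v, x v) * f - derivative f).divX))).eval μ := by
  obtain ⟨r, g, hr, hg, hr'⟩ := exists_hub (fun g => W g - pw x g) x a
  have hYW : (fun e => (W e - pw x e) + pw x e) = W := by
    funext e
    ring
  set S := ∑ v, x v with hS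
  have hf' : ∀ l, f.eval l = Lam (S + l) ((1 + C l * X) * r) := by
    intro l
    have h1 := (lemmaA_mark (fun g => W g - pw x g) x a r g hr hg l).1
    rw [hYW, hf l] at h1
    exact h1
  have k1 := hub_ode S r f hr' hf'
  have k2 : C S * f - derivative f = X * ((T (-1) r).comp (X + C S) - f) := by
    linear_combination -k1
  have k3 : (C S * f - derivative f).divX = (T (-1) r).comp (X + C S) - f := by
    rw [k2]
    ext n
    rw [coeff_divX, coeff_X_mul]
  have k4 : sh S (f + (C S * f - derivative f).divX) = T (-1) r := by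
    rw [k3, add_sub_cancel]
    unfold sh
    rw [comp_assoc]
    simp
  have k5 := T_neg_T (-1) r
  rw [neg_neg] at k5
  rw [k4, k5, hr]

/-- **[H1].** The weights `B` and `ρ` outside `p` act on the hub polynomial of the part `p` as a
linear functional. -/
theorem exists_lam (p : V → Prop) (B : Sym2 V → ℝ) (ρ : V → ℝ) (m : ℝ) :
    ∃ lam : ℝ[X] →ₗ[ℝ] ℝ, ∀ (A : Sym2 V → ℝ) (y : V → ℝ) (f : ℝ[X]), ∑ v, rz p y v = m →
      (∀ l, Zs (rW p A) (fun v => l * rz p y v) = f.eval l) →
      Z (glue p A B (jz p y ρ)) = lam f := by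
  rcases isEmpty_or_nonempty V with hV | hV
  · refine ⟨Polynomial.leval 0, fun A y f _ hf => ?_⟩
    show _ = f.eval 0
    rw [← hf 0, Zs_of_isEmpty]
    refine Pool.Agent.PW.Z_congr fun g _ => ?_
    induction g using Sym2.ind with
    | _ u v => exact isEmptyElim u
  · obtain ⟨a⟩ := id hV
    set q : V → Prop := fun v => ¬ p v with hq
    obtain ⟨p2, g2, hp2, -, -⟩ := exists_hub (fun g => rW q B g - pw (rz q ρ) g) (rz q ρ) a
    set r : ℝ := ∑ v, rz q ρ v with hr
    refine ⟨{ toFun := fun f =>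
                Lam (m + r) (T 1 (sh m (f + (C m * f - derivative f).divX)) * p2)
              map_add' := ?_
              map_smul' := ?_ }, fun A y f hm hf => ?_⟩
    · intro f f'
      rw [← Lam_add, ← add_mul, ← map_add, ← sh_add]
      congr 4
      have h1 : C m * (f + f') - derivative (f + f') =
          (C m * f - derivative f) + (C m * f' - derivative f') := by
        rw [derivative_add]
        ring
      rw [h1, divX_add']
      ring
    · intro c f
      have h1 : C m * (C c * f) - derivative (C c * f) = C c * (C m * f - derivative f) := by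
        rw [derivative_C_mul]
        ring
      have h2 : C c * f + (C c * (C m * f - derivative f)).divX =
          C c * (f + (C m * f - derivative f).divX) := by
        rw [divX_C_mul]
        ring
      rw [← C_mul', h1, h2, sh_C_mul, T_C_mul, mul_assoc, Lam_C_mul, RingHom.id_apply, smul_eq_mul]
    · set x := jz p y ρ with hx
      set H : Sym2 V → ℝ := fun g => glue p A B x g - pw x g with hH
      have hH0 : ∀ u v, p u → ¬ p v → H s(u, v) = 0 := by
        intro u v hu hv
        rw [hH]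
        beta_reduce
        rw [glue_cross A B x hu hv, Pool.Agent.PW.pw_mk, sub_self]
      have hxm : ∑ v, x v = m + r := by
        rw [sum_rz_add p x, hx, rz_jz, rz_jz', hm]
      have hZ : Z (glue p A B x) = Z fun g => H g + pw x g := by
        congr 1
        funext g
        rw [hH]
        ring
      rw [hZ, lemmaA H x (T 1 (sh m (f + (C m * f - derivative f).divX)) * p2), hxm]
      · rfl
      · intro μ
        rw [Zs_union p H _ hH0, eval_mul]
        congr 1
        · have h1 := hub_inv (rW p A) (rz p y) a f hf μ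
          rw [hm] at h1
          rw [← h1, rz_mul, hH, rW_sub_pw, rW_glue, hx, rz_jz]
        · rw [← hp2, rz_mul, hH, rW_sub_pw, rW_glue', hx, rz_jz']

end Pool.Agent.MJ
end
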