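import Mathlib
import Pool.Agent.Lib.MP_d90615_co.Mg.G010
import Pool.Agent.Lib.MP_d90615_co.MJ.B5
import Pool.Agent.Lib.MP_d90615_co.Mg.G004
import Pool.Agent.Lib.MP_d90615_co.Mg.G013
import Pool.Agent.Lib.MP_d90615_co.Mg.G008

section

/-!
The inequality for one class with two marks and two classes with one mark each.
-/

set_option autoImplicit false
set_option linter.unusedSectionVars false

namespace Pool.Agent.MJ

open Finset Polynomial
open scoped Classical

theorem b5_N3 {J J' : Type*} [Fintype J] [Fintype J'] {L Ba Bc P2 : ℝ[X]} {X0 : ℝ}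
    (h : TM L Ba Bc P2 X0) (hX0 : 0 ≤ X0) (θ1 : J → ℝ) (j1 : J) (θ2 : J' → ℝ) (j2 : J')
    (h1 : ∀ i, 0 ≤ θ1 i) (h1' : 0 < θ1 j1) (h2 : ∀ i, 0 ≤ θ2 i) (h2' : 0 < θ2 j2)
    (N : Finset (Fin 4) → ℝ[X]) (hN : ∀ S, N S = N3 L Ba Bc P2 X0 θ1 j1 θ2 j2 S)
    (f q12 q34 : ℝ[X]) (a : ℝ) (ha : X0 + ∑ i, θ1 i + ∑ i, θ2 i = a)
    (hf : derivative f = (C a + X) * f -
      X * (∑ S : Finset (Fin 4), (DD^[2 - (S ∩ {1, 3}).card] (N S))).comp (X + C a))
    (h12 : DD q12 = N {3} + N {2, 3}) (h34 : DD q34 = N {1} + N {0, 1})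
    (hZ : 0 ≤ f.eval 0)
    (hQ12 : 0 ≤ (N ∅).eval a + (N {2}).eval a + q12.eval a)
    (hQ34 : 0 ≤ (N ∅).eval a + (N {0}).eval a + q34.eval a) :
    (N ∅).eval a * f.eval 0 ≤ ((N ∅).eval a + (N {2}).eval a + q12.eval a) *
      ((N ∅).eval a + (N {0}).eval a + q34.eval a) := by
  have hN' : N = N3 L Ba Bc P2 X0 θ1 j1 θ2 j2 := funext hN
  have ha0 : 0 < a := by
    have e1 : θ1 j1 ≤ ∑ i, θ1 i := single_le_sum (fun i _ => h1 i) (mem_univ j1)
    have e2 : θ2 j2 ≤ ∑ i, θ2 i := single_le_sum (fun i _ => h2 i) (mem_univ j2)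
    linarith
  refine b5 N f q12 q34 a ha0 hf h12 h34 ?_ ?_ ?_ ?_ hZ hQ12 hQ34
  · intro S hS u hu
    rw [hN']
    exact N3_pos h θ1 j1 θ2 j2 h1 h1' h2 h2' S hS u (by linarith)
  · intro S i j hi hj hij x
    rw [hN']
    exact N3_sub h θ1 j1 θ2 j2 h1 h1' h2 h2' S i j hi hj hij x
  · intro S i hi x
    rw [hN']
    exact N3_mono h θ1 j1 θ2 j2 h1 h1' h2 h2' S i hi x
  · intro x
    rw [hN']
    exact N3_lc h θ1 j1 θ2 j2 h1 h1' h2 h2' x

end Pool.Agent.MJ
end

section

/-!
One class with two marks.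
-/

set_option autoImplicit false
set_option linter.unusedSectionVars false
set_option linter.unusedSimpArgs false

namespace Pool.Agent.MJ

open Finset Polynomial
open scoped Classical
open Pool.Agent.PW (Z N N2 Ray cw pw mv ct)

section Self

variable {V : Type*} [Fintype V]

lemma Gs_zero' (W : Sym2 V → ℝ) (x : V → ℝ) (a : V) :
    Gs W (fun v => 0 * x v) a = Zs W (fun v => 0 * x v) := by
  obtain ⟨p, g, hp, hg, _⟩ := exists_hub W (fun _ => (0 : ℝ)) a
  obtain ⟨h1, h2⟩ := lemmaA_mark W (fun _ => (0 : ℝ)) a p g hp hg 0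
  have e1 : (fun g => W g + pw (fun _ : V => (0 : ℝ)) g) = W := by
    funext g
    induction g using Sym2.ind with
    | _ u v => rw [Pool.Agent.PW.pw_mk, mul_zero, add_zero]
  have e2 : (fun v => 0 * x v) = fun _ : V => (0 : ℝ) * 0 := by
    funext v
    rw [zero_mul, mul_zero]
  rw [e1] at h1 h2
  rw [e2, h1, h2]
  congr 1
  rw [C_0, zero_mul, zero_mul, add_zero, add_zero, one_mul]

/-- The marked hub polynomial of `W - x x` in terms of the hub polynomials of `W`. -/
theorem mark_self (W : Sym2 V → ℝ) (x : V → ℝ) (a : V) (f fg G g : ℝ[X])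
    (hf : ∀ l, Zs W (fun v => l * x v) = f.eval l)
    (hfg : ∀ l, Gs W (fun v => l * x v) a = fg.eval l) (hG : f - fg = X * G)
    (hg : ∀ μ, Gs (fun e => W e - pw x e) (fun v => μ * x v) a = g.eval μ) :
    X * (T (-1) g).comp (X + C (∑ v, x v)) =
      (C (∑ v, x v) + X) * fg - derivative fg - G := by
  set Y : Sym2 V → ℝ := fun e => W e - pw x e with hY
  have hYW : (fun e => Y e + pw x e) = W := by
    funext e
    rw [hY]
    ring
  obtain ⟨p, g', hp, hg', hp'⟩ := exists_hub Y x a
  have hgg : g' = g := Polynomial.funext fun μ => by rw [← hg', hg]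
  rw [hgg] at hg'
  set S := ∑ v, x v with hS
  have hdvd : X ∣ p - g := by
    rw [Polynomial.X_dvd_iff, Polynomial.coeff_zero_eq_eval_zero, eval_sub, ← hp, ← hg', Gs_zero',
      sub_self]
  obtain ⟨m, hm⟩ := hdvd
  have hf' : ∀ l, f.eval l = Lam (S + l) ((1 + C l * X) * p) := by
    intro l
    have h1 := (lemmaA_mark Y x a p g hp hg' l).1
    rw [hYW, hf l] at h1
    exact h1
  have hfg' : ∀ l, fg.eval l = Lam (S + l) (p + C l * X * g) := by
    intro l
    have h1 := (lemmaA_mark Y x a p g hp hg' l).2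
    rw [hYW, hfg l] at h1
    exact h1
  have k1 := hub_ode S p f hp' hf'
  have k2 := hub_mark S p g m f fg hm hf' hfg'
  have hX : (X : ℝ[X]) ≠ 0 := X_ne_zero
  have k3 : (T (-1) m).comp (X + C S) = G := by
    refine mul_left_cancel₀ hX ?_
    rw [← k2, hG]
  have k4 : T (-1) g = T (-1) p - DD (T (-1) m) := by
    rw [← T_neg_one_X, ← map_sub]
    congr 1
    rw [← hm]
    ring
  have k5 : (derivative (T (-1) m)).comp (X + C S) = derivative G := by
    rw [← k3, derivative_comp]
    simp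
  have k6 : f = fg + X * G := by rw [← hG]; ring
  have k7 : (T (-1) g).comp (X + C S) =
      (T (-1) p).comp (X + C S) - ((X + C S) * G - derivative G) := by
    rw [k4]
    unfold DD
    rw [sub_comp, sub_comp, mul_comp, X_comp, k3, k5]
  have k8 : X * (T (-1) p).comp (X + C S) = (C S + X) * f - derivative f := by
    linear_combination k1
  have k9 : derivative f = derivative fg + (G + X * derivative G) := by
    rw [k6, derivative_add, derivative_mul, derivative_X, one_mul]
  rw [k7, mul_sub, k8, k9, k6]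
  ring

end Self

/-! ### Algebra of one forest -/

section Alg

variable {K : Type*} [Field K] {J : Type*} [Fintype J]

/-- `∏ (1 + η + θ X)`. -/
noncomputable def Pe (η θ : J → K) (s : Finset J) : K[X] := ∏ j ∈ s, (1 + C (η j) + C (θ j) * X)

/-- `∑ θ² ∏ (1 + η + θ X)`. -/
noncomputable def Qe (η θ : J → K) (s : Finset J) : K[X] :=
  ∑ j ∈ s, C (θ j ^ 2) * ∏ i ∈ s.erase j, (1 + C (η i) + C (θ i) * X)

lemma Pe_erase (η θ : J → K) {s : Finset J} {i : J} (hi : i ∈ s) :
    Pe η θ s = (1 + C (η i) + C (θ i) * X) * Pe η θ (s.erase i) :=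
  (Finset.mul_prod_erase s _ hi).symm

lemma Qe_erase (η θ : J → K) {s : Finset J} {i : J} (hi : i ∈ s) :
    Qe η θ s = C (θ i ^ 2) * Pe η θ (s.erase i) +
      (1 + C (η i) + C (θ i) * X) * Qe η θ (s.erase i) := by
  unfold Qe
  rw [← Finset.add_sum_erase s _ hi, Finset.mul_sum]
  congr 1
  refine Finset.sum_congr rfl fun j hj => ?_
  have h1 : i ∈ s.erase j := Finset.mem_erase.mpr ⟨(Finset.ne_of_mem_erase hj).symm, hi⟩
  rw [← Finset.mul_prod_erase (s.erase j) _ h1, Finset.erase_right_comm]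
  ring

lemma Pe_zero (η θ : J → K) {s : Finset J} (h : ∀ i ∈ s, η i = 0) : Pe η θ s = Pf s θ := by
  unfold Pe Pf
  refine Finset.prod_congr rfl fun j hj => ?_
  rw [h j hj, C_0, add_zero]

lemma Qe_zero (η θ : J → K) {s : Finset J} (h : ∀ i ∈ s, η i = 0) : Qe η θ s = Qf s θ := by
  unfold Qe Qf
  refine Finset.sum_congr rfl fun j _ => ?_
  congr 1
  refine Finset.prod_congr rfl fun i hi => ?_
  rw [h i (Finset.mem_of_mem_erase hi), C_0, add_zero]

/-- The indices without `i` and `j`. -/
noncomputable def s0 (i j : J) : Finset J := (univ.erase i).erase j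

noncomputable def kP2 (θ : J → K) (i j : J) : K[X] :=
  if i = j then 0 else Pf (s0 i j) θ + Qf (s0 i j) θ
noncomputable def kA0 (θ : J → K) (i j : J) : K[X] :=
  if i = j then Pf (s0 i j) θ + Qf (s0 i j) θ else C (θ i ^ 2) * Pf (s0 i j) θ
noncomputable def kA1 (θ : J → K) (i j : J) : K[X] :=
  if i = j then 0 else C (θ i) * (Pf (s0 i j) θ + Qf (s0 i j) θ)
noncomputable def kC0 (θ : J → K) (i j : J) : K[X] :=
  if i = j then Pf (s0 i j) θ + Qf (s0 i j) θ else C (θ j ^ 2) * Pf (s0 i j) θ
noncomputable def kC1 (θ : J → K) (i j : J) : K[X] :=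
  if i = j then 0 else C (θ j) * (Pf (s0 i j) θ + Qf (s0 i j) θ)
noncomputable def kL (θ : J → K) (i j : J) : K[X] :=
  if i = j then (X * C (θ i) - 1) * (Pf (s0 i j) θ + Qf (s0 i j) θ) + C (θ i ^ 2) * Pf (s0 i j) θ
  else X ^ 2 * C (θ i * θ j) * (Pf (s0 i j) θ + Qf (s0 i j) θ) +
    X * C (θ i * θ j * (θ i + θ j)) * Pf (s0 i j) θ

/-- The four pieces. -/
theorem k_four (η θ : J → K) (i j : J) (u v : K)
    (hη : ∀ q, η q = (if q = i then u - 1 else 0) + if q = j then v - 1 else 0) :
    Pe η θ univ + Qe η θ univ = kL θ i j + C u * (kC0 θ i j + X * kC1 θ i j) +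
      C v * (kA0 θ i j + X * kA1 θ i j) + C (u * v) * kP2 θ i j := by
  by_cases h : i = j
  · subst h
    have e0 : s0 i i = univ.erase i := by
      unfold s0
      rw [Finset.erase_eq_of_notMem (Finset.notMem_erase i _)]
    have hz : ∀ q ∈ univ.erase i, η q = 0 := by
      intro q hq
      rw [hη, if_neg (Finset.ne_of_mem_erase hq), if_neg (Finset.ne_of_mem_erase hq), add_zero]
    rw [Pe_erase η θ (mem_univ i), Qe_erase η θ (mem_univ i), Pe_zero η θ hz, Qe_zero η θ hz]
    have hηi : η i = (u - 1) + (v - 1) := by rw [hη, if_pos rfl, if_pos rfl]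
    unfold kL kC0 kC1 kA0 kA1 kP2
    simp only [if_true]
    rw [e0, hηi]
    simp only [C_add, C_sub, C_1, C_mul, C_pow]
    ring
  · have hji : j ∈ univ.erase i := Finset.mem_erase.mpr ⟨fun h' => h h'.symm, mem_univ j⟩
    have hz : ∀ q ∈ (univ.erase i).erase j, η q = 0 := by
      intro q hq
      have h1 := Finset.ne_of_mem_erase hq
      have h2 := Finset.ne_of_mem_erase (Finset.mem_of_mem_erase hq)
      rw [hη, if_neg h1, if_neg h2, add_zero]
    rw [Pe_erase η θ (mem_univ i), Qe_erase η θ (mem_univ i), Pe_erase η θ hji,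
      Qe_erase η θ hji, Pe_zero η θ hz, Qe_zero η θ hz]
    have hηi : η i = u - 1 := by rw [hη, if_pos rfl, if_neg h, add_zero]
    have hηj : η j = v - 1 := by
      rw [hη, if_neg (fun h' => h h'.symm), if_pos rfl, zero_add]
    unfold kL kC0 kC1 kA0 kA1 kP2 s0
    simp only [if_neg h]
    rw [hηi, hηj]
    simp only [C_add, C_sub, C_1, C_mul, C_pow]
    ring

/-- `∑ θ η ∏ (1 + η + θ X)`. -/
noncomputable def Re (η θ : J → K) : K[X] :=
  ∑ j, C (θ j * η j) * ∏ i ∈ univ.erase j, (1 + C (η i) + C (θ i) * X)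

lemma Re_eval (η θ : J → K) (l : K) :
    (Re η θ).eval l = ∑ j, θ j * η j * ∏ i ∈ univ.erase j, (1 + θ i * l + η i) := by
  unfold Re
  rw [eval_finsetSum]
  refine Finset.sum_congr rfl fun j _ => ?_
  rw [eval_mul, eval_C, eval_prod]
  congr 1
  refine Finset.prod_congr rfl fun i _ => ?_
  simp only [eval_add, eval_one, eval_C, eval_mul, eval_X]
  ring

lemma key_one (η θ : J → K) :
    (C (∑ j, θ j) + X) * Pe η θ univ - derivative (Pe η θ univ) - Re η θ =
      X * (Pe η θ univ + Qe η θ univ) := by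
  have h1 : derivative (Pe η θ univ) =
      ∑ j, (∏ i ∈ univ.erase j, (1 + C (η i) + C (θ i) * X)) * C (θ j) := by
    unfold Pe
    rw [Polynomial.derivative_prod_finset]
    refine Finset.sum_congr rfl fun j _ => ?_
    congr 1
    simp
  have h2 : ∀ j, Pe η θ univ =
      (1 + C (η j) + C (θ j) * X) * ∏ i ∈ univ.erase j, (1 + C (η i) + C (θ i) * X) :=
    fun j => Pe_erase η θ (mem_univ j)
  rw [h1, add_mul, mul_add, map_sum, Finset.sum_mul]
  unfold Qe Re
  rw [Finset.mul_sum]
  have h3 : ∑ j, C (θ j) * Pe η θ univ -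
      ∑ j, (∏ i ∈ univ.erase j, (1 + C (η i) + C (θ i) * X)) * C (θ j) -
      ∑ j, C (θ j * η j) * ∏ i ∈ univ.erase j, (1 + C (η i) + C (θ i) * X) =
      ∑ j, X * (C (θ j ^ 2) * ∏ i ∈ univ.erase j, (1 + C (η i) + C (θ i) * X)) := by
    rw [← Finset.sum_sub_distrib, ← Finset.sum_sub_distrib]
    refine Finset.sum_congr rfl fun j _ => ?_
    rw [h2 j, C_mul, C_pow]
    ring
  rw [← h3]
  ring

lemma Pe_congr {η η' θ : J → K} {s : Finset J} (h : ∀ j ∈ s, η' j = η j) :
    Pe η' θ s = Pe η θ s := by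
  unfold Pe
  refine Finset.prod_congr rfl fun j hj => ?_
  rw [h j hj]

lemma Qe_congr {η η' θ : J → K} {s : Finset J} (h : ∀ j ∈ s, η' j = η j) :
    Qe η' θ s = Qe η θ s := by
  unfold Qe
  refine Finset.sum_congr rfl fun j _ => ?_
  congr 1
  refine Finset.prod_congr rfl fun i hi => ?_
  rw [h i (Finset.mem_of_mem_erase hi)]

lemma hub_factor (η η' θ : J → K) (i : J) (r : K) (hθ : θ i = 0) (hη : η i = 0)
    (hη' : η' i = r) (h : ∀ j, j ≠ i → η' j = η j) :
    Pe η' θ univ + Qe η' θ univ = C (1 + r) * (Pe η θ univ + Qe η θ univ) := by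
  rw [Pe_erase η' θ (mem_univ i), Qe_erase η' θ (mem_univ i), Pe_erase η θ (mem_univ i),
    Qe_erase η θ (mem_univ i), Pe_congr fun j hj => h j (Finset.ne_of_mem_erase hj),
    Qe_congr fun j hj => h j (Finset.ne_of_mem_erase hj), hθ, hη, hη']
  simp only [C_add, C_1, C_0, C_pow]
  ring

lemma PeQe_eval (η θ : J → K) (z : K) : (Pe η θ univ + Qe η θ univ).eval z =
    ∏ j, (1 + (z * θ j + η j)) + ∑ j, θ j ^ 2 * ∏ i ∈ univ.erase j, (1 + (z * θ i + η i)) := by
  unfold Pe Qe
  rw [eval_add, eval_prod, eval_finsetSum]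
  congr 1
  · refine Finset.prod_congr rfl fun j _ => ?_
    simp only [eval_add, eval_one, eval_C, eval_mul, eval_X]
    ring
  · refine Finset.sum_congr rfl fun j _ => ?_
    rw [eval_mul, eval_C, eval_prod]
    congr 1
    refine Finset.prod_congr rfl fun i _ => ?_
    simp only [eval_add, eval_one, eval_C, eval_mul, eval_X]
    ring

end Alg

section Stab

open Pool.Agent.Lib.MP_d90615_co (Forest cset cmp cm mj_isolated mj_det mj_up mj_csingle HW
  HW_ne_zero cm_cast)

lemma hub_factors {K : Type*} [Field K] {J : Type*} [Fintype J] (η θ : J → K) (r : K)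
    (Hs : Finset J) (hθ : ∀ q ∈ Hs, θ q = 0) (hη : ∀ q ∈ Hs, η q = 0) :
    Pe (fun q => η q + if q ∈ Hs then r else 0) θ univ +
      Qe (fun q => η q + if q ∈ Hs then r else 0) θ univ =
      C ((1 + r) ^ Hs.card) * (Pe η θ univ + Qe η θ univ) := by
  induction Hs using Finset.induction_on with
  | empty => simp
  | insert i Hs hi ih =>
    rw [hub_factor (fun q => η q + if q ∈ Hs then r else 0)
      (fun q => η q + if q ∈ insert i Hs then r else 0) θ i r
      (hθ i (Finset.mem_insert_self i Hs)) (by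
        rw [if_neg hi, hη i (Finset.mem_insert_self i Hs), add_zero]) (by
        rw [if_pos (Finset.mem_insert_self i Hs), hη i (Finset.mem_insert_self i Hs), zero_add])
      (fun j hj => by simp [hj]),
      ih (fun q hq => hθ q (Finset.mem_insert_of_mem hq))
        (fun q hq => hη q (Finset.mem_insert_of_mem hq)), Finset.card_insert_of_notMem hi, pow_succ]
    simp only [C_mul]
    ring

lemma hub_factors' {K : Type*} [Field K] {J : Type*} [Fintype J] (η η' θ : J → K) (r : K)
    (Hs : Finset J) (hθ : ∀ q ∈ Hs, θ q = 0) (hη : ∀ q ∈ Hs, η q = 0) (h1 : ∀ q ∈ Hs, η' q = r)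
    (h2 : ∀ q, q ∉ Hs → η' q = η q) :
    Pe η' θ univ + Qe η' θ univ = C ((1 + r) ^ Hs.card) * (Pe η θ univ + Qe η θ univ) := by
  have h3 : η' = fun q => η q + if q ∈ Hs then r else 0 := by
    funext q
    by_cases hq : q ∈ Hs
    · rw [if_pos hq, h1 q hq, hη q hq, zero_add]
    · rw [if_neg hq, h2 q hq, add_zero]
  rw [h3]
  exact hub_factors η θ r Hs hθ hη

variable {U E : Type*} [Fintype U] [Fintype E]

theorem mj_stab2 (ends : E → Sym2 U) (hloop : ∀ e, ¬ (ends e).IsDiag) (w : E → ℝ)
    (hw : ∀ e, 0 ≤ w e) (S : Finset E) (x : U → ℝ) (hx : ∀ i, 0 ≤ x i)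
    (hiso : ∀ i, x i = 0 → ∀ e ∈ S, i ∉ ends e) {a c : U}
    (ha : 0 < x a) (hc : 0 < x c) {z u v : ℂ} (hz : 0 < z.im)
    (hu : 0 ≤ u.im) (hv : 0 ≤ v.im) :
    ∑ F ∈ S.powerset with Forest ends F, (∏ g ∈ F, (w g : ℂ)) *
      (Pe (fun q : Quotient (cset ends F) => (if q = cmp ends F a then u - 1 else 0) +
          if q = cmp ends F c then v - 1 else 0) (fun q => (cm ends F x q : ℂ)) univ +
        Qe (fun q : Quotient (cset ends F) => (if q = cmp ends F a then u - 1 else 0) +
          if q = cmp ends F c then v - 1 else 0) (fun q => (cm ends F x q : ℂ)) univ).eval z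
      ≠ 0 := by
  set m : U → ℂ := fun i => z * (x i : ℂ) + (if i = a then u - 1 else 0) +
      (if i = c then v - 1 else 0) + (if x i = 0 then Complex.I else 0) with hm
  have him : ∀ i, 0 < (m i).im := by
    intro i
    rw [hm]
    beta_reduce
    have h4 : 0 ≤ (if i = a then u - 1 else 0).im := by
      split_ifs
      · simpa using hu
      · simp
    have h5 : 0 ≤ (if i = c then v - 1 else 0).im := by
      split_ifs
      · simpa using hv
      · simp
    rw [Complex.add_im, Complex.add_im, Complex.add_im, Complex.im_mul_ofReal]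
    rcases (hx i).eq_or_lt with hi | hi
    · rw [if_pos hi.symm, ← hi, Complex.I_im]
      linarith
    · have h3 := mul_pos hz hi
      rw [if_neg hi.ne', Complex.zero_im]
      linarith
  have hHW := HW_ne_zero ends hloop w hw S _ (mj_up m x him)
  intro h0
  apply hHW
  have key : HW ends w S (Matrix.diagonal m +
      Matrix.vecMulVec (fun i => (x i : ℂ)) (fun i => (x i : ℂ))) =
      (1 + Complex.I) ^ (univ.filter (fun i => x i = 0)).card *
      ∑ F ∈ S.powerset with Forest ends F, (∏ g ∈ F, (w g : ℂ)) *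
      (Pe (fun q : Quotient (cset ends F) => (if q = cmp ends F a then u - 1 else 0) +
          if q = cmp ends F c then v - 1 else 0) (fun q => (cm ends F x q : ℂ)) univ +
        Qe (fun q : Quotient (cset ends F) => (if q = cmp ends F a then u - 1 else 0) +
          if q = cmp ends F c then v - 1 else 0) (fun q => (cm ends F x q : ℂ)) univ).eval z := by
    unfold HW
    rw [Finset.mul_sum]
    refine Finset.sum_congr rfl fun F hF => ?_
    rw [mem_filter, mem_powerset] at hF
    have hFi : ∀ i, x i = 0 → ∀ j, cmp ends F j = cmp ends F i ↔ j = i := fun i hi j =>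
      mj_isolated hloop (fun e he => hiso i hi e (hF.1 he)) j
    set Hs : Finset (Quotient (cset ends F)) := (univ.filter (fun i => x i = 0)).image (cmp ends F)
      with hHs
    have hcard : Hs.card = (univ.filter (fun i => x i = 0)).card := by
      rw [hHs]
      refine Finset.card_image_of_injOn ?_
      intro i hi j hj h
      rw [Finset.mem_coe, mem_filter] at hj
      exact (hFi j hj.2 i).mp h
    have hmemHs : ∀ q, q ∈ Hs ↔ ∃ i, x i = 0 ∧ cmp ends F i = q := by
      intro q
      rw [hHs, mem_image]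
      simp only [mem_filter, mem_univ, true_and]
    have hmass : ∀ q : Quotient (cset ends F),
        ∑ i ∈ univ.filter (fun i => cmp ends F i = q), m i =
        z * (cm ends F x q : ℂ) + (if q = cmp ends F a then u - 1 else 0) +
      (if q = cmp ends F c then v - 1 else 0) + (if q ∈ Hs then Complex.I else 0) := by
      intro q
      rw [hm]
      beta_reduce
      rw [Finset.sum_add_distrib, Finset.sum_add_distrib, Finset.sum_add_distrib, mj_csingle,
        mj_csingle, ← Finset.mul_sum, cm_cast]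
      congr 1
      by_cases hq : q ∈ Hs
      · rw [if_pos hq]
        obtain ⟨i, hi, rfl⟩ := (hmemHs q).mp hq
        rw [Finset.sum_eq_single i, if_pos hi]
        · intro j hj hne
          rw [mem_filter, hFi i hi] at hj
          exact absurd hj.2 hne
        · intro h
          exfalso
          apply h
          rw [mem_filter]
          exact ⟨mem_univ _, rfl⟩
      · rw [if_neg hq]
        refine Finset.sum_eq_zero fun i hi => ?_
        rw [mem_filter] at hi
        rw [if_neg]
        intro h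
        exact hq ((hmemHs q).mpr ⟨i, h, hi.2⟩)
    have hne : ∀ q : Quotient (cset ends F),
        1 + ∑ i ∈ univ.filter (fun i => cmp ends F i = q), m i ≠ 0 := by
      intro q h
      have h3 := congrArg Complex.im h
      rw [Complex.add_im, Complex.one_im, zero_add, Complex.im_sum, Complex.zero_im] at h3
      have h4 : 0 < ∑ i ∈ univ.filter (fun i => cmp ends F i = q), (m i).im := by
        refine Finset.sum_pos (fun i _ => him i) ?_
        obtain ⟨i, hi⟩ := Quotient.exists_rep q
        exact ⟨i, by rw [mem_filter]; exact ⟨mem_univ _, hi⟩⟩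
      linarith
    rw [mj_det ends F m x hne]
    set θ : Quotient (cset ends F) → ℂ := fun q => (cm ends F x q : ℂ) with hθ
    set η : Quotient (cset ends F) → ℂ := fun q => (if q = cmp ends F a then u - 1 else 0) +
          if q = cmp ends F c then v - 1 else 0 with hη
    have hM : ∀ q : Quotient (cset ends F),
        ∑ i ∈ univ.filter (fun i => cmp ends F i = q), m i =
          z * θ q + (η q + if q ∈ Hs then Complex.I else 0) := by
      intro q
      rw [hmass, hη, hθ]
      ring
    have hθ0 : ∀ q ∈ Hs, θ q = 0 := by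
      intro q hq
      obtain ⟨i, hi, rfl⟩ := (hmemHs q).mp hq
      rw [hθ]
      beta_reduce
      unfold cm
      rw [Finset.sum_eq_single i]
      · rw [hi, Complex.ofReal_zero]
      · intro j hj hne
        rw [mem_filter, hFi i hi] at hj
        exact absurd hj.2 hne
      · intro h
        exfalso
        apply h
        rw [mem_filter]
        exact ⟨mem_univ _, rfl⟩
    have hη0 : ∀ q ∈ Hs, η q = 0 := by
      intro q hq
      obtain ⟨i, hi, rfl⟩ := (hmemHs q).mp hq
      have h1 : ∀ b, 0 < x b → cmp ends F i ≠ cmp ends F b := by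
        intro b hb h
        have := (hFi i hi b).mp h.symm
        rw [this, hi] at hb
        exact lt_irrefl _ hb
      rw [hη]
      beta_reduce
      rw [if_neg (h1 a ha), if_neg (h1 c hc), add_zero]
    have e3 := PeQe_eval (fun q => η q + if q ∈ Hs then Complex.I else 0) θ z
    rw [hub_factors' η _ θ Complex.I Hs hθ0 hη0
      (fun q hq => by rw [if_pos hq, hη0 q hq, zero_add])
      (fun q hq => by rw [if_neg hq, add_zero]), eval_mul, eval_C, hcard] at e3
    have e4 : ∏ q : Quotient (cset ends F),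
        (1 + ∑ i ∈ univ.filter (fun i => cmp ends F i = q), m i) +
      ∑ q, (cm ends F x q : ℂ) ^ 2 * ∏ q' ∈ univ.erase q,
        (1 + ∑ i ∈ univ.filter (fun i => cmp ends F i = q'), m i) =
        ∏ j, (1 + (z * θ j + (η j + if j ∈ Hs then Complex.I else 0))) +
        ∑ j, θ j ^ 2 * ∏ i ∈ univ.erase j,
          (1 + (z * θ i + (η i + if i ∈ Hs then Complex.I else 0))) := by
      simp only [hM]
      rfl
    have e5 : ∏ j, (1 + (z * θ j + (η j + if j ∈ Hs then Complex.I else 0))) +
        ∑ j, θ j ^ 2 * ∏ i ∈ univ.erase j,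
          (1 + (z * θ i + (η i + if i ∈ Hs then Complex.I else 0))) =
        (1 + Complex.I) ^ (univ.filter (fun i => x i = 0)).card *
          eval z (Pe η θ univ + Qe η θ univ) := by
      rw [e3]
      congr 1
      refine Finset.sum_congr rfl fun q _ => ?_
      congr 1
      exact Finset.prod_congr (erase_inst _ _ _ _) fun _ _ => rfl
    rw [e4, e5]
    ring
  rw [key, h0, mul_zero]

end Stab

section Graph

open Pool.Agent.Lib.MP_d90615_co (Forest cset cmp cm PE pe pe_loop mj_two' mj_two_N' mj_cm_two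
  mj_isolated mj_det mj_up mem_St cm_mul HW cm_total cm_nonneg HW_ne_zero cmp_eq Conn cm_cast J)

variable {V : Type*} [Fintype V]

/-- The pairs which avoid both hubs. -/
noncomputable def S2 (V : Type*) [Fintype V] : Finset (PE (Option (Option V))) :=
  univ \ (Pool.Agent.Lib.MP_d90615_co.St (pe (Option (Option V))) none ∪
    Pool.Agent.Lib.MP_d90615_co.St (pe (Option (Option V))) (some none))

/-- Extension by zero to both hubs. -/
def x2 (x : V → ℝ) : Option (Option V) → ℝ := ext0 (ext0 x)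

noncomputable def w2 (W : Sym2 V → ℝ) : PE (Option (Option V)) → ℝ := fun g => St (St W 0) 0 g.1

lemma mem_S2 {g : PE (Option (Option V))} : g ∈ S2 V ↔ none ∉ g.1 ∧ some none ∉ g.1 := by
  unfold S2
  rw [mem_sdiff, mem_union, mem_St, mem_St, not_or]
  exact ⟨fun h => h.2, fun h => ⟨mem_univ _, h⟩⟩

lemma St2_avoid (W : Sym2 V → ℝ) (η : V → ℝ) (z : Option V → ℝ) {g : Sym2 (Option (Option V))}
    (h1 : none ∉ g) (h2 : some none ∉ g) : St (St W η) z g = St (St W 0) 0 g := by
  induction g using Sym2.ind with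
  | _ p q =>
    match p, q with
    | none, _ => exact absurd (Sym2.mem_mk_left _ _) h1
    | _, none => exact absurd (Sym2.mem_mk_right _ _) h1
    | some none, _ => exact absurd (Sym2.mem_mk_left _ _) h2
    | _, some none => exact absurd (Sym2.mem_mk_right _ _) h2
    | some (some u), some (some v) => rfl

/-- The component masses. -/
noncomputable abbrev cq (F : Finset (PE (Option (Option V)))) (x : V → ℝ) :
    Quotient (cset (pe (Option (Option V))) F) → ℝ := cm (pe (Option (Option V))) F (x2 x)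

noncomputable def ff (W : Sym2 V → ℝ) (x η : V → ℝ) : ℝ[X] :=
  ∑ F ∈ (S2 V).powerset with Forest (pe (Option (Option V))) F,
    C (∏ g ∈ F, w2 W g) * Pe (cq F η) (cq F x) univ

noncomputable def GG (W : Sym2 V → ℝ) (x η : V → ℝ) : ℝ[X] :=
  ∑ F ∈ (S2 V).powerset with Forest (pe (Option (Option V))) F,
    C (∏ g ∈ F, w2 W g) * Re (cq F η) (cq F x)

noncomputable def tt (W : Sym2 V → ℝ) (x η : V → ℝ) : ℝ[X] :=
  ∑ F ∈ (S2 V).powerset with Forest (pe (Option (Option V))) F,
    C (∏ g ∈ F, w2 W g) * (Pe (cq F η) (cq F x) univ + Qe (cq F η) (cq F x) univ)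

lemma w2_prod (W : Sym2 V → ℝ) (η : V → ℝ) (z : Option V → ℝ) {F : Finset (PE (Option (Option V)))}
    (hF : F ∈ (S2 V).powerset) : ∏ g ∈ F, St (St W η) z g.1 = ∏ g ∈ F, w2 W g := by
  rw [mem_powerset] at hF
  refine Finset.prod_congr rfl fun g hg => ?_
  obtain ⟨h1, h2⟩ := mem_S2.mp (hF hg)
  exact St2_avoid W η z h1 h2

lemma cq_mul (F : Finset (PE (Option (Option V)))) (x : V → ℝ) (l : ℝ)
    (q : Quotient (cset (pe (Option (Option V))) F)) :
    cm (pe (Option (Option V))) F (fun i => l * x2 x i) q = l * cq F x q :=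
  cm_mul _ _ _ _ _

lemma Gs2_line (W : Sym2 V → ℝ) (x η : V → ℝ) (l : ℝ) :
    Gs (St W η) (fun v => l * ext0 x v) none = (ff W x η).eval l := by
  have h := mj_two_N' (St (St W η) fun v => l * ext0 x v) (a := none) (c := some none) (by simp)
    (fun i => l * x2 x i) (x2 η)
    (fun i => by
      match i with
      | none => simp [x2, ext0]
      | some none => simp [x2, ext0]
      | some (some v) => simp [x2, ext0])
    (fun i => by
      match i with
      | none => simp [x2, ext0]
      | some none => simp [x2, ext0]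
      | some (some v) => simp [x2, ext0])
  have hG : Gs (St W η) (fun v => l * ext0 x v) none =
      N (St (St W η) fun v => l * ext0 x v) s(none, some none) := by
    unfold Gs
    exact N_inst _ _ _ _
  rw [hG, h]
  unfold ff
  rw [eval_finsetSum]
  refine Finset.sum_congr rfl fun F hF => ?_
  rw [mem_filter] at hF
  rw [w2_prod W η _ hF.1, eval_mul, eval_C]
  congr 1
  unfold Pe
  rw [eval_prod]
  refine Finset.prod_congr rfl fun q _ => ?_
  rw [cq_mul]
  simp only [eval_add, eval_one, eval_C, eval_mul, eval_X]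
  ring

lemma Zs2_line (W : Sym2 V → ℝ) (x η : V → ℝ) (l : ℝ) :
    Zs (St W η) (fun v => l * ext0 x v) = (ff W x η + X * GG W x η).eval l := by
  unfold Zs
  rw [mj_two' (St (St W η) fun v => l * ext0 x v) (a := none) (c := some none) (by simp)
    (fun i => l * x2 x i) (x2 η)
    (fun i => by
      match i with
      | none => simp [x2, ext0]
      | some none => simp [x2, ext0]
      | some (some v) => simp [x2, ext0])
    (fun i => by
      match i with
      | none => simp [x2, ext0]
      | some none => simp [x2, ext0]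
      | some (some v) => simp [x2, ext0])]
  unfold ff GG
  rw [eval_add, eval_mul, eval_X, eval_finsetSum, eval_finsetSum, Finset.mul_sum,
    ← Finset.sum_add_distrib]
  refine Finset.sum_congr rfl fun F hF => ?_
  rw [mem_filter] at hF
  rw [w2_prod W η _ hF.1, eval_mul, eval_C, eval_mul, eval_C, Re_eval]
  have h0 : St (St W η) (fun v => l * ext0 x v) s(none, some none) = 0 := by
    simp [ext0]
  rw [h0, add_zero, one_mul, mul_add, mul_left_comm l]
  congr 1
  · congr 1
    unfold Pe
    rw [eval_prod]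
    refine Finset.prod_congr rfl fun q _ => ?_
    rw [cq_mul]
    simp only [eval_add, eval_one, eval_C, eval_mul, eval_X]
    ring
  · congr 1
    rw [Finset.mul_sum]
    refine Finset.sum_congr rfl fun q _ => ?_
    have h1 : ∀ i, 1 + cm (pe (Option (Option V))) F (fun i => l * x2 x i) i +
        cm (pe (Option (Option V))) F (x2 η) i = 1 + cq F x i * l + cq F η i := by
      intro i
      rw [cq_mul, mul_comm l]
    rw [cq_mul, Finset.prod_congr rfl fun i _ => h1 i]
    have h2 : ∏ i ∈ univ.erase q, (1 + cq F x i * l + cq F η i) =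
        ∏ i ∈ @Finset.erase _ (fun a b => Classical.propDecidable (a = b)) univ q,
          (1 + cq F x i * l + cq F η i) := by
      refine Finset.prod_congr (erase_inst _ _ _ _) fun _ _ => rfl
    rw [h2]
    ring

lemma sum_x2 (x : V → ℝ) : ∑ i, x2 x i = ∑ v, x v := by
  unfold x2
  rw [Fintype.sum_option, Fintype.sum_option]
  simp [ext0]

lemma key_sum (W : Sym2 V → ℝ) (x η : V → ℝ) :
    (C (∑ v, x v) + X) * ff W x η - derivative (ff W x η) - GG W x η = X * tt W x η := by
  unfold ff GG tt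
  rw [derivative_sum, Finset.mul_sum, Finset.mul_sum, ← Finset.sum_sub_distrib,
    ← Finset.sum_sub_distrib]
  refine Finset.sum_congr rfl fun F _ => ?_
  have h1 := key_one (cq F η) (cq F x)
  have h2 : ∑ q, cq F x q = ∑ v, x v := by
    rw [cm_total, sum_x2]
  rw [h2] at h1
  rw [derivative_C_mul]
  linear_combination (C (∏ g ∈ F, w2 W g)) * h1

/-- **The hub polynomial of `W - x x` with an additional star.** -/
theorem eta_line (W : Sym2 V → ℝ) (x η : V → ℝ) (μ : ℝ) :
    Zs (fun g => W g - pw x g) (fun v => μ * x v + η v) =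
      (T 1 (sh (∑ v, x v) (tt W x η))).eval μ := by
  obtain ⟨p, g, hp, hg, -⟩ := exists_hub (St (fun g => W g - pw x g) η) (ext0 x) none
  have e1 : (fun e => St W η e - pw (ext0 x) e) = St (fun g => W g - pw x g) η := by
    funext e
    induction e using Sym2.ind with
    | _ p q =>
      rw [Pool.Agent.PW.pw_mk]
      match p, q with
      | none, none => simp [ext0, St]
      | none, some v => simp [ext0]
      | some v, none => simp [ext0, St]
      | some u, some v => simp [ext0]
  have h1 := mark_self (St W η) (ext0 x) none (ff W x η + X * GG W x η) (ff W x η) (GG W x η) g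
    (Zs2_line W x η) (Gs2_line W x η) (by ring) (fun μ => by rw [e1, hg])
  have e2 : ∑ v, ext0 x v = ∑ v, x v := by
    rw [Fintype.sum_option]
    simp [ext0]
  rw [e2, key_sum] at h1
  have h2 : (T (-1) g).comp (X + C (∑ v, x v)) = tt W x η := mul_left_cancel₀ X_ne_zero h1
  have h3 : sh (∑ v, x v) (tt W x η) = T (-1) g := by
    rw [← h2]
    unfold sh
    rw [comp_assoc]
    simp
  rw [h3]
  have h4 := T_neg_T (-1) g
  rw [neg_neg] at h4
  rw [h4, ← hg, ← Gs_hub]
  congr 1
  funext v
  cases v <;> simp [ext0]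

/-! ### Two marks -/

lemma two_ite {K : Type*} [Field K] {p q : Prop} (d1 d1' : Decidable p) (d2 d2' : Decidable q)
    (r s : K) : (@ite K p d1 r 0 + @ite K q d2 s 0) = (@ite K p d1' r 0 + @ite K q d2' s 0) := by
  rw [Subsingleton.elim d1 d1', Subsingleton.elim d2 d2']

/-- Weighted sum over the forests that avoid both hubs. -/
noncomputable def sumF (W : Sym2 V → ℝ) (k : Finset (PE (Option (Option V))) → ℝ[X]) : ℝ[X] :=
  ∑ F ∈ (S2 V).powerset with Forest (pe (Option (Option V))) F, C (∏ g ∈ F, w2 W g) * k F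

lemma sumF_add (W : Sym2 V → ℝ) (k k' : Finset (PE (Option (Option V))) → ℝ[X]) :
    sumF W k + sumF W k' = sumF W fun F => k F + k' F := by
  unfold sumF
  rw [← Finset.sum_add_distrib]
  refine Finset.sum_congr rfl fun F _ => ?_
  rw [mul_add]

lemma mul_sumF (W : Sym2 V → ℝ) (p : ℝ[X]) (k : Finset (PE (Option (Option V))) → ℝ[X]) :
    p * sumF W k = sumF W fun F => p * k F := by
  unfold sumF
  rw [Finset.mul_sum]
  refine Finset.sum_congr rfl fun F _ => ?_
  ring

/-- The component of `a`. -/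
noncomputable abbrev ia (F : Finset (PE (Option (Option V)))) (a : V) :
    Quotient (cset (pe (Option (Option V))) F) := cmp (pe (Option (Option V))) F (some (some a))

noncomputable def mL (W : Sym2 V → ℝ) (x : V → ℝ) (a c : V) : ℝ[X] :=
  sumF W fun F => kL (cq F x) (ia F a) (ia F c)
noncomputable def mA0 (W : Sym2 V → ℝ) (x : V → ℝ) (a c : V) : ℝ[X] :=
  sumF W fun F => kA0 (cq F x) (ia F a) (ia F c)
noncomputable def mA1 (W : Sym2 V → ℝ) (x : V → ℝ) (a c : V) : ℝ[X] :=
  sumF W fun F => kA1 (cq F x) (ia F a) (ia F c)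
noncomputable def mC0 (W : Sym2 V → ℝ) (x : V → ℝ) (a c : V) : ℝ[X] :=
  sumF W fun F => kC0 (cq F x) (ia F a) (ia F c)
noncomputable def mC1 (W : Sym2 V → ℝ) (x : V → ℝ) (a c : V) : ℝ[X] :=
  sumF W fun F => kC1 (cq F x) (ia F a) (ia F c)
noncomputable def mP2 (W : Sym2 V → ℝ) (x : V → ℝ) (a c : V) : ℝ[X] :=
  sumF W fun F => kP2 (cq F x) (ia F a) (ia F c)

lemma tt_two (W : Sym2 V → ℝ) (x : V → ℝ) (a c : V) (s t : ℝ) :
    tt W x (fun v => dl a s v + dl c t v) = mL W x a c +
      C (1 + s) * (mC0 W x a c + X * mC1 W x a c) + C (1 + t) * (mA0 W x a c + X * mA1 W x a c) +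
      C ((1 + s) * (1 + t)) * mP2 W x a c := by
  unfold mL mC0 mC1 mA0 mA1 mP2
  simp only [mul_sumF, sumF_add]
  unfold tt sumF
  refine Finset.sum_congr rfl fun F _ => ?_
  congr 1
  refine k_four _ _ (ia F a) (ia F c) (1 + s) (1 + t) fun q => ?_
  refine (mj_cm_two (pe (Option (Option V))) F (x2 fun v => dl a s v + dl c t v) (some (some a))
    (some (some c)) s t (fun i => by
      match i with
      | none => simp [x2, ext0]
      | some none => simp [x2, ext0]
      | some (some v) => simp [x2, ext0, dl]) q).trans ?_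
  rw [add_sub_cancel_left, add_sub_cancel_left]
  exact two_ite _ _ _ _ _ _

/-! ### Cones -/

lemma w2_nonneg {W : Sym2 V → ℝ} (hW : ∀ g, 0 ≤ W g) (g : PE (Option (Option V))) :
    0 ≤ w2 W g := by
  unfold w2
  obtain ⟨g, hg⟩ := g
  show 0 ≤ St (St W 0) 0 g
  clear hg
  induction g using Sym2.ind with
  | _ p q =>
    match p, q with
    | none, none => exact le_refl (0 : ℝ)
    | none, some _ => exact le_refl (0 : ℝ)
    | some _, none => exact le_refl (0 : ℝ)
    | some none, some none => exact le_refl (0 : ℝ)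
    | some none, some (some _) => exact le_refl (0 : ℝ)
    | some (some _), some none => exact le_refl (0 : ℝ)
    | some (some _), some (some _) => exact hW _

lemma forest_empty' : Forest (pe (Option (Option V))) ∅ := by
  intro e he
  simp at he

lemma Cn_sumF {W : Sym2 V → ℝ} (hW : ∀ g, 0 ≤ W g) (k : Finset (PE (Option (Option V))) → ℝ[X])
    {X0 m : ℝ} (h0 : Cn X0 m (sh X0 (k ∅))) (h : ∀ F, k F = 0 ∨ Cn X0 m (sh X0 (k F))) :
    Cn X0 m (sh X0 (sumF W k)) := by
  have key : ∀ s : Finset (Finset (PE (Option (Option V)))),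
      Cn X0 m (sh X0 (k ∅ + ∑ F ∈ s, C (∏ g ∈ F, w2 W g) * k F)) := by
    intro s
    induction s using Finset.induction_on with
    | empty =>
      rw [Finset.sum_empty, add_zero]
      exact h0
    | insert F s hF ih =>
      rw [Finset.sum_insert hF, add_comm (C _ * k F), ← add_assoc]
      rcases h F with hk | hk
      · rw [hk, mul_zero, add_zero]
        exact ih
      · rw [sh_add _ (_ + _), sh_C_mul]
        exact Cn.add ih hk (Finset.prod_nonneg fun g _ => w2_nonneg hW g)
  have hmem : (∅ : Finset (PE (Option (Option V)))) ∈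
      (S2 V).powerset.filter (fun F => Forest (pe (Option (Option V))) F) := by
    rw [mem_filter]
    exact ⟨mem_powerset.mpr (Finset.empty_subset _), forest_empty'⟩
  unfold sumF
  rw [← Finset.add_sum_erase _ _ hmem, Finset.prod_empty, C_1, one_mul]
  exact key _

section
variable {x : V → ℝ} (hx : ∀ v, 0 ≤ x v)
include hx

lemma x2_nonneg (i : Option (Option V)) : 0 ≤ x2 x i := by
  match i with
  | none => exact le_refl (0 : ℝ)
  | some none => exact le_refl (0 : ℝ)
  | some (some v) => exact hx v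

lemma cq_nonneg (F : Finset (PE (Option (Option V)))) (q) : 0 ≤ cq F x q :=
  cm_nonneg _ _ (x2_nonneg hx) q

lemma cq_sum (F : Finset (PE (Option (Option V)))) (s : Finset _) :
    ∑ q ∈ s, cq F x q ≤ ∑ v, x v := by
  refine (Finset.sum_le_sum_of_subset_of_nonneg (Finset.subset_univ s)
    fun q _ _ => cq_nonneg hx F q).trans ?_
  rw [cm_total, sum_x2]

lemma cq_pos (F : Finset (PE (Option (Option V)))) {a : V} (ha : 0 < x a) :
    0 < cq F x (ia F a) := by
  have h1 : x2 x (some (some a)) ≤ cq F x (ia F a) := by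
    unfold cq cm
    refine Finset.single_le_sum (f := x2 x) (fun i _ => x2_nonneg hx i) ?_
    rw [mem_filter]
    exact ⟨mem_univ _, rfl⟩
  exact lt_of_lt_of_le ha h1

lemma Cn_PQ' (F : Finset (PE (Option (Option V)))) (s : Finset _) :
    Cn (∑ v, x v) (∑ v, x v) (sh (∑ v, x v) (Pf s (cq F x) + Qf s (cq F x))) :=
  Cn_PQ _ _ _ _ (cq_nonneg hx F) (cq_sum hx F s)

lemma Cn_Pf' (F : Finset (PE (Option (Option V)))) (s : Finset _) :
    Cn (∑ v, x v) (∑ v, x v) (sh (∑ v, x v) (Pf s (cq F x))) :=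
  Cn.base (Bs_Pf _ _ _ _ (cq_nonneg hx F) (cq_sum hx F s))

end

lemma ia_empty {a c : V} (hac : a ≠ c) : ia (∅ : Finset (PE (Option (Option V)))) a ≠ ia ∅ c := by
  intro h
  have h1 := (mj_isolated (pe_loop (V := Option (Option V))) (h := some (some c)) (F := ∅)
    (fun e he => by simp at he) (some (some a))).mp h
  exact hac (Option.some_injective _ (Option.some_injective _ h1))

/-! ### Stability -/

lemma map_Pf {J : Type*} (s : Finset J) (θ : J → ℝ) :
    (Pf s θ).map (algebraMap ℝ ℂ) = Pf s (fun j => (θ j : ℂ)) := by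
  unfold Pf
  rw [Polynomial.map_prod]
  refine Finset.prod_congr rfl fun j _ => ?_
  simp

lemma map_Qf {J : Type*} (s : Finset J) (θ : J → ℝ) :
    (Qf s θ).map (algebraMap ℝ ℂ) = Qf s (fun j => (θ j : ℂ)) := by
  unfold Qf
  rw [Polynomial.map_sum]
  refine Finset.sum_congr rfl fun j _ => ?_
  rw [Polynomial.map_mul, Polynomial.map_prod, Polynomial.map_C]
  congr 1
  · simp
  · refine Finset.prod_congr rfl fun j _ => ?_
    simp

lemma aeval_Pf {J : Type*} (s : Finset J) (θ : J → ℝ) (z : ℂ) :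
    aeval z (Pf s θ) = (Pf s (fun j => (θ j : ℂ))).eval z := by
  rw [← map_Pf, eval_map_algebraMap]

lemma aeval_Qf {J : Type*} (s : Finset J) (θ : J → ℝ) (z : ℂ) :
    aeval z (Qf s θ) = (Qf s (fun j => (θ j : ℂ))).eval z := by
  rw [← map_Qf, eval_map_algebraMap]

/-- The complex value of the four pieces of one forest. -/
lemma k_aeval {J : Type*} [Fintype J] (θ : J → ℝ) (i j : J) (z u v : ℂ) :
    aeval z (kL θ i j) + u * (aeval z (kC0 θ i j) + z * aeval z (kC1 θ i j)) +
      v * (aeval z (kA0 θ i j) + z * aeval z (kA1 θ i j)) + u * v * aeval z (kP2 θ i j) =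
    (kL (fun q => (θ q : ℂ)) i j +
      C u * (kC0 (fun q => (θ q : ℂ)) i j + X * kC1 (fun q => (θ q : ℂ)) i j) +
      C v * (kA0 (fun q => (θ q : ℂ)) i j + X * kA1 (fun q => (θ q : ℂ)) i j) +
      C (u * v) * kP2 (fun q => (θ q : ℂ)) i j).eval z := by
  unfold kL kC0 kC1 kA0 kA1 kP2
  by_cases h : i = j
  · simp only [if_pos h, map_add, map_sub, map_mul, map_one, map_zero, aeval_X, aeval_C,
      aeval_Pf, aeval_Qf, eval_add, eval_sub, eval_mul, eval_X, eval_C, eval_one, eval_zero,
      Complex.coe_algebraMap, Complex.ofReal_pow]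
  · simp only [if_neg h, map_add, map_sub, map_mul, map_one, map_zero, map_pow, aeval_X, aeval_C,
      aeval_Pf, aeval_Qf, eval_add, eval_sub, eval_mul, eval_X, eval_C, eval_one, eval_zero,
      eval_pow, Complex.coe_algebraMap, Complex.ofReal_pow, Complex.ofReal_mul, Complex.ofReal_add]

lemma aeval_sumF (W : Sym2 V → ℝ) (k : Finset (PE (Option (Option V))) → ℝ[X]) (z : ℂ) :
    aeval z (sumF W k) = ∑ F ∈ (S2 V).powerset with Forest (pe (Option (Option V))) F,
      (∏ g ∈ F, (w2 W g : ℂ)) * aeval z (k F) := by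
  unfold sumF
  rw [map_sum]
  refine Finset.sum_congr rfl fun F _ => ?_
  rw [map_mul, aeval_C, Complex.coe_algebraMap]
  push_cast
  rfl

theorem stab_two {W : Sym2 V → ℝ} (hW : ∀ g, 0 ≤ W g) {x : V → ℝ} (hx : ∀ v, 0 ≤ x v)
    (hiso : ∀ u v, x u = 0 → u ≠ v → W s(u, v) = 0) {a c : V} (ha : 0 < x a) (hc : 0 < x c)
    {z u v : ℂ} (hz : 0 < z.im) (hu : 0 ≤ u.im) (hv : 0 ≤ v.im) :
    aeval z (mL W x a c) + u * aeval z (mC0 W x a c + X * mC1 W x a c) +
      v * aeval z (mA0 W x a c + X * mA1 W x a c) + u * v * aeval z (mP2 W x a c) ≠ 0 := by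
  set S' : Finset (PE (Option (Option V))) := (S2 V).filter (fun g => ∀ i ∈ g.1, x2 x i ≠ 0)
    with hS'
  have hcut : ∀ g ∈ S2 V, g ∉ S' → w2 W g = 0 := by
    rintro ⟨g, hg⟩ h1 h2
    have h3 : ¬ ∀ i ∈ g, x2 x i ≠ 0 := fun h => h2 (by rw [hS', mem_filter]; exact ⟨h1, h⟩)
    obtain ⟨h4, h5⟩ := mem_S2.mp h1
    push Not at h3
    obtain ⟨i, hi, hxi⟩ := h3
    show St (St W 0) 0 g = 0
    change none ∉ g at h4
    change some none ∉ g at h5
    clear h1 h2
    induction g using Sym2.ind with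
    | _ p q =>
      rw [Sym2.mk_isDiag_iff] at hg
      match p, q with
      | none, _ => exact absurd (Sym2.mem_mk_left _ _) h4
      | _, none => exact absurd (Sym2.mem_mk_right _ _) h4
      | some none, _ => exact absurd (Sym2.mem_mk_left _ _) h5
      | _, some none => exact absurd (Sym2.mem_mk_right _ _) h5
      | some (some u), some (some v) =>
        show W s(u, v) = 0
        have huv : u ≠ v := fun h => hg (by rw [h])
        rw [Sym2.mem_iff] at hi
        rcases hi with rfl | rfl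
        · exact hiso u v hxi huv
        · rw [Sym2.eq_swap]
          exact hiso v u hxi huv.symm
  have h1 := mj_stab2 (pe (Option (Option V))) pe_loop (w2 W) (w2_nonneg hW) S' (x2 x)
    (x2_nonneg hx) (fun i hi e he hie => by
      rw [hS', mem_filter] at he
      exact he.2 i hie hi) (a := some (some a)) (c := some (some c)) ha hc hz hu hv
  intro h0
  apply h1
  refine Eq.trans ?_ h0
  rw [map_add, map_add, map_mul, map_mul, aeval_X]
  unfold mL mC0 mC1 mA0 mA1 mP2
  rw [aeval_sumF, aeval_sumF, aeval_sumF, aeval_sumF, aeval_sumF, aeval_sumF]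
  simp only [Finset.mul_sum, ← Finset.sum_add_distrib]
  have hsub : S'.powerset.filter (fun F => Forest (pe (Option (Option V))) F) ⊆
      (S2 V).powerset.filter (fun F => Forest (pe (Option (Option V))) F) := by
    intro F hF
    rw [mem_filter, mem_powerset] at hF ⊢
    exact ⟨hF.1.trans (Finset.filter_subset _ _), hF.2⟩
  rw [← Finset.sum_subset hsub (fun F hF hnF => ?_)]
  · refine Finset.sum_congr rfl fun F _ => ?_
    rw [k_four (K := ℂ) _ _ (ia F a) (ia F c) u v
        (fun q => two_ite _ _ _ _ _ _),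
      ← k_aeval (cq F x) (ia F a) (ia F c) z u v]
    ring
  · rw [mem_filter, mem_powerset] at hF hnF
    have h2 : ¬ F ⊆ S' := fun h => hnF ⟨h, hF.2⟩
    rw [Finset.not_subset] at h2
    obtain ⟨g, hg, hgS⟩ := h2
    have h3 : ∏ g ∈ F, (w2 W g : ℂ) = 0 := by
      refine Finset.prod_eq_zero hg ?_
      rw [hcut g (hF.1 hg) hgS, Complex.ofReal_zero]
    rw [h3]
    ring

/-- **One class with two marks.** -/
theorem two_marks (W : Sym2 V → ℝ) (hW : ∀ g, 0 ≤ W g) (x : V → ℝ) (hx : ∀ v, 0 ≤ x v)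
    (hiso : ∀ u v, x u = 0 → u ≠ v → W s(u, v) = 0) {a c : V} (hac : a ≠ c) (ha : 0 < x a)
    (hc : 0 < x c) :
    ∃ L Ba0 Ba1 Bc0 Bc1 P2 : ℝ[X],
      Cn (∑ v, x v) (∑ v, x v) (sh (∑ v, x v) Ba0) ∧
      Cn (∑ v, x v) (∑ v, x v) (sh (∑ v, x v) Ba1) ∧
      Cn (∑ v, x v) (∑ v, x v) (sh (∑ v, x v) Bc0) ∧
      Cn (∑ v, x v) (∑ v, x v) (sh (∑ v, x v) Bc1) ∧
      Cn (∑ v, x v) (∑ v, x v) (sh (∑ v, x v) P2) ∧
      (∀ μ s t, Zs (fun g => W g - pw x g) (fun v => μ * x v + dl a s v + dl c t v) =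
        (T 1 (sh (∑ v, x v) (L + C (1 + s) * (Bc0 + X * Bc1) + C (1 + t) * (Ba0 + X * Ba1) +
          C ((1 + s) * (1 + t)) * P2))).eval μ) ∧
      (∀ z u v : ℂ, 0 < z.im → 0 ≤ u.im → 0 ≤ v.im →
        aeval z L + u * aeval z (Bc0 + X * Bc1) + v * aeval z (Ba0 + X * Ba1) +
          u * v * aeval z P2 ≠ 0) := by
  refine ⟨mL W x a c, mA0 W x a c, mA1 W x a c, mC0 W x a c, mC1 W x a c, mP2 W x a c,
    ?_, ?_, ?_, ?_, ?_, ?_, ?_⟩
  · refine Cn_sumF hW _ ?_ fun F => Or.inr ?_
    · unfold kA0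
      rw [if_neg (ia_empty hac), sh_C_mul]
      exact Cn.smul (by have := cq_pos hx ∅ ha; positivity) (Cn_Pf' hx _ _)
    · unfold kA0
      split_ifs with h
      · exact Cn_PQ' hx _ _
      · rw [sh_C_mul]
        exact Cn.smul (by have := cq_pos hx F ha; positivity) (Cn_Pf' hx _ _)
  · refine Cn_sumF hW _ ?_ fun F => ?_
    · unfold kA1
      rw [if_neg (ia_empty hac), sh_C_mul]
      exact Cn.smul (cq_pos hx ∅ ha) (Cn_PQ' hx _ _)
    · unfold kA1
      split_ifs with h
      · exact Or.inl rfl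
      · right
        rw [sh_C_mul]
        exact Cn.smul (cq_pos hx F ha) (Cn_PQ' hx _ _)
  · refine Cn_sumF hW _ ?_ fun F => Or.inr ?_
    · unfold kC0
      rw [if_neg (ia_empty hac), sh_C_mul]
      exact Cn.smul (by have := cq_pos hx ∅ hc; positivity) (Cn_Pf' hx _ _)
    · unfold kC0
      split_ifs with h
      · exact Cn_PQ' hx _ _
      · rw [sh_C_mul]
        exact Cn.smul (by have := cq_pos hx F hc; positivity) (Cn_Pf' hx _ _)
  · refine Cn_sumF hW _ ?_ fun F => ?_
    · unfold kC1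
      rw [if_neg (ia_empty hac), sh_C_mul]
      exact Cn.smul (cq_pos hx ∅ hc) (Cn_PQ' hx _ _)
    · unfold kC1
      split_ifs with h
      · exact Or.inl rfl
      · right
        rw [sh_C_mul]
        exact Cn.smul (cq_pos hx F hc) (Cn_PQ' hx _ _)
  · refine Cn_sumF hW _ ?_ fun F => ?_
    · unfold kP2
      rw [if_neg (ia_empty hac)]
      exact Cn_PQ' hx _ _
    · unfold kP2
      split_ifs with h
      · exact Or.inl rfl
      · exact Or.inr (Cn_PQ' hx _ _)
  · intro μ s t
    rw [← tt_two, ← eta_line]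
    congr 1
    funext v
    ring
  · intro z u v hz hu hv
    exact stab_two hW hx hiso ha hc hz hu hv

end Graph

end Pool.Agent.MJ
end

section

/-!
A rank one cut with an independent side: the pairs of vertices of this side.
-/

set_option autoImplicit false
set_option linter.unusedSectionVars false

namespace Pool.Agent.MJ

open Finset Polynomial
open scoped Classical
open Pool.Agent.PW (Z N N2 Ray cw pw mv ct)

variable {V : Type*} [Fintype V]

/-- Both ends `c`, `d` of the second edge in the independent side. -/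
theorem twin_step (p : V → Prop) (B : Sym2 V → ℝ) (hB : ∀ g, 0 ≤ B g) (y ρ : V → ℝ)
    (hy : ∀ v, 0 ≤ y v) (hρ : ∀ v, 0 ≤ ρ v) {c d : V} (hc : p c) (hd : p d) (hcd : c ≠ d)
    {e : Sym2 V} (he : ∀ v ∈ e, ¬ p v) (hed : ¬ e.IsDiag)
    (ih : ∀ v, ¬ p v → 0 < ρ v → v ∉ e → 0 ≤ Ray (glue p (fun _ => 0) B
      (jz p (fun u => if u = d then 0 else if u = c then y c + y d else y u) ρ)) e s(c, v)) :
    0 ≤ Ray (glue p (fun _ => 0) B (jz p y ρ)) e s(c, d) := by
  set W := glue p (fun _ => 0) B (jz p y ρ) with hWdef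
  set y' : V → ℝ := fun u => if u = d then 0 else if u = c then y c + y d else y u with hy'
  set W' := glue p (fun _ => 0) B (jz p y' ρ) with hW'def
  have hec : c ∉ e := fun h => he c h hc
  have hed' : d ∉ e := fun h => he d h hd
  have y'd : y' d = 0 := by simp [hy']
  have y'c : y' c = y c + y d := by simp [hy', hcd]
  have y'v : ∀ v, v ≠ c → v ≠ d → y' v = y v := fun v h1 h2 => by simp [hy', h1, h2]
  have y'0 : ∀ v, 0 ≤ y' v := by
    intro v
    rw [hy']
    simp only
    have h1 := hy c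
    have h2 := hy d
    have h3 := hy v
    split_ifs
    · exact le_rfl
    · linarith
    · exact h3
  have hW'0 : ∀ g, 0 ≤ W' g := fun g => glue_nonneg (fun _ => le_rfl) hB (fun v => by
    unfold jz
    split_ifs
    · exact y'0 v
    · exact hρ v) g
  by_cases hs0 : y c + y d = 0
  · have h1 := hy c
    have h2 := hy d
    have h3 : y c = 0 := by linarith
    have h4 : y d = 0 := by linarith
    rw [Pool.Agent.Lib.MP_d90615_co.ray_pair_left W hcd (fun _ => 0) rfl rfl (p := 1) (q := 0)
      (by ring) (fun v hv hv' => ?_) (fun v hv hv' => ?_) hec hed']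
    · simp
    · by_cases hp : p v
      · rw [hWdef, glue_in _ _ _ hc hp]
        ring
      · rw [hWdef, glue_cross _ _ _ hc hp, jz_in hc, h3]
        ring
    · by_cases hp : p v
      · rw [hWdef, glue_in _ _ _ hd hp]
        ring
      · rw [hWdef, glue_cross _ _ _ hd hp, jz_in hd, h4]
        ring
  have hspos : 0 < y c + y d := lt_of_le_of_ne (add_nonneg (hy c) (hy d)) (Ne.symm hs0)
  set x : V → ℝ := fun v => if p v then 0 else (y c + y d) * ρ v with hx
  have xp : ∀ v, p v → x v = 0 := fun v h => by simp [hx, h]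
  have xn : ∀ v, ¬ p v → x v = (y c + y d) * ρ v := fun v h => by simp [hx, h]
  have hpq : y c / (y c + y d) + y d / (y c + y d) = 1 := by
    rw [← add_div]
    exact div_self hs0
  rw [Pool.Agent.Lib.MP_d90615_co.ray_pair W W' hcd x (xp c hc) (xp d hd) hpq
    (fun v _ _ => by
      by_cases hp : p v
      · rw [hWdef, glue_in _ _ _ hc hp, xp v hp, mul_zero]
      · rw [hWdef, glue_cross _ _ _ hc hp, jz_in hc, jz_out hp, xn v hp]
        field_simp)
    (fun v _ _ => by
      by_cases hp : p v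
      · rw [hWdef, glue_in _ _ _ hd hp, xp v hp, mul_zero]
      · rw [hWdef, glue_cross _ _ _ hd hp, jz_in hd, jz_out hp, xn v hp]
        field_simp)
    (fun v _ _ => by
      by_cases hp : p v
      · rw [hW'def, glue_in _ _ _ hc hp, xp v hp]
      · rw [hW'def, glue_cross _ _ _ hc hp, jz_in hc, jz_out hp, xn v hp, y'c])
    (fun v _ _ => by
      by_cases hp : p v
      · rw [hW'def, glue_in _ _ _ hd hp]
      · rw [hW'def, glue_cross _ _ _ hd hp, jz_in hd, y'd, zero_mul])
    (by rw [hW'def, glue_in _ _ _ hc hd])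
    (fun g h1 h2 => by
      induction g using Sym2.ind with
      | _ u v =>
        rw [Sym2.mem_iff] at h1 h2
        push Not at h1 h2
        have ju : jz p y' ρ u = jz p y ρ u := by
          unfold jz
          rw [y'v u h1.1.symm h2.1.symm]
        have jv : jz p y' ρ v = jz p y ρ v := by
          unfold jz
          rw [y'v v h1.2.symm h2.2.symm]
        by_cases hu : p u
        · by_cases hv : p v
          · rw [hWdef, hW'def, glue_in _ _ _ hu hv, glue_in _ _ _ hu hv]
          · rw [hWdef, hW'def, glue_cross _ _ _ hu hv, glue_cross _ _ _ hu hv, ju, jv]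
        · by_cases hv : p v
          · rw [hWdef, hW'def, glue_cross' _ _ _ hu hv, glue_cross' _ _ _ hu hv, ju, jv]
          · rw [hWdef, hW'def, glue_out _ _ _ hu hv, glue_out _ _ _ hu hv])
    hec hed']
  refine mul_nonneg (mul_nonneg (div_nonneg (hy c) hspos.le) (div_nonneg (hy d) hspos.le))
    (Finset.sum_nonneg fun v hv => ?_)
  rw [mem_filter] at hv
  obtain ⟨_, hvc, hvd⟩ := hv
  by_cases hp : p v
  · rw [xp v hp, zero_mul]
  rw [xn v hp]
  by_cases hρv : ρ v = 0
  · rw [hρv, mul_zero, zero_mul]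
  have hρv' : 0 < ρ v := lt_of_le_of_ne (hρ v) (Ne.symm hρv)
  refine mul_nonneg (mul_nonneg hspos.le (hρ v)) ?_
  by_cases hve : v ∈ e
  · obtain ⟨w, rfl⟩ := hve
    rw [Sym2.mk_isDiag_iff] at hed
    have hw : ¬ p w := he w (Sym2.mem_mk_right v w)
    rw [Sym2.eq_swap (a := c)]
    refine Pool.Agent.Lib.MP_d90615_co.ray_adj W' hW'0 hed hvc ?_
    rintro rfl
    exact hw hc
  · exact ih v hp hρv' hve

/-! ### Linear functionals -/

/-- The partition function as a linear functional of the hub polynomial of the side `p`, if the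
sum of the masses of this side is `m`. -/
def IsLam (p : V → Prop) (B : Sym2 V → ℝ) (ρ : V → ℝ) (m : ℝ) (lam : ℝ[X] →ₗ[ℝ] ℝ) : Prop :=
  ∀ (A : Sym2 V → ℝ) (y : V → ℝ) (f : ℝ[X]), ∑ v, rz p y v = m →
    (∀ l, Zs (rW p A) (fun v => l * rz p y v) = f.eval l) → Z (glue p A B (jz p y ρ)) = lam f

lemma mv_smul (l : ℝ) (z : V → ℝ) (c d v : V) : mv (fun u => l * z u) c d v = l * mv z c d v := by
  unfold mv
  split_ifs <;> ring

/-- Contraction of a pair inside `p`. -/
lemma N_lam {p : V → Prop} {B : Sym2 V → ℝ} {ρ : V → ℝ} {m : ℝ} {lam : ℝ[X] →ₗ[ℝ] ℝ}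
    (hl : IsLam p B ρ m lam) (A : Sym2 V → ℝ) (y : V → ℝ) (hm : ∑ v, rz p y v = m) {c d : V}
    (hc : p c) (hd : p d) (hcd : c ≠ d) (F1 : ℝ[X])
    (hF1 : ∀ l, Zs (cw c d (rW p A)) (fun v => l * mv (rz p y) c d v) = F1.eval l) :
    N (glue p A B (jz p y ρ)) s(c, d) = lam F1 := by
  obtain ⟨F, _, hF, _, _⟩ := exists_hub (rW p A) (rz p y) c
  have h1 := Pool.Agent.PW.Z_split (glue p A B (jz p y ρ)) s(c, d) (A s(c, d) + 1)
  rw [glue_update_in _ _ _ ((all_mk p).mpr ⟨hc, hd⟩), glue_in _ _ _ hc hd, hl A y F hm hF,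
    hl _ y (F + F1) hm (fun l => by
      have h2 := Zs_split (rW p A) hcd 1 (fun v => l * rz p y v)
      rw [rW_update hc hd, eval_add, ← hF, ← hF1]
      rw [rW_mem hc hd] at h2
      rw [h2, one_mul]
      congr 2
      funext v
      exact mv_smul l (rz p y) c d v), map_add] at h1
  linarith

/-- `Ray` as a bilinear expression in the hub polynomial and its contraction. -/
lemma ray_lam {p : V → Prop} {B : Sym2 V → ℝ} {ρ : V → ℝ} {m : ℝ} {lam lam1 : ℝ[X] →ₗ[ℝ] ℝ}
    {e : Sym2 V} (he : ∀ v ∈ e, ¬ p v)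
    (hl : IsLam p B ρ m lam) (hl1 : IsLam p (Function.update B e (B e + 1)) ρ m lam1)
    (A : Sym2 V → ℝ) (y : V → ℝ) (hm : ∑ v, rz p y v = m) {c d : V}
    (hc : p c) (hd : p d) (hcd : c ≠ d) (F F1 : ℝ[X])
    (hF : ∀ l, Zs (rW p A) (fun v => l * rz p y v) = F.eval l)
    (hF1 : ∀ l, Zs (cw c d (rW p A)) (fun v => l * mv (rz p y) c d v) = F1.eval l) :
    Ray (glue p A B (jz p y ρ)) e s(c, d) = lam1 F * lam F1 - lam F * lam1 F1 := by
  have hne : e ≠ s(c, d) := by
    rintro rfl
    exact he c (Sym2.mem_mk_left c d) hc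
  have hge : glue p A B (jz p y ρ) e = B e := by
    induction e using Sym2.ind with
    | _ u v =>
      obtain ⟨hu, hv⟩ := (all_mk fun w => ¬ p w).mp he
      exact glue_out _ _ _ hu hv
  rw [Pool.Agent.Lib.MP_d90615_co.ray_inc _ hne, hge, glue_update_out _ _ _ he,
    hl A y F hm hF, hl1 A y F hm hF, N_lam hl A y hm hc hd hcd F1 hF1,
    N_lam hl1 A y hm hc hd hcd F1 hF1]

/-- The hub polynomial of independent vertices. -/
lemma hub_indep (p : V → Prop) (y : V → ℝ) (l : ℝ) :
    Zs (rW p (fun _ => 0)) (fun v => l * rz p y v) =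
      (∏ v, (1 + C (rz p y v) * X) : ℝ[X]).eval l := by
  rw [Zs_congr (W' := fun _ => 0) (fun g _ => by unfold rW; rw [ite_self]), Zs_zero, eval_prod]
  refine Finset.prod_congr rfl fun v _ => ?_
  simp only [eval_add, eval_one, eval_mul, eval_C, eval_X]
  ring

lemma hub_indep1 (p : V → Prop) (y : V → ℝ) {c d : V} (hcd : c ≠ d) (l : ℝ) :
    Zs (cw c d (rW p (fun _ => 0))) (fun v => l * mv (rz p y) c d v) =
      (∏ v, (1 + C (rz p y v) * X) - C (rz p y c * rz p y d) *
        (X ^ 2 * ∏ v ∈ (univ.erase c).erase d, (1 + C (rz p y v) * X)) : ℝ[X]).eval l := by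
  have h0 : ∀ g : Sym2 V, ¬ g.IsDiag → cw c d (rW p (fun _ => 0)) g = 0 := by
    intro g _
    unfold cw rW
    refine Finset.sum_eq_zero fun e _ => ?_
    rw [ite_self]
  have hdm : d ∈ univ.erase c := Finset.mem_erase.mpr ⟨hcd.symm, mem_univ d⟩
  rw [Zs_congr (W' := fun _ => 0) h0, Zs_zero,
    ← Finset.mul_prod_erase univ (fun v => (1 + l * mv (rz p y) c d v)) (mem_univ c),
    ← Finset.mul_prod_erase (univ.erase c) (fun v => (1 + l * mv (rz p y) c d v)) hdm,
    ← Finset.mul_prod_erase univ (fun v => (1 + C (rz p y v) * X : ℝ[X])) (mem_univ c),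
    ← Finset.mul_prod_erase (univ.erase c) (fun v => (1 + C (rz p y v) * X : ℝ[X])) hdm]
  have h1 : ∏ v ∈ (univ.erase c).erase d, (1 + l * mv (rz p y) c d v) =
      (∏ v ∈ (univ.erase c).erase d, (1 + C (rz p y v) * X) : ℝ[X]).eval l := by
    rw [eval_prod]
    refine Finset.prod_congr rfl fun v hv => ?_
    rw [Finset.mem_erase, Finset.mem_erase] at hv
    unfold mv
    rw [if_neg hv.1, if_neg hv.2.1]
    simp only [eval_add, eval_one, eval_mul, eval_C, eval_X]
    ring
  rw [h1]
  have m1 : mv (rz p y) c d c = rz p y c + rz p y d := by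
    unfold mv
    rw [if_neg hcd, if_pos rfl]
  have m2 : mv (rz p y) c d d = 0 := by
    unfold mv
    rw [if_pos rfl]
  rw [m1, m2]
  simp only [eval_sub, eval_add, eval_one, eval_mul, eval_C, eval_X, eval_pow]
  ring

/-- The inequality for a pair of independent vertices, in terms of the functionals. -/
theorem twin_cone {p : V → Prop} {B : Sym2 V → ℝ} (hB : ∀ g, 0 ≤ B g) {ρ : V → ℝ}
    (hρ : ∀ v, 0 ≤ ρ v) {m : ℝ} {lam lam1 : ℝ[X] →ₗ[ℝ] ℝ} {e : Sym2 V} (he : ∀ v ∈ e, ¬ p v)
    (hed : ¬ e.IsDiag)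
    (hl : IsLam p B ρ m lam) (hl1 : IsLam p (Function.update B e (B e + 1)) ρ m lam1)
    (y : V → ℝ) (hy : ∀ v, 0 ≤ y v) (hm : ∑ v, rz p y v = m) {c d : V}
    (hc : p c) (hd : p d) (hcd : c ≠ d) (hyc : 0 < y c) (hyd : 0 < y d)
    (ih : ∀ v, ¬ p v → 0 < ρ v → v ∉ e → 0 ≤ Ray (glue p (fun _ => 0) B
      (jz p (fun u => if u = d then 0 else if u = c then y c + y d else y u) ρ)) e s(c, v)) :
    lam1 (∏ v, (1 + C (rz p y v) * X)) *
        lam (X ^ 2 * ∏ v ∈ (univ.erase c).erase d, (1 + C (rz p y v) * X)) ≤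
      lam (∏ v, (1 + C (rz p y v) * X)) *
        lam1 (X ^ 2 * ∏ v ∈ (univ.erase c).erase d, (1 + C (rz p y v) * X)) := by
  have h1 := twin_step p B hB y ρ hy hρ hc hd hcd he hed ih
  rw [ray_lam he hl hl1 _ y hm hc hd hcd _ _ (hub_indep p y) (hub_indep1 p y hcd)] at h1
  have h2 : rz p y c * rz p y d = y c * y d := by
    unfold rz
    rw [if_pos hc, if_pos hd]
  rw [h2, map_sub, map_sub, C_mul', map_smul, map_smul, smul_eq_mul, smul_eq_mul] at h1
  have h3 : 0 < y c * y d := mul_pos hyc hyd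
  by_contra h4
  push Not at h4
  nlinarith [mul_pos h3 (sub_pos.mpr h4)]

/-! ### The degree of the hub polynomial -/

/-- The number of vertices with a mass. -/
noncomputable def cnt (z : V → ℝ) : ℕ := ((univ : Finset V).filter fun v => z v ≠ 0).card

lemma cnt_mv {b c : V} (z : V → ℝ) : cnt (mv z b c) ≤ cnt z := by
  unfold cnt
  by_cases hb : z b = 0
  · by_cases hc : z c = 0
    · refine Finset.card_le_card fun v hv => ?_
      rw [mem_filter] at hv ⊢
      refine ⟨mem_univ v, fun h0 => hv.2 ?_⟩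
      unfold mv
      split_ifs with h1 h2
      · rfl
      · rw [hb, hc, add_zero]
      · exact h0
    · have hcm : c ∈ univ.filter fun v => z v ≠ 0 := mem_filter.mpr ⟨mem_univ c, hc⟩
      rw [← Finset.card_erase_add_one hcm]
      refine (Finset.card_le_card (t := insert b ((univ.filter fun v => z v ≠ 0).erase c))
        fun v hv => ?_).trans (Finset.card_insert_le _ _)
      rw [mem_filter] at hv
      rw [Finset.mem_insert, Finset.mem_erase, mem_filter]
      by_cases hvb : v = b
      · exact Or.inl hvb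
      by_cases hvc : v = c
      · exfalso
        apply hv.2
        unfold mv
        rw [if_pos hvc]
      refine Or.inr ⟨hvc, mem_univ v, ?_⟩
      have h := hv.2
      unfold mv at h
      rw [if_neg hvc, if_neg hvb] at h
      exact h
  · refine Finset.card_le_card fun v hv => ?_
    rw [mem_filter] at hv ⊢
    refine ⟨mem_univ v, fun h0 => hv.2 ?_⟩
    unfold mv
    split_ifs with h1 h2
    · rfl
    · exact absurd (h2 ▸ h0) hb
    · exact h0

lemma natDegree_hub (n : ℕ) : ∀ (W : Sym2 V → ℝ) (x : V → ℝ), supp W = n →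
    ∀ p : ℝ[X], (∀ μ, Zs W (fun v => μ * x v) = p.eval μ) → p.natDegree ≤ cnt x := by
  induction n using Nat.strong_induction_on with
  | _ n ih =>
    intro W x hn p hp
    by_cases hW : ∀ g : Sym2 V, ¬ g.IsDiag → W g = 0
    · have h1 : p = ∏ v ∈ univ.filter (fun v => x v ≠ 0), (1 + C (x v) * X) := by
        refine Polynomial.funext fun μ => ?_
        rw [← hp, Zs_congr (W' := fun _ => 0) hW, Zs_zero, eval_prod,
          ← Finset.prod_subset (Finset.filter_subset (fun v => x v ≠ 0) univ)]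
        · refine Finset.prod_congr rfl fun v _ => ?_
          simp only [eval_add, eval_one, eval_mul, eval_C, eval_X]
          ring
        · intro v _ hv
          rw [mem_filter] at hv
          push Not at hv
          rw [hv (mem_univ v)]
          ring
      rw [h1]
      refine (natDegree_prod_le _ _).trans ?_
      unfold cnt
      rw [Finset.card_eq_sum_ones]
      refine Finset.sum_le_sum fun v _ => ?_
      refine (natDegree_add_le _ _).trans ?_
      rw [natDegree_one]
      exact max_le (Nat.zero_le 1) ((natDegree_C_mul_le _ _).trans natDegree_X_le)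
    · obtain ⟨b, c, hbc, hWg⟩ := exists_pair hW
      have hg0 : ¬ (s(b, c)).IsDiag := by
        rw [Sym2.mk_isDiag_iff]
        exact hbc
      obtain ⟨p0, _, h0, _, _⟩ := exists_hub (Function.update W s(b, c) 0) x b
      obtain ⟨p1, _, h1, _, _⟩ := exists_hub (cw b c W) (mv x b c) b
      have d0 := ih _ (by rw [← hn]; exact supp_update hg0 hWg) _ x rfl p0 h0
      have d1 := ih _ (by rw [← hn]; exact supp_cw hbc hWg) _ (mv x b c) rfl p1 h1
      have h2 : p = p0 + C (W s(b, c)) * p1 := by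
        refine Polynomial.funext fun μ => ?_
        rw [← hp, Zs_del W hbc 0, h0, eval_add, eval_mul, eval_C, ← h1]
        rw [sub_zero]
        congr 3
        funext v
        exact mv_smul μ x b c v
      rw [h2]
      refine (natDegree_add_le _ _).trans (max_le d0 ?_)
      exact (natDegree_C_mul_le _ _).trans (d1.trans (cnt_mv x))

/-! ### Case 2 -/

lemma Zs_pos {W : Sym2 V → ℝ} (hW : ∀ g, 0 ≤ W g) {z : V → ℝ} (hz : ∀ v, 0 ≤ z v) :
    0 < Zs W z := by
  unfold Zs Pool.Agent.PW.Z
  have hS : ∀ g, 0 ≤ St W z g := by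
    intro g
    induction g using Sym2.ind with
    | _ p q =>
      cases p with
      | none =>
        cases q with
        | none => exact le_rfl
        | some v => exact hz v
      | some u =>
        cases q with
        | none => exact hz u
        | some v => exact hW _
  refine Finset.sum_pos' (fun F _ => Finset.prod_nonneg fun g _ => hS g) ⟨∅, ?_, ?_⟩
  · rw [mem_filter]
    exact ⟨mem_univ _, Pool.Agent.PW.acyc_empty⟩
  · rw [Finset.prod_empty]
    exact one_pos

/-- The sum of the masses from the hub polynomial. -/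
lemma sum_theta {n : ℕ} {θ : Fin n → ℝ} {F : ℝ[X]} {m : ℝ} (h0 : F.eval 0 ≠ 0)
    (hF : F = C (F.eval 0) * ∏ i, (1 + C (θ i) * X))
    (hm : (derivative F).eval 0 = m * F.eval 0) : ∑ i, θ i = m := by
  have h1 := Pool.Agent.MJ.prod_deriv_zero θ
  have h2 : (derivative F).eval 0 = F.eval 0 * ∑ i, θ i := by
    conv_lhs => rw [hF]
    rw [derivative_C_mul, eval_mul, eval_C, h1]
  rw [hm] at h2
  have h3 : F.eval 0 * m = F.eval 0 * ∑ i, θ i := by rw [mul_comm]; exact h2
  exact (mul_left_cancel₀ h0 h3).symm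

/-- The inequality for an element of the cone. -/
theorem cone2_le {p : V → Prop} {A B : Sym2 V → ℝ} (hA : ∀ g, 0 ≤ A g) (hB : ∀ g, 0 ≤ B g)
    {x ρ : V → ℝ} (hρ : ∀ v, 0 ≤ ρ v) {e : Sym2 V} (he : ∀ v ∈ e, ¬ p v) (hed : ¬ e.IsDiag)
    {lam lam1 : ℝ[X] →ₗ[ℝ] ℝ} (hl : IsLam p B ρ (∑ v, rz p x v) lam)
    (hl1 : IsLam p (Function.update B e (B e + 1)) ρ (∑ v, rz p x v) lam1) {F U : ℝ[X]}
    (hF : ∀ l, Zs (rW p A) (fun v => l * rz p x v) = F.eval l)
    (hFd : (derivative F).eval 0 = (∑ v, rz p x v) * F.eval 0) (hU : Cone2 F U)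
    (ih : ∀ y : V → ℝ, (∀ v, 0 ≤ y v) → (∀ v, ¬ p v → y v = 0) → cnt y < cnt (rz p x) →
      ∀ i v, p i → 0 < y i → ¬ p v → 0 < ρ v → v ∉ e →
      0 ≤ Ray (glue p (fun _ => 0) B (jz p y ρ)) e s(i, v)) :
    lam1 F * lam U ≤ lam F * lam1 U := by
  have hrA : ∀ g, 0 ≤ rW p A g := fun g => by
    unfold rW
    split_ifs
    · exact hA g
    · exact le_rfl
  have hF0 : 0 < F.eval 0 := by
    rw [← hF]
    exact Zs_pos hrA fun v => by rw [zero_mul]
  obtain ⟨n, θ, κ, hθ, hκ, hFp, hT⟩ := hU
  have hsum : ∑ i, θ i = ∑ v, rz p x v := sum_theta hF0.ne' hFp hFd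
  -- the number of the `θ i`
  have hdeg : n ≤ cnt (rz p x) := by
    refine le_trans (le_of_eq ?_) (natDegree_hub _ (rW p A) (rz p x) rfl F hF)
    rw [hFp, natDegree_C_mul hF0.ne', natDegree_prod _ _ (fun i _ h => by
      have := congrArg (Polynomial.eval 0) h
      simp at this)]
    have : ∀ i, (1 + C (θ i) * X : ℝ[X]).natDegree = 1 := by
      intro i
      rw [add_comm]
      exact natDegree_linear (hθ i).ne'
    simp [this]
  -- the masses on the vertices in `p`
  have hS : Fintype.card (Fin n) ≤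
      Fintype.card ((univ : Finset V).filter fun v => rz p x v ≠ 0) := by
    rw [Fintype.card_fin, Fintype.card_coe]
    exact hdeg
  obtain ⟨g⟩ := Function.Embedding.nonempty_of_card_le hS
  have gp : ∀ i, p (g i).1 := by
    intro i
    have h := (mem_filter.mp (g i).2).2
    by_contra hn
    exact h (if_neg hn)
  set γ : Fin n → V := fun i => (g i).1 with hγ
  have γi : Function.Injective γ := fun i j h => g.injective (Subtype.ext h)
  set y : V → ℝ := fun v => if h : ∃ i, γ i = v then θ h.choose else 0 with hy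
  have yγ : ∀ i, y (γ i) = θ i := by
    intro i
    have h : ∃ j, γ j = γ i := ⟨i, rfl⟩
    rw [hy]
    simp only
    rw [dif_pos h, γi h.choose_spec]
  have yn : ∀ v, (∀ i, γ i ≠ v) → y v = 0 := by
    intro v h
    rw [hy]
    simp only
    rw [dif_neg]
    rintro ⟨i, hi⟩
    exact h i hi
  have y0 : ∀ v, 0 ≤ y v := by
    intro v
    by_cases h : ∃ i, γ i = v
    · obtain ⟨i, rfl⟩ := h
      rw [yγ]
      exact (hθ i).le
    · push Not at h
      rw [yn v h]
  have ynp : ∀ v, ¬ p v → y v = 0 := by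
    intro v hv
    refine yn v ?_
    rintro i rfl
    exact hv (gp i)
  have rzy : rz p y = y := by
    funext v
    unfold rz
    by_cases hv : p v
    · rw [if_pos hv]
    · rw [if_neg hv, ynp v hv]
  have prodγ : ∀ (S : Finset V) (R : Finset (Fin n)), (∀ i, γ i ∈ S ↔ i ∈ R) →
      ∏ v ∈ S, (1 + C (y v) * X : ℝ[X]) = ∏ i ∈ R, (1 + C (θ i) * X) := by
    intro S R h
    have h1 : ∏ v ∈ R.image γ, (1 + C (y v) * X : ℝ[X]) = ∏ i ∈ R, (1 + C (θ i) * X) := by
      rw [Finset.prod_image fun i _ j _ h => γi h]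
      exact Finset.prod_congr rfl fun i _ => by rw [yγ]
    rw [← h1]
    refine (Finset.prod_subset ?_ ?_).symm
    · intro v hv
      obtain ⟨i, hi, rfl⟩ := Finset.mem_image.mp hv
      exact (h i).mpr hi
    · intro v hvS hv
      rw [yn v, C_0, zero_mul, add_zero]
      rintro i rfl
      exact hv (Finset.mem_image.mpr ⟨i, (h i).mp hvS, rfl⟩)
  have hsumy : ∑ v, y v = ∑ i, θ i := by
    have h1 : ∑ v ∈ univ.image γ, y v = ∑ i, θ i := by
      rw [Finset.sum_image fun i _ j _ h => γi h]
      exact Finset.sum_congr rfl fun i _ => yγ i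
    rw [← h1]
    refine (Finset.sum_subset (Finset.subset_univ _) ?_).symm
    intro v _ hv
    refine yn v ?_
    rintro i rfl
    exact hv (Finset.mem_image.mpr ⟨i, mem_univ i, rfl⟩)
  have hcnt : cnt y ≤ cnt (rz p x) := by
    refine Finset.card_le_card fun v hv => ?_
    rw [mem_filter] at hv
    have h : ∃ i, γ i = v := by
      by_contra h
      push Not at h
      exact hv.2 (yn v h)
    obtain ⟨i, rfl⟩ := h
    exact (g i).2
  -- the inequality for a pair of the `θ i`
  have key : ∀ i j : Fin n, i ≠ j →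
      lam1 (∏ k, (1 + C (θ k) * X)) *
        lam (X ^ 2 * ∏ k ∈ (univ.erase i).erase j, (1 + C (θ k) * X)) ≤
      lam (∏ k, (1 + C (θ k) * X)) *
        lam1 (X ^ 2 * ∏ k ∈ (univ.erase i).erase j, (1 + C (θ k) * X)) := by
    intro i j hij
    have hγij : γ i ≠ γ j := fun h => hij (γi h)
    have h1 := twin_cone hB hρ he hed hl hl1 y y0 (by rw [rzy, hsumy, hsum]) (gp i) (gp j) hγij
      (by rw [yγ]; exact hθ i) (by rw [yγ]; exact hθ j) (fun v hv hρv hve => by
        refine ih _ ?_ ?_ ?_ (γ i) v (gp i) ?_ hv hρv hve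
        · intro u
          have h1 := y0 (γ i)
          have h2 := y0 (γ j)
          have h3 := y0 u
          split_ifs
          · exact le_rfl
          · linarith
          · exact h3
        · intro u hu
          rw [if_neg (by rintro rfl; exact hu (gp j)), if_neg (by rintro rfl; exact hu (gp i)),
            ynp u hu]
        · refine lt_of_lt_of_le (Finset.card_lt_card ?_) hcnt
          rw [Finset.ssubset_iff_of_subset]
          · refine ⟨γ j, mem_filter.mpr ⟨mem_univ _, ?_⟩, ?_⟩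
            · rw [yγ]
              exact (hθ j).ne'
            · rw [mem_filter]
              push Not
              intro _
              rw [if_pos rfl]
          · intro u hu
            rw [mem_filter] at hu ⊢
            refine ⟨mem_univ u, fun h0 => hu.2 ?_⟩
            beta_reduce
            by_cases h1 : u = γ j
            · rw [if_pos h1]
            rw [if_neg h1]
            by_cases h2 : u = γ i
            · exfalso
              rw [h2, yγ] at h0
              exact (hθ i).ne' h0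
            · rw [if_neg h2, h0]
        · rw [if_neg hγij, if_pos rfl, yγ, yγ]
          exact add_pos (hθ i) (hθ j))
    rw [rzy, prodγ univ univ (fun k => by simp),
      prodγ ((univ.erase (γ i)).erase (γ j)) ((univ.erase i).erase j) (fun k => by
        simp only [Finset.mem_erase, mem_univ, and_true]
        constructor
        · rintro ⟨h1, h2⟩
          exact ⟨fun h => h1 (by rw [h]), fun h => h2 (by rw [h])⟩
        · rintro ⟨h1, h2⟩
          exact ⟨fun h => h1 (γi h), fun h => h2 (γi h)⟩)] at h1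
    exact h1
  -- the combination
  set P0 : ℝ[X] := ∏ i, (1 + C (θ i) * X) with hP0
  have hlF : ∀ μ : ℝ[X] →ₗ[ℝ] ℝ, μ F = F.eval 0 * μ P0 := by
    intro μ
    conv_lhs => rw [hFp]
    rw [C_mul', map_smul, smul_eq_mul]
  have hTl : ∀ μ : ℝ[X] →ₗ[ℝ] ℝ, μ U = ∑ i, ∑ j ∈ univ.erase i, κ i j *
      μ (X ^ 2 * ∏ k ∈ (univ.erase i).erase j, (1 + C (θ k) * X)) := by
    intro μ
    rw [hT, map_sum]
    refine Finset.sum_congr rfl fun i _ => ?_
    rw [map_sum]
    refine Finset.sum_congr rfl fun j _ => ?_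
    rw [C_mul', map_smul, smul_eq_mul]
  have h5 : lam1 P0 * lam U ≤ lam P0 * lam1 U := by
    rw [hTl lam, hTl lam1, Finset.mul_sum, Finset.mul_sum]
    refine Finset.sum_le_sum fun i _ => ?_
    rw [Finset.mul_sum, Finset.mul_sum]
    refine Finset.sum_le_sum fun j hj => ?_
    rw [Finset.mem_erase] at hj
    have h6 := mul_le_mul_of_nonneg_left (key i j hj.1.symm) (hκ i j)
    linarith
  rw [hlF lam, hlF lam1, mul_assoc, mul_assoc]
  exact mul_le_mul_of_nonneg_left h5 hF0.le

/-- The first edge outside `p`, the second edge inside `p`. -/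
theorem case2_gen (hlam : ∀ (p : V → Prop) (B : Sym2 V → ℝ) (ρ : V → ℝ) (m : ℝ),
      ∃ lam, IsLam p B ρ m lam)
    (p : V → Prop) {A B : Sym2 V → ℝ} (hA : ∀ g, 0 ≤ A g) (hB : ∀ g, 0 ≤ B g)
    {x ρ : V → ℝ} (hρ : ∀ v, 0 ≤ ρ v) {c d : V} (hc : p c) (hd : p d)
    (hcd : c ≠ d) {e : Sym2 V} (he : ∀ v ∈ e, ¬ p v) (hed : ¬ e.IsDiag)
    (hM : ∀ F F1 : ℝ[X], (∀ l, Zs (rW p A) (fun v => l * rz p x v) = F.eval l) →
      (∀ l, Zs (cw c d (rW p A)) (fun v => l * mv (rz p x) c d v) = F1.eval l) →
      ∃ (J : Type) (_ : Fintype J) (w : J → ℝ) (U : J → ℝ[X]), (∀ s, 0 ≤ w s) ∧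
        (∀ s, Cone2 F (U s)) ∧ C (F1.eval 0) * F - C (F.eval 0) * F1 = ∑ s, C (w s) * U s)
    (ih : ∀ y : V → ℝ, (∀ v, 0 ≤ y v) → (∀ v, ¬ p v → y v = 0) → cnt y < cnt (rz p x) →
      ∀ i v, p i → 0 < y i → ¬ p v → 0 < ρ v → v ∉ e →
      0 ≤ Ray (glue p (fun _ => 0) B (jz p y ρ)) e s(i, v)) :
    0 ≤ Ray (glue p A B (jz p x ρ)) e s(c, d) := by
  have hrA : ∀ g, 0 ≤ rW p A g := fun g => by
    unfold rW
    split_ifs
    · exact hA g
    · exact le_rfl
  obtain ⟨F, _, hF, _, hFd⟩ := exists_hub (rW p A) (rz p x) c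
  obtain ⟨F1, _, hF1, _, _⟩ := exists_hub (cw c d (rW p A)) (mv (rz p x) c d) c
  obtain ⟨lam, hl⟩ := hlam p B ρ (∑ v, rz p x v)
  obtain ⟨lam1, hl1⟩ := hlam p (Function.update B e (B e + 1)) ρ (∑ v, rz p x v)
  rw [ray_lam he hl hl1 A x rfl hc hd hcd F F1 hF hF1]
  have hF0 : 0 < F.eval 0 := by
    rw [← hF]
    exact Zs_pos hrA fun v => by rw [zero_mul]
  obtain ⟨J, _, w, U, hw, hU, hT⟩ := hM F F1 hF hF1
  have hTl : ∀ μ : ℝ[X] →ₗ[ℝ] ℝ, F1.eval 0 * μ F - F.eval 0 * μ F1 = ∑ s, w s * μ (U s) := by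
    intro μ
    have h1 := congrArg μ hT
    rw [map_sub, C_mul', C_mul', map_smul, map_smul, smul_eq_mul, smul_eq_mul, map_sum] at h1
    rw [h1]
    refine Finset.sum_congr rfl fun i _ => ?_
    rw [C_mul', map_smul, smul_eq_mul]
  have h5 : 0 ≤ lam F * (F1.eval 0 * lam1 F - F.eval 0 * lam1 F1) -
      lam1 F * (F1.eval 0 * lam F - F.eval 0 * lam F1) := by
    rw [hTl lam, hTl lam1, Finset.mul_sum, Finset.mul_sum, ← Finset.sum_sub_distrib]
    refine Finset.sum_nonneg fun s _ => ?_
    have h6 := mul_le_mul_of_nonneg_left (cone2_le hA hB hρ he hed hl hl1 hF hFd (hU s) ih) (hw s)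
    linarith
  have h8 : 0 ≤ F.eval 0 * (lam1 F * lam F1 - lam F * lam1 F1) := by
    linarith
  exact nonneg_of_mul_nonneg_right h8 hF0

end Pool.Agent.MJ
end
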