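import Mathlib
import Pool.Agent.Lib.MP_d90615_co.Mg.G008
import Pool.Agent.Lib.MP_d90615_co.Mg.G003
import Pool.Agent.Lib.MP_d90615_co.Mg.G011
import Pool.Agent.Lib.MP_d90615_co.Mg.G012
import Pool.Agent.Lib.MP_d90615_co.Mg.G006

section

/-!
The hub polynomials of a join of two classes.
-/

set_option autoImplicit false
set_option linter.unusedSectionVars false

namespace Pool.Agent.MJ

open Finset Polynomial
open scoped Classical
open Pool.Agent.PW (Z N N2 Ray cw pw mv)

/-- The statement about two classes of product type. -/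
def ConeK : Prop :=
  ∀ (m n : ℕ) (θ1 : Fin m → ℝ) (θ2 : Fin n → ℝ), (∀ i, 0 < θ1 i) → (∀ i, 0 < θ2 i) →
    ∀ (j : Fin m) (k : Fin n) (F E : ℝ[X]),
    (∀ l, F.eval l = Lam (∑ i, θ1 i + ∑ i, θ2 i + l) ((1 + C l * X) *
      (T 1 (sh (∑ i, θ1 i) (Pf univ θ1 + Qf univ θ1)) *
        T 1 (sh (∑ i, θ2 i) (Pf univ θ2 + Qf univ θ2))))) →
    (∀ l, E.eval l = (T (-1) ((1 + C l * X) *
      (T 1 (sh (∑ i, θ1 i) (Af θ1 j)) * T 1 (sh (∑ i, θ2 i) (Af θ2 k))))).eval
        (∑ i, θ1 i + ∑ i, θ2 i + l)) →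
    Cone2 F (C (F.eval 0) * E - C (E.eval 0) * F)

section Filter

variable {J J' : Type*} [Fintype J] [Fintype J'] {M : Type*}

lemma prod_pos_equiv [CommMonoid M] (θ : J → ℝ) (e : J' ≃ {i // θ i ≠ 0}) (f : J → M)
    (hf : ∀ i, θ i = 0 → f i = 1) : ∏ i, f (e i) = ∏ i, f i := by
  rw [Equiv.prod_comp e (fun i : {i // θ i ≠ 0} => f i),
    ← Finset.prod_subtype (univ.filter fun i => θ i ≠ 0) (by simp) f]
  refine Finset.prod_subset (Finset.subset_univ _) fun i _ hi => hf i ?_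
  by_contra h
  exact hi (by simp [h])

lemma sum_pos_equiv [AddCommMonoid M] (θ : J → ℝ) (e : J' ≃ {i // θ i ≠ 0}) (f : J → M)
    (hf : ∀ i, θ i = 0 → f i = 0) : ∑ i, f (e i) = ∑ i, f i := by
  rw [Equiv.sum_comp e (fun i : {i // θ i ≠ 0} => f i),
    ← Finset.sum_subtype (univ.filter fun i => θ i ≠ 0) (by simp) f]
  refine Finset.sum_subset (Finset.subset_univ _) fun i _ hi => hf i ?_
  by_contra h
  exact hi (by simp [h])

lemma prod_erase_pos_equiv [CommMonoid M] (θ : J → ℝ) (e : J' ≃ {i // θ i ≠ 0}) (f : J → M)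
    (hf : ∀ i, θ i = 0 → f i = 1) (j : J') :
    ∏ i ∈ univ.erase j, f (e i) = ∏ i ∈ univ.erase (e j : J), f i := by
  have h1 := prod_pos_equiv θ e (fun i => if i = e j then 1 else f i) (fun i hi => by
    split_ifs
    · rfl
    · exact hf i hi)
  have h2 : ∏ i ∈ univ.erase j, f (e i) = ∏ i, if (e i : J) = e j then 1 else f (e i) := by
    rw [← Finset.prod_subset (Finset.erase_subset j univ)]
    · refine Finset.prod_congr rfl fun i hi => ?_
      rw [Finset.mem_erase] at hi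
      rw [if_neg]
      intro h
      exact hi.1 (e.injective (Subtype.ext h))
    · intro i _ hi
      have : i = j := by
        by_contra h
        exact hi (Finset.mem_erase.mpr ⟨h, Finset.mem_univ i⟩)
      rw [this, if_pos rfl]
  have h3 : ∏ i ∈ univ.erase (e j : J), f i = ∏ i : J, if i = (e j : J) then 1 else f i := by
    rw [← Finset.prod_subset (Finset.erase_subset (e j : J) univ)]
    · refine Finset.prod_congr rfl fun i hi => ?_
      rw [Finset.mem_erase] at hi
      rw [if_neg hi.1]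
    · intro i _ hi
      have : i = e j := by
        by_contra h
        exact hi (Finset.mem_erase.mpr ⟨h, Finset.mem_univ i⟩)
      rw [this, if_pos rfl]
  rw [h2, h3]
  exact h1

lemma Pf_pos_equiv (θ : J → ℝ) (e : J' ≃ {i // θ i ≠ 0}) :
    Pf univ (fun i => θ (e i)) = Pf univ θ := by
  unfold Pf
  exact prod_pos_equiv θ e (fun i => (1 + C (θ i) * X : ℝ[X])) fun i hi => by
    rw [hi, C_0, zero_mul, add_zero]

lemma Pf_erase_pos_equiv (θ : J → ℝ) (e : J' ≃ {i // θ i ≠ 0}) (j : J') :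
    Pf (univ.erase j) (fun i => θ (e i)) = Pf (univ.erase (e j : J)) θ := by
  unfold Pf
  exact prod_erase_pos_equiv θ e (fun i => (1 + C (θ i) * X : ℝ[X])) (fun i hi => by
    rw [hi, C_0, zero_mul, add_zero]) j

lemma Qf_pos_equiv (θ : J → ℝ) (e : J' ≃ {i // θ i ≠ 0}) :
    Qf univ (fun i => θ (e i)) = Qf univ θ := by
  have h1 := sum_pos_equiv θ e (fun j => C (θ j ^ 2) * Pf (univ.erase j) θ) fun i hi => by
    rw [hi, zero_pow two_ne_zero, C_0, zero_mul]
  unfold Qf
  show ∑ j, C (θ (e j) ^ 2) * Pf (univ.erase j) (fun i => θ (e i)) = _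
  rw [Finset.sum_congr rfl fun j _ => by rw [Pf_erase_pos_equiv θ e j]]
  exact h1

lemma Af_pos_equiv (θ : J → ℝ) (e : J' ≃ {i // θ i ≠ 0}) (j : J') :
    Af (fun i => θ (e i)) j = Af θ (e j) := by
  unfold Af
  rw [Pf_erase_pos_equiv θ e j]

end Filter

section Cls

variable {V : Type*} [Fintype V]

/-- The two polynomials of one class, positive parameters. -/
lemma class_poly_pos (W : Sym2 V → ℝ) (hW : ∀ g, 0 ≤ W g) (x : V → ℝ) (hx : ∀ v, 0 ≤ x v)
    (a : V) (ha : 0 < x a) :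
    ∃ (n : ℕ) (θ κ : Fin n → ℝ) (c : ℝ), 0 < c ∧ (∀ i, 0 < θ i) ∧ (∀ i, 0 ≤ κ i) ∧
      ∑ i, θ i = ∑ v, x v ∧
      (∀ μ, Zs (fun g => W g - pw x g) (fun v => μ * x v) =
        (C c * T 1 (sh (∑ i, θ i) (Pf univ θ + Qf univ θ))).eval μ) ∧
      (∀ μ, Zs (fun g => W g - pw x g) (fun v => μ * x v) -
        Gs (fun g => W g - pw x g) (fun v => μ * x v) a =
        μ * (C c * ∑ i, C (κ i) * T 1 (sh (∑ i, θ i) (Af θ i))).eval μ) := by
  obtain ⟨n, θ, κ, c, hc, hθ, hκ, hsum, h1, h2⟩ := class_poly W hW x hx a ha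
  set e := (Fintype.equivFin {i // θ i ≠ 0}).symm with he
  have hS : ∑ i, θ (e i) = ∑ i, θ i := sum_pos_equiv θ e θ fun i hi => hi
  refine ⟨_, fun i => θ (e i), fun i => κ (e i), c, hc,
    fun i => lt_of_le_of_ne (hθ _) (Ne.symm (e i).2), fun i => hκ _, ?_, fun μ => ?_, fun μ => ?_⟩
  · rw [← hsum]
    exact hS
  · rw [h1 μ, hS, Pf_pos_equiv, Qf_pos_equiv]
  · rw [h2 μ, hS]
    congr 3
    have h3 := sum_pos_equiv θ e (fun i => C (κ i) * T 1 (sh (∑ i, θ i) (Af θ i)))
      fun i hi => by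
        have : Af θ i = 0 := by
          unfold Af
          rw [hi, C_0, zero_mul]
        rw [this]
        unfold sh
        rw [zero_comp, map_zero, mul_zero]
    rw [← h3]
    refine Finset.sum_congr rfl fun i _ => ?_
    rw [Af_pos_equiv]

end Cls

section Join

variable {V : Type*} [Fintype V]

lemma rW_true (p : V → Prop) (hp : ∀ v, p v) (W : Sym2 V → ℝ) : rW p W = W := by
  funext g
  unfold rW
  rw [if_pos fun v _ => hp v]

lemma rz_true (p : V → Prop) (hp : ∀ v, p v) (z : V → ℝ) : rz p z = z := by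
  funext g
  unfold rz
  rw [if_pos (hp g)]

/-- **The hub polynomials of a join.** -/
theorem join_cone_of (hK : ConeK) (W : Sym2 V → ℝ) (hW : ∀ g, 0 ≤ W g) (x : V → ℝ)
    (hx : ∀ v, 0 ≤ x v) (q : V → Prop) (hk : ∀ u v, q u → ¬ q v → W s(u, v) = x u * x v)
    {c d : V} (hc : q c) (hd : ¬ q d) (hxc : 0 < x c) (hxd : 0 < x d) (F F1 : ℝ[X])
    (hF : ∀ l, Zs W (fun v => l * x v) = F.eval l)
    (hF1 : ∀ l, Zs (cw c d W) (fun v => l * mv x c d v) = F1.eval l) :
    ∃ (J : Type) (_ : Fintype J) (w : J → ℝ) (T : J → ℝ[X]), (∀ s, 0 ≤ w s) ∧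
      (∀ s, Cone2 F (T s)) ∧
      C (F1.eval 0) * F - C (F.eval 0) * F1 = ∑ s, C (w s) * T s := by
  have : Nonempty V := ⟨c⟩
  have hcd : c ≠ d := by
    rintro rfl
    exact hd hc
  set Y : Sym2 V → ℝ := fun g => W g - pw x g with hY
  have hY0 : ∀ u v, q u → ¬ q v → Y s(u, v) = 0 := by
    intro u v hu hv
    show W s(u, v) - pw x s(u, v) = 0
    rw [hk u v hu hv, Pool.Agent.PW.pw_mk, sub_self]
  have hYW : (fun g => Y g + pw x g) = W := by
    funext g
    show W g - pw x g + pw x g = W g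
    ring
  -- the classes
  have hcls : ∀ (p : V → Prop) (a : V), p a → 0 < x a →
      ∃ (n : ℕ) (θ κ : Fin n → ℝ) (b : ℝ),
      0 < b ∧ (∀ i, 0 < θ i) ∧ (∀ i, 0 ≤ κ i) ∧
      ∑ j, θ j = ∑ v, rz p x v ∧
      (∀ μ, Zs (rW p Y) (rz p (fun v => μ * x v)) =
        (C b * T 1 (sh (∑ j, θ j) (Pf univ θ + Qf univ θ))).eval μ) ∧
      (∀ μ, Zs (rW p Y) (rz p (fun v => μ * x v)) - Gs (rW p Y) (rz p (fun v => μ * x v)) a =
        μ * (C b * ∑ j, C (κ j) * T 1 (sh (∑ j, θ j) (Af θ j))).eval μ) := by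
    intro p a ha hxa
    have h1 := class_poly_pos (rW p W) (fun g => by
      unfold rW
      split_ifs
      · exact hW g
      · exact le_refl 0) (rz p x) (fun v => by
      unfold rz
      split_ifs
      · exact hx v
      · exact le_refl 0) a (by
      unfold rz
      rw [if_pos ha]
      exact hxa)
    obtain ⟨n, θ, κ, b, hb, hθ, hκ, hsum, h2, h3⟩ := h1
    refine ⟨n, θ, κ, b, hb, hθ, hκ, hsum, fun μ => ?_, fun μ => ?_⟩
    · rw [rz_mul, rW_sub_pw]
      exact h2 μ
    · rw [rz_mul, rW_sub_pw]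
      exact h3 μ
  obtain ⟨n1, θ1, κ1, b1, hb1, hθ1, hκ1, hs1, hr1, hm1⟩ := hcls q c hc hxc
  obtain ⟨n2, θ2, κ2, b2, hb2, hθ2, hκ2, hs2, hr2, hm2⟩ := hcls (fun v => ¬ q v) d hd hxd
  set S1 := ∑ i, θ1 i with hS1
  set S2 := ∑ i, θ2 i with hS2
  have hS : ∑ v, x v = S1 + S2 := by
    rw [hs1, hs2, ← Finset.sum_add_distrib]
    refine Finset.sum_congr rfl fun v _ => ?_
    unfold rz
    by_cases h : q v
    · simp [h]
    · simp [h]
  set r1 : ℝ[X] := T 1 (sh S1 (Pf univ θ1 + Qf univ θ1)) with hr1def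
  set r2 : ℝ[X] := T 1 (sh S2 (Pf univ θ2 + Qf univ θ2)) with hr2def
  set M1 : Fin n1 → ℝ[X] := fun j => T 1 (sh S1 (Af θ1 j)) with hM1def
  set M2 : Fin n2 → ℝ[X] := fun j => T 1 (sh S2 (Af θ2 j)) with hM2def
  set m1 : ℝ[X] := C b1 * ∑ j, C (κ1 j) * M1 j with hm1def
  set m2 : ℝ[X] := C b2 * ∑ j, C (κ2 j) * M2 j with hm2def
  -- one weight
  have hp : ∀ t μ, Zs (Function.update Y s(c, d) t) (fun v => μ * x v) =
      (C (1 + t) * (C b1 * r1 * (C b2 * r2)) - C t * (X * m1 * (X * m2))).eval μ := by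
    intro t μ
    have h1 := Zs_pair q (fun v => ¬ q v) (fun v h => not_not_intro h) Y (fun v => μ * x v) hY0 hc
      hd t
    rw [rW_true _ (fun v => em (q v)), rz_true _ (fun v => em (q v))] at h1
    rw [h1, hm1, hm2, hr1, hr2]
    simp only [eval_mul, eval_sub, eval_C, eval_X]
  -- the hub polynomials
  have hFl : ∀ l, F.eval l = b1 * b2 * Lam (S1 + S2 + l) ((1 + C l * X) * (r1 * r2)) := by
    intro l
    have h1 : ∀ μ, Zs Y (fun v => μ * x v) = (C (b1 * b2) * (r1 * r2)).eval μ := by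
      intro μ
      have h2 := hp 0 μ
      rw [← hY0 c d hc hd, Function.update_eq_self, hY0 c d hc hd] at h2
      rw [h2]
      simp only [eval_mul, eval_sub, eval_C, eval_X, C_mul]
      ring
    have h3 := lemmaA_hub Y x _ h1 l
    rw [hYW, hF, hS] at h3
    rw [h3, ← Lam_C_mul]
    congr 1
    ring
  have hEl : ∀ l, (F - F1).eval l = (T (-1) ((1 + C l * X) * (m1 * m2))).eval (S1 + S2 + l) := by
    intro l
    have h1 := Zs_del W hcd (x c * x d - 1) (fun v => l * x v)
    have h2 : ∀ v, mv (fun v => l * x v) c d v = l * mv x c d v := by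
      intro v
      unfold mv
      split_ifs
      · rw [mul_zero]
      · rw [mul_add]
      · rfl
    rw [Zs_congr2 (fun _ _ => rfl) h2, hF1, hF, hk c d hc hd] at h1
    have h3 : Function.update W s(c, d) (x c * x d - 1) =
        fun g => Function.update Y s(c, d) (-1) g + pw x g := by
      funext g
      by_cases h4 : g = s(c, d)
      · subst h4
        rw [Function.update_self, Function.update_self, Pool.Agent.PW.pw_mk]
        ring
      · rw [Function.update_of_ne h4, Function.update_of_ne h4]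
        show W g = W g - pw x g + pw x g
        ring
    have h4 := lemmaA_hub (Function.update Y s(c, d) (-1)) x _ (hp (-1)) l
    rw [← h3, hS] at h4
    rw [h4] at h1
    rw [eval_sub, h1, ← Lam_X_sq]
    have h5 : (1 + C l * X) * (C (1 + -1) * (C b1 * r1 * (C b2 * r2)) -
        C (-1) * (X * m1 * (X * m2))) = X ^ 2 * ((1 + C l * X) * (m1 * m2)) := by
      simp only [C_add, C_neg, C_1]
      ring
    rw [h5]
    ring
  -- the parts
  set F' : ℝ[X] := C (b1 * b2)⁻¹ * F with hF'def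
  have hbb : b1 * b2 ≠ 0 := (mul_pos hb1 hb2).ne'
  have hFF' : F = C (b1 * b2) * F' := by
    rw [hF'def, ← mul_assoc, ← C_mul, mul_inv_cancel₀ hbb, C_1, one_mul]
  have hF' : ∀ l, F'.eval l = Lam (S1 + S2 + l) ((1 + C l * X) * (r1 * r2)) := by
    intro l
    rw [hF'def, eval_mul, eval_C, hFl l, ← mul_assoc, inv_mul_cancel₀ hbb, one_mul]
  set Ep : ℝ[X] → ℝ[X] := fun M => (T (-1) M).comp (X + C (S1 + S2)) +
    X * (T (-1) (X * M)).comp (X + C (S1 + S2)) with hEp
  have hEp1 : ∀ M l, (Ep M).eval l = (T (-1) ((1 + C l * X) * M)).eval (S1 + S2 + l) := by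
    intro M l
    have h1 : (1 + C l * X) * M = M + C l * (X * M) := by ring
    rw [h1, map_add, T_C_mul, hEp]
    simp only [eval_add, eval_mul, eval_X, eval_C, eval_comp]
    rw [add_comm l (S1 + S2)]
  have hEpadd : ∀ M N, Ep (M + N) = Ep M + Ep N := by
    intro M N
    rw [hEp]
    simp only [mul_add, map_add, add_comp]
    ring
  have hEpC : ∀ b M, Ep (C b * M) = C b * Ep M := by
    intro b M
    rw [hEp]
    have h1 : X * (C b * M) = C b * (X * M) := by ring
    simp only [h1, T_C_mul, mul_comp, C_comp]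
    ring
  have hEp0 : Ep 0 = 0 := by
    rw [hEp]
    simp
  have hEpsum : ∀ (s : Finset (Fin n1 × Fin n2)) (f : Fin n1 × Fin n2 → ℝ[X]),
      Ep (∑ i ∈ s, f i) = ∑ i ∈ s, Ep (f i) := by
    intro s f
    induction s using Finset.induction_on with
    | empty => rw [Finset.sum_empty, Finset.sum_empty, hEp0]
    | insert i s hi ih => rw [Finset.sum_insert hi, Finset.sum_insert hi, hEpadd, ih]
  have hFF1 : F - F1 = C (b1 * b2) *
      ∑ i : Fin n1 × Fin n2, C (κ1 i.1 * κ2 i.2) * Ep (M1 i.1 * M2 i.2) := by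
    have h1 : F - F1 = Ep (m1 * m2) := Polynomial.funext fun l => by rw [hEl, hEp1]
    have h2 : m1 * m2 = C (b1 * b2) *
        ∑ i : Fin n1 × Fin n2, C (κ1 i.1 * κ2 i.2) * (M1 i.1 * M2 i.2) := by
      rw [hm1def, hm2def]
      have h3 : (∑ j, C (κ1 j) * M1 j) * (∑ j, C (κ2 j) * M2 j) =
          ∑ i : Fin n1 × Fin n2, C (κ1 i.1 * κ2 i.2) * (M1 i.1 * M2 i.2) := by
        rw [Finset.sum_mul_sum, ← Finset.univ_product_univ, Finset.sum_product]
        refine Finset.sum_congr rfl fun i _ => Finset.sum_congr rfl fun j _ => ?_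
        rw [C_mul]
        ring
      rw [← h3, C_mul]
      ring
    rw [h1, h2, hEpC, hEpsum]
    congr 1
    refine Finset.sum_congr rfl fun i _ => ?_
    rw [hEpC]
  have hcone : ∀ i : Fin n1 × Fin n2,
      Cone2 F' (C (F'.eval 0) * Ep (M1 i.1 * M2 i.2) - C ((Ep (M1 i.1 * M2 i.2)).eval 0) * F') := by
    intro i
    exact hK n1 n2 θ1 θ2 hθ1 hθ2 i.1 i.2 F' _ hF' fun l => hEp1 _ l
  refine ⟨Fin n1 × Fin n2, inferInstance, fun i => (b1 * b2) ^ 2 * (κ1 i.1 * κ2 i.2),
    fun i => C (F'.eval 0) * Ep (M1 i.1 * M2 i.2) - C ((Ep (M1 i.1 * M2 i.2)).eval 0) * F',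
    fun i => mul_nonneg (sq_nonneg _) (mul_nonneg (hκ1 _) (hκ2 _)), fun i => ?_, ?_⟩
  · obtain ⟨N, θ, κ, hθ, hκ, h1, h2⟩ := hcone i
    refine ⟨N, θ, κ, hθ, hκ, ?_, h2⟩
    have h3 : F.eval 0 = b1 * b2 * F'.eval 0 := by
      rw [hFF', eval_mul, eval_C]
    rw [h3, C_mul, mul_assoc, ← h1]
    exact hFF'
  · have h1 : F1 = F - (F - F1) := by ring
    have h2 : C (F1.eval 0) * F - C (F.eval 0) * F1 =
        C (F.eval 0) * (F - F1) - C ((F - F1).eval 0) * F := by
      rw [eval_sub, C_sub]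
      ring
    rw [h2, hFF1, hFF']
    simp only [eval_mul, eval_C, eval_finsetSum, Finset.mul_sum, map_sum, Finset.sum_mul,
      ← Finset.sum_sub_distrib, C_mul]
    refine Finset.sum_congr rfl fun i _ => ?_
    simp only [C_pow, C_mul]
    ring

end Join

end Pool.Agent.MJ
end

section

/-!
The hub polynomial with two marks: common roots, and a small change of one weight.
-/

set_option autoImplicit false
set_option linter.unusedSectionVars false

namespace Pool.Agent.MJ

open Finset Polynomial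
open scoped Classical
open Pool.Agent.PW (Z N N2 Ray cw pw mv ct)
open Pool.Agent.TW (Conc prod_erase_ite conc_main)

section Form

lemma eval_lin_pos {ρ x : ℝ} (hρ : 0 ≤ ρ) (hx : 0 ≤ x) : 0 < (1 + C ρ * X : ℝ[X]).eval x := by
  simp only [eval_add, eval_one, eval_mul, eval_C, eval_X]
  positivity

lemma aeval_lin (ρ : ℝ) (z : ℂ) : aeval z (1 + C ρ * X : ℝ[X]) = 1 + (ρ : ℂ) * z := by
  simp

lemma lin_ne {ρ : ℝ} (hρ : 0 ≤ ρ) {z : ℂ} (hz : 0 < z.im) : (1 : ℂ) + (ρ : ℂ) * z ≠ 0 := by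
  intro h
  have h1 := congrArg Complex.im h
  have h2 := congrArg Complex.re h
  simp only [Complex.add_im, Complex.one_im, Complex.mul_im, Complex.ofReal_re,
    Complex.ofReal_im, zero_mul, add_zero, zero_add, Complex.zero_im] at h1
  have h3 : ρ = 0 := by
    rcases mul_eq_zero.1 h1 with h | h
    · exact h
    · exact absurd h hz.ne'
  rw [h3] at h2
  simp at h2

lemma conc_pos {f w : ℝ[X]} (h : Conc f w) (h0 : 0 < f.eval 0) {x : ℝ} (hx : 0 ≤ x) :
    0 < f.eval x := by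
  obtain ⟨n, ρ, κ, hρ, hκ, hf, hw⟩ := h
  rw [hf, eval_mul, eval_C, eval_prod]
  exact mul_pos h0 (Finset.prod_pos fun i _ => eval_lin_pos (hρ i) hx)

lemma conc_up {f w : ℝ[X]} (h : Conc f w) (h0 : 0 < f.eval 0) {z : ℂ} (hz : 0 < z.im) :
    aeval z f ≠ 0 := by
  obtain ⟨n, ρ, κ, hρ, hκ, hf, hw⟩ := h
  rw [hf, map_mul, aeval_C, map_prod]
  refine mul_ne_zero (by simpa using h0.ne') (Finset.prod_ne_zero_iff.mpr fun i _ => ?_)
  rw [aeval_lin]
  exact lin_ne (hρ i) hz

lemma im_term {ρ : ℝ} (hρ : 0 ≤ ρ) {z : ℂ} (hz : 0 < z.im) :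
    0 ≤ ((ρ : ℂ) * z / (1 + (ρ : ℂ) * z)).im := by
  have h1 := lin_ne hρ hz
  have h2 : (ρ : ℂ) * z / (1 + (ρ : ℂ) * z) = 1 - (1 + (ρ : ℂ) * z)⁻¹ := by
    field_simp
    ring
  rw [h2, Complex.sub_im, Complex.one_im, Complex.inv_im]
  simp only [Complex.add_im, Complex.one_im, Complex.mul_im, Complex.ofReal_re,
    Complex.ofReal_im, zero_mul, add_zero, zero_add]
  have h3 : 0 ≤ ρ * z.im := mul_nonneg hρ hz.le
  have h4 := Complex.normSq_nonneg (1 + (ρ : ℂ) * z)
  rw [zero_sub, neg_div, neg_neg]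
  exact div_nonneg h3 h4

lemma conc_im {f w : ℝ[X]} (h : Conc f w) (h0 : 0 < f.eval 0) {z : ℂ} (hz : 0 < z.im) :
    0 ≤ (z * aeval z w / aeval z f).im := by
  obtain ⟨n, ρ, κ, hρ, hκ, hf, hw⟩ := h
  have h1 : z * aeval z w / aeval z f =
      ∑ i, (κ i : ℂ) * ((ρ i : ℂ) * z / (1 + (ρ i : ℂ) * z)) := by
    have hf' : aeval z f = ((f.eval 0 : ℝ) : ℂ) * ∏ i, (1 + (ρ i : ℂ) * z) := by
      conv_lhs => rw [hf]
      rw [map_mul, aeval_C, map_prod]
      simp only [aeval_lin, Complex.coe_algebraMap]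
    have hw' : aeval z w = ∑ i, ((f.eval 0 * κ i * ρ i : ℝ) : ℂ) *
        ∏ j ∈ univ.erase i, (1 + (ρ j : ℂ) * z) := by
      conv_lhs => rw [hw]
      rw [map_sum]
      refine Finset.sum_congr rfl fun i _ => ?_
      rw [map_mul, aeval_C, map_prod]
      simp only [aeval_lin, Complex.coe_algebraMap]
    have h2 : ∀ i, (1 : ℂ) + (ρ i : ℂ) * z ≠ 0 := fun i => lin_ne (hρ i) hz
    have h3 : (∏ i, (1 + (ρ i : ℂ) * z)) ≠ 0 := Finset.prod_ne_zero_iff.mpr fun i _ => h2 i
    have h4 : ((f.eval 0 : ℝ) : ℂ) ≠ 0 := by exact_mod_cast h0.ne'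
    rw [hf', hw', div_eq_iff (mul_ne_zero h4 h3), Finset.mul_sum, Finset.sum_mul]
    refine Finset.sum_congr rfl fun i _ => ?_
    rw [← Finset.mul_prod_erase univ (fun j => 1 + (ρ j : ℂ) * z) (mem_univ i)]
    have h6 : (κ i : ℂ) * ((ρ i : ℂ) * z / (1 + (ρ i : ℂ) * z)) * (((f.eval 0 : ℝ) : ℂ) *
        ((1 + (ρ i : ℂ) * z) * ∏ j ∈ univ.erase i, (1 + (ρ j : ℂ) * z))) =
        (κ i : ℂ) * (((f.eval 0 : ℝ) : ℂ) * ∏ j ∈ univ.erase i, (1 + (ρ j : ℂ) * z)) *
          ((ρ i : ℂ) * z / (1 + (ρ i : ℂ) * z) * (1 + (ρ i : ℂ) * z)) := by ring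
    rw [h6, div_mul_cancel₀ _ (h2 i)]
    push_cast
    ring
  rw [h1, Complex.im_sum]
  refine Finset.sum_nonneg fun i _ => ?_
  rw [Complex.im_ofReal_mul]
  exact mul_nonneg (hκ i) (im_term (hρ i) hz)

lemma conc_deg {f w : ℝ[X]} (h : Conc f w) (h0 : 0 < f.eval 0) : w.degree < f.degree := by
  obtain ⟨n, ρ, κ, hρ, hκ, hf, hw⟩ := h
  have hf0 : f ≠ 0 := by
    rintro rfl
    simp at h0
  rw [hw]
  refine lt_of_le_of_lt (degree_sum_le _ _) ?_
  rw [Finset.sup_lt_iff (bot_lt_iff_ne_bot.mpr (degree_ne_bot.mpr hf0))]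
  intro i _
  by_cases hi : ρ i = 0
  · rw [hi, mul_zero, C_0, zero_mul, degree_zero]
    exact bot_lt_iff_ne_bot.mpr (degree_ne_bot.mpr hf0)
  · set g := ∏ j ∈ univ.erase i, (1 + C (ρ j) * X) with hg
    have h1 : f = C (f.eval 0) * ((1 + C (ρ i) * X) * g) := by
      conv_lhs => rw [hf]
      rw [hg, Finset.mul_prod_erase univ (fun j => (1 + C (ρ j) * X : ℝ[X])) (mem_univ i)]
    have hg0 : g ≠ 0 := by
      intro h
      apply hf0
      rw [h1, h, mul_zero, mul_zero]
    have h2 : (1 + C (ρ i) * X : ℝ[X]).degree = 1 := by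
      rw [add_comm]
      exact degree_linear hi
    have h3 : f.degree = 1 + g.degree := by
      conv_lhs => rw [h1]
      rw [degree_C_mul h0.ne', degree_mul, h2]
    rw [h3]
    refine lt_of_le_of_lt (degree_mul_le _ _) (lt_of_le_of_lt (add_le_add_left degree_C_le _) ?_)
    rw [zero_add, degree_eq_natDegree hg0]
    exact_mod_cast Nat.lt_one_add_iff.mpr le_rfl

/-- The average of two marks. -/
theorem conc_add {f u v w : ℝ[X]} (hu : Conc f u) (hv : Conc f v) (h0 : 0 < f.eval 0)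
    (hw : C 2 * w = u + v) : Conc f w := by
  have hw' : w = C (1 / 2) * (u + v) := by
    rw [← hw, ← mul_assoc, ← C_mul]
    norm_num
  refine conc_main f.natDegree f w rfl (fun x hx => conc_pos hu h0 hx) ?_
    (fun z hz => conc_up hu h0 hz) ?_
  · rw [hw']
    rw [degree_C_mul (by norm_num)]
    exact lt_of_le_of_lt (degree_add_le _ _) (max_lt (conc_deg hu h0) (conc_deg hv h0))
  · intro z hz e he h
    have h1 := conc_up hu h0 hz
    have h2 := conc_im hu h0 hz
    have h3 := conc_im hv h0 hz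
    have he0 : e ≠ 0 := by
      rintro rfl
      simp at he
    have h4 : z * aeval z w / aeval z f = 1 + e⁻¹ := by
      rw [div_eq_iff h1]
      have h5 : e * (z * aeval z w) = e * ((1 + e⁻¹) * aeval z f) := by
        rw [show e * ((1 + e⁻¹) * aeval z f) = (e + e * e⁻¹) * aeval z f by ring,
          mul_inv_cancel₀ he0]
        linear_combination -h
      exact mul_left_cancel₀ he0 h5
    have h5 : z * aeval z w / aeval z f =
        ((1 / 2 : ℝ) : ℂ) * (z * aeval z u / aeval z f + z * aeval z v / aeval z f) := by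
      rw [hw', map_mul, aeval_C, map_add, Complex.coe_algebraMap]
      ring
    have h6 := congrArg Complex.im h4
    rw [h5, Complex.im_ofReal_mul, Complex.add_im, Complex.add_im, Complex.one_im,
      Complex.inv_im] at h6
    have h7 : 0 < e.im / Complex.normSq e := div_pos he (Complex.normSq_pos.mpr he0)
    rw [zero_add, neg_div] at h6
    linarith

/-- The zero roots may be omitted. -/
theorem conc_strict {f w : ℝ[X]} (h : Conc f w) (h0 : 0 < f.eval 0) :
    ∃ (n : ℕ) (θ κ : Fin n → ℝ), (∀ i, 0 < θ i) ∧ (∀ i, 0 ≤ κ i) ∧ n = f.natDegree ∧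
      f = C (f.eval 0) * ∏ i, (1 + C (θ i) * X) ∧
      w = C (f.eval 0) * ∑ i, C (κ i * θ i) * ∏ j ∈ univ.erase i, (1 + C (θ j) * X) := by
  obtain ⟨m, ρ, κ, hρ, hκ, hf, hw⟩ := h
  set s : Finset (Fin m) := univ.filter fun i => 0 < ρ i with hs
  set e : Fin s.card ≃ {i // i ∈ s} := s.equivFin.symm with he
  have hpos : ∀ i, 0 < ρ (e i).1 := fun i => (mem_filter.mp (e i).2).2
  have hz : ∀ i, i ∉ s → ρ i = 0 := by
    intro i hi
    rw [hs, mem_filter] at hi
    push Not at hi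
    exact le_antisymm (hi (mem_univ i)) (hρ i)
  have hprod : ∀ g : Fin m → ℝ[X], (∀ i, i ∉ s → g i = 1) →
      ∏ i, g (e i).1 = ∏ i, g i := by
    intro g hg
    rw [Equiv.prod_comp e (fun i => g i.1), Finset.prod_coe_sort s g]
    exact Finset.prod_subset (Finset.subset_univ s) fun i _ hi => hg i hi
  have hsum : ∀ g : Fin m → ℝ[X], (∀ i, i ∉ s → g i = 0) →
      ∑ i, g (e i).1 = ∑ i, g i := by
    intro g hg
    rw [Equiv.sum_comp e (fun i => g i.1), Finset.sum_coe_sort s g]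
    exact Finset.sum_subset (Finset.subset_univ s) fun i _ hi => hg i hi
  have hlin : ∀ i, i ∉ s → (1 + C (ρ i) * X : ℝ[X]) = 1 := by
    intro i hi
    rw [hz i hi, C_0, zero_mul, add_zero]
  have e1 : f = C (f.eval 0) * ∏ i, (1 + C (ρ (e i).1) * X) := by
    conv_lhs => rw [hf]
    rw [hprod (fun i => 1 + C (ρ i) * X) hlin]
  refine ⟨s.card, fun i => ρ (e i).1, fun i => κ (e i).1, hpos, fun i => hκ _, ?_, e1, ?_⟩
  · rw [e1, natDegree_C_mul, natDegree_prod]
    · have h1 : ∀ i, (1 + C (ρ (e i).1) * X : ℝ[X]).natDegree = 1 := by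
        intro i
        rw [add_comm]
        exact natDegree_linear (hpos i).ne'
      simp [h1]
    · intro i _ h
      have := congrArg (Polynomial.eval 0) h
      simp at this
    · simpa using h0.ne'
  · conv_lhs => rw [hw]
    rw [Finset.mul_sum, ← hsum (fun i => C (f.eval 0 * κ i * ρ i) *
      ∏ j ∈ univ.erase i, (1 + C (ρ j) * X)) (fun i hi => by rw [hz i hi, mul_zero, C_0, zero_mul])]
    refine Finset.sum_congr rfl fun i _ => ?_
    have h1 : ∏ j ∈ univ.erase (e i).1, (1 + C (ρ j) * X : ℝ[X]) =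
        ∏ j ∈ univ.erase i, (1 + C (ρ (e j).1) * X) := by
      rw [prod_erase_ite, prod_erase_ite,
        ← hprod (fun j => if j = (e i).1 then 1 else 1 + C (ρ j) * X) (fun j hj => by
          rw [hlin j hj, ite_self])]
      refine Finset.prod_congr rfl fun j _ => ?_
      by_cases hj : j = i
      · rw [hj, if_pos rfl, if_pos rfl]
      · rw [if_neg hj, if_neg fun h => hj (e.injective (Subtype.ext h))]
    rw [h1, ← mul_assoc, ← C_mul, mul_assoc]

end Form

section Marks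

variable {V : Type*} [Fintype V]

/-- One mark. -/
theorem conc_mark (W : Sym2 V → ℝ) (hW : ∀ g, 0 ≤ W g) (x : V → ℝ) (hx : ∀ v, 0 ≤ x v) (a : V)
    (ha : 0 < x a) (F Fa : ℝ[X]) (hF : ∀ l, Zs W (fun v => l * x v) = F.eval l)
    (hFa : ∀ l, Gs W (fun v => l * x v) a = Fa.eval l) :
    0 < F.eval 0 ∧ ∃ Ra : ℝ[X], X * Ra = F - Fa ∧ Conc F Ra := by
  obtain ⟨n, θ, κ, c, hc, hθ, hκ, hsum, hZ, hG⟩ := rowH W hW x hx a ha
  have h1 : F = C c * ∏ i, (1 + C (θ i) * X) := by
    refine Polynomial.funext fun l => ?_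
    rw [← hF, hZ, eval_mul, eval_C, eval_prod]
    simp only [eval_add, eval_one, eval_mul, eval_C, eval_X]
  have h0 : F.eval 0 = c := by
    rw [← hF, hZ]
    simp
  refine ⟨h0 ▸ hc, C c * ∑ i, C (κ i) * (C (θ i) * ∏ j ∈ univ.erase i, (1 + C (θ j) * X)), ?_,
    n, θ, κ, hθ, hκ, ?_, ?_⟩
  · refine Polynomial.funext fun l => ?_
    rw [eval_sub, ← hF, ← hFa, hZ, hG, eval_mul, eval_X, eval_mul, eval_C, eval_finsetSum,
      sub_sub_cancel]
    congr 2
    refine Finset.sum_congr rfl fun i _ => ?_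
    rw [eval_mul, eval_C, eval_mul, eval_C, eval_prod]
    simp only [eval_add, eval_one, eval_mul, eval_C, eval_X]
  · rw [h0]
    exact h1
  · rw [h0, Finset.mul_sum]
    refine Finset.sum_congr rfl fun i _ => ?_
    rw [C_mul, C_mul]
    ring

/-- **Two marks with the same roots.** -/
theorem two_mark_form (W : Sym2 V → ℝ) (hW : ∀ g, 0 ≤ W g) (x : V → ℝ) (hx : ∀ v, 0 ≤ x v)
    (a b : V) (ha : 0 < x a) (hb : 0 < x b) (F Fa Fb R : ℝ[X])
    (hF : ∀ l, Zs W (fun v => l * x v) = F.eval l)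
    (hFa : ∀ l, Gs W (fun v => l * x v) a = Fa.eval l)
    (hFb : ∀ l, Gs W (fun v => l * x v) b = Fb.eval l)
    (hR : C 2 * (X * R) = (F - Fa) + (F - Fb)) :
    0 < F.eval 0 ∧ ∃ (n : ℕ) (θ κ : Fin n → ℝ), (∀ i, 0 < θ i) ∧ (∀ i, 0 ≤ κ i) ∧
      n = F.natDegree ∧ F = C (F.eval 0) * ∏ i, (1 + C (θ i) * X) ∧
      R = C (F.eval 0) * ∑ i, C (κ i * θ i) * ∏ j ∈ univ.erase i, (1 + C (θ j) * X) := by
  obtain ⟨h0, Ra, hRa, hca⟩ := conc_mark W hW x hx a ha F Fa hF hFa
  obtain ⟨-, Rb, hRb, hcb⟩ := conc_mark W hW x hx b hb F Fb hF hFb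
  refine ⟨h0, conc_strict (conc_add hca hcb h0 ?_) h0⟩
  refine mul_left_cancel₀ (X_ne_zero (R := ℝ)) ?_
  rw [mul_add, hRa, hRb, ← hR]
  ring

/-- The degree of the hub polynomial. -/
lemma coeff_hub (n : ℕ) : ∀ (W : Sym2 V → ℝ) (x : V → ℝ), supp W = n → (∀ g, 0 ≤ W g) →
    (∀ v, 0 ≤ x v) → ∀ p : ℝ[X], (∀ μ, Zs W (fun v => μ * x v) = p.eval μ) →
    (∀ k, 0 ≤ p.coeff k) ∧ 0 < p.coeff (cnt x) := by
  induction n using Nat.strong_induction_on with
  | _ n ih =>
    intro W x hn hW0 hx p hp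
    by_cases hW : ∀ g : Sym2 V, ¬ g.IsDiag → W g = 0
    · have h1 : p = ∏ v, (1 + C (x v) * X) := by
        refine Polynomial.funext fun μ => ?_
        rw [← hp, Zs_congr (W' := fun _ => 0) hW, Zs_zero, eval_prod]
        refine Finset.prod_congr rfl fun v _ => ?_
        simp only [eval_add, eval_one, eval_mul, eval_C, eval_X]
        ring
      have key : ∀ s : Finset V, (∀ k, 0 ≤ (∏ v ∈ s, (1 + C (x v) * X)).coeff k) ∧
          0 < (∏ v ∈ s, (1 + C (x v) * X)).coeff (s.filter fun v => x v ≠ 0).card := by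
        intro s
        induction s using Finset.induction_on with
        | empty =>
          rw [Finset.prod_empty, Finset.filter_empty, Finset.card_empty]
          refine ⟨fun k => ?_, ?_⟩
          · rw [coeff_one]
            split_ifs
            · exact zero_le_one
            · exact le_rfl
          · simp
        | insert a s ha ih' =>
          obtain ⟨i1, i2⟩ := ih'
          rw [Finset.prod_insert ha]
          set q := ∏ v ∈ s, (1 + C (x v) * X) with hq
          have h2 : ∀ k, 0 ≤ (C (x a) * (X * q)).coeff k := by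
            intro k
            rw [coeff_C_mul]
            refine mul_nonneg (hx a) ?_
            cases k with
            | zero => rw [coeff_X_mul_zero]
            | succ k =>
              rw [coeff_X_mul]
              exact i1 k
          have h3 : (1 + C (x a) * X) * q = q + C (x a) * (X * q) := by ring
          rw [h3]
          refine ⟨fun k => ?_, ?_⟩
          · rw [coeff_add]
            exact add_nonneg (i1 k) (h2 k)
          · rw [coeff_add, Finset.filter_insert]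
            by_cases hxa : x a = 0
            · rw [if_neg (not_not.mpr hxa)]
              exact add_pos_of_pos_of_nonneg i2 (h2 _)
            · rw [if_pos hxa, Finset.card_insert_of_notMem (fun h => ha (mem_filter.mp h).1),
                coeff_C_mul, coeff_X_mul]
              exact add_pos_of_nonneg_of_pos (i1 _)
                (mul_pos (lt_of_le_of_ne (hx a) (Ne.symm hxa)) i2)
      rw [h1]
      exact key univ
    · obtain ⟨b, c, hbc, hWg⟩ := exists_pair hW
      have hg0 : ¬ (s(b, c)).IsDiag := by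
        rw [Sym2.mk_isDiag_iff]
        exact hbc
      obtain ⟨p0, _, h0, _, _⟩ := exists_hub (Function.update W s(b, c) 0) x b
      obtain ⟨p1, _, h1, _, _⟩ := exists_hub (cw b c W) (mv x b c) b
      have d0 := ih _ (by rw [← hn]; exact supp_update hg0 hWg) _ x rfl (fun g => by
        by_cases h : g = s(b, c)
        · rw [h, Function.update_self]
        · rw [Function.update_of_ne h]
          exact hW0 g) hx p0 h0
      have d1 := ih _ (by rw [← hn]; exact supp_cw hbc hWg) _ (mv x b c) rfl (fun g => by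
        unfold cw
        exact Finset.sum_nonneg fun e _ => hW0 e) (fun v => by
        unfold mv
        split_ifs
        · exact le_rfl
        · exact add_nonneg (hx _) (hx _)
        · exact hx _) p1 h1
      have h2 : p = p0 + C (W s(b, c)) * p1 := by
        refine Polynomial.funext fun μ => ?_
        rw [← hp, Zs_del W hbc 0, h0, eval_add, eval_mul, eval_C, ← h1]
        rw [sub_zero]
        congr 3
        funext v
        exact mv_smul μ x b c v
      rw [h2]
      refine ⟨fun k => ?_, ?_⟩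
      · rw [coeff_add, coeff_C_mul]
        exact add_nonneg (d0.1 k) (mul_nonneg (hW0 _) (d1.1 k))
      · rw [coeff_add, coeff_C_mul]
        exact add_pos_of_pos_of_nonneg d0.2 (mul_nonneg (hW0 _) (d1.1 _))

/-- The degree of the hub polynomial is the number of the vertices with positive mass. -/
theorem natDegree_hub_eq (W : Sym2 V → ℝ) (hW : ∀ g, 0 ≤ W g) (x : V → ℝ) (hx : ∀ v, 0 ≤ x v)
    (p : ℝ[X]) (hp : ∀ μ, Zs W (fun v => μ * x v) = p.eval μ) : p.natDegree = cnt x :=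
  le_antisymm (natDegree_hub _ W x rfl p hp)
    (le_natDegree_of_ne_zero (coeff_hub _ W x rfl hW hx p hp).2.ne')

lemma cw_nonneg' {W : Sym2 V → ℝ} (hW : ∀ g, 0 ≤ W g) (a b : V) (g : Sym2 V) :
    0 ≤ cw a b W g := by
  unfold cw
  exact Finset.sum_nonneg fun e _ => hW e

lemma mv_nonneg' {x : V → ℝ} (hx : ∀ v, 0 ≤ x v) (a b v : V) : 0 ≤ mv x a b v := by
  unfold mv
  split_ifs
  · exact le_rfl
  · exact add_nonneg (hx _) (hx _)
  · exact hx _

theorem natDegree_contr (W : Sym2 V → ℝ) (hW : ∀ g, 0 ≤ W g) (x : V → ℝ) (hx : ∀ v, 0 ≤ x v)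
    (a b : V) (F F1 : ℝ[X]) (hF : ∀ l, Zs W (fun v => l * x v) = F.eval l)
    (hF1 : ∀ l, Zs (cw a b W) (fun v => l * mv x a b v) = F1.eval l) :
    F1.natDegree ≤ F.natDegree ∧ (F - F1).natDegree ≤ F.natDegree := by
  have h1 : F1.natDegree ≤ F.natDegree := by
    rw [natDegree_hub_eq W hW x hx F hF,
      natDegree_hub_eq (cw a b W) (cw_nonneg' hW a b) (mv x a b) (mv_nonneg' hx a b) F1 hF1]
    exact cnt_mv x
  exact ⟨h1, (natDegree_sub_le _ _).trans (max_le le_rfl h1)⟩

/-- A small change of the weight of `a b`. -/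
theorem splits_near (W : Sym2 V → ℝ) (hW : ∀ g, 0 ≤ W g) (x : V → ℝ) (hx : ∀ v, 0 ≤ x v)
    {a b : V} (hab : a ≠ b) (hpos : 0 < W s(a, b)) (ha : 0 < x a) (F F1 : ℝ[X])
    (hF : ∀ l, Zs W (fun v => l * x v) = F.eval l)
    (hF1 : ∀ l, Zs (cw a b W) (fun v => l * mv x a b v) = F1.eval l) :
    ∃ ε : ℝ, 0 < ε ∧ ∀ s : ℝ, |s| < ε → (F - C s * (F - F1)).Splits := by
  have key : ∀ t : ℝ, 0 ≤ W s(a, b) + t → (F + C t * F1).Splits := by
    intro t ht
    obtain ⟨n, θ, κ, c, hc, hθ, hκ, hsum, hZ, hG⟩ := rowH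
      (Function.update W s(a, b) (W s(a, b) + t)) (fun g => by
        by_cases h : g = s(a, b)
        · rw [h, Function.update_self]
          exact ht
        · rw [Function.update_of_ne h]
          exact hW g) x hx a ha
    have h1 : F + C t * F1 = C c * ∏ i, (1 + C (θ i) * X) := by
      refine Polynomial.funext fun l => ?_
      rw [eval_mul, eval_C, eval_prod, eval_add, eval_mul, eval_C, ← hF, ← hF1]
      have h2 := Zs_split W hab t fun v => l * x v
      rw [hZ] at h2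
      simp only [eval_add, eval_one, eval_mul, eval_C, eval_X]
      rw [h2]
      congr 3
      funext v
      exact (mv_smul l x a b v).symm
    rw [h1]
    refine Splits.mul (Splits.C c) (Splits.prod fun i _ => ?_)
    refine Splits.of_natDegree_le_one ?_
    refine (natDegree_add_le _ _).trans ?_
    rw [natDegree_one]
    exact max_le (Nat.zero_le 1) ((natDegree_C_mul_le _ _).trans natDegree_X_le)
  refine ⟨min (1 / 2) (W s(a, b) / 2), lt_min (by norm_num) (by linarith), fun s hs => ?_⟩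
  obtain ⟨h1, h2⟩ := lt_min_iff.mp hs
  have h3 := abs_lt.mp h1
  have h4 := abs_lt.mp h2
  have h5 : 0 < 1 - s := by linarith [h3.2]
  have h6 : F - C s * (F - F1) = C (1 - s) * (F + C (s / (1 - s)) * F1) := by
    have h7 : C (1 - s) * C (s / (1 - s)) = (C s : ℝ[X]) := by
      rw [← C_mul, mul_div_cancel₀ _ h5.ne']
    rw [mul_add, ← mul_assoc, h7, C_sub, C_1]
    ring
  rw [h6]
  refine Splits.mul (Splits.C _) (key _ ?_)
  have h7 : W s(a, b) + s / (1 - s) = (W s(a, b) * (1 - s) + s) / (1 - s) := by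
    rw [add_div, mul_div_cancel_right₀ _ h5.ne']
  rw [h7]
  refine div_nonneg ?_ h5.le
  nlinarith [h3.1, h3.2, h4.1, h4.2]

end Marks

end Pool.Agent.MJ
end
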