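import Mathlib
import Pool.Agent.Lib.MP_d90615_co.Mg.G008

section

/-!
A double zero of a real-rooted polynomial in a real-rooted pencil.
-/

set_option autoImplicit false
set_option linter.unusedSectionVars false

namespace Pool.Agent.MJ

open Finset Polynomial
open scoped Classical

/-- Laguerre's identity. -/
theorem laguerre_pencil (R : Multiset ℝ) (a : ℝ) (hR : ∀ r ∈ R, a - r ≠ 0) :
    ((R.map fun r => (X - C r : ℝ[X])).prod).eval a ≠ 0 ∧
    (derivative ((R.map fun r => (X - C r : ℝ[X])).prod)).eval a ^ 2 -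
      ((R.map fun r => (X - C r : ℝ[X])).prod).eval a *
      (derivative (derivative ((R.map fun r => (X - C r : ℝ[X])).prod))).eval a =
      ((R.map fun r => (X - C r : ℝ[X])).prod).eval a ^ 2 *
        (R.map fun r => ((a - r) ^ 2)⁻¹).sum := by
  induction R using Multiset.induction_on with
  | empty => simp
  | cons r R ih =>
    obtain ⟨h0, h1⟩ := ih fun r hr => hR r (Multiset.mem_cons_of_mem hr)
    have hr : a - r ≠ 0 := hR r (Multiset.mem_cons_self r R)
    set q : ℝ[X] := (R.map fun r => (X - C r : ℝ[X])).prod with hq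
    rw [Multiset.map_cons, Multiset.prod_cons, ← hq, Multiset.map_cons, Multiset.sum_cons]
    have e1 : ((X - C r) * q).eval a = (a - r) * q.eval a := by simp
    have e2 : (derivative ((X - C r) * q)).eval a = q.eval a + (a - r) * (derivative q).eval a := by
      simp [derivative_mul]
    have e3 : (derivative (derivative ((X - C r) * q))).eval a =
        2 * (derivative q).eval a + (a - r) * (derivative (derivative q)).eval a := by
      simp [derivative_mul]
      ring
    rw [e1, e2, e3]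
    refine ⟨mul_ne_zero hr h0, ?_⟩
    set S := (R.map fun r => ((a - r) ^ 2)⁻¹).sum
    have e4 : ((a - r) * q.eval a) ^ 2 * (((a - r) ^ 2)⁻¹ + S) =
        q.eval a ^ 2 + (a - r) ^ 2 * (q.eval a ^ 2 * S) := by
      field_simp
    rw [e4, ← h1]
    ring

theorem prod_lower (R : Multiset ℝ) (a B : ℝ) (hB : 0 < B) (hR : ∀ r ∈ R, a - r ≠ 0)
    (hS : (R.map fun r => ((a - r) ^ 2)⁻¹).sum ≤ B) :
    (1 / B) ^ (Multiset.card R) ≤ ((R.map fun r => (X - C r : ℝ[X])).prod).eval a ^ 2 := by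
  induction R using Multiset.induction_on with
  | empty => simp
  | cons r R ih =>
    have hr : a - r ≠ 0 := hR r (Multiset.mem_cons_self r R)
    have hR' : ∀ r ∈ R, a - r ≠ 0 := fun r hr => hR r (Multiset.mem_cons_of_mem hr)
    rw [Multiset.map_cons, Multiset.sum_cons] at hS
    have h1 : 0 ≤ (R.map fun r => ((a - r) ^ 2)⁻¹).sum := by
      refine Multiset.sum_nonneg fun y hy => ?_
      obtain ⟨r', _, rfl⟩ := Multiset.mem_map.1 hy
      positivity
    have h2 : 0 < ((a - r) ^ 2)⁻¹ := by positivity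
    have h3 := ih hR' (by linarith)
    have h4 : 1 / B ≤ (a - r) ^ 2 := by
      rw [div_le_iff₀ hB]
      have h5 : ((a - r) ^ 2)⁻¹ ≤ B := by linarith
      have h6 : 0 < (a - r) ^ 2 := by positivity
      calc (1 : ℝ) = (a - r) ^ 2 * ((a - r) ^ 2)⁻¹ := (mul_inv_cancel₀ h6.ne').symm
        _ ≤ (a - r) ^ 2 * B := mul_le_mul_of_nonneg_left h5 h6.le
    set q : ℝ[X] := (R.map fun r => (X - C r : ℝ[X])).prod with hq
    rw [Multiset.map_cons, Multiset.prod_cons, ← hq, Multiset.card_cons, pow_succ]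
    have e1 : ((X - C r) * q).eval a = (a - r) * q.eval a := by simp
    rw [e1, mul_pow, mul_comm]
    exact mul_le_mul h4 h3 (by positivity) (by positivity)

/-- In a pencil of real-rooted polynomials a double zero is a common zero. -/
theorem common_zero {P Q : ℝ[X]} {ε : ℝ} (hε : 0 < ε) (hP : P ≠ 0)
    (hdeg : Q.natDegree ≤ P.natDegree)
    (hs : ∀ s : ℝ, |s| < ε → (P - C s * Q).Splits) {a : ℝ} (h0 : P.eval a = 0)
    (h1 : (derivative P).eval a = 0) : Q.eval a = 0 := by
  by_contra hq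
  set q := Q.eval a with hqd
  set q' := (derivative Q).eval a with hq'd
  set q'' := (derivative (derivative Q)).eval a with hq''d
  set p'' := (derivative (derivative P)).eval a with hp''d
  set N := P.natDegree with hN
  set c := P.leadingCoeff with hc
  have hc0 : c ≠ 0 := leadingCoeff_ne_zero.2 hP
  set B : ℝ := |(q' ^ 2 - q * q'') / q ^ 2| + 1 with hB
  have hB0 : 0 < B := by positivity
  -- a small parameter of the right sign
  obtain ⟨s, hs0, hsε, hsgn, hlc, hsm⟩ : ∃ s : ℝ, s ≠ 0 ∧ |s| < ε ∧ p'' / (s * q) ≤ 0 ∧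
      |s * Q.coeff N| ≤ |c| / 2 ∧ s ^ 2 * q ^ 2 < (|c| / 2) ^ 2 * (1 / B) ^ N := by
    set K : ℝ := (|c| / 2) ^ 2 * (1 / B) ^ N with hK
    have hK0 : 0 < K := by positivity
    set δ : ℝ := min (ε / 2) (min (|c| / 2 / (|Q.coeff N| + 1)) (min 1 (K / (2 * q ^ 2)))) with hδ
    have hδ0 : 0 < δ := by
      refine lt_min (by positivity) (lt_min (by positivity) (lt_min one_pos ?_))
      have : 0 < q ^ 2 := by positivity
      positivity
    have hδ1 : δ ≤ ε / 2 := min_le_left _ _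
    have hδ2 : δ ≤ |c| / 2 / (|Q.coeff N| + 1) := le_trans (min_le_right _ _) (min_le_left _ _)
    have hδ3 : δ ≤ 1 := le_trans (min_le_right _ _) (le_trans (min_le_right _ _) (min_le_left _ _))
    have hδ4 : δ ≤ K / (2 * q ^ 2) :=
      le_trans (min_le_right _ _) (le_trans (min_le_right _ _) (min_le_right _ _))
    have key : ∀ s : ℝ, |s| = δ → s ≠ 0 ∧ |s| < ε ∧ |s * Q.coeff N| ≤ |c| / 2 ∧
        s ^ 2 * q ^ 2 < K := by
      intro s hs
      have hq2 : 0 < q ^ 2 := by positivity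
      refine ⟨?_, by rw [hs]; linarith, ?_, ?_⟩
      · intro h
        rw [h, abs_zero] at hs
        linarith
      · rw [abs_mul, hs]
        have h2 : δ * (|Q.coeff N| + 1) ≤ |c| / 2 := by
          rw [le_div_iff₀ (by positivity)] at hδ2
          exact hδ2
        nlinarith [abs_nonneg (Q.coeff N)]
      · have h3 : s ^ 2 = δ ^ 2 := by rw [← hs, sq_abs]
        rw [h3]
        have h4 : δ * (2 * q ^ 2) ≤ K := by
          rw [le_div_iff₀ (by positivity)] at hδ4
          exact hδ4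
        have h5 : δ ^ 2 ≤ δ := by nlinarith
        nlinarith [mul_le_mul_of_nonneg_right h5 hq2.le]
    by_cases h : p'' / q ≤ 0
    · obtain ⟨k1, k2, k3, k4⟩ := key δ (abs_of_pos hδ0)
      refine ⟨δ, k1, k2, ?_, k3, k4⟩
      have : p'' / (δ * q) = (p'' / q) / δ := by
        field_simp
      rw [this]
      exact div_nonpos_of_nonpos_of_nonneg h hδ0.le
    · obtain ⟨k1, k2, k3, k4⟩ := key (-δ) (by rw [abs_neg, abs_of_pos hδ0])
      refine ⟨-δ, k1, k2, ?_, k3, k4⟩
      push Not at h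
      have : p'' / (-δ * q) = -((p'' / q) / δ) := by
        field_simp
      rw [this]
      exact neg_nonpos.2 (div_pos h hδ0).le
  set G := P - C s * Q with hG
  have hGs : G.Splits := hs s hsε
  have hq2 : 0 < q ^ 2 := by positivity
  have g0 : G.eval a = -(s * q) := by
    rw [hG, eval_sub, h0, eval_mul, eval_C]
    ring
  have g1 : (derivative G).eval a = -(s * q') := by
    rw [hG, derivative_sub, derivative_C_mul, eval_sub, h1, eval_mul, eval_C]
    ring
  have g2 : (derivative (derivative G)).eval a = p'' - s * q'' := by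
    rw [hG, derivative_sub, derivative_C_mul, derivative_sub, derivative_C_mul, eval_sub,
      eval_mul, eval_C]
  have hGd : G.natDegree ≤ N := by
    refine le_trans (natDegree_sub_le _ _) (max_le le_rfl ?_)
    exact le_trans (natDegree_C_mul_le _ _) hdeg
  have hGc : |c| / 2 ≤ |G.coeff N| := by
    rw [hG, coeff_sub, coeff_C_mul]
    have : P.coeff N = c := rfl
    rw [this]
    have := abs_sub_abs_le_abs_sub c (s * Q.coeff N)
    linarith
  have hcpos : 0 < |c| := abs_pos.2 hc0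
  have hGN : G.natDegree = N := by
    refine le_antisymm hGd (le_natDegree_of_ne_zero ?_)
    intro h
    rw [h, abs_zero] at hGc
    linarith
  have hGl : |c| / 2 ≤ |G.leadingCoeff| := by
    rw [leadingCoeff, hGN]
    exact hGc
  have hne : ∀ r ∈ G.roots, a - r ≠ 0 := by
    intro r hr h
    have h2 : r = a := by linarith
    have h3 := isRoot_of_mem_roots hr
    rw [h2, IsRoot.def, g0] at h3
    have : s * q = 0 := by linarith
    rcases mul_eq_zero.1 this with h4 | h4
    · exact hs0 h4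
    · exact hq h4
  obtain ⟨l1, l2⟩ := laguerre_pencil G.roots a hne
  set rp : ℝ[X] := (G.roots.map fun r => (X - C r : ℝ[X])).prod with hrp
  have hGrp : G = C G.leadingCoeff * rp := hGs.eq_prod_roots
  set L := G.leadingCoeff with hL
  have hL0 : L ≠ 0 := by
    intro h
    rw [h, abs_zero] at hGl
    linarith
  have e0 : G.eval a = L * rp.eval a := by
    conv_lhs => rw [hGrp]
    rw [eval_mul, eval_C]
  have e1 : (derivative G).eval a = L * (derivative rp).eval a := by
    conv_lhs => rw [hGrp]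
    rw [derivative_C_mul, eval_mul, eval_C]
  have e2 : (derivative (derivative G)).eval a = L * (derivative (derivative rp)).eval a := by
    conv_lhs => rw [hGrp]
    rw [derivative_C_mul, derivative_C_mul, eval_mul, eval_C]
  set sg := (G.roots.map fun r => ((a - r) ^ 2)⁻¹).sum with hsig
  have l3 : (derivative G).eval a ^ 2 - G.eval a * (derivative (derivative G)).eval a =
      G.eval a ^ 2 * sg := by
    rw [e0, e1, e2]
    linear_combination L ^ 2 * l2
  have hsigB : sg ≤ B := by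
    rw [g0, g1, g2] at l3
    have hsq : s * q ≠ 0 := mul_ne_zero hs0 hq
    have h4 : sg = (q' ^ 2 - q * q'') / q ^ 2 + p'' / (s * q) := by
      have h5 : (-(s * q)) ^ 2 ≠ 0 := pow_ne_zero _ (neg_ne_zero.2 hsq)
      have h6 : sg = ((-(s * q')) ^ 2 - -(s * q) * (p'' - s * q'')) / (-(s * q)) ^ 2 := by
        rw [l3]
        field_simp
      rw [h6]
      field_simp
      ring
    rw [h4, hB]
    have := le_abs_self ((q' ^ 2 - q * q'') / q ^ 2)
    linarith
  have h5 := prod_lower G.roots a B hB0 hne hsigB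
  rw [← hrp, ← hGs.natDegree_eq_card_roots, hGN] at h5
  have h6 : G.eval a ^ 2 = L ^ 2 * rp.eval a ^ 2 := by rw [e0]; ring
  rw [g0] at h6
  have h7 : (|c| / 2) ^ 2 ≤ L ^ 2 := by
    rw [← sq_abs L]
    exact pow_le_pow_left₀ (by positivity) hGl 2
  have h8 : (|c| / 2) ^ 2 * (1 / B) ^ N ≤ L ^ 2 * rp.eval a ^ 2 :=
    mul_le_mul h7 h5 (by positivity) (by positivity)
  rw [← h6] at h8
  nlinarith

end Pool.Agent.MJ
end

section

/-!
From one polynomial inequality to the cone of the products with two factors removed.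
-/

set_option autoImplicit false
set_option linter.unusedSectionVars false

namespace Pool.Agent.MJ

open Finset Polynomial
open scoped Classical

variable {ι : Type*} [DecidableEq ι]

/-- `∏ (1 + θ X)` -/
noncomputable def Pp (s : Finset ι) (θ : ι → ℝ) : ℝ[X] := ∏ k ∈ s, (1 + C (θ k) * X)

/-- The cone of the products with two factors removed. -/
def K2 (s : Finset ι) (θ : ι → ℝ) : Set ℝ[X] :=
  {T | ∃ K : ι → ι → ℝ, (∀ i j, 0 ≤ K i j) ∧ T = ∑ i ∈ s, ∑ j ∈ s.erase i,
    C (K i j) * (X ^ 2 * Pp ((s.erase i).erase j) θ)}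

theorem K2_zero (s : Finset ι) (θ : ι → ℝ) : (0 : ℝ[X]) ∈ K2 s θ :=
  ⟨fun _ _ => 0, fun _ _ => le_rfl, by simp⟩

theorem K2_add {s : Finset ι} {θ : ι → ℝ} {T T' : ℝ[X]} (h : T ∈ K2 s θ) (h' : T' ∈ K2 s θ) :
    T + T' ∈ K2 s θ := by
  obtain ⟨K, hK, rfl⟩ := h
  obtain ⟨K', hK', rfl⟩ := h'
  refine ⟨fun i j => K i j + K' i j, fun i j => add_nonneg (hK i j) (hK' i j), ?_⟩
  rw [← Finset.sum_add_distrib]
  refine Finset.sum_congr rfl fun i _ => ?_
  rw [← Finset.sum_add_distrib]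
  refine Finset.sum_congr rfl fun j _ => ?_
  rw [C_add]
  ring

theorem K2_smul {s : Finset ι} {θ : ι → ℝ} {T : ℝ[X]} (h : T ∈ K2 s θ) {c : ℝ} (hc : 0 ≤ c) :
    C c * T ∈ K2 s θ := by
  obtain ⟨K, hK, rfl⟩ := h
  refine ⟨fun i j => c * K i j, fun i j => mul_nonneg hc (hK i j), ?_⟩
  rw [Finset.mul_sum]
  refine Finset.sum_congr rfl fun i _ => ?_
  rw [Finset.mul_sum]
  refine Finset.sum_congr rfl fun j _ => ?_
  rw [C_mul]
  ring

theorem K2_sum {s : Finset ι} {θ : ι → ℝ} {α : Type*} (A : Finset α) (T : α → ℝ[X])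
    (h : ∀ a ∈ A, T a ∈ K2 s θ) : ∑ a ∈ A, T a ∈ K2 s θ := by
  induction A using Finset.induction_on with
  | empty => simpa using K2_zero s θ
  | insert a A ha ih =>
    rw [Finset.sum_insert ha]
    exact K2_add (h a (Finset.mem_insert_self a A))
      (ih fun b hb => h b (Finset.mem_insert_of_mem hb))

theorem K2_basic {s : Finset ι} (θ : ι → ℝ) {i j : ι} (hi : i ∈ s) (hj : j ∈ s) (hij : i ≠ j) :
    X ^ 2 * Pp ((s.erase i).erase j) θ ∈ K2 s θ := by
  refine ⟨fun a b => if a = i ∧ b = j then 1 else 0, fun a b => by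
    beta_reduce
    split_ifs
    · exact zero_le_one
    · exact le_rfl, ?_⟩
  have hj' : j ∈ s.erase i := Finset.mem_erase.2 ⟨Ne.symm hij, hj⟩
  rw [Finset.sum_eq_single_of_mem i hi, Finset.sum_eq_single_of_mem j hj']
  · simp
  · intro b _ hb
    beta_reduce
    rw [if_neg fun h => hb h.2]
    simp
  · intro a _ ha
    refine Finset.sum_eq_zero fun b _ => ?_
    beta_reduce
    rw [if_neg fun h => ha h.1]
    simp

theorem Pp_erase {s : Finset ι} (θ : ι → ℝ) {i : ι} (hi : i ∈ s) :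
    Pp s θ = (1 + C (θ i) * X) * Pp (s.erase i) θ := by
  unfold Pp
  rw [Finset.mul_prod_erase s (fun k => 1 + C (θ k) * X) hi]

theorem K2_mul {s : Finset ι} {θ : ι → ℝ} {i : ι} (hi : i ∈ s) {T : ℝ[X]}
    (h : T ∈ K2 (s.erase i) θ) : (1 + C (θ i) * X) * T ∈ K2 s θ := by
  obtain ⟨K, hK, rfl⟩ := h
  rw [Finset.mul_sum]
  refine K2_sum _ _ fun a ha => ?_
  rw [Finset.mul_sum]
  refine K2_sum _ _ fun b hb => ?_
  rw [Finset.mem_erase] at ha
  rw [Finset.mem_erase, Finset.mem_erase] at hb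
  have h1 : (1 + C (θ i) * X) * (C (K a b) * (X ^ 2 * Pp (((s.erase i).erase a).erase b) θ)) =
      C (K a b) * (X ^ 2 * Pp ((s.erase a).erase b) θ) := by
    have h2 : i ∈ (s.erase a).erase b :=
      Finset.mem_erase.2 ⟨Ne.symm hb.2.1, Finset.mem_erase.2 ⟨Ne.symm ha.1, hi⟩⟩
    rw [Pp_erase θ h2]
    have h3 : ((s.erase a).erase b).erase i = ((s.erase i).erase a).erase b := by
      ext k
      simp only [Finset.mem_erase]
      tauto
    rw [h3]
    ring
  rw [h1]
  exact K2_smul (K2_basic θ ha.2 hb.2.2 (Ne.symm hb.1)) (hK a b)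

theorem eval_Pp (s : Finset ι) (θ : ι → ℝ) (l : ℝ) : (Pp s θ).eval l = ∏ k ∈ s, (1 + θ k * l) := by
  unfold Pp
  rw [eval_prod]
  refine Finset.prod_congr rfl fun k _ => ?_
  simp

/-- the polynomial of the mark -/
noncomputable def Rp (s : Finset ι) (θ κ : ι → ℝ) : ℝ[X] :=
  ∑ i ∈ s, C (κ i * θ i) * Pp (s.erase i) θ

/-- A polynomial inequality outside one point. -/
theorem le_of_ne {p q : ℝ[X]} (a : ℝ) (h : ∀ l, l ≠ a → p.eval l ≤ q.eval l) (l : ℝ) :
    p.eval l ≤ q.eval l := by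
  have hcl : IsClosed {l : ℝ | p.eval l ≤ q.eval l} := isClosed_le p.continuous q.continuous
  have hd : Dense ({a}ᶜ : Set ℝ) := dense_compl_singleton a
  have hsub : ({a}ᶜ : Set ℝ) ⊆ {l : ℝ | p.eval l ≤ q.eval l} := fun l hl => h l hl
  have := hcl.closure_subset_iff.2 hsub
  rw [hd.closure_eq] at this
  exact this (Set.mem_univ l)

/-- The data. -/
structure Dat (s : Finset ι) (θ κ : ι → ℝ) (c : ℝ) (E T2 : ℝ[X]) : Prop where
  hθ : ∀ i ∈ s, 0 < θ i
  hκ : ∀ i ∈ s, 0 ≤ κ i
  hc : 0 < c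
  hT : C c * E - C (E.eval 0) * (C c * Pp s θ) = X ^ 2 * T2
  hdeg : E.natDegree ≤ s.card
  hSS : ∀ l, (Pp s θ).eval l * T2.eval l ≤ c ^ 2 * (Rp s θ κ).eval l ^ 2
  hrr : ∃ ε > 0, ∀ t : ℝ, |t| < ε → (C c * Pp s θ - C t * E).Splits

theorem lin_eq {t : ℝ} (ht : t ≠ 0) : (1 + C t * X : ℝ[X]) = C t * (X - C (-t⁻¹)) := by
  rw [mul_sub, ← C_mul, mul_neg, mul_inv_cancel₀ ht, C_neg, C_1]
  ring

theorem lin_dvd' {t : ℝ} (ht : t ≠ 0) {p : ℝ[X]} (hp : p.eval (-t⁻¹) = 0) :
    ∃ q, p = (1 + C t * X) * q := by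
  obtain ⟨q, hq⟩ := dvd_iff_isRoot.2 (show IsRoot p (-t⁻¹) from hp)
  refine ⟨C t⁻¹ * q, ?_⟩
  rw [lin_eq ht, hq]
  have : (C t * C t⁻¹ : ℝ[X]) = 1 := by rw [← C_mul, mul_inv_cancel₀ ht, C_1]
  linear_combination (-(X - C (-t⁻¹)) * q) * this

/-- One common factor is removed. -/
theorem dat_step {s : Finset ι} {θ κ κ' : ι → ℝ} {c : ℝ} {E T2 : ℝ[X]} (h : Dat s θ κ c E T2)
    {i : ι} (hi : i ∈ s) (hE : E.eval (-(θ i)⁻¹) = 0) (hκ' : ∀ j ∈ s.erase i, 0 ≤ κ' j)
    (hR : Rp s θ κ = (1 + C (θ i) * X) * Rp (s.erase i) θ κ')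
    (ih : ∀ E T2 : ℝ[X], Dat (s.erase i) θ κ' c E T2 → X ^ 2 * T2 ∈ K2 (s.erase i) θ) :
    X ^ 2 * T2 ∈ K2 s θ := by
  have ht := h.hθ i hi
  set t := θ i with htd
  obtain ⟨E1, hE1⟩ := lin_dvd' ht.ne' hE
  set L : ℝ[X] := 1 + C t * X with hL
  have hL0 : L ≠ 0 := by
    intro h0
    have : L.eval 0 = 1 := by simp [hL]
    rw [h0] at this
    simp at this
  have hLe : ∀ l, L.eval l = 1 + t * l := by intro l; simp [hL]
  have hLz : L.eval (-t⁻¹) = 0 := by
    rw [hLe]
    field_simp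
    ring
  have hP : Pp s θ = L * Pp (s.erase i) θ := Pp_erase θ hi
  have hE0 : E.eval 0 = E1.eval 0 := by rw [hE1, eval_mul, hLe]; ring
  have hT2 : T2.eval (-t⁻¹) = 0 := by
    have h1 := congrArg (eval (-t⁻¹)) h.hT
    rw [hP, hE1] at h1
    simp only [eval_sub, eval_mul, eval_C, eval_pow, eval_X, hLz] at h1
    have h2 : (-t⁻¹ : ℝ) ^ 2 ≠ 0 := pow_ne_zero _ (neg_ne_zero.2 (inv_ne_zero ht.ne'))
    have h3 : (-t⁻¹ : ℝ) ^ 2 * T2.eval (-t⁻¹) = 0 := by rw [← h1]; ring
    exact (mul_eq_zero.1 h3).resolve_left h2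
  obtain ⟨T21, hT21⟩ := lin_dvd' ht.ne' hT2
  rw [← hL] at hT21
  have hd : Dat (s.erase i) θ κ' c E1 T21 := by
    refine ⟨fun j hj => h.hθ j (Finset.mem_of_mem_erase hj), hκ', h.hc, ?_, ?_, ?_, ?_⟩
    · refine mul_left_cancel₀ hL0 ?_
      have h1 := h.hT
      rw [hP, hE1, hT21, ← hE1, hE0] at h1
      rw [hE1] at h1
      linear_combination h1
    · by_cases h0 : E1 = 0
      · rw [h0, natDegree_zero]
        exact Nat.zero_le _
      · have h1 := h.hdeg
        rw [hE1, natDegree_mul hL0 h0] at h1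
        have h2 : L.natDegree = 1 := by
          rw [hL, add_comm, ← C_1]
          exact natDegree_linear ht.ne'
        rw [h2] at h1
        rw [Finset.card_erase_of_mem hi]
        omega
    · intro l
      have key : ∀ l, l ≠ -t⁻¹ → (Pp (s.erase i) θ * T21).eval l ≤
          (C (c ^ 2) * Rp (s.erase i) θ κ' ^ 2).eval l := by
        intro l hl
        have h1 := h.hSS l
        rw [hP, hT21, hR] at h1
        simp only [eval_mul, hLe] at h1
        simp only [eval_mul, eval_pow, eval_C]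
        have h2 : 1 + t * l ≠ 0 := by
          intro h3
          apply hl
          field_simp
          linarith
        have h3 : 0 < (1 + t * l) ^ 2 := by positivity
        refine le_of_mul_le_mul_left ?_ h3
        nlinarith [h1]
      have := le_of_ne (-t⁻¹) key l
      simpa only [eval_mul, eval_pow, eval_C] using this
    · obtain ⟨ε, hε, hs⟩ := h.hrr
      have hE0' : 0 < |E.eval 0| + 1 := by positivity
      refine ⟨min ε (c / (|E.eval 0| + 1)), lt_min hε (div_pos h.hc hE0'), fun u hu => ?_⟩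
      have h1 := hs u (lt_of_lt_of_le hu (min_le_left _ _))
      have h2 : C c * Pp s θ - C u * E = L * (C c * Pp (s.erase i) θ - C u * E1) := by
        rw [hP, hE1]
        ring
      rw [h2] at h1
      have h3 : C c * Pp s θ - C u * E ≠ 0 := by
        intro h0
        have h4 := congrArg (eval 0) h0
        simp only [eval_sub, eval_mul, eval_C, eval_zero, eval_Pp, mul_zero, add_zero,
          Finset.prod_const_one, mul_one] at h4
        have h5 : |u| < c / (|E.eval 0| + 1) := lt_of_lt_of_le hu (min_le_right _ _)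
        rw [lt_div_iff₀ hE0'] at h5
        have h6 : c = u * E.eval 0 := by linarith
        have h7 : |u * E.eval 0| ≤ |u| * (|E.eval 0| + 1) := by
          rw [abs_mul]
          nlinarith [abs_nonneg u]
        rw [← h6, abs_of_pos h.hc] at h7
        linarith
      rw [h2] at h3
      exact ((splits_mul (left_ne_zero_of_mul h3) (right_ne_zero_of_mul h3)).1 h1).2
  have h1 := K2_mul hi (ih E1 T21 hd)
  have h2 : X ^ 2 * T2 = L * (X ^ 2 * T21) := by
    rw [hT21]
    ring
  rw [h2]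
  exact h1

end Pool.Agent.MJ
end

section

/-!
The interpolation at the zeros of the marked polynomial.
-/

set_option autoImplicit false
set_option linter.unusedSectionVars false

namespace Pool.Agent.MJ

open Finset Polynomial
open scoped Classical

variable {ι : Type*} [DecidableEq ι]

theorem natDegree_Pp (s : Finset ι) (θ : ι → ℝ) : (Pp s θ).natDegree ≤ s.card := by
  unfold Pp
  refine le_trans (natDegree_prod_le _ _) ?_
  rw [Finset.card_eq_sum_ones]
  refine Finset.sum_le_sum fun i _ => ?_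
  rw [add_comm, ← C_1]
  exact natDegree_linear_le

theorem Pp_swap {s : Finset ι} (θ : ι → ℝ) {i j : ι} (hi : i ∈ s) (hj : j ∈ s) (hij : i ≠ j) :
    C (θ i) * Pp (s.erase i) θ - C (θ j) * Pp (s.erase j) θ =
      C (θ i - θ j) * Pp ((s.erase i).erase j) θ := by
  have h1 : j ∈ s.erase i := Finset.mem_erase.2 ⟨Ne.symm hij, hj⟩
  have h2 : i ∈ s.erase j := Finset.mem_erase.2 ⟨hij, hi⟩
  rw [Pp_erase θ h1, Pp_erase θ h2, Finset.erase_right_comm, C_sub]
  ring

/-- The quotient of the marked polynomial by one of its linear factors. -/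
noncomputable def Rl (s : Finset ι) (θ κ : ι → ℝ) (l : ℝ) : ℝ[X] :=
  -∑ i ∈ s, C (κ i * θ i / (1 + θ i * l)) * (C (θ i) * Pp (s.erase i) θ)

variable {s : Finset ι} {θ κ : ι → ℝ}

theorem Rl_mul {l : ℝ} (hl : ∀ i ∈ s, 1 + θ i * l ≠ 0)
    (h0 : ∑ i ∈ s, κ i * θ i / (1 + θ i * l) = 0) :
    Rp s θ κ = (X - C l) * Rl s θ κ l := by
  unfold Rl Rp
  rw [mul_neg, Finset.mul_sum, ← Finset.sum_neg_distrib]
  have h1 : ∑ i ∈ s, C (κ i * θ i) * Pp (s.erase i) θ =
      ∑ i ∈ s, (C (κ i * θ i / (1 + θ i * l)) * Pp s θ +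
        -((X - C l) * (C (κ i * θ i / (1 + θ i * l)) * (C (θ i) * Pp (s.erase i) θ)))) := by
    refine Finset.sum_congr rfl fun i hi => ?_
    have h2 : C (κ i * θ i) = C (κ i * θ i / (1 + θ i * l)) * (1 + C (θ i) * C l : ℝ[X]) := by
      rw [← C_mul (a := θ i), ← C_1, ← C_add, ← C_mul, div_mul_cancel₀ _ (hl i hi)]
    rw [h2, Pp_erase θ hi]
    ring
  rw [h1, Finset.sum_add_distrib, ← Finset.sum_mul]
  have h3 : ∑ i ∈ s, (C (κ i * θ i / (1 + θ i * l)) : ℝ[X]) = 0 := by
    rw [← map_sum, h0, map_zero]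
  rw [h3, zero_mul, zero_add]

theorem eval_Rp {l : ℝ} (hl : ∀ i ∈ s, 1 + θ i * l ≠ 0) :
    (Rp s θ κ).eval l = (Pp s θ).eval l * ∑ i ∈ s, κ i * θ i / (1 + θ i * l) := by
  unfold Rp
  rw [eval_finsetSum, Finset.mul_sum]
  refine Finset.sum_congr rfl fun i hi => ?_
  rw [Pp_erase θ hi]
  simp only [eval_mul, eval_C, eval_add, eval_one, eval_X]
  have := hl i hi
  field_simp

theorem eval_Rl {l : ℝ} (hl : ∀ i ∈ s, 1 + θ i * l ≠ 0) :
    (Rl s θ κ l).eval l = -((Pp s θ).eval l * ∑ i ∈ s, κ i * θ i ^ 2 / (1 + θ i * l) ^ 2) := by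
  unfold Rl
  rw [eval_neg, eval_finsetSum, Finset.mul_sum]
  congr 1
  refine Finset.sum_congr rfl fun i hi => ?_
  rw [Pp_erase θ hi]
  simp only [eval_mul, eval_C, eval_add, eval_one, eval_X]
  have := hl i hi
  field_simp

theorem natDegree_Rl (l : ℝ) : (Rl s θ κ l).natDegree ≤ s.card - 1 := by
  unfold Rl
  rw [natDegree_neg]
  refine natDegree_sum_le_of_forall_le _ _ fun i hi => ?_
  refine le_trans (natDegree_C_mul_le _ _) (le_trans (natDegree_C_mul_le _ _) ?_)
  refine le_trans (natDegree_Pp _ _) ?_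
  rw [Finset.card_erase_of_mem hi]

/-- The quotient lies in the cone. -/
theorem Rl_mem (hθ : ∀ i ∈ s, 0 < θ i) (hκ : ∀ i ∈ s, 0 < κ i) (hs : s.Nonempty) {l : ℝ}
    (hl : ∀ i ∈ s, 1 + θ i * l ≠ 0) (h0 : ∑ i ∈ s, κ i * θ i / (1 + θ i * l) = 0) :
    X ^ 2 * Rl s θ κ l ∈ K2 s θ := by
  set ν : ι → ℝ := fun i => κ i * θ i / (1 + θ i * l) with hν
  set N := s.filter fun i => ν i < 0 with hN
  set P := s.filter fun i => ¬ ν i < 0 with hP
  have hνne : ∀ i ∈ s, ν i ≠ 0 := fun i hi =>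
    div_ne_zero (mul_pos (hκ i hi) (hθ i hi)).ne' (hl i hi)
  set M := ∑ k ∈ P, ν k with hM
  have hsum : ∑ i ∈ N, ν i + M = 0 := by
    rw [hM, hN, hP, Finset.sum_filter_add_sum_filter_not]
    exact h0
  have hNM : ∑ i ∈ N, -ν i = M := by
    rw [Finset.sum_neg_distrib]
    linarith
  have hMpos : 0 < M := by
    have hM0 : 0 ≤ M := Finset.sum_nonneg fun k hk => by
      rw [hP, Finset.mem_filter] at hk
      exact not_lt.1 hk.2
    refine lt_of_le_of_ne hM0 fun h => ?_
    obtain ⟨i, hi⟩ := hs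
    by_cases hi' : ν i < 0
    · have h1 : 0 < ∑ i ∈ N, -ν i := by
        refine Finset.sum_pos' (fun j hj => ?_) ⟨i, ?_, ?_⟩
        · rw [hN, Finset.mem_filter] at hj
          linarith [hj.2]
        · rw [hN, Finset.mem_filter]
          exact ⟨hi, hi'⟩
        · linarith
      rw [hNM, ← h] at h1
      exact lt_irrefl _ h1
    · have h1 : 0 < M := by
        refine Finset.sum_pos' (fun j hj => ?_) ⟨i, ?_, ?_⟩
        · rw [hP, Finset.mem_filter] at hj
          exact not_lt.1 hj.2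
        · rw [hP, Finset.mem_filter]
          exact ⟨hi, hi'⟩
        · exact lt_of_le_of_ne (not_lt.1 hi') (Ne.symm (hνne i hi))
      rw [← h] at h1
      exact lt_irrefl _ h1
  set H : ι → ℝ[X] := fun i => C (θ i) * Pp (s.erase i) θ with hH
  have e1 : Rl s θ κ l = ∑ i ∈ N, C (-ν i) * H i - ∑ k ∈ P, C (ν k) * H k := by
    unfold Rl
    rw [← Finset.sum_filter_add_sum_filter_not s (fun i => ν i < 0), ← hN, ← hP, neg_add,
      ← Finset.sum_neg_distrib, sub_eq_add_neg]
    congr 1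
    refine Finset.sum_congr rfl fun i _ => ?_
    rw [C_neg, neg_mul]
  have e2 : C M * Rl s θ κ l = ∑ i ∈ N, ∑ k ∈ P, C (-ν i * ν k) * (H i - H k) := by
    have e3 : ∑ i ∈ N, ∑ k ∈ P, C (-ν i * ν k) * (H i - H k) =
        ∑ i ∈ N, (C (-ν i) * H i * C M - C (-ν i) * ∑ k ∈ P, C (ν k) * H k) := by
      refine Finset.sum_congr rfl fun i _ => ?_
      rw [hM, map_sum, Finset.mul_sum, Finset.mul_sum, ← Finset.sum_sub_distrib]
      refine Finset.sum_congr rfl fun k _ => ?_
      rw [C_mul]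
      ring
    rw [e3, Finset.sum_sub_distrib, ← Finset.sum_mul, ← Finset.sum_mul, ← map_sum, hNM, e1]
    ring
  have e4 : X ^ 2 * Rl s θ κ l = C M⁻¹ * ∑ i ∈ N, ∑ k ∈ P,
      C (-ν i * ν k * (θ i - θ k)) * (X ^ 2 * Pp ((s.erase i).erase k) θ) := by
    have e5 : Rl s θ κ l = C M⁻¹ * (C M * Rl s θ κ l) := by
      rw [← mul_assoc, ← C_mul, inv_mul_cancel₀ hMpos.ne', C_1, one_mul]
    rw [e5, e2, mul_left_comm, Finset.mul_sum]
    congr 1
    refine Finset.sum_congr rfl fun i hi => ?_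
    rw [Finset.mul_sum]
    refine Finset.sum_congr rfl fun k hk => ?_
    rw [hN, Finset.mem_filter] at hi
    rw [hP, Finset.mem_filter] at hk
    have hik : i ≠ k := by
      rintro rfl
      exact hk.2 hi.2
    have e6 : H i - H k = C (θ i - θ k) * Pp ((s.erase i).erase k) θ :=
      Pp_swap θ hi.1 hk.1 hik
    rw [e6, C_mul (a := -ν i * ν k)]
    ring
  rw [e4]
  refine K2_smul (K2_sum _ _ fun i hi => K2_sum _ _ fun k hk => ?_) (inv_nonneg.2 hMpos.le)
  rw [hN, Finset.mem_filter] at hi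
  rw [hP, Finset.mem_filter] at hk
  have hik : i ≠ k := by
    rintro rfl
    exact hk.2 hi.2
  refine K2_smul (K2_basic θ hi.1 hk.1 hik) ?_
  have hi1 : 1 + θ i * l < 0 := by
    by_contra h
    push Not at h
    have h1 : 0 ≤ ν i := div_nonneg (mul_pos (hκ i hi.1) (hθ i hi.1)).le h
    linarith [hi.2]
  have hk1 : 0 < 1 + θ k * l := by
    rcases lt_trichotomy (1 + θ k * l) 0 with h | h | h
    · exact absurd (div_neg_of_pos_of_neg (mul_pos (hκ k hk.1) (hθ k hk.1)) h) hk.2
    · exact absurd h (hl k hk.1)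
    · exact h
  have hik2 : 0 ≤ θ i - θ k := by
    by_contra h
    push Not at h
    have hl0 : l < 0 := by
      by_contra h2
      push Not at h2
      have := mul_nonneg (hθ i hi.1).le h2
      linarith
    nlinarith
  have h3 : 0 ≤ ν k := not_lt.1 hk.2
  have h4 : 0 ≤ -ν i := by linarith [hi.2]
  exact mul_nonneg (mul_nonneg h4 h3) hik2

end Pool.Agent.MJ
end
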