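import Mathlib
import Pool.Agent.Lib.MP_d90615_co.Mg.G016
import Pool.Agent.Lib.MP_d90615_co.Mg.G008
import Pool.Agent.Lib.MP_d90615_co.Mg.G007

section

/-!
The cone theorem.
-/

set_option autoImplicit false
set_option linter.unusedSectionVars false

namespace Pool.Agent.MJ

open Finset Polynomial
open scoped Classical

variable {ι : Type*} [DecidableEq ι] {s : Finset ι} {θ κ : ι → ℝ}

theorem coeff_Pp (s : Finset ι) (θ : ι → ℝ) : (Pp s θ).coeff s.card = ∏ k ∈ s, θ k := by
  unfold Pp
  have h := Polynomial.coeff_prod_of_natDegree_le s (fun k => (1 + C (θ k) * X : ℝ[X])) 1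
    (fun k _ => by
      rw [add_comm, ← C_1]
      exact natDegree_linear_le)
  rw [mul_one] at h
  rw [h]
  refine Finset.prod_congr rfl fun k _ => ?_
  rw [coeff_add, coeff_C_mul, coeff_X_one, mul_one, coeff_one]
  simp

theorem natDegree_Rp (hθ : ∀ i ∈ s, 0 < θ i) (hκ : ∀ i ∈ s, 0 < κ i) (hs : s.Nonempty) :
    (Rp s θ κ).natDegree = s.card - 1 := by
  have h1 : (Rp s θ κ).natDegree ≤ s.card - 1 := by
    unfold Rp
    refine natDegree_sum_le_of_forall_le _ _ fun i hi => ?_
    refine le_trans (natDegree_C_mul_le _ _) (le_trans (natDegree_Pp _ _) ?_)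
    rw [Finset.card_erase_of_mem hi]
  refine le_antisymm h1 (le_natDegree_of_ne_zero ?_)
  unfold Rp
  rw [finsetSum_coeff]
  refine ne_of_gt (Finset.sum_pos (fun i hi => ?_) hs)
  rw [coeff_C_mul, ← Finset.card_erase_of_mem hi, coeff_Pp]
  exact mul_pos (mul_pos (hκ i hi) (hθ i hi))
    (Finset.prod_pos fun k hk => hθ k (Finset.mem_of_mem_erase hk))

theorem aeval_Rp_ne (hθ : ∀ i ∈ s, 0 < θ i) (hκ : ∀ i ∈ s, 0 < κ i) (hs : s.Nonempty) {z : ℂ}
    (hz : 0 < z.im) : aeval z (Rp s θ κ) ≠ 0 := by
  have hne : ∀ i ∈ s, (1 + (θ i : ℂ) * z) ≠ 0 := by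
    intro i hi h
    have h1 := congrArg Complex.im h
    simp only [Complex.add_im, Complex.one_im, Complex.mul_im, Complex.ofReal_re,
      Complex.ofReal_im, zero_mul, add_zero, zero_add, Complex.zero_im] at h1
    have := mul_pos (hθ i hi) hz
    linarith
  have h1 : aeval z (Rp s θ κ) =
      (∏ k ∈ s, (1 + (θ k : ℂ) * z)) * ∑ i ∈ s, ((κ i * θ i : ℝ) : ℂ) / (1 + (θ i : ℂ) * z) := by
    unfold Rp Pp
    rw [map_sum, Finset.mul_sum]
    refine Finset.sum_congr rfl fun i hi => ?_
    rw [← Finset.mul_prod_erase s (fun k => (1 + (θ k : ℂ) * z)) hi, map_mul, map_prod]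
    have h2 : ∏ x ∈ s.erase i, aeval z (1 + C (θ x) * X : ℝ[X]) =
        ∏ x ∈ s.erase i, (1 + (θ x : ℂ) * z) := by
      refine Finset.prod_congr rfl fun k _ => ?_
      simp
    rw [h2, aeval_C]
    have h3 := hne i hi
    have h4 : (algebraMap ℝ ℂ) (κ i * θ i) = ((κ i * θ i : ℝ) : ℂ) := rfl
    rw [h4, ← mul_div_assoc, eq_div_iff h3]
    ring
  rw [h1]
  refine mul_ne_zero (Finset.prod_ne_zero_iff.2 hne) ?_
  intro h0
  have h2 := congrArg Complex.im h0
  rw [Complex.im_sum, Complex.zero_im] at h2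
  have h3 : ∑ i ∈ s, (((κ i * θ i : ℝ) : ℂ) / (1 + (θ i : ℂ) * z)).im < 0 := by
    refine Finset.sum_neg (fun i hi => ?_) hs
    rw [Complex.div_im, Complex.ofReal_im, Complex.ofReal_re]
    have h4 : (1 + (θ i : ℂ) * z).im = θ i * z.im := by
      simp
    have h5 : 0 < Complex.normSq (1 + (θ i : ℂ) * z) := Complex.normSq_pos.2 (hne i hi)
    rw [h4, zero_mul, zero_div, zero_sub, neg_lt_zero]
    have := mul_pos (hκ i hi) (hθ i hi)
    have := mul_pos (hθ i hi) hz
    positivity
  linarith

/-- All masses different, all marks positive. -/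
theorem main_case {c : ℝ} {E T2 : ℝ[X]} (h : Dat s θ κ c E T2)
    (hinj : ∀ i ∈ s, ∀ j ∈ s, θ i = θ j → i = j) (hκ : ∀ i ∈ s, 0 < κ i) (hs : s.Nonempty) :
    X ^ 2 * T2 ∈ K2 s θ := by
  have hθ := h.hθ
  set R := Rp s θ κ with hR
  have hRs : R.Splits := splits_of_up fun z hz => aeval_Rp_ne hθ hκ hs hz
  have hRd : R.natDegree = s.card - 1 := natDegree_Rp hθ hκ hs
  have hR0 : R ≠ 0 := by
    intro h0
    refine aeval_Rp_ne (z := Complex.I) hθ hκ hs (by simp) ?_
    rw [← hR, h0, map_zero]
  -- the zeros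
  have hl : ∀ l, R.eval l = 0 → ∀ i ∈ s, 1 + θ i * l ≠ 0 := by
    intro l hl k hk h0
    have h1 : R.eval l = κ k * θ k * ∏ j ∈ s.erase k, (1 + θ j * l) := by
      rw [hR]
      unfold Rp
      rw [eval_finsetSum, Finset.sum_eq_single_of_mem k hk]
      · rw [eval_mul, eval_C, eval_Pp]
      · intro i hi hik
        rw [eval_mul, eval_Pp, Finset.prod_eq_zero (Finset.mem_erase.2 ⟨Ne.symm hik, hk⟩) h0,
          mul_zero]
    rw [hl] at h1
    have h2 : ∏ j ∈ s.erase k, (1 + θ j * l) ≠ 0 := by
      refine Finset.prod_ne_zero_iff.2 fun j hj h3 => ?_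
      rw [Finset.mem_erase] at hj
      have hl0 : l ≠ 0 := by
        rintro rfl
        rw [mul_zero, add_zero] at h0
        exact one_ne_zero h0
      have h4 : θ j = θ k := by
        have h5 : θ j * l = θ k * l := by linarith
        exact mul_right_cancel₀ hl0 h5
      exact hj.1 (hinj j hj.2 k hk h4)
    exact mul_ne_zero (mul_pos (hκ k hk) (hθ k hk)).ne' h2 h1.symm
  have hPne : ∀ l, R.eval l = 0 → (Pp s θ).eval l ≠ 0 := by
    intro l h0
    rw [eval_Pp]
    exact Finset.prod_ne_zero_iff.2 (hl l h0)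
  have hsum : ∀ l, R.eval l = 0 → ∑ i ∈ s, κ i * θ i / (1 + θ i * l) = 0 := by
    intro l h0
    have h1 := eval_Rp (κ := κ) (hl l h0)
    rw [← hR, h0] at h1
    exact (mul_eq_zero.1 h1.symm).resolve_left (hPne l h0)
  have hfac : ∀ l, R.eval l = 0 → R = (X - C l) * Rl s θ κ l := fun l h0 =>
    Rl_mul (hl l h0) (hsum l h0)
  have hDpos : ∀ l, R.eval l = 0 → 0 < ∑ i ∈ s, κ i * θ i ^ 2 / (1 + θ i * l) ^ 2 := by
    intro l h0
    refine Finset.sum_pos (fun i hi => ?_) hs
    have h1 := hl l h0 i hi
    have h2 := hκ i hi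
    have h3 := hθ i hi
    have h4 : 0 < (1 + θ i * l) ^ 2 := by positivity
    positivity
  have hRle : ∀ l, R.eval l = 0 → (Rl s θ κ l).eval l ≠ 0 := by
    intro l h0
    rw [eval_Rl (hl l h0)]
    exact neg_ne_zero.2 (mul_ne_zero (hPne l h0) (hDpos l h0).ne')
  set Z := R.roots.toFinset with hZ
  have hmem : ∀ l, l ∈ Z ↔ R.eval l = 0 := by
    intro l
    rw [hZ, Multiset.mem_toFinset, mem_roots hR0, IsRoot.def]
  have hnd : R.roots.Nodup := by
    rw [Multiset.nodup_iff_count_le_one]
    intro l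
    by_cases hmr : l ∈ R.roots
    · have h0 : R.eval l = 0 := by rwa [mem_roots hR0, IsRoot.def] at hmr
      have h1 : (X - C l) * Rl s θ κ l ≠ 0 := by rw [← hfac l h0]; exact hR0
      rw [hfac l h0, roots_mul h1, roots_X_sub_C, Multiset.count_add, Multiset.count_singleton_self]
      have h2 : l ∉ (Rl s θ κ l).roots := by
        intro h3
        exact hRle l h0 (isRoot_of_mem_roots h3)
      rw [Multiset.count_eq_zero_of_notMem h2]
    · rw [Multiset.count_eq_zero_of_notMem hmr]
      exact Nat.zero_le _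
  have hZc : Z.card = s.card - 1 := by
    rw [hZ, Multiset.toFinset_card_of_nodup hnd, ← hRs.natDegree_eq_card_roots, hRd]
  have hsc : 0 < s.card := Finset.card_pos.2 hs
  -- degrees
  have hTd : T2.degree < (Z.card : WithBot ℕ) := by
    by_cases hT0 : T2 = 0
    · rw [hT0, degree_zero]
      exact WithBot.bot_lt_coe _
    have h1 : (X ^ 2 * T2).natDegree ≤ s.card := by
      rw [← h.hT]
      refine le_trans (natDegree_sub_le _ _) (max_le ?_ ?_)
      · exact le_trans (natDegree_C_mul_le _ _) h.hdeg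
      · exact le_trans (natDegree_C_mul_le _ _) (le_trans (natDegree_C_mul_le _ _)
          (natDegree_Pp _ _))
    rw [natDegree_X_pow_mul 2 hT0] at h1
    rw [degree_eq_natDegree hT0, hZc]
    norm_cast
    omega
  have hRld : ∀ l ∈ Z, (Rl s θ κ l).degree < (Z.card : WithBot ℕ) := by
    intro l hlZ
    have h0 := (hmem l).1 hlZ
    have h1 : Rl s θ κ l ≠ 0 := by
      intro h2
      rw [hfac l h0, h2, mul_zero] at hR0
      exact hR0 rfl
    have h2 : R.natDegree = 1 + (Rl s θ κ l).natDegree := by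
      conv_lhs => rw [hfac l h0]
      rw [natDegree_mul (X_sub_C_ne_zero l) h1, natDegree_X_sub_C]
    rw [degree_eq_natDegree h1, hZc]
    norm_cast
    omega
  -- interpolation
  set w : ℝ → ℝ := fun l => T2.eval l / (Rl s θ κ l).eval l with hw
  have hint : T2 = ∑ l ∈ Z, C (w l) * Rl s θ κ l := by
    have h1 : (T2 - ∑ l ∈ Z, C (w l) * Rl s θ κ l) = 0 := by
      refine eq_zero_of_degree_lt_of_eval_finset_eq_zero Z ?_ ?_
      · refine lt_of_le_of_lt (degree_sub_le _ _) (max_lt hTd ?_)
        refine lt_of_le_of_lt (degree_sum_le _ _) ?_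
        rw [Finset.sup_lt_iff (WithBot.bot_lt_coe _)]
        intro l hlZ
        by_cases hw0 : w l = 0
        · rw [hw0, C_0, zero_mul, degree_zero]
          exact WithBot.bot_lt_coe _
        · rw [degree_C_mul hw0]
          exact hRld l hlZ
      · intro l' hl'
        have h0' := (hmem l').1 hl'
        rw [eval_sub, eval_finsetSum, Finset.sum_eq_single_of_mem l' hl']
        · rw [eval_mul, eval_C, hw]
          beta_reduce
          rw [div_mul_cancel₀ _ (hRle l' h0'), sub_self]
        · intro l hlZ hne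
          have h0 := (hmem l).1 hlZ
          have h2 : R.eval l' = (l' - l) * (Rl s θ κ l).eval l' := by
            conv_lhs => rw [hfac l h0]
            rw [eval_mul, eval_sub, eval_X, eval_C]
          rw [h0'] at h2
          have h3 : (Rl s θ κ l).eval l' = 0 :=
            (mul_eq_zero.1 h2.symm).resolve_left (sub_ne_zero.2 (Ne.symm hne))
          rw [eval_mul, h3, mul_zero]
    exact sub_eq_zero.1 h1
  have hwnn : ∀ l ∈ Z, 0 ≤ w l := by
    intro l hlZ
    have h0 := (hmem l).1 hlZ
    have h1 := h.hSS l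
    rw [← hR, h0] at h1
    have h2 : (Pp s θ).eval l * T2.eval l ≤ 0 := by
      refine le_trans h1 ?_
      simp
    rw [hw]
    beta_reduce
    rw [eval_Rl (hl l h0)]
    set D := ∑ i ∈ s, κ i * θ i ^ 2 / (1 + θ i * l) ^ 2
    have hD : 0 < D := hDpos l h0
    have hp := hPne l h0
    have h3 : T2.eval l / -((Pp s θ).eval l * D) =
        -((Pp s θ).eval l * T2.eval l) / ((Pp s θ).eval l ^ 2 * D) := by
      field_simp
    rw [h3]
    exact div_nonneg (neg_nonneg.2 h2) (by positivity)
  rw [hint, Finset.mul_sum]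
  refine K2_sum _ _ fun l hlZ => ?_
  have h0 := (hmem l).1 hlZ
  rw [mul_left_comm]
  exact K2_smul (Rl_mem hθ hκ hs (hl l h0) (hsum l h0)) (hwnn l hlZ)

theorem cone_dat {c : ℝ} : ∀ (n : ℕ) (s : Finset ι) (κ : ι → ℝ) (E T2 : ℝ[X]), s.card = n →
    Dat s θ κ c E T2 → X ^ 2 * T2 ∈ K2 s θ := by
  intro n
  induction n with
  | zero =>
    intro s κ E T2 hn h
    rw [Finset.card_eq_zero] at hn
    subst hn
    have h1 : X ^ 2 * T2 = 0 := by
      rw [← h.hT]
      have h2 := h.hdeg
      rw [Finset.card_empty] at h2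
      have h3 : E = C (E.eval 0) := by
        rw [eq_C_of_natDegree_le_zero h2]
        simp
      unfold Pp
      rw [Finset.prod_empty, mul_one]
      conv_lhs =>
        arg 1
        rw [h3]
      ring
    rw [h1]
    exact K2_zero _ _
  | succ n ih =>
    intro s κ E T2 hn h
    have hs : s.Nonempty := Finset.card_pos.1 (by omega)
    have ih' : ∀ i ∈ s, ∀ κ' : ι → ℝ, ∀ E T2 : ℝ[X], Dat (s.erase i) θ κ' c E T2 →
        X ^ 2 * T2 ∈ K2 (s.erase i) θ := by
      intro i hi κ' E T2 hd
      exact ih (s.erase i) κ' E T2 (by rw [Finset.card_erase_of_mem hi]; omega) hd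
    by_cases hinj : ∀ i ∈ s, ∀ j ∈ s, θ i = θ j → i = j
    · by_cases hκ : ∀ i ∈ s, 0 < κ i
      · exact main_case h hinj hκ hs
      · -- a vanishing mark
        push Not at hκ
        obtain ⟨i, hi, hκi⟩ := hκ
        have hκ0 : κ i = 0 := le_antisymm hκi (h.hκ i hi)
        have ht := h.hθ i hi
        have hR : Rp s θ κ = (1 + C (θ i) * X) * Rp (s.erase i) θ κ := by
          unfold Rp
          rw [← Finset.add_sum_erase s _ hi, hκ0, zero_mul, C_0, zero_mul, zero_add,
            Finset.mul_sum]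
          refine Finset.sum_congr rfl fun j hj => ?_
          rw [Finset.mem_erase] at hj
          rw [Pp_erase θ (Finset.mem_erase.2 ⟨Ne.symm hj.1, hi⟩), Finset.erase_right_comm]
          ring
        refine dat_step h hi ?_ (fun j hj => h.hκ j (Finset.mem_of_mem_erase hj)) hR
          (ih' i hi κ)
        -- the inequality near the zero
        set t := θ i with htd
        set a : ℝ := -t⁻¹ with ha
        set G := Pp (s.erase i) θ with hG
        have hGa : G.eval a ≠ 0 := by
          rw [hG, eval_Pp]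
          refine Finset.prod_ne_zero_iff.2 fun j hj h0 => ?_
          rw [Finset.mem_erase] at hj
          apply hj.1
          apply hinj j hj.2 i hi
          rw [← htd]
          have h1 : θ j * a = t * a := by
            have : t * a = -1 := by
              rw [ha]
              field_simp
            linarith
          have ha0 : a ≠ 0 := neg_ne_zero.2 (inv_ne_zero ht.ne')
          exact mul_right_cancel₀ ha0 h1
        have hta : t * a = -1 := by
          rw [ha]
          field_simp
        -- `G T2 ≤ c² (1 + t l) R1²` for `1 + t l > 0` and `≥` for `1 + t l < 0`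
        set R1 := Rp (s.erase i) θ κ with hR1
        have k1 : ∀ l, a < l → (G * T2).eval l ≤
            (C (c ^ 2) * ((1 + C t * X) * R1 ^ 2)).eval l := by
          intro l hal
          have h1 := h.hSS l
          rw [hR, Pp_erase θ hi, ← hG, ← htd] at h1
          simp only [eval_mul, eval_add, eval_one, eval_C, eval_X, eval_pow] at h1 ⊢
          have h2 : 0 < 1 + t * l := by nlinarith
          refine le_of_mul_le_mul_left ?_ h2
          nlinarith [h1]
        have k2 : ∀ l, l < a → (C (c ^ 2) * ((1 + C t * X) * R1 ^ 2)).eval l ≤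
            (G * T2).eval l := by
          intro l hal
          have h1 := h.hSS l
          rw [hR, Pp_erase θ hi, ← hG, ← htd] at h1
          simp only [eval_mul, eval_add, eval_one, eval_C, eval_X, eval_pow] at h1 ⊢
          have h2 : 0 < -(1 + t * l) := by nlinarith
          refine le_of_mul_le_mul_left ?_ h2
          nlinarith [h1]
        have hlim : ∀ p : ℝ[X], Filter.Tendsto (fun l => p.eval l) (nhds a) (nhds (p.eval a)) :=
          fun p => p.continuous.tendsto a
        have q1 : (G * T2).eval a ≤ (C (c ^ 2) * ((1 + C t * X) * R1 ^ 2)).eval a := by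
          refine le_of_tendsto_of_tendsto ((hlim _).mono_left nhdsWithin_le_nhds)
            ((hlim _).mono_left nhdsWithin_le_nhds) (?_ : _ ≤ᶠ[nhdsWithin a (Set.Ioi a)] _)
          filter_upwards [self_mem_nhdsWithin] with l hl
          exact k1 l hl
        have q2 : (C (c ^ 2) * ((1 + C t * X) * R1 ^ 2)).eval a ≤ (G * T2).eval a := by
          refine le_of_tendsto_of_tendsto ((hlim _).mono_left nhdsWithin_le_nhds)
            ((hlim _).mono_left nhdsWithin_le_nhds) (?_ : _ ≤ᶠ[nhdsWithin a (Set.Iio a)] _)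
          filter_upwards [self_mem_nhdsWithin] with l hl
          exact k2 l hl
        have q3 : (C (c ^ 2) * ((1 + C t * X) * R1 ^ 2)).eval a = 0 := by
          simp only [eval_mul, eval_add, eval_one, eval_C, eval_X]
          rw [hta]
          ring
        have q4 : (G * T2).eval a = 0 := by
          rw [q3] at q1 q2
          exact le_antisymm q1 q2
        rw [eval_mul] at q4
        have q5 : T2.eval a = 0 := (mul_eq_zero.1 q4).resolve_left hGa
        have q6 := congrArg (eval a) h.hT
        rw [Pp_erase θ hi, ← htd] at q6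
        simp only [eval_sub, eval_mul, eval_C, eval_pow, eval_X, eval_add, eval_one, q5,
          mul_zero] at q6
        rw [hta] at q6
        have q7 : c * E.eval a = 0 := by linarith
        exact (mul_eq_zero.1 q7).resolve_left h.hc.ne'
    · -- two equal masses
      push Not at hinj
      obtain ⟨i, hi, j, hj, hij, hne⟩ := hinj
      have ht := h.hθ i hi
      have hji : j ∈ s.erase i := Finset.mem_erase.2 ⟨Ne.symm hne, hj⟩
      refine dat_step (κ' := fun k => if k = j then κ j + κ i else κ k) h hi ?_ ?_ ?_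
        (ih' i hi _)
      · obtain ⟨ε, hε, hsp⟩ := h.hrr
        have hF : C c * Pp s θ = C c * ((1 + C (θ i) * X) ^ 2 * Pp ((s.erase i).erase j) θ) := by
          rw [Pp_erase θ hi, Pp_erase θ hji, ← hij]
          ring
        have hPe : (1 : ℝ) + θ i * (-(θ i)⁻¹) = 0 := by
          field_simp
          ring
        refine common_zero hε ?_ ?_ hsp ?_ ?_
        · intro h0
          have h1 := congrArg (eval 0) h0
          simp only [eval_mul, eval_C, eval_Pp, mul_zero, add_zero, Finset.prod_const_one,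
            mul_one, eval_zero] at h1
          exact h.hc.ne' h1
        · have h1 : (C c * Pp s θ).natDegree = s.card := by
            refine le_antisymm (le_trans (natDegree_C_mul_le _ _) (natDegree_Pp _ _))
              (le_natDegree_of_ne_zero ?_)
            rw [coeff_C_mul, coeff_Pp]
            exact mul_ne_zero h.hc.ne' (Finset.prod_pos fun k hk => h.hθ k hk).ne'
          rw [h1]
          exact h.hdeg
        · rw [hF]
          simp only [eval_mul, eval_C, eval_pow, eval_add, eval_one, eval_X]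
          rw [hPe]
          ring
        · rw [hF, derivative_C_mul, derivative_mul, derivative_pow]
          simp only [eval_mul, eval_C, eval_pow, eval_add, eval_one, eval_X]
          rw [hPe]
          ring
      · intro k hk
        split_ifs with hkj
        · exact add_nonneg (h.hκ j hj) (h.hκ i hi)
        · exact h.hκ k (Finset.mem_of_mem_erase hk)
      · unfold Rp
        rw [← Finset.add_sum_erase s _ hi, ← Finset.add_sum_erase (s.erase i) _ hji,
          ← Finset.add_sum_erase (s.erase i) _ hji]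
        beta_reduce
        rw [if_pos rfl, mul_add, Finset.mul_sum]
        have h1 : ∀ k ∈ (s.erase i).erase j,
            (1 + C (θ i) * X) * (C ((if k = j then κ j + κ i else κ k) * θ k) *
              Pp ((s.erase i).erase k) θ) = C (κ k * θ k) * Pp (s.erase k) θ := by
          intro k hk
          rw [Finset.mem_erase, Finset.mem_erase] at hk
          rw [if_neg hk.1, Pp_erase θ (Finset.mem_erase.2 ⟨Ne.symm hk.2.1, hi⟩ : i ∈ s.erase k),
            Finset.erase_right_comm]
          ring
        rw [Finset.sum_congr rfl h1, ← add_assoc]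
        congr 1
        rw [Pp_erase θ hji, Pp_erase θ (Finset.mem_erase.2 ⟨hne, hi⟩ : i ∈ s.erase j),
          Finset.erase_right_comm (a := j) (b := i), ← hij, add_mul (κ j) (κ i) (θ i), C_add]
        ring

/-- **The cone theorem.** -/
theorem cone_of_ineq (F E R T2 : ℝ[X]) (n : ℕ) (θ κ : Fin n → ℝ) (hθ : ∀ i, 0 < θ i)
    (hκ : ∀ i, 0 ≤ κ i) (hF : F = C (F.eval 0) * ∏ i, (1 + C (θ i) * X)) (hF0 : 0 < F.eval 0)
    (hR : R = C (F.eval 0) * ∑ i, C (κ i * θ i) * ∏ j ∈ univ.erase i, (1 + C (θ j) * X))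
    (hT : C (F.eval 0) * E - C (E.eval 0) * F = X ^ 2 * T2) (hdeg : E.natDegree ≤ n)
    (hSS : ∀ l, F.eval l * T2.eval l ≤ F.eval 0 * R.eval l ^ 2)
    (hrr : ∃ ε > 0, ∀ t : ℝ, |t| < ε → (F - C t * E).Splits) :
    ∃ K : Fin n → Fin n → ℝ, (∀ i j, 0 ≤ K i j) ∧
      C (F.eval 0) * E - C (E.eval 0) * F = ∑ i, ∑ j ∈ univ.erase i,
        C (K i j) * (X ^ 2 * ∏ k ∈ (univ.erase i).erase j, (1 + C (θ k) * X)) := by
  set c := F.eval 0 with hc
  have hF' : F = C c * Pp univ θ := hF
  have hR' : R = C c * Rp univ θ κ := hR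
  have hd : Dat (univ : Finset (Fin n)) θ κ c E T2 := by
    refine ⟨fun i _ => hθ i, fun i _ => hκ i, hF0, ?_, ?_, ?_, ?_⟩
    · rw [← hF']
      exact hT
    · rw [Finset.card_univ, Fintype.card_fin]
      exact hdeg
    · intro l
      have h1 := hSS l
      rw [hR', hF', eval_mul, eval_mul, eval_C] at h1
      refine le_of_mul_le_mul_left ?_ hF0
      nlinarith [h1]
    · rw [← hF']
      exact hrr
  have h1 := cone_dat n univ κ E T2 (by rw [Finset.card_univ, Fintype.card_fin]) hd
  rw [← hT] at h1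
  exact h1

end Pool.Agent.MJ
end

section

/-!
Complete bipartite systems: stability over `ℂ` and the alternation lemma.
-/

set_option autoImplicit false
set_option linter.unusedSectionVars false

namespace Pool.Agent.MJ

open Finset Polynomial

namespace KB

variable {ι κ : Type*} [DecidableEq ι] [DecidableEq κ]

/-- A system over a commutative ring. -/
structure SysR {R : Type*} [CommRing R] (r : ι → R) (s : κ → R)
    (m : Finset ι → Finset κ → R) : Prop where
  rec1 : ∀ A B, ∀ i ∈ A, m A B = r i * m (A.erase i) B - ∑ j ∈ B, m (A.erase i) (B.erase j)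
  rec2 : ∀ A B, ∀ j ∈ B, m A B = s j * m A (B.erase j) - ∑ i ∈ A, m (A.erase i) (B.erase j)
  base : m ∅ ∅ = 1

theorem SysR.swap {R : Type*} [CommRing R] {r : ι → R} {s : κ → R} {m : Finset ι → Finset κ → R}
    (h : SysR r s m) : SysR s r (fun B A => m A B) :=
  ⟨fun B A j hj => h.rec2 A B j hj, fun B A i hi => h.rec1 A B i hi, h.base⟩

theorem SysR.map {R R' : Type*} [CommRing R] [CommRing R'] (f : R →+* R') {r : ι → R} {s : κ → R}
    {m : Finset ι → Finset κ → R} (h : SysR r s m) :
    SysR (fun i => f (r i)) (fun j => f (s j)) (fun A B => f (m A B)) := by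
  refine ⟨fun A B i hi => ?_, fun A B j hj => ?_, ?_⟩
  · rw [h.rec1 A B i hi, map_sub, map_mul, map_sum]
  · rw [h.rec2 A B j hj, map_sub, map_mul, map_sum]
  · rw [h.base, map_one]

section defs
variable {R : Type*} [CommRing R] (x : ι → R) (y : κ → R) (m : Finset ι → Finset κ → R)

/-- `α` -/
def al (A : Finset ι) (B : Finset κ) : R := ∑ i ∈ A, x i * m (A.erase i) B
/-- `β` -/
def be (A : Finset ι) (B : Finset κ) : R := ∑ j ∈ B, y j * m A (B.erase j)
/-- `L` -/
def Lf (A : Finset ι) (B : Finset κ) : R := ∑ i ∈ A, x i * ∑ j ∈ B, y j * m (A.erase i) (B.erase j)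
/-- `φ` -/
def ph (A : Finset ι) (B : Finset κ) : R := m A B - Lf x y m A B

lemma Lf_al (A : Finset ι) (B : Finset κ) : Lf x y m A B = ∑ j ∈ B, y j * al x m A (B.erase j) := by
  unfold Lf al
  simp only [Finset.mul_sum]
  rw [Finset.sum_comm]
  exact Finset.sum_congr rfl fun j _ => Finset.sum_congr rfl fun i _ => by ring

lemma Lf_be (A : Finset ι) (B : Finset κ) : Lf x y m A B = ∑ i ∈ A, x i * be y m (A.erase i) B := rfl

lemma Lf_swap (A : Finset ι) (B : Finset κ) : Lf y x (fun B A => m A B) B A = Lf x y m A B := by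
  rw [Lf_al]
  rfl

lemma ph_swap (A : Finset ι) (B : Finset κ) : ph y x (fun B A => m A B) B A = ph x y m A B := by
  unfold ph
  rw [Lf_swap]

end defs

section rec
variable {R : Type*} [CommRing R] {r : ι → R} {s : κ → R} {m : Finset ι → Finset κ → R}
  (hm : SysR r s m) (x : ι → R) (y : κ → R)
include hm

/-- double sums over pairs of different elements -/
lemma sum_erase_comm {J M : Type*} [DecidableEq J] [AddCommMonoid M] (A : Finset J) (f : J → J → M) :
    ∑ i ∈ A, ∑ j ∈ A.erase i, f i j = ∑ j ∈ A, ∑ i ∈ A.erase j, f i j := by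
  refine Finset.sum_comm' fun a b => ?_
  simp only [Finset.mem_erase]
  constructor
  · rintro ⟨h1, h2, h3⟩
    exact ⟨⟨fun h => h2 h.symm, h1⟩, h3⟩
  · rintro ⟨⟨h1, h2⟩, h3⟩
    exact ⟨h2, fun h => h1 h.symm, h3⟩

/-- `α` at a vertex of the second side -/
lemma al2 (A : Finset ι) (B : Finset κ) (j : κ) (hj : j ∈ B) :
    al x m A B = s j * al x m A (B.erase j) - ∑ i ∈ A, al x m (A.erase i) (B.erase j) := by
  unfold al
  rw [Finset.mul_sum]
  have h1 : ∀ i ∈ A, x i * m (A.erase i) B = s j * (x i * m (A.erase i) (B.erase j)) -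
      ∑ i' ∈ A.erase i, x i * m ((A.erase i).erase i') (B.erase j) := by
    intro i _
    rw [hm.rec2 (A.erase i) B j hj, mul_sub, Finset.mul_sum]
    ring
  rw [Finset.sum_congr rfl h1, Finset.sum_sub_distrib]
  congr 1
  rw [sum_erase_comm hm A (fun i i' => x i * m ((A.erase i).erase i') (B.erase j))]
  refine Finset.sum_congr rfl fun i _ => Finset.sum_congr rfl fun i' _ => ?_
  rw [Finset.erase_right_comm]

/-- `α` at a vertex of the first side -/
lemma al1 (A : Finset ι) (B : Finset κ) (i : ι) (hi : i ∈ A) :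
    al x m A B = r i * al x m (A.erase i) B - ∑ j ∈ B, al x m (A.erase i) (B.erase j)
      + x i * m (A.erase i) B := by
  unfold al
  rw [← Finset.add_sum_erase A _ hi, Finset.mul_sum, Finset.sum_comm, ← Finset.sum_sub_distrib,
    add_comm]
  congr 1
  refine Finset.sum_congr rfl fun i' hi' => ?_
  have hi'' := Finset.mem_erase.1 hi'
  rw [hm.rec1 (A.erase i') B i (Finset.mem_erase.2 ⟨fun h => hi''.1 h.symm, hi⟩),
    Finset.erase_right_comm, mul_sub, Finset.mul_sum]
  ring

/-- `L` at a vertex of the first side -/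
lemma L1 (A : Finset ι) (B : Finset κ) (i : ι) (hi : i ∈ A) :
    Lf x y m A B = r i * Lf x y m (A.erase i) B - ∑ j ∈ B, Lf x y m (A.erase i) (B.erase j)
      + x i * be y m (A.erase i) B := by
  rw [Lf_al, Lf_al]
  have h1 : ∀ j ∈ B, y j * al x m A (B.erase j) = r i * (y j * al x m (A.erase i) (B.erase j)) -
      ∑ j' ∈ B.erase j, y j * al x m (A.erase i) ((B.erase j).erase j') +
      x i * (y j * m (A.erase i) (B.erase j)) := by
    intro j _
    rw [al1 hm x A (B.erase j) i hi, mul_add, mul_sub, Finset.mul_sum]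
    ring
  rw [Finset.sum_congr rfl h1, Finset.sum_add_distrib, Finset.sum_sub_distrib, ← Finset.mul_sum,
    ← Finset.mul_sum]
  congr 1
  congr 1
  rw [sum_erase_comm hm B (fun j j' => y j * al x m (A.erase i) ((B.erase j).erase j'))]
  refine Finset.sum_congr rfl fun j _ => ?_
  rw [Lf_al]
  refine Finset.sum_congr rfl fun j' _ => ?_
  rw [Finset.erase_right_comm]

/-- `φ` at a vertex of the first side -/
lemma ph1 (A : Finset ι) (B : Finset κ) (i : ι) (hi : i ∈ A) :
    ph x y m A B = r i * ph x y m (A.erase i) B - ∑ j ∈ B, ph x y m (A.erase i) (B.erase j)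
      - x i * be y m (A.erase i) B := by
  unfold ph
  rw [Finset.sum_sub_distrib, hm.rec1 A B i hi, L1 hm x y A B i hi]
  ring

/-- `φ` at a vertex of the second side -/
lemma ph2 (A : Finset ι) (B : Finset κ) (j : κ) (hj : j ∈ B) :
    ph x y m A B = s j * ph x y m A (B.erase j) - ∑ i ∈ A, ph x y m (A.erase i) (B.erase j)
      - y j * al x m A (B.erase j) := by
  have h := ph1 hm.swap y x B A j hj
  simp only [ph_swap] at h
  exact h

end rec

section stab

variable {r : ι → ℂ} {s : κ → ℂ} {m : Finset ι → Finset κ → ℂ}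

lemma im_inv_neg {w : ℂ} (h : 0 < w.im) : w ≠ 0 ∧ (w⁻¹).im < 0 := by
  have h0 : w ≠ 0 := by
    rintro rfl
    simp at h
  refine ⟨h0, ?_⟩
  rw [Complex.inv_im]
  exact div_neg_of_neg_of_pos (by linarith) (Complex.normSq_pos.2 h0)

lemma im_inv_pos {w : ℂ} (h : w.im < 0) : w ≠ 0 ∧ 0 < (w⁻¹).im := by
  have h0 : w ≠ 0 := by
    rintro rfl
    simp at h
  refine ⟨h0, ?_⟩
  rw [Complex.inv_im]
  exact div_pos (by linarith) (Complex.normSq_pos.2 h0)

lemma im_sum {J : Type*} (A : Finset J) (f : J → ℂ) : (∑ i ∈ A, f i).im = ∑ i ∈ A, (f i).im :=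
  map_sum Complex.imAddGroupHom f A

lemma im_real_mul (t : ℝ) (w : ℂ) : ((t : ℂ) * w).im = t * w.im := by simp

/-- Heilmann–Lieb -/
theorem hl (hm : SysR r s m) (hr : ∀ i, 0 < (r i).im) (hs : ∀ j, 0 < (s j).im) (n : ℕ) :
    ∀ (A : Finset ι) (B : Finset κ), A.card + B.card = n → m A B ≠ 0 ∧
      (∀ i ∈ A, (m (A.erase i) B / m A B).im < 0) ∧ (∀ j ∈ B, (m A (B.erase j) / m A B).im < 0) := by
  induction n with
  | zero =>
    intro A B h
    have hA : A = ∅ := Finset.card_eq_zero.1 (by omega)
    have hB : B = ∅ := Finset.card_eq_zero.1 (by omega)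
    subst hA hB
    refine ⟨?_, fun i hi => absurd hi (Finset.notMem_empty i), fun j hj => absurd hj (Finset.notMem_empty j)⟩
    rw [hm.base]
    exact one_ne_zero
  | succ n ih =>
    intro A B h
    have k1 : ∀ i ∈ A, 0 < (m A B / m (A.erase i) B).im := by
      intro i hi
      have hc := Finset.card_pos.2 ⟨i, hi⟩
      obtain ⟨h0, -, h2⟩ := ih (A.erase i) B (by rw [Finset.card_erase_of_mem hi]; omega)
      have e : m A B / m (A.erase i) B = r i - ∑ j ∈ B, m (A.erase i) (B.erase j) / m (A.erase i) B := by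
        rw [hm.rec1 A B i hi, sub_div, mul_div_cancel_right₀ _ h0, Finset.sum_div]
      rw [e, Complex.sub_im, im_sum]
      have := Finset.sum_nonpos fun j hj => (h2 j hj).le
      linarith [hr i]
    have k2 : ∀ j ∈ B, 0 < (m A B / m A (B.erase j)).im := by
      intro j hj
      have hc := Finset.card_pos.2 ⟨j, hj⟩
      obtain ⟨h0, h1, -⟩ := ih A (B.erase j) (by rw [Finset.card_erase_of_mem hj]; omega)
      have e : m A B / m A (B.erase j) = s j - ∑ i ∈ A, m (A.erase i) (B.erase j) / m A (B.erase j) := by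
        rw [hm.rec2 A B j hj, sub_div, mul_div_cancel_right₀ _ h0, Finset.sum_div]
      rw [e, Complex.sub_im, im_sum]
      have := Finset.sum_nonpos fun i hi => (h1 i hi).le
      linarith [hs j]
    refine ⟨?_, fun i hi => ?_, fun j hj => ?_⟩
    · have hne : A.Nonempty ∨ B.Nonempty := by
        by_contra hcon
        push Not at hcon
        rw [hcon.1, hcon.2] at h
        simp at h
      rcases hne with ⟨i, hi⟩ | ⟨j, hj⟩
      · intro h0
        have := k1 i hi
        rw [h0, zero_div] at this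
        simp at this
      · intro h0
        have := k2 j hj
        rw [h0, zero_div] at this
        simp at this
    · have := (im_inv_neg (k1 i hi)).2
      rwa [inv_div] at this
    · have := (im_inv_neg (k2 j hj)).2
      rwa [inv_div] at this

variable {x : ι → ℝ} {y : κ → ℝ}

/-- the class `α` -/
theorem st_al (hm : SysR r s m) (hr : ∀ i, 0 < (r i).im) (hs : ∀ j, 0 < (s j).im)
    (hx : ∀ i, 0 < x i) (n : ℕ) :
    ∀ (A : Finset ι) (B : Finset κ), A.Nonempty → A.card + B.card = n →
      al (fun i => (x i : ℂ)) m A B ≠ 0 ∧ 0 < (m A B / al (fun i => (x i : ℂ)) m A B).im ∧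
      (∀ i ∈ A, (al (fun i => (x i : ℂ)) m (A.erase i) B / al (fun i => (x i : ℂ)) m A B).im ≤ 0) ∧
      (∀ j ∈ B, (al (fun i => (x i : ℂ)) m A (B.erase j) / al (fun i => (x i : ℂ)) m A B).im < 0) := by
  induction n with
  | zero =>
    intro A B hA h
    have := Finset.card_pos.2 hA
    omega
  | succ n ih =>
    intro A B hA h
    set a := al (fun i => (x i : ℂ)) m with ha
    obtain ⟨m0, m1, m2⟩ := hl hm hr hs _ A B rfl
    have h1 : (a A B / m A B).im < 0 := by
      have e : a A B / m A B = ∑ i ∈ A, (x i : ℂ) * (m (A.erase i) B / m A B) := by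
        rw [ha]
        unfold al
        rw [Finset.sum_div]
        exact Finset.sum_congr rfl fun i _ => by ring
      rw [e, im_sum]
      refine Finset.sum_neg (fun i hi => ?_) hA
      rw [im_real_mul]
      exact mul_neg_of_pos_of_neg (hx i) (m1 i hi)
    have h2 := (im_inv_pos h1).2
    rw [inv_div] at h2
    have h0 : a A B ≠ 0 := by
      intro h0
      rw [h0, zero_div] at h1
      simp at h1
    refine ⟨h0, h2, fun i hi => ?_, fun j hj => ?_⟩
    · rcases (A.erase i).eq_empty_or_nonempty with he | he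
      · have : a (A.erase i) B = 0 := by
          rw [he, ha]
          simp [al]
        rw [this, zero_div]
        simp
      · have hc := Finset.card_pos.2 ⟨i, hi⟩
        obtain ⟨g0, g1, -, g2⟩ := ih (A.erase i) B he (by rw [Finset.card_erase_of_mem hi]; omega)
        have e : a A B / a (A.erase i) B = r i - ∑ j ∈ B, a (A.erase i) (B.erase j) / a (A.erase i) B
            + (x i : ℂ) * (m (A.erase i) B / a (A.erase i) B) := by
          have h3 := al1 hm (fun i => (x i : ℂ)) A B i hi
          rw [← ha] at h3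
          rw [h3, add_div, sub_div, mul_div_cancel_right₀ _ g0, Finset.sum_div, mul_div_assoc]
        have h4 : 0 < (a A B / a (A.erase i) B).im := by
          rw [e, Complex.add_im, Complex.sub_im, im_sum, im_real_mul]
          have := Finset.sum_nonpos fun j hj => (g2 j hj).le
          have := mul_pos (hx i) g1
          linarith [hr i]
        have := (im_inv_neg h4).2
        rw [inv_div] at this
        exact this.le
    · have hc := Finset.card_pos.2 ⟨j, hj⟩
      obtain ⟨g0, -, g1, -⟩ := ih A (B.erase j) hA (by rw [Finset.card_erase_of_mem hj]; omega)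
      have e : a A B / a A (B.erase j) = s j - ∑ i ∈ A, a (A.erase i) (B.erase j) / a A (B.erase j) := by
        have h3 := al2 hm (fun i => (x i : ℂ)) A B j hj
        rw [← ha] at h3
        rw [h3, sub_div, mul_div_cancel_right₀ _ g0, Finset.sum_div]
      have h4 : 0 < (a A B / a A (B.erase j)).im := by
        rw [e, Complex.sub_im, im_sum]
        have := Finset.sum_nonpos g1
        linarith [hs j]
      have := (im_inv_neg h4).2
      rw [inv_div] at this
      exact this

/-- `Im (α / φ) ≤ 0`, `φ ≠ 0` -/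
theorem st_al_ph (hm : SysR r s m) (hr : ∀ i, 0 < (r i).im) (hs : ∀ j, 0 < (s j).im)
    (hx : ∀ i, 0 < x i) (hy : ∀ j, 0 < y j) (A : Finset ι) (B : Finset κ) :
    ph (fun i => (x i : ℂ)) (fun j => (y j : ℂ)) m A B ≠ 0 ∧
    (al (fun i => (x i : ℂ)) m A B / ph (fun i => (x i : ℂ)) (fun j => (y j : ℂ)) m A B).im ≤ 0 := by
  rcases A.eq_empty_or_nonempty with hA | hA
  · subst hA
    obtain ⟨m0, -, -⟩ := hl hm hr hs _ ∅ B rfl
    constructor
    · simpa [ph, Lf] using m0
    · simp [al]
  · obtain ⟨a0, a1, -, a2⟩ := st_al hm hr hs hx _ A B hA rfl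
    set a := al (fun i => (x i : ℂ)) m with ha
    set φ := ph (fun i => (x i : ℂ)) (fun j => (y j : ℂ)) m A B with hφ
    have e : φ / a A B = m A B / a A B - ∑ j ∈ B, (y j : ℂ) * (a A (B.erase j) / a A B) := by
      rw [hφ]
      unfold ph
      rw [Lf_al, sub_div, Finset.sum_div]
      congr 1
      exact Finset.sum_congr rfl fun j _ => by rw [mul_div_assoc]
    have h1 : 0 < (φ / a A B).im := by
      rw [e, Complex.sub_im, im_sum]
      have : ∑ j ∈ B, ((y j : ℂ) * (a A (B.erase j) / a A B)).im ≤ 0 := by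
        refine Finset.sum_nonpos fun j hj => ?_
        rw [im_real_mul]
        exact mul_nonpos_of_nonneg_of_nonpos (hy j).le (a2 j hj).le
      linarith
    have h2 := im_inv_neg h1
    rw [inv_div] at h2
    refine ⟨?_, h2.2.le⟩
    intro h0
    rw [h0, zero_div] at h1
    simp at h1

theorem st_be_ph (hm : SysR r s m) (hr : ∀ i, 0 < (r i).im) (hs : ∀ j, 0 < (s j).im)
    (hx : ∀ i, 0 < x i) (hy : ∀ j, 0 < y j) (A : Finset ι) (B : Finset κ) :
    (be (fun j => (y j : ℂ)) m A B / ph (fun i => (x i : ℂ)) (fun j => (y j : ℂ)) m A B).im ≤ 0 := by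
  have h := (st_al_ph hm.swap hs hr hy hx B A).2
  rw [ph_swap] at h
  exact h

/-- all one-vertex ratios of `φ` -/
theorem st_ph (hm : SysR r s m) (hr : ∀ i, 0 < (r i).im) (hs : ∀ j, 0 < (s j).im)
    (hx : ∀ i, 0 < x i) (hy : ∀ j, 0 < y j) (n : ℕ) :
    ∀ (A : Finset ι) (B : Finset κ), A.card + B.card = n →
      (∀ i ∈ A, (r i).im ≤ (ph (fun i => (x i : ℂ)) (fun j => (y j : ℂ)) m A B /
        ph (fun i => (x i : ℂ)) (fun j => (y j : ℂ)) m (A.erase i) B).im) ∧
      (∀ j ∈ B, (s j).im ≤ (ph (fun i => (x i : ℂ)) (fun j => (y j : ℂ)) m A B /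
        ph (fun i => (x i : ℂ)) (fun j => (y j : ℂ)) m A (B.erase j)).im) := by
  induction n with
  | zero =>
    intro A B h
    have hA : A = ∅ := Finset.card_eq_zero.1 (by omega)
    have hB : B = ∅ := Finset.card_eq_zero.1 (by omega)
    subst hA hB
    exact ⟨fun i hi => absurd hi (Finset.notMem_empty i), fun j hj => absurd hj (Finset.notMem_empty j)⟩
  | succ n ih =>
    intro A B h
    set φ := ph (fun i => (x i : ℂ)) (fun j => (y j : ℂ)) m with hφ
    have h0 : ∀ A B, φ A B ≠ 0 := fun A B => (st_al_ph hm hr hs hx hy A B).1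
    refine ⟨fun i hi => ?_, fun j hj => ?_⟩
    · have hc := Finset.card_pos.2 ⟨i, hi⟩
      obtain ⟨-, g2⟩ := ih (A.erase i) B (by rw [Finset.card_erase_of_mem hi]; omega)
      have h1 := st_be_ph hm hr hs hx hy (A.erase i) B
      rw [← hφ] at h1
      have e : φ A B / φ (A.erase i) B = r i - ∑ j ∈ B, φ (A.erase i) (B.erase j) / φ (A.erase i) B
          - (x i : ℂ) * (be (fun j => (y j : ℂ)) m (A.erase i) B / φ (A.erase i) B) := by
        have h3 := ph1 hm (fun i => (x i : ℂ)) (fun j => (y j : ℂ)) A B i hi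
        rw [← hφ] at h3
        rw [h3, sub_div, sub_div, mul_div_cancel_right₀ _ (h0 _ _), Finset.sum_div, mul_div_assoc]
      rw [e, Complex.sub_im, Complex.sub_im, im_sum, im_real_mul]
      have h4 : ∑ j ∈ B, (φ (A.erase i) (B.erase j) / φ (A.erase i) B).im ≤ 0 := by
        refine Finset.sum_nonpos fun j hj => ?_
        have := (im_inv_neg (lt_of_lt_of_le (hs j) (g2 j hj))).2
        rw [inv_div] at this
        exact this.le
      have := mul_nonpos_of_nonneg_of_nonpos (hx i).le h1
      linarith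
    · have hc := Finset.card_pos.2 ⟨j, hj⟩
      obtain ⟨g1, -⟩ := ih A (B.erase j) (by rw [Finset.card_erase_of_mem hj]; omega)
      have h1 := (st_al_ph hm hr hs hx hy A (B.erase j)).2
      rw [← hφ] at h1
      have e : φ A B / φ A (B.erase j) = s j - ∑ i ∈ A, φ (A.erase i) (B.erase j) / φ A (B.erase j)
          - (y j : ℂ) * (al (fun i => (x i : ℂ)) m A (B.erase j) / φ A (B.erase j)) := by
        have h3 := ph2 hm (fun i => (x i : ℂ)) (fun j => (y j : ℂ)) A B j hj
        rw [← hφ] at h3
        rw [h3, sub_div, sub_div, mul_div_cancel_right₀ _ (h0 _ _), Finset.sum_div, mul_div_assoc]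
      rw [e, Complex.sub_im, Complex.sub_im, im_sum, im_real_mul]
      have h4 : ∑ i ∈ A, (φ (A.erase i) (B.erase j) / φ A (B.erase j)).im ≤ 0 := by
        refine Finset.sum_nonpos fun i hi => ?_
        have := (im_inv_neg (lt_of_lt_of_le (hr i) (g1 i hi))).2
        rw [inv_div] at this
        exact this.le
      have := mul_nonpos_of_nonneg_of_nonpos (hy j).le h1
      linarith

end stab

section altern

open scoped Classical

lemma normSq_conj (w : ℂ) : w * (starRingEnd ℂ) w = ((Complex.normSq w : ℝ) : ℂ) := Complex.mul_conj w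

/-- **Alternation.** -/
theorem alt {B G : ℝ[X]} {p : ℝ} (hB : B.Splits) (hB0 : 0 < B.leadingCoeff)
    (hr : ∀ r, B.eval r = 0 → (derivative B).eval r ≠ 0 ∧ G.eval r * (derivative B).eval r ≤ 0)
    (hdeg : G.natDegree = B.natDegree + 1) (hlc : G.leadingCoeff = p * B.leadingCoeff)
    {z : ℂ} (hz : 0 < z.im) :
    p * z.im * Complex.normSq (aeval z B) ≤ (aeval z G * (starRingEnd ℂ) (aeval z B)).im := by
  have hBne : B ≠ 0 := by
    rintro rfl
    simp at hB0
  have hnd : B.roots.Nodup := by
    rw [Multiset.nodup_iff_count_le_one]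
    intro a
    rw [count_roots]
    by_contra hc
    push Not at hc
    rw [one_lt_rootMultiplicity_iff_isRoot hBne] at hc
    exact (hr a hc.1).1 hc.2
  set b := B.leadingCoeff with hb
  set R : Finset ℝ := B.roots.toFinset with hR
  set N : ℝ[X] := ∏ r ∈ R, (X - C r) with hN
  have hBN : B = C b * N := by
    have h1 := hB.eq_prod_roots
    rw [← hb] at h1
    rw [h1]
    congr 1
    rw [hN, hR, Finset.prod_multiset_map_count]
    refine Finset.prod_congr rfl fun r hr => ?_
    rw [Multiset.count_eq_one_of_mem hnd (Multiset.mem_toFinset.1 hr), pow_one]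
  have hNm : N.Monic := monic_prod_of_monic _ _ fun r _ => monic_X_sub_C r
  have hNd : N.natDegree = R.card := by
    rw [hN, natDegree_prod_of_monic _ _ fun r _ => monic_X_sub_C r]
    simp
  have hBd : B.natDegree = R.card := by
    rw [hBN, natDegree_C_mul hB0.ne', hNd]
  have hmem : ∀ r ∈ R, B.eval r = 0 := fun r hr => (mem_roots'.1 (Multiset.mem_toFinset.1 hr)).2
  have hNr : ∀ r ∈ R, N.eval r = 0 := by
    intro r hr
    have := hmem r hr
    rw [hBN, eval_mul, eval_C] at this
    exact (mul_eq_zero.1 this).resolve_left hB0.ne'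
  set Q := G /ₘ N with hQ
  set rem := G %ₘ N with hrem
  have hG : G = rem + N * Q := (modByMonic_add_div G N).symm
  have hQd : Q.natDegree = 1 := by
    rw [hQ, natDegree_divByMonic _ hNm, hdeg, hBd, hNd]
    omega
  have hQl : Q.leadingCoeff = p * b := by
    rw [hQ, leadingCoeff_divByMonic_of_monic hNm, hlc]
    have hG0 : G ≠ 0 := by
      rintro rfl
      simp at hdeg
    rw [degree_eq_natDegree hNm.ne_zero, degree_eq_natDegree hG0, hdeg, hBd, hNd]
    exact_mod_cast Nat.le_succ _
  have hQe : Q = C (p * b) * X + C (Q.coeff 0) := by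
    have h1 := Polynomial.exists_eq_X_add_C_of_natDegree_le_one hQd.le
    obtain ⟨u, v, h⟩ := h1
    have h2 : Q.coeff 1 = p * b := by
      rw [← hQl, leadingCoeff, hQd]
    rw [h] at h2 ⊢
    simp at h2
    rw [h2]
    simp
  -- over ℂ
  set NC : ℂ[X] := Lagrange.nodal R (fun r : ℝ => (r : ℂ)) with hNC
  have hNCm : N.map (algebraMap ℝ ℂ) = NC := by
    rw [hN, hNC, Lagrange.nodal, Polynomial.map_prod]
    refine Finset.prod_congr rfl fun r _ => ?_
    simp
  have hne : ∀ r ∈ R, z ≠ (r : ℂ) := by
    rintro r _ rfl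
    simp at hz
  have hinj : Set.InjOn (fun r : ℝ => (r : ℂ)) (R : Set ℝ) := fun a _ b _ h => Complex.ofReal_injective h
  have hremI : rem.map (algebraMap ℝ ℂ) =
      Lagrange.interpolate R (fun r : ℝ => (r : ℂ)) (fun r => ((G.eval r : ℝ) : ℂ)) := by
    refine Lagrange.eq_interpolate_of_eval_eq _ hinj ?_ ?_
    · rw [degree_map]
      refine (degree_modByMonic_lt G hNm).trans_le ?_
      rw [degree_eq_natDegree hNm.ne_zero, hNd]
    · intro r hr
      have h1 : G.eval r = rem.eval r := by
        conv_lhs => rw [hG]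
        rw [eval_add, eval_mul, hNr r hr, zero_mul, add_zero]
      have h2 : eval (r : ℂ) (rem.map (algebraMap ℝ ℂ)) = ((rem.eval r : ℝ) : ℂ) := by
        rw [show (r : ℂ) = algebraMap ℝ ℂ r from rfl, eval_map_algebraMap, aeval_algebraMap_apply]
        rfl
      rw [h2, h1]
  have hremz : aeval z rem = aeval z N * ∑ r ∈ R, (((G.eval r / (derivative N).eval r : ℝ)) : ℂ) *
      (z - (r : ℂ))⁻¹ := by
    have h1 : aeval z rem = eval z (rem.map (algebraMap ℝ ℂ)) := (eval_map_algebraMap _ _).symm
    have h2 : aeval z N = eval z NC := by rw [← hNCm, eval_map_algebraMap]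
    rw [h1, h2, hremI, Lagrange.eval_interpolate_not_at_node _ hne]
    congr 1
    refine Finset.sum_congr rfl fun r hr => ?_
    rw [Lagrange.nodalWeight_eq_eval_derivative_nodal hr, ← hNC, ← hNCm, derivative_map]
    have h3 : eval (r : ℂ) ((derivative N).map (algebraMap ℝ ℂ)) = (((derivative N).eval r : ℝ) : ℂ) := by
      rw [show (r : ℂ) = algebraMap ℝ ℂ r from rfl, eval_map_algebraMap, aeval_algebraMap_apply]
      rfl
    rw [h3]
    push_cast
    ring
  have hBz : aeval z B = (b : ℂ) * aeval z N := by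
    rw [hBN, map_mul, aeval_C]
    rfl
  have hGz : aeval z G = aeval z N * (∑ r ∈ R, (((G.eval r / (derivative N).eval r : ℝ)) : ℂ) *
      (z - (r : ℂ))⁻¹ + (((p * b : ℝ) : ℂ) * z + ((Q.coeff 0 : ℝ) : ℂ))) := by
    have hQz : aeval z Q = (((p * b : ℝ) : ℂ) * z + ((Q.coeff 0 : ℝ) : ℂ)) := by
      conv_lhs => rw [hQe]
      rw [map_add, map_mul, aeval_C, aeval_X, aeval_C]
      rfl
    conv_lhs => rw [hG]
    rw [map_add, map_mul, hremz, hQz]
    ring
  have hkey : aeval z G * (starRingEnd ℂ) (aeval z B) =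
      ((b * Complex.normSq (aeval z N) : ℝ) : ℂ) *
      (∑ r ∈ R, (((G.eval r / (derivative N).eval r : ℝ)) : ℂ) *
      (z - (r : ℂ))⁻¹ + (((p * b : ℝ) : ℂ) * z + ((Q.coeff 0 : ℝ) : ℂ))) := by
    rw [hGz, hBz, map_mul, Complex.conj_ofReal]
    have h1 := normSq_conj (aeval z N)
    rw [Complex.ofReal_mul (b : ℝ) (Complex.normSq (aeval z N)), ← h1]
    ring
  rw [hkey, im_real_mul, Complex.add_im, Complex.add_im, im_real_mul, Complex.ofReal_im, add_zero,
    im_sum, hBz, Complex.normSq_mul, Complex.normSq_ofReal]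
  have hsum : 0 ≤ ∑ r ∈ R, ((((G.eval r / (derivative N).eval r : ℝ)) : ℂ) * (z - (r : ℂ))⁻¹).im := by
    refine Finset.sum_nonneg fun r hr' => ?_
    rw [im_real_mul]
    have h1 := hr r (hmem r hr')
    have h2 : (derivative B).eval r = b * (derivative N).eval r := by
      rw [hBN, derivative_C_mul, eval_mul, eval_C]
    rw [h2] at h1
    have h3 : 0 < (z - (r : ℂ)).im := by simpa using hz
    have h4 := (im_inv_neg h3).2
    refine mul_nonneg_of_nonpos_of_nonpos ?_ h4.le
    have h5 : (derivative N).eval r ≠ 0 := fun h => h1.1 (by rw [h, mul_zero])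
    have h6 : G.eval r * (derivative N).eval r ≤ 0 := by
      have := h1.2
      rw [show G.eval r * (b * (derivative N).eval r) = b * (G.eval r * (derivative N).eval r) by ring] at this
      exact nonpos_of_mul_nonpos_right this hB0
    rw [show G.eval r / (derivative N).eval r = (G.eval r * (derivative N).eval r) / ((derivative N).eval r ^ 2) by
      field_simp]
    exact div_nonpos_of_nonpos_of_nonneg h6 (sq_nonneg _)
  have hn := Complex.normSq_nonneg (aeval z N)
  have := mul_nonneg (mul_nonneg hB0.le hn) hsum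
  nlinarith [this]

end altern

end KB

end Pool.Agent.MJ
end
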