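import Mathlib
import Pool.Agent.Lib.MP_d90615_co.Mg.G017
import Pool.Agent.Lib.MP_d90615_co.Mg.G003
import Pool.Agent.Lib.MP_d90615_co.Mg.G011
import Pool.Agent.Lib.MP_d90615_co.Mg.G007

section

/-!
Complete bipartite systems: real identities, the polynomial system, the hub polynomials.
-/

set_option autoImplicit false
set_option linter.unusedSectionVars false

namespace Pool.Agent.MJ

open Finset Polynomial

namespace KB

lemma sum_erase_comm' {J M : Type*} [DecidableEq J] [AddCommMonoid M] (A : Finset J) (f : J → J → M) :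
    ∑ i ∈ A, ∑ j ∈ A.erase i, f i j = ∑ j ∈ A, ∑ i ∈ A.erase j, f i j := by
  refine Finset.sum_comm' fun a b => ?_
  simp only [Finset.mem_erase]
  constructor
  · rintro ⟨h1, h2, h3⟩
    exact ⟨⟨fun h => h2 h.symm, h1⟩, h3⟩
  · rintro ⟨⟨h1, h2⟩, h3⟩
    exact ⟨h2, fun h => h1 h.symm, h3⟩

section real

open MP_d90615_co.CM (Sys D1 D2 o1 Dq Uq Vq Wq Sq)

variable {ι κ : Type*} [DecidableEq ι] [DecidableEq κ]
variable {r : ι → ℝ} {s : κ → ℝ} {m : Finset ι → Finset κ → ℝ} {x : ι → ℝ} {y : κ → ℝ}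

lemma ph_cm (x : ι → ℝ) (y : κ → ℝ) (m : Finset ι → Finset κ → ℝ) (A : Finset ι) (B : Finset κ) :
    MP_d90615_co.CM.ph x y m A B = ph x y m A B := rfl

/-- the four `φ` -/
theorem ph_four (hm : Sys r s m) (A : Finset ι) (B : Finset κ) (i : ι) (hi : i ∈ A) (j : κ) (hj : j ∈ B) :
    ph x y m A B * ph x y m (A.erase i) (B.erase j) =
      ph x y m (A.erase i) B * ph x y m A (B.erase j) -
      Sq x y m (x i) (y j) (A.erase i) (B.erase j) - ph x y m (A.erase i) (B.erase j) ^ 2 -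
      x i * y j * m (A.erase i) (B.erase j) ^ 2 := by
  simp only [← ph_cm]
  have e1 := MP_d90615_co.CM.ph2 hm x y A B j hj
  have e2 := MP_d90615_co.CM.D1_exp1 o1 r (MP_d90615_co.CM.ph x y m)
        (fun i A B => D2 o1 (MP_d90615_co.CM.ph x y m) A B + x i * MP_d90615_co.CM.be y m A B)
        (fun A B i hi => by rw [MP_d90615_co.CM.ph1 hm x y A B i hi]; ring) A (B.erase j) i hi
  rw [MP_d90615_co.CM.D1_add, MP_d90615_co.CM.D1_smul] at e2
  have e3 := MP_d90615_co.CM.al1 hm x A (B.erase j) i hi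
  have e4 := MP_d90615_co.CM.ph1 hm x y A (B.erase j) i hi
  have e5 := MP_d90615_co.CM.ph2 hm x y (A.erase i) B j hj
  have e6 : MP_d90615_co.CM.ph x y m (A.erase i) (B.erase j) = m (A.erase i) (B.erase j) -
    MP_d90615_co.CM.Lf x y m (A.erase i) (B.erase j) := rfl
  rw [e1, e2, e3, e5]
  unfold Sq Dq Uq Vq Wq
  rw [e4]
  linear_combination (-(x i * y j * m (A.erase i) (B.erase j))) * e6

variable {P Q : ℝ}

theorem g1_id (hm : Sys r s m) (hr : ∀ i, x i * r i = 1 + x i * Q)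
    (hs : ∀ j, y j * s j = 1 + y j * P) (A : Finset ι) (B : Finset κ) (l : ℝ)
    (hP : P = ∑ i ∈ A, x i + l) (hQ : Q = ∑ j ∈ B, y j + l)
    (i : ι) (hi : i ∈ A) (j : κ) (hj : j ∈ B) :
    x i * y j * ph x y m A B - x i * y j * ((1 + l * (∑ i ∈ A, x i + ∑ j ∈ B, y j + l)) *
        m (A.erase i) (B.erase j) -
        l * (D1 o1 m (A.erase i) (B.erase j) + D2 o1 m (A.erase i) (B.erase j))) =
      y j * ph x y m (A.erase i) B + x i * ph x y m A (B.erase j) -
      ph x y m (A.erase i) (B.erase j) - 2 * (x i * y j) * m (A.erase i) (B.erase j) := by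
  simp only [← ph_cm]
  have e0 := MP_d90615_co.CM.SC hm hr hs A B i hi j hj l l (by rw [hP]; ring) (by rw [hQ]; ring)
  have e1 := MP_d90615_co.CM.be2 hm y (A.erase i) B j hj
  have e2 := MP_d90615_co.CM.al1 hm x A (B.erase j) i hi
  have e3 := MP_d90615_co.CM.ward2 hm hr (A.erase i) (B.erase j)
  have e4 := MP_d90615_co.CM.ward1 hm hs (A.erase i) (B.erase j)
  have e5 := MP_d90615_co.CM.SC2 hm hr hs (A.erase i) B j hj
  have e6 := MP_d90615_co.CM.SC1 hm hr hs A (B.erase j) i hi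
  have h : ∑ i ∈ A, x i = x i + ∑ i ∈ A.erase i, x i := (Finset.add_sum_erase A x hi).symm
  have h' : ∑ j ∈ B, y j = y j + ∑ j ∈ B.erase j, y j := (Finset.add_sum_erase B y hj).symm
  set X' := ∑ i ∈ A.erase i, x i
  set Y' := ∑ j ∈ B.erase j, y j
  rw [h] at hP e6 ⊢
  rw [h'] at hQ e5 ⊢
  have hri := hr i
  have hsj := hs j
  have k5 : P - X' = x i + l := by rw [hP]; ring
  have k5' : Q - (y j + Y') = l := by rw [hQ]; ring
  have k6 : P - (x i + X') = l := by rw [hP]; ring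
  have k6' : Q - Y' = y j + l := by rw [hQ]; ring
  rw [k5, k5'] at e5
  rw [k6, k6'] at e6
  rw [e0, e1, e2, e5, e6]
  have kX : X' = P - x i - l := by rw [hP]; ring
  have kY : Y' = Q - y j - l := by rw [hQ]; ring
  rw [kX] at e3
  rw [kY] at e4
  have hX1 : x i + X' = P - l := by rw [hP]; ring
  have hY1 : y j + Y' = Q - l := by rw [hQ]; ring
  rw [hX1, hY1]
  linear_combination (l * x i * MP_d90615_co.CM.be y m (A.erase i) (B.erase j)) * hsj +
    (l * y j * MP_d90615_co.CM.al x m (A.erase i) (B.erase j)) * hri -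
    (l * x i * y j) * e3 - (l * x i * y j) * e4

/-- the differential equation of `φ` on the line -/
theorem ode_id (hm : Sys r s m) (hr : ∀ i, x i * r i = 1 + x i * Q)
    (hs : ∀ j, y j * s j = 1 + y j * P) (A : Finset ι) (B : Finset κ) (l : ℝ)
    (hP : P = ∑ i ∈ A, x i + l) (hQ : Q = ∑ j ∈ B, y j + l) :
    D1 o1 (ph x y m) A B + D2 o1 (ph x y m) A B =
      (∑ i ∈ A, x i + ∑ j ∈ B, y j + l) * ph x y m A B -
      l * (m A B + al x m A B + be y m A B + Lf x y m A B) := by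
  have h1 := MP_d90615_co.CM.ward4 hm hr hs A B
  have h2 := MP_d90615_co.CM.ward4' hm hr hs A B
  have e1 : D1 o1 (ph x y m) A B = D1 o1 (MP_d90615_co.CM.ph x y m) A B := rfl
  have e2 : D2 o1 (ph x y m) A B = D2 o1 (MP_d90615_co.CM.ph x y m) A B := rfl
  have e3 : al x m A B = MP_d90615_co.CM.al x m A B := rfl
  have e4 : be y m A B = MP_d90615_co.CM.be y m A B := rfl
  have e5 : Lf x y m A B = MP_d90615_co.CM.Lf x y m A B := rfl
  have e6 : ph x y m A B = MP_d90615_co.CM.ph x y m A B := rfl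
  have e7 : MP_d90615_co.CM.ph x y m A B = m A B - MP_d90615_co.CM.Lf x y m A B := rfl
  have k1 : Q - ∑ j ∈ B, y j = l := by rw [hQ]; ring
  have k2 : P - ∑ i ∈ A, x i = l := by rw [hP]; ring
  have k3 : ∑ i ∈ A, x i = P - l := by rw [hP]; ring
  have k4 : ∑ j ∈ B, y j = Q - l := by rw [hQ]; ring
  rw [k1, k2] at h1 h2
  rw [e1, e2, e3, e4, e5, e6, h1, h2, k3, k4]
  linear_combination l * e7

/-! ### positivity -/

lemma m_empty_left (hm : Sys r s m) (h0 : m ∅ ∅ = 1) (B : Finset κ) : m ∅ B = ∏ j ∈ B, s j := by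
  induction B using Finset.induction_on with
  | empty => simpa using h0
  | insert b B hb ih =>
    rw [hm.rec2 ∅ (insert b B) b (Finset.mem_insert_self b B), Finset.erase_insert hb, ih,
      Finset.prod_insert hb]
    simp

lemma m_empty_right (hm : Sys r s m) (h0 : m ∅ ∅ = 1) (A : Finset ι) : m A ∅ = ∏ i ∈ A, r i := by
  induction A using Finset.induction_on with
  | empty => simpa using h0
  | insert b B hb ih =>
    rw [hm.rec1 (insert b B) ∅ b (Finset.mem_insert_self b B), Finset.erase_insert hb, ih,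
      Finset.prod_insert hb]
    simp

theorem Sq_nonneg (hm : Sys r s m) (hx : ∀ i, 0 ≤ x i) (hy : ∀ j, 0 ≤ y j) (n : ℕ) :
    ∀ (A : Finset ι) (B : Finset κ) (p q : ℝ), A.card ≤ n → 0 ≤ p → 0 ≤ q → 0 ≤ Sq x y m p q A B := by
  induction n with
  | zero =>
    intro A B p q hA hp hq
    have : A = ∅ := by simpa using hA
    subst this
    rw [MP_d90615_co.CM.R_S hm]
    have h1 : ∀ j, MP_d90615_co.CM.al x m ∅ (B.erase j) = 0 := by
      intro j; simp [MP_d90615_co.CM.al, D1]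
    simp [h1]
  | succ n ih =>
    intro A B p q hA hp hq
    rw [MP_d90615_co.CM.R_S hm]
    have h1 : ∀ i ∈ A, ∀ j ∈ B, 0 ≤ Sq x y m (p + x i) (q + y j) (A.erase i) (B.erase j) := by
      intro i hi j hj
      refine ih _ _ _ _ ?_ (add_nonneg hp (hx i)) (add_nonneg hq (hy j))
      rw [Finset.card_erase_of_mem hi]
      omega
    refine add_nonneg (add_nonneg (Finset.sum_nonneg fun i hi => Finset.sum_nonneg fun j hj => ?_) ?_) ?_
    · have := h1 i hi j hj
      have := hx i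
      have := hy j
      positivity
    · exact mul_nonneg hp (Finset.sum_nonneg fun i _ => mul_nonneg (hx i) (sq_nonneg _))
    · exact mul_nonneg hq (Finset.sum_nonneg fun j _ => mul_nonneg (hy j) (sq_nonneg _))

theorem Sq_pos (hm : Sys r s m) (h0 : m ∅ ∅ = 1) (hx : ∀ i, 0 < x i) (hy : ∀ j, 0 < y j)
    (hr : Function.Injective r) (hs : Function.Injective s) (n : ℕ) :
    ∀ (A : Finset ι) (B : Finset κ) (p q : ℝ), A.card ≤ n → A.Nonempty → B.Nonempty →
      0 ≤ p → 0 ≤ q → 0 < Sq x y m p q A B := by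
  induction n with
  | zero =>
    intro A B p q hA hA'
    have := Finset.card_pos.2 hA'
    omega
  | succ n ih =>
    intro A B p q hA hA' hB' hp hq
    rw [MP_d90615_co.CM.R_S hm]
    have h1 : ∀ i ∈ A, ∀ j ∈ B, 0 ≤ Sq x y m (p + x i) (q + y j) (A.erase i) (B.erase j) := by
      intro i hi j hj
      exact Sq_nonneg hm (fun i => (hx i).le) (fun j => (hy j).le) _ _ _ _ _ le_rfl
        (add_nonneg hp (hx i).le) (add_nonneg hq (hy j).le)
    have hterm : ∀ i ∈ A, ∀ j ∈ B, 0 ≤ Sq x y m (p + x i) (q + y j) (A.erase i) (B.erase j)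
        + MP_d90615_co.CM.ph x y m (A.erase i) (B.erase j) ^ 2
        + (p * q * x i * y j + q * x i + p * y j + x i * y j)
          * m (A.erase i) (B.erase j) ^ 2 := by
      intro i hi j hj
      have := h1 i hi j hj
      have := hx i
      have := hy j
      positivity
    -- one positive term
    have hone : ∃ i ∈ A, ∃ j ∈ B, 0 < Sq x y m (p + x i) (q + y j) (A.erase i) (B.erase j)
        + MP_d90615_co.CM.ph x y m (A.erase i) (B.erase j) ^ 2
        + (p * q * x i * y j + q * x i + p * y j + x i * y j)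
          * m (A.erase i) (B.erase j) ^ 2 := by
      by_cases hA1 : 1 < A.card
      · by_cases hB1 : 1 < B.card
        · obtain ⟨i, hi⟩ := hA'
          obtain ⟨j, hj⟩ := hB'
          refine ⟨i, hi, j, hj, ?_⟩
          have := ih (A.erase i) (B.erase j) (p + x i) (q + y j)
            (by rw [Finset.card_erase_of_mem hi]; omega)
            (Finset.card_pos.1 (by rw [Finset.card_erase_of_mem hi]; omega))
            (Finset.card_pos.1 (by rw [Finset.card_erase_of_mem hj]; omega))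
            (add_nonneg hp (hx i).le) (add_nonneg hq (hy j).le)
          have := hx i
          have := hy j
          positivity
        · -- `B` is a singleton
          obtain ⟨j, hj⟩ := hB'
          have hB2 : B.card = 1 := by
            have := Finset.card_pos.2 ⟨j, hj⟩
            omega
          have hBe : B.erase j = ∅ := by
            rw [← Finset.card_eq_zero, Finset.card_erase_of_mem hj, hB2]
          have : ∃ i ∈ A, ∏ i' ∈ A.erase i, r i' ≠ 0 := by
            by_cases hz : ∃ i ∈ A, r i = 0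
            · obtain ⟨i, hi, hri⟩ := hz
              refine ⟨i, hi, Finset.prod_ne_zero_iff.2 fun i' hi' h => ?_⟩
              have := Finset.mem_erase.1 hi'
              exact this.1 (hr (h.trans hri.symm))
            · push Not at hz
              obtain ⟨i, hi⟩ := hA'
              exact ⟨i, hi, Finset.prod_ne_zero_iff.2 fun i' hi' => hz i' (Finset.mem_of_mem_erase hi')⟩
          obtain ⟨i, hi, hne⟩ := this
          refine ⟨i, hi, j, hj, ?_⟩
          have h2 : m (A.erase i) (B.erase j) ≠ 0 := by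
            rw [hBe, m_empty_right hm h0]
            exact hne
          have := h1 i hi j hj
          have := hx i
          have := hy j
          positivity
      · obtain ⟨i, hi⟩ := hA'
        have hA2 : A.card = 1 := by
          have := Finset.card_pos.2 ⟨i, hi⟩
          omega
        have hAe : A.erase i = ∅ := by
          rw [← Finset.card_eq_zero, Finset.card_erase_of_mem hi, hA2]
        have : ∃ j ∈ B, ∏ j' ∈ B.erase j, s j' ≠ 0 := by
          by_cases hz : ∃ j ∈ B, s j = 0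
          · obtain ⟨j, hj, hsj⟩ := hz
            refine ⟨j, hj, Finset.prod_ne_zero_iff.2 fun j' hj' h => ?_⟩
            have := Finset.mem_erase.1 hj'
            exact this.1 (hs (h.trans hsj.symm))
          · push Not at hz
            obtain ⟨j, hj⟩ := hB'
            exact ⟨j, hj, Finset.prod_ne_zero_iff.2 fun j' hj' => hz j' (Finset.mem_of_mem_erase hj')⟩
        obtain ⟨j, hj, hne⟩ := this
        refine ⟨i, hi, j, hj, ?_⟩
        have h2 : m (A.erase i) (B.erase j) ≠ 0 := by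
          rw [hAe, m_empty_left hm h0]
          exact hne
        have := h1 i hi j hj
        have := hx i
        have := hy j
        positivity
    obtain ⟨i, hi, j, hj, hpos⟩ := hone
    refine add_pos_of_pos_of_nonneg (add_pos_of_pos_of_nonneg ?_ ?_) ?_
    · refine Finset.sum_pos' (fun i hi => Finset.sum_nonneg fun j hj => hterm i hi j hj) ⟨i, hi, ?_⟩
      exact Finset.sum_pos' (fun j hj => hterm i hi j hj) ⟨j, hj, hpos⟩
    · exact mul_nonneg hp (Finset.sum_nonneg fun i _ => mul_nonneg (hx i).le (sq_nonneg _))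
    · exact mul_nonneg hq (Finset.sum_nonneg fun j _ => mul_nonneg (hy j).le (sq_nonneg _))

/-- positivity at the base point -/
theorem m_pos (hm : Sys r s m) (h0 : m ∅ ∅ = 1) (hx : ∀ i, 0 < x i) (hy : ∀ j, 0 < y j)
    (hr : ∀ i, x i * r i = 1 + x i * Q) (hs : ∀ j, y j * s j = 1 + y j * P) (n : ℕ) :
    ∀ (A : Finset ι) (B : Finset κ), A.card + B.card = n → ∑ i ∈ A, x i ≤ P → ∑ j ∈ B, y j ≤ Q →
      0 < m A B ∧ (∀ i ∈ A, m (A.erase i) B ≤ x i * m A B) ∧
      (∀ j ∈ B, m A (B.erase j) ≤ y j * m A B) := by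
  induction n with
  | zero =>
    intro A B h hP hQ
    have hA : A = ∅ := Finset.card_eq_zero.1 (by omega)
    have hB : B = ∅ := Finset.card_eq_zero.1 (by omega)
    subst hA hB
    refine ⟨by rw [h0]; exact one_pos, fun i hi => absurd hi (Finset.notMem_empty i),
      fun j hj => absurd hj (Finset.notMem_empty j)⟩
  | succ n ih =>
    intro A B h hP hQ
    have hsA : ∀ i ∈ A, ∑ i ∈ A.erase i, x i ≤ P := fun i hi => by
      have h1 : ∑ i ∈ A, x i = x i + ∑ i ∈ A.erase i, x i := (Finset.add_sum_erase A x hi).symm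
      have := hx i
      linarith
    have hsB : ∀ j ∈ B, ∑ j ∈ B.erase j, y j ≤ Q := fun j hj => by
      have h1 : ∑ j ∈ B, y j = y j + ∑ j ∈ B.erase j, y j := (Finset.add_sum_erase B y hj).symm
      have := hy j
      linarith
    have k1 : ∀ i ∈ A, 0 < m (A.erase i) B ∧ m (A.erase i) B ≤ x i * m A B := by
      intro i hi
      have hc := Finset.card_pos.2 ⟨i, hi⟩
      obtain ⟨g0, -, g2⟩ := ih (A.erase i) B (by rw [Finset.card_erase_of_mem hi]; omega) (hsA i hi) hQ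
      refine ⟨g0, ?_⟩
      have h1 : ∑ j ∈ B, m (A.erase i) (B.erase j) ≤ (∑ j ∈ B, y j) * m (A.erase i) B := by
        rw [Finset.sum_mul]
        exact Finset.sum_le_sum g2
      have h2 : x i * m A B = (1 + x i * Q) * m (A.erase i) B - x i * ∑ j ∈ B, m (A.erase i) (B.erase j) := by
        rw [hm.rec1 A B i hi, ← hr i]
        ring
      rw [h2]
      have h3 := mul_le_mul_of_nonneg_left h1 (hx i).le
      have h4 := mul_le_mul_of_nonneg_left (mul_le_mul_of_nonneg_right hQ g0.le) (hx i).le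
      nlinarith
    have k2 : ∀ j ∈ B, 0 < m A (B.erase j) ∧ m A (B.erase j) ≤ y j * m A B := by
      intro j hj
      have hc := Finset.card_pos.2 ⟨j, hj⟩
      obtain ⟨g0, g1, -⟩ := ih A (B.erase j) (by rw [Finset.card_erase_of_mem hj]; omega) hP (hsB j hj)
      refine ⟨g0, ?_⟩
      have h1 : ∑ i ∈ A, m (A.erase i) (B.erase j) ≤ (∑ i ∈ A, x i) * m A (B.erase j) := by
        rw [Finset.sum_mul]
        exact Finset.sum_le_sum g1
      have h2 : y j * m A B = (1 + y j * P) * m A (B.erase j) - y j * ∑ i ∈ A, m (A.erase i) (B.erase j) := by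
        rw [hm.rec2 A B j hj, ← hs j]
        ring
      rw [h2]
      have h3 := mul_le_mul_of_nonneg_left h1 (hy j).le
      have h4 := mul_le_mul_of_nonneg_left (mul_le_mul_of_nonneg_right hP g0.le) (hy j).le
      nlinarith
    refine ⟨?_, fun i hi => (k1 i hi).2, fun j hj => (k2 j hj).2⟩
    have hne : A.Nonempty ∨ B.Nonempty := by
      by_contra hcon
      push Not at hcon
      rw [hcon.1, hcon.2] at h
      simp at h
    rcases hne with ⟨i, hi⟩ | ⟨j, hj⟩
    · have := k1 i hi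
      exact (pos_iff_pos_of_mul_pos (this.1.trans_le this.2)).1 (hx i)
    · have := k2 j hj
      exact (pos_iff_pos_of_mul_pos (this.1.trans_le this.2)).1 (hy j)

theorem ph_pos (hm : Sys r s m) (h0 : m ∅ ∅ = 1) (hx : ∀ i, 0 < x i) (hy : ∀ j, 0 < y j)
    (hr : ∀ i, x i * r i = 1 + x i * Q) (hs : ∀ j, y j * s j = 1 + y j * P) (A : Finset ι)
    (B : Finset κ) (hP : ∑ i ∈ A, x i ≤ P) (hQ : ∑ j ∈ B, y j ≤ Q) : 0 < ph x y m A B := by
  induction A using Finset.induction_on with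
  | empty =>
    have := (m_pos hm h0 hx hy hr hs _ ∅ B rfl hP hQ).1
    simpa [ph, Lf] using this
  | insert b A hb ih =>
    have hA : ∑ i ∈ A, x i ≤ P := by
      rw [Finset.sum_insert hb] at hP
      have := hx b
      linarith
    have h1 := MP_d90615_co.CM.SC1 hm hr hs (insert b A) B b (Finset.mem_insert_self b A)
    rw [Finset.erase_insert hb] at h1
    have h2 := ih hA
    have h3 := (m_pos hm h0 hx hy hr hs _ A B rfl hA hQ)
    have h4 : 0 ≤ MP_d90615_co.CM.be y m A B := by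
      unfold MP_d90615_co.CM.be D2
      refine Finset.sum_nonneg fun j hj => mul_nonneg (hy j).le ?_
      have hsB : ∑ j ∈ B.erase j, y j ≤ Q := by
        have h1 : ∑ j ∈ B, y j = y j + ∑ j ∈ B.erase j, y j := (Finset.add_sum_erase B y hj).symm
        have := hy j
        linarith
      exact (m_pos hm h0 hx hy hr hs _ A (B.erase j) rfl hA hsB).1.le
    have h5 : 0 < x b * MP_d90615_co.CM.ph x y m (insert b A) B := by
      rw [h1]
      have e1 : 0 ≤ (Q - ∑ j ∈ B, y j) * x b * m A B :=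
        mul_nonneg (mul_nonneg (by linarith) (hx b).le) h3.1.le
      have e2 : 0 ≤ (P - ∑ i ∈ insert b A, x i) * x b * MP_d90615_co.CM.be y m A B :=
        mul_nonneg (mul_nonneg (by linarith) (hx b).le) h4
      have e3 : 0 < MP_d90615_co.CM.ph x y m A B := h2
      linarith
    exact (pos_iff_pos_of_mul_pos h5).1 (hx b)

end real

open scoped Classical

section nn

/-- the bilinear functional -/
noncomputable def nn (a b : ℝ[X]) : ℝ[X] := T (-1) (T 1 a * T 1 b)

lemma nn_comm (a b : ℝ[X]) : nn a b = nn b a := by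
  unfold nn
  rw [mul_comm]

lemma nn_add_left (a a' b : ℝ[X]) : nn (a + a') b = nn a b + nn a' b := by
  unfold nn
  rw [map_add, add_mul, map_add]

lemma nn_add_right (a b b' : ℝ[X]) : nn a (b + b') = nn a b + nn a b' := by
  rw [nn_comm, nn_add_left, nn_comm b, nn_comm b']

lemma nn_C_mul_left (c : ℝ) (a b : ℝ[X]) : nn (C c * a) b = C c * nn a b := by
  unfold nn
  rw [T_C_mul, mul_assoc, T_C_mul]

lemma nn_C_mul_right (c : ℝ) (a b : ℝ[X]) : nn a (C c * b) = C c * nn a b := by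
  rw [nn_comm, nn_C_mul_left, nn_comm]

lemma nn_sum_left {J : Type*} (s : Finset J) (f : J → ℝ[X]) (b : ℝ[X]) :
    nn (∑ i ∈ s, f i) b = ∑ i ∈ s, nn (f i) b := by
  unfold nn
  rw [map_sum, Finset.sum_mul, map_sum]

lemma nn_sum_right {J : Type*} (s : Finset J) (f : J → ℝ[X]) (b : ℝ[X]) :
    nn b (∑ i ∈ s, f i) = ∑ i ∈ s, nn b (f i) := by
  rw [nn_comm, nn_sum_left]
  exact Finset.sum_congr rfl fun i _ => nn_comm _ _

lemma derivative_nn (a b : ℝ[X]) :
    derivative (nn a b) = nn (derivative a) b + nn a (derivative b) := by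
  unfold nn
  rw [derivative_T, derivative_mul, map_add, derivative_T, derivative_T]

lemma nn_lin_left (a b : ℝ[X]) (η : ℝ) :
    nn ((X + C η) * a) b = (X + C η) * nn a b - nn a (derivative b) := by
  have h := derivative_nn a b
  have e1 : T 1 ((X + C η) * a) = (X + C η) * T 1 a + derivative (T 1 a) := by
    have := T_X_sub_C_mul (1 : ℝ) (-η) a
    rw [C_neg, sub_neg_eq_add, C_1, one_mul] at this
    exact this
  have e2 : T (-1) ((X + C η) * (T 1 a * T 1 b)) = (X + C η) * nn a b - derivative (nn a b) := by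
    have := T_X_sub_C_mul (-1 : ℝ) (-η) (T 1 a * T 1 b)
    rw [C_neg, sub_neg_eq_add, C_neg, C_1] at this
    rw [this]
    unfold nn
    ring
  have e3 : nn ((X + C η) * a) b = T (-1) ((X + C η) * (T 1 a * T 1 b)) + nn (derivative a) b := by
    unfold nn
    rw [e1, ← map_add, derivative_T]
    congr 1
    ring
  rw [e3, e2, h]
  ring

lemma nn_lin_right (a b : ℝ[X]) (η : ℝ) :
    nn a ((X + C η) * b) = (X + C η) * nn a b - nn (derivative a) b := by
  rw [nn_comm, nn_lin_left, nn_comm b a, nn_comm b]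

lemma nn_one : nn 1 1 = 1 := by
  unfold nn
  rw [T_one, mul_one, T_one]

end nn

section sys

variable {J1 J2 : Type*} [Fintype J1] [Fintype J2] (θ1 : J1 → ℝ) (θ2 : J2 → ℝ)

/-- `∏ (X + 1/θ - a)` -/
noncomputable def PA {J : Type*} (θ : J → ℝ) (a : ℝ) (A : Finset J) : ℝ[X] :=
  ∏ i ∈ A, (X + C ((θ i)⁻¹ - a))

lemma PA_erase {J : Type*} (θ : J → ℝ) (a : ℝ) (A : Finset J) {i : J} (hi : i ∈ A) :
    PA θ a A = (X + C ((θ i)⁻¹ - a)) * PA θ a (A.erase i) := by
  unfold PA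
  rw [Finset.mul_prod_erase A (fun i => X + C ((θ i)⁻¹ - a)) hi]

lemma derivative_PA {J : Type*} (θ : J → ℝ) (a : ℝ) (A : Finset J) :
    derivative (PA θ a A) = ∑ i ∈ A, PA θ a (A.erase i) := by
  unfold PA
  rw [Polynomial.derivative_prod_finset]
  refine Finset.sum_congr rfl fun i _ => ?_
  simp

/-- the polynomial system -/
noncomputable def mP (A : Finset J1) (B : Finset J2) : ℝ[X] :=
  (nn (PA θ1 (∑ i, θ1 i) A) (PA θ2 (∑ j, θ2 j) B)).comp (X + C (∑ i, θ1 i + ∑ j, θ2 j))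

theorem sys_mP : SysR (fun i => X + C ((θ1 i)⁻¹ + ∑ j, θ2 j)) (fun j => X + C ((θ2 j)⁻¹ + ∑ i, θ1 i))
    (mP θ1 θ2) := by
  refine ⟨fun A B i hi => ?_, fun A B j hj => ?_, ?_⟩
  · unfold mP
    rw [PA_erase θ1 _ A hi, nn_lin_left, derivative_PA, nn_sum_right, sub_comp, mul_comp, add_comp,
      X_comp, C_comp, Polynomial.sum_comp, add_assoc, ← C_add]
    congr 4
    ring
  · unfold mP
    rw [PA_erase θ2 _ B hj, nn_lin_right, derivative_PA, nn_sum_left, sub_comp, mul_comp, add_comp,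
      X_comp, C_comp, Polynomial.sum_comp, add_assoc, ← C_add]
    congr 4
    ring
  · unfold mP PA
    rw [Finset.prod_empty, Finset.prod_empty, nn_one, one_comp]

theorem derivative_mP (A : Finset J1) (B : Finset J2) :
    derivative (mP θ1 θ2 A B) = ∑ i ∈ A, mP θ1 θ2 (A.erase i) B + ∑ j ∈ B, mP θ1 θ2 A (B.erase j) := by
  unfold mP
  rw [derivative_comp, derivative_add, derivative_X, derivative_C, add_zero, one_mul,
    derivative_nn, derivative_PA, derivative_PA, nn_sum_left, nn_sum_right, add_comp,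
    Polynomial.sum_comp, Polynomial.sum_comp]

/-- `p` is monic of degree `n` -/
def Mon (n : ℕ) (p : ℝ[X]) : Prop := p.natDegree ≤ n ∧ p.coeff n = 1

lemma Mon.step {n : ℕ} {p q : ℝ[X]} {c : ℝ} (hp : Mon n p) (hq : q.natDegree ≤ n) :
    Mon (n + 1) ((X + C c) * p - q) := by
  refine ⟨?_, ?_⟩
  · refine (natDegree_sub_le _ _).trans (max_le ?_ (hq.trans (Nat.le_succ n)))
    refine natDegree_mul_le.trans ?_
    have := natDegree_add_C (p := (X : ℝ[X])) (a := c)
    rw [this, natDegree_X]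
    have := hp.1
    omega
  · rw [coeff_sub, add_mul, coeff_add, coeff_X_mul, hp.2, coeff_C_mul,
      coeff_eq_zero_of_natDegree_lt (lt_of_le_of_lt hp.1 (Nat.lt_succ_self n)),
      coeff_eq_zero_of_natDegree_lt (lt_of_le_of_lt hq (Nat.lt_succ_self n))]
    ring

theorem mon_mP (n : ℕ) : ∀ (A : Finset J1) (B : Finset J2), A.card + B.card = n →
    Mon n (mP θ1 θ2 A B) := by
  induction n using Nat.strong_induction_on with
  | _ n ih =>
    intro A B h
    rcases A.eq_empty_or_nonempty with hA | ⟨i, hi⟩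
    · rcases B.eq_empty_or_nonempty with hB | ⟨j, hj⟩
      · subst hA hB
        have hn : n = 0 := by simpa using h.symm
        subst hn
        rw [(sys_mP θ1 θ2).base]
        exact ⟨by simp, by simp⟩
      · have hc := Finset.card_pos.2 ⟨j, hj⟩
        obtain ⟨k, rfl⟩ : ∃ k, n = k + 1 := ⟨n - 1, by omega⟩
        rw [(sys_mP θ1 θ2).rec2 A B j hj]
        refine Mon.step (ih k (by omega) A (B.erase j) (by rw [Finset.card_erase_of_mem hj]; omega)) ?_
        rw [hA]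
        simp
    · have hc := Finset.card_pos.2 ⟨i, hi⟩
      obtain ⟨k, rfl⟩ : ∃ k, n = k + 1 := ⟨n - 1, by omega⟩
      rw [(sys_mP θ1 θ2).rec1 A B i hi]
      refine Mon.step (ih k (by omega) (A.erase i) B (by rw [Finset.card_erase_of_mem hi]; omega)) ?_
      refine natDegree_sum_le_of_forall_le _ _ fun j hj => ?_
      have hc' := Finset.card_pos.2 ⟨j, hj⟩
      have := (ih (k - 1) (by omega) (A.erase i) (B.erase j)
        (by rw [Finset.card_erase_of_mem hi, Finset.card_erase_of_mem hj]; omega)).1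
      omega

/-- `φ` as a polynomial -/
noncomputable def pP (A : Finset J1) (B : Finset J2) : ℝ[X] :=
  ph (fun i => C (θ1 i)) (fun j => C (θ2 j)) (mP θ1 θ2) A B

theorem mon_pP (A : Finset J1) (B : Finset J2) : Mon (A.card + B.card) (pP θ1 θ2 A B) := by
  have h1 := mon_mP θ1 θ2 _ A B rfl
  have h2 : A.card = 0 ∨ B.card = 0 ∨ (Lf (fun i => C (θ1 i)) (fun j => C (θ2 j)) (mP θ1 θ2) A B).natDegree <
      A.card + B.card := by
    by_cases hA : A.card = 0
    · exact Or.inl hA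
    by_cases hB : B.card = 0
    · exact Or.inr (Or.inl hB)
    refine Or.inr (Or.inr ?_)
    have : (Lf (fun i => C (θ1 i)) (fun j => C (θ2 j)) (mP θ1 θ2) A B).natDegree ≤
        A.card - 1 + (B.card - 1) := by
      unfold Lf
      refine natDegree_sum_le_of_forall_le _ _ fun i hi => ?_
      refine (natDegree_C_mul_le _ _).trans ?_
      refine natDegree_sum_le_of_forall_le _ _ fun j hj => ?_
      refine (natDegree_C_mul_le _ _).trans ?_
      refine (mon_mP θ1 θ2 _ _ _ rfl).1.trans ?_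
      rw [Finset.card_erase_of_mem hi, Finset.card_erase_of_mem hj]
    omega
  have h3 : (Lf (fun i => C (θ1 i)) (fun j => C (θ2 j)) (mP θ1 θ2) A B).natDegree ≤ A.card + B.card ∧
      (Lf (fun i => C (θ1 i)) (fun j => C (θ2 j)) (mP θ1 θ2) A B).coeff (A.card + B.card) = 0 := by
    rcases h2 with h | h | h
    · rw [Finset.card_eq_zero] at h
      subst h
      simp [Lf]
    · rw [Finset.card_eq_zero] at h
      subst h
      simp [Lf]
    · exact ⟨h.le, coeff_eq_zero_of_natDegree_lt h⟩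
  unfold pP ph
  refine ⟨(natDegree_sub_le _ _).trans (max_le h1.1 h3.1), ?_⟩
  rw [coeff_sub, h1.2, h3.2, sub_zero]

end sys

section ident

variable {J1 J2 : Type*} [Fintype J1] [Fintype J2] (θ1 : J1 → ℝ) (θ2 : J2 → ℝ)

/-- `f' = ∑ f_i + ∑ f_j` -/
def Der (f : Finset J1 → Finset J2 → ℝ[X]) : Prop :=
  ∀ A B, derivative (f A B) = ∑ i ∈ A, f (A.erase i) B + ∑ j ∈ B, f A (B.erase j)

lemma Der.al {f : Finset J1 → Finset J2 → ℝ[X]} (hf : Der f) (x : J1 → ℝ) :
    Der (al (fun i => C (x i)) f) := by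
  intro A B
  unfold KB.al
  rw [derivative_sum]
  have h1 : ∀ i ∈ A, derivative (C (x i) * f (A.erase i) B) =
      ∑ i' ∈ A.erase i, C (x i) * f ((A.erase i).erase i') B +
      ∑ j ∈ B, C (x i) * f (A.erase i) (B.erase j) := by
    intro i _
    rw [derivative_C_mul, hf, mul_add, Finset.mul_sum, Finset.mul_sum]
  rw [Finset.sum_congr rfl h1, Finset.sum_add_distrib]
  congr 1
  · rw [sum_erase_comm' A (fun i i' => C (x i) * f ((A.erase i).erase i') B)]
    refine Finset.sum_congr rfl fun i _ => Finset.sum_congr rfl fun i' _ => ?_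
    rw [Finset.erase_right_comm]
  · rw [Finset.sum_comm]

lemma Der.be {f : Finset J1 → Finset J2 → ℝ[X]} (hf : Der f) (y : J2 → ℝ) :
    Der (be (fun j => C (y j)) f) := by
  have h1 : Der (fun (B : Finset J2) (A : Finset J1) => f A B) := fun B A => by
    rw [hf A B, add_comm]
  have h2 := h1.al y
  intro A B
  have h3 := h2 B A
  rw [add_comm] at h3
  exact h3

lemma der_mP : Der (mP θ1 θ2) := derivative_mP θ1 θ2

lemma der_pP : Der (pP θ1 θ2) := by
  intro A B
  have h1 : ∀ A B, Lf (fun i => C (θ1 i)) (fun j => C (θ2 j)) (mP θ1 θ2) A B =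
      be (fun j => C (θ2 j)) (al (fun i => C (θ1 i)) (mP θ1 θ2)) A B := fun A B => Lf_al _ _ _ A B
  have h2 := ((der_mP θ1 θ2).al θ1).be θ2 A B
  unfold pP ph
  rw [derivative_sub, h1, h2, der_mP θ1 θ2 A B]
  simp only [h1, Finset.sum_sub_distrib]
  ring

/-- the real system at `l` -/
theorem sys_eval (l : ℝ) : MP_d90615_co.CM.Sys (fun i => l + ((θ1 i)⁻¹ + ∑ j, θ2 j))
    (fun j => l + ((θ2 j)⁻¹ + ∑ i, θ1 i)) (fun A B => (mP θ1 θ2 A B).eval l) := by
  have h := (sys_mP θ1 θ2).map (evalRingHom l)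
  refine ⟨fun A B i hi => ?_, fun A B j hj => ?_⟩
  · have := h.rec1 A B i hi
    simp only [coe_evalRingHom, eval_add, eval_X, eval_C] at this
    exact this
  · have := h.rec2 A B j hj
    simp only [coe_evalRingHom, eval_add, eval_X, eval_C] at this
    exact this

lemma base_eval (l : ℝ) : (mP θ1 θ2 ∅ ∅).eval l = 1 := by
  rw [(sys_mP θ1 θ2).base, eval_one]

lemma al_eval (l : ℝ) (A : Finset J1) (B : Finset J2) :
    (al (fun i => C (θ1 i)) (mP θ1 θ2) A B).eval l = al θ1 (fun A B => (mP θ1 θ2 A B).eval l) A B := by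
  unfold al
  rw [eval_finsetSum]
  exact Finset.sum_congr rfl fun i _ => by rw [eval_mul, eval_C]

lemma be_eval (l : ℝ) (A : Finset J1) (B : Finset J2) :
    (be (fun j => C (θ2 j)) (mP θ1 θ2) A B).eval l = be θ2 (fun A B => (mP θ1 θ2 A B).eval l) A B := by
  unfold be
  rw [eval_finsetSum]
  exact Finset.sum_congr rfl fun i _ => by rw [eval_mul, eval_C]

lemma Lf_eval (l : ℝ) (A : Finset J1) (B : Finset J2) :
    (Lf (fun i => C (θ1 i)) (fun j => C (θ2 j)) (mP θ1 θ2) A B).eval l =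
      Lf θ1 θ2 (fun A B => (mP θ1 θ2 A B).eval l) A B := by
  unfold Lf
  rw [eval_finsetSum]
  refine Finset.sum_congr rfl fun i _ => ?_
  rw [eval_mul, eval_C, eval_finsetSum]
  congr 1
  exact Finset.sum_congr rfl fun i _ => by rw [eval_mul, eval_C]

lemma pP_eval (l : ℝ) (A : Finset J1) (B : Finset J2) :
    (pP θ1 θ2 A B).eval l = ph θ1 θ2 (fun A B => (mP θ1 θ2 A B).eval l) A B := by
  unfold pP ph
  rw [eval_sub, Lf_eval]

variable {θ1 θ2}

lemma hr_eval (h1 : ∀ i, 0 < θ1 i) (l : ℝ) (i : J1) :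
    θ1 i * (l + ((θ1 i)⁻¹ + ∑ j, θ2 j)) = 1 + θ1 i * (∑ j, θ2 j + l) := by
  have := (h1 i).ne'
  field_simp
  ring

lemma hs_eval (h2 : ∀ j, 0 < θ2 j) (l : ℝ) (j : J2) :
    θ2 j * (l + ((θ2 j)⁻¹ + ∑ i, θ1 i)) = 1 + θ2 j * (∑ i, θ1 i + l) := by
  have := (h2 j).ne'
  field_simp
  ring

/-- the ode of `φ` -/
theorem ode_pP (h1 : ∀ i, 0 < θ1 i) (h2 : ∀ j, 0 < θ2 j) :
    derivative (pP θ1 θ2 univ univ) = (C (∑ i, θ1 i + ∑ j, θ2 j) + X) * pP θ1 θ2 univ univ -
      X * (mP θ1 θ2 univ univ + al (fun i => C (θ1 i)) (mP θ1 θ2) univ univ +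
        be (fun j => C (θ2 j)) (mP θ1 θ2) univ univ +
        Lf (fun i => C (θ1 i)) (fun j => C (θ2 j)) (mP θ1 θ2) univ univ) := by
  refine Polynomial.funext fun l => ?_
  have h3 := ode_id (sys_eval θ1 θ2 l) (hr_eval h1 l) (hs_eval h2 l) univ univ l rfl rfl
  rw [der_pP θ1 θ2, eval_add, eval_finsetSum, eval_finsetSum, eval_sub, eval_mul, eval_mul, eval_add,
    eval_add, eval_add, eval_add, eval_C, eval_X, al_eval, be_eval, Lf_eval, pP_eval]
  have h4 : ∑ i, (pP θ1 θ2 (univ.erase i) univ).eval l =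
      MP_d90615_co.CM.D1 MP_d90615_co.CM.o1 (ph θ1 θ2 (fun A B => (mP θ1 θ2 A B).eval l)) univ univ := by
    unfold MP_d90615_co.CM.D1
    exact Finset.sum_congr rfl fun i _ => by rw [pP_eval, one_mul]
  have h5 : ∑ i, (pP θ1 θ2 univ (univ.erase i)).eval l =
      MP_d90615_co.CM.D2 MP_d90615_co.CM.o1 (ph θ1 θ2 (fun A B => (mP θ1 θ2 A B).eval l)) univ univ := by
    unfold MP_d90615_co.CM.D2
    exact Finset.sum_congr rfl fun i _ => by rw [pP_eval, one_mul]
  rw [h4, h5, h3]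

lemma sh_Pf {J : Type*} (θ : J → ℝ) (hθ : ∀ i, 0 < θ i) (a : ℝ) (A : Finset J) :
    sh a (Pf A θ) = C (∏ i ∈ A, θ i) * PA θ a A := by
  unfold sh Pf PA
  rw [Polynomial.prod_comp, map_prod, ← Finset.prod_mul_distrib]
  refine Finset.prod_congr rfl fun i _ => ?_
  have h : C (θ i) * C ((θ i)⁻¹) = (1 : ℝ[X]) := by
    rw [← C_mul, mul_inv_cancel₀ (hθ i).ne', C_1]
  rw [add_comp, one_comp, mul_comp, C_comp, X_comp, C_sub]
  linear_combination -h

lemma sh_at {J : Type*} [Fintype J] (θ : J → ℝ) (hθ : ∀ i, 0 < θ i) (a : ℝ) :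
    sh a (Pf univ θ + Qf univ θ) = C (∏ i, θ i) * (PA θ a univ + ∑ i, C (θ i) * PA θ a (univ.erase i)) := by
  have h0 : sh a (Pf univ θ + Qf univ θ) = sh a (Pf univ θ) + sh a (Qf univ θ) := by
    unfold sh
    rw [add_comp]
  rw [h0, sh_Pf θ hθ, mul_add, Finset.mul_sum]
  congr 1
  have h1 : sh a (Qf univ θ) = ∑ i, C (θ i ^ 2) * sh a (Pf (univ.erase i) θ) := by
    unfold sh Qf Pf
    rw [Polynomial.sum_comp]
    refine Finset.sum_congr rfl fun i _ => ?_
    rw [mul_comp, C_comp]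
  rw [h1]
  refine Finset.sum_congr rfl fun i _ => ?_
  rw [sh_Pf θ hθ, ← mul_assoc, ← C_mul, ← mul_assoc, ← C_mul, ← Finset.mul_prod_erase univ θ (mem_univ i)]
  congr 2
  ring

lemma nn_at (h1 : ∀ i, 0 < θ1 i) (h2 : ∀ j, 0 < θ2 j) :
    (nn (sh (∑ i, θ1 i) (Pf univ θ1 + Qf univ θ1)) (sh (∑ j, θ2 j) (Pf univ θ2 + Qf univ θ2))).comp
      (X + C (∑ i, θ1 i + ∑ j, θ2 j)) =
    C (∏ i, θ1 i) * C (∏ j, θ2 j) *
      (mP θ1 θ2 univ univ + al (fun i => C (θ1 i)) (mP θ1 θ2) univ univ +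
        be (fun j => C (θ2 j)) (mP θ1 θ2) univ univ +
        Lf (fun i => C (θ1 i)) (fun j => C (θ2 j)) (mP θ1 θ2) univ univ) := by
  rw [sh_at θ1 h1, sh_at θ2 h2, nn_C_mul_left, nn_C_mul_right, nn_add_left, nn_add_right, nn_add_right,
    nn_sum_left, nn_sum_left]
  simp only [nn_C_mul_left]
  simp only [nn_sum_right, nn_C_mul_right, mul_comp, C_comp, add_comp, Polynomial.sum_comp]
  unfold al be Lf mP
  ring

lemma class_deriv {J : Type*} [Fintype J] (θ : J → ℝ) :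
    (derivative (T 1 (sh (∑ i, θ i) (Pf univ θ + Qf univ θ)))).eval 0 =
      (∑ i, θ i) * (T 1 (sh (∑ i, θ i) (Pf univ θ + Qf univ θ))).eval 0 := by
  set a := ∑ i, θ i with ha
  have h1 := derivative_prod_lin θ
  rw [← ha] at h1
  have h2 : X * sh a (Pf univ θ) - derivative (sh a (Pf univ θ)) =
      (X - C a) * sh a (Pf univ θ + Qf univ θ) := by
    have h3 := congrArg (fun p : ℝ[X] => p.comp (X - C a)) h1
    simp only [sub_comp, mul_comp, add_comp, C_comp, X_comp] at h3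
    have h4 : derivative (sh a (Pf univ θ)) = (derivative (Pf univ θ)).comp (X - C a) := by
      unfold sh
      rw [derivative_comp]
      simp
    rw [h4]
    unfold sh
    rw [add_comp]
    linear_combination h3
  have h5 := congrArg (T (1 : ℝ)) h2
  rw [map_sub, T_X_mul, T_X_sub_C_mul, derivative_T] at h5
  have h6 := congrArg (Polynomial.eval 0) h5
  simp only [eval_sub, eval_add, eval_mul, eval_X, eval_C, zero_mul, zero_sub, C_1, one_mul] at h6
  linarith

/-- **The hub polynomial.** -/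
theorem F_eq (h1 : ∀ i, 0 < θ1 i) (h2 : ∀ j, 0 < θ2 j) (F : ℝ[X])
    (hF : ∀ l, F.eval l = Lam ((∑ i, θ1 i + ∑ j, θ2 j) + l) ((1 + C l * X) *
      (T 1 (sh (∑ i, θ1 i) (Pf univ θ1 + Qf univ θ1)) *
        T 1 (sh (∑ j, θ2 j) (Pf univ θ2 + Qf univ θ2))))) :
    F = C (∏ i, θ1 i) * C (∏ j, θ2 j) * pP θ1 θ2 univ univ := by
  set S := ∑ i, θ1 i + ∑ j, θ2 j with hS
  set r1 := T 1 (sh (∑ i, θ1 i) (Pf univ θ1 + Qf univ θ1)) with hr1
  set r2 := T 1 (sh (∑ j, θ2 j) (Pf univ θ2 + Qf univ θ2)) with hr2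
  have hd : (derivative (r1 * r2)).eval 0 = S * (r1 * r2).eval 0 := by
    rw [derivative_mul, eval_add, eval_mul, eval_mul, eval_mul, hr1, hr2, class_deriv θ1,
      class_deriv θ2, hS]
    ring
  have k1 := hub_ode S (r1 * r2) F hd hF
  have k2 : T (-1) (r1 * r2) = nn (sh (∑ i, θ1 i) (Pf univ θ1 + Qf univ θ1))
      (sh (∑ j, θ2 j) (Pf univ θ2 + Qf univ θ2)) := rfl
  rw [k2, nn_at h1 h2] at k1
  have k3 := ode_pP h1 h2
  set D := F - C (∏ i, θ1 i) * C (∏ j, θ2 j) * pP θ1 θ2 univ univ with hD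
  have k4 : derivative D = (C S + X) * D := by
    rw [hD, derivative_sub, k1, ← C_mul, derivative_C_mul, k3]
    simp only [C_mul]
    ring
  have k5 : D = 0 := by
    by_contra hne
    have h3 : (derivative D).natDegree ≤ D.natDegree - 1 := natDegree_derivative_le D
    have h4 : (C S + X : ℝ[X]) ≠ 0 := by
      rw [add_comm]
      exact X_add_C_ne_zero S
    rw [k4, natDegree_mul h4 hne] at h3
    have h5 : (C S + X : ℝ[X]).natDegree = 1 := by
      rw [add_comm]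
      exact natDegree_X_add_C S
    omega
  rw [hD] at k5
  exact sub_eq_zero.1 k5

/-- **The marked polynomial.** -/
theorem E_eq (h1 : ∀ i, 0 < θ1 i) (h2 : ∀ j, 0 < θ2 j) (j : J1) (k : J2) (E : ℝ[X])
    (hE : ∀ l, E.eval l = (T (-1) ((1 + C l * X) *
      (T 1 (sh (∑ i, θ1 i) (Af θ1 j)) * T 1 (sh (∑ j, θ2 j) (Af θ2 k))))).eval
        ((∑ i, θ1 i + ∑ j, θ2 j) + l)) :
    E = C (∏ i, θ1 i) * C (∏ j, θ2 j) *
      ((1 + X * (C (∑ i, θ1 i + ∑ j, θ2 j) + X)) * mP θ1 θ2 (univ.erase j) (univ.erase k) -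
        X * derivative (mP θ1 θ2 (univ.erase j) (univ.erase k))) := by
  have e1 : sh (∑ i, θ1 i) (Af θ1 j) = C (∏ i, θ1 i) * PA θ1 (∑ i, θ1 i) (univ.erase j) := by
    have : sh (∑ i, θ1 i) (Af θ1 j) = C (θ1 j) * sh (∑ i, θ1 i) (Pf (univ.erase j) θ1) := by
      unfold sh Af
      rw [mul_comp, C_comp]
    rw [this, sh_Pf θ1 h1, ← mul_assoc, ← C_mul, Finset.mul_prod_erase univ θ1 (mem_univ j)]
  have e2 : sh (∑ j, θ2 j) (Af θ2 k) = C (∏ j, θ2 j) * PA θ2 (∑ j, θ2 j) (univ.erase k) := by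
    have : sh (∑ j, θ2 j) (Af θ2 k) = C (θ2 k) * sh (∑ j, θ2 j) (Pf (univ.erase k) θ2) := by
      unfold sh Af
      rw [mul_comp, C_comp]
    rw [this, sh_Pf θ2 h2, ← mul_assoc, ← C_mul, Finset.mul_prod_erase univ θ2 (mem_univ k)]
  refine Polynomial.funext fun l => ?_
  rw [hE l, e1, e2, T_C_mul, T_C_mul]
  set a := T 1 (PA θ1 (∑ i, θ1 i) (univ.erase j)) with ha
  set b := T 1 (PA θ2 (∑ j, θ2 j) (univ.erase k)) with hb
  have e3 : (1 + C l * X) * (C (∏ i, θ1 i) * a * (C (∏ j, θ2 j) * b)) =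
      C (∏ i, θ1 i) * (C (∏ j, θ2 j) * (a * b + C l * (X * (a * b)))) := by ring
  rw [e3, T_C_mul, T_C_mul, map_add, T_C_mul, T_X_mul]
  have e4 : T (-1) (a * b) = nn (PA θ1 (∑ i, θ1 i) (univ.erase j)) (PA θ2 (∑ j, θ2 j) (univ.erase k)) := rfl
  rw [e4]
  have e5 : derivative (mP θ1 θ2 (univ.erase j) (univ.erase k)) =
      (derivative (nn (PA θ1 (∑ i, θ1 i) (univ.erase j)) (PA θ2 (∑ j, θ2 j) (univ.erase k)))).comp
        (X + C (∑ i, θ1 i + ∑ j, θ2 j)) := by
    unfold mP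
    rw [derivative_comp]
    simp
  rw [e5]
  unfold mP
  simp only [eval_mul, eval_add, eval_sub, eval_C, eval_X, eval_comp, eval_one, C_neg, C_1, eval_neg]
  rw [add_comm l]
  ring

end ident

end KB

end Pool.Agent.MJ
end

section

/-!
The values of the hub polynomials of two sets of independent vertices.
-/

set_option autoImplicit false
set_option linter.unusedSectionVars false
set_option linter.unusedVariables false

namespace Pool.Agent.MJ

open Finset Polynomial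

namespace KB

section vals

open MP_d90615_co.CM (Sys D1 D2 o1 Fl Rla Rlb El Gf)

variable {ι κ : Type*} [DecidableEq ι] [DecidableEq κ]
variable {r : ι → ℝ} {s : κ → ℝ} {m : Finset ι → Finset κ → ℝ} {x : ι → ℝ} {y : κ → ℝ} {P Q l : ℝ}

theorem Fl_id (hm : Sys r s m) (hr : ∀ i, x i * r i = 1 + x i * (Q + l))
    (hs : ∀ j, y j * s j = 1 + y j * (P + l)) (A : Finset ι) (B : Finset κ)
    (hP : P = ∑ i ∈ A, x i) (hQ : Q = ∑ j ∈ B, y j) (i : ι) (hi : i ∈ A) (j : κ) (hj : j ∈ B) :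
    x i * y j * ph x y m A B = Fl x y m P Q (x i) (y j) l (A.erase i) (B.erase j) := by
  have e0 := g1_id hm hr hs A B l (by rw [hP]) (by rw [hQ]) i hi j hj
  have e5 := MP_d90615_co.CM.SC2 hm hr hs (A.erase i) B j hj
  have e6 := MP_d90615_co.CM.SC1 hm hr hs A (B.erase j) i hi
  have h : ∑ i ∈ A, x i = x i + ∑ i ∈ A.erase i, x i := (Finset.add_sum_erase A x hi).symm
  have h' : ∑ j ∈ B, y j = y j + ∑ j ∈ B.erase j, y j := (Finset.add_sum_erase B y hj).symm
  have k1 : P + l - ∑ i ∈ A.erase i, x i = x i + l := by rw [hP, h]; ring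
  have k2 : Q + l - ∑ j ∈ B, y j = l := by rw [hQ]; ring
  have k3 : P + l - ∑ i ∈ A, x i = l := by rw [hP]; ring
  have k4 : Q + l - ∑ j ∈ B.erase j, y j = y j + l := by rw [hQ, h']; ring
  rw [k1, k2] at e5
  rw [k3, k4] at e6
  rw [← hP, ← hQ] at e0
  simp only [ph_cm] at e5 e6
  rw [e5, e6] at e0
  unfold Fl Gf
  rw [ph_cm]
  linear_combination e0

theorem Rla_id (hm : Sys r s m) (hr : ∀ i, x i * r i = 1 + x i * (Q + l))
    (hs : ∀ j, y j * s j = 1 + y j * (P + l)) (A : Finset ι) (B : Finset κ)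
    (hP : P = ∑ i ∈ A, x i) (hQ : Q = ∑ j ∈ B, y j) (i : ι) (hi : i ∈ A) (j : κ) (hj : j ∈ B) :
    x i * y j * (m (A.erase i) B + be y m (A.erase i) B) =
      Rla y m P Q (x i) (y j) l (A.erase i) (B.erase j) := by
  have e1 := MP_d90615_co.CM.be2 hm y (A.erase i) B j hj
  have e2 := MP_d90615_co.CM.m2 hm (A.erase i) B j hj
  have e4 := MP_d90615_co.CM.ward1 hm hs (A.erase i) (B.erase j)
  have e7 : be y m (A.erase i) B = MP_d90615_co.CM.be y m (A.erase i) B := rfl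
  have h' : ∑ j ∈ B, y j = y j + ∑ j ∈ B.erase j, y j := (Finset.add_sum_erase B y hj).symm
  have k4 : ∑ j ∈ B.erase j, y j = Q - y j := by rw [hQ, h']; ring
  rw [k4] at e4
  have hsj := hs j
  rw [e7, e1, e2]
  unfold Rla Gf
  linear_combination (x i * (m (A.erase i) (B.erase j) + MP_d90615_co.CM.be y m (A.erase i) (B.erase j))) * hsj
    - x i * y j * e4

theorem Rlb_id (hm : Sys r s m) (hr : ∀ i, x i * r i = 1 + x i * (Q + l))
    (hs : ∀ j, y j * s j = 1 + y j * (P + l)) (A : Finset ι) (B : Finset κ)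
    (hP : P = ∑ i ∈ A, x i) (hQ : Q = ∑ j ∈ B, y j) (i : ι) (hi : i ∈ A) (j : κ) (hj : j ∈ B) :
    x i * y j * (m A (B.erase j) + al x m A (B.erase j)) =
      Rlb x m P Q (x i) (y j) l (A.erase i) (B.erase j) := by
  have e1 := MP_d90615_co.CM.al1 hm x A (B.erase j) i hi
  have e2 := MP_d90615_co.CM.m1 hm A (B.erase j) i hi
  have e4 := MP_d90615_co.CM.ward2 hm hr (A.erase i) (B.erase j)
  have e7 : al x m A (B.erase j) = MP_d90615_co.CM.al x m A (B.erase j) := rfl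
  have h : ∑ i ∈ A, x i = x i + ∑ i ∈ A.erase i, x i := (Finset.add_sum_erase A x hi).symm
  have k4 : ∑ i ∈ A.erase i, x i = P - x i := by rw [hP, h]; ring
  rw [k4] at e4
  have hri := hr i
  rw [e7, e1, e2]
  unfold Rlb Gf
  linear_combination (y j * (m (A.erase i) (B.erase j) + MP_d90615_co.CM.al x m (A.erase i) (B.erase j))) * hri
    - x i * y j * e4

end vals

open scoped Classical

section polys

variable {J1 J2 : Type*} [Fintype J1] [Fintype J2] {θ1 : J1 → ℝ} {θ2 : J2 → ℝ}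

lemma sh_Af {J : Type*} [Fintype J] (θ : J → ℝ) (hθ : ∀ i, 0 < θ i) (a : ℝ) (j : J) :
    sh a (Af θ j) = C (∏ i, θ i) * PA θ a (univ.erase j) := by
  have : sh a (Af θ j) = C (θ j) * sh a (Pf (univ.erase j) θ) := by
    unfold sh Af
    rw [mul_comp, C_comp]
  rw [this, sh_Pf θ hθ, ← mul_assoc, ← C_mul, Finset.mul_prod_erase univ θ (mem_univ j)]

theorem Ra_eq (h1 : ∀ i, 0 < θ1 i) (h2 : ∀ j, 0 < θ2 j) (j : J1) (Ra : ℝ[X])
    (hRa : ∀ l, Ra.eval l = (T (-1) (T 1 (sh (∑ i, θ1 i) (Af θ1 j)) *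
      T 1 (sh (∑ i, θ2 i) (Pf univ θ2 + Qf univ θ2)))).eval (∑ i, θ1 i + ∑ i, θ2 i + l)) :
    Ra = C (∏ i, θ1 i) * C (∏ j, θ2 j) * (mP θ1 θ2 (univ.erase j) univ +
      be (fun j => C (θ2 j)) (mP θ1 θ2) (univ.erase j) univ) := by
  have e1 : Ra = (nn (sh (∑ i, θ1 i) (Af θ1 j)) (sh (∑ i, θ2 i) (Pf univ θ2 + Qf univ θ2))).comp
      (X + C (∑ i, θ1 i + ∑ i, θ2 i)) := by
    refine Polynomial.funext fun l => ?_
    rw [hRa, eval_comp, eval_add, eval_X, eval_C, add_comm l]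
    rfl
  rw [e1, sh_Af θ1 h1, sh_at θ2 h2, nn_C_mul_left, nn_C_mul_right, nn_add_right, nn_sum_right]
  simp only [nn_C_mul_right, mul_comp, C_comp, add_comp, Polynomial.sum_comp]
  unfold be mP
  ring

theorem Rb_eq (h1 : ∀ i, 0 < θ1 i) (h2 : ∀ j, 0 < θ2 j) (k : J2) (Rb : ℝ[X])
    (hRb : ∀ l, Rb.eval l = (T (-1) (T 1 (sh (∑ i, θ1 i) (Pf univ θ1 + Qf univ θ1)) *
      T 1 (sh (∑ i, θ2 i) (Af θ2 k)))).eval (∑ i, θ1 i + ∑ i, θ2 i + l)) :
    Rb = C (∏ i, θ1 i) * C (∏ j, θ2 j) * (mP θ1 θ2 univ (univ.erase k) +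
      al (fun i => C (θ1 i)) (mP θ1 θ2) univ (univ.erase k)) := by
  have e1 : Rb = (nn (sh (∑ i, θ1 i) (Pf univ θ1 + Qf univ θ1)) (sh (∑ i, θ2 i) (Af θ2 k))).comp
      (X + C (∑ i, θ1 i + ∑ i, θ2 i)) := by
    refine Polynomial.funext fun l => ?_
    rw [hRb, eval_comp, eval_add, eval_X, eval_C, add_comm l]
    rfl
  rw [e1, sh_Af θ2 h2, sh_at θ1 h1, nn_C_mul_left, nn_C_mul_right, nn_add_left, nn_sum_left]
  simp only [nn_C_mul_left, mul_comp, C_comp, add_comp, Polynomial.sum_comp]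
  unfold al mP
  ring

theorem ss_values_gen (h1 : ∀ i, 0 < θ1 i) (h2 : ∀ i, 0 < θ2 i) (j : J1) (k : J2) (F E Ra Rb : ℝ[X])
    (hF : ∀ l, F.eval l = Lam (∑ i, θ1 i + ∑ i, θ2 i + l) ((1 + C l * X) *
      (T 1 (sh (∑ i, θ1 i) (Pf univ θ1 + Qf univ θ1)) *
        T 1 (sh (∑ i, θ2 i) (Pf univ θ2 + Qf univ θ2)))))
    (hE : ∀ l, E.eval l = (T (-1) ((1 + C l * X) * (T 1 (sh (∑ i, θ1 i) (Af θ1 j)) *
      T 1 (sh (∑ i, θ2 i) (Af θ2 k))))).eval (∑ i, θ1 i + ∑ i, θ2 i + l))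
    (hRa : ∀ l, Ra.eval l = (T (-1) (T 1 (sh (∑ i, θ1 i) (Af θ1 j)) *
      T 1 (sh (∑ i, θ2 i) (Pf univ θ2 + Qf univ θ2)))).eval (∑ i, θ1 i + ∑ i, θ2 i + l))
    (hRb : ∀ l, Rb.eval l = (T (-1) (T 1 (sh (∑ i, θ1 i) (Pf univ θ1 + Qf univ θ1)) *
      T 1 (sh (∑ i, θ2 i) (Af θ2 k)))).eval (∑ i, θ1 i + ∑ i, θ2 i + l)) :
    ∃ Fab U3 : ℝ[X],
      (F - X * Ra) * (F - X * Rb) - F * Fab = X ^ 2 * (Ra * Rb) + F * (C 2 * U3 - E) ∧
      ∀ l, F.eval 0 * U3.eval l ^ 2 ≤ E.eval 0 * ((F.eval l - l * Ra.eval l) *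
        (F.eval l - l * Rb.eval l) - F.eval l * Fab.eval l) := by
  have hFe := F_eq h1 h2 F hF
  have hEe := E_eq h1 h2 j k E hE
  have hRae := Ra_eq h1 h2 j Ra hRa
  have hRbe := Rb_eq h1 h2 k Rb hRb
  set p := θ1 j with hp
  set q := θ2 k with hq
  have hp0 : 0 < p := h1 j
  have hq0 : 0 < q := h2 k
  set PP : ℝ := (∏ i, θ1 i) * ∏ j, θ2 j with hPP
  have hPP0 : 0 < PP := mul_pos (Finset.prod_pos fun i _ => h1 i) (Finset.prod_pos fun i _ => h2 i)
  set c : ℝ := PP / (p * q) with hc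
  have hc0 : 0 < c := div_pos hPP0 (mul_pos hp0 hq0)
  have hcpq : c * (p * q) = PP := by
    rw [hc]
    field_simp
  set P : ℝ := ∑ i, θ1 i with hP
  set Q : ℝ := ∑ j, θ2 j with hQ
  set V1 : Finset J1 := univ.erase j with hV1
  set V2 : Finset J2 := univ.erase k with hV2
  set M : ℝ → Finset J1 → Finset J2 → ℝ := fun l A B => (mP θ1 θ2 A B).eval l with hM
  have hsys := fun l => sys_eval θ1 θ2 l
  have hr := fun l => hr_eval (θ2 := θ2) h1 l
  have hs := fun l => hs_eval (θ1 := θ1) h2 l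
  -- values
  have vF : ∀ l, F.eval l = c * MP_d90615_co.CM.Fl θ1 θ2 (M l) P Q p q l V1 V2 := by
    intro l
    have h3 := Fl_id (hsys l) (hr l) (hs l) univ univ rfl rfl j (mem_univ j) k (mem_univ k)
    rw [← hP, ← hQ] at h3
    rw [← hp, ← hq, ← pP_eval] at h3
    rw [hFe, eval_mul, eval_mul, eval_C, eval_C, ← hPP, ← hcpq]
    have : MP_d90615_co.CM.Fl θ1 θ2 (M l) P Q p q l V1 V2 = p * q * (pP θ1 θ2 univ univ).eval l := h3.symm
    rw [this]
    ring
  have vE : ∀ l, E.eval l = c * MP_d90615_co.CM.El (M l) P Q p q l V1 V2 := by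
    intro l
    have hd : (derivative (mP θ1 θ2 V1 V2)).eval l =
        MP_d90615_co.CM.D1 MP_d90615_co.CM.o1 (M l) V1 V2 + MP_d90615_co.CM.D2 MP_d90615_co.CM.o1 (M l) V1 V2 := by
      rw [derivative_mP, eval_add, eval_finsetSum, eval_finsetSum]
      unfold MP_d90615_co.CM.D1 MP_d90615_co.CM.D2
      simp only [one_mul]
      rfl
    rw [hEe]
    simp only [eval_mul, eval_sub, eval_add, eval_C, eval_X, eval_one]
    rw [hd, ← hPP, ← hcpq]
    have e1 : eval l (mP θ1 θ2 V1 V2) = M l V1 V2 := rfl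
    rw [e1]
    unfold MP_d90615_co.CM.El MP_d90615_co.CM.Gf
    ring
  have vRa : ∀ l, Ra.eval l = c * MP_d90615_co.CM.Rla θ2 (M l) P Q p q l V1 V2 := by
    intro l
    have h3 := Rla_id (hsys l) (hr l) (hs l) univ univ rfl rfl j (mem_univ j) k (mem_univ k)
    rw [← hP, ← hQ] at h3
    rw [← hp, ← hq, ← be_eval] at h3
    rw [hRae, eval_mul, eval_mul, eval_C, eval_C, eval_add, ← hPP, ← hcpq]
    have : MP_d90615_co.CM.Rla θ2 (M l) P Q p q l V1 V2 = p * q *
      ((mP θ1 θ2 V1 univ).eval l + (be (fun j => C (θ2 j)) (mP θ1 θ2) V1 univ).eval l) := h3.symm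
    rw [this]
    ring
  have vRb : ∀ l, Rb.eval l = c * MP_d90615_co.CM.Rlb θ1 (M l) P Q p q l V1 V2 := by
    intro l
    have h3 := Rlb_id (hsys l) (hr l) (hs l) univ univ rfl rfl j (mem_univ j) k (mem_univ k)
    rw [← hP, ← hQ] at h3
    rw [← hp, ← hq, ← al_eval] at h3
    rw [hRbe, eval_mul, eval_mul, eval_C, eval_C, eval_add, ← hPP, ← hcpq]
    have : MP_d90615_co.CM.Rlb θ1 (M l) P Q p q l V1 V2 = p * q *
      ((mP θ1 θ2 univ V2).eval l + (al (fun i => C (θ1 i)) (mP θ1 θ2) univ V2).eval l) := h3.symm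
    rw [this]
    ring
  refine ⟨C c * pP θ1 θ2 V1 V2, C c * (C (p * q) * mP θ1 θ2 V1 V2), ?_, ?_⟩
  · refine Polynomial.funext fun l => ?_
    have h3 := MP_d90615_co.CM.line_alg θ1 θ2 (M l) P Q p q l V1 V2
    simp only [eval_mul, eval_sub, eval_add, eval_C, eval_X, eval_pow, vF, vE, vRa, vRb, pP_eval]
    have e1 : eval l (mP θ1 θ2 V1 V2) = M l V1 V2 := rfl
    rw [e1]
    have e2 : ph θ1 θ2 (fun A B => eval l (mP θ1 θ2 A B)) V1 V2 = MP_d90615_co.CM.ph θ1 θ2 (M l) V1 V2 := rfl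
    rw [e2]
    linear_combination c ^ 2 * h3
  · intro l
    have hr0 : ∀ i, θ1 i * ((0 : ℝ) + ((θ1 i)⁻¹ + ∑ j, θ2 j)) = 1 + θ1 i * Q := by
      intro i
      rw [hr 0 i, hQ, add_zero]
    have hs0 : ∀ i, θ2 i * ((0 : ℝ) + ((θ2 i)⁻¹ + ∑ j, θ1 j)) = 1 + θ2 i * P := by
      intro i
      rw [hs 0 i, hP, add_zero]
    have hpV : p = P - ∑ i ∈ V1, θ1 i := by
      have : ∑ i, θ1 i = θ1 j + ∑ i ∈ univ.erase j, θ1 i := (Finset.add_sum_erase univ θ1 (mem_univ j)).symm
      rw [hP, this, hp]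
      ring
    have hqV : q = Q - ∑ i ∈ V2, θ2 i := by
      have : ∑ i, θ2 i = θ2 k + ∑ i ∈ univ.erase k, θ2 i := (Finset.add_sum_erase univ θ2 (mem_univ k)).symm
      rw [hQ, this, hq]
      ring
    have hm0 : 0 < M 0 V1 V2 := by
      refine (m_pos (hsys 0) (base_eval θ1 θ2 0) h1 h2 hr0 hs0 _ V1 V2 rfl ?_ ?_).1
      · linarith
      · linarith
    have h3 := MP_d90615_co.CM.ss_line (l := l) (hsys l) (hsys 0) (fun i => (h1 i).le) (fun i => (h2 i).le)
      hr0 hs0 (hr l) (hs l) V1 V2 hpV hqV hp0.le hq0.le hm0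
    have vF0 : F.eval 0 = c * (p * q * M 0 V1 V2 + MP_d90615_co.CM.ph θ1 θ2 (M 0) V1 V2) := by
      rw [vF 0]
      unfold MP_d90615_co.CM.Fl
      ring
    have vE0 : E.eval 0 = c * (p * q * M 0 V1 V2) := by
      rw [vE 0]
      unfold MP_d90615_co.CM.El
      ring
    rw [vF0, vE0, vF l, vRa l, vRb l]
    simp only [eval_mul, eval_C, pP_eval]
    have e1 : eval l (mP θ1 θ2 V1 V2) = M l V1 V2 := rfl
    rw [e1]
    have e2 : ph θ1 θ2 (fun A B => eval l (mP θ1 θ2 A B)) V1 V2 = MP_d90615_co.CM.ph θ1 θ2 (M l) V1 V2 := rfl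
    rw [e2]
    have h4 := mul_le_mul_of_nonneg_left h3 (pow_nonneg hc0.le 3)
    calc _ = c ^ 3 * ((p * q * M 0 V1 V2 + MP_d90615_co.CM.ph θ1 θ2 (M 0) V1 V2) * (p * q * M l V1 V2) ^ 2) := by ring
      _ ≤ _ := h4
      _ = _ := by ring

end polys

end KB

/-- the values for `Fin`-indexed masses -/
theorem ss_values {m n : ℕ} (θ1 : Fin m → ℝ) (θ2 : Fin n → ℝ) (h1 : ∀ i, 0 < θ1 i)
    (h2 : ∀ i, 0 < θ2 i) (j : Fin m) (k : Fin n) (F E Ra Rb : ℝ[X])
    (hF : ∀ l, F.eval l = Lam (∑ i, θ1 i + ∑ i, θ2 i + l) ((1 + C l * X) *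
      (T 1 (sh (∑ i, θ1 i) (Pf univ θ1 + Qf univ θ1)) *
        T 1 (sh (∑ i, θ2 i) (Pf univ θ2 + Qf univ θ2)))))
    (hE : ∀ l, E.eval l = (T (-1) ((1 + C l * X) * (T 1 (sh (∑ i, θ1 i) (Af θ1 j)) *
      T 1 (sh (∑ i, θ2 i) (Af θ2 k))))).eval (∑ i, θ1 i + ∑ i, θ2 i + l))
    (hRa : ∀ l, Ra.eval l = (T (-1) (T 1 (sh (∑ i, θ1 i) (Af θ1 j)) *
      T 1 (sh (∑ i, θ2 i) (Pf univ θ2 + Qf univ θ2)))).eval (∑ i, θ1 i + ∑ i, θ2 i + l))
    (hRb : ∀ l, Rb.eval l = (T (-1) (T 1 (sh (∑ i, θ1 i) (Pf univ θ1 + Qf univ θ1)) *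
      T 1 (sh (∑ i, θ2 i) (Af θ2 k)))).eval (∑ i, θ1 i + ∑ i, θ2 i + l)) :
    ∃ Fab U3 : ℝ[X],
      (F - X * Ra) * (F - X * Rb) - F * Fab = X ^ 2 * (Ra * Rb) + F * (C 2 * U3 - E) ∧
      ∀ l, F.eval 0 * U3.eval l ^ 2 ≤ E.eval 0 * ((F.eval l - l * Ra.eval l) *
        (F.eval l - l * Rb.eval l) - F.eval l * Fab.eval l) :=
  KB.ss_values_gen h1 h2 j k F E Ra Rb hF hE hRa hRb

end Pool.Agent.MJ
end
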