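import Mathlib
import Pool.Agent.Lib.MP_d90615_co.Mg.G014
import Pool.Agent.Lib.MP_d90615_co.Mg.G011
import Pool.Agent.Lib.MP_d90615_co.Mg.G017
import Pool.Agent.Lib.MP_d90615_co.Mg.G009
import Pool.Agent.Lib.MP_d90615_co.Mg.G018

section

/-!
The join of two edgeless classes.
-/

set_option autoImplicit false
set_option linter.unusedSectionVars false

namespace Pool.Agent.MJ

open Finset Polynomial
open scoped Classical
open Pool.Agent.PW (Z N N2 Ray cw pw mv ct)

section Cls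

variable {V : Type*} [Fintype V]

/-- The marked hub polynomial of `W - x x` from the one of `W`. -/
theorem mark_inv (W : Sym2 V → ℝ) (x : V → ℝ) (a : V) (f M : ℝ[X])
    (hf : ∀ l, Zs W (fun v => l * x v) = f.eval l)
    (hM : ∀ l, Zs W (fun v => l * x v) - Gs W (fun v => l * x v) a = l * M.eval l) (μ : ℝ) :
    Zs (fun g => W g - pw x g) (fun v => μ * x v) -
      Gs (fun g => W g - pw x g) (fun v => μ * x v) a =
      μ * (T 1 (sh (∑ v, x v) M)).eval μ := by
  obtain ⟨r, g, hr, hg, hr'⟩ := exists_hub (fun g => W g - pw x g) x a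
  have hYW : (fun e => (W e - pw x e) + pw x e) = W := by
    funext e
    ring
  set S := ∑ v, x v with hS
  have hdvd : X ∣ r - g := by
    rw [Polynomial.X_dvd_iff, Polynomial.coeff_zero_eq_eval_zero, eval_sub, ← hr, ← hg, Gs_zero,
      sub_self]
  obtain ⟨m, hm⟩ := hdvd
  have hf' : ∀ l, f.eval l = Lam (S + l) ((1 + C l * X) * r) := by
    intro l
    have h1 := (lemmaA_mark (fun g => W g - pw x g) x a r g hr hg l).1
    rw [hYW, hf l] at h1
    exact h1
  have hfg' : ∀ l, (f - X * M).eval l = Lam (S + l) (r + C l * X * g) := by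
    intro l
    have h1 := (lemmaA_mark (fun g => W g - pw x g) x a r g hr hg l).2
    rw [hYW] at h1
    rw [← h1, eval_sub, eval_mul, eval_X, ← hM l, ← hf l]
    ring
  have k4 := hub_mark S r g m f (f - X * M) hm hf' hfg'
  rw [sub_sub_cancel] at k4
  have k5 : (T (-1) m).comp (X + C S) = M := (mul_left_cancel₀ X_ne_zero k4).symm
  have k6 : sh S M = T (-1) m := by
    rw [← k5]
    unfold sh
    rw [comp_assoc]
    simp
  have k7 := T_neg_T (-1) m
  rw [neg_neg] at k7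
  rw [k6, k7, hr, hg, ← eval_sub, hm, eval_mul, eval_X]

/-- An edgeless class. -/
theorem edgeless (y : V → ℝ) (a : V) (μ : ℝ) :
    Zs (fun g => (0 : ℝ) - pw y g) (fun v => μ * y v) =
      (T 1 (sh (∑ v, y v) (Pf univ y + Qf univ y))).eval μ := by
  have h1 := hub_inv (fun _ : Sym2 V => (0 : ℝ)) y a (Pf univ y) (fun l => by
    rw [Zs_zero]
    unfold Pf
    rw [eval_prod]
    refine Finset.prod_congr rfl fun v _ => ?_
    simp only [eval_add, eval_one, eval_mul, eval_C, eval_X]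
    ring) μ
  rw [h1]
  congr 4
  have h2 := derivative_prod_lin y
  have h3 : C (∑ v, y v) * Pf univ y - derivative (Pf univ y) = X * Qf univ y := by
    linear_combination h2
  rw [h3]
  ext n
  rw [coeff_divX, coeff_X_mul]

/-- An edgeless class with a mark. -/
theorem edgeless_mark (y : V → ℝ) (a : V) (μ : ℝ) :
    Zs (fun g => (0 : ℝ) - pw y g) (fun v => μ * y v) -
      Gs (fun g => (0 : ℝ) - pw y g) (fun v => μ * y v) a =
      μ * (T 1 (sh (∑ v, y v) (Af y a))).eval μ := by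
  refine mark_inv (fun _ : Sym2 V => (0 : ℝ)) y a (Pf univ y) (Af y a) (fun l => ?_)
    (fun l => ?_) μ
  · rw [Zs_zero]
    unfold Pf
    rw [eval_prod]
    refine Finset.prod_congr rfl fun v _ => ?_
    simp only [eval_add, eval_one, eval_mul, eval_C, eval_X]
    ring
  · rw [Gs_of_star, Zs_zero, Zs_zero]
    rw [← Finset.mul_prod_erase univ (fun v => 1 + l * y v) (mem_univ a),
      ← Finset.mul_prod_erase univ
        (fun v => 1 + Function.update (fun v => l * y v) a (l * y a + 1) v) (mem_univ a)]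
    have h1 : ∏ v ∈ univ.erase a, (1 + Function.update (fun v => l * y v) a (l * y a + 1) v) =
        ∏ v ∈ univ.erase a, (1 + l * y v) := by
      refine Finset.prod_congr rfl fun v hv => ?_
      rw [Function.update_of_ne (Finset.ne_of_mem_erase hv)]
    have h2 : (Af y a).eval l = y a * ∏ v ∈ univ.erase a, (1 + l * y v) := by
      unfold Af Pf
      rw [eval_mul, eval_C, eval_prod]
      congr 1
      refine Finset.prod_congr rfl fun v _ => ?_
      simp only [eval_add, eval_one, eval_mul, eval_C, eval_X]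
      ring
    rw [h1, h2, Function.update_self]
    ring

lemma rz_update {p : V → Prop} {a : V} (ha : p a) (z : V → ℝ) (t : ℝ) :
    rz p (Function.update z a t) = Function.update (rz p z) a t := by
  funext v
  by_cases h : v = a
  · subst h
    unfold rz
    rw [if_pos ha, Function.update_self, Function.update_self]
  · rw [Function.update_of_ne h]
    unfold rz
    rw [Function.update_of_ne h]

lemma rz_update' {p : V → Prop} {a : V} (ha : ¬ p a) (z : V → ℝ) (t : ℝ) :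
    rz p (Function.update z a t) = rz p z := by
  funext v
  unfold rz
  by_cases h : v = a
  · subst h
    rw [if_neg ha, if_neg ha]
  · rw [Function.update_of_ne h]

/-- A mark in a union. -/
theorem Gs_union (p : V → Prop) (W : Sym2 V → ℝ) (z : V → ℝ)
    (hW : ∀ u v, p u → ¬ p v → W s(u, v) = 0) {a : V} (ha : p a) :
    Gs W z a = Gs (rW p W) (rz p z) a * Zs (rW (fun v => ¬ p v) W) (rz (fun v => ¬ p v) z) := by
  rw [Gs_of_star, Gs_of_star, Zs_union p W _ hW, Zs_union p W z hW, rz_update ha,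
    rz_update' (p := fun v => ¬ p v) (not_not.mpr ha)]
  have h1 : rz p z a = z a := by
    unfold rz
    rw [if_pos ha]
  rw [h1]
  ring

theorem Gs_union' (p : V → Prop) (W : Sym2 V → ℝ) (z : V → ℝ)
    (hW : ∀ u v, p u → ¬ p v → W s(u, v) = 0) {b : V} (hb : ¬ p b) :
    Gs W z b = Zs (rW p W) (rz p z) * Gs (rW (fun v => ¬ p v) W) (rz (fun v => ¬ p v) z) b := by
  rw [Gs_of_star, Gs_of_star, Zs_union p W _ hW, Zs_union p W z hW, rz_update' hb,
    rz_update (p := fun v => ¬ p v) hb]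
  have h1 : rz (fun v => ¬ p v) z b = z b := by
    unfold rz
    rw [if_pos hb]
  rw [h1]
  ring

end Cls

section Bip

variable {V : Type*} [Fintype V]

/-- The complete bipartite graph with classes `q`, `¬ q`: the input of the cone lemma. -/
theorem bip_aux (x : V → ℝ) (hx : ∀ v, 0 ≤ x v) (q : V → Prop) {a b : V} (ha : q a) (hb : ¬ q b)
    (hxa : 0 < x a) (hxb : 0 < x b) (S : ℝ) (hS : S = ∑ v, x v) (r1 r2 m1 m2 : ℝ[X])
    (hr1 : ∀ μ, Zs (fun g => (0 : ℝ) - pw (rz q x) g) (fun v => μ * rz q x v) = r1.eval μ)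
    (hr2 : ∀ μ, Zs (fun g => (0 : ℝ) - pw (rz (fun v => ¬ q v) x) g)
      (fun v => μ * rz (fun v => ¬ q v) x v) = r2.eval μ)
    (hm1 : ∀ μ, Zs (fun g => (0 : ℝ) - pw (rz q x) g) (fun v => μ * rz q x v) -
      Gs (fun g => (0 : ℝ) - pw (rz q x) g) (fun v => μ * rz q x v) a = μ * m1.eval μ)
    (hm2 : ∀ μ, Zs (fun g => (0 : ℝ) - pw (rz (fun v => ¬ q v) x) g)
      (fun v => μ * rz (fun v => ¬ q v) x v) -
      Gs (fun g => (0 : ℝ) - pw (rz (fun v => ¬ q v) x) g)
        (fun v => μ * rz (fun v => ¬ q v) x v) b = μ * m2.eval μ)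
    (F E Ra Rb R : ℝ[X]) (hF : ∀ l, F.eval l = Lam (S + l) ((1 + C l * X) * (r1 * r2)))
    (hE : ∀ l, E.eval l = (T (-1) ((1 + C l * X) * (m1 * m2))).eval (S + l))
    (hRa : ∀ l, Ra.eval l = (T (-1) (m1 * r2)).eval (S + l))
    (hRb : ∀ l, Rb.eval l = (T (-1) (r1 * m2)).eval (S + l)) (hR : C 2 * R = Ra + Rb) :
    0 < F.eval 0 ∧
    (∃ (N : ℕ) (θ κ : Fin N → ℝ), (∀ i, 0 < θ i) ∧ (∀ i, 0 ≤ κ i) ∧ N = F.natDegree ∧
      F = C (F.eval 0) * ∏ i, (1 + C (θ i) * X) ∧
      R = C (F.eval 0) * ∑ i, C (κ i * θ i) * ∏ j ∈ univ.erase i, (1 + C (θ j) * X)) ∧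
    (∃ ε : ℝ, 0 < ε ∧ ∀ s : ℝ, |s| < ε → (F - C s * E).Splits) ∧
    E.natDegree ≤ F.natDegree ∧
    (∃ T2, C (F.eval 0) * E - C (E.eval 0) * F = X ^ 2 * T2) := by
  subst hS
  set S := ∑ v, x v with hS
  have hab : a ≠ b := by
    rintro rfl
    exact hb ha
  set W : Sym2 V → ℝ := glue q (fun _ => 0) (fun _ => 0) x with hWdef
  have hW : ∀ g, 0 ≤ W g := glue_nonneg (fun _ => le_rfl) (fun _ => le_rfl) hx
  have hWab : W s(a, b) = x a * x b := glue_cross _ _ _ ha hb
  set Y : Sym2 V → ℝ := fun g => W g - pw x g with hY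
  have hY0 : ∀ u v, q u → ¬ q v → Y s(u, v) = 0 := by
    intro u v hu hv
    show W s(u, v) - pw x s(u, v) = 0
    rw [hWdef, glue_cross _ _ _ hu hv, Pool.Agent.PW.pw_mk, sub_self]
  have hYW : (fun g => Y g + pw x g) = W := by
    funext g
    show W g - pw x g + pw x g = W g
    ring
  have hz : ∀ p : V → Prop, rW p (fun _ => (0 : ℝ)) = fun _ => 0 := by
    intro p
    funext g
    unfold rW
    rw [ite_self]
  have hYq : rW q Y = fun g => 0 - pw (rz q x) g := by
    rw [hY, rW_sub_pw, rW_glue, hz]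
  have hYq' : rW (fun v => ¬ q v) Y = fun g => 0 - pw (rz (fun v => ¬ q v) x) g := by
    rw [hY, rW_sub_pw, rW_glue', hz]
  -- one weight
  have hp : ∀ t μ, Zs (Function.update Y s(a, b) t) (fun v => μ * x v) =
      (C (1 + t) * (r1 * r2) - C t * (X * m1 * (X * m2))).eval μ := by
    intro t μ
    have h1 := Zs_pair q (fun v => ¬ q v) (fun v h => not_not_intro h) Y (fun v => μ * x v) hY0 ha
      hb t
    rw [rW_true _ (fun v => em (q v)), rz_true _ (fun v => em (q v))] at h1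
    rw [h1, hYq, hYq', rz_mul, rz_mul, hm1, hm2, hr1, hr2]
    simp only [eval_mul, eval_sub, eval_C, eval_X]
  have hY1 : ∀ μ, Zs Y (fun v => μ * x v) = (r1 * r2).eval μ := by
    intro μ
    have h2 := hp 0 μ
    rw [← hY0 a b ha hb, Function.update_eq_self, hY0 a b ha hb] at h2
    rw [h2]
    simp only [eval_mul, eval_sub, eval_C, eval_X]
    ring
  have hYa : ∀ μ, Gs Y (fun v => μ * x v) a = ((r1 - X * m1) * r2).eval μ := by
    intro μ
    rw [Gs_union q Y _ hY0 ha, hYq, hYq', rz_mul, rz_mul, hr2, eval_mul, eval_sub, eval_mul, eval_X,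
      ← hm1 μ, ← hr1 μ]
    ring
  have hYb : ∀ μ, Gs Y (fun v => μ * x v) b = (r1 * (r2 - X * m2)).eval μ := by
    intro μ
    rw [Gs_union' q Y _ hY0 hb, hYq, hYq', rz_mul, rz_mul, hr1, eval_mul, eval_sub, eval_mul, eval_X,
      ← hm2 μ, ← hr2 μ]
    ring
  -- the hub polynomials of `W`
  have hFW : ∀ l, Zs W (fun v => l * x v) = F.eval l := by
    intro l
    have h1 := (lemmaA_mark Y x a _ _ hY1 hYa l).1
    rw [hYW] at h1
    rw [h1, hF]
  have hFa : ∀ l, Gs W (fun v => l * x v) a = (F - X * Ra).eval l := by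
    intro l
    have h1 := (lemmaA_mark Y x a _ _ hY1 hYa l).2
    rw [hYW] at h1
    rw [h1, eval_sub, eval_mul, eval_X, hF, hRa, ← Lam_X_sq, ← Lam_C_mul, ← Lam_sub]
    congr 1
    ring
  have hFb : ∀ l, Gs W (fun v => l * x v) b = (F - X * Rb).eval l := by
    intro l
    have h1 := (lemmaA_mark Y x b _ _ hY1 hYb l).2
    rw [hYW] at h1
    rw [h1, eval_sub, eval_mul, eval_X, hF, hRb, ← Lam_X_sq, ← Lam_C_mul, ← Lam_sub]
    congr 1
    ring
  have hE' : ∀ l, Zs (cw a b W) (fun v => l * mv x a b v) = (F - E).eval l := by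
    intro l
    have h1 := Zs_del W hab (x a * x b - 1) (fun v => l * x v)
    have h2 : ∀ v, mv (fun v => l * x v) a b v = l * mv x a b v := fun v => by
      unfold mv
      split_ifs
      · rw [mul_zero]
      · rw [mul_add]
      · rfl
    rw [Zs_congr2 (fun _ _ => rfl) h2, hFW, hWab] at h1
    have h3 : Function.update W s(a, b) (x a * x b - 1) =
        fun g => Function.update Y s(a, b) (-1) g + pw x g := by
      funext g
      by_cases h4 : g = s(a, b)
      · subst h4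
        rw [Function.update_self, Function.update_self, Pool.Agent.PW.pw_mk]
        ring
      · rw [Function.update_of_ne h4, Function.update_of_ne h4]
        show W g = W g - pw x g + pw x g
        ring
    obtain ⟨_, g', _, hg', _⟩ := exists_hub (Function.update Y s(a, b) (-1)) x a
    have h4 := (lemmaA_mark (Function.update Y s(a, b) (-1)) x a _ _ (hp (-1)) hg' l).1
    rw [← h3] at h4
    rw [h4] at h1
    have h5 : (1 + C l * X) * (C (1 + -1) * (r1 * r2) -
        C (-1) * (X * m1 * (X * m2))) = X ^ 2 * ((1 + C l * X) * (m1 * m2)) := by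
      simp only [C_add, C_neg, C_1]
      ring
    rw [h5, Lam_X_sq, ← hE] at h1
    rw [eval_sub, h1]
    ring
  have hFE : F - (F - E) = E := by ring
  have hder : (derivative F).eval 0 = S * F.eval 0 := by
    obtain ⟨p, g, hp1, hg1, hp'⟩ := exists_hub W x a
    have h1 : p = F := Polynomial.funext fun l => by rw [← hp1, hFW]
    rw [h1] at hp'
    exact hp'
  have hder' : (derivative (F - E)).eval 0 = S * (F - E).eval 0 := by
    obtain ⟨p, g, hp1, hg1, hp'⟩ := exists_hub (cw a b W) (mv x a b) a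
    have h1 : p = F - E := Polynomial.funext fun l => by rw [← hp1, hE']
    rw [h1, Pool.Agent.PW.sum_mv x hab] at hp'
    exact hp'
  have h0 := (conc_mark W hW x hx a hxa F _ hFW hFa).1
  refine ⟨h0, ?_, ?_, ?_, ?_⟩
  · exact (two_mark_form W hW x hx a b hxa hxb F _ _ R hFW hFa hFb (by
      linear_combination X * hR)).2
  · obtain ⟨ε, hε, h1⟩ := splits_near W hW x hx hab (by rw [hWab]; exact mul_pos hxa hxb) hxa F _
      hFW hE'
    refine ⟨ε, hε, fun s hs => ?_⟩
    have h2 := h1 s hs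
    rw [hFE] at h2
    exact h2
  · have h1 := (natDegree_contr W hW x hx a b F _ hFW hE').2
    rw [hFE] at h1
    exact h1
  · have h1 : X ^ 2 ∣ C (F.eval 0) * E - C (E.eval 0) * F := by
      rw [X_pow_dvd_iff]
      intro d hd
      have h2 : d = 0 ∨ d = 1 := by omega
      rcases h2 with rfl | rfl
      · rw [coeff_zero_eq_eval_zero, eval_sub, eval_mul, eval_mul, eval_C, eval_C]
        ring
      · have h3 : ∀ p : ℝ[X], p.coeff 1 = (derivative p).eval 0 := by
          intro p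
          rw [← coeff_zero_eq_eval_zero, coeff_derivative]
          simp
        rw [h3, derivative_sub, derivative_C_mul, derivative_C_mul, eval_sub, eval_mul, eval_mul,
          eval_C, eval_C, hder]
        rw [derivative_sub, eval_sub, eval_sub, hder] at hder'
        linear_combination (F.eval 0) * (-hder')
    exact h1

/-- The values of an edgeless class that is a part of the vertex set. -/
theorem edgeless_part {J' : Type*} [Fintype J'] (y : V → ℝ) (a : V) (θ : J' → ℝ)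
    (e : J' ≃ {v // y v ≠ 0}) (he : ∀ i, y (e i) = θ i) (μ : ℝ) :
    Zs (fun g => (0 : ℝ) - pw y g) (fun v => μ * y v) =
      (T 1 (sh (∑ i, θ i) (Pf univ θ + Qf univ θ))).eval μ := by
  have h0 : (fun i => y (e i)) = θ := funext he
  have h1 : ∑ i, θ i = ∑ v, y v := by
    rw [← h0]
    exact sum_pos_equiv y e y fun i hi => hi
  rw [edgeless y a μ, h1, ← Pf_pos_equiv y e, ← Qf_pos_equiv y e, h0]

theorem edgeless_part_mark {J' : Type*} [Fintype J'] (y : V → ℝ) (θ : J' → ℝ)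
    (e : J' ≃ {v // y v ≠ 0}) (he : ∀ i, y (e i) = θ i) (j : J') (μ : ℝ) :
    Zs (fun g => (0 : ℝ) - pw y g) (fun v => μ * y v) -
      Gs (fun g => (0 : ℝ) - pw y g) (fun v => μ * y v) (e j) =
      μ * (T 1 (sh (∑ i, θ i) (Af θ j))).eval μ := by
  have h0 : (fun i => y (e i)) = θ := funext he
  have h1 : ∑ i, θ i = ∑ v, y v := by
    rw [← h0]
    exact sum_pos_equiv y e y fun i hi => hi
  rw [edgeless_mark y (e j) μ, h1, ← Af_pos_equiv y e, h0]

end Bip

section Final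

/-- `E (0) > 0`. -/
lemma E_pos {m n : ℕ} (θ1 : Fin m → ℝ) (θ2 : Fin n → ℝ) (h1 : ∀ i, 0 < θ1 i)
    (h2 : ∀ i, 0 < θ2 i) (j : Fin m) (k : Fin n) :
    0 < (T (-1) (T 1 (sh (∑ i, θ1 i) (Af θ1 j)) * T 1 (sh (∑ i, θ2 i) (Af θ2 k)))).eval
      (∑ i, θ1 i + ∑ i, θ2 i) := by
  set S1 := ∑ i, θ1 i with hS1
  set S2 := ∑ i, θ2 i with hS2
  have c1 : Cn S1 S1 (sh S1 (Af θ1 j)) := by
    unfold Af
    rw [sh_C_mul]
    refine Cn.smul (h1 j) (Cn.base (Bs_Pf _ _ _ _ (fun i => (h1 i).le) ?_))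
    exact Finset.sum_le_sum_of_subset_of_nonneg (Finset.subset_univ _)
      fun i _ _ => (h1 i).le
  have c2 : Cn S2 S2 (sh S2 (Af θ2 k)) := by
    unfold Af
    rw [sh_C_mul]
    refine Cn.smul (h2 k) (Cn.base (Bs_Pf _ _ _ _ (fun i => (h2 i).le) ?_))
    exact Finset.sum_le_sum_of_subset_of_nonneg (Finset.subset_univ _)
      fun i _ _ => (h2 i).le
  have h3 := (Cn_pos (fun i : Fin 2 => if i = 0 then S1 else S2)
    (fun i : Fin 2 => if i = 0 then S1 else S2) (S1 + S2) (fun i => by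
      rw [Fin.sum_univ_two]
      simp only [if_true, Fin.one_eq_zero_iff, OfNat.ofNat_ne_one, if_false]
      exact le_of_eq (add_comm _ _))
    (fun i : Fin 2 => if i = 0 then sh S1 (Af θ1 j) else sh S2 (Af θ2 k)) (fun i => by
      by_cases hi : i = 0
      · rw [if_pos hi, if_pos hi]
        exact c1
      · rw [if_neg hi, if_neg hi]
        exact c2)).1
  unfold NN at h3
  rw [Fin.prod_univ_two] at h3
  beta_reduce at h3
  rw [if_pos rfl, if_neg (by decide)] at h3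
  exact h3

/-- **The input of the cone lemma for two edgeless classes.** -/
theorem bip_facts {m n : ℕ} (θ1 : Fin m → ℝ) (θ2 : Fin n → ℝ) (h1 : ∀ i, 0 < θ1 i)
    (h2 : ∀ i, 0 < θ2 i) (j : Fin m) (k : Fin n) (F E Ra Rb R : ℝ[X])
    (hF : ∀ l, F.eval l = Lam (∑ i, θ1 i + ∑ i, θ2 i + l) ((1 + C l * X) *
      (T 1 (sh (∑ i, θ1 i) (Pf univ θ1 + Qf univ θ1)) *
        T 1 (sh (∑ i, θ2 i) (Pf univ θ2 + Qf univ θ2)))))
    (hE : ∀ l, E.eval l = (T (-1) ((1 + C l * X) *
      (T 1 (sh (∑ i, θ1 i) (Af θ1 j)) * T 1 (sh (∑ i, θ2 i) (Af θ2 k))))).eval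
        (∑ i, θ1 i + ∑ i, θ2 i + l))
    (hRa : ∀ l, Ra.eval l = (T (-1) (T 1 (sh (∑ i, θ1 i) (Af θ1 j)) *
      T 1 (sh (∑ i, θ2 i) (Pf univ θ2 + Qf univ θ2)))).eval (∑ i, θ1 i + ∑ i, θ2 i + l))
    (hRb : ∀ l, Rb.eval l = (T (-1) (T 1 (sh (∑ i, θ1 i) (Pf univ θ1 + Qf univ θ1)) *
      T 1 (sh (∑ i, θ2 i) (Af θ2 k)))).eval (∑ i, θ1 i + ∑ i, θ2 i + l))
    (hR : C 2 * R = Ra + Rb) :
    0 < F.eval 0 ∧ 0 < E.eval 0 ∧
    (∃ (N : ℕ) (θ κ : Fin N → ℝ), (∀ i, 0 < θ i) ∧ (∀ i, 0 ≤ κ i) ∧ N = F.natDegree ∧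
      F = C (F.eval 0) * ∏ i, (1 + C (θ i) * X) ∧
      R = C (F.eval 0) * ∑ i, C (κ i * θ i) * ∏ j ∈ univ.erase i, (1 + C (θ j) * X)) ∧
    (∃ ε : ℝ, 0 < ε ∧ ∀ s : ℝ, |s| < ε → (F - C s * E).Splits) ∧
    E.natDegree ≤ F.natDegree ∧
    (∃ T2, C (F.eval 0) * E - C (E.eval 0) * F = X ^ 2 * T2) := by
  have hE0 : 0 < E.eval 0 := by
    rw [hE, add_zero, C_0, zero_mul, add_zero, one_mul]
    exact E_pos θ1 θ2 h1 h2 j k
  set x : Fin m ⊕ Fin n → ℝ := Sum.elim θ1 θ2 with hx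
  set q : Fin m ⊕ Fin n → Prop := fun v => v.isLeft = true with hq
  have hx0 : ∀ v, 0 < x v := by
    rintro (i | i)
    · exact h1 i
    · exact h2 i
  have hql : ∀ i, q (Sum.inl i) := fun i => rfl
  have hqr : ∀ i, ¬ q (Sum.inr i) := fun i h => by simp [hq] at h
  have y1 : ∀ i, rz q x (Sum.inl i) = θ1 i := fun i => if_pos (hql i)
  have y1' : ∀ i, rz q x (Sum.inr i) = 0 := fun i => if_neg (hqr i)
  have y2 : ∀ i, rz (fun v => ¬ q v) x (Sum.inr i) = θ2 i := fun i => if_pos (hqr i)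
  have y2' : ∀ i, rz (fun v => ¬ q v) x (Sum.inl i) = 0 := fun i => if_neg (not_not.mpr (hql i))
  set e1 : Fin m ≃ {v // rz q x v ≠ 0} := Equiv.ofBijective
    (fun i => ⟨Sum.inl i, by rw [y1]; exact (h1 i).ne'⟩) ⟨fun i i' h => by
      have := congrArg Subtype.val h
      exact Sum.inl_injective this, fun v => by
      obtain ⟨v, hv⟩ := v
      rcases v with i | i
      · exact ⟨i, rfl⟩
      · exact absurd (y1' i) hv⟩ with he1
  set e2 : Fin n ≃ {v // rz (fun v => ¬ q v) x v ≠ 0} := Equiv.ofBijective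
    (fun i => ⟨Sum.inr i, by rw [y2]; exact (h2 i).ne'⟩) ⟨fun i i' h => by
      have := congrArg Subtype.val h
      exact Sum.inr_injective this, fun v => by
      obtain ⟨v, hv⟩ := v
      rcases v with i | i
      · exact absurd (y2' i) hv
      · exact ⟨i, rfl⟩⟩ with he2
  have hS : ∑ i, θ1 i + ∑ i, θ2 i = ∑ v, x v := by
    rw [Fintype.sum_sum_type]
    rfl
  obtain ⟨f0, f1, f2, f3, f4⟩ := bip_aux x (fun v => (hx0 v).le) q (a := Sum.inl j)
    (b := Sum.inr k) (hql j) (hqr k) (hx0 _) (hx0 _) (∑ i, θ1 i + ∑ i, θ2 i) hS _ _ _ _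
    (edgeless_part (rz q x) (Sum.inl j) θ1 e1 y1)
    (edgeless_part (rz (fun v => ¬ q v) x) (Sum.inl j) θ2 e2 y2)
    (edgeless_part_mark (rz q x) θ1 e1 y1 j)
    (edgeless_part_mark (rz (fun v => ¬ q v) x) θ2 e2 y2 k) F E Ra Rb R hF hE hRa hRb hR
  exact ⟨f0, hE0, f1, f2, f3, f4⟩

end Final

end Pool.Agent.MJ
end

section

/-!
The cone statement for the join of two sets of independent vertices.
-/

set_option autoImplicit false
set_option linter.unusedSectionVars false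

namespace Pool.Agent.MJ

open Finset Polynomial
open scoped Classical
open Pool.Agent.PW (Z N N2 Ray cw pw mv ct)

/-- **The cone statement** for two sets of independent vertices. -/
theorem coneK : ConeK := by
  intro m n θ1 θ2 h1 h2 j k F E hF hE
  set S : ℝ := ∑ i, θ1 i + ∑ i, θ2 i with hS
  set Ra : ℝ[X] := (T (-1) (T 1 (sh (∑ i, θ1 i) (Af θ1 j)) *
    T 1 (sh (∑ i, θ2 i) (Pf univ θ2 + Qf univ θ2)))).comp (X + C S) with hRa
  set Rb : ℝ[X] := (T (-1) (T 1 (sh (∑ i, θ1 i) (Pf univ θ1 + Qf univ θ1)) *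
    T 1 (sh (∑ i, θ2 i) (Af θ2 k)))).comp (X + C S) with hRb
  have eRa : ∀ l, Ra.eval l = (T (-1) (T 1 (sh (∑ i, θ1 i) (Af θ1 j)) *
      T 1 (sh (∑ i, θ2 i) (Pf univ θ2 + Qf univ θ2)))).eval (S + l) := by
    intro l
    rw [hRa, eval_comp, eval_add, eval_X, eval_C, add_comm]
  have eRb : ∀ l, Rb.eval l = (T (-1) (T 1 (sh (∑ i, θ1 i) (Pf univ θ1 + Qf univ θ1)) *
      T 1 (sh (∑ i, θ2 i) (Af θ2 k)))).eval (S + l) := by
    intro l
    rw [hRb, eval_comp, eval_add, eval_X, eval_C, add_comm]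
  have hR : C 2 * (C (1 / 2) * (Ra + Rb)) = Ra + Rb := by
    rw [← mul_assoc, ← C_mul]
    norm_num
  obtain ⟨hF0, hE0, ⟨N, θ, κ, hθ, hκ, hN, hFp, hRp⟩, ⟨ε, hε, hrr⟩, hdeg, T2, hT⟩ :=
    bip_facts θ1 θ2 h1 h2 j k F E Ra Rb (C (1 / 2) * (Ra + Rb)) hF hE eRa eRb hR
  obtain ⟨Fab, U3, hid, hSS⟩ := ss_values θ1 θ2 h1 h2 j k F E Ra Rb hF hE eRa eRb
  obtain ⟨K, hK, hTK⟩ := cone_of_ineq F E (C (1 / 2) * (Ra + Rb)) T2 N θ κ hθ hκ hFp hF0 hRp hT
    (by rw [hN]; exact hdeg)
    (ss_alg F E Ra Rb (C (1 / 2) * (Ra + Rb)) T2 Fab U3 hR hT hE0 hF0 hid hSS) ⟨ε, hε, hrr⟩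
  exact ⟨N, θ, K, hθ, hK, hFp, hTK⟩

end Pool.Agent.MJ
end

section

/-!
The cone property for product joins.
-/

set_option autoImplicit false
set_option linter.unusedSectionVars false

namespace Pool.Agent.MJ

open Finset Polynomial
open scoped Classical
open Pool.Agent.PW (Z N N2 Ray cw pw mv ct)

variable {V : Type*} [Fintype V]

theorem join_cone (W : Sym2 V → ℝ) (hW : ∀ g, 0 ≤ W g) (x : V → ℝ) (hx : ∀ v, 0 ≤ x v)
    (q : V → Prop) (hk : ∀ u v, q u → ¬ q v → W s(u, v) = x u * x v) {c d : V} (hc : q c)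
    (hd : ¬ q d) (hxc : 0 < x c) (hxd : 0 < x d) (F F1 : ℝ[X])
    (hF : ∀ l, Zs W (fun v => l * x v) = F.eval l)
    (hF1 : ∀ l, Zs (cw c d W) (fun v => l * mv x c d v) = F1.eval l) :
    ∃ (J : Type) (_ : Fintype J) (w : J → ℝ) (U : J → ℝ[X]), (∀ s, 0 ≤ w s) ∧
      (∀ s, Cone2 F (U s)) ∧ C (F1.eval 0) * F - C (F.eval 0) * F1 = ∑ s, C (w s) * U s :=
  join_cone_of coneK W hW x hx q hk hc hd hxc hxd F F1 hF hF1

end Pool.Agent.MJ
end
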