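import Mathlib

section

/-! # Tree-width 3, L1: states of networks with three terminals, bivectors, the cone.

`St`: coefficients of `1, x1, x2, x3, u` (`x_i` = the edge opposite to terminal `i`;
`x_i ^ 2 = 0`, `x_i x_j = u`). A network with three terminals has the state
(weight of the forests with terminals pairwise separated; 23 joined; 13 joined; 12 joined; all
joined).  A marked network (marked edge `e`) has the bivector `wedge S S'`, where `S` is the state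
without `e` and `S'` the state with `e` contracted (coefficient of the weight of `e`). -/

set_option autoImplicit false
set_option linter.unnecessarySeqFocus false
set_option linter.unreachableTactic false
set_option linter.unusedTactic false

namespace Pool.Agent.MP_d90615.T3

@[ext] structure St where
  o : ℝ
  x : ℝ
  y : ℝ
  z : ℝ
  u : ℝ

namespace St

instance : Add St := ⟨fun S T => ⟨S.o + T.o, S.x + T.x, S.y + T.y, S.z + T.z, S.u + T.u⟩⟩
instance : SMul ℝ St := ⟨fun c S => ⟨c * S.o, c * S.x, c * S.y, c * S.z, c * S.u⟩⟩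

@[simp] theorem add_o (S T : St) : (S + T).o = S.o + T.o := rfl
@[simp] theorem add_x (S T : St) : (S + T).x = S.x + T.x := rfl
@[simp] theorem add_y (S T : St) : (S + T).y = S.y + T.y := rfl
@[simp] theorem add_z (S T : St) : (S + T).z = S.z + T.z := rfl
@[simp] theorem add_u (S T : St) : (S + T).u = S.u + T.u := rfl
@[simp] theorem smul_o (c : ℝ) (S : St) : (c • S).o = c * S.o := rfl
@[simp] theorem smul_x (c : ℝ) (S : St) : (c • S).x = c * S.x := rfl
@[simp] theorem smul_y (c : ℝ) (S : St) : (c • S).y = c * S.y := rfl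
@[simp] theorem smul_z (c : ℝ) (S : St) : (c • S).z = c * S.z := rfl
@[simp] theorem smul_u (c : ℝ) (S : St) : (c • S).u = c * S.u := rfl

/-- Product: union of two networks on the same terminals. -/
@[simps] def mul (S T : St) : St where
  o := S.o * T.o
  x := S.o * T.x + S.x * T.o
  y := S.o * T.y + S.y * T.o
  z := S.o * T.z + S.z * T.o
  u := S.o * T.u + S.u * T.o + S.x * T.y + S.y * T.x + S.x * T.z + S.z * T.x + S.y * T.z + S.z * T.y

/-- Sum of the coefficients: weight of all forests. -/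
def tot (S : St) : ℝ := S.o + S.x + S.y + S.z + S.u

/-- The unit: three isolated terminals. -/
@[simps] def one : St where
  o := 1
  x := 0
  y := 0
  z := 0
  u := 0

/-- Weights `p, q, r` on the edges `x1, x2, x3` and a chord term `t u`. -/
@[simps] def E (p q r t : ℝ) : St where
  o := 1
  x := p
  y := q
  z := r
  u := p * q + p * r + q * r + t

/-- Forget terminal 1 (and add it again as an isolated terminal). -/
@[simps] def R1 (S : St) : St where
  o := S.o + S.y + S.z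
  x := S.x + S.u
  y := 0
  z := 0
  u := 0

@[simps] def R2 (S : St) : St where
  o := S.o + S.x + S.z
  x := 0
  y := S.y + S.u
  z := 0
  u := 0

@[simps] def R3 (S : St) : St where
  o := S.o + S.x + S.y
  x := 0
  y := 0
  z := S.z + S.u
  u := 0

/-- Terminal 1 is replaced by a new vertex, joined to it by an edge of weight `r`. -/
def tr1 (r : ℝ) (S : St) : St := r • S + R1 S
def tr2 (r : ℝ) (S : St) : St := r • S + R2 S
def tr3 (r : ℝ) (S : St) : St := r • S + R3 S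

/-- Renaming of the terminals `1 → 2 → 3 → 1`. -/
@[simps] def cyc (S : St) : St where
  o := S.o
  x := S.z
  y := S.x
  z := S.y
  u := S.u

/-- Exchange of the terminals 2 and 3. -/
@[simps] def swap (S : St) : St where
  o := S.o
  x := S.x
  y := S.z
  z := S.y
  u := S.u

/-- Linear maps on states. -/
structure Lin (f : St → St) : Prop where
  add : ∀ S T, f (S + T) = f S + f T
  smul : ∀ (c : ℝ) S, f (c • S) = c • f S

theorem Lin.comp {f g : St → St} (hf : Lin f) (hg : Lin g) : Lin fun S => f (g S) :=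
  ⟨fun S T => by rw [hg.add, hf.add], fun c S => by rw [hg.smul, hf.smul]⟩

theorem lin_mul (A : St) : Lin (mul A) :=
  ⟨fun S T => by ext <;> simp <;> ring, fun c S => by ext <;> simp <;> ring⟩

theorem lin_R1 : Lin R1 := ⟨fun S T => by ext <;> simp <;> ring, fun c S => by ext <;> simp <;> ring⟩
theorem lin_R2 : Lin R2 := ⟨fun S T => by ext <;> simp <;> ring, fun c S => by ext <;> simp <;> ring⟩
theorem lin_R3 : Lin R3 := ⟨fun S T => by ext <;> simp <;> ring, fun c S => by ext <;> simp <;> ring⟩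
theorem lin_cyc : Lin cyc := ⟨fun S T => by ext <;> simp, fun c S => by ext <;> simp⟩
theorem lin_swap : Lin swap := ⟨fun S T => by ext <;> simp, fun c S => by ext <;> simp⟩

theorem lin_tr1 (r : ℝ) : Lin (tr1 r) :=
  ⟨fun S T => by unfold tr1; ext <;> simp <;> ring, fun c S => by unfold tr1; ext <;> simp <;> ring⟩
theorem lin_tr2 (r : ℝ) : Lin (tr2 r) :=
  ⟨fun S T => by unfold tr2; ext <;> simp <;> ring, fun c S => by unfold tr2; ext <;> simp <;> ring⟩
theorem lin_tr3 (r : ℝ) : Lin (tr3 r) :=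
  ⟨fun S T => by unfold tr3; ext <;> simp <;> ring, fun c S => by unfold tr3; ext <;> simp <;> ring⟩

theorem mul_comm' (S T : St) : mul S T = mul T S := by ext <;> simp <;> ring

theorem mul_assoc' (S T U : St) : mul (mul S T) U = mul S (mul T U) := by ext <;> simp <;> ring

@[simp] theorem one_mul' (S : St) : mul one S = S := by ext <;> simp

theorem cyc_mul (S T : St) : cyc (mul S T) = mul (cyc S) (cyc T) := by ext <;> simp <;> ring
theorem swap_mul (S T : St) : swap (mul S T) = mul (swap S) (swap T) := by ext <;> simp <;> ring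
theorem cyc_E (p q r t : ℝ) : cyc (E p q r t) = E r p q t := by ext <;> simp; ring
theorem swap_E (p q r t : ℝ) : swap (E p q r t) = E p r q t := by ext <;> simp; ring
theorem cyc_tr1 (r : ℝ) (S : St) : cyc (tr1 r S) = tr2 r (cyc S) := by
  unfold tr1 tr2; ext <;> simp <;> ring
theorem cyc_tr2 (r : ℝ) (S : St) : cyc (tr2 r S) = tr3 r (cyc S) := by
  unfold tr2 tr3; ext <;> simp <;> ring
theorem cyc_tr3 (r : ℝ) (S : St) : cyc (tr3 r S) = tr1 r (cyc S) := by
  unfold tr3 tr1; ext <;> simp <;> ring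
theorem swap_tr1 (r : ℝ) (S : St) : swap (tr1 r S) = tr1 r (swap S) := by
  unfold tr1; ext <;> simp <;> ring
theorem swap_tr2 (r : ℝ) (S : St) : swap (tr2 r S) = tr3 r (swap S) := by
  unfold tr2 tr3; ext <;> simp
theorem swap_tr3 (r : ℝ) (S : St) : swap (tr3 r S) = tr2 r (swap S) := by
  unfold tr3 tr2; ext <;> simp

end St

open St

/-- Bivectors: coordinates in the basis `1 ∧ x1, 1 ∧ x2, …, x3 ∧ u`. -/
@[ext] structure Bv where
  ox : ℝ
  oy : ℝ
  oz : ℝ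
  ou : ℝ
  xy : ℝ
  xz : ℝ
  xu : ℝ
  yz : ℝ
  yu : ℝ
  zu : ℝ

namespace Bv

instance : Add Bv := ⟨fun v w => ⟨v.ox + w.ox, v.oy + w.oy, v.oz + w.oz, v.ou + w.ou, v.xy + w.xy,
  v.xz + w.xz, v.xu + w.xu, v.yz + w.yz, v.yu + w.yu, v.zu + w.zu⟩⟩
instance : SMul ℝ Bv := ⟨fun c v => ⟨c * v.ox, c * v.oy, c * v.oz, c * v.ou, c * v.xy,
  c * v.xz, c * v.xu, c * v.yz, c * v.yu, c * v.zu⟩⟩
instance : Zero Bv := ⟨⟨0, 0, 0, 0, 0, 0, 0, 0, 0, 0⟩⟩

@[simp] theorem add_ox (v w : Bv) : (v + w).ox = v.ox + w.ox := rfl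
@[simp] theorem add_oy (v w : Bv) : (v + w).oy = v.oy + w.oy := rfl
@[simp] theorem add_oz (v w : Bv) : (v + w).oz = v.oz + w.oz := rfl
@[simp] theorem add_ou (v w : Bv) : (v + w).ou = v.ou + w.ou := rfl
@[simp] theorem add_xy (v w : Bv) : (v + w).xy = v.xy + w.xy := rfl
@[simp] theorem add_xz (v w : Bv) : (v + w).xz = v.xz + w.xz := rfl
@[simp] theorem add_xu (v w : Bv) : (v + w).xu = v.xu + w.xu := rfl
@[simp] theorem add_yz (v w : Bv) : (v + w).yz = v.yz + w.yz := rfl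
@[simp] theorem add_yu (v w : Bv) : (v + w).yu = v.yu + w.yu := rfl
@[simp] theorem add_zu (v w : Bv) : (v + w).zu = v.zu + w.zu := rfl
@[simp] theorem smul_ox (c : ℝ) (v : Bv) : (c • v).ox = c * v.ox := rfl
@[simp] theorem smul_oy (c : ℝ) (v : Bv) : (c • v).oy = c * v.oy := rfl
@[simp] theorem smul_oz (c : ℝ) (v : Bv) : (c • v).oz = c * v.oz := rfl
@[simp] theorem smul_ou (c : ℝ) (v : Bv) : (c • v).ou = c * v.ou := rfl
@[simp] theorem smul_xy (c : ℝ) (v : Bv) : (c • v).xy = c * v.xy := rfl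
@[simp] theorem smul_xz (c : ℝ) (v : Bv) : (c • v).xz = c * v.xz := rfl
@[simp] theorem smul_xu (c : ℝ) (v : Bv) : (c • v).xu = c * v.xu := rfl
@[simp] theorem smul_yz (c : ℝ) (v : Bv) : (c • v).yz = c * v.yz := rfl
@[simp] theorem smul_yu (c : ℝ) (v : Bv) : (c • v).yu = c * v.yu := rfl
@[simp] theorem smul_zu (c : ℝ) (v : Bv) : (c • v).zu = c * v.zu := rfl
@[simp] theorem zero_ox : (0 : Bv).ox = 0 := rfl
@[simp] theorem zero_oy : (0 : Bv).oy = 0 := rfl
@[simp] theorem zero_oz : (0 : Bv).oz = 0 := rfl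
@[simp] theorem zero_ou : (0 : Bv).ou = 0 := rfl
@[simp] theorem zero_xy : (0 : Bv).xy = 0 := rfl
@[simp] theorem zero_xz : (0 : Bv).xz = 0 := rfl
@[simp] theorem zero_xu : (0 : Bv).xu = 0 := rfl
@[simp] theorem zero_yz : (0 : Bv).yz = 0 := rfl
@[simp] theorem zero_yu : (0 : Bv).yu = 0 := rfl
@[simp] theorem zero_zu : (0 : Bv).zu = 0 := rfl

end Bv

/-- The bivector `S ∧ T`. -/
@[simps] def wedge (S T : St) : Bv where
  ox := S.o * T.x - S.x * T.o
  oy := S.o * T.y - S.y * T.o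
  oz := S.o * T.z - S.z * T.o
  ou := S.o * T.u - S.u * T.o
  xy := S.x * T.y - S.y * T.x
  xz := S.x * T.z - S.z * T.x
  xu := S.x * T.u - S.u * T.x
  yz := S.y * T.z - S.z * T.y
  yu := S.y * T.u - S.u * T.y
  zu := S.z * T.u - S.u * T.z

/-- `pair (S ∧ S') (T ∧ T') = Z(S',T) Z(S,T') - Z(S,T) Z(S',T')`: the Rayleigh difference. -/
def pair (v w : Bv) : ℝ :=
  v.ox * (w.ox + w.ou - w.xy - w.xz + w.yu + w.zu)
    + v.oy * (w.oy + w.ou + w.xy + w.xu - w.yz + w.zu)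
    + v.oz * (w.oz + w.ou + w.xz + w.xu + w.yz + w.yu)
    + v.ou * (w.ox + w.oy + w.oz + w.ou)
    + v.xy * (-w.ox + w.oy + w.xy + w.xz - w.yz)
    + v.xz * (-w.ox + w.oz + w.xy + w.xz + w.yz)
    + v.xu * (w.oy + w.oz)
    + v.yz * (-w.oy + w.oz - w.xy + w.xz + w.yz)
    + v.yu * (w.ox + w.oz)
    + v.zu * (w.ox + w.oy)

theorem pair_wedge (S S' T T' : St) : pair (wedge S S') (wedge T T')
    = tot (mul S' T) * tot (mul S T') - tot (mul S T) * tot (mul S' T') := by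
  simp only [pair, wedge, tot, mul]; ring

theorem pair_comm (v w : Bv) : pair v w = pair w v := by unfold pair; ring

theorem pair_add_left (v v' w : Bv) : pair (v + v') w = pair v w + pair v' w := by
  unfold pair; simp only [Bv.add_ox, Bv.add_oy, Bv.add_oz, Bv.add_ou, Bv.add_xy, Bv.add_xz,
    Bv.add_xu, Bv.add_yz, Bv.add_yu, Bv.add_zu]; ring

theorem pair_smul_left (c : ℝ) (v w : Bv) : pair (c • v) w = c * pair v w := by
  unfold pair; simp only [Bv.smul_ox, Bv.smul_oy, Bv.smul_oz, Bv.smul_ou, Bv.smul_xy, Bv.smul_xz,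
    Bv.smul_xu, Bv.smul_yz, Bv.smul_yu, Bv.smul_zu]; ring

/-- Linear functionals on bivectors. -/
structure LinF (φ : Bv → ℝ) : Prop where
  add : ∀ v w, φ (v + w) = φ v + φ w
  smul : ∀ (c : ℝ) v, φ (c • v) = c * φ v

/-- Linear maps on bivectors. -/
structure LinB (f : Bv → Bv) : Prop where
  add : ∀ v w, f (v + w) = f v + f w
  smul : ∀ (c : ℝ) v, f (c • v) = c • f v

theorem LinF.comp {φ : Bv → ℝ} (hφ : LinF φ) {f : Bv → Bv} (hf : LinB f) :
    LinF fun v => φ (f v) :=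
  ⟨fun v w => by rw [hf.add, hφ.add], fun c v => by rw [hf.smul, hφ.smul]⟩

theorem linF_pair_right (v : Bv) : LinF (pair v) :=
  ⟨fun a b => by rw [pair_comm, pair_add_left, pair_comm a, pair_comm b],
    fun c a => by rw [pair_comm, pair_smul_left, pair_comm a]⟩

/-- The linear extension of `a ∧ b ↦ f a ∧ f b`. -/
def lift (f : St → St) (v : Bv) : Bv :=
  v.ox • wedge (f ⟨1, 0, 0, 0, 0⟩) (f ⟨0, 1, 0, 0, 0⟩)
    + v.oy • wedge (f ⟨1, 0, 0, 0, 0⟩) (f ⟨0, 0, 1, 0, 0⟩)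
    + v.oz • wedge (f ⟨1, 0, 0, 0, 0⟩) (f ⟨0, 0, 0, 1, 0⟩)
    + v.ou • wedge (f ⟨1, 0, 0, 0, 0⟩) (f ⟨0, 0, 0, 0, 1⟩)
    + v.xy • wedge (f ⟨0, 1, 0, 0, 0⟩) (f ⟨0, 0, 1, 0, 0⟩)
    + v.xz • wedge (f ⟨0, 1, 0, 0, 0⟩) (f ⟨0, 0, 0, 1, 0⟩)
    + v.xu • wedge (f ⟨0, 1, 0, 0, 0⟩) (f ⟨0, 0, 0, 0, 1⟩)
    + v.yz • wedge (f ⟨0, 0, 1, 0, 0⟩) (f ⟨0, 0, 0, 1, 0⟩)
    + v.yu • wedge (f ⟨0, 0, 1, 0, 0⟩) (f ⟨0, 0, 0, 0, 1⟩)
    + v.zu • wedge (f ⟨0, 0, 0, 1, 0⟩) (f ⟨0, 0, 0, 0, 1⟩)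

theorem linB_lift (f : St → St) : LinB (lift f) := by
  constructor
  · intro v w
    unfold lift
    ext <;> simp <;> ring
  · intro c v
    unfold lift
    ext <;> simp <;> ring

theorem St.decomp (S : St) : S = S.o • ⟨1, 0, 0, 0, 0⟩ + (S.x • ⟨0, 1, 0, 0, 0⟩
    + (S.y • ⟨0, 0, 1, 0, 0⟩ + (S.z • ⟨0, 0, 0, 1, 0⟩ + S.u • ⟨0, 0, 0, 0, 1⟩))) := by
  ext <;> simp

theorem lift_wedge {f : St → St} (hf : St.Lin f) (S T : St) :
    lift f (wedge S T) = wedge (f S) (f T) := by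
  have h : ∀ A : St, f A = A.o • f ⟨1, 0, 0, 0, 0⟩ + (A.x • f ⟨0, 1, 0, 0, 0⟩
      + (A.y • f ⟨0, 0, 1, 0, 0⟩ + (A.z • f ⟨0, 0, 0, 1, 0⟩ + A.u • f ⟨0, 0, 0, 0, 1⟩))) := by
    intro A
    conv_lhs => rw [St.decomp A]
    rw [hf.add, hf.add, hf.add, hf.add, hf.smul, hf.smul, hf.smul, hf.smul, hf.smul]
  rw [h S, h T]
  unfold lift
  generalize f ⟨1, 0, 0, 0, 0⟩ = e0
  generalize f ⟨0, 1, 0, 0, 0⟩ = e1
  generalize f ⟨0, 0, 1, 0, 0⟩ = e2
  generalize f ⟨0, 0, 0, 1, 0⟩ = e3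
  generalize f ⟨0, 0, 0, 0, 1⟩ = e4
  ext <;> simp <;> ring

theorem lift_comp {f g : St → St} (hf : St.Lin f) (v : Bv) :
    lift (fun S => f (g S)) v = lift f (lift g v) := by
  have h := linB_lift f
  conv_rhs => unfold lift
  have e : ∀ w : Bv, lift f w = w.ox • wedge (f ⟨1, 0, 0, 0, 0⟩) (f ⟨0, 1, 0, 0, 0⟩)
    + w.oy • wedge (f ⟨1, 0, 0, 0, 0⟩) (f ⟨0, 0, 1, 0, 0⟩)
    + w.oz • wedge (f ⟨1, 0, 0, 0, 0⟩) (f ⟨0, 0, 0, 1, 0⟩)
    + w.ou • wedge (f ⟨1, 0, 0, 0, 0⟩) (f ⟨0, 0, 0, 0, 1⟩)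
    + w.xy • wedge (f ⟨0, 1, 0, 0, 0⟩) (f ⟨0, 0, 1, 0, 0⟩)
    + w.xz • wedge (f ⟨0, 1, 0, 0, 0⟩) (f ⟨0, 0, 0, 1, 0⟩)
    + w.xu • wedge (f ⟨0, 1, 0, 0, 0⟩) (f ⟨0, 0, 0, 0, 1⟩)
    + w.yz • wedge (f ⟨0, 0, 1, 0, 0⟩) (f ⟨0, 0, 0, 1, 0⟩)
    + w.yu • wedge (f ⟨0, 0, 1, 0, 0⟩) (f ⟨0, 0, 0, 0, 1⟩)
    + w.zu • wedge (f ⟨0, 0, 0, 1, 0⟩) (f ⟨0, 0, 0, 0, 1⟩) := fun w => rfl
  rw [← e]
  unfold lift
  simp only [← e]
  rw [h.add, h.add, h.add, h.add, h.add, h.add, h.add, h.add, h.add]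
  simp only [h.smul, lift_wedge hf]

theorem lift_congr {f g : St → St} (h : ∀ S, f S = g S) (v : Bv) : lift f v = lift g v := by
  have : f = g := funext h
  rw [this]

theorem lift_id (v : Bv) : lift (fun S => S) v = v := by
  unfold lift
  ext <;> simp

/-! ### Generators -/

/-- Cluster at terminal 1 without chord: weight `p` on `x2`, `q` on `x3`, twists `a, b`.
`D = a^2 q (1+p) x3 + b^2 p (1+q) x2 + a b p q (x2 + x3 - x1 - u)`; `z = a / b`. -/
@[simps] def D1 (p q a b : ℝ) : St where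
  o := 0
  x := -(a * b * p * q)
  y := b ^ 2 * p * (1 + q) + a * b * p * q
  z := a ^ 2 * q * (1 + p) + a * b * p * q
  u := -(a * b * p * q)

/-- The bivector of the cluster at terminal 1. -/
def cl1 (p q a b : ℝ) : Bv := wedge (E 0 p q 0) (mul (E 0 p q 0) (D1 p q a b))

/-- Mark on the edge `x1` (the edge 23) with weights `p` on `x2`, `q` on `x3`, chord term `t`. -/
def mk1 (p q t : ℝ) : Bv := wedge (E 0 p q t) (mul (E 0 p q t) ⟨0, 1, 0, 0, 0⟩)

/-- Renaming on bivectors. -/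
def cycB (v : Bv) : Bv := ⟨v.oz, v.ox, v.oy, v.ou, -v.xz, -v.yz, v.zu, v.xy, v.xu, v.yu⟩

def swapB (v : Bv) : Bv := ⟨v.ox, v.oz, v.oy, v.ou, v.xz, v.xy, v.xu, -v.yz, v.zu, v.yu⟩

theorem lift_cyc (v : Bv) : lift cyc v = cycB v := by
  unfold lift cycB
  ext <;> simp

theorem lift_swap (v : Bv) : lift swap v = swapB v := by
  unfold lift swapB
  ext <;> simp

/-- The parameters of a mark: `t` is at most the parallel sum of `p` and `q`. -/
structure MOk (p q t : ℝ) : Prop where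
  np : 0 ≤ p
  nq : 0 ≤ q
  nt : 0 ≤ t
  tp : t ≤ p
  le : t * (p + q) ≤ p * q

theorem MOk.of_pos {p q t : ℝ} (hp : 0 < p) (hq : 0 < q) (ht : 0 ≤ t) (h : t * (p + q) ≤ p * q) :
    MOk p q t :=
  ⟨hp.le, hq.le, ht, by
    have : (p + q) * t ≤ (p + q) * p := by nlinarith [mul_pos hp hp]
    exact le_of_mul_le_mul_left this (by linarith), h⟩

theorem MOk.zero {p q : ℝ} (hp : 0 ≤ p) (hq : 0 ≤ q) : MOk p q 0 :=
  ⟨hp, hq, le_rfl, hp, by rw [zero_mul]; exact mul_nonneg hp hq⟩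

theorem MOk.swap {p q t : ℝ} (h : MOk p q t) : MOk q p t := by
  refine ⟨h.nq, h.np, h.nt, ?_, by rw [add_comm q p, mul_comm q p]; exact h.le⟩
  rcases eq_or_lt_of_le (add_nonneg h.np h.nq) with h0 | h0
  · have e1 : p = 0 := by linarith [h.np, h.nq]
    have e2 : q = 0 := by linarith [h.np, h.nq]
    have := h.tp
    rw [e1] at this
    rw [e2]; exact this
  · have h1 := h.le
    have : (p + q) * t ≤ (p + q) * q := by nlinarith [mul_nonneg h.nq h.nq]
    exact le_of_mul_le_mul_left this h0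

/-- The generators. -/
inductive Gen : Bv → Prop
  | c1 (p q a b : ℝ) (hp : 0 ≤ p) (hq : 0 ≤ q) (ha : 0 ≤ a) (hb : 0 ≤ b) : Gen (cl1 p q a b)
  | c2 (p q a b : ℝ) (hp : 0 ≤ p) (hq : 0 ≤ q) (ha : 0 ≤ a) (hb : 0 ≤ b) :
      Gen (cycB (cl1 p q a b))
  | c3 (p q a b : ℝ) (hp : 0 ≤ p) (hq : 0 ≤ q) (ha : 0 ≤ a) (hb : 0 ≤ b) :
      Gen (cycB (cycB (cl1 p q a b)))
  | m1 (p q t : ℝ) (h : MOk p q t) : Gen (mk1 p q t)
  | m2 (p q t : ℝ) (h : MOk p q t) : Gen (cycB (mk1 p q t))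
  | m3 (p q t : ℝ) (h : MOk p q t) : Gen (cycB (cycB (mk1 p q t)))

theorem cycB3 (v : Bv) : cycB (cycB (cycB v)) = v := by
  unfold cycB; ext <;> simp

theorem swapB2 (v : Bv) : swapB (swapB v) = v := by
  unfold swapB; ext <;> simp

theorem swapB_cycB (v : Bv) : swapB (cycB v) = cycB (cycB (swapB v)) := by
  unfold swapB cycB; ext <;> simp

theorem swapB_cl1 (p q a b : ℝ) : swapB (cl1 p q a b) = cl1 q p b a := by
  unfold swapB cl1 wedge mul E D1; ext <;> dsimp only <;> ring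

theorem swapB_mk1 (p q t : ℝ) : swapB (mk1 p q t) = mk1 q p t := by
  unfold swapB mk1 wedge mul E; ext <;> dsimp only <;> ring

theorem Gen.cyc {v : Bv} (h : Gen v) : Gen (cycB v) := by
  cases h with
  | c1 p q a b hp hq ha hb => exact Gen.c2 p q a b hp hq ha hb
  | c2 p q a b hp hq ha hb => exact Gen.c3 p q a b hp hq ha hb
  | c3 p q a b hp hq ha hb => rw [cycB3]; exact Gen.c1 p q a b hp hq ha hb
  | m1 p q t h => exact Gen.m2 p q t h
  | m2 p q t h => exact Gen.m3 p q t h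
  | m3 p q t h => rw [cycB3]; exact Gen.m1 p q t h

theorem Gen.swap {v : Bv} (h : Gen v) : Gen (swapB v) := by
  cases h with
  | c1 p q a b hp hq ha hb => rw [swapB_cl1]; exact Gen.c1 q p b a hq hp hb ha
  | c2 p q a b hp hq ha hb =>
      rw [swapB_cycB, swapB_cl1]; exact Gen.c3 q p b a hq hp hb ha
  | c3 p q a b hp hq ha hb =>
      rw [swapB_cycB, swapB_cycB, swapB_cl1, cycB3]
      exact Gen.c2 q p b a hq hp hb ha
  | m1 p q t h => rw [swapB_mk1]; exact Gen.m1 q p t h.swap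
  | m2 p q t h => rw [swapB_cycB, swapB_mk1]; exact Gen.m3 q p t h.swap
  | m3 p q t h => rw [swapB_cycB, swapB_cycB, swapB_mk1, cycB3]; exact Gen.m2 q p t h.swap

/-! ### The cone (bipolar form) -/

/-- `v` is in the closed cone generated by `Gen`. -/
def InC (v : Bv) : Prop := ∀ φ : Bv → ℝ, LinF φ → (∀ g, Gen g → 0 ≤ φ g) → 0 ≤ φ v

theorem InC.gen {v : Bv} (h : Gen v) : InC v := fun _ _ hg => hg v h

theorem InC.add {v w : Bv} (hv : InC v) (hw : InC w) : InC (v + w) := fun φ hφ hg => by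
  rw [hφ.add]; exact add_nonneg (hv φ hφ hg) (hw φ hφ hg)

theorem InC.smul {v : Bv} {c : ℝ} (hc : 0 ≤ c) (hv : InC v) : InC (c • v) := fun φ hφ hg => by
  rw [hφ.smul]; exact mul_nonneg hc (hv φ hφ hg)

theorem InC.zero : InC 0 := fun φ hφ _ => by
  have h : φ ((0 : ℝ) • (0 : Bv)) = 0 * φ 0 := hφ.smul 0 0
  have e : (0 : ℝ) • (0 : Bv) = 0 := by ext <;> simp
  rw [e, zero_mul] at h
  rw [h]

/-- A positive multiple is enough. -/
theorem InC.of_smul {v : Bv} {c : ℝ} (hc : 0 < c) (hv : InC (c • v)) : InC v := fun φ hφ hg => by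
  have h := hv φ hφ hg
  rw [hφ.smul] at h
  exact (mul_nonneg_iff_of_pos_left hc).mp h

theorem InC.map {f : Bv → Bv} (hf : LinB f) (hg : ∀ g, Gen g → InC (f g)) {v : Bv} (hv : InC v) :
    InC (f v) := fun φ hφ h =>
  hv (fun w => φ (f w)) (hφ.comp hf) fun g hgg => hg g hgg φ hφ h

theorem InC.cyc {v : Bv} (hv : InC v) : InC (cycB v) := by
  rw [← lift_cyc]
  refine InC.map (linB_lift _) (fun g hg => ?_) hv
  rw [lift_cyc]; exact InC.gen hg.cyc

theorem InC.swap {v : Bv} (hv : InC v) : InC (swapB v) := by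
  rw [← lift_swap]
  refine InC.map (linB_lift _) (fun g hg => ?_) hv
  rw [lift_swap]; exact InC.gen hg.swap

/-- A functional is its ten values on the basis. -/
theorem LinF.coords {φ : Bv → ℝ} (h : LinF φ) (v : Bv) :
    φ v = v.ox * φ ⟨1, 0, 0, 0, 0, 0, 0, 0, 0, 0⟩ + v.oy * φ ⟨0, 1, 0, 0, 0, 0, 0, 0, 0, 0⟩
      + v.oz * φ ⟨0, 0, 1, 0, 0, 0, 0, 0, 0, 0⟩ + v.ou * φ ⟨0, 0, 0, 1, 0, 0, 0, 0, 0, 0⟩
      + v.xy * φ ⟨0, 0, 0, 0, 1, 0, 0, 0, 0, 0⟩ + v.xz * φ ⟨0, 0, 0, 0, 0, 1, 0, 0, 0, 0⟩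
      + v.xu * φ ⟨0, 0, 0, 0, 0, 0, 1, 0, 0, 0⟩ + v.yz * φ ⟨0, 0, 0, 0, 0, 0, 0, 1, 0, 0⟩
      + v.yu * φ ⟨0, 0, 0, 0, 0, 0, 0, 0, 1, 0⟩ + v.zu * φ ⟨0, 0, 0, 0, 0, 0, 0, 0, 0, 1⟩ := by
  have e : v = v.ox • (⟨1, 0, 0, 0, 0, 0, 0, 0, 0, 0⟩ : Bv) + v.oy • ⟨0, 1, 0, 0, 0, 0, 0, 0, 0, 0⟩
      + v.oz • ⟨0, 0, 1, 0, 0, 0, 0, 0, 0, 0⟩ + v.ou • ⟨0, 0, 0, 1, 0, 0, 0, 0, 0, 0⟩
      + v.xy • ⟨0, 0, 0, 0, 1, 0, 0, 0, 0, 0⟩ + v.xz • ⟨0, 0, 0, 0, 0, 1, 0, 0, 0, 0⟩
      + v.xu • ⟨0, 0, 0, 0, 0, 0, 1, 0, 0, 0⟩ + v.yz • ⟨0, 0, 0, 0, 0, 0, 0, 1, 0, 0⟩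
      + v.yu • ⟨0, 0, 0, 0, 0, 0, 0, 0, 1, 0⟩ + v.zu • ⟨0, 0, 0, 0, 0, 0, 0, 0, 0, 1⟩ := by
    ext <;> simp
  conv_lhs => rw [e]
  simp only [h.add, h.smul]

/-- Limits. -/
theorem InC.lim {ι : Type*} {l : Filter ι} [l.NeBot] {f : ι → Bv} {v : Bv} (hf : ∀ i, InC (f i))
    (h1 : Filter.Tendsto (fun i => (f i).ox) l (nhds v.ox))
    (h2 : Filter.Tendsto (fun i => (f i).oy) l (nhds v.oy))
    (h3 : Filter.Tendsto (fun i => (f i).oz) l (nhds v.oz))
    (h4 : Filter.Tendsto (fun i => (f i).ou) l (nhds v.ou))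
    (h5 : Filter.Tendsto (fun i => (f i).xy) l (nhds v.xy))
    (h6 : Filter.Tendsto (fun i => (f i).xz) l (nhds v.xz))
    (h7 : Filter.Tendsto (fun i => (f i).xu) l (nhds v.xu))
    (h8 : Filter.Tendsto (fun i => (f i).yz) l (nhds v.yz))
    (h9 : Filter.Tendsto (fun i => (f i).yu) l (nhds v.yu))
    (h10 : Filter.Tendsto (fun i => (f i).zu) l (nhds v.zu)) : InC v := fun φ hφ hg => by
  have h : Filter.Tendsto (fun i => φ (f i)) l (nhds (φ v)) := by
    rw [hφ.coords v]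
    simp only [fun i => hφ.coords (f i)]
    exact (((((((((h1.mul_const _).add (h2.mul_const _)).add (h3.mul_const _)).add
      (h4.mul_const _)).add (h5.mul_const _)).add (h6.mul_const _)).add
      (h7.mul_const _)).add (h8.mul_const _)).add (h9.mul_const _)).add (h10.mul_const _)
  exact ge_of_tendsto h (Filter.Eventually.of_forall fun i => hf i φ hφ hg)

/-- The cone is contained in its dual as soon as the generators are. -/
theorem pair_nonneg_of_gen (h : ∀ v w, Gen v → Gen w → 0 ≤ pair v w) {v w : Bv} (hv : InC v)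
    (hw : InC w) : 0 ≤ pair v w := by
  refine hw (pair v) (linF_pair_right v) fun g hg => ?_
  rw [pair_comm]
  refine hv (pair g) (linF_pair_right g) fun g' hg' => ?_
  exact h g g' hg hg'

theorem pair_cycB (v w : Bv) : pair (cycB v) (cycB w) = pair v w := by
  unfold pair cycB; ring

theorem pair_swapB (v w : Bv) : pair (swapB v) (swapB w) = pair v w := by
  unfold pair swapB; ring

/-! ### Operators commute with the renamings -/

theorem lift_mul_cycB (A : St) (v : Bv) : lift (mul (St.cyc A)) (cycB v) = cycB (lift (mul A) v) := by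
  rw [← lift_cyc, ← lift_cyc, ← lift_comp (lin_mul _), ← lift_comp lin_cyc]
  exact lift_congr (fun S => (cyc_mul A S).symm) v

theorem lift_mul_swapB (A : St) (v : Bv) :
    lift (mul (St.swap A)) (swapB v) = swapB (lift (mul A) v) := by
  rw [← lift_swap, ← lift_swap, ← lift_comp (lin_mul _), ← lift_comp lin_swap]
  exact lift_congr (fun S => (swap_mul A S).symm) v

theorem lift_tr2_cycB (r : ℝ) (v : Bv) : lift (tr2 r) (cycB v) = cycB (lift (tr1 r) v) := by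
  rw [← lift_cyc, ← lift_cyc, ← lift_comp (lin_tr2 r), ← lift_comp lin_cyc]
  exact lift_congr (fun S => (cyc_tr1 r S).symm) v

theorem lift_tr3_cycB (r : ℝ) (v : Bv) : lift (tr3 r) (cycB v) = cycB (lift (tr2 r) v) := by
  rw [← lift_cyc, ← lift_cyc, ← lift_comp (lin_tr3 r), ← lift_comp lin_cyc]
  exact lift_congr (fun S => (cyc_tr2 r S).symm) v

theorem lift_tr1_cycB (r : ℝ) (v : Bv) : lift (tr1 r) (cycB v) = cycB (lift (tr3 r) v) := by
  rw [← lift_cyc, ← lift_cyc, ← lift_comp (lin_tr1 r), ← lift_comp lin_cyc]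
  exact lift_congr (fun S => (cyc_tr3 r S).symm) v

theorem lift_tr1_swapB (r : ℝ) (v : Bv) : lift (tr1 r) (swapB v) = swapB (lift (tr1 r) v) := by
  rw [← lift_swap, ← lift_swap, ← lift_comp (lin_tr1 r), ← lift_comp lin_swap]
  exact lift_congr (fun S => (swap_tr1 r S).symm) v

theorem lift_tr3_swapB (r : ℝ) (v : Bv) : lift (tr3 r) (swapB v) = swapB (lift (tr2 r) v) := by
  rw [← lift_swap, ← lift_swap, ← lift_comp (lin_tr3 r), ← lift_comp lin_swap]
  exact lift_congr (fun S => (swap_tr2 r S).symm) v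

theorem lift_tr2_swapB (r : ℝ) (v : Bv) : lift (tr2 r) (swapB v) = swapB (lift (tr3 r) v) := by
  rw [← lift_swap, ← lift_swap, ← lift_comp (lin_tr2 r), ← lift_comp lin_swap]
  exact lift_congr (fun S => (swap_tr3 r S).symm) v

/-- If `tr1 r` maps the generators into the cone, so do `tr2 r` and `tr3 r` (same for any operator
family permuted by the renamings). -/
theorem tr2_of_tr1 {r : ℝ} (h : ∀ v, InC v → InC (lift (tr1 r) v)) {v : Bv} (hv : InC v) :
    InC (lift (tr2 r) v) := by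
  have e : v = cycB (cycB (cycB v)) := (cycB3 v).symm
  rw [e, lift_tr2_cycB]
  exact (h _ hv.cyc.cyc).cyc

theorem tr3_of_tr1 {r : ℝ} (h : ∀ v, InC v → InC (lift (tr1 r) v)) {v : Bv} (hv : InC v) :
    InC (lift (tr3 r) v) := by
  have e : v = cycB (cycB (cycB v)) := (cycB3 v).symm
  rw [e, lift_tr3_cycB]
  exact (tr2_of_tr1 h hv.cyc.cyc).cyc

end Pool.Agent.MP_d90615.T3
end

section

/-! # Tree-width 3, K3: the cone is closed under multiplication by unmarked networks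

Unmarked network: `c • E s1 s2 s3 h` with `s_i ≥ 0`, `h ≥ 0`, `h (e2 + h) ≤ e3`; only
`h e2 ≤ e3` is used. -/

set_option autoImplicit false
set_option linter.unnecessarySeqFocus false
set_option linter.unreachableTactic false
set_option linter.unusedTactic false

namespace Pool.Agent.MP_d90615.T3

open St

/-- Limits in one real parameter. -/
theorem InC.of_eps {F : ℝ → Bv} (hF : ∀ ε, 0 < ε → InC (F ε))
    (h1 : Continuous fun ε => (F ε).ox) (h2 : Continuous fun ε => (F ε).oy)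
    (h3 : Continuous fun ε => (F ε).oz) (h4 : Continuous fun ε => (F ε).ou)
    (h5 : Continuous fun ε => (F ε).xy) (h6 : Continuous fun ε => (F ε).xz)
    (h7 : Continuous fun ε => (F ε).xu) (h8 : Continuous fun ε => (F ε).yz)
    (h9 : Continuous fun ε => (F ε).yu) (h10 : Continuous fun ε => (F ε).zu) : InC (F 0) := by
  have hs : Filter.Tendsto (fun n : ℕ => (1 : ℝ) / ((n : ℝ) + 1)) Filter.atTop (nhds 0) :=
    tendsto_one_div_add_atTop_nhds_zero_nat
  refine InC.lim (l := Filter.atTop) (f := fun n : ℕ => F (1 / ((n : ℝ) + 1)))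
    (fun n => hF _ (by positivity)) ?_ ?_ ?_ ?_ ?_ ?_ ?_ ?_ ?_ ?_
  · exact (h1.tendsto 0).comp hs
  · exact (h2.tendsto 0).comp hs
  · exact (h3.tendsto 0).comp hs
  · exact (h4.tendsto 0).comp hs
  · exact (h5.tendsto 0).comp hs
  · exact (h6.tendsto 0).comp hs
  · exact (h7.tendsto 0).comp hs
  · exact (h8.tendsto 0).comp hs
  · exact (h9.tendsto 0).comp hs
  · exact (h10.tendsto 0).comp hs

/-- Mark on `x1` with infinite weights in the ratio `P : Q`. -/
def inf1 (P Q : ℝ) : Bv := ⟨0, 0, 0, 0, 0, 0, -(P * Q), 0, P * (P + Q), Q * (P + Q)⟩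

theorem inC_inf1 {P Q : ℝ} (hP : 0 ≤ P) (hQ : 0 ≤ Q) : InC (inf1 P Q) := by
  have key : ∀ ε : ℝ, 0 < ε → InC (⟨ε ^ 2, 0, 0, ε * (P + Q), -(ε * P), -(ε * Q), -(P * Q), 0,
      P * (P + Q), Q * (P + Q)⟩ : Bv) := by
    intro ε hε
    have h1 : InC (mk1 (P / ε) (Q / ε) 0) :=
      InC.gen (Gen.m1 _ _ _ (MOk.zero (by positivity) (by positivity)))
    have h2 := InC.smul (c := ε ^ 2) (by positivity) h1
    have e : ε ^ 2 • mk1 (P / ε) (Q / ε) 0 = (⟨ε ^ 2, 0, 0, ε * (P + Q), -(ε * P), -(ε * Q),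
        -(P * Q), 0, P * (P + Q), Q * (P + Q)⟩ : Bv) := by
      unfold mk1
      ext <;> simp <;> field_simp <;> ring
    rw [e] at h2
    exact h2
  have := InC.of_eps (F := fun ε => (⟨ε ^ 2, 0, 0, ε * (P + Q), -(ε * P), -(ε * Q), -(P * Q), 0,
      P * (P + Q), Q * (P + Q)⟩ : Bv)) key (by fun_prop) (by fun_prop) (by fun_prop) (by fun_prop)
      (by fun_prop) (by fun_prop) (by fun_prop) (by fun_prop) (by fun_prop) (by fun_prop)
  have e : inf1 P Q = (⟨(0 : ℝ) ^ 2, 0, 0, 0 * (P + Q), -(0 * P), -(0 * Q), -(P * Q), 0,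
      P * (P + Q), Q * (P + Q)⟩ : Bv) := by
    unfold inf1; ext <;> simp
  rw [e]; exact this

/-- The identity: `P = p + s2 + s1 (1 + b/a)`, `Q = q + s3 + s1 (1 + a/b)`. -/
theorem mul_cl1_identity {p q a b s1 s2 s3 h P Q : ℝ} (hp : 0 < p) (hq : 0 < q) (ha : 0 < a)
    (hb : 0 < b) (hs1 : 0 < s1) (hs2 : 0 < s2) (hs3 : 0 < s3)
    (hP : P = p + s2 + s1 * (a + b) / a) (hQ : Q = q + s3 + s1 * (a + b) / b) :
    lift (mul (E s1 s2 s3 h)) (cl1 p q a b)
      = (p * q / (P * Q)) • cl1 P Q a b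
        + (a ^ 2 * q * (P - p) / P) •
            cycB (cycB (mk1 (s1 * P / (P - p)) (s2 * P / (P - p)) (h * P / (P - p))))
        + (b ^ 2 * p * (Q - q) / Q) •
            cycB (mk1 (s3 * Q / (Q - q)) (s1 * Q / (Q - q)) (h * Q / (Q - q)))
        + (p * q * (s1 - h - s1 ^ 2 / (P - p) - s1 ^ 2 / (Q - q))) • inf1 b a := by
  have hv : 0 < P - p := by rw [hP]; have : 0 < s1 * (a + b) / a := by positivity
                            linarith
  have hw : 0 < Q - q := by rw [hQ]; have : 0 < s1 * (a + b) / b := by positivity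
                            linarith
  have hPp : 0 < P := by linarith
  have hQp : 0 < Q := by linarith
  obtain ⟨v, hv'⟩ : ∃ v, v = P - p := ⟨_, rfl⟩
  obtain ⟨w, hw'⟩ : ∃ w, w = Q - q := ⟨_, rfl⟩
  have ev : s2 = v - s1 * (a + b) / a := by rw [hv', hP]; ring
  have ew : s3 = w - s1 * (a + b) / b := by rw [hw', hQ]; ring
  have eP : P = p + v := by rw [hv']; ring
  have eQ : Q = q + w := by rw [hw']; ring
  have hv0 : 0 < v := by rw [hv']; exact hv
  have hw0 : 0 < w := by rw [hw']; exact hw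
  rw [← hv', ← hw']
  unfold cl1
  rw [lift_wedge (lin_mul _)]
  subst eP eQ ev ew
  unfold mk1 cycB inf1
  ext <;> simp <;> field_simp <;> ring

/-- Conditions on the weights of an unmarked network. -/
structure Ok (s1 s2 s3 h : ℝ) : Prop where
  n1 : 0 ≤ s1
  n2 : 0 ≤ s2
  n3 : 0 ≤ s3
  nh : 0 ≤ h
  le : h * (s1 * s2 + s1 * s3 + s2 * s3 + h) ≤ s1 * s2 * s3

theorem Ok.cyc {s1 s2 s3 h : ℝ} (H : Ok s1 s2 s3 h) : Ok s3 s1 s2 h :=
  ⟨H.n3, H.n1, H.n2, H.nh, by nlinarith [H.le]⟩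

theorem Ok.swap {s1 s2 s3 h : ℝ} (H : Ok s1 s2 s3 h) : Ok s1 s3 s2 h :=
  ⟨H.n1, H.n3, H.n2, H.nh, by nlinarith [H.le]⟩

theorem Ok.le' {s1 s2 s3 h : ℝ} (H : Ok s1 s2 s3 h) :
    h * (s1 * s2 + s1 * s3 + s2 * s3) ≤ s1 * s2 * s3 := by
  nlinarith [H.le, mul_nonneg H.nh H.nh]

/-- `h` is at most the parallel sum of any two weights. -/
theorem Ok.pair23 {s1 s2 s3 h : ℝ} (H : Ok s1 s2 s3 h) : h * (s2 + s3) ≤ s2 * s3 := by
  rcases eq_or_lt_of_le H.n1 with h0 | h0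
  · have h1 := H.le
    rw [← h0] at h1
    have h2 : h * h ≤ 0 := by nlinarith [mul_nonneg H.nh (mul_nonneg H.n2 H.n3)]
    have h3 : h = 0 := by
      have := mul_self_eq_zero.mp (le_antisymm h2 (mul_self_nonneg h)); exact this
    rw [h3, zero_mul]; exact mul_nonneg H.n2 H.n3
  · have h1 := H.le'
    have h2 : s1 * (h * (s2 + s3)) ≤ s1 * (s2 * s3) := by
      nlinarith [mul_nonneg H.nh (mul_nonneg H.n2 H.n3)]
    exact le_of_mul_le_mul_left h2 h0

theorem Ok.pair12 {s1 s2 s3 h : ℝ} (H : Ok s1 s2 s3 h) : h * (s1 + s2) ≤ s1 * s2 := H.cyc.pair23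

theorem Ok.pair31 {s1 s2 s3 h : ℝ} (H : Ok s1 s2 s3 h) : h * (s3 + s1) ≤ s3 * s1 :=
  H.cyc.cyc.pair23

/-- Increasing the weights keeps `h e2 ≤ e3`. -/
theorem Ok.eps {s1 s2 s3 h : ℝ} (H : Ok s1 s2 s3 h) {ε : ℝ} (hε : 0 < ε) :
    h * ((s1 + ε) * (s2 + ε) + (s1 + ε) * (s3 + ε) + (s2 + ε) * (s3 + ε))
      ≤ (s1 + ε) * (s2 + ε) * (s3 + ε) := by
  have a1 := H.le'
  have a2 := H.pair12
  have a3 := H.pair23
  have a4 := H.pair31
  have n1 := H.n1
  have n2 := H.n2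
  have n3 := H.n3
  have nh := H.nh
  -- `3 h ≤ s1 + s2 + s3` and `2 h (s1+s2+s3) ≤ e2`
  have b2 : 2 * (h * (s1 + s2 + s3)) ≤ s1 * s2 + s1 * s3 + s2 * s3 := by nlinarith
  have b1 : 3 * h ≤ s1 + s2 + s3 := by
    rcases eq_or_lt_of_le (add_nonneg (add_nonneg n1 n2) n3) with h0 | h0
    · have e1 : s1 = 0 := by linarith
      have e2 : s2 = 0 := by linarith
      have e3 : s3 = 0 := by linarith
      have hl := H.le
      rw [e1, e2, e3] at hl
      have h2 : h * h ≤ 0 := by nlinarith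
      have h3 : h = 0 := mul_self_eq_zero.mp (le_antisymm h2 (mul_self_nonneg h))
      rw [h3]; linarith
    · have h5 : (s1 + s2 + s3) * (3 * h) ≤ (s1 + s2 + s3) * (s1 + s2 + s3) := by
        nlinarith [sq_nonneg (s1 - s2), sq_nonneg (s2 - s3), sq_nonneg (s1 - s3), mul_nonneg n1 n2,
          mul_nonneg n2 n3, mul_nonneg n1 n3]
      exact le_of_mul_le_mul_left h5 h0
  have e : (s1 + ε) * (s2 + ε) * (s3 + ε)
      - h * ((s1 + ε) * (s2 + ε) + (s1 + ε) * (s3 + ε) + (s2 + ε) * (s3 + ε))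
      = (s1 * s2 * s3 - h * (s1 * s2 + s1 * s3 + s2 * s3))
        + ε * ((s1 * s2 + s1 * s3 + s2 * s3) - 2 * (h * (s1 + s2 + s3)))
        + ε ^ 2 * ((s1 + s2 + s3) - 3 * h) + ε ^ 3 := by ring
  have p1 : 0 ≤ ε * ((s1 * s2 + s1 * s3 + s2 * s3) - 2 * (h * (s1 + s2 + s3))) :=
    mul_nonneg hε.le (by linarith)
  have p2 : 0 ≤ ε ^ 2 * ((s1 + s2 + s3) - 3 * h) := mul_nonneg (by positivity) (by linarith)
  have p3 : 0 ≤ ε ^ 3 := by positivity
  linarith

/-- Superadditivity of the parallel sum: the last coefficient is nonnegative. -/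
theorem d_nonneg {a b s1 s2 s3 h v w : ℝ} (ha : 0 < a) (hb : 0 < b)
    (hs1 : 0 < s1) (hs2 : 0 < s2) (hs3 : 0 < s3)
    (hH : h * (s1 * s2 + s1 * s3 + s2 * s3) ≤ s1 * s2 * s3)
    (hv : v = s2 + s1 * (a + b) / a) (hw : w = s3 + s1 * (a + b) / b) :
    0 ≤ s1 - h - s1 ^ 2 / v - s1 ^ 2 / w := by
  have e2 : 0 < s1 * s2 + s1 * s3 + s2 * s3 := by positivity
  have hh : h ≤ s1 * s2 * s3 / (s1 * s2 + s1 * s3 + s2 * s3) := by
    rw [le_div_iff₀ e2]; exact hH
  have key : s1 ^ 2 / v + s1 ^ 2 / w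
      ≤ s1 - s1 * s2 * s3 / (s1 * s2 + s1 * s3 + s2 * s3) := by
    have hV : 0 < a * s2 + s1 * (a + b) := by positivity
    have hW : 0 < b * s3 + s1 * (a + b) := by positivity
    have ev : s1 ^ 2 / v = s1 ^ 2 * a / (a * s2 + s1 * (a + b)) := by
      rw [hv]; field_simp
    have ew : s1 ^ 2 / w = s1 ^ 2 * b / (b * s3 + s1 * (a + b)) := by
      rw [hw]; field_simp
    rw [ev, ew]
    have e : s1 - s1 * s2 * s3 / (s1 * s2 + s1 * s3 + s2 * s3)
        = s1 ^ 2 * (s2 + s3) / (s1 * s2 + s1 * s3 + s2 * s3) := by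
      field_simp; ring
    rw [e, div_add_div _ _ hV.ne' hW.ne', div_le_div_iff₀ (by positivity) e2]
    have : s1 ^ 2 * (s2 + s3) * ((a * s2 + s1 * (a + b)) * (b * s3 + s1 * (a + b)))
        - (s1 ^ 2 * a * (b * s3 + s1 * (a + b)) + (a * s2 + s1 * (a + b)) * (s1 ^ 2 * b))
          * (s1 * s2 + s1 * s3 + s2 * s3) = s1 ^ 3 * (a * s2 - b * s3) ^ 2 := by ring
    nlinarith [mul_nonneg (pow_pos hs1 3).le (sq_nonneg (a * s2 - b * s3))]
  linarith

theorem mul_cl1_pos {p q a b s1 s2 s3 h : ℝ} (hp : 0 < p) (hq : 0 < q) (ha : 0 < a)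
    (hb : 0 < b) (hs1 : 0 < s1) (hs2 : 0 < s2) (hs3 : 0 < s3) (hh : 0 ≤ h)
    (hH : h * (s1 * s2 + s1 * s3 + s2 * s3) ≤ s1 * s2 * s3) :
    InC (lift (mul (E s1 s2 s3 h)) (cl1 p q a b)) := by
  set P := p + s2 + s1 * (a + b) / a with hP
  set Q := q + s3 + s1 * (a + b) / b with hQ
  have h1 : 0 < s1 * (a + b) / a := by positivity
  have h2 : 0 < s1 * (a + b) / b := by positivity
  have hv : 0 < P - p := by rw [hP]; linarith
  have hw : 0 < Q - q := by rw [hQ]; linarith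
  have hPp : 0 < P := by linarith
  have hQp : 0 < Q := by linarith
  have k12 : h * (s1 + s2) ≤ s1 * s2 := by
    have e : s3 * (h * (s1 + s2)) ≤ s3 * (s1 * s2) := by
      nlinarith [mul_nonneg hh (mul_pos hs1 hs2).le]
    exact le_of_mul_le_mul_left e hs3
  have k31 : h * (s3 + s1) ≤ s3 * s1 := by
    have e : s2 * (h * (s3 + s1)) ≤ s2 * (s3 * s1) := by
      nlinarith [mul_nonneg hh (mul_pos hs3 hs1).le]
    exact le_of_mul_le_mul_left e hs2
  rw [mul_cl1_identity hp hq ha hb hs1 hs2 hs3 hP hQ]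
  refine InC.add (InC.add (InC.add ?_ ?_) ?_) ?_
  · exact InC.smul (by positivity) (InC.gen (Gen.c1 P Q a b hPp.le hQp.le ha.le hb.le))
  · refine InC.smul (by positivity) (InC.gen (Gen.m3 _ _ _ (MOk.of_pos (by positivity)
      (by positivity) (by positivity) ?_)))
    have e1 : h * P / (P - p) * (s1 * P / (P - p) + s2 * P / (P - p))
        = (P / (P - p)) ^ 2 * (h * (s1 + s2)) := by field_simp
    have e2 : s1 * P / (P - p) * (s2 * P / (P - p)) = (P / (P - p)) ^ 2 * (s1 * s2) := by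
      field_simp
    rw [e1, e2]
    exact mul_le_mul_of_nonneg_left k12 (by positivity)
  · refine InC.smul (by positivity) (InC.gen (Gen.m2 _ _ _ (MOk.of_pos (by positivity)
      (by positivity) (by positivity) ?_)))
    have e1 : h * Q / (Q - q) * (s3 * Q / (Q - q) + s1 * Q / (Q - q))
        = (Q / (Q - q)) ^ 2 * (h * (s3 + s1)) := by field_simp
    have e2 : s3 * Q / (Q - q) * (s1 * Q / (Q - q)) = (Q / (Q - q)) ^ 2 * (s3 * s1) := by
      field_simp
    rw [e1, e2]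
    exact mul_le_mul_of_nonneg_left k31 (by positivity)
  · refine InC.smul (mul_nonneg (by positivity) ?_) (inC_inf1 hb.le ha.le)
    exact d_nonneg ha hb hs1 hs2 hs3 hH (by rw [hP]; ring) (by rw [hQ]; ring)

theorem mul_cl1 {p q a b s1 s2 s3 h : ℝ} (hp : 0 ≤ p) (hq : 0 ≤ q) (ha : 0 ≤ a)
    (hb : 0 ≤ b) (H : Ok s1 s2 s3 h) : InC (lift (mul (E s1 s2 s3 h)) (cl1 p q a b)) := by
  have key := InC.of_eps (F := fun ε => lift (mul (E (s1 + ε) (s2 + ε) (s3 + ε) h))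
      (cl1 (p + ε) (q + ε) (a + ε) (b + ε))) (fun ε hε => by
        refine mul_cl1_pos (by linarith) (by linarith) (by linarith) (by linarith)
          (by linarith [H.n1]) (by linarith [H.n2]) (by linarith [H.n3]) H.nh (H.eps hε))
      (by unfold lift cl1; simp; fun_prop) (by unfold lift cl1; simp; fun_prop)
      (by unfold lift cl1; simp; fun_prop) (by unfold lift cl1; simp; fun_prop)
      (by unfold lift cl1; simp; fun_prop) (by unfold lift cl1; simp; fun_prop)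
      (by unfold lift cl1; simp; fun_prop) (by unfold lift cl1; simp; fun_prop)
      (by unfold lift cl1; simp; fun_prop) (by unfold lift cl1; simp; fun_prop)
  simpa using key

theorem Ok.h_zero {s1 s2 s3 h : ℝ} (H : Ok s1 s2 s3 h) (h2 : s2 = 0) : h = 0 := by
  have h1 := H.le
  rw [h2] at h1
  have h3 : h * h ≤ 0 := by nlinarith [mul_nonneg H.nh (mul_nonneg H.n1 H.n3)]
  exact mul_self_eq_zero.mp (le_antisymm h3 (mul_self_nonneg h))

theorem MOk.add {p q t s2 s3 h : ℝ} (H : MOk p q t) (n2 : 0 ≤ s2) (n3 : 0 ≤ s3) (nh : 0 ≤ h)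
    (h2 : h ≤ s2) (k : h * (s2 + s3) ≤ s2 * s3) : MOk (p + s2) (q + s3) (t + h) := by
  have hp := H.np
  have hq := H.nq
  have ht := H.nt
  have htp := H.tp
  have htt := H.le
  refine ⟨by linarith, by linarith, by linarith, by linarith, ?_⟩
  have hkey : t * (s2 + s3) + h * (p + q) ≤ p * s3 + q * s2 := by
    rcases eq_or_lt_of_le (add_nonneg hp hq) with h0 | h0
    · have e1 : p = 0 := by linarith
      have e2 : q = 0 := by linarith
      have e3 : t = 0 := by linarith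
      rw [e1, e2, e3]; linarith
    rcases eq_or_lt_of_le (add_nonneg n2 n3) with h1 | h1
    · have e1 : s2 = 0 := by linarith
      have e2 : s3 = 0 := by linarith
      have e3 : h = 0 := by linarith
      rw [e1, e2, e3]; linarith
    · have h2 : (p + q) * (s2 + s3) * (t * (s2 + s3) + h * (p + q))
          ≤ (p + q) * (s2 + s3) * (p * s3 + q * s2) := by
        have c1 : (s2 + s3) ^ 2 * (t * (p + q)) ≤ (s2 + s3) ^ 2 * (p * q) :=
          mul_le_mul_of_nonneg_left htt (by positivity)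
        have c2 : (p + q) ^ 2 * (h * (s2 + s3)) ≤ (p + q) ^ 2 * (s2 * s3) :=
          mul_le_mul_of_nonneg_left k (by positivity)
        nlinarith [sq_nonneg (p * s3 - q * s2)]
      exact le_of_mul_le_mul_left h2 (by positivity)
  nlinarith

theorem mul_mk1 {p q t s1 s2 s3 h : ℝ} (hM : MOk p q t) (H : Ok s1 s2 s3 h) :
    InC (lift (mul (E s1 s2 s3 h)) (mk1 p q t)) := by
  have e : lift (mul (E s1 s2 s3 h)) (mk1 p q t) = mk1 (p + s2) (q + s3) (t + h) := by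
    unfold mk1
    rw [lift_wedge (lin_mul _)]
    unfold wedge mul E
    ext <;> dsimp only <;> ring
  rw [e]
  refine InC.gen (Gen.m1 _ _ _ (hM.add H.n2 H.n3 H.nh ?_ H.pair23))
  rcases eq_or_lt_of_le H.n2 with h0 | h0
  · rw [H.h_zero h0.symm]; exact H.n2
  · have k := H.pair23
    have : (s2 + s3) * h ≤ (s2 + s3) * s2 := by nlinarith [mul_pos h0 h0, H.n3]
    exact le_of_mul_le_mul_left this (by linarith [H.n3])

/-- The states of unmarked networks. -/
def Unm (S : St) : Prop :=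
  ∃ c s1 s2 s3 h : ℝ, 0 ≤ c ∧ Ok s1 s2 s3 h ∧ S = c • E s1 s2 s3 h

theorem Unm.cyc {S : St} (hS : Unm S) : Unm (St.cyc S) := by
  obtain ⟨c, s1, s2, s3, h, hc, H, rfl⟩ := hS
  refine ⟨c, s3, s1, s2, h, hc, H.cyc, ?_⟩
  rw [lin_cyc.smul, cyc_E]

theorem cyc3 (S : St) : St.cyc (St.cyc (St.cyc S)) = S := by ext <;> simp

theorem lift_smul_mul (c : ℝ) (A : St) (v : Bv) :
    lift (mul (c • A)) v = (c ^ 2) • lift (mul A) v := by
  unfold lift
  ext <;> simp <;> ring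

/-- **K3** on generators. -/
theorem mul_gen {A : St} (hA : Unm A) {g : Bv} (hg : Gen g) : InC (lift (mul A) g) := by
  have base : ∀ (B : St), Unm B → ∀ (p q a b : ℝ), 0 ≤ p → 0 ≤ q → 0 ≤ a → 0 ≤ b →
      InC (lift (mul B) (cl1 p q a b)) := by
    rintro B ⟨c, s1, s2, s3, h, hc, H, rfl⟩ p q a b hp hq ha hb
    rw [lift_smul_mul]
    exact InC.smul (by positivity) (mul_cl1 hp hq ha hb H)
  have baseM : ∀ (B : St), Unm B → ∀ (p q t : ℝ), MOk p q t → InC (lift (mul B) (mk1 p q t)) := by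
    rintro B ⟨c, s1, s2, s3, h, hc, H, rfl⟩ p q t hM
    rw [lift_smul_mul]
    exact InC.smul (by positivity) (mul_mk1 hM H)
  have cy : ∀ {w : Bv}, (∀ B, Unm B → InC (lift (mul B) w)) →
      ∀ B, Unm B → InC (lift (mul B) (cycB w)) := by
    intro w hw B hB
    have e : B = St.cyc (St.cyc (St.cyc B)) := (cyc3 B).symm
    rw [e, lift_mul_cycB]
    exact (hw _ hB.cyc.cyc).cyc
  cases hg with
  | c1 p q a b hp hq ha hb => exact base A hA p q a b hp hq ha hb
  | c2 p q a b hp hq ha hb => exact cy (fun B hB => base B hB p q a b hp hq ha hb) A hA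
  | c3 p q a b hp hq ha hb => exact cy (cy fun B hB => base B hB p q a b hp hq ha hb) A hA
  | m1 p q t h => exact baseM A hA p q t h
  | m2 p q t h => exact cy (fun B hB => baseM B hB p q t h) A hA
  | m3 p q t h => exact cy (cy fun B hB => baseM B hB p q t h) A hA

/-- **K3**. -/
theorem InC.mul {A : St} (hA : Unm A) {v : Bv} (hv : InC v) : InC (lift (St.mul A) v) :=
  InC.map (linB_lift _) (fun _ hg => mul_gen hA hg) hv

end Pool.Agent.MP_d90615.T3
end
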