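import Mathlib
import Pool.Agent.Lib.MP_d90615_co.CL.Eps
import Pool.Agent.Lib.MP_d90615_co.Mg.G023

section

/-!
States of pieces with three terminals: product, elimination, and the interface of the marked
states.
-/

set_option autoImplicit false

namespace Pool.Agent.T3

/-- Product of two states on the same three terminals. -/
def mulS (s q : Fin 5 → ℝ) : Fin 5 → ℝ :=
  ![s 0 * q 0, s 0 * q 1 + s 1 * q 0, s 0 * q 2 + s 2 * q 0, s 0 * q 3 + s 3 * q 0,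
    s 0 * q 4 + s 4 * q 0 + s 1 * q 2 + s 2 * q 1 + s 2 * q 3 + s 3 * q 2 + s 1 * q 3
      + s 3 * q 1]

/-- The region of the states of unmarked pieces. -/
def Reg (q : Fin 5 → ℝ) : Prop :=
  0 < q 0 ∧ (∀ i, 0 ≤ q i) ∧ q 1 * q 2 + q 2 * q 3 + q 3 * q 1 ≤ q 0 * q 4 ∧
    (q 0 * q 4 - (q 1 * q 2 + q 2 * q 3 + q 3 * q 1)) * q 4 ≤ q 1 * q 2 * q 3

/-- Total weight. -/
def tot (s : Fin 5 → ℝ) : ℝ := s 0 + s 1 + s 2 + s 3 + s 4

/-- Elimination of the vertex `1`: `s` is a state on `(1, 2, 3)`, `q` on `(1, 2, 4)`, `t` on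
`(1, 3, 4)`; the result is a state on `(4, 2, 3)`. -/
def elimS (s q t : Fin 5 → ℝ) : Fin 5 → ℝ :=
  ![s 0 * q 0 * t 0 + s 0 * q 0 * t 1 + s 0 * q 0 * t 3 + s 0 * q 1 * t 0 + s 0 * q 3 * t 0
    + s 1 * q 0 * t 0 + s 3 * q 0 * t 0,
    s 0 * q 1 * t 3 + s 0 * q 2 * t 0 + s 0 * q 2 * t 1 + s 0 * q 2 * t 3 + s 0 * q 4 * t 0
    + s 1 * q 0 * t 3 + s 1 * q 2 * t 0 + s 1 * q 3 * t 0 + s 3 * q 2 * t 0,
    s 0 * q 1 * t 1 + s 1 * q 0 * t 1 + s 2 * q 0 * t 0 + s 2 * q 0 * t 1 + s 2 * q 0 * t 3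
    + s 2 * q 1 * t 0 + s 2 * q 3 * t 0 + s 3 * q 1 * t 0 + s 4 * q 0 * t 0,
    s 0 * q 0 * t 2 + s 0 * q 0 * t 4 + s 0 * q 1 * t 2 + s 0 * q 3 * t 1 + s 0 * q 3 * t 2
    + s 1 * q 0 * t 2 + s 3 * q 0 * t 2 + s 3 * q 0 * t 3 + s 3 * q 3 * t 0,
    s 0 * q 1 * t 4 + s 0 * q 2 * t 2 + s 0 * q 2 * t 4 + s 0 * q 4 * t 1 + s 0 * q 4 * t 2
    + s 1 * q 0 * t 4 + s 1 * q 2 * t 1 + s 1 * q 2 * t 2 + s 1 * q 3 * t 1 + s 1 * q 3 * t 2
    + s 2 * q 0 * t 2 + s 2 * q 0 * t 4 + s 2 * q 1 * t 2 + s 2 * q 1 * t 3 + s 2 * q 2 * t 0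
    + s 2 * q 2 * t 1 + s 2 * q 2 * t 3 + s 2 * q 3 * t 1 + s 2 * q 3 * t 2 + s 2 * q 4 * t 0
    + s 3 * q 1 * t 2 + s 3 * q 1 * t 3 + s 3 * q 2 * t 2 + s 3 * q 2 * t 3 + s 3 * q 4 * t 0
    + s 4 * q 0 * t 2 + s 4 * q 0 * t 3 + s 4 * q 2 * t 0 + s 4 * q 3 * t 0]

/-- The interface: `K s t` for the states `s` (marked edge with weight 0) and `t` (marked edge with
weight 1) of a marked piece. -/
structure Good (K : (Fin 5 → ℝ) → (Fin 5 → ℝ) → Prop) : Prop where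
  base : K ![1, 0, 0, 0, 0] ![1, 1, 0, 0, 0]
  rot : ∀ s t, K s t → K ![s 0, s 2, s 3, s 1, s 4] ![t 0, t 2, t 3, t 1, t 4]
  swap : ∀ s t, K s t → K ![s 0, s 1, s 3, s 2, s 4] ![t 0, t 1, t 3, t 2, t 4]
  mul : ∀ s t q, K s t → Reg q → K (mulS s q) (mulS t q)
  elim : ∀ s t q q', K s t → Reg q → Reg q' → K (elimS s q q') (elimS t q q')
  pair : ∀ s t s' t', K s t → K s' t' →
    tot (mulS t t') * tot (mulS s s') ≤ tot (mulS t s') * tot (mulS s t')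

/-- The same interface, where under `one` only the elimination with one side network is used. -/
structure GoodW (one : Prop) (K : (Fin 5 → ℝ) → (Fin 5 → ℝ) → Prop) : Prop where
  base : K ![1, 0, 0, 0, 0] ![1, 1, 0, 0, 0]
  rot : ∀ s t, K s t → K ![s 0, s 2, s 3, s 1, s 4] ![t 0, t 2, t 3, t 1, t 4]
  swap : ∀ s t, K s t → K ![s 0, s 1, s 3, s 2, s 4] ![t 0, t 1, t 3, t 2, t 4]
  mul : ∀ s t q, K s t → Reg q → K (mulS s q) (mulS t q)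
  elim : ∀ s t q q', K s t → Reg q → Reg q' → (one → q' = ![1, 0, 0, 0, 0]) →
    K (elimS s q q') (elimS t q q')
  pair : ∀ s t s' t', K s t → K s' t' →
    tot (mulS t t') * tot (mulS s s') ≤ tot (mulS t s') * tot (mulS s t')

theorem Good.w {K : (Fin 5 → ℝ) → (Fin 5 → ℝ) → Prop} (h : Good K) : GoodW False K :=
  ⟨h.base, h.rot, h.swap, h.mul, fun s t q q' h1 h2 h3 _ => h.elim s t q q' h1 h2 h3, h.pair⟩

end Pool.Agent.T3
end

section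

/-!
Forests of virtual links on at most four vertices, by computation.
-/

set_option autoImplicit false

namespace Pool.Agent.T3

/-- Connectivity by links. -/
def rl {n : ℕ} : List (Fin n × Fin n) → Fin n → Fin n → Bool
  | [] => fun i j => decide (i = j)
  | q :: L => fun i j => rl L i j || (rl L i q.1 && rl L q.2 j) || (rl L i q.2 && rl L q.1 j)

/-- The links form a forest. -/
def gdl {n : ℕ} : List (Fin n × Fin n) → Bool
  | [] => true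
  | q :: L => gdl L && !(rl L q.1 q.2)

/-- The links of the pattern `i`. -/
def tauF {n : ℕ} (a b x : Fin n) : Fin 5 → List (Fin n × Fin n) :=
  ![[], [(a, b)], [(b, x)], [(a, x)], [(a, b), (b, x)]]

/-- The pairing of the patterns. -/
def hco : Fin 5 → Fin 5 → ℕ :=
  ![![1, 1, 1, 1, 1], ![1, 0, 1, 1, 0], ![1, 1, 0, 1, 0], ![1, 1, 1, 0, 0], ![1, 0, 0, 0, 0]]

/-- The coefficients of the product. -/
def mco : Fin 5 → Fin 5 → Fin 5 → ℕ :=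
  ![![![1, 0, 0, 0, 0], ![0, 0, 0, 0, 0], ![0, 0, 0, 0, 0], ![0, 0, 0, 0, 0], ![0, 0, 0, 0, 0]],
    ![![0, 1, 0, 0, 0], ![1, 0, 0, 0, 0], ![0, 0, 0, 0, 0], ![0, 0, 0, 0, 0], ![0, 0, 0, 0, 0]],
    ![![0, 0, 1, 0, 0], ![0, 0, 0, 0, 0], ![1, 0, 0, 0, 0], ![0, 0, 0, 0, 0], ![0, 0, 0, 0, 0]],
    ![![0, 0, 0, 1, 0], ![0, 0, 0, 0, 0], ![0, 0, 0, 0, 0], ![1, 0, 0, 0, 0], ![0, 0, 0, 0, 0]],
    ![![0, 0, 0, 0, 1], ![0, 0, 1, 1, 0], ![0, 1, 0, 1, 0], ![0, 1, 1, 0, 0], ![1, 0, 0, 0, 0]]]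

/-- The coefficients of the elimination. -/
def eco : Fin 5 → Fin 5 → Fin 5 → Fin 5 → ℕ :=
  ![![![![1, 1, 0, 1, 0],
      ![1, 0, 0, 0, 0],
      ![0, 0, 0, 0, 0],
      ![1, 0, 0, 0, 0],
      ![0, 0, 0, 0, 0]],
    ![![1, 0, 0, 0, 0],
      ![0, 0, 0, 0, 0],
      ![0, 0, 0, 0, 0],
      ![0, 0, 0, 0, 0],
      ![0, 0, 0, 0, 0]],
    ![![0, 0, 0, 0, 0],
      ![0, 0, 0, 0, 0],
      ![0, 0, 0, 0, 0],
      ![0, 0, 0, 0, 0],
      ![0, 0, 0, 0, 0]],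
    ![![1, 0, 0, 0, 0],
      ![0, 0, 0, 0, 0],
      ![0, 0, 0, 0, 0],
      ![0, 0, 0, 0, 0],
      ![0, 0, 0, 0, 0]],
    ![![0, 0, 0, 0, 0],
      ![0, 0, 0, 0, 0],
      ![0, 0, 0, 0, 0],
      ![0, 0, 0, 0, 0],
      ![0, 0, 0, 0, 0]]],
  ![![![0, 0, 0, 0, 0],
      ![0, 0, 0, 1, 0],
      ![1, 1, 0, 1, 0],
      ![0, 0, 0, 0, 0],
      ![1, 0, 0, 0, 0]],
    ![![0, 0, 0, 1, 0],
      ![0, 0, 0, 0, 0],
      ![1, 0, 0, 0, 0],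
      ![1, 0, 0, 0, 0],
      ![0, 0, 0, 0, 0]],
    ![![0, 0, 0, 0, 0],
      ![0, 0, 0, 0, 0],
      ![0, 0, 0, 0, 0],
      ![0, 0, 0, 0, 0],
      ![0, 0, 0, 0, 0]],
    ![![0, 0, 0, 0, 0],
      ![0, 0, 0, 0, 0],
      ![1, 0, 0, 0, 0],
      ![0, 0, 0, 0, 0],
      ![0, 0, 0, 0, 0]],
    ![![0, 0, 0, 0, 0],
      ![0, 0, 0, 0, 0],
      ![0, 0, 0, 0, 0],
      ![0, 0, 0, 0, 0],
      ![0, 0, 0, 0, 0]]],
  ![![![0, 0, 0, 0, 0],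
      ![0, 1, 0, 0, 0],
      ![0, 0, 0, 0, 0],
      ![0, 0, 0, 0, 0],
      ![0, 0, 0, 0, 0]],
    ![![0, 1, 0, 0, 0],
      ![0, 0, 0, 0, 0],
      ![0, 0, 0, 0, 0],
      ![0, 0, 0, 0, 0],
      ![0, 0, 0, 0, 0]],
    ![![1, 1, 0, 1, 0],
      ![1, 0, 0, 0, 0],
      ![0, 0, 0, 0, 0],
      ![1, 0, 0, 0, 0],
      ![0, 0, 0, 0, 0]],
    ![![0, 0, 0, 0, 0],
      ![1, 0, 0, 0, 0],
      ![0, 0, 0, 0, 0],
      ![0, 0, 0, 0, 0],
      ![0, 0, 0, 0, 0]],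
    ![![1, 0, 0, 0, 0],
      ![0, 0, 0, 0, 0],
      ![0, 0, 0, 0, 0],
      ![0, 0, 0, 0, 0],
      ![0, 0, 0, 0, 0]]],
  ![![![0, 0, 1, 0, 1],
      ![0, 0, 1, 0, 0],
      ![0, 0, 0, 0, 0],
      ![0, 1, 1, 0, 0],
      ![0, 0, 0, 0, 0]],
    ![![0, 0, 1, 0, 0],
      ![0, 0, 0, 0, 0],
      ![0, 0, 0, 0, 0],
      ![0, 0, 0, 0, 0],
      ![0, 0, 0, 0, 0]],
    ![![0, 0, 0, 0, 0],
      ![0, 0, 0, 0, 0],
      ![0, 0, 0, 0, 0],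
      ![0, 0, 0, 0, 0],
      ![0, 0, 0, 0, 0]],
    ![![0, 0, 1, 1, 0],
      ![0, 0, 0, 0, 0],
      ![0, 0, 0, 0, 0],
      ![1, 0, 0, 0, 0],
      ![0, 0, 0, 0, 0]],
    ![![0, 0, 0, 0, 0],
      ![0, 0, 0, 0, 0],
      ![0, 0, 0, 0, 0],
      ![0, 0, 0, 0, 0],
      ![0, 0, 0, 0, 0]]],
  ![![![0, 0, 0, 0, 0],
      ![0, 0, 0, 0, 1],
      ![0, 0, 1, 0, 1],
      ![0, 0, 0, 0, 0],
      ![0, 1, 1, 0, 0]],
    ![![0, 0, 0, 0, 1],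
      ![0, 0, 0, 0, 0],
      ![0, 1, 1, 0, 0],
      ![0, 1, 1, 0, 0],
      ![0, 0, 0, 0, 0]],
    ![![0, 0, 1, 0, 1],
      ![0, 0, 1, 1, 0],
      ![1, 1, 0, 1, 0],
      ![0, 1, 1, 0, 0],
      ![1, 0, 0, 0, 0]],
    ![![0, 0, 0, 0, 0],
      ![0, 0, 1, 1, 0],
      ![0, 0, 1, 1, 0],
      ![0, 0, 0, 0, 0],
      ![1, 0, 0, 0, 0]],
    ![![0, 0, 1, 1, 0],
      ![0, 0, 0, 0, 0],
      ![1, 0, 0, 0, 0],
      ![1, 0, 0, 0, 0],
      ![0, 0, 0, 0, 0]]]]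

lemma hco_eq : ∀ l m : Fin 5,
    (if gdl (tauF (0 : Fin 3) 1 2 l ++ tauF 0 1 2 m) = true then 1 else 0) = hco l m := by
  decide

lemma mco_eq : ∀ l i j : Fin 5,
    (if gdl (tauF (0 : Fin 3) 1 2 l ++ tauF 0 1 2 i ++ tauF 0 1 2 j) = true then 1 else 0) =
      ∑ m : Fin 5, hco l m * mco m i j := by
  decide +kernel

/-- Vertices: `0` eliminated, `1`, `2` stay, `3` new. -/
lemma eco_eq : ∀ l i j k : Fin 5,
    (if gdl (tauF (3 : Fin 4) 1 2 l ++ tauF 0 1 2 i ++ tauF 0 1 3 j ++ tauF 0 2 3 k) = true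
      then 1 else 0) = ∑ m : Fin 5, hco l m * eco m i j k := by
  decide +kernel

lemma hco_inj {o o' : Fin 5 → ℝ}
    (h : ∀ l, ∑ m, o m * (hco l m : ℝ) = ∑ m, o' m * (hco l m : ℝ)) : o = o' := by
  have h0 := h 0
  have h1 := h 1
  have h2 := h 2
  have h3 := h 3
  have h4 := h 4
  simp [hco, Fin.sum_univ_five] at h0 h1 h2 h3 h4
  funext i
  fin_cases i
  · exact h4
  · show o 1 = o' 1
    linarith
  · show o 2 = o' 2
    linarith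
  · show o 3 = o' 3
    linarith
  · show o 4 = o' 4
    linarith

lemma mulS_sum (s q : Fin 5 → ℝ) (m : Fin 5) :
    mulS s q m = ∑ i, ∑ j, s i * (q j * (mco m i j : ℝ)) := by
  fin_cases m <;> simp [mulS, mco, Fin.sum_univ_five] <;> ring

lemma elimS_sum (s q t : Fin 5 → ℝ) (m : Fin 5) :
    elimS s q t m = ∑ i, ∑ j, ∑ k, s i * (q j * (t k * (eco m i j k : ℝ))) := by
  fin_cases m <;> simp [elimS, eco, Fin.sum_univ_five] <;> ring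

end Pool.Agent.T3
end

section

/-!
The elimination in the form `e^{post} (R + Q + τ x₃ + τ' x₂) e^{pre}`.
-/

set_option autoImplicit false

namespace Pool.Agent.T3

/-- Multiplication by `e^{a x₃ + b x₂}` (`x₃`: pattern 1, `x₂`: pattern 3). -/
def expS (a b : ℝ) (s : Fin 5 → ℝ) : Fin 5 → ℝ := mulS s ![1, a, 0, b, a * b]

/-- `R + Q + τ x₃ + τ' x₂`; `R` isolates the first terminal. -/
def coreS (Q τ τ' : ℝ) (s : Fin 5 → ℝ) : Fin 5 → ℝ :=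
  ![s 0 + s 1 + s 3 + Q * s 0, Q * s 1 + τ * s 0, s 2 + s 4 + Q * s 2, Q * s 3 + τ' * s 0,
    Q * s 4 + τ * (s 2 + s 3) + τ' * (s 1 + s 2)]

/-- The state `c e^{p₁, p₂, p₃} (1 + τ u)`, in the order of the patterns. -/
def regS (c p₁ p₂ p₃ τ : ℝ) : Fin 5 → ℝ :=
  ![c, c * p₁, c * p₂, c * p₃, c * (p₁ * p₂ + p₂ * p₃ + p₃ * p₁ + τ)]

/-- **The form of the elimination.**  `q` has the weights `p₁` (edge 12), `p₂` (edge 24), `p₃`
(edge 14), `t` the weights `r₁` (edge 13), `r₂` (edge 34), `r₃` (edge 14). -/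
theorem elimS_form (s : Fin 5 → ℝ) (c p₁ p₂ p₃ τ c' r₁ r₂ r₃ τ' : ℝ) (i : Fin 5) :
    elimS s (regS c p₁ p₂ p₃ τ) (regS c' r₁ r₂ r₃ τ') i =
      c * c' * expS p₂ r₂ (coreS (p₃ + r₃) τ τ' (expS p₁ r₁ s)) i := by
  fin_cases i <;>
    simp [elimS, regS, expS, coreS, mulS, Matrix.cons_val_zero, Matrix.cons_val_one] <;> ring

/-- Every state of the region has the form `regS`. -/
theorem reg_form {q : Fin 5 → ℝ} (h : Reg q) : ∃ c p₁ p₂ p₃ τ : ℝ, 0 < c ∧ 0 ≤ p₁ ∧ 0 ≤ p₂ ∧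
    0 ≤ p₃ ∧ 0 ≤ τ ∧ τ * (p₁ * p₂ + p₂ * p₃ + p₃ * p₁ + τ) ≤ p₁ * p₂ * p₃ ∧
    q = regS c p₁ p₂ p₃ τ := by
  obtain ⟨h0, h1, h2, h3⟩ := h
  have e : ∀ x : ℝ, q 0 * (x / q 0) = x := fun x => mul_div_cancel₀ x h0.ne'
  have hq : ∀ i, q i = q 0 * (q i / q 0) := fun i => (e _).symm
  set a := q 1 / q 0 with ha
  set b := q 2 / q 0 with hb
  set g := q 3 / q 0 with hg
  set d := q 4 / q 0 with hd
  have q1 : q 1 = q 0 * a := hq 1
  have q2 : q 2 = q 0 * b := hq 2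
  have q3 : q 3 = q 0 * g := hq 3
  have q4 : q 4 = q 0 * d := hq 4
  refine ⟨q 0, a, b, g, d - (a * b + b * g + g * a), h0, div_nonneg (h1 1) h0.le,
    div_nonneg (h1 2) h0.le, div_nonneg (h1 3) h0.le, ?_, ?_, ?_⟩
  · rw [q1, q2, q3, q4] at h2
    have h4 : q 0 ^ 2 * (a * b + b * g + g * a) ≤ q 0 ^ 2 * d := by nlinarith
    have := le_of_mul_le_mul_left h4 (by positivity)
    linarith
  · rw [q1, q2, q3, q4] at h3
    have h4 : q 0 ^ 3 * ((d - (a * b + b * g + g * a)) * d) ≤ q 0 ^ 3 * (a * b * g) := by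
      nlinarith
    have := le_of_mul_le_mul_left h4 (by positivity)
    nlinarith
  · funext i
    fin_cases i
    · simp [regS]
    · simpa [regS] using q1
    · simpa [regS] using q2
    · simpa [regS] using q3
    · simp only [regS]
      show q 4 = q 0 * (a * b + b * g + g * a + (d - (a * b + b * g + g * a)))
      rw [q4]
      ring

end Pool.Agent.T3
end

section

/-! # Bridge from the cone to the interface `Good` -/

set_option autoImplicit false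
set_option linter.unnecessarySeqFocus false
set_option linter.unreachableTactic false
set_option linter.unusedTactic false

namespace Pool.Agent.MP_d90615.T3

open St

/-- `R1 + Q + τ x3 + τ' x2`. -/
@[simps] def core (Q τ τ' : ℝ) (S : St) : St where
  o := S.o + S.z + S.y + Q * S.o
  x := S.x + S.u + Q * S.x
  y := Q * S.y + τ' * S.o
  z := Q * S.z + τ * S.o
  u := Q * S.u + τ * (S.x + S.y) + τ' * (S.z + S.x)

theorem lin_core (Q τ τ' : ℝ) : Lin (core Q τ τ') :=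
  ⟨fun S T => by ext <;> simp <;> ring, fun c S => by ext <;> simp <;> ring⟩

/-- Elimination of terminal 1 in a bag `{1, 2, 3, 4}`: the networks on `(1, 2, 4)`:
`p1` (edge 12), `p2` (edge 24), `p3` (edge 14), chord `τ`; on `(1, 3, 4)`: `r1` (edge 13),
`r2` (edge 34), `r3` (edge 14), chord `τ'`. -/
def elim (p1 p2 p3 τ r1 r2 r3 τ' : ℝ) (S : St) : St :=
  mul (E 0 r2 p2 0) (core (p3 + r3) τ τ' (mul (E 0 r1 p1 0) S))

theorem lin_elim (p1 p2 p3 τ r1 r2 r3 τ' : ℝ) : Lin (elim p1 p2 p3 τ r1 r2 r3 τ') :=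
  (lin_mul _).comp ((lin_core _ _ _).comp (lin_mul _))

/-- From the pattern order `0, 12, 23, 13, 123` to `St`. -/
def toSt (s : Fin 5 → ℝ) : St := ⟨s 0, s 2, s 3, s 1, s 4⟩

/-- The predicate on marked states. -/
def K (s t : Fin 5 → ℝ) : Prop := InC (wedge (toSt s) (toSt t))

theorem toSt_mulS (s q : Fin 5 → ℝ) : toSt (T3.mulS s q) = mul (toSt q) (toSt s) := by
  ext <;> simp [toSt, T3.mulS] <;> ring

theorem toSt_regS (c p₁ p₂ p₃ τ : ℝ) : toSt (T3.regS c p₁ p₂ p₃ τ) = c • E p₂ p₃ p₁ τ := by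
  ext <;> simp [toSt, T3.regS, -mul_eq_mul_left_iff] <;> ring

theorem toSt_elimS (s : Fin 5 → ℝ) (c p₁ p₂ p₃ τ c' r₁ r₂ r₃ τ' : ℝ) :
    toSt (T3.elimS s (T3.regS c p₁ p₂ p₃ τ) (T3.regS c' r₁ r₂ r₃ τ'))
      = (c * c') • elim p₁ p₂ p₃ τ r₁ r₂ r₃ τ' (toSt s) := by
  ext <;> simp only [toSt, T3.elimS_form] <;>
    simp [elim, toSt, T3.expS, T3.coreS, T3.mulS, -mul_eq_mul_left_iff] <;> ring

theorem unm_of_reg {q : Fin 5 → ℝ} (h : T3.Reg q) : Unm (toSt q) := by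
  obtain ⟨c, p₁, p₂, p₃, τ, hc, h1, h2, h3, ht, hle, rfl⟩ := T3.reg_form h
  exact ⟨c, p₂, p₃, p₁, τ, hc.le, ⟨h2, h3, h1, ht, by nlinarith⟩, toSt_regS _ _ _ _ _⟩

/-- **From the cone to the interface.** -/
theorem good_of (hpair : ∀ v w, Gen v → Gen w → 0 ≤ pair v w)
    (helim : ∀ p1 p2 p3 τ r1 r2 r3 τ' : ℝ, Ok p2 p3 p1 τ → Ok r2 r3 r1 τ' →
      ∀ g, Gen g → InC (lift (elim p1 p2 p3 τ r1 r2 r3 τ') g)) : T3.Good K where
  base := by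
    have h : InC (cycB (cycB (mk1 0 0 0))) := InC.gen (Gen.m3 0 0 0 (MOk.zero le_rfl le_rfl))
    have e : cycB (cycB (mk1 0 0 0)) = wedge (toSt ![1, 0, 0, 0, 0]) (toSt ![1, 1, 0, 0, 0]) := by
      unfold cycB mk1 toSt
      ext <;> simp
    unfold K
    rw [← e]; exact h
  rot := by
    intro s t h
    have h1 := InC.cyc (InC.cyc h)
    have e : cycB (cycB (wedge (toSt s) (toSt t)))
        = wedge (toSt ![s 0, s 2, s 3, s 1, s 4]) (toSt ![t 0, t 2, t 3, t 1, t 4]) := by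
      unfold cycB toSt
      ext <;> simp
    unfold K
    rw [← e]; exact h1
  swap := by
    intro s t h
    have h1 := InC.cyc (InC.cyc (InC.swap (InC.cyc h)))
    have e : cycB (cycB (swapB (cycB (wedge (toSt s) (toSt t)))))
        = wedge (toSt ![s 0, s 1, s 3, s 2, s 4]) (toSt ![t 0, t 1, t 3, t 2, t 4]) := by
      unfold cycB swapB toSt
      ext <;> simp
    unfold K
    rw [← e]; exact h1
  mul := by
    intro s t q h hq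
    unfold K
    rw [toSt_mulS, toSt_mulS, ← lift_wedge (lin_mul _)]
    exact InC.mul (unm_of_reg hq) h
  elim := by
    intro s t q q' h hq hq'
    obtain ⟨c, p₁, p₂, p₃, τ, hc, h1, h2, h3, ht, hle, rfl⟩ := T3.reg_form hq
    obtain ⟨c', r₁, r₂, r₃, τ', hc', h1', h2', h3', ht', hle', rfl⟩ := T3.reg_form hq'
    unfold K
    rw [toSt_elimS, toSt_elimS]
    have e : wedge ((c * c') • elim p₁ p₂ p₃ τ r₁ r₂ r₃ τ' (toSt s))
        ((c * c') • elim p₁ p₂ p₃ τ r₁ r₂ r₃ τ' (toSt t))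
        = ((c * c') ^ 2) • lift (elim p₁ p₂ p₃ τ r₁ r₂ r₃ τ') (wedge (toSt s) (toSt t)) := by
      rw [lift_wedge (lin_elim _ _ _ _ _ _ _ _)]
      ext <;> simp <;> ring
    rw [e]
    refine InC.smul (by positivity) (InC.map (linB_lift _) (fun g hg => ?_) h)
    exact helim _ _ _ _ _ _ _ _ ⟨h2, h3, h1, ht, by nlinarith⟩ ⟨h2', h3', h1', ht', by nlinarith⟩
      g hg
  pair := by
    intro s t s' t' h h'
    have hp := pair_nonneg_of_gen hpair h h'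
    rw [pair_wedge] at hp
    have tt : ∀ a b : Fin 5 → ℝ, T3.tot (T3.mulS a b) = St.tot (mul (toSt a) (toSt b)) := by
      intro a b
      simp [T3.tot, St.tot, T3.mulS, toSt]; ring
    rw [tt, tt, tt, tt]
    linarith

end Pool.Agent.MP_d90615.T3
end
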