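import Mathlib
import Pool.Agent.Lib.MP_d90615_co.Mg.G019
import Pool.Agent.Lib.MP_d90615_co.Mg.G029

section

/-!
Product and elimination of pieces with three terminals, for graphs.
-/

set_option autoImplicit false
set_option linter.unusedSectionVars false

namespace Pool.Agent.T3

open Finset Pool.Agent.Lib.MP_d90615_co Pool.Agent.CL
open scoped Classical

variable {V E : Type*}

lemma rl_iff {n : ℕ} (ends : E → Sym2 V) {f : Fin n → V} (hf : Function.Injective f)
    (L : List (Fin n × Fin n)) (i j : Fin n) :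
    rel ends (∅ : Finset E) (L.map (Prod.map f f)) (f i) (f j) ↔ rl L i j = true := by
  induction L generalizing i j with
  | nil =>
    simp only [List.map_nil, rel, rl, conn_empty, decide_eq_true_eq]
    exact hf.eq_iff
  | cons q L ih =>
    obtain ⟨q1, q2⟩ := q
    simp only [List.map_cons, Prod.map_apply, rel, Ins, rl, ih, Bool.or_eq_true,
      Bool.and_eq_true]
    tauto

lemma gdl_iff {n : ℕ} (ends : E → Sym2 V) {f : Fin n → V} (hf : Function.Injective f)
    (L : List (Fin n × Fin n)) :
    good ends (∅ : Finset E) (L.map (Prod.map f f)) ↔ gdl L = true := by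
  induction L with
  | nil =>
    simp only [List.map_nil, good, gdl, iff_true]
    exact forest_empty
  | cons q L ih =>
    obtain ⟨q1, q2⟩ := q
    simp only [List.map_cons, Prod.map_apply, good, gdl, ih, rl_iff ends hf, Bool.and_eq_true,
      Bool.not_eq_true', Bool.not_eq_true]

lemma tau_map {n : ℕ} (f : Fin n → V) (a b x : Fin n) (i : Fin 5) :
    tau (f a) (f b) (f x) i = (tauF a b x i).map (Prod.map f f) := by
  fin_cases i <;> simp [tau, tauF]

lemma P_empty (ends : E → Sym2 V) (w : E → ℝ) (L : List (V × V)) :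
    P ends w ∅ L = if good ends (∅ : Finset E) L then 1 else 0 := by
  rw [P, Finset.powerset_empty, Finset.filter_singleton]
  split_ifs <;> simp

lemma P_empty_map {n : ℕ} (ends : E → Sym2 V) (w : E → ℝ) {f : Fin n → V}
    (hf : Function.Injective f) (L : List (Fin n × Fin n)) :
    P ends w ∅ (L.map (Prod.map f f)) = ((if gdl L = true then 1 else 0 : ℕ) : ℝ) := by
  rw [P_empty]
  by_cases h : gdl L = true
  · rw [if_pos ((gdl_iff ends hf L).mpr h), if_pos h]
    simp
  · rw [if_neg fun h' => h ((gdl_iff ends hf L).mp h'), if_neg h]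
    simp

lemma mem_tau {a b x : V} {i : Fin 5} {q : V × V} (h : q ∈ tau a b x i) :
    (q.1 = a ∨ q.1 = b ∨ q.1 = x) ∧ (q.2 = a ∨ q.2 = b ∨ q.2 = x) := by
  fin_cases i <;> simp only [tau, List.mem_cons, List.not_mem_nil, or_false] at h
  · subst h; simp
  · subst h; simp
  · subst h; simp
  · rcases h with h | h <;> subst h <;> simp

/-- The pairing in terms of the patterns. -/
lemma P_tau (ends : E → Sym2 V) (w : E → ℝ) (D : Finset E) {a b x : V} (hab : a ≠ b)
    (hbx : b ≠ x) (hax : a ≠ x) (l : Fin 5) :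
    P ends w D (tau a b x l) = ∑ m, X ends w D a b x m * (hco l m : ℝ) := by
  have h := glue (ends := ends) w (D1 := D) (D' := ∅) (Finset.disjoint_empty_right D)
    (fun v => v = a ∨ v = b ∨ v = x) hab hbx hax (fun _ _ _ _ h => h)
    (fun e he => absurd he (Finset.notMem_empty e)) (tau a b x l) (fun q hq => mem_tau hq)
  rw [Finset.union_empty] at h
  rw [h]
  refine Finset.sum_congr rfl fun m _ => ?_
  congr 1
  have hf : Function.Injective ![a, b, x] := by
    intro i j hij
    fin_cases i <;> fin_cases j <;> simp_all [eq_comm]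
  have h1 : tau a b x l ++ tau a b x m =
      (tauF (0 : Fin 3) 1 2 l ++ tauF 0 1 2 m).map (Prod.map ![a, b, x] ![a, b, x]) := by
    rw [List.map_append, ← tau_map, ← tau_map]
    rfl
  rw [h1, P_empty_map ends w hf, hco_eq]

lemma sum3 (f : Fin 5 → Fin 5 → Fin 5 → ℝ) :
    ∑ i, ∑ j, ∑ m, f i j m = ∑ m, ∑ i, ∑ j, f i j m := by
  have h1 : ∀ i, ∑ j, ∑ m, f i j m = ∑ m, ∑ j, f i j m := fun i => Finset.sum_comm
  rw [Finset.sum_congr rfl fun i _ => h1 i, Finset.sum_comm]

lemma sum4 (f : Fin 5 → Fin 5 → Fin 5 → Fin 5 → ℝ) :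
    ∑ i, ∑ j, ∑ k, ∑ m, f i j k m = ∑ m, ∑ i, ∑ j, ∑ k, f i j k m := by
  have h1 : ∀ i, ∑ j, ∑ k, ∑ m, f i j k m = ∑ m, ∑ j, ∑ k, f i j k m := fun i => sum3 _
  rw [Finset.sum_congr rfl fun i _ => h1 i, Finset.sum_comm]

/-- **Product.** -/
theorem X_mul (ends : E → Sym2 V) (w : E → ℝ) {D A : Finset E} (hd : Disjoint D A) {a b x : V}
    (hab : a ≠ b) (hbx : b ≠ x) (hax : a ≠ x)
    (hs : ∀ e ∈ D, ∀ f ∈ A, ∀ v, v ∈ ends e → v ∈ ends f → v = a ∨ v = b ∨ v = x) :
    X ends w (D ∪ A) a b x = mulS (X ends w D a b x) (X ends w A a b x) := by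
  have hf : Function.Injective ![a, b, x] := by
    intro i j hij
    fin_cases i <;> fin_cases j <;> simp_all [eq_comm]
  apply hco_inj
  intro l
  rw [← P_tau ends w (D ∪ A) hab hbx hax l]
  have h := glue (ends := ends) w (D1 := D) (D' := A) hd
    (fun v => (v = a ∨ v = b ∨ v = x) ∨ ∃ f ∈ A, v ∈ ends f) hab hbx hax
    (fun e he v hv ho => by
      rcases ho with ho | ⟨f, hf, hvf⟩
      · exact ho
      · exact hs e he f hf v hv hvf)
    (fun e he v hv => Or.inr ⟨e, he, hv⟩) (tau a b x l)
    (fun q hq => ⟨Or.inl (mem_tau hq).1, Or.inl (mem_tau hq).2⟩)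
  rw [h]
  have h2 : ∀ i, P ends w A (tau a b x l ++ tau a b x i) =
      ∑ j, X ends w A a b x j * ((∑ m : Fin 5, hco l m * mco m i j : ℕ) : ℝ) := by
    intro i
    have h' := glue (ends := ends) w (D1 := A) (D' := ∅) (Finset.disjoint_empty_right A)
      (fun v => v = a ∨ v = b ∨ v = x) hab hbx hax (fun _ _ _ _ h => h)
      (fun e he => absurd he (Finset.notMem_empty e)) (tau a b x l ++ tau a b x i)
      (fun q hq => by
        rcases List.mem_append.mp hq with hq | hq
        · exact mem_tau hq
        · exact mem_tau hq)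
    rw [Finset.union_empty] at h'
    rw [h']
    refine Finset.sum_congr rfl fun j _ => ?_
    congr 1
    have h1 : tau a b x l ++ tau a b x i ++ tau a b x j =
        (tauF (0 : Fin 3) 1 2 l ++ tauF 0 1 2 i ++ tauF 0 1 2 j).map
          (Prod.map ![a, b, x] ![a, b, x]) := by
      rw [List.map_append, List.map_append, ← tau_map, ← tau_map, ← tau_map]
      rfl
    rw [h1, P_empty_map ends w hf, mco_eq]
  simp_rw [h2, mulS_sum]
  push_cast
  simp_rw [Finset.mul_sum, Finset.sum_mul]
  rw [sum3]
  exact Finset.sum_congr rfl fun m _ => Finset.sum_congr rfl fun i _ =>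
    Finset.sum_congr rfl fun j _ => by ring

/-- **Elimination.**  `D` is attached at `v, b, c`, `A` at `v, b, d`, `A'` at `v, c, d`. -/
theorem X_elim (ends : E → Sym2 V) (w : E → ℝ) {D A A' : Finset E} (hd : Disjoint D (A ∪ A'))
    (hd' : Disjoint A A') {v b c d : V} (hvb : v ≠ b) (hvc : v ≠ c) (hvd : v ≠ d) (hbc : b ≠ c)
    (hbd : b ≠ d) (hcd : c ≠ d)
    (hs : ∀ e ∈ D, ∀ f ∈ A ∪ A', ∀ y, y ∈ ends e → y ∈ ends f → y = v ∨ y = b ∨ y = c)
    (hD : ∀ e ∈ D, d ∉ ends e)
    (hs' : ∀ e ∈ A, ∀ f ∈ A', ∀ y, y ∈ ends e → y ∈ ends f → y = v ∨ y = b ∨ y = d)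
    (hA : ∀ e ∈ A, c ∉ ends e) (hA' : ∀ e ∈ A', b ∉ ends e) :
    X ends w (D ∪ (A ∪ A')) d b c =
      elimS (X ends w D v b c) (X ends w A v b d) (X ends w A' v c d) := by
  have hf : Function.Injective ![v, b, c, d] := by
    intro i j hij
    fin_cases i <;> fin_cases j <;> simp_all [eq_comm]
  apply hco_inj
  intro l
  rw [← P_tau ends w (D ∪ (A ∪ A')) hbd.symm hbc hcd.symm l]
  have m1 : ∀ {p q r : V} {i : Fin 5} {z : V × V}, (p = v ∨ p = b ∨ p = c ∨ p = d) →
      (q = v ∨ q = b ∨ q = c ∨ q = d) → (r = v ∨ r = b ∨ r = c ∨ r = d) → z ∈ tau p q r i →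
      (z.1 = v ∨ z.1 = b ∨ z.1 = c ∨ z.1 = d) ∧ (z.2 = v ∨ z.2 = b ∨ z.2 = c ∨ z.2 = d) := by
    intro p q r i z hp hq hr hz
    obtain ⟨h1, h2⟩ := mem_tau hz
    constructor
    · rcases h1 with h | h | h <;> rw [h] <;> assumption
    · rcases h2 with h | h | h <;> rw [h] <;> assumption
  have hv : v = v ∨ v = b ∨ v = c ∨ v = d := Or.inl rfl
  have hb : b = v ∨ b = b ∨ b = c ∨ b = d := Or.inr (Or.inl rfl)
  have hc : c = v ∨ c = b ∨ c = c ∨ c = d := Or.inr (Or.inr (Or.inl rfl))
  have hdd : d = v ∨ d = b ∨ d = c ∨ d = d := Or.inr (Or.inr (Or.inr rfl))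
  have g1 := glue (ends := ends) w (D1 := D) (D' := A ∪ A') hd
    (fun y => (y = v ∨ y = b ∨ y = c ∨ y = d) ∨ ∃ f ∈ A ∪ A', y ∈ ends f) hvb hbc hvc
    (fun e he y hy ho => by
      rcases ho with ho | ⟨f, hf, hyf⟩
      · rcases ho with ho | ho | ho | ho
        · exact Or.inl ho
        · exact Or.inr (Or.inl ho)
        · exact Or.inr (Or.inr ho)
        · rw [ho] at hy
          exact absurd hy (hD e he)
      · exact hs e he f hf y hy hyf)
    (fun e he y hy => Or.inr ⟨e, he, hy⟩) (tau d b c l)
    (fun q hq => ⟨Or.inl (m1 hdd hb hc hq).1, Or.inl (m1 hdd hb hc hq).2⟩)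
  have g2 : ∀ i, P ends w (A ∪ A') (tau d b c l ++ tau v b c i) =
      ∑ j, X ends w A v b d j * P ends w A' (tau d b c l ++ tau v b c i ++ tau v b d j) := by
    intro i
    refine glue (ends := ends) w (D1 := A) (D' := A') hd'
      (fun y => (y = v ∨ y = b ∨ y = c ∨ y = d) ∨ ∃ f ∈ A', y ∈ ends f) hvb hbd hvd
      (fun e he y hy ho => ?_) (fun e he y hy => Or.inr ⟨e, he, hy⟩)
      (tau d b c l ++ tau v b c i) (fun q hq => ?_)
    · rcases ho with ho | ⟨f, hf, hyf⟩
      · rcases ho with ho | ho | ho | ho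
        · exact Or.inl ho
        · exact Or.inr (Or.inl ho)
        · rw [ho] at hy
          exact absurd hy (hA e he)
        · exact Or.inr (Or.inr ho)
      · exact hs' e he f hf y hy hyf
    · rcases List.mem_append.mp hq with hq | hq
      · exact ⟨Or.inl (m1 hdd hb hc hq).1, Or.inl (m1 hdd hb hc hq).2⟩
      · exact ⟨Or.inl (m1 hv hb hc hq).1, Or.inl (m1 hv hb hc hq).2⟩
  have g3 : ∀ i j, P ends w A' (tau d b c l ++ tau v b c i ++ tau v b d j) =
      ∑ k, X ends w A' v c d k * ((∑ m : Fin 5, hco l m * eco m i j k : ℕ) : ℝ) := by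
    intro i j
    have h' := glue (ends := ends) w (D1 := A') (D' := ∅) (Finset.disjoint_empty_right A')
      (fun y => y = v ∨ y = b ∨ y = c ∨ y = d) hvc hcd hvd
      (fun e he y hy ho => by
        rcases ho with ho | ho | ho | ho
        · exact Or.inl ho
        · rw [ho] at hy
          exact absurd hy (hA' e he)
        · exact Or.inr (Or.inl ho)
        · exact Or.inr (Or.inr ho))
      (fun e he => absurd he (Finset.notMem_empty e))
      (tau d b c l ++ tau v b c i ++ tau v b d j)
      (fun q hq => by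
        rcases List.mem_append.mp hq with hq | hq
        · rcases List.mem_append.mp hq with hq | hq
          · exact m1 hdd hb hc hq
          · exact m1 hv hb hc hq
        · exact m1 hv hb hdd hq)
    rw [Finset.union_empty] at h'
    rw [h']
    refine Finset.sum_congr rfl fun k _ => ?_
    congr 1
    have h1 : tau d b c l ++ tau v b c i ++ tau v b d j ++ tau v c d k =
        (tauF (3 : Fin 4) 1 2 l ++ tauF 0 1 2 i ++ tauF 0 1 3 j ++ tauF 0 2 3 k).map
          (Prod.map ![v, b, c, d] ![v, b, c, d]) := by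
      rw [List.map_append, List.map_append, List.map_append, ← tau_map, ← tau_map, ← tau_map,
        ← tau_map]
      rfl
    rw [h1, P_empty_map ends w hf, eco_eq]
  rw [g1]
  simp_rw [g2, g3, elimS_sum]
  push_cast
  simp_rw [Finset.mul_sum, Finset.sum_mul]
  rw [sum4]
  exact Finset.sum_congr rfl fun m _ => Finset.sum_congr rfl fun i _ =>
    Finset.sum_congr rfl fun j _ => Finset.sum_congr rfl fun k _ => by ring

/-- Total weight of the forests. -/
theorem P_nil (ends : E → Sym2 V) (w : E → ℝ) (D : Finset E) {a b x : V} (hab : a ≠ b)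
    (hbx : b ≠ x) (hax : a ≠ x) : P ends w D [] = tot (X ends w D a b x) := by
  have h := P_tau ends w D hab hbx hax 0
  have h0 : tau a b x 0 = [] := rfl
  rw [h0] at h
  rw [h, tot]
  simp [hco, Fin.sum_univ_five]

/-- Every unmarked piece lies in the region. -/
theorem X_reg [Fintype V] (ends : E → Sym2 V) (w : E → ℝ) (hw : ∀ e, 0 ≤ w e) (D : Finset E)
    {a b x : V} (hab : a ≠ b) (hbx : b ≠ x) (hax : a ≠ x) : Reg (X ends w D a b x) :=
  ⟨X0_pos ends w hw D hab hbx hax, fun i => X_nonneg ends w hw D a b x i,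
    eps_nonneg ends w hw D hab hbx hax, eps_three ends w hw D hab hbx hax⟩

end Pool.Agent.T3
end

section

/-!
Marked pieces of graphs.
-/

set_option autoImplicit false
set_option linter.unusedSectionVars false

namespace Pool.Agent.T3

open Finset Pool.Agent.Lib.MP_d90615_co Pool.Agent.CL
open scoped Classical

variable {V E : Type*}

/-- The piece `D` with the marked edge `e` satisfies `K` on the terminals `a, b, x`. -/
def KM (K : (Fin 5 → ℝ) → (Fin 5 → ℝ) → Prop) (ends : E → Sym2 V) (w : E → ℝ) (D : Finset E)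
    (e : E) (a b x : V) : Prop :=
  K (X ends (Function.update w e 0) D a b x) (X ends (Function.update w e 1) D a b x)

lemma X_update {ends : E → Sym2 V} {w : E → ℝ} {D : Finset E} {e : E} (he : e ∉ D) (y : ℝ)
    (a b x : V) : X ends (Function.update w e y) D a b x = X ends w D a b x := by
  funext i
  refine X_congr (fun g hg => ?_) _ _ _ _
  have h : g ≠ e := fun h => he (by rwa [h] at hg)
  exact Function.update_of_ne h _ _

lemma X_update' {ends : E → Sym2 V} {w : E → ℝ} {D : Finset E} {e f : E} (he : e ∉ D) (y z : ℝ)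
    (a b x : V) : X ends (Function.update (Function.update w e y) f z) D a b x =
      X ends (Function.update w f z) D a b x := by
  funext i
  refine X_congr (fun g hg => ?_) _ _ _ _
  by_cases h : g = f
  · subst h
    rw [Function.update_self, Function.update_self]
  · have h' : g ≠ e := fun h' => he (by rwa [h'] at hg)
    rw [Function.update_of_ne h, Function.update_of_ne h, Function.update_of_ne h']

variable {K : (Fin 5 → ℝ) → (Fin 5 → ℝ) → Prop} {one : Prop} (hK : GoodW one K) {ends : E → Sym2 V} {w : E → ℝ}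

include hK

lemma KM.rot {D : Finset E} {e : E} {a b x : V} (h : KM K ends w D e a b x) :
    KM K ends w D e b x a := by
  have h1 := hK.rot _ _ h
  have h2 : ∀ y : ℝ, X ends (Function.update w e y) D b x a =
      ![X ends (Function.update w e y) D a b x 0, X ends (Function.update w e y) D a b x 2,
        X ends (Function.update w e y) D a b x 3, X ends (Function.update w e y) D a b x 1,
        X ends (Function.update w e y) D a b x 4] := by
    intro y
    obtain ⟨r0, r1, r2, r3, r4⟩ := X_rot ends (Function.update w e y) D a b x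
    funext i
    fin_cases i
    · exact r0.symm
    · exact r2.symm
    · exact r3.symm
    · exact r1.symm
    · exact r4.symm
  unfold KM
  rw [h2 0, h2 1]
  exact h1

lemma KM.swap {D : Finset E} {e : E} {a b x : V} (h : KM K ends w D e a b x) :
    KM K ends w D e b a x := by
  have h1 := hK.swap _ _ h
  have key : ∀ F : Finset E,
      (pat (Conn ends F) b a x 0 ↔ pat (Conn ends F) a b x 0) ∧
      (pat (Conn ends F) b a x 1 ↔ pat (Conn ends F) a b x 1) ∧
      (pat (Conn ends F) b a x 2 ↔ pat (Conn ends F) a b x 3) ∧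
      (pat (Conn ends F) b a x 3 ↔ pat (Conn ends F) a b x 2) ∧
      (pat (Conn ends F) b a x 4 ↔ pat (Conn ends F) a b x 4) := by
    intro F
    have sab : Conn ends F b a ↔ Conn ends F a b := ⟨Conn.symm, Conn.symm⟩
    have t1 : Conn ends F a b → Conn ends F b x → Conn ends F a x := fun h h' => h.trans h'
    have t2 : Conn ends F a b → Conn ends F a x → Conn ends F b x := fun h h' =>
      h.symm.trans h'
    simp only [pat, sab]
    tauto
  have h2 : ∀ y : ℝ, X ends (Function.update w e y) D b a x =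
      ![X ends (Function.update w e y) D a b x 0, X ends (Function.update w e y) D a b x 1,
        X ends (Function.update w e y) D a b x 3, X ends (Function.update w e y) D a b x 2,
        X ends (Function.update w e y) D a b x 4] := by
    intro y
    funext i
    fin_cases i
    · show X ends (Function.update w e y) D b a x 0 = X ends (Function.update w e y) D a b x 0
      simp only [X_sw]
      exact sw_congr fun F => by rw [(key F).1]
    · show X ends (Function.update w e y) D b a x 1 = X ends (Function.update w e y) D a b x 1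
      simp only [X_sw]
      exact sw_congr fun F => by rw [(key F).2.1]
    · show X ends (Function.update w e y) D b a x 2 = X ends (Function.update w e y) D a b x 3
      simp only [X_sw]
      exact sw_congr fun F => by rw [(key F).2.2.1]
    · show X ends (Function.update w e y) D b a x 3 = X ends (Function.update w e y) D a b x 2
      simp only [X_sw]
      exact sw_congr fun F => by rw [(key F).2.2.2.1]
    · show X ends (Function.update w e y) D b a x 4 = X ends (Function.update w e y) D a b x 4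
      simp only [X_sw]
      exact sw_congr fun F => by rw [(key F).2.2.2.2]
  unfold KM
  rw [h2 0, h2 1]
  exact h1

lemma KM.base {e : E} {a b x : V} (hab : a ≠ b) (hbx : b ≠ x) (hax : a ≠ x)
    (he : ends e = s(a, b)) : KM K ends w {e} e a b x := by
  have h2 : ∀ y : ℝ, X ends (Function.update w e y) {e} a b x = ![1, y, 0, 0, 0] := by
    intro y
    obtain ⟨t0, t1, t2, t3, t4⟩ := X_term ends (Function.update w e y)
      (Finset.notMem_empty e) he x
    have z := fun i => X_empty ends (Function.update w e y) hab hbx hax i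
    have hs : insert e (∅ : Finset E) = {e} := rfl
    rw [hs] at t0 t1 t2 t3 t4
    rw [z] at t0 t2 t3
    rw [z, z, Function.update_self] at t1
    rw [z, z, z] at t4
    funext i
    fin_cases i
    · simpa using t0
    · simpa using t1
    · simpa using t2
    · simpa using t3
    · simpa using t4
  unfold KM
  rw [h2 0, h2 1]
  exact hK.base

lemma KM.mul [Fintype V] (hw : ∀ g, 0 ≤ w g) {D A : Finset E} {e : E} (he : e ∈ D)
    (hd : Disjoint D A) {a b x : V} (hab : a ≠ b) (hbx : b ≠ x) (hax : a ≠ x)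
    (hs : ∀ g ∈ D, ∀ f ∈ A, ∀ v, v ∈ ends g → v ∈ ends f → v = a ∨ v = b ∨ v = x)
    (h : KM K ends w D e a b x) : KM K ends w (D ∪ A) e a b x := by
  have heA : e ∉ A := Finset.disjoint_left.mp hd he
  unfold KM
  rw [X_mul ends _ hd hab hbx hax hs, X_mul ends _ hd hab hbx hax hs, X_update heA, X_update heA]
  exact hK.mul _ _ _ h (X_reg ends w hw A hab hbx hax)

lemma KM.elim [Fintype V] (hw : ∀ g, 0 ≤ w g) {D A A' : Finset E} {e : E} (he : e ∈ D)
    (hd : Disjoint D (A ∪ A')) (hd' : Disjoint A A') {v b c d : V} (hvb : v ≠ b) (hvc : v ≠ c)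
    (hvd : v ≠ d) (hbc : b ≠ c) (hbd : b ≠ d) (hcd : c ≠ d)
    (hs : ∀ g ∈ D, ∀ f ∈ A ∪ A', ∀ y, y ∈ ends g → y ∈ ends f → y = v ∨ y = b ∨ y = c)
    (hD : ∀ g ∈ D, d ∉ ends g)
    (hs' : ∀ g ∈ A, ∀ f ∈ A', ∀ y, y ∈ ends g → y ∈ ends f → y = v ∨ y = b ∨ y = d)
    (hA : ∀ g ∈ A, c ∉ ends g) (hA' : ∀ g ∈ A', b ∉ ends g) (hone : one → A' = ∅)
    (h : KM K ends w D e v b c) : KM K ends w (D ∪ (A ∪ A')) e d b c := by
  have heA : e ∉ A := fun h' => (Finset.disjoint_left.mp hd he) (mem_union_left _ h')
  have heA' : e ∉ A' := fun h' => (Finset.disjoint_left.mp hd he) (mem_union_right _ h')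
  unfold KM
  rw [X_elim ends _ hd hd' hvb hvc hvd hbc hbd hcd hs hD hs' hA hA',
    X_elim ends _ hd hd' hvb hvc hvd hbc hbd hcd hs hD hs' hA hA', X_update heA, X_update heA,
    X_update heA', X_update heA']
  refine hK.elim _ _ _ _ h (X_reg ends w hw A hvb hbd hvd) (X_reg ends w hw A' hvc hcd hvd) ?_
  intro ho
  rw [hone ho]
  funext i
  rw [X_empty ends w hvc hcd hvd i]
  fin_cases i <;> simp

/-- The inequality for the four total weights. -/
lemma KM.pair {D D' : Finset E} {e f : E} (he : e ∈ D) (hf : f ∈ D') (hd : Disjoint D D')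
    {a b x : V} (hab : a ≠ b) (hbx : b ≠ x) (hax : a ≠ x)
    (hs : ∀ g ∈ D, ∀ f ∈ D', ∀ v, v ∈ ends g → v ∈ ends f → v = a ∨ v = b ∨ v = x)
    (h : KM K ends w D e a b x) (h' : KM K ends w D' f a b x) :
    P ends (Function.update (Function.update w e 1) f 1) (D ∪ D') [] *
        P ends (Function.update (Function.update w e 0) f 0) (D ∪ D') [] ≤
      P ends (Function.update (Function.update w e 1) f 0) (D ∪ D') [] *
        P ends (Function.update (Function.update w e 0) f 1) (D ∪ D') [] := by
  have heD : e ∉ D' := Finset.disjoint_left.mp hd he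
  have hfD : f ∉ D := fun h' => (Finset.disjoint_left.mp hd h') hf
  have key : ∀ y z : ℝ, P ends (Function.update (Function.update w e y) f z) (D ∪ D') [] =
      tot (mulS (X ends (Function.update w e y) D a b x)
        (X ends (Function.update w f z) D' a b x)) := by
    intro y z
    rw [P_nil ends _ _ hab hbx hax, X_mul ends _ hd hab hbx hax hs, X_update hfD,
      X_update' heD]
  rw [key, key, key, key]
  exact hK.pair _ _ _ _ h h'

end Pool.Agent.T3
end
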