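import Pool.Agent.Lib.MP_d90615_co.Mg.G023

section

/-! # The cone `InO`

`OG v a n y u` is `|∑ y_i Y_i + ∑ u_i U_i|²` for six vectors with the Gram matrix determined by the
bivector `v` and the six free numbers `a_i = ⟨U_i, Y_i⟩`, `n_i = |U_i|²`. -/

set_option autoImplicit false
set_option linter.unnecessarySeqFocus false
set_option linter.unreachableTactic false
set_option linter.unusedTactic false

namespace Pool.Agent.MP_d90615.T3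

open St

/-- The quadratic form. -/
def OG (v : Bv) (a1 a2 a3 n1 n2 n3 y1 y2 y3 u1 u2 u3 : ℝ) : ℝ :=
  v.ou * (y1 + y2 + y3) ^ 2 + v.ox * y1 ^ 2 + v.oy * y2 ^ 2 + v.oz * y3 ^ 2
    + 2 * a1 * (y1 * u1) + 2 * a2 * (y2 * u2) + 2 * a3 * (y3 * u3)
    + (n1 - v.zu - v.yu) * u1 * (y2 + y3) + v.yz * u1 * (y2 - y3)
    + (n2 - v.zu - v.xu) * u2 * (y3 + y1) - v.xz * u2 * (y3 - y1)
    + (n3 - v.yu - v.xu) * u3 * (y1 + y2) + v.xy * u3 * (y1 - y2)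
    + n1 * u1 ^ 2 + n2 * u2 ^ 2 + n3 * u3 ^ 2 - 2 * v.xu * (u2 * u3) - 2 * v.yu * (u1 * u3)
    - 2 * v.zu * (u1 * u2)

/-- The cone. -/
def InO (v : Bv) : Prop :=
  ∃ a1 a2 a3 n1 n2 n3 : ℝ, a1 + a2 + a3 = 2 * v.ou ∧
    ∀ y1 y2 y3 u1 u2 u3, 0 ≤ OG v a1 a2 a3 n1 n2 n3 y1 y2 y3 u1 u2 u3

theorem InO.add {v w : Bv} (hv : InO v) (hw : InO w) : InO (v + w) := by
  obtain ⟨a1, a2, a3, n1, n2, n3, ha, h⟩ := hv
  obtain ⟨b1, b2, b3, m1, m2, m3, hb, h'⟩ := hw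
  refine ⟨a1 + b1, a2 + b2, a3 + b3, n1 + m1, n2 + m2, n3 + m3, ?_,
    fun y1 y2 y3 u1 u2 u3 => ?_⟩
  · rw [Bv.add_ou]; linarith
  have e : OG (v + w) (a1 + b1) (a2 + b2) (a3 + b3) (n1 + m1) (n2 + m2) (n3 + m3) y1 y2 y3 u1 u2 u3
      = OG v a1 a2 a3 n1 n2 n3 y1 y2 y3 u1 u2 u3 + OG w b1 b2 b3 m1 m2 m3 y1 y2 y3 u1 u2 u3 := by
    simp only [OG, Bv.add_ox, Bv.add_oy, Bv.add_oz, Bv.add_ou, Bv.add_xy, Bv.add_xz, Bv.add_xu,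
      Bv.add_yz, Bv.add_yu, Bv.add_zu]
    ring
  rw [e]
  exact add_nonneg (h _ _ _ _ _ _) (h' _ _ _ _ _ _)

theorem InO.smul {v : Bv} {c : ℝ} (hc : 0 ≤ c) (hv : InO v) : InO (c • v) := by
  obtain ⟨a1, a2, a3, n1, n2, n3, ha, h⟩ := hv
  refine ⟨c * a1, c * a2, c * a3, c * n1, c * n2, c * n3, ?_, fun y1 y2 y3 u1 u2 u3 => ?_⟩
  · rw [Bv.smul_ou, ← mul_add, ← mul_add, ha]; ring
  have e : OG (c • v) (c * a1) (c * a2) (c * a3) (c * n1) (c * n2) (c * n3) y1 y2 y3 u1 u2 u3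
      = c * OG v a1 a2 a3 n1 n2 n3 y1 y2 y3 u1 u2 u3 := by
    simp only [OG, Bv.smul_ox, Bv.smul_oy, Bv.smul_oz, Bv.smul_ou, Bv.smul_xy, Bv.smul_xz,
      Bv.smul_xu, Bv.smul_yz, Bv.smul_yu, Bv.smul_zu]
    ring
  rw [e]
  exact mul_nonneg hc (h _ _ _ _ _ _)

theorem InO.of_smul {v : Bv} {c : ℝ} (hc : 0 < c) (hv : InO (c • v)) : InO v := by
  have h := InO.smul (inv_nonneg.mpr hc.le) hv
  have e : c⁻¹ • (c • v) = v := by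
    have hc' : c ≠ 0 := hc.ne'
    ext <;> simp <;> field_simp
  rw [e] at h; exact h

theorem InO.cyc {v : Bv} (hv : InO v) : InO (cycB v) := by
  obtain ⟨a1, a2, a3, n1, n2, n3, ha, h⟩ := hv
  refine ⟨a3, a1, a2, n3, n1, n2, ?_, fun y1 y2 y3 u1 u2 u3 => ?_⟩
  · unfold cycB; dsimp only; linarith
  have e : OG (cycB v) a3 a1 a2 n3 n1 n2 y1 y2 y3 u1 u2 u3
      = OG v a1 a2 a3 n1 n2 n3 y2 y3 y1 u2 u3 u1 := by
    unfold OG cycB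
    ring
  rw [e]; exact h _ _ _ _ _ _

theorem InO.swap {v : Bv} (hv : InO v) : InO (swapB v) := by
  obtain ⟨a1, a2, a3, n1, n2, n3, ha, h⟩ := hv
  refine ⟨a1, a3, a2, n1, n3, n2, ?_, fun y1 y2 y3 u1 u2 u3 => ?_⟩
  · unfold swapB; dsimp only; linarith
  have e : OG (swapB v) a1 a3 a2 n1 n3 n2 y1 y2 y3 u1 u2 u3
      = OG v a1 a2 a3 n1 n2 n3 y1 y3 y2 u1 u3 u2 := by
    unfold OG swapB
    ring
  rw [e]; exact h _ _ _ _ _ _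

/-- The marked edge. -/
theorem InO.base : InO ⟨0, 0, 1, 0, 0, 0, 0, 0, 0, 0⟩ := by
  refine ⟨0, 0, 0, 0, 0, 0, by simp, fun y1 y2 y3 u1 u2 u3 => ?_⟩
  have e : OG ⟨0, 0, 1, 0, 0, 0, 0, 0, 0, 0⟩ 0 0 0 0 0 0 y1 y2 y3 u1 u2 u3 = y3 ^ 2 := by
    simp [OG]
  rw [e]; positivity

/-- The polar form of `OG`. -/
noncomputable def OB (v : Bv) (a1 a2 a3 n1 n2 n3 y1 y2 y3 u1 u2 u3 z1 z2 z3 w1 w2 w3 : ℝ) : ℝ :=
  (OG v a1 a2 a3 n1 n2 n3 (y1 + z1) (y2 + z2) (y3 + z3) (u1 + w1) (u2 + w2) (u3 + w3)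
    - OG v a1 a2 a3 n1 n2 n3 y1 y2 y3 u1 u2 u3 - OG v a1 a2 a3 n1 n2 n3 z1 z2 z3 w1 w2 w3) / 2

/-- Product with an unmarked network: the identity. -/
theorem OG_mul (v : Bv) (p q r t a1 a2 a3 n1 n2 n3 : ℝ) : ∃ b1 b2 b3 m1 m2 m3 : ℝ,
    (b1 + b2 + b3 - 2 * (lift (mul (E p q r t)) v).ou = a1 + a2 + a3 - 2 * v.ou) ∧
    ∀ y1 y2 y3 u1 u2 u3 : ℝ, OG (lift (mul (E p q r t)) v) b1 b2 b3 m1 m2 m3 y1 y2 y3 u1 u2 u3
    = OG v a1 a2 a3 n1 n2 n3 (y1 + q * (u1 - u3) + r * (u1 - u2))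
        (y2 + p * (u2 - u3) - r * (u1 - u2)) (y3 - p * (u2 - u3) - q * (u1 - u3)) u1 u2 u3
      + p * OG v a1 a2 a3 n1 n2 n3 0 (y1 + y2 + y3 + u3) (-(y1 + y2 + y3 + u2))
          (u2 - u3) (u2 - u3) (u2 - u3)
      + q * OG v a1 a2 a3 n1 n2 n3 (-(y1 + y2 + y3 + u3)) 0 (y1 + y2 + y3 + u1)
          (u3 - u1) (u3 - u1) (u3 - u1)
      + r * OG v a1 a2 a3 n1 n2 n3 (y1 + y2 + y3 + u2) (-(y1 + y2 + y3 + u1)) 0
          (u1 - u2) (u1 - u2) (u1 - u2)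
      - t * OG v a1 a2 a3 n1 n2 n3 (u2 - u3) (u3 - u1) (u1 - u2) 0 0 0 := by
  refine ⟨OB v a1 a2 a3 n1 n2 n3 (q + r) (-r) (-q) 1 0 0 1 0 0 0 0 0
        + q * OB v a1 a2 a3 n1 n2 n3 0 0 1 (-1) (-1) (-1) (-1) 0 1 0 0 0
        + r * OB v a1 a2 a3 n1 n2 n3 0 1 0 (-1) (-1) (-1) (-1) 1 0 0 0 0,
      OB v a1 a2 a3 n1 n2 n3 (-r) (p + r) (-p) 0 1 0 0 1 0 0 0 0
        + p * OB v a1 a2 a3 n1 n2 n3 0 0 1 (-1) (-1) (-1) 0 (-1) 1 0 0 0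
        + r * OB v a1 a2 a3 n1 n2 n3 1 0 0 (-1) (-1) (-1) 1 (-1) 0 0 0 0,
      OB v a1 a2 a3 n1 n2 n3 (-q) (-p) (p + q) 0 0 1 0 0 1 0 0 0
        + p * OB v a1 a2 a3 n1 n2 n3 0 1 0 (-1) (-1) (-1) 0 1 (-1) 0 0 0
        + q * OB v a1 a2 a3 n1 n2 n3 1 0 0 (-1) (-1) (-1) 1 0 (-1) 0 0 0,
      OG v a1 a2 a3 n1 n2 n3 (q + r) (-r) (-q) 1 0 0
        + q * OG v a1 a2 a3 n1 n2 n3 0 0 1 (-1) (-1) (-1)
        + r * OG v a1 a2 a3 n1 n2 n3 0 1 0 (-1) (-1) (-1)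
        - t * OG v a1 a2 a3 n1 n2 n3 0 1 (-1) 0 0 0,
      OG v a1 a2 a3 n1 n2 n3 (-r) (p + r) (-p) 0 1 0
        + p * OG v a1 a2 a3 n1 n2 n3 0 0 1 (-1) (-1) (-1)
        + r * OG v a1 a2 a3 n1 n2 n3 1 0 0 (-1) (-1) (-1)
        - t * OG v a1 a2 a3 n1 n2 n3 (-1) 0 1 0 0 0,
      OG v a1 a2 a3 n1 n2 n3 (-q) (-p) (p + q) 0 0 1
        + p * OG v a1 a2 a3 n1 n2 n3 0 1 0 (-1) (-1) (-1)
        + q * OG v a1 a2 a3 n1 n2 n3 1 0 0 (-1) (-1) (-1)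
        - t * OG v a1 a2 a3 n1 n2 n3 1 (-1) 0 0 0 0, ?_, fun y1 y2 y3 u1 u2 u3 => ?_⟩
  · unfold OB OG lift
    simp
    ring
  · unfold OB OG lift
    simp
    ring

theorem OG_cauchy (v : Bv) (a1 a2 a3 n1 n2 n3 p q r x1 x2 x3 x4 x5 x6 y1 y2 y3 y4 y5 y6
    z1 z2 z3 z4 z5 z6 : ℝ) :
    (p * q + p * r + q * r) * (p * OG v a1 a2 a3 n1 n2 n3 x1 x2 x3 x4 x5 x6
        + q * OG v a1 a2 a3 n1 n2 n3 y1 y2 y3 y4 y5 y6
        + r * OG v a1 a2 a3 n1 n2 n3 z1 z2 z3 z4 z5 z6)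
      - p * q * r * OG v a1 a2 a3 n1 n2 n3 (x1 + y1 + z1) (x2 + y2 + z2) (x3 + y3 + z3)
          (x4 + y4 + z4) (x5 + y5 + z5) (x6 + y6 + z6)
    = r * OG v a1 a2 a3 n1 n2 n3 (p * x1 - q * y1) (p * x2 - q * y2) (p * x3 - q * y3)
          (p * x4 - q * y4) (p * x5 - q * y5) (p * x6 - q * y6)
      + q * OG v a1 a2 a3 n1 n2 n3 (p * x1 - r * z1) (p * x2 - r * z2) (p * x3 - r * z3)
          (p * x4 - r * z4) (p * x5 - r * z5) (p * x6 - r * z6)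
      + p * OG v a1 a2 a3 n1 n2 n3 (q * y1 - r * z1) (q * y2 - r * z2) (q * y3 - r * z3)
          (q * y4 - r * z4) (q * y5 - r * z5) (q * y6 - r * z6) := by
  unfold OG
  ring

/-- Cauchy: `t |x + y + z|² ≤ p |x|² + q |y|² + r |z|²`. -/
theorem OG_cauchy_le {v : Bv} {a1 a2 a3 n1 n2 n3 : ℝ}
    (h : ∀ y1 y2 y3 u1 u2 u3, 0 ≤ OG v a1 a2 a3 n1 n2 n3 y1 y2 y3 u1 u2 u3)
    {p q r t : ℝ} (H : Ok p q r t) (x1 x2 x3 x4 x5 x6 y1 y2 y3 y4 y5 y6 z1 z2 z3 z4 z5 z6 : ℝ) :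
    t * OG v a1 a2 a3 n1 n2 n3 (x1 + y1 + z1) (x2 + y2 + z2) (x3 + y3 + z3)
          (x4 + y4 + z4) (x5 + y5 + z5) (x6 + y6 + z6)
      ≤ p * OG v a1 a2 a3 n1 n2 n3 x1 x2 x3 x4 x5 x6
        + q * OG v a1 a2 a3 n1 n2 n3 y1 y2 y3 y4 y5 y6
        + r * OG v a1 a2 a3 n1 n2 n3 z1 z2 z3 z4 z5 z6 := by
  have np := H.n1
  have nq := H.n2
  have nr := H.n3
  have nt := H.nh
  have hR : 0 ≤ p * OG v a1 a2 a3 n1 n2 n3 x1 x2 x3 x4 x5 x6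
        + q * OG v a1 a2 a3 n1 n2 n3 y1 y2 y3 y4 y5 y6
        + r * OG v a1 a2 a3 n1 n2 n3 z1 z2 z3 z4 z5 z6 :=
    add_nonneg (add_nonneg (mul_nonneg np (h _ _ _ _ _ _)) (mul_nonneg nq (h _ _ _ _ _ _)))
      (mul_nonneg nr (h _ _ _ _ _ _))
  rcases eq_or_lt_of_le nt with h0 | h0
  · rw [← h0, zero_mul]; exact hR
  · have hle := H.le'
    have e2 : 0 < p * q + p * r + q * r := by
      have h5 : 0 < t * t := mul_pos h0 h0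
      have h6 : 0 < p * q * r := by
        nlinarith [H.le, mul_nonneg nt (by positivity : 0 ≤ p * q + p * r + q * r)]
      by_contra hcon
      have h7 : p * q + p * r + q * r = 0 := le_antisymm (not_lt.mp hcon) (by positivity)
      have h8 : p * q = 0 := by
        nlinarith [mul_nonneg np nq, mul_nonneg np nr, mul_nonneg nq nr]
      rw [h8] at h6; simp at h6
    have hQ := h (x1 + y1 + z1) (x2 + y2 + z2) (x3 + y3 + z3) (x4 + y4 + z4) (x5 + y5 + z5)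
      (x6 + y6 + z6)
    have id1 := OG_cauchy v a1 a2 a3 n1 n2 n3 p q r x1 x2 x3 x4 x5 x6 y1 y2 y3 y4 y5 y6
      z1 z2 z3 z4 z5 z6
    have k1 := mul_nonneg nr (h (p * x1 - q * y1) (p * x2 - q * y2) (p * x3 - q * y3)
          (p * x4 - q * y4) (p * x5 - q * y5) (p * x6 - q * y6))
    have k2 := mul_nonneg nq (h (p * x1 - r * z1) (p * x2 - r * z2) (p * x3 - r * z3)
          (p * x4 - r * z4) (p * x5 - r * z5) (p * x6 - r * z6))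
    have k3 := mul_nonneg np (h (q * y1 - r * z1) (q * y2 - r * z2) (q * y3 - r * z3)
          (q * y4 - r * z4) (q * y5 - r * z5) (q * y6 - r * z6))
    have h9 := mul_le_mul_of_nonneg_right hle hQ
    refine le_of_mul_le_mul_left ?_ e2
    linarith

/-- **(A)** The cone is closed under products with unmarked networks. -/
theorem InO.mulE {v : Bv} (hv : InO v) {p q r t : ℝ} (H : Ok p q r t) :
    InO (lift (mul (E p q r t)) v) := by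
  obtain ⟨a1, a2, a3, n1, n2, n3, ha, h⟩ := hv
  obtain ⟨b1, b2, b3, m1, m2, m3, eb, e0⟩ := OG_mul v p q r t a1 a2 a3 n1 n2 n3
  refine ⟨b1, b2, b3, m1, m2, m3, by linarith, fun y1 y2 y3 u1 u2 u3 => ?_⟩
  rw [e0]
  have h1 := h (y1 + q * (u1 - u3) + r * (u1 - u2))
        (y2 + p * (u2 - u3) - r * (u1 - u2)) (y3 - p * (u2 - u3) - q * (u1 - u3)) u1 u2 u3
  have h2 := OG_cauchy_le h H 0 (y1 + y2 + y3 + u3) (-(y1 + y2 + y3 + u2))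
          (u2 - u3) (u2 - u3) (u2 - u3) (-(y1 + y2 + y3 + u3)) 0 (y1 + y2 + y3 + u1)
          (u3 - u1) (u3 - u1) (u3 - u1) (y1 + y2 + y3 + u2) (-(y1 + y2 + y3 + u1)) 0
          (u1 - u2) (u1 - u2) (u1 - u2)
  have e : OG v a1 a2 a3 n1 n2 n3 (0 + -(y1 + y2 + y3 + u3) + (y1 + y2 + y3 + u2))
      (y1 + y2 + y3 + u3 + 0 + -(y1 + y2 + y3 + u1))
      (-(y1 + y2 + y3 + u2) + (y1 + y2 + y3 + u1) + 0) (u2 - u3 + (u3 - u1) + (u1 - u2))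
      (u2 - u3 + (u3 - u1) + (u1 - u2)) (u2 - u3 + (u3 - u1) + (u1 - u2))
      = OG v a1 a2 a3 n1 n2 n3 (u2 - u3) (u3 - u1) (u1 - u2) 0 0 0 := by
    congr 1 <;> ring
  rw [e] at h2
  linarith

theorem InO.mul {A : St} (hA : Unm A) {v : Bv} (hv : InO v) : InO (lift (St.mul A) v) := by
  obtain ⟨c, s1, s2, s3, h, hc, H, rfl⟩ := hA
  rw [lift_smul_mul]
  exact InO.smul (by positivity) (hv.mulE H)

end Pool.Agent.MP_d90615.T3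
end

section

/-! # (B): the scalar identity -/

set_option autoImplicit false
set_option maxHeartbeats 4000000

namespace Pool.Agent.MP_d90615.T3

/-- The core form for a square; `n_i, k_i, m, l` are products of the arguments. -/
noncomputable def cfun (Q t s e x2 x3 u th v f p q : ℝ) : ℝ :=
  (Q * th + u * (v + Q * f) + Q * (v - f) * e + t * (e + x2) * (f - p) + s * (e + x3) * (f - q)) ^ 2
    + Q * th ^ 2 - t * (th - v * x2 + p * u) ^ 2 - s * (th - v * x3 + q * u) ^ 2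
    - 2 * t * (th * (x2 * p) + (u * p + Q * (x2 * f + e * p)) * (-(e * p))
        + (-(x2 * v + Q * (x2 * f + e * p))) * (x2 * f))
    - 2 * s * (th * (x3 * q) + (u * q + Q * (x3 * f + e * q)) * (-(e * q))
        + (-(x3 * v + Q * (x3 * f + e * q))) * (x3 * f))
    - t * Q * (x2 * f + e * p) ^ 2 - s * Q * (x3 * f + e * q) ^ 2
    + t * s * (x2 * f + e * p - x3 * f - e * q + x3 * p - x2 * q) ^ 2

/-- The certificate. -/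
noncomputable def PSI (QA al be t QB al' be' s kap th g2 g3 h2 h3 n1 n2 n3 k1 k2 k3 m l : ℝ) : ℝ :=
  QA*th^2 + be*g2^2 + al*g3^2 - t*(th+g2+g3)^2 - 2*t*(th*n1+g2*n2+g3*n3)
    + (al*be*n1^2+al*QA*n2^2+be*QA*n3^2 - t*(al*(n1-n2)^2+be*(n3-n1)^2+QA*(n3-n2)^2))
  + QB*th^2 + be'*h2^2 + al'*h3^2 - s*(th+h2+h3)^2 - 2*s*(th*k1+h2*k2+h3*k3)
    + (al'*be'*k1^2+al'*QB*k2^2+be'*QB*k3^2 - s*(al'*(k1-k2)^2+be'*(k3-k1)^2+QB*(k3-k2)^2))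
  + (al*QB*n2^2+be*QB*n3^2+QA*al'*k2^2+QA*be'*k3^2+be*al'*m^2+al*be'*l^2
      - t*(QB*(n3-n2)^2+al'*(k2-m)^2+be'*(l-k3)^2) - s*(al*(l-n2)^2+be*(n3-m)^2+QA*(k2-k3)^2)
      + t*s*(n3-n2+k2-m-k3+l)^2)
  + kap*(g2*(k1-l)+g3*(k1-m)+h2*(n1-m)+h3*(n1-l))

theorem key_scalar (QA al be t QB al' be' s kap e x2 x3 u th v f p q : ℝ)
    (hk : kap * (QA + QB) = 4 * t * s) :
    cfun (QA + QB) t s e x2 x3 u th v f p q
      + al * cfun (QA + QB) t s 0 0 0 x2 (p * e) v f p q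
      + al' * cfun (QA + QB) t s 0 0 0 (-x3) (-(q * e)) v f p q
      + be * (cfun (QA + QB) t s e x2 x3 u (f * x2) p 0 0 0
          + al * cfun (QA + QB) t s 0 0 0 x2 0 p 0 0 0
          + al' * cfun (QA + QB) t s 0 0 0 (-x3) 0 p 0 0 0)
      + be' * (cfun (QA + QB) t s e x2 x3 u (-(f * x3)) (-q) 0 0 0
          + al * cfun (QA + QB) t s 0 0 0 x2 0 (-q) 0 0 0
          + al' * cfun (QA + QB) t s 0 0 0 (-x3) 0 (-q) 0 0 0)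
    = ((QA + QB) * th + u * (v + (QA + QB) * f) + (QA + QB) * (v - f) * e + t * (e + x2) * (f - p)
        + s * (e + x3) * (f - q)) ^ 2
      + PSI QA al be t QB al' be' s kap th (u * p + (QA + QB) * (x2 * f + e * p))
          (-(x2 * v + (QA + QB) * (x2 * f + e * p))) (u * q + (QA + QB) * (x3 * f + e * q))
          (-(x3 * v + (QA + QB) * (x3 * f + e * q))) (x2 * p) (-(e * p)) (x2 * f) (x3 * q)
          (-(e * q)) (x3 * f) (x3 * p) (x2 * q) := by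
  unfold cfun PSI
  linear_combination (-(x2 * f + e * p - x3 * f - e * q) * (x3 * p - x2 * q)) * hk

theorem key_nonneg (QA al be t QB al' be' s kap e x2 x3 u th v f p q : ℝ)
    (hk : kap * (QA + QB) = 4 * t * s)
    (hpsi : ∀ th g2 g3 h2 h3 n1 n2 n3 k1 k2 k3 m l : ℝ,
      0 ≤ PSI QA al be t QB al' be' s kap th g2 g3 h2 h3 n1 n2 n3 k1 k2 k3 m l) :
    0 ≤ cfun (QA + QB) t s e x2 x3 u th v f p q
      + al * cfun (QA + QB) t s 0 0 0 x2 (p * e) v f p q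
      + al' * cfun (QA + QB) t s 0 0 0 (-x3) (-(q * e)) v f p q
      + be * (cfun (QA + QB) t s e x2 x3 u (f * x2) p 0 0 0
          + al * cfun (QA + QB) t s 0 0 0 x2 0 p 0 0 0
          + al' * cfun (QA + QB) t s 0 0 0 (-x3) 0 p 0 0 0)
      + be' * (cfun (QA + QB) t s e x2 x3 u (-(f * x3)) (-q) 0 0 0
          + al * cfun (QA + QB) t s 0 0 0 x2 0 (-q) 0 0 0
          + al' * cfun (QA + QB) t s 0 0 0 (-x3) 0 (-q) 0 0 0) := by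
  rw [key_scalar QA al be t QB al' be' s kap e x2 x3 u th v f p q hk]
  exact add_nonneg (sq_nonneg _) (hpsi _ _ _ _ _ _ _ _ _ _ _ _ _)

theorem cfun_congr {Q t s e x2 x3 u th v f p q e' x2' x3' u' th' v' f' p' q' : ℝ}
    (h1 : e = e') (h2 : x2 = x2') (h3 : x3 = x3') (h4 : u = u') (h5 : th = th') (h6 : v = v')
    (h7 : f = f') (h8 : p = p') (h9 : q = q') :
    cfun Q t s e x2 x3 u th v f p q = cfun Q t s e' x2' x3' u' th' v' f' p' q' := by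
  rw [h1, h2, h3, h4, h5, h6, h7, h8, h9]

end Pool.Agent.MP_d90615.T3
end

section

/-! # Pairing of two elements of the cone

The vectors `ζ₁ = Y₁ - U₂ - U₃`, `ζ₂ = Y₂ - U₁ - U₃`, `ζ₃ = Y₃ - U₁ - U₂`, `U₁, U₂, U₃` have the
Gram matrix `GZ`.  If `a₁ + a₂ + a₃ = 2 ou` on one side, then
`pair v w = ∑ ± GZ(v)_ij GZ(w)_ij = |∑ ζ_i ⊗ ζ'_i - ∑ U_i ⊗ U'_i|²`. -/

set_option autoImplicit false
set_option linter.unnecessarySeqFocus false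
set_option linter.unreachableTactic false
set_option linter.unusedTactic false

namespace Pool.Agent.MP_d90615.T3

open St

/-- The Gram matrix of `ζ₁, ζ₂, ζ₃, U₁, U₂, U₃`. -/
noncomputable def GZ (v : Bv) (a1 a2 a3 n1 n2 n3 : ℝ) : Matrix (Fin 6) (Fin 6) ℝ :=
  !![v.ox + v.ou - v.xy - v.xz + v.yu + v.zu, v.ou - v.zu - a1 - a2, v.ou - v.yu - a1 - a3,
      v.yu + v.zu + a1, (v.xz + v.xu - v.zu - n2) / 2, (v.xy + v.xu - v.yu - n3) / 2;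
     v.ou - v.zu - a1 - a2, v.oy + v.ou + v.xy + v.xu - v.yz + v.zu, v.ou - v.xu - a2 - a3,
      (v.yz + v.yu - v.zu - n1) / 2, v.xu + v.zu + a2, (-v.xy - v.xu + v.yu - n3) / 2;
     v.ou - v.yu - a1 - a3, v.ou - v.xu - a2 - a3, v.oz + v.ou + v.xz + v.xu + v.yz + v.yu,
      (-v.yz - v.yu + v.zu - n1) / 2, (-v.xz - v.xu + v.zu - n2) / 2, v.xu + v.yu + a3;
     v.yu + v.zu + a1, (v.yz + v.yu - v.zu - n1) / 2, (-v.yz - v.yu + v.zu - n1) / 2,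
      n1, -v.zu, -v.yu;
     (v.xz + v.xu - v.zu - n2) / 2, v.xu + v.zu + a2, (-v.xz - v.xu + v.zu - n2) / 2,
      -v.zu, n2, -v.xu;
     (v.xy + v.xu - v.yu - n3) / 2, (-v.xy - v.xu + v.yu - n3) / 2, v.xu + v.yu + a3,
      -v.yu, -v.xu, n3]

/-- The form `GZ` with the sign of the last three coordinates of both sides. -/
noncomputable def GZs (v : Bv) (a1 a2 a3 n1 n2 n3 : ℝ) : Matrix (Fin 6) (Fin 6) ℝ :=
  !![v.ox + v.ou - v.xy - v.xz + v.yu + v.zu, v.ou - v.zu - a1 - a2, v.ou - v.yu - a1 - a3,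
      -(v.yu + v.zu + a1), -((v.xz + v.xu - v.zu - n2) / 2), -((v.xy + v.xu - v.yu - n3) / 2);
     v.ou - v.zu - a1 - a2, v.oy + v.ou + v.xy + v.xu - v.yz + v.zu, v.ou - v.xu - a2 - a3,
      -((v.yz + v.yu - v.zu - n1) / 2), -(v.xu + v.zu + a2), -((-v.xy - v.xu + v.yu - n3) / 2);
     v.ou - v.yu - a1 - a3, v.ou - v.xu - a2 - a3, v.oz + v.ou + v.xz + v.xu + v.yz + v.yu,
      -((-v.yz - v.yu + v.zu - n1) / 2), -((-v.xz - v.xu + v.zu - n2) / 2), -(v.xu + v.yu + a3);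
     -(v.yu + v.zu + a1), -((v.yz + v.yu - v.zu - n1) / 2), -((-v.yz - v.yu + v.zu - n1) / 2),
      n1, -v.zu, -v.yu;
     -((v.xz + v.xu - v.zu - n2) / 2), -(v.xu + v.zu + a2), -((-v.xz - v.xu + v.zu - n2) / 2),
      -v.zu, n2, -v.xu;
     -((v.xy + v.xu - v.yu - n3) / 2), -((-v.xy - v.xu + v.yu - n3) / 2), -(v.xu + v.yu + a3),
      -v.yu, -v.xu, n3]

theorem GZ_quad (v : Bv) (a1 a2 a3 n1 n2 n3 : ℝ) (x : Fin 6 → ℝ) :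
    x ⬝ᵥ (GZ v a1 a2 a3 n1 n2 n3).mulVec x
      = OG v a1 a2 a3 n1 n2 n3 (x 0) (x 1) (x 2) (x 3 - x 1 - x 2) (x 4 - x 0 - x 2)
          (x 5 - x 0 - x 1) := by
  simp [GZ, OG, Matrix.mulVec, dotProduct, Fin.sum_univ_succ, Matrix.cons_val_succ]
  ring

theorem GZs_quad (v : Bv) (a1 a2 a3 n1 n2 n3 : ℝ) (x : Fin 6 → ℝ) :
    ∑ i, ∑ j, x i * x j * GZs v a1 a2 a3 n1 n2 n3 i j
      = OG v a1 a2 a3 n1 n2 n3 (x 0) (x 1) (x 2) (-x 3 - x 1 - x 2) (-x 4 - x 0 - x 2)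
          (-x 5 - x 0 - x 1) := by
  simp [GZs, OG, Fin.sum_univ_succ, Matrix.cons_val_succ]
  ring

theorem GZ_psd {v : Bv} {a1 a2 a3 n1 n2 n3 : ℝ}
    (h : ∀ y1 y2 y3 u1 u2 u3, 0 ≤ OG v a1 a2 a3 n1 n2 n3 y1 y2 y3 u1 u2 u3) :
    (GZ v a1 a2 a3 n1 n2 n3).PosSemidef := by
  rw [Matrix.posSemidef_iff_dotProduct_mulVec]
  refine ⟨?_, fun x => ?_⟩
  · ext i j
    fin_cases i <;> fin_cases j <;> simp [GZ]
  · have : star x = x := by ext i; simp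
    rw [this, GZ_quad]
    exact h _ _ _ _ _ _

theorem tr_nonneg_O {M N : Matrix (Fin 6) (Fin 6) ℝ} (hM : M.PosSemidef)
    (hN : ∀ y : Fin 6 → ℝ, 0 ≤ ∑ a, ∑ b, y a * y b * N a b) : 0 ≤ ∑ a, ∑ b, M a b * N a b := by
  obtain ⟨m, u, rfl⟩ := Matrix.posSemidef_iff_eq_sum_vecMulVec.mp hM
  have e : ∑ a, ∑ b, (∑ i, Matrix.vecMulVec (u i) (star (u i))) a b * N a b
      = ∑ i, ∑ a, ∑ b, u i a * u i b * N a b := by
    simp only [Matrix.sum_apply, Matrix.vecMulVec_apply, Pi.star_apply, star_trivial,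
      Finset.sum_mul]
    calc ∑ a, ∑ b, ∑ i, u i a * u i b * N a b = ∑ a, ∑ i, ∑ b, u i a * u i b * N a b :=
          Finset.sum_congr rfl fun a _ => Finset.sum_comm
      _ = ∑ i, ∑ a, ∑ b, u i a * u i b * N a b := Finset.sum_comm
  rw [e]
  exact Finset.sum_nonneg fun i _ => hN (u i)

/-- The identity: the trace is the pairing plus twice the product of the defects. -/
theorem GZ_tr (v w : Bv) (a1 a2 a3 n1 n2 n3 b1 b2 b3 m1 m2 m3 : ℝ) :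
    ∑ i, ∑ j, GZ v a1 a2 a3 n1 n2 n3 i j * GZs w b1 b2 b3 m1 m2 m3 i j
      = pair v w + 2 * (a1 + a2 + a3 - 2 * v.ou) * (b1 + b2 + b3 - 2 * w.ou) := by
  simp [GZ, GZs, Fin.sum_univ_succ, Matrix.cons_val_succ, pair]
  ring

/-- **Pairing.** Only one of the two sides needs `a₁ + a₂ + a₃ = 2 ou`. -/
theorem OG_pair {v w : Bv} {a1 a2 a3 n1 n2 n3 b1 b2 b3 m1 m2 m3 : ℝ}
    (ha : a1 + a2 + a3 = 2 * v.ou)
    (hv : ∀ y1 y2 y3 u1 u2 u3, 0 ≤ OG v a1 a2 a3 n1 n2 n3 y1 y2 y3 u1 u2 u3)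
    (hw : ∀ y1 y2 y3 u1 u2 u3, 0 ≤ OG w b1 b2 b3 m1 m2 m3 y1 y2 y3 u1 u2 u3) :
    0 ≤ pair v w := by
  have h := tr_nonneg_O (GZ_psd hv) (N := GZs w b1 b2 b3 m1 m2 m3) fun y => by
    rw [GZs_quad]
    exact hw _ _ _ _ _ _
  rw [GZ_tr, ha] at h
  linarith

end Pool.Agent.MP_d90615.T3
end
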