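import Pool.Agent.Lib.MP_d90615_co.Mg.G024
import Pool.Agent.Lib.MP_d90615_co.T3.OLin

section

/-! # `OG` as a sum of squares of linear forms -/

set_option autoImplicit false
set_option linter.unnecessarySeqFocus false
set_option linter.unreachableTactic false
set_option linter.unusedTactic false

namespace Pool.Agent.MP_d90615.T3

open St

/-- The matrix of `OG v a n`. -/
noncomputable def OM (v : Bv) (a1 a2 a3 n1 n2 n3 : ℝ) : Matrix (Fin 6) (Fin 6) ℝ :=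
  !![v.ou + v.ox, v.ou, v.ou, a1, (n2 - v.zu - v.xu + v.xz) / 2, (n3 - v.yu - v.xu + v.xy) / 2;
     v.ou, v.ou + v.oy, v.ou, (n1 - v.zu - v.yu + v.yz) / 2, a2, (n3 - v.yu - v.xu - v.xy) / 2;
     v.ou, v.ou, v.ou + v.oz, (n1 - v.zu - v.yu - v.yz) / 2, (n2 - v.zu - v.xu - v.xz) / 2, a3;
     a1, (n1 - v.zu - v.yu + v.yz) / 2, (n1 - v.zu - v.yu - v.yz) / 2, n1, -v.zu, -v.yu;
     (n2 - v.zu - v.xu + v.xz) / 2, a2, (n2 - v.zu - v.xu - v.xz) / 2, -v.zu, n2, -v.xu;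
     (n3 - v.yu - v.xu + v.xy) / 2, (n3 - v.yu - v.xu - v.xy) / 2, a3, -v.yu, -v.xu, n3]

theorem OM_quad (v : Bv) (a1 a2 a3 n1 n2 n3 : ℝ) (x : Fin 6 → ℝ) :
    x ⬝ᵥ (OM v a1 a2 a3 n1 n2 n3).mulVec x
      = OG v a1 a2 a3 n1 n2 n3 (x 0) (x 1) (x 2) (x 3) (x 4) (x 5) := by
  simp [OM, OG, Matrix.mulVec, dotProduct, Fin.sum_univ_succ, Matrix.cons_val_succ]
  ring

theorem OM_psd {v : Bv} {a1 a2 a3 n1 n2 n3 : ℝ}
    (h : ∀ y1 y2 y3 u1 u2 u3, 0 ≤ OG v a1 a2 a3 n1 n2 n3 y1 y2 y3 u1 u2 u3) :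
    (OM v a1 a2 a3 n1 n2 n3).PosSemidef := by
  rw [Matrix.posSemidef_iff_dotProduct_mulVec]
  refine ⟨?_, fun x => ?_⟩
  · ext i j
    fin_cases i <;> fin_cases j <;> simp [OM]
  · have : star x = x := by ext i; simp
    rw [this, OM_quad]
    exact h _ _ _ _ _ _

/-- The form `OG v a n` is a finite sum of squares of linear forms. -/
theorem OG_repr {v : Bv} {a1 a2 a3 n1 n2 n3 : ℝ}
    (h : ∀ y1 y2 y3 u1 u2 u3, 0 ≤ OG v a1 a2 a3 n1 n2 n3 y1 y2 y3 u1 u2 u3) :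
    ∃ (m : ℕ) (w : Fin m → Fin 6 → ℝ), ∀ x1 x2 x3 x4 x5 x6,
      OG v a1 a2 a3 n1 n2 n3 x1 x2 x3 x4 x5 x6
        = ∑ k, (w k 0 * x1 + w k 1 * x2 + w k 2 * x3 + w k 3 * x4 + w k 4 * x5 + w k 5 * x6) ^ 2 := by
  obtain ⟨m, w, hw⟩ := Matrix.posSemidef_iff_eq_sum_vecMulVec.mp (OM_psd h)
  refine ⟨m, w, fun x1 x2 x3 x4 x5 x6 => ?_⟩
  have e := OM_quad v a1 a2 a3 n1 n2 n3 ![x1, x2, x3, x4, x5, x6]
  have e2 : OG v a1 a2 a3 n1 n2 n3 x1 x2 x3 x4 x5 x6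
      = ![x1, x2, x3, x4, x5, x6] ⬝ᵥ (OM v a1 a2 a3 n1 n2 n3).mulVec ![x1, x2, x3, x4, x5, x6] := by
    rw [e]; rfl
  rw [e2, hw, Matrix.sum_mulVec, dotProduct_sum]
  refine Finset.sum_congr rfl fun k _ => ?_
  simp [Matrix.mulVec, dotProduct, Matrix.vecMulVec_apply, Fin.sum_univ_succ, Matrix.cons_val_succ]
  ring

end Pool.Agent.MP_d90615.T3
end

section

/-!
# An inequality for exterior products in dimension five, the main statement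
-/

set_option autoImplicit false

namespace Pool.Agent.MP_d90615.T3

open Matrix
open scoped MatrixOrder

/-- **The inequality**: let `M` be positive semidefinite with positive determinant. If
`⟨Λ²M O, O⟩ ≤ det M` then `2 (g ∧ W ∧ O) ≤ ⟨M g, g⟩ + ⟨Λ²M W, W⟩`. -/
theorem T5_le {M : Matrix (Fin 5) (Fin 5) ℝ} (hM : M.PosSemidef) (hd : 0 < M.det)
    (g : Fin 5 → ℝ) (W O : Matrix (Fin 5) (Fin 5) ℝ) (hW : ∀ i j, W j i = - W i j)
    (hO : ∀ i j, O j i = - O i j) (h : (M * O * M * Oᵀ).trace ≤ 2 * M.det) :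
    2 * T5 g W O ≤ g ⬝ᵥ (M *ᵥ g) + (M * W * M * Wᵀ).trace / 2 := by
  obtain ⟨B, hB⟩ := CStarAlgebra.nonneg_iff_eq_star_mul_self.mp hM.nonneg
  rw [Matrix.star_eq_conjTranspose, Matrix.conjTranspose_eq_transpose_of_trivial] at hB
  obtain ⟨L, hM'⟩ : ∃ L : Matrix (Fin 5) (Fin 5) ℝ, M = L * Lᵀ :=
    ⟨Bᵀ, by rw [Matrix.transpose_transpose]; exact hB⟩
  have hdet : M.det = L.det ^ 2 := by
    rw [hM', Matrix.det_mul, Matrix.det_transpose, sq]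
  have h1 := T5_transform L g W O hW hO
  have h2 := T5_sq_le (g ᵥ* L) (Lᵀ * W * L) (Lᵀ * O * L)
  have h3 : g ⬝ᵥ (M *ᵥ g) = (g ᵥ* L) 0 ^ 2 + (g ᵥ* L) 1 ^ 2 + (g ᵥ* L) 2 ^ 2 + (g ᵥ* L) 3 ^ 2 +
      (g ᵥ* L) 4 ^ 2 := by
    rw [hM', ← Matrix.mulVec_mulVec, Matrix.dotProduct_mulVec, Matrix.mulVec_transpose]
    simp only [dotProduct, Fin.sum_univ_five]
    ring
  have h4 := sq2_transform L W hW
  have h5 := sq2_transform L O hO
  rw [← hM'] at h4 h5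
  rw [← h5] at h
  rw [← h4]
  rw [← h3] at h2
  generalize hAd : g ⬝ᵥ (M *ᵥ g) = A at *
  have hA : 0 ≤ A := by rw [h3]; positivity
  have hS : 0 ≤ sq2 (Lᵀ * W * L) := sq2_nonneg _
  have hR : sq2 (Lᵀ * O * L) ≤ L.det ^ 2 := by rw [← hdet]; linarith
  have hL0 : 0 < L.det ^ 2 := hdet ▸ hd
  generalize sq2 (Lᵀ * W * L) = S at *
  generalize sq2 (Lᵀ * O * L) = R at *
  have h6 : T5 g W O ^ 2 ≤ A * S := by
    have e1 : L.det ^ 2 * T5 g W O ^ 2 ≤ L.det ^ 2 * (A * S) := by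
      calc L.det ^ 2 * T5 g W O ^ 2 = (L.det * T5 g W O) ^ 2 := by ring
        _ = T5 (g ᵥ* L) (Lᵀ * W * L) (Lᵀ * O * L) ^ 2 := by rw [h1]
        _ ≤ A * S * R := h2
        _ ≤ A * S * L.det ^ 2 := mul_le_mul_of_nonneg_left hR (mul_nonneg hA hS)
        _ = _ := by ring
    exact le_of_mul_le_mul_left e1 hL0
  have h7 : (2 * T5 g W O) ^ 2 ≤ (A + S) ^ 2 := by nlinarith [sq_nonneg (A - S)]
  have h8 := abs_le_of_sq_le_sq h7 (add_nonneg hA hS)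
  have h9 := (le_abs_self (2 * T5 g W O)).trans h8
  linarith

end Pool.Agent.MP_d90615.T3
end

section

/-!
# The form of the elimination of a vertex with two stars is nonnegative
-/

set_option autoImplicit false

namespace Pool.Agent.MP_d90615.T3

open Matrix Filter Topology

/-- The matrix `M`. -/
def M5 (Q b a b' a' t s : ℝ) : Matrix (Fin 5) (Fin 5) ℝ :=
  !![Q - t - s, -t, -t, -s, -s; -t, b - t, -t, 0, 0; -t, -t, a - t, 0, 0;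
    -s, 0, 0, b' - s, -s; -s, 0, 0, -s, a' - s]

/-- The matrix `W`. -/
def W5 (n1 n2 n3 k1 k2 k3 m l : ℝ) : Matrix (Fin 5) (Fin 5) ℝ :=
  !![0, n3, -n2, k3, -k2; -n3, 0, n1, 0, m; n2, -n1, 0, -l, 0; -k3, 0, l, 0, k1; k2, -m, 0, -k1, 0]

/-- The matrix `O`. -/
def O5 (t s κ : ℝ) : Matrix (Fin 5) (Fin 5) ℝ :=
  !![0, -κ, κ, -κ, κ; κ, 0, s, 0, 0; -κ, -s, 0, 0, 0; κ, 0, 0, 0, t; -κ, 0, 0, -t, 0]

theorem W5_anti (n1 n2 n3 k1 k2 k3 m l : ℝ) (i j : Fin 5) :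
    W5 n1 n2 n3 k1 k2 k3 m l j i = - W5 n1 n2 n3 k1 k2 k3 m l i j := by
  fin_cases i <;> fin_cases j <;> simp [W5]

theorem O5_anti (t s κ : ℝ) (i j : Fin 5) : O5 t s κ j i = - O5 t s κ i j := by
  fin_cases i <;> fin_cases j <;> simp [O5]

theorem star_form {p q r h : ℝ} (hp : 0 < p) (hq : 0 < q) (hr : 0 < r) (hh : 0 ≤ h)
    (hk : h * (p * q + p * r + q * r + h) ≤ p * q * r) (x y z : ℝ) :
    0 ≤ p * x ^ 2 + q * y ^ 2 + r * z ^ 2 - h * (x + y + z) ^ 2 := by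
  have h1 : p * q * r * (x + y + z) ^ 2 ≤
      (p * x ^ 2 + q * y ^ 2 + r * z ^ 2) * (p * q + p * r + q * r) := by
    have : (p * x ^ 2 + q * y ^ 2 + r * z ^ 2) * (p * q + p * r + q * r) -
        p * q * r * (x + y + z) ^ 2 =
        r * (p * x - q * y) ^ 2 + q * (p * x - r * z) ^ 2 + p * (q * y - r * z) ^ 2 := by ring
    have h2 : 0 ≤ r * (p * x - q * y) ^ 2 + q * (p * x - r * z) ^ 2 + p * (q * y - r * z) ^ 2 := by
      positivity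
    linarith
  have h2 : 0 ≤ p * x ^ 2 + q * y ^ 2 + r * z ^ 2 := by positivity
  have h3 : h * (p * q + p * r + q * r) ≤ p * q * r := by nlinarith [sq_nonneg h]
  have h4 : 0 < p * q * r := by positivity
  have h5 : h * (x + y + z) ^ 2 * (p * q * r) ≤
      (p * x ^ 2 + q * y ^ 2 + r * z ^ 2) * (p * q * r) := by
    calc h * (x + y + z) ^ 2 * (p * q * r) = h * (p * q * r * (x + y + z) ^ 2) := by ring
      _ ≤ h * ((p * x ^ 2 + q * y ^ 2 + r * z ^ 2) * (p * q + p * r + q * r)) :=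
        mul_le_mul_of_nonneg_left h1 hh
      _ = (p * x ^ 2 + q * y ^ 2 + r * z ^ 2) * (h * (p * q + p * r + q * r)) := by ring
      _ ≤ _ := mul_le_mul_of_nonneg_left h3 h2
  have h6 := le_of_mul_le_mul_right h5 h4
  linarith

theorem M5_form (QA QB b a b' a' t s : ℝ) (x : Fin 5 → ℝ) :
    x ⬝ᵥ (M5 (QA + QB) b a b' a' t s *ᵥ x) =
      (QA * x 0 ^ 2 + b * x 1 ^ 2 + a * x 2 ^ 2 - t * (x 0 + x 1 + x 2) ^ 2) +
      (QB * x 0 ^ 2 + b' * x 3 ^ 2 + a' * x 4 ^ 2 - s * (x 0 + x 3 + x 4) ^ 2) := by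
  simp [dotProduct, mulVec, M5, Fin.sum_univ_succ]
  ring

theorem M5_det (Q b a b' a' t s : ℝ) : (M5 Q b a b' a' t s).det =
    Q * (a * b - t * (a + b)) * (a' * b' - s * (a' + b')) - t * (a * b) * (a' * b' - s * (a' + b')) -
      s * (a' * b') * (a * b - t * (a + b)) := by
  simp [Matrix.det_succ_row_zero, Fin.sum_univ_succ, M5, Fin.succAbove]
  ring

theorem trace_anti {M O : Matrix (Fin 5) (Fin 5) ℝ} (hO : ∀ i j, O j i = - O i j) :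
    (M * O * M * Oᵀ).trace = -∑ i, ∑ j, (M * O) i j * (M * O) j i := by
  have hT : Oᵀ = -O := by
    ext i j
    rw [Matrix.transpose_apply, Matrix.neg_apply, hO]
  rw [hT, Matrix.mul_neg, Matrix.trace_neg, Matrix.mul_assoc (M * O) M O]
  simp only [Matrix.trace, Matrix.diag_apply, Matrix.mul_apply (M := M * O)]

theorem mul_five (M O : Matrix (Fin 5) (Fin 5) ℝ) (i j : Fin 5) :
    (M * O) i j = M i 0 * O 0 j + M i 1 * O 1 j + M i 2 * O 2 j + M i 3 * O 3 j +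
      M i 4 * O 4 j := by
  rw [Matrix.mul_apply, Fin.sum_univ_five]

theorem O5_trace (Q b a b' a' t s κ : ℝ) :
    (M5 Q b a b' a' t s * O5 t s κ * M5 Q b a b' a' t s * (O5 t s κ)ᵀ).trace =
      2 * (a' * b' * t ^ 2 + a * b * s ^ 2 + Q * κ ^ 2 * (a + b + a' + b') -
        t * ((a + b) * (κ + s) ^ 2 + (a' + b') * κ ^ 2) -
        s * ((a + b) * κ ^ 2 + (a' + b') * (κ + t) ^ 2)) := by
  rw [trace_anti (O5_anti t s κ)]
  simp only [Fin.sum_univ_five, mul_five]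
  simp [M5, O5]
  ring

theorem W5_trace (Q b a b' a' t s n1 n2 n3 k1 k2 k3 m l : ℝ) :
    (M5 Q b a b' a' t s * W5 n1 n2 n3 k1 k2 k3 m l * M5 Q b a b' a' t s *
      (W5 n1 n2 n3 k1 k2 k3 m l)ᵀ).trace =
      2 * (a * b * n1 ^ 2 + a * Q * n2 ^ 2 + b * Q * n3 ^ 2 + a' * b' * k1 ^ 2 + a' * Q * k2 ^ 2 +
        b' * Q * k3 ^ 2 + a' * b * m ^ 2 + a * b' * l ^ 2 -
        t * (Q * (n3 - n2) ^ 2 + b * (n1 - n3) ^ 2 + a * (n2 - n1) ^ 2 + b' * (l - k3) ^ 2 +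
          a' * (k2 - m) ^ 2) -
        s * (Q * (k3 - k2) ^ 2 + b * (m - n3) ^ 2 + a * (n2 - l) ^ 2 + b' * (k1 - k3) ^ 2 +
          a' * (k2 - k1) ^ 2) + t * s * (k3 - k2 - n3 + m + n2 - l) ^ 2) := by
  rw [trace_anti (W5_anti n1 n2 n3 k1 k2 k3 m l)]
  simp only [Fin.sum_univ_five, mul_five]
  simp [M5, W5]
  ring

theorem T5_eq (th g2 g3 h2 h3 n1 n2 n3 k1 k2 k3 m l t s κ : ℝ) :
    T5 ![th, g2, g3, h2, h3] (W5 n1 n2 n3 k1 k2 k3 m l) (O5 t s κ) =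
      t * (th * n1 + g2 * n2 + g3 * n3) + s * (th * k1 + h2 * k2 + h3 * k3) -
        κ * (g2 * (k1 - l) + g3 * (k1 - m) + h2 * (n1 - m) + h3 * (n1 - l)) := by
  simp [T5, W5, O5]
  ring

end Pool.Agent.MP_d90615.T3
end
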