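import Mathlib
import Pool.Agent.Lib.MP_d90615_co.Mg.G020
import Pool.Agent.Lib.MP_d90615_co.T3.OElim
import Pool.Agent.Lib.MP_d90615_co.Mg.G024
import Pool.Agent.Lib.MP_d90615_co.Mg.G025
import Pool.Agent.Lib.MP_d90615_co.T3.KO
import Pool.Agent.Lib.MP_d90615_co.T3.OPsi

section

/-!
One bag of a tree decomposition: moving the marked edge.
-/

set_option autoImplicit false
set_option linter.unusedSectionVars false

namespace Pool.Agent.T3

open Finset Pool.Agent.Lib.MP_d90615_co Pool.Agent.CL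
open scoped Classical

variable {V E : Type*}

/-- The bag `v, a, b, x`; `S`: the inner vertices, `Dv`: the edges incident with `v` or an inner
vertex, divided into parts `pt g` with attachments `att g` besides `v`. -/
structure Bag (ends : E → Sym2 V) (v a b x : V) (S : V → Prop) (Dv : Finset E)
    (att : E → Finset V) (pt : E → Finset E) : Prop where
  out : ∀ g ∈ Dv, ∀ y ∈ ends g, ¬ S y → y = v ∨ y ∈ att g
  inn : ∀ g ∈ Dv, ∀ g', ∀ y, S y → y ∈ ends g → y ∈ ends g' → g' ∈ pt g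
  sub : ∀ g ∈ Dv, ∀ y ∈ att g, y = a ∨ y = b ∨ y = x
  crd : ∀ g ∈ Dv, (att g).card ≤ 2
  self : ∀ g ∈ Dv, g ∈ pt g
  pt_sub : ∀ g ∈ Dv, pt g ⊆ Dv
  pt_att : ∀ g ∈ Dv, ∀ g' ∈ pt g, pt g' = pt g ∧ att g' = att g
  outer : ∀ g, g ∉ Dv → ∀ y ∈ ends g, ¬ S y ∧ y ≠ v

variable {ends : E → Sym2 V} {v a b x : V} {S : V → Prop} {Dv : Finset E}
  {att : E → Finset V} {pt : E → Finset E}

lemma Bag.perm1 (h : Bag ends v a b x S Dv att pt) : Bag ends v a x b S Dv att pt :=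
  ⟨h.out, h.inn, fun g hg y hy => by have := h.sub g hg y hy; tauto, h.crd, h.self, h.pt_sub,
    h.pt_att, h.outer⟩

lemma Bag.perm2 (h : Bag ends v a b x S Dv att pt) : Bag ends v b a x S Dv att pt :=
  ⟨h.out, h.inn, fun g hg y hy => by have := h.sub g hg y hy; tauto, h.crd, h.self, h.pt_sub,
    h.pt_att, h.outer⟩

/-- Attachments other than the first two pairs are the third pair. -/
lemma Bag.third (h : Bag ends v a b x S Dv att pt) {g : E} (hg : g ∈ Dv)
    (h1 : ¬ ∀ y ∈ att g, y = a ∨ y = b) (h2 : ¬ ∀ y ∈ att g, y = a ∨ y = x)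
    (hab : a ≠ b) (hax : a ≠ x) : ∀ y ∈ att g, y = b ∨ y = x := by
  push Not at h1 h2
  obtain ⟨y1, hy1, hn1, hn1'⟩ := h1
  obtain ⟨y2, hy2, hn2, hn2'⟩ := h2
  have e1 : y1 = x := by
    rcases h.sub g hg y1 hy1 with h | h | h
    · exact absurd h hn1
    · exact absurd h hn1'
    · exact h
  have e2 : y2 = b := by
    rcases h.sub g hg y2 hy2 with h | h | h
    · exact absurd h hn2
    · exact h
    · exact absurd h hn2'
  subst e1 e2
  intro y hy
  by_contra hc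
  push Not at hc
  have hsub : ({y, y2, y1} : Finset V) ⊆ att g := by
    intro z hz
    simp only [mem_insert, mem_singleton] at hz
    rcases hz with rfl | rfl | rfl <;> assumption
  have h21 : y2 ≠ y1 := fun h => hn2' h
  have hcard : ({y, y2, y1} : Finset V).card = 3 := by
    rw [Finset.card_insert_of_notMem (by simp [hc.1, hc.2]),
      Finset.card_insert_of_notMem (by simp [h21]), Finset.card_singleton]
  have := Finset.card_le_card hsub
  have := h.crd g hg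
  omega

/-- A common attachment `a` of all parts with two attachments. -/
lemma Bag.split (h : Bag ends v a b x S Dv att pt) (hab : a ≠ b) (hax : a ≠ x)
    (hY : ∀ g ∈ Dv, 2 ≤ (att g).card → a ∈ att g) :
    ∀ g ∈ Dv, (∀ y ∈ att g, y = a ∨ y = b) ∨ ∀ y ∈ att g, y = a ∨ y = x := by
  intro g hg
  by_contra hc
  rw [not_or] at hc
  have h3 := h.third hg hc.1 hc.2 hab hax
  obtain ⟨h1, h2⟩ := hc
  push Not at h1 h2
  obtain ⟨y1, hy1, hn1, hn1'⟩ := h1
  obtain ⟨y2, hy2, hn2, hn2'⟩ := h2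
  have hne : y1 ≠ y2 := by
    rintro rfl
    rcases h3 y1 hy1 with h4 | h4
    · exact hn1' h4
    · exact hn2' h4
  have hsub : ({y1, y2} : Finset V) ⊆ att g := by
    intro z hz
    simp only [mem_insert, mem_singleton] at hz
    rcases hz with rfl | rfl <;> assumption
  have hcard : ({y1, y2} : Finset V).card = 2 := Finset.card_pair hne
  have ha := hY g hg (by rw [← hcard]; exact Finset.card_le_card hsub)
  rcases h3 a ha with h4 | h4
  · exact hab h4
  · exact hax h4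

lemma Bag.y_cases (h : Bag ends v a b x S Dv att pt)
    (hY : ∃ y, ∀ g ∈ Dv, 2 ≤ (att g).card → y ∈ att g) :
    (∀ g ∈ Dv, 2 ≤ (att g).card → a ∈ att g) ∨ (∀ g ∈ Dv, 2 ≤ (att g).card → b ∈ att g) ∨
      ∀ g ∈ Dv, 2 ≤ (att g).card → x ∈ att g := by
  obtain ⟨y, hy⟩ := hY
  by_cases ha : y = a
  · subst ha
    exact Or.inl hy
  · by_cases hb : y = b
    · subst hb
      exact Or.inr (Or.inl hy)
    · by_cases hx : y = x
      · subst hx
        exact Or.inr (Or.inr hy)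
      · refine Or.inl fun g hg hc => ?_
        rcases h.sub g hg y (hy g hg hc) with h1 | h1 | h1
        · exact absurd h1 ha
        · exact absurd h1 hb
        · exact absurd h1 hx

variable {K : (Fin 5 → ℝ) → (Fin 5 → ℝ) → Prop} {one : Prop} (hK : GoodW one K) {w : E → ℝ}

include hK

lemma bagA' [Fintype V] [Fintype E] (hw : ∀ g, 0 ≤ w g) (h : Bag ends v a b x S Dv att pt)
    (hva : v ≠ a) (hvb : v ≠ b) (hvx : v ≠ x) (hab : a ≠ b) (hbx : b ≠ x) (hax : a ≠ x)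
    (hSa : ¬ S a) (hSb : ¬ S b) (hSx : ¬ S x)
    {e : E} (he : e ∈ Dv) (hatt : ∀ y ∈ att e, y = a ∨ y = b)
    (hone : one → ∀ g ∈ Dv, (∀ y ∈ att g, y = a ∨ y = b) ∨ ∀ y ∈ att g, y = a ∨ y = x)
    (hm : KM K ends w (pt e) e v a b) : KM K ends w Dv e a b x := by
  set A0 : Finset E := Dv.filter fun g => g ∉ pt e ∧ ∀ y ∈ att g, y = a ∨ y = b with hA0
  set A1 : Finset E := Dv.filter fun g => g ∉ pt e ∧ (¬ ∀ y ∈ att g, y = a ∨ y = b) ∧
    ∀ y ∈ att g, y = a ∨ y = x with hA1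
  set A2 : Finset E := Dv.filter fun g => g ∉ pt e ∧ (¬ ∀ y ∈ att g, y = a ∨ y = b) ∧
    ¬ ∀ y ∈ att g, y = a ∨ y = x with hA2
  have mA0 : ∀ g, g ∈ A0 ↔ g ∈ Dv ∧ g ∉ pt e ∧ ∀ y ∈ att g, y = a ∨ y = b := by
    intro g
    rw [hA0, mem_filter]
  have mA1 : ∀ g, g ∈ A1 ↔ g ∈ Dv ∧ g ∉ pt e ∧ (¬ ∀ y ∈ att g, y = a ∨ y = b) ∧
      ∀ y ∈ att g, y = a ∨ y = x := by
    intro g
    rw [hA1, mem_filter]
  have mA2 : ∀ g, g ∈ A2 ↔ g ∈ Dv ∧ g ∉ pt e ∧ (¬ ∀ y ∈ att g, y = a ∨ y = b) ∧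
      ¬ ∀ y ∈ att g, y = a ∨ y = x := by
    intro g
    rw [hA2, mem_filter]
  have hpe : pt e ⊆ Dv := h.pt_sub e he
  have aux : ∀ g ∈ Dv, ∀ g', ∀ y, S y → y ∈ ends g → y ∈ ends g' →
      (g ∈ pt e ↔ g' ∈ pt e) ∧ att g' = att g := by
    intro g hg g' y hS hy hy'
    have h1 := h.inn g hg g' y hS hy hy'
    have h2 := h.pt_att g hg g' h1
    have hg' : g' ∈ Dv := h.pt_sub g hg h1
    refine ⟨⟨fun h3 => ?_, fun h3 => ?_⟩, h2.2⟩
    · have h4 := h.pt_att e he g h3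
      rw [h4.1] at h1
      exact h1
    · have h4 := h.pt_att e he g' h3
      rw [← h4.1, h2.1]
      exact h.self g hg
  have atte : ∀ g ∈ pt e, ∀ y ∈ att g, y = a ∨ y = b := by
    intro g hg y hy
    rw [(h.pt_att e he g hg).2] at hy
    exact hatt y hy
  -- the product with the parts on `a, b`
  have d0 : Disjoint (pt e) A0 := by
    rw [Finset.disjoint_left]
    intro g hg hg'
    exact ((mA0 g).mp hg').2.1 hg
  have k0 : KM K ends w (pt e ∪ A0) e v a b := by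
    refine KM.mul hK hw (h.self e he) d0 hva hab hvb ?_ hm
    intro g hg f hf y hy hy'
    have hf' := (mA0 f).mp hf
    by_cases hS : S y
    · exact absurd (((aux g (hpe hg) f y hS hy hy').1).mp hg) hf'.2.1
    · rcases h.out g (hpe hg) y hy hS with h1 | h1
      · exact Or.inl h1
      · exact Or.inr (atte g hg y h1)
  -- elimination
  have hD0 : ∀ g ∈ pt e ∪ A0, g ∈ Dv ∧ ∀ y ∈ att g, y = a ∨ y = b := by
    intro g hg
    rcases mem_union.mp hg with hg | hg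
    · exact ⟨hpe hg, atte g hg⟩
    · exact ⟨((mA0 g).mp hg).1, ((mA0 g).mp hg).2.2⟩
  have hin12 : ∀ f ∈ A1 ∪ A2, f ∈ Dv ∧ f ∉ pt e ∧ ¬ ∀ y ∈ att f, y = a ∨ y = b := by
    intro f hf
    rcases mem_union.mp hf with hf | hf
    · have := (mA1 f).mp hf
      exact ⟨this.1, this.2.1, this.2.2.1⟩
    · have := (mA2 f).mp hf
      exact ⟨this.1, this.2.1, this.2.2.1⟩
  have d1 : Disjoint (pt e ∪ A0) (A1 ∪ A2) := by
    rw [Finset.disjoint_left]
    intro g hg hg'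
    exact (hin12 g hg').2.2 (hD0 g hg).2
  have d2 : Disjoint A1 A2 := by
    rw [Finset.disjoint_left]
    intro g hg hg'
    exact ((mA2 g).mp hg').2.2.2 ((mA1 g).mp hg).2.2.2
  have t2 : ∀ g ∈ A2, ∀ y ∈ att g, y = b ∨ y = x := by
    intro g hg
    have hg' := (mA2 g).mp hg
    exact h.third hg'.1 hg'.2.2.1 hg'.2.2.2 hab hax
  have k1 := KM.elim hK hw (D := pt e ∪ A0) (A := A1) (A' := A2) (e := e)
    (mem_union_left _ (h.self e he)) d1 d2 (v := v) (b := a) (c := b) (d := x) hva hvb hvx hab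
    hax hbx
    (by
      intro g hg f hf y hy hy'
      by_cases hS : S y
      · have h1 := aux g (hD0 g hg).1 f y hS hy hy'
        exact absurd (fun z hz => (hD0 g hg).2 z (h1.2 ▸ hz)) (hin12 f hf).2.2
      · rcases h.out g (hD0 g hg).1 y hy hS with h1 | h1
        · exact Or.inl h1
        · exact Or.inr ((hD0 g hg).2 y h1))
    (by
      intro g hg hy
      rcases h.out g (hD0 g hg).1 x hy hSx with h1 | h1
      · exact hvx h1.symm
      · rcases (hD0 g hg).2 x h1 with h2 | h2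
        · exact hax h2.symm
        · exact hbx h2.symm)
    (by
      intro g hg f hf y hy hy'
      have hg' := (mA1 g).mp hg
      have hf' := (mA2 f).mp hf
      by_cases hS : S y
      · have h1 := aux g hg'.1 f y hS hy hy'
        exact absurd (fun z hz => hg'.2.2.2 z (h1.2 ▸ hz)) hf'.2.2.2
      · rcases h.out g hg'.1 y hy hS with h1 | h1
        · exact Or.inl h1
        · exact Or.inr (hg'.2.2.2 y h1))
    (by
      intro g hg hy
      have hg' := (mA1 g).mp hg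
      rcases h.out g hg'.1 b hy hSb with h1 | h1
      · exact hvb h1.symm
      · rcases hg'.2.2.2 b h1 with h2 | h2
        · exact hab h2.symm
        · exact hbx h2)
    (by
      intro g hg hy
      have hg' := (mA2 g).mp hg
      rcases h.out g hg'.1 a hy hSa with h1 | h1
      · exact hva h1.symm
      · rcases t2 g hg a h1 with h2 | h2
        · exact hab h2
        · exact hax h2)
    (by
      intro ho
      rw [Finset.eq_empty_iff_forall_notMem]
      intro g hg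
      have hg' := (mA2 g).mp hg
      rcases hone ho g hg'.1 with h1 | h1
      · exact hg'.2.2.1 h1
      · exact hg'.2.2.2 h1)
    k0
  have hun : pt e ∪ A0 ∪ (A1 ∪ A2) = Dv := by
    ext g
    rw [mem_union, mem_union, mem_union, mA0, mA1, mA2]
    constructor
    · rintro ((h1 | h1) | (h1 | h1))
      · exact hpe h1
      · exact h1.1
      · exact h1.1
      · exact h1.1
    · intro hg
      by_cases h1 : g ∈ pt e
      · exact Or.inl (Or.inl h1)
      · by_cases h2 : ∀ y ∈ att g, y = a ∨ y = b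
        · exact Or.inl (Or.inr ⟨hg, h1, h2⟩)
        · by_cases h3 : ∀ y ∈ att g, y = a ∨ y = x
          · exact Or.inr (Or.inl ⟨hg, h1, h2, h3⟩)
          · exact Or.inr (Or.inr ⟨hg, h1, h2, h3⟩)
  rw [hun] at k1
  exact k1.rot hK

/-- **One mark in a bag.** -/
theorem bagA [Fintype V] [Fintype E] (hw : ∀ g, 0 ≤ w g) (h : Bag ends v a b x S Dv att pt)
    (hva : v ≠ a) (hvb : v ≠ b) (hvx : v ≠ x) (hab : a ≠ b) (hbx : b ≠ x) (hax : a ≠ x)
    (hSa : ¬ S a) (hSb : ¬ S b) (hSx : ¬ S x)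
    (hone : one → ∃ y, ∀ g ∈ Dv, 2 ≤ (att g).card → y ∈ att g)
    {e : E} (he : e ∈ Dv)
    (hm : ∀ p q, p ≠ q → (p = a ∨ p = b ∨ p = x) → (q = a ∨ q = b ∨ q = x) →
      (∀ y ∈ att e, y = p ∨ y = q) → KM K ends w (pt e) e v p q) :
    KM K ends w Dv e a b x := by
  by_cases ho : one
  · have main : ∀ a b x : V, Bag ends v a b x S Dv att pt → v ≠ a → v ≠ b → v ≠ x → a ≠ b →
        b ≠ x → a ≠ x → ¬ S a → ¬ S b → ¬ S x →
        (∀ p q, p ≠ q → (p = a ∨ p = b ∨ p = x) → (q = a ∨ q = b ∨ q = x) →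
          (∀ y ∈ att e, y = p ∨ y = q) → KM K ends w (pt e) e v p q) →
        (∀ g ∈ Dv, 2 ≤ (att g).card → a ∈ att g) → KM K ends w Dv e a b x := by
      intro a b x h hva hvb hvx hab hbx hax hSa hSb hSx hm hY
      have sp := h.split hab hax hY
      rcases sp e he with h1 | h1
      · exact bagA' hK hw h hva hvb hvx hab hbx hax hSa hSb hSx he h1 (fun _ => sp)
          (hm a b hab (Or.inl rfl) (Or.inr (Or.inl rfl)) h1)
      · have h3 := bagA' hK hw h.perm1 hva hvx hvb hax hbx.symm hab hSa hSx hSb he h1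
          (fun _ g hg => (sp g hg).symm) (hm a x hax (Or.inl rfl) (Or.inr (Or.inr rfl)) h1)
        exact ((h3.rot hK).rot hK).swap hK
    rcases h.y_cases (hone ho) with hY | hY | hY
    · exact main a b x h hva hvb hvx hab hbx hax hSa hSb hSx hm hY
    · exact (main b a x h.perm2 hvb hva hvx hab.symm hax hbx hSb hSa hSx
        (fun p q hpq hp hq hy => hm p q hpq (by tauto) (by tauto) hy) hY).swap hK
    · exact (main x a b h.perm1.perm2 hvx hva hvb hax.symm hab hbx.symm hSx hSa hSb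
        (fun p q hpq hp hq hy => hm p q hpq (by tauto) (by tauto) hy) hY).rot hK
  · by_cases h1 : ∀ y ∈ att e, y = a ∨ y = b
    · exact bagA' hK hw h hva hvb hvx hab hbx hax hSa hSb hSx he h1 (fun h' => absurd h' ho)
        (hm a b hab (Or.inl rfl) (Or.inr (Or.inl rfl)) h1)
    · by_cases h2 : ∀ y ∈ att e, y = a ∨ y = x
      · have h3 := bagA' hK hw h.perm1 hva hvx hvb hax hbx.symm hab hSa hSx hSb he h2
          (fun h' => absurd h' ho) (hm a x hax (Or.inl rfl) (Or.inr (Or.inr rfl)) h2)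
        -- `a x b` to `a b x`
        exact ((h3.rot hK).rot hK).swap hK
      · have h3 := h.third he h1 h2 hab hax
        have h4 := bagA' hK hw (h.perm2.perm1) hvb hvx hva hbx hax.symm hab.symm hSb hSx hSa he h3
          (fun h' => absurd h' ho) (hm b x hbx (Or.inr (Or.inl rfl)) (Or.inr (Or.inr rfl)) h3)
        -- `b x a` to `a b x`
        exact (h4.rot hK).rot hK

end Pool.Agent.T3
end

section

/-! # (B): the elimination keeps the cone (given the scalar inequality) -/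

set_option autoImplicit false
set_option maxHeartbeats 4000000

namespace Pool.Agent.MP_d90615.T3

open St

theorem COREF_sq6 (Q t s : ℝ) (w : Fin 6 → ℝ) (y1 y2 y3 u1 u2 u3 : ℝ) :
    COREF Q t s (sq6 w) y1 y2 y3 u1 u2 u3
      = cfun Q t s (w 0 - (w 3 + w 4 + w 5)) (-(w 1 - (w 3 + w 4 + w 5)))
          (-(w 2 - (w 3 + w 4 + w 5))) (w 0 - w 4 - w 5)
          (y2 * (w 1 - (w 3 + w 4 + w 5)) + y3 * (w 2 - (w 3 + w 4 + w 5))
            + (y1 + y2 + y3 + u2) * w 4 + (y1 + y2 + y3 + u3) * w 5)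
          y1 (y1 + y2 + y3 + u1) (y1 + y2 + y3 + u2) (y1 + y2 + y3 + u3) := by
  unfold COREF ev sq6 cfun
  ring

/-- The three linear forms after the edges at terminal 1. -/
theorem MULF_sq6 (r1 p1 : ℝ) (w : Fin 6 → ℝ) :
    MULF 0 r1 p1 0 (sq6 w) = fun x1 x2 x3 x4 x5 x6 =>
      (sq6 ![w 0, w 1, w 2, w 3 + p1 * (w 0 - w 1) + r1 * (w 0 - w 2), w 4 - p1 * (w 0 - w 1),
        w 5 - r1 * (w 0 - w 2)] x1 x2 x3 x4 x5 x6
      + p1 * sq6 ![w 0 - w 1, w 0 - w 1, w 0 - w 1, -(w 1 - (w 3 + w 4 + w 5)),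
          w 0 - (w 3 + w 4 + w 5), 0] x1 x2 x3 x4 x5 x6)
      + r1 * sq6 ![w 2 - w 0, w 2 - w 0, w 2 - w 0, w 2 - (w 3 + w 4 + w 5), 0,
          -(w 0 - (w 3 + w 4 + w 5))] x1 x2 x3 x4 x5 x6 := by
  funext x1 x2 x3 x4 x5 x6
  unfold MULF sq6
  simp
  ring

theorem COREF_smul (Q t s c : ℝ) (f : F6) (x1 x2 x3 x4 x5 x6 : ℝ) :
    COREF Q t s (fun y1 y2 y3 y4 y5 y6 => c * f y1 y2 y3 y4 y5 y6)
      x1 x2 x3 x4 x5 x6 = c * COREF Q t s f x1 x2 x3 x4 x5 x6 := by
  unfold COREF ev; ring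

theorem COREF_MULF_sq6 (Q t s r1 p1 : ℝ) (w : Fin 6 → ℝ) (y1 y2 y3 u1 u2 u3 : ℝ) :
    COREF Q t s (MULF 0 r1 p1 0 (sq6 w)) y1 y2 y3 u1 u2 u3
      = cfun Q t s (w 0 - (w 3 + w 4 + w 5)) (-(w 1 - (w 3 + w 4 + w 5)))
          (-(w 2 - (w 3 + w 4 + w 5)))
          (w 0 - w 4 - w 5 + p1 * (w 0 - w 1) + r1 * (w 0 - w 2))
          (y2 * (w 1 - (w 3 + w 4 + w 5)) + y3 * (w 2 - (w 3 + w 4 + w 5))
            + (y1 + y2 + y3 + u2) * (w 4 - p1 * (w 0 - w 1))
            + (y1 + y2 + y3 + u3) * (w 5 - r1 * (w 0 - w 2)))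
          y1 (y1 + y2 + y3 + u1) (y1 + y2 + y3 + u2) (y1 + y2 + y3 + u3)
        + p1 * cfun Q t s 0 0 0 (-(w 1 - (w 3 + w 4 + w 5)))
          ((y1 + y2 + y3 + u2) * (w 0 - (w 3 + w 4 + w 5)))
          y1 (y1 + y2 + y3 + u1) (y1 + y2 + y3 + u2) (y1 + y2 + y3 + u3)
        + r1 * cfun Q t s 0 0 0 (w 2 - (w 3 + w 4 + w 5))
          (-((y1 + y2 + y3 + u3) * (w 0 - (w 3 + w 4 + w 5))))
          y1 (y1 + y2 + y3 + u1) (y1 + y2 + y3 + u2) (y1 + y2 + y3 + u3) := by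
  rw [MULF_sq6, COREF_add, COREF_smul, COREF_add, COREF_smul, COREF_sq6, COREF_sq6, COREF_sq6]
  congr 1
  · congr 1
    · congr 1 <;> simp <;> ring
    · congr 1
      congr 1 <;> simp <;> ring
  · congr 1
    congr 1 <;> simp <;> ring

theorem MULF_eq (p q r t : ℝ) (f : F6) (y1 y2 y3 u1 u2 u3 : ℝ) :
    MULF p q r t f y1 y2 y3 u1 u2 u3 =
    f (y1 + q * (u1 - u3) + r * (u1 - u2))
        (y2 + p * (u2 - u3) - r * (u1 - u2)) (y3 - p * (u2 - u3) - q * (u1 - u3)) u1 u2 u3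
      + p * f 0 (y1 + y2 + y3 + u3) (-(y1 + y2 + y3 + u2))
          (u2 - u3) (u2 - u3) (u2 - u3)
      + q * f (-(y1 + y2 + y3 + u3)) 0 (y1 + y2 + y3 + u1)
          (u3 - u1) (u3 - u1) (u3 - u1)
      + r * f (y1 + y2 + y3 + u2) (-(y1 + y2 + y3 + u1)) 0
          (u1 - u2) (u1 - u2) (u1 - u2)
      - t * f (u2 - u3) (u3 - u1) (u1 - u2) 0 0 0 := rfl

theorem ELIMF_sq6_nonneg (QA al be t QB al' be' s kap : ℝ) (hk : kap * (QA + QB) = 4 * t * s)
    (hpsi : ∀ th g2 g3 h2 h3 n1 n2 n3 k1 k2 k3 m l : ℝ,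
      0 ≤ PSI QA al be t QB al' be' s kap th g2 g3 h2 h3 n1 n2 n3 k1 k2 k3 m l)
    (w : Fin 6 → ℝ) (y1 y2 y3 u1 u2 u3 : ℝ) :
    0 ≤ ELIMF al be (QA + QB) t al' be' s (sq6 w) y1 y2 y3 u1 u2 u3 := by
  have key := key_nonneg QA al be t QB al' be' s kap (w 0 - (w 3 + w 4 + w 5))
    (-(w 1 - (w 3 + w 4 + w 5))) (-(w 2 - (w 3 + w 4 + w 5)))
    (w 0 - w 4 - w 5 + al * (w 0 - w 1) + al' * (w 0 - w 2))
    ((y2 - be * (u1 - u2)) * (w 1 - (w 3 + w 4 + w 5))
      + (y3 - be' * (u1 - u3)) * (w 2 - (w 3 + w 4 + w 5))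
      + (y1 + y2 + y3 + u2) * (w 4 - al * (w 0 - w 1))
      + (y1 + y2 + y3 + u3) * (w 5 - al' * (w 0 - w 2)))
    (y1 + be * (u1 - u2) + be' * (u1 - u3)) (y1 + y2 + y3 + u1) (y1 + y2 + y3 + u2)
    (y1 + y2 + y3 + u3) hk hpsi
  refine le_of_le_of_eq key ?_
  have hG := fun z1 z2 z3 v1 v2 v3 : ℝ =>
    COREF_MULF_sq6 (QA + QB) t s al' al w z1 z2 z3 v1 v2 v3
  unfold ELIMF
  rw [MULF_eq, hG, hG, hG, hG, hG]
  simp only [zero_mul, add_zero, sub_zero]
  rw [add_right_comm _ (be' * _) (be * _)]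
  refine congrArg₂ (· + ·) (congrArg₂ (· + ·) (congrArg₂ (· + ·) (congrArg₂ (· + ·) ?_ ?_) ?_) ?_) ?_
  · exact cfun_congr rfl rfl rfl rfl (by ring) (by ring) (by ring) (by ring) (by ring)
  · refine congrArg₂ (· * ·) rfl ?_
    exact cfun_congr rfl rfl rfl rfl (by ring) (by ring) (by ring) (by ring) (by ring)
  · refine congrArg₂ (· * ·) rfl ?_
    exact cfun_congr rfl rfl rfl (by ring) (by ring) (by ring) (by ring) (by ring) (by ring)
  · refine congrArg₂ (· * ·) rfl ?_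
    refine congrArg₂ (· + ·) (congrArg₂ (· + ·) ?_ ?_) ?_
    · exact cfun_congr rfl rfl rfl rfl (by ring) (by ring) (by ring) (by ring) (by ring)
    · refine congrArg₂ (· * ·) rfl ?_
      exact cfun_congr rfl rfl rfl rfl (by ring) (by ring) (by ring) (by ring) (by ring)
    · refine congrArg₂ (· * ·) rfl ?_
      exact cfun_congr rfl rfl rfl (by ring) (by ring) (by ring) (by ring) (by ring) (by ring)
  · refine congrArg₂ (· * ·) rfl ?_
    refine congrArg₂ (· + ·) (congrArg₂ (· + ·) ?_ ?_) ?_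
    · exact cfun_congr rfl rfl rfl rfl (by ring) (by ring) (by ring) (by ring) (by ring)
    · refine congrArg₂ (· * ·) rfl ?_
      exact cfun_congr rfl rfl rfl rfl (by ring) (by ring) (by ring) (by ring) (by ring)
    · refine congrArg₂ (· * ·) rfl ?_
      exact cfun_congr rfl rfl rfl (by ring) (by ring) (by ring) (by ring) (by ring) (by ring)

end Pool.Agent.MP_d90615.T3
end

section

/-! # The cone `InO` satisfies the interface, given the scalar inequality -/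

set_option autoImplicit false

namespace Pool.Agent.MP_d90615.T3

open St

theorem InO.pairNonneg {v w : Bv} (hv : InO v) (hw : InO w) : 0 ≤ pair v w := by
  obtain ⟨a1, a2, a3, n1, n2, n3, ha, h⟩ := hv
  obtain ⟨b1, b2, b3, m1, m2, m3, hb, h'⟩ := hw
  exact OG_pair ha h h'

/-- The statement of the scalar inequality. -/
def PsiStmt : Prop :=
  ∀ QA al be t QB al' be' s kap : ℝ, Ok QA be al t → Ok QB be' al' s →
    kap * (QA + QB) = 4 * t * s → kap = 4 * t * s / (QA + QB) →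
    ∀ th g2 g3 h2 h3 n1 n2 n3 k1 k2 k3 m l : ℝ,
      0 ≤ PSI QA al be t QB al' be' s kap th g2 g3 h2 h3 n1 n2 n3 k1 k2 k3 m l

theorem InO.elim (hpsi : PsiStmt) {p1 p2 p3 t r1 r2 r3 s : ℝ} (H : Ok p2 p3 p1 t)
    (H' : Ok r2 r3 r1 s) {v : Bv} (hv : InO v) :
    InO (lift (T3.elim p1 p2 p3 t r1 r2 r3 s) v) := by
  obtain ⟨a1, a2, a3, n1, n2, n3, ha, h⟩ := hv
  obtain ⟨b1, b2, b3, m1, m2, m3, hb, e⟩ :=
    OG_elim v p1 p2 p3 t r1 r2 r3 s a1 a2 a3 n1 n2 n3 ha
  refine ⟨b1, b2, b3, m1, m2, m3, hb, fun y1 y2 y3 u1 u2 u3 => ?_⟩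
  rw [e]
  have HA : Ok p3 p2 p1 t := H.swap.cyc
  have HB : Ok r3 r2 r1 s := H'.swap.cyc
  have hk : 4 * t * s / (p3 + r3) * (p3 + r3) = 4 * t * s := by
    rcases eq_or_lt_of_le (add_nonneg HA.n1 HB.n1) with h0 | h0
    · have h3 : p3 = 0 := by linarith [HA.n1, HB.n1]
      have ht : t = 0 := by
        have := HA.le
        rw [h3] at this
        have h4 : t * t ≤ 0 := by
          nlinarith [mul_nonneg HA.nh (mul_nonneg HA.n2 HA.n3)]
        exact mul_self_eq_zero.mp (le_antisymm h4 (mul_self_nonneg t))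
      rw [ht]; simp
    · exact div_mul_cancel₀ _ h0.ne'
  obtain ⟨m, w, hw⟩ := OG_repr h
  have hf : OG v a1 a2 a3 n1 n2 n3
      = fun x1 x2 x3 x4 x5 x6 => ∑ k, sq6 (w k) x1 x2 x3 x4 x5 x6 := by
    funext x1 x2 x3 x4 x5 x6
    rw [hw]; rfl
  rw [hf]
  refine ELIMF_sum p1 p2 (p3 + r3) t r1 r2 s y1 y2 y3 u1 u2 u3 (fun w' => ?_) m w
  exact ELIMF_sq6_nonneg p3 p1 p2 t r3 r1 r2 s (4 * t * s / (p3 + r3)) hk
    (hpsi p3 p1 p2 t r3 r1 r2 s _ HA HB hk rfl) w' y1 y2 y3 u1 u2 u3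

theorem good_KO (hpsi : PsiStmt) : T3.Good KO :=
  good_O (fun _ _ => InO.pairNonneg) (fun _ _ _ _ _ _ _ _ H H' _ hv => InO.elim hpsi H H' hv)

end Pool.Agent.MP_d90615.T3
end

section

/-! # The cone `InO` satisfies the interface -/

set_option autoImplicit false

namespace Pool.Agent.MP_d90615.T3

theorem PSI_eq (QA al be t QB al' be' s kap th g2 g3 h2 h3 n1 n2 n3 k1 k2 k3 m l : ℝ) :
    PSI QA al be t QB al' be' s kap th g2 g3 h2 h3 n1 n2 n3 k1 k2 k3 m l
      = PsiF QA al be t QB al' be' s kap th g2 g3 h2 h3 n1 n2 n3 k1 k2 k3 m l := by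
  unfold PSI PsiF; ring

theorem psiStmt : PsiStmt := by
  intro QA al be t QB al' be' s kap hA hB _ hk th g2 g3 h2 h3 n1 n2 n3 k1 k2 k3 m l
  rw [PSI_eq, hk]
  exact psi_nonneg hA hB th g2 g3 h2 h3 n1 n2 n3 k1 k2 k3 m l

/-- The cone is closed under all operations and pairs nonnegatively with itself. -/
theorem good : T3.Good KO := good_KO psiStmt

end Pool.Agent.MP_d90615.T3
end
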