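import Mathlib
import Pool.Agent.Lib.MP_d90615_co.Mg.G021
import Pool.Agent.Lib.MP_d90615_co.Cycle
import Pool.Agent.Lib.MP_d90615_co.CL.Fam

section

/-!
Two marked edges in different parts of one bag.
-/

set_option autoImplicit false
set_option linter.unusedSectionVars false

namespace Pool.Agent.T3

open Finset Pool.Agent.Lib.MP_d90615_co Pool.Agent.CL
open scoped Classical

variable {V E : Type*} {ends : E → Sym2 V} {v a b x : V} {S : V → Prop} {Dv : Finset E}
  {att : E → Finset V} {pt : E → Finset E}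

lemma Bag.aux (h : Bag ends v a b x S Dv att pt) {e : E} (he : e ∈ Dv) :
    ∀ g ∈ Dv, ∀ g', ∀ y, S y → y ∈ ends g → y ∈ ends g' →
      (g ∈ pt e ↔ g' ∈ pt e) ∧ att g' = att g := by
  intro g hg g' y hS hy hy'
  have h1 := h.inn g hg g' y hS hy hy'
  have h2 := h.pt_att g hg g' h1
  refine ⟨⟨fun h3 => ?_, fun h3 => ?_⟩, h2.2⟩
  · have h4 := h.pt_att e he g h3
    rw [h4.1] at h1
    exact h1
  · have h4 := h.pt_att e he g' h3
    rw [← h4.1, h2.1]
    exact h.self g hg

lemma Bag.disj (h : Bag ends v a b x S Dv att pt) {e f : E} (he : e ∈ Dv) (hf : f ∈ Dv)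
    (hne : f ∉ pt e) : Disjoint (pt e) (pt f) := by
  rw [Finset.disjoint_left]
  intro g hg hg'
  have h1 := h.pt_att e he g hg
  have h2 := h.pt_att f hf g hg'
  have h3 := h.self f hf
  rw [← h2.1, h1.1] at h3
  exact hne h3

variable {K : (Fin 5 → ℝ) → (Fin 5 → ℝ) → Prop} {one : Prop} (hK : GoodW one K) {w : E → ℝ}

include hK

/-- The conclusion: the inequality for the four total weights. -/
def NCZ (ends : E → Sym2 V) (w : E → ℝ) [Fintype E] (e f : E) : Prop :=
  P ends (Function.update (Function.update w e 1) f 1) univ [] *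
      P ends (Function.update (Function.update w e 0) f 0) univ [] ≤
    P ends (Function.update (Function.update w e 1) f 0) univ [] *
      P ends (Function.update (Function.update w e 0) f 1) univ []

lemma bagB_same [Fintype V] [Fintype E] (hw : ∀ g, 0 ≤ w g)
    (h : Bag ends v a b x S Dv att pt)
    (hva : v ≠ a) (hvb : v ≠ b) (hab : a ≠ b)
    {e f : E} (he : e ∈ Dv) (hf : f ∈ Dv) (hef : f ∉ pt e)
    (hatte : ∀ y ∈ att e, y = a ∨ y = b) (hattf : ∀ y ∈ att f, y = a ∨ y = b)
    (hme : KM K ends w (pt e) e v a b) (hmf : KM K ends w (pt f) f v a b) :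
    NCZ ends w e f := by
  have hd := h.disj he hf hef
  -- everything outside `pt e`
  have key : ∀ e ∈ Dv, (∀ y ∈ att e, y = a ∨ y = b) → ∀ g ∈ pt e, ∀ f, f ∉ pt e →
      ∀ y, y ∈ ends g → y ∈ ends f → y = v ∨ y = a ∨ y = b := by
    intro e he hatt g hg f hf y hy hy'
    have hgD := h.pt_sub e he hg
    by_cases hS : S y
    · exact absurd (((h.aux he g hgD f y hS hy hy').1).mp hg) hf
    · rcases h.out g hgD y hy hS with h1 | h1
      · exact Or.inl h1
      · rw [(h.pt_att e he g hg).2] at h1
        exact Or.inr (hatt y h1)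
  set A : Finset E := (univ \ pt e) \ pt f with hA
  have dA : Disjoint (pt f) A := Finset.disjoint_sdiff
  have k1 : KM K ends w (pt f ∪ A) f v a b :=
    KM.mul hK hw (h.self f hf) dA hva hab hvb (fun g hg z hz y hy hy' =>
      key f hf hattf g hg z (Finset.mem_sdiff.mp hz).2 y hy hy') hmf
  have hun : pt f ∪ A = univ \ pt e := by
    rw [hA]
    refine Finset.union_sdiff_of_subset ?_
    intro g hg
    rw [mem_sdiff]
    exact ⟨mem_univ _, fun h' => (Finset.disjoint_left.mp hd h') hg⟩
  rw [hun] at k1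
  have k2 := KM.pair hK (h.self e he) (D' := univ \ pt e) (f := f)
    (mem_sdiff.mpr ⟨mem_univ _, hef⟩) Finset.disjoint_sdiff hva hab hvb
    (fun g hg z hz y hy hy' => key e he hatte g hg z (mem_sdiff.mp hz).2 y hy hy') hme k1
  rwa [Finset.union_sdiff_of_subset (Finset.subset_univ _)] at k2

lemma bagB_diff [Fintype V] [Fintype E] (hw : ∀ g, 0 ≤ w g)
    (h : Bag ends v a b x S Dv att pt)
    (hva : v ≠ a) (hvb : v ≠ b) (hvx : v ≠ x) (hab : a ≠ b) (hbx : b ≠ x) (hax : a ≠ x)
    (hSv : ¬ S v) (hSa : ¬ S a) (hSb : ¬ S b) (hSx : ¬ S x)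
    {e f : E} (he : e ∈ Dv) (hf : f ∈ Dv) (hef : f ∉ pt e)
    (hatte : ∀ y ∈ att e, y = a ∨ y = b) (hattf : ∀ y ∈ att f, y = a ∨ y = x)
    (hone : one → ∀ g ∈ Dv, (∀ y ∈ att g, y = a ∨ y = b) ∨ ∀ y ∈ att g, y = a ∨ y = x)
    (hme : KM K ends w (pt e) e v a b) (hmf : KM K ends w (pt f) f v a x) :
    NCZ ends w e f := by
  have hd := h.disj he hf hef
  set A0 : Finset E := Dv.filter fun g => g ∉ pt e ∧ g ∉ pt f ∧ ∀ y ∈ att g, y = a ∨ y = b
    with hA0
  set A1 : Finset E := Dv.filter fun g => g ∉ pt e ∧ g ∉ pt f ∧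
    (¬ ∀ y ∈ att g, y = a ∨ y = b) ∧ ∀ y ∈ att g, y = a ∨ y = x with hA1
  set A2 : Finset E := Dv.filter fun g => g ∉ pt e ∧ g ∉ pt f ∧
    (¬ ∀ y ∈ att g, y = a ∨ y = b) ∧ ¬ ∀ y ∈ att g, y = a ∨ y = x with hA2
  set O : Finset E := univ \ Dv with hO
  have mA0 : ∀ g, g ∈ A0 ↔ g ∈ Dv ∧ g ∉ pt e ∧ g ∉ pt f ∧ ∀ y ∈ att g, y = a ∨ y = b := by
    intro g
    rw [hA0, mem_filter]
  have mA1 : ∀ g, g ∈ A1 ↔ g ∈ Dv ∧ g ∉ pt e ∧ g ∉ pt f ∧ (¬ ∀ y ∈ att g, y = a ∨ y = b) ∧
      ∀ y ∈ att g, y = a ∨ y = x := by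
    intro g
    rw [hA1, mem_filter]
  have mA2 : ∀ g, g ∈ A2 ↔ g ∈ Dv ∧ g ∉ pt e ∧ g ∉ pt f ∧ (¬ ∀ y ∈ att g, y = a ∨ y = b) ∧
      ¬ ∀ y ∈ att g, y = a ∨ y = x := by
    intro g
    rw [hA2, mem_filter]
  have mO : ∀ g, g ∈ O ↔ g ∉ Dv := by
    intro g
    rw [hO, mem_sdiff]
    simp
  have hpe : pt e ⊆ Dv := h.pt_sub e he
  have hpf : pt f ⊆ Dv := h.pt_sub f hf
  have atte : ∀ g ∈ pt e, ∀ y ∈ att g, y = a ∨ y = b := by
    intro g hg y hy
    rw [(h.pt_att e he g hg).2] at hy
    exact hatte y hy
  have attf : ∀ g ∈ pt f, ∀ y ∈ att g, y = a ∨ y = x := by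
    intro g hg y hy
    rw [(h.pt_att f hf g hg).2] at hy
    exact hattf y hy
  have t2 : ∀ g ∈ A2, ∀ y ∈ att g, y = b ∨ y = x := by
    intro g hg
    have hg' := (mA2 g).mp hg
    exact h.third hg'.1 hg'.2.2.2.1 hg'.2.2.2.2 hab hax
  -- `e` and the parts on `a, b`
  have d0 : Disjoint (pt e) A0 := by
    rw [Finset.disjoint_left]
    intro g hg hg'
    exact ((mA0 g).mp hg').2.1 hg
  have k0 : KM K ends w (pt e ∪ A0) e v a b := by
    refine KM.mul hK hw (h.self e he) d0 hva hab hvb ?_ hme
    intro g hg z hz y hy hy'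
    have hz' := (mA0 z).mp hz
    by_cases hS : S y
    · exact absurd (((h.aux he g (hpe hg) z y hS hy hy').1).mp hg) hz'.2.1
    · rcases h.out g (hpe hg) y hy hS with h1 | h1
      · exact Or.inl h1
      · exact Or.inr (atte g hg y h1)
  have hD0 : ∀ g ∈ pt e ∪ A0, g ∈ Dv ∧ g ∉ pt f ∧ ∀ y ∈ att g, y = a ∨ y = b := by
    intro g hg
    rcases mem_union.mp hg with hg | hg
    · exact ⟨hpe hg, fun h' => (Finset.disjoint_left.mp hd hg) h', atte g hg⟩
    · exact ⟨((mA0 g).mp hg).1, ((mA0 g).mp hg).2.2.1, ((mA0 g).mp hg).2.2.2⟩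
  -- eliminate `b`, new terminal `x`
  have d1 : Disjoint (pt e ∪ A0) (O ∪ A2) := by
    rw [Finset.disjoint_left]
    intro g hg hg'
    rcases mem_union.mp hg' with h1 | h1
    · exact ((mO g).mp h1) (hD0 g hg).1
    · exact ((mA2 g).mp h1).2.2.2.1 (hD0 g hg).2.2
  have d2 : Disjoint O A2 := by
    rw [Finset.disjoint_left]
    intro g hg hg'
    exact ((mO g).mp hg) ((mA2 g).mp hg').1
  have k1 := KM.elim hK hw (D := pt e ∪ A0) (A := O) (A' := A2) (e := e)
    (mem_union_left _ (h.self e he)) d1 d2 (v := b) (b := a) (c := v) (d := x) hab.symm hvb.symm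
    hbx hva.symm hax hvx
    (by
      intro g hg z hz y hy hy'
      have hgD := hD0 g hg
      by_cases hS : S y
      · have h1 := h.inn g hgD.1 z y hS hy hy'
        have h2 := (h.aux he g hgD.1 z y hS hy hy').2
        have hzD := h.pt_sub g hgD.1 h1
        rcases mem_union.mp hz with hz | hz
        · exact absurd hzD ((mO z).mp hz)
        · exact absurd (fun q hq => hgD.2.2 q (h2 ▸ hq)) ((mA2 z).mp hz).2.2.2.1
      · rcases h.out g hgD.1 y hy hS with h1 | h1
        · exact Or.inr (Or.inr h1)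
        · rcases hgD.2.2 y h1 with h2 | h2
          · exact Or.inr (Or.inl h2)
          · exact Or.inl h2)
    (by
      intro g hg hy
      have hgD := hD0 g hg
      rcases h.out g hgD.1 x hy hSx with h1 | h1
      · exact hvx h1.symm
      · rcases hgD.2.2 x h1 with h2 | h2
        · exact hax h2.symm
        · exact hbx h2.symm)
    (by
      intro z hz g hg y hy' hy
      have hg' := (mA2 g).mp hg
      have hz' := (mO z).mp hz
      have h1 := h.outer z hz' y hy'
      rcases h.out g hg'.1 y hy h1.1 with h2 | h2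
      · exact absurd h2 h1.2
      · rcases t2 g hg y h2 with h3 | h3
        · exact Or.inl h3
        · exact Or.inr (Or.inr h3))
    (by
      intro g hg hy
      exact (h.outer g ((mO g).mp hg) v hy).2 rfl)
    (by
      intro g hg hy
      have hg' := (mA2 g).mp hg
      rcases h.out g hg'.1 a hy hSa with h1 | h1
      · exact hva h1.symm
      · rcases t2 g hg a h1 with h2 | h2
        · exact hab h2
        · exact hax h2)
    (by
      intro ho
      rw [Finset.eq_empty_iff_forall_notMem]
      intro g hg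
      have hg' := (mA2 g).mp hg
      rcases hone ho g hg'.1 with h1 | h1
      · exact hg'.2.2.2.1 h1
      · exact hg'.2.2.2.2 h1)
    ((k0.rot hK).swap hK)
  rw [Finset.union_comm O A2] at k1
  -- the side of `f`
  have d3 : Disjoint (pt f) A1 := by
    rw [Finset.disjoint_left]
    intro g hg hg'
    exact ((mA1 g).mp hg').2.2.1 hg
  have k2 : KM K ends w (pt f ∪ A1) f v a x := by
    refine KM.mul hK hw (h.self f hf) d3 hva hax hvx ?_ hmf
    intro g hg z hz y hy hy'
    have hz' := (mA1 z).mp hz
    by_cases hS : S y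
    · exact absurd (((h.aux hf g (hpf hg) z y hS hy hy').1).mp hg) hz'.2.2.1
    · rcases h.out g (hpf hg) y hy hS with h1 | h1
      · exact Or.inl h1
      · exact Or.inr (attf g hg y h1)
  -- everything
  have hF : ∀ g ∈ pt f ∪ A1, g ∈ Dv ∧ ∀ y ∈ att g, y = a ∨ y = x := by
    intro g hg
    rcases mem_union.mp hg with hg | hg
    · exact ⟨hpf hg, attf g hg⟩
    · exact ⟨((mA1 g).mp hg).1, ((mA1 g).mp hg).2.2.2.2⟩
  have hun : (pt e ∪ A0 ∪ (A2 ∪ O)) ∪ (pt f ∪ A1) = univ := by
    rw [Finset.eq_univ_iff_forall]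
    intro g
    rw [mem_union, mem_union, mem_union, mem_union, mem_union, mA0, mA1, mA2, mO]
    by_cases hgD : g ∈ Dv
    · by_cases h1 : g ∈ pt e
      · exact Or.inl (Or.inl (Or.inl h1))
      · by_cases h1' : g ∈ pt f
        · exact Or.inr (Or.inl h1')
        · by_cases h2 : ∀ y ∈ att g, y = a ∨ y = b
          · exact Or.inl (Or.inl (Or.inr ⟨hgD, h1, h1', h2⟩))
          · by_cases h3 : ∀ y ∈ att g, y = a ∨ y = x
            · exact Or.inr (Or.inr ⟨hgD, h1, h1', h2, h3⟩)
            · exact Or.inl (Or.inr (Or.inl ⟨hgD, h1, h1', h2, h3⟩))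
    · exact Or.inl (Or.inr (Or.inr hgD))
  have hdis : ∀ g ∈ pt f ∪ A1, g ∉ pt e ∪ A0 ∪ (A2 ∪ O) := by
    intro g hg hg'
    rcases mem_union.mp hg with h1 | h1
    · rcases mem_union.mp hg' with h2 | h2
      · exact (hD0 g h2).2.1 h1
      · rcases mem_union.mp h2 with h3 | h3
        · exact ((mA2 g).mp h3).2.2.1 h1
        · exact ((mO g).mp h3) (hpf h1)
    · have h1' := (mA1 g).mp h1
      rcases mem_union.mp hg' with h2 | h2
      · exact h1'.2.2.2.1 (hD0 g h2).2.2
      · rcases mem_union.mp h2 with h3 | h3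
        · exact ((mA2 g).mp h3).2.2.2.2 h1'.2.2.2.2
        · exact ((mO g).mp h3) h1'.1
  have d4 : Disjoint (pt e ∪ A0 ∪ (A2 ∪ O)) (pt f ∪ A1) := by
    rw [Finset.disjoint_left]
    intro g hg hg'
    exact hdis g hg' hg
  have k3 := KM.pair hK (D := pt e ∪ A0 ∪ (A2 ∪ O)) (D' := pt f ∪ A1) (e := e) (f := f)
    (mem_union_left _ (mem_union_left _ (h.self e he))) (mem_union_left _ (h.self f hf)) d4
    (a := v) (b := a) (x := x) hva hax hvx
    (by
      intro z hz g hg y hy' hy
      by_cases hS : S y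
      · exfalso
        have hgD := (hF g hg).1
        have h1 := h.inn g hgD z y hS hy hy'
        have hzD := h.pt_sub g hgD h1
        have h2 := h.aux he g hgD z y hS hy hy'
        have h3 := h.aux hf g hgD z y hS hy hy'
        rcases mem_union.mp hg with h4 | h4
        · exact hdis z (mem_union_left _ (h3.1.mp h4)) hz
        · have h5 := (mA1 g).mp h4
          refine hdis z (mem_union_right _ ((mA1 z).mpr ⟨hzD, fun h6 => h5.2.1 (h2.1.mpr h6),
            fun h6 => h5.2.2.1 (h3.1.mpr h6), ?_, ?_⟩)) hz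
          · intro h6
            exact h5.2.2.2.1 fun q hq => h6 q (by rw [h2.2]; exact hq)
          · intro q hq
            rw [h2.2] at hq
            exact h5.2.2.2.2 q hq
      · rcases h.out g (hF g hg).1 y hy hS with h1 | h1
        · exact Or.inl h1
        · exact Or.inr ((hF g hg).2 y h1))
    ((k1.rot hK).swap hK) k2
  rwa [hun] at k3

/-- **Two marks in a bag.** -/
theorem bagB [Fintype V] [Fintype E] (hw : ∀ g, 0 ≤ w g)
    (h : Bag ends v a b x S Dv att pt)
    (hva : v ≠ a) (hvb : v ≠ b) (hvx : v ≠ x) (hab : a ≠ b) (hbx : b ≠ x) (hax : a ≠ x)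
    (hSv : ¬ S v) (hSa : ¬ S a) (hSb : ¬ S b) (hSx : ¬ S x)
    (hone : one → ∃ y, ∀ g ∈ Dv, 2 ≤ (att g).card → y ∈ att g)
    {e f : E} (he : e ∈ Dv) (hf : f ∈ Dv) (hef : f ∉ pt e)
    (hme : ∀ p q, p ≠ q → (p = a ∨ p = b ∨ p = x) → (q = a ∨ q = b ∨ q = x) →
      (∀ y ∈ att e, y = p ∨ y = q) → KM K ends w (pt e) e v p q)
    (hmf : ∀ p q, p ≠ q → (p = a ∨ p = b ∨ p = x) → (q = a ∨ q = b ∨ q = x) →
      (∀ y ∈ att f, y = p ∨ y = q) → KM K ends w (pt f) f v p q) :
    NCZ ends w e f := by
  by_cases ho : one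
  · have main : ∀ a b x : V, Bag ends v a b x S Dv att pt → v ≠ a → v ≠ b → v ≠ x → a ≠ b →
        b ≠ x → a ≠ x → ¬ S a → ¬ S b → ¬ S x →
        (∀ p q, p ≠ q → (p = a ∨ p = b ∨ p = x) → (q = a ∨ q = b ∨ q = x) →
          (∀ y ∈ att e, y = p ∨ y = q) → KM K ends w (pt e) e v p q) →
        (∀ p q, p ≠ q → (p = a ∨ p = b ∨ p = x) → (q = a ∨ q = b ∨ q = x) →
          (∀ y ∈ att f, y = p ∨ y = q) → KM K ends w (pt f) f v p q) →
        (∀ g ∈ Dv, 2 ≤ (att g).card → a ∈ att g) → NCZ ends w e f := by
      intro a b x h hva hvb hvx hab hbx hax hSa hSb hSx hme hmf hY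
      have sp := h.split hab hax hY
      rcases sp e he with h1 | h1
      · have m1 := hme a b hab (Or.inl rfl) (Or.inr (Or.inl rfl)) h1
        rcases sp f hf with h2 | h2
        · exact bagB_same hK hw h hva hvb hab he hf hef h1 h2 m1
            (hmf a b hab (Or.inl rfl) (Or.inr (Or.inl rfl)) h2)
        · exact bagB_diff hK hw h hva hvb hvx hab hbx hax hSv hSa hSb hSx he hf hef h1 h2
            (fun _ => sp) m1 (hmf a x hax (Or.inl rfl) (Or.inr (Or.inr rfl)) h2)
      · have m1 := hme a x hax (Or.inl rfl) (Or.inr (Or.inr rfl)) h1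
        rcases sp f hf with h2 | h2
        · exact bagB_diff hK hw h.perm1 hva hvx hvb hax hbx.symm hab hSv hSa hSx hSb he hf hef h1
            h2 (fun _ g hg => (sp g hg).symm) m1 (hmf a b hab (Or.inl rfl) (Or.inr (Or.inl rfl)) h2)
        · exact bagB_same hK hw h.perm1 hva hvx hax he hf hef h1 h2 m1
            (hmf a x hax (Or.inl rfl) (Or.inr (Or.inr rfl)) h2)
    rcases h.y_cases (hone ho) with hY | hY | hY
    · exact main a b x h hva hvb hvx hab hbx hax hSa hSb hSx hme hmf hY
    · exact main b a x h.perm2 hvb hva hvx hab.symm hax hbx hSb hSa hSx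
        (fun p q hpq hp hq hy => hme p q hpq (by tauto) (by tauto) hy)
        (fun p q hpq hp hq hy => hmf p q hpq (by tauto) (by tauto) hy) hY
    · exact main x a b h.perm1.perm2 hvx hva hvb hax.symm hab hbx.symm hSx hSa hSb
        (fun p q hpq hp hq hy => hme p q hpq (by tauto) (by tauto) hy)
        (fun p q hpq hp hq hy => hmf p q hpq (by tauto) (by tauto) hy) hY
  -- first the case that `e` is attached to `a, b`
  have main : ∀ a b x : V, Bag ends v a b x S Dv att pt → v ≠ a → v ≠ b → v ≠ x → a ≠ b →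
      b ≠ x → a ≠ x → ¬ S a → ¬ S b → ¬ S x →
      (∀ p q, p ≠ q → (p = a ∨ p = b ∨ p = x) → (q = a ∨ q = b ∨ q = x) →
        (∀ y ∈ att e, y = p ∨ y = q) → KM K ends w (pt e) e v p q) →
      (∀ p q, p ≠ q → (p = a ∨ p = b ∨ p = x) → (q = a ∨ q = b ∨ q = x) →
        (∀ y ∈ att f, y = p ∨ y = q) → KM K ends w (pt f) f v p q) →
      (∀ y ∈ att e, y = a ∨ y = b) → NCZ ends w e f := by
    intro a b x h hva hvb hvx hab hbx hax hSa hSb hSx hme hmf h1
    have m1 := hme a b hab (Or.inl rfl) (Or.inr (Or.inl rfl)) h1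
    by_cases h2 : ∀ y ∈ att f, y = a ∨ y = b
    · exact bagB_same hK hw h hva hvb hab he hf hef h1 h2 m1
        (hmf a b hab (Or.inl rfl) (Or.inr (Or.inl rfl)) h2)
    · by_cases h3 : ∀ y ∈ att f, y = a ∨ y = x
      · exact bagB_diff hK hw h hva hvb hvx hab hbx hax hSv hSa hSb hSx he hf hef h1 h3
          (fun h' => absurd h' ho) m1 (hmf a x hax (Or.inl rfl) (Or.inr (Or.inr rfl)) h3)
      · have h4 := h.third hf h2 h3 hab hax
        have h1' : ∀ y ∈ att e, y = b ∨ y = a := fun y hy => (h1 y hy).symm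
        exact bagB_diff hK hw h.perm2 hvb hva hvx hab.symm hax hbx hSv hSb hSa hSx he hf hef h1'
          h4 (fun h' => absurd h' ho) (hme b a hab.symm (Or.inr (Or.inl rfl)) (Or.inl rfl) h1')
          (hmf b x hbx (Or.inr (Or.inl rfl)) (Or.inr (Or.inr rfl)) h4)
  by_cases h1 : ∀ y ∈ att e, y = a ∨ y = b
  · exact main a b x h hva hvb hvx hab hbx hax hSa hSb hSx hme hmf h1
  · by_cases h2 : ∀ y ∈ att e, y = a ∨ y = x
    · exact main a x b h.perm1 hva hvx hvb hax hbx.symm hab hSa hSx hSb
        (fun p q hpq hp hq hy => hme p q hpq (by tauto) (by tauto) hy)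
        (fun p q hpq hp hq hy => hmf p q hpq (by tauto) (by tauto) hy) h2
    · have h3 := h.third he h1 h2 hab hax
      exact main b x a h.perm2.perm1 hvb hvx hva hbx hax.symm hab.symm hSb hSx hSa
        (fun p q hpq hp hq hy => hme p q hpq (by tauto) (by tauto) hy)
        (fun p q hpq hp hq hy => hmf p q hpq (by tauto) (by tauto) hy) h3

end Pool.Agent.T3
end

section

/-!
Elimination orders of width three.
-/

set_option autoImplicit false
set_option linter.unusedSectionVars false

namespace Pool.Agent.T3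

open Finset Pool.Agent.Lib.MP_d90615_co Pool.Agent.CL
open scoped Classical

variable {V E : Type*}

/-- `r` orders the vertices, `P v` contains at most three later vertices; the sets `P v` are
cliques of the completed graph; every edge `uv` with `u` before `v` has `v ∈ P u`. -/
structure Ord3 (ends : E → Sym2 V) (r : V → ℕ) (P : V → Finset V) : Prop where
  inj : Function.Injective r
  card : ∀ v, (P v).card ≤ 3
  later : ∀ v, ∀ u ∈ P v, r v < r u
  clique : ∀ v, ∀ u ∈ P v, ∀ x ∈ P v, r u < r x → x ∈ P u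
  edge : ∀ g u v, ends g = s(u, v) → r u < r v → v ∈ P u

/-- The parent of `w` is the first element of `P w`. -/
def Par (r : V → ℕ) (P : V → Finset V) (w u : V) : Prop := u ∈ P w ∧ ∀ x ∈ P w, r u ≤ r x

/-- `w` lies below `v`. -/
def Below (r : V → ℕ) (P : V → Finset V) : V → V → Prop := Relation.ReflTransGen (Par r P)

/-- The edges incident with a vertex below `v`. -/
noncomputable def Dv [Fintype E] (ends : E → Sym2 V) (r : V → ℕ) (P : V → Finset V) (v : V) :
    Finset E := univ.filter fun g => ∃ y ∈ ends g, Below r P y v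

variable {ends : E → Sym2 V} {r : V → ℕ} {P : V → Finset V}

lemma mem_Dv [Fintype E] {v : V} {g : E} : g ∈ Dv ends r P v ↔ ∃ y ∈ ends g, Below r P y v := by
  simp [Dv]

section

variable (h : Ord3 ends r P)
include h

lemma Ord3.par_lt {w u : V} (hp : Par r P w u) : r w < r u := h.later w u hp.1

lemma Ord3.below_le {w v : V} (hb : Below r P w v) : w = v ∨ r w < r v := by
  induction hb with
  | refl => exact Or.inl rfl
  | tail _ hp ih =>
    rcases ih with rfl | ih
    · exact Or.inr (h.par_lt hp)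
    · exact Or.inr (ih.trans (h.par_lt hp))

lemma Ord3.par_unique {w u u' : V} (h1 : Par r P w u) (h2 : Par r P w u') : u = u' :=
  h.inj (le_antisymm (h1.2 u' h2.1) (h2.2 u h1.1))

lemma Ord3.par_sub {w u : V} (hp : Par r P w u) {x : V} (hx : x ∈ P w) : x = u ∨ x ∈ P u := by
  by_cases hxu : x = u
  · exact Or.inl hxu
  · have h1 : r u < r x := lt_of_le_of_ne (hp.2 x hx) fun h' => hxu (h.inj h').symm
    exact Or.inr (h.clique w u hp.1 x hx h1)

lemma Ord3.below_P {w v : V} (hb : Below r P w v) {x : V} (hx : x ∈ P w) :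
    Below r P x v ∨ x ∈ P v := by
  revert x
  induction hb using Relation.ReflTransGen.head_induction_on with
  | refl => exact fun hx => Or.inr hx
  | head hp hb ih =>
    intro x hx
    rcases h.par_sub hp hx with rfl | h1
    · exact Or.inl hb
    · exact ih h1

lemma Ord3.below_of_mem {w u : V} (hu : u ∈ P w) : Below r P w u := by
  have key : ∀ n, ∀ w, r u - r w = n → u ∈ P w → Below r P w u := by
    intro n
    induction n using Nat.strong_induction_on with
    | _ n ih =>
      intro w hn hu
      obtain ⟨p, hp, hmin⟩ := Finset.exists_min_image (P w) r ⟨u, hu⟩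
      have hpar : Par r P w p := ⟨hp, hmin⟩
      rcases h.par_sub hpar hu with rfl | h1
      · exact Relation.ReflTransGen.single hpar
      · have h2 := h.par_lt hpar
        have h3 := h.later p u h1
        exact Relation.ReflTransGen.head hpar (ih (r u - r p) (by omega) p rfl h1)
  exact key _ w rfl hu

lemma Ord3.child_unique {w c c' v : V} (h1 : Below r P w c) (h2 : Below r P w c')
    (hc : Par r P c v) (hc' : Par r P c' v) : c = c' := by
  have U : Relator.RightUnique (Par r P) := fun a b c h1 h2 => h.par_unique h1 h2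
  have aux : ∀ c c', Par r P c v → Par r P c' v → Below r P c c' → c = c' := by
    intro c c' hc hc' hb
    rcases Relation.ReflTransGen.cases_head hb with rfl | ⟨d, hd, hb'⟩
    · rfl
    · have hdv := h.par_unique hd hc
      subst hdv
      rcases h.below_le hb' with h3 | h3
      · subst h3
        exact absurd (h.par_lt hc') (lt_irrefl _)
      · exact absurd (h3.trans (h.par_lt hc')) (lt_irrefl _)
  rcases Relation.ReflTransGen.total_of_right_unique U h1 h2 with h3 | h3
  · exact aux c c' hc hc' h3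
  · exact (aux c' c hc' hc h3).symm

/-- The ends of an edge. -/
lemma Ord3.ends_below {g : E} {y y' : V} (hg : ends g = s(y, y')) (hne : y ≠ y') {v : V}
    (hb : Below r P y' v) : Below r P y v ∨ y ∈ P v := by
  rcases lt_trichotomy (r y) (r y') with h1 | h1 | h1
  · exact Or.inl ((h.below_of_mem (h.edge g y y' hg h1)).trans hb)
  · exact absurd (h.inj h1) hne
  · exact h.below_P hb (h.edge g y' y (by rw [hg, Sym2.eq_swap]) h1)

end

lemma two_ends {g : E} (hloop : ∀ g, ¬ (ends g).IsDiag) {y y' : V} (hy : y ∈ ends g)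
    (hy' : y' ∈ ends g) (hne : y ≠ y') : ends g = s(y, y') :=
  ((Sym2.mem_and_mem_iff hne).mp ⟨hy, hy'⟩)

section

variable [Fintype E] (hloop : ∀ g, ¬ (ends g).IsDiag) (h : Ord3 ends r P)
include hloop h

lemma Dv_child_unique {g : E} {c c' v : V} (h1 : g ∈ Dv ends r P c) (h2 : g ∈ Dv ends r P c')
    (hc : Par r P c v) (hc' : Par r P c' v) : c = c' := by
  obtain ⟨y, hy, hb⟩ := mem_Dv.mp h1
  obtain ⟨y', hy', hb'⟩ := mem_Dv.mp h2
  by_cases hne : y = y'
  · subst hne
    exact h.child_unique hb hb' hc hc'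
  · have he := two_ends hloop hy hy' hne
    rcases lt_trichotomy (r y) (r y') with h3 | h3 | h3
    · exact h.child_unique hb ((h.below_of_mem (h.edge g y y' he h3)).trans hb') hc hc'
    · exact absurd (h.inj h3) hne
    · exact h.child_unique ((h.below_of_mem (h.edge g y' y (by rw [he, Sym2.eq_swap]) h3)).trans
        hb) hb' hc hc'

/-- An edge at a vertex below `v` has its other end below `v` or in `P v`. -/
lemma Dv_out {g : E} {v y : V} (hg : g ∈ Dv ends r P v) (hy : y ∈ ends g) :
    Below r P y v ∨ y ∈ P v := by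
  obtain ⟨y0, hy0, hb⟩ := mem_Dv.mp hg
  by_cases hne : y = y0
  · subst hne
    exact Or.inl hb
  · exact h.ends_below (two_ends hloop hy hy0 hne) hne hb

end

/-- The part of `g`. -/
noncomputable def ptO [Fintype E] (ends : E → Sym2 V) (r : V → ℕ) (P : V → Finset V) (v : V)
    (g : E) : Finset E :=
  if hc : ∃ c, Par r P c v ∧ g ∈ Dv ends r P c then Dv ends r P hc.choose else {g}

/-- The attachments of the part of `g`. -/
noncomputable def attO [Fintype V] [Fintype E] (ends : E → Sym2 V) (r : V → ℕ)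
    (P : V → Finset V) (v : V) (g : E) : Finset V :=
  if hc : ∃ c, Par r P c v ∧ g ∈ Dv ends r P c then (P hc.choose).erase v
  else univ.filter fun y => y ∈ ends g ∧ y ≠ v

section

variable [Fintype V] [Fintype E] (hloop : ∀ g, ¬ (ends g).IsDiag) (h : Ord3 ends r P)
include hloop h

lemma pt_child {g : E} {c v : V} (hc : Par r P c v) (hg : g ∈ Dv ends r P c) :
    ptO ends r P v g = Dv ends r P c ∧ attO ends r P v g = (P c).erase v := by
  have hex : ∃ c, Par r P c v ∧ g ∈ Dv ends r P c := ⟨c, hc, hg⟩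
  have h1 := hex.choose_spec
  have h2 : hex.choose = c := Dv_child_unique hloop h h1.2 hg h1.1 hc
  constructor
  · rw [ptO, dif_pos hex, h2]
  · rw [attO, dif_pos hex, h2]

omit h hloop in
lemma pt_own {g : E} {v : V} (hn : ¬ ∃ c, Par r P c v ∧ g ∈ Dv ends r P c) :
    ptO ends r P v g = {g} ∧ attO ends r P v g = univ.filter fun y => y ∈ ends g ∧ y ≠ v := by
  exact ⟨by rw [ptO, dif_neg hn], by rw [attO, dif_neg hn]⟩

/-- An own edge of `v`. -/
lemma own_edge {g : E} {v : V} (hg : g ∈ Dv ends r P v)
    (hn : ¬ ∃ c, Par r P c v ∧ g ∈ Dv ends r P c) : ∃ y, y ∈ P v ∧ y ≠ v ∧ ends g = s(v, y) := by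
  have hc : ∀ y ∈ ends g, Below r P y v → y = v := by
    intro y hy hb
    rcases Relation.ReflTransGen.cases_tail hb with h1 | ⟨c, hb', hp⟩
    · exact h1.symm
    · exact absurd ⟨c, hp, mem_Dv.mpr ⟨y, hy, hb'⟩⟩ hn
  obtain ⟨y0, hy0, hb⟩ := mem_Dv.mp hg
  have h0 := hc y0 hy0 hb
  subst h0
  obtain ⟨y, hy⟩ := Sym2.mem_iff_exists.mp hy0
  have hyg : y ∈ ends g := by rw [hy]; exact Sym2.mem_mk_right _ _
  have hne : y ≠ y0 := by
    rintro rfl
    exact hloop g (by rw [hy]; simp)
  refine ⟨y, ?_, hne, hy⟩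
  rcases Dv_out hloop h hg hyg with h1 | h1
  · exact absurd (hc y hyg h1) hne
  · exact h1

/-- The bag of `v`. -/
theorem bag_of {v a b x : V} (hP : ∀ y ∈ P v, y = a ∨ y = b ∨ y = x) :
    Bag ends v a b x (fun y => Below r P y v ∧ y ≠ v) (Dv ends r P v) (attO ends r P v)
      (ptO ends r P v) := by
  have child : ∀ y, Below r P y v → y ≠ v → ∃ c, Par r P c v ∧ Below r P y c := by
    intro y hb hne
    rcases Relation.ReflTransGen.cases_tail hb with h1 | ⟨c, hb', hp⟩
    · exact absurd h1.symm hne
    · exact ⟨c, hp, hb'⟩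
  refine ⟨?_, ?_, ?_, ?_, ?_, ?_, ?_, ?_⟩
  · -- out
    intro g hg y hy hS
    by_cases hc : ∃ c, Par r P c v ∧ g ∈ Dv ends r P c
    · obtain ⟨c, hp, hgc⟩ := hc
      rw [(pt_child hloop h hp hgc).2]
      by_cases hyv : y = v
      · exact Or.inl hyv
      · rcases Dv_out hloop h hgc hy with h1 | h1
        · exact absurd ⟨h1.tail hp, hyv⟩ hS
        · exact Or.inr (Finset.mem_erase.mpr ⟨hyv, h1⟩)
    · rw [(pt_own hc).2]
      by_cases hyv : y = v
      · exact Or.inl hyv
      · exact Or.inr (by simp [hy, hyv])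
  · -- inn
    intro g hg g' y hS hy hy'
    obtain ⟨c, hp, hb⟩ := child y hS.1 hS.2
    have hgc : g ∈ Dv ends r P c := mem_Dv.mpr ⟨y, hy, hb⟩
    rw [(pt_child hloop h hp hgc).1]
    exact mem_Dv.mpr ⟨y, hy', hb⟩
  · -- sub
    intro g hg y hy
    by_cases hc : ∃ c, Par r P c v ∧ g ∈ Dv ends r P c
    · obtain ⟨c, hp, hgc⟩ := hc
      rw [(pt_child hloop h hp hgc).2, Finset.mem_erase] at hy
      rcases h.par_sub hp hy.2 with h1 | h1
      · exact absurd h1 hy.1
      · exact hP y h1
    · rw [(pt_own hc).2, mem_filter] at hy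
      obtain ⟨z, hz, hzv, hgz⟩ := own_edge hloop h hg hc
      have h1 := hy.2.1
      rw [hgz, Sym2.mem_iff] at h1
      rcases h1 with h1 | h1
      · exact absurd h1 hy.2.2
      · rw [h1]
        exact hP z hz
  · -- crd
    intro g hg
    by_cases hc : ∃ c, Par r P c v ∧ g ∈ Dv ends r P c
    · obtain ⟨c, hp, hgc⟩ := hc
      rw [(pt_child hloop h hp hgc).2, Finset.card_erase_of_mem hp.1]
      have := h.card c
      omega
    · rw [(pt_own hc).2]
      obtain ⟨z, hz, hzv, hgz⟩ := own_edge hloop h hg hc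
      have h1 : (univ.filter fun y => y ∈ ends g ∧ y ≠ v) ⊆ {z} := by
        intro y hy
        rw [mem_filter, hgz, Sym2.mem_iff] at hy
        rw [mem_singleton]
        rcases hy.2.1 with h1 | h1
        · exact absurd h1 hy.2.2
        · exact h1
      exact (Finset.card_le_card h1).trans (by simp)
  · -- self
    intro g hg
    by_cases hc : ∃ c, Par r P c v ∧ g ∈ Dv ends r P c
    · obtain ⟨c, hp, hgc⟩ := hc
      rw [(pt_child hloop h hp hgc).1]
      exact hgc
    · rw [(pt_own hc).1]
      exact mem_singleton_self g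
  · -- pt_sub
    intro g hg
    by_cases hc : ∃ c, Par r P c v ∧ g ∈ Dv ends r P c
    · obtain ⟨c, hp, hgc⟩ := hc
      rw [(pt_child hloop h hp hgc).1]
      intro g' hg'
      obtain ⟨y, hy, hb⟩ := mem_Dv.mp hg'
      exact mem_Dv.mpr ⟨y, hy, hb.tail hp⟩
    · rw [(pt_own hc).1]
      intro g' hg'
      rw [mem_singleton.mp hg']
      exact hg
  · -- pt_att
    intro g hg g' hg'
    by_cases hc : ∃ c, Par r P c v ∧ g ∈ Dv ends r P c
    · obtain ⟨c, hp, hgc⟩ := hc
      rw [(pt_child hloop h hp hgc).1] at hg'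
      rw [(pt_child hloop h hp hgc).1, (pt_child hloop h hp hgc).2,
        (pt_child hloop h hp hg').1, (pt_child hloop h hp hg').2]
      exact ⟨rfl, rfl⟩
    · rw [(pt_own hc).1, mem_singleton] at hg'
      subst hg'
      exact ⟨rfl, rfl⟩
  · -- outer
    intro g hg y hy
    have hnb : ¬ Below r P y v := fun hb => hg (mem_Dv.mpr ⟨y, hy, hb⟩)
    refine ⟨fun hS => hnb hS.1, ?_⟩
    rintro rfl
    exact hnb Relation.ReflTransGen.refl

end

/-- For every `v`, the three-element sets `P c` of the children `c` of `v` have a common element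
besides `v`. -/
def OneSided (r : V → ℕ) (P : V → Finset V) : Prop :=
  ∀ v, ∃ y, ∀ c, Par r P c v → 3 ≤ (P c).card → y ∈ P c ∧ y ≠ v

lemma att_of_oneSided [Fintype V] [Fintype E] (hloop : ∀ g, ¬ (ends g).IsDiag)
    (h : Ord3 ends r P) (ho : OneSided r P) (v : V) :
    ∃ y, ∀ g ∈ Dv ends r P v, 2 ≤ (attO ends r P v g).card → y ∈ attO ends r P v g := by
  obtain ⟨y, hy⟩ := ho v
  refine ⟨y, fun g hg hc => ?_⟩
  by_cases hex : ∃ c, Par r P c v ∧ g ∈ Dv ends r P c
  · obtain ⟨c, hp, hgc⟩ := hex
    rw [(pt_child hloop h hp hgc).2] at hc ⊢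
    rw [Finset.card_erase_of_mem hp.1] at hc
    have h1 := hy c hp (by omega)
    exact Finset.mem_erase.mpr ⟨h1.2, h1.1⟩
  · exfalso
    rw [(pt_own hex).2] at hc
    obtain ⟨z, hz, hzv, hgz⟩ := own_edge hloop h hg hex
    have h1 : (univ.filter fun y => y ∈ ends g ∧ y ≠ v) ⊆ {z} := by
      intro y hy
      rw [mem_filter, hgz, Sym2.mem_iff] at hy
      rw [mem_singleton]
      rcases hy.2.1 with h1 | h1
      · exact absurd h1 hy.2.2
      · exact h1
    have := Finset.card_le_card h1
    rw [Finset.card_singleton] at this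
    omega

section

variable [Fintype V] [Fintype E] (hloop : ∀ g, ¬ (ends g).IsDiag) (h : Ord3 ends r P)
  {K : (Fin 5 → ℝ) → (Fin 5 → ℝ) → Prop} {one : Prop} (hK : GoodW one K)
  (hone : one → OneSided r P) {w : E → ℝ} (hw : ∀ g, 0 ≤ w g)
include hloop h hK hw

/-- The marked parts of a bag, from the statement for the children. -/
lemma marks_of {v a b x : V} (hP : ∀ y ∈ P v, y = a ∨ y = b ∨ y = x)
    (ha : ¬ Below r P a v) (hb : ¬ Below r P b v) (hx : ¬ Below r P x v)
    (ih : ∀ c, r c < r v → ∀ a b x : V, a ≠ b → b ≠ x → a ≠ x → ¬ Below r P a c →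
      ¬ Below r P b c → ¬ Below r P x c → (∀ y ∈ P c, y = a ∨ y = b ∨ y = x) →
      ∀ e ∈ Dv ends r P c, KM K ends w (Dv ends r P c) e a b x)
    {e : E} (he : e ∈ Dv ends r P v) :
    ∀ p q, p ≠ q → (p = a ∨ p = b ∨ p = x) → (q = a ∨ q = b ∨ q = x) →
      (∀ y ∈ attO ends r P v e, y = p ∨ y = q) → KM K ends w (ptO ends r P v e) e v p q := by
  intro p q hpq hp hq hatt
  have hnb : ∀ z, (z = a ∨ z = b ∨ z = x) → ¬ Below r P z v := by
    rintro z (rfl | rfl | rfl) <;> assumption
  have hvp : v ≠ p := by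
    rintro rfl
    exact hnb _ hp Relation.ReflTransGen.refl
  have hvq : v ≠ q := by
    rintro rfl
    exact hnb _ hq Relation.ReflTransGen.refl
  by_cases hc : ∃ c, Par r P c v ∧ e ∈ Dv ends r P c
  · obtain ⟨c, hpar, hec⟩ := hc
    rw [(pt_child hloop h hpar hec).1]
    rw [(pt_child hloop h hpar hec).2] at hatt
    refine ih c (h.par_lt hpar) v p q hvp hpq hvq ?_ ?_ ?_ ?_ e hec
    · intro hb'
      rcases h.below_le hb' with h1 | h1
      · subst h1
        exact absurd (h.par_lt hpar) (lt_irrefl _)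
      · exact absurd (h1.trans (h.par_lt hpar)) (lt_irrefl _)
    · exact fun hb' => hnb p hp (hb'.tail hpar)
    · exact fun hb' => hnb q hq (hb'.tail hpar)
    · intro y hy
      by_cases hyv : y = v
      · exact Or.inl hyv
      · exact Or.inr (hatt y (Finset.mem_erase.mpr ⟨hyv, hy⟩))
  · rw [(pt_own hc).1]
    rw [(pt_own hc).2] at hatt
    obtain ⟨z, hz, hzv, hez⟩ := own_edge hloop h he hc
    have hzatt := hatt z (by simp [hez, hzv])
    rcases hzatt with rfl | rfl
    · exact KM.base hK hvp hpq hvq hez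
    · have h1 : KM K ends w {e} e v z p := KM.base hK hvq hpq.symm hvp hez
      -- `v z p` to `v p z`
      exact (((h1.rot hK).swap hK).rot hK).rot hK

include hone

/-- **One mark**: the edges incident with the vertices below `v`. -/
theorem theoremA : ∀ v, ∀ a b x : V, a ≠ b → b ≠ x → a ≠ x → ¬ Below r P a v →
      ¬ Below r P b v → ¬ Below r P x v → (∀ y ∈ P v, y = a ∨ y = b ∨ y = x) →
      ∀ e ∈ Dv ends r P v, KM K ends w (Dv ends r P v) e a b x := by
  have key : ∀ n, ∀ v, r v = n → ∀ a b x : V, a ≠ b → b ≠ x → a ≠ x → ¬ Below r P a v →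
      ¬ Below r P b v → ¬ Below r P x v → (∀ y ∈ P v, y = a ∨ y = b ∨ y = x) →
      ∀ e ∈ Dv ends r P v, KM K ends w (Dv ends r P v) e a b x := by
    intro n
    induction n using Nat.strong_induction_on with
    | _ n ih =>
      intro v hv a b x hab hbx hax ha hb hx hP e he
      have hva : v ≠ a := by
        rintro rfl
        exact ha Relation.ReflTransGen.refl
      have hvb : v ≠ b := by
        rintro rfl
        exact hb Relation.ReflTransGen.refl
      have hvx : v ≠ x := by
        rintro rfl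
        exact hx Relation.ReflTransGen.refl
      exact bagA hK hw (bag_of hloop h hP) hva hvb hvx hab hbx hax (fun h' => ha h'.1)
        (fun h' => hb h'.1) (fun h' => hx h'.1)
        (fun ho => att_of_oneSided hloop h (hone ho) v) he
        (marks_of hloop h hK hw hP ha hb hx
          (fun c hc => ih (r c) (by omega) c rfl) he)
  intro v
  exact key (r v) v rfl

/-- **Two marks**, with three isolated vertices at the end of the order. -/
theorem theoremB (z : Fin 3 → V) (hz : Function.Injective z) (hz1 : ∀ v i, z i ∉ P v)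
    (hz2 : ∀ i, P (z i) = ∅) (hz3 : ∀ g i, z i ∉ ends g) {e f : E} (hef : e ≠ f) :
    NCZ ends w e f := by
  have hA := theoremA hloop h hK hone hw
  -- the dummies are not below other vertices
  have hzb : ∀ i v, v ≠ z i → ¬ Below r P (z i) v := by
    intro i v hv hb
    rcases Relation.ReflTransGen.cases_head hb with h1 | ⟨d, hd, _⟩
    · exact hv h1.symm
    · have := hd.1
      rw [hz2 i] at this
      exact absurd this (Finset.notMem_empty _)
  have hzD : ∀ i, Dv ends r P (z i) = ∅ := by
    intro i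
    rw [Finset.eq_empty_iff_forall_notMem]
    intro g hg
    obtain ⟨y, hy, hb⟩ := mem_Dv.mp hg
    rcases Relation.ReflTransGen.cases_tail hb with h1 | ⟨c, _, hp⟩
    · rw [← h1] at hy
      exact hz3 g i hy
    · exact hz1 c i hp.1
  have hne : ∀ {g : E} {v : V}, g ∈ Dv ends r P v → ∀ i, v ≠ z i := by
    rintro g v hg i rfl
    rw [hzD i] at hg
    exact absurd hg (Finset.notMem_empty _)
  -- every edge lies in some `Dv v`
  have hex : ∀ g : E, ∃ v, g ∈ Dv ends r P v := by
    intro g
    obtain ⟨u, v, huv⟩ : ∃ u v, ends g = s(u, v) := by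
      induction h : ends g using Sym2.ind with
      | _ u v => exact ⟨u, v, rfl⟩
    exact ⟨u, mem_Dv.mpr ⟨u, by rw [huv]; exact Sym2.mem_mk_left _ _,
      Relation.ReflTransGen.refl⟩⟩
  by_cases hboth : ∃ v, e ∈ Dv ends r P v ∧ f ∈ Dv ends r P v
  · -- the lowest such vertex
    obtain ⟨v, hv, hmin⟩ := Finset.exists_min_image
      (univ.filter fun v => e ∈ Dv ends r P v ∧ f ∈ Dv ends r P v) r
      (by
        obtain ⟨v, hv⟩ := hboth
        exact ⟨v, by simp [hv]⟩)
    rw [mem_filter] at hv
    have hev := hv.2.1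
    have hfv := hv.2.2
    -- a triple
    have hPv : ∀ y ∈ P v, ¬ Below r P y v := by
      intro y hy hb
      have h1 := h.later v y hy
      rcases h.below_le hb with h2 | h2
      · subst h2
        exact absurd h1 (lt_irrefl _)
      · exact absurd (h1.trans h2) (lt_irrefl _)
    have hcardU : 3 ≤ (P v ∪ univ.image z).card := by
      have h1 : (univ.image z).card = 3 := by
        rw [Finset.card_image_of_injective _ hz, Finset.card_univ, Fintype.card_fin]
      exact le_trans (le_of_eq h1.symm) (Finset.card_le_card Finset.subset_union_right)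
    obtain ⟨U, hU1, hU2, hU3⟩ := Finset.exists_subsuperset_card_eq
      (Finset.subset_union_left (s₁ := P v) (s₂ := univ.image z)) (h.card v) hcardU
    obtain ⟨a, b, x, hab, hax, hbx, hUe⟩ := Finset.card_eq_three.mp hU3
    have hout : ∀ y ∈ U, ¬ Below r P y v := by
      intro y hy
      rcases mem_union.mp (hU2 hy) with h1 | h1
      · exact hPv y h1
      · obtain ⟨i, _, rfl⟩ := mem_image.mp h1
        exact hzb i v (hne hev i)
    have hP : ∀ y ∈ P v, y = a ∨ y = b ∨ y = x := by
      intro y hy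
      have := hU1 hy
      rw [hUe] at this
      simpa using this
    have ha : ¬ Below r P a v := hout a (by rw [hUe]; simp)
    have hb : ¬ Below r P b v := hout b (by rw [hUe]; simp)
    have hx : ¬ Below r P x v := hout x (by rw [hUe]; simp)
    have hva : v ≠ a := by
      rintro rfl
      exact ha Relation.ReflTransGen.refl
    have hvb : v ≠ b := by
      rintro rfl
      exact hb Relation.ReflTransGen.refl
    have hvx : v ≠ x := by
      rintro rfl
      exact hx Relation.ReflTransGen.refl
    have hpt : f ∉ ptO ends r P v e := by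
      intro hf'
      by_cases hc : ∃ c, Par r P c v ∧ e ∈ Dv ends r P c
      · obtain ⟨c, hp, hec⟩ := hc
        rw [(pt_child hloop h hp hec).1] at hf'
        have h1 := hmin c (by simp [hec, hf'])
        exact absurd (h.par_lt hp) (not_lt.mpr h1)
      · rw [(pt_own hc).1, mem_singleton] at hf'
        exact hef hf'.symm
    exact bagB hK hw (bag_of hloop h hP) hva hvb hvx hab hbx hax (fun h' => h'.2 rfl)
      (fun h' => ha h'.1) (fun h' => hb h'.1) (fun h' => hx h'.1)
      (fun ho => att_of_oneSided hloop h (hone ho) v) hev hfv hpt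
      (marks_of hloop h hK hw hP ha hb hx (fun c _ => hA c) hev)
      (marks_of hloop h hK hw hP ha hb hx (fun c _ => hA c) hfv)
  · -- different components
    have root : ∀ g : E, ∃ v, g ∈ Dv ends r P v ∧ P v = ∅ := by
      intro g
      obtain ⟨v, hv, hmax⟩ := Finset.exists_max_image
        (univ.filter fun v => g ∈ Dv ends r P v) r
        (by
          obtain ⟨v, hv⟩ := hex g
          exact ⟨v, by simp [hv]⟩)
      rw [mem_filter] at hv
      refine ⟨v, hv.2, ?_⟩
      by_contra hne
      obtain ⟨p, hp, hmin⟩ := Finset.exists_min_image (P v) r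
        (Finset.nonempty_iff_ne_empty.mpr hne)
      have hpar : Par r P v p := ⟨hp, hmin⟩
      obtain ⟨y, hy, hb⟩ := mem_Dv.mp hv.2
      have h1 := hmax p (by
        rw [mem_filter]
        exact ⟨mem_univ _, mem_Dv.mpr ⟨y, hy, hb.tail hpar⟩⟩)
      exact absurd (h.par_lt hpar) (not_lt.mpr h1)
    obtain ⟨v1, he1, hP1⟩ := root e
    obtain ⟨v2, hf2, hP2⟩ := root f
    have hsep : ∀ v, P v = ∅ → ∀ g ∈ Dv ends r P v, ∀ g', g' ∉ Dv ends r P v → ∀ y,
        y ∈ ends g → y ∈ ends g' → False := by
      intro v hPv g hg g' hg' y hy hy'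
      rcases Dv_out hloop h hg hy with h1 | h1
      · exact hg' (mem_Dv.mpr ⟨y, hy', h1⟩)
      · rw [hPv] at h1
        exact absurd h1 (Finset.notMem_empty _)
    have hz01 : z 0 ≠ z 1 := fun h' => absurd (hz h') (by decide)
    have hz12 : z 1 ≠ z 2 := fun h' => absurd (hz h') (by decide)
    have hz02 : z 0 ≠ z 2 := fun h' => absurd (hz h') (by decide)
    have k1 := hA v1 (z 0) (z 1) (z 2) hz01 hz12 hz02 (hzb 0 v1 (hne he1 0))
      (hzb 1 v1 (hne he1 1)) (hzb 2 v1 (hne he1 2)) (by simp [hP1]) e he1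
    have k2 := hA v2 (z 0) (z 1) (z 2) hz01 hz12 hz02 (hzb 0 v2 (hne hf2 0))
      (hzb 1 v2 (hne hf2 1)) (hzb 2 v2 (hne hf2 2)) (by simp [hP2]) f hf2
    have hf1 : f ∉ Dv ends r P v1 := fun h' => hboth ⟨v1, he1, h'⟩
    have hdis : Disjoint (Dv ends r P v1) (Dv ends r P v2) := by
      rw [Finset.disjoint_left]
      intro g hg1 hg2
      -- the two roots are equal
      have hv12 : v1 = v2 := by
        have U : Relator.RightUnique (Par r P) := fun a b c h1 h2 => h.par_unique h1 h2
        have noPar : ∀ v, P v = ∅ → ∀ v', Below r P v v' → v = v' := by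
          intro v hPv v' hb
          rcases Relation.ReflTransGen.cases_head hb with h1 | ⟨d, hd, _⟩
          · exact h1
          · have := hd.1
            rw [hPv] at this
            exact absurd this (Finset.notMem_empty _)
        obtain ⟨y, hy, hb⟩ := mem_Dv.mp hg1
        have hb2 : Below r P y v2 := by
          rcases Dv_out hloop h hg2 hy with h1 | h1
          · exact h1
          · rw [hP2] at h1
            exact absurd h1 (Finset.notMem_empty _)
        rcases Relation.ReflTransGen.total_of_right_unique U hb hb2 with h3 | h3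
        · exact noPar v1 hP1 v2 h3
        · exact (noPar v2 hP2 v1 h3).symm
      exact hf1 (hv12 ▸ hf2)
    set A : Finset E := (univ \ Dv ends r P v1) \ Dv ends r P v2 with hAdef
    have k3 : KM K ends w (Dv ends r P v2 ∪ A) f (z 0) (z 1) (z 2) :=
      KM.mul hK hw hf2 Finset.disjoint_sdiff hz01 hz12 hz02 (fun g hg g' hg' y hy hy' =>
        (hsep v2 hP2 g hg g' (mem_sdiff.mp hg').2 y hy hy').elim) k2
    have hun : Dv ends r P v2 ∪ A = univ \ Dv ends r P v1 := by
      rw [hAdef]
      refine Finset.union_sdiff_of_subset ?_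
      intro g hg
      rw [mem_sdiff]
      exact ⟨mem_univ _, fun h' => (Finset.disjoint_left.mp hdis h') hg⟩
    rw [hun] at k3
    have k4 := KM.pair hK he1 (D' := univ \ Dv ends r P v1) (f := f)
      (mem_sdiff.mpr ⟨mem_univ _, hf1⟩) Finset.disjoint_sdiff hz01 hz12 hz02
      (fun g hg g' hg' y hy hy' => (hsep v1 hP1 g hg g' (mem_sdiff.mp hg').2 y hy hy').elim)
      k1 k3
    rwa [Finset.union_sdiff_of_subset (Finset.subset_univ _)] at k4

end

end Pool.Agent.T3
end

section

/-!
Tree decompositions of width three give elimination orders of width three.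
-/

set_option autoImplicit false
set_option linter.unusedSectionVars false

namespace Pool.Agent.T3

open Finset
open scoped Classical

variable {I : Type*} {T : SimpleGraph I} (hT : T.IsTree)

include hT

/-- Vertices of a path are closer to its end. -/
lemma dist_lt_of_mem {i ρ k : I} (q : T.Walk i ρ) (hq : q.IsPath) (hk : k ∈ q.support)
    (hki : k ≠ i) : T.dist k ρ < T.dist i ρ := by
  obtain ⟨p, hp, hp'⟩ := (hT.connected i ρ).exists_path_of_dist
  have h1 : p = q := (hT.existsUnique_path i ρ).unique hp hq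
  rw [← hp', h1]
  have h2 : (q.dropUntil k hk).length < q.length := by
    have h3 := congrArg SimpleGraph.Walk.length (q.take_spec hk)
    rw [SimpleGraph.Walk.length_append] at h3
    have h4 : (q.takeUntil k hk).length ≠ 0 := by
      intro h5
      exact hki (SimpleGraph.Walk.eq_of_length_eq_zero h5).symm
    omega
  exact lt_of_le_of_lt (SimpleGraph.dist_le _) h2

/-- A connected set of nodes contains the paths between its elements. -/
lemma path_of_conn {S : Set I} (hS : (T.induce S).Preconnected) (i j : I) (p : T.Walk i j)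
    (hp : p.IsPath) (hi : i ∈ S) (hj : j ∈ S) : ∀ k ∈ p.support, k ∈ S := by
  obtain ⟨q⟩ := hS ⟨i, hi⟩ ⟨j, hj⟩
  have h0 : Function.Injective (SimpleGraph.Embedding.induce (G := T) S).toHom :=
    (SimpleGraph.Embedding.induce (G := T) S).injective
  have h1 : ((q.bypass).map (SimpleGraph.Embedding.induce (G := T) S).toHom).IsPath :=
    q.bypass_isPath.map h0
  have h2 : (q.bypass).map (SimpleGraph.Embedding.induce (G := T) S).toHom = p :=
    (hT.existsUnique_path i j).unique h1 hp
  have h3 : ∀ k ∈ ((q.bypass).map (SimpleGraph.Embedding.induce (G := T) S).toHom).support,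
      k ∈ S := by
    intro k hk
    rw [SimpleGraph.Walk.support_map, List.mem_map] at hk
    obtain ⟨y, _, rfl⟩ := hk
    exact y.2
  have h4 : ((q.bypass).map (SimpleGraph.Embedding.induce (G := T) S).toHom).support =
      p.support := congrArg SimpleGraph.Walk.support h2
  intro k hk
  exact h3 k (by rw [h4]; exact hk)

/-- The top of a subtree lies on the path to the root. -/
lemma top_mem {S : I → Prop} (hS : ∀ i j (p : T.Walk i j), p.IsPath → S i → S j →
      ∀ k ∈ p.support, S k) {ρ i t : I} (hi : S i) (ht : S t)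
    (hmin : ∀ j, S j → T.dist t ρ ≤ T.dist j ρ) (q : T.Walk i ρ) (hq : q.IsPath) :
    t ∈ q.support := by
  obtain ⟨p, hp, _⟩ := (hT.connected i t).exists_path_of_dist
  obtain ⟨p', hp', _⟩ := (hT.connected t ρ).exists_path_of_dist
  have h1 : (p.append p').IsPath := by
    rw [SimpleGraph.Walk.isPath_def, SimpleGraph.Walk.support_append, List.nodup_append]
    refine ⟨hp.support_nodup, hp'.support_nodup.tail, ?_⟩
    intro a ha b hb hab
    subst hab
    have h2 : S a := hS i t p hp hi ht a ha
    have h3 := hmin a h2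
    have h4 : a ≠ t := by
      intro h5
      subst h5
      have h6 := hp'.support_nodup
      rw [← SimpleGraph.Walk.cons_tail_support] at h6
      exact (List.nodup_cons.mp h6).1 hb
    have h5 := dist_lt_of_mem hT p' hp' (List.mem_of_mem_tail hb) h4
    omega
  have h2 : p.append p' = q := (hT.existsUnique_path i ρ).unique h1 hq
  rw [← h2, SimpleGraph.Walk.mem_support_append_iff]
  exact Or.inl (SimpleGraph.Walk.end_mem_support p)

/-- The main property of tops. -/
lemma top_bag {S S' : I → Prop} (hS : ∀ i j (p : T.Walk i j), p.IsPath → S i → S j →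
      ∀ k ∈ p.support, S k) (hS' : ∀ i j (p : T.Walk i j), p.IsPath → S' i → S' j →
      ∀ k ∈ p.support, S' k) {ρ i t t' : I} (hi : S i) (ht : S t)
    (hmin : ∀ j, S j → T.dist t ρ ≤ T.dist j ρ) (hi' : S' i) (ht' : S' t')
    (hmin' : ∀ j, S' j → T.dist t' ρ ≤ T.dist j ρ) (hle : T.dist t' ρ ≤ T.dist t ρ) : S' t := by
  obtain ⟨q, hq, _⟩ := (hT.connected i ρ).exists_path_of_dist
  have h1 := top_mem hT hS hi ht hmin q hq
  have h2 := top_mem hT hS' hi' ht' hmin' q hq
  have h3 : t ∈ (q.takeUntil t' h2).support := by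
    by_contra h3
    have h4 : t ∈ ((q.takeUntil t' h2).append (q.dropUntil t' h2)).support := by
      rw [SimpleGraph.Walk.take_spec]
      exact h1
    rw [SimpleGraph.Walk.mem_support_append_iff] at h4
    rcases h4 with h4 | h4
    · exact h3 h4
    · have h5 : t ≠ t' := by
        intro h6
        rw [h6] at h3
        exact h3 (SimpleGraph.Walk.end_mem_support _)
      have h6 := dist_lt_of_mem hT (q.dropUntil t' h2) (hq.dropUntil h2) h4 h5
      omega
  exact hS' i t' (q.takeUntil t' h2) (hq.takeUntil h2) hi' ht' t h3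

/-- A tree decomposition of width at most three gives an elimination order. -/
theorem ord_of_td {V E : Type*} [Fintype V] [Fintype I] (ends : E → Sym2 V)
    (B : I → Finset V) (hB : ∀ i, (B i).card ≤ 4) (hE : ∀ g, ∃ i, ∀ v ∈ ends g, v ∈ B i)
    (hC' : ∀ v, (T.induce {i | v ∈ B i}).Preconnected) :
    ∃ (r : V → ℕ) (P : V → Finset V), Ord3 ends r P := by
  have hC : ∀ (v : V) (i j : I) (p : T.Walk i j), p.IsPath → v ∈ B i → v ∈ B j →
      ∀ k ∈ p.support, v ∈ B k := fun v i j p hp hi hj => path_of_conn hT (hC' v) i j p hp hi hj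
  obtain ⟨ρ⟩ := hT.connected.nonempty
  -- the top of a vertex
  have htop : ∀ v : V, ∃ t : I, (∃ i, v ∈ B i) → v ∈ B t ∧
      ∀ j, v ∈ B j → T.dist t ρ ≤ T.dist j ρ := by
    intro v
    by_cases h : ∃ i, v ∈ B i
    · obtain ⟨i, hi⟩ := h
      obtain ⟨t, ht, hmin⟩ := Finset.exists_min_image (univ.filter fun i => v ∈ B i)
        (fun i => T.dist i ρ) ⟨i, by simp [hi]⟩
      rw [mem_filter] at ht
      exact ⟨t, fun _ => ⟨ht.2, fun j hj => hmin j (by simp [hj])⟩⟩
    · exact ⟨ρ, fun h' => absurd h' h⟩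
  choose top htop using htop
  -- the order
  obtain ⟨N, hN⟩ : ∃ N, ∀ v, T.dist (top v) ρ ≤ N :=
    ⟨univ.sup fun v => T.dist (top v) ρ, fun v =>
      Finset.le_sup (f := fun v => T.dist (top v) ρ) (mem_univ v)⟩
  let ix : V ≃ Fin (Fintype.card V) := Fintype.equivFin V
  set r : V → ℕ := fun v => (N - T.dist (top v) ρ) * (Fintype.card V) + (ix v).val with hr
  have hrlt : ∀ u v, r u < r v → T.dist (top v) ρ ≤ T.dist (top u) ρ := by
    intro u v huv
    by_contra h
    push Not at h
    have h1 := hN v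
    have h2 : N - T.dist (top v) ρ + 1 ≤ N - T.dist (top u) ρ := by omega
    have h3 : (N - T.dist (top v) ρ + 1) * Fintype.card V ≤
        (N - T.dist (top u) ρ) * Fintype.card V := Nat.mul_le_mul_right _ h2
    have h4 := (ix v).isLt
    simp only [hr] at huv
    rw [Nat.add_mul, one_mul] at h3
    omega
  have hinj : Function.Injective r := by
    intro u v huv
    have h4 := (ix v).isLt
    have h5 := (ix u).isLt
    simp only [hr] at huv
    have h6 : (ix u).val = (ix v).val := by
      have h7 := congrArg (· % Fintype.card V) huv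
      simp only [Nat.mul_add_mod_of_lt h4, Nat.mul_add_mod_of_lt h5] at h7
      exact h7
    exact ix.injective (Fin.ext h6)
  refine ⟨r, fun v => (B (top v)).filter fun u => r v < r u ∧ ∃ i, v ∈ B i, hinj, ?_, ?_, ?_, ?_⟩
  · intro v
    by_cases h : ∃ i, v ∈ B i
    · have h1 : ((B (top v)).filter fun u => r v < r u ∧ ∃ i, v ∈ B i) ⊆ (B (top v)).erase v := by
        intro u hu
        rw [mem_filter] at hu
        rw [mem_erase]
        exact ⟨fun h2 => absurd hu.2.1 (by rw [h2]; exact lt_irrefl _), hu.1⟩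
      have h2 := Finset.card_le_card h1
      rw [Finset.card_erase_of_mem (htop v h).1] at h2
      have h3 := hB (top v)
      omega
    · have h1 : ((B (top v)).filter fun u => r v < r u ∧ ∃ i, v ∈ B i) = ∅ := by
        rw [Finset.filter_eq_empty_iff]
        exact fun u _ h2 => h h2.2
      rw [h1, Finset.card_empty]
      omega
  · intro v u hu
    exact (mem_filter.mp hu).2.1
  · intro v u hu x hx hux
    rw [mem_filter] at hu hx ⊢
    have hv := (htop v hu.2.2).1
    have hu' : ∃ i, u ∈ B i := ⟨_, hu.1⟩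
    have hx' : ∃ i, x ∈ B i := ⟨_, hx.1⟩
    refine ⟨?_, hux, hu'⟩
    exact top_bag hT (S := fun i => u ∈ B i) (S' := fun i => x ∈ B i) (hC u) (hC x) hu.1
      (htop u hu').1 (htop u hu').2 hx.1 (htop x hx').1 (htop x hx').2 (hrlt u x hux)
  · intro g u v hg huv
    obtain ⟨i, hi⟩ := hE g
    rw [hg] at hi
    have hu := hi u (Sym2.mem_mk_left _ _)
    have hv := hi v (Sym2.mem_mk_right _ _)
    have hu' : ∃ i, u ∈ B i := ⟨_, hu⟩
    have hv' : ∃ i, v ∈ B i := ⟨_, hv⟩
    rw [mem_filter]
    refine ⟨?_, huv, hu'⟩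
    exact top_bag hT (S := fun i => u ∈ B i) (S' := fun i => v ∈ B i) (hC u) (hC v) hu
      (htop u hu').1 (htop u hu').2 hv (htop v hv').1 (htop v hv').2 (hrlt u v huv)

end Pool.Agent.T3
end

section

/-!
From the algebra to the probabilities.
-/

set_option autoImplicit false
set_option linter.unusedSectionVars false

namespace Pool.Agent.T3

open Finset Pool.Agent.Lib.MP_d90615_co Pool.Agent.CL
open scoped Classical

/-- Three isolated vertices at the end of the order. -/
lemma ord_dummy {V E : Type*} [Fintype V] {ends : E → Sym2 V} {r : V → ℕ} {P : V → Finset V}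
    (h : Ord3 ends r P) :
    Ord3 (V := V ⊕ Fin 3) (fun g => (ends g).map Sum.inl)
      (Sum.elim r fun i => (∑ v, r v) + 1 + i)
      (Sum.elim (fun v => (P v).image Sum.inl) fun _ => ∅) := by
  have hle : ∀ v, r v ≤ ∑ u, r u := fun v =>
    Finset.single_le_sum (f := r) (fun _ _ => Nat.zero_le _) (mem_univ v)
  refine ⟨?_, ?_, ?_, ?_, ?_⟩
  · rintro (u | i) (v | j) huv
    · simp only [Sum.elim_inl] at huv
      rw [h.inj huv]
    · simp only [Sum.elim_inl, Sum.elim_inr] at huv
      have := hle u
      omega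
    · simp only [Sum.elim_inl, Sum.elim_inr] at huv
      have := hle v
      omega
    · simp only [Sum.elim_inr] at huv
      have h1 : (i : ℕ) = j := by omega
      rw [Fin.ext h1]
  · rintro (v | i)
    · simp only [Sum.elim_inl]
      exact le_trans Finset.card_image_le (h.card v)
    · simp
  · rintro (v | i) u hu
    · simp only [Sum.elim_inl] at hu
      obtain ⟨y, hy, rfl⟩ := mem_image.mp hu
      exact h.later v y hy
    · simp at hu
  · rintro (v | i) u hu x hx hux
    · simp only [Sum.elim_inl] at hu hx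
      obtain ⟨y, hy, rfl⟩ := mem_image.mp hu
      obtain ⟨z, hz, rfl⟩ := mem_image.mp hx
      exact mem_image_of_mem _ (h.clique v y hy z hz hux)
    · simp at hu
  · intro g u v hg huv
    obtain ⟨p, q, hpq⟩ : ∃ p q, ends g = s(p, q) := by
      induction h : ends g using Sym2.ind with
      | _ u v => exact ⟨u, v, rfl⟩
    rw [hpq, Sym2.map_mk] at hg
    rcases Sym2.eq_iff.mp hg with ⟨h1, h2⟩ | ⟨h1, h2⟩
    · subst h1
      subst h2
      exact mem_image_of_mem _ (h.edge g p q hpq huv)
    · subst h1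
      subst h2
      exact mem_image_of_mem _ (h.edge g q p (by rw [hpq, Sym2.eq_swap]) huv)

/-- The condition `OneSided` with three isolated vertices. -/
lemma oneSided_dummy {V : Type*} [Fintype V] {r : V → ℕ} {P : V → Finset V} (h : OneSided r P) :
    OneSided (V := V ⊕ Fin 3) (Sum.elim r fun i => (∑ v, r v) + 1 + i)
      (Sum.elim (fun v => (P v).image Sum.inl) fun _ => ∅) := by
  rintro (v | i)
  · obtain ⟨y, hy⟩ := h v
    refine ⟨Sum.inl y, ?_⟩
    rintro (c | j) hp hc
    · simp only [Sum.elim_inl] at hc ⊢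
      have hyc := hy c ⟨by
        have h1 := hp.1
        simp only [Sum.elim_inl, mem_image, Sum.inl.injEq, exists_eq_right] at h1
        exact h1, by
        intro x hx
        have h1 := hp.2 (Sum.inl x) (by simpa using hx)
        simpa using h1⟩ (le_trans hc Finset.card_image_le)
      exact ⟨mem_image_of_mem _ hyc.1, fun h => hyc.2 (Sum.inl_injective h)⟩
    · have h1 := hp.1
      simp at h1
  · refine ⟨Sum.inr i, ?_⟩
    rintro (c | j) hp hc
    · have h1 := hp.1
      simp at h1
    · have h1 := hp.1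
      simp at h1

variable {K : (Fin 5 → ℝ) → (Fin 5 → ℝ) → Prop} {one : Prop} (hK : GoodW one K)

include hK

/-- **All pairs** in graphs with an elimination order of width three. -/
theorem ncz_of_ord {V E : Type*} [Fintype V] [Fintype E] {ends : E → Sym2 V}
    (hloop : ∀ g, ¬ (ends g).IsDiag) {r : V → ℕ} {P' : V → Finset V} (h : Ord3 ends r P')
    (hone : one → OneSided r P')
    {w : E → ℝ} (hw : ∀ g, 0 ≤ w g) {e f : E} (hef : e ≠ f) : NCZ ends w e f := by
  have hloop' : ∀ g, ¬ (Sym2.map (Sum.inl : V → V ⊕ Fin 3) (ends g)).IsDiag := by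
    intro g hg
    refine hloop g ?_
    revert hg
    induction ends g using Sym2.ind with
    | _ a b => simp
  have h1 : NCZ (fun g => (ends g).map (Sum.inl : V → V ⊕ Fin 3)) w e f := by
    refine theoremB hloop' (ord_dummy h) hK (fun ho => oneSided_dummy (hone ho)) hw
      (fun i => Sum.inr i) Sum.inr_injective ?_ ?_ ?_ hef
    · rintro (v | i) j hj
      · simp at hj
      · simp at hj
    · intro i
      simp
    · intro g i hi
      rw [Sym2.mem_map] at hi
      obtain ⟨y, _, hy⟩ := hi
      cases hy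
  have h2 : ∀ u : E → ℝ, P (fun g => (ends g).map (Sum.inl : V → V ⊕ Fin 3)) u univ [] =
      P ends u univ [] := by
    intro u
    unfold P
    refine Finset.sum_congr ?_ fun _ _ => rfl
    refine Finset.filter_congr fun F _ => ?_
    exact forest_vmap Sum.inl_injective F
  unfold NCZ at h1 ⊢
  rwa [h2, h2, h2, h2] at h1

omit hK

/-- The sum over the forests with the property `p`. -/
noncomputable def num {V E : Type*} [Fintype E] (ends : E → Sym2 V) (w : E → ℝ)
    (p : Finset E → Prop) : ℝ :=
  ∑ F ∈ (univ.filter fun F => ¬ HasCycle ends F).filter p, ∏ g ∈ F, w g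

/-- From the total weights to the probabilities. -/
theorem num_of_ncz {V E : Type*} [Fintype V] [Fintype E] {ends : E → Sym2 V}
    (hloop : ∀ g, ¬ (ends g).IsDiag) {w : E → ℝ} (hw : ∀ g, 0 ≤ w g) {e f : E} (hef : e ≠ f)
    (h : NCZ ends w e f) :
    num ends w (fun F => e ∈ F ∧ f ∈ F) / num ends w (fun _ => True) ≤
      num ends w (fun F => e ∈ F) / num ends w (fun _ => True) *
        (num ends w (fun F => f ∈ F) / num ends w (fun _ => True)) := by
  -- four partial sums
  set A : Prop → Prop → (Finset E → ℝ) → ℝ := fun s t φ =>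
    ∑ F ∈ univ.filter (fun F : Finset E => Forest ends F ∧ (e ∈ F ↔ s) ∧ (f ∈ F ↔ t)), φ F with hA
  set M : Prop → Prop → ℝ := fun s t => A s t (fun F => ∏ g ∈ (F.erase e).erase f, w g) with hM
  -- the sums with weights `x`, `y` at `e`, `f`
  have hZ : ∀ (u : E → ℝ), (∀ g, g ≠ e → g ≠ f → u g = w g) → ∀ p : Finset E → Prop,
      (∑ F ∈ univ.filter (fun F : Finset E => Forest ends F ∧ p F), ∏ g ∈ F, u g) =
      ∑ F ∈ univ.filter (fun F : Finset E => Forest ends F ∧ p F),
        (if e ∈ F then u e else 1) * (if f ∈ F then u f else 1) *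
          ∏ g ∈ (F.erase e).erase f, w g := by
    intro u hu p
    refine Finset.sum_congr rfl fun F _ => ?_
    have h1 : ∏ g ∈ (F.erase e).erase f, u g = ∏ g ∈ (F.erase e).erase f, w g := by
      refine Finset.prod_congr rfl fun g hg => ?_
      rw [Finset.mem_erase, Finset.mem_erase] at hg
      exact hu g hg.2.1 hg.1
    by_cases he : e ∈ F <;> by_cases hf : f ∈ F
    · rw [if_pos he, if_pos hf, ← h1, ← Finset.mul_prod_erase F u he,
        ← Finset.mul_prod_erase (F.erase e) u (Finset.mem_erase.mpr ⟨Ne.symm hef, hf⟩)]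
      ring
    · rw [if_pos he, if_neg hf, ← h1, ← Finset.mul_prod_erase F u he,
        Finset.erase_eq_of_notMem (s := F.erase e) (fun h' => hf (Finset.mem_of_mem_erase h'))]
      ring
    · rw [if_neg he, if_pos hf, ← h1, Finset.erase_eq_of_notMem he,
        ← Finset.mul_prod_erase F u hf]
      ring
    · rw [if_neg he, if_neg hf, ← h1, Finset.erase_eq_of_notMem he,
        Finset.erase_eq_of_notMem hf]
      ring
  have hsplit : ∀ (φ : Finset E → ℝ) (p : Finset E → Prop),
      (∑ F ∈ univ.filter (fun F : Finset E => Forest ends F ∧ p F), φ F) =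
      A True True (fun F => if p F then φ F else 0) +
      A True False (fun F => if p F then φ F else 0) +
      A False True (fun F => if p F then φ F else 0) +
      A False False (fun F => if p F then φ F else 0) := by
    intro φ p
    simp only [hA, Finset.sum_filter]
    rw [← Finset.sum_add_distrib, ← Finset.sum_add_distrib, ← Finset.sum_add_distrib]
    refine Finset.sum_congr rfl fun F _ => ?_
    by_cases h0 : Forest ends F <;> by_cases h1 : e ∈ F <;> by_cases h2 : f ∈ F <;>
      by_cases h3 : p F <;> simp [h0, h1, h2, h3]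
  have hpart : ∀ (u : E → ℝ), (∀ g, g ≠ e → g ≠ f → u g = w g) → ∀ (p : Finset E → Prop)
      (q : Prop → Prop → Prop), (∀ F, p F ↔ q (e ∈ F) (f ∈ F)) →
      (∑ F ∈ univ.filter (fun F : Finset E => Forest ends F ∧ p F), ∏ g ∈ F, u g) =
      (if q True True then u e * u f * M True True else 0) +
      (if q True False then u e * M True False else 0) +
      (if q False True then u f * M False True else 0) +
      (if q False False then M False False else 0) := by
    intro u hu p q hpq
    rw [hZ u hu, hsplit]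
    have key : ∀ (s t : Prop) (c : ℝ), (∀ F : Finset E, (e ∈ F ↔ s) → (f ∈ F ↔ t) →
        (if e ∈ F then u e else 1) * (if f ∈ F then u f else 1) = c) →
        A s t (fun F => if p F then (if e ∈ F then u e else 1) * (if f ∈ F then u f else 1) *
            ∏ g ∈ (F.erase e).erase f, w g else 0) = if q s t then c * M s t else 0 := by
      intro s t c hc
      by_cases hq : q s t
      · simp only [hM, hA]
        rw [if_pos hq, Finset.mul_sum]
        refine Finset.sum_congr rfl fun F hF => ?_
        rw [mem_filter] at hF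
        obtain ⟨_, _, h1, h2⟩ := hF
        rw [if_pos ((hpq F).mpr (by rw [propext h1, propext h2]; exact hq)), hc F h1 h2]
      · simp only [hA]
        rw [if_neg hq]
        refine Finset.sum_eq_zero fun F hF => ?_
        rw [mem_filter] at hF
        obtain ⟨_, _, h1, h2⟩ := hF
        rw [if_neg]
        intro h3
        rw [hpq F, propext h1, propext h2] at h3
        exact hq h3
    rw [key True True (u e * u f) (fun F h1 h2 => by simp [h1, h2]),
      key True False (u e) (fun F h1 h2 => by simp [h1, h2]),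
      key False True (u f) (fun F h1 h2 => by simp [h1, h2]),
      key False False 1 (fun F h1 h2 => by simp [h1, h2]), one_mul]
  have hPu : ∀ (u : E → ℝ) (p : Finset E → Prop), (∀ F, p F) → P ends u univ [] =
      ∑ F ∈ univ.filter (fun F : Finset E => Forest ends F ∧ p F), ∏ g ∈ F, u g := by
    intro u p hp
    unfold P
    rw [Finset.powerset_univ]
    refine Finset.sum_congr ?_ fun _ _ => rfl
    ext F
    rw [mem_filter, mem_filter]
    exact ⟨fun h => ⟨h.1, h.2, hp F⟩, fun h => ⟨h.1, h.2.1⟩⟩
  -- total weights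
  have hP : ∀ (x y : ℝ), P ends (Function.update (Function.update w e x) f y) univ [] =
      x * y * M True True + x * M True False + y * M False True + M False False := by
    intro x y
    have h1 := hpart (Function.update (Function.update w e x) f y) (by
      intro g h1 h2
      rw [Function.update_of_ne h2, Function.update_of_ne h1]) (fun _ => True)
      (fun _ _ => True) (fun _ => Iff.rfl)
    rw [if_pos trivial, if_pos trivial, if_pos trivial, if_pos trivial,
      Function.update_of_ne hef, Function.update_self, Function.update_self] at h1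
    exact (hPu _ _ fun _ => trivial).trans h1
  have hnum : ∀ p : Finset E → Prop, num ends w p =
      ∑ F ∈ univ.filter (fun F : Finset E => Forest ends F ∧ p F), ∏ g ∈ F, w g := by
    intro p
    rw [num, Finset.filter_filter]
    refine Finset.sum_congr ?_ fun _ _ => rfl
    refine Finset.filter_congr fun F _ => ?_
    rw [forest_iff hloop F]
  have n1 : num ends w (fun F => e ∈ F ∧ f ∈ F) = w e * w f * M True True := by
    rw [hnum, hpart w (fun _ _ _ => rfl) _ (fun s t => s ∧ t) (fun _ => Iff.rfl)]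
    simp
  have n2 : num ends w (fun F => e ∈ F) = w e * w f * M True True + w e * M True False := by
    rw [hnum, hpart w (fun _ _ _ => rfl) _ (fun s _ => s) (fun _ => Iff.rfl)]
    simp
  have n3 : num ends w (fun F => f ∈ F) = w e * w f * M True True + w f * M False True := by
    rw [hnum, hpart w (fun _ _ _ => rfl) _ (fun _ t => t) (fun _ => Iff.rfl)]
    simp
  have n4 : num ends w (fun _ => True) = w e * w f * M True True + w e * M True False +
      w f * M False True + M False False := by
    rw [hnum, hpart w (fun _ _ _ => rfl) _ (fun _ _ => True) (fun _ => Iff.rfl)]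
    simp
  have hpos : 0 < num ends w (fun _ => True) := by
    rw [hnum]
    have h0 : (∅ : Finset E) ∈ univ.filter (fun F : Finset E => Forest ends F ∧ True) := by
      rw [mem_filter]
      exact ⟨mem_univ _, forest_empty, trivial⟩
    refine lt_of_lt_of_le one_pos ?_
    have h1 := Finset.single_le_sum (f := fun F : Finset E => ∏ g ∈ F, w g)
      (fun F _ => Finset.prod_nonneg fun g _ => hw g) h0
    simpa using h1
  unfold NCZ at h
  rw [hP, hP, hP, hP] at h
  have hkey : M True True * M False False ≤ M True False * M False True := by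
    linarith
  rw [div_mul_div_comm, div_le_div_iff₀ hpos (mul_pos hpos hpos)]
  have hwe := hw e
  have hwf := hw f
  have h1 : w e * w f * M True True * num ends w (fun _ => True) ≤
      (w e * w f * M True True + w e * M True False) *
        (w e * w f * M True True + w f * M False True) := by
    rw [n4]
    have h2 := mul_le_mul_of_nonneg_left hkey (mul_nonneg hwe hwf)
    nlinarith [h2]
  rw [n1, n2, n3]
  calc w e * w f * M True True * (num ends w (fun _ => True) * num ends w (fun _ => True))
      = (w e * w f * M True True * num ends w (fun _ => True)) * num ends w (fun _ => True) := by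
        ring
    _ ≤ _ := mul_le_mul_of_nonneg_right h1 hpos.le

end Pool.Agent.T3
end
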