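import Mathlib
import Pool.Agent.Lib.MP_d90615_co.Graph

section

/-!
The finite computation: simple paths in the quotients of a path with at most 6 edges.
-/

namespace Pool.Agent.SC

/-- Entry of a list. -/
def lb : List ℕ → ℕ → ℕ
  | [], _ => 0
  | x :: _, 0 => x
  | _ :: l, n + 1 => lb l n

/-- The positions `0, …, m` are divided into classes by the labels `f`; the edges of the path are
`t = {t, t + 1}`.  `walk f m n cur T` is the simple path in the quotient that starts in the class
with label `cur`, uses all edges in `T` and ends in the class of `m`, if there is one. -/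
def walk (f : ℕ → ℕ) (m : ℕ) : ℕ → ℕ → List ℕ → Option (List (ℕ × ℕ))
  | 0, _, _ => none
  | n + 1, cur, T =>
    match T.filter (fun t => f t == cur || f (t + 1) == cur) with
    | [t] =>
      let s : ℕ × ℕ := if f t == cur then (t, t + 1) else (t + 1, t)
      if f s.2 == cur then none
      else if f s.2 == f m then
        (match T with
        | [_] => some [s]
        | _ => none)
      else (walk f m n (f s.2) (T.erase t)).map (fun L => s :: L)
    | _ => none

/-- Join consecutive steps which share a vertex. -/
def merge {α : Type*} [DecidableEq α] : List (α × α) → List (α × α)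
  | [] => []
  | s :: L =>
    match merge L with
    | [] => [s]
    | r :: M => if s.2 = r.1 then (s.1, r.2) :: M else s :: r :: M

/-- Drop the first piece if it starts at `a`. -/
def dropHead {α : Type*} [DecidableEq α] (a : α) : List (α × α) → List (α × α)
  | [] => []
  | s :: L => if s.1 = a then L else s :: L

/-- Drop the last piece if it ends at `z`. -/
def dropLast {α : Type*} [DecidableEq α] (z : α) : List (α × α) → List (α × α)
  | [] => []
  | [s] => if s.2 = z then [] else [s]
  | s :: r :: L => s :: dropLast z (r :: L)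

/-- The inner pieces of a list of steps. -/
def inner {α : Type*} [DecidableEq α] (a z : α) (L : List (α × α)) : List (α × α) :=
  dropLast z (dropHead a (merge L))

/-- The sign of a pair. -/
def sg (a b : ℕ) : ℤ := if a < b then 1 else -1

/-- The sign of a list of at most two pieces. -/
def gs {α : Type*} (ν : α → ℕ) : List (α × α) → ℤ
  | [] => 1
  | [s] => sg (ν s.1) (ν s.2)
  | [s, r] => sg (ν s.1) (ν s.2) * sg (ν r.1) (ν r.2) *
      sg (min (ν s.1) (ν s.2)) (min (ν r.1) (ν r.2))
  | _ => 0

/-- The same pair up to order. -/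
def same (s r : ℕ × ℕ) : Bool := (s.1 == r.1 && s.2 == r.2) || (s.1 == r.2 && s.2 == r.1)

/-- The inner pieces of the two paths agree up to order and orientation. -/
def pat (m : ℕ) : List (ℕ × ℕ) → List (ℕ × ℕ) → Bool
  | [], [] => true
  | [s], [r] => decide (s.1 < s.2) && decide (s.2 ≤ m) && same s r
  | [s, s'], [r, r'] => decide (s.1 < s.2) && decide (s.2 < s'.1) && decide (s'.1 < s'.2) &&
      decide (s'.2 ≤ m) && ((same s r && same s' r') || (same s r' && same s' r))
  | _, _ => false

/-- The path with its edges in `T`, in their order. -/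
def fwd (T : List ℕ) : List (ℕ × ℕ) := T.map fun t => (t, t + 1)

/-- The sublists of `0, …, m - 1`. -/
def subs : ℕ → List (List ℕ)
  | 0 => [[]]
  | m + 1 => subs m ++ (subs m).map (fun T => T ++ [m])

/-- The summand. -/
def val (m : ℕ) (f : ℕ → ℕ) (T : List ℕ) : ℤ :=
  match walk f m (m + 1) (f 0) T with
  | none => 0
  | some L => gs id (inner 0 m L)

/-- The condition on the pieces. -/
def ok (m : ℕ) (f : ℕ → ℕ) (T : List ℕ) : Bool :=
  match walk f m (m + 1) (f 0) T with
  | none => true
  | some L => pat m (inner 0 m (fwd T)) (inner 0 m L)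

/-- The labellings. -/
def labs : ℕ → List (List ℕ)
  | 0 => [[]]
  | n + 1 => (labs n).flatMap fun l =>
      ((List.range (n + 1)).filter fun j => j == n || lb l j == j).map fun j => l ++ [j]

/-- The check for one labelling. -/
def chk1 (m : ℕ) (f : ℕ → ℕ) : Bool :=
  (((subs m).map (val m f)).sum == 1) && (subs m).all (ok m f)

/-- The check for all labellings. -/
def chk (m : ℕ) : Bool := (labs (m + 1)).all fun l => (lb l 0 == lb l m) || chk1 m (lb l)

/-- The number of elements of `T` below `i`. -/
def cnt (T : List ℕ) (i : ℕ) : ℕ := (T.filter fun t => decide (t < i)).length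

/-- The check for the path itself. -/
def chk2 (m : ℕ) : Bool := (subs m).all fun T =>
  T == [] || (walk (cnt T) m (m + 1) (cnt T 0) T == some (fwd T))






end Pool.Agent.SC
end

section

/-!
Simple paths through the components of a forest, as lists of directed steps.
-/

namespace Pool.Agent.SC

open Finset Pool.Agent.Lib.MP_d90615_co

variable {V E : Type*} [DecidableEq E]

/-- `L` is a list of steps `(x, y, t)`, `t` an edge from `x` to `y`, which together with `F0` form
a simple path from `a` to `d` through the components of `F0`. -/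
def Val (ends : E → Sym2 V) (F0 : Finset E) : V → List (V × V × E) → V → Prop
  | a, [], d => Conn ends F0 a d
  | a, s :: L, d => Conn ends F0 a s.1 ∧ ends s.2.2 = s(s.1, s.2.1) ∧ Val ends F0 s.2.1 L d ∧
      ¬ Conn ends F0 a s.2.1 ∧ ¬ Conn ends F0 a d ∧
        ∀ r ∈ L, ¬ Conn ends F0 a r.1 ∧ ¬ Conn ends F0 a r.2.1

/-- The edges of a list of steps. -/
def edg (L : List (V × V × E)) : Finset E := (L.map fun s => s.2.2).toFinset

omit [DecidableEq E] in
lemma Val.ends_eq {ends : E → Sym2 V} {F0 : Finset E} {a d : V} {L : List (V × V × E)}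
    (h : Val ends F0 a L d) : ∀ r ∈ L, ends r.2.2 = s(r.1, r.2.1) := by
  induction L generalizing a with
  | nil => simp
  | cons s L ih =>
    obtain ⟨_, h2, h3, _⟩ := h
    intro r hr
    rcases List.mem_cons.mp hr with rfl | hr
    · exact h2
    · exact ih h3 r hr

lemma mem_edg {L : List (V × V × E)} {t : E} : t ∈ edg L ↔ ∃ s ∈ L, s.2.2 = t := by
  simp only [edg, List.mem_toFinset, List.mem_map]

lemma edg_cons (s : V × V × E) (L : List (V × V × E)) :
    edg (s :: L) = insert s.2.2 (edg L) := by
  simp [edg]

/-- If no edge of `S` has an end in the component of `a`, the component does not grow. -/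
lemma conn_union_of_off {ends : E → Sym2 V} {F0 S : Finset E} {a : V}
    (hoff : ∀ t ∈ S, ∀ x y, ends t = s(x, y) → ¬ Conn ends F0 a x) {z : V}
    (h : Conn ends (F0 ∪ S) a z) : Conn ends F0 a z := by
  induction h with
  | refl => exact Conn.refl _ _ _
  | @tail b c _ hbc ih =>
    obtain ⟨e, he, hs⟩ := hbc
    rcases Finset.mem_union.mp he with he | he
    · exact ih.trans (Conn.single he hs)
    · exact absurd ih (hoff e he _ _ hs)

/-- What a valid list says about the forest with the steps added. -/
lemma Val.forest {ends : E → Sym2 V} {F0 : Finset E} (hF0 : Forest ends F0) {a d : V}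
    {L : List (V × V × E)} (h : Val ends F0 a L d) :
    Forest ends (F0 ∪ edg L) ∧ Conn ends (F0 ∪ edg L) a d ∧ Disjoint (edg L) F0 ∧
      (∀ t ∈ edg L, ¬ Conn ends ((F0 ∪ edg L).erase t) a d) ∧ (L.map fun s => s.2.2).Nodup := by
  induction L generalizing a with
  | nil =>
    have h' : Conn ends F0 a d := h
    simpa [edg] using ⟨hF0, h'⟩
  | cons s L ih =>
    obtain ⟨h1, h2, h3, h4, h5, h6⟩ := h
    obtain ⟨i1, i2, i3, i4, i5⟩ := ih h3
    have hoff : ∀ t ∈ edg L, ∀ x y, ends t = s(x, y) → ¬ Conn ends F0 a x := by
      intro t ht x y hxy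
      obtain ⟨r, hr, rfl⟩ := mem_edg.mp ht
      rw [h3.ends_eq r hr] at hxy
      rcases Sym2.eq_iff.mp hxy with ⟨rfl, rfl⟩ | ⟨rfl, rfl⟩
      · exact (h6 r hr).1
      · exact (h6 r hr).2
    have hstay : ∀ z, Conn ends (F0 ∪ edg L) a z → Conn ends F0 a z :=
      fun z hz => conn_union_of_off hoff hz
    have htL : s.2.2 ∉ edg L := fun h => hoff _ h _ _ h2 h1
    have htF : s.2.2 ∉ F0 := fun h => h4 (h1.trans (Conn.single h h2))
    have htU : s.2.2 ∉ F0 ∪ edg L := by
      rw [Finset.mem_union]
      rintro (h | h)
      · exact htF h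
      · exact htL h
    have hxy : ¬ Conn ends (F0 ∪ edg L) s.1 s.2.1 := fun h =>
      h4 (hstay _ ((h1.mono Finset.subset_union_left).trans h))
    have hU : F0 ∪ edg (s :: L) = insert s.2.2 (F0 ∪ edg L) := by
      rw [edg_cons, Finset.union_insert]
    rw [hU]
    refine ⟨(forest_insert h2 htU).mpr ⟨i1, hxy⟩, ?_, ?_, ?_, ?_⟩
    · rw [conn_insert h2]
      exact Or.inr (Or.inl ⟨h1.mono Finset.subset_union_left, i2⟩)
    · rw [edg_cons, Finset.disjoint_insert_left]
      exact ⟨htF, i3⟩
    · intro t ht hcon
      rw [edg_cons, Finset.mem_insert] at ht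
      by_cases hts : t = s.2.2
      · rw [hts, Finset.erase_insert htU] at hcon
        exact h5 (hstay _ hcon)
      · have ht' : t ∈ edg L := ht.resolve_left hts
        rw [Finset.erase_insert_of_ne (Ne.symm hts)] at hcon
        have hsub : (F0 ∪ edg L).erase t ⊆ F0 ∪ edg L := Finset.erase_subset _ _
        rcases (conn_insert h2 a d).mp hcon with h | ⟨_, h⟩ | ⟨h, _⟩
        · exact h5 (hstay _ (h.mono hsub))
        · exact i4 t ht' h
        · exact h4 (hstay _ (h.mono hsub))
    · rw [List.map_cons, List.nodup_cons]
      refine ⟨?_, i5⟩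
      intro h
      exact htL (by simpa [edg] using h)

open scoped Classical in
/-- The last exit of a walk from the component of `a`. -/
lemma exists_exit {ends : E → Sym2 V} {F0 S : Finset E} {a d : V} (had : ¬ Conn ends F0 a d)
    {z : V} (h : Conn ends (F0 ∪ S) z d) :
    let S' := S.filter (fun t => ∀ x ∈ ends t, ¬ Conn ends F0 a x)
    Conn ends (F0 ∪ S') z d ∨
      ∃ t ∈ S, ∃ x y, ends t = s(x, y) ∧ Conn ends F0 a x ∧ ¬ Conn ends F0 a y ∧
        Conn ends (F0 ∪ S') y d := by
  intro S'
  have hoff : ∀ t ∈ S', ∀ x y, ends t = s(x, y) → ¬ Conn ends F0 a x := by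
    intro t ht x y hxy
    refine (Finset.mem_filter.mp ht).2 x ?_
    rw [hxy]
    exact Sym2.mem_mk_left _ _
  induction h using Relation.ReflTransGen.head_induction_on with
  | refl => exact Or.inl (Conn.refl _ _ _)
  | @head z z' hstep _ ih =>
    rcases ih with ih | ih
    · obtain ⟨e, he, hs⟩ := hstep
      by_cases he' : e ∈ F0 ∪ S'
      · exact Or.inl ((Conn.single he' hs).trans ih)
      · have heS : e ∈ S := by
          rcases Finset.mem_union.mp he with h | h
          · exact absurd (Finset.mem_union_left _ h) he'
          · exact h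
        have h1 : ¬ ∀ x ∈ ends e, ¬ Conn ends F0 a x := by
          intro h
          exact he' (Finset.mem_union_right _ (Finset.mem_filter.mpr ⟨heS, h⟩))
        have hz' : ¬ Conn ends F0 a z' := by
          intro h
          refine had ?_
          have h2 : Conn ends (F0 ∪ S') a d := (h.mono Finset.subset_union_left).trans ih
          exact conn_union_of_off hoff h2
        have hz : Conn ends F0 a z := by
          by_contra hz
          apply h1
          intro x hx
          rw [hs, Sym2.mem_iff] at hx
          rcases hx with rfl | rfl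
          · exact hz
          · exact hz'
        exact Or.inr ⟨e, heS, z, z', hs, hz, hz', ih⟩
    · exact Or.inr ih

/-- A connection through `F0 ∪ S` contains a simple path through the components of `F0`. -/
lemma exists_val {ends : E → Sym2 V} {F0 : Finset E} {d : V} :
    ∀ (n : ℕ) (S : Finset E) (a : V), S.card ≤ n → Conn ends (F0 ∪ S) a d →
      ∃ L, Val ends F0 a L d ∧ edg L ⊆ S := by
  classical
  intro n
  induction n with
  | zero =>
    intro S a hS h
    have hS' : S = ∅ := Finset.card_eq_zero.mp (Nat.le_zero.mp hS)
    subst hS'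
    rw [Finset.union_empty] at h
    exact ⟨[], h, by simp [edg]⟩
  | succ n ih =>
    intro S a hS h
    by_cases had : Conn ends F0 a d
    · exact ⟨[], had, by simp [edg]⟩
    set S' := S.filter (fun t => ∀ x ∈ ends t, ¬ Conn ends F0 a x) with hS'
    have hoff : ∀ t ∈ S', ∀ x y, ends t = s(x, y) → ¬ Conn ends F0 a x := by
      intro t ht x y hxy
      refine (Finset.mem_filter.mp ht).2 x ?_
      rw [hxy]
      exact Sym2.mem_mk_left _ _
    rcases exists_exit had h with h1 | ⟨t, htS, x, y, hxy, hx, hy, hyd⟩
    · exact absurd (conn_union_of_off hoff h1) had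
    · have htS' : t ∉ S' := fun h => hoff t h x y hxy hx
      have hcard : S'.card ≤ n := by
        have h1 : S' ⊂ S := by
          refine Finset.ssubset_iff_subset_ne.mpr ⟨Finset.filter_subset _ _, ?_⟩
          intro h
          exact htS' (h ▸ htS)
        have h2 := Finset.card_lt_card h1
        omega
      obtain ⟨L, hL, hLS⟩ := ih S' y hcard hyd
      refine ⟨(x, y, t) :: L, ⟨hx, hxy, hL, hy, had, ?_⟩, ?_⟩
      · intro r hr
        have hr' : r.2.2 ∈ S' := hLS (mem_edg.mpr ⟨r, hr, rfl⟩)
        have hr2 := hL.ends_eq r hr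
        exact ⟨hoff _ hr' _ _ hr2, hoff _ hr' r.2.1 r.1 (by rw [hr2, Sym2.eq_swap])⟩
      · rw [edg_cons]
        refine Finset.insert_subset htS ?_
        exact hLS.trans (Finset.filter_subset _ _)

/-- The valid list of steps is determined by its edges. -/
lemma Val.unique {ends : E → Sym2 V} {F0 : Finset E} {d : V} :
    ∀ (L1 L2 : List (V × V × E)) (a : V), Val ends F0 a L1 d → Val ends F0 a L2 d →
      edg L1 = edg L2 → L1 = L2 := by
  intro L1
  induction L1 with
  | nil =>
    intro L2 a _ _ h
    cases L2 with
    | nil => rfl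
    | cons s L =>
      rw [edg_cons] at h
      have : s.2.2 ∈ (∅ : Finset E) := by
        have h' : (∅ : Finset E) = insert s.2.2 (edg L) := by simpa [edg] using h
        rw [h']
        exact Finset.mem_insert_self _ _
      exact absurd this (Finset.notMem_empty _)
  | cons s L1 ih =>
    intro L2 a h1 h2 h
    cases L2 with
    | nil =>
      rw [edg_cons] at h
      have : s.2.2 ∈ (∅ : Finset E) := by
        have h' : insert s.2.2 (edg L1) = (∅ : Finset E) := by simpa [edg] using h
        rw [← h']
        exact Finset.mem_insert_self _ _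
      exact absurd this (Finset.notMem_empty _)
    | cons r L2 =>
      obtain ⟨a1, a2, a3, a4, a5, a6⟩ := h1
      obtain ⟨b1, b2, b3, b4, b5, b6⟩ := h2
      have off1 : ∀ t ∈ edg L1, ∀ x y, ends t = s(x, y) → ¬ Conn ends F0 a x := by
        intro t ht x y hxy
        obtain ⟨q, hq, rfl⟩ := mem_edg.mp ht
        rw [a3.ends_eq q hq] at hxy
        rcases Sym2.eq_iff.mp hxy with ⟨rfl, rfl⟩ | ⟨rfl, rfl⟩
        · exact (a6 q hq).1
        · exact (a6 q hq).2
      have off2 : ∀ t ∈ edg L2, ∀ x y, ends t = s(x, y) → ¬ Conn ends F0 a x := by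
        intro t ht x y hxy
        obtain ⟨q, hq, rfl⟩ := mem_edg.mp ht
        rw [b3.ends_eq q hq] at hxy
        rcases Sym2.eq_iff.mp hxy with ⟨rfl, rfl⟩ | ⟨rfl, rfl⟩
        · exact (b6 q hq).1
        · exact (b6 q hq).2
      rw [edg_cons, edg_cons] at h
      have hst : s.2.2 = r.2.2 := by
        have h3 : s.2.2 ∈ insert r.2.2 (edg L2) := h ▸ Finset.mem_insert_self _ _
        rcases Finset.mem_insert.mp h3 with h3 | h3
        · exact h3
        · exact absurd a1 (off2 _ h3 _ _ a2)
      have hsr : s = r := by
        have h3 : s(s.1, s.2.1) = s(r.1, r.2.1) := by rw [← a2, ← b2, hst]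
        rcases Sym2.eq_iff.mp h3 with ⟨h4, h5⟩ | ⟨h4, h5⟩
        · exact Prod.ext h4 (Prod.ext h5 hst)
        · exact absurd (h4 ▸ a1) b4
      subst hsr
      have hL : edg L1 = edg L2 := by
        have n1 : s.2.2 ∉ edg L1 := fun h => off1 _ h _ _ a2 a1
        have n2 : s.2.2 ∉ edg L2 := fun h => off2 _ h _ _ a2 a1
        rw [← Finset.erase_insert n1, ← Finset.erase_insert n2, h]
      rw [ih L2 s.2.1 a3 b3 hL]

end Pool.Agent.SC
end

section

/-!
Soundness and completeness of `walk`.
-/

namespace Pool.Agent.SC

/-- `L` is a simple path through the classes of the labelling `f`, from the class of `a` to the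
class of `m`. -/
def ValP (f : ℕ → ℕ) (m : ℕ) : ℕ → List (ℕ × ℕ) → Prop
  | a, [] => f a = f m
  | a, s :: L => f a = f s.1 ∧ (s.2 = s.1 + 1 ∨ s.1 = s.2 + 1) ∧ ValP f m s.2 L ∧
      f a ≠ f s.2 ∧ f a ≠ f m ∧ ∀ r ∈ L, f a ≠ f r.1 ∧ f a ≠ f r.2

lemma ValP.adj {f : ℕ → ℕ} {m a : ℕ} {L : List (ℕ × ℕ)} (h : ValP f m a L) :
    ∀ r ∈ L, r.2 = r.1 + 1 ∨ r.1 = r.2 + 1 := by
  induction L generalizing a with
  | nil => simp
  | cons s L ih =>
    obtain ⟨_, h2, h3, _⟩ := h
    intro r hr
    rcases List.mem_cons.mp hr with rfl | hr
    · exact h2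
    · exact ih h3 r hr

/-- The position of the edge of a step. -/
def idx (r : ℕ × ℕ) : ℕ := min r.1 r.2

lemma idx_cases {r : ℕ × ℕ} (h : r.2 = r.1 + 1 ∨ r.1 = r.2 + 1) :
    (r.1 = idx r ∧ r.2 = idx r + 1) ∨ (r.1 = idx r + 1 ∧ r.2 = idx r) := by
  unfold idx
  omega

lemma eq_singleton {l : List ℕ} {t : ℕ} (hnd : l.Nodup) (h1 : ∀ x ∈ l, x = t) (h2 : t ∈ l) :
    l = [t] := by
  cases l with
  | nil => simp at h2
  | cons x l =>
    have hx : x = t := h1 x (by simp)
    subst hx
    cases l with
    | nil => rfl
    | cons y l =>
      have hy : y = x := h1 y (by simp)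
      subst hy
      simp at hnd

lemma walk_sound (f : ℕ → ℕ) (m : ℕ) :
    ∀ (n : ℕ) (a : ℕ) (T : List ℕ) (L : List (ℕ × ℕ)), T.Nodup → f a ≠ f m →
      walk f m n (f a) T = some L → ValP f m a L ∧ (∀ x, x ∈ L.map idx ↔ x ∈ T) := by
  intro n
  induction n with
  | zero => intro a T L _ _ h; simp [walk] at h
  | succ n ih =>
    intro a T L hT ham h
    rw [walk] at h
    split at h
    · rename_i t hfil
      have htT : t ∈ T := by
        have : t ∈ T.filter (fun t => f t == f a || f (t + 1) == f a) := by rw [hfil]; simp
        exact (List.mem_filter.mp this).1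
      have htouch : f t = f a ∨ f (t + 1) = f a := by
        have : t ∈ T.filter (fun t => f t == f a || f (t + 1) == f a) := by rw [hfil]; simp
        simpa using (List.mem_filter.mp this).2
      have hoff : ∀ x ∈ T.erase t, f x ≠ f a ∧ f (x + 1) ≠ f a := by
        intro x hx
        have hxT : x ∈ T := List.mem_of_mem_erase hx
        have hxt : x ≠ t := by
          intro h
          rw [h] at hx
          exact hT.not_mem_erase hx
        by_contra hcon
        have : x ∈ T.filter (fun t => f t == f a || f (t + 1) == f a) := by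
          rw [List.mem_filter]
          refine ⟨hxT, ?_⟩
          simp only [Bool.or_eq_true, beq_iff_eq]
          by_contra h2
          push Not at h2
          exact hcon h2
        rw [hfil] at this
        simp at this
        exact hxt this
      set s : ℕ × ℕ := if f t == f a then (t, t + 1) else (t + 1, t) with hs
      have hs1 : f a = f s.1 := by
        rw [hs]
        split_ifs with h1
        · simpa using (beq_iff_eq.mp h1).symm
        · have h2 : f t ≠ f a := by simpa using h1
          exact (htouch.resolve_left h2).symm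
      have hs2 : s.2 = s.1 + 1 ∨ s.1 = s.2 + 1 := by
        rw [hs]
        split_ifs <;> simp
      have hsi : idx s = t := by
        rw [hs]
        split_ifs <;> simp [idx]
      simp only at h
      split_ifs at h with h1 h2
      · split at h
        · rename_i y
          have hxt : y = t := by
            rw [List.mem_singleton] at htT
            exact htT.symm
          subst hxt
          simp only [Option.some.injEq] at h
          subst h
          refine ⟨⟨hs1, hs2, ?_, ?_, ham, by simp⟩, ?_⟩
          · show f s.2 = f m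
            simpa using h2
          · intro h3
            apply h1
            simp [h3]
          · intro x
            simp [hsi]
        · simp at h
      · rw [Option.map_eq_some_iff] at h
        obtain ⟨L', hL', rfl⟩ := h
        have h2' : f s.2 ≠ f m := by simpa using h2
        obtain ⟨hv, hi⟩ := ih s.2 (T.erase t) L' (hT.erase t) h2' hL'
        refine ⟨⟨hs1, hs2, hv, ?_, ham, ?_⟩, ?_⟩
        · intro h3
          apply h1
          simp [h3]
        · intro r hr
          have h3 : idx r ∈ T.erase t := (hi _).mp (List.mem_map_of_mem hr)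
          have h4 := hoff _ h3
          rcases idx_cases (hv.adj r hr) with ⟨h5, h6⟩ | ⟨h5, h6⟩
          · rw [h5, h6]
            exact ⟨h4.1.symm, h4.2.symm⟩
          · rw [h5, h6]
            exact ⟨h4.2.symm, h4.1.symm⟩
        · intro x
          rw [List.map_cons, List.mem_cons, hi x, hsi]
          constructor
          · rintro (rfl | h)
            · exact htT
            · exact List.mem_of_mem_erase h
          · intro hx
            by_cases hxt : x = t
            · exact Or.inl hxt
            · exact Or.inr ((List.mem_erase_of_ne hxt).mpr hx)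
    · simp at h

lemma walk_complete (f : ℕ → ℕ) (m : ℕ) :
    ∀ (L : List (ℕ × ℕ)) (n : ℕ) (a : ℕ) (T : List ℕ), T.Nodup → L ≠ [] → L.length ≤ n →
      ValP f m a L → (L.map idx).Nodup → (∀ x, x ∈ L.map idx ↔ x ∈ T) →
      walk f m n (f a) T = some L := by
  intro L
  induction L with
  | nil => intro n a T _ h; exact absurd rfl h
  | cons s L ih =>
    intro n a T hT _ hn hv hnd hi
    obtain ⟨n, rfl⟩ : ∃ k, n = k + 1 := ⟨n - 1, by simp at hn; omega⟩
    have hadj := hv.adj
    obtain ⟨h1, h2, h3, h4, h5, h6⟩ := hv
    have hsT : idx s ∈ T := (hi _).mp (by simp)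
    have hfil : T.filter (fun t => f t == f a || f (t + 1) == f a) = [idx s] := by
      refine eq_singleton (hT.filter _) ?_ ?_
      · intro x hx
        obtain ⟨hxT, hx2⟩ := List.mem_filter.mp hx
        have hx3 : f x = f a ∨ f (x + 1) = f a := by simpa using hx2
        have hx4 := (hi x).mpr hxT
        rw [List.map_cons, List.mem_cons] at hx4
        rcases hx4 with hx4 | hx4
        · exact hx4
        · exfalso
          obtain ⟨r, hr, rfl⟩ := List.mem_map.mp hx4
          have h7 := h6 r hr
          rcases idx_cases (h3.adj r hr) with ⟨h8, h9⟩ | ⟨h8, h9⟩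
          · rw [← h9, ← h8] at hx3
            rcases hx3 with h | h
            · exact h7.1 h.symm
            · exact h7.2 h.symm
          · rw [← h8, ← h9] at hx3
            rcases hx3 with h | h
            · exact h7.2 h.symm
            · exact h7.1 h.symm
      · rw [List.mem_filter]
        refine ⟨hsT, ?_⟩
        rcases idx_cases h2 with ⟨h8, h9⟩ | ⟨h8, h9⟩
        · rw [← h8, ← h1]
          simp
        · rw [← h8, ← h1]
          simp
    have hs : (if f (idx s) == f a then (idx s, idx s + 1) else (idx s + 1, idx s)) = s := by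
      rcases idx_cases h2 with ⟨h8, h9⟩ | ⟨h8, h9⟩
      · rw [if_pos (by rw [← h8, ← h1]; simp)]
        rw [← h8] at h9 ⊢
        rw [← h9]
      · rw [if_neg (by rw [← h9]; simpa using fun h => h4 h.symm)]
        rw [← h9] at h8 ⊢
        rw [← h8]
    have hs4 : ¬ (f s.2 == f a) = true := by simpa using fun h => h4 h.symm
    rw [walk, hfil]
    simp only [hs]
    rw [if_neg hs4]
    have hndL := (List.nodup_cons.mp (by simpa using hnd : (idx s :: L.map idx).Nodup))
    by_cases h7 : f s.2 = f m
    · have hL : L = [] := by
        cases L with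
        | nil => rfl
        | cons r L =>
          obtain ⟨_, _, _, _, h8, _⟩ := h3
          exact absurd h7 h8
      subst hL
      have hTs : T = [idx s] := by
        refine eq_singleton hT ?_ hsT
        intro x hx
        have := (hi x).mpr hx
        simpa using this
      rw [if_pos (by simpa using h7), hTs]
    · have hL : L ≠ [] := by
        rintro rfl
        exact h7 h3
      rw [if_neg (by simpa using h7)]
      rw [ih n s.2 (T.erase (idx s)) (hT.erase _) hL (by simp at hn; omega) h3 hndL.2 ?_]
      · rfl
      · intro x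
        constructor
        · intro hx
          have hxs : x ≠ idx s := fun h => hndL.1 (h ▸ hx)
          rw [List.mem_erase_of_ne hxs]
          exact (hi x).mp (by rw [List.map_cons]; exact List.mem_cons_of_mem _ hx)
        · intro hx
          have hxs : x ≠ idx s := by
            intro h
            rw [h] at hx
            exact hT.not_mem_erase hx
          rw [List.mem_erase_of_ne hxs] at hx
          have := (hi x).mpr hx
          rw [List.map_cons, List.mem_cons] at this
          exact this.resolve_left hxs

end Pool.Agent.SC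
end
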