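import Pool.Agent.Lib.MP_d90615_co.Mg.G030

section

/-!
Transfer between positions and vertices.
-/

namespace Pool.Agent.SC

open Finset Pool.Agent.Lib.MP_d90615_co

section Map

variable {α β : Type*} [DecidableEq α] [DecidableEq β]

/-- The entries of the list are in `s`. -/
def Ent (s : Set α) (L : List (α × α)) : Prop := ∀ r ∈ L, r.1 ∈ s ∧ r.2 ∈ s

omit [DecidableEq α] in
lemma Ent.cons_iff {s : Set α} {r : α × α} {L : List (α × α)} :
    Ent s (r :: L) ↔ (r.1 ∈ s ∧ r.2 ∈ s) ∧ Ent s L := by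
  simp [Ent]

lemma Ent.merge {s : Set α} {L : List (α × α)} (h : Ent s L) : Ent s (merge L) := by
  induction L with
  | nil => simpa [Pool.Agent.SC.merge] using h
  | cons r L ih =>
    rw [Ent.cons_iff] at h
    have h1 := ih h.2
    rw [Pool.Agent.SC.merge]
    cases hm : Pool.Agent.SC.merge L with
    | nil =>
      simp only
      rw [Ent.cons_iff]
      exact ⟨h.1, by simp [Ent]⟩
    | cons q M =>
      rw [hm, Ent.cons_iff] at h1
      simp only
      split_ifs
      · rw [Ent.cons_iff]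
        exact ⟨⟨h.1.1, h1.1.2⟩, h1.2⟩
      · rw [Ent.cons_iff, Ent.cons_iff]
        exact ⟨h.1, h1⟩

lemma Ent.dropHead {s : Set α} {a : α} {L : List (α × α)} (h : Ent s L) :
    Ent s (dropHead a L) := by
  cases L with
  | nil => simpa [Pool.Agent.SC.dropHead] using h
  | cons r L =>
    rw [Pool.Agent.SC.dropHead]
    split_ifs
    · exact (Ent.cons_iff.mp h).2
    · exact h

lemma merge_map {s : Set α} {f : α → β} (hf : Set.InjOn f s) {L : List (α × α)} (h : Ent s L) :
    merge (L.map (Prod.map f f)) = (merge L).map (Prod.map f f) := by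
  induction L with
  | nil => rfl
  | cons r L ih =>
    rw [Ent.cons_iff] at h
    have h1 := ih h.2
    have h2 := h.2.merge
    rw [List.map_cons, merge, merge, h1]
    cases hm : merge L with
    | nil => simp
    | cons q M =>
      rw [hm, Ent.cons_iff] at h2
      simp only [List.map_cons]
      have h3 : (Prod.map f f r).2 = (Prod.map f f q).1 ↔ r.2 = q.1 := by
        simp only [Prod.map_snd, Prod.map_fst]
        exact hf.eq_iff h.1.2 h2.1.1
      by_cases h4 : r.2 = q.1
      · rw [if_pos h4, if_pos (h3.mpr h4)]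
        simp
      · rw [if_neg h4, if_neg (fun h => h4 (h3.mp h))]
        simp

lemma dropHead_map {s : Set α} {f : α → β} (hf : Set.InjOn f s) {a : α} (ha : a ∈ s)
    {L : List (α × α)} (h : Ent s L) :
    dropHead (f a) (L.map (Prod.map f f)) = (dropHead a L).map (Prod.map f f) := by
  cases L with
  | nil => rfl
  | cons r L =>
    rw [Ent.cons_iff] at h
    rw [List.map_cons, dropHead, dropHead]
    have h3 : (Prod.map f f r).1 = f a ↔ r.1 = a := by
      simp only [Prod.map_fst]
      exact hf.eq_iff h.1.1 ha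
    by_cases h4 : r.1 = a
    · rw [if_pos h4, if_pos (h3.mpr h4)]
    · rw [if_neg h4, if_neg (fun h => h4 (h3.mp h))]
      simp

lemma dropLast_map {s : Set α} {f : α → β} (hf : Set.InjOn f s) {a : α} (ha : a ∈ s)
    {L : List (α × α)} (h : Ent s L) :
    dropLast (f a) (L.map (Prod.map f f)) = (dropLast a L).map (Prod.map f f) := by
  induction L with
  | nil => rfl
  | cons r L ih =>
    rw [Ent.cons_iff] at h
    cases L with
    | nil =>
      rw [List.map_cons, List.map_nil, dropLast, dropLast]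
      have h3 : (Prod.map f f r).2 = f a ↔ r.2 = a := by
        simp only [Prod.map_snd]
        exact hf.eq_iff h.1.2 ha
      by_cases h4 : r.2 = a
      · rw [if_pos h4, if_pos (h3.mpr h4)]
        simp
      · rw [if_neg h4, if_neg (fun h => h4 (h3.mp h))]
        simp
    | cons q L =>
      have h1 := ih h.2
      simp only [List.map_cons] at h1 ⊢
      rw [dropLast, dropLast, h1, List.map_cons]

lemma inner_map {s : Set α} {f : α → β} (hf : Set.InjOn f s) {a z : α} (ha : a ∈ s) (hz : z ∈ s)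
    {L : List (α × α)} (h : Ent s L) :
    inner (f a) (f z) (L.map (Prod.map f f)) = (inner a z L).map (Prod.map f f) := by
  rw [inner, merge_map hf h, dropHead_map hf ha h.merge, dropLast_map hf hz h.merge.dropHead,
    inner]

omit [DecidableEq α] [DecidableEq β] in
lemma gs_map (ν : β → ℕ) (f : α → β) (L : List (α × α)) :
    gs ν (L.map (Prod.map f f)) = gs (ν ∘ f) L := by
  match L with
  | [] => rfl
  | [_] => rfl
  | [_, _] => rfl
  | _ :: _ :: _ :: _ => rfl

end Map

lemma sg_self_mul (a b : ℕ) : sg a b * sg a b = 1 := by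
  unfold sg
  split_ifs <;> rfl

lemma sg_swap {a b : ℕ} (h : a ≠ b) : sg b a = - sg a b := by
  unfold sg
  rcases lt_or_gt_of_ne h with h | h
  · rw [if_neg (by omega), if_pos h]
  · rw [if_pos h, if_neg (by omega)]
    rfl

lemma gs_pat {m : ℕ} (ν : ℕ → ℕ) (hν : ∀ i ≤ m, ∀ j ≤ m, ν i = ν j → i = j)
    {I I' : List (ℕ × ℕ)} (h : pat m I I' = true) : gs ν I * gs ν I' = gs id I' := by
  match I, I' with
  | [], [] => rfl
  | [s], [r] =>
    obtain ⟨p, q⟩ := s
    obtain ⟨a, b⟩ := r
    simp only [pat, same, Bool.and_eq_true, Bool.or_eq_true, decide_eq_true_eq,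
      beq_iff_eq] at h
    obtain ⟨⟨h1, h2⟩, h3⟩ := h
    have hne : ν p ≠ ν q := fun h => by
      have := hν p (by omega) q h2 h
      omega
    simp only [gs, id]
    rcases h3 with ⟨rfl, rfl⟩ | ⟨rfl, rfl⟩
    · rw [sg_self_mul, sg, if_pos h1]
    · rw [sg_swap hne, sg, sg]
      split_ifs <;> omega
  | [s, s'], [r, r'] =>
    obtain ⟨p, q⟩ := s
    obtain ⟨p', q'⟩ := s'
    obtain ⟨a, b⟩ := r
    obtain ⟨a', b'⟩ := r'
    simp only [pat, same, Bool.and_eq_true, Bool.or_eq_true, decide_eq_true_eq,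
      beq_iff_eq] at h
    obtain ⟨⟨⟨⟨h1, h2⟩, h3⟩, h4⟩, h5⟩ := h
    have n1 : ν p ≠ ν q := fun h => by
      have := hν p (by omega) q (by omega) h
      omega
    have n2 : ν p' ≠ ν q' := fun h => by
      have := hν p' (by omega) q' (by omega) h
      omega
    have n3 : min (ν p) (ν q) ≠ min (ν p') (ν q') := by
      intro h
      rcases min_choice (ν p) (ν q) with h6 | h6 <;> rcases min_choice (ν p') (ν q') with h7 | h7 <;>
        rw [h6, h7] at h
      · have := hν p (by omega) p' (by omega) h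
        omega
      · have := hν p (by omega) q' (by omega) h
        omega
      · have := hν q (by omega) p' (by omega) h
        omega
      · have := hν q (by omega) q' (by omega) h
        omega
    have e1 : sg p q = 1 := by rw [sg, if_pos h1]
    have e2 : sg q p = -1 := by rw [sg, if_neg (by omega)]
    have e3 : sg p' q' = 1 := by rw [sg, if_pos h3]
    have e4 : sg q' p' = -1 := by rw [sg, if_neg (by omega)]
    have e5 : sg (min p q) (min p' q') = 1 := by rw [sg, if_pos (by omega)]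
    have e6 : sg (min p' q') (min p q) = -1 := by rw [sg, if_neg (by omega)]
    have k1 := sg_self_mul (ν p) (ν q)
    have k2 := sg_self_mul (ν p') (ν q')
    have k3 := sg_self_mul (min (ν p) (ν q)) (min (ν p') (ν q'))
    have k4 := sg_swap n1
    have k5 := sg_swap n2
    have k6 := sg_swap n3
    have kk : sg (ν p) (ν q) * sg (ν p') (ν q') *
        sg (min (ν p) (ν q)) (min (ν p') (ν q')) * (sg (ν p) (ν q) * sg (ν p') (ν q') *
        sg (min (ν p) (ν q)) (min (ν p') (ν q'))) = 1 := by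
      calc _ = (sg (ν p) (ν q) * sg (ν p) (ν q)) * (sg (ν p') (ν q') * sg (ν p') (ν q')) *
          (sg (min (ν p) (ν q)) (min (ν p') (ν q')) *
            sg (min (ν p) (ν q)) (min (ν p') (ν q'))) := by ring
        _ = 1 := by rw [k1, k2, k3]; rfl
    simp only [gs, id]
    rcases h5 with ⟨⟨rfl, rfl⟩ | ⟨rfl, rfl⟩, ⟨rfl, rfl⟩ | ⟨rfl, rfl⟩⟩ |
      ⟨⟨rfl, rfl⟩ | ⟨rfl, rfl⟩, ⟨rfl, rfl⟩ | ⟨rfl, rfl⟩⟩
    all_goals
      simp only [min_comm q p, min_comm q' p', min_comm (ν q) (ν p), min_comm (ν q') (ν p'),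
        e1, e2, e3, e4, e5, e6, k4, k5, k6]
      first
      | linear_combination kk
      | linear_combination -kk
  | [], _ :: _ => simp [pat] at h
  | [_], [] => simp [pat] at h
  | [_], _ :: _ :: _ => simp [pat] at h
  | [_, _], [] => simp [pat] at h
  | [_, _], [_] => simp [pat] at h
  | [_, _], _ :: _ :: _ :: _ => simp [pat] at h
  | _ :: _ :: _ :: _, _ => simp [pat] at h

end Pool.Agent.SC
end

section

/-!
Positions on a path: transfer of simple paths, labellings, sublists.
-/

namespace Pool.Agent.SC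

open Finset Pool.Agent.Lib.MP_d90615_co

section Transfer

variable {V E : Type*} [DecidableEq E]

/-- The step of the graph that belongs to a step of positions. -/
def tr (v : ℕ → V) (ε : ℕ → E) (s : ℕ × ℕ) : V × V × E := (v s.1, v s.2, ε (idx s))

omit [DecidableEq E] in
lemma step_ends {ends : E → Sym2 V} {v : ℕ → V} {ε : ℕ → E} {m : ℕ}
    (hends : ∀ i < m, ends (ε i) = s(v i, v (i + 1))) {s : ℕ × ℕ}
    (h : s.2 = s.1 + 1 ∨ s.1 = s.2 + 1) (hs : idx s < m) :
    ends (ε (idx s)) = s(v s.1, v s.2) := by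
  rw [hends _ hs]
  rcases idx_cases h with ⟨h1, h2⟩ | ⟨h1, h2⟩
  · rw [← h2, ← h1]
  · rw [← h1, ← h2, Sym2.eq_swap]

omit [DecidableEq E] in
lemma valP_to_val {ends : E → Sym2 V} {v : ℕ → V} {ε : ℕ → E} {m : ℕ}
    (hends : ∀ i < m, ends (ε i) = s(v i, v (i + 1))) {F0 : Finset E} {f : ℕ → ℕ}
    (hf : ∀ i ≤ m, ∀ j ≤ m, (f i = f j ↔ Conn ends F0 (v i) (v j))) :
    ∀ (L : List (ℕ × ℕ)) (a : ℕ), a ≤ m → (∀ r ∈ L, idx r < m) → ValP f m a L →
      Val ends F0 (v a) (L.map (tr v ε)) (v m) := by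
  intro L
  induction L with
  | nil =>
    intro a ha _ h
    exact (hf a ha m le_rfl).mp h
  | cons s L ih =>
    intro a ha hL h
    have hadj := h.adj
    obtain ⟨h1, h2, h3, h4, h5, h6⟩ := h
    have hs : idx s < m := hL s (by simp)
    have hs1 : s.1 ≤ m := by
      rcases idx_cases h2 with ⟨h7, h8⟩ | ⟨h7, h8⟩ <;> omega
    have hs2 : s.2 ≤ m := by
      rcases idx_cases h2 with ⟨h7, h8⟩ | ⟨h7, h8⟩ <;> omega
    refine ⟨(hf a ha _ hs1).mp h1, step_ends hends h2 hs,
      ih s.2 hs2 (fun r hr => hL r (by simp [hr])) h3, ?_, ?_, ?_⟩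
    · exact fun h => h4 ((hf a ha _ hs2).mpr h)
    · exact fun h => h5 ((hf a ha _ le_rfl).mpr h)
    · intro r hr
      obtain ⟨q, hq, rfl⟩ := List.mem_map.mp hr
      have hq' : idx q < m := hL q (by simp [hq])
      have hq1 : q.1 ≤ m ∧ q.2 ≤ m := by
        rcases idx_cases (hadj q (by simp [hq])) with ⟨h7, h8⟩ | ⟨h7, h8⟩ <;> omega
      exact ⟨fun h => (h6 q hq).1 ((hf a ha _ hq1.1).mpr h),
        fun h => (h6 q hq).2 ((hf a ha _ hq1.2).mpr h)⟩

lemma val_to_valP {ends : E → Sym2 V} {v : ℕ → V} {ε : ℕ → E} {m : ℕ}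
    (hends : ∀ i < m, ends (ε i) = s(v i, v (i + 1))) {F0 : Finset E} {f : ℕ → ℕ}
    (hf : ∀ i ≤ m, ∀ j ≤ m, (f i = f j ↔ Conn ends F0 (v i) (v j))) :
    ∀ (L : List (V × V × E)) (a : ℕ), a ≤ m → (∀ t ∈ edg L, ∃ i < m, t = ε i) →
      Val ends F0 (v a) L (v m) →
      ∃ P : List (ℕ × ℕ), L = P.map (tr v ε) ∧ ValP f m a P ∧ ∀ r ∈ P, idx r < m := by
  intro L
  induction L with
  | nil =>
    intro a ha _ h
    exact ⟨[], rfl, (hf a ha m le_rfl).mpr h, by simp⟩
  | cons s L ih =>
    intro a ha hL h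
    obtain ⟨h1, h2, h3, h4, h5, h6⟩ := h
    obtain ⟨i, hi, hsi⟩ := hL s.2.2 (by rw [edg_cons]; exact Finset.mem_insert_self _ _)
    have h7 : s(v i, v (i + 1)) = s(s.1, s.2.1) := by rw [← h2, hsi, hends i hi]
    obtain ⟨q, hq, hqi, hqt⟩ : ∃ q : ℕ × ℕ, (q.2 = q.1 + 1 ∨ q.1 = q.2 + 1) ∧ idx q = i ∧
        s = tr v ε q := by
      rcases Sym2.eq_iff.mp h7 with ⟨h8, h9⟩ | ⟨h8, h9⟩
      · refine ⟨(i, i + 1), Or.inl rfl, by simp [idx], ?_⟩
        refine Prod.ext h8.symm (Prod.ext h9.symm ?_)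
        simp [tr, idx, hsi]
      · refine ⟨(i + 1, i), Or.inr rfl, by simp [idx], ?_⟩
        refine Prod.ext h9.symm (Prod.ext h8.symm ?_)
        simp [tr, idx, hsi]
    have hq1 : q.1 ≤ m ∧ q.2 ≤ m := by
      rcases idx_cases hq with ⟨h7, h8⟩ | ⟨h7, h8⟩ <;> omega
    subst hqt
    obtain ⟨P, rfl, hP, hPm⟩ := ih q.2 hq1.2 (fun t ht => hL t (by
      rw [edg_cons]; exact Finset.mem_insert_of_mem ht)) h3
    refine ⟨q :: P, rfl, ⟨(hf a ha _ hq1.1).mpr h1, hq, hP, ?_, ?_, ?_⟩, ?_⟩
    · exact fun h => h4 ((hf a ha _ hq1.2).mp h)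
    · exact fun h => h5 ((hf a ha _ le_rfl).mp h)
    · intro r hr
      have h8 := h6 (tr v ε r) (List.mem_map_of_mem hr)
      have h9 := hPm r hr
      have hr1 : r.1 ≤ m ∧ r.2 ≤ m := by
        rcases idx_cases (hP.adj r hr) with ⟨h7, h8⟩ | ⟨h7, h8⟩ <;> omega
      exact ⟨fun h => h8.1 ((hf a ha _ hr1.1).mp h), fun h => h8.2 ((hf a ha _ hr1.2).mp h)⟩
    · intro r hr
      rcases List.mem_cons.mp hr with rfl | hr
      · omega
      · exact hPm r hr

lemma edg_map_tr (v : ℕ → V) (ε : ℕ → E) (P : List (ℕ × ℕ)) :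
    edg (P.map (tr v ε)) = (P.map idx).toFinset.image ε := by
  ext t
  simp only [mem_edg, List.mem_map, Finset.mem_image, List.mem_toFinset, tr]
  constructor
  · rintro ⟨s, ⟨r, hr, rfl⟩, rfl⟩
    exact ⟨idx r, ⟨r, hr, rfl⟩, rfl⟩
  · rintro ⟨i, ⟨r, hr, rfl⟩, rfl⟩
    exact ⟨_, ⟨r, hr, rfl⟩, rfl⟩

end Transfer

section Labels

/-- The entry of a list made by a function. -/
lemma lb_map (f : ℕ → ℕ) : ∀ (L : List ℕ) (i : ℕ) (h : i < L.length), lb (L.map f) i = f L[i] := by
  intro L
  induction L with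
  | nil => intro i h; simp at h
  | cons x L ih =>
    intro i h
    cases i with
    | zero => rfl
    | succ i =>
      rw [List.map_cons, lb, ih i (by simpa using h)]
      rfl

lemma lb_range {n : ℕ} (f : ℕ → ℕ) {i : ℕ} (h : i < n) : lb ((List.range n).map f) i = f i := by
  rw [lb_map f _ i (by simpa using h)]
  simp

lemma mem_labs (f : ℕ → ℕ) (h1 : ∀ i, f i ≤ i) (h2 : ∀ i, f (f i) = f i) (n : ℕ) :
    (List.range n).map f ∈ labs n := by
  induction n with
  | zero => simp [labs]
  | succ n ih =>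
    rw [labs, List.mem_flatMap]
    refine ⟨_, ih, ?_⟩
    rw [List.mem_map]
    refine ⟨f n, ?_, ?_⟩
    · rw [List.mem_filter]
      refine ⟨by rw [List.mem_range]; exact Nat.lt_succ_of_le (h1 n), ?_⟩
      rcases Nat.lt_or_ge (f n) n with h | h
      · rw [lb_range f h, h2]
        simp
      · have : f n = n := le_antisymm (h1 n) h
        simp [this]
    · rw [List.range_succ, List.map_append]
      rfl

open scoped Classical in
/-- The least position equivalent to `i`. -/
noncomputable def lab (R : ℕ → ℕ → Prop) (i : ℕ) : ℕ :=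
  if h : ∃ j, R j i then Nat.find h else i

lemma lab_spec {R : ℕ → ℕ → Prop} (hr : ∀ i, R i i) (i : ℕ) : R (lab R i) i := by
  classical
  have h : ∃ j, R j i := ⟨i, hr i⟩
  rw [lab, dif_pos h]
  exact Nat.find_spec h

lemma lab_le {R : ℕ → ℕ → Prop} (hr : ∀ i, R i i) (i : ℕ) : lab R i ≤ i := by
  classical
  have h : ∃ j, R j i := ⟨i, hr i⟩
  rw [lab, dif_pos h]
  exact Nat.find_min' h (hr i)

lemma lab_eq_iff {R : ℕ → ℕ → Prop} (hr : ∀ i, R i i) (hs : ∀ i j, R i j → R j i)
    (ht : ∀ i j k, R i j → R j k → R i k) (i j : ℕ) : lab R i = lab R j ↔ R i j := by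
  classical
  constructor
  · intro h
    have h1 := lab_spec hr i
    have h2 := lab_spec hr j
    rw [h] at h1
    exact ht _ _ _ (hs _ _ h1) h2
  · intro h
    have key : ∀ i j, R i j → lab R i ≤ lab R j := by
      intro i j hij
      have h3 : ∃ k, R k i := ⟨i, hr i⟩
      rw [lab, dif_pos h3]
      exact Nat.find_min' h3 (ht _ _ _ (lab_spec hr j) (hs _ _ hij))
    exact le_antisymm (key i j h) (key j i (hs _ _ h))

end Labels

section Subs

lemma mem_subs {m : ℕ} {T : List ℕ} (h : T ∈ subs m) : T.Nodup ∧ ∀ x ∈ T, x < m := by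
  induction m generalizing T with
  | zero =>
    rw [subs, List.mem_singleton] at h
    subst h
    simp
  | succ m ih =>
    rw [subs, List.mem_append] at h
    rcases h with h | h
    · obtain ⟨h1, h2⟩ := ih h
      exact ⟨h1, fun x hx => (h2 x hx).trans (Nat.lt_succ_self m)⟩
    · obtain ⟨T', hT', rfl⟩ := List.mem_map.mp h
      obtain ⟨h1, h2⟩ := ih hT'
      refine ⟨?_, ?_⟩
      · rw [List.nodup_append]
        refine ⟨h1, by simp, ?_⟩
        intro a ha b hb
        rw [List.mem_singleton] at hb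
        subst hb
        exact (h2 a ha).ne
      · intro x hx
        rw [List.mem_append, List.mem_singleton] at hx
        rcases hx with hx | rfl
        · exact (h2 x hx).trans (Nat.lt_succ_self m)
        · exact Nat.lt_succ_self _

lemma sum_subs {M : Type*} [AddCommMonoid M] (m : ℕ) (h : Finset ℕ → M) :
    ∑ T ∈ (range m).powerset, h T = ((subs m).map fun T => h T.toFinset).sum := by
  induction m generalizing h with
  | zero => simp [subs]
  | succ m ih =>
    rw [Finset.range_add_one, Finset.sum_powerset_insert (by simp), ih h,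
      ih fun T => h (insert m T), subs, List.map_append, List.sum_append, List.map_map]
    congr 2
    refine List.map_congr_left fun T _ => ?_
    simp only [Function.comp, List.toFinset_append, List.toFinset_cons, List.toFinset_nil]
    congr 1
    ext x
    simp [or_comm]

end Subs

end Pool.Agent.SC
end
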