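import Pool.Agent.Lib.MP_d90615_co.Mg.G031

section

/-!
The path between two vertices of a tree.
-/

namespace Pool.Agent.SC

open Finset Pool.Agent.Lib.MP_d90615_co

variable {V E : Type*} [DecidableEq E]

omit [DecidableEq E] in
lemma conn_empty {ends : E → Sym2 V} {a b : V} : Conn ends ∅ a b ↔ a = b := by
  constructor
  · intro h
    induction h with
    | refl => rfl
    | tail _ h2 _ =>
      obtain ⟨e, he, _⟩ := h2
      simp at he
  · rintro rfl
    exact Conn.refl _ _ _

lemma path_of_val {ends : E → Sym2 V} (e0 : E) {d : V} :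
    ∀ (L : List (V × V × E)) (a : V), Val ends ∅ a L d →
      ∃ (v : ℕ → V) (ε : ℕ → E), v 0 = a ∧ v L.length = d ∧
        (∀ i < L.length, ε i ∈ edg L ∧ ends (ε i) = s(v i, v (i + 1))) ∧
        (∀ j ≤ L.length, v j = a ∨ ∃ r ∈ L, v j = r.2.1) ∧
        ∀ i ≤ L.length, ∀ j ≤ L.length, v i = v j → i = j := by
  intro L
  induction L with
  | nil =>
    intro a h
    refine ⟨fun _ => a, fun _ => e0, rfl, conn_empty.mp h, by simp, fun j _ => Or.inl rfl, ?_⟩
    intro i hi j hj _
    simp at hi hj
    omega
  | cons s L ih =>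
    intro a h
    obtain ⟨h1, h2, h3, h4, h5, h6⟩ := h
    rw [conn_empty] at h1 h4 h5
    obtain ⟨v, ε, k1, k2, k3, k4, k5⟩ := ih s.2.1 h3
    have hoff : ∀ j ≤ L.length, v j ≠ a := by
      intro j hj hja
      rcases k4 j hj with h | ⟨r, hr, h⟩
      · exact h4 (by rw [← hja, h])
      · exact (h6 r hr).2 (conn_empty.mpr (by rw [← hja, h]))
    refine ⟨fun i => if i = 0 then a else v (i - 1), fun i => if i = 0 then s.2.2 else ε (i - 1),
      by simp, by simp [k2], ?_, ?_, ?_⟩
    · intro i hi
      rw [List.length_cons] at hi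
      cases i with
      | zero =>
        simp only [if_true, zero_add, one_ne_zero, if_false, Nat.sub_self]
        rw [edg_cons, k1, h2, ← h1]
        exact ⟨Finset.mem_insert_self _ _, rfl⟩
      | succ i =>
        obtain ⟨h7, h8⟩ := k3 i (by omega)
        simp only [Nat.succ_ne_zero, if_false, Nat.add_sub_cancel]
        rw [edg_cons, h8]
        exact ⟨Finset.mem_insert_of_mem h7, rfl⟩
    · intro j hj
      cases j with
      | zero => simp
      | succ j =>
        right
        simp only [Nat.succ_ne_zero, if_false, Nat.add_sub_cancel]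
        rw [List.length_cons] at hj
        rcases k4 j (by omega) with h | ⟨r, hr, h⟩
        · exact ⟨s, by simp, h⟩
        · exact ⟨r, by simp [hr], h⟩
    · intro i hi j hj hij
      rw [List.length_cons] at hi hj
      cases i with
      | zero =>
        cases j with
        | zero => rfl
        | succ j =>
          simp only [if_true, Nat.succ_ne_zero, if_false, Nat.add_sub_cancel] at hij
          exact absurd hij.symm (hoff j (by omega))
      | succ i =>
        cases j with
        | zero =>
          simp only [if_true, Nat.succ_ne_zero, if_false, Nat.add_sub_cancel] at hij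
          exact absurd hij (hoff i (by omega))
        | succ j =>
          simp only [Nat.succ_ne_zero, if_false, Nat.add_sub_cancel] at hij
          rw [k5 i (by omega) j (by omega) hij]

/-- `v 0, …, v m` with the edges `ε 0, …, ε (m-1)` is a simple path in `F` from `c` to `d`. -/
structure IsPath (ends : E → Sym2 V) (F : Finset E) (c d : V) (m : ℕ) (v : ℕ → V)
    (ε : ℕ → E) : Prop where
  start : v 0 = c
  stop : v m = d
  mem : ∀ i < m, ε i ∈ F
  ends_eq : ∀ i < m, ends (ε i) = s(v i, v (i + 1))
  inj : ∀ i ≤ m, ∀ j ≤ m, v i = v j → i = j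

lemma exists_path {ends : E → Sym2 V} (e0 : E) {F : Finset E} {c d : V}
    (h : Conn ends F c d) : ∃ m v ε, IsPath ends F c d m v ε := by
  obtain ⟨L, hL, hLF⟩ := exists_val (F0 := ∅) F.card F c le_rfl (by rwa [Finset.empty_union])
  obtain ⟨v, ε, k1, k2, k3, _, k5⟩ := path_of_val e0 L c hL
  exact ⟨L.length, v, ε, k1, k2, fun i hi => hLF (k3 i hi).1, fun i hi => (k3 i hi).2, k5⟩

variable {ends : E → Sym2 V} {F : Finset E} {c d : V} {m : ℕ} {v : ℕ → V} {ε : ℕ → E}

omit [DecidableEq E] in
lemma IsPath.edge_inj (h : IsPath ends F c d m v ε) {i j : ℕ} (hi : i < m) (hj : j < m)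
    (hij : ε i = ε j) : i = j := by
  have h1 : s(v i, v (i + 1)) = s(v j, v (j + 1)) := by
    rw [← h.ends_eq i hi, ← h.ends_eq j hj, hij]
  rcases Sym2.eq_iff.mp h1 with ⟨h2, _⟩ | ⟨h2, h3⟩
  · exact h.inj i (by omega) j (by omega) h2
  · have h4 := h.inj i (by omega) (j + 1) (by omega) h2
    have h5 := h.inj (i + 1) (by omega) j (by omega) h3
    omega

omit [DecidableEq E] in
lemma conn_of_edges {G : Finset E} (hends : ∀ i < m, ends (ε i) = s(v i, v (i + 1))) {i j : ℕ}
    (hij : i ≤ j) (hj : j ≤ m) (hG : ∀ k, i ≤ k → k < j → ε k ∈ G) :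
    Conn ends G (v i) (v j) := by
  induction j, hij using Nat.le_induction with
  | base => exact Conn.refl _ _ _
  | succ j hij ih =>
    refine (ih (by omega) fun k h1 h2 => hG k h1 (by omega)).trans ?_
    exact Conn.single (hG j hij (by omega)) (hends j (by omega))

lemma IsPath.conn_iff (h : IsPath ends F c d m v ε) (hF : Forest ends F) {S : Finset E} {i j : ℕ}
    (hij : i ≤ j) (hj : j ≤ m) :
    Conn ends (F \ S) (v i) (v j) ↔ ∀ k, i ≤ k → k < j → ε k ∉ S := by
  constructor
  · intro hc k hik hkj hkS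
    have hkm : k < m := by omega
    have h1 : Conn ends (F.erase (ε k)) (v i) (v j) := hc.mono (by
      intro t ht
      rw [Finset.mem_sdiff] at ht
      rw [Finset.mem_erase]
      exact ⟨fun h => ht.2 (h ▸ hkS), ht.1⟩)
    have h2 : Conn ends (F.erase (ε k)) (v i) (v k) := by
      refine conn_of_edges h.ends_eq hik (by omega) fun l hl1 hl2 => ?_
      rw [Finset.mem_erase]
      exact ⟨fun h' => by have := h.edge_inj (by omega) hkm h'; omega, h.mem l (by omega)⟩
    have h3 : Conn ends (F.erase (ε k)) (v (k + 1)) (v j) := by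
      refine conn_of_edges h.ends_eq (by omega) hj fun l hl1 hl2 => ?_
      rw [Finset.mem_erase]
      exact ⟨fun h' => by have := h.edge_inj (by omega) hkm h'; omega, h.mem l (by omega)⟩
    exact hF (ε k) (h.mem k hkm) _ _ (h.ends_eq k hkm) ((h2.symm.trans h1).trans h3.symm)
  · intro hS
    refine conn_of_edges h.ends_eq hij hj fun k h1 h2 => ?_
    rw [Finset.mem_sdiff]
    exact ⟨h.mem k (by omega), hS k h1 h2⟩

open scoped Classical in
/-- The edges of the path from `c` to `d` in the forest `F`. -/
noncomputable def Pth (ends : E → Sym2 V) (c d : V) (F : Finset E) : Finset E :=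
  F.filter fun t => ¬ Conn ends (F.erase t) c d

lemma mem_pth {t : E} : t ∈ Pth ends c d F ↔ t ∈ F ∧ ¬ Conn ends (F.erase t) c d := by
  classical
  rw [Pth, Finset.mem_filter]

lemma IsPath.pth_eq (h : IsPath ends F c d m v ε) (hF : Forest ends F) :
    Pth ends c d F = (range m).image ε := by
  ext t
  rw [mem_pth, Finset.mem_image]
  constructor
  · rintro ⟨ht, hc⟩
    by_contra hn
    push Not at hn
    apply hc
    rw [← h.start, ← h.stop]
    refine conn_of_edges h.ends_eq (Nat.zero_le _) le_rfl fun k _ hk => ?_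
    rw [Finset.mem_erase]
    exact ⟨hn k (by simpa using hk), h.mem k hk⟩
  · rintro ⟨k, hk, rfl⟩
    have hkm : k < m := by simpa using hk
    refine ⟨h.mem k hkm, ?_⟩
    intro hc
    rw [← Finset.sdiff_singleton_eq_erase, ← h.start, ← h.stop,
      h.conn_iff hF (Nat.zero_le _) le_rfl] at hc
    exact hc k (Nat.zero_le _) hkm (by simp)

lemma cnt_split (T : List ℕ) {i j : ℕ} (hij : i ≤ j) :
    cnt T j = cnt T i + (T.filter fun t => decide (i ≤ t) && decide (t < j)).length := by
  induction T with
  | nil => rfl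
  | cons x T ih =>
    simp only [cnt, List.filter_cons] at ih ⊢
    by_cases h1 : x < i
    · have h2 : x < j := by omega
      have h3 : ¬ i ≤ x := by omega
      simp only [h1, h2, h3, decide_true, decide_false, Bool.false_and, if_true,
        List.length_cons]
      simp only [Bool.false_eq_true, if_false]
      omega
    · have h3 : i ≤ x := by omega
      by_cases h2 : x < j
      · simp only [h1, h2, h3, decide_true, decide_false, Bool.true_and, if_true,
          List.length_cons]
        simp only [Bool.false_eq_true, if_false]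
        omega
      · simp only [h1, h2, h3, decide_true, decide_false, Bool.true_and]
        simp only [Bool.false_eq_true, if_false]
        omega

lemma cnt_eq_iff (T : List ℕ) {i j : ℕ} (hij : i ≤ j) :
    cnt T i = cnt T j ↔ ∀ k, i ≤ k → k < j → k ∉ T := by
  rw [cnt_split T hij]
  constructor
  · intro h k h1 h2 hk
    have h3 : (T.filter fun t => decide (i ≤ t) && decide (t < j)).length = 0 := by omega
    rw [List.length_eq_zero_iff, List.filter_eq_nil_iff] at h3
    have := h3 k hk
    simp at this
    omega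
  · intro h
    have h3 : (T.filter fun t => decide (i ≤ t) && decide (t < j)) = [] := by
      rw [List.filter_eq_nil_iff]
      intro k hk
      simp
      intro h1
      by_contra h2
      exact h k h1 (by omega) hk
    rw [h3]
    rfl

lemma IsPath.cnt_iff (h : IsPath ends F c d m v ε) (hF : Forest ends F) {T : List ℕ}
    (hT : ∀ x ∈ T, x < m) {i j : ℕ} (hi : i ≤ m) (hj : j ≤ m) :
    cnt T i = cnt T j ↔ Conn ends (F \ T.toFinset.image ε) (v i) (v j) := by
  have key : ∀ i j, i ≤ j → j ≤ m →
      (cnt T i = cnt T j ↔ Conn ends (F \ T.toFinset.image ε) (v i) (v j)) := by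
    intro i j hij hj
    rw [cnt_eq_iff T hij, h.conn_iff hF hij hj]
    refine forall_congr' fun k => forall_congr' fun h1 => forall_congr' fun h2 => ?_
    rw [not_iff_not, Finset.mem_image]
    constructor
    · intro hk
      exact ⟨k, by simpa using hk, rfl⟩
    · rintro ⟨l, hl, hlk⟩
      rw [List.mem_toFinset] at hl
      rw [← h.edge_inj (hT l hl) (by omega) hlk]
      exact hl
  rcases le_total i j with hij | hij
  · exact key i j hij hj
  · rw [eq_comm, key j i hij hi]
    exact ⟨Conn.symm, Conn.symm⟩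

end Pool.Agent.SC
end

section

/-!
The exchange identity for paths with at most six edges.
-/

namespace Pool.Agent.SC

open Finset Pool.Agent.Lib.MP_d90615_co

variable {V E : Type*} [DecidableEq V] [DecidableEq E]

open scoped Classical in
/-- The steps of the path from `c` to `d` in `F` along the edges in `S`. -/
noncomputable def stp (ends : E → Sym2 V) (c d : V) (F S : Finset E) : List (V × V × E) :=
  if h : ∃ L, Val ends (F \ S) c L d ∧ edg L = S then h.choose else []

omit [DecidableEq V] in
lemma stp_eq {ends : E → Sym2 V} {c d : V} {F S : Finset E} {L : List (V × V × E)}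
    (h1 : Val ends (F \ S) c L d) (h2 : edg L = S) : stp ends c d F S = L := by
  have h : ∃ L, Val ends (F \ S) c L d ∧ edg L = S := ⟨L, h1, h2⟩
  rw [stp, dif_pos h]
  exact Val.unique _ _ _ h.choose_spec.1 h1 (h.choose_spec.2.trans h2.symm)

/-- The sign of the set `S` of edges of the path from `c` to `d` in `F`. -/
noncomputable def GS (ν : V → ℕ) (ends : E → Sym2 V) (c d : V) (F S : Finset E) : ℤ :=
  gs ν (inner c d ((stp ends c d F S).map fun s => (s.1, s.2.1)))

/-- `S` can be moved to `F0`: the result is a forest and `S` lies on its path from `c` to `d`. -/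
def Cond (ends : E → Sym2 V) (c d : V) (F0 S : Finset E) : Prop :=
  Disjoint S F0 ∧ Forest ends (F0 ∪ S) ∧ Conn ends (F0 ∪ S) c d ∧ S ⊆ Pth ends c d (F0 ∪ S)

lemma gs_eq {ends : E → Sym2 V} {c d : V} {ν : V → ℕ} {m : ℕ} {v : ℕ → V} {ε : ℕ → E}
    {F S : Finset E} {L : List (ℕ × ℕ)} (hinj : ∀ i ≤ m, ∀ j ≤ m, v i = v j → i = j)
    (h0 : v 0 = c) (h1 : v m = d) (hL : ∀ r ∈ L, r.1 ≤ m ∧ r.2 ≤ m)
    (hstp : stp ends c d F S = L.map (tr v ε)) :
    GS ν ends c d F S = gs (ν ∘ v) (inner 0 m L) := by
  have h2 : (L.map (tr v ε)).map (fun s => (s.1, s.2.1)) = L.map (Prod.map v v) := by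
    rw [List.map_map]
    rfl
  rw [GS, hstp, h2, ← h0, ← h1]
  rw [inner_map (s := {i | i ≤ m}) (f := v) (a := 0) (z := m) (fun i hi j hj h => hinj i hi j hj h)
    (Nat.zero_le m) (le_refl m) (fun r hr => hL r hr), gs_map]

/-- The exchange identity. -/
theorem key {ends : E → Sym2 V} {c d : V} {ν : V → ℕ} (hν : Function.Injective ν) {F : Finset E}
    (hF : Forest ends F) {m : ℕ} {v : ℕ → V} {ε : ℕ → E} (hp : IsPath ends F c d m v ε)
    (hchk : chk m = true) (hchk2 : chk2 m = true) {F0 : Finset E} (hF0 : Forest ends F0)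
    (hcd : ¬ Conn ends F0 c d) (dec : ∀ S, Decidable (Cond ends c d F0 S)) :
    ∑ S ∈ (Pth ends c d F).powerset,
      (if Cond ends c d F0 S then GS ν ends c d F S * GS ν ends c d (F0 ∪ S) S else 0) = 1 := by
  classical
  -- the labelling
  set R : ℕ → ℕ → Prop := fun i j => Conn ends F0 (v i) (v j) with hR
  have hRr : ∀ i, R i i := fun i => Conn.refl _ _ _
  have hRs : ∀ i j, R i j → R j i := fun i j h => Conn.symm h
  have hRt : ∀ i j k, R i j → R j k → R i k := fun i j k h h' => Conn.trans h h'
  set l : List ℕ := (List.range (m + 1)).map (lab R) with hl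
  have hlab : l ∈ labs (m + 1) := by
    refine mem_labs _ (lab_le hRr) (fun i => ?_) _
    rw [lab_eq_iff hRr hRs hRt]
    exact lab_spec hRr i
  have hg : ∀ i ≤ m, ∀ j ≤ m, (lb l i = lb l j ↔ Conn ends F0 (v i) (v j)) := by
    intro i hi j hj
    rw [hl, lb_range _ (by omega), lb_range _ (by omega), lab_eq_iff hRr hRs hRt]
  have hg0 : lb l 0 ≠ lb l m := by
    intro h
    have h1 := (hg 0 (Nat.zero_le _) m le_rfl).mp h
    rw [hp.start, hp.stop] at h1
    exact hcd h1
  have hc1 : chk1 m (lb l) = true := by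
    rw [chk, List.all_eq_true] at hchk
    have h1 := hchk l hlab
    rw [Bool.or_eq_true] at h1
    rcases h1 with h1 | h1
    · exact absurd (by simpa using h1) hg0
    · exact h1
  rw [chk1, Bool.and_eq_true, List.all_eq_true] at hc1
  obtain ⟨hsum, hok⟩ := hc1
  have hsum' : ((subs m).map (val m (lb l))).sum = 1 := by simpa using hsum
  rw [chk2, List.all_eq_true] at hchk2
  -- reindex
  have e1 : ∑ S ∈ (Pth ends c d F).powerset,
      (if Cond ends c d F0 S then GS ν ends c d F S * GS ν ends c d (F0 ∪ S) S else 0) =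
      ∑ T ∈ (range m).powerset, (if Cond ends c d F0 (T.image ε) then
        GS ν ends c d F (T.image ε) * GS ν ends c d (F0 ∪ T.image ε) (T.image ε) else 0) := by
    rw [hp.pth_eq hF]
    symm
    refine Finset.sum_bij (fun T _ => T.image ε) ?_ ?_ ?_ ?_
    · intro T hT
      rw [Finset.mem_powerset] at hT ⊢
      exact Finset.image_subset_image hT
    · intro T hT T' hT' h
      rw [Finset.mem_powerset] at hT hT'
      have hsub : ∀ (A B : Finset ℕ), A ⊆ range m → B ⊆ range m → A.image ε = B.image ε →
          A ⊆ B := by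
        intro A B hA hB hAB x hx
        have h1 : ε x ∈ B.image ε := hAB ▸ Finset.mem_image_of_mem ε hx
        obtain ⟨y, hy, hyx⟩ := Finset.mem_image.mp h1
        have := hp.edge_inj (by simpa using hB hy) (by simpa using hA hx) hyx
        rwa [← this]
      exact Finset.Subset.antisymm (hsub T T' hT hT' h) (hsub T' T hT' hT h.symm)
    · intro S hS
      rw [Finset.mem_powerset] at hS
      refine ⟨(range m).filter (fun i => ε i ∈ S), ?_, ?_⟩
      · rw [Finset.mem_powerset]
        exact Finset.filter_subset _ _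
      · ext t
        simp only [Finset.mem_image, Finset.mem_filter]
        constructor
        · rintro ⟨i, ⟨_, hi⟩, rfl⟩
          exact hi
        · intro ht
          obtain ⟨i, hi, rfl⟩ := Finset.mem_image.mp (hS ht)
          exact ⟨i, ⟨hi, ht⟩, rfl⟩
    · intro T _
      rfl
  rw [e1, sum_subs, ← hsum']
  congr 1
  refine List.map_congr_left fun T hT => ?_
  obtain ⟨hTnd, hTm⟩ := mem_subs hT
  set S : Finset E := T.toFinset.image ε with hS
  have hle : ∀ {L : List (ℕ × ℕ)}, (∀ r ∈ L, r.2 = r.1 + 1 ∨ r.1 = r.2 + 1) →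
      (∀ r ∈ L, idx r < m) → ∀ r ∈ L, r.1 ≤ m ∧ r.2 ≤ m := by
    intro L h1 h2 r hr
    have h3 := h2 r hr
    rcases idx_cases (h1 r hr) with ⟨h4, h5⟩ | ⟨h4, h5⟩ <;> omega
  cases hw : walk (lb l) m (m + 1) (lb l 0) T with
  | some L =>
    obtain ⟨hv, hi⟩ := walk_sound (lb l) m (m + 1) 0 T L hTnd hg0 hw
    have hiL : ∀ r ∈ L, idx r < m := fun r hr => hTm _ ((hi _).mp (List.mem_map_of_mem hr))
    have hV := valP_to_val hp.ends_eq hg L 0 (Nat.zero_le _) hiL hv
    have hset : (L.map idx).toFinset = T.toFinset := by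
      ext x
      rw [List.mem_toFinset, List.mem_toFinset]
      exact hi x
    have hE : edg (L.map (tr v ε)) = S := by rw [edg_map_tr, hset]
    rw [hp.start, hp.stop] at hV
    obtain ⟨f1, f2, f3, f4, _⟩ := hV.forest hF0
    rw [hE] at f1 f2 f3 f4
    have hcond : Cond ends c d F0 S := by
      refine ⟨f3, f1, f2, fun t ht => ?_⟩
      rw [mem_pth]
      exact ⟨Finset.mem_union_right _ ht, f4 t ht⟩
    rw [if_pos hcond]
    have hsd : (F0 ∪ S) \ S = F0 := by
      rw [Finset.union_sdiff_right, Finset.sdiff_eq_self_iff_disjoint]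
      exact f3.symm
    have hst1 : stp ends c d (F0 ∪ S) S = L.map (tr v ε) := stp_eq (by rw [hsd]; exact hV) hE
    -- the path of `F`
    have hTne : T ≠ [] := by
      rintro rfl
      simp [walk] at hw
    have hw2 : walk (cnt T) m (m + 1) (cnt T 0) T = some (fwd T) := by
      have h1 := hchk2 T hT
      rw [Bool.or_eq_true] at h1
      rcases h1 with h1 | h1
      · exact absurd (by simpa using h1) hTne
      · simpa using h1
    have hcnt : ∀ i ≤ m, ∀ j ≤ m, (cnt T i = cnt T j ↔ Conn ends (F \ S) (v i) (v j)) :=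
      fun i hi j hj => hp.cnt_iff hF hTm hi hj
    have hcnt0 : cnt T 0 ≠ cnt T m := by
      intro h
      rw [cnt_eq_iff T (Nat.zero_le m)] at h
      obtain ⟨x, hx⟩ := List.exists_mem_of_ne_nil T hTne
      exact h x (Nat.zero_le _) (hTm x hx) hx
    obtain ⟨hv2, hi2⟩ := walk_sound (cnt T) m (m + 1) 0 T (fwd T) hTnd hcnt0 hw2
    have hiL2 : ∀ r ∈ fwd T, idx r < m := fun r hr => hTm _ ((hi2 _).mp (List.mem_map_of_mem hr))
    have hV2 := valP_to_val hp.ends_eq hcnt (fwd T) 0 (Nat.zero_le _) hiL2 hv2
    rw [hp.start, hp.stop] at hV2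
    have hset2 : ((fwd T).map idx).toFinset = T.toFinset := by
      ext x
      rw [List.mem_toFinset, List.mem_toFinset]
      exact hi2 x
    have hst2 : stp ends c d F S = (fwd T).map (tr v ε) :=
      stp_eq hV2 (by rw [edg_map_tr, hset2])
    rw [gs_eq (m := m) (ν := ν) hp.inj hp.start hp.stop (hle hv2.adj hiL2) hst2,
      gs_eq (m := m) (ν := ν) hp.inj hp.start hp.stop (hle hv.adj hiL) hst1]
    have hpat : pat m (inner 0 m (fwd T)) (inner 0 m L) = true := by
      have h1 := hok T hT
      rw [ok, hw] at h1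
      exact h1
    rw [gs_pat (ν ∘ v) (fun i hi j hj h => hp.inj i hi j hj (hν h)) hpat, val, hw]
  | none =>
    rw [val, hw]
    refine if_neg ?_
    rintro ⟨c1, c2, c3, c4⟩
    obtain ⟨L, hL, hLS⟩ := exists_val (F0 := F0) S.card S c le_rfl c3
    obtain ⟨f1, f2, f3, f4, f5⟩ := hL.forest hF0
    have hE : edg L = S := by
      refine Finset.Subset.antisymm hLS fun t ht => ?_
      by_contra htL
      have h1 := (mem_pth.mp (c4 ht)).2
      apply h1
      refine f2.mono fun x hx => ?_
      rw [Finset.mem_erase]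
      rcases Finset.mem_union.mp hx with hx | hx
      · refine ⟨?_, Finset.mem_union_left _ hx⟩
        rintro rfl
        exact Finset.disjoint_left.mp c1 ht hx
      · refine ⟨?_, Finset.mem_union_right _ (hLS hx)⟩
        rintro rfl
        exact htL hx
    rw [← hp.start, ← hp.stop] at hL
    obtain ⟨P, rfl, hP, hPm⟩ := val_to_valP hp.ends_eq hg L 0 (Nat.zero_le _) (by
      intro t ht
      rw [hE] at ht
      obtain ⟨i, hi, rfl⟩ := Finset.mem_image.mp ht
      exact ⟨i, hTm i (by simpa using hi), rfl⟩) hL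
    have hnd : (P.map idx).Nodup := by
      have h1 : (P.map (tr v ε)).map (fun s => s.2.2) = (P.map idx).map ε := by
        rw [List.map_map, List.map_map]
        rfl
      rw [h1] at f5
      exact List.Nodup.of_map _ f5
    have hiff : ∀ x, x ∈ P.map idx ↔ x ∈ T := by
      rw [edg_map_tr] at hE
      intro x
      constructor
      · intro hx
        have hxm : x < m := by
          obtain ⟨r, hr, rfl⟩ := List.mem_map.mp hx
          exact hPm r hr
        have h1 : ε x ∈ S := by
          rw [← hE]
          exact Finset.mem_image_of_mem ε (by simpa using hx)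
        obtain ⟨y, hy, hyx⟩ := Finset.mem_image.mp h1
        rw [List.mem_toFinset] at hy
        rw [← hp.edge_inj (hTm y hy) hxm hyx]
        exact hy
      · intro hx
        have h1 : ε x ∈ (P.map idx).toFinset.image ε := by
          rw [hE]
          exact Finset.mem_image_of_mem ε (by simpa using hx)
        obtain ⟨y, hy, hyx⟩ := Finset.mem_image.mp h1
        rw [List.mem_toFinset] at hy
        have hym : y < m := by
          obtain ⟨r, hr, rfl⟩ := List.mem_map.mp hy
          exact hPm r hr
        rw [← hp.edge_inj hym (hTm x hx) hyx]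
        exact hy
    have hPne : P ≠ [] := by
      rintro rfl
      exact hg0 hP
    have hlen : P.length ≤ m + 1 := by
      have h1 : (P.map idx).toFinset ⊆ range m := by
        intro x hx
        rw [List.mem_toFinset] at hx
        obtain ⟨r, hr, rfl⟩ := List.mem_map.mp hx
        simpa using hPm r hr
      have h2 := Finset.card_le_card h1
      rw [List.toFinset_card_of_nodup hnd, List.length_map, Finset.card_range] at h2
      omega
    have := walk_complete (lb l) m P (m + 1) 0 T hTnd hPne hlen hP hnd hiff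
    rw [this] at hw
    exact absurd hw (by simp)

end Pool.Agent.SC
end

section

/-!
From the exchange identity to the sum of squares.
-/

namespace Pool.Agent.SC

open Finset Pool.Agent.Lib.MP_d90615_co
open scoped Classical

variable {V E : Type*}

/-- The weight of a set of edges. -/
noncomputable def wt (w : E → ℝ) (F : Finset E) : ℝ := ∏ t ∈ F, w t

/-- The forests in `U` which join `c` and `d`. -/
noncomputable def AA (ends : E → Sym2 V) (U : Finset E) (c d : V) : Finset (Finset E) :=
  U.powerset.filter fun F => Forest ends F ∧ Conn ends F c d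

/-- The forests in `U` which do not join `c` and `d`. -/
noncomputable def NN (ends : E → Sym2 V) (U : Finset E) (c d : V) : Finset (Finset E) :=
  U.powerset.filter fun F => Forest ends F ∧ ¬ Conn ends F c d

variable {ends : E → Sym2 V} {U : Finset E} {c d : V}

lemma mem_AA {F : Finset E} : F ∈ AA ends U c d ↔ F ⊆ U ∧ Forest ends F ∧ Conn ends F c d := by
  rw [AA, Finset.mem_filter, Finset.mem_powerset]

lemma mem_NN {F : Finset E} : F ∈ NN ends U c d ↔ F ⊆ U ∧ Forest ends F ∧ ¬ Conn ends F c d := by
  rw [NN, Finset.mem_filter, Finset.mem_powerset]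

lemma wt_sdiff (w : E → ℝ) {F S : Finset E} (h : S ⊆ F) : wt w F = wt w S * wt w (F \ S) := by
  rw [wt, wt, wt, mul_comm, Finset.prod_sdiff h]

lemma pth_subset {F : Finset E} : Pth ends c d F ⊆ F := Finset.filter_subset _ _

/-- Exchange of `F0` and `F0 ∪ S`. -/
lemma sum_exchange (g : Finset E → Finset E → ℝ) (w : E → ℝ) {S : Finset E} (hSU : S ⊆ U)
    (hS : S.Nonempty) (q : Finset E → Prop) [DecidablePred q] :
    ∑ F0 ∈ (NN ends U c d).filter q, (if Cond ends c d F0 S then
        g (F0 ∪ S) S * wt w F0 else 0) =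
      ∑ F ∈ (AA ends U c d).filter (fun F => S ⊆ Pth ends c d F ∧ q (F \ S)),
        g F S * wt w (F \ S) := by
  rw [← Finset.sum_filter, Finset.filter_filter]
  refine Finset.sum_bij' (fun F0 _ => F0 ∪ S) (fun F _ => F \ S) ?_ ?_ ?_ ?_ ?_
  · intro F0 hF0
    rw [Finset.mem_filter] at hF0 ⊢
    obtain ⟨h1, h2, h3⟩ := hF0
    rw [mem_NN] at h1
    obtain ⟨c1, c2, c3, c4⟩ := h3
    have hsd : (F0 ∪ S) \ S = F0 := by
      rw [Finset.union_sdiff_right, Finset.sdiff_eq_self_iff_disjoint]
      exact c1.symm
    refine ⟨mem_AA.mpr ⟨Finset.union_subset h1.1 hSU, c2, c3⟩, c4, ?_⟩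
    rw [hsd]
    exact h2
  · intro F hF
    rw [Finset.mem_filter] at hF ⊢
    obtain ⟨h1, h2, h3⟩ := hF
    rw [mem_AA] at h1
    have hSF : S ⊆ F := h2.trans pth_subset
    have hu : F \ S ∪ S = F := Finset.sdiff_union_of_subset hSF
    have hnc : ¬ Conn ends (F \ S) c d := by
      obtain ⟨t, ht⟩ := hS
      intro h
      apply (mem_pth.mp (h2 ht)).2
      refine h.mono fun x hx => ?_
      rw [Finset.mem_sdiff] at hx
      rw [Finset.mem_erase]
      exact ⟨fun h => hx.2 (h ▸ ht), hx.1⟩
    refine ⟨mem_NN.mpr ⟨Finset.sdiff_subset.trans h1.1, h1.2.1.subset Finset.sdiff_subset, hnc⟩,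
      h3, Finset.disjoint_sdiff, ?_, ?_, ?_⟩
    · rw [hu]; exact h1.2.1
    · rw [hu]; exact h1.2.2
    · rw [hu]; exact h2
  · intro F0 hF0
    rw [Finset.mem_filter] at hF0
    rw [Finset.union_sdiff_right, Finset.sdiff_eq_self_iff_disjoint]
    exact hF0.2.2.1.symm
  · intro F hF
    rw [Finset.mem_filter] at hF
    exact Finset.sdiff_union_of_subset (hF.2.1.trans pth_subset)
  · intro F0 hF0
    rw [Finset.mem_filter] at hF0
    have hsd : (F0 ∪ S) \ S = F0 := by
      rw [Finset.union_sdiff_right, Finset.sdiff_eq_self_iff_disjoint]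
      exact hF0.2.2.1.symm
    simp only [hsd]

/-- Products of forest sums as sums over exchanges. -/
lemma prod_eq (g : Finset E → Finset E → ℝ) (w : E → ℝ)
    (hkey : ∀ F ∈ AA ends U c d, ∀ F0 ∈ NN ends U c d,
      ∑ S ∈ (Pth ends c d F).powerset,
        (if Cond ends c d F0 S then g F S * g (F0 ∪ S) S else 0) = 1)
    (p q : Finset E → Prop) [DecidablePred p] [DecidablePred q] :
    (∑ F ∈ (AA ends U c d).filter p, wt w F) * (∑ F0 ∈ (NN ends U c d).filter q, wt w F0) =
      ∑ S ∈ U.powerset.filter (fun S => S.Nonempty),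
        (∑ F ∈ (AA ends U c d).filter (fun F => S ⊆ Pth ends c d F ∧ p F), g F S * wt w F) *
        ∑ F ∈ (AA ends U c d).filter (fun F => S ⊆ Pth ends c d F ∧ q (F \ S)),
          g F S * wt w (F \ S) := by
  have h1 : ∀ F ∈ (AA ends U c d).filter p, ∀ F0 ∈ (NN ends U c d).filter q,
      wt w F * wt w F0 = ∑ S ∈ U.powerset.filter (fun S => S.Nonempty),
        (if S ⊆ Pth ends c d F then g F S * wt w F else 0) *
          (if Cond ends c d F0 S then g (F0 ∪ S) S * wt w F0 else 0) := by
    intro F hF F0 hF0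
    rw [Finset.mem_filter] at hF hF0
    have hk := hkey F hF.1 F0 hF0.1
    have hsub : Pth ends c d F ⊆ U := pth_subset.trans (mem_AA.mp hF.1).1
    have h2 : ∑ S ∈ U.powerset.filter (fun S => S.Nonempty),
        (if S ⊆ Pth ends c d F then g F S * wt w F else 0) *
          (if Cond ends c d F0 S then g (F0 ∪ S) S * wt w F0 else 0) =
        ∑ S ∈ (Pth ends c d F).powerset,
        (if Cond ends c d F0 S then g F S * g (F0 ∪ S) S else 0) * (wt w F * wt w F0) := by
      have h3 : ∑ S ∈ U.powerset.filter (fun S => S.Nonempty),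
          (if S ⊆ Pth ends c d F then g F S * wt w F else 0) *
            (if Cond ends c d F0 S then g (F0 ∪ S) S * wt w F0 else 0) =
          ∑ S ∈ (U.powerset.filter (fun S => S.Nonempty)).filter (fun S => S ⊆ Pth ends c d F),
          (if Cond ends c d F0 S then g F S * g (F0 ∪ S) S else 0) * (wt w F * wt w F0) := by
        rw [Finset.sum_filter (fun S => S ⊆ Pth ends c d F)]
        refine Finset.sum_congr rfl fun S _ => ?_
        split_ifs <;> ring
      rw [h3]
      refine Finset.sum_subset ?_ ?_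
      · intro S hS
        rw [Finset.mem_filter] at hS
        exact Finset.mem_powerset.mpr hS.2
      · intro S hS hS'
        rw [Finset.mem_powerset] at hS
        have hSe : ¬ S.Nonempty := by
          intro hne
          apply hS'
          rw [Finset.mem_filter, Finset.mem_filter, Finset.mem_powerset]
          exact ⟨⟨hS.trans hsub, hne⟩, hS⟩
        rw [Finset.not_nonempty_iff_eq_empty] at hSe
        subst hSe
        rw [if_neg, zero_mul]
        rintro ⟨_, _, h4, _⟩
        rw [Finset.union_empty] at h4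
        exact (mem_NN.mp hF0.1).2.2 h4
    rw [h2, ← Finset.sum_mul, hk, one_mul]
  rw [Finset.sum_mul_sum]
  have h4 : ∑ F ∈ (AA ends U c d).filter p, ∑ F0 ∈ (NN ends U c d).filter q, wt w F * wt w F0 =
      ∑ F ∈ (AA ends U c d).filter p, ∑ F0 ∈ (NN ends U c d).filter q,
        ∑ S ∈ U.powerset.filter (fun S => S.Nonempty),
        (if S ⊆ Pth ends c d F then g F S * wt w F else 0) *
          (if Cond ends c d F0 S then g (F0 ∪ S) S * wt w F0 else 0) :=
    Finset.sum_congr rfl fun F hF => Finset.sum_congr rfl fun F0 hF0 => h1 F hF F0 hF0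
  rw [h4]
  have h5 : ∀ F ∈ (AA ends U c d).filter p, ∑ F0 ∈ (NN ends U c d).filter q,
        ∑ S ∈ U.powerset.filter (fun S => S.Nonempty),
        (if S ⊆ Pth ends c d F then g F S * wt w F else 0) *
          (if Cond ends c d F0 S then g (F0 ∪ S) S * wt w F0 else 0) =
      ∑ S ∈ U.powerset.filter (fun S => S.Nonempty),
        (if S ⊆ Pth ends c d F then g F S * wt w F else 0) *
        ∑ F ∈ (AA ends U c d).filter (fun F => S ⊆ Pth ends c d F ∧ q (F \ S)),
          g F S * wt w (F \ S) := by
    intro F _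
    rw [Finset.sum_comm]
    refine Finset.sum_congr rfl fun S hS => ?_
    rw [Finset.mem_filter, Finset.mem_powerset] at hS
    rw [← Finset.mul_sum, sum_exchange g w hS.1 hS.2 q]
  rw [Finset.sum_congr rfl h5, Finset.sum_comm]
  refine Finset.sum_congr rfl fun S _ => ?_
  rw [← Finset.sum_mul]
  congr 1
  rw [← Finset.sum_filter, Finset.filter_filter]
  refine Finset.sum_congr ?_ fun _ _ => rfl
  ext F
  simp only [Finset.mem_filter]
  tauto

/-- The Rayleigh difference is a sum of squares. -/
theorem sos (g : Finset E → Finset E → ℝ) (w : E → ℝ)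
    (hkey : ∀ F ∈ AA ends U c d, ∀ F0 ∈ NN ends U c d,
      ∑ S ∈ (Pth ends c d F).powerset,
        (if Cond ends c d F0 S then g F S * g (F0 ∪ S) S else 0) = 1) (f : E) :
    (∑ F ∈ (AA ends U c d).filter (fun F => f ∈ F), wt w F) *
        (∑ F ∈ (NN ends U c d).filter (fun F => f ∉ F), wt w F) -
      (∑ F ∈ (AA ends U c d).filter (fun F => f ∉ F), wt w F) *
        (∑ F ∈ (NN ends U c d).filter (fun F => f ∈ F), wt w F) =
      ∑ S ∈ U.powerset.filter (fun S => f ∈ S), wt w S *
        (∑ F ∈ (AA ends U c d).filter (fun F => S ⊆ Pth ends c d F),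
          g F S * wt w (F \ S)) ^ 2 := by
  rw [prod_eq g w hkey, prod_eq g w hkey, ← Finset.sum_sub_distrib]
  have hA : ∀ (S : Finset E) (p : Finset E → Prop) [DecidablePred p],
      ∑ F ∈ (AA ends U c d).filter (fun F => S ⊆ Pth ends c d F ∧ p F), g F S * wt w F =
      wt w S * ∑ F ∈ (AA ends U c d).filter (fun F => S ⊆ Pth ends c d F ∧ p F),
        g F S * wt w (F \ S) := by
    intro S p _
    rw [Finset.mul_sum]
    refine Finset.sum_congr rfl fun F hF => ?_
    rw [Finset.mem_filter] at hF
    rw [wt_sdiff w (hF.2.1.trans pth_subset)]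
    ring
  have hterm : ∀ S ∈ U.powerset.filter (fun S => S.Nonempty),
      (∑ F ∈ (AA ends U c d).filter (fun F => S ⊆ Pth ends c d F ∧ f ∈ F), g F S * wt w F) *
        (∑ F ∈ (AA ends U c d).filter (fun F => S ⊆ Pth ends c d F ∧ f ∉ F \ S),
          g F S * wt w (F \ S)) -
      (∑ F ∈ (AA ends U c d).filter (fun F => S ⊆ Pth ends c d F ∧ f ∉ F), g F S * wt w F) *
        (∑ F ∈ (AA ends U c d).filter (fun F => S ⊆ Pth ends c d F ∧ f ∈ F \ S),
          g F S * wt w (F \ S)) =
      if f ∈ S then wt w S * (∑ F ∈ (AA ends U c d).filter (fun F => S ⊆ Pth ends c d F),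
          g F S * wt w (F \ S)) ^ 2 else 0 := by
    intro S _
    rw [hA, hA]
    by_cases hf : f ∈ S
    · rw [if_pos hf]
      have e1 : (AA ends U c d).filter (fun F => S ⊆ Pth ends c d F ∧ f ∈ F) =
          (AA ends U c d).filter (fun F => S ⊆ Pth ends c d F) := by
        refine Finset.filter_congr fun F _ => ?_
        exact ⟨fun h => h.1, fun h => ⟨h, pth_subset (h hf)⟩⟩
      have e2 : (AA ends U c d).filter (fun F => S ⊆ Pth ends c d F ∧ f ∉ F \ S) =
          (AA ends U c d).filter (fun F => S ⊆ Pth ends c d F) := by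
        refine Finset.filter_congr fun F _ => ?_
        exact ⟨fun h => h.1, fun h => ⟨h, fun h' => (Finset.mem_sdiff.mp h').2 hf⟩⟩
      have e3 : (AA ends U c d).filter (fun F => S ⊆ Pth ends c d F ∧ f ∉ F) = ∅ := by
        rw [Finset.filter_eq_empty_iff]
        rintro F _ ⟨h1, h2⟩
        exact h2 (pth_subset (h1 hf))
      rw [e1, e2, e3, Finset.sum_empty]
      ring
    · rw [if_neg hf]
      have e1 : (AA ends U c d).filter (fun F => S ⊆ Pth ends c d F ∧ f ∉ F \ S) =
          (AA ends U c d).filter (fun F => S ⊆ Pth ends c d F ∧ f ∉ F) := by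
        refine Finset.filter_congr fun F _ => ?_
        simp [Finset.mem_sdiff, hf]
      have e2 : (AA ends U c d).filter (fun F => S ⊆ Pth ends c d F ∧ f ∈ F \ S) =
          (AA ends U c d).filter (fun F => S ⊆ Pth ends c d F ∧ f ∈ F) := by
        refine Finset.filter_congr fun F _ => ?_
        simp [Finset.mem_sdiff, hf]
      rw [e1, e2]
      ring
  rw [Finset.sum_congr rfl hterm, ← Finset.sum_filter, Finset.filter_filter]
  refine Finset.sum_congr ?_ fun _ _ => rfl
  refine Finset.filter_congr fun S _ => ?_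
  exact ⟨fun h => h.2, fun h => ⟨⟨f, h⟩, h⟩⟩

end Pool.Agent.SC
end
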