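import Pool.Agent.Lib.MP_d90615_co.Graph
import Pool.Agent.Lib.MP_d90615_co.Mg.G037

section

/-!
Gluing two vertices of a multigraph: connectivity and forests.
-/

namespace Pool.Agent.Lib.MP_d90615_co

open Finset
open scoped Classical

variable {V E : Type*}

/-- The map of the vertex set that sends `v` to `c` and fixes everything else. -/
noncomputable def glue (c v : V) : V → V := fun x => if x = v then c else x

/-- The multigraph with the vertex `v` glued to `c`. -/
noncomputable def gends (ends : E → Sym2 V) (c v : V) : E → Sym2 V :=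
  fun e => (ends e).map (glue c v)

lemma glue_self (c v : V) : glue c v v = c := by simp [glue]

lemma glue_left (c v : V) : glue c v c = c := by
  unfold glue
  split_ifs <;> simp_all

lemma glue_of_ne {c v x : V} (h : x ≠ v) : glue c v x = x := by simp [glue, h]

/-- Connectivity after `c` and `v` are glued. -/
def QC (ends : E → Sym2 V) (F : Finset E) (c v i j : V) : Prop :=
  Conn ends F i j ∨ (Conn ends F i c ∧ Conn ends F v j) ∨ (Conn ends F i v ∧ Conn ends F c j)

lemma QC.of_glue_eq {ends : E → Sym2 V} {F : Finset E} {c v i q j : V}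
    (h : QC ends F c v i q) (hqj : glue c v q = glue c v j) : QC ends F c v i j := by
  by_cases h1 : q = j
  · rwa [← h1]
  · by_cases h2 : q = v
    · have h3 : j ≠ v := fun h3 => h1 (h2.trans h3.symm)
      rw [h2, glue_self, glue_of_ne h3] at hqj
      subst hqj
      subst h2
      rcases h with h | ⟨h, _⟩ | ⟨h, _⟩
      · exact Or.inr (Or.inr ⟨h, Conn.refl _ _ _⟩)
      · exact Or.inl h
      · exact Or.inr (Or.inr ⟨h, Conn.refl _ _ _⟩)
    · rw [glue_of_ne h2] at hqj
      by_cases h3 : j = v
      · rw [h3, glue_self] at hqj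
        subst hqj
        subst h3
        rcases h with h | ⟨h, _⟩ | ⟨h, _⟩
        · exact Or.inr (Or.inl ⟨h, Conn.refl _ _ _⟩)
        · exact Or.inr (Or.inl ⟨h, Conn.refl _ _ _⟩)
        · exact Or.inl h
      · rw [glue_of_ne h3] at hqj
        exact absurd hqj h1

lemma QC.trans_conn {ends : E → Sym2 V} {F : Finset E} {c v i p q : V}
    (h : QC ends F c v i p) (hpq : Conn ends F p q) : QC ends F c v i q := by
  rcases h with h | ⟨h, h'⟩ | ⟨h, h'⟩
  · exact Or.inl (h.trans hpq)
  · exact Or.inr (Or.inl ⟨h, h'.trans hpq⟩)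
  · exact Or.inr (Or.inr ⟨h, h'.trans hpq⟩)

lemma conn_map {ends : E → Sym2 V} {F : Finset E} (c v : V) {i j : V} (h : Conn ends F i j) :
    Conn (gends ends c v) F (glue c v i) (glue c v j) := by
  induction h with
  | refl => exact Conn.refl _ _ _
  | tail _ hs ih =>
    obtain ⟨e, he, hs⟩ := hs
    exact ih.trans (Conn.single he (by rw [gends, hs, Sym2.map_mk]))

lemma conn_glue (ends : E → Sym2 V) (F : Finset E) (c v i j : V) :
    Conn (gends ends c v) F (glue c v i) (glue c v j) ↔ QC ends F c v i j := by
  constructor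
  · intro h
    have key : ∀ y, Conn (gends ends c v) F (glue c v i) y →
        ∀ j, glue c v j = y → QC ends F c v i j := by
      intro y hy
      induction hy with
      | refl =>
        intro j hj
        exact QC.of_glue_eq (Or.inl (Conn.refl _ _ _)) hj.symm
      | @tail y₁ y₂ _ hstep ih =>
        intro j hj
        obtain ⟨e, he, hs⟩ := hstep
        obtain ⟨p, q, hpq⟩ : ∃ p q, ends e = s(p, q) := by
          induction h : ends e using Sym2.ind with
          | _ u w => exact ⟨u, w, rfl⟩
        have hc : Conn ends F p q := Conn.single he hpq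
        rw [gends, hpq, Sym2.map_mk] at hs
        rcases Sym2.eq_iff.mp hs with ⟨h1, h2⟩ | ⟨h1, h2⟩
        · exact ((ih p h1).trans_conn hc).of_glue_eq (h2.trans hj.symm)
        · exact ((ih q h2).trans_conn hc.symm).of_glue_eq (h1.trans hj.symm)
    exact key _ h j rfl
  · rintro (h | ⟨h, h'⟩ | ⟨h, h'⟩)
    · exact conn_map c v h
    · have h1 := conn_map c v h
      have h2 := conn_map c v h'
      rw [glue_left] at h1
      rw [glue_self] at h2
      exact h1.trans h2
    · have h1 := conn_map c v h
      have h2 := conn_map c v h'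
      rw [glue_self] at h1
      rw [glue_left] at h2
      exact h1.trans h2

lemma exists_edge {ends : E → Sym2 V} {F : Finset E} {c v : V} (hcv : c ≠ v)
    (h : Conn ends F c v) : ∃ e ∈ F, ∃ p q, ends e = s(p, q) ∧
      Conn ends (F.erase e) c p ∧ Conn ends (F.erase e) q v := by
  induction F using Finset.induction_on with
  | empty =>
    exfalso
    apply hcv
    unfold Conn at h
    induction h with
    | refl => rfl
    | tail _ hs ih =>
      obtain ⟨e, he, _⟩ := hs
      simp at he
  | insert e F he ih =>
    obtain ⟨p, q, hpq⟩ : ∃ p q, ends e = s(p, q) := by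
      induction h : ends e using Sym2.ind with
      | _ u w => exact ⟨u, w, rfl⟩
    rcases (conn_insert hpq c v).mp h with h1 | ⟨h1, h2⟩ | ⟨h1, h2⟩
    · obtain ⟨e', he', p', q', h3, h4, h5⟩ := ih h1
      have hne : e' ≠ e := fun h => he (h ▸ he')
      have hsub : F.erase e' ⊆ (insert e F).erase e' :=
        Finset.erase_subset_erase _ (Finset.subset_insert _ _)
      exact ⟨e', Finset.mem_insert_of_mem he', p', q', h3, h4.mono hsub, h5.mono hsub⟩
    · refine ⟨e, Finset.mem_insert_self _ _, p, q, hpq, ?_, ?_⟩
      · rwa [Finset.erase_insert he]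
      · rwa [Finset.erase_insert he]
    · refine ⟨e, Finset.mem_insert_self _ _, q, p, by rw [hpq, Sym2.eq_swap], ?_, ?_⟩
      · rwa [Finset.erase_insert he]
      · rwa [Finset.erase_insert he]

lemma forest_glue (ends : E → Sym2 V) (F : Finset E) {c v : V} (hcv : c ≠ v) :
    Forest (gends ends c v) F ↔ Forest ends F ∧ ¬ Conn ends F c v := by
  constructor
  · intro h
    have key : ∀ e ∈ F, ∀ p q, ends e = s(p, q) → ¬ QC ends (F.erase e) c v p q := by
      intro e he p q hpq hQ
      refine h e he (glue c v p) (glue c v q) ?_ ((conn_glue ends _ c v p q).mpr hQ)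
      rw [gends, hpq, Sym2.map_mk]
    refine ⟨fun e he p q hpq hc => key e he p q hpq (Or.inl hc), fun hc => ?_⟩
    obtain ⟨e, he, p, q, h1, h2, h3⟩ := exists_edge hcv hc
    exact key e he p q h1 (Or.inr (Or.inl ⟨h2.symm, h3.symm⟩))
  · rintro ⟨hF, hc⟩ e he x y hxy hcon
    obtain ⟨p, q, hpq⟩ : ∃ p q, ends e = s(p, q) := by
      induction h : ends e using Sym2.ind with
      | _ u w => exact ⟨u, w, rfl⟩
    have hQ : QC ends (F.erase e) c v p q := by
      rw [gends, hpq, Sym2.map_mk] at hxy
      rw [← conn_glue]
      rcases Sym2.eq_iff.mp hxy with ⟨h1, h2⟩ | ⟨h1, h2⟩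
      · rw [h1, h2]
        exact hcon
      · rw [h1, h2]
        exact hcon.symm
    have hsub : F.erase e ⊆ F := Finset.erase_subset _ _
    have hpq' : Conn ends F p q := Conn.single he hpq
    rcases hQ with h | ⟨h1, h2⟩ | ⟨h1, h2⟩
    · exact hF e he p q hpq h
    · exact hc (((h1.mono hsub).symm.trans hpq').trans (h2.mono hsub).symm)
    · exact hc (((h2.mono hsub).trans hpq'.symm).trans (h1.mono hsub))

end Pool.Agent.Lib.MP_d90615_co
end

section

/-!
The Rayleigh inequality for graphs that may contain loops.
-/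

namespace Pool.Agent.Lib.MP_d90615_co

open Matrix Finset Complex
open scoped Classical Topology

variable {V E : Type*} [Fintype V]

/-- Main nonvanishing theorem, loops allowed (a loop lies in no forest). -/
theorem H_ne_zero' (ends : E → Sym2 V) (S : Finset E) :
    ∀ A : Matrix V V ℂ, Up A → H ends S A ≠ 0 := by
  induction S using Finset.induction_on with
  | empty =>
    intro A hA
    have h1 : Forest ends (∅ : Finset E) := by
      intro e he
      simp at he
    have h2 : H ends ∅ A = (1 + J ends ∅ * A).det := by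
      simp [H, Finset.filter_singleton, h1]
    rw [h2]
    exact (hA.isUnit_det _ (J_herm ends ∅)).ne_zero
  | insert e S heS ih =>
    intro A hA
    obtain ⟨u, v, he⟩ : ∃ u v, ends e = s(u, v) := by
      induction h : ends e using Sym2.ind with
      | _ u v => exact ⟨u, v, rfl⟩
    by_cases huv : u = v
    · subst huv
      rw [H_insert he heS]
      have h0 : ∑ F ∈ S.powerset with Forest ends F,
          ((1 + J ends F * A).det +
            (if Conn ends F u u then 0 else (1 + J ends (insert e F) * A).det)) =
          H ends S A := by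
        rw [H]
        refine Finset.sum_congr rfl fun F _ => ?_
        rw [if_pos (Conn.refl ends F u), add_zero]
      rw [h0]
      exact ih A hA
    choose! α β γ κ h1 h2 using fun F : Finset E => term_formula (F := F) he A hA
    rw [H_insert he heS]
    have h3 : ∑ F ∈ S.powerset with Forest ends F,
      ((1 + J ends F * A).det +
        (if Conn ends F u v then 0 else (1 + J ends (insert e F) * A).det)) =
        (∑ F ∈ S.powerset with Forest ends F, α F) - ∑ F ∈ S.powerset with Forest ends F, κ F := by
      rw [← Finset.sum_sub_distrib]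
      exact Finset.sum_congr rfl fun F _ => (h2 F).symm
    rw [h3]
    obtain ⟨c, hc, hcA⟩ := hA
    refine bil_ne _ (∑ F ∈ S.powerset with Forest ends F, β F)
      (∑ F ∈ S.powerset with Forest ends F, γ F) _ (c / 2) (by linarith) ?_
    intro z w hz hw
    have h4 := ih (upd A u v z w) (upd_up hc hcA huv hz hw)
    have h5 : H ends S (upd A u v z w) = (∑ F ∈ S.powerset with Forest ends F, α F)
        + (∑ F ∈ S.powerset with Forest ends F, β F) * z
        + (∑ F ∈ S.powerset with Forest ends F, γ F) * w
        + (∑ F ∈ S.powerset with Forest ends F, κ F) * z * w := by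
      rw [H, Finset.sum_mul, Finset.sum_mul, Finset.sum_mul, Finset.sum_mul,
        ← Finset.sum_add_distrib, ← Finset.sum_add_distrib, ← Finset.sum_add_distrib]
      exact Finset.sum_congr rfl fun F _ => h1 F z w
    rwa [h5] at h4

/-- **Rayleigh inequality** for the forest sum, loops allowed. -/
theorem rayleigh' (ends : E → Sym2 V) (S : Finset E)
    (A : Matrix V V ℝ) (hA : A.IsSymm) (v w : V → ℝ) :
    R ends S A * R ends S (A + vecMulVec v v + vecMulVec w w) ≤
      R ends S (A + vecMulVec v v) * R ends S (A + vecMulVec w w) := by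
  set h : ℝ → ℂ → ℂ → ℂ := fun ε t s => H ends S (pert A v w ε t s) with hh
  set φ : ℝ → ℝ := fun ε =>
    ((h ε 0 0 + I * (h ε 1 0 - h ε 0 0)) *
      (starRingEnd ℂ) ((h ε 0 1 - h ε 0 0) + I * (h ε 1 1 - h ε 1 0 - h ε 0 1 + h ε 0 0))).im
    with hφ
  have hcont : ∀ t s : ℂ, Continuous fun ε : ℝ => h ε t s := continuous_H_pert ends S A v w
  have hφc : Continuous φ := by
    apply Complex.continuous_im.comp
    refine Continuous.mul ?_ (Complex.continuous_conj.comp ?_)
    · exact (hcont 0 0).add (continuous_const.mul ((hcont 1 0).sub (hcont 0 0)))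
    · exact ((hcont 0 1).sub (hcont 0 0)).add
        (continuous_const.mul ((((hcont 1 1).sub (hcont 1 0)).sub (hcont 0 1)).add (hcont 0 0)))
  have hφpos : ∀ ε : ℝ, 0 < ε → 0 ≤ φ ε := by
    intro ε hε
    obtain ⟨a, b, c, d, habcd⟩ := H_pert_affine ends S A hA v w hε
    have e00 : h ε 0 0 = a := by rw [hh]; simp [habcd]
    have e10 : h ε 1 0 = a + b := by rw [hh]; simp [habcd]
    have e01 : h ε 0 1 = a + c := by rw [hh]; simp [habcd]
    have e11 : h ε 1 1 = a + b + c + d := by rw [hh]; simp [habcd]
    have h1 := im_bilinear (a + b * I) (c + d * I) (by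
      intro s hs
      have h2 := H_ne_zero' ends S _ (pert_up A hA v w hε (t := I) (s := s) (by simp) hs)
      rw [habcd] at h2
      intro h3
      apply h2
      rw [← h3]
      ring)
    rw [hφ]
    simp only [e00, e10, e01, e11]
    convert h1 using 2
    congr 1
    · ring
    · congr 1
      ring
  have hφ0 : 0 ≤ φ 0 := by
    have h1 : Filter.Tendsto φ (𝓝[>] 0) (𝓝 (φ 0)) :=
      (hφc.tendsto 0).mono_left nhdsWithin_le_nhds
    refine ge_of_tendsto h1 ?_
    filter_upwards [self_mem_nhdsWithin] with ε hε
    exact hφpos ε hε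
  have r00 : h 0 0 0 = (R ends S A : ℂ) := by
    have := H_pert_real ends S A v w 0 0
    simpa using this
  have r10 : h 0 1 0 = (R ends S (A + vecMulVec v v) : ℂ) := by
    have := H_pert_real ends S A v w 1 0
    simpa using this
  have r01 : h 0 0 1 = (R ends S (A + vecMulVec w w) : ℂ) := by
    have := H_pert_real ends S A v w 0 1
    simpa using this
  have r11 : h 0 1 1 = (R ends S (A + vecMulVec v v + vecMulVec w w) : ℂ) := by
    have := H_pert_real ends S A v w 1 1
    simpa using this
  rw [hφ] at hφ0
  simp only [r00, r10, r01, r11] at hφ0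
  set p := R ends S A
  set q := R ends S (A + vecMulVec v v)
  set r := R ends S (A + vecMulVec w w)
  set o := R ends S (A + vecMulVec v v + vecMulVec w w)
  simp at hφ0
  nlinarith

end Pool.Agent.Lib.MP_d90615_co
end

section

/-!
The Rayleigh inequality in terms of the connectivity matrix of finitely many terminals.
-/

namespace Pool.Agent.Lib.MP_d90615_co

open Matrix Finset
open scoped Classical

variable {V E : Type*}

/-- The 0-1 connectivity matrix of the terminals `t`. -/
noncomputable def CM {k : ℕ} (ends : E → Sym2 V) (t : Fin k → V) (F : Finset E) :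
    Matrix (Fin k) (Fin k) ℝ :=
  Matrix.of fun i j => if Conn ends F (t i) (t j) then 1 else 0

lemma CM_apply {k : ℕ} (ends : E → Sym2 V) (t : Fin k → V) (F : Finset E) (i j : Fin k) :
    CM ends t F i j = if Conn ends F (t i) (t j) then 1 else 0 := rfl

/-- The forest sum `∑_F det (1 + C_F a)` over the connectivity matrices `C_F` of the terminals. -/
noncomputable def RT {k : ℕ} (ends : E → Sym2 V) (S : Finset E) (t : Fin k → V)
    (a : Matrix (Fin k) (Fin k) ℝ) : ℝ :=
  ∑ F ∈ S.powerset with Forest ends F, (1 + CM ends t F * a).det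

/-- The incidence matrix of the terminals. -/
noncomputable def PM {k : ℕ} (t : Fin k → V) : Matrix V (Fin k) ℝ :=
  Matrix.of fun v i => if v = t i then 1 else 0

variable [Fintype V]

lemma PM_JR {k : ℕ} (ends : E → Sym2 V) (t : Fin k → V) (F : Finset E) :
    (PM t)ᵀ * (JR ends F * PM t) = CM ends t F := by
  ext i j
  rw [Matrix.mul_apply, CM_apply]
  simp only [Matrix.mul_apply, PM, Matrix.transpose_apply, Matrix.of_apply, JR_apply]
  rw [Finset.sum_eq_single (t i)]
  · simp
  · intro b _ hb
    simp [hb]
  · intro h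
    exact absurd (Finset.mem_univ _) h

lemma R_PM {k : ℕ} (ends : E → Sym2 V) (S : Finset E) (t : Fin k → V)
    (a : Matrix (Fin k) (Fin k) ℝ) :
    R ends S (PM t * a * (PM t)ᵀ) = RT ends S t a := by
  rw [R, RT]
  refine Finset.sum_congr rfl fun F _ => ?_
  rw [← Matrix.mul_assoc, Matrix.det_one_add_mul_comm, ← PM_JR ends t F]
  simp only [Matrix.mul_assoc]

omit [Fintype V] in
lemma PM_rank_one {k : ℕ} (t : Fin k → V) (g : Fin k → ℝ) :
    PM t * vecMulVec g g * (PM t)ᵀ = vecMulVec (PM t *ᵥ g) (PM t *ᵥ g) := by
  rw [Matrix.mul_vecMulVec, Matrix.vecMulVec_mul, Matrix.vecMul_transpose]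

/-- **Rayleigh inequality** in terms of the terminals. -/
theorem rayleighT {k : ℕ} (ends : E → Sym2 V) (S : Finset E) (t : Fin k → V)
    (a : Matrix (Fin k) (Fin k) ℝ) (ha : a.IsSymm) (g h : Fin k → ℝ) :
    RT ends S t a * RT ends S t (a + vecMulVec g g + vecMulVec h h) ≤
      RT ends S t (a + vecMulVec g g) * RT ends S t (a + vecMulVec h h) := by
  have hs : (PM t * a * (PM t)ᵀ).IsSymm := by
    rw [Matrix.IsSymm, Matrix.transpose_mul, Matrix.transpose_mul, Matrix.transpose_transpose,
      ha.eq, Matrix.mul_assoc]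
  have h1 := rayleigh' ends S (PM t * a * (PM t)ᵀ) hs (PM t *ᵥ g) (PM t *ᵥ h)
  rw [← PM_rank_one, ← PM_rank_one, ← Matrix.add_mul, ← Matrix.mul_add, ← Matrix.add_mul,
    ← Matrix.mul_add, ← Matrix.add_mul, ← Matrix.mul_add, R_PM, R_PM, R_PM, R_PM] at h1
  exact h1

end Pool.Agent.Lib.MP_d90615_co
end
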