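import Pool.Agent.Lib.MP_d90615_co.Mg.G037
import Pool.Agent.Lib.MP_d90615_co.Cycle
import Pool.Agent.Lib.MP_d90615_co.Mg.G034

section

/-!
Evaluation of the Rayleigh inequality at `A = 0`, `v = e_a - e_b`, `w = e_c - e_d`, and the
bound `P(e,f ∈ F) ≤ (4/3) P(e ∈ F) P(f ∈ F)`.
-/

namespace Pool.Agent.Lib.MP_d90615_co

open Matrix Finset
open scoped Classical

variable {V E : Type*} [Fintype V]

lemma det_one_rank_two {n : Type*} [Fintype n] [DecidableEq n] (x y p q : n → ℝ) :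
    ((1 : Matrix n n ℝ) + vecMulVec x p + vecMulVec y q).det =
      (1 + p ⬝ᵥ x) * (1 + q ⬝ᵥ y) - (p ⬝ᵥ y) * (q ⬝ᵥ x) := by
  have h1 : (1 : Matrix n n ℝ) + vecMulVec x p + vecMulVec y q =
      1 + (Matrix.of fun i (k : Fin 2) => (![x i, y i] : Fin 2 → ℝ) k) *
        (Matrix.of fun (k : Fin 2) j => (![p j, q j] : Fin 2 → ℝ) k) := by
    ext i j
    simp [Matrix.mul_apply, Fin.sum_univ_two, vecMulVec_apply, add_assoc]
  rw [h1, Matrix.det_one_add_mul_comm, Matrix.det_fin_two]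
  have e : ∀ (k l : Fin 2), ((Matrix.of fun (k : Fin 2) j => (![p j, q j] : Fin 2 → ℝ) k) *
      (Matrix.of fun i (k : Fin 2) => (![x i, y i] : Fin 2 → ℝ) k)) k l =
      (fun j => (![p j, q j] : Fin 2 → ℝ) k) ⬝ᵥ (fun i => (![x i, y i] : Fin 2 → ℝ) l) := by
    intro k l
    rfl
  simp only [Matrix.add_apply, e]
  simp

/-- `vᵀ J_F w`. -/
noncomputable def q (ends : E → Sym2 V) (F : Finset E) (v w : V → ℝ) : ℝ :=
  v ⬝ᵥ (JR ends F *ᵥ w)

lemma q_symm (ends : E → Sym2 V) (F : Finset E) (v w : V → ℝ) :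
    q ends F v w = q ends F w v := by
  have hs : (JR ends F)ᵀ = JR ends F := by
    ext i j
    rw [Matrix.transpose_apply, JR_apply, JR_apply]
    have : Conn ends F i j ↔ Conn ends F j i := ⟨Conn.symm, Conn.symm⟩
    simp [this]
  rw [q, q, Matrix.dotProduct_mulVec, ← Matrix.mulVec_transpose, hs, dotProduct_comm]

lemma R_zero (ends : E → Sym2 V) (S : Finset E) :
    R ends S (0 : Matrix V V ℝ) = ∑ F ∈ S.powerset with Forest ends F, 1 := by
  rw [R]
  simp

lemma R_two (ends : E → Sym2 V) (S : Finset E) (v w : V → ℝ) :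
    R ends S (0 + vecMulVec v v + vecMulVec w w) = ∑ F ∈ S.powerset with Forest ends F,
      ((1 + q ends F v v) * (1 + q ends F w w) - q ends F v w ^ 2) := by
  rw [R]
  refine Finset.sum_congr rfl fun F _ => ?_
  have h1 : 1 + JR ends F * (0 + vecMulVec v v + vecMulVec w w) =
      1 + vecMulVec (JR ends F *ᵥ v) v + vecMulVec (JR ends F *ᵥ w) w := by
    rw [zero_add, Matrix.mul_add, mul_vecMulVec, mul_vecMulVec, add_assoc]
  rw [h1, det_one_rank_two]
  have h2 : v ⬝ᵥ (JR ends F *ᵥ w) = q ends F v w := rfl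
  have h3 : w ⬝ᵥ (JR ends F *ᵥ v) = q ends F v w := by
    rw [q_symm]; rfl
  have h4 : v ⬝ᵥ (JR ends F *ᵥ v) = q ends F v v := rfl
  have h5 : w ⬝ᵥ (JR ends F *ᵥ w) = q ends F w w := rfl
  rw [h2, h3, h4, h5]
  ring

lemma R_one (ends : E → Sym2 V) (S : Finset E) (v : V → ℝ) :
    R ends S (0 + vecMulVec v v) = ∑ F ∈ S.powerset with Forest ends F, (1 + q ends F v v) := by
  have h := R_two ends S v 0
  have h0 : vecMulVec (0 : V → ℝ) (0 : V → ℝ) = 0 := by simp
  rw [h0, add_zero] at h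
  rw [h]
  refine Finset.sum_congr rfl fun F _ => ?_
  simp [q]

/-- Rayleigh at `A = 0` in terms of `q`. -/
lemma rayleigh_zero (ends : E → Sym2 V) (hloop : ∀ e, ¬ (ends e).IsDiag) (S : Finset E)
    (v w : V → ℝ) :
    (∑ F ∈ S.powerset with Forest ends F, (1 : ℝ)) *
      (∑ F ∈ S.powerset with Forest ends F, (q ends F v v * q ends F w w - q ends F v w ^ 2)) ≤
    (∑ F ∈ S.powerset with Forest ends F, q ends F v v) *
      (∑ F ∈ S.powerset with Forest ends F, q ends F w w) := by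
  have h := rayleigh ends hloop S 0 (by simp [Matrix.IsSymm]) v w
  rw [R_zero, R_one, R_one, R_two] at h
  have e1 : (∑ F ∈ S.powerset with Forest ends F,
      ((1 + q ends F v v) * (1 + q ends F w w) - q ends F v w ^ 2)) =
      (∑ F ∈ S.powerset with Forest ends F, (1 : ℝ)) +
      (∑ F ∈ S.powerset with Forest ends F, q ends F v v) +
      (∑ F ∈ S.powerset with Forest ends F, q ends F w w) +
      (∑ F ∈ S.powerset with Forest ends F,
        (q ends F v v * q ends F w w - q ends F v w ^ 2)) := by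
    rw [← Finset.sum_add_distrib, ← Finset.sum_add_distrib, ← Finset.sum_add_distrib]
    exact Finset.sum_congr rfl fun F _ => by ring
  rw [e1, Finset.sum_add_distrib, Finset.sum_add_distrib] at h
  nlinarith

/-- `vᵀ J_F w` for difference vectors. -/
lemma q_diff (ends : E → Sym2 V) (F : Finset E) (a b c d : V) :
    q ends F (Pi.single a 1 - Pi.single b 1) (Pi.single c 1 - Pi.single d 1) =
      (JR ends F a c - JR ends F a d) - (JR ends F b c - JR ends F b d) := by
  rw [q, Matrix.mulVec_sub, mulVec_single_one, mulVec_single_one, sub_dotProduct,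
    single_dotProduct, single_dotProduct]
  simp [Matrix.col_apply]

omit [Fintype V] in
lemma JR_eq_one {ends : E → Sym2 V} {F : Finset E} {i j : V} (h : Conn ends F i j) :
    JR ends F i j = 1 := by
  rw [JR_apply, if_pos h]

omit [Fintype V] in
lemma JR_eq_zero {ends : E → Sym2 V} {F : Finset E} {i j : V} (h : ¬ Conn ends F i j) :
    JR ends F i j = 0 := by
  rw [JR_apply, if_neg h]

lemma q_self (ends : E → Sym2 V) (F : Finset E) (a b : V) :
    q ends F (Pi.single a 1 - Pi.single b 1) (Pi.single a 1 - Pi.single b 1) =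
      2 * (if ¬ Conn ends F a b then 1 else 0) := by
  rw [q_diff, JR_eq_one (Conn.refl ends F a), JR_eq_one (Conn.refl ends F b)]
  by_cases h : Conn ends F a b
  · rw [JR_eq_one h, JR_eq_one h.symm]
    simp [h]
  · rw [JR_eq_zero h, JR_eq_zero (fun h' => h h'.symm)]
    simp [h]
    norm_num

/-- Pointwise comparison: at least `3` when both edges can be added. -/
lemma q_point {ends : E → Sym2 V} {F : Finset E} {e : E} {a b : V}
    (he : ends e = s(a, b)) (c d : V) :
    3 * (if ¬ Conn ends F a b ∧ ¬ Conn ends (insert e F) c d then 1 else 0 : ℝ) ≤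
      q ends F (Pi.single a 1 - Pi.single b 1) (Pi.single a 1 - Pi.single b 1) *
        q ends F (Pi.single c 1 - Pi.single d 1) (Pi.single c 1 - Pi.single d 1) -
      q ends F (Pi.single a 1 - Pi.single b 1) (Pi.single c 1 - Pi.single d 1) ^ 2 := by
  rw [q_self, q_self, q_diff, conn_insert he]
  by_cases hab : Conn ends F a b
  · have h1 : JR ends F a c = JR ends F b c := by
      rw [JR_apply, JR_apply]
      have : Conn ends F a c ↔ Conn ends F b c :=
        ⟨fun h => hab.symm.trans h, fun h => hab.trans h⟩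
      simp [this]
    have h2 : JR ends F a d = JR ends F b d := by
      rw [JR_apply, JR_apply]
      have : Conn ends F a d ↔ Conn ends F b d :=
        ⟨fun h => hab.symm.trans h, fun h => hab.trans h⟩
      simp [this]
    simp [hab, h1, h2]
  by_cases hcd : Conn ends F c d
  · have h1 : JR ends F a c = JR ends F a d := by
      rw [JR_apply, JR_apply]
      have : Conn ends F a c ↔ Conn ends F a d :=
        ⟨fun h => h.trans hcd, fun h => h.trans hcd.symm⟩
      simp [this]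
    have h2 : JR ends F b c = JR ends F b d := by
      rw [JR_apply, JR_apply]
      have : Conn ends F b c ↔ Conn ends F b d :=
        ⟨fun h => h.trans hcd, fun h => h.trans hcd.symm⟩
      simp [this]
    simp [hcd, h1, h2]
  have n1 : ¬ (Conn ends F a c ∧ Conn ends F a d) := fun ⟨h, h'⟩ => hcd (h.symm.trans h')
  have n2 : ¬ (Conn ends F b c ∧ Conn ends F b d) := fun ⟨h, h'⟩ => hcd (h.symm.trans h')
  have n3 : ¬ (Conn ends F a c ∧ Conn ends F b c) := fun ⟨h, h'⟩ => hab (h.trans h'.symm)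
  have n4 : ¬ (Conn ends F a d ∧ Conn ends F b d) := fun ⟨h, h'⟩ => hab (h.trans h'.symm)
  have sc : Conn ends F c a ↔ Conn ends F a c := ⟨Conn.symm, Conn.symm⟩
  have sc' : Conn ends F c b ↔ Conn ends F b c := ⟨Conn.symm, Conn.symm⟩
  rw [JR_apply, JR_apply, JR_apply, JR_apply, sc, sc']
  by_cases h1 : Conn ends F a c <;> by_cases h2 : Conn ends F a d <;>
    by_cases h3 : Conn ends F b c <;> by_cases h4 : Conn ends F b d <;>
    simp [h1, h2, h3, h4, hab, hcd] at n1 n2 n3 n4 ⊢ <;> norm_num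

/-- The two-by-two inequality for the graph without `e` and `f`. -/
lemma four_thirds_core (ends : E → Sym2 V) (hloop : ∀ e, ¬ (ends e).IsDiag)
    (S : Finset E) {e : E} {a b : V} (he : ends e = s(a, b)) (c d : V) :
    3 * (∑ F ∈ S.powerset with Forest ends F, (1 : ℝ)) *
      (∑ F ∈ S.powerset with Forest ends F,
        (if ¬ Conn ends F a b ∧ ¬ Conn ends (insert e F) c d then 1 else 0 : ℝ)) ≤
    4 * (∑ F ∈ S.powerset with Forest ends F, (if ¬ Conn ends F a b then 1 else 0 : ℝ)) *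
      (∑ F ∈ S.powerset with Forest ends F, (if ¬ Conn ends F c d then 1 else 0 : ℝ)) := by
  have h := rayleigh_zero ends hloop S (Pi.single a 1 - Pi.single b 1)
    (Pi.single c 1 - Pi.single d 1)
  have h1 : 3 * (∑ F ∈ S.powerset with Forest ends F,
        (if ¬ Conn ends F a b ∧ ¬ Conn ends (insert e F) c d then 1 else 0 : ℝ)) ≤
      ∑ F ∈ S.powerset with Forest ends F,
      (q ends F (Pi.single a 1 - Pi.single b 1) (Pi.single a 1 - Pi.single b 1) *
        q ends F (Pi.single c 1 - Pi.single d 1) (Pi.single c 1 - Pi.single d 1) -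
      q ends F (Pi.single a 1 - Pi.single b 1) (Pi.single c 1 - Pi.single d 1) ^ 2) := by
    rw [Finset.mul_sum]
    exact Finset.sum_le_sum fun F _ => q_point he c d
  simp only [q_self] at h
  rw [← Finset.mul_sum, ← Finset.mul_sum] at h
  simp only [q_self] at h1
  have h0 : (0 : ℝ) ≤ ∑ F ∈ S.powerset with Forest ends F, (1 : ℝ) :=
    Finset.sum_nonneg fun _ _ => zero_le_one
  nlinarith [mul_le_mul_of_nonneg_left h1 h0]

omit [Fintype V] in
/-- Splitting a sum over the subsets of `S ∪ {e, f}`. -/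
lemma sum_two {S : Finset E} {e f : E} (he : e ∉ insert f S) (hf : f ∉ S)
    (g : Finset E → ℝ) :
    ∑ F ∈ (insert e (insert f S)).powerset, g F =
      ∑ F ∈ S.powerset, (g F + g (insert f F) + g (insert e F) + g (insert e (insert f F))) := by
  rw [Finset.sum_powerset_insert he, Finset.sum_powerset_insert hf,
    Finset.sum_powerset_insert hf (fun F => g (insert e F))]
  rw [← Finset.sum_add_distrib, ← Finset.sum_add_distrib, ← Finset.sum_add_distrib]
  exact Finset.sum_congr rfl fun F _ => by ring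

/-- The bound in terms of the forests of `S ∪ {e, f}`. -/
theorem four_thirds (ends : E → Sym2 V) (hloop : ∀ e, ¬ (ends e).IsDiag)
    (S : Finset E) {e f : E} (he : e ∉ insert f S) (hf : f ∉ S) :
    3 * (∑ F ∈ (insert e (insert f S)).powerset,
        (if Forest ends F ∧ e ∈ F ∧ f ∈ F then 1 else 0 : ℝ)) *
      (∑ F ∈ (insert e (insert f S)).powerset, (if Forest ends F then 1 else 0 : ℝ)) ≤
    4 * (∑ F ∈ (insert e (insert f S)).powerset,
        (if Forest ends F ∧ e ∈ F then 1 else 0 : ℝ)) *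
      (∑ F ∈ (insert e (insert f S)).powerset,
        (if Forest ends F ∧ f ∈ F then 1 else 0 : ℝ)) := by
  obtain ⟨a, b, hab⟩ : ∃ a b, ends e = s(a, b) := by
    induction h : ends e using Sym2.ind with
    | _ u v => exact ⟨u, v, rfl⟩
  obtain ⟨c, d, hcd⟩ : ∃ c d, ends f = s(c, d) := by
    induction h : ends f using Sym2.ind with
    | _ u v => exact ⟨u, v, rfl⟩
  have hef : e ≠ f := fun h => he (h ▸ Finset.mem_insert_self _ _)
  have heS : e ∉ S := fun h => he (Finset.mem_insert_of_mem h)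
  have hfor : ∀ F ∈ S.powerset,
      (Forest ends (insert f F) ↔ Forest ends F ∧ ¬ Conn ends F c d) ∧
      (Forest ends (insert e F) ↔ Forest ends F ∧ ¬ Conn ends F a b) ∧
      (Forest ends (insert e (insert f F)) ↔
        Forest ends F ∧ ¬ Conn ends F a b ∧ ¬ Conn ends (insert e F) c d) ∧
      e ∉ F ∧ f ∉ F := by
    intro F hF
    have heF : e ∉ F := fun h => heS (Finset.mem_powerset.mp hF h)
    have hfF : f ∉ F := fun h => hf (Finset.mem_powerset.mp hF h)
    have hfeF : f ∉ insert e F := by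
      rw [Finset.mem_insert]
      rintro (h | h)
      · exact hef h.symm
      · exact hfF h
    refine ⟨forest_insert hcd hfF, forest_insert hab heF, ?_, heF, hfF⟩
    rw [Finset.insert_comm, forest_insert hcd hfeF, forest_insert hab heF, and_assoc]
  set N : ℝ := ∑ F ∈ S.powerset with Forest ends F, (1 : ℝ) with hN
  set Ne : ℝ := ∑ F ∈ S.powerset with Forest ends F,
    (if ¬ Conn ends F a b then 1 else 0 : ℝ) with hNe
  set Nf : ℝ := ∑ F ∈ S.powerset with Forest ends F,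
    (if ¬ Conn ends F c d then 1 else 0 : ℝ) with hNf
  set Nef : ℝ := ∑ F ∈ S.powerset with Forest ends F,
    (if ¬ Conn ends F a b ∧ ¬ Conn ends (insert e F) c d then 1 else 0 : ℝ) with hNef
  have hcore : 3 * N * Nef ≤ 4 * Ne * Nf := four_thirds_core ends hloop S hab c d
  have t0 : (∑ F ∈ (insert e (insert f S)).powerset,
      (if Forest ends F then 1 else 0 : ℝ)) = N + Nf + Ne + Nef := by
    rw [sum_two he hf, hN, hNe, hNf, hNef, Finset.sum_filter, Finset.sum_filter,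
      Finset.sum_filter, Finset.sum_filter, ← Finset.sum_add_distrib, ← Finset.sum_add_distrib,
      ← Finset.sum_add_distrib]
    refine Finset.sum_congr rfl fun F hF => ?_
    obtain ⟨h1, h2, h3, h4, h5⟩ := hfor F hF
    simp only [h1, h2, h3]
    by_cases h : Forest ends F <;> simp [h]
  have t1 : (∑ F ∈ (insert e (insert f S)).powerset,
      (if Forest ends F ∧ e ∈ F then 1 else 0 : ℝ)) = Ne + Nef := by
    rw [sum_two he hf, hNe, hNef, Finset.sum_filter, Finset.sum_filter,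
      ← Finset.sum_add_distrib]
    refine Finset.sum_congr rfl fun F hF => ?_
    obtain ⟨h1, h2, h3, h4, h5⟩ := hfor F hF
    simp only [h1, h2, h3]
    by_cases h : Forest ends F <;> simp [h, h4, hef]
  have t2 : (∑ F ∈ (insert e (insert f S)).powerset,
      (if Forest ends F ∧ f ∈ F then 1 else 0 : ℝ)) = Nf + Nef := by
    rw [sum_two he hf, hNf, hNef, Finset.sum_filter, Finset.sum_filter,
      ← Finset.sum_add_distrib]
    refine Finset.sum_congr rfl fun F hF => ?_
    obtain ⟨h1, h2, h3, h4, h5⟩ := hfor F hF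
    simp only [h1, h2, h3]
    by_cases h : Forest ends F <;> simp [h, h5, hef.symm]
  have t3 : (∑ F ∈ (insert e (insert f S)).powerset,
      (if Forest ends F ∧ e ∈ F ∧ f ∈ F then 1 else 0 : ℝ)) = Nef := by
    rw [sum_two he hf, hNef, Finset.sum_filter]
    refine Finset.sum_congr rfl fun F hF => ?_
    obtain ⟨h1, h2, h3, h4, h5⟩ := hfor F hF
    simp only [h1, h2, h3]
    by_cases h : Forest ends F <;> simp [h, h4, h5, hef, hef.symm]
  rw [t0, t1, t2, t3]
  have p1 : 0 ≤ Ne := Finset.sum_nonneg fun F _ => by split_ifs <;> norm_num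
  have p2 : 0 ≤ Nf := Finset.sum_nonneg fun F _ => by split_ifs <;> norm_num
  have p3 : 0 ≤ Nef := Finset.sum_nonneg fun F _ => by split_ifs <;> norm_num
  nlinarith [mul_nonneg p3 p1, mul_nonneg p3 p2, mul_nonneg p3 p3]

end Pool.Agent.Lib.MP_d90615_co
end

section

/-!
Adjacent edges `e = ca`, `f = cb`: leading coefficient in `y` of the Rayleigh inequality at
`A = y e_c e_cᵀ`, `v = e_a`, `w = e_b`.
-/

namespace Pool.Agent.Lib.MP_d90615_co

open Matrix Finset
open scoped Classical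

variable {V E : Type*} [Fintype V]

lemma det_one_rank_three {n : Type*} [Fintype n] [DecidableEq n] (x₁ x₂ x₃ p₁ p₂ p₃ : n → ℝ) :
    ((1 : Matrix n n ℝ) + vecMulVec x₁ p₁ + vecMulVec x₂ p₂ + vecMulVec x₃ p₃).det =
      (1 + p₁ ⬝ᵥ x₁) * ((1 + p₂ ⬝ᵥ x₂) * (1 + p₃ ⬝ᵥ x₃) - (p₂ ⬝ᵥ x₃) * (p₃ ⬝ᵥ x₂))
      - (p₁ ⬝ᵥ x₂) * ((p₂ ⬝ᵥ x₁) * (1 + p₃ ⬝ᵥ x₃) - (p₂ ⬝ᵥ x₃) * (p₃ ⬝ᵥ x₁))
      + (p₁ ⬝ᵥ x₃) * ((p₂ ⬝ᵥ x₁) * (p₃ ⬝ᵥ x₂) - (1 + p₂ ⬝ᵥ x₂) * (p₃ ⬝ᵥ x₁)) := by
  have h1 : (1 : Matrix n n ℝ) + vecMulVec x₁ p₁ + vecMulVec x₂ p₂ + vecMulVec x₃ p₃ =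
      1 + (Matrix.of fun i (k : Fin 3) => (![x₁ i, x₂ i, x₃ i] : Fin 3 → ℝ) k) *
        (Matrix.of fun (k : Fin 3) j => (![p₁ j, p₂ j, p₃ j] : Fin 3 → ℝ) k) := by
    ext i j
    simp [Matrix.mul_apply, Fin.sum_univ_three, vecMulVec_apply, add_assoc]
  rw [h1, Matrix.det_one_add_mul_comm, Matrix.det_fin_three]
  have e : ∀ (k l : Fin 3),
      ((Matrix.of fun (k : Fin 3) j => (![p₁ j, p₂ j, p₃ j] : Fin 3 → ℝ) k) *
      (Matrix.of fun i (k : Fin 3) => (![x₁ i, x₂ i, x₃ i] : Fin 3 → ℝ) k)) k l =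
      (fun j => (![p₁ j, p₂ j, p₃ j] : Fin 3 → ℝ) k) ⬝ᵥ
        (fun i => (![x₁ i, x₂ i, x₃ i] : Fin 3 → ℝ) l) := by
    intro k l
    rfl
  simp only [Matrix.add_apply, e]
  simp
  ring

/-- The forest sum at `y e_c e_cᵀ + t e_a e_aᵀ + s e_b e_bᵀ`. -/
lemma R_three (ends : E → Sym2 V) (S : Finset E) (a b c : V) (y t s : ℝ) :
    R ends S (y • vecMulVec (Pi.single c 1) (Pi.single c 1)
      + t • vecMulVec (Pi.single a 1) (Pi.single a 1)
      + s • vecMulVec (Pi.single b 1) (Pi.single b 1)) =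
    ∑ F ∈ S.powerset with Forest ends F,
      (1 + y + t + s + y * t * (if ¬ Conn ends F c a then 1 else 0)
        + y * s * (if ¬ Conn ends F c b then 1 else 0)
        + t * s * (if ¬ Conn ends F a b then 1 else 0)
        + y * t * s * (if ¬ Conn ends F c a ∧ ¬ Conn ends F c b ∧ ¬ Conn ends F a b
            then 1 else 0)) := by
  rw [R]
  refine Finset.sum_congr rfl fun F _ => ?_
  have h1 : 1 + JR ends F * (y • vecMulVec (Pi.single c 1) (Pi.single c 1)
      + t • vecMulVec (Pi.single a 1) (Pi.single a 1)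
      + s • vecMulVec (Pi.single b 1) (Pi.single b 1)) =
      1 + vecMulVec (JR ends F *ᵥ Pi.single c 1) (y • Pi.single c 1)
        + vecMulVec (JR ends F *ᵥ Pi.single a 1) (t • Pi.single a 1)
        + vecMulVec (JR ends F *ᵥ Pi.single b 1) (s • Pi.single b 1) := by
    rw [Matrix.mul_add, Matrix.mul_add, Matrix.mul_smul, Matrix.mul_smul, Matrix.mul_smul,
      mul_vecMulVec, mul_vecMulVec, mul_vecMulVec, vecMulVec_smul, vecMulVec_smul,
      vecMulVec_smul]
    simp only [add_assoc]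
  have hd : ∀ (r : ℝ) (i j : V),
      (r • Pi.single i (1 : ℝ)) ⬝ᵥ (JR ends F *ᵥ Pi.single j 1) = r * JR ends F i j := by
    intro r i j
    rw [smul_dotProduct, single_dotProduct, mulVec_single_one, Matrix.col_apply, one_mul,
      smul_eq_mul]
  rw [h1, det_one_rank_three]
  simp only [hd]
  have sc : Conn ends F a c ↔ Conn ends F c a := ⟨Conn.symm, Conn.symm⟩
  have sc' : Conn ends F b c ↔ Conn ends F c b := ⟨Conn.symm, Conn.symm⟩
  have sc'' : Conn ends F b a ↔ Conn ends F a b := ⟨Conn.symm, Conn.symm⟩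
  have n1 : Conn ends F c a → Conn ends F c b → Conn ends F a b := fun h h' => h.symm.trans h'
  have n2 : Conn ends F c a → Conn ends F a b → Conn ends F c b := fun h h' => h.trans h'
  have n3 : Conn ends F c b → Conn ends F a b → Conn ends F c a := fun h h' => h.trans h'.symm
  rw [JR_eq_one (Conn.refl ends F a), JR_eq_one (Conn.refl ends F b),
    JR_eq_one (Conn.refl ends F c), JR_apply, JR_apply, JR_apply, JR_apply, JR_apply, JR_apply,
    sc, sc', sc'']
  by_cases h1 : Conn ends F c a <;> by_cases h2 : Conn ends F c b <;>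
    by_cases h3 : Conn ends F a b <;>
    simp [h1, h2, h3] at n1 n2 n3 ⊢ <;> ring

lemma leading_nonpos (A B C : ℝ) (h : ∀ y : ℝ, 0 < y → A * y ^ 2 + B * y + C ≤ 0) : A ≤ 0 := by
  by_contra hA
  have hA : 0 < A := not_le.mp hA
  have h1 := h (1 + (|B| + |C|) / A) (by positivity)
  set r := (|B| + |C|) / A with hr
  have hr0 : 0 ≤ r := by positivity
  have h2 : A * r = |B| + |C| := by rw [hr]; field_simp
  have h3 : -|B| ≤ B := neg_abs_le B
  have h4 : -|C| ≤ C := neg_abs_le C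
  have h5 : A * (1 + r) ^ 2 = A + A * r + (A * r) * (1 + r) := by ring
  rw [h5, h2] at h1
  have h6 : -|B| * (1 + r) ≤ B * (1 + r) := mul_le_mul_of_nonneg_right h3 (by linarith)
  nlinarith [abs_nonneg B, abs_nonneg C]

/-- The inequality `N · #(a|b|c) ≤ #(a ≁ c) · #(b ≁ c)`. -/
lemma adjacent_core (ends : E → Sym2 V) (hloop : ∀ e, ¬ (ends e).IsDiag)
    (S : Finset E) (a b c : V) :
    (∑ F ∈ S.powerset with Forest ends F, (1 : ℝ)) *
      (∑ F ∈ S.powerset with Forest ends F,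
        (if ¬ Conn ends F c a ∧ ¬ Conn ends F c b ∧ ¬ Conn ends F a b then 1 else 0 : ℝ)) ≤
    (∑ F ∈ S.powerset with Forest ends F, (if ¬ Conn ends F c a then 1 else 0 : ℝ)) *
      (∑ F ∈ S.powerset with Forest ends F, (if ¬ Conn ends F c b then 1 else 0 : ℝ)) := by
  set N : ℝ := ∑ F ∈ S.powerset with Forest ends F, (1 : ℝ) with hN
  set Pa : ℝ := ∑ F ∈ S.powerset with Forest ends F,
    (if ¬ Conn ends F c a then 1 else 0 : ℝ) with hPa
  set Pb : ℝ := ∑ F ∈ S.powerset with Forest ends F,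
    (if ¬ Conn ends F c b then 1 else 0 : ℝ) with hPb
  set Pab : ℝ := ∑ F ∈ S.powerset with Forest ends F,
    (if ¬ Conn ends F a b then 1 else 0 : ℝ) with hPab
  set T : ℝ := ∑ F ∈ S.powerset with Forest ends F,
    (if ¬ Conn ends F c a ∧ ¬ Conn ends F c b ∧ ¬ Conn ends F a b then 1 else 0 : ℝ) with hT
  have hR : ∀ y t s : ℝ, R ends S (y • vecMulVec (Pi.single c 1) (Pi.single c 1)
      + t • vecMulVec (Pi.single a 1) (Pi.single a 1)
      + s • vecMulVec (Pi.single b 1) (Pi.single b 1)) =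
      (1 + y + t + s) * N + y * t * Pa + y * s * Pb + t * s * Pab + y * t * s * T := by
    intro y t s
    rw [R_three, hN, hPa, hPb, hPab, hT, Finset.mul_sum, Finset.mul_sum, Finset.mul_sum,
      Finset.mul_sum, Finset.mul_sum, ← Finset.sum_add_distrib, ← Finset.sum_add_distrib,
      ← Finset.sum_add_distrib, ← Finset.sum_add_distrib]
    exact Finset.sum_congr rfl fun F _ => by ring
  have hmain : ∀ y : ℝ, 0 < y →
      (N * (N + Pa + Pb + T) - (N + Pa) * (N + Pb)) * y ^ 2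
      + (N * (3 * N + Pab) + N * (N + Pa + Pb + T) - 2 * N * (N + Pa) - 2 * N * (N + Pb)) * y
      + (N * (3 * N + Pab) - 4 * N * N) ≤ 0 := by
    intro y _
    have hs : (y • vecMulVec (Pi.single c (1 : ℝ)) (Pi.single c (1 : ℝ)) :
        Matrix V V ℝ).IsSymm := by
      rw [Matrix.IsSymm, Matrix.transpose_smul, transpose_vecMulVec]
    have h := rayleigh ends hloop S
      (y • vecMulVec (Pi.single c (1 : ℝ)) (Pi.single c (1 : ℝ))) hs
      (Pi.single a 1) (Pi.single b 1)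
    have r00 := hR y 0 0
    have r10 := hR y 1 0
    have r01 := hR y 0 1
    have r11 := hR y 1 1
    simp only [zero_smul, one_smul, add_zero] at r00 r10 r01 r11
    rw [r00, r10, r01, r11] at h
    nlinarith
  have := leading_nonpos _ _ _ hmain
  nlinarith

omit [Fintype V] in
/-- From the graph without `e, f` to the graph with `e, f`. -/
lemma two_by_two (ends : E → Sym2 V)
    (S : Finset E) {e f : E} (he : e ∉ insert f S) (hf : f ∉ S) {a b c d : V}
    (hab : ends e = s(a, b)) (hcd : ends f = s(c, d)) (K : ℝ) (hK : 1 ≤ K)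
    (hcore : (∑ F ∈ S.powerset with Forest ends F, (1 : ℝ)) *
      (∑ F ∈ S.powerset with Forest ends F,
        (if ¬ Conn ends F a b ∧ ¬ Conn ends (insert e F) c d then 1 else 0 : ℝ)) ≤
      K * (∑ F ∈ S.powerset with Forest ends F, (if ¬ Conn ends F a b then 1 else 0 : ℝ)) *
      (∑ F ∈ S.powerset with Forest ends F, (if ¬ Conn ends F c d then 1 else 0 : ℝ))) :
    (∑ F ∈ (insert e (insert f S)).powerset,
        (if Forest ends F ∧ e ∈ F ∧ f ∈ F then 1 else 0 : ℝ)) *
      (∑ F ∈ (insert e (insert f S)).powerset, (if Forest ends F then 1 else 0 : ℝ)) ≤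
    K * (∑ F ∈ (insert e (insert f S)).powerset,
        (if Forest ends F ∧ e ∈ F then 1 else 0 : ℝ)) *
      (∑ F ∈ (insert e (insert f S)).powerset,
        (if Forest ends F ∧ f ∈ F then 1 else 0 : ℝ)) := by
  have hef : e ≠ f := fun h => he (h ▸ Finset.mem_insert_self _ _)
  have heS : e ∉ S := fun h => he (Finset.mem_insert_of_mem h)
  have hfor : ∀ F ∈ S.powerset,
      (Forest ends (insert f F) ↔ Forest ends F ∧ ¬ Conn ends F c d) ∧
      (Forest ends (insert e F) ↔ Forest ends F ∧ ¬ Conn ends F a b) ∧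
      (Forest ends (insert e (insert f F)) ↔
        Forest ends F ∧ ¬ Conn ends F a b ∧ ¬ Conn ends (insert e F) c d) ∧
      e ∉ F ∧ f ∉ F := by
    intro F hF
    have heF : e ∉ F := fun h => heS (Finset.mem_powerset.mp hF h)
    have hfF : f ∉ F := fun h => hf (Finset.mem_powerset.mp hF h)
    have hfeF : f ∉ insert e F := by
      rw [Finset.mem_insert]
      rintro (h | h)
      · exact hef h.symm
      · exact hfF h
    refine ⟨forest_insert hcd hfF, forest_insert hab heF, ?_, heF, hfF⟩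
    rw [Finset.insert_comm, forest_insert hcd hfeF, forest_insert hab heF, and_assoc]
  set N : ℝ := ∑ F ∈ S.powerset with Forest ends F, (1 : ℝ) with hN
  set Ne : ℝ := ∑ F ∈ S.powerset with Forest ends F,
    (if ¬ Conn ends F a b then 1 else 0 : ℝ) with hNe
  set Nf : ℝ := ∑ F ∈ S.powerset with Forest ends F,
    (if ¬ Conn ends F c d then 1 else 0 : ℝ) with hNf
  set Nef : ℝ := ∑ F ∈ S.powerset with Forest ends F,
    (if ¬ Conn ends F a b ∧ ¬ Conn ends (insert e F) c d then 1 else 0 : ℝ) with hNef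
  have t0 : (∑ F ∈ (insert e (insert f S)).powerset,
      (if Forest ends F then 1 else 0 : ℝ)) = N + Nf + Ne + Nef := by
    rw [sum_two he hf, hN, hNe, hNf, hNef, Finset.sum_filter, Finset.sum_filter,
      Finset.sum_filter, Finset.sum_filter, ← Finset.sum_add_distrib, ← Finset.sum_add_distrib,
      ← Finset.sum_add_distrib]
    refine Finset.sum_congr rfl fun F hF => ?_
    obtain ⟨h1, h2, h3, h4, h5⟩ := hfor F hF
    simp only [h1, h2, h3]
    by_cases h : Forest ends F <;> simp [h]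
  have t1 : (∑ F ∈ (insert e (insert f S)).powerset,
      (if Forest ends F ∧ e ∈ F then 1 else 0 : ℝ)) = Ne + Nef := by
    rw [sum_two he hf, hNe, hNef, Finset.sum_filter, Finset.sum_filter,
      ← Finset.sum_add_distrib]
    refine Finset.sum_congr rfl fun F hF => ?_
    obtain ⟨h1, h2, h3, h4, h5⟩ := hfor F hF
    simp only [h1, h2, h3]
    by_cases h : Forest ends F <;> simp [h, h4, hef]
  have t2 : (∑ F ∈ (insert e (insert f S)).powerset,
      (if Forest ends F ∧ f ∈ F then 1 else 0 : ℝ)) = Nf + Nef := by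
    rw [sum_two he hf, hNf, hNef, Finset.sum_filter, Finset.sum_filter,
      ← Finset.sum_add_distrib]
    refine Finset.sum_congr rfl fun F hF => ?_
    obtain ⟨h1, h2, h3, h4, h5⟩ := hfor F hF
    simp only [h1, h2, h3]
    by_cases h : Forest ends F <;> simp [h, h5, hef.symm]
  have t3 : (∑ F ∈ (insert e (insert f S)).powerset,
      (if Forest ends F ∧ e ∈ F ∧ f ∈ F then 1 else 0 : ℝ)) = Nef := by
    rw [sum_two he hf, hNef, Finset.sum_filter]
    refine Finset.sum_congr rfl fun F hF => ?_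
    obtain ⟨h1, h2, h3, h4, h5⟩ := hfor F hF
    simp only [h1, h2, h3]
    by_cases h : Forest ends F <;> simp [h, h4, h5, hef, hef.symm]
  rw [t0, t1, t2, t3]
  have p1 : 0 ≤ Ne := Finset.sum_nonneg fun F _ => by split_ifs <;> norm_num
  have p2 : 0 ≤ Nf := Finset.sum_nonneg fun F _ => by split_ifs <;> norm_num
  have p3 : 0 ≤ Nef := Finset.sum_nonneg fun F _ => by split_ifs <;> norm_num
  have h1 : Nef * (Ne + Nf + Nef) ≤ K * (Nef * (Ne + Nf + Nef)) := by
    have : 0 ≤ Nef * (Ne + Nf + Nef) := by positivity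
    nlinarith
  nlinarith

/-- Adjacent edges `e = ca`, `f = cb` are negatively correlated. -/
theorem adjacent (ends : E → Sym2 V) (hloop : ∀ e, ¬ (ends e).IsDiag)
    (S : Finset E) {e f : E} (he : e ∉ insert f S) (hf : f ∉ S) {a b c : V}
    (hca : ends e = s(c, a)) (hcb : ends f = s(c, b)) :
    (∑ F ∈ (insert e (insert f S)).powerset,
        (if Forest ends F ∧ e ∈ F ∧ f ∈ F then 1 else 0 : ℝ)) *
      (∑ F ∈ (insert e (insert f S)).powerset, (if Forest ends F then 1 else 0 : ℝ)) ≤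
    (∑ F ∈ (insert e (insert f S)).powerset,
        (if Forest ends F ∧ e ∈ F then 1 else 0 : ℝ)) *
      (∑ F ∈ (insert e (insert f S)).powerset,
        (if Forest ends F ∧ f ∈ F then 1 else 0 : ℝ)) := by
  have h := two_by_two ends S he hf hca hcb 1 le_rfl ?_
  · rwa [one_mul] at h
  · rw [one_mul]
    refine le_trans (le_of_eq ?_) (adjacent_core ends hloop S a b c)
    congr 1
    refine Finset.sum_congr rfl fun F _ => ?_
    have h1 : (¬ Conn ends F c a ∧ ¬ Conn ends (insert e F) c b) ↔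
        (¬ Conn ends F c a ∧ ¬ Conn ends F c b ∧ ¬ Conn ends F a b) := by
      rw [conn_insert hca]
      constructor
      · rintro ⟨h1, h2⟩
        refine ⟨h1, fun h => h2 (Or.inl h), fun h => h2 (Or.inr (Or.inl ⟨Conn.refl _ _ _, h⟩))⟩
      · rintro ⟨h1, h2, h3⟩
        refine ⟨h1, ?_⟩
        rintro (h | ⟨_, h⟩ | ⟨h, _⟩)
        · exact h2 h
        · exact h3 h
        · exact h1 h
    by_cases h2 : (¬ Conn ends F c a ∧ ¬ Conn ends F c b ∧ ¬ Conn ends F a b)
    · rw [if_pos (h1.mpr h2), if_pos h2]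
    · rw [if_neg (fun h => h2 (h1.mp h)), if_neg h2]

end Pool.Agent.Lib.MP_d90615_co
end

section

/-!
Connection patterns of four vertices and the determinant of the pinned forest sum.
-/

namespace Pool.Agent.Lib.MP_d90615_co

open Matrix Finset
open scoped Classical

variable {V E : Type*}

/-- The real indicator of a proposition. -/
noncomputable def ind (p : Prop) : ℝ := if p then 1 else 0

lemma ind_pos {p : Prop} (h : p) : ind p = 1 := if_pos h

lemma ind_neg {p : Prop} (h : ¬ p) : ind p = 0 := if_neg h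

lemma ind_nonneg (p : Prop) : 0 ≤ ind p := by
  unfold ind
  split_ifs <;> norm_num

lemma ind_comm (ends : E → Sym2 V) (F : Finset E) (x y : V) :
    ind (Conn ends F x y) = ind (Conn ends F y x) := by
  have : Conn ends F x y ↔ Conn ends F y x := ⟨Conn.symm, Conn.symm⟩
  rw [this]

/-- The fifteen connection patterns of four vertices. -/
lemma ind4 (ends : E → Sym2 V) (F : Finset E) (x y z w : V)
    (P : ℝ → ℝ → ℝ → ℝ → ℝ → ℝ → Prop)
    (c0 : P 1 1 1 1 1 1)
    (c1 : P 1 1 0 1 0 0)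
    (c2 : P 1 0 1 0 1 0)
    (c3 : P 1 0 0 0 0 1)
    (c4 : P 1 0 0 0 0 0)
    (c5 : P 0 1 1 0 0 1)
    (c6 : P 0 1 0 0 1 0)
    (c7 : P 0 1 0 0 0 0)
    (c8 : P 0 0 1 1 0 0)
    (c9 : P 0 0 0 1 1 1)
    (c10 : P 0 0 0 1 0 0)
    (c11 : P 0 0 1 0 0 0)
    (c12 : P 0 0 0 0 1 0)
    (c13 : P 0 0 0 0 0 1)
    (c14 : P 0 0 0 0 0 0) :
    P (ind (Conn ends F x y)) (ind (Conn ends F x z)) (ind (Conn ends F x w))
      (ind (Conn ends F y z)) (ind (Conn ends F y w)) (ind (Conn ends F z w)) := by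
  have n1 : Conn ends F x y → Conn ends F x z → Conn ends F y z := fun h h' => h.symm.trans h'
  have n2 : Conn ends F x y → Conn ends F y z → Conn ends F x z := fun h h' => h.trans h'
  have n3 : Conn ends F x z → Conn ends F y z → Conn ends F x y := fun h h' => h.trans h'.symm
  have n4 : Conn ends F x y → Conn ends F x w → Conn ends F y w := fun h h' => h.symm.trans h'
  have n5 : Conn ends F x y → Conn ends F y w → Conn ends F x w := fun h h' => h.trans h'
  have n6 : Conn ends F x w → Conn ends F y w → Conn ends F x y := fun h h' => h.trans h'.symm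
  have n7 : Conn ends F x z → Conn ends F x w → Conn ends F z w := fun h h' => h.symm.trans h'
  have n8 : Conn ends F x z → Conn ends F z w → Conn ends F x w := fun h h' => h.trans h'
  have n9 : Conn ends F x w → Conn ends F z w → Conn ends F x z := fun h h' => h.trans h'.symm
  have n10 : Conn ends F y z → Conn ends F y w → Conn ends F z w := fun h h' => h.symm.trans h'
  have n11 : Conn ends F y z → Conn ends F z w → Conn ends F y w := fun h h' => h.trans h'
  have n12 : Conn ends F y w → Conn ends F z w → Conn ends F y z := fun h h' => h.trans h'.symm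
  by_cases h1 : Conn ends F x y <;> by_cases h2 : Conn ends F x z <;>
    by_cases h3 : Conn ends F x w <;> by_cases h4 : Conn ends F y z <;>
    by_cases h5 : Conn ends F y w <;> by_cases h6 : Conn ends F z w <;>
    simp only [ind, h1, h2, h3, h4, h5, h6, if_true, if_false] <;>
    first
    | assumption
    | exact absurd (n1 h1 h2) h4
    | exact absurd (n2 h1 h4) h2
    | exact absurd (n3 h2 h4) h1
    | exact absurd (n4 h1 h3) h5
    | exact absurd (n5 h1 h5) h3
    | exact absurd (n6 h3 h5) h1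
    | exact absurd (n7 h2 h3) h6
    | exact absurd (n8 h2 h6) h3
    | exact absurd (n9 h3 h6) h2
    | exact absurd (n10 h4 h5) h6
    | exact absurd (n11 h4 h6) h5
    | exact absurd (n12 h5 h6) h4

/-- The fifteen connection patterns of four vertices, as a disjunction. -/
lemma ind4d (ends : E → Sym2 V) (F : Finset E) (x y z w : V) :
    (ind (Conn ends F x y) = 1 ∧ ind (Conn ends F x z) = 1 ∧ ind (Conn ends F x w) = 1 ∧ ind (Conn ends F y z) = 1 ∧ ind (Conn ends F y w) = 1 ∧ ind (Conn ends F z w) = 1) ∨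
    (ind (Conn ends F x y) = 1 ∧ ind (Conn ends F x z) = 1 ∧ ind (Conn ends F x w) = 0 ∧ ind (Conn ends F y z) = 1 ∧ ind (Conn ends F y w) = 0 ∧ ind (Conn ends F z w) = 0) ∨
    (ind (Conn ends F x y) = 1 ∧ ind (Conn ends F x z) = 0 ∧ ind (Conn ends F x w) = 1 ∧ ind (Conn ends F y z) = 0 ∧ ind (Conn ends F y w) = 1 ∧ ind (Conn ends F z w) = 0) ∨
    (ind (Conn ends F x y) = 1 ∧ ind (Conn ends F x z) = 0 ∧ ind (Conn ends F x w) = 0 ∧ ind (Conn ends F y z) = 0 ∧ ind (Conn ends F y w) = 0 ∧ ind (Conn ends F z w) = 1) ∨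
    (ind (Conn ends F x y) = 1 ∧ ind (Conn ends F x z) = 0 ∧ ind (Conn ends F x w) = 0 ∧ ind (Conn ends F y z) = 0 ∧ ind (Conn ends F y w) = 0 ∧ ind (Conn ends F z w) = 0) ∨
    (ind (Conn ends F x y) = 0 ∧ ind (Conn ends F x z) = 1 ∧ ind (Conn ends F x w) = 1 ∧ ind (Conn ends F y z) = 0 ∧ ind (Conn ends F y w) = 0 ∧ ind (Conn ends F z w) = 1) ∨
    (ind (Conn ends F x y) = 0 ∧ ind (Conn ends F x z) = 1 ∧ ind (Conn ends F x w) = 0 ∧ ind (Conn ends F y z) = 0 ∧ ind (Conn ends F y w) = 1 ∧ ind (Conn ends F z w) = 0) ∨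
    (ind (Conn ends F x y) = 0 ∧ ind (Conn ends F x z) = 1 ∧ ind (Conn ends F x w) = 0 ∧ ind (Conn ends F y z) = 0 ∧ ind (Conn ends F y w) = 0 ∧ ind (Conn ends F z w) = 0) ∨
    (ind (Conn ends F x y) = 0 ∧ ind (Conn ends F x z) = 0 ∧ ind (Conn ends F x w) = 1 ∧ ind (Conn ends F y z) = 1 ∧ ind (Conn ends F y w) = 0 ∧ ind (Conn ends F z w) = 0) ∨
    (ind (Conn ends F x y) = 0 ∧ ind (Conn ends F x z) = 0 ∧ ind (Conn ends F x w) = 0 ∧ ind (Conn ends F y z) = 1 ∧ ind (Conn ends F y w) = 1 ∧ ind (Conn ends F z w) = 1) ∨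
    (ind (Conn ends F x y) = 0 ∧ ind (Conn ends F x z) = 0 ∧ ind (Conn ends F x w) = 0 ∧ ind (Conn ends F y z) = 1 ∧ ind (Conn ends F y w) = 0 ∧ ind (Conn ends F z w) = 0) ∨
    (ind (Conn ends F x y) = 0 ∧ ind (Conn ends F x z) = 0 ∧ ind (Conn ends F x w) = 1 ∧ ind (Conn ends F y z) = 0 ∧ ind (Conn ends F y w) = 0 ∧ ind (Conn ends F z w) = 0) ∨
    (ind (Conn ends F x y) = 0 ∧ ind (Conn ends F x z) = 0 ∧ ind (Conn ends F x w) = 0 ∧ ind (Conn ends F y z) = 0 ∧ ind (Conn ends F y w) = 1 ∧ ind (Conn ends F z w) = 0) ∨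
    (ind (Conn ends F x y) = 0 ∧ ind (Conn ends F x z) = 0 ∧ ind (Conn ends F x w) = 0 ∧ ind (Conn ends F y z) = 0 ∧ ind (Conn ends F y w) = 0 ∧ ind (Conn ends F z w) = 1) ∨
    (ind (Conn ends F x y) = 0 ∧ ind (Conn ends F x z) = 0 ∧ ind (Conn ends F x w) = 0 ∧ ind (Conn ends F y z) = 0 ∧ ind (Conn ends F y w) = 0 ∧ ind (Conn ends F z w) = 0) :=
  ind4 ends F x y z w (fun p q s u k l =>
      (p = 1 ∧ q = 1 ∧ s = 1 ∧ u = 1 ∧ k = 1 ∧ l = 1) ∨
      (p = 1 ∧ q = 1 ∧ s = 0 ∧ u = 1 ∧ k = 0 ∧ l = 0) ∨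
      (p = 1 ∧ q = 0 ∧ s = 1 ∧ u = 0 ∧ k = 1 ∧ l = 0) ∨
      (p = 1 ∧ q = 0 ∧ s = 0 ∧ u = 0 ∧ k = 0 ∧ l = 1) ∨
      (p = 1 ∧ q = 0 ∧ s = 0 ∧ u = 0 ∧ k = 0 ∧ l = 0) ∨
      (p = 0 ∧ q = 1 ∧ s = 1 ∧ u = 0 ∧ k = 0 ∧ l = 1) ∨
      (p = 0 ∧ q = 1 ∧ s = 0 ∧ u = 0 ∧ k = 1 ∧ l = 0) ∨
      (p = 0 ∧ q = 1 ∧ s = 0 ∧ u = 0 ∧ k = 0 ∧ l = 0) ∨
      (p = 0 ∧ q = 0 ∧ s = 1 ∧ u = 1 ∧ k = 0 ∧ l = 0) ∨
      (p = 0 ∧ q = 0 ∧ s = 0 ∧ u = 1 ∧ k = 1 ∧ l = 1) ∨
      (p = 0 ∧ q = 0 ∧ s = 0 ∧ u = 1 ∧ k = 0 ∧ l = 0) ∨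
      (p = 0 ∧ q = 0 ∧ s = 1 ∧ u = 0 ∧ k = 0 ∧ l = 0) ∨
      (p = 0 ∧ q = 0 ∧ s = 0 ∧ u = 0 ∧ k = 1 ∧ l = 0) ∨
      (p = 0 ∧ q = 0 ∧ s = 0 ∧ u = 0 ∧ k = 0 ∧ l = 1) ∨
      (p = 0 ∧ q = 0 ∧ s = 0 ∧ u = 0 ∧ k = 0 ∧ l = 0))
    (by simp)
    (by simp)
    (by simp)
    (by simp)
    (by simp)
    (by simp)
    (by simp)
    (by simp)
    (by simp)
    (by simp)
    (by simp)
    (by simp)
    (by simp)
    (by simp)
    (by simp)

lemma CM4 (ends : E → Sym2 V) (F : Finset E) (x y z w : V) :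
    CM ends ![x, y, z, w] F =
      !![1, ind (Conn ends F x y), ind (Conn ends F x z), ind (Conn ends F x w);
        ind (Conn ends F x y), 1, ind (Conn ends F y z), ind (Conn ends F y w);
        ind (Conn ends F x z), ind (Conn ends F y z), 1, ind (Conn ends F z w);
        ind (Conn ends F x w), ind (Conn ends F y w), ind (Conn ends F z w), 1] := by
  ext i j
  fin_cases i <;> fin_cases j <;> simp [CM_apply, Conn.refl] <;>
    first
    | rfl
    | (rw [ind_comm]; rfl)

lemma det_four (p q s u k l t0 x r y w : ℝ) :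
    (1 + !![1,p,q,s; p,1,u,k; q,u,1,l; s,k,l,1] *
      !![t0,0,0,0; 0,x,x*r,0; 0,x*r,x*r*r+y,0; 0,0,0,w] : Matrix (Fin 4) (Fin 4) ℝ).det =
    (1 + y + w + y * w * (1 - l ^ 2))
    + (1 + y * (1 - q ^ 2) + w * (1 - s ^ 2)
        + y * w * (1 + 2 * q * s * l - q ^ 2 - s ^ 2 - l ^ 2)) * t0
    + ((1 + r ^ 2 + 2 * r * u) + y * (1 - u ^ 2)
        + w * ((1 + r ^ 2 + 2 * r * u) - (k + r * l) ^ 2)
        + y * w * (1 + 2 * u * k * l - u ^ 2 - k ^ 2 - l ^ 2)) * x
    + ((1 + r ^ 2 + 2 * r * u - (p + r * q) ^ 2)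
        + y * (1 + 2 * p * q * u - p ^ 2 - q ^ 2 - u ^ 2)
        + w * ((1 + 2 * p * s * k - p ^ 2 - s ^ 2 - k ^ 2)
            + r ^ 2 * (1 + 2 * q * s * l - q ^ 2 - s ^ 2 - l ^ 2)
            + 2 * r * (u * (1 - s ^ 2) - p * q - k * l + s * (p * l + q * k)))
        + y * w * ((1 - p ^ 2 - q ^ 2 - s ^ 2 - u ^ 2 - k ^ 2 - l ^ 2
            + 2 * p * q * u + 2 * p * s * k + 2 * q * s * l + 2 * u * k * l
            + p ^ 2 * l ^ 2 + q ^ 2 * k ^ 2 + s ^ 2 * u ^ 2
            - 2 * p * u * l * s - 2 * p * k * l * q - 2 * q * u * k * s))) * (t0 * x) := by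
  simp [Matrix.det_succ_row_zero, Fin.sum_univ_succ, Fin.succAbove, Matrix.one_apply]
  ring

end Pool.Agent.Lib.MP_d90615_co
end
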