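import Pool.Agent.Lib.MP_d90615_co.Base

section

/-!
The forest sum of four terminals at `α zzᵀ + y 11ᵀ + t vvᵀ + r wwᵀ`, where `z = (1,1,-1,-1)`,
`v = (1,-1,0,0)`, `w = (0,0,1,-1)`, and the Rayleigh inequality it satisfies.
-/

namespace Pool.Agent.Lib.MP_d90615_co

open Matrix Finset
open scoped Classical

variable {V E : Type*}

/-- `α zzᵀ + y 11ᵀ + t vvᵀ + r wwᵀ`. -/
def aC (α y t r : ℝ) : Matrix (Fin 4) (Fin 4) ℝ :=
  !![α + y + t, α + y - t, y - α, y - α;
     α + y - t, α + y + t, y - α, y - α;
     y - α, y - α, α + y + r, α + y - r;
     y - α, y - α, α + y - r, α + y + r]

lemma aC_symm (α y t r : ℝ) : (aC α y t r).IsSymm := by
  ext i j
  fin_cases i <;> fin_cases j <;> simp [aC]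

lemma aC_add1 (α y r : ℝ) :
    aC α y 0 r + vecMulVec ![1, -1, 0, 0] ![1, -1, 0, 0] = aC α y 1 r := by
  ext i j
  fin_cases i <;> fin_cases j <;> simp [aC, vecMulVec_apply] <;> ring

lemma aC_add2 (α y t : ℝ) :
    aC α y t 0 + vecMulVec ![0, 0, 1, -1] ![0, 0, 1, -1] = aC α y t 1 := by
  ext i j
  fin_cases i <;> fin_cases j <;> simp [aC, vecMulVec_apply] <;> ring

lemma dC0 (α y t r : ℝ) : (1 + (!![1,1,1,1; 1,1,1,1; 1,1,1,1; 1,1,1,1] : Matrix (Fin 4) (Fin 4) ℝ) * aC α y t r).det =
    1 + 16*y := by
  simp [aC, Matrix.det_succ_row_zero, Fin.sum_univ_succ, Fin.succAbove, Matrix.one_apply]
  ring

lemma dC1 (α y t r : ℝ) : (1 + (!![1,1,1,0; 1,1,1,0; 1,1,1,0; 0,0,0,1] : Matrix (Fin 4) (Fin 4) ℝ) * aC α y t r).det =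
    1 + 2*α + 10*y + 16*α*y + 2*r + 16*y*r := by
  simp [aC, Matrix.det_succ_row_zero, Fin.sum_univ_succ, Fin.succAbove, Matrix.one_apply]
  ring

lemma dC2 (α y t r : ℝ) : (1 + (!![1,1,0,1; 1,1,0,1; 0,0,1,0; 1,1,0,1] : Matrix (Fin 4) (Fin 4) ℝ) * aC α y t r).det =
    1 + 2*α + 10*y + 16*α*y + 2*r + 16*y*r := by
  simp [aC, Matrix.det_succ_row_zero, Fin.sum_univ_succ, Fin.succAbove, Matrix.one_apply]
  ring

lemma dC3 (α y t r : ℝ) : (1 + (!![1,1,0,0; 1,1,0,0; 0,0,1,1; 0,0,1,1] : Matrix (Fin 4) (Fin 4) ℝ) * aC α y t r).det =
    1 + 8*α + 8*y + 64*α*y := by
  simp [aC, Matrix.det_succ_row_zero, Fin.sum_univ_succ, Fin.succAbove, Matrix.one_apply]
  ring

lemma dC4 (α y t r : ℝ) : (1 + (!![1,1,0,0; 1,1,0,0; 0,0,1,0; 0,0,0,1] : Matrix (Fin 4) (Fin 4) ℝ) * aC α y t r).det =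
    1 + 6*α + 6*y + 32*α*y + 2*r + 12*α*r + 12*y*r + 64*α*y*r := by
  simp [aC, Matrix.det_succ_row_zero, Fin.sum_univ_succ, Fin.succAbove, Matrix.one_apply]
  ring

lemma dC5 (α y t r : ℝ) : (1 + (!![1,0,1,1; 0,1,0,0; 1,0,1,1; 1,0,1,1] : Matrix (Fin 4) (Fin 4) ℝ) * aC α y t r).det =
    1 + 2*α + 10*y + 16*α*y + 2*t + 16*y*t := by
  simp [aC, Matrix.det_succ_row_zero, Fin.sum_univ_succ, Fin.succAbove, Matrix.one_apply]
  ring

lemma dC6 (α y t r : ℝ) : (1 + (!![1,0,1,0; 0,1,0,1; 1,0,1,0; 0,1,0,1] : Matrix (Fin 4) (Fin 4) ℝ) * aC α y t r).det =
    1 + 8*y + 2*t + 16*y*t + 2*r + 16*y*r := by
  simp [aC, Matrix.det_succ_row_zero, Fin.sum_univ_succ, Fin.succAbove, Matrix.one_apply]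
  ring

lemma dC7 (α y t r : ℝ) : (1 + (!![1,0,1,0; 0,1,0,0; 1,0,1,0; 0,0,0,1] : Matrix (Fin 4) (Fin 4) ℝ) * aC α y t r).det =
    1 + 2*α + 6*y + 12*α*y + 2*t + 3*α*t + 11*y*t + 16*α*y*t + 2*r + 3*α*r + 11*y*r + 16*α*y*r + 3*t*r + 16*y*t*r := by
  simp [aC, Matrix.det_succ_row_zero, Fin.sum_univ_succ, Fin.succAbove, Matrix.one_apply]
  ring

lemma dC8 (α y t r : ℝ) : (1 + (!![1,0,0,1; 0,1,1,0; 0,1,1,0; 1,0,0,1] : Matrix (Fin 4) (Fin 4) ℝ) * aC α y t r).det =
    1 + 8*y + 2*t + 16*y*t + 2*r + 16*y*r := by
  simp [aC, Matrix.det_succ_row_zero, Fin.sum_univ_succ, Fin.succAbove, Matrix.one_apply]
  ring

lemma dC9 (α y t r : ℝ) : (1 + (!![1,0,0,0; 0,1,1,1; 0,1,1,1; 0,1,1,1] : Matrix (Fin 4) (Fin 4) ℝ) * aC α y t r).det =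
    1 + 2*α + 10*y + 16*α*y + 2*t + 16*y*t := by
  simp [aC, Matrix.det_succ_row_zero, Fin.sum_univ_succ, Fin.succAbove, Matrix.one_apply]
  ring

lemma dC10 (α y t r : ℝ) : (1 + (!![1,0,0,0; 0,1,1,0; 0,1,1,0; 0,0,0,1] : Matrix (Fin 4) (Fin 4) ℝ) * aC α y t r).det =
    1 + 2*α + 6*y + 12*α*y + 2*t + 3*α*t + 11*y*t + 16*α*y*t + 2*r + 3*α*r + 11*y*r + 16*α*y*r + 3*t*r + 16*y*t*r := by
  simp [aC, Matrix.det_succ_row_zero, Fin.sum_univ_succ, Fin.succAbove, Matrix.one_apply]
  ring

lemma dC11 (α y t r : ℝ) : (1 + (!![1,0,0,1; 0,1,0,0; 0,0,1,0; 1,0,0,1] : Matrix (Fin 4) (Fin 4) ℝ) * aC α y t r).det =
    1 + 2*α + 6*y + 12*α*y + 2*t + 3*α*t + 11*y*t + 16*α*y*t + 2*r + 3*α*r + 11*y*r + 16*α*y*r + 3*t*r + 16*y*t*r := by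
  simp [aC, Matrix.det_succ_row_zero, Fin.sum_univ_succ, Fin.succAbove, Matrix.one_apply]
  ring

lemma dC12 (α y t r : ℝ) : (1 + (!![1,0,0,0; 0,1,0,1; 0,0,1,0; 0,1,0,1] : Matrix (Fin 4) (Fin 4) ℝ) * aC α y t r).det =
    1 + 2*α + 6*y + 12*α*y + 2*t + 3*α*t + 11*y*t + 16*α*y*t + 2*r + 3*α*r + 11*y*r + 16*α*y*r + 3*t*r + 16*y*t*r := by
  simp [aC, Matrix.det_succ_row_zero, Fin.sum_univ_succ, Fin.succAbove, Matrix.one_apply]
  ring

lemma dC13 (α y t r : ℝ) : (1 + (!![1,0,0,0; 0,1,0,0; 0,0,1,1; 0,0,1,1] : Matrix (Fin 4) (Fin 4) ℝ) * aC α y t r).det =
    1 + 6*α + 6*y + 32*α*y + 2*t + 12*α*t + 12*y*t + 64*α*y*t := by
  simp [aC, Matrix.det_succ_row_zero, Fin.sum_univ_succ, Fin.succAbove, Matrix.one_apply]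
  ring

lemma dC14 (α y t r : ℝ) : (1 + (!![1,0,0,0; 0,1,0,0; 0,0,1,0; 0,0,0,1] : Matrix (Fin 4) (Fin 4) ℝ) * aC α y t r).det =
    1 + 4*α + 4*y + 16*α*y + 2*t + 8*α*t + 8*y*t + 32*α*y*t + 2*r + 8*α*r + 8*y*r + 32*α*y*r + 4*t*r + 16*α*t*r + 16*y*t*r + 64*α*y*t*r := by
  simp [aC, Matrix.det_succ_row_zero, Fin.sum_univ_succ, Fin.succAbove, Matrix.one_apply]
  ring

lemma RT_aC (ends : E → Sym2 V) (S : Finset E) (a b c d : V) (α y t r : ℝ) :
    RT ends S ![a, b, c, d] (aC α y t r) =
    xb ends S a b c d true true true true true true * (1 + 16*y) +
      xb ends S a b c d true true false true false false * (1 + 2*α + 10*y + 16*α*y + 2*r + 16*y*r) +
      xb ends S a b c d true false true false true false * (1 + 2*α + 10*y + 16*α*y + 2*r + 16*y*r) +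
      xb ends S a b c d true false false false false true * (1 + 8*α + 8*y + 64*α*y) +
      xb ends S a b c d true false false false false false * (1 + 6*α + 6*y + 32*α*y + 2*r + 12*α*r + 12*y*r + 64*α*y*r) +
      xb ends S a b c d false true true false false true * (1 + 2*α + 10*y + 16*α*y + 2*t + 16*y*t) +
      xb ends S a b c d false true false false true false * (1 + 8*y + 2*t + 16*y*t + 2*r + 16*y*r) +
      xb ends S a b c d false true false false false false * (1 + 2*α + 6*y + 12*α*y + 2*t + 3*α*t + 11*y*t + 16*α*y*t + 2*r + 3*α*r + 11*y*r + 16*α*y*r + 3*t*r + 16*y*t*r) +
      xb ends S a b c d false false true true false false * (1 + 8*y + 2*t + 16*y*t + 2*r + 16*y*r) +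
      xb ends S a b c d false false false true true true * (1 + 2*α + 10*y + 16*α*y + 2*t + 16*y*t) +
      xb ends S a b c d false false false true false false * (1 + 2*α + 6*y + 12*α*y + 2*t + 3*α*t + 11*y*t + 16*α*y*t + 2*r + 3*α*r + 11*y*r + 16*α*y*r + 3*t*r + 16*y*t*r) +
      xb ends S a b c d false false true false false false * (1 + 2*α + 6*y + 12*α*y + 2*t + 3*α*t + 11*y*t + 16*α*y*t + 2*r + 3*α*r + 11*y*r + 16*α*y*r + 3*t*r + 16*y*t*r) +
      xb ends S a b c d false false false false true false * (1 + 2*α + 6*y + 12*α*y + 2*t + 3*α*t + 11*y*t + 16*α*y*t + 2*r + 3*α*r + 11*y*r + 16*α*y*r + 3*t*r + 16*y*t*r) +
      xb ends S a b c d false false false false false true * (1 + 6*α + 6*y + 32*α*y + 2*t + 12*α*t + 12*y*t + 64*α*y*t) +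
      xb ends S a b c d false false false false false false * (1 + 4*α + 4*y + 16*α*y + 2*t + 8*α*t + 8*y*t + 32*α*y*t + 2*r + 8*α*r + 8*y*r + 32*α*y*r + 4*t*r + 16*α*t*r + 16*y*t*r + 64*α*y*t*r) := by
  have h := expand ends S a b c d (fun p q s u k l =>
    (1 + (!![1,p,q,s; p,1,u,k; q,u,1,l; s,k,l,1] : Matrix (Fin 4) (Fin 4) ℝ)
      * aC α y t r).det)
  rw [dC0, dC1, dC2, dC3, dC4, dC5, dC6, dC7, dC8, dC9, dC10, dC11, dC12, dC13, dC14] at h
  rw [RT, ← h]
  refine Finset.sum_congr rfl fun F _ => ?_
  rw [CM4]

end Pool.Agent.Lib.MP_d90615_co
end

section

/-!
The three terminal inequalities of four vertices, for the graph and for the graphs in which two
of the four vertices are glued, in terms of the fifteen pattern counts.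
-/

namespace Pool.Agent.Lib.MP_d90615_co

open Matrix Finset
open scoped Classical

variable {V E : Type*}

section glue

variable (ends : E → Sym2 V) (S : Finset E) {x y z w : V}

lemma gN (hxw : x ≠ w) : cN (gends ends x w) S =
    ∑ F ∈ S.powerset with Forest ends F, (1 - ind (Conn ends F x w)) := by
  rw [cN, sum_glue ends S hxw]
  exact Finset.sum_congr rfl fun F _ => mul_one _

lemma gxy (hxw : x ≠ w) (hyw : y ≠ w) : c2 (gends ends x w) S x y =
    ∑ F ∈ S.powerset with Forest ends F,
      (1 - ind (Conn ends F x w)) * (ind (Conn ends F x y) + ind (Conn ends F w y)) := by
  rw [c2, sum_glue ends S hxw]
  refine Finset.sum_congr rfl fun F _ => ?_
  rw [glue_ind ends F hxw hyw, ind_pos (Conn.refl ends F x)]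
  have := ind_sq (Conn ends F x w)
  linear_combination (-ind (Conn ends F x y)) * this

lemma gyz (hxw : x ≠ w) (hyw : y ≠ w) (hzw : z ≠ w) : c2 (gends ends x w) S y z =
    ∑ F ∈ S.powerset with Forest ends F,
      (1 - ind (Conn ends F x w)) * (ind (Conn ends F y z)
        + ind (Conn ends F y x) * ind (Conn ends F w z)
        + ind (Conn ends F y w) * ind (Conn ends F x z)) := by
  rw [c2, sum_glue ends S hxw]
  refine Finset.sum_congr rfl fun F _ => ?_
  rw [glue_ind ends F hyw hzw]

lemma gzx (hxw : x ≠ w) (hzw : z ≠ w) : c2 (gends ends x w) S z x =
    ∑ F ∈ S.powerset with Forest ends F,
      (1 - ind (Conn ends F x w)) * (ind (Conn ends F z x) + ind (Conn ends F z w)) := by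
  rw [c2, sum_glue ends S hxw]
  refine Finset.sum_congr rfl fun F _ => ?_
  rw [glue_ind ends F hzw hxw, ind_pos (Conn.refl ends F x), ind_comm ends F w x]
  have := ind_sq (Conn ends F x w)
  linear_combination (-ind (Conn ends F z x)) * this

lemma g3 (hxw : x ≠ w) (hyw : y ≠ w) (hzw : z ≠ w) : c3 (gends ends x w) S x y z =
    ∑ F ∈ S.powerset with Forest ends F,
      (1 - ind (Conn ends F x w)) * ((ind (Conn ends F x y) + ind (Conn ends F w y)) *
        (ind (Conn ends F y z) + ind (Conn ends F y x) * ind (Conn ends F w z)
        + ind (Conn ends F y w) * ind (Conn ends F x z))) := by
  rw [c3, sum_glue ends S hxw]
  refine Finset.sum_congr rfl fun F _ => ?_
  have h1 : (1 - ind (Conn ends F x w)) * ind (Conn (gends ends x w) F x y) =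
      (1 - ind (Conn ends F x w)) * (ind (Conn ends F x y) + ind (Conn ends F w y)) := by
    rw [glue_ind ends F hxw hyw, ind_pos (Conn.refl ends F x)]
    have := ind_sq (Conn ends F x w)
    linear_combination (-ind (Conn ends F x y)) * this
  have h2 := glue_ind ends F (c := x) hyw hzw
  calc (1 - ind (Conn ends F x w)) *
        (ind (Conn (gends ends x w) F x y) * ind (Conn (gends ends x w) F y z)) =
      ((1 - ind (Conn ends F x w)) * ind (Conn (gends ends x w) F x y)) *
        ind (Conn (gends ends x w) F y z) := by ring
    _ = (ind (Conn ends F x y) + ind (Conn ends F w y)) *
        ((1 - ind (Conn ends F x w)) * ind (Conn (gends ends x w) F y z)) := by
      rw [h1]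
      ring
    _ = _ := by
      rw [h2]
      ring

end glue

variable [Fintype V] (ends : E → Sym2 V) (S : Finset E)

set_option linter.unusedSimpArgs false

lemma K_abc {a b c d : V} (h1 : a ≠ b) (h2 : b ≠ c) (h3 : c ≠ a) :
    0 ≤ (xb ends S a b c d true true false true false false + xb ends S a b c d true true true true true true) *
        (xb ends S a b c d false false false false false false + xb ends S a b c d false false false false false true + xb ends S a b c d false false true false false false + xb ends S a b c d false false false false true false)
      - ((xb ends S a b c d true false false false false false + xb ends S a b c d true false false false false true + xb ends S a b c d true false true false true false) * (xb ends S a b c d false false false true false false + xb ends S a b c d false false false true true true + xb ends S a b c d false false true true false false)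
        + (xb ends S a b c d false false false true false false + xb ends S a b c d false false false true true true + xb ends S a b c d false false true true false false) * (xb ends S a b c d false true false false false false + xb ends S a b c d false true true false false true + xb ends S a b c d false true false false true false)
        + (xb ends S a b c d false true false false false false + xb ends S a b c d false true true false false true + xb ends S a b c d false true false false true false) * (xb ends S a b c d true false false false false false + xb ends S a b c d true false false false false true + xb ends S a b c d true false true false true false)) := by
  have h := dd_nonneg _ ends S rfl a b c h1 h2 h3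
  have e1 : cN ends S = xb ends S a b c d false false false false false false + xb ends S a b c d true false false false false false + xb ends S a b c d false false false false false true + xb ends S a b c d true false false false false true + xb ends S a b c d false true false false false false + xb ends S a b c d false false true false false false + xb ends S a b c d false false false true false false + xb ends S a b c d false false false false true false + xb ends S a b c d true true false true false false + xb ends S a b c d true false true false true false + xb ends S a b c d false true true false false true + xb ends S a b c d false false false true true true + xb ends S a b c d false true false false true false + xb ends S a b c d false false true true false false + xb ends S a b c d true true true true true true := by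
    have h := expand ends S a b c d (fun p q s u k l => 1)
    rw [cN, h]
    ring
  have e2 : c2 ends S a b = xb ends S a b c d true false false false false false + xb ends S a b c d true false false false false true + xb ends S a b c d true true false true false false + xb ends S a b c d true false true false true false + xb ends S a b c d true true true true true true := by
    have h := expand ends S a b c d (fun p q s u k l => p)
    rw [c2, h]
    ring
  have e3 : c2 ends S b c = xb ends S a b c d false false false true false false + xb ends S a b c d true true false true false false + xb ends S a b c d false false false true true true + xb ends S a b c d false false true true false false + xb ends S a b c d true true true true true true := by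
    have h := expand ends S a b c d (fun p q s u k l => u)
    rw [c2, h]
    ring
  have e4 : c2 ends S c a = xb ends S a b c d false true false false false false + xb ends S a b c d true true false true false false + xb ends S a b c d false true true false false true + xb ends S a b c d false true false false true false + xb ends S a b c d true true true true true true := by
    have h := expand ends S a b c d (fun p q s u k l => q)
    rw [c2_comm, c2, h]
    ring
  have e5 : c3 ends S a b c = xb ends S a b c d true true false true false false + xb ends S a b c d true true true true true true := by
    have h := expand ends S a b c d (fun p q s u k l => p * u)
    rw [c3, h]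
    ring
  rw [dd, e1, e2, e3, e4, e5, dl] at h
  linarith

lemma K_abd {a b c d : V} (h1 : a ≠ b) (h2 : b ≠ d) (h3 : d ≠ a) :
    0 ≤ (xb ends S a b c d true false true false true false + xb ends S a b c d true true true true true true) *
        (xb ends S a b c d false false false false false false + xb ends S a b c d false false false false false true + xb ends S a b c d false true false false false false + xb ends S a b c d false false false true false false)
      - ((xb ends S a b c d true false false false false false + xb ends S a b c d true false false false false true + xb ends S a b c d true true false true false false) * (xb ends S a b c d false false false false true false + xb ends S a b c d false false false true true true + xb ends S a b c d false true false false true false)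
        + (xb ends S a b c d false false false false true false + xb ends S a b c d false false false true true true + xb ends S a b c d false true false false true false) * (xb ends S a b c d false false true false false false + xb ends S a b c d false true true false false true + xb ends S a b c d false false true true false false)
        + (xb ends S a b c d false false true false false false + xb ends S a b c d false true true false false true + xb ends S a b c d false false true true false false) * (xb ends S a b c d true false false false false false + xb ends S a b c d true false false false false true + xb ends S a b c d true true false true false false)) := by
  have h := dd_nonneg _ ends S rfl a b d h1 h2 h3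
  have e1 : cN ends S = xb ends S a b c d false false false false false false + xb ends S a b c d true false false false false false + xb ends S a b c d false false false false false true + xb ends S a b c d true false false false false true + xb ends S a b c d false true false false false false + xb ends S a b c d false false true false false false + xb ends S a b c d false false false true false false + xb ends S a b c d false false false false true false + xb ends S a b c d true true false true false false + xb ends S a b c d true false true false true false + xb ends S a b c d false true true false false true + xb ends S a b c d false false false true true true + xb ends S a b c d false true false false true false + xb ends S a b c d false false true true false false + xb ends S a b c d true true true true true true := by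
    have h := expand ends S a b c d (fun p q s u k l => 1)
    rw [cN, h]
    ring
  have e2 : c2 ends S a b = xb ends S a b c d true false false false false false + xb ends S a b c d true false false false false true + xb ends S a b c d true true false true false false + xb ends S a b c d true false true false true false + xb ends S a b c d true true true true true true := by
    have h := expand ends S a b c d (fun p q s u k l => p)
    rw [c2, h]
    ring
  have e3 : c2 ends S b d = xb ends S a b c d false false false false true false + xb ends S a b c d true false true false true false + xb ends S a b c d false false false true true true + xb ends S a b c d false true false false true false + xb ends S a b c d true true true true true true := by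
    have h := expand ends S a b c d (fun p q s u k l => k)
    rw [c2, h]
    ring
  have e4 : c2 ends S d a = xb ends S a b c d false false true false false false + xb ends S a b c d true false true false true false + xb ends S a b c d false true true false false true + xb ends S a b c d false false true true false false + xb ends S a b c d true true true true true true := by
    have h := expand ends S a b c d (fun p q s u k l => s)
    rw [c2_comm, c2, h]
    ring
  have e5 : c3 ends S a b d = xb ends S a b c d true false true false true false + xb ends S a b c d true true true true true true := by
    have h := expand ends S a b c d (fun p q s u k l => p * k)
    rw [c3, h]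
    ring
  rw [dd, e1, e2, e3, e4, e5, dl] at h
  linarith

lemma K_acd {a b c d : V} (h1 : a ≠ c) (h2 : c ≠ d) (h3 : d ≠ a) :
    0 ≤ (xb ends S a b c d false true true false false true + xb ends S a b c d true true true true true true) *
        (xb ends S a b c d false false false false false false + xb ends S a b c d true false false false false false + xb ends S a b c d false false false true false false + xb ends S a b c d false false false false true false)
      - ((xb ends S a b c d false true false false false false + xb ends S a b c d true true false true false false + xb ends S a b c d false true false false true false) * (xb ends S a b c d false false false false false true + xb ends S a b c d true false false false false true + xb ends S a b c d false false false true true true)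
        + (xb ends S a b c d false false false false false true + xb ends S a b c d true false false false false true + xb ends S a b c d false false false true true true) * (xb ends S a b c d false false true false false false + xb ends S a b c d true false true false true false + xb ends S a b c d false false true true false false)
        + (xb ends S a b c d false false true false false false + xb ends S a b c d true false true false true false + xb ends S a b c d false false true true false false) * (xb ends S a b c d false true false false false false + xb ends S a b c d true true false true false false + xb ends S a b c d false true false false true false)) := by
  have h := dd_nonneg _ ends S rfl a c d h1 h2 h3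
  have e1 : cN ends S = xb ends S a b c d false false false false false false + xb ends S a b c d true false false false false false + xb ends S a b c d false false false false false true + xb ends S a b c d true false false false false true + xb ends S a b c d false true false false false false + xb ends S a b c d false false true false false false + xb ends S a b c d false false false true false false + xb ends S a b c d false false false false true false + xb ends S a b c d true true false true false false + xb ends S a b c d true false true false true false + xb ends S a b c d false true true false false true + xb ends S a b c d false false false true true true + xb ends S a b c d false true false false true false + xb ends S a b c d false false true true false false + xb ends S a b c d true true true true true true := by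
    have h := expand ends S a b c d (fun p q s u k l => 1)
    rw [cN, h]
    ring
  have e2 : c2 ends S a c = xb ends S a b c d false true false false false false + xb ends S a b c d true true false true false false + xb ends S a b c d false true true false false true + xb ends S a b c d false true false false true false + xb ends S a b c d true true true true true true := by
    have h := expand ends S a b c d (fun p q s u k l => q)
    rw [c2, h]
    ring
  have e3 : c2 ends S c d = xb ends S a b c d false false false false false true + xb ends S a b c d true false false false false true + xb ends S a b c d false true true false false true + xb ends S a b c d false false false true true true + xb ends S a b c d true true true true true true := by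
    have h := expand ends S a b c d (fun p q s u k l => l)
    rw [c2, h]
    ring
  have e4 : c2 ends S d a = xb ends S a b c d false false true false false false + xb ends S a b c d true false true false true false + xb ends S a b c d false true true false false true + xb ends S a b c d false false true true false false + xb ends S a b c d true true true true true true := by
    have h := expand ends S a b c d (fun p q s u k l => s)
    rw [c2_comm, c2, h]
    ring
  have e5 : c3 ends S a c d = xb ends S a b c d false true true false false true + xb ends S a b c d true true true true true true := by
    have h := expand ends S a b c d (fun p q s u k l => q * l)
    rw [c3, h]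
    ring
  rw [dd, e1, e2, e3, e4, e5, dl] at h
  linarith

lemma K_bcd {a b c d : V} (h1 : b ≠ c) (h2 : c ≠ d) (h3 : d ≠ b) :
    0 ≤ (xb ends S a b c d false false false true true true + xb ends S a b c d true true true true true true) *
        (xb ends S a b c d false false false false false false + xb ends S a b c d true false false false false false + xb ends S a b c d false true false false false false + xb ends S a b c d false false true false false false)
      - ((xb ends S a b c d false false false true false false + xb ends S a b c d true true false true false false + xb ends S a b c d false false true true false false) * (xb ends S a b c d false false false false false true + xb ends S a b c d true false false false false true + xb ends S a b c d false true true false false true)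
        + (xb ends S a b c d false false false false false true + xb ends S a b c d true false false false false true + xb ends S a b c d false true true false false true) * (xb ends S a b c d false false false false true false + xb ends S a b c d true false true false true false + xb ends S a b c d false true false false true false)
        + (xb ends S a b c d false false false false true false + xb ends S a b c d true false true false true false + xb ends S a b c d false true false false true false) * (xb ends S a b c d false false false true false false + xb ends S a b c d true true false true false false + xb ends S a b c d false false true true false false)) := by
  have h := dd_nonneg _ ends S rfl b c d h1 h2 h3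
  have e1 : cN ends S = xb ends S a b c d false false false false false false + xb ends S a b c d true false false false false false + xb ends S a b c d false false false false false true + xb ends S a b c d true false false false false true + xb ends S a b c d false true false false false false + xb ends S a b c d false false true false false false + xb ends S a b c d false false false true false false + xb ends S a b c d false false false false true false + xb ends S a b c d true true false true false false + xb ends S a b c d true false true false true false + xb ends S a b c d false true true false false true + xb ends S a b c d false false false true true true + xb ends S a b c d false true false false true false + xb ends S a b c d false false true true false false + xb ends S a b c d true true true true true true := by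
    have h := expand ends S a b c d (fun p q s u k l => 1)
    rw [cN, h]
    ring
  have e2 : c2 ends S b c = xb ends S a b c d false false false true false false + xb ends S a b c d true true false true false false + xb ends S a b c d false false false true true true + xb ends S a b c d false false true true false false + xb ends S a b c d true true true true true true := by
    have h := expand ends S a b c d (fun p q s u k l => u)
    rw [c2, h]
    ring
  have e3 : c2 ends S c d = xb ends S a b c d false false false false false true + xb ends S a b c d true false false false false true + xb ends S a b c d false true true false false true + xb ends S a b c d false false false true true true + xb ends S a b c d true true true true true true := by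
    have h := expand ends S a b c d (fun p q s u k l => l)
    rw [c2, h]
    ring
  have e4 : c2 ends S d b = xb ends S a b c d false false false false true false + xb ends S a b c d true false true false true false + xb ends S a b c d false false false true true true + xb ends S a b c d false true false false true false + xb ends S a b c d true true true true true true := by
    have h := expand ends S a b c d (fun p q s u k l => k)
    rw [c2_comm, c2, h]
    ring
  have e5 : c3 ends S b c d = xb ends S a b c d false false false true true true + xb ends S a b c d true true true true true true := by
    have h := expand ends S a b c d (fun p q s u k l => u * l)
    rw [c3, h]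
    ring
  rw [dd, e1, e2, e3, e4, e5, dl] at h
  linarith

lemma M_cabd {a b c d : V} (h1 : c ≠ a) (h2 : a ≠ b) (h3 : b ≠ c) (hxw : c ≠ d)
    (hyw : a ≠ d) (hzw : b ≠ d) :
    0 ≤ (xb ends S a b c d true true false true false false + xb ends S a b c d true false true false true false + xb ends S a b c d false true false false true false + xb ends S a b c d false false true true false false) *
        (xb ends S a b c d false false false false false false)
      - ((xb ends S a b c d false true false false false false + xb ends S a b c d false false true false false false) * (xb ends S a b c d true false false false false false)
        + (xb ends S a b c d true false false false false false) * (xb ends S a b c d false false false true false false + xb ends S a b c d false false false false true false)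
        + (xb ends S a b c d false false false true false false + xb ends S a b c d false false false false true false) * (xb ends S a b c d false true false false false false + xb ends S a b c d false false true false false false)) := by
  have h := dd_nonneg _ (gends ends c d) S rfl c a b h1 h2 h3
  have e1 : cN (gends ends c d) S = xb ends S a b c d false false false false false false + xb ends S a b c d true false false false false false + xb ends S a b c d false true false false false false + xb ends S a b c d false false true false false false + xb ends S a b c d false false false true false false + xb ends S a b c d false false false false true false + xb ends S a b c d true true false true false false + xb ends S a b c d true false true false true false + xb ends S a b c d false true false false true false + xb ends S a b c d false false true true false false := by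
    have h := expand ends S a b c d (fun p q s u k l => (1 - l))
    rw [gN ends S hxw]
    refine Eq.trans (Finset.sum_congr rfl fun F _ => ?_) (h.trans (by ring))
    simp only [ind_comm ends F b a, ind_comm ends F c a, ind_comm ends F d a, ind_comm ends F c b, ind_comm ends F d b, ind_comm ends F d c]
  have e2 : c2 (gends ends c d) S c a = xb ends S a b c d false true false false false false + xb ends S a b c d false false true false false false + xb ends S a b c d true true false true false false + xb ends S a b c d true false true false true false + xb ends S a b c d false true false false true false + xb ends S a b c d false false true true false false := by
    have h := expand ends S a b c d (fun p q s u k l => (1 - l) * (q + s))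
    rw [gxy ends S hxw hyw]
    refine Eq.trans (Finset.sum_congr rfl fun F _ => ?_) (h.trans (by ring))
    simp only [ind_comm ends F b a, ind_comm ends F c a, ind_comm ends F d a, ind_comm ends F c b, ind_comm ends F d b, ind_comm ends F d c]
  have e3 : c2 (gends ends c d) S a b = xb ends S a b c d true false false false false false + xb ends S a b c d true true false true false false + xb ends S a b c d true false true false true false + xb ends S a b c d false true false false true false + xb ends S a b c d false false true true false false := by
    have h := expand ends S a b c d (fun p q s u k l => (1 - l) * (p + q * k + s * u))
    rw [gyz ends S hxw hyw hzw]
    refine Eq.trans (Finset.sum_congr rfl fun F _ => ?_) (h.trans (by ring))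
    simp only [ind_comm ends F b a, ind_comm ends F c a, ind_comm ends F d a, ind_comm ends F c b, ind_comm ends F d b, ind_comm ends F d c]
  have e4 : c2 (gends ends c d) S b c = xb ends S a b c d false false false true false false + xb ends S a b c d false false false false true false + xb ends S a b c d true true false true false false + xb ends S a b c d true false true false true false + xb ends S a b c d false true false false true false + xb ends S a b c d false false true true false false := by
    have h := expand ends S a b c d (fun p q s u k l => (1 - l) * (u + k))
    rw [gzx ends S hxw hzw]
    refine Eq.trans (Finset.sum_congr rfl fun F _ => ?_) (h.trans (by ring))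
    simp only [ind_comm ends F b a, ind_comm ends F c a, ind_comm ends F d a, ind_comm ends F c b, ind_comm ends F d b, ind_comm ends F d c]
  have e5 : c3 (gends ends c d) S c a b = xb ends S a b c d true true false true false false + xb ends S a b c d true false true false true false + xb ends S a b c d false true false false true false + xb ends S a b c d false false true true false false := by
    have h := expand ends S a b c d (fun p q s u k l => (1 - l) * ((q + s) * (p + q * k + s * u)))
    rw [g3 ends S hxw hyw hzw]
    refine Eq.trans (Finset.sum_congr rfl fun F _ => ?_) (h.trans (by ring))
    simp only [ind_comm ends F b a, ind_comm ends F c a, ind_comm ends F d a, ind_comm ends F c b, ind_comm ends F d b, ind_comm ends F d c]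
  rw [dd, e1, e2, e3, e4, e5, dl] at h
  linarith

lemma M_acdb {a b c d : V} (h1 : a ≠ c) (h2 : c ≠ d) (h3 : d ≠ a) (hxw : a ≠ b)
    (hyw : c ≠ b) (hzw : d ≠ b) :
    0 ≤ (xb ends S a b c d false true true false false true + xb ends S a b c d false false false true true true + xb ends S a b c d false true false false true false + xb ends S a b c d false false true true false false) *
        (xb ends S a b c d false false false false false false)
      - ((xb ends S a b c d false true false false false false + xb ends S a b c d false false false true false false) * (xb ends S a b c d false false false false false true)
        + (xb ends S a b c d false false false false false true) * (xb ends S a b c d false false true false false false + xb ends S a b c d false false false false true false)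
        + (xb ends S a b c d false false true false false false + xb ends S a b c d false false false false true false) * (xb ends S a b c d false true false false false false + xb ends S a b c d false false false true false false)) := by
  have h := dd_nonneg _ (gends ends a b) S rfl a c d h1 h2 h3
  have e1 : cN (gends ends a b) S = xb ends S a b c d false false false false false false + xb ends S a b c d false false false false false true + xb ends S a b c d false true false false false false + xb ends S a b c d false false true false false false + xb ends S a b c d false false false true false false + xb ends S a b c d false false false false true false + xb ends S a b c d false true true false false true + xb ends S a b c d false false false true true true + xb ends S a b c d false true false false true false + xb ends S a b c d false false true true false false := by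
    have h := expand ends S a b c d (fun p q s u k l => (1 - p))
    rw [gN ends S hxw]
    refine Eq.trans (Finset.sum_congr rfl fun F _ => ?_) (h.trans (by ring))
    simp only [ind_comm ends F b a, ind_comm ends F c a, ind_comm ends F d a, ind_comm ends F c b, ind_comm ends F d b, ind_comm ends F d c]
  have e2 : c2 (gends ends a b) S a c = xb ends S a b c d false true false false false false + xb ends S a b c d false false false true false false + xb ends S a b c d false true true false false true + xb ends S a b c d false false false true true true + xb ends S a b c d false true false false true false + xb ends S a b c d false false true true false false := by
    have h := expand ends S a b c d (fun p q s u k l => (1 - p) * (q + u))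
    rw [gxy ends S hxw hyw]
    refine Eq.trans (Finset.sum_congr rfl fun F _ => ?_) (h.trans (by ring))
    simp only [ind_comm ends F b a, ind_comm ends F c a, ind_comm ends F d a, ind_comm ends F c b, ind_comm ends F d b, ind_comm ends F d c]
  have e3 : c2 (gends ends a b) S c d = xb ends S a b c d false false false false false true + xb ends S a b c d false true true false false true + xb ends S a b c d false false false true true true + xb ends S a b c d false true false false true false + xb ends S a b c d false false true true false false := by
    have h := expand ends S a b c d (fun p q s u k l => (1 - p) * (l + q * k + u * s))
    rw [gyz ends S hxw hyw hzw]
    refine Eq.trans (Finset.sum_congr rfl fun F _ => ?_) (h.trans (by ring))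
    simp only [ind_comm ends F b a, ind_comm ends F c a, ind_comm ends F d a, ind_comm ends F c b, ind_comm ends F d b, ind_comm ends F d c]
  have e4 : c2 (gends ends a b) S d a = xb ends S a b c d false false true false false false + xb ends S a b c d false false false false true false + xb ends S a b c d false true true false false true + xb ends S a b c d false false false true true true + xb ends S a b c d false true false false true false + xb ends S a b c d false false true true false false := by
    have h := expand ends S a b c d (fun p q s u k l => (1 - p) * (s + k))
    rw [gzx ends S hxw hzw]
    refine Eq.trans (Finset.sum_congr rfl fun F _ => ?_) (h.trans (by ring))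
    simp only [ind_comm ends F b a, ind_comm ends F c a, ind_comm ends F d a, ind_comm ends F c b, ind_comm ends F d b, ind_comm ends F d c]
  have e5 : c3 (gends ends a b) S a c d = xb ends S a b c d false true true false false true + xb ends S a b c d false false false true true true + xb ends S a b c d false true false false true false + xb ends S a b c d false false true true false false := by
    have h := expand ends S a b c d (fun p q s u k l => (1 - p) * ((q + u) * (l + q * k + u * s)))
    rw [g3 ends S hxw hyw hzw]
    refine Eq.trans (Finset.sum_congr rfl fun F _ => ?_) (h.trans (by ring))
    simp only [ind_comm ends F b a, ind_comm ends F c a, ind_comm ends F d a, ind_comm ends F c b, ind_comm ends F d b, ind_comm ends F d c]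
  rw [dd, e1, e2, e3, e4, e5, dl] at h
  linarith

lemma M_abcd {a b c d : V} (h1 : a ≠ b) (h2 : b ≠ c) (h3 : c ≠ a) (hxw : a ≠ d)
    (hyw : b ≠ d) (hzw : c ≠ d) :
    0 ≤ (xb ends S a b c d true false false false false true + xb ends S a b c d true true false true false false + xb ends S a b c d false false false true true true + xb ends S a b c d false true false false true false) *
        (xb ends S a b c d false false false false false false)
      - ((xb ends S a b c d true false false false false false + xb ends S a b c d false false false false true false) * (xb ends S a b c d false false false true false false)
        + (xb ends S a b c d false false false true false false) * (xb ends S a b c d false false false false false true + xb ends S a b c d false true false false false false)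
        + (xb ends S a b c d false false false false false true + xb ends S a b c d false true false false false false) * (xb ends S a b c d true false false false false false + xb ends S a b c d false false false false true false)) := by
  have h := dd_nonneg _ (gends ends a d) S rfl a b c h1 h2 h3
  have e1 : cN (gends ends a d) S = xb ends S a b c d false false false false false false + xb ends S a b c d true false false false false false + xb ends S a b c d false false false false false true + xb ends S a b c d true false false false false true + xb ends S a b c d false true false false false false + xb ends S a b c d false false false true false false + xb ends S a b c d false false false false true false + xb ends S a b c d true true false true false false + xb ends S a b c d false false false true true true + xb ends S a b c d false true false false true false := by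
    have h := expand ends S a b c d (fun p q s u k l => (1 - s))
    rw [gN ends S hxw]
    refine Eq.trans (Finset.sum_congr rfl fun F _ => ?_) (h.trans (by ring))
    simp only [ind_comm ends F b a, ind_comm ends F c a, ind_comm ends F d a, ind_comm ends F c b, ind_comm ends F d b, ind_comm ends F d c]
  have e2 : c2 (gends ends a d) S a b = xb ends S a b c d true false false false false false + xb ends S a b c d true false false false false true + xb ends S a b c d false false false false true false + xb ends S a b c d true true false true false false + xb ends S a b c d false false false true true true + xb ends S a b c d false true false false true false := by
    have h := expand ends S a b c d (fun p q s u k l => (1 - s) * (p + k))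
    rw [gxy ends S hxw hyw]
    refine Eq.trans (Finset.sum_congr rfl fun F _ => ?_) (h.trans (by ring))
    simp only [ind_comm ends F b a, ind_comm ends F c a, ind_comm ends F d a, ind_comm ends F c b, ind_comm ends F d b, ind_comm ends F d c]
  have e3 : c2 (gends ends a d) S b c = xb ends S a b c d true false false false false true + xb ends S a b c d false false false true false false + xb ends S a b c d true true false true false false + xb ends S a b c d false false false true true true + xb ends S a b c d false true false false true false := by
    have h := expand ends S a b c d (fun p q s u k l => (1 - s) * (u + p * l + k * q))
    rw [gyz ends S hxw hyw hzw]
    refine Eq.trans (Finset.sum_congr rfl fun F _ => ?_) (h.trans (by ring))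
    simp only [ind_comm ends F b a, ind_comm ends F c a, ind_comm ends F d a, ind_comm ends F c b, ind_comm ends F d b, ind_comm ends F d c]
  have e4 : c2 (gends ends a d) S c a = xb ends S a b c d false false false false false true + xb ends S a b c d true false false false false true + xb ends S a b c d false true false false false false + xb ends S a b c d true true false true false false + xb ends S a b c d false false false true true true + xb ends S a b c d false true false false true false := by
    have h := expand ends S a b c d (fun p q s u k l => (1 - s) * (q + l))
    rw [gzx ends S hxw hzw]
    refine Eq.trans (Finset.sum_congr rfl fun F _ => ?_) (h.trans (by ring))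
    simp only [ind_comm ends F b a, ind_comm ends F c a, ind_comm ends F d a, ind_comm ends F c b, ind_comm ends F d b, ind_comm ends F d c]
  have e5 : c3 (gends ends a d) S a b c = xb ends S a b c d true false false false false true + xb ends S a b c d true true false true false false + xb ends S a b c d false false false true true true + xb ends S a b c d false true false false true false := by
    have h := expand ends S a b c d (fun p q s u k l => (1 - s) * ((p + k) * (u + p * l + k * q)))
    rw [g3 ends S hxw hyw hzw]
    refine Eq.trans (Finset.sum_congr rfl fun F _ => ?_) (h.trans (by ring))
    simp only [ind_comm ends F b a, ind_comm ends F c a, ind_comm ends F d a, ind_comm ends F c b, ind_comm ends F d b, ind_comm ends F d c]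
  rw [dd, e1, e2, e3, e4, e5, dl] at h
  linarith

lemma M_abdc {a b c d : V} (h1 : a ≠ b) (h2 : b ≠ d) (h3 : d ≠ a) (hxw : a ≠ c)
    (hyw : b ≠ c) (hzw : d ≠ c) :
    0 ≤ (xb ends S a b c d true false false false false true + xb ends S a b c d true false true false true false + xb ends S a b c d false false false true true true + xb ends S a b c d false false true true false false) *
        (xb ends S a b c d false false false false false false)
      - ((xb ends S a b c d true false false false false false + xb ends S a b c d false false false true false false) * (xb ends S a b c d false false false false true false)
        + (xb ends S a b c d false false false false true false) * (xb ends S a b c d false false false false false true + xb ends S a b c d false false true false false false)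
        + (xb ends S a b c d false false false false false true + xb ends S a b c d false false true false false false) * (xb ends S a b c d true false false false false false + xb ends S a b c d false false false true false false)) := by
  have h := dd_nonneg _ (gends ends a c) S rfl a b d h1 h2 h3
  have e1 : cN (gends ends a c) S = xb ends S a b c d false false false false false false + xb ends S a b c d true false false false false false + xb ends S a b c d false false false false false true + xb ends S a b c d true false false false false true + xb ends S a b c d false false true false false false + xb ends S a b c d false false false true false false + xb ends S a b c d false false false false true false + xb ends S a b c d true false true false true false + xb ends S a b c d false false false true true true + xb ends S a b c d false false true true false false := by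
    have h := expand ends S a b c d (fun p q s u k l => (1 - q))
    rw [gN ends S hxw]
    refine Eq.trans (Finset.sum_congr rfl fun F _ => ?_) (h.trans (by ring))
    simp only [ind_comm ends F b a, ind_comm ends F c a, ind_comm ends F d a, ind_comm ends F c b, ind_comm ends F d b, ind_comm ends F d c]
  have e2 : c2 (gends ends a c) S a b = xb ends S a b c d true false false false false false + xb ends S a b c d true false false false false true + xb ends S a b c d false false false true false false + xb ends S a b c d true false true false true false + xb ends S a b c d false false false true true true + xb ends S a b c d false false true true false false := by
    have h := expand ends S a b c d (fun p q s u k l => (1 - q) * (p + u))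
    rw [gxy ends S hxw hyw]
    refine Eq.trans (Finset.sum_congr rfl fun F _ => ?_) (h.trans (by ring))
    simp only [ind_comm ends F b a, ind_comm ends F c a, ind_comm ends F d a, ind_comm ends F c b, ind_comm ends F d b, ind_comm ends F d c]
  have e3 : c2 (gends ends a c) S b d = xb ends S a b c d true false false false false true + xb ends S a b c d false false false false true false + xb ends S a b c d true false true false true false + xb ends S a b c d false false false true true true + xb ends S a b c d false false true true false false := by
    have h := expand ends S a b c d (fun p q s u k l => (1 - q) * (k + p * l + u * s))
    rw [gyz ends S hxw hyw hzw]
    refine Eq.trans (Finset.sum_congr rfl fun F _ => ?_) (h.trans (by ring))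
    simp only [ind_comm ends F b a, ind_comm ends F c a, ind_comm ends F d a, ind_comm ends F c b, ind_comm ends F d b, ind_comm ends F d c]
  have e4 : c2 (gends ends a c) S d a = xb ends S a b c d false false false false false true + xb ends S a b c d true false false false false true + xb ends S a b c d false false true false false false + xb ends S a b c d true false true false true false + xb ends S a b c d false false false true true true + xb ends S a b c d false false true true false false := by
    have h := expand ends S a b c d (fun p q s u k l => (1 - q) * (s + l))
    rw [gzx ends S hxw hzw]
    refine Eq.trans (Finset.sum_congr rfl fun F _ => ?_) (h.trans (by ring))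
    simp only [ind_comm ends F b a, ind_comm ends F c a, ind_comm ends F d a, ind_comm ends F c b, ind_comm ends F d b, ind_comm ends F d c]
  have e5 : c3 (gends ends a c) S a b d = xb ends S a b c d true false false false false true + xb ends S a b c d true false true false true false + xb ends S a b c d false false false true true true + xb ends S a b c d false false true true false false := by
    have h := expand ends S a b c d (fun p q s u k l => (1 - q) * ((p + u) * (k + p * l + u * s)))
    rw [g3 ends S hxw hyw hzw]
    refine Eq.trans (Finset.sum_congr rfl fun F _ => ?_) (h.trans (by ring))
    simp only [ind_comm ends F b a, ind_comm ends F c a, ind_comm ends F d a, ind_comm ends F c b, ind_comm ends F d b, ind_comm ends F d c]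
  rw [dd, e1, e2, e3, e4, e5, dl] at h
  linarith

lemma M_bacd {a b c d : V} (h1 : b ≠ a) (h2 : a ≠ c) (h3 : c ≠ b) (hxw : b ≠ d)
    (hyw : a ≠ d) (hzw : c ≠ d) :
    0 ≤ (xb ends S a b c d true false false false false true + xb ends S a b c d true true false true false false + xb ends S a b c d false true true false false true + xb ends S a b c d false false true true false false) *
        (xb ends S a b c d false false false false false false)
      - ((xb ends S a b c d true false false false false false + xb ends S a b c d false false true false false false) * (xb ends S a b c d false true false false false false)
        + (xb ends S a b c d false true false false false false) * (xb ends S a b c d false false false false false true + xb ends S a b c d false false false true false false)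
        + (xb ends S a b c d false false false false false true + xb ends S a b c d false false false true false false) * (xb ends S a b c d true false false false false false + xb ends S a b c d false false true false false false)) := by
  have h := dd_nonneg _ (gends ends b d) S rfl b a c h1 h2 h3
  have e1 : cN (gends ends b d) S = xb ends S a b c d false false false false false false + xb ends S a b c d true false false false false false + xb ends S a b c d false false false false false true + xb ends S a b c d true false false false false true + xb ends S a b c d false true false false false false + xb ends S a b c d false false true false false false + xb ends S a b c d false false false true false false + xb ends S a b c d true true false true false false + xb ends S a b c d false true true false false true + xb ends S a b c d false false true true false false := by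
    have h := expand ends S a b c d (fun p q s u k l => (1 - k))
    rw [gN ends S hxw]
    refine Eq.trans (Finset.sum_congr rfl fun F _ => ?_) (h.trans (by ring))
    simp only [ind_comm ends F b a, ind_comm ends F c a, ind_comm ends F d a, ind_comm ends F c b, ind_comm ends F d b, ind_comm ends F d c]
  have e2 : c2 (gends ends b d) S b a = xb ends S a b c d true false false false false false + xb ends S a b c d true false false false false true + xb ends S a b c d false false true false false false + xb ends S a b c d true true false true false false + xb ends S a b c d false true true false false true + xb ends S a b c d false false true true false false := by
    have h := expand ends S a b c d (fun p q s u k l => (1 - k) * (p + s))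
    rw [gxy ends S hxw hyw]
    refine Eq.trans (Finset.sum_congr rfl fun F _ => ?_) (h.trans (by ring))
    simp only [ind_comm ends F b a, ind_comm ends F c a, ind_comm ends F d a, ind_comm ends F c b, ind_comm ends F d b, ind_comm ends F d c]
  have e3 : c2 (gends ends b d) S a c = xb ends S a b c d true false false false false true + xb ends S a b c d false true false false false false + xb ends S a b c d true true false true false false + xb ends S a b c d false true true false false true + xb ends S a b c d false false true true false false := by
    have h := expand ends S a b c d (fun p q s u k l => (1 - k) * (q + p * l + s * u))
    rw [gyz ends S hxw hyw hzw]
    refine Eq.trans (Finset.sum_congr rfl fun F _ => ?_) (h.trans (by ring))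
    simp only [ind_comm ends F b a, ind_comm ends F c a, ind_comm ends F d a, ind_comm ends F c b, ind_comm ends F d b, ind_comm ends F d c]
  have e4 : c2 (gends ends b d) S c b = xb ends S a b c d false false false false false true + xb ends S a b c d true false false false false true + xb ends S a b c d false false false true false false + xb ends S a b c d true true false true false false + xb ends S a b c d false true true false false true + xb ends S a b c d false false true true false false := by
    have h := expand ends S a b c d (fun p q s u k l => (1 - k) * (u + l))
    rw [gzx ends S hxw hzw]
    refine Eq.trans (Finset.sum_congr rfl fun F _ => ?_) (h.trans (by ring))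
    simp only [ind_comm ends F b a, ind_comm ends F c a, ind_comm ends F d a, ind_comm ends F c b, ind_comm ends F d b, ind_comm ends F d c]
  have e5 : c3 (gends ends b d) S b a c = xb ends S a b c d true false false false false true + xb ends S a b c d true true false true false false + xb ends S a b c d false true true false false true + xb ends S a b c d false false true true false false := by
    have h := expand ends S a b c d (fun p q s u k l => (1 - k) * ((p + s) * (q + p * l + s * u)))
    rw [g3 ends S hxw hyw hzw]
    refine Eq.trans (Finset.sum_congr rfl fun F _ => ?_) (h.trans (by ring))
    simp only [ind_comm ends F b a, ind_comm ends F c a, ind_comm ends F d a, ind_comm ends F c b, ind_comm ends F d b, ind_comm ends F d c]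
  rw [dd, e1, e2, e3, e4, e5, dl] at h
  linarith

lemma M_badc {a b c d : V} (h1 : b ≠ a) (h2 : a ≠ d) (h3 : d ≠ b) (hxw : b ≠ c)
    (hyw : a ≠ c) (hzw : d ≠ c) :
    0 ≤ (xb ends S a b c d true false false false false true + xb ends S a b c d true false true false true false + xb ends S a b c d false true true false false true + xb ends S a b c d false true false false true false) *
        (xb ends S a b c d false false false false false false)
      - ((xb ends S a b c d true false false false false false + xb ends S a b c d false true false false false false) * (xb ends S a b c d false false true false false false)
        + (xb ends S a b c d false false true false false false) * (xb ends S a b c d false false false false false true + xb ends S a b c d false false false false true false)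
        + (xb ends S a b c d false false false false false true + xb ends S a b c d false false false false true false) * (xb ends S a b c d true false false false false false + xb ends S a b c d false true false false false false)) := by
  have h := dd_nonneg _ (gends ends b c) S rfl b a d h1 h2 h3
  have e1 : cN (gends ends b c) S = xb ends S a b c d false false false false false false + xb ends S a b c d true false false false false false + xb ends S a b c d false false false false false true + xb ends S a b c d true false false false false true + xb ends S a b c d false true false false false false + xb ends S a b c d false false true false false false + xb ends S a b c d false false false false true false + xb ends S a b c d true false true false true false + xb ends S a b c d false true true false false true + xb ends S a b c d false true false false true false := by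
    have h := expand ends S a b c d (fun p q s u k l => (1 - u))
    rw [gN ends S hxw]
    refine Eq.trans (Finset.sum_congr rfl fun F _ => ?_) (h.trans (by ring))
    simp only [ind_comm ends F b a, ind_comm ends F c a, ind_comm ends F d a, ind_comm ends F c b, ind_comm ends F d b, ind_comm ends F d c]
  have e2 : c2 (gends ends b c) S b a = xb ends S a b c d true false false false false false + xb ends S a b c d true false false false false true + xb ends S a b c d false true false false false false + xb ends S a b c d true false true false true false + xb ends S a b c d false true true false false true + xb ends S a b c d false true false false true false := by
    have h := expand ends S a b c d (fun p q s u k l => (1 - u) * (p + q))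
    rw [gxy ends S hxw hyw]
    refine Eq.trans (Finset.sum_congr rfl fun F _ => ?_) (h.trans (by ring))
    simp only [ind_comm ends F b a, ind_comm ends F c a, ind_comm ends F d a, ind_comm ends F c b, ind_comm ends F d b, ind_comm ends F d c]
  have e3 : c2 (gends ends b c) S a d = xb ends S a b c d true false false false false true + xb ends S a b c d false false true false false false + xb ends S a b c d true false true false true false + xb ends S a b c d false true true false false true + xb ends S a b c d false true false false true false := by
    have h := expand ends S a b c d (fun p q s u k l => (1 - u) * (s + p * l + q * k))
    rw [gyz ends S hxw hyw hzw]
    refine Eq.trans (Finset.sum_congr rfl fun F _ => ?_) (h.trans (by ring))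
    simp only [ind_comm ends F b a, ind_comm ends F c a, ind_comm ends F d a, ind_comm ends F c b, ind_comm ends F d b, ind_comm ends F d c]
  have e4 : c2 (gends ends b c) S d b = xb ends S a b c d false false false false false true + xb ends S a b c d true false false false false true + xb ends S a b c d false false false false true false + xb ends S a b c d true false true false true false + xb ends S a b c d false true true false false true + xb ends S a b c d false true false false true false := by
    have h := expand ends S a b c d (fun p q s u k l => (1 - u) * (k + l))
    rw [gzx ends S hxw hzw]
    refine Eq.trans (Finset.sum_congr rfl fun F _ => ?_) (h.trans (by ring))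
    simp only [ind_comm ends F b a, ind_comm ends F c a, ind_comm ends F d a, ind_comm ends F c b, ind_comm ends F d b, ind_comm ends F d c]
  have e5 : c3 (gends ends b c) S b a d = xb ends S a b c d true false false false false true + xb ends S a b c d true false true false true false + xb ends S a b c d false true true false false true + xb ends S a b c d false true false false true false := by
    have h := expand ends S a b c d (fun p q s u k l => (1 - u) * ((p + q) * (s + p * l + q * k)))
    rw [g3 ends S hxw hyw hzw]
    refine Eq.trans (Finset.sum_congr rfl fun F _ => ?_) (h.trans (by ring))
    simp only [ind_comm ends F b a, ind_comm ends F c a, ind_comm ends F d a, ind_comm ends F c b, ind_comm ends F d b, ind_comm ends F d c]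
  rw [dd, e1, e2, e3, e4, e5, dl] at h
  linarith

end Pool.Agent.Lib.MP_d90615_co
end
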